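import Pool.Agent.Lib.MP_696deb_nt.B7.LX

/-! The root number of an arbitrary quadratic twist. -/

set_option autoImplicit false

open Finset NumberTheorySymbols

namespace Pool.Agent.B6.B7

open Pool.Agent.Lib.MP_696deb_nt Pool.Agent.B4.GE Pool.Agent.G5
open Pool.Agent.Lib.MP_696deb_nt.B3 (PChr kro pchr_kro)

/-- The primes of the level that do not divide `d`. -/
def lvS (N : ℕ) (d : ℤ) : Finset ℕ := N.primeFactors.filter fun p => ¬ (p : ℤ) ∣ d

/-- The part of the level that is prime to `d`. -/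
def lvQ (N : ℕ) (d : ℤ) : ℕ := ∏ p ∈ lvS N d, p

/-- The finite part of the root number. -/
def rt0 (c : ℕ → ℤ) (N : ℕ) (d : ℤ) : ℤ := -∏ p ∈ lvS N d, -c p * J(d | p)

/-- The root number of the twist by a squarefree integer. -/
def rootNo (c : ℕ → ℤ) (N : ℕ) (d : ℤ) : ℤ := d.sign * rt0 c N d

variable {c : ℕ → ℤ} {N p : ℕ} {d a : ℤ}

theorem mem_lvS (hN : N ≠ 0) : p ∈ lvS N d ↔ p.Prime ∧ p ∣ N ∧ ¬ (p : ℤ) ∣ d := by
  simp [lvS, hN, and_assoc]

theorem lvS_prime (h : p ∈ lvS N d) : p.Prime := Nat.prime_of_mem_primeFactors (mem_filter.1 h).1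

theorem lvQ_ne : lvQ N d ≠ 0 := prod_ne_zero_iff.2 fun _ h => (lvS_prime h).ne_zero

theorem lvQ_pf : (lvQ N d).primeFactors = lvS N d := Nat.primeFactors_prod fun _ h => lvS_prime h

theorem lvQ_dvd : lvQ N d ∣ N :=
  (prod_dvd_prod_of_subset _ _ _ (filter_subset _ _)).trans (Nat.prod_primeFactors_dvd N)

theorem dvd_lvQ (hN : Squarefree N) : N ∣ lvQ N d * d.natAbs := by
  conv_lhs => rw [← Nat.prod_primeFactors_of_squarefree hN,
    ← prod_filter_not_mul_prod_filter _ fun p : ℕ => (p : ℤ) ∣ d]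
  exact mul_dvd_mul_left _ (Finset.prod_primes_dvd _
    (fun p hp => (Nat.prime_of_mem_primeFactors (mem_filter.1 hp).1).prime)
    fun p hp => Int.natCast_dvd.1 (mem_filter.1 hp).2)

theorem lvQ_cop : IsCoprime (lvQ N d : ℤ) d := by
  rw [lvQ, Nat.cast_prod]
  exact IsCoprime.prod_left fun p hp =>
    (Nat.prime_iff_prime_int.1 (lvS_prime hp)).irreducible.coprime_iff_not_dvd.2 (mem_filter.1 hp).2

theorem lvS_cop (h : IsCoprime d N) : lvS N d = N.primeFactors :=
  filter_true_of_mem fun _ hp k => (Nat.prime_iff_prime_int.1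
    (Nat.prime_of_mem_primeFactors hp)).not_isUnit (h.isUnit_of_dvd' k
      (Int.natCast_dvd_natCast.2 (Nat.dvd_of_mem_primeFactors hp)))

theorem lvQ_of_cop (hN : Squarefree N) (h : IsCoprime d N) : lvQ N d = N := by
  rw [lvQ, lvS_cop h, Nat.prod_primeFactors_of_squarefree hN]

theorem lvS_mul (ha : IsCoprime a N) : lvS N (d * a) = lvS N d :=
  filter_congr fun p hp => not_congr ⟨fun k => ((Nat.prime_iff_prime_int.1
    (Nat.prime_of_mem_primeFactors hp)).dvd_or_dvd k).resolve_right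
      (mem_filter.1 (lvS_cop ha ▸ hp : p ∈ lvS N a)).2, fun k => k.mul_right _⟩

theorem lvQ_mul (ha : IsCoprime a N) : lvQ N (d * a) = lvQ N d := by rw [lvQ, lvS_mul ha, lvQ]

theorem jac_lvQ (a : ℤ) : J(a | lvQ N d) = ∏ p ∈ lvS N d, J(a | p) := by
  rw [lvQ]
  have : ∀ p ∈ lvS N d, p ≠ 0 := fun _ h => (lvS_prime h).ne_zero
  generalize lvS N d = s at this
  induction s using Finset.induction_on with
  | empty => simp
  | insert p s hp ih =>
    rw [forall_mem_insert] at this
    rw [prod_insert hp, prod_insert hp, jacobiSym.mul_right' _ this.1 (prod_ne_zero_iff.2 this.2),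
      ih this.2]

theorem rt0_eq : rt0 c N d = -(∏ p ∈ lvS N d, -c p) * J(d | lvQ N d) := by
  rw [rt0, prod_mul_distrib, jac_lvQ, neg_mul]

theorem rt0_add (d : ℤ) : rt0 c N (d + N) = rt0 c N d := by
  have e : lvS N (d + N) = lvS N d := filter_congr fun p hp => not_congr
    (dvd_add_left (Int.natCast_dvd_natCast.2 (Nat.dvd_of_mem_primeFactors hp)))
  rw [rt0, rt0, e]
  congr 1
  refine prod_congr rfl fun p hp => congrArg _ (jacobiSym.mod_left' ?_)
  obtain ⟨k, hk⟩ := Nat.dvd_of_mem_primeFactors (mem_filter.1 hp).1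
  rw [hk, Nat.cast_mul, Int.add_mul_emod_self_left]

theorem rt0_cases (h : ∀ p : ℕ, p.Prime → p ∣ N → c p ^ 2 = 1) (d : ℤ) :
    rt0 c N d = 1 ∨ rt0 c N d = -1 := by
  refine sq_eq_one_iff.1 ?_
  rw [rt0, neg_sq, ← prod_pow]
  refine prod_eq_one fun p hp => ?_
  rw [mul_pow, neg_sq, h p (lvS_prime hp) (Nat.dvd_of_mem_primeFactors (mem_filter.1 hp).1), one_mul]
  exact jacobiSym.sq_one (Int.isCoprime_iff_gcd_eq_one.1 ((Nat.prime_iff_prime_int.1
    (lvS_prime hp)).irreducible.coprime_iff_not_dvd.2 (mem_filter.1 hp).2).symm)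

theorem rootNo_cases (h : ∀ p : ℕ, p.Prime → p ∣ N → c p ^ 2 = 1) (hd : d ≠ 0) :
    rootNo c N d = 1 ∨ rootNo c N d = -1 := by
  unfold rootNo
  rcases lt_or_gt_of_ne hd with k | k
  · rw [Int.sign_eq_neg_one_of_neg k]
    rcases rt0_cases h d with e | e <;> simp [e]
  · rw [Int.sign_eq_one_of_pos k, one_mul]
    exact rt0_cases h d

/-- Multiplication by an integer prime to the level. -/
theorem rootNo_mul (ha : IsCoprime a N) :
    rootNo c N (d * a) = rootNo c N d * (a.sign * J(a | lvQ N d)) := by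
  rw [rootNo, rootNo, rt0_eq, rt0_eq, lvS_mul ha, lvQ_mul ha, Int.sign_mul, jacobiSym.mul_left]
  ring

/-- Multiplication by a square modulo the primes of the level. -/
theorem rootNo_heeg (h : ∀ p : ℕ, p.Prime → p ∣ N → J(a | p) = 1) :
    rootNo c N (d * a) = rootNo c N d * a.sign := by
  have e : lvS N (d * a) = lvS N d := filter_congr fun p hp => not_congr ⟨fun k =>
    ((Nat.prime_iff_prime_int.1 (Nat.prime_of_mem_primeFactors hp)).dvd_or_dvd k).resolve_right
      fun k => by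
        have k1 := h p (Nat.prime_of_mem_primeFactors hp) (Nat.dvd_of_mem_primeFactors hp)
        rw [jacobiSym.mod_left, Int.emod_eq_zero_of_dvd k,
          jacobiSym.zero_left (Nat.prime_of_mem_primeFactors hp).one_lt] at k1
        exact zero_ne_one k1, fun k => k.mul_right _⟩
  rw [rootNo, rootNo, rt0, rt0, e, Int.sign_mul, mul_right_comm]
  congr 3
  refine prod_congr rfl fun p hp => ?_
  rw [jacobiSym.mul_left, h p (lvS_prime hp) (Nat.dvd_of_mem_primeFactors (mem_filter.1 hp).1),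
    mul_one]

theorem kro_neg (hd : Squarefree d) (hp : Odd p) : kro d (-p) = d.sign * J(d | p) := by
  rw [neg_eq_neg_one_mul, (pchr_kro hd).mul, B3.kro_neg_one hd, B3.kro_odd hd hp]

theorem rootNo_eq (hN : Odd N) (hd : Squarefree d) :
    rootNo c N d = -(∏ p ∈ lvS N d, -c p) * kro d (-lvQ N d) := by
  rw [rootNo, rt0_eq, kro_neg hd (hN.of_dvd_nat lvQ_dvd)]
  ring

theorem rootNo_prime (hp : p.Prime) (d : ℤ) :
    rootNo c p d = if (p : ℤ) ∣ d then -d.sign else d.sign * c p * J(d | p) := by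
  rw [rootNo, rt0, lvS, hp.primeFactors, filter_singleton]
  by_cases h : (p : ℤ) ∣ d <;> simp [h, mul_assoc]

variable {W : WeierstrassCurve ℚ} {D : MD W N}

theorem rootNo_one (h : Nw D) (hN : Squarefree N) : rootNo D.c N 1 = 1 := by
  rw [rootNo, rt0_eq, lvS_cop isCoprime_one_left, nw_prod h hN, jacobiSym.one_left]
  rfl

/-- The root number for twists prime to the level. -/
theorem rootNo_cop (h : Nw D) (hN : Squarefree N) (hc : IsCoprime d N) :
    rootNo D.c N d = d.sign * J(d | N) := by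
  rw [← one_mul d, rootNo_mul hc, rootNo_one h hN, lvQ_of_cop hN isCoprime_one_left, one_mul, one_mul]

theorem rootNo_jac (h : Nw D) (hN : Squarefree N) (ho : Odd N) (hd : Squarefree d) (h4 : d % 4 = 1)
    (hc : IsCoprime d N) : rootNo D.c N d = J(-N | d.natAbs) := by
  rw [rootNo_cop h hN hc, ← kro_neg hd ho, kro, B3.chi2, if_pos h4, one_mul, B3.odp,
    if_pos (by omega)]

theorem nw_cases (h : Nw D) (hd : d ≠ 0) : rootNo D.c N d = 1 ∨ rootNo D.c N d = -1 :=
  rootNo_cases (fun p hp k => (h p hp k).1) hd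

/-- The central value vanishes when the root number is `-1`. -/
theorem LKr_zero (h : Nw D) (hN : Squarefree N) (ho : Odd N) (hd : Squarefree d)
    (hr : rootNo D.c N d = -1) : LKr D.par.F d 1 = 0 := by
  have k := pchr_kro hd
  have cop : (lvQ N d).Coprime (B3.cond d) := Nat.Coprime.prod_left fun p hp =>
    (lvS_prime hp).coprime_iff_not_dvd.2 fun e => (mem_filter.1 hp).2 ((B3.odd_dvd_cond hd
      (ho.of_dvd_nat (Nat.dvd_of_mem_primeFactors (mem_filter.1 hp).1))).1 e)
  refine LX_eq_zero k D.N0 (md_ci D) lvQ_ne cop ((dvd_lvQ hN).trans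
    (mul_dvd_mul_left _ (Int.dvd_natCast.1 (B3.dvd_cond hd)))) fun w hw => ?_
  have e := k.sq (Nat.isCoprime_iff_coprime.2 cop).neg_left
  rw [rootNo_eq ho hd] at hr
  have := nw_al h hN lvQ_dvd w hw
  rwa [lvQ_pf, show ∏ p ∈ lvS N d, -D.c p = kro d (-lvQ N d) by
    linear_combination -kro d (-lvQ N d) * hr - (∏ p ∈ lvS N d, -D.c p) * e] at this

end Pool.Agent.B6.B7
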