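import Pool.Agent.Lib.MP_696deb_nt.B6.EP
import Pool.Agent.Lib.MP_696deb_nt.B7.RN

/-! The Euler product of the short model of an arbitrary quadratic twist. -/

set_option autoImplicit false

open NumberTheorySymbols

namespace Pool.Agent.B6.B7

open Pool.Agent.Lib.MP_696deb_nt Pool.Agent.Lib.MP_696deb_nt.B2 Pool.Agent.B4.GE
open Pool.Agent.Lib.MP_696deb_nt.B3 (kro pchr_kro)

variable [Cs] {D : MD Wu NN} {d : ℤ}

theorem trs_all {c : ℕ → ℤ} (n : ∀ (l : ℕ) [Fact l.Prime], ¬ l ∣ 2 * NN → c l = tr l cub)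
    (hd : Squarefree d) (l : ℕ) (hl : l.Prime)
    (k : ¬ (l : ℤ) ∣ 2 * (-4 * sA d ^ 3 - 27 * sB d ^ 2)) : ¬ l ∣ NN * B3.cond d ∧
    kro d l * c l = l - (Nat.card {q : ZMod l × ZMod l //
      q.2 ^ 2 = q.1 ^ 3 + (sA d : ZMod l) * q.1 + (sB d : ZMod l)} : ℤ) := by
  have := Fact.mk hl
  rw [sh_disc] at k
  have l2 : l ≠ 2 := fun e => k (by rw [e]; exact dvd_mul_right _ _)
  have k2 : ¬ l ∣ NN := fun e => k ((((dvd_Δ hl).2 e).mul_left _).mul_left _)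
  have k3 : ((108 * d : ℤ) : ZMod l) ≠ 0 := fun e => k (((((dvd_pow
    ((ZMod.intCast_zmod_eq_zero_iff_dvd _ l).1 e) two_ne_zero).mul_right _)).mul_right _).mul_left _)
  push_cast at k3
  refine ⟨fun e => (hl.dvd_mul.1 e).elim k2 fun e => right_ne_zero_of_mul k3
    ((ZMod.intCast_zmod_eq_zero_iff_dvd d l).2
      ((B3.odd_dvd_cond hd (hl.odd_of_ne_two l2)).1 e)), ?_⟩
  rw [card_eq_sub_tr l l2 fun x => x ^ 3 + sA d * x + sB d, sub_sub_cancel,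
    n l fun e => (hl.dvd_mul.1 e).elim (fun e => l2 ((Nat.prime_dvd_prime_iff_eq hl
      Nat.prime_two).1 e)) k2, B3.kro_odd hd (hl.odd_of_ne_two l2),
    ← jacobiSym.legendreSym.to_jacobiSym,
    ← tr_affine l (α := 36 * d) (fun e => k3 (by linear_combination 3 * e)) (3 * d * WZ.b₂)
      fun x => x ^ 3 + sA d * x + sB d, legendreSym, ← one_mul (quadraticChar _ _),
    ← quadraticChar_sq_one' k3, ← map_mul, ← tr_mul]
  congr 1 with x
  simp only [sA, sB, cub, WeierstrassCurve.c₄, WeierstrassCurve.c₆]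
  push_cast
  ring

/-- The analytic rank of the short model. -/
theorem bsd_an (h : Hyp D) (hd : Squarefree d) :
    G5.AnR (-27 * WZ.c₄ * d ^ 2) (-54 * WZ.c₆ * d ^ 3) (analyticOrderAt (LKr D.par.F d) 1) :=
  md_anrX D h.nw (pchr_kro hd) (sh_ne hd.ne_zero) (trs_all h.tr hd)

theorem bsd_an0 (h : Hyp D) (hd : Squarefree d) (k : LKr D.par.F d 1 ≠ 0) :
    G5.AnR (-27 * WZ.c₄ * d ^ 2) (-54 * WZ.c₆ * d ^ 3) 0 :=
  ((LKr_diff (G5.md_ci D) D.N0 hd).analyticAt 1).analyticOrderAt_eq_zero.mpr k ▸ bsd_an h hd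

theorem bsd_an1 (h : Hyp D) (hd : Squarefree d) (k : rootNo D.c NN d = -1)
    (k' : deriv (LKr D.par.F d) 1 ≠ 0) : G5.AnR (-27 * WZ.c₄ * d ^ 2) (-54 * WZ.c₆ * d ^ 3) 1 :=
  ((LKr_diff (G5.md_ci D) D.N0 hd).analyticAt 1).analyticOrderAt_eq_one_of_zero_deriv_ne_zero
    (LKr_zero h.nw NN_sqf NN_odd hd k) k' ▸ bsd_an h hd

/-- The converse theorem for one twist. -/
def Cnv (c : ℕ → ℤ) (d : ℤ) : Prop := Cork d → Bsd d (if rootNo c NN d = 1 then 0 else 1)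

/-- The twists that are already known. -/
theorem cnv_old (h : Hyp D) (k : Conv) (hd : Squarefree d) (h4 : d % 4 = 1) (hN : IsCoprime d NN) :
    Cnv D.c d := fun hc => by
  rw [rootNo_jac h.nw NN_sqf NN_odd hd h4 hN]
  exact k d hd h4 hN hc

/-- The converse theorem from the analytic statements and the rank. -/
theorem cnv_of (h : Hyp D) (hd : Squarefree d)
    (h0 : Cork d → rootNo D.c NN d = 1 → LKr D.par.F d 1 ≠ 0)
    (h1 : Cork d → rootNo D.c NN d = -1 → deriv (LKr D.par.F d) 1 ≠ 0)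
    (hr : Cork d → Module.Finite ℤ (Et d).toAffine.Point ∧ Module.finrank ℤ (Et d).toAffine.Point =
      if rootNo D.c NN d = 1 then 0 else 1) : Cnv D.c d := fun hc => by
  refine ⟨?_, hr hc⟩
  split_ifs with k
  · exact bsd_an0 h hd (h0 hc k)
  · have k' := (nw_cases h.nw hd.ne_zero).resolve_left k
    exact bsd_an1 h hd k' (h1 hc k')

/-- The conclusion in explicit form. -/
theorem res_cnv {c : ℕ → ℤ} (h : Cnv c d) (hd : d ≠ 0) {a b : ℤ}
    (ha : a = -27 * WZ.c₄ * d ^ 2) (hb : b = -54 * WZ.c₆ * d ^ 3) (hS : Stmt.CorankLE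
      ({ a₁ := 0, a₂ := 0, a₃ := 0, a₄ := (a : ℚ), a₆ := (b : ℚ) } : WeierstrassCurve ℚ) 1) :
    ∃ G : ℂ → ℂ, Differentiable ℂ G ∧
      (∀ s : ℂ, (3 : ℝ) / 2 < s.re → HasProd (fun p : ℕ =>
        if p.Prime ∧ ¬ ((p : ℤ) ∣ 2 * (-4 * a ^ 3 - 27 * b ^ 2)) then
          (1 - ((p : ℂ) - (Nat.card {x : ZMod p × ZMod p //
            x.2 ^ 2 = x.1 ^ 3 + (a : ZMod p) * x.1 + (b : ZMod p)} : ℂ))
              * (p : ℂ) ^ (-s) + (p : ℂ) ^ (1 - 2 * s))⁻¹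
        else 1) (G s)) ∧
      analyticOrderAt G 1 = ((Module.finrank ℤ (WeierstrassCurve.Affine.Point
        (WeierstrassCurve.toAffine
          ({ a₁ := 0, a₂ := 0, a₃ := 0, a₄ := (a : ℚ), a₆ := (b : ℚ) } :
            WeierstrassCurve ℚ))) : ℕ) : ℕ∞) ∧
      Module.Finite ℤ (WeierstrassCurve.Affine.Point (WeierstrassCurve.toAffine
        ({ a₁ := 0, a₂ := 0, a₃ := 0, a₄ := (a : ℚ), a₆ := (b : ℚ) } : WeierstrassCurve ℚ))) ∧
      analyticOrderAt G 1 = if rootNo c NN d = 1 then 0 else 1 := by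
  obtain ⟨G, g1, g2, g3, g4, g5⟩ := res_of (h (m_cork hd (Et_short ha hb ▸ hS))) ha hb
  refine ⟨G, g1, g2, g3, g4, g5.trans ?_⟩
  split_ifs <;> rfl

end Pool.Agent.B6.B7
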