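import Pool.Agent.Lib.MP_696deb_nt.B6.LF2

/-! Local cohomology of an extension of two characters on which inertia acts as minus one. -/

set_option autoImplicit false

open scoped NNReal Classical
open Finset

namespace Pool.Agent.B6.B7

open Pool.Agent.Lib.MP_696deb_nt Pool.Agent.Lib.MP_696deb_nt.B2 Pool.Agent.Lib.MP_696deb_nt.B6

variable {R M M' : Type} [CommRing R] [AddCommGroup M] [Module R M] [AddCommGroup M'] [Module R M']
  {H : Subgroup Gam} {a : Gam → M →+ M} {c : Gam → M} {w : Plc} {q : ℕ} {φ τ : Gam}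

omit [Module R M] in
/-- The tame relation on a piece where the generator of inertia is minus one. -/
theorem lg_rel (t : TA H w q φ τ a) {N : AddSubgroup M} (hN : ∀ x ∈ N, a τ x ∈ N) (l : M →+ M')
    (h1 : ∀ x ∈ N, l (a τ x) = -l x) (hc : Coc (H ⊓ Dec w) a c) (e1 : c τ ∈ N) (e2 : c φ ∈ N)
    {δ : R} (h2 : l (a φ (c τ)) = δ • l (c τ)) : (δ - 1) • l (c τ) + (2 : R) • l (c φ) = 0 := by
  have e : ∀ (j : ℕ), ∀ x ∈ N, l (a (τ ^ j) x) = (-1 : R) ^ j • l x := fun j => by
    induction j with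
    | zero => intro x _; rw [pow_zero, t.act.one, pow_zero, one_smul]
    | succ j ih =>
      intro x hx
      rw [pow_succ, t.act.mul _ (pow_mem t.tm.τ_mem j) _ t.tm.τ_mem, ih _ (hN x hx), h1 x hx,
        pow_succ, mul_smul, neg_one_smul]
  have r := congrArg l (t.rel hc t.tm.gen.1)
  rw [lf_pow t.act hc t.tm.τ_mem, map_add, map_add, map_sum, h2, e _ _ e2] at r
  simp only [e _ _ e1, ← sum_smul, neg_one_geom_sum, if_neg (Nat.not_even_iff_odd.2 t.tm.odd_q),
    t.tm.odd_q.neg_one_pow] at r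
  linear_combination (norm := module) r

/-- The product of two elements of the ideals of the two characters kills the cohomology. -/
theorem lg_two (t : TA H w q φ τ a) (hl : ∀ g (s : R) x, a g (s • x) = s • a g x) (l : M →ₗ[R] M')
    {α δ : R} (h1 : ∀ x, l (a τ x) = -l x) (h2 : ∀ x, l (a φ x) = δ • l x)
    (h3 : ∀ x, l x = 0 → a τ x = -x) (h4 : ∀ x, l x = 0 → a φ x = α • x) {y y' r s r' s' : R}
    (hy : ∀ b : M', y • b = (r * (δ - 1) + 2 * s) • b)
    (hy' : ∀ x : M, y' • x = (r' * (α - 1) + 2 * s') • x) (hc : Coc (H ⊓ Dec w) a c) :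
    ∃ x, ∀ g ∈ H ⊓ Dec w, (y' * y) • c g = cob a x g := by
  have sm : ∀ (z : R) {c : Gam → M}, Coc (H ⊓ Dec w) a c → Coc (H ⊓ Dec w) a (z • c) :=
    fun z c hc => ⟨hc.1.comp (z • ·), fun g hg u hu => by
      simp only [Pi.smul_apply, hc.2 g hg u hu, hl, smul_add]⟩
  have r1 := lg_rel t (N := ⊤) (fun _ _ => trivial) l.toAddMonoidHom (fun x _ => h1 x) hc trivial
    trivial (h2 _)
  simp only [LinearMap.toAddMonoidHom_coe] at r1
  obtain ⟨x, hx⟩ : ∃ x, x = r • c φ - s • c τ := ⟨_, rfl⟩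
  have k1 := (sm y hc).lo_sub (lf_coc_cob t.act x)
  have e1 : l ((y • c - cob a x) τ) = 0 := by
    rw [Pi.sub_apply, Pi.smul_apply, cob, map_sub, map_sub, map_smul, hy, h1, hx, map_sub, map_smul,
      map_smul]
    linear_combination (norm := module) r • r1
  have e2 : l ((y • c - cob a x) φ) = 0 := by
    rw [Pi.sub_apply, Pi.smul_apply, cob, map_sub, map_sub, map_smul, hy, h2, hx, map_sub, map_smul,
      map_smul]
    linear_combination (norm := module) s • r1
  have k2 : ∀ g, (y' * y) • c g = y' • (y • c - cob a x) g + cob a (y' • x) g := fun g => by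
    rw [Pi.sub_apply, Pi.smul_apply, cob, cob, hl]
    module
  generalize y • c - cob a x = c' at k1 e1 e2 k2
  have r2 := lg_rel t (N := l.toAddMonoidHom.ker) (fun x hx => by
    rw [h3 x hx]; exact neg_mem hx) (AddMonoidHom.id M) h3 k1 e1 e2 (h4 _ e1)
  simp only [AddMonoidHom.id_apply] at r2
  have e3 : l (r' • c' φ - s' • c' τ) = 0 := by
    rw [map_sub, map_smul, map_smul, e1, e2, smul_zero, smul_zero, sub_self]
  refine ⟨r' • c' φ - s' • c' τ + y' • x, fun g hg => ?_⟩
  rw [k2, lf_cob_add, ← t.eq_cob (x := r' • c' φ - s' • c' τ) (sm y' k1) ?_ ?_ hg,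
    Pi.smul_apply]
  · rw [h3 _ e3, Pi.smul_apply, hy']
    linear_combination (norm := module) r' • r2
  · rw [h4 _ e3, Pi.smul_apply, hy']
    linear_combination (norm := module) s' • r2

end Pool.Agent.B6.B7
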