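import Pool.Agent.Lib.MP_696deb_nt.B7.CMf

/-! The Euler systems of Heegner points for arbitrary twists. -/

set_option autoImplicit false

open scoped Classical NumberTheorySymbols

namespace Pool.Agent.B6.B7.Dn

open Pool.Agent.Lib.MP_696deb_nt Pool.Agent.Lib.MP_696deb_nt.B2 Pool.Agent.Lib.MP_696deb_nt.B2.CM
open Pool.Agent.Lib.MP_696deb_nt.B3 (odp cond2 odp_odd odp_sqf)
open Pool.Agent.Lib.MP_696deb_nt.B3.CM (fs fs_self map_fs Gd th ind m2 kc_odd gd_odd th_one two_ind)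
open Pool.Agent.B6.CM (yA tz tr_map sum_tr tr_trace tr_kron)
open Pool.Agent.G7 (cnd gD yD)
open MonoidAlgebra (single)

variable {n c d l : ℕ} {r f e δ : ℤ} {g φ : Gam} {w : Plc} {T : Finset Fm}

theorem dvd_odp (hf : Squarefree f) (hl : l.Prime) : l ∣ odp f ↔ (l : ℤ) ∣ od f := by
  obtain ⟨e1, e2, e3⟩ := mo_spec hf
  rw [dvd_od hf.ne_zero hl, ← e3, ← Int.natCast_dvd]
  refine ⟨fun h => ⟨by rintro rfl; omega, e1 ▸ h.mul_left _⟩, fun h => ?_⟩
  exact ((Nat.prime_iff_prime_int.1 hl).dvd_or_dvd (e1.symm ▸ h.2)).resolve_left fun k =>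
    h.1 ((Nat.prime_dvd_prime_iff_eq hl Nat.prime_two).1 (by exact_mod_cast k.trans (dt_dvd f)))

theorem od_pf (hf : Squarefree f) : (od f).natAbs.primeFactors = (odp f).primeFactors := by
  ext p
  simp only [Nat.mem_primeFactors, ← Int.natCast_dvd, Int.natAbs_ne_zero]
  exact and_congr_right fun hp => and_congr (dvd_odp hf hp).symm
    (iff_of_true (od_ne hf.ne_zero) (odp_odd hf).pos.ne')

theorem two_dvd_single {C : Type} [CommGroup C] (b : C) {k k' : ℤ} (h : 2 ∣ k - k') :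
    (2 : MonoidAlgebra ℤ C) ∣ single b k - single b k' := by
  obtain ⟨j, hj⟩ := h
  exact ⟨single b j, by rw [← MonoidAlgebra.single_sub, hj, two_mul, two_mul,
    MonoidAlgebra.single_add]⟩

theorem two_dvd_unit (a : ℤˣ) : 2 ∣ (a : ℤ) - 1 := by
  rcases Int.units_eq_one_or a with rfl | rfl <;> decide

variable [Md] [∀ c, Fintype (Pc n c)] {P : B4.GE.Par Wu NN}

theorem Gv.tz {u : Pc n c → EE} (h : Gv n δ (rho n c) u) : Gv n δ (psi n c) (tz u) :=
  fun g hg a => by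
    rw [CM.tz, CM.tz, Finset.smul_sum, Finset.sum_congr rfl fun x _ => h g hg x, ← Finset.smul_sum]
    exact congrArg _ (sum_tq_mul u _ a)

variable (P) in
/-- The points of the twist by a squarefree integer. -/
noncomputable def yF (r f : ℤ) (c : ℕ) : Pc n c → EE :=
  wg (yB P r (dt f)) (↑) (mo f) c (c * odp f)

theorem yF_two (ok : Ok n c) (h : δ ∣ 2) : yF P r δ c = yB (n := n) P r δ c := by
  obtain ⟨-, e1, -, -, -, e2, e3⟩ := two_spec h
  have k : ∀ d, d = c → wg (yB P r δ) (↑) 1 c d = yB (n := n) P r δ c := by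
    rintro _ rfl
    funext x
    rw [wg, fs_self, th_one ok, Units.val_one, one_smul]
  rw [yF, e2, e3, k _ (by rw [e1, mul_one])]

omit [Md] [∀ c, Fintype (Pc n c)] in
theorem gd_mo (ok : Ok n c) (hf : Squarefree f) (h : odp f ∣ c) : Gd n c (mo f) :=
  gd_odd ok (mo_spec hf).2.1 ((mo_spec hf).2.2 ▸ h)

omit [Md] [∀ c, Fintype (Pc n c)] in
theorem odd_mul (hf : Squarefree f) (hc : ¬ 2 ∣ c) : ¬ 2 ∣ c * odp f := fun k =>
  (Nat.prime_two.dvd_mul.1 k).elim hc (odp_odd hf).not_two_dvd_nat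

/-- The Euler factor at a prime, modulo two. -/
def Ef (y : ∀ d, Pc n d → EE) (δ : ℤ) (l : ℕ) (φ : Gam) : Prop := ∃ L, Dw y l L ∧
  ∀ (C : Type) [CommGroup C] (ψ : Gam → C), ψ φ⁻¹ = (ψ φ)⁻¹ → ∃ x : MonoidAlgebra ℤ C,
    2 ∣ x - (if l ∣ NN then single 1 1 - single (ψ φ) 1 else
      single 1 (al l) - single (ψ φ) 1 - single (ψ φ)⁻¹ 1) ∧
    ∀ v, Gv n δ ψ v → ∀ a, L (v a) = shA C EE x v a

variable (G : B4.GE.Geo P)
include G

theorem gv_yF (ok : OkD NN n c r) (h8 : n % 8 = 3) (hf : Squarefree f) (hc : ¬ 2 ∣ c) :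
    Gv n f (rho n c) (yF P r f c) := by
  have k := ok.of_ne (mul_ne_zero ok.ne (odp_odd hf).pos.ne')
  obtain ⟨e1, e2, -⟩ := mo_spec hf
  have := gv_wg k.toOk (dvd_mul_right c _) (gd_mo k.toOk hf (dvd_mul_left _ _))
    (gv_yB G k h8 (dt_dvd f) (odd_mul hf hc)) (dt_ne f) (by omega)
  rwa [e1] at this

theorem link_yF (a2 : al 2 = P.a 2) (ok : OkD NN n 1 r) (hn : Squarefree n) (h8 : n % 8 = 3)
    (hf : Squarefree f) (hfn : IsCoprime (mo f) n) (he : e ∣ n) (h4 : e % 4 = 1)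
    (hT : HRc n f r T) :
    pmap jC (ix f • ∑ x, (th n 1 e x : ℤ) • yF P r f 1 x) = yD P.φ (f * e) T := by
  obtain ⟨e1, e2, e3⟩ := mo_spec hf
  have k := ok.of_ne (mul_ne_zero ok.ne (odp_odd hf).pos.ne')
  have := link_yB G a2 k hn h8 (dt_dvd f) (odd_mul hf (by decide)) (o := mo f * e)
    (by rw [Int.mul_emod, e2, h4]; rfl) (squarefree_mul_iff.2
      ⟨(hfn.of_isCoprime_of_dvd_right he).isRelPrime, (e1 ▸ hf).of_mul_right,
        (Int.squarefree_natCast.2 hn).squarefree_of_dvd he⟩) (by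
      rw [mul_comm, one_mul, ← e3]
      exact mul_dvd_mul he (Int.dvd_natAbs.2 dvd_rfl)) (fun p _ h => by
      rw [Int.natAbs_mul, e3]
      exact (one_mul (odp f) ▸ h).mul_right _) (d := cnd f) (by
      rw [m2_dt, one_mul, mul_comm]; rfl) hT
  rw [← mul_assoc, e1, ix_dt] at this
  rw [← this]
  exact congrArg (fun z => pmap jC (ix f • z)) ((Finset.sum_congr rfl fun x _ => th_wg k.toOk
    (one_dvd _) ((kc_odd ok.m4 h4 (by simpa using he)).exists_th ok.toOk)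
    (gd_mo k.toOk hf (dvd_mul_left _ _)) (by omega) (by omega) x).trans (sum_fs _))

theorem ef_good (ok : OkD NN n c r) (h : δ ∣ 2) (hN : ¬ w.p ∣ NN) (h2 : w.p ≠ 2)
    (hJ : J(-n | w.p) = 1) (ha : al w.p = P.a w.p) (hφ : IsFrob w w.p φ) :
    Ef (yB (n := n) P r δ) δ w.p φ := by
  have h1 : φ ∈ GK n := dec_le_split h2 hJ hφ.1
  refine ⟨zsmulAddGroupHom (P.a w.p) - DistribSMul.toAddMonoidHom EE φ -
    DistribSMul.toAddMonoidHom EE φ⁻¹, dw_yB ok.toOk h w.prime h2 fun d e d0 hd he z =>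
      trA_split G (ok.of_ne (he ▸ mul_ne_zero d0 w.prime.ne_zero)) hN he h2 hJ hd hφ z,
    fun C _ ψ hψ => ⟨single 1 (al w.p) - single (ψ φ) (chi δ φ : ℤ) -
      single (ψ φ)⁻¹ (chi δ φ⁻¹ : ℤ), ?_, fun v hv a => ?_⟩⟩
  · rw [if_neg hN, sub_sub_sub_comm, sub_sub_sub_comm (single 1 _), sub_self]
    exact dvd_sub (dvd_sub (dvd_zero _) (two_dvd_single _ (two_dvd_unit _)))
      (two_dvd_single _ (two_dvd_unit _))
  · simp only [map_sub, LinearMap.sub_apply, Pi.sub_apply, shA_single, one_mul,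
      AddMonoidHom.sub_apply, zsmulAddGroupHom_apply, DistribSMul.toAddMonoidHom_apply]
    rw [hv φ h1, hv _ (inv_mem h1), hψ, ha]

theorem ef_bad (ok : OkD NN n c r) (h : δ ∣ 2) (hl : l.Prime) (hN : l ∣ NN) {ε : ℤ} (hε : ε ^ 2 = 1)
    (hU : ∀ τ : ℂ, 0 < τ.im → ∑ j : Fin l, P.φ (hk l τ (some j)) = ε • P.φ τ) (h1 : φ ∈ GK n)
    (hρ : ∀ d, d ≠ 0 → ¬ l ∣ d → rho n d φ = (cl _ (idl n d l (r * d)))⁻¹) :
    Ef (yB (n := n) P r δ) δ l φ := by
  refine ⟨zsmulAddGroupHom ε - DistribSMul.toAddMonoidHom EE φ,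
    dw_yB ok.toOk h hl (ne_two_of_dvd hN) fun d e d0 hd he z =>
      trA_bad G (ok.of_ne (he ▸ mul_ne_zero d0 hl.ne_zero)) hl hN he hd hU h1 (hρ d d0 hd) z,
    fun C _ ψ _ => ⟨single 1 ε - single (ψ φ) (chi δ φ : ℤ), ?_, fun v hv a => ?_⟩⟩
  · rw [if_pos hN, sub_sub_sub_comm]
    exact dvd_sub (two_dvd_single _ (by rcases sq_eq_one_iff.1 hε with rfl | rfl <;> decide))
      (two_dvd_single _ (two_dvd_unit _))
  · simp only [map_sub, LinearMap.sub_apply, Pi.sub_apply, shA_single, one_mul,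
      AddMonoidHom.sub_apply, zsmulAddGroupHom_apply, DistribSMul.toAddMonoidHom_apply]
    rw [hv φ h1]

/-- The congruence between the system of a twist and the system of its part at two. -/
theorem cong_yF (ok : OkD NN n c r) (h8 : n % 8 = 3) (hf : Squarefree f) (hc : ¬ 2 ∣ c)
    (φ : ℕ → Gam) (hφ : ∀ l ∈ (odp f).primeFactors, ¬ l ∣ c ∧ φ l ∈ GK n ∧
      Ef (yB (n := n) P r (dt f)) (dt f) l (φ l)) (a : Tw (Pc n c)) : ∃ u : EE,
    (∀ g ∈ GK n, psi n c g = 1 → chi f g = 1 → chi (dt f) g = 1 → g • u = u) ∧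
    tz (yF P r f c) a = shA _ EE (∏ l ∈ (odp f).primeFactors, if l ∣ NN then
      single 1 1 - single (psi n c (φ l)) 1 else single 1 (al l) - single (psi n c (φ l)) 1 -
        single (psi n c (φ l))⁻¹ 1) (tz (yB P r (dt f) c)) a + 2 • u := by
  obtain ⟨e1, e2, -⟩ := mo_spec hf
  have k := ok.of_ne (mul_ne_zero ok.ne (odp_odd hf).pos.ne')
  have v0 := (gv_yB G ok h8 (dt_dvd f) hc).tz
  choose! h1 h2 L h3 h4 using hφ
  obtain ⟨x, ⟨x', hx⟩, k1⟩ := dw_ind (y := yB P r (dt f)) ok.ne L (fun s u => ∃ x,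
    2 ∣ x - (∏ l ∈ s, if l ∣ NN then single 1 1 - single (psi n c (φ l)) 1 else
      single 1 (al l) - single (psi n c (φ l)) 1 - single (psi n c (φ l))⁻¹ 1) ∧
      tz u = shA _ EE x (tz (yB P r (dt f) c))) (odp f).primeFactors
    (fun l hl => ⟨Nat.prime_of_mem_primeFactors hl, h1 l hl, h3 l hl⟩)
    ⟨1, by simp, by simp⟩ (fun l hl t u k1 ⟨x, k2, k3⟩ => by
      obtain ⟨y, k4, k5⟩ := h4 l hl _ (psi n c) (by rw [psi, psi, rho_inv ok.toOk (h2 l hl), map_inv])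
      refine ⟨y * x, ?_, funext fun a => ?_⟩
      · rw [Finset.prod_insert k1, ← sub_add_sub_cancel _ (_ * x), ← sub_mul, ← mul_sub]
        exact dvd_add (k4.mul_right _) (k2.mul_left _)
      · rw [map_mul, Module.End.mul_apply, ← k5 _ (v0.sh x), ← k3, tz, tz, map_sum])
    _ (by rw [Nat.prod_primeFactors_of_squarefree (odp_sqf hf)])
  refine ⟨shA _ EE x' (tz (yB P r (dt f) c)) a + tz (fun z => -wg (yB P r (dt f))
    (fun a => ind (-a)) (mo f) c (c * odp f) z) a, fun g g1 g2 g3 g4 => ?_, ?_⟩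
  · rw [← e1, chi_mul (dt_ne f) (by omega), g4, one_mul] at g3
    rw [smul_add, v0.sh x' g g1, g2, g4, one_mul, Units.val_one, one_smul, add_right_inj]
    refine (tr_map (DistribSMul.toAddMonoidHom EE g) (fun z => ?_) a).trans
      (congrArg _ ((congrArg (· * a) g2).trans (one_mul a)))
    rw [DistribSMul.toAddMonoidHom_apply, smul_neg, smul_wg k.toOk (dvd_mul_right _ _)
      (gd_mo k.toOk hf (dvd_mul_left _ _)) (gv_yB G k h8 (dt_dvd f) (odd_mul hf hc)) g1, g3, g4]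
    simp only [one_mul, Units.val_one, one_smul]
  · rw [eq_sub_of_add_eq (eq_add_of_sub_eq' hx).symm, smul_add, ← add_assoc, two_mul, map_sub,
      map_add, ← two_smul ℕ, LinearMap.sub_apply, Pi.sub_apply, ← k1, LinearMap.smul_apply,
      Pi.smul_apply, sub_add_cancel, tz, tz, tz, Finset.smul_sum, ← Finset.sum_add_distrib]
    exact Finset.sum_congr rfl fun z _ => wg_eq z

end Pool.Agent.B6.B7.Dn

namespace Pool.Agent.B6.B7

open Pool.Agent.Lib.MP_696deb_nt Pool.Agent.Lib.MP_696deb_nt.B2 Pool.Agent.Lib.MP_696deb_nt.B2.CM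
open Pool.Agent.B4 (nn hs_nu hs_gen hs_unr hs_fib)
open Pool.Agent.Lib.MP_696deb_nt.B3 (odp odp_odd)
open Pool.Agent.Lib.MP_696deb_nt.B3.CM (Gd th kc_odd)
open Pool.Agent.B6.CM (yA tz tr_map sum_tr tr_trace tr_kron cc_yA)
open Dn

variable [Md]

theorem cm_stmt : CMStmt := by
  intro F D G hD ha hM n r hn hr
  have ht : IsOfFinAddOrder (D.par.per.unif D.par.t0) := G5.alm_tors D (s := -1)
    ⟨(B5.al_fricke NN).det, by simp, by simp, by simp⟩ NN_ne dvd_rfl fun z hz => by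
      rw [show act !![0, -1; (NN : ℤ), 0] z = -1 / (NN * z) by simp [act_of, mob], D.par.al z hz]
      push_cast
      ring
  have hU := fun l (hl : l.Prime) (h : l ∣ NN) => md_U D hl (hD l hl h).2
  replace ha : ∀ l : ℕ, l.Prime → ¬ l ∣ NN → al l = D.par.a l := ha
  generalize D.par = P at *
  have hw := hn.nw
  have i0 := hw.fin
  let i1 : ∀ c, Fintype (Pc n c) := fun c => Fintype.ofFinite _
  let i2 : ∀ c, Fintype (Tw (Pc n c)) := fun c => Fintype.ofFinite _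
  have ok : OkD NN n 1 r := ⟨hw.ok B4.aw_one, hr, hn.good.cop⟩
  have okc : ∀ {c : ℕ}, Adm n c → OkD NN n c r := fun h => ok.of_ne h.1.ne_zero
  have odc : ∀ {c : ℕ}, Adm n c → ¬ 2 ∣ c := fun h k => (h.aw.2 2 Nat.prime_two k).1 rfl
  have ok1 := ok.okN (Nat.coprime_one_left _)
  choose ν hν using hs_nu F hw
  choose θ hθ using hs_gen hw
  have k0 : ∀ {c l : ℕ}, l.Prime → Adm n (c * l) → ¬ l ∣ NN ∧ ¬ l ∣ G.M := fun hl h => by
    have k := (h.2 _ hl (dvd_mul_left _ _)).1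
    exact ⟨fun e => nd_of_MM k (e.mul_left 2), fun e => k (e.trans hM)⟩
  have k1 : ∀ e : ℤ, e ∣ n → e % 4 = 1 → ∀ x, θ e (tq _ x) = th n 1 e x := fun e k h4 x => by
    obtain ⟨g, hg, rfl⟩ := rho_surj ok.toOk x
    rw [Gd.th ((kc_odd ok.m4 h4 (by simpa using k)).exists_th ok.toOk) hg]
    exact hθ e k h4 g hg
  let S : HS n := {
    C := fun c => Tw (Pc n c)
    pr := fun c c' => twm (pj n c c')
    ψ := psi n
    y := fun c => tz (yA P n c r)
    ν := ν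
    gen := θ
    two := fun _ => tw_two
    sm := fun c _ => (sm_rho _ n c).comp (tq _)
    mul := fun _ h => psi_mul (hw.ok h.aw)
    surj := fun _ h => psi_surj (hw.ok h.aw)
    pr_ψ := fun _ _ h k g _ => pr_psi (hw.ok h.aw) k g
    dih := fun _ h _ hg => by rw [psi, rho_sq (hw.ok h.aw) hg, map_one]
    unr := fun _ _ h k _ hg => hs_unr F hw h.aw k hg
    gal := fun _ h g hg => tr_map (DistribSMul.toAddMonoidHom EE g) (smul_yA G (okc h) hg)
    conj := by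
      have e1 := cc_yA G ok1
      refine ⟨tq _ (nn NN n 1 r)⁻¹, Nat.card (oddP (Pc n 1)) • _, IsOfFinAddOrder.nsmul
        ((pmap_injective jC).isOfFinAddOrder_iff.1 (e1 1 ▸ ht)), fun a => ?_⟩
      rw [tz, Finset.smul_sum, Finset.sum_congr rfl fun x _ => eq_sub_of_add_eq
        (pmap_injective jC ((e1 x).trans (e1 1).symm)), Finset.sum_sub_distrib,
        Finset.sum_const, card_tq_fib, sum_tq_inv (yA P n 1 r) _ a]
      rfl
    trace := fun _ _ hl h a => by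
      obtain ⟨-, hJ, hc⟩ := h.aw.mul hl
      rw [ha _ hl (k0 hl h).1]
      convert tr_trace (dw_inert G ok hl (k0 hl h).1 hJ _ _ (okc h).of_mul.ne hc rfl) a
    kron := fun c w _ h hg => by
      obtain ⟨h2, hJ, hc⟩ := h.aw.mul w.prime
      exact tr_kron (okc h).of_mul.toOk h2 hJ hc (kron_yA G (okc h) rfl (k0 w.prime h).2
        (mt (dvd_Δ w.prime).1 (k0 w.prime h).1) hJ hc hg)
    ν_gen := fun w s τ h k hτ => (hν _ s w.prime h.aw k).2 w τ rfl hτ
    ν_ram := fun l s _ hl h k e _ hg =>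
      (hν l s hl h.aw k).1 _ (tq_rho_ram_sq (hw.ok h.aw) hw.sqf e hg)
    ν_fib := fun c l s hl h k a x => by
      convert hs_fib F hw hl h.aw (ν l s) (hν l s hl (h.aw.dvd (dvd_mul_left l c)) k).2 a x
    gen_ψ := hθ }
  have key : ∀ f : ℤ, Squarefree f → (∀ l : ℕ, l.Prime → l ∣ odp f → J(-n | l) = 1) →
      ∃ Y : ES S f, (Y.y = fun c => tz (yF P r f c)) ∧ Link Y P.φ r := fun f hf hs => by
    have okf := (ok.of_ne (odp_odd hf).pos.ne').toOk
    have nd : ∀ l : ℕ, l.Prime → J(-n | l) = -1 → ¬ l ∣ odp f := fun l hl hJ k => by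
      have := hs l hl k
      omega
    refine ⟨{
      y := fun c => tz (yF P r f c)
      gal := fun _ h g hg => (gv_yF G (okc h) hn.m8 hf (odc h)).tz.tw hg
      trace := fun c l hl h a => by
        obtain ⟨h2, hJ, hc⟩ := h.aw.mul hl
        rw [ha _ hl (k0 hl h).1]
        have k : Dw (yF P r f) l _ := (dw_yB okf (dt_dvd f) hl h2
          (dw_inert G ok hl (k0 hl h).1 hJ)).wg okf (gd_mo okf hf dvd_rfl) hl (nd l hl hJ)
        convert tr_trace (k _ _ (okc h).of_mul.ne hc rfl) a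
      kron := fun c w _ h hg => by
        obtain ⟨h2, hJ, hc⟩ := h.aw.mul w.prime
        exact tr_kron (okc h).of_mul.toOk h2 hJ hc ((kr_yB G ok (dt_dvd f) (k0 w.prime h).2 hJ
          hg).wg okf (gd_mo okf hf dvd_rfl) h2 hJ (nd _ w.prime hJ) _ _ (okc h).of_mul.ne hc rfl) },
      rfl, fun T e hT he h4 => ?_⟩
    rw [← link_yF G (ha 2 Nat.prime_two nd_NN) ok hw.sqf hn.m8 hf (Int.isCoprime_iff_gcd_eq_one.2
      (Nat.coprime_of_dvd fun p hp p1 p2 => by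
        have := hs p hp ((mo_spec hf).2.2 ▸ p1)
        rw [jac_zero_of_dvd hp (dvd_neg.2 (Int.natCast_dvd.2 p2))] at this
        omega)) he h4 hT]
    exact congrArg (fun z => pmap jC (ix f • z)) ((sum_tr (θ e) _).trans
      (Finset.sum_congr rfl fun x _ => by rw [k1 e he h4]))
  refine ⟨S, fun f hf => ?_⟩
  have hs : ∀ l : ℕ, l.Prime → l ∣ odp f → J(-n | l) = 1 := fun l hl h =>
    hf.spl l hl ((dvd_odp hf.sqf hl).1 h)
  obtain ⟨Y, y1, y2⟩ := key f hf.sqf hs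
  obtain ⟨Z, z1, z2⟩ := key (dt f) (Int.prime_two.squarefree.squarefree_of_dvd (dt_dvd f))
    fun l hl h => absurd ((two_spec (dt_dvd f)).2.1 ▸ h) hl.not_dvd_one
  have z3 : ∀ c, Adm n c → Z.y c = tz (yB P r (dt f) c) := fun c h => by
    rw [z1, ← yF_two (okc h).toOk (dt_dvd f)]
  refine ⟨Z, Y, ?_, sum_mem fun a _ => zsmul_mem ?_ _, z2, y2⟩
  swap
  · rw [z3 1 ⟨squarefree_one, fun _ hl h => absurd h hl.not_dvd_one⟩]
    exact sum_mem fun x _ => yB_EN G ok (dt_dvd f) (Nat.coprime_one_left _) x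
  choose! φ p1 p2 p3 using fun (l : ℕ) (h : l ∈ (odp f).primeFactors) => show ∃ φ,
      (∃ w : Plc, w.p = l ∧ IsFrob w l φ) ∧ φ ∈ GK n ∧ Ef (yB (n := n) P r (dt f)) (dt f) l φ by
    have hl := Nat.prime_of_mem_primeFactors h
    have h1 := Nat.dvd_of_mem_primeFactors h
    have h2 : l ≠ 2 := fun e => (odp_odd hf.sqf).not_two_dvd_nat (e ▸ h1)
    by_cases hN : l ∣ NN
    · obtain ⟨φ, q1, q2, q3⟩ := exists_frob_bad ok hl h2 hN
      exact ⟨φ, q2, q1, ef_bad G ok (dt_dvd f) hl hN (hD l hl hN).1 (hU l hl hN) q1 q3⟩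
    · obtain ⟨w, rfl⟩ := exists_plc hl
      obtain ⟨φ, hφ⟩ := B2.exists_frob w
      exact ⟨φ, ⟨w, rfl, hφ⟩, dec_le_split h2 (hs _ hl h1) hφ.1,
        ef_good G ok (dt_dvd f) hN h2 (hs _ hl h1) (ha _ hl hN) hφ⟩
  refine ⟨φ, fun _ => 1, fun _ => odd_one, od_pf hf.sqf ▸ p1, fun c hc a => ?_⟩
  rw [y1, z3 c hc, Eul, od_pf hf.sqf]
  exact cong_yF G (okc hc) hn.m8 hf.sqf (odc hc) φ (fun l hl => ⟨fun k => by
    have h1 := Nat.prime_of_mem_primeFactors hl
    have := hs l h1 (Nat.dvd_of_mem_primeFactors hl)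
    have := (hc.2 l h1 k).2
    omega, p2 l hl, p3 l hl⟩) a

end Pool.Agent.B6.B7
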