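import Pool.Agent.Lib.MP_696deb_nt.B6.XKC
import Pool.Agent.Lib.MP_696deb_nt.B7.XTW

/-! The classes of Kolyvagin of an Euler system for an arbitrary twist. -/

set_option autoImplicit false

open scoped NNReal Classical
open Finset Matrix NumberTheorySymbols PowerSeries

namespace Pool.Agent.B6.KS

open Pool.Agent.Lib.MP_696deb_nt Pool.Agent.Lib.MP_696deb_nt.B2

/-- The conductors. -/
def cL (l : ℕ) (Q : Finset Plc) : ℕ := l * ∏ w ∈ Q, w.p

section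

variable {l : ℕ} {w : Plc} {Q : Finset Plc}

theorem cL_insert (hw : w ∉ Q) : cL l (insert w Q) = cL l Q * w.p := by
  rw [cL, cL, prod_insert hw]
  ring

theorem dvd_cL (hw : w ∈ Q) : w.p ∣ cL l Q := (dvd_prod_of_mem _ hw).mul_left _

theorem not_dvd_cL (h1 : ¬ w.p ∣ l) (h2 : ∀ v ∈ Q, w.p ≠ v.p) : ¬ w.p ∣ cL l Q := fun h => by
  rcases w.prime.dvd_mul.1 h with h | h
  · exact h1 h
  · obtain ⟨v, hv, h⟩ := (w.prime.prime.dvd_finsetProd_iff _).1 h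
    exact h2 v hv ((Nat.prime_dvd_prime_iff_eq w.prime v.prime).1 h)

end

variable [Cw] {n k l : ℕ} {f : ℤ} {S : KS n f} {a : Gam → (Fin 2 → Ak k) →+ Fin 2 → Ak k}
  {w : Plc} {Q : Finset Plc}

/-- Sets of places at which derivatives are taken. -/
structure Dpl (S : KS n f) (k : ℕ) (l : ℕ) (Q : Finset Plc) : Prop where
  ad : ∀ w ∈ Q, S.Ad w.p
  ne : ∀ w ∈ Q, ¬ w.p ∣ l
  dvd : ∀ w ∈ Q, 2 ^ (k + 1) ∣ w.p + 1
  al : ∀ w ∈ Q, (2 : ℤ) ^ k ∣ S.al w.p
  rho : ∀ w ∈ Q, mred k (S.ρ (fr w)) = !![0, 1; 1, 0]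
  inj : ∀ w ∈ Q, ∀ v ∈ Q, w.p = v.p → w = v

theorem Dpl.mono (h : S.Dpl k l Q) {Q' : Finset Plc} (e : Q' ⊆ Q) : S.Dpl k l Q' :=
  ⟨fun w hw => h.ad w (e hw), fun w hw => h.ne w (e hw), fun w hw => h.dvd w (e hw),
    fun w hw => h.al w (e hw), fun w hw => h.rho w (e hw),
    fun w hw v hv => h.inj w (e hw) v (e hv)⟩

theorem Dpl.nd (h : S.Dpl k l (insert w Q)) (hw : w ∉ Q) : ¬ w.p ∣ cL l Q :=
  not_dvd_cL (h.ne w (mem_insert_self _ _)) fun v hv e =>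
    hw (h.inj w (mem_insert_self _ _) v (mem_insert_of_mem hv) e ▸ hv)

theorem Dpl.adm (h : S.Dpl k l Q) (hl : S.Ad l) : S.Ad (cL l Q) := by
  induction Q using Finset.induction_on with
  | empty => simpa [cL] using hl
  | insert w Q hw ih =>
    rw [cL_insert hw]
    exact S.ad_mul (ih (h.mono (subset_insert _ _))) (h.ad w (mem_insert_self _ _)) (h.nd hw)

theorem Dpl.ex (h : S.Dpl k l Q) (hl : S.Ad l) :
    ∃ R D, KD S k l (cL l Q) (S.Wt k Q _) R D := by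
  refine exists_KD (h.adm hl) (dvd_mul_right _ _) (dv_Wt (h.adm hl) fun w hw =>
    ⟨cL l (Q.erase w), ?_, dvd_mul_right _ _, fun v hv e => dvd_cL (mem_erase.2 ⟨e, hv⟩),
      h.al w hw⟩)
  rw [← cL_insert (notMem_erase w Q), insert_erase hw]

theorem Wt_ins {Q' : Finset Plc} (h : S.Ad (cL l Q')) (hw : w ∉ Q) (e : Q' = insert w Q)
    (x : S.C (cL l Q')) : S.Wt k Q' _ x =
      (S.th k w (S.pr w.p _ x)).val * S.Wt k Q (cL l Q) (S.pr _ _ x) := by
  subst e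
  rw [Wt_pr h (Dvd.intro _ (cL_insert hw).symm) fun v hv => dvd_cL hv, Wt, prod_insert hw]
  rfl

/-- The classes of Kolyvagin. -/
theorem core7 (hl : S.Ad l) {Ψ : S.C l →* Ak k} (ha : IsAct Ψ a) :
    ∃ (κ : Finset Plc → Gam → Fin 2 → Ak k) (R : S.C l → EE),
    (∀ Q, S.Dpl k l Q → Cls Ψ a (cL l Q) Q (κ Q) ∧
      ∃ (R : S.C l → EE) (v : S.C l → Gam → Fin 2 → ZMod (2 ^ k)), ∀ g ∈ GK n,
        S.ψ (cL l Q) g = 1 → (∀ x, S.emb k (v x g) = tw f g (R x) - R x) ∧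
          ∀ i, κ Q g i = ∑ x, (v x g i).val • Ψ x) ∧
    (∀ Q w, w ∉ Q → S.Dpl k l (insert w Q) → κ (insert w Q) (gn w) = sw _ *ᵥ κ Q (fq w)) ∧
    (∀ x, 2 ^ k • R x = S.y l x) ∧ ∀ g ∈ GK n, S.ψ l g = 1 → chi f g = 1 →
      κ ∅ g = cmb Ψ fun x => S.crd k (g • R x - R x) := by
  have ex : ∀ Q, ∃ R D, S.Dpl k l Q → KD S k l (cL l Q) (S.Wt k Q _) R D := fun Q => by
    by_cases hQ : S.Dpl k l Q
    · obtain ⟨R, D, K⟩ := hQ.ex hl
      exact ⟨R, D, fun _ => K⟩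
    · exact ⟨0, 0, fun k => absurd k hQ⟩
  choose R D K using ex
  have K0 := K ∅ ⟨by simp, by simp, by simp, by simp, by simp, by simp⟩
  have c0 : cL l ∅ = l := by simp [cL]
  refine ⟨fun Q => kap Ψ (S.tt _ _ (R Q) (D Q)), R ∅, fun Q hQ => ⟨⟨(K Q hQ).z1 ha,
    fun w h1 h2 h3 σ hσ e => kap_zero ((K Q hQ).unr h1 h2 h3 hσ e),
    fun I h1 h2 => (K Q hQ).cob ha h1 h2,
    ⟨R Q, fun x g => S.crd k (S.tt _ _ (R Q) (D Q) g x), fun g hg e e' => ⟨fun x => ?_,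
      fun i => by simp only [kap_of hg, cmb, kdI_mul]⟩⟩, fun w hw => kap_zero ?_⟩,
    R Q, fun x g => S.crd k (S.tt _ _ (R Q) (D Q) g x), fun g hg e => ⟨fun x => by
      rw [emb_crd ((K Q hQ).tors hg x), (K Q hQ).of_ker hg e],
      fun i => by simp only [kap_of hg, cmb, kdI_mul]⟩⟩,
    fun Q w hw hQ => ?_, K0.root c0, fun g hg e e' => ?_⟩
  · rw [emb_crd ((K Q hQ).tors hg x), (K Q hQ).of_ker' hg e e']
  · have e1 := (insert_erase hw).symm
    exact (K Q hQ).tr (c := cL l (Q.erase w)) (by rw [← cL_insert (notMem_erase w Q), ← e1])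
      (dvd_mul_right _ _) (hQ.dvd w hw) (hQ.al w hw) (Wt_ins (K Q hQ).adm (notMem_erase w Q) e1)
  · have hm := mem_insert_self w Q
    have hd := hQ.ad w hm
    have K1 := K Q (hQ.mono (subset_insert _ _))
    have h2 := S.ine hd (gn_spec (S.odd hd)).1
    have h3 := K1.step (K _ hQ) (cL_insert hw) (hQ.nd hw) (hQ.dvd w hm) (hQ.al w hm)
      (Wt_ins (K _ hQ).adm hw rfl)
    simp only [kap_of h2, kap_of (fq_mem hl hd).1, ← h3, crd_smul ((K _ hQ).tors h2 _), cmb_mul,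
      hQ.rho w hm, mulVec_mulVec]
    rw [show sw (Ak k) * (!![0, 1; 1, 0] : Matrix (Fin 2) (Fin 2) _).map (kdI k) = 1 by
      ext i j
      fin_cases i <;> fin_cases j <;> simp [sw, Matrix.mul_apply], one_mulVec]
  · simp only [kap_of hg, K0.of_ker' hg (by rw [c0]; exact e) e']

end Pool.Agent.B6.KS

namespace Pool.Agent.B6.B7

open Pool.Agent.Lib.MP_696deb_nt Pool.Agent.Lib.MP_696deb_nt.B2 Pool.Agent.Lib.MP_696deb_nt.B6

/-- The Euler factor at a bad prime. -/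
theorem pw_bad {k : ℕ} {a b : Ak k} {c : ℤ} (hc : Odd c) {ε : ℤˣ} {m : ℕ} (hm : Odd m) {w : Lam}
    (hw : IsUnit w) (ha : a = Ideal.Quotient.mk _ (((ε : ℤ) : Lam) * (1 + X) ^ m))
    (hb : b = Ideal.Quotient.mk _ w) (e : a * b = 1) : Pw k 1 (c - b) := by
  obtain ⟨u, u1, u2⟩ := pw_gen hm
  obtain ⟨t, ht⟩ : ∃ t : Ak k, a = 1 + Ideal.Quotient.mk _ (u * X) + 2 * t := by
    rw [ha, u2]
    rcases Int.units_eq_one_or ε with rfl | rfl
    · exact ⟨0, by simp⟩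
    · exact ⟨-(1 + Ideal.Quotient.mk _ (u * X)), by simp; ring⟩
  obtain ⟨r, rfl⟩ := hc
  refine ⟨w * u, b * t + r, hw.mul u1, ?_⟩
  rw [pow_one, mul_assoc, map_mul, ← hb,
    show Ideal.Quotient.mk _ (u * X) = a - 1 - 2 * t by rw [ht]; ring]
  push_cast
  linear_combination -e

variable [Md]

variable {n k c : ℕ} {S : HS n} {T : Tate} {lam : Tp} {w : Plc} {f d e : ℤ} {g : Gam} {P : EE}
  {Q : Finset Plc}

/-- There is no twisted unramified torsion point whose order is a power of two. -/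
theorem fix_tw (T : Tate) {m : ℕ} (h : 2 ^ m • P = 0) (hP : ∀ g ∈ IN, tw f g P = P) : P = 0 := by
  induction m generalizing P with
  | zero => simpa using h
  | succ m ih =>
    have h2 : 2 • P = 0 := ih (by rwa [smul_smul, ← pow_succ]) fun g hg => by
      rw [tw_nsmul, hP g hg]
    exact T.EN_two (fun g hg => (B6.tw_two f g h2).symm.trans (hP g hg)) h2

/-- The data for the construction of Kolyvagin. -/
noncomputable def ks (Y : ES S f) (T : Tate) (hn : Nok n) (hf : Fok n f) : KS n f where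
  Ad := Adm n
  al := al
  C := S.C
  pr := S.pr
  ψ := S.ψ
  y := Y.y
  ν := S.ν
  ρ := T.ρ
  emb := T.emb
  inj := T.inj
  onto := T.surj
  smul := T.smul
  of_dvd := Adm.of_dvd
  ad_mul h h' k := h.mul (Plc.prime _) k h'.ndM h'.inert
  out h := h.out (fr_spec _)
  ine := Adm.ine
  odd := Adm.ne_two
  good h k := h.ndN ((dvd_Δ (Plc.prime _)).1 k)
  unf h _ := hf.chi_adm h
  sm := S.sm
  mul := S.mul
  surj := S.surj
  pr_ψ := S.pr_ψ
  dih := S.dih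
  unr := S.unr
  gal := Y.gal
  trace := Y.trace
  kron c w h := Y.kron c w _ h (fr_spec w)
  ν_gen w s h e := S.ν_gen w s _ h e (gn_spec h.ne_two)
  ν_fib := S.ν_fib
  es w P h := T.es w _ P h.ndM (fr_spec w)
  fix _ h _ _ e k := fix_tw T e fun g hg => k g (hn.IN_le hg) (kc_IN hn h hg)

/-- The character of the branch `e` with values in the ring of level `k`. -/
noncomputable def HS.PsA (S : HS n) (k : ℕ) (lam : Tp) (e : ℤ) : S.C lam.c →* Ak k where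
  toFun x := Ideal.Quotient.mk _ (HS.Psi S k lam e x)
  map_one' := by simp [HS.Psi]
  map_mul' x y := by
    rw [← map_mul, Ideal.Quotient.eq]
    convert Ideal.mul_mem_left _ ((S.gen e (S.pr 1 lam.c (x * y)) : ℤ) : Lam) (xtw_mod k
      ((lam.ν S (2 * k + 3) x).toAdd.val + (lam.ν S (2 * k + 3) y).toAdd.val)) using 1
    simp only [HS.Psi, map_mul, toAdd_mul, ZMod.val_add, Units.val_mul, Int.cast_mul, pow_add]
    ring

theorem HS.evk_PsA (x : S.C lam.c) : evk k (HS.PsA S k lam e x) = (S.gen e (S.pr 1 lam.c x) : ℤ) := by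
  change evk k (Ideal.Quotient.mk _ _) = _
  rw [evk, B2.ev, Ideal.Quotient.lift_mk]
  simp [HS.Psi]

theorem kc_act (g : Gam) (x : Fin 2 → Ak k) : act T (HS.psf S k lam f e) (Ak k) g x =
    (chi f g : ℤ) • (mred k (T.ρ g)).map (kdI k) *ᵥ HS.PsA S k lam e (S.ψ lam.c g) • x := by
  funext i
  rw [act_apply, mact_apply, mulVec_smul, Pi.smul_apply, Pi.smul_apply, mulVec, dotProduct]
  simp only [rep, HS.psf, HS.psi, mred, Matrix.smul_apply, map_apply, Fin.sum_univ_two, kdI_C,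
    Algebra.smul_def, Ideal.Quotient.algebraMap_eq, map_mul, Algebra.algebraMap_self,
    RingHom.id_apply, eq_intCast, map_intCast, HS.PsA, MonoidHom.coe_mk, OneHom.coe_mk]
  ring

/-- The trace from the conductor of a tower. -/
theorem tr_adm (Y : ES S d) : ∀ c, Adm n c → (∀ w : Plc, w.p ∣ c → ¬ Rt w.p) →
    ∃ A : ℤ, Odd A ∧ ∀ ε : S.C 1 → ℤ, ∑ x, ε (S.pr 1 c x) • Y.y c x = A • ∑ a, ε a • Y.y 1 a := by
  intro c
  induction c using induction_on_primes with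
  | zero => exact fun h => absurd h.1 not_squarefree_zero
  | one =>
    refine fun h _ => ⟨1, odd_one, fun ε => (sum_congr rfl fun x _ => ?_).trans (one_smul _ _).symm⟩
    obtain ⟨g, hg, rfl⟩ := S.surj 1 h x
    rw [S.pr_ψ 1 1 h dvd_rfl g hg]
  | prime_mul p a hp ih =>
    rw [mul_comm]
    intro h hr
    obtain ⟨w, rfl⟩ := exists_plc hp
    have ha := h.of_dvd (dvd_mul_right _ _)
    obtain ⟨A, h1, h2⟩ := ih ha fun v hv => hr v (hv.mul_right _)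
    refine ⟨al w.p * A, (Int.not_even_iff_odd.1 (mt (even_al hp
      (h.of_dvd (dvd_mul_left _ _)).nd30).1 (hr w (dvd_mul_left _ _)))).mul h1, fun ε => ?_⟩
    rw [mul_smul, ← h2, ← sum_fiberwise_of_maps_to (t := univ) (g := S.pr a (a * w.p))
      (fun _ _ => mem_univ _), smul_sum]
    refine sum_congr rfl fun b _ => ?_
    rw [smul_comm, ← Y.trace a w.p hp h b, smul_sum]
    refine sum_congr rfl fun x hx => ?_
    obtain ⟨g, hg, rfl⟩ := S.surj _ h x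
    rw [← (mem_filter.1 hx).2, S.pr_ψ _ _ h (dvd_mul_right _ _) g hg, S.pr_ψ _ _ h (one_dvd _) g hg,
      S.pr_ψ _ _ ha (one_dvd _) g hg]

theorem kc_euler (hf : Fok n f) (h : HS.Tw S k lam (od f)) {φ : ℕ → Gam}
    {ε : ℕ → ℤ} (hε : ∀ r, Odd (ε r))
    (hφ : ∀ r ∈ (od f).natAbs.primeFactors, ∃ w : Plc, w.p = r ∧ IsFrob w r (φ r)) :
    Pw k (mm f) (chL (HS.PsA S k lam e) (Eul S f lam.c φ ε)) := by
  rw [Eul, map_prod, mm]
  refine Pw.prod _ fun r hr => ?_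
  obtain ⟨w, rfl, hw⟩ := hφ r hr
  have h1 : (w.p : ℤ) ∣ od f := Int.natCast_dvd.2 (Nat.dvd_of_mem_primeFactors hr)
  have hu : IsUnit (HS.Psi S k lam e (S.ψ _ (φ w.p))⁻¹) :=
    ((Units.isUnit _).map (Int.castRingHom Lam)).mul
      ((isUnit_iff_constantCoeff.2 (by simp)).pow _)
  have hi : HS.PsA S k lam e (S.ψ _ (φ w.p)) * HS.PsA S k lam e (S.ψ _ (φ w.p))⁻¹ = 1 := by
    rw [← map_mul, mul_inv_cancel, map_one]
  by_cases hN : w.p ∣ NN
  · simpa only [wt, if_pos hN, map_sub, chL_single, inv_one, map_one, mul_one, Int.cast_one,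
      one_mul] using pw_bad (b := HS.PsA S k lam e _) (hε w.p) (h.gf w h1 _ hw) hu rfl rfl hi
  · simpa only [wt, if_neg hN, map_sub, chL_single, inv_one, map_one, mul_one, Int.cast_one,
      one_mul, inv_inv, even_al w.prime (hf.nd30 w.prime h1 hN)]
      using pw_euler (a := HS.PsA S k lam e _) (b := HS.PsA S k lam e _) (al w.p) (h.gf w h1 _ hw) hu rfl
        rfl hi

theorem kc_unit (Y : ES S d) (hd : d ∣ 2) (ho : TOk n lam)
    (hg : g ∈ HS.N S T k lam f) (hk : 1 ≤ k)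
    (hu : T.Un (Y.ychi 1) g) {R : S.C lam.c → EE} (hR : ∀ x, 2 ^ k • R x = Y.y lam.c x)
    {y : Fin 2 → ZMod (2 ^ k)} (hy : T.emb k y =
      ∑ x, (S.gen e (S.pr 1 lam.c x) : ℤ) • (g • R x - R x)) (z : ZMod (2 ^ k)) : y 1 ≠ 2 * z := by
  intro h
  have hl := ho.adm
  have h3 := y_N Y hd hk hl hg
  have h4 := ychi_N Y hd hk hl hg 1
  obtain ⟨k, rfl⟩ := Nat.exists_eq_add_of_le hk
  have h1 := S.gen_one
  obtain ⟨A, ⟨m, hm⟩, h2⟩ := tr_adm Y _ hl ho.nrt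
  replace h2 := h2 fun _ => 1
  refine hu (2 ^ k • ∑ x, R x - m • Y.ychi 1) _ ?_ ((T.two 1 k y).symm.trans ?_) ?_
  · simp only [one_smul] at h2
    rw [smul_sub, ← mul_smul, ← pow_succ', add_comm k, smul_sum, sum_congr rfl fun x _ => hR x, h2,
      hm, ES.ychi]
    simp only [h1, Units.val_one, one_smul]
    module
  · rw [hy, smul_sub g, smul_comm g m, h4, sub_sub_sub_cancel_right, smul_comm g, ← smul_sub,
      smul_sum (r := g), ← sum_sub_distrib, smul_sum, smul_sum]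
    refine sum_congr rfl fun x _ => ?_
    have h5 : 2 • 2 ^ k • (g • R x - R x) = 0 := by
      rw [← mul_smul, ← pow_succ', add_comm k, smul_sub, smul_comm, hR, h3, sub_self]
    rcases Int.units_eq_one_or (S.gen e (S.pr 1 lam.c x)) with e | e <;> rw [e]
    · rw [Units.val_one, one_smul]
    · rw [Units.val_neg, Units.val_one, neg_one_smul, smul_neg, neg_two h5]
  · rw [h, map_mul, map_ofNat]
    exact mul_eq_zero_of_left rfl _

/-- The classes of Kolyvagin. -/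
theorem kc (T : Tate) (hn : Nok n) (hf : Fok n f) (hd : d ∣ 2) (Y : ES S f) (Y₀ : ES S d)
    (hY : Cong Y Y₀) (h : HS.Tw S k lam (od f)) (e : ℤ) :
    ∃ (κ : Finset Plc → Gam → Fin 2 → Ak k) (R : EE),
    (∀ Q, HS.DpS S T k lam f Q → κ Q ∈ SU T n f lam (HS.psf S k lam f e) Q (fun _ => .tr) (Ak k)) ∧
    (∀ Q w, w ∉ Q → HS.DpS S T k lam f (insert w Q) →
      κ (insert w Q) (gn w) = sw _ *ᵥ κ Q (fq w)) ∧
    (∃ A : ℤ, 2 ^ k • R = A • Y.ychi e) ∧
    (∀ g ∈ HS.N S T k lam f, T.emb k (fun i => evk k (κ ∅ g i)) = g • R - R) ∧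
    ∀ g ∈ HS.N S T k lam f, T.Un (Y₀.ychi 1) g → 2 * mm f < k → ∀ x : Lam,
      Ideal.Quotient.mk _ x = κ ∅ g 1 → x ^ 2 ∉ aa 1 (2 * mm f + 1) := by
  have hl := h.adm
  obtain ⟨κ, R, k1, k2, k3, k4⟩ := KS.core7 (S := ks Y T hn hf) (k := k) hl (Ψ := HS.PsA S k lam e)
    (a := act T (HS.psf S k lam f e) (Ak k)) fun g _ => kc_act g
  have dp : ∀ Q, HS.DpS S T k lam f Q → (ks Y T hn hf).Dpl k lam.c Q := fun Q hQ =>
    have h1 := fun w hw => deep_dvd T (hQ.dp w hw).adm.ndM (fr_spec w) (hQ.dp w hw).mem.2.1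
    ⟨fun w hw => (hQ.dp w hw).adm, fun w hw => (hQ.dp w hw).ne,
      fun w hw => (pow_dvd_pow 2 (by omega)).trans (h1 w hw).1,
      fun w hw => (pow_dvd_pow 2 (by omega)).trans (h1 w hw).2,
      fun w hw => deep_rho T ((la_mred_le (Nat.le_add_right k 2)
        ((hQ.dp w hw).mem.2.1.trans (la_mred_one _).symm)).trans (la_mred_one k)), hQ.inj⟩
  have ev := fun v => KS.emb_evk (S := ks Y T hn hf) (Ψ := HS.PsA S k lam e) HS.evk_PsA v
  have fx : ∀ g ∈ HS.N S T k lam f, ∀ x, 2 ^ k • (g • R x - R x) = 0 := fun g hg x => by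
    rw [smul_sub, smul_comm, k3, ← KS.tw_of hg.2.2.2]
    exact sub_eq_zero.2 ((Y.gal _ hl g hg.1 x).trans (by rw [hg.2.2.1 hl, one_mul]; rfl))
  refine ⟨κ, ∑ x, (S.gen e (S.pr 1 lam.c x) : ℤ) • R x, fun Q hQ => ?_,
    fun Q w hw hQ => k2 Q w hw (dp _ hQ), ?_, fun g hg => ?_, fun g hg hu hk x hx => ?_⟩
  · obtain ⟨K, U, v, hv⟩ := k1 Q (dp Q hQ)
    have hc : Adm n (KS.cL lam.c Q) := (dp Q hQ).adm hl
    refine ⟨K.z1, fun w h1 h2 h3 h4 σ hσ => K.unr w (ne_two_of h1)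
      (fun k => h1 (((dvd_Δ w.prime).1 k).mul_left 2)) (KS.not_dvd_cL h3 h4) σ hσ
        (hf.chi_ine (ne_two_of h1) h2 hσ.2),
      fun w hw => K.cob _ (fun g hg => have h1 := ine_le_IN (Nf_N hw) hg
        ⟨hn.IN_le h1, kc_IN hn hc h1, hf.chi_Nf hw hg⟩) (T.kumN w (Nf_N hw)), ?_,
      fun w hw => ⟨(Submodule.mem_bot _).2 (K.tr w hw), trivial⟩⟩
    have h1 := fun g (hg : g ∈ GK n ⊓ Dec w2) => hv g hg.1 (KS.dec (S := ks Y T hn hf) hc
      (fun e => nd_of_MM (hc.2 _ w2.prime e).1 (w2_p ▸ dvd_mul_right 2 NN)) (hn.ine_two w2_p)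
      (hn.out_two w2_p) hg)
    exact (KumC.sum univ fun x _ => KumC.of_smul (m := k) (x := v x)
      ⟨U x, fun g hg => (h1 g hg).1 x⟩ ((kil_Ak k).two (HS.PsA S k lam e x))).congr
      fun g hg => funext (h1 g hg).2
  · obtain ⟨A, -, hA⟩ := tr_adm Y _ hl h.tok.nrt
    refine ⟨A, ?_⟩
    rw [smul_sum, ES.ychi, ← hA fun a => (S.gen e a : ℤ)]
    exact sum_congr rfl fun x _ => by rw [smul_comm, k3]; rfl
  · rw [k4 g hg.1 (hg.2.2.1 hl) hg.2.2.2, smul_sum, ← sum_sub_distrib]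
    refine (ev _).trans (sum_congr rfl fun x _ => ?_)
    rw [KS.emb_crd (fx g hg x), smul_sub, smul_comm g]
  · obtain ⟨φ, ε, hε, hφ, hY⟩ := hY
    choose u u1 u2 using hY lam.c hl
    obtain ⟨R', v, r1, r2⟩ := (ks Y T hn hf).exists_root k (g := g) (y := Y₀.y lam.c)
      (y_N Y₀ hd (by omega) hl hg)
    obtain ⟨s, hs⟩ := KS.cmb_cong (S := ks Y T hn hf) (Ψ := HS.PsA S k lam e)
      (N_fix hg (Nat.le_add_right k 2))
      (fun x => u1 x g hg.1 (hg.2.2.1 hl) hg.2.2.2 (chi_N hd (by omega) hg))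
      (fun x => (k3 x).trans (u2 x)) r1 r2 1
    rw [k4 g hg.1 (hg.2.2.1 hl) hg.2.2.2, hs] at hx
    have h1 := ((kc_euler (e := e) hf h hε hφ).mul (pw_zero (kc_unit Y₀ hd h.tok hg (by omega)
      hu r1 ((ev v).trans (sum_congr rfl fun x _ => by rw [r2])))))
    have := (h1.add s).sq (by omega) hx
    rwa [add_zero] at this

end Pool.Agent.B6.B7
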