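import Pool.Agent.Lib.MP_696deb_nt.B7.TG

/-! The upper and the lower bound on the target branch. -/

set_option autoImplicit false

open scoped NNReal Classical
open Finset Matrix NumberTheorySymbols PowerSeries

namespace Pool.Agent.B6.B7

open Pool.Agent.Lib.MP_696deb_nt Pool.Agent.Lib.MP_696deb_nt.B2 Pool.Agent.Lib.MP_696deb_nt.B6

variable [Md]

section

variable {T : Tate} {ψ : Gam → Lam} {n j : ℕ} {f d d' e e' : ℤ} {lam : Tp} {g : Gam}
  {c : Gam → Fin 2 → Lam ⧸ aa j 1}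

/-- The Selmer conditions at zero. -/
theorem TwPr.inSU_iff (hc : TwPr n f d d') (hl : TOk n lam)
    (hψ : ∀ g ∈ GK n, ψ g - ((chi d g : ℤ) : Lam) ∈ Ideal.span {(X : Lam)}) :
    InSU T n f lam ψ ∅ (fun _ => .tr) c ↔ KV T n f d j fun g => evV j (c g) := by
  have k0 : ∀ {v}, evV j v = 0 ↔ v = 0 := map_eq_zero_iff _ (evV_inj j)
  have k1 : ∀ g ∈ GK n, ∀ x, evV j (cob (act T ψ _) x g) = cob (tv T d j) (evV j x) g :=
    fun g hg x => by rw [cob, cob, map_sub, evV_act (hψ g hg)]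
  constructor
  · intro h
    have h1 := h.z1.1.map (evV j) fun g hg => evV_act (T := T) (hψ g hg)
    refine ⟨⟨h1, fun g hg => k0.2 (h.z1.2 g hg)⟩, fun w hw hf σ hσ => ?_, fun w hw => ?_,
      h.kum j (ev j 1 (.inr one_ne_zero)).toAddMonoidHom⟩
    · by_cases k : w.p ∣ lam.c
      · exact hc.unr_o3 (hl.ad k) (hl.nrt w k) (h1.lo_mono inf_le_left) hσ.2
      · exact k0.2 (h.unr w hw hf k (fun _ h => absurd h (notMem_empty _)) σ hσ)
    · obtain ⟨x, hx⟩ := h.lur w hw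
      exact ⟨evV j x, fun σ hσ => by rw [hx σ hσ, k1 σ (hc.nok.split (Nf_N hw) (Ine_le w hσ))]⟩
  · intro h
    refine ⟨⟨⟨?_, fun g hg u hu => evV_inj j ?_⟩, fun g hg => k0.1 (h.z.2 g hg)⟩,
      fun w hw hf _ _ σ hσ => k0.1 (h.unr w hw hf σ hσ), fun w hw => ?_,
      KumC.of_inj (m := j) (fun x => by simp) (ev j 1 (.inr one_ne_zero)).toAddMonoidHom
        (xnz_bij j).1 h.kum.kumC, fun w hw => absurd hw (notMem_empty w)⟩
    · obtain ⟨U, u1, u2, u3⟩ := h.z.1.1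
      exact ⟨U, u1, u2, fun g hg u hu e => evV_inj j (u3 g hg u hu e)⟩
    · rw [map_add, evV_act (hψ g hg)]
      exact h.z.1.2 g hg u hu
    · obtain ⟨y, hy⟩ := h.lur w hw
      obtain ⟨x, rfl⟩ := evV_surj j y
      exact ⟨x, fun σ hσ => evV_inj j
        ((hy σ hσ).trans (k1 σ (hc.nok.split (Nf_N hw) (Ine_le w hσ)) x).symm)⟩

/-- The upper bound on the target branch. -/
theorem tg_bound (T : Tate) (hn : Nok n) (hf : Fok n f) (S : HS n) (he : e * e' = -n)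
    (h4 : e % 4 = 1) (h : Cork (f * e)) (h' : Cork (f * e')) : ∃ C : ℕ, ∀ k lam,
      HS.Tw S k lam (od f) → ∀ j ≤ k,
      Nat.card (SM T n f lam (HS.psf S k lam f e) ∅ (fun _ => .tr) (Lam ⧸ aa j 1)) ≤ C * 4 ^ j := by
  have hc := twPr hn hf he h4
  obtain ⟨C, hC⟩ := hc.cork_link T h h'
  exact ⟨C, fun k lam hl j _ => natCard_le (hC j (fr lam.pl) (hl.adp.out (fr_spec lam.pl))
    (T.o3_fq hl.adp.nd30 hl.nrt)) (f := fun c g => evV j (c.1 g))
    (fun c c' e => Subtype.ext (funext fun g => evV_inj j (congrFun e g))) fun c =>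
      ⟨(hc.inSU_iff hl.tok fun _ => HS.psf_X hl.adm hf.ne (dvd_neg.1 ⟨e', he.symm⟩) h4).1
        c.2.1, (congrArg (evV j) c.2.2).trans (map_zero _)⟩⟩

end

variable {n : ℕ} {f d d' e e' : ℤ}

/-- The Kummer cocycle of a point that is defined over the quadratic field. -/
theorem xnz_kum (T : Tate) (j : ℕ) (hc : TwPr n f d d') {z : Gam} (hz : z ∈ GK n) (h3 : T.O3 z)
    {R : EE} (hR : ∀ g ∈ GK n, tw d g R = R) : ∃ x, KV T n f d j x ∧ x z = 0 ∧ ∃ W : EE,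
      2 ^ j • W = R ∧ ∀ g ∈ GK n, T.emb j (x g) = tw d g W - W := by
  have e0 : ∀ Y, 2 ^ j • Y = R → ∀ g ∈ GK n, ∃ v, T.emb j v = tw d g Y - Y := fun Y hY g hg =>
    T.surj j _ (by rw [smul_sub, ← lkT_apply, ← map_nsmul, lkT_apply, hY, hR g hg, sub_self])
  obtain ⟨Y, hY, h0⟩ : ∃ Y, 2 ^ j • Y = R ∧ tw d z Y = Y := by
    obtain ⟨Y, hY⟩ := lo3_half j R
    obtain ⟨v, hv⟩ := e0 Y hY z hz
    obtain ⟨y, rfl⟩ := Finite.surjective_of_injective ((injective_iff_map_eq_zero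
      (tv T d j z - AddMonoidHom.id (Vm j))).2 fun y hy => tv_eig (d := d) h3 odd_one
        ((sub_eq_zero.1 hy).trans (one_smul _ _).symm)) v
    refine ⟨Y - T.emb j y, by rw [smul_sub, emb_kill, sub_zero, hY], ?_⟩
    rw [AddMonoidHom.sub_apply, map_sub, emb_tv, AddMonoidHom.id_apply] at hv
    rw [← lkT_apply, map_sub, lkT_apply, lkT_apply]
    linear_combination (norm := abel1) -hv
  have : ∀ g, ∃ x, (g ∈ GK n → T.emb j x = tw d g Y - Y) ∧ (g ∉ GK n → x = 0) := fun g => by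
    by_cases hg : g ∈ GK n
    · exact (e0 Y hY g hg).imp fun _ h => ⟨fun _ => h, fun k => absurd hg k⟩
    · exact ⟨0, fun k => absurd k hg, fun _ => rfl⟩
  choose c c1 c2 using this
  refine ⟨c, ⟨⟨⟨?_, fun g hg u hu => T.inj j ?_⟩, c2⟩, fun w hw hf σ hσ => T.inj j ?_,
    fun w hw => ?_, hc.kum_iff.2 ⟨Y, fun g hg => c1 g hg.1⟩⟩,
    T.inj j (by rw [c1 z hz, h0, sub_self, map_zero]), Y, hY, c1⟩
  · obtain ⟨U, u1, u2, u3⟩ := (sm_chi (H := GK n) d).comp₂ (sm_pt (GK n) Y)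
      fun e P => (e : ℤ) • P - Y
    exact ⟨U, u1, u2, fun g hg u hu e => T.inj j
      ((c1 g hg).trans ((u3 g hg u hu e).trans (c1 u hu).symm))⟩
  · rw [map_add, emb_tv, c1 _ (mul_mem hg hu), c1 g hg, c1 u hu, lk_tw_mul,
      ← lkT_apply g (_ - _), map_sub]
    exact (sub_add_sub_cancel' _ _ _).symm
  · have e1 := emb_kill T (c σ)
    rw [map_zero]
    rw [c1 σ hσ.1, tw, hc.chi_ine (ne_two_of hw) hf hσ, Units.val_one, one_smul] at e1 ⊢
    exact K1_tors (ne_two_of hw) (K1_ine (fun e => hw (((dvd_Δ w.prime).1 e).mul_left 2)) hσ.2 Y) e1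
  · have k : ∀ σ ∈ Ine w, σ ∈ GK n ∧ ∀ P, tw d σ P = σ • P := fun σ hσ => by
      have k := hc.nok.split (Nf_N hw) (Ine_le w hσ)
      exact ⟨k, fun P => by
        rw [tw, hc.chi_ine (ne_two_of_dvd (Nf_N hw)) (Nf_nd hw) ⟨k, hσ⟩, Units.val_one, one_smul]⟩
    obtain ⟨t, t1, t2⟩ := T.kum_pow (Nf_N hw) (m := j) (R := Y) fun σ hσ => by
      rw [hY, ← (k σ hσ).2, hR σ (k σ hσ).1]
    obtain ⟨y, rfl⟩ := T.surj j t t1
    exact ⟨y, fun σ hσ => T.inj j (by
      rw [c1 σ (k σ hσ).1, cob, map_sub, emb_tv, (k σ hσ).2, (k σ hσ).2, t2 σ hσ])⟩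

/-- Points on both twists give rank two. -/
theorem nz_bound (T : Tate) (hn : Nok n) (hf : Fok n f)
    (S : HS n) (he : e * e' = -n) (h4 : e % 4 = 1) (h : Nz (f * e)) (h' : Nz (f * e')) :
    ∃ C : ℕ, ∀ k lam, HS.Tw S k lam (od f) → ∀ j ≤ k, 4 ^ j ≤
      C * Nat.card (SM T n f lam (HS.psf S k lam f e) ∅ (fun _ => .tr) (Lam ⧸ aa j 1)) := by
  obtain ⟨P, hP, h⟩ := h
  obtain ⟨P', hP', h'⟩ := h'
  have hc := twPr hn hf he h4
  obtain ⟨K, hK⟩ := hc.card_KV T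
  refine ⟨4 ^ 7, fun k lam hT j _ => ?_⟩
  have iff := fun c : Gam → Fin 2 → Lam ⧸ aa j 1 => hc.inSU_iff (T := T) (c := c) hT.tok
    fun _ => HS.psf_X (S := S) (k := k) hT.adm hf.ne (dvd_neg.1 ⟨e', he.symm⟩) h4
  have fin : Finite (SM T n f lam (HS.psf S k lam f e) ∅ (fun _ => .tr) (Lam ⧸ aa j 1)) :=
    tg_finite (hK j j) (f := fun c g => evV j (c.1 g))
      (fun c c' e => Subtype.ext (funext fun g => evV_inj j (congrFun e g))) fun c =>
        ⟨⟨_, _, (iff _).1 c.2.1, (iff 0).1 (zero_mem (SU T n f lam _ ∅ _ _)), funext fun g => by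
          simp⟩, funext fun g => Vm_kill _⟩
  generalize f * e = d, f * e' = d' at *
  have e1 : ∀ g ∈ GK n, ∀ Q, tw d' g Q = tw d g Q := fun g hg Q => by rw [tw, tw, hc.eq g hg]
  have e2 : ∀ Q, tw d' cc Q = -tw d cc Q := fun Q => by
    rw [tw, tw, hc.ne _ (cc_notMem hn.pos), Units.val_neg, neg_smul]
  have out := hT.adp.out (fr_spec lam.pl)
  have key := fun z : Fin (2 ^ (j - 7)) × Fin (2 ^ (j - 7)) =>
    xnz_kum T j hc (mul_mem_GK out out) (T.o3_fq hT.adp.nd30 hT.nrt)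
      (R := (64 * z.1 : ℤ) • P + (64 * z.2 : ℤ) • P') fun g hg => by
        rw [← lkT_apply, map_add, map_zsmul, map_zsmul, lkT_apply, lkT_apply, hP, ← e1 g hg, hP']
  choose x x1 x2 W hW1 hW2 using key
  choose c hx using fun z g => evV_surj j (x z g)
  have hc1 : ∀ z, c z ∈ SM T n f lam (HS.psf S k lam f e) ∅ (fun _ => .tr) (Lam ⧸ aa j 1) := fun z =>
    ⟨(iff _).2 (by simpa only [hx] using x1 z),
      evV_inj j ((hx z _).trans ((x2 z).trans (map_zero _).symm))⟩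
  have inj : Function.Injective fun z => (⟨c z, hc1 z⟩ :
      SM T n f lam (HS.psf S k lam f e) ∅ (fun _ => .tr) (Lam ⧸ aa j 1)) := fun z y e => by
    have e3 : c z = c y := congrArg Subtype.val e
    have e4 : ∀ g ∈ GK n, tw d g (W z - W y) = W z - W y := fun g hg => by
      have := hW2 z g hg
      rw [← hx, e3, hx, hW2 y g hg] at this
      rw [← lkT_apply, map_sub, lkT_apply, lkT_apply]
      linear_combination (norm := abel1) -this
    have e5 : 2 ^ j • (W z - W y) =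
        (64 * ((z.1 : ℤ) - y.1)) • P + (64 * ((z.2 : ℤ) - y.2)) • P' := by
      rw [smul_sub, hW1, hW1]
      module
    refine Prod.ext (xnz_eq (xnz_plus hn.pos hP h ?_ e4 e5))
      (xnz_eq (xnz_plus (P' := P) hn.pos hP' h' ?_ (fun g hg => (e1 g hg _).trans (e4 g hg))
        (e5.trans (add_comm _ _))))
    · rw [← neg_neg (tw d cc P'), ← e2, hP']
    · rw [e2, hP]
  have le := Nat.card_le_card_of_injective _ inj
  rw [Nat.card_prod, Nat.card_fin, ← mul_pow] at le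
  refine le_trans ?_ (Nat.mul_le_mul_left _ le)
  rw [show 2 * 2 = 4 from rfl, ← pow_add]
  exact Nat.pow_le_pow_right (by norm_num) (by omega)

end Pool.Agent.B6.B7
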