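import Pool.Agent.Lib.MP_696deb_nt.B7.TWn

/-! The primes of the tower for arbitrary twists. -/

set_option autoImplicit false

open scoped NNReal Classical
open Finset Matrix NumberTheorySymbols PowerSeries

namespace Pool.Agent.B6.B7

open Pool.Agent.Lib.MP_696deb_nt Pool.Agent.Lib.MP_696deb_nt.B2 Pool.Agent.Lib.MP_696deb_nt.B6

/-- Matrices whose order divides three. -/
def Ev3 (A : B6.M2) : Prop := A * A * A = 1

instance (A : B6.M2) : Decidable (Ev3 A) := inferInstanceAs (Decidable (_ = _))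

theorem ev3_mul : ∀ {A : B6.M2}, Ord2 A → ∀ {B : B6.M2}, (Ev3 B → Ord2 (A * B)) ∧
    (Ord2 B → Ev3 (A * B)) := by decide +kernel

variable [Md]

variable {n k : ℕ} {S : HS n} {T : Tate} {lam : Tp} {w : Plc} {f : ℤ} {Q : Finset Plc} {z g : Gam}

theorem tv_at (T : Tate) (hw : w.p ∣ NN) (hs : Gen w g) : ∃ v t, v.p = w.p ∧ T.Tv w v g t := by
  obtain ⟨u, h1, h2⟩ := T.big w hw g hs
  exact ⟨u • w, _, rfl, hw, hw, hs, hs.smul u, h1, h2⟩

/-- A product of generators of inertia and its parity. -/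
theorem tw_tau (T : Tate) (F : Finset ℕ) (hF : ∀ q ∈ F, q.Prime ∧ q ≠ 2) :
    ∃ τ, cyc τ = 1 ∧ (∀ p : ℕ, p.Prime → chi p τ = if p ∈ F then -1 else 1) ∧
      (Even (F.filter (· ∣ NN)).card → Ev3 (T.r2 τ)) ∧
      (Odd (F.filter (· ∣ NN)).card → Ord2 (T.r2 τ)) := by
  induction F using Finset.induction_on with
  | empty => exact ⟨1, cyc_one, fun p _ => by simp, fun _ => by simp [Ev3], by simp⟩
  | insert q F hq ih =>
    obtain ⟨τ, h1, h2, h3, h4⟩ := ih fun p hp => hF p (mem_insert_of_mem hp)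
    obtain ⟨q1, q2⟩ := hF q (mem_insert_self _ _)
    obtain ⟨w, rfl⟩ := exists_plc q1
    obtain ⟨σ, hσ⟩ := exists_gen q2
    refine ⟨σ * τ, by rw [cyc_mul, cyc_ine q2 hσ.1, h1, mul_one], fun p hp => ?_, ?_⟩
    · rw [map_mul, h2 p hp]
      by_cases e : p = w.p
      · rw [e, hσ.2, if_neg hq, if_pos (mem_insert_self _ _), mul_one]
      · rw [chi_ine_ne q2 hp e hσ.1, one_mul]
        simp [e]
    rw [map_mul, filter_insert]
    split_ifs with e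
    · obtain ⟨v, t, -, H⟩ := tv_at T e hσ
      rw [card_insert_of_notMem fun k => hq (mem_filter.1 k).1, Nat.even_add_one, Nat.odd_add_one,
        Nat.not_even_iff_odd, Nat.not_odd_iff_even]
      exact ⟨fun k => (ev3_mul H.ord2.1).2 (h4 k), fun k => (ev3_mul H.ord2.1).1 (h3 k)⟩
    · rw [T.r2_of le_rfl (by
        rw [T.unr w (fun k => ((dvd_two_NN q1).1 k).elim q2 e) σ hσ.1, mred_one]), one_mul]
      exact ⟨h3, h4⟩

/-- An element of order three modulo two with prescribed symbols. -/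
theorem tw_elt (T : Tate) (F : Finset ℕ) (hF : ∀ q ∈ F, q.Prime ∧ q ≠ 2)
    (ho : Odd (F.filter (· ∣ NN)).card) : ∃ s, Ord3 (T.r2 s) ∧ cyc s = -1 ∧
      ∀ p : ℕ, p.Prime → chi p s = if p ∈ F then -1 else 1 := by
  obtain ⟨q, hq⟩ := card_pos.1 ho.pos
  obtain ⟨q0, qN⟩ := mem_filter.1 hq
  obtain ⟨q1, q2⟩ := hF q q0
  obtain ⟨w, rfl⟩ := exists_plc q1
  obtain ⟨τ, h1, h2, h3, -⟩ := tw_tau T (F.erase w.p) fun p hp => hF p (mem_of_mem_erase hp)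
  have h4 : Ord2 (T.r2 (cc * τ)) := by
    rw [map_mul, T.r2_cc]
    refine (ev3_mul ord2_swap).1 (h3 ?_)
    rw [filter_erase, card_erase_of_mem hq]
    exact Nat.Odd.sub_odd ho odd_one
  obtain ⟨v, t, t0, t1, t2⟩ : ∃ (v : Plc) (t : Gam), v.p = w.p ∧ Gen v t ∧
      Ord3 (T.r2 (cc * τ * t)) := by
    obtain ⟨s, hs⟩ := exists_gen q2
    obtain ⟨v, t, e0, h⟩ := tv_at T qN hs
    obtain ⟨k1, k2, k3⟩ := h.ord2
    by_cases e : T.r2 (cc * τ) = T.r2 s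
    · exact ⟨v, t, e0, h.ht, by rw [map_mul, e]; exact ord3_mul k1 k2 k3⟩
    · exact ⟨w, s, rfl, hs, map_mul T.r2 _ s ▸ ord3_mul h4 k1 e⟩
  refine ⟨_, t2, by rw [cyc_mul, cyc_mul, cyc_cc, cyc_ine (t0 ▸ q2) t1.1, h1, mul_one, mul_one],
    fun p hp => ?_⟩
  rw [map_mul, map_mul, chi_cc (by exact_mod_cast hp.ne_zero), if_pos (by exact_mod_cast hp.pos),
    one_mul, h2 p hp]
  by_cases e : p = w.p
  · rw [e, if_neg (notMem_erase _ _), if_pos q0, one_mul, ← t0, t1.2]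
  · rw [chi_ine_ne (t0 ▸ q2) hp (t0 ▸ e) t1.1, mul_one]
    simp [e]

theorem tw_prime (T : Tate) (F P : Finset ℕ) (hF : ∀ q ∈ F, q.Prime ∧ q ≠ 2)
    (ho : Odd (F.filter (· ∣ NN)).card) (hP : ∀ p ∈ P, p.Prime) (v : ℕ) (B : Finset ℕ) :
    ∃ (w : Plc) (φ : Gam), w.p ∉ B ∧ IsFrob w w.p φ ∧ Ord3 (T.r2 φ) ∧ 2 ^ v ∣ w.p + 1 ∧
      w.p % 4 = 3 ∧ ∀ p ∈ P, J(p | w.p) = if p ∈ F then -1 else 1 := by
  obtain ⟨s, h3, t2, t3⟩ := tw_elt T F hF ho
  obtain ⟨w, φ, a, k1, k2, k3, k4, k5, k6, k7⟩ := tw_frob T.sm_r2 (s := s) (by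
    rw [show 6 = 3 * 2 from rfl, pow_mul, pow_three', h3.cube, one_pow]) t2
    (P.image (↑)) (v + 2) (B ∪ P)
  rw [mem_union, not_or] at k1
  refine ⟨w, φ, k1.1, k3, ?_, (pow_dvd_pow 2 (by omega)).trans k6, ?_, fun p hp => ?_⟩
  · rw [k5]
    exact h3.pow (Nat.prime_three.coprime_iff_not_dvd.1 (k4.coprime_dvd_right (by norm_num)).symm)
  · have : 2 ^ 2 ∣ w.p + 1 := (pow_dvd_pow 2 (by omega)).trans k6
    omega
  have p1 := hP p hp
  rw [← chi_frob (mu0_ndvd k2 fun k => k1.2 (((Nat.prime_dvd_prime_iff_eq w.prime p1).1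
      (Int.natCast_dvd_natCast.1 k)) ▸ hp)) k3, k7 _ (mem_image_of_mem _ hp), t3 p p1]
  split_ifs <;> simp

theorem Fok.mem (hf : Fok n f) (q : ℕ) :
    q ∈ (od f).natAbs.primeFactors ↔ q.Prime ∧ (q : ℤ) ∣ od f := by
  simp only [Nat.mem_primeFactors, Int.natCast_dvd, ne_eq, hf.od_ne, not_false_eq_true, and_true]

theorem exists_tower (T : Tate) (hn : Nok n) (hf : Fok n f) (S : HS n) {s : ℕ} (hs : 0 < s)
    (B : ℕ) (F : Finset ℕ) (F2 : ∀ q ∈ F, q.Prime ∧ q ≠ 2 ∧ ¬ q ∣ n)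
    (F3 : Odd (F.filter (· ∣ NN)).card) : ∃ (w : Plc) (z : Gam), B < w.p ∧ Adm n w.p ∧ ¬ Rt w.p ∧
      Gen w z ∧ S.ex w.p s z = 1 ∧ ∀ v : Plc, (v.p : ℤ) ∣ od f → ∀ g, IsFrob v v.p g →
        (Odd (S.ex w.p s g).val ↔ v.p ∈ F) := by
  have n0 := hn.pos
  have mF := hf.mem
  have mn : ∀ q : ℕ, q.Prime → q ∣ n → q ∈ n.primeFactors ∪ (od f).natAbs.primeFactors :=
    fun q h k => mem_union_left _ (Nat.mem_primeFactors.2 ⟨h, k, n0.ne'⟩)
  obtain ⟨w, φ, k1, hφ, k3, l2, p4, k4⟩ := tw_prime T F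
    (n.primeFactors ∪ (od f).natAbs.primeFactors) (fun q hq => ⟨(F2 q hq).1, (F2 q hq).2.1⟩) F3
    (fun p hp => (mem_union.1 hp).elim Nat.prime_of_mem_primeFactors Nat.prime_of_mem_primeFactors)
    (s + 1) (range (B + MM + 1))
  rw [mem_range, not_lt] at k1
  have w2 : w.p ≠ 2 := by omega
  have ndM : ¬ w.p ∣ MM := fun k => by
    have := Nat.le_of_dvd (Nat.pos_of_ne_zero MM_ne) k
    have := w.prime.two_le
    omega
  have j1 : ∀ p : ℕ, p.Prime → p ∣ n → J(p | w.p) = 1 := fun p hp k => by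
    rw [k4 p (mn p hp k), if_neg fun e => (F2 p e).2.2 k]
  have adm : Adm n w.p := .of_prime ndM (tw_inert n0.ne' p4 j1)
  have jn : ∀ p : ℕ, p.Prime → p ∣ n → J(-w.p | p) = 1 := fun p hp k => by
    rw [tw_rec p4 (hp.odd_of_ne_two ?_), j1 p hp k]
    rintro rfl
    have := hn.m4
    omega
  have hI := adm.ine
  have s2 : 2 ∣ 2 ^ s := dvd_pow_self 2 hs.ne'
  obtain ⟨τ, hτ⟩ := exists_gen w2
  have hu : IsUnit (S.ex w.p s τ) := S.ν_gen w s τ adm l2 hτ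
  have par := tw_par hn.good.sqf hn.m4 hn.condB p4 jn
    (ξ := fun g => ZMod.castHom s2 (ZMod 2) (S.ex w.p s g)) ((S.ex_sm adm s).comp _)
    (fun g hg k hk => by simp only [S.ex_hom adm s g hg k hk, map_add])
    (fun g hg => by simp only [S.ex_sq adm s hg, map_zero])
    (fun v hv σ hσ => by simp only [S.ex_ine adm s hv hσ, map_zero])
    ⟨τ, ⟨hI hτ.1, hτ.1⟩, (hu.map (ZMod.castHom s2 (ZMod 2))).ne_zero⟩ fun v hv k hk => by
      simp only [HS.ex, S.ν_ram w.p s v w.prime adm l2 hv k hk, toAdd_one, map_zero]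
  obtain ⟨u, hu⟩ := hu
  have ez : S.ex w.p s (τ ^ (u⁻¹ : (ZMod (2 ^ s))ˣ).val.val) = 1 := by
    rw [tw_hom_pow (S.ex_hom adm s) (hI hτ.1), nsmul_eq_mul, ZMod.natCast_zmod_val, ← hu,
      Units.inv_mul]
  refine ⟨w, _, by omega, adm, (T.par w φ adm.nd30 hφ).1 (T.o3_iff.2 k3), ⟨pow_mem hτ.1 _, ?_⟩, ez,
    fun v hv g hg => ?_⟩
  · have k1 := par _ (hI (pow_mem hτ.1 (u⁻¹ : (ZMod (2 ^ s))ˣ).val.val))
    simp only [ez, map_one] at k1
    rw [← neg_one_mul, B2.xi_mul (by decide) (by exact_mod_cast w.prime.ne_zero),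
      xi_eq_zero.2 (B2.chi_ine (mu0_ndvd w2 fun k => w.prime.ne_one (by
        simpa using Int.natCast_dvd.1 k)) (pow_mem hτ.1 _)), zero_add] at k1
    exact xi_eq_one.1 k1.symm
  · have h1 : J(-w.p | v.p) = if v.p ∈ F then -1 else 1 := by
      rw [tw_rec p4 (v.prime.odd_of_ne_two (hf.ne_two hv)),
        k4 _ (mem_union_right _ ((mF _).2 ⟨v.prime, hv⟩))]
    have h2 := chi_frob (B4c_not_dvd (hf.ne_two hv) (by rw [h1]; split_ifs <;> decide)) hg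
    have h3 := par g (hf.split hv hg.1)
    simp only [ZMod.castHom_apply, ← ZMod.natCast_val] at h3
    rw [← ZMod.natCast_eq_one_iff_odd, h3, xi_eq_one, Units.ext_iff, h2, h1]
    split_ifs with e <;> simp [e]

theorem exists_Tw (T : Tate) (hn : Nok n) (hf : Fok n f) (S : HS n) (k : ℕ) :
    ∃ lam, HS.Tw S k lam (od f) := by
  have h1 : ∀ q ∈ (od f).natAbs.primeFactors, q.Prime ∧ q ≠ 2 ∧ ¬ q ∣ n := fun q hq =>
    have e := (hf.mem q).1 hq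
    ⟨e.1, hf.ne_two e.2, hf.not_dvd e.1 e.2⟩
  by_cases ho : Odd ((od f).natAbs.primeFactors.filter (· ∣ NN)).card
  · obtain ⟨w, z, -, a, r, z1, z2, h⟩ := exists_tower T hn hf S (s := 2 * k + 3) (by omega) 0 _ h1 ho
    have e : ∀ v : Plc, v.p ∣ w.p → v.p = w.p := fun v =>
      (Nat.prime_dvd_prime_iff_eq v.prime w.prime).1
    exact ⟨⟨w, {w}, w.p, fun S s => S.ν w.p s⟩, ⟨a, mem_singleton_self w, by simp,
      fun v hv => ⟨w, mem_singleton_self w, e v hv⟩, by simp, fun v hv => e v hv ▸ r⟩, ⟨z, z1, z2⟩,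
      fun v hv g hg => (h v hv g hg).2 ((hf.mem _).2 ⟨v.prime, hv⟩)⟩
  obtain ⟨p, p1, p2⟩ := Nat.exists_prime_and_dvd NN_gt.ne'
  have p3 : p.Prime ∧ p ≠ 2 ∧ ¬ p ∣ n := ⟨p1, ne_two_of_dvd p2, hn.good.not_dvd p1 p2⟩
  obtain ⟨F, F2, F3, F4⟩ : ∃ F : Finset ℕ, (∀ q ∈ F, q.Prime ∧ q ≠ 2 ∧ ¬ q ∣ n) ∧
      Odd (F.filter (· ∣ NN)).card ∧ ∀ q ∈ (od f).natAbs.primeFactors, q ∈ F ↔ q ≠ p := by
    by_cases e : p ∈ (od f).natAbs.primeFactors
    · refine ⟨_, fun q hq => h1 q (mem_of_mem_erase (a := p) hq), ?_, fun q hq => by simp [hq]⟩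
      rw [filter_erase, card_erase_of_mem (mem_filter.2 ⟨e, p2⟩)]
      exact Nat.Even.sub_odd (card_pos.2 ⟨p, mem_filter.2 ⟨e, p2⟩⟩) (Nat.not_odd_iff_even.1 ho)
        odd_one
    · refine ⟨insert p _, forall_mem_insert .. |>.2 ⟨p3, h1⟩, ?_, fun q hq =>
        iff_of_true (mem_insert_of_mem hq) (ne_of_mem_of_not_mem hq e)⟩
      rwa [filter_insert, if_pos p2, card_insert_of_notMem fun k => e (mem_filter.1 k).1,
        Nat.odd_add_one]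
  obtain ⟨w, z, -, a, r, z1, z2, h⟩ := exists_tower T hn hf S (s := 2 * k + 3) (by omega) 0 {p}
    (by simpa using p3) (by simp [filter_singleton, p2])
  obtain ⟨u, -, b, a', r', -, -, h'⟩ := exists_tower T hn hf S (s := 2 * k + 3) (by omega) w.p F
    F2 F3
  have ne : ¬ u.p ∣ w.p := fun e => b.ne' ((Nat.prime_dvd_prime_iff_eq u.prime w.prime).1 e)
  have ad : Adm n (w.p * u.p) := a.mul u.prime ne a'.ndM a'.inert
  have e : ∀ v : Plc, v.p ∣ w.p * u.p → v.p = w.p ∨ v.p = u.p := fun v hv =>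
    (v.prime.dvd_mul.1 hv).imp (Nat.prime_dvd_prime_iff_eq v.prime w.prime).1
      (Nat.prime_dvd_prime_iff_eq v.prime u.prime).1
  obtain ⟨ν, hν⟩ : ∃ ν : ∀ {n : ℕ} (S : HS n) (s : ℕ),
      S.C (w.p * u.p) →* Multiplicative (ZMod (2 ^ s)), ∀ g ∈ GK n,
      (ν S (2 * k + 3) (S.ψ _ g)).toAdd = S.ex w.p _ g + S.ex u.p _ g :=
    ⟨fun S s => (S.ν w.p s).comp (S.pr _ _) * (S.ν u.p s).comp (S.pr _ _), fun g hg => by
      simp only [MonoidHom.mul_apply, MonoidHom.comp_apply, toAdd_mul, HS.ex,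
        S.pr_ψ _ _ ad (dvd_mul_right _ _) g hg, S.pr_ψ _ _ ad (dvd_mul_left _ _) g hg]⟩
  refine ⟨⟨w, {w, u}, w.p * u.p, ν⟩, ⟨ad, by simp, by simp, fun v hv => by simpa using e v hv, ?_,
    fun v hv => (e v hv).elim (· ▸ r) (· ▸ r')⟩, ⟨z, z1, ?_⟩, fun v hv g hg => ?_⟩
  · simp [b.ne, b.ne']
  · rw [hν z (a.ine z1.1), z2, S.ex_ine a' _ (fun k => b.ne
      ((Nat.prime_dvd_prime_iff_eq w.prime u.prime).1 k)) ⟨a.ine z1.1, z1.1⟩, add_zero]
  · have k1 := h v hv g hg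
    have k2 := h' v hv g hg
    rw [F4 _ ((hf.mem _).2 ⟨v.prime, hv⟩)] at k2
    rw [mem_singleton] at k1
    rw [hν g (hf.split hv hg.1), ZMod.val_add, Nat.odd_iff,
      Nat.mod_mod_of_dvd _ (dvd_pow_self 2 (by omega)), ← Nat.odd_iff, Nat.odd_add,
      ← Nat.not_odd_iff_even, k1, k2, not_not]

theorem tw_z (h : HS.Tw S k lam (od f)) (hf : Fok n f) (e : ℤ) :
    ∃ z, Gen lam.pl z ∧ HS.psf S k lam f e z = 1 + X ∧
      (1 + X) * HS.psf S k lam f e (cc * z * cc) - 1 ∈ aa k k := by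
  obtain ⟨z, hz, ez⟩ := h.gen
  have key : ∀ (v : Plc) (y : Gam), v.p = lam.pl.p → y ∈ Ine v →
      HS.psf S k lam f e y = (1 + X) ^ (lam.ν S (2 * k + 3) (S.ψ lam.c y)).toAdd.val :=
    fun v y hv hy => by
    have a : Adm n v.p := hv ▸ h.adp
    rw [HS.psf, HS.psi, HS.Psi, S.pr_ψ 1 _ h.adm (one_dvd _) y (a.ine hy), S.unr 1 v (adm_one n)
      (fun k => v.prime.ne_one (Nat.dvd_one.1 k)) y ⟨a.ine hy, hy⟩, hf.chi_adm a hy]
    simp
  have o : 1 < 2 ^ (2 * k + 3) := Nat.one_lt_two_pow (by omega)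
  have n0 : 0 < n := Nat.pos_of_ne_zero fun e => by
    have := h.adp.inert
    rw [e, Nat.cast_zero, neg_zero, jacobiSym.zero_left lam.pl.prime.one_lt] at this
    exact absurd this (by decide)
  refine ⟨z, hz, by rw [key _ z rfl hz.1, ez, ZMod.val_one'' o.ne', pow_one], ?_⟩
  have h1 := hz.smul cc
  rw [cc_inv] at h1
  rw [key (cc • lam.pl) _ rfl h1.1, ψ_cc S h.adm n0 (h.adp.ine hz.1), map_inv, toAdd_inv, ez,
    ← pow_succ', ← neg_mem_iff, neg_sub]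
  have h2 := xtw_mod k ((-1 : ZMod (2 ^ (2 * k + 3))).val + 1)
  rwa [(Nat.dvd_iff_mod_eq_zero ..).1 ((ZMod.natCast_eq_zero_iff _ _).1 (by simp)), pow_zero] at h2

theorem tw_chr (h : HS.Tw S k lam (od f)) (hn : Nok n) (hf : Fok n f) (e : ℤ) :
    Chr f n k lam (HS.psf S k lam f e) := by
  obtain ⟨z, z1, z2, -⟩ := tw_z h hf e
  have l := h.adm
  have k0 : ∀ g, S.ψ lam.c g = 1 → chi f g = 1 → HS.psf S k lam f e g - 1 ∈ aa k k := fun g a b => by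
    rw [HS.psf_of a b, sub_self]
    exact zero_mem _
  refine ⟨⟨(sm_chi f).comp₂ (S.sm _ l) fun u x => ((u : ℤ) : Lam) * HS.Psi S k lam e x,
    k0 _ (S.ψ_one l) (map_one _), fun g hg u hu => ?_, fun g => ?_,
    fun g hg => k0 _ (S.dih _ l g hg) (by rw [map_mul, Int.units_mul_self]),
    fun w hw σ hσ => ?_, fun w hw g hg => ?_,
    fun w hw φ hφ => ?_⟩,
    z, z1, by rw [z2, sub_self]; exact zero_mem _⟩
  · rw [HS.psf, HS.psf, HS.psf, HS.psi, HS.psi, HS.psi, S.mul _ l g hg u hu, map_mul,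
      Units.val_mul, Int.cast_mul, mul_mul_mul_comm _ (HS.Psi S k lam e _), ← mul_sub]
    exact Ideal.mul_mem_left _ _ (HS.Psi_mul S e _ _)
  · have h1 : Ideal.span {(X : Lam)} ≤ aa 1 1 :=
      (Ideal.span_singleton_le_iff_mem _).2 (by simpa using X_mem_aa 1 1)
    have t : Ideal.span {(2 : Lam)} ≤ aa 1 1 :=
      (Ideal.span_singleton_le_iff_mem _).2 (by simpa using two_mem_aa 1 1)
    rw [HS.psf, HS.psi, HS.Psi, ← mul_assoc, ← Int.cast_mul, ← Units.val_mul]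
    rw [← sub_add_sub_cancel]
    exact add_mem (xtw_mul _ (h1 (xtw_X _))) (t ((Int.cast_one (R := Lam)) ▸ xtw_sign _ 1))
  · rw [HS.psf, HS.psi_of (S.unr _ w l hw σ hσ), mul_one, sub_self]
    exact zero_mem _
  · rw [HS.psf, HS.psi_of (S.ψ_dec l (fun e => (h.tok.ad e).ne_two hw)
      (hn.ine_two hw) (fr_spec w) (hn.out_two hw) hg), mul_one, sub_self]
    exact zero_mem _
  · obtain ⟨u, u1, u2⟩ := xtw_gen (h.gf w hw φ hφ)
    have t : Ideal.span {(2 : Lam)} ≤ aa 1 k :=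
      (Ideal.span_singleton_le_iff_mem _).2 (by simpa using two_mem_aa 1 k)
    refine ⟨u, u1, ?_⟩
    rw [HS.psf, HS.psi, HS.Psi, ← mul_assoc, ← Int.cast_mul, ← Units.val_mul, u2, ← sub_one_mul]
    exact Ideal.mul_mem_right _ _ (t ((Int.cast_one (R := Lam)) ▸ xtw_sign _ 1))

theorem tw_sok (h : HS.Tw S k lam (od f)) (hn : Nok n) (hf : Fok n f) (hQ : HS.DpS S T k lam f Q)
    (e : ℤ) : SOk T n f k lam (HS.psf S k lam f e) Q :=
  ⟨hn, hf, h.tok, tw_chr h hn hf e, fun w hw => (hQ.dp w hw).deep h.adm e, hQ.inj⟩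

theorem dp_ine (h : HS.Dp S T k lam f w) (hf : Fok n f) : Ine w ≤ HS.N S T k lam f := fun σ hσ =>
  ⟨h.adm.ine hσ, by rw [T.unr w h.adm.nd30 σ hσ, mred_one],
    fun hl => S.unr _ w hl h.ne σ ⟨h.adm.ine hσ, hσ⟩, hf.chi_adm h.adm hσ⟩

theorem dp_gn (h : HS.Dp S T k lam f w) (hf : Fok n f) : gn w ∈ HS.N S T k lam f :=
  dp_ine h hf (gn_spec h.adm.ne_two).1

theorem psf_IN (hn : Nok n) (hl : Adm n lam.c) (hz : z ∈ IN) (e : ℤ) :
    HS.psf S k lam f e z = ((chi f z : ℤ) : Lam) := by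
  rw [HS.psf, HS.psi_of (S.ψ_IN hn hl hz), mul_one]

/-- An element that acts as minus one. -/
theorem exists_scalar (hn : Nok n) (hl : Adm n lam.c) : ∃ z ∈ IN,
    z ∈ GK n ∧ mred (k + 2) (T.ρ z) = -1 ∧ S.ψ lam.c z = 1 ∧ chi f z = 1 ∧
      ∀ g ∈ GK n, z * g * z⁻¹ * g⁻¹ ∈ HS.N S T k lam f := by
  obtain ⟨w, v, s, t, h⟩ := T.exists_tv
  obtain ⟨u, h1, h2⟩ := h.big !![0, -1; 1, 0] (by simp [det_fin_two]) (k + 2)
  have h3 := mul_mem (h.le_IN h1) (h.le_IN h1)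
  have h4 : mred (k + 2) (T.ρ (u * u)) = mred (k + 2) ((-1 : ℤ_[2]) • 1) := by
    rw [map_mul, mred_mul, h2, ← mred_mul]
    congr 1
    ext i j
    fin_cases i <;> fin_cases j <;> simp
  refine ⟨u * u, h3, hn.IN_le h3, h4.trans ?_, S.ψ_IN hn hl h3,
    by rw [map_mul, Int.units_mul_self], fun g hg => HS.comm_N (hn.IN_le h3) h4 hg⟩
  ext i j
  fin_cases i <;> fin_cases j <;> simp [mred]

end Pool.Agent.B6.B7
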