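import Pool.Agent.Lib.MP_696deb_nt.B7.D9c
import Pool.Agent.Lib.MP_696deb_nt.B2.CF
import Pool.Agent.Lib.MP_23455a_nt.H3.CF
import Pool.Agent.Lib.MP_23455a_nt.H3.RCe
import Pool.Agent.Lib.MP_23455a_nt.H3.RCu

/-! The class field is unramified at two. -/

set_option autoImplicit false

open scoped Classical

namespace Pool.Agent.B6.D9

open Pool.Agent.Lib.MP_696deb_nt Pool.Agent.Lib.MP_696deb_nt.B2 Pool.Agent.Lib.MP_696deb_nt.B2.CM

namespace Fix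

variable {w : Plc} {g φ : Gam} {n q : ℕ}

/-- The tame relation. -/
theorem wild (hφ : IsFrob w n φ) (hg : g ∈ Ine w) {y : Qbar} (y0 : y ≠ 0) :
    w.V (((g ^ n)⁻¹ * (φ * g * φ⁻¹)) y - y) < w.V y := by
  have v0 := (map_ne_zero w.V).2 y0
  have z0 : φ⁻¹ y ≠ 0 := (map_ne_zero _).2 y0
  have e0 : φ (φ⁻¹ y) = y := φ.apply_symm_apply y
  have hv : ∀ x : Qbar, x ≠ 0 → w.V (g x / x) = 1 := fun x h => by
    rw [map_div₀, mem_Dec.1 hg.1, div_self ((map_ne_zero _).2 h)]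
  have h1 := hφ.2 _ (hv _ z0).le
  have h2 := b4a_unit hg (u := φ⁻¹ y / y) (ζ := g (φ⁻¹ y) / φ⁻¹ y / (g y / y))
    (by rw [map_div₀, mem_Dec.1 (inv_mem hφ.1), div_self v0]) (by
      have : g y ≠ 0 := (map_ne_zero _).2 y0
      rw [map_div₀]
      field_simp)
  have h3 : w.V ((g (φ⁻¹ y) / φ⁻¹ y) ^ n - (g y / y) ^ n) < 1 := by
    have k0 : g y / y ≠ 0 := (map_ne_zero w.V).1 (by rw [hv y y0]; exact one_ne_zero)
    rw [div_sub_one k0, map_div₀, hv y y0, div_one] at h2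
    rw [← Commute.geom_sum₂_mul (.all _ _), map_mul]
    refine mul_lt_one_of_nonneg_of_lt_one_right (w.V.map_sum_le fun i _ => ?_) zero_le h2
    rw [map_mul, map_pow, map_pow, hv _ z0, hv y y0, one_pow, one_pow, one_mul]
  have h4 := w.V.map_sub_lt (w.V.map_add_lt h1 h3) (b4a_tame hg y0 n)
  rw [sub_add_sub_cancel, sub_sub_sub_cancel_right, map_div₀, e0, ← sub_div, map_div₀,
    div_lt_one (pos_iff_ne_zero.2 v0)] at h4
  rwa [← mem_Dec.1 (pow_mem hg.1 n), map_sub, ← AlgEquiv.mul_apply, mul_inv_cancel_left]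

/-- The image of inertia is killed by three times a power of two. -/
theorem pow_eq (ok : Ok q 1) (hw : w.p = 2) (hφ : IsFrob w 2 φ) (h0 : φ ∉ GK q) (hg : g ∈ Ine w)
    (hk : g ∈ GK q) : ∃ j : ℕ, rho q 1 g ^ (3 * 2 ^ j) = 1 := by
  obtain ⟨U, u1, u2, u3⟩ := sm_rho ⊤ q 1
  obtain ⟨j, m, m1, m2⟩ := Nat.exists_eq_two_pow_mul_odd u1.index_ne_zero
  have d1 : (g ^ 2)⁻¹ * (φ * g * φ⁻¹) ∈ Dec w :=
    mul_mem (inv_mem (pow_mem hg.1 2)) (conj_mem_Ine hφ.1 hg).1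
  have k1 : (g ^ 2)⁻¹ ∈ GK q := inv_mem (pow_mem hk 2)
  have h1 := b4a_mem u1 u2 (pow_mem d1 (2 ^ j))
    (fun y _ y0 => b4a_wild_pow d1 y0 (wild hφ hg y0) _) (n := m)
    (by rw [hw]; exact m1.not_two_dvd_nat) (by rw [← pow_mul, ← m2]; exact U.pow_index_mem _)
  have h2 := u3 1 trivial _ trivial (by simpa only [inv_one, one_mul] using h1)
  rw [rho_one ok, rho_pow ok (mul_mem k1 ((normal_GK q).conj_mem g hk φ)), rho_mul ok k1,
    rho_inv ok (pow_mem hk 2), rho_pow ok hk, rho_conj ok h0 hk, ← mul_inv, ← pow_succ, inv_pow,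
    ← pow_mul, one_eq_inv] at h2
  exact ⟨j, h2⟩

end Fix

theorem fix_stmt (_ : ArStmt) (_ : AlgStmt) (_ : TrStmt) (_ : TimStmt) (_ : DimStmt) (_ : DcqStmt)
    (_ : InvStmt) (_ : DerStmt) : FixStmt := by
  intro q w g h8 h3 hw hg
  have ok : Ok q 1 := ⟨by omega, by omega, one_ne_zero⟩
  have := finite_Pc ok.m4 ok.gt 1
  have hk : g ∈ GK q := B4c_mem.2 (chi_ine_two hw (by omega) hg)
  obtain ⟨φ, hφ⟩ := exists_frob w
  have h0 : φ ∉ GK q := fun k => by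
    have h1 := chi_dec_two (a := -q * 5) hw (by omega) hφ.1
    rw [chi_mul (by omega) (by norm_num), B4c_mem.1 k, chi_frob_two hw (hw ▸ hφ)] at h1
    exact absurd h1 (by decide)
  have n1 : ¬ w.p ∣ q := by rw [hw]; omega
  have n2 : ¬ w.p ∣ 1 := by rw [hw]; decide
  obtain ⟨F⟩ := exists_cft
  obtain ⟨F'⟩ := H3.exists_cft
  obtain ⟨a, a1, a2⟩ := tq_eq_one.1 (by_contra fun k => by
    obtain ⟨m, θ, -, h⟩ := exists_char tw_two ⊥ (a := tq _ (rho q 1 g)) k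
    exact h (unr_inert F ok (θ.comp (tq _)) n1 n2 hφ.1 h0 ⟨hk, hg⟩))
  obtain ⟨b, b1, b2⟩ := H3.CM.tq_eq_one.1 (by_contra fun k => by
    obtain ⟨m, θ, -, h⟩ := H3.CM.exists_char H3.CM.tw_three ⊥ (a := H3.CM.tq _ (rho q 1 g)) k
    exact h (H3.CM.unr_inert F' ok (θ.comp (H3.CM.tq _)) n1 n2 hφ.1 h0 ⟨hk, hg⟩))
  obtain ⟨j, hj⟩ := Fix.pow_eq ok hw (hw ▸ hφ) h0 hg hk
  rw [pow_mul] at hj
  exact (pow_eq_one_iff_of_coprime ((Nat.Prime.coprime_iff_not_dvd Nat.prime_three).2 b1)).1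
    ⟨(pow_eq_one_iff_of_coprime ((Nat.coprime_two_left.2 a1).pow_left j)).1
      ⟨hj, by rw [← pow_mul, mul_comm, pow_mul, a2, one_pow]⟩, b2⟩

end Pool.Agent.B6.D9
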