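import Pool.Agent.Lib.MP_696deb_nt.B7.D9c

/-! Power sums of the coordinate over the fibres of the tower at two. -/

set_option autoImplicit false

open scoped Classical

namespace Pool.Agent.B6.D9

open Pool.Agent.Lib.MP_696deb_nt Pool.Agent.Lib.MP_696deb_nt.B2 Pool.Agent.Lib.MP_696deb_nt.B2.CM
open Pool.Agent.B4 (HgN)
open Pool.Agent.Lib.MP_696deb_nt.B3.CM (St fs sum_nb nb_isIv_of not_st_inert inert_two exists_up)
open Pool.Agent.B6.B7.Dn (OkD exists_hg hg_nb)

namespace Pw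

theorem map_pw {K K' : Type*} [CommRing K] [CommRing K'] (f : K →+* K') (t : K) (n : ℕ) :
    f (pw t n) = pw (f t) n := by
  induction n using Nat.strong_induction_on with
  | _ n ih =>
    match n with
    | 0 => simp only [pw, map_ofNat]
    | 1 => simp only [pw, map_pow]
    | 2 => simp only [pw, map_pow, map_sub, map_mul, map_ofNat]
    | n + 3 => simp only [pw, map_pow, map_sub, map_mul, map_add, map_ofNat, ih (n + 2) (by omega),
        ih (n + 1) (by omega), ih n (by omega)]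

theorem nbs (h : HkStmt) {τ : ℂ} (h0 : 0 < τ.im) :
    (∀ n, ∑ i, tt (hk 2 τ i) ^ n = pw (tt τ) n) ∧ ∀ i, ps (tt τ) (tt (hk 2 τ i)) = 0 := by
  obtain ⟨a, b, c⟩ := h τ h0
  obtain ⟨k, k1, k2, k3⟩ := pw_spec a b c
  refine ⟨fun n => ?_, fun i => ?_⟩
  · rw [← k, Fintype.sum_option, Fin.sum_univ_two, add_assoc]
    simp [hk]
  · rcases i with _ | i
    · simpa [hk] using k1
    · fin_cases i
      · simpa [hk] using k2
      · simpa [hk] using k3

variable {L q c : ℕ} {r : ℤ} {τ : ℂ} {t : ∀ c, Pc q c → Qbar} [∀ c, Fintype (Pc q c)]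

theorem fs_t (H : ∀ c, c ≠ 0 → ∀ τ, HgN L q c r τ → jC (t c (cl _ (sp2 τ 1))) = tt τ)
    (hk' : HkStmt) (ok : OkD L q (c * 2) r) (h : HgN L q c r τ) (n : ℕ) :
    jC (fs c (c * 2) (fun v => t (c * 2) v ^ n) (cl _ (sp2 τ 1))) =
      pw (tt τ) n - ∑ i with St q c (nb 2 1 τ i), tt (hk 2 τ i) ^ n := by
  have hl := Nat.prime_two
  have ok' := ok.of_mul
  have hI : IsIv (Oc q c) (sc 1 (sp2 τ 1)) := by rw [sc_one]; exact h.iv
  have h1 := sum_nb (s := 1) ok'.toOk hl (cmd_one hl) h.pos.ne' one_ne_zero hI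
    fun v => t (c * 2) v ^ n
  simp only [sc_one] at h1
  rw [fs, h1, map_sum, ← (nbs hk' h.pos).1, eq_sub_iff_add_eq',
    ← Finset.sum_filter_add_sum_filter_not Finset.univ fun i => St q c (nb 2 1 τ i)]
  congr 1
  refine Finset.sum_congr rfl fun i hi => ?_
  have h2 := (nb_isIv_of ok'.toOk hl h.pos.ne' one_ne_zero hI (Finset.mem_filter.1 hi).2).1
  rw [sc_one] at h2
  obtain ⟨h3, h4⟩ := hg_nb ok hl.pos h i h2 (Nat.coprime_one_left L) (by ring)
  rw [← h4, map_pow, H _ ok.ne _ h3]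

end Pw

theorem pw_stmt (hv : HvStmt) (hk : HkStmt) (ht : TimStmt) : PwStmt := by
  intro L q r w A _ C
  have hl := Nat.prime_two
  have H := fun c hc => (hv L q c r w A tt C hc
    (ht A L C.nine (val_odd (over_two C.ov C.p2) C.odd))).1
  refine ⟨fun n u => jC.injective ?_, fun b c d hb hc hd n u => jC.injective ?_,
    fun c d hc hd v => jC.injective ?_⟩
  · obtain ⟨τ, h, rfl⟩ := exists_hg C.ok u
    rw [Pw.map_pw, H 1 one_ne_zero τ h]
    refine (Pw.fs_t H hk (C.ok.of_ne (by decide)) h n).trans ?_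
    rw [Finset.filter_false_of_mem fun i _ => not_st_inert C.ok.toOk hl (inert_two C.m8)
      hl.not_dvd_one h.iv (nb_mid hl h.pos.ne' i).1 (nb_mid hl h.pos.ne' i).2, Finset.sum_empty,
      sub_zero]
  · subst hc hd
    have ok0 := C.ok.of_ne hb
    have ok1 := C.ok.of_ne (mul_ne_zero hb two_ne_zero)
    obtain ⟨τ, h, rfl⟩ := exists_hg ok1 u
    obtain ⟨j, e1, hj⟩ := exists_up (a := 1) ok0.toOk hl (cmd_one hl) h.pos.ne' one_ne_zero
      (by rw [sc_one]; exact h.iv)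
    simp only [sc_one] at e1
    have l2 : ((2 : ℕ) : ℂ) ≠ 0 := by simp
    have hO := h.iv.ext (Oc_le q (dvd_mul_right b 2))
    obtain ⟨h3, h4⟩ := hg_nb ok0 hl.pos h j (e1 ▸ hO.sc l2) (m := 2 * 2)
      (Nat.Coprime.mul_left C.odd.coprime_two_left C.odd.coprime_two_left) (by ring)
    rw [Pw.fs_t H hk (C.ok.of_ne (mul_ne_zero ok1.ne two_ne_zero)) h, map_sub, Pw.map_pw,
      H _ ok1.ne τ h, pj_cl (dvd_mul_right b 2) h.iv, ← cl_sc hO l2, ← e1, ← h4, map_pow,
      H _ hb _ h3, Finset.sum_eq_single_of_mem j (by simpa using (hj j).not) fun i hi k =>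
        absurd (Finset.mem_filter.1 hi).2 ((hj i).2 k)]
  · subst hd
    have ok := C.ok.of_ne hc
    have ok1 := C.ok.of_ne (mul_ne_zero hc two_ne_zero)
    obtain ⟨τ, h, e0⟩ := exists_hg ok (pj q c (c * 2) v)
    obtain ⟨I, hI, rfl, h1, h2⟩ := cmd_lift ok.toOk hl h.iv e0.symm
    obtain ⟨j, rfl⟩ := cmd_mid hl (cmd_one hl) h.pos.ne' h1 h2
    obtain ⟨h3, h4⟩ := hg_nb ok1 hl.pos h j hI (Nat.coprime_one_left L) (by ring)
    have := (Pw.nbs hk h.pos).2 j
    rw [← H _ hc τ h, ← H _ ok1.ne _ h3, h4, e0] at this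
    simpa only [ps, map_sub, map_add, map_mul, map_pow, map_ofNat, map_zero] using this

end Pool.Agent.B6.D9
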