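import Pool.Agent.Lib.MP_696deb_nt.B7.D9c

/-! The system of points of conductor dividing eight. -/

set_option autoImplicit false

open scoped Classical NNReal
open Polynomial Filter Topology

namespace Pool.Agent.B6.D9

open Pool.Agent.Lib.MP_696deb_nt Pool.Agent.Lib.MP_696deb_nt.B2 Pool.Agent.Lib.MP_696deb_nt.B2.CM
open Pool.Agent.B4 (HgN)
open Pool.Agent.B4.GE (jN Par Geo)
open Pool.Agent.Lib.MP_696deb_nt.B3.CM (fs th)
open Pool.Agent.B6.CM (yA)
open Pool.Agent.B6.B7.Dn (OkD)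

namespace SysA

variable {L q c : ℕ} {r : ℤ} {w : Plc} {A : ValuationSubring ℂ} {σ : Gam} {h : ℂ → ℂ} {y : Qbar}

theorem inert (hn : q % 8 = 3) (hw : w.p = 2) (hσ : IsFrob w 2 σ) : σ ∉ GK q := by
  have h1 := chi_dec_two (a := -q * 5) hw (by omega) hσ.1
  rw [chi_mul (by omega) (by omega), chi_frob_two hw hσ] at h1
  rw [B4c_mem]
  intro h
  rw [h] at h1
  exact absurd h1 (by decide)

theorem ine (hn : q % 8 = 3) (hw : w.p = 2) : Ine w ≤ GK q := fun _ hg =>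
  B4c_mem.2 (chi_ine_two hw (by omega) hg)

theorem V_le (hw : w.p = 2) (hy : Fx (Ine w) y) (h : w.V y < 1) : w.V y ≤ w.V 2 := by
  have e : w.V 2 = (w.p : ℝ≥0)⁻¹ := by rw [← w.hV, hw, Nat.cast_ofNat]
  rw [e]
  rcases eq_or_ne y 0 with rfl | h0
  · simp
  obtain ⟨k, hk⟩ := V_of_fx_ine hy h0
  have p1 := b2a_one_lt w
  rw [hk, ← zpow_neg] at h ⊢
  rw [zpow_lt_one_iff_right₀ p1] at h
  rw [← zpow_neg_one]
  exact zpow_le_zpow_right₀ p1.le (by omega)

theorem fx_conj (hσ : σ ∈ Dec w) (hy : Fx (Ine w) y) : Fx (Ine w) (σ y) := fun g hg => by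
  have k := congrArg σ (hy _ (conj_mem_Ine (inv_mem hσ) hg))
  rwa [← AlgEquiv.mul_apply, inv_inv, ← mul_assoc, ← mul_assoc, mul_inv_cancel, one_mul,
    AlgEquiv.mul_apply] at k

theorem valL (C : Cx L q r w A) : A.valuation L = 1 := val_odd (over_two C.ov C.p2) C.odd

theorem jC_hv (hHv : HvStmt) (C : Cx L q r w A) (hc : c ≠ 0) (hh : Gf A L h) (u : Pc q c) :
    jC (hv L q c r h u) = h (hp L q c r u) := by
  obtain ⟨h1, h2⟩ := hp_spec (C.ok.of_ne hc) u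
  have := (hHv L q c r w A h C hc hh).1 _ h1
  rwa [h2] at this

theorem fx_hv (hHv : HvStmt) (hFix : FixStmt) (C : Cx L q r w A) (h3 : q % 3 = 2) (hh : Gf A L h)
    (u : Pc q 1) : Fx (Ine w) (hv L q 1 r h u) := fun g hg => by
  rw [(hHv L q 1 r w A h C one_ne_zero hh).2.2 g (ine C.m8 C.p2 hg), hFix q w g C.m8 h3 C.p2 hg,
    one_mul]

theorem if_sr (hHv : HvStmt) (hFix : FixStmt) (hDim : DimStmt) (hDcq : DcqStmt) (C : Cx L q r w A)
    (h3 : q % 3 = 2) (hσ : σ ∈ Dec w) (hh : Gf A L h) (u : Pc q 1) :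
    IF w (Ine w) (sr L q r σ h u) := fun n => by
  have k := hh.dv hDim hDcq C.nine (valL C) n
  rw [sr, PowerSeries.coeff_mk]
  exact ⟨fx_conj hσ (fx_hv hHv hFix C h3 k u),
    (mem_Dec.1 hσ _).trans_le ((hHv L q 1 r w A _ C one_ne_zero k).2.1 u)⟩

theorem sr_zero (h : ℂ → ℂ) (u : Pc q 1) :
    PowerSeries.coeff 0 (sr L q r σ h u) = σ (hv L q 1 r h u) := by
  rw [sr, PowerSeries.coeff_mk, dv_zero]

/-- The coordinate vanishes on the residue field at the points of conductor one. -/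
theorem V_tt (hHv : HvStmt) (hKr : KrStmt) (hUnit : UnitStmt) (hTim : TimStmt) (C : Cx L q r w A)
    (u : Pc q 1) : w.V (hv L q 1 r tt u) < 1 := by
  have g := hTim A L C.nine (valL C)
  have h1 := (hKr L q 1 _ r w A tt C one_ne_zero rfl g).1 u
  obtain ⟨p1, -⟩ := hp_spec C.ok u
  have h2 : A.valuation (jf (hp L q 1 r u)) ≤ 1 := by
    rw [← B7.Dn.jQ_tau C.ok.toOk p1]
    exact (C.ov _).1.2 (V_jQ C.ok.toOk w _)
  have h3 := hUnit A (val_three (valL C) C.nine) _ p1.pos h2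
  rw [← jC_hv hHv C one_ne_zero g] at h3
  set t := hv L q 1 r tt u
  have h4 : ¬ w.V (t ^ 3 - 27) < 1 := fun k => by
    have := (C.ov _).2.2 k
    rw [map_sub, map_pow, map_ofNat, h3] at this
    exact lt_irrefl _ this
  have h5 : w.V 26 < 1 := by
    have := b2a_mul_lt w (w.V_int_le 13) (b2a_p_lt w)
    rwa [C.p2, show ((13 : ℤ) : Qbar) * (2 : ℕ) = 26 by norm_num] at this
  have h6 : 1 ≤ w.V (t ^ 3 - 1) := not_lt.1 fun k => h4 (by
    rw [show t ^ 3 - 27 = t ^ 3 - 1 - 26 by ring]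
    exact w.V.map_sub_lt k h5)
  rw [show t ^ 4 - t = t * (t ^ 3 - 1) by ring, map_mul] at h1
  exact (le_mul_of_one_le_right' h6).trans_lt h1

/-- Functions that are analytic at a point. -/
def An (z : ℂ) : Subring (ℂ → ℂ) where
  carrier := {f | AnalyticAt ℂ f z}
  mul_mem' a b := AnalyticAt.mul a b
  add_mem' a b := AnalyticAt.add a b
  one_mem' := analyticAt_const
  zero_mem' := analyticAt_const
  neg_mem' a := AnalyticAt.neg a

/-- The expansion as a ring homomorphism. -/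
noncomputable def tyH (a : TayStmt) {z : ℂ} (hz : 0 < z.im) : An z →+* PowerSeries ℂ where
  toFun f := Ty z f
  map_one' := ((a z hz).2.1 1).trans (map_one _)
  map_zero' := ((a z hz).2.1 0).trans (map_zero _)
  map_mul' f g := (((a z hz).2.2.2 f f.2).2 g g.2).2
  map_add' f g := (((a z hz).2.2.2 f f.2).2 g g.2).1

variable [Cw]

theorem map_cF {K M : Type*} [CommRing K] [CommRing M] (f : K →+* M) (X Z : K) :
    f (cF X Z) = cF (f X) (f Z) := by
  simp [cF, map_ofNat]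

theorem ty_eq (a : TayStmt) {z : ℂ} (hz : 0 < z.im) {X Z W : ℂ → ℂ} (hX : AnalyticAt ℂ X z)
    (hZ : AnalyticAt ℂ Z z) (hW : AnalyticAt ℂ W z)
    (e : ∀ u : ℂ, 0 < u.im → W u ^ 2 = Z u * cF (X u) (Z u)) :
    Ty z W ^ 2 = Ty z Z * cF (Ty z X) (Ty z Z) := by
  let X' : An z := ⟨X, hX⟩
  let Z' : An z := ⟨Z, hZ⟩
  let W' : An z := ⟨W, hW⟩
  have k : tyH a hz (W' ^ 2) = tyH a hz (Z' * cF X' Z') := by
    refine (a z hz).2.2.1 _ _ ?_
    filter_upwards [(isOpen_lt continuous_const Complex.continuous_im).mem_nhds hz] with u hu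
    have := map_cF ((Pi.evalRingHom (fun _ : ℂ => ℂ) u).comp (An z).subtype) X' Z'
    exact (e u hu).trans (congrArg (Z u * ·) this.symm)
  rwa [map_pow, map_mul, map_cF] at k

theorem sr_eq (hCt : CtStmt) (hTay : TayStmt) (C : Cx L q r w A) (hσ : IsFrob w 2 σ)
    {X Z W : ℂ → ℂ} (hX : Gf A L X) (hZ : Gf A L Z) (hW : Gf A L W)
    (e : ∀ u : ℂ, 0 < u.im → W u ^ 2 = Z u * cF (X u) (Z u)) (u : Pc q 1) :
    sr L q r σ W u ^ 2 = sr L q r σ Z u * cF (sr L q r σ X u) (sr L q r σ Z u) := by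
  obtain ⟨⟨z, hz, k⟩, -⟩ := hCt L q r w A σ u C hσ
  have L0 := ne_of_val (valL C)
  refine PowerSeries.map_injective jC jC.injective ?_
  rw [map_pow, map_mul, map_cF, k X hX, k Z hZ, k W hW]
  exact ty_eq hTay hz (mf_an L0 hX.1.mf hz) (mf_an L0 hZ.1.mf hz) (mf_an L0 hW.1.mf hz) e

theorem jC_y {N : ℕ} {P : Par Wu N} (G : Geo P) (C : Cx L q r w A) (hN : N ∣ L) (hc : c ≠ 0)
    (u : Pc q c) : pmap jC (yA P q c r u) = P.φ (hp L q c r u) := by
  obtain ⟨h1, h2⟩ := hp_spec (C.ok.of_ne hc) u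
  have ok := (C.ok.of_ne hc).lev hN
  rw [B7.Dn.jC_yA G ok, ← B7.Dn.yC_cl P ok (B7.Dn.hg_lev h1 hN), h2]

end SysA

open SysA in
theorem sys_stmt [Cw] (hAr : ArStmt) (hHv : HvStmt) (hKr : KrStmt) (hCt : CtStmt) (hPw : PwStmt)
    (hCh : ChStmt) (hFix : FixStmt) (hUnit : UnitStmt) (hTim : TimStmt) (hTay : TayStmt)
    (hDim : DimStmt) (hDcq : DcqStmt) : SysStmt := fun N P G hN => by
  obtain ⟨X, Z, W, B, c1, c2⟩ := hCh N P
  refine ⟨B + 4 * (9 * N) ^ 2 + 3, fun q r w σ _ sq m8 m3 hB cop rt p2 fr => ?_⟩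
  obtain ⟨A, ov, ar⟩ := hAr w p2
  have q3 : q.Coprime 3 := (Nat.prime_three.coprime_iff_not_dvd.2 (by omega)).symm
  have C : Cx (9 * N) q r w A :=
    ⟨⟨⟨by omega, by omega, one_ne_zero⟩, rt, (q3.pow_right 2).mul_right cop⟩, sq, m8, by omega,
      dvd_mul_right _ _, (by decide : Odd 9).mul hN, p2, ov, ar⟩
  have L0 := ne_of_val (valL C)
  have NL : N ∣ 9 * N := dvd_mul_left _ _
  have gf : ∀ Q : ℤ[X][X], Gf A (9 * N) fun z => aevalAeval (jf z) (jN N z) Q := fun Q =>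
    (gf_jf L0).aeval (gf_jN NL L0) Q
  have gt := hTim A _ C.nine (valL C)
  have n8 : ∀ c, c ∣ 8 → c ≠ 0 := fun c hc => ne_zero_of_dvd_ne_zero (by decide) hc
  have ch := fun c (hc : c ≠ 0) (u : Pc q c) => c2 q c (hp (9 * N) q c r u) (C.ok.of_ne hc).toOk
    (by omega) (hp_spec (C.ok.of_ne hc) u).1.pos (hp_spec (C.ok.of_ne hc) u).1.iv
  obtain ⟨w1, w2, w3⟩ := hPw _ q r w A C
  refine ⟨{
    t := fun c => hv (9 * N) q c r tt
    x := fun c => hv (9 * N) q c r fun z => aevalAeval (jf z) (jN N z) X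
    z := fun c => hv (9 * N) q c r fun z => aevalAeval (jf z) (jN N z) Z
    X := sr (9 * N) q r σ fun z => aevalAeval (jf z) (jN N z) X
    Z := sr (9 * N) q r σ fun z => aevalAeval (jf z) (jN N z) Z
    W := sr (9 * N) q r σ fun z => aevalAeval (jf z) (jN N z) W
    ok := C.ok.toOk
    p2 := p2
    fr := fr
    le := ine m8 p2
    out := inert m8 p2 fr
    gal := fun c hc g hg u => ⟨(hHv _ q c r w A _ C (n8 c hc) gt).2.2 g hg u,
      (hHv _ q c r w A _ C (n8 c hc) (gf Z)).2.2 g hg u,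
      B7.Dn.smul_yA G ((C.ok.of_ne (n8 c hc)).lev NL) hg u⟩
    unr := fun g hg => hFix q w g m8 m3 p2 hg
    ss := fun u => ?_
    pw1 := w1
    pw2 := w2 1 2 4 one_ne_zero rfl rfl
    pw3 := w2 2 4 8 two_ne_zero rfl rfl
    rt := fun c d hd h8 => w3 c d (left_ne_zero_of_mul (hd ▸ n8 d h8)) hd
    aff := fun c hc u => ?_
    int := fun u => ⟨if_sr hHv hFix hDim hDcq C m3 fr.1 (gf X) u,
      if_sr hHv hFix hDim hDcq C m3 fr.1 (gf Z) u, if_sr hHv hFix hDim hDcq C m3 fr.1 (gf W) u,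
      fun e => ?_, sr_eq hCt hTay C fr (gf X) (gf Z) (gf W) c1 u⟩
    ctr := fun u => ⟨sr_zero _ u, sr_zero _ u⟩
    ap := fun c hc u v e => ⟨(hCt _ q r w A σ u C fr).2 c hc v e _ (gf X),
      (hCt _ q r w A σ u C fr).2 c hc v e _ (gf Z)⟩ }⟩
  · have f1 := fx_hv hHv hFix C m3 gt u
    have f2 := V_le p2 f1 (V_tt hHv hKr hUnit hTim C u)
    exact ⟨(mem_Dec.1 fr.1 _).trans_le f2, f2, fx_conj fr.1 f1⟩
  · obtain ⟨-, k2, k3, k4, k5⟩ := ch c (n8 c hc) u
    have e1 := jC_y G C NL (n8 c hc) u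
    have e2 := jC_hv hHv C (n8 c hc) (gf Z) u
    have e3 := jC_hv hHv C (n8 c hc) (gf X) u
    beta_reduce at e2 e3
    rw [← e1] at k3 k4 k5
    rw [xco_pmap] at k4 k5
    rw [← e2] at k2 k5
    rw [← e3, ← map_mul] at k5
    refine ⟨fun e => k3 (by rw [e, map_zero]), fun e => k4 ?_, fun e => k2 (by rw [e, map_zero]),
      jC.injective k5⟩
    rw [e, ← map_cub, cub_er, map_zero]
  · have e1 := sr_zero (L := 9 * N) (r := r) (σ := σ) (fun z => aevalAeval (jf z) (jN N z) W) u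
    rw [e, map_zero, eq_comm, map_eq_zero] at e1
    have e2 := jC_hv hHv C one_ne_zero (gf W) u
    rw [e1, map_zero] at e2
    exact (ch 1 one_ne_zero u).1 e2.symm

end Pool.Agent.B6.D9
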