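import Pool.Agent.Lib.MP_696deb_nt.B7.D9c

/-! The computation at the first level. -/

set_option autoImplicit false

open scoped Classical

namespace Pool.Agent.B6.D9

open Pool.Agent.Lib.MP_696deb_nt Pool.Agent.Lib.MP_696deb_nt.B2 Pool.Agent.Lib.MP_696deb_nt.B2.CM
open Pool.Agent.Lib.MP_696deb_nt.B3.CM (fs th)

namespace D1

theorem tv_zero (F : PowerSeries Qbar) {K : ℕ} (h : K ≠ 0) : tv F K 0 = PowerSeries.coeff 0 F := by
  rw [tv, Finset.sum_eq_single 0 (fun n _ hn => by simp [hn]) fun k => by simp [h] at k]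
  simp

theorem ap_zero {w : Plc} {F : PowerSeries Qbar} (h : w.V (PowerSeries.coeff 0 F) ≤ 1) :
    Ap w F 0 (PowerSeries.coeff 0 F) := fun K => by
  rcases eq_or_ne K 0 with rfl | k
  · simpa [tv] using h
  · simp [tv_zero F k]

theorem lt_of_pow {w : Plc} {x : Qbar} {n : ℕ} (h2 : w.V 2 < 1) (h : w.V x ^ n ≤ w.V 2) :
    w.V x < 1 := lt_of_not_ge fun k => (h.trans_lt h2).not_ge (one_le_pow₀ k)

end D1

open D1

theorem d1_stmt [Cw] (hNd : NdStmt) (hKn : KnStmt) (hC1 : C1Stmt) (hAs : AsStmt) (hNw : NwStmt)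
    (hRt : RtStmt) : D1Stmt := by
  intro hS w σ q _ y T a u g hσ ⟨b, hb⟩ hf ⟨hg, S, hS', hF⟩
  have p3 := (hRt hS w T.p2).1
  have h2 : w.V 2 < 1 := by simpa [T.p2] using (b4a_V_p w).2
  have p1 := lt_of_pow h2 p3.le
  have le : JF w ≤ Ine w := inf_le_left
  have mono : ∀ {F}, IF w (Ine w) F → IF w (JF w) F := fun h n =>
    ⟨fun k hk => (h n).1 k (le hk), (h n).2⟩
  obtain ⟨iX, iZ, -⟩ := T.int u
  have fy : ∀ k ∈ Ine w, k • y 1 u = y 1 u := fun k hk => by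
    rw [(T.gal 1 (one_dvd _) k (T.le hk) u).2.2, T.unr k hk, one_mul]
  obtain ⟨s1, s2, s3⟩ := T.ss u
  obtain ⟨K, hK, R1⟩ := hNd hS w (JF w) Unit (fun _ => σ • y 1 u) (fun _ => 0)
    (fun _ => σ (T.x 1 u)) (fun _ => σ (T.z 1 u)) _ _ S g T.p2 le_rfl (mono iX) (mono iZ) hS' hg hF
    (fun k hk => ⟨1, fun _ => ⟨by
      have := fy _ (conj_mem_Ine (inv_mem T.fr.1) (le hk))
      rw [inv_inv, mul_smul, mul_smul, inv_smul_eq_iff] at this
      exact this, map_zero _, by rw [← (T.ctr u).2]; exact (iZ 0).1 k (le hk)⟩⟩)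
    fun _ => by
      obtain ⟨a1, a2, a3, a4⟩ := T.aff 1 (one_dvd _) u
      refine ⟨by simp, mt (smul_eq_zero_iff_eq σ).1 a1, fun e => a2 (σ.injective ?_), by simpa using a3,
        by rw [xco_smul, ← map_mul, a4], ?_, ?_⟩
      · rw [← xco_smul, e, hσ]
      · exact (T.ctr u).1 ▸ ap_zero (iX 0).2
      · exact (T.ctr u).2 ▸ ap_zero (iZ 0).2
  rw [Fintype.sum_unique, Fintype.prod_unique, tv_zero g (by omega)] at R1
  have sub : ∀ {M : Type} [AddCommMonoid M] (G : Pc q 2 → M),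
      ∑ v : {v : Pc q 2 // pj q 1 2 v = u}, G v = fs 1 2 G u := fun G =>
    (Finset.sum_subtype _ (by simp) G).symm
  have rt : ∀ v : {v : Pc q 2 // pj q 1 2 v = u}, ps (T.t 1 u) (T.t 2 v) = 0 := fun v => by
    simpa only [v.2] using T.rt 1 2 rfl (by decide) v
  obtain ⟨K, hK, R2⟩ := hNd hS w (JF w) {v : Pc q 2 // pj q 1 2 v = u} (fun v => y 2 v)
    (fun v => T.t 2 v - σ (T.t 1 u)) (fun v => T.x 2 v) (fun v => T.z 2 v) _ _ S g T.p2 le_rfl
    (mono iX) (mono iZ) hS' hg hF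
    (fun k hk => ⟨(Equiv.mulLeft (rho q 2 k)).subtypePerm fun v => by
      rw [Equiv.coe_mulLeft, map_mul, pj_rho ⟨T.ok.m4, T.ok.gt, two_ne_zero⟩ (one_dvd _),
        T.unr k (le hk), one_mul], fun v => by
      obtain ⟨g1, g2, g3⟩ := T.gal 2 (by decide) k (T.le (le hk)) v
      exact ⟨g3, by rw [map_sub, g1, s3 k (le hk)]; rfl, g2⟩⟩)
    fun v => by
      obtain ⟨a1, a2, a3, a4⟩ := T.aff 2 (by decide) v.1
      exact ⟨w.V.map_sub_lt (lt_of_pow h2 ((hNw w _ _ T.p2 (rt v)).1 s2)) (s1.trans_lt h2), a1, a2,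
        a3, a4, T.ap 2 (.inl rfl) u v v.2⟩
  rw [sub, hf, hb, add_zsmul, ← two_nsmul] at R2
  have R3 := R2.symm.trans ((hKn (JF w) fun _ h => h.2).1 _ fun k hk => by
    rw [smul_comm, fy k (le hk)])
  have fp : ∀ k ∈ JF w, k pp = pp := fun k hk => by rw [pp, map_mul, map_ofNat, (mem_JF.1 hk).2]
  have fA : Fx (JF w) (1 + pp ^ 2 * PowerSeries.coeff 0 g) := fun k hk => by
    rw [map_add, map_one, map_mul, map_pow, fp k hk, (hg 0).1 k hk]
  have fB : Fx (JF w) (1 + 2 * pp ^ 2 * kv g (σ (T.t 1 u) / 2)) := fun k hk => by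
    simp only [kv, map_add, map_one, map_mul, map_pow, map_div₀, map_ofNat, fp k hk, (hg _).1 k hk,
      s3 k (le hk)]
  have p2 : w.V (pp ^ 2) < 1 := by rw [map_pow]; exact pow_lt_one₀ zero_le p1 two_ne_zero
  have vA : w.V (1 + pp ^ 2 * PowerSeries.coeff 0 g) = 1 := w.V.map_one_add_of_lt (by
    rw [map_mul]; exact mul_lt_one_of_nonneg_of_lt_one_left zero_le p2 (hg 0).2)
  have vB : w.V (1 + 2 * pp ^ 2 * kv g (σ (T.t 1 u) / 2)) = 1 := w.V.map_one_add_of_lt (by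
    rw [map_mul, map_mul]
    refine mul_lt_one_of_nonneg_of_lt_one_left zero_le (mul_lt_one_of_nonneg_of_lt_one_left zero_le
      h2 p2.le) (w.V.map_add_le ?_ (hg 3).2)
    rw [map_mul, map_div₀]
    exact mul_le_one' (hg 1).2 (div_le_one_of_le₀ s1 zero_le))
  obtain ⟨c, c0, c1, c2⟩ := (hAs w (JF w) _ _ T.p2 le (by
      obtain ⟨c, -, c1, c2⟩ := R3
      exact fun k hk => by rw [c2, mul_one, map_pow, c1 k hk])
    (fun k hk => by rw [map_mul, map_pow, fA k hk, fB k hk])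
    (by rw [map_mul, map_pow, vA, vB, one_pow, one_mul])
    (hC1 w pp _ _ _ _ g K T.p2 p3 s2 s1 (fun n => (sub fun v => T.t 2 v ^ n).trans (T.pw1 n u)) rt
      (fun n => (hg n).2) hK)).symm.trans R3
  have A0 := (map_ne_zero w.V).1 (vA ▸ one_ne_zero)
  have B0 := (map_ne_zero w.V).1 (vB ▸ one_ne_zero)
  refine (fun R4 => ⟨R1.trans R4, R4⟩) ⟨c / (_ * _), div_ne_zero c0 (mul_ne_zero A0 B0),
    fun k hk => by rw [map_div₀, map_mul, c1 k hk, fA k hk, fB k hk], ?_⟩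
  rw [div_pow, ← mul_one (c ^ 2), ← c2, div_mul_eq_mul_div,
    eq_div_iff (pow_ne_zero 2 (mul_ne_zero A0 B0))]
  ring

end Pool.Agent.B6.D9
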