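import Pool.Agent.Lib.MP_696deb_nt.B7.D9c

/-! The computation on one disc. -/

set_option autoImplicit false

open scoped Classical

namespace Pool.Agent.B6.D9

open Pool.Agent.Lib.MP_696deb_nt Pool.Agent.Lib.MP_696deb_nt.B2 Pool.Agent.Lib.MP_696deb_nt.B2.CM
open Pool.Agent.Lib.MP_696deb_nt.B3.CM (fs th gd_two)

namespace Dk

theorem mono {w : Plc} {H H' : Subgroup Gam} {F : PowerSeries Qbar} (h : IF w H F) (k : H' ≤ H) :
    IF w H' F := fun n => ⟨fun g hg => (h n).1 g (k hg), (h n).2⟩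

theorem pow_sub {w : Plc} {B : Qbar} (h : w.V B ≤ 1) (n : ℕ) : w.V (B ^ n - 1) ≤ w.V (B - 1) := by
  induction n with
  | zero => simp
  | succ n ih =>
    rw [show B ^ (n + 1) - 1 = B ^ n * (B - 1) + (B ^ n - 1) by ring]
    refine w.V.map_add_le ?_ ih
    rw [map_mul, map_pow]
    exact mul_le_of_le_one_left' (pow_le_one' h n)

theorem est {w : Plc} {p r k A P : Qbar} {n : ℕ} (p0 : w.V p ≠ 0) (p1 : w.V p ≤ 1) (r1 : w.V r ≤ 1)
    (h2 : w.V 2 < w.V r) (hk : w.V k ≤ 1) (hA : w.V A = 1)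
    (h : w.V (P - A ^ n * (1 + p ^ 2 * r * k)) < w.V (p ^ 2 * r)) :
    w.V (P * ((1 + 2 * p ^ 2 * k) / A) ^ n - (1 + p ^ 2 * r * k)) < w.V (p ^ 2 * r) := by
  have A0 : A ≠ 0 := fun e => by simp [e] at hA
  have k1 : w.V (2 * p ^ 2 * k) < w.V (p ^ 2 * r) := by
    rw [map_mul, map_mul, map_mul, map_pow, mul_comm (w.V 2)]
    exact (mul_le_of_le_one_right' hk).trans_lt
      (mul_lt_mul_of_pos_left h2 (zero_lt_iff.2 (pow_ne_zero _ p0)))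
  have k2 : w.V (p ^ 2 * r) ≤ 1 := by
    rw [map_mul, map_pow]
    exact mul_le_one' (pow_le_one' p1 _) r1
  have k3 : w.V (1 + 2 * p ^ 2 * k) ≤ 1 := w.V.map_add_le w.V.map_one.le (k1.le.trans k2)
  have k4 : w.V (1 + p ^ 2 * r * k) ≤ 1 :=
    w.V.map_add_le w.V.map_one.le (by rw [map_mul]; exact mul_le_one' k2 hk)
  have k5 := pow_sub k3 n
  rw [add_sub_cancel_left] at k5
  rw [show P * ((1 + 2 * p ^ 2 * k) / A) ^ n - (1 + p ^ 2 * r * k) =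
    ((1 + 2 * p ^ 2 * k) / A) ^ n * (P - A ^ n * (1 + p ^ 2 * r * k)) +
      ((1 + 2 * p ^ 2 * k) ^ n - 1) * (1 + p ^ 2 * r * k) by rw [div_pow]; field_simp; ring]
  refine w.V.map_add_lt ?_ ?_
  · rw [map_mul, map_pow, map_div₀, hA, div_one]
    exact (mul_le_of_le_one_left' (pow_le_one' k3 n)).trans_lt h
  · rw [map_mul]
    exact ((mul_le_of_le_one_right' k4).trans k5).trans_lt k1

end Dk

variable [Cw]

theorem dk_stmt (sq : SqStmt) (d1 : D1Stmt) (p3 : P3Stmt) (nd : NdStmt) (c2 : C2Stmt)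
    (rt' : RtStmt) : DkStmt := by
  intro ss w σ q _ y T a u hσ ha hy
  have l1 : JF w ≤ Ine w := inf_le_left
  have l2 : JJ w ≤ JF w := inf_le_left
  obtain ⟨iX, iZ, iW, W0, hW⟩ := T.int u
  obtain ⟨S, g, iS, ig, fac⟩ := sq ss w T.p2 _ _ _ (Dk.mono iX l1) (Dk.mono iZ l1) (Dk.mono iW l1)
    W0 hW
  obtain ⟨e1, b, b0, hb, e2⟩ := d1 ss w σ q y T a u g hσ ha hy ⟨ig, S, iS, fac⟩
  obtain ⟨s1, s2, s3, s4⟩ := p3 w σ q y T u (fun v => T.t 8 v.1 - σ (T.t 1 u)) fun _ => rfl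
  obtain ⟨t1, -, t3⟩ := T.ss u
  have vp := (rt' ss w T.p2).1
  have v2 : w.V 2 < 1 := by simpa [T.p2] using (b4a_V_p w).2
  have v0 : w.V 2 ≠ 0 := (map_ne_zero w.V).2 two_ne_zero
  have vr : w.V (rt 2) ^ 2 = w.V 2 := by rw [← map_pow, rt_sq, Int.cast_ofNat]
  have lt : ∀ (x : Qbar) (n : ℕ), w.V x ^ n ≤ w.V 2 → w.V x < 1 := fun x n h =>
    lt_of_not_ge fun k => (h.trans_lt v2).not_ge (one_le_pow_of_one_le' k n)
  have r1 := lt _ _ vr.le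
  have p1 := lt _ _ vp.le
  have r0 : w.V (rt 2) ≠ 0 := fun e => v0 (by rw [← vr, e, zero_pow two_ne_zero])
  have p0 : w.V pp ≠ 0 := fun e => v0 (by rw [← vp, e, zero_pow three_ne_zero])
  have vβ : w.V (σ (T.t 1 u) / 2) ≤ 1 := by
    rw [map_div₀]
    exact div_le_one_of_le₀ t1 zero_le
  have vk : w.V (kv g (σ (T.t 1 u) / 2)) ≤ 1 :=
    w.V.map_add_le (by rw [map_mul]; exact mul_le_one' (ig 1).2 vβ) (ig 3).2
  have ok : Ok q 8 := ⟨T.ok.m4, T.ok.gt, by decide⟩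
  have perm : ∀ h ∈ JJ w, ∃ s : Equiv.Perm (Lv q u), ∀ v, (s v).1 = rho q 8 h * v.1 := fun h hh =>
    ⟨(Equiv.mulLeft (rho q 8 h)).subtypePerm fun v => by
      rw [Equiv.coe_mulLeft, map_mul, map_mul, pj_rho ok (one_dvd 8), T.unr h (l1 (l2 hh)), one_mul,
        (gd_two ok dvd_rfl (by decide)).th (T.le (l1 (l2 hh))), (mem_JJ.1 hh).2, one_mul],
      fun _ => rfl⟩
  obtain ⟨K, hK, rel⟩ := nd ss w (JJ w) (Lv q u) (fun v => y 8 v.1)
    (fun v => T.t 8 v.1 - σ (T.t 1 u)) (fun v => T.x 8 v.1) (fun v => T.z 8 v.1) _ _ S g T.p2 l2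
    (Dk.mono iX (l2.trans l1)) (Dk.mono iZ (l2.trans l1)) (Dk.mono iS l2) (Dk.mono ig l2) fac
    (fun h hh => (perm h hh).imp fun s hs v => by
      obtain ⟨k1, k2, k3⟩ := T.gal 8 dvd_rfl h (T.le (l1 (l2 hh))) v.1
      rw [hs, map_sub, k1, t3 h (l1 (l2 hh))]
      exact ⟨k3, rfl, k2⟩)
    fun v => by
      obtain ⟨k1, k2, k3, k4⟩ := T.aff 8 dvd_rfl v.1
      exact ⟨lt _ _ (s1 v), k1, k2, k3, k4, T.ap 8 (Or.inr rfl) u v.1 v.2.1⟩
  have hA : w.V (1 + pp ^ 2 * PowerSeries.coeff 0 g) = 1 := w.V.map_one_add_of_lt (by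
    rw [map_mul, map_pow]
    exact (mul_le_of_le_one_right' (ig 0).2).trans_lt (pow_lt_one₀ zero_le p1 two_ne_zero))
  refine ⟨kv g (σ (T.t 1 u) / 2), fun h hh => ?_, fun h hh => ?_, fun h hh => ?_, vk, e1, _,
    rel.trans ⟨b ^ Fintype.card (Lv q u), pow_ne_zero _ b0, fun h hh => ?_, ?_⟩,
    Dk.est p0 p1.le r1.le ?_ vk hA
      (c2 w pp _ (Lv q u) _ g K T.p2 vp vβ s1 s2 s3 s4 (fun n => (ig n).2) hK)⟩
  · have k := conj_mem_Ine (inv_mem T.fr.1) (l1 hh)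
    have k2 := (T.gal 1 (one_dvd 8) _ (T.le k) u).2.2
    rw [T.unr _ k, one_mul, inv_inv, mul_smul, mul_smul, inv_smul_eq_iff] at k2
    exact k2
  · obtain ⟨s, hs⟩ := perm h hh
    rw [Finset.smul_sum, ← Equiv.sum_comp s fun v => y 8 v.1]
    exact Finset.sum_congr rfl fun v _ => by
      rw [hs, (T.gal 8 dvd_rfl h (T.le (l1 (l2 hh))) v.1).2.2]
  · rw [kv, map_add, map_mul, map_div₀, (ig 1).1 h hh, (ig 3).1 h hh, t3 h (l1 hh), map_ofNat]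
  · rw [map_pow, hb h (l2 hh)]
  · have k : 1 + 2 * pp ^ 2 * kv g (σ (T.t 1 u) / 2) ≠ 0 := fun e => by
      rw [e2, e, mul_zero, map_zero] at hA
      exact zero_ne_one hA
    rw [e2, div_mul_cancel_right₀ k, inv_pow, ← pow_mul, ← pow_mul, mul_comm 2]
    field_simp
  · rw [← vr, pow_two]
    exact mul_lt_of_lt_one_left (zero_lt_iff.2 r0) r1

end Pool.Agent.B6.D9
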