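import Pool.Agent.Lib.MP_696deb_nt.B7.D9c

/-! The power sums at the third level. -/

set_option autoImplicit false

open scoped Classical

namespace Pool.Agent.B6.D9

open Pool.Agent.Lib.MP_696deb_nt Pool.Agent.Lib.MP_696deb_nt.B2 Pool.Agent.Lib.MP_696deb_nt.B2.CM
open Pool.Agent.Lib.MP_696deb_nt.B3.CM (fs th fs_fs fs_congr fs_const_up gd_two)

namespace P3

variable {w : Plc} {q c d : ℕ}

theorem two_lt (h : w.p = 2) : w.V 2 < 1 := by simpa [h] using (b4a_V_p w).2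

theorem two_pos' (w : Plc) : 0 < w.V 2 := zero_lt_iff.2 ((map_ne_zero w.V).2 two_ne_zero)

theorem two_rt (h : w.p = 2) : w.V 2 < w.V (rt 2) := by
  have e : w.V 2 = w.V (rt 2) ^ 2 := by rw [← map_pow, rt_sq, Int.cast_ofNat]
  have h1 := two_lt h
  have h0 := two_pos' w
  rw [e] at h1 h0 ⊢
  exact pow_lt_self_of_lt_one₀ (pos_of_ne_zero fun k => by simp [k] at h0)
    (lt_one_of_pow_lt_one_of_nonneg' h1) one_lt_two
where lt_one_of_pow_lt_one_of_nonneg' {x : NNReal} (h : x ^ 2 < 1) : x < 1 :=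
  lt_of_not_ge fun k => absurd (one_le_pow₀ k) (not_le.2 h)

theorem four_lt {x : Qbar} (h : w.V x < 1) : w.V (4 * x) < w.V 4 := by
  rw [map_mul]
  exact mul_lt_of_lt_one_right (zero_lt_iff.2 ((map_ne_zero w.V).2 (by norm_num))) h

theorem eight_lt (h : w.p = 2) : w.V 8 < w.V 4 := by
  simpa only [show (4 * 2 : Qbar) = 8 by norm_num] using four_lt (two_lt h)

theorem pow_sub {a b : Qbar} (ha : w.V a ≤ 1) (hb : w.V b ≤ 1) (n : ℕ) :
    w.V (a ^ n - b ^ n) ≤ w.V (a - b) := by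
  rw [← geom_sum₂_mul, map_mul]
  refine mul_le_of_le_one_left' (w.V.map_sum_le fun i _ => ?_)
  rw [map_mul, map_pow, map_pow]
  exact mul_le_one' (pow_le_one' ha _) (pow_le_one' hb _)

variable [∀ c, Fintype (Pc q c)]

/-- The fibre of the projection. -/
abbrev Fb (d : ℕ) (u : Pc q 1) : Type := {v : Pc q d // pj q 1 d v = u}

theorem sum_fb (u : Pc q 1) (F : Pc q d → Qbar) : ∑ v : Fb d u, F v.1 = fs 1 d F u :=
  (Finset.sum_subtype _ (by simp) F).symm

theorem sum_lv [Cw] (u : Pc q 1) (F : Pc q 8 → Qbar) :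
    ∑ v : Lv q u, F v.1 = ∑ v : Fb 8 u with th q 8 2 v.1 = 1, F v.1 := by
  rw [Finset.sum_filter, sum_fb u fun v => if th q 8 2 v = 1 then F v else 0, fs,
    ← Finset.sum_filter, Finset.filter_filter]
  exact (Finset.sum_subtype _ (by simp) F).symm

end P3

open P3

theorem p3_stmt [Cw] (h3 : C3Stmt) (h4 : C4Stmt) (hN : NwStmt) : P3Stmt := by
  intro w σ q _ y T u e he
  have p2 := T.p2
  obtain ⟨c2, t2, -⟩ := T.ss u
  have k2 := two_lt p2
  have ok8 : Ok q 8 := ⟨T.ok.m4, T.ok.gt, by decide⟩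
  have d12 : 1 ∣ 2 := by decide
  have d14 : 1 ∣ 4 := by decide
  have d24 : 2 ∣ 4 := by decide
  have d48 : 4 ∣ 8 := by decide
  have sz : ∀ v : Pc q 8, pj q 1 8 v = u → w.V (T.t 8 v) ^ 12 ≤ w.V 2 := fun v hv =>
    (hN w _ _ p2 (T.rt 4 8 rfl dvd_rfl v)).2.2 ((hN w _ _ p2 (T.rt 2 4 rfl d48 _)).2.1
      ((hN w _ _ p2 (T.rt 1 2 rfl (by decide) _)).1
        (by rwa [pj_pj d12 d24, pj_pj d14 d48, hv])))
  have s1 : ∀ v : Pc q 8, pj q 1 8 v = u → w.V (T.t 8 v) < 1 := fun v hv =>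
    lt_of_not_ge fun k => absurd ((one_le_pow₀ k).trans (sz v hv)) (not_le.2 k2)
  obtain ⟨a2, a6, a10⟩ := h3 w (T.t 1 u) (fun n => fs 1 2 (fun v => T.t 2 v ^ n) u)
    (fun n => fs 1 4 (fun v => T.t 4 v ^ n) u) (fun n => fs 1 8 (fun v => T.t 8 v ^ n) u) p2 t2
    (Fb 2 u) (Fb 4 u) (fun v => T.t 2 v.1) (fun v => T.t 4 v.1)
    (fun v => ⟨pj q 2 4 v.1, by rw [pj_pj d12 d24, v.2]⟩)
    (fun n => (sum_fb u fun v => T.t 2 v ^ n).symm) (fun n => (sum_fb u fun v => T.t 4 v ^ n).symm)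
    (fun n => T.pw1 n u)
    (fun n => by
      rw [sum_fb u fun v => pw (T.t 2 v) n - T.t 1 u ^ n, ← fs_fs d12 d24]
      exact fs_congr fun x hx => by rw [T.pw2, hx])
    (fun n => by
      rw [sum_fb u fun v => pw (T.t 4 v) n - T.t 2 (pj q 2 4 v) ^ n, ← fs_fs d14 d48]
      exact fs_congr fun x _ => T.pw3 n x)
    (fun n => by
      rw [sum_fb u fun v => T.t 2 (pj q 2 4 v) ^ n, ← fs_fs d12 d24, fs, fs, Finset.mul_sum]
      refine Finset.sum_congr rfl fun x _ => ?_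
      rw [fs_congr (G := fun _ => T.t 2 x ^ n) fun v hv => by rw [hv],
        fs_const_up T.ok Nat.prime_two rfl rfl, nsmul_eq_mul, Nat.cast_ofNat])
  have key := fun k (hk : k ≠ 0) => h4 w (Fb 8 u) (fun v => T.t 8 v.1 ^ k) (fun v => th q 8 2 v.1)
    p2 (fun g hg => ⟨(Equiv.mulLeft (rho q 8 g)).subtypePerm fun v => by
      rw [Equiv.coe_mulLeft, map_mul, pj_rho ok8 (by decide), T.unr g hg, one_mul], fun v => by
      refine ⟨?_, ?_⟩
      · rw [map_pow, (T.gal 8 dvd_rfl g (T.le hg) _).1]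
        rfl
      · rw [← (gd_two ok8 dvd_rfl (by decide)).th (T.le hg), ← map_mul]
        rfl⟩)
    fun v => by rw [map_pow]; exact pow_lt_one₀ zero_le (s1 _ v.2) hk
  simp only [← pow_mul, fun n => (sum_lv u fun v => T.t 8 v ^ n).symm,
    fun n => sum_fb u fun v => T.t 8 v ^ n] at key
  have tr : ∀ (n : ℕ) (x : Qbar), w.V (∑ v : Lv q u, T.t 8 v.1 ^ n - x) < w.V (rt 2) →
      w.V (∑ v, e v ^ n - x) < w.V (rt 2) := fun n x h => by
    rw [← sub_add_sub_cancel _ (∑ v : Lv q u, T.t 8 v.1 ^ n), ← Finset.sum_sub_distrib]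
    refine w.V.map_add_lt ((w.V.map_sum_le fun v _ => ?_).trans_lt (two_rt p2)) h
    have := (s1 _ v.2.1).le
    refine (pow_sub ?_ this n).trans ?_ <;> rw [he]
    · exact w.V.map_sub_le this (c2.trans k2.le)
    · rwa [sub_sub_cancel_left, w.V.map_neg]
  have b1 : w.V (σ (T.t 1 u) / 2) ≤ 1 := by rwa [map_div₀, div_le_one₀ (two_pos' w)]
  have f1 := T.fr.2 _ b1
  have f2 : σ (σ (T.t 1 u)) = T.t 1 u := by
    have := (T.gal 1 (by decide) (σ * σ) (show chi (-q) (σ * σ) = 1 by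
      rw [map_mul, Int.units_mul_self]) u).1
    rwa [rho_sq T.ok T.out, one_mul] at this
  rw [map_div₀, f2, map_ofNat] at f1
  refine ⟨fun v => ?_, ?_, tr 3 _ ?_, fun n hn => ?_⟩
  · rw [he]
    rcases le_max_iff.1 (w.V.map_sub (T.t 8 v.1) (σ (T.t 1 u))) with h | h
    · exact (pow_le_pow_left' h _).trans (sz _ v.2.1)
    · exact (pow_le_pow_left' (h.trans c2) _).trans (pow_le_of_le_one zero_le k2.le (by decide))
  · simpa only [pow_one] using tr 1 _ ((key 1 one_ne_zero).2 _ b1 (by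
      rw [← sub_add_sub_cancel _ (2 * T.t 1 u), show 2 * T.t 1 u - 4 * (σ (T.t 1 u) / 2) ^ 2 =
        4 * (T.t 1 u / 2 - (σ (T.t 1 u) / 2) ^ 2) by ring]
      exact w.V.map_add_lt (a2.trans_lt (eight_lt p2)) (four_lt f1)))
  · simpa only [one_mul] using (key 3 (by decide)).2 1 (by simp)
      (by simpa only [one_pow, mul_one] using a6.trans_lt (eight_lt p2))
  · rw [← sub_zero (∑ v, e v ^ n)]
    refine tr n 0 ?_
    simp only [Finset.mem_insert, Finset.mem_singleton] at hn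
    rcases hn with rfl | rfl | rfl | rfl
    · simpa only [sub_zero] using (key 1 (by decide)).1
    · simpa only [sub_zero] using (key 2 (by decide)).1
    · simpa only [zero_mul] using (key 5 (by decide)).2 0 (by simp)
        (by simpa using a10.trans_lt (eight_lt p2))
    · simpa only [sub_zero] using (key 3 (by decide)).1

end Pool.Agent.B6.D9
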