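import Pool.Agent.Lib.MP_696deb_nt.B7.D9c
import Pool.Agent.Lib.MP_696deb_nt.B5.GAa

/-! Values of rational modular functions at points with algebraic invariant are algebraic. -/

set_option autoImplicit false

namespace Pool.Agent.B6.D9

open Pool.Agent.Lib.MP_696deb_nt Pool.Agent.Lib.MP_696deb_nt.B2 Pool.Agent.Lib.MP_696deb_nt.B2.CM
open Pool.Agent.B4.GE (CI cr finite_CI)

theorem alg_stmt : AlgStmt := by
  intro L h z x hL hr hz hx
  have := finite_CI hL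
  obtain ⟨p, p0, hp⟩ : IsAlgebraic ℚ (jf z) :=
    hx ▸ (Algebra.IsAlgebraic.isAlgebraic (R := ℚ) x).algHom jC.toRatAlgHom
  choose w w1 w2 using G5.jf_surj
  refine ⟨_, jC_pre (Gal.isAlgebraic_of_finite ((p.rootSet_finite ℂ).biUnion fun a _ =>
    Set.finite_range fun i : CI L => h (act (cr i) (w a))) fun σ _ => ?_)⟩
  obtain ⟨z', k⟩ := G5.exists_pc G5.jf_surj hL σ hz
  obtain ⟨g, g1, rfl⟩ := G5.exists_sl (w1 _) k.pos' ((k.rj hL).j.trans (w2 _).symm)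
  obtain ⟨i, hi⟩ := (hr σ).mf.1.exists_cr hL g1
  refine Set.mem_biUnion (Polynomial.mem_rootSet.2 ⟨p0, ?_⟩)
    ⟨i, (hi _ (w1 _)).symm.trans (k.ev _ _ (hr σ))⟩
  exact (Polynomial.aeval_algHom_apply (σ : ℂ →+* ℂ).toRatAlgHom _ p).trans (by rw [hp, map_zero])

end Pool.Agent.B6.D9
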