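import Pool.Agent.Lib.MP_696deb_nt.B7.D9c

/-! A valuation ring of the complex numbers in which two generates the maximal ideal up to
radical. -/

set_option autoImplicit false

namespace Pool.Agent.B6.D9

open Pool.Agent.Lib.MP_696deb_nt Pool.Agent.Lib.MP_696deb_nt.B2 Pool.Agent.Lib.MP_696deb_nt.B2.CM

theorem ar_stmt : ArStmt := by
  intro w h2
  obtain ⟨B, hB⟩ := exists_over w
  have mono : ∀ {a b : B.ValueGroup}, a ≤ b → (∀ n : ℕ, B.valuation 2 * b ^ n < 1) →
      ∀ n : ℕ, B.valuation 2 * a ^ n < 1 := fun h k n => lt_of_le_of_lt (by gcongr) (k n)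
  have one : ∀ {a : B.ValueGroup}, a ≤ 1 → ∀ n : ℕ, B.valuation 2 * a ^ n < 1 := fun h =>
    mono h fun n => by simpa using over_two hB h2
  let S : Subring ℂ :=
    { carrier := {x | ∀ n : ℕ, B.valuation 2 * B.valuation x ^ n < 1}
      mul_mem' := fun {a b} ha hb => by
        rcases le_total (B.valuation a) (B.valuation b) with h | h
        · exact mono (b := B.valuation b ^ 2) (by rw [map_mul, sq]; gcongr) fun n => by
            rw [← pow_mul]; exact hb _
        · exact mono (b := B.valuation a ^ 2) (by rw [map_mul, sq]; gcongr) fun n => by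
            rw [← pow_mul]; exact ha _
      one_mem' := one (map_one _).le
      add_mem' := fun {a b} ha hb => (le_max_iff.1 (B.valuation.map_add a b)).elim
        (mono · ha) (mono · hb)
      zero_mem' := one (by simp)
      neg_mem' := fun {a} ha => mono (B.valuation.map_neg a).le ha }
  have hle : B.toSubring ≤ S := fun x hx => one ((B.valuation_le_one_iff x).2 hx)
  have w2 : w.V 2 < 1 := by simpa [h2] using (b4a_V_p w).2
  have hS : ∀ x, jC x ∈ B.ofLE S hle ↔ w.V x ≤ 1 := fun x => by
    refine ⟨fun h => not_lt.1 fun k => ?_, fun h => one ((hB x).1.2 h)⟩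
    obtain ⟨n, hn⟩ := pow_unbounded_of_one_lt (w.V 2)⁻¹ k
    have h1 := h n
    rw [← map_pow, ← map_mul, ← map_pow, ← map_ofNat jC 2, ← map_mul, (hB _).2, map_mul,
      map_pow] at h1
    rw [inv_lt_iff_one_lt_mul₀' (by simp [zero_lt_iff])] at hn
    exact hn.not_gt h1
  refine ⟨B.ofLE S hle, fun x => ⟨by rw [ValuationSubring.valuation_le_one_iff, hS], ?_⟩,
    fun x hx => ?_⟩
  · rw [← ValuationSubring.mem_nonunits_iff, ValuationSubring.mem_nonunits_iff_or, ← map_inv₀, hS,
      map_eq_zero, map_inv₀]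
    rcases eq_or_ne x 0 with rfl | h
    · simp
    · rw [or_iff_right h, not_le, one_lt_inv₀ (by simpa [zero_lt_iff] using h)]
  · rcases eq_or_ne x 0 with rfl | h
    · exact ⟨1, by simp⟩
    obtain ⟨n, hn⟩ := not_forall.1 (((B.ofLE S hle).mem_nonunits_iff_or.1 hx).resolve_left h)
    rw [not_lt, map_inv₀, inv_pow, le_mul_inv_iff₀ (by simp [zero_lt_iff, h]), one_mul,
      ← map_pow] at hn
    exact ⟨n, by rw [← map_pow]; exact B.monotone_mapOfLE _ hle hn⟩

end Pool.Agent.B6.D9
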