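import Pool.Agent.Lib.MP_696deb_nt.B7.D9v

/-! Square roots modulo four, and the size of the roots of the modular equation. -/

set_option autoImplicit false

open scoped Classical NNReal

namespace Pool.Agent.B6.D9

open Pool.Agent.Lib.MP_696deb_nt Pool.Agent.Lib.MP_696deb_nt.B2

theorem As.two_lt {w : Plc} (hw : w.p = 2) : w.V 2 < 1 := by
  have := w.hV
  rw [hw] at this
  rw [show (2 : Qbar) = ((2 : ℕ) : Qbar) by norm_num, this]
  exact inv_lt_one_of_one_lt₀ (by norm_num)

theorem as_stmt : AsStmt := by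
  intro w H a c hw hH ha hc h1 h2
  have d1 := As.two_lt hw
  have c0 : c ≠ 0 := fun k => by simp [k] at h1
  obtain ⟨b, hb⟩ := IsAlgClosed.exists_pow_nat_eq (a / c) two_pos
  obtain ⟨η, rfl⟩ : ∃ η, b = 1 + 2 * η := ⟨(b - 1) / 2, by ring⟩
  have e1 : η ^ 2 + η = (a - c) / (4 * c) := by
    rw [eq_div_iff c0] at hb
    rw [eq_div_iff (mul_ne_zero (by norm_num) c0)]
    linear_combination hb
  have e2 : w.V (η ^ 2 + η) ≤ 1 := by
    rw [e1, map_div₀, map_mul, h1, mul_one]
    exact div_le_one_of_le₀ h2 zero_le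
  have e3 : w.V η ≤ 1 := by
    by_contra! k
    rw [w.V.map_add_eq_of_lt_left (by rw [map_pow]; exact lt_self_pow₀ k one_lt_two), map_pow] at e2
    exact absurd (one_lt_pow₀ k two_ne_zero) (not_lt.2 e2)
  have e4 : w.V (1 + 2 * η) = 1 := w.V.map_one_add_of_lt (by
    rw [map_mul]
    exact mul_lt_one_of_nonneg_of_lt_one_left zero_le d1 e3)
  refine ⟨1 + 2 * η, fun k => by simp [k] at e4, fun g hg => ?_, by rw [hb, div_mul_cancel₀ _ c0]⟩
  have e5 : g (1 + 2 * η) ^ 2 = (1 + 2 * η) ^ 2 := by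
    rw [← map_pow, hb, map_div₀, ha g hg, hc g hg]
  refine (sq_eq_sq_iff_eq_or_eq_neg.1 e5).resolve_right fun k => ?_
  have e6 := (hH hg).2 η e3
  rw [map_add, map_one, map_mul, map_ofNat] at k
  rw [show g η - η = -(1 + 2 * η) by linear_combination k / 2, w.V.map_neg, e4] at e6
  exact lt_irrefl _ e6

theorem nw_stmt : NwStmt := by
  intro w t s hw h
  have d1 := (As.two_lt hw).le
  have key : w.V t ≤ 1 → w.V s ^ 2 ≤ w.V t ∨ w.V s ^ 3 ≤ w.V 2 := fun ht => by
    by_contra! k
    have s0 : 0 < w.V s := pos_iff_ne_zero.2 fun e => by simp [e] at k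
    have k1 : w.V t < w.V s := lt_of_pow_lt_pow_left₀ 2 zero_le
      ((pow_le_of_le_one zero_le ht two_ne_zero).trans_lt k.1)
    have e : s ^ 3 = t ^ 2 * s ^ 2 - (9 : ℤ) * (t * s) - t ^ 3 + (27 : ℤ) * 2 := by
      rw [ps] at h
      push_cast
      linear_combination h
    refine lt_irrefl (w.V s ^ 3) ?_
    conv_lhs => rw [← map_pow, e]
    refine w.V.map_add_lt (w.V.map_sub_lt (w.V.map_sub_lt ?_ ?_) ?_) ?_
    · rw [map_mul, map_pow, map_pow, pow_succ' _ 2]
      exact mul_lt_mul_of_pos_right ((pow_le_of_le_one zero_le ht two_ne_zero).trans_lt k1)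
        (pow_pos s0 2)
    · rw [map_mul, map_mul, pow_succ _ 2]
      exact (mul_le_of_le_one_left' (w.V_int_le 9)).trans_lt (mul_lt_mul_of_pos_right k.1 s0)
    · rw [map_pow]
      exact pow_lt_pow_left₀ k1 zero_le three_ne_zero
    · rw [map_mul]
      exact (mul_le_of_le_one_left' (w.V_int_le 27)).trans_lt k.2
  have p : ∀ n : ℕ, n ≠ 0 → w.V t ^ n ≤ w.V 2 → w.V t ≤ 1 := fun n hn k =>
    le_of_pow_le_pow_left₀ hn zero_le (by rw [one_pow]; exact k.trans d1)
  refine ⟨fun k => ?_, fun k => ?_, fun k => ?_⟩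
  · refine (key (k.trans d1)).elim (fun e => ?_) id
    exact (pow_le_pow_right_of_le_one' (le_of_pow_le_pow_left₀ two_ne_zero zero_le
      (by rw [one_pow]; exact e.trans (k.trans d1))) (by norm_num)).trans (e.trans k)
  · rcases key (p 3 three_ne_zero k) with e | e
    · rw [show 6 = 2 * 3 from rfl, pow_mul]
      exact (pow_le_pow_left' e 3).trans k
    · rw [show 6 = 3 * 2 from rfl, pow_mul]
      exact (pow_le_pow_left' e 2).trans (pow_le_of_le_one zero_le d1 two_ne_zero)
  · rcases key (p 6 (by norm_num) k) with e | e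
    · rw [show 12 = 2 * 6 from rfl, pow_mul]
      exact (pow_le_pow_left' e 6).trans k
    · rw [show 12 = 3 * 4 from rfl, pow_mul]
      exact (pow_le_pow_left' e 4).trans (pow_le_of_le_one zero_le d1 four_ne_zero)

end Pool.Agent.B6.D9
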