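import Pool.Agent.Lib.MP_696deb_nt.B7.D9v

/-! The product over the three neighbours modulo four. -/

set_option autoImplicit false

open scoped Classical NNReal

namespace Pool.Agent.B6.D9

open Pool.Agent.Lib.MP_696deb_nt Pool.Agent.Lib.MP_696deb_nt.B2

namespace C1

variable {w : Plc}

theorem ex {x y : Qbar} (hy : y ≠ 0) (h : w.V x ≤ w.V y) : ∃ z : w.V.integer, x = y * z :=
  ⟨⟨x / y, by
    rw [Valuation.mem_integer_iff, map_div₀]
    exact div_le_one_of_le₀ h zero_le⟩, (mul_div_cancel₀ x hy).symm⟩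

theorem root {x : Qbar} (a b c : w.V.integer) (h : x ^ 3 = a * x ^ 2 + b * x + c) :
    w.V x ≤ 1 := by
  by_contra! h1
  have k : ∀ (d : w.V.integer) (n : ℕ), n < 3 → w.V (d * x ^ n) < w.V (x ^ 3) := fun d n hn => by
    rw [map_mul, map_pow, map_pow]
    exact (mul_le_of_le_one_left' d.2).trans_lt (pow_lt_pow_right₀ h1 hn)
  have := w.V.map_add_lt (w.V.map_add_lt (k a 2 (by decide)) (k b 1 (by decide))) (k c 0 (by decide))
  rw [pow_one, pow_zero, mul_one, ← h] at this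
  exact this.false

theorem le (x : Qbar) (z : w.V.integer) : w.V (x * z) ≤ w.V x := by
  rw [map_mul]
  exact mul_le_of_le_one_right' z.2

theorem coe_num (n : ℕ) [n.AtLeastTwo] :
    ((no_index (OfNat.ofNat n) : w.V.integer) : Qbar) = OfNat.ofNat n := rfl

end C1

open C1 in
theorem c1_stmt : C1Stmt := by
  intro w p t c ι _ s g K hw hp ht hc hs hr hg hK
  have h2 : w.V 2 ≤ 1 := by simpa using w.V_int_le 2
  have p0 : p ≠ 0 := by
    rintro rfl
    rw [map_zero, zero_pow three_ne_zero, eq_comm, w.V.zero_iff] at hp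
    exact two_ne_zero hp
  obtain ⟨ε, hε⟩ := ex (w := w) (x := 2) (pow_ne_zero 3 p0) (by rw [map_pow, hp])
  obtain ⟨τ, rfl⟩ := ex two_ne_zero ht
  obtain ⟨β, rfl⟩ := ex two_ne_zero hc
  lift p to w.V.integer using (pow_le_one_iff_of_nonneg zero_le three_ne_zero).1 (hp ▸ h2)
  have h3 : ∀ i, ∃ η : w.V.integer, s i - 2 * β = p * η := fun i => by
    have h := hr i
    have k : w.V (s i / p) ≤ 1 := root (ε ^ 2 * p ^ 5 * τ ^ 2) (-9 * ε * p * τ)
      (ε * (27 - 4 * τ ^ 3)) (by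
        rw [ps] at h
        push_cast [coe_num]
        field_simp
        linear_combination h + ((2 + p ^ 3 * ε) * τ ^ 2 * s i ^ 2 - 9 * τ * s i + 27 -
          4 * τ ^ 3) * hε)
    refine ⟨⟨_, k⟩ - p ^ 2 * ε * β, ?_⟩
    push_cast
    field_simp
    linear_combination -β * hε
  choose η hη using h3
  obtain ⟨K, rfl⟩ := Nat.exists_eq_add_of_le hK
  let G : ℕ → w.V.integer := fun n => ⟨_, hg n⟩
  have hG : ∀ n, PowerSeries.coeff n g = G n := fun _ => rfl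
  have h4 : ∀ i, ∃ r : w.V.integer, tv g (4 + K) (s i - 2 * β) = G 0 + G 1 * (p * η i) +
      G 2 * (p * η i) ^ 2 + G 3 * (p * η i) ^ 3 + (p * η i) ^ 4 * r := fun i => by
    refine ⟨∑ n ∈ Finset.range K, G (4 + n) * (p * η i) ^ n, ?_⟩
    simp only [tv, Finset.sum_range_add, hη, hG, Finset.sum_range_succ, Finset.sum_range_zero]
    push_cast
    rw [Finset.mul_sum]
    congr 1
    · ring
    · exact Finset.sum_congr rfl fun n _ => by ring
  choose r hr' using h4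
  have h5 : Fintype.card ι = 3 := by exact_mod_cast (by simpa [pw] using hs 0 :
    (Fintype.card ι : Qbar) = 3)
  let u := (Fintype.equivFinOfCardEq h5).symm
  have h6 : ∀ n, (p * η (u 0) + 2 * β : Qbar) ^ n + (p * η (u 1) + 2 * β) ^ n +
      (p * η (u 2) + 2 * β) ^ n = pw (2 * τ : Qbar) n := fun n => by
    rw [← hs, ← u.sum_comp, Fin.sum_univ_three]
    simp only [← hη, sub_add_cancel]
  have e1 := h6 1
  have e2 := h6 2
  have e3 := h6 3
  simp only [pw] at e1 e2 e3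
  let a := 1 + p ^ 2 * G 0
  let v := fun i => G 1 * η (u i) + G 2 * p * η (u i) ^ 2 + G 3 * p ^ 2 * η (u i) ^ 3 +
    p ^ 3 * η (u i) ^ 4 * r (u i)
  have h7 : w.V (p ^ 6) = w.V 4 ∧ w.V (2 * p ^ 3) = w.V 4 := by
    rw [show (4 : Qbar) = 2 * 2 by norm_num, map_mul, map_mul, map_pow, map_pow, ← hp, ← pow_add]
    exact ⟨rfl, rfl⟩
  refine le_of_eq_of_le (congrArg w.V ?_) (w.V.map_add_le (w.V.map_add_le
    ((le _ (a ^ 2 * (η (u 0) ^ 4 * r (u 0) + η (u 1) ^ 4 * r (u 1) + η (u 2) ^ 4 * r (u 2)) +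
      a * (v 0 * v 1 + v 0 * v 2 + v 1 * v 2) + p ^ 3 * (v 0 * v 1 * v 2))).trans h7.1.le)
    (le 4 (a ^ 2 * p ^ 2 * (G 1 * (τ ^ 2 - 2 * β) +
      G 2 * (4 * τ ^ 4 - 9 * τ - 4 * β * τ ^ 2 + 3 * β ^ 2) + G 3 * (16 * τ ^ 6 - 60 * τ ^ 3 + 40 -
        24 * β * τ ^ 4 + 54 * β * τ + 12 * β ^ 2 * τ ^ 2 - 6 * β ^ 3)))))
    ((le _ (-a ^ 2 * p * G 0 * (G 1 * β + G 3))).trans h7.2.le))
  rw [← u.prod_comp, Fin.prod_univ_three]
  simp only [hr', kv, hG, a, v]
  push_cast [coe_num]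
  linear_combination (1 + p ^ 2 * G 0 : Qbar) ^ 2 * p ^ 2 * (G 1 * e1 + G 2 * (e2 - 4 * β * e1) +
    G 3 * (e3 - 6 * β * e2 + 12 * β ^ 2 * e1))

end Pool.Agent.B6.D9
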