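import Pool.Agent.Lib.MP_696deb_nt.B7.D9v

/-! The product over the points of a disc, ramified case. -/

set_option autoImplicit false

open scoped Classical NNReal

namespace Pool.Agent.B6.D9

open Pool.Agent.Lib.MP_696deb_nt Pool.Agent.Lib.MP_696deb_nt.B2

namespace C2

theorem prod_lin {ι : Type} (V : Valuation Qbar ℝ≥0) (s : Finset ι) {v : ι → Qbar} {μ : ℝ≥0}
    (h1 : μ ≤ 1) (h : ∀ i, V (v i) ≤ μ) : V (∏ i ∈ s, (1 + v i) - (1 + ∑ i ∈ s, v i)) ≤ μ ^ 2 := by
  induction s using Finset.induction_on with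
  | empty => simp
  | insert i s hi ih =>
    rw [Finset.prod_insert hi, Finset.sum_insert hi, show (1 + v i) * ∏ x ∈ s, (1 + v x) -
      (1 + (v i + ∑ x ∈ s, v x)) = (1 + v i) * (∏ x ∈ s, (1 + v x) - (1 + ∑ x ∈ s, v x)) +
        v i * ∑ x ∈ s, v x by ring]
    refine V.map_add_le ?_ ?_
    · rw [map_mul]
      exact (mul_le_of_le_one_left' (V.map_add_le V.map_one.le ((h i).trans h1))).trans ih
    · rw [map_mul, sq]
      exact mul_le_mul' (h i) (V.map_sum_le fun j _ => h j)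

end C2

theorem c2_stmt : C2Stmt := by
  intro w p β ι _ e g K hw hp hβ he h1 h3 hn hg hK
  have d1 : w.V 2 < 1 := by
    have := w.hV
    rw [hw] at this
    rw [show (2 : Qbar) = ((2 : ℕ) : Qbar) by norm_num, this]
    exact inv_lt_one_of_one_lt₀ (by norm_num)
  have d0 : 0 < w.V 2 := zero_lt_iff.2 (by simp)
  have r2 : w.V (rt 2) ^ 2 = w.V 2 := by rw [← map_pow, rt_sq]; norm_num
  have r0 : w.V (rt 2) ≠ 0 := fun k => by rw [k] at r2; simp [← r2] at d0
  have p0 : w.V p ≠ 0 := fun k => by rw [k] at hp; simp [← hp] at d0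
  have p1 : w.V p < 1 := lt_of_pow_lt_pow_left₀ 3 zero_le (by rwa [hp, one_pow])
  obtain ⟨η, hη⟩ := IsAlgClosed.exists_pow_nat_eq (2 : Qbar) (n := 12) (by norm_num)
  obtain ⟨ε, hε⟩ : ∃ ε : ℝ≥0, ε ^ 12 = w.V 2 := ⟨w.V η, by rw [← map_pow, hη]⟩
  have e1 : ∀ i, w.V (e i) ≤ ε := fun i =>
    le_of_pow_le_pow_left₀ (n := 12) (by norm_num) zero_le (hε ▸ he i)
  have e2 : ε ≤ 1 := (lt_of_pow_lt_pow_left₀ 12 zero_le (by rwa [hε, one_pow])).le
  have e7 : ε ^ 7 < w.V (rt 2) := lt_of_pow_lt_pow_left₀ 12 zero_le (by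
    rw [← pow_mul, mul_comm, pow_mul, hε, show 12 = 2 * 6 from rfl, pow_mul, r2]
    exact pow_lt_pow_right_of_lt_one₀ d0 d1 (by norm_num))
  have e8 : w.V p ^ 2 * ε ^ 2 < w.V (rt 2) := lt_of_pow_lt_pow_left₀ 6 zero_le (by
    rw [mul_pow, ← pow_mul, ← pow_mul, hε, show 2 * 6 = 3 * 4 from rfl, pow_mul, hp,
      show 6 = 2 * 3 from rfl, pow_mul, r2, ← pow_succ]
    exact pow_lt_pow_right_of_lt_one₀ d0 d1 (by norm_num))
  have m : ∀ n x, w.V x < w.V (rt 2) → w.V (PowerSeries.coeff n g * x) < w.V (rt 2) :=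
    fun n x k => by
      rw [map_mul]
      exact (mul_le_of_le_one_left' (hg n)).trans_lt k
  have s4 : ∀ n, w.V (∑ i, e i ^ (4 + n)) < w.V (rt 2) := fun n => by
    by_cases k : n < 3
    · exact hn _ (by interval_cases n <;> simp)
    · refine w.V.map_sum_lt r0 fun i _ => lt_of_le_of_lt ?_ e7
      rw [map_pow]
      exact (pow_le_pow_left' (e1 i) _).trans (pow_le_pow_right_of_le_one' e2 (by omega))
  have a0 : w.V (p ^ 2 * PowerSeries.coeff 0 g) < 1 := by
    rw [map_mul, map_pow]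
    exact mul_lt_one_of_nonneg_of_lt_one_left zero_le (pow_lt_one₀ zero_le p1 two_ne_zero) (hg 0)
  obtain ⟨a, ha⟩ : ∃ a, a = 1 + p ^ 2 * PowerSeries.coeff 0 g := ⟨_, rfl⟩
  have a1 : w.V a = 1 := ha ▸ w.V.map_one_add_of_lt a0
  have a2 : a ≠ 0 := fun k => by simp [k] at a1
  obtain ⟨d, hd⟩ : ∃ d : ι → Qbar, ∀ i, d i = tv g K (e i) - PowerSeries.coeff 0 g :=
    ⟨_, fun _ => rfl⟩
  obtain ⟨K, rfl⟩ := Nat.exists_eq_add_of_le hK
  have v1 : ∀ i, w.V (d i) ≤ ε := fun i => by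
    rw [hd, tv, show 4 + K = 3 + K + 1 by ring, Finset.sum_range_succ', pow_zero, mul_one,
      add_sub_cancel_right]
    refine w.V.map_sum_le fun n _ => ?_
    rw [map_mul, map_pow]
    exact (mul_le_of_le_one_left' (hg _)).trans ((pow_le_pow_left' (e1 i) _).trans
      (pow_le_of_le_one zero_le e2 n.succ_ne_zero))
  have v2 : w.V (∑ i, d i - rt 2 * kv g β) < w.V (rt 2) := by
    have : ∑ i, d i - rt 2 * kv g β = PowerSeries.coeff 1 g * (∑ i, e i - β * rt 2) +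
        PowerSeries.coeff 2 g * ∑ i, e i ^ 2 + PowerSeries.coeff 3 g * (∑ i, e i ^ 3 - rt 2) +
        ∑ n ∈ Finset.range K, PowerSeries.coeff (4 + n) g * ∑ i, e i ^ (4 + n) := by
      simp only [hd, tv, Finset.sum_range_add, Finset.sum_range_succ, Finset.range_zero,
        Finset.sum_empty, kv, Finset.mul_sum, mul_sub, pow_zero, pow_one, mul_one, zero_add,
        add_assoc, add_sub_cancel_left, Finset.sum_add_distrib]
      rw [Finset.sum_comm]
      ring
    rw [this]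
    exact w.V.map_add_lt (w.V.map_add_lt (w.V.map_add_lt (m _ _ h1) (m _ _ (hn 2 (by simp))))
      (m _ _ h3)) (w.V.map_sum_lt r0 fun n _ => m _ _ (s4 n))
  have k1 : w.V (kv g β) ≤ 1 := w.V.map_add_le (by rw [map_mul]; exact mul_le_one' (hg 1) hβ) (hg 3)
  have q0 : 0 < w.V p ^ 2 := pow_pos (zero_lt_iff.2 p0) 2
  have l := C2.prod_lin w.V Finset.univ (v := fun i => p ^ 2 * d i / a) (μ := w.V p ^ 2 * ε)
    (mul_le_one' (pow_le_one' p1.le 2) e2) fun i => by
      rw [map_div₀, a1, div_one, map_mul, map_pow]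
      exact mul_le_mul_right (v1 i) _
  have t : ∏ i, (1 + p ^ 2 * tv g (4 + K) (e i)) = a ^ Fintype.card ι * ∏ i, (1 + p ^ 2 * d i / a) := by
    rw [← Finset.card_univ, ← Finset.prod_const, ← Finset.prod_mul_distrib]
    refine Finset.prod_congr rfl fun i _ => ?_
    rw [mul_add, mul_div_cancel₀ _ a2, hd, ha]
    ring
  rw [t, ← ha, ← mul_sub, map_mul, map_pow, a1, one_pow, one_mul,
    show ∏ i, (1 + p ^ 2 * d i / a) - (1 + p ^ 2 * rt 2 * kv g β) =
      ∏ i, (1 + p ^ 2 * d i / a) - (1 + ∑ i, p ^ 2 * d i / a) +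
        (p ^ 2 * (∑ i, d i - rt 2 * kv g β) / a -
          p ^ 2 * rt 2 * (kv g β * (p ^ 2 * PowerSeries.coeff 0 g)) / a) by
      rw [← Finset.sum_div, ← Finset.mul_sum, show p ^ 2 * PowerSeries.coeff 0 g = a - 1 by
        rw [ha]; ring]
      field_simp
      ring]
  refine w.V.map_add_lt (l.trans_lt ?_) (w.V.map_sub_lt ?_ ?_)
  · rw [map_mul, map_pow, mul_pow, sq (w.V p ^ 2), mul_assoc]
    exact mul_lt_mul_of_pos_left e8 q0
  · rw [map_div₀, a1, div_one, map_mul, map_mul]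
    exact mul_lt_mul_of_pos_left v2 (by rwa [map_pow])
  · rw [map_div₀, a1, div_one, map_mul]
    refine mul_lt_of_lt_one_right (by rw [map_mul, map_pow]; exact mul_pos q0 (zero_lt_iff.2 r0)) ?_
    rw [map_mul]
    exact mul_lt_one_of_nonneg_of_lt_one_right k1 zero_le a0

end Pool.Agent.B6.D9
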