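import Pool.Agent.Lib.MP_696deb_nt.B7.D9v

/-! The power sums over the leaves of the tree of depth three. -/

set_option autoImplicit false

open scoped Classical NNReal

namespace Pool.Agent.B6.D9

open Pool.Agent.Lib.MP_696deb_nt Pool.Agent.Lib.MP_696deb_nt.B2

namespace C3

/-- The linear form with values `S k` on a list of coefficients. -/
def fn {M : Type} [AddCommGroup M] (S : ℕ → M) : List ℤ → ℕ → M
  | [], _ => 0
  | c :: l, k => c • S k + fn S l (k + 1)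

/-- Sums of lists of coefficients. -/
def ad : List ℤ → List ℤ → List ℤ
  | [], m => m
  | a :: l, [] => a :: l
  | a :: l, b :: m => (a + b) :: ad l m

/-- The recursion on lists of coefficients. -/
def it : ℕ → List ℤ → List ℤ → List ℤ → List ℤ
  | 0, A, _, _ => A
  | n + 1, A, B, C => it n B C (ad (0 :: 0 :: C) (ad (0 :: B.map (-9 * ·))
      (ad (A.map (54 * ·)) (0 :: 0 :: 0 :: A.map (-1 * ·)))))

/-- The coefficients of the power sums. -/
def pl (n : ℕ) : List ℤ := it n [3] [0, 0, 1] [0, -18, 0, 0, 1]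

theorem fn_ad (S : ℕ → Qbar) : ∀ (l m : List ℤ) (k : ℕ), fn S (ad l m) k = fn S l k + fn S m k
  | [], m, k => by rw [ad, fn, zero_add]
  | a :: l, [], k => by rw [ad, fn.eq_1, add_zero]
  | a :: l, b :: m, k => by
    rw [ad, fn, fn, fn, fn_ad S l m, add_smul]
    abel

theorem fn_map (S : ℕ → Qbar) (c : ℤ) : ∀ (l : List ℤ) (k : ℕ),
    fn S (l.map (c * ·)) k = c * fn S l k
  | [], k => by simp [fn]
  | a :: l, k => by
    rw [List.map_cons, fn, fn, fn_map S c l]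
    simp only [zsmul_eq_mul]
    push_cast
    ring

theorem sum_it {ι : Type} [Fintype ι] (a : ι → Qbar) {S : ℕ → Qbar} : ∀ (n m : ℕ)
    (A B C : List ℤ), (∀ k, fn S A k = ∑ i, a i ^ k * pw (a i) m) →
    (∀ k, fn S B k = ∑ i, a i ^ k * pw (a i) (m + 1)) →
    (∀ k, fn S C k = ∑ i, a i ^ k * pw (a i) (m + 2)) →
    fn S (it n A B C) 0 = ∑ i, pw (a i) (m + n)
  | 0, m, A, B, C, h, _, _ => by simpa [it] using h 0
  | n + 1, m, A, B, C, h0, h1, h2 => by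
    rw [it, show m + (n + 1) = m + 1 + n by omega]
    refine sum_it a n (m + 1) _ _ _ h1 h2 fun k => ?_
    simp only [fn_ad, fn, fn_map, zero_smul, zero_add, h0, h1, h2, Finset.mul_sum,
      ← Finset.sum_add_distrib]
    refine Finset.sum_congr rfl fun i _ => ?_
    rw [show m + 1 + 2 = m + 3 from rfl, pw]
    push_cast
    ring

theorem sum_pw {ι : Type} [Fintype ι] (a : ι → Qbar) {S : ℕ → Qbar}
    (h : ∀ k, S k = ∑ i, a i ^ k) (n : ℕ) : ∑ i, pw (a i) n = fn S (pl n) 0 := by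
  rw [pl, sum_it a n 0, zero_add] <;> intro k <;>
    simp only [fn, h, zero_smul, zero_add, add_zero, Finset.smul_sum, ← Finset.sum_add_distrib] <;>
    refine Finset.sum_congr rfl fun i _ => ?_ <;> simp only [pw, zsmul_eq_mul] <;> push_cast <;>
    ring

/-- Multiplication by the variable modulo its cube. -/
def sh (p : ℤ × ℤ × ℤ) : ℤ × ℤ × ℤ := (0, p.1, p.2.1)

/-- The powers of the variable. -/
def tp : ℕ → ℤ × ℤ × ℤ
  | 0 => (1, 0, 0)
  | k + 1 => sh (tp k)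

/-- The recursion modulo the cube of the variable. -/
def it3 : ℕ → ℤ × ℤ × ℤ → ℤ × ℤ × ℤ → ℤ × ℤ × ℤ → ℤ × ℤ × ℤ
  | 0, A, _, _ => A
  | n + 1, A, B, C => it3 n B C (sh (sh C) + (-9 : ℤ) • sh B +
      ((54 : ℤ) • A + (-1 : ℤ) • sh (sh (sh A))))

/-- The first power sums. -/
def t1 (n : ℕ) : ℤ × ℤ × ℤ := it3 n ((3 : ℤ) • tp 0) (tp 2) (tp 4 + (-18 : ℤ) • tp 1)

/-- The second power sums. -/
def t2 (n : ℕ) : ℤ × ℤ × ℤ := fn t1 (pl n) 0 + (-3 : ℤ) • tp n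

/-- The third power sums. -/
def t3 (n : ℕ) : ℤ × ℤ × ℤ := fn t2 (pl n) 0 + (-2 : ℤ) • t1 n

/-- Congruence modulo eight. -/
def Cg (w : Plc) (t x : Qbar) (p : ℤ × ℤ × ℤ) : Prop :=
  w.V (x - (p.1 + p.2.1 * t + p.2.2 * t ^ 2)) ≤ w.V 8

variable {w : Plc} {t x y : Qbar} {p q : ℤ × ℤ × ℤ}

theorem Cg.of_eq (h : Cg w t x p) (e : y = x) : Cg w t y p := e ▸ h

theorem Cg.add (h : Cg w t x p) (k : Cg w t y q) : Cg w t (x + y) (p + q) := by
  refine le_of_eq_of_le (congrArg _ ?_) (w.V.map_add_le h k)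
  simp only [Prod.fst_add, Prod.snd_add]
  push_cast
  ring

theorem Cg.smul (h : Cg w t x p) (c : ℤ) : Cg w t (c • x) (c • p) := by
  refine le_of_eq_of_le ?_ ((mul_le_mul' (w.V_int_le c) h).trans_eq (one_mul _))
  rw [← map_mul]
  refine congrArg _ ?_
  rw [zsmul_eq_mul x c]
  simp only [Prod.smul_fst, Prod.smul_snd, smul_eq_mul]
  push_cast
  ring

theorem le8 (ht : w.V t ≤ w.V 2) (c : ℤ) {i j : ℕ} (e : i + j = 3) :
    w.V (c * (2 ^ i * t ^ j)) ≤ w.V 8 := by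
  rw [show (8 : Qbar) = 2 ^ i * 2 ^ j by rw [← pow_add, e]; norm_num]
  simp only [map_mul, map_pow]
  exact (mul_le_mul' (w.V_int_le c) (mul_le_mul' le_rfl (pow_le_pow_left' ht j))).trans_eq
    (one_mul _)

theorem Cg.sh (ht : w.V t ≤ w.V 2) (h : Cg w t x p) : Cg w t (t * x) (sh p) := by
  have h1 : w.V t ≤ 1 := ht.trans (by exact_mod_cast w.V_int_le 2)
  have h2 := (mul_le_mul' h1 h).trans_eq (one_mul _)
  rw [← map_mul] at h2
  refine le_of_eq_of_le (congrArg _ ?_) (w.V.map_add_le h2 (le8 ht p.2.2 (zero_add 3)))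
  simp only [C3.sh]
  push_cast
  ring

theorem cg_tp (ht : w.V t ≤ w.V 2) : ∀ k, Cg w t (t ^ k) (tp k)
  | 0 => by simp [Cg, tp]
  | k + 1 => ((cg_tp ht k).sh ht).of_eq (pow_succ' t k)

theorem cg_fn {S : ℕ → Qbar} {T : ℕ → ℤ × ℤ × ℤ} (h : ∀ k, Cg w t (S k) (T k)) :
    ∀ (l : List ℤ) (k : ℕ), Cg w t (fn S l k) (fn T l k)
  | [], _ => by simp [Cg, fn]
  | c :: l, k => ((h k).smul c).add (cg_fn h l (k + 1))

theorem cg_it (ht : w.V t ≤ w.V 2) : ∀ (n m : ℕ) (A B C : ℤ × ℤ × ℤ), Cg w t (pw t m) A →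
    Cg w t (pw t (m + 1)) B → Cg w t (pw t (m + 2)) C → Cg w t (pw t (m + n)) (it3 n A B C)
  | 0, _, _, _, _, h, _, _ => h
  | n + 1, m, A, B, C, h0, h1, h2 => by
    rw [it3, show m + (n + 1) = m + 1 + n by omega]
    refine cg_it ht n (m + 1) _ _ _ h1 h2 (((((h2.sh ht).sh ht).add ((h1.sh ht).smul _)).add
      ((h0.smul _).add ((((h0.sh ht).sh ht).sh ht).smul _))).of_eq ?_)
    rw [show m + 1 + 2 = m + 3 from rfl, pw]
    simp only [zsmul_eq_mul]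
    push_cast
    ring

theorem cg_t1 (ht : w.V t ≤ w.V 2) (n : ℕ) : Cg w t (pw t n) (t1 n) := by
  have := cg_it ht n 0 _ _ _ (((cg_tp ht 0).smul 3).of_eq (by simp [pw])) (cg_tp ht 2)
    (((cg_tp ht 4).add ((cg_tp ht 1).smul (-18))).of_eq (by simp [pw, sub_eq_add_neg]))
  rwa [zero_add] at this

theorem Cg.le (ht : w.V t ≤ w.V 2) (h : Cg w t x p) (k : 8 ∣ p.1 ∧ 4 ∣ p.2.1 ∧ 2 ∣ p.2.2) :
    w.V x ≤ w.V 8 := by
  obtain ⟨⟨a, ha⟩, ⟨b, hb⟩, c, hc⟩ := k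
  refine le_of_eq_of_le (congrArg _ ?_) (w.V.map_add_le h (w.V.map_add_le
    (le8 ht a (add_zero 3)) (w.V.map_add_le (le8 ht b (i := 2) (j := 1) rfl)
      (le8 ht c (i := 1) (j := 2) rfl))))
  rw [ha, hb, hc]
  push_cast
  ring

theorem calc3 : ∀ p ∈ [t3 2 + (-2 : ℤ) • tp 1, t3 6 + (-4 : ℤ) • tp 0, t3 10],
    8 ∣ p.1 ∧ 4 ∣ p.2.1 ∧ 2 ∣ p.2.2 := by
  decide +kernel

end C3

open C3 in
theorem c3_stmt : C3Stmt := by
  intro w t S₁ S₂ S₃ _ ht ι κ _ _ a b u h1 h2 e1 e2 e3 e4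
  have hc : (Fintype.card ι : Qbar) = 3 := by simpa [pw] using (h1 0).symm.trans (e1 0)
  have k1 : ∀ n, Cg w t (S₁ n) (t1 n) := fun n => (cg_t1 ht n).of_eq (e1 n)
  have k2 : ∀ n, Cg w t (S₂ n) (t2 n) := fun n =>
    ((cg_fn k1 (pl n) 0).add ((cg_tp ht n).smul (-3))).of_eq (by
      rw [e2, Finset.sum_sub_distrib, sum_pw a h1]
      simp [hc, sub_eq_add_neg])
  have k3 : ∀ n, Cg w t (S₃ n) (t3 n) := fun n =>
    ((cg_fn k2 (pl n) 0).add ((k1 n).smul (-2))).of_eq (by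
      rw [e3, Finset.sum_sub_distrib, sum_pw b h2, e4]
      simp [sub_eq_add_neg])
  refine ⟨(((k3 2).add ((cg_tp ht 1).smul (-2))).of_eq ?_).le ht (calc3 _ (by simp)),
    (((k3 6).add ((cg_tp ht 0).smul (-4))).of_eq ?_).le ht (calc3 _ (by simp)),
    (k3 10).le ht (calc3 _ (by simp))⟩ <;> simp [sub_eq_add_neg]

end Pool.Agent.B6.D9
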