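import Pool.Agent.Lib.MP_696deb_nt.B7.D9v

/-! Power sums over half of a family. -/

set_option autoImplicit false

open scoped Classical NNReal

namespace Pool.Agent.B6.D9

open Pool.Agent.Lib.MP_696deb_nt Pool.Agent.Lib.MP_696deb_nt.B2

namespace C4

variable {w : Plc}

theorem v2 (hp : w.p = 2) : w.V 2 = 2⁻¹ := by simpa [hp] using w.hV

theorem vr (w : Plc) : w.V (rt 2) ^ 2 = w.V 2 := by rw [← map_pow, rt_sq]; simp

theorem r_lt (hp : w.p = 2) : w.V (rt 2) < 1 :=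
  lt_of_pow_lt_pow_left₀ 2 zero_le (by rw [vr, v2 hp, one_pow]; exact two_inv_lt_one)

theorem r_pos : 0 < w.V (rt 2) := (w.V.pos_iff).2 (b1b_rt_ne two_ne_zero)

theorem le2 (hp : w.p = 2) {x : Qbar} (hx : Fx (Ine w) x) (h : w.V x < 1) : w.V x ≤ w.V 2 := by
  rcases eq_or_ne x 0 with rfl | h0
  · simp
  obtain ⟨k, hk⟩ := V_of_fx_ine hx h0
  rw [hk, hp, ← zpow_neg, Nat.cast_ofNat] at h ⊢
  rw [v2 hp, ← zpow_neg_one]
  exact zpow_le_zpow_right₀ one_le_two (by have := (zpow_lt_one_iff_right₀ one_lt_two).1 h; omega)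

/-- The two summands have different valuations. -/
theorem mx (hp : w.p = 2) {x y : Qbar} (hx : Fx (Ine w) x) (hy : Fx (Ine w) y) :
    w.V x ≤ w.V (x + rt 2 * y) ∧ w.V (rt 2 * y) ≤ w.V (x + rt 2 * y) := by
  by_cases e : w.V x = w.V (rt 2 * y)
  · rcases eq_or_ne x 0 with rfl | h0
    · simp
    have y0 : y ≠ 0 := by
      rintro rfl
      exact h0 (by simpa using e)
    obtain ⟨k, hk⟩ := V_of_fx_ine hx h0
    obtain ⟨l, hl⟩ := V_of_fx_ine hy y0
    have : w.V x ^ 2 = w.V (rt 2 * y) ^ 2 := by rw [e]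
    rw [map_mul, mul_pow, vr, v2 hp, hk, hl, hp, Nat.cast_ofNat, ← zpow_neg, ← zpow_neg,
      ← zpow_neg_one, ← zpow_natCast, ← zpow_natCast, ← zpow_mul, ← zpow_mul,
      ← zpow_add₀ two_ne_zero] at this
    have := zpow_right_injective₀ two_pos one_lt_two.ne' this
    omega
  · rw [w.V.map_add_of_distinct_val e]
    exact ⟨le_max_left _ _, le_max_right _ _⟩

variable {ι : Type} [Fintype ι] {ε : ι → ℤˣ}

theorem half {f : ι → Qbar}
    (h : ∀ g ∈ Ine w, ∃ u : Equiv.Perm ι, ∀ i, g (f i) = f (u i) ∧ ε (u i) = chi 2 g * ε i) :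
    ∃ y, Fx (Ine w) ((∑ i, f i) / 2) ∧ Fx (Ine w) y ∧
      ∑ i with ε i = 1, f i = (∑ i, f i) / 2 + rt 2 * y := by
  have r0 := b1b_rt_ne (a := 2) two_ne_zero
  refine ⟨(∑ i, ((ε i : ℤ) : Qbar) * f i) / (2 * rt 2), fun g hg => ?_, fun g hg => ?_, ?_⟩
  · obtain ⟨u, hu⟩ := h g hg
    simp only [map_div₀, map_sum, map_ofNat, fun i => (hu i).1, Equiv.sum_comp u f]
  · obtain ⟨u, hu⟩ := h g hg
    have e : ∑ i, ((ε i : ℤ) : Qbar) * f i = (chi 2 g : ℤ) * ∑ i, ((ε i : ℤ) : Qbar) * f (u i) := by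
      rw [← Equiv.sum_comp u, Finset.mul_sum]
      exact Finset.sum_congr rfl fun i _ => by rw [(hu i).2]; push_cast; ring
    simp only [map_div₀, map_sum, map_mul, map_ofNat, map_intCast, fun i => (hu i).1,
      chi_spec (a := 2) (rt_sq 2) g]
    rw [e]
    rcases Int.units_eq_one_or (chi 2 g) with c | c <;> simp [c, div_neg, neg_div]
  · rw [show ∀ a b : Qbar, a / 2 + rt 2 * (b / (2 * rt 2)) = (a + b) / 2 from fun a b => by
      field_simp, ← Finset.sum_add_distrib, Finset.sum_filter, Finset.sum_div]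
    refine Finset.sum_congr rfl fun i _ => ?_
    rcases Int.units_eq_one_or (ε i) with c | c <;> simp [c]

omit [Fintype ι] in
theorem sq {s : ι → Qbar} (hs : ∀ i, w.V (s i) < 1) (t : Finset ι) :
    ∃ e, w.V e < 1 ∧ (∑ i ∈ t, s i) ^ 2 = ∑ i ∈ t, s i ^ 2 + 2 * e := by
  induction t using Finset.induction_on with
  | empty => exact ⟨0, by simp, by simp⟩
  | insert a t ha ih =>
    obtain ⟨e, h1, h2⟩ := ih
    refine ⟨e + s a * ∑ i ∈ t, s i, w.V.map_add_lt h1 ?_, ?_⟩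
    · rw [map_mul]
      exact mul_lt_one_of_nonneg_of_lt_one_left zero_le (hs a)
        (w.V.map_sum_le fun i _ => (hs i).le)
    · rw [Finset.sum_insert ha, Finset.sum_insert ha]
      linear_combination h2

end C4

open C4 in
theorem c4_stmt : C4Stmt := by
  intro w ι _ s ε hp h hs
  have r1 := r_lt hp
  have r0 := r_pos (w := w)
  have t0 : 0 < w.V 2 := vr w ▸ pow_pos r0 2
  have t1 : w.V 2 < w.V (rt 2) := by
    rw [← vr, pow_two]
    exact mul_lt_of_lt_one_right r0 r1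
  obtain ⟨y, hx, hy, e1⟩ := half h
  obtain ⟨y2, hx2, hy2, e2⟩ := half (f := fun i => s i ^ 2) (ε := ε) fun g hg =>
    (h g hg).imp fun u hu i => ⟨by rw [map_pow, (hu i).1], (hu i).2⟩
  obtain ⟨e, he, e3⟩ := sq hs (Finset.univ.filter fun i => ε i = 1)
  have a1 : w.V (∑ i with ε i = 1, s i) < 1 := w.V.map_sum_lt one_ne_zero fun i _ => hs i
  have a2 : w.V (∑ i with ε i = 1, s i) ≤ w.V (rt 2) := by
    obtain ⟨m1, m2⟩ := mx hp hx hy
    rw [← e1] at m1 m2
    have : w.V (2 * y) ≤ w.V 2 := le2 hp (fun g hg => by rw [map_mul, map_ofNat, hy g hg]) <| by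
      rw [map_mul, ← vr, pow_two, mul_assoc, ← map_mul]
      exact mul_lt_one_of_nonneg_of_lt_one_left zero_le r1 (m2.trans a1.le)
    rw [map_mul, mul_le_iff_le_one_right t0] at this
    rw [e1]
    refine w.V.map_add_le ((le2 hp hx (m1.trans_lt a1)).trans t1.le) ?_
    rw [map_mul]
    exact mul_le_of_le_one_right zero_le this
  have a3 : w.V (2 * e) < w.V 2 := by
    rw [map_mul]
    exact mul_lt_of_lt_one_right t0 he
  have a4 : w.V (∑ i with ε i = 1, s i ^ 2) ≤ w.V 2 := by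
    rw [eq_sub_of_add_eq e3.symm]
    refine w.V.map_sub_le ?_ a3.le
    rw [map_pow, ← vr]
    exact pow_le_pow_left₀ zero_le a2 2
  refine ⟨a4.trans_lt t1, fun β hβ hb => ?_⟩
  have a5 : w.V (rt 2 * y2) < w.V 2 := by
    have m := (mx hp hx2 hy2).2
    rw [← e2, map_mul] at m
    have m' := m.trans a4
    rw [← vr, pow_two, mul_le_mul_iff_right₀ r0] at m'
    rw [map_mul]
    exact (mul_le_mul_right (le2 hp hy2 (m'.trans_lt r1)) _).trans_lt
      (mul_lt_of_lt_one_left t0 r1)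
  have a6 : w.V ((∑ i, s i ^ 2) / 2 - 2 * β ^ 2) < w.V 2 := by
    rw [show ∑ i, s i ^ 2 - 4 * β ^ 2 = 2 * ((∑ i, s i ^ 2) / 2 - 2 * β ^ 2) by ring,
      show (4 : Qbar) = 2 * 2 by norm_num, map_mul, map_mul] at hb
    exact lt_of_mul_lt_mul_left hb zero_le
  generalize ∑ i with ε i = 1, s i = A at *
  by_contra hD
  rw [not_lt] at hD
  have a7 : w.V (2 * β * rt 2) < w.V (A - β * rt 2) := by
    rw [map_mul, map_mul]
    exact (mul_lt_of_lt_one_left r0
      ((mul_le_of_le_one_right zero_le hβ).trans_lt (t1.trans r1))).trans_le hD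
  have a8 : (A - β * rt 2) * (A - β * rt 2 + 2 * β * rt 2) =
      (∑ i, s i ^ 2) / 2 - 2 * β ^ 2 + rt 2 * y2 + 2 * e := by
    have := rt_sq 2
    push_cast at this
    linear_combination e3 + e2 - β ^ 2 * this
  have a9 := w.V.map_add_lt (w.V.map_add_lt a6 a5) a3
  rw [← a8, map_mul, w.V.map_add_eq_of_lt_left a7, ← vr, pow_two] at a9
  exact a9.not_ge (mul_le_mul' hD hD)

end Pool.Agent.B6.D9
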