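import Pool.Agent.Lib.MP_696deb_nt.B7.D9c

/-! Homogeneous coordinates for the modular parametrization. -/

set_option autoImplicit false

open scoped Classical
open Polynomial Filter Topology

namespace Pool.Agent.B6.D9

open Pool.Agent.Lib.MP_696deb_nt Pool.Agent.Lib.MP_696deb_nt.B2 Pool.Agent.Lib.MP_696deb_nt.B2.CM
open Pool.Agent.B4.GE

namespace Ch

/-- The zeros of a nonzero modular function lie over finitely many invariants. -/
theorem zeros {N : ℕ} (hN : N ≠ 0) {h : ℂ → ℂ} (hh : MF N h) {w : ℂ} (hw : 0 < w.im)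
    (h0 : h w ≠ 0) : ∃ m : ℂ[X], m ≠ 0 ∧ ∀ z : ℂ, 0 < z.im → h z = 0 → m.eval (jf z) = 0 := by
  obtain ⟨A, a1, a2⟩ := monic_rel hN hh
  obtain ⟨Q, q1, q2⟩ := exists_eq_pow_rootMultiplicity_mul_and_not_dvd A a1.ne_zero 0
  rw [map_zero, sub_zero] at q1 q2
  refine ⟨Q.coeff 0, mt X_dvd_iff.2 q2, fun z hz e => ?_⟩
  have k := mf_hol hN hh
  have : Q.evalEval (jf z) (h z) = 0 := by
    refine geb_eq (g := fun _ => 0) (geb_ev2 (B4.hol_jf z hz).continuousAt (k z hz).continuousAt Q)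
      continuousAt_const ?_
    filter_upwards [(B4.gb_nonconst k (fun c hc => h0 ((hc w hw).trans ((hc z hz).symm.trans e)))
      hz).eventually self_mem_nhdsWithin, mem_nhdsWithin_of_mem_nhds (B4.gb_ev hz)] with t t1 t2
    have := a2 t t2
    rw [q1, evalEval_mul, evalEval_pow, evalEval_X] at this
    exact (mul_eq_zero.1 this).resolve_left (pow_ne_zero _ (e ▸ t1))
  rwa [e, evalEval, C_0, ← coeff_zero_eq_eval_zero] at this

variable [Cw]

theorem cub_eq {R : Pt Wu ℂ} (h : R ≠ 0) :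
    cub (xco R) = (2 * yco R + (Wu.a₁ : ℂ) * xco R + (Wu.a₃ : ℂ)) ^ 2 := by
  rcases R with _ | ⟨x, y, k⟩
  · exact absurd rfl h
  have := dup2_eq k
  rw [dup2, Wu_b₂, Wu_b₄, Wu_b₆, Wu_a₁, Wu_a₃] at this
  change cub x = (2 * y + (Wu.a₁ : ℂ) * x + (Wu.a₃ : ℂ)) ^ 2
  simpa [cub, Wu] using this

theorem cub_fin : {x : ℂ | cub x = 0}.Finite := by
  have h : (C 4 * X ^ 3 + C (WZ.b₂ : ℂ) * X ^ 2 + C (2 * WZ.b₄ : ℂ) * X + C (WZ.b₆ : ℂ) : ℂ[X]) ≠ 0 :=
    Cubic.ne_zero_of_a_ne_zero (P := ⟨4, _, _, _⟩) (by norm_num)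
  exact (finite_setOfPred_isRoot h).subset fun x hx => by simpa [cub] using hx

/-- The equation of the curve in the chart. -/
theorem eqn {c μ : ℂ} {R : Pt Wu ℂ} (h : μ = 0 ∨ Fn c R) :
    (μ * (μ * cv c R)) ^ 2 = μ * cu c R * cF (c * (μ * cu c R) + μ) (μ * cu c R) := by
  rcases h with rfl | h
  · simp
  by_cases h0 : R = 0
  · simp [cv, cu, h0]
  have h1 := sub_ne_zero.2 (h.resolve_left h0)
  have h2 := cub_eq h0
  rw [cub] at h2
  have h3 : c * (μ * (xco R - c)⁻¹) + μ = xco R * (μ * (xco R - c)⁻¹) := by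
    field_simp
    ring
  rw [cv, cu, if_neg h0, h3, cF]
  linear_combination -(μ * (xco R - c)⁻¹) ^ 4 * h2

/-- The chart away from the points of order two. -/
theorem ne_iff {c μ : ℂ} {R : Pt Wu ℂ} (h : μ = 0 ∨ Fn c R) : μ * (μ * cv c R) ≠ 0 ↔
    μ * cu c R ≠ 0 ∧ R ≠ 0 ∧ cub (xco R) ≠ 0 ∧ xco R * (μ * cu c R) = c * (μ * cu c R) + μ := by
  rcases h with rfl | h
  · simp
  by_cases h0 : R = 0
  · simp [cv, cu, h0]
  have h1 := sub_ne_zero.2 (h.resolve_left h0)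
  have h3 : xco R * (μ * (xco R - c)⁻¹) = c * (μ * (xco R - c)⁻¹) + μ := by
    field_simp
    ring
  rw [cv, cu, if_neg h0, cub_eq h0]
  simp [h0, h1, h3]

end Ch

theorem ch_stmt [Cw] : ChStmt := fun N P => by
  obtain ⟨T, -⟩ := G5.exists_chart P 0
  have hm := mul_ne_zero T.e0 T.b0
  have f : ∀ z : ℂ, 0 < z.im → aeval (jf z) (T.e * T.b) = 0 ∨ Fn (T.c : ℂ) (P.φ z) := fun z hz =>
    or_iff_not_imp_left.2 fun h => T.fn z hz fun e => h (by rw [map_mul, e, mul_zero])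
  have r : ∀ i (z : ℂ), 0 < z.im → aevalAeval (jf z) (jN N z) (T.A i) =
      aeval (jf z) (T.e * T.b) * ch (T.c : ℂ) i (P.φ z) := fun i z hz => by
    rw [← (T.rf i).rel z hz, map_mul, mul_assoc]
  have eZ : ∀ z : ℂ, 0 < z.im → aevalAeval (jf z) (jN N z) (T.A true) =
      aeval (jf z) (T.e * T.b) * cu (T.c : ℂ) (P.φ z) := r true
  have eX : ∀ z : ℂ, 0 < z.im →
      aevalAeval (jf z) (jN N z) (C (C T.c) * T.A true + C (T.e * T.b)) =
      T.c * (aeval (jf z) (T.e * T.b) * cu (T.c : ℂ) (P.φ z)) + aeval (jf z) (T.e * T.b) :=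
    fun z hz => by rw [map_add, map_mul, aevalAeval_C, aevalAeval_C, aeval_C, eq_intCast, eZ z hz]
  have eW : ∀ z : ℂ, 0 < z.im → aevalAeval (jf z) (jN N z) (C (T.e * T.b) * T.A false) =
      aeval (jf z) (T.e * T.b) * (aeval (jf z) (T.e * T.b) * cv (T.c : ℂ) (P.φ z)) :=
    fun z hz => by
      rw [map_mul, aevalAeval_C, r false z hz]
      rfl
  obtain ⟨x, hx⟩ := (((P.CV_finite.union (P.fib_finite hm)).image xco).union
    Ch.cub_fin).exists_notMem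
  obtain ⟨w, w1, w2⟩ := P.x_surj x fun R hR => .inr fun e => hx (.inl ⟨R, .inl hR, e⟩)
  obtain ⟨w3, w4⟩ := not_or.1 w2
  rw [not_not] at w4
  have w5 : aeval (jf w) (T.e * T.b) ≠ 0 := fun e => hx (.inl ⟨_, .inr ⟨w, w1, e, rfl⟩, w4⟩)
  have w6 := sub_ne_zero.2 (((f w w1).resolve_left w5).resolve_left w3)
  obtain ⟨m, m0, hz⟩ := Ch.zeros P.N0 (((gf_jf (A := ⊤) P.N0).aeval (gf_jN dvd_rfl P.N0)
    (C (T.e * T.b) * T.A false)).1.mf) w1 (by
      rw [eW w w1, cv, cu, if_neg w3]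
      refine mul_ne_zero w5 (mul_ne_zero w5 (mul_ne_zero (fun e => hx (.inr ?_))
        (pow_ne_zero _ (inv_ne_zero w6))))
      rw [Set.mem_ofPred_eq, ← w4, Ch.cub_eq w3, e, zero_pow two_ne_zero])
  obtain ⟨B, hB⟩ := B4.exists_bound m0
  refine ⟨C (C T.c) * T.A true + C (T.e * T.b), T.A true, C (T.e * T.b) * T.A false, B,
    fun z k => ?_, fun n c z ok hn k iv => ?_⟩
  · rw [eW z k, eX z k, eZ z k]
    exact Ch.eqn (f z k)
  have h1 := mt (hz z k) (by simpa only [jP_cl ok iv, jL_tau k] using hB n hn c ok (cl _ (sp2 z 1)))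
  refine ⟨h1, ?_⟩
  rw [eX z k, eZ z k]
  exact (Ch.ne_iff (f z k)).1 (eW z k ▸ h1)

end Pool.Agent.B6.D9
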