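import Pool.Agent.Lib.MP_696deb_nt.B7.D9c
import Pool.Agent.Lib.MP_696deb_nt.B5.GAa

/-! Values at the points of a disc are values of the expansion at its centre. -/

set_option autoImplicit false

open scoped Classical

namespace Pool.Agent.B6.D9

open Pool.Agent.Lib.MP_696deb_nt Pool.Agent.Lib.MP_696deb_nt.B2 Pool.Agent.Lib.MP_696deb_nt.B2.CM
open Pool.Agent.B4.GE (jN)

namespace Ct

variable {L q c : ℕ} {r : ℤ} {w : Plc} {A : ValuationSubring ℂ} {h : ℂ → ℂ} {σ : Gam}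

theorem jC_hv (a : HvStmt) (C : Cx L q r w A) (hc : c ≠ 0) (hh : Gf A L h) (u : Pc q c) :
    jC (hv L q c r h u) = h (hp L q c r u) := by
  obtain ⟨h1, h2⟩ := hp_spec (C.ok.of_ne hc) u
  have := (a L q c r w A h C hc hh).1 _ h1
  rwa [h2] at this

theorem trans_lt {x y z : Qbar} (h1 : w.V (x - y) < 1) (h2 : w.V (y - z) < 1) :
    w.V (x - z) < 1 := by
  rw [← sub_add_sub_cancel x y z]
  exact w.V.map_add_lt h1 h2

theorem sq_lt {x y : Qbar} (hx : w.V x ≤ 1) (hy : w.V y ≤ 1) (h1 : w.V (x - y) < 1) :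
    w.V (x ^ 2 - y ^ 2) < 1 := by
  rw [show x ^ 2 - y ^ 2 = (x - y) * (x + y) by ring, map_mul]
  exact (mul_le_of_le_one_right' (w.V.map_add_le hx hy)).trans_lt h1

theorem near (a : HvStmt) (b : KrStmt) (C : Cx L q r w A) (f : IsFrob w 2 σ) (hh : Gf A L h)
    (hc : c = 2 ∨ c = 8) (v : Pc q c) :
    w.V (hv L q c r h v - σ (hv L q 1 r h (pj q 1 c v))) < 1 := by
  have k : ∀ v : Pc q 2, w.V (hv L q 2 r h v - σ (hv L q 1 r h (pj q 1 2 v))) < 1 := fun v =>
    trans_lt ((b L q 1 2 r w A h C one_ne_zero rfl hh).2 v) (by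
      rw [w.V.map_sub_swap]
      exact f.2 _ ((a L q 1 r w A h C one_ne_zero hh).2.1 _))
  rcases hc with rfl | rfl
  · exact k v
  · have h1 := (b L q 4 8 r w A h C (by decide) rfl hh).2 v
    have h2 := (b L q 2 4 r w A h C (by decide) rfl hh).2 (pj q 4 8 v)
    have h3 := (b L q 2 4 r w A h C (by decide) rfl hh).1 (pj q 2 4 (pj q 4 8 v))
    have h4 := k (pj q 2 4 (pj q 4 8 v))
    have h5 := (a L q 2 r w A h C (by decide) hh).2.1 (pj q 2 4 (pj q 4 8 v))
    have h6 := sq_lt ((a L q 4 r w A h C (by decide) hh).2.1 _)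
      (by rw [map_pow]; exact pow_le_one' h5 2) h2
    rw [← pow_mul] at h6
    have e : pj q 1 2 (pj q 2 4 (pj q 4 8 v)) = pj q 1 8 v := by
      rw [pj_pj (by decide) (by decide), pj_pj (by decide) (by decide)]
    rw [e] at h4
    exact trans_lt h1 (trans_lt h6 (trans_lt h3 h4))

end Ct

open Ct in
theorem ct_stmt (hHv : HvStmt) (hKr : KrStmt) (hTr : TrStmt) (hDim : DimStmt) (hDcq : DcqStmt)
    (hTim : TimStmt) : CtStmt := by
  intro L q r w A σ u C f
  have hL : A.valuation L = 1 := val_odd (over_two C.ov C.p2) C.odd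
  have h0 := ne_of_val hL
  obtain ⟨s, hs⟩ := exists_ex σ
  obtain ⟨z, hz⟩ := G5.exists_pc G5.jf_surj h0 s (hp_spec C.ok u).1.pos
  have ev : ∀ h, Gf A L h → jC (σ (hv L q 1 r h u)) = h z := fun h hh => by
    rw [← hs, jC_hv hHv C one_ne_zero hh, hz.ev h h (hh.2 s)]
  have dv : ∀ h, Gf A L h → ∀ n, Gf A L (Dv n h) := fun h hh n => hh.dv hDim hDcq C.nine hL n
  refine ⟨⟨z, hz.pos', fun h hh => ?_⟩, fun c hc v huv h hh K => ?_⟩
  · ext n
    rw [PowerSeries.coeff_map, sr, Ty, PowerSeries.coeff_mk, PowerSeries.coeff_mk, ev _ (dv h hh n)]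
  have c0 : c ≠ 0 := by omega
  have ht := hTim A L C.nine hL
  have nr : ∀ h, Gf A L h → A.valuation (h (hp L q c r v) - h z) < 1 := fun h hh => by
    rw [← ev h hh, ← jC_hv hHv C c0 hh, ← map_sub, (C.ov _).2, ← huv]
    exact near hHv hKr C f hh hc v
  have e : tt (hp L q c r v) - tt z = jC (hv L q c r tt v - σ (hv L q 1 r tt u)) := by
    rw [map_sub, ev _ ht, jC_hv hHv C c0 ht]
  have j1 : A.valuation (jf z) ≤ 1 := by
    rw [← ev _ (gf_jf h0), (C.ov _).1, mem_Dec.1 f.1]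
    exact (hHv L q 1 r w A _ C one_ne_zero (gf_jf h0)).2.1 u
  have j2 : A.valuation (jf (hp L q c r v)) ≤ 1 := by
    rw [← jC_hv hHv C c0 (gf_jf h0), (C.ov _).1]
    exact (hHv L q c r w A _ C c0 (gf_jf h0)).2.1 v
  have k := hTr A L z (hp L q c r v) C.nine hL hz.pos' (hp_spec (C.ok.of_ne c0) v).1.pos j1 j2
    (nr _ ht) (by
      rcases eq_or_ne (hv L q c r tt v - σ (hv L q 1 r tt u)) 0 with e0 | e0
      · rw [e0, map_zero, sub_eq_zero] at e
        exact Or.inl e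
      · rw [e]
        exact Or.inr (ar_le C.ov C.p2 C.ar e0))
    (fun n => nr _ (dv _ (gf_jN dvd_rfl h0) n)) h hh.1 K
  rw [← map_pow, ← over_le C.ov, map_pow, map_pow, ← e, map_sub, jC_hv hHv C c0 hh, tv, map_sum]
  refine le_of_eq_of_le ?_ k
  congr 2
  refine Finset.sum_congr rfl fun n _ => ?_
  rw [map_mul, map_pow, ← e, sr, PowerSeries.coeff_mk, ev _ (dv h hh n)]

end Pool.Agent.B6.D9
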