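import Pool.Agent.Lib.MP_696deb_nt.B7.D9a

/-! Conjugate functions have conjugate derivatives. -/

set_option autoImplicit false

open scoped Real

namespace Pool.Agent.B6.D9

open Pool.Agent.Lib.MP_696deb_nt Pool.Agent.B4.GE
open Pool.Agent.G5 (Cq Cg)

namespace Dcq

theorem qe_der {n : ℕ} {F : ℂ → ℂ} {A : PowerSeries ℂ} (h : QE (fun z => q1 z ^ n * F z) A) :
    QE (fun z => q1 z ^ n * (deriv F z / (2 * π * Complex.I)))
      (PowerSeries.X * PowerSeries.derivative ℂ A - PowerSeries.C (n : ℂ) * A) := by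
  obtain ⟨G, g1, g2⟩ := h.hasDerivAt
  refine (g1.sub (h.smul n)).congr fun z hz => ?_
  have e := (g2 z hz).unique
    (((hasDerivAt_q1 z).fun_pow n).fun_mul (hol_of_pow_mul h z hz).hasDerivAt)
  have k : (n : ℂ) * q1 z ^ (n - 1) * q1 z = n * q1 z ^ n := by cases n <;> simp [pow_succ, mul_assoc]
  rw [← mul_div_assoc, div_eq_iff Complex.two_pi_I_ne_zero]
  linear_combination -e - 2 * π * Complex.I * F z * k

theorem cq_der {σ : ℂ ≃+* ℂ} {f f' : ℂ → ℂ} (h : Cq σ f f') :
    Cq σ (fun z => deriv f z / (2 * π * Complex.I)) fun z => deriv f' z / (2 * π * Complex.I) := by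
  obtain ⟨n, A, a, a'⟩ := h
  refine ⟨n, _, qe_der a, ?_⟩
  convert qe_der a'
  ext k
  cases k <;> simp [PowerSeries.coeff_succ_X_mul, PowerSeries.coeff_derivative]

end Dcq

theorem dcq_stmt (hDim : DimStmt) (hTex : TexStmt) (hDer : DerStmt) : DcqStmt := by
  intro L n σ h h' h9 L0 H
  obtain ⟨R, hR⟩ := hTex
  have ct : Cq σ _ _ := Dcq.cq_der (G5.LZ.cq ⟨1, _, hR⟩)
  have mf : ∀ {f}, MF L f → MF L (dd f) := fun {f} m => B5.mf_congr L0
    (hDim ⊤ L 1 f h9 (val_top (Nat.cast_ne_zero.2 L0)) (im_top m)).mf fun z _ => (dv_one f z).symm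
  have e : ∀ (f : ℂ → ℂ) (z : ℂ), 0 < z.im → deriv tt z / (2 * π * Complex.I) * dd f z =
      deriv f z / (2 * π * Complex.I) := fun f z hz => by
    rw [dd, mul_comm, ← mul_div_assoc, div_mul_cancel₀ _ (deriv_tt_ne hDer hz)]
  have k : Cg L σ (dd^[n] h) (dd^[n] h') := by
    induction n with
    | zero => exact H
    | succ n ih =>
      rw [Function.iterate_succ_apply', Function.iterate_succ_apply']
      exact ⟨mf ih.mf, mf ih.mf', ct.cancel ((Dcq.cq_der ih.ex).congr (e _) (e _))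
        (B5.mf_le L0 (mf ih.mf)) (B5.mf_le L0 (mf ih.mf')) (z := Complex.I) (by simp)
        (div_ne_zero (deriv_tt_ne hDer (by simp)) Complex.two_pi_I_ne_zero)⟩
  have := k.mul (G5.cg_const (n.factorial : ℂ)⁻¹)
  simp only [map_inv₀, map_natCast, ← div_eq_mul_inv] at this
  exact this

end Pool.Agent.B6.D9
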