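import Pool.Agent.Lib.MP_696deb_nt.B7.D9a

/-! The derivative of the coordinate is an eta quotient. -/

set_option autoImplicit false

open Filter Topology
open scoped Classical Real

namespace Pool.Agent.B6.D9

open Pool.Agent.Lib.MP_696deb_nt Pool.Agent.B4.GE

namespace Der

variable {g k : MZ} {z : ℂ}

/-- The quotient of the two sides. -/
noncomputable def G (z : ℂ) : ℂ :=
  (deriv tt z / (2 * π * Complex.I)) ^ 12 * Dl ((9 : ℕ) * z) ^ 3 / Dl ((3 : ℕ) * z) ^ 5

theorem dl_lim {r : ℝ} (hr : 0 < r) (c : ℂ) :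
    Tendsto (fun z : ℂ => Dl (r * z + c) / q1 (r * z)) atI (𝓝 (q1 c)) := by
  have h := ((qe_P1.pow 24).tendsto.comp (tendsto_affine hr c)).const_mul (q1 c)
  rw [← map_pow, cc_toC, map_pow, cc_P1] at h
  simp only [one_pow, Int.cast_one, mul_one] at h
  refine h.congr fun z => ?_
  have := q1_ne (r * z)
  rw [Dl_eq, q1_add, Function.comp_apply, q1_add]
  field_simp

theorem dl_act {N a b d : ℕ} (hk : k.det = 1) (hg : g.det = 1) (hN : a * d = N) (h0 : N ≠ 0)
    (h : ut N 0 1 * g = k * ut a b d) (hz : 0 < z.im) :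
    Dl (N * act g z) = (den g z / d) ^ 12 * Dl ((a / d : ℝ) * z + b / d) := by
  have h1 : 0 < (ut a b d).det := by
    rw [det_ut]
    exact_mod_cast hN ▸ Nat.pos_of_ne_zero h0
  have d0 : (d : ℂ) ≠ 0 := by exact_mod_cast right_ne_zero_of_mul (hN ▸ h0)
  have h2 := den_mul (ut N 0 1) (N := g) (by omega) hz
  rw [h, den_mul _ h1.ne' hz] at h2
  have h3 : act (ut a b d) z = (a / d : ℝ) * z + b / d := by
    simp only [ut, act_of, mob]
    push_cast
    rw [zero_mul, zero_add]
    field_simp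
  rw [← act_dg, ← act_mul _ (by omega) hz, h, act_mul _ h1.ne' hz, Dl_act hk (act_pos h1 hz), ← h3]
  congr 2
  rw [eq_div_iff d0]
  simpa [den, ut] using h2

theorem chain (hh : Hol tt) (hg : g.det = 1) (hz : 0 < z.im) :
    deriv tt (act g z) = den g z ^ 2 * deriv (fun u => tt (act g u)) z := by
  have h1 : g 0 0 * g 1 1 - g 0 1 * g 1 0 = 1 := by rwa [Matrix.det_fin_two] at hg
  have h2 := (hh _ (act_pos (by omega) hz)).hasDerivAt.comp z
    (h := act g) (hasDerivAt_mob (by omega) hz)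
  have h3 := den_ne' (M := g) (by omega) hz
  rw [show (fun u => tt (act g u)) = tt ∘ act g from rfl, h2.deriv, h1]
  simp only [den] at h3 ⊢
  field_simp
  simp

theorem G_act (hh : Hol tt) {a b d a' b' d' : ℕ} {k' : MZ} (hg : g.det = 1) (hk : k.det = 1)
    (hk' : k'.det = 1) (hN : a * d = 9) (hN' : a' * d' = 3) (h : ut 9 0 1 * g = k * ut a b d)
    (h' : ut 3 0 1 * g = k' * ut a' b' d') (hz : 0 < z.im) :
    G (act g z) = (d' ^ 60 / d ^ 36) * ((deriv (fun u => tt (act g u)) z / (2 * π * Complex.I)) ^ 12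
      * Dl ((a / d : ℝ) * z + b / d) ^ 3 / Dl ((a' / d' : ℝ) * z + b' / d') ^ 5) := by
  have h3 := den_ne' (M := g) (by omega) hz
  have d0 : (d' : ℂ) ≠ 0 := by exact_mod_cast right_ne_zero_of_mul (hN' ▸ three_ne_zero)
  rw [G, chain hh hg hz, dl_act hk hg hN (by decide) h hz, dl_act hk' hg hN' (by decide) h' hz]
  field_simp

theorem split {s r r' : ℝ} (h : 12 * s + 3 * r = 5 * r') (F A B z : ℂ) :
    F ^ 12 * A ^ 3 / B ^ 5 =
      (F / q1 (s * z)) ^ 12 * ((A / q1 (r * z)) ^ 3 / (B / q1 (r' * z)) ^ 5) := by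
  have h1 : q1 (s * z) ^ 12 * q1 (r * z) ^ 3 = q1 (r' * z) ^ 5 := by
    rw [← q1_nat_mul, ← q1_nat_mul, ← q1_nat_mul, ← q1_add]
    congr 1
    have : (12 * s + 3 * r : ℂ) = 5 * r' := by exact_mod_cast h
    push_cast
    linear_combination z * this
  have h2 := q1_ne (s * z)
  have h3 := q1_ne (r * z)
  rw [div_pow B, ← h1]
  generalize q1 (s * z) = x, q1 (r * z) = y at h2 h3
  field_simp

theorem bdd {F : ℂ → ℂ} {s r r' : ℝ} (hr : 0 < r) (hr' : 0 < r') (h : 12 * s + 3 * r = 5 * r')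
    (hF : Bdd fun z => F z / q1 (s * z)) (c c' : ℂ) :
    Bdd fun z => F z ^ 12 * Dl (r * z + c) ^ 3 / Dl (r' * z + c') ^ 5 := by
  have h1 : Bdd fun z => (F z / q1 (s * z)) ^ 12 := by simpa [Bdd] using hF.pow 12
  exact (h1.mul (Bdd.of_tendsto (((dl_lim hr c).pow 3).div ((dl_lim hr' c').pow 5)
    (pow_ne_zero _ (q1_ne _))))).congr fun z _ => split h _ _ _ z

/-- The derivative of a bounded periodic function decays. -/
theorem decay {T : ℂ → ℂ} (hT : Hol T) (hb : Bdd T) {n : ℕ} (hn : n ≠ 0)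
    (hp : ∀ z : ℂ, 0 < z.im → T (n * (z + 1)) = T (n * z)) :
    Bdd fun z => deriv T z / (2 * π * Complex.I) / q1 ((1 / n : ℝ) * z) := by
  have n0 : (n : ℂ) ≠ 0 := by exact_mod_cast hn
  have n1 : (0 : ℝ) < n := by positivity
  obtain ⟨A, hA⟩ := QE.exists_of_periodic (F := fun z => T (n * z))
    (fun z hz => (hT _ (ga_pos hn hz)).comp z (by fun_prop)) hp
    (by simpa using hb.comp_affine n1 0)
  obtain ⟨F, h1, h2⟩ := hA.hasDerivAt
  have h3 := (QE.of_X_pow_mul (m := 1) (by simpa using h1)).bdd.comp_affine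
    (one_div_pos.2 n1) 0
  refine ((Bdd.const (1 / n)).mul h3).congr fun z hz => ?_
  have e : (n : ℂ) * ((1 / n : ℝ) * z) = z := by
    push_cast
    field_simp
  have p : 0 < (((1 / n : ℝ) : ℂ) * z).im := by
    rw [Complex.im_ofReal_mul]
    positivity
  have h4 := (h2 _ p).unique ((hT _ (ga_pos hn p)).hasDerivAt.comp _
    ((hasDerivAt_id _).const_mul (n : ℂ)))
  have := Complex.two_pi_I_ne_zero
  have := q1_ne ((1 / n : ℝ) * z)
  rw [e] at h4
  rw [add_zero, pow_one]
  field_simp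
  linear_combination -h4

theorem dg {N a b d : ℕ} (hk : k.det = 1) (hN : a * d = N) (h0 : N ≠ 0)
    (h : ut N 0 1 * g = k * ut a b d) : ∃ m : ℤ, g 1 0 = m * a ∧ IsCoprime (d : ℤ) m := by
  have h1 : g 1 0 = k 1 0 * a := by simpa [ut, Matrix.mul_apply] using congrFun (congrFun h 1) 0
  have h2 : N * g 0 0 = k 0 0 * a := by simpa [ut, Matrix.mul_apply] using congrFun (congrFun h 0) 0
  have h3 : k 0 0 = d * g 0 0 := by
    refine mul_right_cancel₀ (Int.natCast_ne_zero.2 (left_ne_zero_of_mul (hN ▸ h0))) ?_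
    rw [← h2, ← hN]
    push_cast
    ring
  rw [Matrix.det_fin_two, h3] at hk
  exact ⟨_, h1, g 0 0 * k 1 1, -k 0 1, by linear_combination hk⟩

theorem lim (hT : TexStmt) : Tendsto G atI (𝓝 1) := by
  obtain ⟨R, hR⟩ := hT
  have hh := hol_of_pow_mul hR
  obtain ⟨F, h1, h2⟩ := hR.hasDerivAt
  have h3 := (h1.tendsto.sub hR.tendsto).pow 12
  have h4 := ((dl_lim (r := 9) (by norm_num) 0).pow 3).div ((dl_lim (r := 3) (by norm_num) 0).pow 5)
    (pow_ne_zero _ (q1_ne _))
  have h5 := h3.mul h4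
  rw [cc_toC] at h5
  simp only [q1, mul_zero, Complex.exp_zero, one_pow, div_one, mul_one, add_zero,
    PowerSeries.coeff_zero_X_mul, map_add, map_sub, map_mul, map_pow, map_one,
    PowerSeries.constantCoeff_X, ne_eq, OfNat.ofNat_ne_zero, not_false_eq_true, zero_pow, zero_mul,
    sub_zero, Int.cast_one, zero_sub, Even.neg_pow (by decide : Even 12)] at h5
  refine h5.congr' (ev_pos.mono fun z hz => ?_)
  have h6 := (h2 z hz).unique (((hasDerivAt_q1 z).pow 1).mul (hh z hz).hasDerivAt)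
  have h7 : q1 z * q1 ((-1 : ℝ) * z) = 1 := by
    rw [← q1_add]
    simp [q1]
  rw [G, split (s := -1) (r := 9) (r' := 3) (by norm_num) _ _ _ z]
  congr 2
  simp only [Nat.cast_one, tsub_self, pow_zero, Pi.pow_apply, pow_one, mul_one, one_mul] at h6 ⊢
  rw [div_div, eq_div_iff (mul_ne_zero Complex.two_pi_I_ne_zero (q1_ne _)), ← q1]
  linear_combination q1 ((-1 : ℝ) * z) * h6 + deriv tt z * h7

end Der

open Der in
theorem der_stmt (hI : InvStmt) (hT : TexStmt) (hC : CuspStmt) : DerStmt := by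
  have hh : Hol tt := hT.elim fun _ h => hol_of_pow_mul h
  have hi : Inv0 9 G := fun g hg z hz => by
    obtain ⟨k, h1, h2⟩ := hg.conj
    obtain ⟨k', h3, h4⟩ := G0.conj (N := 3) ⟨hg.1, (show (3 : ℤ) ∣ 9 by decide).trans hg.2⟩
    have e : (fun u => tt (act g u)) =ᶠ[𝓝 z] tt := (B4.gb_ev hz).mono fun u hu => hI g hg u hu
    rw [G_act hh hg.1 h1 h3 rfl rfl h2 h4 hz, e.deriv_eq, G]
    simp
  have hD : ∀ n : ℕ, n ≠ 0 → Hol fun z => Dl (n * z) := fun n hn z hz =>
    (qe_Dl.hol _ (ga_pos hn hz)).comp z (by fun_prop)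
  obtain ⟨c, hc⟩ := const_of_inv 9 (h := G) (fun z hz =>
    ((((B4.gb_an hh hz).deriv.differentiableAt.div_const _).pow 12).mul
      ((hD 9 (by decide) z hz).pow 3)).div ((hD 3 (by decide) z hz).pow 5)
      (pow_ne_zero _ (Dl_ne (ga_pos (by decide) hz))))
    (fun a b c d h z hz => hi !![a, b; (9 : ℕ) * c, d] ⟨by simpa using h, by simp⟩ z hz)
    fun a b c d h => by
      obtain ⟨g, hg, e⟩ : ∃ g : MZ, g.det = 1 ∧ act g = mob a b c d :=
        ⟨!![a, b; c, d], by simpa using h, rfl⟩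
      rw [← e]
      by_cases h0 : G0 9 g
      · exact (Bdd.of_tendsto (lim hT)).congr (hi g h0)
      obtain ⟨e, ⟨B, h1, -⟩, h2⟩ := hC ⊤ (val_top (by norm_num)) g hg
      have h3 : Bdd fun z => tt (act g z) := by
        have h4 := ((Bdd.const 3).add ((QE.q.pow (-e).toNat).bdd.mul h1.bdd)).comp_affine
          (r := 1 / 9) (by norm_num) 0
        refine h4.congr fun z _ => ?_
        rw [← mul_assoc, ← zpow_natCast, Int.toNat_of_nonneg (by have := h2 h0; omega),
          ← zpow_add₀ (q1_ne _), neg_add_cancel, zpow_zero, one_mul, tt]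
        congr 3
        push_cast
        ring
      have h4 : Hol fun z => tt (act g z) := fun z hz =>
        (hh _ (act_pos (by omega) hz)).comp z (hol_act (by omega) z hz)
      obtain ⟨a, b, d, k, n1, k1, e1⟩ := exists_dg (N := 9) (by decide) hg
      obtain ⟨a', b', d', k', n2, k2, e2⟩ := exists_dg (N := 3) (by decide) hg
      obtain ⟨m, m1, u, v, m2⟩ := dg k1 n1 (by decide) e1
      obtain ⟨m', m3, u', v', m4⟩ := dg k2 n2 (by decide) e2
      refine ((Bdd.const _).mul ?_).congr fun z hz => G_act hh hg k1 k2 n1 n2 e1 e2 hz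
      have c1 : a = 1 ∧ d = 9 ∨ a = 3 ∧ d = 3 ∨ a = 9 ∧ d = 1 := by
        have := Nat.le_of_dvd (by decide) (Dvd.intro _ n1)
        interval_cases a <;> omega
      have c2 : a' = 1 ∧ d' = 3 ∨ a' = 3 ∧ d' = 1 := by
        have := Nat.le_of_dvd (by decide) (Dvd.intro _ n2)
        interval_cases a' <;> omega
      rcases c1 with ⟨rfl, rfl⟩ | ⟨rfl, rfl⟩ | ⟨rfl, rfl⟩
      · rcases c2 with ⟨rfl, rfl⟩ | ⟨rfl, rfl⟩
        · exact bdd (by norm_num) (by norm_num) (by norm_num)
            (decay h4 h3 (n := 9) (by decide) fun z hz => hI.periodic hg dvd_rfl (by decide) hz) _ _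
        · have : 3 * (3 * u + v * m') = 1 := by
            push_cast at *
            linear_combination m2 + v * m1 - v * m3
          omega
      · rcases c2 with ⟨rfl, rfl⟩ | ⟨rfl, rfl⟩
        · have : 3 * (u' + v' * m) = 1 := by
            push_cast at *
            linear_combination m4 + v' * m3 - v' * m1
          omega
        · refine bdd (by norm_num) (by norm_num) (by norm_num)
            (decay h4 h3 (n := 1) (by decide) fun z hz => ?_) _ _
          have h5 : g * ut 1 1 1 = g * ut 1 1 1 * g.adjugate * g := by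
            rw [mul_assoc _ _ g, Matrix.adjugate_mul, hg, one_smul, mul_one]
          have h6 : ((1 : ℕ) : ℂ) * (z + 1) = act (ut 1 1 1) z := by simp [ut, act_of, mob]
          rw [h6, ← act_mul _ (by simp [det_ut]) hz, h5, act_mul _ (by omega) hz, Nat.cast_one,
            one_mul]
          refine hI _ ⟨by simp [hg, det_ut, det_adjugate_two], -m ^ 2, ?_⟩ _ (act_pos (by omega) hz)
          simp [ut, Matrix.mul_apply, Matrix.adjugate_fin_two, m1]
          ring
      · exact absurd ⟨hg, m, by rw [m1, mul_comm]⟩ h0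
  have h1 : c = 1 := tendsto_nhds_unique (tendsto_const_nhds.congr'
    (ev_pos.mono fun z hz => (hc z hz).symm)) (lim hT)
  intro z hz
  have h2 := hc z hz
  rw [G, h1, div_eq_one_iff_eq (pow_ne_zero _ (Dl_ne (ga_pos (by decide) hz)))] at h2
  exact_mod_cast h2

end Pool.Agent.B6.D9
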