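import Pool.Agent.Lib.MP_696deb_nt.B7.D9a

/-! Divided derivatives of integral modular functions are integral. -/

set_option autoImplicit false

open Filter Topology Complex
open scoped Classical Real

namespace Pool.Agent.B6.D9

open Pool.Agent.Lib.MP_696deb_nt Pool.Agent.B4.GE

namespace Dim

variable {F G φ : ℂ → ℂ} {z : ℂ}

theorem ev (e : ∀ z : ℂ, 0 < z.im → G z = F z) (hz : 0 < z.im) : G =ᶠ[𝓝 z] F := by
  filter_upwards [(isOpen_lt continuous_const Complex.continuous_im).mem_nhds hz] with w hw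
  exact e w hw

theorem hol_congr (h : Hol F) (e : ∀ z : ℂ, 0 < z.im → G z = F z) : Hol G := fun z hz =>
  (h z hz).congr_of_eventuallyEq (ev e hz)

theorem hol_deriv (h : Hol F) : Hol (deriv F) := fun _ hz => (B4.gb_an h hz).deriv.differentiableAt

theorem chain (h : Hol F) {c : ℂ} (hz : 0 < z.im) (hp : 0 < (φ z).im) (hc : HasDerivAt φ c z)
    (e : ∀ z : ℂ, 0 < z.im → G z = F (φ z)) : deriv G z = deriv F (φ z) * c := by
  rw [(ev e hz).deriv_eq]
  exact ((h _ hp).hasDerivAt.comp z hc).deriv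

theorem der_act {g : MZ} (hg : g.det = 1) (hz : 0 < z.im) : ∃ c ≠ 0, HasDerivAt (act g) c z := by
  rw [Matrix.det_fin_two] at hg
  have h : g 0 0 * g 1 1 - g 0 1 * g 1 0 ≠ 0 := by omega
  exact ⟨_, div_ne_zero (Int.cast_ne_zero.2 h) (pow_ne_zero _ (den_ne h hz)), hasDerivAt_mob h hz⟩

theorem k_ne (z : ℂ) : 2 * π * I * q1 z ≠ 0 := mul_ne_zero two_pi_I_ne_zero (q1_ne z)

/-- The upper half plane. -/
abbrev U : Type := {z : ℂ // 0 < z.im}

/-- Extension by zero. -/
noncomputable def ex (f : U → ℂ) (z : ℂ) : ℂ := if h : 0 < z.im then f ⟨z, h⟩ else 0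

theorem ex_eq (f : U → ℂ) (hz : 0 < z.im) : ex f z = f ⟨z, hz⟩ := dif_pos hz

/-- Holomorphic functions. -/
def HR : Subalgebra ℚ (U → ℂ) where
  carrier := {f | Hol (ex f)}
  mul_mem' {a b} h h' := hol_congr (F := fun z => ex a z * ex b z)
    (fun z hz => (h z hz).mul (h' z hz)) fun z hz => by simp only [ex_eq _ hz, Pi.mul_apply]
  add_mem' {a b} h h' := hol_congr (F := fun z => ex a z + ex b z)
    (fun z hz => (h z hz).add (h' z hz)) fun z hz => by simp only [ex_eq _ hz, Pi.add_apply]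
  algebraMap_mem' r := hol_congr (F := fun _ => (r : ℂ)) (fun _ _ => differentiableAt_const _)
    fun z hz => by simp [ex_eq _ hz]

/-- Restriction. -/
def res (h : Hol F) : HR := ⟨fun z => F z, hol_congr h fun _ hz => ex_eq _ hz⟩

/-- The derivative with respect to the local parameter. -/
noncomputable def dq : HR →+ HR := AddMonoidHom.mk'
  (fun a => res (F := fun z => deriv (ex a.1) z / (2 * π * I * q1 z)) fun z hz =>
    (hol_deriv a.2 z hz).div ((hol_q1 z hz).const_mul _) (k_ne z))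
  fun a b => Subtype.ext <| funext fun z => by
    have e : ∀ w : ℂ, 0 < w.im → ex (a + b).1 w = ex a.1 w + ex b.1 w := fun w hw => by
      simp only [ex_eq _ hw]; rfl
    change deriv (ex (a + b).1) z / _ = deriv (ex a.1) z / _ + deriv (ex b.1) z / _
    rw [(ev e z.2).deriv_eq, deriv_fun_add (a.2 _ z.2) (b.2 _ z.2), add_div]

theorem dq_apply (a : HR) (z : U) : (dq a).1 z = deriv (ex a.1) z / (2 * π * I * q1 z) := rfl

theorem dq_mul (a b : HR) : dq (a * b) = dq a * b + a * dq b :=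
  Subtype.ext <| funext fun z => by
    have e : ∀ w : ℂ, 0 < w.im → ex (a * b).1 w = ex a.1 w * ex b.1 w := fun w hw => by
      simp only [ex_eq _ hw]; rfl
    change deriv (ex (a * b).1) z / _ = deriv (ex a.1) z / _ * b.1 z + a.1 z * (deriv (ex b.1) z / _)
    rw [(ev e z.2).deriv_eq, deriv_fun_mul (a.2 _ z.2) (b.2 _ z.2), ex_eq _ z.2, ex_eq _ z.2]
    ring

/-- Integral expansions. -/
def BR (S : Subring ℂ) : Subring HR where
  carrier := {f | ex f.1 ∈ LR S}
  mul_mem' h h' := LE.congr ((LR S).mul_mem h h') fun z hz => by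
    simp only [ex_eq _ hz, Pi.mul_apply]; rfl
  add_mem' h h' := LE.congr ((LR S).add_mem h h') fun z hz => by
    simp only [ex_eq _ hz, Pi.add_apply]; rfl
  one_mem' := LE.congr (one_mem (LR S)) fun z hz => by simp only [ex_eq _ hz]; rfl
  zero_mem' := LE.congr (zero_mem (LR S)) fun z hz => by simp only [ex_eq _ hz]; rfl
  neg_mem' h := LE.congr ((LR S).neg_mem h) fun z hz => by
    simp only [ex_eq _ hz, Pi.neg_apply]; rfl

theorem mem_BR {S : Subring ℂ} {a : HR} (e : ∀ z : U, a.1 z = F z) : a ∈ BR S ↔ F ∈ LR S :=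
  ⟨fun h => LE.congr h fun z hz => by rw [ex_eq _ hz, e], fun h =>
    LE.congr h fun z hz => by rw [ex_eq _ hz, e]⟩

theorem smul_apply (n : ℕ) (a : HR) (z : U) :
    ((n.factorial : ℚ)⁻¹ • a).1 z = a.1 z / n.factorial := by
  change (n.factorial : ℚ)⁻¹ • a.1 z = _
  rw [Rat.smul_def, div_eq_inv_mul]
  push_cast
  rfl

theorem iter {α β : Type} {r : α → β → Prop} {T : α → α} {T' : β → β}
    (h : ∀ a b, r a b → r (T a) (T' b)) (n : ℕ) {a : α} {b : β} (e : r a b) :
    r (T^[n] a) (T'^[n] b) := by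
  induction n with
  | zero => exact e
  | succ n ih => rw [Function.iterate_succ_apply', Function.iterate_succ_apply']; exact h _ _ ih

theorem zpow_mem (S : Subring ℂ) (e : ℤ) : (fun z => q1 z ^ e) ∈ LR S :=
  ⟨(-e).toNat, _, ((QE.const 1).pow_mul e.toNat).congr fun z _ => by
    rw [mul_one, ← zpow_natCast, ← zpow_natCast, ← zpow_add₀ (q1_ne z)]
    congr 1
    omega, (Cf.const S.one_mem).X_pow_mul _⟩

theorem inv_mem {A : ValuationSubring ℂ} {e : ℤ} (h : UL A e F) (h0 : ∀ z : ℂ, 0 < z.im → F z ≠ 0) :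
    (fun z => (F z)⁻¹) ∈ LR A.valuation.integer := by
  obtain ⟨B, b1, b2, b3⟩ := h
  have k : ∀ z : ℂ, 0 < z.im → q1 z ^ e * F z ≠ 0 := fun z hz =>
    mul_ne_zero (zpow_ne_zero _ (q1_ne z)) (h0 z hz)
  have h1 := le_div ged_int (V := A.valuation) (E := fun z => q1 z ^ e * F z) (n := 0)
    (H := fun z => (q1 z ^ e * F z)⁻¹) ⟨B, b1.congr fun z _ => by simp, b2, b3⟩
    (fun z hz => (b1.hol z hz).inv (k z hz))
    (fun z hz => congrArg _ (by simpa using b1.periodic 1 hz))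
    (LE.congr (one_mem (LR _)) fun z hz => mul_inv_cancel₀ (k z hz))
  refine LE.congr (mul_mem (zpow_mem _ e) h1) fun z _ => ?_
  rw [Pi.mul_apply, mul_inv, mul_inv_cancel_left₀ (zpow_ne_zero _ (q1_ne z))]

end Dim

open Dim in
theorem dim_stmt (has : HasStmt) (hq : HqStmt) (du : DuStmt) (der : DerStmt) (tim : TimStmt) :
    DimStmt := by
  intro A L n h h9 hL hh
  have L0 := ne_of_val hL
  have ht := (tim A L h9 hL).1
  have tH := mf_hol L0 ht.mf
  have hH := mf_hol L0 hh.mf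
  have dH : ∀ F, Hol F → Hol (dd F) := fun F k z hz =>
    (hol_deriv k z hz).div (hol_deriv tH z hz) (deriv_tt_ne der hz)
  refine ⟨fun g hg z hz => ?_, fun g hg => ?_⟩
  · have := iter (r := fun (F : ℂ → ℂ) (_ : Unit) => Hol F ∧ Inv0 L F) (T := dd) (T' := id)
      (fun F _ k => ⟨dH F k.1, fun g hg z hz => by
        obtain ⟨c, c0, hc⟩ := der_act hg.1 hz
        have p := act_pos (hg.1 ▸ one_pos) hz
        rw [dd, dd, chain k.1 hz p hc fun w hw => (k.2 g hg w hw).symm,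
          chain tH hz p hc fun w hw => (ht.1 g hg w hw).symm, mul_div_mul_right _ _ c0]⟩)
      n (b := ()) ⟨hH, hh.1⟩
    rw [Dv, Dv, this.2 g hg z hz]
  have p : ∀ z : ℂ, 0 < z.im → 0 < (act g (L * z)).im := fun z hz =>
    act_pos (hg ▸ one_pos) (ga_pos L0 hz)
  have hc : ∀ z : ℂ, 0 < z.im → ∃ c ≠ 0, HasDerivAt (fun u => act g (L * u)) c z := fun z hz => by
    obtain ⟨c, c0, hc⟩ := der_act hg (ga_pos L0 hz)
    exact ⟨_, mul_ne_zero c0 (by simpa using L0), hc.comp z ((hasDerivAt_id z).const_mul (L : ℂ))⟩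
  have sH := LE.hol (ht.2 g hg)
  have s0 : ∀ z : ℂ, 0 < z.im → deriv (fun u => tt (act g (L * u))) z ≠ 0 := fun z hz => by
    obtain ⟨c, c0, hc⟩ := hc z hz
    rw [chain tH hz (p z hz) hc fun _ _ => rfl]
    exact mul_ne_zero (deriv_tt_ne der (p z hz)) c0
  obtain ⟨e, he⟩ := du A L h9 hL g hg
  have uL := mul_mem (zpow_mem _ 1) (inv_mem he fun z hz => div_ne_zero (s0 z hz) two_pi_I_ne_zero)
  have key := has HR (BR A.valuation.integer) dq (res sH) (res (LE.hol uL)) dq_mul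
    (fun b hb m => (mem_BR fun z => by
      rw [smul_apply, iter (r := fun (a : HR) (F : ℂ → ℂ) => ∀ z : U, a.1 z = F z)
        (T' := fun G u => deriv G u / (2 * π * I * q1 u))
        (fun a F k z => by rw [dq_apply, (ev (fun w hw => by rw [ex_eq _ hw, k]) z.2).deriv_eq])
        m (fun z => (ex_eq _ z.2).symm) z]).2 (hq _ _ m hb))
    ((mem_BR fun _ => rfl).2 (ht.2 g hg)) ((mem_BR fun _ => rfl).2 uL)
    (Subtype.ext <| funext fun z => by
      have := s0 z z.2
      have := q1_ne z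
      change q1 z ^ (1 : ℤ) * (_ / _)⁻¹ * (deriv (ex (res sH).1) z / _) = 1
      rw [(ev (G := ex (res sH).1) (F := fun u => tt (act g (L * u))) (fun w hw => ex_eq _ hw)
        z.2).deriv_eq, zpow_one]
      field_simp)
    (res (LE.hol (hh.2 g hg))) ((mem_BR fun _ => rfl).2 (hh.2 g hg)) n
  refine (mem_BR fun z => ?_).1 key
  rw [smul_apply, (iter
    (r := fun (a : HR) (F : ℂ → ℂ) => Hol F ∧ ∀ z : U, a.1 z = F (act g (L * z))) (T' := dd)
    (fun a F k => ⟨dH F k.1, fun z => ?_⟩) n ⟨hH, fun _ => rfl⟩).2 z, Dv]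
  obtain ⟨c, c0, hc⟩ := hc z z.2
  have := q1_ne z
  have := deriv_tt_ne der (p z z.2)
  change q1 z ^ (1 : ℤ) * (_ / _)⁻¹ * (deriv (ex a.1) z / _) = _
  rw [chain tH z.2 (p z z.2) hc fun _ _ => rfl,
    chain k.1 z.2 (p z z.2) hc fun w hw => by rw [ex_eq _ hw, k.2], zpow_one, dd]
  field_simp

end Pool.Agent.B6.D9
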