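import Pool.Agent.Lib.MP_696deb_nt.B7.D9a

/-! The derivative of the coordinate has unit expansions at all cusps. -/

set_option autoImplicit false

open Filter Topology PowerSeries
open scoped Classical Real

namespace Pool.Agent.B6.D9

open Pool.Agent.Lib.MP_696deb_nt Pool.Agent.B4.GE

namespace Du

variable {A : ValuationSubring ℂ} {F G : ℂ → ℂ} {L N : ℕ} {g : MZ}

theorem theta_mem {R : Subring ℂ} (h : F ∈ LR R) :
    (fun z => deriv F z / (2 * π * Complex.I)) ∈ LR R := by
  obtain ⟨n, B, h1, h2⟩ := h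
  obtain ⟨F1, h3, h4⟩ := h1.hasDerivAt
  refine ⟨n, _, (h3.sub (h1.smul n)).congr fun z hz => ?_, fun k => ?_⟩
  · have d := (((hasDerivAt_q1 z).fun_pow n).fun_mul
      (hol_of_pow_mul h1 z hz).hasDerivAt).unique (h4 z hz)
    have e : (n : ℂ) * q1 z ^ (n - 1) * q1 z = n * q1 z ^ n := by
      cases n <;> simp [pow_succ, mul_assoc]
    have p := Complex.two_pi_I_ne_zero
    rw [← mul_div_assoc, div_eq_iff p]
    linear_combination d - 2 * π * Complex.I * F z * e
  · rw [map_sub, coeff_C_mul]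
    refine sub_mem ?_ (R.mul_mem (natCast_mem R n) (h2 k))
    cases k with
    | zero => simp
    | succ k =>
      rw [coeff_succ_X_mul, coeff_derivative]
      exact R.mul_mem (h2 _) (add_mem (natCast_mem R k) R.one_mem)

/-- Units of the ring of integral expansions. -/
theorem ul_of_inv (h : F ∈ LR A.valuation.integer) (h' : G ∈ LR A.valuation.integer)
    (e : ∀ z : ℂ, 0 < z.im → F z * G z = 1) : ∃ e : ℤ, UL A e F := by
  obtain ⟨n, B, h1, h2⟩ := h
  obtain ⟨m, C, h3, h4⟩ := h'
  have k : B * C = X ^ (n + m) := (h1.mul h3).unique (QE.q.pow _) fun z hz => by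
    linear_combination q1 z ^ (n + m) * e z hz
  have k1 : divXPowOrder B * divXPowOrder C = 1 := by
    rw [← divXPowOrder_mul, k, ← coe_divXPowOrderHom, map_pow, coe_divXPowOrderHom,
      divXPowOrder_X, one_pow]
  have c : ∀ {D : ℂ⟦X⟧}, Cf A.valuation.integer.toAddSubgroup D →
      Cf A.valuation.integer.toAddSubgroup (divXPowOrder D) := fun hD j => by
    rw [coeff_divXPowOrder]
    exact hD _
  have k2 := congrArg (fun D => A.valuation (constantCoeff D)) k1
  simp only [map_mul, map_one, ← coeff_zero_eq_constantCoeff_apply] at k2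
  rw [← X_pow_order_mul_divXPowOrder (f := B)] at h1
  refine ⟨n - B.order.toNat, _, h1.of_X_pow_mul.congr fun z _ => ?_, c h2,
    le_antisymm (c h2 0) (k2 ▸ mul_le_of_le_one_right' (c h4 0))⟩
  rw [zpow_sub₀ (q1_ne z), zpow_natCast, zpow_natCast]
  ring

theorem dl_mem (hN : N ∣ L) (hL : A.valuation L = 1) (hg : g.det = 1) :
    (fun z => Dl (N * act g (L * z)) / den g (L * z) ^ 12) ∈ LR A.valuation.integer ∧
      (fun z => (Dl (N * act g (L * z)) / den g (L * z) ^ 12)⁻¹) ∈ LR A.valuation.integer := by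
  have L0 := ne_of_val hL
  obtain ⟨a, b, d, k, rfl, h1, h2⟩ := exists_dg (ne_zero_of_dvd_ne_zero L0 hN) hg
  have hd := val_of_dvd hL ((dvd_mul_left d a).trans hN)
  obtain ⟨t, rfl⟩ := hN
  obtain ⟨ha, d0⟩ := mul_ne_zero_iff.1 (left_ne_zero_of_mul L0)
  have t0 : a * a * t ≠ 0 := mul_ne_zero (mul_ne_zero ha ha) (right_ne_zero_of_mul L0)
  have d1 : (d : ℂ) ≠ 0 := by exact_mod_cast d0
  have e : ∀ z : ℂ, 0 < z.im → Dl ((a * d : ℕ) * act g ((a * d * t : ℕ) * z)) /
      den g ((a * d * t : ℕ) * z) ^ 12 = (d ^ 12 : ℂ)⁻¹ * Dl (aff (a * a * t) (b / d) z) := by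
    intro z hz
    have p := ga_pos L0 hz
    have u : (ut a b d).det ≠ 0 := by simp [det_ut, ha, d0]
    have e1 : act (ut a b d) ((a * d * t : ℕ) * z) = aff (a * a * t) (b / d) z := by
      simp only [ut, act_of, mob, aff]
      push_cast
      rw [zero_mul, zero_add]
      field_simp
    have e2 := den_mul (ut (a * d) 0 1) (N := g) (by omega) p
    rw [h2, den_mul _ u p, e1, show den (ut a b d) _ = d by simp [den, ut],
      show den (ut (a * d) 0 1) _ = 1 by simp [den, ut], one_mul] at e2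
    have e3 := den_ne' (M := g) (by omega) p
    rw [← act_dg (N := a * d), ← act_mul _ (by omega) p, h2, act_mul _ u p, e1,
      Dl_act h1 (aff_pos t0 _ hz), eq_div_of_mul_eq d1 e2]
    field_simp
  refine ⟨LE.congr (mul_mem (const_mem _ (c := (d ^ 12 : ℂ)⁻¹) ?_)
    (lz_Dl.affine_mem _ t0 (val_q1 (b / d)))) e, LE.congr (mul_mem (const_mem _ (c := (d : ℂ) ^ 12) ?_)
    (lz_Dl_inv.affine_mem _ t0 (val_q1 (b / d)))) fun z hz => ?_⟩
  · rw [map_inv₀, map_pow, hd, one_pow, inv_one]
  · rw [map_pow, hd, one_pow]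
  · rw [e z hz, mul_inv, inv_inv]
    rfl

end Du

theorem du_stmt (der : DerStmt) (tim : TimStmt) : DuStmt := by
  intro A L h9 hL g hg
  have L0 := ne_of_val hL
  have L1 : (L : ℂ) ≠ 0 := by exact_mod_cast L0
  have t := (tim A L h9 hL).1
  have h1 := Du.theta_mem (t.2 g hg)
  refine Du.ul_of_inv h1 (mul_mem (mul_mem (mul_mem (pow_mem h1 11)
    (pow_mem (Du.dl_mem h9 hL hg).1 3))
    (pow_mem (Du.dl_mem ((show 3 ∣ 9 by decide).trans h9) hL hg).2 5))
    (const_mem _ (c := ((L : ℂ) ^ 12)⁻¹) (by rw [map_inv₀, map_pow, hL, one_pow, inv_one])))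
    fun z hz => ?_
  have p := ga_pos L0 hz
  have p' := act_pos (M := g) (by omega) p
  have d1 : HasDerivAt (act g) (1 / den g (L * z) ^ 2) (L * z) := by
    have := hasDerivAt_mob (a := g 0 0) (b := g 0 1) (c := g 1 0) (d := g 1 1)
      (by rw [← Matrix.det_fin_two]; omega) p
    rwa [← Matrix.det_fin_two, hg, Int.cast_one] at this
  have d2 : HasDerivAt (fun u : ℂ => L * u) L z := by simpa using (hasDerivAt_id z).const_mul (L : ℂ)
  have d3 := (mf_hol L0 t.mf _ p').hasDerivAt.comp z (d1.comp z d2)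
  replace d3 : HasDerivAt (fun u => tt (act g (L * u))) _ z := d3
  have e := der _ p'
  have n1 := den_ne' (M := g) (by omega) p
  have n2 := Dl_ne (ga_pos (N := 3) (by decide) p')
  simp only [Pi.mul_apply, Pi.pow_apply, d3.deriv, Nat.cast_ofNat] at n2 ⊢
  rw [mul_div_right_comm]
  generalize deriv tt (act g (L * z)) / (2 * π * Complex.I) = x at e ⊢
  generalize Dl (3 * act g (L * z)) = y at e n2 ⊢
  field_simp
  linear_combination e

end Pool.Agent.B6.D9
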