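import Pool.Agent.Lib.MP_696deb_nt.B7.D9a

/-! Integral modular functions are rational in the two invariants, with a monic denominator. -/

set_option autoImplicit false

open Polynomial Filter Topology
open scoped Classical

namespace Pool.Agent.B6.D9

open Pool.Agent.Lib.MP_696deb_nt Pool.Agent.B4.GE

namespace Fld

variable {Γ : Type*} [LinearOrderedCommGroupWithZero Γ] {V : Valuation ℂ Γ} {N : ℕ}

theorem biv (hN : N ≠ 0) {T : ℂ → ℂ[X]} (P : (LR V.integer)[X])
    (hP : ∀ z : ℂ, T (N * z) = P.map (evz V z)) (hT : ∀ k, Inv1 fun z => (T z).coeff k) :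
    ∃ A : ℂ[X][X], (∀ k l, V ((A.coeff k).coeff l) ≤ 1) ∧
      ∀ z : ℂ, 0 < z.im → A.map (evalRingHom (jf z)) = T z := by
  have n1 : (N : ℂ) ≠ 0 := by exact_mod_cast hN
  choose Q hQ' hQ using fun k => (LE.of_comp hN (hT k).periodic
    (LE.congr (P.coeff k).2 fun z _ => by rw [hP, coeff_map]; rfl)).exists_poly (hT k)
  refine ⟨∑ k ∈ Finset.range (P.natDegree + 1), monomial k (Q k), fun k l => ?_, fun z hz => ?_⟩
  · rw [finsetSum_coeff, finsetSum_coeff]
    refine V.map_sum_le fun i _ => ?_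
    rw [coeff_monomial]
    split_ifs
    · exact hQ' i l
    · simp
  have h1 : (T z).natDegree < P.natDegree + 1 := by
    rw [← mul_div_cancel₀ z n1, hP]
    exact Nat.lt_succ_of_le natDegree_map_le
  rw [as_sum_range' _ _ h1, Polynomial.map_sum]
  exact Finset.sum_congr rfl fun k _ => by rw [Polynomial.map_monomial, hQ k z hz]; rfl

theorem val_root (hN : N ≠ 0) (hV : V N = 1) {x y : ℂ} (hx : x ^ N = 1) (hy : y ^ N = 1)
    (h : x ≠ y) : V (x - y) = 1 := by
  have vx := val_eq_one_of_pow V hN hx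
  have vy := val_eq_one_of_pow V hN hy
  refine le_antisymm (V.map_sub_le vx.le vy.le) ?_
  have h1 : ∑ i ∈ Finset.range N, x ^ i * y ^ (N - 1 - i) = 0 := by
    have := (Commute.all x y).geom_sum₂_mul N
    rw [hx, hy, sub_self] at this
    exact (mul_eq_zero.1 this).resolve_right (sub_ne_zero.2 h)
  have h2 : (N : ℂ) * y ^ (N - 1) = ∑ i ∈ Finset.range N, (y ^ i - x ^ i) * y ^ (N - 1 - i) := by
    simp only [sub_mul]
    rw [Finset.sum_sub_distrib, h1, sub_zero, Finset.sum_congr rfl fun i hi =>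
      show y ^ i * y ^ (N - 1 - i) = y ^ (N - 1) by
        rw [← pow_add, Nat.add_sub_cancel' (Nat.le_sub_one_of_lt (Finset.mem_range.1 hi))]]
    simp
  have h3 := congrArg V h2
  rw [map_mul, map_pow, hV, vy, one_pow, one_mul] at h3
  rw [h3, V.map_sub_swap]
  refine V.map_sum_le fun i _ => ?_
  rw [map_mul, map_pow, vy, one_pow, mul_one]
  exact val_pow_sub_pow_le V vy.le vx.le i

theorem lu (hN : N ≠ 0) (hV : V N = 1) {x y : RI N} (h : x ≠ y) :
    ∃ n, LU V n fun z => jf (act (rI x) (N * z)) - jf (act (rI y) (N * z)) := by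
  simp only [ga_jB hN]
  obtain ⟨⟨a, b, d⟩, e1, e2⟩ := x
  obtain ⟨⟨a', b', d'⟩, e3, e4⟩ := y
  have a0 : a ≠ 0 := left_ne_zero_of_mul (e1.trans_ne hN)
  have a1 : a' ≠ 0 := left_ne_zero_of_mul (e3.trans_ne hN)
  have d1 : d ≠ 0 := right_ne_zero_of_mul (e1.trans_ne hN)
  have d2 : d' ≠ 0 := right_ne_zero_of_mul (e3.trans_ne hN)
  have u1 := lu_jf_affine (mul_ne_zero a0 a0) (val_eq_one_of_pow V d1 (q1_div_pow_eq_one b d1))
  have u2 := lu_jf_affine (mul_ne_zero a1 a1) (val_eq_one_of_pow V d2 (q1_div_pow_eq_one b' d2))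
  by_cases ha : a = a'
  swap
  · exact u1.sub u2 fun k => ha (Nat.mul_self_inj.1 k)
  subst ha
  obtain rfl : d = d' := Nat.eq_of_mul_eq_mul_left (Nat.pos_of_ne_zero a0) (e1.trans e3.symm)
  obtain ⟨B, b1, b2, -⟩ := u1
  obtain ⟨B', c1, c2, -⟩ := u2
  refine ⟨a * a, B - B', (b1.sub c1).congr fun z _ => mul_sub _ _ _, b2.sub c2, ?_⟩
  rw [b1.unique (qe_affine qe_jf (mul_ne_zero a0 a0) _) fun z _ => by rw [mul_one],
    c1.unique (qe_affine qe_jf (mul_ne_zero a0 a0) _) fun z _ => by rw [mul_one]]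
  simp only [map_sub, PowerSeries.coeff_C_mul, PowerSeries.coeff_expand, dvd_zero, if_true,
    Nat.zero_div, PowerSeries.coeff_rescale, pow_zero, pow_one, cc_toC, cc_Js,
    Int.cast_one, mul_one]
  have r : ∀ t : ℤ, (q1 ((t / d : ℝ) : ℂ))⁻¹ ^ N = 1 := fun t => by
    rw [inv_pow, ← show a * d = N from e1, mul_comm a, pow_mul, q1_div_pow_eq_one t d1, one_pow,
      inv_one]
  refine val_root hN hV (r _) (r _) fun k => h ?_
  have d0 : (d : ℂ) ≠ 0 := by exact_mod_cast d1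
  simp only [inv_inj, q1, Complex.exp_eq_exp_iff_exists_int] at k
  obtain ⟨n, k⟩ := k
  have k2 : (b : ℤ) = b' + d * n := by
    push_cast at k
    have := Complex.two_pi_I_ne_zero
    field_simp at k
    exact_mod_cast k
  have k3 : n = 0 := by
    change b < d at e2
    change b' < d at e4
    by_contra k3
    rcases lt_or_gt_of_ne k3 with k4 | k4 <;> nlinarith
  obtain rfl : b = b' := by simpa [k3] using k2
  rfl

/-- The conjugates of the second invariant. -/
noncomputable def cj (N : ℕ) (z : ℂ) (i : CI N) : ℂ := jN N (act (cr i) z)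

theorem exists_J (hN : N ≠ 0) : ∃ J : CI N → LR V.integer, ∀ i z, evz V z (J i) = cj N (N * z) i :=
  ⟨fun i => ⟨fun z => cj N (N * z) i, by
    have := lz_jf.ut_mem V (b := i.1.1.2.1) (ga_ne hN i.1).1 (ga_ne hN i.1).2
    rw [i.1.2.1] at this
    exact LE.congr this fun z hz => jN_cr hN i (ga_pos hN hz)⟩, fun _ _ => rfl⟩

variable [Fintype (CI N)]

theorem disc (hN : N ≠ 0) (hV : V N = 1) : ∃ (D : ℂ[X]) (c : ℂ) (M : ℕ), D.Monic ∧
    (∀ k, V (D.coeff k) ≤ 1) ∧ V c ≤ 1 ∧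
      ∀ z : ℂ, 0 < z.im → D.eval (jf z) = c * (∏ k, gaD (cj N z) k) ^ (M + 2) := by
  obtain ⟨n, hn⟩ := LU.prod (V := V) Finset.univ fun (x : CI N) _ =>
    LU.prod (Finset.univ.erase x) fun y hy => lu hN hV (x := x.1) (y := y.1)
      fun e => (Finset.ne_of_mem_erase hy).symm (Subtype.ext e)
  obtain ⟨B, b1, b2, b3⟩ := (hn.pow 2).pow N
  have b0 : PowerSeries.coeff 0 B ≠ 0 := fun k => by simp [k] at b3
  have v0 : V (PowerSeries.coeff 0 B)⁻¹ ≤ 1 := by rw [map_inv₀, b3, inv_one]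
  have hI : Inv1 fun z => (PowerSeries.coeff 0 B)⁻¹ * (∏ k, gaD (cj N z) k) ^ (2 * N) :=
    ((inv0_jN hN).permF hN).inv1
      (fun _ a => (PowerSeries.coeff 0 B)⁻¹ * (∏ k, gaD a k) ^ (2 * N)) fun _ a σ => by
        simp only [gaD_perm a]
        rw [Equiv.prod_comp σ (gaD a)]
  obtain ⟨A, a1, a2⟩ := exists_qe_of_comp (n := 2 * n)
    (F := fun z => (PowerSeries.coeff 0 B)⁻¹ * (∏ k, gaD (cj N z) k) ^ (2 * N)) hN hI.periodic
    ((b1.smul (PowerSeries.coeff 0 B)⁻¹).congr fun z hz => by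
      simp only [gaD, cj, jN_cr hN _ (ga_pos hN hz), pow_mul]
      ring)
  obtain ⟨D, p1, p2, p3, p4⟩ := exists_poly_jf (S := V.integer.toAddSubgroup) _ hI a1
    (Cf.of_expand (a2 ▸ (Cf.const (S := V.integer.toAddSubgroup) v0).mul b2
      fun _ hs _ ht => V.integer.mul_mem hs ht))
  refine ⟨D, _, 2 * N - 2, monic_of_natDegree_le_of_coeff_eq_one _ p2 ?_, p1, v0, fun z hz => ?_⟩
  · rw [p3, ← PowerSeries.coeff_expand_mul N hN, a2, mul_zero, PowerSeries.coeff_C_mul,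
      inv_mul_cancel₀ b0]
  · rw [← p4 z hz, Nat.sub_add_cancel (by omega)]

theorem interp (hN : N ≠ 0) {G : CI N → ℂ → ℂ} (p : PermF fun i z => (G i z, cj N z i))
    (hG : ∀ i, (fun z => G i (N * z)) ∈ LR V.integer) {c : ℂ} (hc : V c ≤ 1) (M : ℕ) :
    ∃ B : ℂ[X][X], (∀ k l, V ((B.coeff k).coeff l) ≤ 1) ∧ ∀ z : ℂ, 0 < z.im → ∀ i,
      B.evalEval (jf z) (cj N z i) = c * (∏ k, gaD (cj N z) k) ^ (M + 1) * G i z := by
  obtain ⟨J, hJ⟩ := exists_J (V := V) hN
  obtain ⟨F, hF⟩ : ∃ F : CI N → LR V.integer, ∀ i z, evz V z (F i) = G i (N * z) :=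
    ⟨fun i => ⟨_, hG i⟩, fun _ _ => rfl⟩
  obtain ⟨K, hK⟩ : ∃ K : LR V.integer, ∀ z, evz V z K = c := ⟨⟨_, const_mem V hc⟩, fun _ => rfl⟩
  obtain ⟨B, b1, b2⟩ := biv hN (T := fun z => C (c * (∏ k, gaD (cj N z) k) ^ M) *
    gaI (fun i => G i z) (cj N z)) (C (K * (∏ k, gaD J k) ^ M) * gaI F J) (fun z => by
      simp only [Polynomial.map_mul, map_C, map_gaI, map_mul (evz V z), map_pow (evz V z),
        map_prod (evz V z), map_gaD, hJ, hF, hK])
    fun k => p.inv1 (fun _ a => (C (c * (∏ k, gaD (fun x => (a x).2) k) ^ M) *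
      gaI (fun x => (a x).1) fun x => (a x).2).coeff k) fun _ a σ => by
        rw [gaI_perm (fun x => (a x).1) fun x => (a x).2]
        simp only [gaD_perm fun x => (a x).2]
        rw [Equiv.prod_comp σ (gaD fun x => (a x).2)]
  refine ⟨B, b1, fun z hz i => ?_⟩
  rw [← map_evalRingHom_eval, b2 z hz, eval_mul, eval_C, eval_gaI]
  ring

end Fld

open Fld

theorem fld_stmt : FldStmt := by
  intro A L hV
  have hN := ne_of_val hV
  have := finite_CI hN
  have := Fintype.ofFinite (CI L)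
  obtain ⟨D, c, M, d1, d2, d3, d4⟩ := disc hN hV
  refine ⟨D, d1, d2, fun h hh => ?_⟩
  have i0 : Inv0 L fun z => (h z, jN L z) := fun g hg z hz =>
    Prod.ext (hh.1 g hg z hz) (inv0_jN hN g hg z hz)
  obtain ⟨B, b1, b2⟩ := interp hN (G := fun i z => h (act (cr i) z)) (i0.permF hN)
    (fun i => hh.2 _ (cr_det i)) d3 (M + 1)
  refine ⟨B, b1, fun z hz => ?_⟩
  obtain ⟨i, hi⟩ := i0.exists_cr hN Matrix.det_one
  have e := hi z hz
  rw [act_one, Prod.ext_iff] at e
  rw [d4 z hz, show jN L z = cj L z i from e.2, b2 z hz, show h z = _ from e.1]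

theorem phi_stmt : PhiStmt := by
  intro A L hV
  have hN := ne_of_val hV
  have := finite_CI hN
  have := Fintype.ofFinite (CI L)
  obtain ⟨D, c, M, d1, d2, d3, d4⟩ := disc hN hV
  obtain ⟨J, hJ⟩ := exists_J (V := A.valuation) hN
  have p : PermF fun (i : CI L) z => cj L z i := (inv0_jN hN).permF hN
  obtain ⟨B, b1, b2⟩ := interp hN
    (G := fun i z => ∏ k ∈ Finset.univ.erase i, gaD (cj L z) k) (fun g hg => by
      obtain ⟨σ, hσ⟩ := p g hg
      refine ⟨σ, fun z hz i => Prod.ext ?_ (hσ z hz i)⟩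
      dsimp only
      rw [show cj L (act g z) = fun x => cj L z (σ x) from funext (hσ z hz)]
      simp only [gaD_perm]
      exact Finset.prod_equiv σ (by simp) fun _ _ => rfl)
    (fun i => LE.congr (∏ k ∈ Finset.univ.erase i, gaD J k).2 fun z _ => by
      rw [← evz_apply, map_prod]
      simp only [map_gaD, hJ]) d3 M
  obtain ⟨Φ, f1, f2⟩ := biv hN (T := fun z => ∏ i, (X - C (cj L z i))) (∏ i, (X - C (J i)))
    (fun z => by simp only [Polynomial.map_prod, Polynomial.map_sub, map_X, map_C, hJ])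
    fun k => p.inv1 (fun _ a => (∏ i, (X - C (a i))).coeff k)
      fun _ a σ => by rw [Equiv.prod_comp σ fun i => X - C (a i)]
  refine ⟨Φ, D, fun z => B.evalEval (jf z) (jN L z), f1, d1, d2,
    (im_jf hN).evalEval (im_jN dvd_rfl hN) b1, fun z hz => ?_⟩
  obtain ⟨i, hi⟩ := (inv0_jN hN).exists_cr hN Matrix.det_one
  have e := hi z hz
  rw [act_one] at e
  beta_reduce
  rw [show jN L z = cj L z i from e, b2 z hz, d4 z hz, ← map_evalRingHom_eval,
    ← map_evalRingHom_eval, ← derivative_map, f2 z hz, ← Lagrange.nodal_eq,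
    Lagrange.eval_nodal_derivative_eval_node_eq (Finset.mem_univ i), Lagrange.eval_nodal,
    Lagrange.eval_nodal, ← gaD, pow_succ _ (M + 1),
    ← Finset.mul_prod_erase _ (gaD (cj L z)) (Finset.mem_univ i)]
  exact ⟨Finset.prod_eq_zero (Finset.mem_univ i) (sub_self _), by ring⟩

end Pool.Agent.B6.D9
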