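import Pool.Agent.Lib.MP_696deb_nt.B7.D9

/-! Change of the derivation in divided powers. -/

set_option autoImplicit false

namespace Pool.Agent.B6.D9

namespace Has

open PowerSeries Finset

variable {R : Type} [CommRing R] [Algebra ℚ R]

/-- Divided iterates of an additive map. -/
noncomputable def Dq (f : R →+ R) (n : ℕ) (b : R) : R := (n.factorial : ℚ)⁻¹ • f^[n] b

lemma Dq_zero (f : R →+ R) (b : R) : Dq f 0 b = b := by simp [Dq]

lemma Dq_one (f : R →+ R) (b : R) : Dq f 1 b = f b := by simp [Dq]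

lemma map_Dq (f : R →+ R) (n : ℕ) (b : R) :
    f (Dq f n b) = ((n : R) + 1) * Dq f (n + 1) b := by
  have h1 : ((n : R) + 1) = algebraMap ℚ R ((n : ℚ) + 1) := by simp
  have h2 : ((n : ℚ) + 1) ≠ 0 := by positivity
  have h3 : (n.factorial : ℚ) ≠ 0 := by positivity
  unfold Dq
  rw [map_rat_smul, h1, ← Algebra.smul_def, smul_smul, Function.iterate_succ_apply']
  congr 1
  rw [Nat.factorial_succ]
  push_cast
  field_simp

lemma cancel (n : ℕ) {x y : R} (h : ((n : R) + 1) * x = ((n : R) + 1) * y) : x = y := by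
  have h1 : ((n : R) + 1) = algebraMap ℚ R ((n : ℚ) + 1) := by simp
  have h2 : ((n : ℚ) + 1) ≠ 0 := by positivity
  have h3 : IsUnit ((n : R) + 1) := by
    rw [h1]
    exact (IsUnit.mk0 _ h2).map _
  exact h3.mul_left_cancel h

/-- The additive map applied to every coefficient. -/
noncomputable def dm (d : R →+ R) (F : PowerSeries R) : PowerSeries R :=
  PowerSeries.mk fun n => d (coeff n F)

omit [Algebra ℚ R] in
lemma coeff_dm (d : R →+ R) (F : PowerSeries R) (n : ℕ) : coeff n (dm d F) = d (coeff n F) := by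
  simp [dm]

omit [Algebra ℚ R] in
lemma dm_mul (d : R →+ R) (hd : ∀ a b, d (a * b) = d a * b + a * d b) (F G : PowerSeries R) :
    dm d (F * G) = dm d F * G + F * dm d G := by
  ext n
  simp only [coeff_dm, map_add, coeff_mul, map_sum, hd, Finset.sum_add_distrib]

omit [Algebra ℚ R] in
lemma dm_pow (d : R →+ R) (hd : ∀ a b, d (a * b) = d a * b + a * d b) (F : PowerSeries R)
    (k : ℕ) : dm d (F ^ (k + 1)) = ((k : PowerSeries R) + 1) * F ^ k * dm d F := by
  induction k with
  | zero => simp
  | succ k ih =>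
    rw [pow_succ F (k + 1), dm_mul d hd, ih]
    push_cast
    ring

omit [Algebra ℚ R] in
lemma der_pow (F : PowerSeries R) (k : ℕ) :
    derivative R (F ^ (k + 1)) = ((k : PowerSeries R) + 1) * F ^ k * derivative R F := by
  induction k with
  | zero => simp
  | succ k ih =>
    rw [pow_succ F (k + 1), Derivation.leibniz, ih]
    simp only [smul_eq_mul]
    push_cast
    ring

/-- The expansion of `s` without its constant term. -/
noncomputable def ps1 (d : R →+ R) (s : R) : PowerSeries R :=
  X * PowerSeries.mk fun n => Dq d (n + 1) s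

lemma ps1_zero (d : R →+ R) (s : R) : coeff 0 (ps1 d s) = 0 := by simp [ps1]

lemma ps1_succ (d : R →+ R) (s : R) (n : ℕ) : coeff (n + 1) (ps1 d s) = Dq d (n + 1) s := by
  simp [ps1, coeff_succ_X_mul]

lemma der_ps1 (d : R →+ R) (s : R) :
    derivative R (ps1 d s) = dm d (ps1 d s) + C (d s) := by
  ext n
  rw [coeff_derivative, map_add, coeff_dm, ps1_succ]
  cases n with
  | zero => simp [ps1_zero, Dq_one]
  | succ n =>
    rw [ps1_succ, map_Dq, coeff_C]
    simp only [Nat.succ_ne_zero, if_false, add_zero]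
    ring

/-- The coefficients of the powers. -/
noncomputable def ee (d : R →+ R) (s : R) (n k : ℕ) : R := coeff n (ps1 d s ^ k)

lemma ee_lt (d : R →+ R) (s : R) {n k : ℕ} (h : n < k) : ee d s n k = 0 := by
  unfold ee ps1
  rw [mul_pow, coeff_X_pow_mul', if_neg (by omega)]

lemma ee_self (d : R →+ R) (s : R) (n : ℕ) : ee d s n n = d s ^ n := by
  unfold ee ps1
  rw [mul_pow, coeff_X_pow_mul', if_pos le_rfl, Nat.sub_self, coeff_zero_eq_constantCoeff, map_pow]
  congr 1
  rw [← coeff_zero_eq_constantCoeff_apply, coeff_mk, zero_add, Dq_one]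

lemma ee_zero (d : R →+ R) (s : R) (n : ℕ) : ee d s (n + 1) 0 = 0 := by
  simp [ee, coeff_one]

lemma ee_rec (d : R →+ R) (hd : ∀ a b, d (a * b) = d a * b + a * d b) (s : R) (n k : ℕ) :
    ((n : R) + 1) * ee d s (n + 1) (k + 1) =
      d (ee d s n (k + 1)) + ((k : R) + 1) * d s * ee d s n k := by
  have h1 : derivative R (ps1 d s ^ (k + 1)) =
      dm d (ps1 d s ^ (k + 1)) + C (((k : R) + 1) * d s) * ps1 d s ^ k := by
    rw [der_pow, dm_pow d hd, der_ps1]
    simp only [map_mul, map_add, map_natCast, map_one]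
    ring
  have h2 := congrArg (coeff n) h1
  rw [coeff_derivative, map_add, coeff_dm, coeff_C_mul] at h2
  unfold ee
  rw [← h2]
  ring

lemma ee_mem (B : Subring R) (d : R →+ R) (s : R) (h : ∀ n, Dq d n s ∈ B) (k : ℕ) :
    ∀ n, ee d s n k ∈ B := by
  have h0 : ∀ n, coeff n (ps1 d s) ∈ B := by
    intro n
    cases n with
    | zero => rw [ps1_zero]; exact B.zero_mem
    | succ n => rw [ps1_succ]; exact h _
  induction k with
  | zero =>
    intro n
    unfold ee
    rw [pow_zero, coeff_one]
    split_ifs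
    · exact B.one_mem
    · exact B.zero_mem
  | succ k ih =>
    intro n
    unfold ee
    rw [pow_succ, coeff_mul]
    exact B.sum_mem fun p _ => B.mul_mem (ih p.1) (h0 p.2)

omit [Algebra ℚ R] in
lemma d_one (d : R →+ R) (hd : ∀ a b, d (a * b) = d a * b + a * d b) : d 1 = 0 := by
  have h := hd 1 1
  simp only [mul_one, one_mul] at h
  exact left_eq_add.mp h

lemma d_ee_zero (d : R →+ R) (hd : ∀ a b, d (a * b) = d a * b + a * d b) (s : R) (n : ℕ) :
    d (ee d s n 0) = 0 := by
  unfold ee
  rw [pow_zero, coeff_one]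
  split_ifs
  · exact d_one d hd
  · exact map_zero d

lemma expand (d f : R →+ R) (hd : ∀ a b, d (a * b) = d a * b + a * d b) (s : R)
    (hf : ∀ a, d a = d s * f a) (b : R) (n : ℕ) :
    Dq d n b = ∑ k ∈ range (n + 1), Dq f k b * ee d s n k := by
  induction n with
  | zero => simp [Dq_zero, ee]
  | succ n ih =>
    apply cancel n
    rw [← map_Dq, ih, map_sum, Finset.sum_range_succ' _ (n + 1), ee_zero, mul_zero, add_zero,
      Finset.mul_sum]
    have h1 : ∀ k, ((n : R) + 1) * (Dq f (k + 1) b * ee d s (n + 1) (k + 1)) =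
        Dq f (k + 1) b * d (ee d s n (k + 1)) + d (Dq f k b) * ee d s n k := by
      intro k
      rw [mul_left_comm, ee_rec d hd, hf (Dq f k b), map_Dq]
      ring
    simp only [h1, hd, Finset.sum_add_distrib]
    rw [add_comm]
    congr 1
    rw [Finset.sum_range_succ', d_ee_zero d hd, mul_zero, add_zero, Finset.sum_range_succ,
      ee_lt d s (Nat.lt_succ_self n), map_zero, mul_zero, add_zero]

lemma main (B : Subring R) (d f : R →+ R) (hd : ∀ a b, d (a * b) = d a * b + a * d b) (s u : R)
    (hf : ∀ a, d a = d s * f a) (hB : ∀ b ∈ B, ∀ n, Dq d n b ∈ B) (hs : s ∈ B) (hu : u ∈ B)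
    (hus : u * d s = 1) (b : R) (hb : b ∈ B) (n : ℕ) : Dq f n b ∈ B := by
  induction n using Nat.strong_induction_on with
  | _ n ih =>
    have h1 := expand d f hd s hf b n
    rw [Finset.sum_range_succ, ee_self] at h1
    have h2 : Dq f n b = u ^ n * (Dq d n b - ∑ k ∈ range n, Dq f k b * ee d s n k) := by
      rw [h1, add_sub_cancel_left, mul_left_comm, ← mul_pow, hus, one_pow, mul_one]
    rw [h2]
    exact B.mul_mem (B.pow_mem hu n) (B.sub_mem (hB b hb n) (B.sum_mem fun k hk =>
      B.mul_mem (ih k (Finset.mem_range.mp hk)) (ee_mem B d s (hB s hs) k n)))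

end Has

theorem has_stmt : HasStmt := by
  intro R _ _ B d s u hd hB hs hu hus b hb n
  exact Has.main B d ((AddMonoidHom.mulLeft u).comp d) hd s u (fun a => by
    change d a = d s * (u * d a)
    rw [← mul_assoc, mul_comm (d s) u, hus, one_mul]) hB hs hu hus b hb n

end Pool.Agent.B6.D9
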