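import Pool.Agent.Lib.MP_696deb_nt.B7.D9a

/-! The modular equation of degree two for the coordinate of level nine. -/

set_option autoImplicit false

open Filter Topology
open scoped Classical Real

namespace Pool.Agent.B6.D9

open Pool.Agent.Lib.MP_696deb_nt Pool.Agent.B4.GE

namespace Hk

/-- Modular functions with no pole away from infinity. -/
structure Gd (h : ℂ → ℂ) : Prop where
  hol : Hol h
  inv : Inv0 9 h
  bdd : ∀ g : MZ, g.det = 1 → ¬ G0 9 g → Bdd fun z => h (act g z)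

variable {f k : ℂ → ℂ}

theorem Gd.add (h : Gd f) (h' : Gd k) : Gd fun z => f z + k z :=
  ⟨fun z hz => (h.hol z hz).add (h'.hol z hz),
    fun g hg z hz => by simp only [h.inv g hg z hz, h'.inv g hg z hz],
    fun g hg n => (h.bdd g hg n).add (h'.bdd g hg n)⟩

theorem Gd.mul (h : Gd f) (h' : Gd k) : Gd fun z => f z * k z :=
  ⟨fun z hz => (h.hol z hz).mul (h'.hol z hz),
    fun g hg z hz => by simp only [h.inv g hg z hz, h'.inv g hg z hz],
    fun g hg n => (h.bdd g hg n).mul (h'.bdd g hg n)⟩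

theorem gd_const (c : ℂ) : Gd fun _ => c :=
  ⟨fun _ _ => differentiableAt_const c, fun _ _ _ _ => rfl, fun _ _ _ => Bdd.const c⟩

theorem bdd_pow (h : Bdd f) (n : ℕ) : Bdd fun z => f z ^ n := by
  induction n with
  | zero => simpa using Bdd.const 1
  | succ n ih => simpa only [pow_succ] using ih.mul h

theorem Gd.zero (h : Gd f) (hk : Bdd k) (e : ∀ z : ℂ, 0 < z.im → f (2 * z) = q1 z * k z) {z : ℂ}
    (hz : 0 < z.im) : f z = 0 := by
  have h1 : Bdd f := (((QE.q.bdd.mul hk).congr e).comp_affine (r := 1 / 2) (by norm_num) 0).congr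
    fun z _ => by congr 1; push_cast; ring
  obtain ⟨c, hc⟩ := const_of_inv 9 h.hol
    (fun a b c d e z hz => h.inv !![a, b; 9 * c, d] ⟨by simpa using e, by simp⟩ z hz)
    fun a b c d e => by
      by_cases n : G0 9 !![a, b; c, d]
      · exact h1.congr fun z hz => act_of a b c d ▸ h.inv _ n z hz
      · exact act_of a b c d ▸ h.bdd _ (by simpa using e) n
  have : atI.NeBot := Filter.NeBot.comap_of_surj inferInstance Complex.im_surjective
  have h2 : Tendsto (fun z => q1 z * k z) atI (𝓝 0) :=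
    (Asymptotics.isLittleO_one_iff ℝ).1 (by
      simpa using ((Asymptotics.isLittleO_one_iff ℝ).2 tendsto_q1).mul_isBigO hk)
  rw [hc z hz]
  exact tendsto_nhds_unique (tendsto_const_nhds.congr' (ev_pos.mono fun u hu => by
    rw [← e u hu, hc _ (by simpa using hu)])) h2

theorem gd_tt (a : InvStmt) (b : TexStmt) (c : CuspStmt) : Gd tt := by
  obtain ⟨R, hR⟩ := b
  refine ⟨hol_of_pow_mul hR, a, fun g hg n => ?_⟩
  obtain ⟨e, ⟨B, h1, -⟩, h2⟩ := c ⊤ (val_top (by norm_num)) g hg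
  obtain ⟨m, rfl⟩ := Int.exists_eq_neg_ofNat (h2 n)
  refine ((Bdd.const 3).add (((bdd_pow QE.q.bdd m).mul h1.bdd).comp_affine (r := 1 / 9)
    (by norm_num) 0)).congr fun z _ => ?_
  rw [zpow_neg, zpow_natCast, mul_inv_cancel_left₀ (pow_ne_zero _ (q1_ne _)), tt]
  congr 3
  push_cast
  ring

theorem sum_rP (F : ℂ → ℂ) (z : ℂ) : ∑ i, F (act (rP 2 i) z) =
    F (2 * z) + F (z / 2) + F ((z + 1) / 2) := by
  simp [Fintype.sum_option, Fin.sum_univ_two, rP, ut, act_of, mob, add_assoc]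

theorem Gd.sum (h : Gd f) : Gd fun z => f (2 * z) + f (z / 2) + f ((z + 1) / 2) := by
  have p := Nat.prime_two
  simp only [← sum_rP]
  refine ⟨fun z hz => DifferentiableAt.fun_sum fun i _ =>
    (h.hol _ (act_pos (rP_pos p i) hz)).comp z (hol_act (rP_pos p i).ne' z hz),
    fun g hg z hz => ?_, fun g hg n => Asymptotics.IsBigO.fun_sum fun i _ => ?_⟩
  · obtain ⟨σ, hσ⟩ := gee_inv p (by norm_num) h.inv hg
    simp only [hσ z hz]
    exact Equiv.sum_comp σ fun i => f (act (rP 2 i) z)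
  · obtain ⟨j, u, h1, h2⟩ := (isReps_rP p).surj (rP 2 i * g)
      (by rw [Matrix.det_mul, hg, mul_one, (isReps_rP p).det])
    have h3 : Bdd fun z => f (act u z) := h.bdd u h1 fun ⟨_, c, hc⟩ => n ⟨hg, by
      have h4 := congrFun (congrFun h2 1) 0
      cases i <;> cases j <;> simp [rP, ut, Matrix.mul_apply, hc] at h4 <;> omega⟩
    have h5 : ∀ z : ℂ, 0 < z.im → f (act (rP 2 i) (act g z)) = f (act u (act (rP 2 j) z)) :=
      fun z hz => by rw [← act_mul _ (by omega) hz, h2, act_mul _ (rP_pos p _).ne' hz]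
    rcases j with _ | j
    · exact (h3.comp_affine two_pos 0).congr fun z hz => by
        rw [h5 z hz, rP, act_dg]; simp
    · exact (h3.comp_affine (r := 1 / 2) (by norm_num) ((j : ℕ) / 2)).congr fun z hz => by
        rw [h5 z hz, act_rP_some]; congr 2; push_cast; ring

theorem expn (b : TexStmt) : ∃ ρ, Bdd ρ ∧ ∀ z : ℂ, 0 < z.im →
    tt z = (1 + 5 * q1 z ^ 3 - 7 * q1 z ^ 6 + q1 z ^ 7 * ρ z) / q1 z := by
  obtain ⟨R, hR⟩ := b
  have h1 := hR.sub (((QE.const 1).add ((QE.ofNat 5).mul (QE.q.pow 3))).sub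
    ((QE.ofNat 7).mul (QE.q.pow 6)))
  rw [show _ - _ = PowerSeries.X ^ 7 * toC R by simp [map_ofNat]] at h1
  refine ⟨_, h1.of_X_pow_mul.bdd, fun z hz => ?_⟩
  have := q1_ne z
  field_simp
  ring

theorem four (b : TexStmt) : ∃ α μ ν δ, Bdd α ∧ Bdd μ ∧ Bdd ν ∧ Bdd δ ∧ ∀ z : ℂ, 0 < z.im →
    tt (2 * (2 * z)) = (1 + q1 z ^ 7 * α z) / q1 z ^ 4 ∧
    tt (2 * z / 2) + tt ((2 * z + 1) / 2) = 10 * q1 z ^ 2 + q1 z ^ 6 * μ z ∧
    tt (2 * z / 2) * tt ((2 * z + 1) / 2) = (39 * q1 z ^ 6 - 1 + q1 z ^ 7 * ν z) / q1 z ^ 2 ∧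
    tt (2 * z) = (1 + 5 * q1 z ^ 6 + q1 z ^ 7 * δ z) / q1 z ^ 2 := by
  obtain ⟨ρ, h, e⟩ := expn b
  have hq := QE.q.bdd
  have h4 := h.comp_affine four_pos 0
  have h2 := h.comp_affine two_pos 0
  have h1 := h.comp_affine one_pos (1 / 2)
  refine ⟨fun z => 5 * q1 z ^ 5 - 7 * q1 z ^ 17 + q1 z ^ 21 * ρ ((4 : ℝ) * z + 0),
    fun z => ρ z + ρ ((1 : ℝ) * z + 1 / 2), fun z => q1 z ^ 7 * ρ z * ρ ((1 : ℝ) * z + 1 / 2) -
      49 * q1 z ^ 5 - ρ z * (1 - 5 * q1 z ^ 3 - 7 * q1 z ^ 6) +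
      ρ ((1 : ℝ) * z + 1 / 2) * (1 + 5 * q1 z ^ 3 - 7 * q1 z ^ 6),
    fun z => q1 z ^ 7 * ρ ((2 : ℝ) * z + 0) - 7 * q1 z ^ 5, ?_, ?_, ?_, ?_, fun z hz => ?_⟩
  iterate 4 repeat' with_reducible first
    | assumption | exact Bdd.const _ | apply Bdd.add | apply Bdd.sub | apply Bdd.mul | apply bdd_pow
  have := q1_ne z
  have a1 : q1 (2 * z) = q1 z ^ 2 := q1_nat_mul 2 z
  have a2 : q1 (4 * z) = q1 z ^ 4 := q1_nat_mul 4 z
  have a3 : q1 (z + 1 / 2) = -q1 z := by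
    rw [q1_add, q1.eq_1 (1 / 2), show 2 * π * Complex.I * (1 / 2) = π * Complex.I by ring,
      Complex.exp_pi_mul_I, mul_neg_one]
  rw [show 2 * (2 * z) = 4 * z by ring, show 2 * z / 2 = z by ring,
    show (2 * z + 1) / 2 = z + 1 / 2 by ring, e z hz, e (2 * z) (by simpa using hz),
    e (4 * z) (by simpa using hz), e (z + 1 / 2) (by simpa using hz), a1, a2, a3]
  simp only [Complex.ofReal_ofNat, Complex.ofReal_one, add_zero, one_mul]
  refine ⟨?_, ?_, ?_, ?_⟩ <;> field_simp <;> ring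

end Hk

open Hk in
theorem hk_stmt (a : InvStmt) (b : TexStmt) (c : CuspStmt) (_ : PolyStmt) : HkStmt := by
  intro z hz
  have t1 := gd_tt a b c
  have t2 := t1.mul t1
  have t3 := t2.mul t1
  have p1 := t1.sum
  have p2 := t2.sum
  have p3 := t3.sum
  obtain ⟨α, μ, ν, δ, b1, b2, b3, b4, e⟩ := four b
  have hq := QE.q.bdd
  have d1 := (p1.add ((gd_const (-1)).mul t2)).zero (k := fun u => q1 u ^ 2 * α u +
    q1 u ^ 5 * μ u - 25 * q1 u ^ 7 - 2 * q1 u ^ 2 * δ u - 10 * q1 u ^ 8 * δ u -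
    q1 u ^ 9 * δ u ^ 2) ?_ (fun u hu => ?_) hz
  have d2 := (((p1.mul p1).add ((gd_const (-1)).mul p2)).add ((gd_const (-18)).mul t1)).zero
    (k := fun u => 2 * (q1 u * μ u + 10 * q1 u ^ 4 * α u + q1 u ^ 8 * α u * μ u -
      6 * q1 u ^ 3 + q1 u ^ 4 * ν u - 9 * q1 u ^ 4 * δ u)) ?_ (fun u hu => ?_) hz
  have d3 := ((((((p1.mul p1).mul p1).add ((gd_const (-3)).mul (p1.mul p2))).add
    ((gd_const 2).mul p3)).add ((gd_const 6).mul t3)).add (gd_const (-324))).zero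
    (k := fun u => 6 * (ν u - α u + 39 * q1 u ^ 6 * α u + q1 u ^ 7 * α u * ν u + 3 * δ u +
      3 * q1 u ^ 5 * (5 + q1 u * δ u) ^ 2 + q1 u ^ 11 * (5 + q1 u * δ u) ^ 3)) ?_
    (fun u hu => ?_) hz
  · exact ⟨by linear_combination d1, by linear_combination d2 / 2, by linear_combination d3 / 6⟩
  iterate 3
    repeat' with_reducible first
      | assumption | exact Bdd.const _ | apply Bdd.add | apply Bdd.sub | apply Bdd.mul
      | apply bdd_pow
    rotate_left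
  all_goals
    obtain ⟨e1, e2, e3, e4⟩ := e u hu
    have := q1_ne u
  · trans 6 * (tt (2 * (2 * u)) * (tt (2 * u / 2) * tt ((2 * u + 1) / 2)) - 54 + tt (2 * u) ^ 3)
    · ring
    · rw [e1, e3, e4]; field_simp; ring
  · trans 2 * (tt (2 * (2 * u)) * (tt (2 * u / 2) + tt ((2 * u + 1) / 2)) +
      tt (2 * u / 2) * tt ((2 * u + 1) / 2) - 9 * tt (2 * u))
    · ring
    · rw [e1, e2, e3, e4]; field_simp; ring
  · rw [add_assoc (tt _), e1, e2, e4]; field_simp; ring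

end Pool.Agent.B6.D9
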