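import Pool.Agent.Lib.MP_696deb_nt.B7.D9c

/-! Values of modular functions at Heegner points are integral and Galois equivariant. -/

set_option autoImplicit false

namespace Pool.Agent.B6.D9

open Pool.Agent.Lib.MP_696deb_nt Pool.Agent.Lib.MP_696deb_nt.B2 Pool.Agent.Lib.MP_696deb_nt.B2.CM
open Pool.Agent.B6.B7.Dn (jQ_tau)

theorem hv_stmt (hPc : PcStmt) (hAlg : AlgStmt) : HvStmt := by
  intro L q c r w A h X hc hG
  have ok := X.ok.of_ne hc
  have hL := ok.N_ne
  have k0 : ∀ u, jC (hv L q c r h u) = h (hp L q c r u) := fun u =>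
    Function.invFun_eq (hAlg L h _ _ hL hG.2 (hp_spec ok u).1.pos
      (jQ_tau ok.toOk (hp_spec ok u).1))
  refine ⟨fun τ hτ => ?_, fun u => (X.ov _).1.1 ?_, fun g hg u => jC.injective ?_⟩
  · have s := hp_spec ok (cl _ (sp2 τ 1))
    rw [k0]
    exact (hPc L q c r τ _ 1 (RingEquiv.refl ℂ) ok X.sqf X.big (one_mem _) (fun _ => rfl) hτ s.1
      (by rw [s.2, rho_one ok.toOk, one_mul])).ev h h (hG.2 _)
  · have s := hp_spec ok u
    rw [k0]
    refine hG.1.val hL s.1.pos ?_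
    rw [← jQ_tau ok.toOk s.1]
    exact (X.ov _).1.2 (V_jQ ok.toOk w _)
  · obtain ⟨σ, e⟩ := exists_ex g
    have s := hp_spec ok u
    have s' := hp_spec ok (rho q c g * u)
    rw [← e, k0, k0]
    exact ((hPc L q c r _ _ g σ ok X.sqf X.big hg e s.1 s'.1 (by rw [s'.2, s.2])).ev h h
      (hG.2 σ)).symm

end Pool.Agent.B6.D9
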