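import Pool.Agent.Lib.MP_696deb_nt.B7.D9a

/-! The coordinate: invariance, expansion at infinity and integrality. -/

set_option autoImplicit false

open PowerSeries Complex
open scoped Real ModularForm

namespace Pool.Agent.B6.D9

open Pool.Agent.Lib.MP_696deb_nt Pool.Agent.B4.GE

namespace InvA

theorem rr_eq {z : ℂ} (hz : 0 < z.im) : rr z = (eta13 z / eta13 (3 * z)) ^ 3 := by
  rw [rr, eta13, eta13, show 3 * (3 * z) = 9 * z by ring, mul_comm (η z),
    mul_div_mul_left _ _ (eta_ne (im_mul_pos hz))]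

theorem e12_cube (a b c d : ZMod 12) :
    e12 (PhiE a b (3 * c) d) ^ 3 = e12 (PhiE a (3 * b) c d) ^ 3 := by
  have h : (12 : ZMod 12) = 0 := rfl
  simp only [pow_three, ← e12_add, PhiE]
  congr 1
  linear_combination (3 * (c - b) - 4 * d * (b + c)) * h

theorem q_rr (z : ℂ) : q1 z * rr z = (eul (q1 z) * (eul (q1 (9 * z)))⁻¹) ^ 3 := by
  have e : q1 z * (cexp (2 * π * I * z / 24) / cexp (2 * π * I * (9 * z) / 24)) ^ 3 = 1 := by
    rw [← exp_sub, ← exp_nat_mul, q1, ← exp_add, ← exp_zero]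
    congr 1
    push_cast
    ring
  rw [rr, eta_eq, eta_eq, mul_div_mul_comm, mul_pow, ← mul_assoc, e, one_mul, div_eq_mul_inv]

theorem P1_seven : ∃ R : ℤ⟦X⟧, P1 = 1 - X - X ^ 2 + X ^ 5 + X ^ 7 * R := by
  obtain ⟨R, h⟩ := P1_low
  have h5 := coeff_pentagonalSeries_pentagonal ℤ 2
  have h6 : coeff 6 (pentagonalSeries ℤ) = 0 := by
    refine coeff_pentagonalSeries_eq_zero ℤ ?_
    rintro ⟨k, hk⟩
    have := two_mul_natCast_pentagonal k
    rw [hk] at this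
    push_cast at this
    have h4 : -2 < k := by nlinarith
    have h5 : k < 3 := by nlinarith
    interval_cases k <;> omega
  rw [show pentagonal 2 = 5 from rfl] at h5
  rw [← P1, h] at h5 h6
  obtain ⟨S, hS⟩ : (X : ℤ⟦X⟧) ^ 2 ∣ R - 1 := by
    rw [X_pow_dvd_iff]
    intro m hm
    simp [coeff_one, coeff_X, coeff_X_pow, coeff_X_pow_mul', -coeff_zero_eq_constantCoeff,
      show Int.negOnePow 2 = 1 from rfl] at h5 h6
    interval_cases m <;> simp [h5, h6, coeff_one, -coeff_zero_eq_constantCoeff]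
  exact ⟨S, by linear_combination h + X ^ 5 * hS⟩

theorem UL.mem {A : ValuationSubring ℂ} {e : ℤ} {F : ℂ → ℂ} (h : UL A e F) :
    F ∈ LR A.valuation.integer := by
  obtain ⟨B, h1, h2, -⟩ := h
  refine ⟨e.toNat, _, (h1.pow_mul (-e).toNat).congr fun z _ => ?_, h2.X_pow_mul _⟩
  rw [← mul_assoc, ← zpow_natCast, ← zpow_natCast, ← zpow_add₀ (q1_ne z)]
  congr 2
  omega

end InvA

open InvA

theorem inv_stmt : InvStmt := fun g ⟨h, c, hc⟩ z hz => by
  have p := act_pos (M := g) (by omega) hz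
  rw [Matrix.det_fin_two, hc] at h
  push_cast at h hc
  have h1 := eta13_tr (g 0 0) (g 0 1) (3 * c) (g 1 1) (by linear_combination h) z hz
  have h2 := eta13_tr (g 0 0) (3 * g 0 1) c (g 1 1) (by linear_combination h) _
    (im_mul_pos (r := 3) hz)
  have d0 := den_ne (a := g 0 0) (b := g 0 1) (c := 9 * c) (d := g 1 1) (by omega) hz
  have e1 : act g z = mob (g 0 0) (g 0 1) (3 * (3 * c)) (g 1 1) z := by
    rw [act, hc, ← mul_assoc]
    rfl
  have e2 : 3 * act g z = mob (g 0 0) (3 * g 0 1) (3 * c) (g 1 1) (3 * z) := by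
    simp only [act, hc, mob]
    push_cast
    ring
  have e3 := e12_cube (g 0 0) (g 0 1) c (g 1 1)
  rw [tt, tt, rr_eq p, rr_eq hz, e2, h2, e1, h1]
  push_cast at d0 ⊢
  rw [show 3 * (3 * c : ℂ) * z = 9 * c * z by ring, show 3 * (c : ℂ) * (3 * z) = 9 * c * z by ring,
    mul_div_mul_comm, mul_div_mul_right _ _ d0, mul_pow, div_pow, e3,
    div_self (pow_ne_zero _ (e12_ne _)), one_mul]

theorem tex_stmt : TexStmt := by
  have h1 : P1 * invOfUnit P1 1 = 1 := mul_invOfUnit _ _ (by simp [cc_P1])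
  have h2 := (qe_P1.inv (B := toC (invOfUnit P1 1)) (fun _ => eul_ne)
    (by rw [← map_mul, h1, map_one])).expand 9 (by decide)
  obtain ⟨R, hR⟩ := P1_seven
  obtain ⟨S, hS⟩ : (X : ℤ⟦X⟧) ∣ invOfUnit P1 1 - 1 := X_dvd_iff.2 (by simp)
  have h3 : P1 * expand 9 (by decide) (invOfUnit P1 1) - (1 - X - X ^ 2 + X ^ 5) =
      X ^ 7 * (R + X ^ 2 * expand 9 (by decide) S * P1) := by
    rw [eq_add_of_sub_eq hS, map_add, map_mul, expand_X, map_one]
    linear_combination hR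
  obtain ⟨T, hT⟩ := (Dvd.intro _ h3.symm).trans (sub_dvd_pow_sub_pow _ _ 3)
  refine ⟨T - 3 + 6 * X + 3 * X ^ 2 + 3 * X ^ 3 - 3 * X ^ 4 - 3 * X ^ 5 + X ^ 8, ?_⟩
  rw [show 1 + 5 * X ^ 3 - 7 * X ^ 6 + X ^ 7 * (T - 3 + 6 * X + 3 * X ^ 2 + 3 * X ^ 3 - 3 * X ^ 4 -
    3 * X ^ 5 + X ^ 8) = 3 * X + (P1 * expand 9 (by decide) (invOfUnit P1 1)) ^ 3 by
      linear_combination -hT, map_add, map_mul, map_pow, map_mul, map_expand, map_ofNat, map_X]
  refine (((QE.ofNat 3).mul QE.q).add ((qe_P1.mul h2).pow 3)).congr fun z _ => ?_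
  rw [tt, pow_one, mul_add, q_rr, mul_comm, Nat.cast_ofNat]

theorem tim_stmt (hInv : InvStmt) (hTex : TexStmt) (hCusp : CuspStmt) : TimStmt :=
  fun A L h9 hL => by
  have k : IM A 9 tt := ⟨hInv, fun g hg => by
    obtain ⟨e, he, -⟩ := hCusp A (val_three hL h9) g hg
    exact add_mem (const_mem _ (val_three hL h9).le) (UL.mem he)⟩
  have k' := k.lev h9 (ne_of_val hL)
  obtain ⟨R, hR⟩ := hTex
  exact ⟨k', fun σ => ⟨k'.mf, k'.mf, G5.LZ.cq ⟨1, _, hR⟩⟩⟩

end Pool.Agent.B6.D9
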