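import Pool.Agent.Lib.MP_696deb_nt.B7.D9a

/-! The modular invariant as a rational function of the coordinate. -/

set_option autoImplicit false

open Polynomial Filter Topology
open scoped Classical

namespace Pool.Agent.B6.D9

open Pool.Agent.Lib.MP_696deb_nt Pool.Agent.B4.GE

namespace J

variable {A : ValuationSubring ℂ} {F G : ℂ → ℂ} {P Q : ℂ[X]} {c : ℂ}

/-- Integral expansions with constant term one. -/
def U1 (A : ValuationSubring ℂ) (F : ℂ → ℂ) : Prop :=
  ∃ B, QE F B ∧ Cf A.valuation.integer.toAddSubgroup B ∧ PowerSeries.coeff 0 B = 1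

theorem U1.mul (h : U1 A F) (h' : U1 A G) : U1 A fun z => F z * G z := by
  obtain ⟨B, h1, h2, h3⟩ := h
  obtain ⟨B', h4, h5, h6⟩ := h'
  exact ⟨_, h1.mul h4, h2.mul h5 fun _ hs _ ht => A.valuation.integer.mul_mem hs ht, by
    rw [PowerSeries.coeff_zero_eq_constantCoeff] at h3 h6 ⊢
    rw [map_mul, h3, h6, one_mul]⟩

theorem cf_toC (B : PowerSeries ℤ) : Cf A.valuation.integer.toAddSubgroup (toC B) := fun k => by
  rw [PowerSeries.coeff_map]
  exact intCast_mem A.valuation.integer _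

/-- Monic integral polynomials whose value at the coordinate has leading term one. -/
def Good (A : ValuationSubring ℂ) (Q : ℂ[X]) : Prop :=
  Q.Monic ∧ I1 A Q ∧ U1 A fun z => q1 z ^ Q.natDegree * Q.eval (tt z)

theorem Good.mul (h : Good A P) (h' : Good A Q) : Good A (P * Q) := by
  refine ⟨h.1.mul h'.1, fun k => ?_, ?_⟩
  · rw [coeff_mul]
    exact A.valuation.integer.sum_mem fun x _ => A.valuation.integer.mul_mem (h.2.1 _) (h'.2.1 _)
  · obtain ⟨B, h1, h2⟩ := h.2.2.mul h'.2.2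
    exact ⟨B, h1.congr fun z _ => by rw [h.1.natDegree_mul h'.1, eval_mul]; ring, h2⟩

theorem good_one : Good A 1 := by
  refine ⟨monic_one, fun k => ?_, _, (QE.const 1).congr fun z _ => by simp,
    Cf.const A.valuation.integer.one_mem, by simp⟩
  rw [coeff_one]
  split_ifs <;> simp

theorem good_lin (hT : TexStmt) (hc : A.valuation c ≤ 1) : Good A (X - C c) := by
  obtain ⟨R, hR⟩ := hT
  refine ⟨monic_X_sub_C c, fun k => ?_, _, (hR.sub ((QE.const c).pow_mul 1)).congr fun z _ => by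
    simp [mul_sub], (cf_toC _).sub ((Cf.const hc).X_pow_mul 1), by simp⟩
  rw [coeff_sub, coeff_X, coeff_C]
  refine A.valuation.map_sub_le ?_ ?_ <;> split_ifs <;> simp [hc]

theorem Good.pow (h : Good A P) (n : ℕ) : Good A (P ^ n) := by
  induction n with
  | zero => simpa using good_one
  | succ n ih => simpa only [pow_succ] using ih.mul h

theorem cusp (hC : CuspStmt) (h3 : A.valuation 3 = 1) {g : MZ} (hg : g.det = 1) :
    ∃ c, A.valuation c ≤ 1 ∧ (¬ G0 9 g → ∀ Q : ℂ[X],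
      Bdd fun z => ((X - C c) ^ 9 * Q).eval (tt (act g z)) * jf z) := by
  by_cases h0 : G0 9 g
  · exact ⟨0, by simp, fun h => absurd h0 h⟩
  obtain ⟨e, ⟨B, h1, h2, -⟩, h4⟩ := hC A h3 g hg
  obtain ⟨m, rfl⟩ := Int.exists_eq_neg_ofNat (h4 h0)
  have h5 : QE (fun z => tt (act g (9 * z))) (PowerSeries.C 3 + PowerSeries.X ^ m * B) :=
    ((QE.const 3).add (h1.pow_mul m)).congr fun z _ => by
      rw [tt, zpow_neg, zpow_natCast, mul_inv_cancel_left₀ (pow_ne_zero _ (q1_ne z))]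
  have h6 := ((Cf.const (S := A.valuation.integer.toAddSubgroup) h3.le).add (h2.X_pow_mul m)) 0
  generalize PowerSeries.C 3 + PowerSeries.X ^ m * B = D at h5 h6
  refine ⟨_, h6, fun _ Q => ?_⟩
  obtain ⟨E, hE⟩ : PowerSeries.X ∣ D - PowerSeries.C (PowerSeries.coeff 0 D) := by
    rw [PowerSeries.X_dvd_iff]
    simp
  have h7 := h5.sub (QE.const (PowerSeries.coeff 0 D))
  rw [hE, ← pow_one PowerSeries.X] at h7
  have h8 := Bdd.of_tendsto (((h7.of_X_pow_mul.tendsto.pow 9).mul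
    ((Q.continuous.tendsto _).comp h5.tendsto)).mul (qe_jf.expand 9 (by decide)).tendsto)
  refine (h8.comp_affine (r := 9⁻¹) (by norm_num) 0).congr fun z _ => ?_
  have e : (9 : ℂ) * (((9⁻¹ : ℝ) : ℂ) * z + 0) = z := by push_cast; ring
  have e1 := q1_nat_mul 9 (((9⁻¹ : ℝ) : ℂ) * z + 0)
  have e2 := q1_ne (((9⁻¹ : ℝ) : ℂ) * z + 0)
  simp only [Function.comp, Nat.cast_ofNat, e] at e1 ⊢
  rw [e1, eval_mul, eval_pow, eval_sub, eval_X, eval_C]
  generalize q1 _ = w at e2
  field_simp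

end J

theorem j_stmt (hI : InvStmt) (hT : TexStmt) (hC : CuspStmt) (hP : PolyStmt) : JStmt := by
  intro A h3
  have := finite_CI (N := 9) (by decide)
  have := Fintype.ofFinite (CI 9)
  choose c hc hb using fun i : CI 9 => J.cusp hC h3 (cr_det i)
  set Q : ℂ[X] := ∏ i, (X - C (c i)) ^ 9 with hQ
  have hG : J.Good A Q := Finset.prod_induction _ _ (fun _ _ => J.Good.mul) J.good_one
    fun i _ => (J.good_lin hT (hc i)).pow 9
  obtain ⟨B, h1, h2, h4⟩ := hG.2.2.mul
    ⟨_, qe_jf, J.cf_toC _, by simp [cc_Js]⟩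
  obtain ⟨P, p1, p2, p3, p4⟩ := hP _ (Q.natDegree + 1) (fun z => Q.eval (tt z) * jf z) B
    (fun g hg z hz => by simp only [hI g hg z hz, jf_act hg.1 hz]) (fun g hg h0 => by
      obtain ⟨i, γ, h5, rfl⟩ := cr_surj (N := 9) (by decide) hg
      have h6 := cr_det i
      obtain ⟨Q', h7⟩ : (X - C (c i)) ^ 9 ∣ Q := Finset.dvd_prod_of_mem _ (Finset.mem_univ i)
      refine (hb i (fun h => h0 (h5.mul ⟨h6, h.2⟩)) Q').congr fun z hz => ?_
      rw [jf_act hg hz, act_mul _ (by omega) hz, hI _ h5 _ (act_pos (by omega) hz), h7])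
    (h1.congr fun z _ => by ring) h2
  rw [h4] at p3
  exact ⟨P, Q, monic_of_natDegree_le_of_coeff_eq_one _ p2 p3, hG.1, p1, hG.2.1,
    natDegree_eq_of_le_of_coeff_ne_zero p2 (by simp [p3]), p4⟩

end Pool.Agent.B6.D9
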