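import Pool.Agent.Lib.MP_696deb_nt.B7.D9v

/-! The kernel of the descent map over the inertia field. -/

set_option autoImplicit false

open scoped Classical NNReal

namespace Pool.Agent.B6.D9

open Pool.Agent.Lib.MP_696deb_nt Pool.Agent.Lib.MP_696deb_nt.B2

variable [Cw]

theorem kc_stmt (ps : PsStmt) (rt : RtStmt) : KcStmt := by
  intro hs w hw Y hY ⟨b, b0, b1, b2⟩
  obtain ⟨ψ, p1, p2, p3, p4⟩ := ps
  obtain ⟨-, r1, ⟨τ, hτ, t0, t1, t2⟩, -⟩ := rt hs w hw
  obtain ⟨R, rfl⟩ := exists_half Y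
  have c : ∀ g ∈ Ine w, 2 • (g • R - R) = 0 := fun g hg => by
    rw [smul_sub, smul_comm, hY g hg, sub_self]
  have o : ∀ g : Gam, g (er 0) = er 0 ∨ g (er 0) = er 1 ∨ g (er 0) = er 2 := fun g =>
    cub_eq_zero.1 (by rw [← map_cub, cub_er, map_zero])
  have n : ∀ g ∈ JF w, ∀ h ∈ Ine w, h⁻¹ * g * h ∈ JF w := fun g hg h hh => by
    refine mem_JF.2 ⟨mul_mem (mul_mem (inv_mem hh) hg.1) hh, ?_⟩
    have e : g (h (er 0)) = h (er 0) := by
      rcases o h with e | e | e <;> rw [e]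
      exacts [hg.2, (r1 g hg).1, (r1 g hg).2]
    rw [AlgEquiv.mul_apply, AlgEquiv.mul_apply, e]
    exact h.symm_apply_apply _
  have f : ∀ g ∈ JF w, ∀ U : EE, 2 • U = 0 → g • U = U := fun g hg U hU => by
    rcases two_eq_zero.1 hU with rfl | rfl | rfl | rfl
    exacts [smul_zero g, (two_fix g hU).2 hg.2, (two_fix g hU).2 (r1 g hg).1,
      (two_fix g hU).2 (r1 g hg).2]
  have a : ∀ g ∈ JF w, g • R - R = 0 ∨ g • R - R = T1 := fun g hg => by
    have e := p1 R
    rw [b2, mul_one] at e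
    have e1 : ψ (g • R) = ψ R := by
      rw [p2 g hg.2]
      rcases sq_eq_sq_iff_eq_or_eq_neg.1 e with k | k <;> simp [k, b1 g hg]
    have e2 : ψ (g • R) ≠ -ψ R := fun k => by
      rw [e1, self_eq_neg] at k
      exact pow_ne_zero 2 b0 (by rw [← e, k, zero_pow two_ne_zero])
    rcases two_eq_zero.1 (c g hg.1) with k | k | k | k
    · exact .inl k
    · exact .inr k
    · exact absurd (by rw [eq_add_of_sub_eq' k, p4]) e2
    · exact absurd (by rw [eq_add_of_sub_eq' k, ← T1_add_T2, ← add_assoc, p4, p3]) e2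
  have j : ∀ g ∈ JF w, g • R = R := fun g hg => by
    refine sub_eq_zero.1 ((a g hg).resolve_right fun k => ?_)
    have e := a _ (n g hg τ hτ)
    have e1 : g • τ • R = τ • R + T1 := by
      rw [← sub_add_cancel (τ • R) R, smul_add, f g hg _ (c τ hτ), eq_add_of_sub_eq' k, add_assoc]
    rw [mul_smul, mul_smul, e1, smul_add, inv_smul_smul, add_sub_cancel_left, smul_eq_zero_iff_eq,
      inv_smul_eq_iff] at e
    refine er_ne.1 ?_
    rw [← t0, ← xco_T1, ← xco_smul, ← e.resolve_left T_ne.1]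
  have j' : ∀ g ∈ JF w, ∀ h ∈ Ine w, g • h • R = h • R := fun g hg h hh => by
    have e := j _ (n g hg h hh)
    rwa [mul_smul, mul_smul, inv_smul_eq_iff] at e
  have h2 := mul_mem hτ hτ
  have s : τ • (R + τ • R + (τ * τ) • R - 2 • R) = R + τ • R + (τ * τ) • R - 2 • R := by
    have e := j (τ * (τ * τ)) ⟨mul_mem hτ h2, by simp [t0, t1, t2]⟩
    rw [smul_sub, smul_add, smul_add, hY τ hτ, ← mul_smul, ← mul_smul, e]
    abel
  have s' : ∀ g ∈ JF w, g • (R + τ • R + (τ * τ) • R - 2 • R) =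
      R + τ • R + (τ * τ) • R - 2 • R := fun g hg => by
    rw [smul_sub, smul_add, smul_add, hY g hg.1, j g hg, j' g hg τ hτ, j' g hg _ h2]
  refine ⟨R + τ • R + (τ * τ) • R - 2 • R, fun g hg => ?_, ?_⟩
  · rcases o g with e | e | e
    · exact s' g ⟨hg, e⟩
    · have k := s' (τ * (τ * g)) ⟨mul_mem hτ (mul_mem hτ hg), by simp [e, t1, t2]⟩
      rw [mul_smul, mul_smul] at k
      exact MulAction.injective τ (MulAction.injective τ (by simp only [k, s]))
    · have k := s' (τ * g) ⟨mul_mem hτ hg, by simp [e, t2]⟩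
      rw [mul_smul] at k
      exact MulAction.injective τ (by simp only [k, s])
  · rw [smul_sub, smul_add, smul_add, smul_comm 2 τ, smul_comm 2 (τ * τ), hY τ hτ, hY _ h2,
      two_nsmul (2 • R)]
    abel

end Pool.Agent.B6.D9
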