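import Pool.Agent.Lib.MP_696deb_nt.B7.D9v

/-! The descent map is multiplicative up to squares, also on families permuted by the group. -/

set_option autoImplicit false

open scoped Classical NNReal

namespace Pool.Agent.B6.D9

open Pool.Agent.Lib.MP_696deb_nt Pool.Agent.Lib.MP_696deb_nt.B2

variable [Cw]

theorem kn_stmt (h : PsStmt) : KnStmt := by
  obtain ⟨ψ, h1, h2, h3, h4⟩ := h
  have n0 : ∀ R, ψ R ≠ 0 := fun R e => kap_ne (2 • R) (by rw [← h1, e]; ring)
  have k1 : ∀ T : EE, 2 • T = 0 → ∀ R, ψ (R + T) = ψ T / ψ 0 * ψ R := fun T hT R => by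
    have e1 : ψ T1 = ψ 0 := by rw [← h3 0, zero_add]
    have e2 : ψ T2 = -ψ 0 := by rw [← h4 0, zero_add]
    rcases two_eq_zero.1 hT with rfl | rfl | rfl | rfl
    · rw [add_zero, div_self (n0 0), one_mul]
    · rw [h3, e1, div_self (n0 0), one_mul]
    · rw [h4, e2, neg_div, div_self (n0 0), neg_one_mul]
    · rw [← T1_add_T2, ← add_assoc, h4, h3, h4, e1, neg_div, div_self (n0 0), neg_one_mul]
  intro H hH
  refine ⟨fun R hR => ⟨ψ R, n0 R, fun g hg => by rw [← h2 g (hH g hg), hR g hg],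
    by rw [h1, mul_one]⟩, fun ι _ P hP => ?_⟩
  choose R hR using fun i => exists_half (P i)
  have p0 : ∏ i, ψ (R i) ≠ 0 := Finset.prod_ne_zero_iff.2 fun i _ => n0 _
  refine ⟨ψ (∑ i, R i) / ∏ i, ψ (R i), div_ne_zero (n0 _) p0, fun g hg => ?_, ?_⟩
  · obtain ⟨u, hu⟩ := hP g hg
    have t2 : ∀ i, 2 • (g • R i - R (u i)) = 0 := fun i => by
      rw [smul_sub, smul_comm, hR, hR, hu, sub_self]
    have k2 : ∀ (s : Finset ι) (S : EE), ψ (S + ∑ i ∈ s, (g • R i - R (u i))) =
        (∏ i ∈ s, ψ (g • R i - R (u i)) / ψ 0) * ψ S := fun s => by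
      induction s using Finset.induction_on with
      | empty => simp
      | insert i s hi ih =>
        intro S
        rw [Finset.sum_insert hi, Finset.prod_insert hi, ← add_assoc, ih, k1 _ (t2 i)]
        ring
    have a1 : g (ψ (∑ i, R i)) = (∏ i, ψ (g • R i - R (u i)) / ψ 0) * ψ (∑ i, R i) := by
      rw [← h2 g (hH g hg), ← k2, Finset.sum_sub_distrib, Equiv.sum_comp u R, Finset.smul_sum,
        add_sub_cancel]
    have a2 : g (∏ i, ψ (R i)) = (∏ i, ψ (g • R i - R (u i)) / ψ 0) * ∏ i, ψ (R i) := by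
      rw [map_prod, ← Equiv.prod_comp u fun i => ψ (R i), ← Finset.prod_mul_distrib]
      refine Finset.prod_congr rfl fun i _ => ?_
      rw [← h2 g (hH g hg), ← k1 _ (t2 i), add_sub_cancel]
    rw [map_div₀, a1, a2, mul_div_mul_left]
    exact Finset.prod_ne_zero_iff.2 fun i _ => div_ne_zero (n0 _) (n0 _)
  · have e1 : ∑ i, P i = 2 • ∑ i, R i := by
      rw [Finset.smul_sum]
      exact Finset.sum_congr rfl fun i _ => (hR i).symm
    have e2 : ∏ i, kap (P i) = (∏ i, ψ (R i)) ^ 2 := by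
      rw [← Finset.prod_pow]
      exact Finset.prod_congr rfl fun i _ => by rw [h1, hR]
    rw [e1, e2, ← h1, ← mul_pow, div_mul_cancel₀ _ p0]

end Pool.Agent.B6.D9
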