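import Pool.Agent.Lib.MP_696deb_nt.B7.D9c
import Pool.Agent.Lib.MP_696deb_nt.B2.LO3

/-! The congruence of Kronecker for values at Heegner points. -/

set_option autoImplicit false

open scoped Classical
open Polynomial

namespace Pool.Agent.B6.D9

open Pool.Agent.Lib.MP_696deb_nt Pool.Agent.Lib.MP_696deb_nt.B2 Pool.Agent.Lib.MP_696deb_nt.B2.CM
open Pool.Agent.B4 (HgN)
open Pool.Agent.B4.GE (RF)
open Pool.Agent.Lib.MP_696deb_nt.B3.CM (exists_up)
open Pool.Agent.B6.CM (act_rP)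
open Pool.Agent.B6.B7.Dn (OkD exists_hg hg_nb)

namespace Kr

variable {L q c : ℕ} {r : ℤ} {w : Plc} {A : ValuationSubring ℂ} {h : ℂ → ℂ}

/-- The residues lie in the field with four elements. -/
theorem four (hH : HvStmt) (cx : Cx L q r w A) (hc : c ≠ 0) (hg : Gf A L h) (u : Pc q c) :
    w.V (hv L q c r h u ^ 4 - hv L q c r h u) < 1 := by
  obtain ⟨-, h2, h3⟩ := hH L q c r w A h cx hc hg
  obtain ⟨φ, hφ⟩ := exists_frob w
  rw [cx.p2] at hφ
  have out := lo3_inert cx.m8 cx.p2 hφ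
  have e := h3 (φ * φ) (mul_mem_GK out out) u
  rw [rho_sq (cx.ok.of_ne hc).toOk out, one_mul] at e
  have k := (hφ.mul hφ).2 _ (h2 u)
  rwa [e, Valuation.map_sub_swap] at k

/-- A point has a neighbour in the class below it. -/
theorem down (cx : Cx L q r w A) (hc : c ≠ 0) {τ : ℂ} (h : HgN L q (c * 2) r τ) :
    ∃ j, HgN L q c r (hk 2 τ j) ∧
      cl (Oc q c) (sp2 (hk 2 τ j) 1) = pj q c (c * 2) (cl _ (sp2 τ 1)) := by
  have hl := Nat.prime_two
  have l2 : ((2 : ℕ) : ℂ) ≠ 0 := by exact_mod_cast hl.ne_zero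
  have ok0 := cx.ok.of_ne hc
  have cop : Nat.Coprime 2 L := Nat.coprime_two_left.2 cx.odd
  obtain ⟨j, e1, -⟩ := exists_up (a := 1) ok0.toOk hl (cmd_one hl) h.pos.ne' one_ne_zero
    (by rw [sc_one]; exact h.iv)
  simp only [sc_one] at e1
  have hO := h.iv.ext (Oc_le q (dvd_mul_right c 2))
  obtain ⟨h3, h4⟩ := hg_nb ok0 hl.pos h j (e1 ▸ hO.sc l2) (m := 2 * 2)
    (Nat.Coprime.mul_left cop cop) (by ring)
  exact ⟨j, h3, by rw [pj_cl (dvd_mul_right c 2) h.iv, ← cl_sc hO l2, ← e1, ← h4]⟩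

end Kr

theorem kr_stmt (hH : HvStmt) (hR : RfStmt) : KrStmt := by
  intro L q c d r w A h cx hc hd hg
  subst hd
  refine ⟨Kr.four hH cx hc hg, fun v => ?_⟩
  have hd : c * 2 ≠ 0 := mul_ne_zero hc two_ne_zero
  have v2 := over_two cx.ov cx.p2
  have vL := val_odd v2 cx.odd
  have L0 := ne_of_val vL
  obtain ⟨τ, hτ, rfl⟩ := exists_hg (cx.ok.of_ne hd) v
  obtain ⟨j, h1, h2⟩ := Kr.down cx hc hτ
  obtain ⟨e, B, hrf, he⟩ := hR A L h vL hg
  have hj : A.valuation (jf τ) ≤ 1 := by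
    obtain ⟨a1, a2, -⟩ := hH L q (c * 2) r w A jf cx hd (gf_jf L0)
    rw [← a1 τ hτ]
    exact (cx.ov _).1.2 (a2 _)
  obtain ⟨k, k1, k2⟩ := RF.kron L0 (T := Unit) (A := fun _ => B) (h := fun _ => h)
    (fun _ => hrf) A he Nat.prime_two (fun k => (Nat.not_even_iff_odd.2 cx.odd)
      (even_iff_two_dvd.2 k)) (by simpa using v2) hτ.pos hj
  obtain ⟨x1, x2, -⟩ := hH L q (c * 2) r w A h cx hd hg
  obtain ⟨y1, y2, -⟩ := hH L q c r w A h cx hc hg
  have ex := x1 τ hτ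
  have ey := y1 _ h1
  have f4 := Kr.four hH cx hd hg (cl _ (sp2 τ 1))
  rw [← h2]
  have x3 := x2 (cl _ (sp2 τ 1))
  have y3 := y2 (cl _ (sp2 (hk 2 τ j) 1))
  generalize hv L q (c * 2) r h (cl _ (sp2 τ 1)) = x at ex f4 x3
  generalize hv L q c r h (cl _ (sp2 (hk 2 τ j) 1)) = y at ey y3
  by_cases hjk : j = k
  · have k3 := k1 ()
    rw [← hjk, act_rP, ← ex, ← ey, ← map_pow, ← map_sub] at k3
    have k4 := (cx.ov _).2.1 k3
    have k5 := b2a_pow_sub w y3 (by rw [map_pow]; exact pow_le_one' x3 2) k4 2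
    rw [show x - y ^ 2 = -(x ^ 4 - x) - (y ^ 2 - (x ^ 2) ^ 2) by ring]
    exact w.V.map_sub_lt (by rwa [Valuation.map_neg]) k5
  · have k3 := k2 j hjk ()
    rw [act_rP, ← ex, ← ey, ← map_pow, ← map_sub] at k3
    rw [Valuation.map_sub_swap]
    exact (cx.ov _).2.1 k3

end Pool.Agent.B6.D9
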