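import Pool.Agent.Lib.MP_696deb_nt.B7.D9

/-! The square class of a point over a discrete valuation ring. -/

set_option autoImplicit false

namespace Pool.Agent.B6.D9

namespace Loc

variable {R : Type} [CommRing R] [IsDomain R] [IsDiscreteValuationRing R] {p e x y w : R}

/-- Squares up to units that are one modulo `p ^ 2`. -/
def G (p x : R) : Prop := ∃ S g : R, x = S ^ 2 * (1 + p ^ 2 * g)

theorem unit (hp : Irreducible p) (h : ¬ p ∣ x) : IsUnit x := by_contra fun k => h (by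
  rw [← Ideal.mem_span_singleton, ← (IsDiscreteValuationRing.irreducible_iff_uniformizer p).1 hp]
  exact k)

omit [IsDomain R] [IsDiscreteValuationRing R] in
theorem ndvd (hp : Irreducible p) (h : IsUnit x) : ¬ p ∣ x := fun k =>
  hp.not_isUnit (isUnit_of_dvd_unit k h)

theorem one_add (hp : Irreducible p) (g : R) : IsUnit (1 + p * g) := unit hp fun k =>
  ndvd hp isUnit_one ((dvd_add_left (dvd_mul_right p g)).1 k)

theorem root (h0 : x ≠ 0) (h : x ^ 2 * y = w ^ 2) : ∃ l, y = l ^ 2 := by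
  obtain ⟨s, rfl⟩ : x ∣ w := (IsIntegrallyClosed.pow_dvd_pow_iff two_ne_zero).1 ⟨y, h.symm⟩
  exact ⟨s, mul_left_cancel₀ (pow_ne_zero 2 h0) (by linear_combination h)⟩

theorem cancel (hp : Irreducible p) (h : x * y = w ^ 2) (hw : w ≠ 0) (k : G p y) : G p x := by
  obtain ⟨T, g, rfl⟩ := k
  have T0 : T ≠ 0 := by
    rintro rfl
    exact pow_ne_zero 2 hw (by linear_combination -h)
  obtain ⟨s, hs⟩ := root (y := x * (1 + p ^ 2 * g)) (w := w) T0 (by linear_combination h)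
  obtain ⟨v, hv⟩ := (one_add hp (p * g)).exists_right_inv
  exact ⟨s, -(g * v), by linear_combination v * hs + (s ^ 2 - x) * hv⟩

theorem of_unit (hp : Irreducible p) (hx : IsUnit x) (a h : R) (k : x = a ^ 2 + p ^ 2 * h) :
    G p x := by
  obtain ⟨v, hv⟩ := (unit hp (x := a) fun ⟨t, ht⟩ =>
    ndvd hp hx ⟨p * (t ^ 2 + h), by rw [k, ht]; ring⟩).exists_right_inv
  exact ⟨a, h * v ^ 2, by linear_combination k - p ^ 2 * h * (a * v + 1) * hv⟩

theorem sq3 (hp : Irreducible p) (h2 : 2 = e * p ^ 3) {a b : R} (h : a ^ 2 - b ^ 2 = p ^ 3 * w) :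
    p ∣ w := by
  obtain ⟨d, hd⟩ : p ∣ a - b := hp.prime.dvd_of_dvd_pow (n := 2)
    ⟨p ^ 2 * (w - e * b * (a - b)), by linear_combination h - b * (a - b) * h2⟩
  obtain rfl : a = b + p * d := by linear_combination hd
  have h1 : d ^ 2 = p * (w - e * p * b * d) :=
    mul_left_cancel₀ (pow_ne_zero 2 hp.ne_zero) (by linear_combination h - b * p * d * h2)
  obtain ⟨t, rfl⟩ : p ∣ d := hp.prime.dvd_of_dvd_pow (n := 2) ⟨_, h1⟩
  exact ⟨t ^ 2 + e * p * b * t, mul_left_cancel₀ hp.ne_zero (by linear_combination -h1)⟩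

theorem main (hp : Irreducible p) (he : IsUnit e) (h2 : 2 = e * p ^ 3) {c α β γ δ U Z W : R}
    (hβ : β = α + p ^ 2 * γ) (hc : -e * (c ^ 2 + p ^ 4 * δ) = 1 + p ^ 2 * β) (hW : W ≠ 0)
    (key : e * Z * (U - Z) * (U ^ 2 + (1 + p ^ 2 * α) * U * Z + (1 + p ^ 2 * β) * Z ^ 2) = W ^ 2) :
    G p (e * Z * (U - Z)) := by
  have Z0 : Z ≠ 0 := by
    rintro rfl
    exact pow_ne_zero 2 hW (by linear_combination -key)
  by_cases h : Z ∣ U
  · obtain ⟨u, rfl⟩ := h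
    obtain ⟨l, hl⟩ := root (y := e * (u - 1) * (u ^ 2 + (1 + p ^ 2 * α) * u + (1 + p ^ 2 * β)))
      (w := W) (pow_ne_zero 2 Z0) (by linear_combination key)
    have h3 : (c * l) ^ 2 = (1 + p ^ 2 * β) * (1 + p ^ 2 * β - u ^ 3 - p ^ 4 * γ * u -
        p ^ 2 * α * u ^ 2) - p ^ 4 * δ * l ^ 2 := by
      linear_combination -(c ^ 2 + p ^ 4 * δ) * hl -
        (u - 1) * (u ^ 2 + (1 + p ^ 2 * α) * u + (1 + p ^ 2 * β)) * hc -
        (1 + p ^ 2 * β) * p ^ 2 * u * hβ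
    by_cases hu : p ∣ u
    · obtain ⟨u, rfl⟩ := hu
      obtain ⟨t, ht⟩ := sq3 hp h2 (a := c * l) (b := 1 + p ^ 2 * β) (w := -(1 + p ^ 2 * β) *
        (u ^ 3 + p ^ 2 * γ * u + p * α * u ^ 2) - p * δ * l ^ 2) (by linear_combination h3)
      obtain ⟨u, rfl⟩ : p ∣ u := hp.prime.dvd_of_dvd_pow (n := 3) ⟨-t - (p * β * u ^ 3 +
        (1 + p ^ 2 * β) * (p * γ * u + α * u ^ 2) + δ * l ^ 2), by linear_combination -ht⟩
      exact cancel hp key hW ⟨Z, u + β + p ^ 2 * (u ^ 2 + α * u), by ring⟩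
    obtain ⟨v, hv⟩ := (unit hp hu).exists_right_inv
    obtain ⟨k, hk⟩ : ∃ k, u ^ 3 = (c * l + 1) ^ 2 + p ^ 2 * k :=
      ⟨e * p * (u ^ 3 - 1 - c * l) - (β * (1 - u ^ 3) + (1 + p ^ 2 * β) *
        (β - p ^ 2 * γ * u - α * u ^ 2) - p ^ 2 * δ * l ^ 2), by
          linear_combination (u ^ 3 - 1 - c * l) * h2 - h3⟩
    obtain ⟨μ, k, hk⟩ : ∃ μ k, u = μ ^ 2 + p ^ 2 * k := ⟨(c * l + 1) * v, k * v ^ 2, by
      linear_combination v ^ 2 * hk - u * (u * v + 1) * hv⟩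
    by_cases h1 : p ∣ u - 1
    · obtain ⟨t, ht⟩ := h1
      obtain ⟨S, g, hS⟩ := of_unit hp (x := u ^ 2 + (1 + p ^ 2 * α) * u + (1 + p ^ 2 * β))
        (by
          convert one_add hp (e * p ^ 2 + t * (u + 2) + p * (α * u + β)) using 1
          linear_combination h2 + (u + 2) * ht) (μ ^ 2 + μ + 1)
        (2 * μ ^ 2 * k + p ^ 2 * k ^ 2 + k + α * u + β - e * p * (μ ^ 3 + μ ^ 2 + μ))
        (by linear_combination (u + μ ^ 2 + p ^ 2 * k + 1) * hk - (μ ^ 3 + μ ^ 2 + μ) * h2)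
      exact cancel hp key hW ⟨Z * S, g, by linear_combination Z ^ 2 * hS⟩
    · have c1 : IsUnit c := unit hp fun ⟨t, ht⟩ => ndvd hp (one_add hp (p * β))
        ⟨-e * p * (t ^ 2 + p ^ 2 * δ), by rw [ht] at hc; linear_combination -hc⟩
      have u1 := unit hp h1
      exact cancel hp (y := c ^ 2 * e * (u - 1)) (w := Z * (c * e * (u - 1))) (by ring)
        (mul_ne_zero Z0 ((c1.mul he).mul u1).ne_zero) (of_unit hp (((c1.pow 2).mul he).mul u1)
          (1 + μ) (-k - (β + p ^ 2 * δ * e) * (u - 1) - e * p * (μ + μ ^ 2))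
          (by linear_combination -(u - 1) * hc - hk - (μ + μ ^ 2) * h2))
  · obtain ⟨z, rfl⟩ := (ValuationRing.dvd_total Z U).resolve_left h
    obtain ⟨z, rfl⟩ : p ∣ z := by_contra fun k => h ((unit hp k).mul_right_dvd.2 dvd_rfl)
    obtain ⟨l, hl⟩ := root (y := e * (p * z) * (1 - p * z) * (1 + (1 + p ^ 2 * α) * (p * z) +
      (1 + p ^ 2 * β) * (p * z) ^ 2)) (w := W) (pow_ne_zero 2 (left_ne_zero_of_mul Z0))
      (by linear_combination key)
    obtain ⟨l, rfl⟩ : p ∣ l := hp.prime.dvd_of_dvd_pow (n := 2)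
      (by rw [← hl]; exact (((dvd_mul_right p z).mul_left e).mul_right _).mul_right _)
    have h3 : z * (e * ((1 + p * -z) * (1 + p * ((1 + p ^ 2 * α) * z +
        (1 + p ^ 2 * β) * p * z ^ 2)))) = p * l ^ 2 :=
      mul_left_cancel₀ hp.ne_zero (by linear_combination hl)
    obtain ⟨z, rfl⟩ : p ∣ z :=
      (he.mul ((one_add hp _).mul (one_add hp _))).dvd_mul_right.1 ⟨_, h3⟩
    exact cancel hp key hW
      ⟨U, (1 + p ^ 2 * α) * z + (1 + p ^ 2 * β) * p ^ 2 * z ^ 2, by ring⟩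

end Loc

theorem loc_stmt : LocStmt := by
  intro R _ _ _ p e X Z W b₂ b₄ b₆ c hp he h2 _ rel hW h
  have h4 : (4 : R) = e ^ 2 * p ^ 6 := by linear_combination (2 + e * p ^ 3) * h2
  have h1 : 1 + e * b₂ * p ^ 2 + e ^ 2 * b₄ * p ^ 4 + e * (c ^ 2 + 4 * b₆) = 0 :=
    mul_left_cancel₀ (pow_ne_zero 3 hp.ne_zero) (by
      linear_combination rel - (b₂ * p ^ 2 + (c ^ 2 + 4 * b₆) + (e * p ^ 3 + 2) * b₄ * p) * h2)
  rw [cf] at h
  exact Loc.main hp he h2 (c := c) (α := e * b₂) (γ := e ^ 2 * b₄) (δ := e ^ 2 * p ^ 2 * b₆)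
    (W := e * W) rfl (by linear_combination e * b₆ * h4 - h1) (mul_ne_zero he.ne_zero hW) (by
      linear_combination -e ^ 2 * h - e ^ 2 * Z * (X ^ 3 + b₂ * X ^ 2 * Z + b₄ * X * Z ^ 2) * h4 -
        e * Z ^ 4 * h1)

end Pool.Agent.B6.D9
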