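import Pool.Agent.Lib.MP_696deb_nt.B7.D9v

/-! The descent map on a family of points of one disc. -/

set_option autoImplicit false

open scoped Classical NNReal
open PowerSeries

namespace Pool.Agent.B6.D9

open Pool.Agent.Lib.MP_696deb_nt Pool.Agent.Lib.MP_696deb_nt.B2

namespace Nd

variable {w : Plc} {K : ℕ} {e a b : Qbar} {F G : PowerSeries Qbar}

/-- The series is integral and `a` is its value at `e` modulo `e ^ K`. -/
def Cg (w : Plc) (K : ℕ) (e : Qbar) (F : PowerSeries Qbar) (a : Qbar) : Prop :=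
  (∀ n, w.V (coeff n F) ≤ 1) ∧ w.V (a - tv F K e) ≤ w.V e ^ K

theorem tv_le (he : w.V e ≤ 1) (h : ∀ n, w.V (coeff n F) ≤ 1) : w.V (tv F K e) ≤ 1 :=
  w.V.map_sum_le fun n _ => by
    rw [map_mul, map_pow]
    exact mul_le_one' (h n) (pow_le_one' he n)

theorem tv_eq : tv F K e = (trunc K F).eval e := by
  rw [tv, Polynomial.eval, eval₂_trunc_eq_sum_range]
  rfl

theorem Cg.le (he : w.V e ≤ 1) (h : Cg w K e F a) : w.V a ≤ 1 := by
  have := w.V.map_add_le (h.2.trans (pow_le_one' he K)) (tv_le (K := K) he h.1)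
  rwa [sub_add_cancel] at this

theorem Cg.self (h : ∀ n, w.V (coeff n F) ≤ 1) : Cg w K e F (tv F K e) := ⟨h, by simp⟩

theorem Cg.const (hK : K ≠ 0) (h : w.V a ≤ 1) : Cg w K e (C a) a := by
  refine ⟨fun n => ?_, ?_⟩
  · rw [coeff_C]
    split_ifs <;> simp [h]
  · rw [tv, Finset.sum_eq_single 0 (fun n _ hn => by simp [coeff_C, hn])
      (fun k => absurd (Finset.mem_range.2 (Nat.pos_of_ne_zero hK)) k)]
    simp

theorem Cg.add (h : Cg w K e F a) (k : Cg w K e G b) : Cg w K e (F + G) (a + b) := by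
  refine ⟨fun n => by rw [map_add]; exact w.V.map_add_le (h.1 n) (k.1 n), ?_⟩
  have : tv (F + G) K e = tv F K e + tv G K e := by simp [tv, add_mul, Finset.sum_add_distrib]
  rw [this, add_sub_add_comm]
  exact w.V.map_add_le h.2 k.2

theorem Cg.sub (h : Cg w K e F a) (k : Cg w K e G b) : Cg w K e (F - G) (a - b) := by
  refine ⟨fun n => by rw [map_sub]; exact w.V.map_sub_le (h.1 n) (k.1 n), ?_⟩
  have : tv (F - G) K e = tv F K e - tv G K e := by simp [tv, sub_mul, Finset.sum_sub_distrib]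
  rw [this, sub_sub_sub_comm]
  exact w.V.map_sub_le h.2 k.2

theorem Cg.mul (he : w.V e ≤ 1) (h : Cg w K e F a) (k : Cg w K e G b) :
    Cg w K e (F * G) (a * b) := by
  have hm : ∀ n, w.V (coeff n (F * G)) ≤ 1 := fun n => by
    rw [coeff_mul]
    exact w.V.map_sum_le fun p _ => by rw [map_mul]; exact mul_le_one' (h.1 _) (k.1 _)
  have ht : ∀ {F : PowerSeries Qbar}, (∀ n, w.V (coeff n F) ≤ 1) →
      ∀ n, w.V ((trunc K F).coeff n) ≤ 1 := fun h n => by
    rw [coeff_trunc]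
    split_ifs <;> simp [h]
  have h1 : w.V (tv F K e * tv G K e - tv (F * G) K e) ≤ w.V e ^ K := by
    rw [tv_eq, tv_eq, tv_eq, ← Polynomial.eval_mul, ← Polynomial.eval_sub,
      Polynomial.eval_eq_sum_range]
    refine w.V.map_sum_le fun n _ => ?_
    rw [Polynomial.coeff_sub, coeff_trunc]
    split_ifs with hn
    · rw [coeff_mul_eq_coeff_trunc_mul_trunc F G hn, ← Polynomial.coe_mul, Polynomial.coeff_coe]
      simp
    · rw [sub_zero, map_mul, map_pow, Polynomial.coeff_mul]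
      refine (mul_le_of_le_one_left' (w.V.map_sum_le fun p _ => ?_)).trans
        (pow_le_pow_right_of_le_one' he (not_lt.1 hn))
      rw [map_mul]
      exact mul_le_one' (ht h.1 _) (ht k.1 _)
  refine ⟨hm, ?_⟩
  rw [show a * b - tv (F * G) K e = b * (a - tv F K e) + tv F K e * (b - tv G K e) +
    (tv F K e * tv G K e - tv (F * G) K e) by ring]
  refine w.V.map_add_le (w.V.map_add_le ?_ ?_) h1 <;> rw [map_mul]
  · exact (mul_le_of_le_one_left' (k.le he)).trans h.2
  · exact (mul_le_of_le_one_left' (tv_le he h.1)).trans k.2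

theorem prod_near {ι : Type} (s : Finset ι) {u v : ι → Qbar} {r : ℝ≥0} (hr : r ≤ 1)
    (hv : ∀ i, w.V (v i) ≤ 1) (h : ∀ i, w.V (u i - v i) ≤ r) :
    w.V (∏ i ∈ s, u i - ∏ i ∈ s, v i) ≤ r := by
  induction s using Finset.induction_on with
  | empty => simp
  | insert i s hi ih =>
    have hu : w.V (u i) ≤ 1 := by simpa using w.V.map_add_le ((h i).trans hr) (hv i)
    rw [Finset.prod_insert hi, Finset.prod_insert hi, show u i * ∏ i ∈ s, u i - v i * ∏ i ∈ s, v i =
      u i * (∏ i ∈ s, u i - ∏ i ∈ s, v i) + (∏ i ∈ s, v i) * (u i - v i) by ring]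
    refine w.V.map_add_le ?_ ?_ <;> rw [map_mul]
    · exact (mul_le_of_le_one_left' hu).trans ih
    · refine (mul_le_of_le_one_left' ?_).trans (h i)
      rw [map_prod]
      exact Finset.prod_le_one' fun j _ => hv j

theorem tv_smul {H : Subgroup Gam} (h : IF w H F) {g : Gam} (hg : g ∈ H) :
    g (tv F K e) = tv F K (g e) := by
  rw [tv, tv, map_sum]
  exact Finset.sum_congr rfl fun n _ => by rw [map_mul, map_pow, (h n).1 g hg]

theorem fx_prod {H : Subgroup Gam} {ι : Type} [Fintype ι] {f : ι → Qbar}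
    (h : ∀ g ∈ H, ∃ u : Equiv.Perm ι, ∀ i, g (f i) = f (u i)) : Fx H (∏ i, f i) := fun g hg => by
  obtain ⟨u, hu⟩ := h g hg
  rw [map_prod, Finset.prod_congr rfl fun i _ => hu i, Equiv.prod_comp u f]

end Nd

open Nd

theorem nd_stmt [Cw] (hKn : KnStmt) (hAs : AsStmt) (hRt : RtStmt) : NdStmt := by
  intro hs w H ι _ P e x z X Z S g hw hH hX hZ hS hg hE hu hP
  have v3 := (hRt hs w hw).1
  have v2 : w.V 2 < 1 := by simpa [hw] using b2a_p_lt w
  have v0 : w.V 2 ≠ 0 := by simp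
  have v4 : w.V 4 < 1 := by
    rw [show (4 : Qbar) = 2 ^ 2 by norm_num, map_pow]
    exact pow_lt_one₀ zero_le v2 two_ne_zero
  have p1 : w.V pp < 1 := lt_of_not_ge fun h => (v3 ▸ v2).not_ge (one_le_pow₀ h)
  have p0 : pp ≠ 0 := fun h => v0 (by rw [← v3, h]; simp)
  have e1 : w.V ee = 1 := by rw [ee, map_div₀, map_pow, v3, div_self v0]
  have e0 : ee ≠ 0 := fun h => by simp [h] at e1
  have h0 : ∀ h ∈ H, h (er 0) = er 0 := fun h hh => (hH hh).2
  have hp : ∀ h ∈ H, h pp = pp := fun h hh => by rw [pp, map_mul, h0 h hh, map_ofNat]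
  have he : ∀ h ∈ H, h ee = ee := fun h hh => by rw [ee, map_div₀, map_pow, hp h hh, map_ofNat]
  have hN : ∀ i, ee * z i * (ee * pp ^ 2 * x i - z i) = (ee * pp * z i) ^ 2 * kap (P i) := fun i => by
    obtain ⟨-, k1, k2, -, k4, -⟩ := hP i
    have k5 : er 0 = pp / 2 := by rw [pp]; ring
    rw [kap, if_neg k1, if_neg k2, ← k4, k5, ee]
    field_simp
  have N0 : ∀ i, 0 < w.V 4 * w.V ((ee * pp * z i) ^ 2 * kap (P i)) := fun i => by
    have := (hP i).2.2.2.1
    have := kap_ne (P i)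
    simp [pos_iff_ne_zero, *]
  choose k hk using fun i => exists_pow_lt_of_lt_one (N0 i) (hP i).1
  obtain ⟨K, hK⟩ := (Set.finite_range k).bddAbove
  have h4 : max K 4 ≠ 0 := by omega
  have hc : ∀ i, w.V (1 + pp ^ 2 * tv g (max K 4) (e i)) = 1 := fun i =>
    w.V.map_one_add_of_lt (by
      rw [map_mul, map_pow]
      exact (mul_le_of_le_one_right' (tv_le (hP i).1.le fun n => (hg n).2)).trans_lt
        (pow_lt_one₀ zero_le p1 two_ne_zero))
  have key : ∀ i, w.V ((ee * pp * z i) ^ 2 * kap (P i) - tv S (max K 4) (e i) ^ 2 *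
      (1 + pp ^ 2 * tv g (max K 4) (e i))) < w.V 4 * w.V ((ee * pp * z i) ^ 2 * kap (P i)) := by
    intro i
    obtain ⟨k0, -, -, -, -, kx, kz⟩ := hP i
    have q2 : w.V (pp ^ 2) ≤ 1 := by rw [map_pow]; exact pow_le_one' p1.le 2
    have cx : Cg w (max K 4) (e i) X (x i) := ⟨fun n => (hX n).2, kx _⟩
    have cz : Cg w (max K 4) (e i) Z (z i) := ⟨fun n => (hZ n).2, kz _⟩
    have cs : Cg w (max K 4) (e i) S _ := .self fun n => (hS n).2
    have c1 := ((Cg.const h4 e1.le).mul k0.le cz).mul k0.le (((Cg.const h4 (a := ee * pp ^ 2)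
      (by rwa [map_mul, e1, one_mul])).mul k0.le cx).sub cz)
    have c2 := (cs.mul k0.le cs).mul k0.le ((Cg.const h4 (a := 1) (by simp)).add
      ((Cg.const h4 q2).mul k0.le (.self fun n => (hg n).2)))
    rw [hE, hN] at c1
    rw [map_one, ← sq, ← sq] at c2
    have := w.V.map_sub_le c1.2 c2.2
    rw [sub_sub_sub_cancel_right] at this
    exact (this.trans (pow_le_pow_right_of_le_one' k0.le
      ((hK ⟨i, rfl⟩).trans (le_max_left K 4)))).trans_lt (hk i)
  have hs2 : ∀ i, w.V (tv S (max K 4) (e i) ^ 2) = w.V ((ee * pp * z i) ^ 2 * kap (P i)) := fun i => by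
    have := w.V.map_eq_of_sub_lt (((w.V.map_sub_swap _ _).trans_lt (key i)).trans_le
      (mul_le_of_le_one_left' v4.le))
    rwa [map_mul, hc, mul_one] at this
  have s0 : ∀ i, tv S (max K 4) (e i) ≠ 0 := fun i h => by
    have := N0 i
    rw [← hs2, h] at this
    simp at this
  refine ⟨max K 4, le_max_right _ _, ((hKn H h0).2 ι P fun h hh => (hu h hh).imp fun u k i =>
    (k i).1).trans (Rel.trans (b := ∏ i, (ee * pp * z i / tv S (max K 4) (e i)) ^ 2 * kap (P i))
      (Rel.symm ⟨∏ i, ee * pp * z i / tv S (max K 4) (e i), ?_, ?_, ?_⟩)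
      (hAs w H _ _ hw (hH.trans inf_le_left) ?_ ?_ ?_ (prod_near _ v4.le (fun i => (hc i).le) fun i => ?_)))⟩
  · exact Finset.prod_ne_zero_iff.2 fun i _ =>
      div_ne_zero (mul_ne_zero (mul_ne_zero e0 p0) (hP i).2.2.2.1) (s0 i)
  · refine fx_prod fun h hh => (hu h hh).imp fun u k i => ?_
    rw [map_div₀, map_mul, map_mul, he h hh, hp h hh, tv_smul hS hh, (k i).2.1, (k i).2.2]
  · rw [Finset.prod_mul_distrib, Finset.prod_pow]
  · refine fx_prod fun h hh => (hu h hh).imp fun u k i => ?_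
    rw [map_mul, map_pow, map_div₀, map_mul, map_mul, he h hh, hp h hh, tv_smul hS hh, (k i).2.1,
      (k i).2.2, ← kap_smul (h0 h hh), (k i).1]
  · refine fx_prod fun h hh => (hu h hh).imp fun u k i => ?_
    rw [map_add, map_one, map_mul, map_pow, hp h hh, tv_smul hg hh, (k i).2.1]
  · rw [map_prod]
    exact Finset.prod_eq_one fun i _ => hc i
  · have t0 : 0 < w.V (tv S (max K 4) (e i) ^ 2) := by simp [pos_iff_ne_zero, s0 i]
    have := (key i).le
    rw [← hs2, ← div_le_iff₀ t0, ← map_div₀] at this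
    convert this using 2
    have := s0 i
    field_simp

end Pool.Agent.B6.D9
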