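import Pool.Agent.Lib.MP_696deb_nt.B7.D9c
import Pool.Agent.Lib.MP_696deb_nt.B5.GAa

/-! Conjugate Heegner points are conjugate points of the modular curve. -/

set_option autoImplicit false

namespace Pool.Agent.B6.D9

open Pool.Agent.Lib.MP_696deb_nt Pool.Agent.Lib.MP_696deb_nt.B2 Pool.Agent.Lib.MP_696deb_nt.B2.CM
open Pool.Agent.B4.GE (jN)
open Pool.Agent.B6.B7.Dn (exists_hform hg_form hg_geq jQ_tau)

theorem pc_stmt : PcStmt := by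
  intro L n c r τ τ' g σ ok hn big hg e h h' k
  obtain ⟨Q, h1, h2, h3, h4, h5, h6⟩ := exists_hform ok (cl _ (sp2 τ' 1))
  have h0 := hg_form ok.toOk h1 h2 h3 h4 h5
  obtain ⟨γ, g1, g2, rfl⟩ := hg_geq ok h' h0 h6.symm
  refine G5.Pc.act ?_ ⟨g1, g2⟩
  obtain ⟨z, hz⟩ := G5.exists_pc G5.jf_surj ok.N_ne σ h.pos
  have j := hz.rj ok.N_ne
  obtain ⟨d, ν, hd, hν⟩ := B7.Dn.exists_nu ok
  have ok1 := (ok.of_dvd hd).toOk
  rw [← h6] at k
  obtain ⟨δ, d1, rfl⟩ := G5.exists_sl h0.pos j.pos' (by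
    rw [j.j, ← jQ_tau ok.toOk h, ← jQ_tau ok.toOk h0, e, smul_jQ ok.toOk hg, k])
  have d2 := G5.CM.sep ⟨Q, c, ok.ne, h2, h1, rfl⟩ ok.N_ne hn big δ d1 (by
    rw [j.jN, jN, jN, ← hν _ h, ← hν _ h0, ← jC_jQ ok1, ← jC_jQ ok1, e, smul_jQ ok1 hg, k, map_mul,
      pj_rho ok.toOk hd, mul_left_comm])
  have := hz.act (γ := δ.adjugate) ⟨by rw [det_adjugate_two, d1], by
    simpa [Matrix.adjugate_fin_two] using d2.2⟩
  rwa [act_adjugate (by omega) h0.pos] at this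

end Pool.Agent.B6.D9
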