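import Pool.Agent.Lib.MP_696deb_nt.B7.D9v

/-! A square root of the descent map on doubles. -/

set_option autoImplicit false

open scoped Classical NNReal
open WeierstrassCurve

namespace Pool.Agent.B6.D9

open Pool.Agent.Lib.MP_696deb_nt Pool.Agent.Lib.MP_696deb_nt.B2

namespace Ps

theorem core {u u' v v' η η' Q ε : Qbar} (hε : ε * ε = 1) (hv : v ≠ 0) (hv' : v' ≠ 0) (hη : η ≠ 0)
    (h1 : η' * v = -η * v') (h2 : u ^ 2 - Q = (u - ε * u') * v)
    (h3 : u' ^ 2 - Q = -ε * (u - ε * u') * v') :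
    (if u' ^ 2 = Q then u' else (u' ^ 2 - Q) / η') =
      ε * if u ^ 2 = Q then u else (u ^ 2 - Q) / η := by
  have hη' : η' ≠ 0 := by
    rintro rfl
    exact mul_ne_zero (neg_ne_zero.2 hη) hv' (by rw [← h1, zero_mul])
  have e0 : ε ≠ 0 := left_ne_zero_of_mul_eq_one hε
  by_cases k : u - ε * u' = 0
  · rw [if_pos (by rw [← sub_eq_zero, h3, k]; ring), if_pos (by rw [← sub_eq_zero, h2, k]; ring)]
    linear_combination (-ε) * k - u' * hε
  · rw [if_neg (by rw [← sub_eq_zero, h3]; simp [e0, k, hv']),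
      if_neg (by rw [← sub_eq_zero, h2]; simp [k, hv]), h2, h3, ← mul_div_assoc,
      div_eq_div_iff hη' hη]
    linear_combination (-ε * (u - ε * u')) * h1

variable [Cw]

/-- The second coordinate after completing the square. -/
noncomputable def et (P : EE) : Qbar := 2 * yco P + WZ.a₁ * xco P + WZ.a₃

/-- A quarter of the derivative of the cubic. -/
noncomputable def Qd (e : Qbar) : Qbar := 3 * e ^ 2 + WZ.b₂ / 2 * e + WZ.b₄ / 2

/-- The square root. -/
noncomputable def psi (R : EE) : Qbar :=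
  if R = 0 then 1 else if et R = 0 then (if xco R = er 0 then 1 else -1) else
    if (xco R - er 0) ^ 2 = Qd (er 0) then xco R - er 0
      else ((xco R - er 0) ^ 2 - Qd (er 0)) / et R

theorem Qd0 : Qd (er 0) = (er 0 - er 1) * (er 0 - er 2) := by
  rw [Qd, er_b₂, er_b₄]; ring

theorem Qd1 : Qd (er 1) = (er 1 - er 0) * (er 1 - er 2) := by
  rw [Qd, er_b₂, er_b₄]; ring

theorem et_iff {R : EE} (h : R ≠ 0) : et R = 0 ↔ cub (xco R) = 0 := by
  rw [cub_xco h, pow_eq_zero_iff two_ne_zero, et]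

theorem tr {e : Qbar} (h : cub e = 0) {R : EE} (h0 : R ≠ 0) (hx : xco R ≠ e) :
    R + tp e h ≠ 0 ∧ (xco R - e) * (xco (R + tp e h) - e) = Qd e ∧
      et (R + tp e h) * (xco R - e) = -et R * (xco (R + tp e h) - e) := by
  have hn : R + tp e h ≠ 0 := fun k => hx (by rw [eq_neg_of_add_eq_zero_left k, xco_neg, xco_tp])
  obtain ⟨l, ν, e1, e2, e3, e4, e5⟩ := r0_line h0 (tp_ne e h) hn
  rw [r0_neg hn] at e3
  rw [show yco (tp e h) = -(WZ.a₁ * e + WZ.a₃) / 2 from rfl] at e2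
  rw [xco_tp] at e2 e4 e5
  refine ⟨hn, ?_, ?_⟩
  · simp only [Qd, b₂, b₄]
    push_cast
    linear_combination e5 - 2 * e * e4 + (2 * l + WZ.a₁) * e2
  · unfold et
    linear_combination (-2 * (xco R - e)) * e3 + 2 * (xco (R + tp e h) - e) * e1 -
      2 * (xco (R + tp e h) - xco R) * e2

theorem dbl {R : EE} (h0 : R ≠ 0) (h : et R ≠ 0) :
    (xco (2 • R) - er 0) * et R ^ 2 = ((xco R - er 0) ^ 2 - Qd (er 0)) ^ 2 := by
  have h1 := cub_xco h0
  have h2 := mt (et_iff h0).2 h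
  rcases R with _ | ⟨x, y, k⟩
  · exact absurd rfl h0
  have h8 := (Wu.baseChange Qbar).b_relation
  rw [et, ← h1, xco_two_nsmul, dup2_cub, sub_mul, xco_some,
    div_mul_cancel₀ _ (show cub x ≠ 0 from h2), Qd0, cub_eq, dup1]
  simp only [Wu_b₂, Wu_b₄, Wu_b₆, er_b₂, er_b₄, er_b₆] at h8 ⊢
  linear_combination (-1 / 4) * h8

theorem psi_sq (R : EE) : psi R ^ 2 = kap (2 • R) := by
  unfold psi kap
  by_cases h0 : R = 0
  · simp [h0]
  by_cases h : et R = 0
  · rw [if_neg h0, if_pos h, if_pos (two_iff.2 (.inr ((et_iff h0).1 h)))]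
    split_ifs <;> norm_num
  have h1 := dbl h0 h
  rw [if_neg h0, if_neg h, if_neg fun k => h ((et_iff h0).2 ((two_iff.1 k).resolve_left h0))]
  by_cases k : (xco R - er 0) ^ 2 = Qd (er 0)
  · rw [if_pos k, if_pos, k, Qd]
    rw [k, sub_self, zero_pow two_ne_zero] at h1
    exact sub_eq_zero.1 ((mul_eq_zero.1 h1).resolve_right (pow_ne_zero 2 h))
  · rw [if_neg k, if_neg, div_pow, ← h1, mul_div_cancel_right₀ _ (pow_ne_zero 2 h)]
    intro e
    rw [e, sub_self, zero_mul] at h1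
    exact k (sub_eq_zero.1 (pow_eq_zero_iff two_ne_zero |>.1 h1.symm))

theorem psi_smul {g : Gam} (h : g (er 0) = er 0) (R : EE) : psi (g • R) = g (psi R) := by
  have e1 : et (g • R) = g (et R) := by simp [et, xco_smul, yco_smul, map_ofNat]
  have e2 : g (Qd (er 0)) = Qd (er 0) := by simp [Qd, h, map_ofNat]
  have e3 : xco (g • R) - er 0 = g (xco R - er 0) := by rw [xco_smul, map_sub, h]
  have e4 : xco (g • R) = er 0 ↔ xco R = er 0 := by
    rw [← sub_eq_zero, e3, map_eq_zero, sub_eq_zero]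
  have e5 : g (xco R - er 0) ^ 2 = Qd (er 0) ↔ (xco R - er 0) ^ 2 = Qd (er 0) := by
    rw [← map_pow]
    conv_lhs => rw [← e2]
    exact g.injective.eq_iff
  simp only [psi, smul_eq_zero_iff_eq, e1, e3, e4, e5, map_eq_zero]
  split_ifs <;> simp [e2]

theorem psi_tp (i : Fin 3) : psi (tp (er i) (cub_er i)) = if er i = er 0 then 1 else -1 := by
  rw [psi, if_neg (tp_ne _ _), if_pos ((et_iff (tp_ne _ (cub_er i))).2 (cub_er i)), xco_tp]

theorem psi_T1 (R : EE) : psi (R + T1) = psi R := by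
  have z0 : psi 0 = 1 := if_pos rfl
  have z1 : psi T1 = 1 := (psi_tp 0).trans (if_pos rfl)
  by_cases h0 : R = 0
  · rw [h0, zero_add, z0, z1]
  by_cases hx : xco R = er 0
  · rw [← two_ext T_ne.1 h0 two_T1 hx.symm, ← two_nsmul, two_T1, z0, z1]
  obtain ⟨hn, h1, h2⟩ := tr (cub_er 0) h0 hx
  have hv := sub_ne_zero.2 hx
  have hv' : xco (R + T1) - er 0 ≠ 0 := right_ne_zero_of_mul (h1.trans_ne (by
    rw [Qd0]; exact mul_ne_zero (sub_ne_zero.2 er_ne.1) (sub_ne_zero.2 er_ne.2.1)))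
  change _ * (xco (R + T1) - _) = _ at h1
  change et (R + T1) * _ = _ * (xco (R + T1) - _) at h2
  rw [psi, psi, if_neg h0, if_neg (show R + T1 ≠ 0 from hn)]
  by_cases h : et R = 0
  · rw [h, neg_zero, zero_mul] at h2
    rw [if_pos h, if_pos ((mul_eq_zero.1 h2).resolve_right hv), if_neg hx,
      if_neg (sub_ne_zero.1 hv')]
  · rw [if_neg h, if_neg fun k => mul_ne_zero (neg_ne_zero.2 h) hv' (by rw [← h2, k, zero_mul]),
      core (u := xco R - er 0) (one_mul 1) hv hv' h h2 (by linear_combination h1)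
        (by linear_combination h1), one_mul]

theorem psi_T2 (R : EE) : psi (R + T2) = -psi R := by
  have z0 : psi 0 = 1 := if_pos rfl
  have z1 : psi T2 = -1 := (psi_tp 1).trans (if_neg er_ne.1.symm)
  by_cases h0 : R = 0
  · rw [h0, zero_add, z0, z1]
  by_cases hx : xco R = er 1
  · rw [← two_ext T_ne.2.1 h0 two_T2 hx.symm, ← two_nsmul, two_T2, z0, z1, neg_neg]
  obtain ⟨hn, h1, h2⟩ := tr (cub_er 1) h0 hx
  have hv := sub_ne_zero.2 hx
  obtain ⟨n1, n2, n3⟩ := er_ne
  rw [Qd1] at h1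
  have hv' : xco (R + T2) - er 1 ≠ 0 := right_ne_zero_of_mul (h1.trans_ne
    (mul_ne_zero (sub_ne_zero.2 n1.symm) (sub_ne_zero.2 n3)))
  change _ * (xco (R + T2) - _) = _ at h1
  change et (R + T2) * _ = _ * (xco (R + T2) - _) at h2
  rw [psi, psi, if_neg h0, if_neg (show R + T2 ≠ 0 from hn)]
  by_cases h : et R = 0
  · rw [h, neg_zero, zero_mul] at h2
    rw [if_pos h, if_pos ((mul_eq_zero.1 h2).resolve_right hv)]
    rcases cub_eq_zero.1 ((et_iff h0).1 h) with k | k | k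
    · rw [if_pos k, if_neg fun e => mul_ne_zero (sub_ne_zero.2 n1) (sub_ne_zero.2 n2) (by
        rw [k, e] at h1; linear_combination h1)]
    · exact absurd k hx
    · rw [if_neg (k.trans_ne n2.symm), if_pos, neg_neg]
      rw [k] at h1
      exact mul_left_cancel₀ (sub_ne_zero.2 n3.symm) (by linear_combination h1)
  · rw [if_neg h, if_neg fun k => mul_ne_zero (neg_ne_zero.2 h) hv' (by rw [← h2, k, zero_mul]),
      core (u := xco R - er 0) (ε := -1) (by ring) hv hv' h h2 (by rw [Qd0]; linear_combination -h1)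
        (by rw [Qd0]; linear_combination -h1), neg_one_mul]

end Ps

theorem ps_stmt [Cw] : PsStmt :=
  ⟨Ps.psi, Ps.psi_sq, fun _ h => Ps.psi_smul h, Ps.psi_T1, Ps.psi_T2⟩

end Pool.Agent.B6.D9
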