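import Pool.Agent.Lib.MP_696deb_nt.B7.D9a
import Pool.Agent.Lib.MP_696deb_nt.AutC

/-! Rational integral modular functions are quotients of integral polynomials. -/

set_option autoImplicit false

open Polynomial Filter Topology
open scoped Classical

namespace Pool.Agent.B6.D9

open Pool.Agent.Lib.MP_696deb_nt Pool.Agent.B4.GE

namespace Rf

/-- An additive map to the rationals, integral on a finite set, with a unit as value at one. -/
theorem exists_dual (A : ValuationSubring ℂ) {s : Set ℂ} (hs : s.Finite)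
    (h : ∀ x ∈ s, A.valuation x ≤ 1) (h1 : (1 : ℂ) ∈ s) :
    ∃ f : ℂ →+ ℚ, A.valuation (f 1 : ℂ) = 1 ∧ ∀ x ∈ s, ∃ n : ℤ, (n : ℚ) = f x := by
  let M := Submodule.span ℤ s
  have : Module.Finite ℤ M := Module.Finite.span_of_finite ℤ hs
  let b := Module.Free.chooseBasis ℤ M
  let o : M := ⟨1, Submodule.subset_span h1⟩
  have hM : ∀ x : M, A.valuation x ≤ 1 := fun x =>
    (Submodule.span_le (p := A.valuation.integer.toAddSubgroup.toIntSubmodule)).2 h x.2
  obtain ⟨i, hi⟩ : ∃ i, A.valuation (b.repr o i : ℂ) = 1 := by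
    by_contra! k
    have e := congrArg M.subtype (b.sum_repr o)
    rw [map_sum] at e
    refine (A.valuation.map_sum_lt one_ne_zero fun i _ => ?_).ne
      ((congrArg A.valuation e).trans (map_one _))
    rw [map_zsmul, zsmul_eq_mul, map_mul]
    exact mul_lt_one_of_nonneg_of_lt_one_left zero_le ((val_int _ _).lt_of_ne (k i)) (hM _)
  obtain ⟨f, hf⟩ := (Module.Baer.of_divisible ℚ).extension_property_addMonoidHom
    M.subtype.toAddMonoidHom M.injective_subtype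
    ((Int.castAddHom ℚ).comp (b.coord i).toAddMonoidHom)
  have e : ∀ x : M, f x = (b.repr x i : ℚ) := fun x => DFunLike.congr_fun hf x
  exact ⟨f, by rw [show f 1 = _ from e o, Rat.cast_intCast, hi],
    fun x hx => ⟨_, (e ⟨x, Submodule.subset_span hx⟩).symm⟩⟩

theorem exists_prj' (f : ℂ →+ ℚ) : ∃ (P : LL →+ LL) (π : ℂ →+ ℂ), Prj P HahnSeries.C π ∧
    ∀ x, π x = (f x : ℂ) := by
  let π : ℂ →+ ℂ := (algebraMap ℚ ℂ).toAddMonoidHom.comp f
  have e : ∀ x, π x = (f x : ℂ) := fun _ => rfl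
  refine ⟨AddMonoidHom.mk' (fun a => a.map π) fun _ _ => HahnSeries.map_add π, π,
    fun r x hx => ?_, e⟩
  ext k
  obtain ⟨s, hs⟩ := hx k
  rw [HahnSeries.C_mul_eq_smul, HahnSeries.C_mul_eq_smul, HahnSeries.coeff_smul]
  change π (r • x.coeff k) = _
  rw [← hs, e, e, smul_eq_mul, smul_eq_mul, mul_comm r, ← Algebra.smul_def, map_rat_smul,
    smul_eq_mul, Rat.cast_mul, mul_comm]
  rfl

theorem exists_rt {L : ℕ} {h : ℂ → ℂ} (H : Ra L h) : ∃ U, LS h U ∧ U ∈ Rt := by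
  obtain ⟨n, A, a, -⟩ := (H (RingEquiv.refl ℂ)).ex
  refine (exists_LS (S := KQ.toAddSubgroup) ⟨n, A, a, fun k =>
    Gal.mem_range_of_fixed (K := ℚ) fun σ _ => ?_⟩).imp fun _ h => ⟨h.1, h.2 le_rfl⟩
  obtain ⟨m, B, b, b'⟩ := (H σ).ex
  have e := (a.pow_mul m).unique (b.pow_mul n) fun z _ => by ring
  have e' := congrArg (PowerSeries.map (σ : ℂ →+* ℂ)) e
  simp only [map_mul, map_pow, PowerSeries.map_X] at e'
  rw [← b.unique b' fun _ _ => rfl, ← e] at e'
  simpa using congrArg (PowerSeries.coeff k)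
    (mul_left_cancel₀ (pow_ne_zero m PowerSeries.X_ne_zero) e')

end Rf

theorem rf_stmt (h : FldStmt) : RfStmt := fun A L f hL hf => by
  obtain ⟨D, d1, d2, hD⟩ := h A L hL
  obtain ⟨B, b1, b2⟩ := hD f hf.1
  have L0 := ne_of_val hL
  obtain ⟨J, j1, j2⟩ := exists_J
  obtain ⟨J', k1, k2⟩ := exists_JN L0
  obtain ⟨U, u1, u2⟩ := Rf.exists_rt hf.2
  obtain ⟨g, g1, g2⟩ := Rf.exists_dual A (s := Set.range D.coeff ∪
      ⋃ p ∈ Set.range B.coeff, Set.range p.coeff) (D.finite_range_coeff.union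
      (B.finite_range_coeff.biUnion fun p _ => p.finite_range_coeff))
    (by
      rintro x (⟨k, rfl⟩ | hx)
      · exact d2 k
      · obtain ⟨_, ⟨k, rfl⟩, l, rfl⟩ := Set.mem_iUnion₂.1 hx
        exact b1 k l) (Or.inl ⟨_, d1.coeff_natDegree⟩)
  obtain ⟨P, π, p1, p2⟩ := Rf.exists_prj' g
  have l : ∀ p : ℂ[X], (∀ k, ∃ n : ℤ, (n : ℚ) = g (p.coeff k)) → ∃ q, m1 q = pm π p := fun p hp =>
    (mem_lifts _).1 ((lifts_iff_coeff_lifts _).2 fun k => (hp k).imp fun n hn => by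
      rw [coeff_pm, p2, ← hn, Rat.cast_intCast, eq_intCast])
  obtain ⟨e, he⟩ := l D fun k => g2 _ (Or.inl ⟨k, rfl⟩)
  obtain ⟨E, hE⟩ : ∃ E, m2 E = pm (pm π) B :=
    (mem_lifts _).1 ((lifts_iff_coeff_lifts _).2 fun k => by
      rw [coeff_pm]
      exact l _ fun i => g2 _ (Or.inr (Set.mem_iUnion₂.2 ⟨_, ⟨k, rfl⟩, i, rfl⟩)))
  have r := ((j1.ev1 D).mul u1).unique (j1.ev2 k1 B) b2
  have r1 := p1.ev j2 D _ u2
  have r2 := (p1.ev j2).ev k2 B 1 (one_mem _)
  rw [mul_one, mul_one, ← hE] at r2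
  rw [← he] at r1
  have r3 : e1 J (m1 e) * U = e2 J J' (m2 E) := r1.symm.trans ((congrArg P r).trans r2)
  refine ⟨e, E, ⟨hf.1.1, u1.hol, fun z hz => ?_⟩, ?_⟩
  · rw [← eval_m1, ← eval_m2]
    exact ((j1.ev1 _).mul u1).eq (r3 ▸ j1.ev2 k1 _) hz
  · have c : ∀ k, (e.coeff k : ℂ) = π (D.coeff k) := fun k => by
      rw [← coeff_pm, ← he, coe_mapRingHom, coeff_map, eq_intCast]
    have c1 : A.valuation (e.coeff D.natDegree : ℂ) = 1 := by rw [c, d1.coeff_natDegree, p2, g1]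
    rwa [leadingCoeff, natDegree_eq_of_le_of_coeff_ne_zero (natDegree_le_iff_coeff_eq_zero.2
      fun k hk => Int.cast_injective (α := ℂ) (by
        rw [c, coeff_eq_zero_of_natDegree_lt hk, map_zero, Int.cast_zero]))
      fun k => by simp [k] at c1]

end Pool.Agent.B6.D9
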