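import Pool.Agent.Lib.MP_696deb_nt.B7.D9a

/-! The coordinate under translation by one third. -/

set_option autoImplicit false

open Filter Topology

namespace Pool.Agent.B6.D9

open Pool.Agent.Lib.MP_696deb_nt Pool.Agent.B4.GE

namespace Rot

theorem bdd_tt (hC : CuspStmt) {g : MZ} (hg : g.det = 1) (h : ¬ G0 9 g) :
    Bdd fun z => tt (act g z) := by
  obtain ⟨e, ⟨B, hB, -⟩, he⟩ := hC ⊤ (val_top three_ne_zero) g hg
  obtain ⟨n, rfl⟩ := Int.exists_eq_neg_ofNat (he h)
  refine ((Bdd.const 3).add ((((QE.q.pow n).mul hB).bdd).comp_affine (r := 1 / 9) (by norm_num)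
    0)).congr fun z _ => ?_
  rw [zpow_neg, zpow_natCast, mul_inv_cancel_left₀ (pow_ne_zero _ (q1_ne _)), tt]
  congr 3
  push_cast
  ring

theorem act_M (z : ℂ) : act (ut 3 1 3) z = z + 1 / 3 := by
  simp only [ut, act_of, mob]
  push_cast
  ring

theorem bdd_tt' (hC : CuspStmt) {g : MZ} (hg : g.det = 1) (h : ¬ G0 9 g) :
    Bdd fun z => tt (act g z + 1 / 3) := by
  obtain ⟨a, b, d, k, -, hk, e⟩ := exists_ut (M := ut 3 1 3 * g) (by simp [hg, det_ut])
  have had : a * d = 9 := by
    have := congrArg Matrix.det e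
    rw [Matrix.det_mul, Matrix.det_mul, hg, hk, det_ut, det_ut] at this
    exact_mod_cast (show (a : ℤ) * d = 9 by simpa using this.symm)
  have hk' : ¬ G0 9 k := fun ⟨_, m, hm⟩ => h ⟨hg, by
    have e0 := congrFun (congrFun e 1) 0
    have e1 := congrFun (congrFun e 1) 1
    simp only [ut, Matrix.mul_apply, Fin.sum_univ_two, hm, Matrix.of_apply, Matrix.cons_val',
      Matrix.cons_val_zero, Matrix.cons_val_one, Matrix.cons_val_fin_one] at e0 e1
    rw [Matrix.det_fin_two] at hg
    have ha : a ≤ 9 := Nat.le_of_dvd (by decide) ⟨d, had.symm⟩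
    have : a = 1 ∧ d = 9 ∨ a = 3 ∨ a = 9 := by interval_cases a <;> omega
    rcases this with ⟨rfl, rfl⟩ | rfl | rfl
    · have x0 : g 1 0 = 3 * m := by push_cast at e0; omega
      have x1 : g 1 1 = 3 * (m * b + k 1 1) := by push_cast at e1; linarith
      have : 3 * (g 0 0 * (m * b + k 1 1) - g 0 1 * m) = 1 := by
        rw [x0, x1] at hg
        linear_combination hg
      omega
    · exact ⟨m, by push_cast at e0 ⊢; omega⟩
    · exact ⟨3 * m, by push_cast at e0 ⊢; omega⟩⟩
  have a0 : 0 < a := Nat.pos_of_ne_zero fun x => by simp [x] at had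
  have d0 : 0 < d := Nat.pos_of_ne_zero fun x => by simp [x] at had
  refine ((bdd_tt hC hk hk').comp_affine (r := a / d) (by positivity) (b / d)).congr fun z hz => ?_
  rw [← act_M, ← act_mul _ (by omega) hz, e, act_mul _ (by simp [det_ut, a0.ne', d0.ne']) hz]
  congr 2
  simp only [ut, act_of, mob]
  push_cast
  ring

theorem inv_tt (hI : InvStmt) : Inv0 9 fun z => tt (z + 1 / 3) := by
  rintro g ⟨hg, c, hc⟩ z hz
  have h1 := hg
  rw [Matrix.det_fin_two, hc] at h1
  push_cast at h1 hc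
  obtain ⟨e, he⟩ : (3 : ℤ) ∣ g 1 1 - g 0 0 := by
    have : ∀ x y : ZMod 3, x * y = 1 → y - x = 0 := by decide
    refine (ZMod.intCast_zmod_eq_zero_iff_dvd _ 3).1 ?_
    have k := congrArg (Int.cast : ℤ → ZMod 3) h1
    push_cast at k ⊢
    rw [show (9 : ZMod 3) = 0 from rfl] at k
    exact this _ _ (by linear_combination k)
  have m : ut 3 1 3 * g =
      !![g 0 0 + 3 * c, g 0 1 + e - c; 9 * c, g 1 1 - 3 * c] * ut 3 1 3 := by
    ext i j
    fin_cases i <;> fin_cases j <;> simp [ut, Matrix.mul_apply, hc] <;> omega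
  beta_reduce
  rw [← act_M, ← act_mul _ (by omega) hz, m, act_mul _ (by simp [det_ut]) hz, act_M]
  refine hI _ ⟨?_, by simp⟩ _ (by simpa using hz)
  rw [Matrix.det_fin_two_of]
  linear_combination h1 + 3 * c * he

end Rot

open PowerSeries in
theorem rot_stmt (hI : InvStmt) (hT : TexStmt) (hC : CuspStmt) : RotStmt := by
  obtain ⟨R, hR⟩ := hT
  generalize hA : toC _ = A at hR
  have a1 : coeff 1 A = 0 := by
    rw [← hA, show (1 + 5 * X ^ 3 - 7 * X ^ 6 + X ^ 7 * R : ℤ⟦X⟧) =
      1 + X ^ 2 * (5 * X - 7 * X ^ 4 + X ^ 5 * R) by ring, coeff_map, map_add, coeff_X_pow_mul',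
      coeff_one]
    simp
  obtain ⟨B, hB⟩ : X ^ 2 ∣ rescale (q1 (1 / 3 : ℝ)) A - A := X_pow_dvd_iff.2 fun m hm => by
    rw [map_sub, coeff_rescale]
    interval_cases m
    · rw [pow_zero, one_mul, sub_self]
    · rw [a1, mul_zero, sub_self]
  have s := (hR.shift (1 / 3)).sub hR
  rw [hB, pow_succ, mul_assoc] at s
  have q : QE (fun z => q1 (1 / 3) * tt (z + 1 / 3) - tt z) (X * B) :=
    s.of_X_pow_mul.congr fun z _ => by
      have := q1_ne z
      rw [q1_add]
      push_cast
      field_simp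
  have i : Inv0 9 fun z => q1 (1 / 3) * tt (z + 1 / 3) - tt z := fun g hg z hz => by
    have := Rot.inv_tt hI g hg z hz
    simp only [hI g hg z hz] at this ⊢
    rw [this]
  obtain ⟨c, hc⟩ := const_of_inv 9 q.hol
    (fun a b c d h z hz => i !![a, b; 9 * c, d] ⟨by simpa using h, by simp⟩ z hz)
    fun a b c d h => by
      have hg : (!![a, b; c, d] : MZ).det = 1 := by simpa using h
      by_cases k : G0 9 !![a, b; c, d]
      · exact q.bdd.congr fun z hz => by simpa only [act_of] using i _ k z hz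
      · simpa only [act_of] using
          ((Bdd.const (q1 (1 / 3))).mul (Rot.bdd_tt' hC hg k)).sub (Rot.bdd_tt hC hg k)
  have c0 : c = 0 := by
    simpa using tendsto_nhds_unique (tendsto_const_nhds.congr' (ev_pos.mono fun z hz =>
      (hc z hz).symm)) q.tendsto
  intro z hz
  have e : q1 (-1 / 3) * q1 (1 / 3) = 1 := by
    rw [← q1_add]
    norm_num [q1]
  linear_combination q1 (-1 / 3) * hc z hz + q1 (-1 / 3) * c0 - tt (z + 1 / 3) * e

end Pool.Agent.B6.D9
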