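import Pool.Agent.Lib.MP_696deb_nt.B7.D9v

/-! The points of order two at a supersingular place above two. -/

set_option autoImplicit false

open scoped Classical NNReal

namespace Pool.Agent.B6.D9

open Pool.Agent.Lib.MP_696deb_nt Pool.Agent.Lib.MP_696deb_nt.B2

namespace Rt

variable {w : Plc}

theorem eis (hw : w.p = 2) {a : Qbar} {B C D : ℤ} (hD : Odd D)
    (h : a ^ 3 + 2 * B * a ^ 2 + 4 * C * a + 2 * D = 0) :
    w.V a ^ 3 = w.V 2 ∧ w.V (3 * a ^ 2 + 4 * (B * a + C)) = w.V a ^ 2 := by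
  have v2 : w.V 2 < 1 := by simpa [hw] using b2a_p_lt w
  have v0 : 0 < w.V 2 := by simp [pos_iff_ne_zero]
  have odd : ∀ n : ℤ, Odd n → w.V n = 1 := fun n hn => w.V_int_eq_one.2 (by
    rw [hw]; exact fun k => Int.not_even_iff_odd.2 hn (even_iff_two_dvd.2 k))
  have e : w.V a ^ 3 = w.V 2 * w.V (D + (B * a ^ 2 + (2 * C : ℤ) * a)) := by
    rw [← map_pow, ← map_mul, ← w.V.map_neg]
    congr 1
    push_cast
    linear_combination -h
  have m : ∀ (n : ℤ) (y : Qbar), w.V (n * y) ≤ w.V y := fun n y => by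
    rw [map_mul]
    exact mul_le_of_le_one_left' (w.V_int_le n)
  have a1 : w.V a < 1 := lt_of_not_ge fun k => by
    have k3 : w.V (D + (B * a ^ 2 + (2 * C : ℤ) * a)) ≤ w.V a ^ 3 :=
      w.V.map_add_le ((w.V_int_le D).trans (one_le_pow₀ k)) (w.V.map_add_le ((m _ _).trans (by
        rw [map_pow]; exact pow_le_pow_right₀ k (by norm_num)))
        ((m _ _).trans (le_self_pow₀ k three_ne_zero)))
    exact (e.le.trans_lt ((mul_le_mul_right k3 _).trans_lt
      (mul_lt_of_lt_one_left (pow_pos (one_pos.trans_le k) 3) v2))).false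
  have e3 : w.V a ^ 3 = w.V 2 := by
    have : w.V (B * a ^ 2 + (2 * C : ℤ) * a) < w.V D := by
      rw [odd D hD]
      exact w.V.map_add_lt ((m _ _).trans_lt (by
        rw [map_pow]; exact pow_lt_one₀ zero_le a1 two_ne_zero)) ((m _ _).trans_lt a1)
    rw [e, w.V.map_add_eq_of_lt_left this, odd D hD, mul_one]
  have a0 : 0 < w.V a := pos_of_ne_zero fun k => v0.ne' (by rw [← e3, k]; simp)
  have v3 : w.V (3 * a ^ 2) = w.V a ^ 2 := by
    rw [map_mul, map_pow, show w.V 3 = 1 by simpa using odd 3 (by decide), one_mul]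
  refine ⟨e3, (w.V.map_add_eq_of_lt_left ?_).trans v3⟩
  rw [v3, map_mul, show (4 : Qbar) = 2 ^ 2 by norm_num, map_pow, ← e3, ← pow_mul]
  exact (mul_le_of_le_one_right' (w.V.map_add_le ((m _ _).trans a1.le) (w.V_int_le C))).trans_lt
    (pow_lt_pow_right_of_lt_one₀ a0 a1 (by norm_num))

variable [Cw]

theorem val (hs : Ss) (hw : w.p = 2) : (∀ i, w.V (2 * er i) ^ 3 = w.V 2) ∧
    (∀ i j, w.V (er i) = w.V (er j)) ∧ ∀ i j, i ≠ j → w.V (er i - er j) = w.V (er i) := by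
  obtain ⟨⟨m, hm⟩, h3⟩ := hs
  have b2 : (WZ.b₂ : Qbar) = 4 * (m ^ 2 + WZ.a₂ : ℤ) := by
    rw [WeierstrassCurve.b₂, hm]; push_cast; ring
  have b4 : (WZ.b₄ : Qbar) = 2 * (WZ.a₄ + m * WZ.a₃ : ℤ) := by
    rw [WeierstrassCurve.b₄, hm]; push_cast; ring
  have b6 : Odd WZ.b₆ := by
    rw [WeierstrassCurve.b₆]
    exact h3.pow.add_even ⟨2 * WZ.a₆, by ring⟩
  have e := fun i => eis hw (a := 2 * er i) (B := m ^ 2 + WZ.a₂) (C := WZ.a₄ + m * WZ.a₃) b6 (by
    have := cub_er i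
    rw [cub, b2, b4] at this
    linear_combination 2 * this)
  have v0 : w.V 2 ≠ 0 := by simp
  have q : ∀ i j, w.V (er i) = w.V (er j) := fun i j => by
    have := (pow_left_inj₀ zero_le zero_le three_ne_zero).1 ((e i).1.trans (e j).1.symm)
    simp only [map_mul] at this
    exact mul_left_cancel₀ v0 this
  refine ⟨fun i => (e i).1, q, ?_⟩
  have key : ∀ i j k, er i + er j + er k = er 0 + er 1 + er 2 →
      er i * er j + er i * er k + er j * er k = er 0 * er 1 + er 0 * er 2 + er 1 * er 2 →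
      w.V (er i - er j) = w.V (er i) := fun i j k h1 h2 => by
    have h := (e i).2
    rw [show 3 * (2 * er i) ^ 2 + 4 * ((m ^ 2 + WZ.a₂ : ℤ) * (2 * er i) + (WZ.a₄ + m * WZ.a₃ : ℤ)) =
      2 ^ 2 * ((er i - er j) * (er i - er k)) by
        linear_combination -2 * er i * b2 - 2 * b4 + 2 * er i * er_b₂ + 2 * er_b₄ + 8 * er i * h1 - 4 * h2,
      map_mul, map_mul, map_mul, mul_pow, map_pow, mul_right_inj' (pow_ne_zero 2 v0), sq] at h
    have l : ∀ j, w.V (er i - er j) ≤ w.V (er i) := fun j => w.V.map_sub_le le_rfl (q j i).le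
    have a0 : 0 < w.V (er i) := pos_of_ne_zero fun k => v0 (by rw [← (e i).1, map_mul, k]; simp)
    exact (l j).antisymm (le_of_mul_le_mul_right (h.ge.trans (mul_le_mul_right (l k) _)) a0)
  intro i j hij
  fin_cases i <;> fin_cases j
  exacts [absurd rfl hij, key 0 1 2 rfl rfl, key 0 2 1 (by ring) (by ring),
    key 1 0 2 (by ring) (by ring), absurd rfl hij, key 1 2 0 (by ring) (by ring),
    key 2 0 1 (by ring) (by ring), key 2 1 0 (by ring) (by ring), absurd rfl hij]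

theorem perm (g : Gam) (i : Fin 3) : ∃ j, g (er i) = er j := by
  rcases cub_eq_zero.1 (show cub (g (er i)) = 0 by rw [← map_cub, cub_er, map_zero]) with h | h | h <;>
    exact ⟨_, h⟩

theorem fix (hs : Ss) (hw : w.p = 2) {g : Gam} (hg : g ∈ Ine w) {i : Fin 3} (h : g (er i) = er i)
    (j : Fin 3) : g (er j) = er j := by
  obtain ⟨v1, v2, v3⟩ := val hs hw
  obtain ⟨k, hk⟩ := perm g j
  have a0 : w.V (er i) ≠ 0 := fun k => by
    have := (v1 i).symm
    rw [map_mul, k] at this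
    simp at this
  by_contra hn
  have := hg.2 (er j / er i) (by rw [map_div₀, v2 j i, div_self a0])
  rw [map_div₀, h, hk, ← sub_div, map_div₀, v3 k j (by rintro rfl; exact hn hk), v2 k i,
    div_self a0] at this
  exact this.false

theorem nofix (hs : Ss) (hw : w.p = 2) (i : Fin 3) : ¬ Fx (Ine w) (er i) := fun h => by
  have v := (val hs hw).1 i
  have v2 : w.V 2 = 2⁻¹ := by simpa [hw] using w.hV
  obtain ⟨k, hk⟩ := V_of_fx_ine (w := w) (x := 2 * er i)
    (fun g hg => by rw [map_mul, h g hg, map_ofNat]) fun e => by simpa [e] using v.symm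
  rw [hk, v2, hw, inv_pow, inv_inj, Nat.cast_ofNat, ← zpow_natCast, ← zpow_mul] at v
  have := zpow_right_injective₀ (a := (2 : ℝ≥0)) two_pos (by norm_num) (v.trans (zpow_one 2).symm)
  omega

end Rt

open Rt

theorem rt_stmt [Cw] : RtStmt := by
  intro hs w hw
  have hτ : ∃ τ ∈ Ine w, τ (er 0) = er 1 ∧ τ (er 1) = er 2 ∧ τ (er 2) = er 0 := by
    obtain ⟨g, hg⟩ := not_forall.1 (nofix hs hw 0)
    obtain ⟨hg, h0⟩ := Classical.not_imp.1 hg
    choose u hu using perm g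
    have h1 : Function.Injective u := fun i j e => er_inj (g.injective (by rw [hu, hu, e]))
    have h2 : ∀ i, u i ≠ i := fun i e => h0 (fix hs hw hg (i := i) (by rw [hu, e]) 0)
    rcases (by decide : ∀ u : Fin 3 → Fin 3, Function.Injective u → (∀ i, u i ≠ i) →
      (u 0 = 1 ∧ u 1 = 2 ∧ u 2 = 0) ∨ (u (u 0) = 1 ∧ u (u 1) = 2 ∧ u (u 2) = 0)) u h1 h2 with h | h
    · exact ⟨g, hg, by simp [hu, h]⟩
    · exact ⟨g * g, mul_mem hg hg, by simp [hu, h]⟩
  refine ⟨(val hs hw).1 0, fun g hg => ⟨fix hs hw hg.1 hg.2 1, fix hs hw hg.1 hg.2 2⟩, hτ, ?_,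
    fun U h k => (two_iff.1 h).resolve_right fun e => ?_⟩
  · obtain ⟨τ, h, h0, h1, -⟩ := hτ
    obtain ⟨φ, hφ⟩ := exists_frob w
    rw [hw] at hφ
    obtain ⟨i, hi⟩ := perm φ⁻¹ 0
    have e : φ (er i) = er 0 := by rw [← hi]; exact φ.apply_symm_apply _
    fin_cases i
    · exact ⟨φ, hφ, e⟩
    · exact ⟨φ * τ, hφ.mul_ine h, by rw [AlgEquiv.mul_apply, h0]; exact e⟩
    · exact ⟨φ * (τ * τ), hφ.mul_ine (mul_mem h h), by
        rw [AlgEquiv.mul_apply, AlgEquiv.mul_apply, h0, h1]; exact e⟩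
  · have hx : Fx (Ine w) (xco U) := fun σ hσ => by rw [← xco_smul, k σ hσ]
    rcases cub_eq_zero.1 e with h | h | h <;> exact nofix hs hw _ (h ▸ hx)

end Pool.Agent.B6.D9
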