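import Pool.Agent.Lib.MP_696deb_nt.B7.D9v

/-! The square class on a disc, for series with coefficients fixed by inertia. -/

set_option autoImplicit false

open scoped Classical NNReal

namespace Pool.Agent.B6.D9

open Pool.Agent.Lib.MP_696deb_nt Pool.Agent.Lib.MP_696deb_nt.B2

namespace Sq

/-- Integral numbers fixed by `H`. -/
def RR (w : Plc) (H : Subgroup Gam) : Subring Qbar where
  carrier := {x | Fx H x ∧ w.V x ≤ 1}
  mul_mem' := fun {a b} ha hb => ⟨fun g hg => by rw [map_mul, ha.1 g hg, hb.1 g hg], by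
    rw [map_mul]
    exact mul_le_one' ha.2 hb.2⟩
  one_mem' := ⟨fun g _ => map_one g, by simp⟩
  add_mem' := fun {a b} ha hb => ⟨fun g hg => by rw [map_add, ha.1 g hg, hb.1 g hg],
    w.V.map_add_le ha.2 hb.2⟩
  zero_mem' := ⟨fun g _ => map_zero g, by simp⟩
  neg_mem' := fun {a} ha => ⟨fun g hg => by rw [map_neg, ha.1 g hg], by simpa using ha.2⟩

variable {w : Plc} {H : Subgroup Gam}

theorem unit_iff (x : RR w H) : IsUnit x ↔ w.V x = 1 := by
  constructor
  · rintro ⟨u, rfl⟩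
    have h : w.V (u : RR w H) * w.V ((u⁻¹ : (RR w H)ˣ) : RR w H) = 1 := by
      rw [← map_mul, ← Subring.coe_mul, u.mul_inv]
      simp
    refine le_antisymm (u : RR w H).2.2 ?_
    calc 1 = _ := h.symm
      _ ≤ _ := mul_le_of_le_one_right' ((u⁻¹ : (RR w H)ˣ) : RR w H).2.2
  · intro h
    have h0 : (x : Qbar) ≠ 0 := fun k => by simp [k] at h
    exact IsUnit.of_mul_eq_one ⟨(x : Qbar)⁻¹, fun g hg => by rw [map_inv₀, x.2.1 g hg], by
      simp [h]⟩ (Subtype.ext (mul_inv_cancel₀ h0))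

theorem fac (p : RR w H) (h0 : w.V p ≠ 0) (h1 : w.V p < 1)
    (hv : ∀ x, Fx H x → x ≠ 0 → ∃ k : ℤ, w.V x = w.V p ^ k) (x : RR w H) (hx : x ≠ 0) :
    ∃ (n : ℕ) (u : RR w H), w.V u = 1 ∧ x = p ^ n * u := by
  have hp : (p : Qbar) ≠ 0 := fun k => by simp [k] at h0
  obtain ⟨k, hk⟩ := hv x x.2.1 fun e => hx (Subtype.ext e)
  have hk0 : 0 ≤ k := by
    have := x.2.2
    rwa [hk, zpow_le_one_iff_right_of_lt_one₀ (pos_iff_ne_zero.2 h0) h1] at this
  lift k to ℕ using hk0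
  have e : w.V ((x : Qbar) / p ^ k) = 1 := by
    rw [map_div₀, map_pow, hk, zpow_natCast, div_self (pow_ne_zero _ h0)]
  refine ⟨k, ⟨x / p ^ k, fun g hg => by rw [map_div₀, map_pow, x.2.1 g hg, p.2.1 g hg], e.le⟩, e,
    Subtype.ext ?_⟩
  push_cast
  field_simp

theorem irr (p : RR w H) (h0 : w.V p ≠ 0) (h1 : w.V p < 1)
    (hv : ∀ x, Fx H x → x ≠ 0 → ∃ k : ℤ, w.V x = w.V p ^ k) : Irreducible p := by
  have hp : p ≠ 0 := fun k => by simp [k] at h0
  refine ⟨fun h => h1.ne ((unit_iff p).1 h), fun a b e => ?_⟩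
  obtain ⟨m, u, hu, rfl⟩ := fac p h0 h1 hv a fun k => hp (by rw [e, k, zero_mul])
  obtain ⟨n, v, hv, rfl⟩ := fac p h0 h1 hv b fun k => hp (by rw [e, k, mul_zero])
  have k : w.V p ^ 1 = w.V p ^ (m + n) := by
    have := congrArg (fun x : RR w H => w.V x) e
    simp only [Subring.coe_mul, Subring.coe_pow, map_mul, map_pow, hu, hv, mul_one] at this
    rw [pow_one, pow_add, ← this]
  have k' := pow_right_injective₀ (pos_iff_ne_zero.2 h0) h1.ne k
  simp only [unit_iff, Subring.coe_mul, Subring.coe_pow, map_mul, map_pow, hu, hv, mul_one]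
  rcases (by omega : m = 0 ∨ n = 0) with rfl | rfl <;> simp

theorem lift {F : PowerSeries Qbar} (h : IF w H F) :
    ∃ G : PowerSeries (RR w H), PowerSeries.map (RR w H).subtype G = F :=
  ⟨PowerSeries.mk fun n => ⟨_, h n⟩, by ext; simp⟩

theorem of_map (G : PowerSeries (RR w H)) : IF w H (PowerSeries.map (RR w H).subtype G) :=
  fun n => (PowerSeries.coeff n G).2

end Sq

open Sq in
theorem sq_stmt [Cw] (hU : UfdStmt) (hR : RtStmt) (hV : VgStmt) : SqStmt := by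
  intro hs w hw X Z W hX hZ hW h0 h
  obtain ⟨⟨a, ha⟩, hc⟩ := id hs
  have h3 := (hR hs w hw).1
  have h2 : w.V 2 = 2⁻¹ := by simpa [hw] using w.hV
  have v0 : w.V pp ≠ 0 := fun k => by simp [k, h2] at h3
  have v1 : w.V pp < 1 := lt_of_pow_lt_pow_left₀ 3 zero_le_one (by
    rw [h3, h2, one_pow]
    norm_num)
  have p0 : pp ≠ 0 := fun k => by simp [k] at v0
  have f1 : Fx (JF w) pp := fun g hg => by rw [pp, map_mul, map_ofNat, (mem_JF.1 hg).2]
  have ve : w.V ee = 1 := by rw [ee, map_div₀, map_pow, h3, div_self (by simp [h2])]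
  let p : RR w (JF w) := ⟨pp, f1, v1.le⟩
  let e : RR w (JF w) := ⟨ee, fun g hg => by rw [ee, map_div₀, map_pow, map_ofNat, f1 g hg], ve.le⟩
  have hi : Irreducible p := irr p v0 v1 (hV hs w hw).1
  have : IsDiscreteValuationRing (RR w (JF w)) :=
    IsDiscreteValuationRing.ofHasUnitMulPowIrreducibleFactorization ⟨p, hi, fun {x} hx => by
      obtain ⟨n, u, hu, rfl⟩ := fac p v0 v1 (hV hs w hw).1 x hx
      exact ⟨n, associated_mul_unit_right _ _ ((unit_iff u).2 hu)⟩⟩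
  obtain ⟨X, rfl⟩ := lift hX
  obtain ⟨Z, rfl⟩ := lift hZ
  obtain ⟨W, rfl⟩ := lift hW
  have b2 : WZ.b₂ = 4 * (a ^ 2 + WZ.a₂) := by rw [WeierstrassCurve.b₂, ha]; ring
  have b4 : WZ.b₄ = 2 * (WZ.a₄ + a * WZ.a₃) := by rw [WeierstrassCurve.b₄, ha]; ring
  have b6 : WZ.b₆ = WZ.a₃ ^ 2 + 4 * WZ.a₆ := rfl
  obtain ⟨S, g, k⟩ := hU (RR w (JF w)) p e X Z W (a ^ 2 + WZ.a₂) (WZ.a₄ + a * WZ.a₃) WZ.a₆ WZ.a₃
    hi ((unit_iff e).2 ve) (Subtype.ext (by
      change (2 : Qbar) = ee * pp ^ 3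
      rw [ee, div_mul_cancel₀ _ (pow_ne_zero _ p0)])) hc (Subtype.ext (by
      have k := cub_er 0
      rw [cub, b2, b4, b6] at k
      push_cast at k ⊢
      change pp ^ 3 + 2 * _ * pp ^ 2 + 4 * _ * pp + 2 * (_ + 4 * _) = 0
      rw [pp]
      linear_combination 2 * k)) (fun k => h0 (by rw [k, map_zero]))
    (PowerSeries.map_injective (RR w (JF w)).subtype Subtype.val_injective (by
      rw [map_pow, h, cF, cf, b2, b4, b6]
      simp only [map_mul, map_add, map_pow, map_ofNat, map_intCast]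
      push_cast
      ring))
  refine ⟨_, _, of_map S, of_map g, ?_⟩
  have k' := congrArg (PowerSeries.map (RR w (JF w)).subtype) k
  simp only [map_mul, map_sub, map_add, map_pow, map_one, PowerSeries.map_C] at k' ⊢
  exact k'

end Pool.Agent.B6.D9
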