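import Pool.Agent.Lib.MP_696deb_nt.B7.D9v

/-! The sum over all discs. -/

set_option autoImplicit false

open scoped Classical NNReal

namespace Pool.Agent.B6.D9

open Pool.Agent.Lib.MP_696deb_nt Pool.Agent.Lib.MP_696deb_nt.B2

namespace Sum

theorem prod_add {ι : Type*} (V : Valuation Qbar ℝ≥0) (s : Finset ι) (x : ι → Qbar) {μ : ℝ≥0}
    (hμ : μ ≤ 1) (h : ∀ i, V (x i) ≤ μ) :
    V (∏ i ∈ s, (1 + x i) - (1 + ∑ i ∈ s, x i)) ≤ μ ^ 2 := by
  induction s using Finset.induction_on with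
  | empty => simp
  | insert i s hi ih =>
    rw [Finset.prod_insert hi, Finset.sum_insert hi, show _ - _ = (1 + x i) *
      (∏ j ∈ s, (1 + x j) - (1 + ∑ j ∈ s, x j)) + x i * ∑ j ∈ s, x j by ring]
    refine V.map_add_le ?_ ?_ <;> rw [map_mul]
    · exact (mul_le_of_le_one_left' (V.map_add_le V.map_one.le ((h i).trans hμ))).trans ih
    · exact sq μ ▸ mul_le_mul' (h i) (V.map_sum_le fun j _ => h j)

theorem conj_JF [Cw] {w : Plc} {σ g : Gam} (hσ : σ ∈ Dec w) (h0 : σ (er 0) = er 0)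
    (hg : g ∈ JF w) : σ⁻¹ * g * σ ∈ JF w := by
  refine ⟨by simpa using conj_mem_Ine (inv_mem hσ) hg.1, mem_JF.1 hg |>.2 |> fun e => ?_⟩
  show σ⁻¹ (g (σ (er 0))) = er 0
  rw [h0, e]
  exact σ.symm_apply_eq.2 h0.symm

end Sum

theorem sum_stmt [Cw] (hKn : KnStmt) (hAs : AsStmt) (hKc : KcStmt) (hVg : VgStmt)
    (hRt : RtStmt) : SumStmt := by
  intro hs w σ ι _ a b k m R hp hσ h0 hD hY hn hR e
  have v2 : w.V 2 = 2⁻¹ := by simpa [hp] using w.hV
  have h2 : w.V 2 < 1 := v2 ▸ two_inv_lt_one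
  have z2 : w.V 2 ≠ 0 := by simp
  have v4 : w.V 4 = w.V 2 ^ 2 := by rw [← map_pow]; norm_num
  have p3 := (hRt hs w hp).1
  have p1 : w.V pp < 1 := (pow_lt_one_iff (by decide)).1 (p3 ▸ h2)
  have p0 : 0 < w.V pp := pos_of_ne_zero fun h => z2 (by rw [← p3, h]; simp)
  have r2 : w.V (rt 2) ^ 2 = w.V 2 := by rw [← map_pow, rt_sq]; norm_num
  have r1 : w.V (rt 2) < 1 := (pow_lt_one_iff (by decide)).1 (r2 ▸ h2)
  have r0 : 0 < w.V (rt 2) := pos_of_ne_zero fun h => z2 (by rw [← r2, h]; simp)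
  have q1 : w.V (pp ^ 2) ≤ 1 := by rw [map_pow]; exact pow_le_one' p1.le _
  have fp : Fx (JF w) pp := fun g hg => by rw [pp, map_mul, map_ofNat, (mem_JF.1 hg).2]
  have fx : ∀ y, Fx (JF w) y → Fx (JF w) (1 + 2 * pp ^ 2 * y) := fun y hy g hg => by
    rw [map_add, map_one, map_mul, map_mul, map_pow, map_ofNat, fp g hg, hy g hg]
  have sm : ∀ y, w.V y ≤ 1 → w.V (2 * pp ^ 2 * y) ≤ w.V (2 * pp ^ 2) := fun y hy => by
    rw [map_mul]; exact mul_le_of_le_one_right' hy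
  have s2 : w.V (2 * pp ^ 2) ≤ w.V 2 := by rw [map_mul]; exact mul_le_of_le_one_right' q1
  have un : ∀ y, w.V y ≤ 1 → w.V (1 + 2 * pp ^ 2 * y) = 1 := fun y hy =>
    w.V.map_one_add_of_lt (((sm y hy).trans s2).trans_lt h2)
  have jf : JF w ≤ Ine w := inf_le_left
  have jj : JJ w ≤ JF w := inf_le_left
  have k1 : w.V (∑ i, k i) ≤ 1 := w.V.map_sum_le fun i _ => (hD i).2.2.2.1
  have fk : Fx (JF w) (∑ i, k i) := fun g hg => by
    rw [map_sum]; exact Finset.sum_congr rfl fun i _ => (hD i).2.2.1 g hg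
  have A : Rel (JF w) (kap (∑ i, a i)) (1 + 2 * pp ^ 2 * ∑ i, k i) := by
    refine (((hKn _ fun g hg => (mem_JF.1 hg).2).2 ι a fun g hg =>
      ⟨1, fun i => (hD i).1 g hg⟩).trans (.prod _ fun i _ => (hD i).2.2.2.2.1)).trans
      (hAs w _ _ _ hp jf (fun g hg => ?_) (fx _ fk) (un _ k1) ?_)
    · rw [map_prod]; exact Finset.prod_congr rfl fun i _ => fx _ (hD i).2.2.1 g hg
    · rw [Finset.mul_sum, v4]
      exact Sum.prod_add _ _ _ h2.le fun i => (sm _ (hD i).2.2.2.1).trans s2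
  have k2 : w.V (∑ i, k i) = 1 := by
    by_contra hk
    have hk : w.V (∑ i, k i) ≤ w.V pp := by
      by_cases z : ∑ i, k i = 0
      · simp [z]
      obtain ⟨j, hj⟩ := (hVg hs w hp).1 _ fk z
      have : 0 < j := (zpow_lt_one_iff_right_of_lt_one₀ p0 p1).1 (hj ▸ k1.lt_of_ne hk)
      simpa [hj] using zpow_le_zpow_right_of_le_one₀ p0 p1.le (show (1 : ℤ) ≤ j from this)
    refine (hKc hs w hp _ hY (A.trans (hAs w _ _ _ hp jf (fx _ fk)
      (fun g _ => map_one g) (map_one _) ?_))).elim fun S s => hn S s.1 s.2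
    rw [add_sub_cancel_left, v4, sq (w.V 2), map_mul, map_mul, map_pow, mul_assoc]
    exact mul_le_mul_right ((mul_le_mul_right hk _).trans (by rw [← pow_succ, p3])) _
  have sY : ∀ g ∈ JJ w, g • σ • ∑ i, a i = σ • ∑ i, a i := fun g hg => by
    have := hY _ (jf (Sum.conj_JF hσ h0 (jj hg)))
    rwa [mul_smul, mul_smul, inv_smul_eq_iff] at this
  have B : Rel (JF w) (kap (σ • ∑ i, a i)) (1 + 2 * pp ^ 2 * σ (∑ i, k i)) := by
    obtain ⟨β, b0, b1, b2⟩ := A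
    refine ⟨σ β, by simpa using b0, fun g hg => ?_, ?_⟩
    · exact σ.symm_apply_eq.1 (b1 _ (Sum.conj_JF hσ h0 hg))
    · simp only [kap_smul h0, b2, map_mul, map_add, map_pow, map_one, map_ofNat, pp, h0]
  have KJ := hKn (JJ w) fun g hg => (mem_JF.1 (jj hg)).2
  have R2 : ∀ g ∈ JJ w, g • (R + (m / 2) • σ • ∑ i, a i) = R + (m / 2) • σ • ∑ i, a i :=
    fun g hg => by rw [smul_add, hR g hg, smul_comm g (m / 2), sY g hg]
  have C : ∃ y, w.V y ≤ 1 ∧ Rel (JJ w) (kap (∑ i, b i)) (1 + 2 * pp ^ 2 * y) := by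
    have e' : ∑ i, b i = 2 • (R + (m / 2) • σ • ∑ i, a i) + (m % 2) • σ • ∑ i, a i := by
      rw [e]
      generalize σ • ∑ i, a i = Y
      conv_lhs => rw [← Int.mul_ediv_add_emod m 2]
      module
    rcases Int.emod_two_eq_zero_or_one m with h | h <;> rw [h] at e'
    · exact ⟨0, by simp, by simpa [e'] using KJ.1 _ R2⟩
    · refine ⟨_, ((mem_Dec.1 hσ) _).trans_le k1, ?_⟩
      have := KJ.2 (Fin 2) ![2 • (R + (m / 2) • σ • ∑ i, a i), σ • ∑ i, a i] fun g hg =>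
        ⟨1, Fin.forall_fin_two.2 ⟨(smul_comm g 2 _).trans (congrArg _ (R2 g hg)), sY g hg⟩⟩
      rw [Fin.sum_univ_two, Fin.prod_univ_two] at this
      rw [e', one_smul, ← one_mul (1 + _)]
      exact this.trans ((KJ.1 _ R2).mul (B.mono jj))
  obtain ⟨y, y1, C⟩ := C
  choose c c1 c2 using fun i => (hD i).2.2.2.2.2
  obtain ⟨β, -, b1, b2⟩ := (C.symm.trans ((KJ.2 ι b fun g hg =>
    ⟨1, fun i => (hD i).2.1 g hg⟩).trans (.prod _ fun i _ => c1 i))).symm
  refine (hVg hs w hp).2 β b1 ?_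
  set l := pp ^ 2 * rt 2 with hl
  have l0 : 0 < w.V l := by rw [hl, map_mul, map_pow]; positivity
  have l1 : w.V l < 1 := by rw [hl, map_mul]; exact (mul_le_of_le_one_left' q1).trans_lt r1
  have lk : ∀ x, w.V x ≤ 1 → w.V (l * x) ≤ w.V l := fun x hx => by
    rw [map_mul]; exact mul_le_of_le_one_right' hx
  have E1 : w.V (∏ i, c i - (1 + ∑ i, (c i - 1))) < w.V l := by
    have := Sum.prod_add w.V Finset.univ (fun i => c i - 1) l1.le fun i => by
      rw [show c i - 1 = c i - (1 + l * k i) + l * k i by ring]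
      exact w.V.map_add_le (c2 i).le (lk _ (hD i).2.2.2.1)
    simp only [add_sub_cancel] at this
    exact this.trans_lt (by simpa using pow_lt_pow_right_of_lt_one₀ l0 l1 one_lt_two)
  have E2 : w.V (∑ i, (c i - (1 + l * k i))) < w.V l := w.V.map_sum_lt l0.ne' fun i _ => c2 i
  have E3 : w.V (2 * pp ^ 2 * y) < w.V l := by
    refine (sm y y1).trans_lt ?_
    rw [hl, map_mul, map_mul, mul_comm, ← r2]
    exact mul_lt_mul_of_pos_left (by simpa using pow_lt_pow_right_of_lt_one₀ r0 r1 one_lt_two)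
      (by rw [map_pow]; positivity)
  have E : w.V (l * ∑ i, k i) = w.V l := by rw [map_mul, k2, mul_one]
  rw [← mul_one (w.V _), ← un y y1, ← map_mul, ← E, show (β ^ 2 - 1) * _ = l * ∑ i, k i +
    (∏ i, c i - (1 + ∑ i, (c i - 1)) + ∑ i, (c i - (1 + l * k i)) - 2 * pp ^ 2 * y) by
      simp only [Finset.sum_sub_distrib, Finset.sum_add_distrib, ← Finset.mul_sum, b2]; ring]
  exact w.V.map_add_eq_of_lt_left (E ▸ w.V.map_sub_lt (w.V.map_add_lt E1 E2) E3)

end Pool.Agent.B6.D9
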