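import Pool.Agent.Lib.MP_696deb_nt.B7.D9a

/-! The expansion in the coordinate is a ring homomorphism on analytic germs. -/

set_option autoImplicit false

open Filter Topology Finset
open scoped Classical ModularForm

namespace Pool.Agent.B6.D9

open Pool.Agent.Lib.MP_696deb_nt

namespace Tay

variable {z : ℂ} {h k : ℂ → ℂ}

theorem hol_tt : Hol tt := fun z hz => by
  have h9 : 0 < (9 * z : ℂ).im := by simpa using hz
  have a : DifferentiableAt ℂ (fun u : ℂ => η (9 * u)) z :=
    (ModularForm.differentiableAt_eta_of_mem_upperHalfPlaneSet h9).comp z (by fun_prop)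
  exact (((ModularForm.differentiableAt_eta_of_mem_upperHalfPlaneSet hz).div a
    (ModularForm.eta_ne_zero h9)).pow 3).const_add 3

theorem dd_congr (e : h =ᶠ[𝓝 z] k) : dd h =ᶠ[𝓝 z] dd k :=
  e.deriv.mono fun u hu => by simp only [dd, hu]

theorem it_congr (n : ℕ) : ∀ {h k : ℂ → ℂ}, h =ᶠ[𝓝 z] k → dd^[n] h =ᶠ[𝓝 z] dd^[n] k := by
  induction n with
  | zero => exact id
  | succ n ih => exact fun e => ih (dd_congr e)

theorem it_const (c : ℂ) (n : ℕ) : dd^[n + 1] (fun _ => c) = fun _ => 0 := by
  induction n generalizing c with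
  | zero => funext u; simp [dd]
  | succ n ih =>
    rw [Function.iterate_succ_apply, ← ih 0]
    congr 1
    funext u
    simp [dd]

theorem dd_add (a : AnalyticAt ℂ h z) (b : AnalyticAt ℂ k z) :
    dd (fun u => h u + k u) =ᶠ[𝓝 z] fun u => dd h u + dd k u :=
  (a.eventually_analyticAt.and b.eventually_analyticAt).mono fun u hu => by
    simp only [dd, deriv_fun_add hu.1.differentiableAt hu.2.differentiableAt, add_div]

theorem dd_mul (a : AnalyticAt ℂ h z) (b : AnalyticAt ℂ k z) :
    dd (fun u => h u * k u) =ᶠ[𝓝 z] fun u => dd h u * k u + h u * dd k u :=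
  (a.eventually_analyticAt.and b.eventually_analyticAt).mono fun u hu => by
    simp only [dd, deriv_fun_mul hu.1.differentiableAt hu.2.differentiableAt]
    ring

variable (ht : AnalyticAt ℂ tt z) (hn : deriv tt z ≠ 0)
include ht hn

theorem an_dd (a : AnalyticAt ℂ h z) : AnalyticAt ℂ (dd h) z := a.deriv.fun_div ht.deriv hn

theorem an_it (n : ℕ) : ∀ {h : ℂ → ℂ}, AnalyticAt ℂ h z → AnalyticAt ℂ (dd^[n] h) z := by
  induction n with
  | zero => exact id
  | succ n ih => exact fun a => ih (an_dd ht hn a)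

theorem it_add (n : ℕ) : ∀ {h k : ℂ → ℂ}, AnalyticAt ℂ h z → AnalyticAt ℂ k z →
    dd^[n] (fun u => h u + k u) z = dd^[n] h z + dd^[n] k z := by
  induction n with
  | zero => exact fun _ _ => rfl
  | succ n ih =>
    exact fun a b => (it_congr n (dd_add a b)).eq_of_nhds.trans (ih (an_dd ht hn a) (an_dd ht hn b))

theorem it_mul (n : ℕ) : ∀ {h k : ℂ → ℂ}, AnalyticAt ℂ h z → AnalyticAt ℂ k z →
    dd^[n] (fun u => h u * k u) z =
      ∑ p ∈ antidiagonal n, (n.choose p.1 : ℂ) * (dd^[p.1] h z * dd^[p.2] k z) := by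
  induction n with
  | zero => intro h k _ _; simp
  | succ n ih =>
    intro h k a b
    rw [sum_antidiagonal_choose_succ_mul fun i j => dd^[i] h z * dd^[j] k z,
      Function.iterate_succ_apply, (it_congr n (dd_mul a b)).eq_of_nhds,
      it_add ht hn n ((an_dd ht hn a).fun_mul b) (a.fun_mul (an_dd ht hn b)),
      ih (an_dd ht hn a) b, ih a (an_dd ht hn b), add_comm]
    congr 1
    refine sum_congr rfl fun p hp => ?_
    rw [Nat.choose_symm_of_eq_add (mem_antidiagonal.1 hp).symm]
    rfl

theorem dd_tt : dd tt =ᶠ[𝓝 z] fun _ => 1 :=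
  (ht.deriv.continuousAt.eventually_ne hn).mono fun _ hu => div_self hu

end Tay

open Tay in
theorem tay_stmt (hD : DerStmt) : TayStmt := fun z hz => by
  have ht : AnalyticAt ℂ tt z := B4.gb_an hol_tt hz
  have hn := deriv_tt_ne hD hz
  refine ⟨?_, fun c => ?_, fun h k e => ?_, fun h a => ⟨fun n => ?_, fun k b => ⟨?_, ?_⟩⟩⟩
  · ext n
    rw [Ty, PowerSeries.coeff_mk, Dv]
    match n with
    | 0 => simp
    | 1 => simp [dd, hn]
    | n + 2 =>
      rw [Function.iterate_succ_apply, (it_congr _ (dd_tt ht hn)).eq_of_nhds, it_const]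
      simp [PowerSeries.coeff_X]
  · ext n
    rw [Ty, PowerSeries.coeff_mk, Dv]
    match n with
    | 0 => simp
    | n + 1 =>
      rw [it_const]
      simp
  · ext n
    simp only [Ty, PowerSeries.coeff_mk, Dv, (it_congr n e).eq_of_nhds]
  · exact (an_it ht hn n a).fun_div analyticAt_const (by exact_mod_cast n.factorial_ne_zero)
  · ext n
    simp only [Ty, map_add, PowerSeries.coeff_mk, Dv, it_add ht hn n a b, add_div]
  · ext n
    simp only [Ty, PowerSeries.coeff_mul, PowerSeries.coeff_mk, Dv, it_mul ht hn n a b, sum_div]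
    refine sum_congr rfl fun p hp => ?_
    have f : ∀ m : ℕ, (m.factorial : ℂ) ≠ 0 := fun m => by exact_mod_cast m.factorial_ne_zero
    rw [← mem_antidiagonal.1 hp, Nat.cast_add_choose]
    field_simp [f]

end Pool.Agent.B6.D9
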