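import Pool.Agent.Lib.MP_696deb_nt.B7.D9

/-! The square class on a disc, from the generic point of the special fibre. -/

set_option autoImplicit false

namespace Pool.Agent.B6.D9

namespace Ufd

variable {B : Type} [CommRing B] [IsDomain B] {P : B}

theorem pow_cancel (hP : Prime P) {i j : ℕ} {a b : B} (ha : ¬ P ∣ a) (hb : ¬ P ∣ b)
    (h : P ^ i * a = P ^ j * b) : i = j ∧ a = b := by
  have k : ∀ {i j : ℕ} {a b : B}, ¬ P ∣ a → P ^ i * a = P ^ j * b → j ≤ i := fun {i j a b} ha h =>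
    (pow_dvd_pow_iff hP.ne_zero hP.not_isUnit).1
      (hP.pow_dvd_of_dvd_mul_right j ha ⟨b, h⟩)
  obtain rfl := le_antisymm (k hb h.symm) (k ha h)
  exact ⟨rfl, mul_left_cancel₀ (pow_ne_zero _ hP.ne_zero) h⟩

omit [IsDomain B] in
theorem nd_mul (hP : Prime P) {a b : B} (ha : ¬ P ∣ a) (hb : ¬ P ∣ b) : ¬ P ∣ a * b :=
  fun h => (hP.dvd_or_dvd h).elim ha hb

omit [IsDomain B] in
theorem nd_sq (hP : Prime P) {a : B} (ha : ¬ P ∣ a) : ¬ P ∣ a ^ 2 :=
  fun h => ha (hP.dvd_of_dvd_pow h)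

variable [UniqueFactorizationMonoid B]

/-- A factor of a square that is prime to its cofactor outside one prime. -/
theorem sq_class (hP : Prime P) {A Q W : B} (hW : W ≠ 0) (h : W ^ 2 = A * Q)
    (hc : ∀ q : B, Prime q → q ∣ A → q ∣ Q → q ∣ P) :
    ∃ (k : ℕ) (u S : B), IsUnit u ∧ ¬ P ∣ S ∧ A = P ^ k * (u * S ^ 2) := by
  have h0 : A * Q ≠ 0 := h ▸ pow_ne_zero 2 hW
  obtain ⟨i, A0, a1, rfl⟩ := WfDvdMonoid.max_power_factor (left_ne_zero_of_mul h0) hP.irreducible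
  obtain ⟨j, Q0, q1, rfl⟩ := WfDvdMonoid.max_power_factor (right_ne_zero_of_mul h0) hP.irreducible
  obtain ⟨l, W0, w1, rfl⟩ := WfDvdMonoid.max_power_factor hW hP.irreducible
  have e := (pow_cancel hP (i := i + j) (j := l * 2) (nd_mul hP a1 q1) (nd_sq hP w1)
    (by rw [pow_add, pow_mul]; linear_combination -h)).2
  have r : IsRelPrime A0 Q0 :=
    (UniqueFactorizationMonoid.isRelPrime_iff_no_prime_factors fun z : A0 = 0 =>
      a1 (z ▸ dvd_zero _)).2
      fun q h1 h2 hq => a1 (((hq.dvd_prime_iff_associated hP).1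
        (hc q hq (h1.mul_left _) (h2.mul_left _))).symm.dvd.trans h1)
  let := UniqueFactorizationMonoid.toGCDMonoid B
  obtain ⟨S, u, rfl⟩ := exists_associated_pow_of_mul_eq_pow (gcd_isUnit_iff_isRelPrime.2 r) e
  exact ⟨i, u, S, u.isUnit, fun z => a1 ((dvd_pow z two_ne_zero).mul_right _), by ring⟩

theorem loc_dvr (hP : Prime P) [(Ideal.span {P}).IsPrime] :
    Irreducible (algebraMap B (Localization.AtPrime (Ideal.span {P})) P) ∧
      IsDiscreteValuationRing (Localization.AtPrime (Ideal.span {P})) := by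
  have inj := IsLocalization.injective (Localization.AtPrime (Ideal.span {P}))
    (Ideal.span {P}).primeCompl_le_nonZeroDivisors
  have p0 : algebraMap B (Localization.AtPrime (Ideal.span {P})) P ≠ 0 :=
    (map_ne_zero_iff _ inj).2 hP.ne_zero
  have ir : Irreducible (algebraMap B (Localization.AtPrime (Ideal.span {P})) P) := by
    refine ((Ideal.span_singleton_prime p0).1 ?_).irreducible
    rw [← Set.image_singleton, ← Ideal.map_span, Localization.AtPrime.map_eq_maximalIdeal]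
    infer_instance
  refine ⟨ir, IsDiscreteValuationRing.ofHasUnitMulPowIrreducibleFactorization
    ⟨_, ir, fun {x} hx => ?_⟩⟩
  obtain ⟨⟨a, s⟩, e⟩ := IsLocalization.surj (Ideal.span {P}).primeCompl x
  have us := IsLocalization.map_units (Localization.AtPrime (Ideal.span {P})) s
  have a0 : a ≠ 0 := fun z => hx (us.mul_left_eq_zero.1 (by simpa [z] using e))
  obtain ⟨n, a', h1, rfl⟩ := WfDvdMonoid.max_power_factor a0 hP.irreducible
  have ua := (IsLocalization.AtPrime.isUnit_to_map_iff (Localization.AtPrime (Ideal.span {P}))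
    (Ideal.span {P}) a').2 (by simpa [Ideal.mem_span_singleton] using h1)
  simp only [map_mul, map_pow] at e
  exact ⟨n, (associated_mul_unit_right _ _ ua).trans
    (e ▸ (associated_mul_unit_left _ _ us))⟩

omit [UniqueFactorizationMonoid B] in
/-- Clearing denominators. -/
theorem descend [(Ideal.span {P}).IsPrime] {A : B} {S g : Localization.AtPrime (Ideal.span {P})}
    (h : algebraMap B _ A = S ^ 2 * (1 + algebraMap B _ P ^ 2 * g)) :
    ∃ s t t' g' : B, ¬ P ∣ t ∧ ¬ P ∣ t' ∧ A * (t * t') ^ 2 = s ^ 2 * (t' ^ 2 + P ^ 2 * g') := by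
  obtain ⟨⟨s, t⟩, e⟩ := IsLocalization.surj (Ideal.span {P}).primeCompl S
  obtain ⟨⟨g', t'⟩, e'⟩ := IsLocalization.surj (Ideal.span {P}).primeCompl g
  refine ⟨s, t, t', g' * t', fun z => t.2 (Ideal.mem_span_singleton.2 z),
    fun z => t'.2 (Ideal.mem_span_singleton.2 z),
    IsLocalization.injective (Localization.AtPrime (Ideal.span {P}))
      (Ideal.span {P}).primeCompl_le_nonZeroDivisors ?_⟩
  simp only [map_mul, map_pow, map_add] at e e' ⊢
  rw [h, ← e, ← e']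
  ring

variable [IsLocalRing B]

omit [IsDomain B] [UniqueFactorizationMonoid B] in
theorem unit_add (hP : Prime P) {u : B} (hu : IsUnit u) (x : B) : IsUnit (u + P * x) :=
  (IsLocalRing.isUnit_or_isUnit_of_isUnit_add (a := u + P * x) (b := -(P * x))
    (by simpa using hu)).resolve_right fun h => hP.not_isUnit (isUnit_of_mul_isUnit_left
      (IsUnit.neg_iff _ |>.1 h))

/-- From the localization back to the ring. -/
theorem back (hP : Prime P) {E A u S s t t' g' : B} {k : ℕ} (h2 : 2 = E * P ^ 3)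
    (hs : ∀ u a b : B, ¬ P ∣ a → P ∣ u * a ^ 2 - b ^ 2 → ∃ c, P ∣ b - c * a)
    (hu : IsUnit u) (hS : ¬ P ∣ S) (hA : A = P ^ k * (u * S ^ 2)) (ht : ¬ P ∣ t) (ht' : ¬ P ∣ t')
    (h : A * (t * t') ^ 2 = s ^ 2 * (t' ^ 2 + P ^ 2 * g')) :
    ∃ S g : B, A = S ^ 2 * (1 + P ^ 2 * g) := by
  have nu : ¬ P ∣ u := fun z => hP.not_isUnit (isUnit_of_dvd_unit z hu)
  have n1 : ¬ P ∣ S * (t * t') := nd_mul hP hS (nd_mul hP ht ht')
  have n2 : ¬ P ∣ t' ^ 2 + P ^ 2 * g' := fun z =>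
    nd_sq hP ht' ((dvd_add_left ((dvd_pow_self P two_ne_zero).mul_right _)).1 z)
  have n3 : ¬ P ∣ u * (S * (t * t')) ^ 2 := nd_mul hP nu (nd_sq hP n1)
  have s0 : s ≠ 0 := fun z => mul_ne_zero (pow_ne_zero k hP.ne_zero)
    (fun z : u * (S * (t * t')) ^ 2 = 0 => n3 (z ▸ dvd_zero _))
    (by rw [z, hA] at h; linear_combination h)
  obtain ⟨m, s', s1, rfl⟩ := WfDvdMonoid.max_power_factor s0 hP.irreducible
  obtain ⟨rfl, e⟩ := pow_cancel hP (i := k) (j := m * 2) n3 (nd_mul hP (nd_sq hP s1) n2)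
    (by rw [hA] at h; rw [pow_mul]; linear_combination h)
  obtain ⟨c, y, hy⟩ := hs u _ (s' * t') n1 ⟨P * (s' ^ 2 * g'), by linear_combination e⟩
  obtain ⟨w, hw⟩ : P ^ 2 ∣ u - c ^ 2 := hP.pow_dvd_of_dvd_mul_right 2 (nd_sq hP n1)
    ⟨s' ^ 2 * g' + y ^ 2 + E * P ^ 2 * c * (S * (t * t')) * y, by
      linear_combination e + (s' * t' + c * (S * (t * t')) + P * y) * hy +
        c * (S * (t * t')) * P * y * h2⟩
  have uc : IsUnit (c ^ 2) := by
    have := unit_add hP hu (-(P * w))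
    rwa [show u + P * -(P * w) = c ^ 2 by linear_combination hw] at this
  obtain ⟨d, hd⟩ := uc.exists_right_inv
  refine ⟨P ^ m * S * c, w * d, ?_⟩
  rw [hA, pow_mul]
  linear_combination (P ^ m) ^ 2 * S ^ 2 * hw - (P ^ m) ^ 2 * S ^ 2 * P ^ 2 * w * hd

theorem core (hL : LocStmt) (hP : Prime P) {E X Z W : B} {b₂ b₄ b₆ c : ℤ} (hE : IsUnit E)
    (h2 : 2 = E * P ^ 3) (hc : Odd c)
    (hr : P ^ 3 + 2 * b₂ * P ^ 2 + 4 * b₄ * P + 2 * (c ^ 2 + 4 * b₆) = 0)
    (hs : ∀ u a b : B, ¬ P ∣ a → P ∣ u * a ^ 2 - b ^ 2 → ∃ c, P ∣ b - c * a)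
    (hW : W ≠ 0) (h : W ^ 2 = Z * cf b₂ b₄ b₆ c X Z) :
    ∃ S g : B, E * Z * (E * P ^ 2 * X - Z) = S ^ 2 * (1 + P ^ 2 * g) := by
  have z0 : Z ≠ 0 := left_ne_zero_of_mul (h ▸ pow_ne_zero 2 hW)
  obtain ⟨Z, X, G, r, rfl, rfl⟩ := UniqueFactorizationMonoid.exists_reduced_factors Z z0 X
  have g0 : G ≠ 0 := left_ne_zero_of_mul z0
  have h' : W ^ 2 = (G ^ 2) ^ 2 * (Z * cf b₂ b₄ b₆ c X Z) := by
    rw [h, cf, cf]; ring
  obtain ⟨W, rfl⟩ := (UniqueFactorizationMonoid.pow_dvd_pow_iff_dvd two_ne_zero).1 ⟨_, h'⟩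
  have w0 : W ≠ 0 := right_ne_zero_of_mul hW
  have e : W ^ 2 = Z * cf b₂ b₄ b₆ c X Z :=
    mul_left_cancel₀ (pow_ne_zero 2 (pow_ne_zero 2 g0)) (by rw [← h']; ring)
  suffices k : ∃ S g : B, E * Z * (E * P ^ 2 * X - Z) = S ^ 2 * (1 + P ^ 2 * g) by
    obtain ⟨S, g, k⟩ := k
    exact ⟨G * S, g, by linear_combination G ^ 2 * k⟩
  obtain ⟨d, hd⟩ : ∃ d : B, d = c ^ 2 + 4 * b₆ := ⟨_, rfl⟩
  obtain ⟨Q, hQ⟩ : ∃ Q, Q = E * P ^ 4 * X ^ 2 - (E * P ^ 2 * d + 4 * b₄) * X * Z - d * Z ^ 2 :=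
    ⟨_, rfl⟩
  have r2 : E * P ^ 4 + 4 * b₂ + E * P ^ 2 * (E * P ^ 2 * d + 4 * b₄) = 0 :=
    mul_left_cancel₀ (pow_ne_zero 2 hP.ne_zero) (by
      rw [hd]
      linear_combination E * P ^ 3 * hr +
        (2 * b₂ * P ^ 2 - E * P ^ 3 * (c ^ 2 + 4 * b₆)) * h2)
  have fac : cf b₂ b₄ b₆ c X Z = (E * P ^ 2 * X - Z) * Q := by
    rw [cf, hQ, ← hd]
    linear_combination X ^ 2 * Z * r2 + X ^ 3 * (2 + E * P ^ 3) * h2
  obtain ⟨k, u, S, hu, hS, hA⟩ := sq_class hP (A := Z * (E * P ^ 2 * X - Z)) (Q := Q) w0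
    (by rw [e, fac]; ring) fun q hq h1 h3 => by
      by_contra hn
      have nE : ¬ q ∣ E := fun z => hq.not_isUnit (isUnit_of_dvd_unit z hE)
      have nP : ∀ n : ℕ, ¬ q ∣ P ^ n := fun n z => hn (hq.dvd_of_dvd_pow z)
      rcases hq.dvd_or_dvd h1 with h1 | h1
      · have : q ∣ E * P ^ 4 * X ^ 2 := by
          have := h3.add (h1.mul_left ((E * P ^ 2 * d + 4 * b₄) * X + d * Z))
          rwa [show Q + ((E * P ^ 2 * d + 4 * b₄) * X + d * Z) * Z = E * P ^ 4 * X ^ 2 by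
            rw [hQ]; ring] at this
        exact hq.not_isUnit (r h1 (hq.dvd_of_dvd_pow
          ((hq.dvd_or_dvd this).resolve_left (nd_mul hq nE (nP 4)))))
      · have uU := unit_add hP isUnit_one (-(E ^ 2 * P ^ 2 * d + E ^ 2 * P ^ 3 * b₄))
        have : q ∣ E * P ^ 4 * (1 + P * -(E ^ 2 * P ^ 2 * d + E ^ 2 * P ^ 3 * b₄)) *
            X ^ 2 := by
          have := h3.sub (h1.mul_left ((3 * E * P ^ 2 * d + 4 * b₄) * X -
            d * (E * P ^ 2 * X - Z)))
          refine this.trans (dvd_of_eq ?_)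
          rw [hQ]
          linear_combination (-(E ^ 2 * P ^ 4 * d) - E * P ^ 2 * b₄ * (2 + E * P ^ 3)) * X ^ 2 * h2
        have hX := hq.dvd_of_dvd_pow ((hq.dvd_or_dvd this).resolve_left
          (nd_mul hq (nd_mul hq nE (nP 4)) fun z => hq.not_isUnit (isUnit_of_dvd_unit z uU)))
        refine hq.not_isUnit (r ?_ hX)
        exact ((hX.mul_left (E * P ^ 2)).sub h1).trans (dvd_of_eq (by ring))
  have := (Ideal.span_singleton_prime hP.ne_zero).2 hP
  obtain ⟨ir, dv⟩ := loc_dvr hP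
  obtain ⟨f, hf⟩ : ∃ f, f = algebraMap B (Localization.AtPrime (Ideal.span {P})) := ⟨_, rfl⟩
  have inj := IsLocalization.injective (Localization.AtPrime (Ideal.span {P}))
    (Ideal.span {P}).primeCompl_le_nonZeroDivisors
  rw [← hf] at ir inj
  obtain ⟨S', g', k'⟩ := hL (Localization.AtPrime (Ideal.span {P})) (f P) (f E) (f X) (f Z) (f W)
    b₂ b₄ b₆ c ir (hE.map f) (by simpa [map_ofNat] using congrArg f h2) hc
    (by simpa [map_ofNat] using congrArg f hr) ((map_ne_zero_iff _ inj).2 w0)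
    (by simpa [cf, map_ofNat] using congrArg f e)
  obtain ⟨s, t, t', g'', ht, ht', k''⟩ := descend (A := E * Z * (E * P ^ 2 * X - Z)) (S := S')
    (g := g') (by rw [← hf, ← k']; simp)
  exact back hP (k := k) h2 hs (hE.mul hu) hS (by linear_combination E * hA) ht ht' k''

omit [UniqueFactorizationMonoid B] [IsLocalRing B] [IsDomain B] in
theorem red_zero {R : Type} [CommRing R] [IsDomain R] [IsDiscreteValuationRing R] {p : R}
    (hp : Irreducible p) (F : PowerSeries R) :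
    PowerSeries.map (IsLocalRing.residue R) F = 0 ↔ PowerSeries.C p ∣ F := by
  have k : ∀ x : R, IsLocalRing.residue R x = 0 ↔ p ∣ x := fun x => by
    rw [IsLocalRing.residue_eq_zero_iff, hp.maximalIdeal_eq, Ideal.mem_span_singleton]
  constructor
  · intro h
    choose g hg using fun n => (k (PowerSeries.coeff n F)).1 (by
      simpa using congrArg (PowerSeries.coeff n) h)
    exact ⟨PowerSeries.mk g, by ext n; simp [hg]⟩
  · rintro ⟨G, rfl⟩
    simp [(k p).2 dvd_rfl]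

end Ufd

open Ufd in
theorem ufd_stmt (hL : LocStmt) : UfdStmt := by
  intro R _ _ _ p e X Z W b₂ b₄ b₆ c hp he h2 hc hr hW h
  have hP : Prime (PowerSeries.C p : PowerSeries R) :=
    ⟨fun z => hp.ne_zero (PowerSeries.C_injective (z.trans (map_zero _).symm)),
      fun z => hp.not_isUnit (by simpa using PowerSeries.isUnit_constantCoeff _ z),
      fun a b z => by
        rw [← red_zero hp, map_mul, mul_eq_zero, red_zero hp, red_zero hp] at z
        exact z⟩
  obtain ⟨S, g, k⟩ := core hL hP (E := PowerSeries.C e) (X := X) (Z := Z) (W := W) (b₂ := b₂)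
    (b₄ := b₄) (b₆ := b₆) (he.map _)
    (by simpa [map_ofNat] using congrArg (PowerSeries.C (R := R)) h2) hc
    (by simpa [map_ofNat] using congrArg (PowerSeries.C (R := R)) hr)
    (fun u a b _ z => by
      rw [← red_zero hp, map_sub, map_mul, map_pow, map_pow, sub_eq_zero] at z
      obtain ⟨d, hd⟩ := (UniqueFactorizationMonoid.pow_dvd_pow_iff_dvd two_ne_zero).1
        (Dvd.intro_left _ z)
      obtain ⟨d, rfl⟩ := PowerSeries.map_surjective _ IsLocalRing.residue_surjective d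
      exact ⟨d, by rw [← red_zero hp, map_sub, map_mul, hd, mul_comm, sub_self]⟩) hW h
  exact ⟨S, g, by simpa using k⟩

end Pool.Agent.B6.D9
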