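import Pool.Agent.Lib.MP_696deb_nt.B7.D9a

/-! The coordinate stays away from the cusps at points of good reduction. -/

set_option autoImplicit false

open scoped Classical Real ModularForm

namespace Pool.Agent.B6.D9

open Pool.Agent.Lib.MP_696deb_nt Pool.Agent.B4.GE

namespace Unt

variable {A : ValuationSubring ℂ} {e : ℤ} {F : ℂ → ℂ} {z : ℂ}

theorem le_of {S : AddSubgroup ℂ} {B : PowerSeries ℂ} (h : QE (fun z => q1 z ^ e * F z) B)
    (hB : Cf S B) : LE S F :=
  ⟨e.toNat, _, (h.pow_mul (-e).toNat).congr fun z _ => by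
    rw [← mul_assoc, ← zpow_natCast, ← zpow_natCast, ← zpow_add₀ (q1_ne z)]
    congr 2
    omega, hB.X_pow_mul _⟩

theorem ul_mem (h : UL A e F) : F ∈ LR A.valuation.integer :=
  h.elim fun _ k => le_of k.1 k.2.1

theorem ul_inv (h : UL A e F) (h0 : ∀ z : ℂ, 0 < z.im → F z ≠ 0) : UL A (-e) fun z => (F z)⁻¹ := by
  obtain ⟨B, h1, h2, h3⟩ := h
  let C : PowerSeries A.valuation.integer := PowerSeries.mk fun k => ⟨_, h2 k⟩
  have hC : C.map A.valuation.integer.subtype = B := PowerSeries.ext fun k => by simp [C]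
  obtain ⟨u, hu⟩ : IsUnit C := PowerSeries.isUnit_iff_constantCoeff.2
    ((Valuation.integer.integers A.valuation).isUnit_iff_valuation_eq_one.2 (by
      rw [← PowerSeries.coeff_zero_eq_constantCoeff_apply, PowerSeries.coeff_mk]; exact h3))
  have h4 : B * (↑u⁻¹ : PowerSeries _).map A.valuation.integer.subtype = 1 := by
    rw [← hC, ← map_mul, ← hu, Units.mul_inv, map_one]
  refine ⟨_, (h1.inv (fun z hz => mul_ne_zero (zpow_ne_zero _ (q1_ne z)) (h0 z hz)) h4).congr
    fun z _ => by rw [mul_inv, zpow_neg], fun k => ?_, ?_⟩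
  · rw [PowerSeries.coeff_map]
    exact Subtype.prop _
  · have h5 := congrArg (fun X => A.valuation (PowerSeries.constantCoeff X)) h4
    simp only [PowerSeries.coeff_zero_eq_constantCoeff] at h3 ⊢
    simpa only [map_mul, h3, one_mul, map_one] using h5

theorem rr_ne (hz : 0 < z.im) : rr z ≠ 0 :=
  pow_ne_zero _ (div_ne_zero (eta_ne hz) (eta_ne (by simpa using hz)))

theorem val_rr (hI : InvStmt) (hC : CuspStmt) (h3 : A.valuation 3 = 1) (hz : 0 < z.im)
    (hj : A.valuation (jf z) ≤ 1) : A.valuation (rr z) = 1 := by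
  have h1 : Inv0 9 rr := fun g hg z hz => add_left_cancel (hI g hg z hz)
  have h4 : IM A 9 rr := ⟨h1, fun g hg => (hC A h3 g hg).elim fun _ k => ul_mem k.1⟩
  have h5 : IM A 9 fun z => (rr z)⁻¹ := ⟨fun g hg z hz => congrArg _ (h1 g hg z hz), fun g hg =>
    (hC A h3 g hg).elim fun _ k => ul_mem (ul_inv k.1 fun z hz =>
      rr_ne (act_pos (by omega) (by simpa using hz)))⟩
  have h6 := h5.val (by decide) hz hj
  rw [map_inv₀, inv_le_one₀ (zero_lt_iff.2 (by simpa using rr_ne hz))] at h6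
  exact le_antisymm (h4.val (by decide) hz hj) h6

end Unt

open Unt in
theorem unit_stmt (hI : InvStmt) (hC : CuspStmt) (hR : RotStmt) : UnitStmt := by
  intro A h3 z hz hj
  have k : ∀ z : ℂ, 0 < z.im → A.valuation (jf z) ≤ 1 →
      0 < (z + 1 / 3).im ∧ A.valuation (jf (z + 1 / 3)) ≤ 1 := fun z hz hj => by
    have e : act (ut 3 1 3) z = z + 1 / 3 := by
      simp only [ut, act_of, mob]
      push_cast
      ring
    have d : 0 < (ut 3 1 3).det := by simp [det_ut]
    exact e ▸ ⟨act_pos d hz, (val_isog d hz hj).2⟩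
  obtain ⟨p1, j1⟩ := k z hz hj
  obtain ⟨p2, j2⟩ := k _ p1 j1
  have h1 := hR z hz
  have h2 := hR _ p1
  have h4 : q1 (-1 / 3) ^ 3 = 1 := by
    rw [← q1_nat_mul, show ((3 : ℕ) : ℂ) * (-1 / 3) = (-1 : ℤ) by push_cast; ring, q1_int]
  have h5 : q1 (-1 / 3) ≠ 1 := fun h => by
    obtain ⟨n, hn⟩ := Complex.exp_eq_one_iff.1 h
    have h6 : (3 * n : ℂ) = -1 := mul_left_cancel₀ Complex.two_pi_I_ne_zero
      (by linear_combination -3 * hn)
    have h7 : 3 * n = -1 := by exact_mod_cast h6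
    omega
  have h6 : q1 (-1 / 3) ^ 2 + q1 (-1 / 3) + 1 = 0 :=
    mul_left_cancel₀ (sub_ne_zero.2 h5) (by linear_combination h4)
  have h7 : ∀ u, rr u = tt u - 3 := fun u => by rw [tt]; ring
  have h8 : tt z ^ 3 - 27 = rr z * rr (z + 1 / 3) * rr (z + 1 / 3 + 1 / 3) := by
    rw [h7, h7, h7, h2, h1]
    linear_combination (3 * tt z ^ 2 - tt z ^ 3) * h4 + (3 * q1 (-1 / 3) * tt z ^ 2 - 9 * tt z -
      3 * (q1 (-1 / 3) - 1) * tt z ^ 2) * h6
  rw [h8, map_mul, map_mul, val_rr hI hC h3 hz hj, val_rr hI hC h3 p1 j1, val_rr hI hC h3 p2 j2,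
    mul_one, mul_one]

end Pool.Agent.B6.D9
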