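import Pool.Agent.Lib.MP_696deb_nt.B7.D9v

/-! The value groups of the numbers fixed by two parts of the inertia group. -/

set_option autoImplicit false

open scoped Classical NNReal

namespace Pool.Agent.B6.D9

open Pool.Agent.Lib.MP_696deb_nt Pool.Agent.Lib.MP_696deb_nt.B2

variable [Cw]

namespace Vg

variable {w : Plc}

theorem shift {a g : Gam} {x : Qbar} (hx : Fx (JF w) x) (ha : a ∈ Ine w) (hg : g ∈ Ine w)
    (e : g (er 0) = a (er 0)) : g x = a x := by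
  have h : (a⁻¹ * g) x = x := hx _ (mem_JF.2 ⟨mul_mem (inv_mem ha) hg, by
    rw [AlgEquiv.mul_apply, e]; exact a.symm_apply_apply _⟩)
  have k : a ((a⁻¹ * g) x) = g x := a.apply_symm_apply _
  rw [← k, h]

theorem first (hR : RtStmt) (hs : Ss) (hw : w.p = 2) {x : Qbar} (hx : Fx (JF w) x) (h0 : x ≠ 0) :
    ∃ k : ℤ, w.V x = w.V pp ^ k := by
  obtain ⟨h1, h2, ⟨τ, t0, t1, t2, t3⟩, -⟩ := hR hs w hw
  have tt : τ * τ ∈ Ine w := mul_mem t0 t0
  have hJ : ∀ j ∈ JF w, j (x * τ x * τ (τ x)) = x * τ x * τ (τ x) := fun j hj => by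
    have a : j (τ x) = τ x := shift (g := j * τ) hx t0 (mul_mem hj.1 t0) (by
      rw [AlgEquiv.mul_apply, t1, (h2 j hj).1])
    have b : j (τ (τ x)) = τ (τ x) := shift (a := τ * τ) (g := j * (τ * τ)) hx tt
      (mul_mem hj.1 tt) (by simp only [AlgEquiv.mul_apply]; rw [t1, t2, (h2 j hj).2])
    rw [map_mul, map_mul, hx j hj, a, b]
  have hτ : τ (x * τ x * τ (τ x)) = x * τ x * τ (τ x) := by
    have a : τ (τ (τ x)) = x := hx (τ * (τ * τ)) (mem_JF.2 ⟨mul_mem t0 tt, by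
      simp only [AlgEquiv.mul_apply]; rw [t1, t2, t3]⟩)
    rw [map_mul, map_mul, a]
    ring
  have hN : Fx (Ine w) (x * τ x * τ (τ x)) := fun g hg => by
    rcases cub_eq_zero.1 (show cub (g (er 0)) = 0 by rw [← map_cub, cub_er, map_zero]) with
      e | e | e
    · exact hJ g ⟨hg, e⟩
    · exact (shift hJ t0 hg (e.trans t1.symm)).trans hτ
    · refine (shift hJ tt hg (by rw [e, AlgEquiv.mul_apply, t1, t2])).trans ?_
      rw [AlgEquiv.mul_apply, hτ, hτ]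
  obtain ⟨k, hk⟩ := V_of_fx_ine hN (by simp [h0])
  have d := mem_Dec.1 (Ine_le w t0)
  have v2 : w.V 2 = 2⁻¹ := by simpa [hw] using w.hV
  refine ⟨k, (pow_left_inj₀ (n := 3) zero_le zero_le (by norm_num)).1 ?_⟩
  rw [map_mul, map_mul, d, d, d, hw] at hk
  rw [← zpow_natCast (w.V pp ^ k), ← zpow_mul, mul_comm, zpow_mul, zpow_natCast, h1, v2, inv_zpow,
    show w.V x ^ 3 = w.V x * w.V x * w.V x by ring, hk]
  norm_num

theorem second (hR : RtStmt) (hs : Ss) (hw : w.p = 2) {y : Qbar} (hy : Fx (JJ w) y) (h0 : y ≠ 0) :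
    ∃ k : ℤ, w.V y ^ 2 = w.V pp ^ k := by
  by_cases h : ∃ g ∈ JF w, chi 2 g = -1
  · obtain ⟨g, hg, e⟩ := h
    have hz : Fx (JF w) (y * g y) := fun j hj => by
      rcases Int.units_eq_one_or (chi 2 j) with c | c
      · have a : (g⁻¹ * (j * g)) y = y := hy _ (mem_JJ.2 ⟨mul_mem (inv_mem hg) (mul_mem hj hg), by
          rw [map_mul, map_mul, map_inv, c, one_mul, inv_mul_cancel]⟩)
        have b : g ((g⁻¹ * (j * g)) y) = j (g y) := g.apply_symm_apply _
        rw [map_mul, hy j (mem_JJ.2 ⟨hj, c⟩), ← b, a]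
      · have a : (g⁻¹ * j) y = y := hy _ (mem_JJ.2 ⟨mul_mem (inv_mem hg) hj, by
          rw [map_mul, map_inv, c, e, inv_mul_cancel]⟩)
        have b : g ((g⁻¹ * j) y) = j y := g.apply_symm_apply _
        have a' : j (g y) = y := hy (j * g) (mem_JJ.2 ⟨mul_mem hj hg, by
          rw [map_mul, c, e]; rfl⟩)
        rw [map_mul, a', ← b, a, mul_comm]
    obtain ⟨k, hk⟩ := first hR hs hw hz (by simp [h0])
    exact ⟨k, by rw [← hk, map_mul, mem_Dec.1 (Ine_le w hg.1), sq]⟩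
  · obtain ⟨k, hk⟩ := first hR hs hw (x := y ^ 2) (fun j hj => by
      rw [map_pow, hy j (mem_JJ.2 ⟨hj, (Int.units_eq_one_or _).resolve_right
        fun c => h ⟨j, hj, c⟩⟩)]) (pow_ne_zero _ h0)
    exact ⟨k, by rw [← hk, map_pow]⟩

end Vg

theorem vg_stmt (hR : RtStmt) : VgStmt := by
  intro hs w hw
  refine ⟨fun x hx h0 => Vg.first hR hs hw hx h0, fun b hb h => ?_⟩
  have h1 := (hR hs w hw).1
  have v2 : w.V 2 = 2⁻¹ := by simpa [hw] using w.hV
  have p0 : 0 < w.V pp := pos_iff_ne_zero.2 fun e => by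
    rw [e, v2] at h1
    norm_num at h1
  have p1 : w.V pp < 1 := by
    refine lt_of_pow_lt_pow_left₀ 3 zero_le ?_
    rw [h1, v2]
    norm_num
  have h7 : (w.V (b - 1) * w.V (b - 1 + 2)) ^ 2 = w.V pp ^ 7 := by
    have r : w.V (rt 2) ^ 2 = w.V pp ^ 3 := by
      rw [← map_pow, rt_sq, h1]
      norm_num
    rw [← map_mul, show (b - 1) * (b - 1 + 2) = b ^ 2 - 1 by ring, h, map_mul, mul_pow, r, map_pow]
    ring
  rcases le_or_gt (w.V (b - 1)) (w.V 2) with c | c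
  · have c' : w.V (b - 1 + 2) ≤ w.V 2 := w.V.map_add_le c le_rfl
    have k : w.V pp ^ 7 ≤ w.V pp ^ 12 := by
      rw [← h7, show w.V pp ^ 12 = (w.V pp ^ 3 * w.V pp ^ 3) ^ 2 by ring, h1]
      gcongr
    exact absurd (pow_lt_pow_right_of_lt_one₀ p0 p1 (by norm_num : 7 < 12)) (not_lt.2 k)
  · obtain ⟨k, hk⟩ := Vg.second hR hs hw (y := b - 1)
      (fun g hg => by rw [map_sub, hb g hg, map_one]) (fun e => by simp [e] at c)
    rw [w.V.map_add_eq_of_lt_left c, mul_pow, hk, ← zpow_add₀ p0.ne', ← zpow_natCast] at h7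
    have := zpow_right_injective₀ p0 p1.ne h7
    omega

end Pool.Agent.B6.D9
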