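import Pool.Agent.Lib.MP_696deb_nt.B7.D9z
import Pool.Agent.Lib.MP_696deb_nt.B7.D9Alg
import Pool.Agent.Lib.MP_696deb_nt.B7.D9Ar
import Pool.Agent.Lib.MP_696deb_nt.B7.D9As
import Pool.Agent.Lib.MP_696deb_nt.B7.D9C1
import Pool.Agent.Lib.MP_696deb_nt.B7.D9C2
import Pool.Agent.Lib.MP_696deb_nt.B7.D9C3
import Pool.Agent.Lib.MP_696deb_nt.B7.D9C4
import Pool.Agent.Lib.MP_696deb_nt.B7.D9Ch
import Pool.Agent.Lib.MP_696deb_nt.B7.D9Ct
import Pool.Agent.Lib.MP_696deb_nt.B7.D9Cusp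
import Pool.Agent.Lib.MP_696deb_nt.B7.D9D1
import Pool.Agent.Lib.MP_696deb_nt.B7.D9Dcq
import Pool.Agent.Lib.MP_696deb_nt.B7.D9Der
import Pool.Agent.Lib.MP_696deb_nt.B7.D9Dim
import Pool.Agent.Lib.MP_696deb_nt.B7.D9Dk
import Pool.Agent.Lib.MP_696deb_nt.B7.D9Du
import Pool.Agent.Lib.MP_696deb_nt.B7.D9Fix
import Pool.Agent.Lib.MP_696deb_nt.B7.D9Fld
import Pool.Agent.Lib.MP_696deb_nt.B7.D9Has
import Pool.Agent.Lib.MP_696deb_nt.B7.D9Hk
import Pool.Agent.Lib.MP_696deb_nt.B7.D9Hq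
import Pool.Agent.Lib.MP_696deb_nt.B7.D9Hv
import Pool.Agent.Lib.MP_696deb_nt.B7.D9Inv
import Pool.Agent.Lib.MP_696deb_nt.B7.D9J
import Pool.Agent.Lib.MP_696deb_nt.B7.D9Kc
import Pool.Agent.Lib.MP_696deb_nt.B7.D9Kn
import Pool.Agent.Lib.MP_696deb_nt.B7.D9Kr
import Pool.Agent.Lib.MP_696deb_nt.B7.D9Loc
import Pool.Agent.Lib.MP_696deb_nt.B7.D9Nd
import Pool.Agent.Lib.MP_696deb_nt.B7.D9P3
import Pool.Agent.Lib.MP_696deb_nt.B7.D9Pc
import Pool.Agent.Lib.MP_696deb_nt.B7.D9Poly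
import Pool.Agent.Lib.MP_696deb_nt.B7.D9Ps
import Pool.Agent.Lib.MP_696deb_nt.B7.D9Pw
import Pool.Agent.Lib.MP_696deb_nt.B8.RRS
import Pool.Agent.Lib.MP_696deb_nt.B7.D9Rf
import Pool.Agent.Lib.MP_696deb_nt.B7.D9Rot
import Pool.Agent.Lib.MP_696deb_nt.B7.D9Rt
import Pool.Agent.Lib.MP_696deb_nt.B7.D9Sq
import Pool.Agent.Lib.MP_696deb_nt.B7.D9Sum
import Pool.Agent.Lib.MP_696deb_nt.B7.D9Sys
import Pool.Agent.Lib.MP_696deb_nt.B7.D9Tay
import Pool.Agent.Lib.MP_696deb_nt.B7.D9Tr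
import Pool.Agent.Lib.MP_696deb_nt.B7.D9Ufd
import Pool.Agent.Lib.MP_696deb_nt.B7.D9Unit
import Pool.Agent.Lib.MP_696deb_nt.B7.D9Vg

/-! The seed of conductor eight for curves with supersingular reduction at two. -/

set_option autoImplicit false

namespace Pool.Agent.B6.D9

open Pool.Agent.B4.GE (Par)

theorem cusp : CuspStmt := cusp_stmt inv_stmt tex_stmt
theorem tim : TimStmt := tim_stmt inv_stmt tex_stmt cusp
theorem poly : PolyStmt := poly_stmt inv_stmt tex_stmt cusp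
theorem der : DerStmt := der_stmt inv_stmt tex_stmt cusp
theorem tay : TayStmt := tay_stmt der
theorem dim : DimStmt := dim_stmt has_stmt hq_stmt (du_stmt der tim) der tim
theorem dcq : DcqStmt := dcq_stmt dim tex_stmt der
theorem trs : TrStmt := tr_stmt tay dim tim (j_stmt inv_stmt tex_stmt cusp poly) fld_stmt phi_stmt
  B8.reg8 B8.root8 B8.shift8
theorem hvs : HvStmt := hv_stmt pc_stmt alg_stmt
theorem krs : KrStmt := kr_stmt hvs (rf_stmt fld_stmt)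

theorem sys [Cw] : SysStmt := sys_stmt ar_stmt hvs krs (ct_stmt hvs krs trs dim dcq tim)
  (pw_stmt hvs (hk_stmt inv_stmt tex_stmt cusp poly) tim) ch_stmt
  (fix_stmt ar_stmt alg_stmt trs tim dim dcq inv_stmt der)
  (unit_stmt inv_stmt cusp (rot_stmt inv_stmt tex_stmt cusp)) tim tay dim dcq

/-- The Heegner point of conductor eight is not divisible by four, for a suitable prime. -/
theorem seed_eight [Cs] (P : Par Wu NN) (ht : P.t0 ∈ P.L.lattice) (h2 : P.t0 / 2 ∉ P.L.lattice)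
    (ha : Even WZ.a₁) (h : Even (P.a 2)) : ∃ q, B7.Sq q ∧ B7.SeedE P.φ q 2 4 :=
  have kn := kn_stmt ps_stmt
  have vg := vg_stmt rt_stmt
  have nd := nd_stmt kn as_stmt rt_stmt
  seed_of rt_stmt sys (dk_stmt (sq_stmt (ufd_stmt loc_stmt) rt_stmt vg)
    (d1_stmt nd kn c1_stmt as_stmt nw_stmt rt_stmt) (p3_stmt c3_stmt c4_stmt nw_stmt) nd c2_stmt
    rt_stmt) (sum_stmt kn as_stmt (kc_stmt ps_stmt rt_stmt) vg rt_stmt) P ht h2 ha h

end Pool.Agent.B6.D9
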