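import Pool.Agent.Lib.MP_696deb_nt.B7.S9a
import Pool.Agent.Lib.MP_696deb_nt.B2.MCH
import Pool.Agent.Lib.MP_696deb_nt.B6.LF1

/-! A Frobenius element at which a cocycle does not vanish, and the reciprocity law. -/

set_option autoImplicit false

open scoped NNReal
open Finset Matrix

namespace Pool.Agent.B6.B7.S9

open Pool.Agent.Lib.MP_696deb_nt Pool.Agent.Lib.MP_696deb_nt.B2 Pool.Agent.Lib.MP_696deb_nt.B6

/-- The vector that is fixed by complex conjugation. -/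
def oo : W2 := ![1, 1]

theorem v_one : ∀ (A : N2) (v : W2), A * A + A + 1 = 0 → v ≠ 0 →
    dW (A *ᵥ v + v) oo = 1 ∨ dW (A *ᵥ (A *ᵥ v + v)) oo = 1 := by
  simp only [dW_apply]
  decide +kernel

theorem v_jj : ∀ x y : W2, dW (x + JJ *ᵥ (x + JJ *ᵥ y)) oo = dW y oo ∧
    (x + JJ *ᵥ x = 0 → dW (x + JJ *ᵥ y) oo = dW y oo ∧ ∃ z, x = JJ *ᵥ z - z) ∧
    (JJ *ᵥ x = x → x ≠ 0 → x = oo) := fun x y => by
  simp only [dW_apply]
  refine ⟨?_, fun h => ⟨?_, ?_⟩, ?_⟩ <;> revert x y <;> decide +kernel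

theorem jj_sq : JJ * JJ = 1 := by decide +kernel

variable {sig : Gam →* N2} {c κ : Gam → W2} {g h γ φ τ : Gam} {w : Plc}

theorem c_mul (k : Coc ⊤ (sg sig) c) (g h : Gam) : c (g * h) = c g + sig g *ᵥ c h :=
  k.2 g trivial h trivial

theorem c_one (k : Coc ⊤ (sg sig) c) : c 1 = 0 := by
  simpa using c_mul k 1 1

theorem c_conj (k : Coc ⊤ (sg sig) c) (e : sig h = 1) (g : Gam) :
    c (g * h * g⁻¹) = sig g *ᵥ c h := by
  have := c_mul k g g⁻¹
  rw [mul_inv_cancel, c_one k] at this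
  rw [mul_assoc, c_mul k, c_mul k, e, one_mulVec, mulVec_add, add_left_comm, ← this, add_zero]

theorem s_conj (e : sig h = 1) (g : Gam) : sig (g * h * g⁻¹) = 1 :=
  (MonoidHom.normal_ker sig).conj_mem h e g

theorem ex_frob (hs : Sm ⊤ sig) (hc : sig cc = JJ) (hγ : (sig γ).trace = 1)
    (k : Coc ⊤ (sg sig) c) (h0 : sig h = 1) (h1 : c h ≠ 0) {S : Finset ℕ}
    (hS : ∀ p ∈ S, p.Prime ∧ p ≠ 2)
    (ev : ∀ g, chi (-1) g = 1 → (∀ p ∈ S, chi p g = 1) → sig g ^ 3 = 1) (B : Finset ℕ) :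
    ∃ (w : Plc) (φ : Gam), w.p ∉ B ∧ IsFrob w w.p φ ∧ sig φ = JJ ∧ dW (c φ) oo = 1 ∧
      chi (-1) φ = -1 ∧ chi 2 φ = -1 ∧ ∀ p ∈ S, chi p φ = 1 := by
  obtain ⟨y, y1, y2, y3⟩ : ∃ y, sig y = 1 ∧ dW (c y) oo = 1 ∧ ∀ a, chi a y = 1 := by
    have e1 : sig (γ * h * γ⁻¹ * h) = 1 := by rw [map_mul, s_conj h0, h0, mul_one]
    have e2 : c (γ * h * γ⁻¹ * h) = sig γ *ᵥ c h + c h := by
      rw [c_mul k, s_conj h0, one_mulVec, c_conj k h0]
    have e3 : ∀ a, chi a (γ * h * γ⁻¹ * h) = 1 := fun a => by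
      rw [map_mul, map_mul, map_mul, map_inv, mul_inv_cancel_comm, Int.units_mul_self]
    rcases v_one _ _ (key hγ) h1 with e | e
    · exact ⟨_, e1, e2 ▸ e, e3⟩
    · exact ⟨_, s_conj e1 γ, by rwa [c_conj k e1, e2],
        fun a => (MonoidHom.normal_ker _).conj_mem _ (e3 a) γ⟩
  obtain ⟨z, z1, z2, z3, z4, z5⟩ : ∃ z, sig z = 1 ∧ dW (c z) oo = 1 ∧ chi (-1) z = 1 ∧
      chi 2 z = -1 ∧ ∀ p ∈ S, chi p z = 1 := by
    obtain ⟨g, g1, g2⟩ := exists_chi_eq (insert 2 S) (fun p hp => (mem_insert.1 hp).elim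
      (· ▸ Nat.prime_two) fun e => (hS p e).1) 1 fun p => if p = 2 then -1 else 1
    have g3 : ∀ p ∈ S, chi p g = 1 := fun p hp =>
      (g2 p (mem_insert_of_mem hp)).trans (if_neg (hS p hp).2)
    have g4 : chi 2 (g ^ 3) = -1 := by
      rw [map_pow, show chi 2 g = -1 from g2 2 (mem_insert_self _ _)]
      rfl
    have g5 : sig (g ^ 3) = 1 := by rw [map_pow, ev g g1 g3]
    rcases Z2.cases (dW (c (g ^ 3)) oo) with e | e
    · exact ⟨y * g ^ 3, by rw [map_mul, y1, g5, mul_one], by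
        rw [c_mul k, y1, one_mulVec, map_add, AddMonoidHom.add_apply, y2, e, add_zero], by
        rw [map_mul, y3, map_pow, g1, one_pow, mul_one], by rw [map_mul, y3, g4, one_mul],
        fun p hp => by rw [map_mul, y3, map_pow, g3 p hp, one_pow, mul_one]⟩
    · exact ⟨_, g5, e, by rw [map_pow, g1, one_pow], g4, fun p hp => by
        rw [map_pow, g3 p hp, one_pow]⟩
  let L : Finset ℤ := insert (-1) (insert 2 (S.image (↑)))
  let U : Subgroup Gam :=
    { carrier := {g | sig g = 1 ∧ c g = 0 ∧ ∀ a ∈ L, chi a g = 1}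
      one_mem' := ⟨map_one _, c_one k, fun _ _ => map_one _⟩
      mul_mem' := fun {g h} a b => ⟨by rw [map_mul, a.1, b.1, mul_one], by
        rw [c_mul k, a.2.1, b.2.1, mulVec_zero, add_zero], fun x hx => by
        rw [map_mul, a.2.2 x hx, b.2.2 x hx, mul_one]⟩
      inv_mem' := fun {g} a => ⟨by simpa [a.1] using sig_inv sig g, by
        simpa [a.1, a.2.1, c_one k, eq_comm] using c_mul k g g⁻¹, fun x hx => by
        rw [map_inv, a.2.2 x hx, inv_one]⟩ }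
  have u1 : Op U := by
    obtain ⟨V, v1, -, v3⟩ := (hs.comp₂ k.1 Prod.mk).comp₂ (Sm.pi fun a : L => sm_chi a.1) Prod.mk
    refine Subgroup.isOpen_mono (H₁ := V) (fun g hg => ?_) v1
    have := v3 1 trivial g trivial (by simpa using hg)
    simp only [Prod.mk.injEq, map_one, c_one k] at this
    exact ⟨this.1.1.symm, this.1.2.symm, fun a ha => (congrFun this.2 ⟨a, ha⟩).symm⟩
  have s1 : sig (cc * z) = JJ := by rw [map_mul, hc, z1, mul_one]
  have s2 : dW (c (cc * z)) oo = 1 := by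
    have := c_mul k cc cc
    rw [cc_mul_cc, c_one k, hc] at this
    rw [c_mul k, hc, ((v_jj _ _).2.1 this.symm).1, z2]
  have s3 : chi (-1) (cc * z) = -1 ∧ chi 2 (cc * z) = -1 ∧ ∀ p ∈ S, chi p (cc * z) = 1 := by
    refine ⟨?_, ?_, fun p hp => ?_⟩
    · rw [map_mul, chi_cc (by simp), z3]; rfl
    · rw [map_mul, chi_cc (by simp), z4]; rfl
    · have := (hS p hp).1.pos
      rw [map_mul, chi_cc (by omega), z5 p hp, if_pos (by omega), mul_one]
  generalize cc * z = s at s1 s2 s3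
  obtain ⟨w, φ, _, b1, b2, ⟨a, rfl⟩, b3, b4, b5⟩ := m_cheb U s 2 B u1 ⟨fun g a x =>
    ⟨s_conj a.1 x, by rw [c_conj k a.1, a.2.1, mulVec_zero], fun y hy =>
      (MonoidHom.normal_ker _).conj_mem _ (a.2.2 y hy) x⟩⟩ (by
    have e : sig (s * s) = 1 := by rw [map_mul, s1, jj_sq]
    rw [show s ^ 2 ^ 2 = s * s * (s * s) by rw [← sq, ← sq, ← pow_mul]; rfl]
    exact ⟨by rw [map_mul, e, mul_one], by rw [c_mul k, e, one_mulVec, W2.add_self],
      fun a _ => by rw [map_mul, Int.units_mul_self]⟩)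
  have t : sig (s ^ (2 * a + 1)) = JJ ∧ dW (c (s ^ (2 * a + 1))) oo = 1 ∧
      ∀ x, chi x (s ^ (2 * a + 1)) = chi x s := by
    clear b3 b4 b5
    induction a with
    | zero => simp [s1, s2]
    | succ a ih =>
      rw [show s ^ (2 * (a + 1) + 1) = s * (s * s ^ (2 * a + 1)) by group]
      exact ⟨by rw [map_mul, map_mul, s1, ← mul_assoc, jj_sq, one_mul, ih.1], by
        rw [c_mul k, c_mul k, s1, (v_jj _ _).1, ih.2.1], fun x => by
        rw [map_mul, map_mul, ← mul_assoc, Int.units_mul_self, one_mul, ih.2.2]⟩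
  rw [← mul_inv_cancel_left φ (s ^ _)] at t
  generalize φ⁻¹ * s ^ (2 * a + 1) = u at b3 b4 b5 t
  rw [map_mul, b3, mul_one, c_mul k, b4, mulVec_zero, add_zero] at t
  have t2 : ∀ x ∈ L, chi x φ = chi x s := fun x hx => by
    rw [← t.2.2, map_mul, b5 x hx, mul_one]
  exact ⟨w, φ, b1, b2, t.1, t.2.1, (t2 _ (by simp [L])).trans s3.1, (t2 _ (by simp [L])).trans
    s3.2.1, fun p hp => (t2 _ (by simp [L, hp])).trans (s3.2.2 p hp)⟩

theorem dual_W (hs : Sm ⊤ sig) (H : Subgroup Gam) : Dual0 1 H (sg sig) (sg sig) dW :=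
  ⟨(act3_sg hs H).toAct0, (act3_sg hs H).toAct0, fun g _ x y => by
    rw [dW_sg, cy_one_eq, one_mul], dW_left, fun y h => dW_left y fun x => by rw [dW_comm, h]⟩

theorem c_res (k : Coc ⊤ (sg sig) c) (H : Subgroup Gam) : Coc H (sg sig) c :=
  ⟨k.1.mono le_top, fun g _ h _ => k.2 g trivial h trivial⟩

/-- The reciprocity law for two cocycles that are orthogonal outside of one prime. -/
theorem recip (hs : Sm ⊤ sig) (hc : sig cc = JJ) (k : Coc ⊤ (sg sig) c) (k' : Coc ⊤ (sg sig) κ)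
    (hw : w.p ≠ 2) (hφ : IsFrob w w.p φ) (hτ : Gen w τ) (h1 : ∀ σ ∈ Ine w, sig σ = 1)
    (h2 : ∀ σ ∈ Ine w, c σ = 0) (h3 : sig φ = JJ) (h4 : κ τ ≠ 0)
    (h5 : ∀ v : Plc, v.p ≠ w.p → (∃ y, ∀ g ∈ Dec v, κ g = cob (sg sig) y g) ∨
      ∃ x y, (∀ σ ∈ Ine v, c σ = cob (sg sig) x σ) ∧ ∀ σ ∈ Ine v, κ σ = cob (sg sig) y σ) :
    dW (c φ) oo = 0 := by
  obtain ⟨F⟩ := m_cft
  have o : Op ⊤ := isOpen_univ
  have d := dual_W hs
  have r := F.recip {w} o (lf_c2 (d ⊤) k k') (.inr ⟨rfl, by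
    have := c_mul k cc cc
    rw [cc_mul_cc, c_one k, hc] at this
    obtain ⟨z, hz⟩ := ((v_jj _ 0).2.1 this.symm).2
    refine lf_spl_left (d _) (x := z) (fun g hg => ?_) (c_res k' _)
    obtain ⟨n, rfl⟩ := hg
    beta_reduce
    rcases Int.even_or_odd' n with ⟨m, rfl | rfl⟩
    · rw [_root_.zpow_mul, _root_.zpow_two, cc_mul_cc, _root_.one_zpow, c_one k, cob, sg_one,
        sub_self]
    · rw [_root_.zpow_add_one, _root_.zpow_mul, _root_.zpow_two, cc_mul_cc, _root_.one_zpow,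
        one_mul, cob, sg_apply, hc, hz]⟩)
    (by simp [Apart]) fun v hv => by
      rcases h5 v fun e => (plc_conj e.symm).elim fun g hg =>
        hv w (mem_singleton_self w) g trivial hg with ⟨y, hy⟩ | ⟨x, y, hx, hy⟩
      · exact lf_inv_right F o (d _) (c_res k _) fun g hg => hy g hg.2
      · exact lf_inv_ur F o (d _) (c_res k _) (c_res k' _) hx hy
  have t := tm_split o hw le_top hφ hτ
  have ta := TA.of_act3 (m := 1) t (lf_two (d ⊤)) (act3_sg hs _) fun σ hσ => by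
    rw [h1 σ hσ]
    decide +kernel
  have q0 : (w.p : ℤ) ≠ 0 := Int.natCast_ne_zero.2 w.prime.ne_zero
  have e1 : κ τ = oo := by
    have := ta.rel (c_res k' _) hτ.1
    obtain ⟨m, hm⟩ := w.prime.odd_of_ne_two hw
    rw [lf_pow_fix ta.act (c_res k' _) (t.ine_le hτ.1) (by rw [sg_apply, h1 τ hτ.1, one_mulVec]),
      sg_apply, sg_apply, h1 _ (pow_mem hτ.1 _), one_mulVec, h3, add_comm, add_left_inj, hm,
      add_smul, mul_smul, two_nsmul, W2.add_self, zero_add, one_smul] at this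
    exact (v_jj _ 0).2.2 this h4
  have e2 : ∀ g ∈ ⊤ ⊓ Dec w, sig g *ᵥ oo = oo := fun g hg => ta.fix
    (by rw [sg_apply, h1 τ hτ.1, one_mulVec]) (by rw [sg_apply, h3]; decide +kernel) hg
  have kq := kum_xi (H := ⊤ ⊓ Dec w) q0
  have c1 : Coc (⊤ ⊓ Dec w) (sg sig) fun g => (xi w.p g : Z2) • oo :=
    ⟨(sm_xi _).comp fun x : Z2 => x • oo, fun g hg h _ => by
      beta_reduce
      rw [xi_hom, add_smul, sg_apply, mulVec_smul, e2 g hg]⟩
  have c2 := (c_res k' (⊤ ⊓ Dec w)).add c1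
  have e3 := lf_inv_add_right F o (d _) (c_res k _) (c_res k' _) c1
  rw [sum_singleton] at r
  rw [r, zero_add, lf_inv_unr F o (d _) (c_res k _) c2 (fun σ hσ => h2 σ hσ.2) fun σ hσ =>
    ta.zero_ine c2 (by
      rw [Pi.add_apply, e1, xi_eq_one.2 hτ.2]
      decide +kernel) hσ.2, F.congr (c' := cup 1 (fun g => dW (c g) oo) (xi w.p))
      fun g hg h _ => by
        rw [cupb, cup, cy_one_eq, mul_one, sg_apply, mulVec_smul, e2 g hg]
        simp only [dW_apply, Pi.smul_apply, smul_eq_mul]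
        ring,
    F.kum 1 o le_top trivial (t.deg ▸ hφ) ((c_res k _).1.comp (dW · oo)) (fun g hg h hh => by
      rw [c_mul k, map_add, AddMonoidHom.add_apply]
      nth_rewrite 2 [← e2 g hg]
      exact congrArg _ (dW_sg sig g _ _)) (fun σ hσ => by
      rw [h2 σ hσ, map_zero, AddMonoidHom.zero_apply]) kq (by simpa using w.hV)] at e3
  simpa using e3.symm

end Pool.Agent.B6.B7.S9
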