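import Pool.Agent.Lib.MP_696deb_nt.B6.SEe

/-! The Heegner point of a large prime discriminant does not reduce to the origin. -/

set_option autoImplicit false

open scoped Classical

namespace Pool.Agent.B6.B7.S9

open Pool.Agent.Lib.MP_696deb_nt Pool.Agent.Lib.MP_696deb_nt.B2 Pool.Agent.Lib.MP_696deb_nt.B2.CM
  Pool.Agent.B4.GE Pool.Agent.B6.CM Pool.Agent.B6.SE
open Pool.Agent.B4 (OkN HgN HRp nn exists_hgN)

variable [Cs]

theorem seed_K (P : Par Wu NN) (ht : P.t0 ∈ P.L.lattice) (h2 : P.t0 / 2 ∉ P.L.lattice) :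
    ∃ M : ℕ, M ≠ 0 ∧ ∀ w : Plc, w.p % 8 = 3 → 3 < w.p → ¬ w.p ∣ M → ¬ w.p ∣ NN →
      ∀ (r : ℤ) (T : Finset Fm), 4 * (NN : ℤ) ∣ r ^ 2 + w.p → HRp NN (-w.p) r T →
        ∃ y : EE, pmap jC y = ysum P.φ 1 T ∧ (∀ g, tw (-w.p) g y = y) ∧ y ∉ K1 w ∧
          ∀ τ, Gen w τ → τ ∉ GK w.p := by
  obtain ⟨G⟩ := P.geo
  obtain ⟨M, hM, k⟩ := red NN_odd P (phi_ne G ht h2 NN_sqf NN_odd NN_gt)
  refine ⟨M, hM, fun w h8 h3 hd qN r T hr hT => ?_⟩
  have hq := w.prime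
  have ok : OkN NN w.p 1 r := ⟨⟨by omega, h3, one_ne_zero⟩, hr, by
    rw [mul_one]; exact hq.coprime_iff_not_dvd.2 qN⟩
  have i0 := finite_Pc ok.m4 h3
  let i1 : ∀ c, Fintype (Pc w.p c) := fun c => Fintype.ofFinite _
  obtain ⟨w2, hτ⟩ := cmh_gen ok.toOk hq.squarefree (dvd_refl w.p)
  obtain ⟨g, hg⟩ := exists_gen w2
  have g1 := hτ g hg
  have wΔ : ¬ (w.p : ℤ) ∣ WZ.Δ := mt (dvd_Δ hq).1 qN
  refine ⟨∑ x, yA P w.p 1 r x, ?_, fun s => ?_, fun e4 => ?_, hτ⟩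
  · have := link_sum P ok hq.squarefree (o := 1) (T := T) (by simpa using hT) squarefree_one rfl
      (one_dvd _) fun _ _ h => h
    simp only [B3.CM.th_one ok.toOk, Units.val_one, one_smul] at this
    rw [map_sum, Finset.sum_congr rfl fun x _ => jC_yA G ok x]
    exact this
  · rw [tw, Finset.smul_sum]
    by_cases hs : s ∈ GK w.p
    · rw [B4c_mem.1 hs, Units.val_one, one_smul, Finset.sum_congr rfl fun x _ => smul_yA G ok hs x]
      exact Equiv.sum_comp (Equiv.mulLeft _) (yA P w.p 1 r)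
    · rw [B4c_notMem.1 hs, Finset.sum_congr rfl fun x _ => smul_out G ht ok hs x,
        Finset.sum_neg_distrib, Units.val_neg, Units.val_one, neg_one_zsmul, neg_neg]
      exact Equiv.sum_comp ((Equiv.inv _).trans (Equiv.mulLeft _)) (yA P w.p 1 r)
  obtain ⟨c, hc⟩ : ∃ c, c = rho w.p 1 g * (nn NN w.p 1 r)⁻¹ := ⟨_, rfl⟩
  have e2 := smul_out G ht ok g1
  rw [← hc] at e2
  obtain ⟨m, hm⟩ := odd_ord ok.toOk hq c
  obtain ⟨x, hx⟩ : ∃ x, c * x⁻¹ = x := ⟨c ^ (m + 1), by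
    rw [mul_inv_eq_iff_eq_mul, ← pow_add, show m + 1 + (m + 1) = 2 * m + 1 + 1 by ring,
      pow_succ, hm, one_mul]⟩
  have u : ∀ y, c * y⁻¹ = y → y = x := fun y hy => by
    obtain ⟨k, hk⟩ := odd_ord ok.toOk hq (y * x⁻¹)
    rw [mul_inv_eq_iff_eq_mul] at hx hy
    rwa [pow_succ, pow_mul, mul_pow, inv_pow, sq, sq, ← hx, ← hy, mul_inv_cancel, one_pow, one_mul,
      mul_inv_eq_one] at hk
  have e5 : ∑ y ∈ Finset.univ.erase x, yA P w.p 1 r y ∈ K1 w := by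
    rw [← QuotientAddGroup.eq_zero_iff, ← QuotientAddGroup.mk'_apply, map_sum]
    refine Finset.sum_involution (fun y _ => c * y⁻¹) (fun y _ => ?_)
      (fun y hy _ k => Finset.ne_of_mem_erase hy (u y k)) (fun y hy => ?_) fun y _ => by simp
    · rw [← map_add, QuotientAddGroup.mk'_apply, QuotientAddGroup.eq_zero_iff]
      have := neg_mem (K1_ine wΔ hg.1 (yA P w.p 1 r y))
      rwa [e2, ← neg_add', neg_neg, add_comm] at this
    · refine Finset.mem_erase.2 ⟨fun k => Finset.ne_of_mem_erase hy ?_, Finset.mem_univ _⟩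
      exact inv_injective (mul_left_cancel (k.trans hx.symm))
  rw [← Finset.add_sum_erase _ _ (Finset.mem_univ x), K1 w |>.add_mem_cancel_right e5] at e4
  obtain ⟨τ, h, rfl⟩ := exists_hgN ok x
  obtain ⟨B, hB⟩ := exists_over w
  refine k w B τ _ _ hB hd h.pos ((jC_jQ ok.toOk _).trans (h.jP ok).1)
    (V_jQ ok.toOk w _) ((jC_yA G ok _).trans (yC_cl P ok h))
    (val_uu hB ok h8 NN_odd h hg.1 g1 ?_) e4
  rw [hc, mul_assoc, mul_left_comm, inv_mul_eq_iff_eq_mul] at hx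
  exact hx

/-- No point of order two is unramified at a supersingular place. -/
theorem two_ine (ha : Even WZ.a₁) {w : Plc} (hw : w.p = 2) {S : EE} (h : 2 • S = 0)
    (k : ∀ σ ∈ Ine w, σ • S = S) : S = 0 := (two_iff.1 h).resolve_right fun e => by
  obtain ⟨m, hm⟩ := ha
  have b2 : WZ.b₂ = 2 * (2 * (m ^ 2 + WZ.a₂)) := by rw [WeierstrassCurve.b₂, hm]; ring
  have b6 : w.V WZ.b₆ = 1 := w.V_int_eq_one.2 fun ⟨n, hn⟩ =>
    ne_two_of_dvd ((dvd_Δ w.prime).1 (by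
      rw [WeierstrassCurve.Δ, b2, hn, hw]
      exact ⟨-(2 * (m ^ 2 + WZ.a₂)) ^ 2 * 2 * WZ.b₈ - 4 * WZ.b₄ ^ 3 - 54 * n ^ 2 +
        36 * (m ^ 2 + WZ.a₂) * WZ.b₄ * n, by push_cast; ring⟩)) hw
  have v2 : w.V 2 = 2⁻¹ := by simpa [hw] using w.hV
  have l2 : w.V 2 < 1 := by rw [v2]; exact two_inv_lt_one
  have i : ∀ a : ℤ, (a : Qbar) ∈ w.V.integer := fun a => intCast_mem _ a
  have hx : B2.Fx (Ine w) (xco S) := fun σ hσ => by rw [← xco_smul, k σ hσ]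
  generalize xco S = x at e hx
  rw [cub, b2] at e
  have x0 : x ≠ 0 := fun k => by
    simp only [k, ne_eq, OfNat.ofNat_ne_zero, not_false_eq_true, zero_pow, mul_zero, zero_add] at e
    simp [e] at b6
  obtain ⟨n, hn⟩ := V_of_fx_ine hx x0
  rw [hw, Nat.cast_ofNat] at hn
  rcases le_or_gt 0 n with h0 | h0
  · have m1 : x ∈ w.V.integer := hn.trans_le (inv_le_one_of_one_le₀ (one_le_zpow₀ one_le_two h0))
    refine b6.not_lt ?_
    rw [show (WZ.b₆ : Qbar) = -((2 : ℤ) * x ^ 3 + (2 * (m ^ 2 + WZ.a₂) : ℤ) * x ^ 2 + WZ.b₄ * x) * 2 by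
      push_cast at e ⊢; linear_combination e]
    exact b2a_mul_lt w (neg_mem (add_mem (add_mem (mul_mem (i _) (pow_mem m1 3))
      (mul_mem (i _) (pow_mem m1 2))) (mul_mem (i _) m1))) l2
  · have m1 : (2 * x)⁻¹ ∈ w.V.integer := by
      show w.V _ ≤ 1
      rw [map_inv₀, map_mul, v2, hn, mul_inv, inv_inv, inv_inv, ← zpow_one_add₀ two_ne_zero]
      exact zpow_le_one_of_nonpos₀ one_le_two (by omega)
    refine (map_one w.V).not_lt ?_
    rw [show (1 : Qbar) = -((m ^ 2 + WZ.a₂ : ℤ) * (2 * x)⁻¹ + WZ.b₄ * (2 * x)⁻¹ ^ 2 +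
      WZ.b₆ * (2 * x)⁻¹ ^ 3) * 2 by
        push_cast at e ⊢; field_simp; linear_combination e]
    exact b2a_mul_lt w (neg_mem (add_mem (add_mem (mul_mem (i _) m1)
      (mul_mem (i _) (pow_mem m1 2))) (mul_mem (i _) (pow_mem m1 3)))) l2

end Pool.Agent.B6.B7.S9
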