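import Pool.Agent.Lib.MP_696deb_nt.B7.S9b
import Pool.Agent.Lib.MP_696deb_nt.B7.S9c
import Pool.Agent.Lib.MP_696deb_nt.B6.MTA
import Pool.Agent.Lib.MP_696deb_nt.B6.KLa
import Pool.Agent.Lib.MP_696deb_nt.B6.UNa
import Pool.Agent.Lib.MP_696deb_nt.B6.TWa
import Pool.Agent.Lib.MP_696deb_nt.B6.PTd
import Pool.Agent.Lib.MP_696deb_nt.B2.MU1

/-! A Heegner point of prime discriminant that is not divisible by two at the prime two. -/

set_option autoImplicit false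

open scoped Classical
open Finset Matrix NumberTheorySymbols

namespace Pool.Agent.B6.B7

open Pool.Agent.Lib.MP_696deb_nt Pool.Agent.Lib.MP_696deb_nt.B2 Pool.Agent.Lib.MP_696deb_nt.B6
open Pool.Agent.B4 (HRp)
open Pool.Agent.B4.GE (Par)

namespace S9

theorem chi_nat {g : Gam} (n : ℕ) :
    n ≠ 0 → (∀ p : ℕ, p.Prime → p ∣ n → chi p g = 1) → chi n g = 1 := by
  induction n using induction_on_primes with
  | zero => exact fun h => absurd rfl h
  | one => exact fun _ _ => by simpa using chi_sq 1 g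
  | prime_mul p n hp ih =>
    intro h k
    have := (mul_ne_zero_iff.1 h).2
    rw [Nat.cast_mul, chi_mul (by simpa using hp.ne_zero) (by simpa using this),
      k p hp (dvd_mul_right _ _), ih this fun l hl e => k l hl (e.mul_left _), mul_one]

theorem n_tr : ∀ A B : N2, A * B = 1 → A.trace ≠ 1 → ∃ x : W2, x ≠ 0 ∧ A *ᵥ x = x := by
  decide +kernel

variable [Cs] (T : TB)

/-- The representation on the points of order two. -/
noncomputable def sB : Gam →* N2 :=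
  (RingHom.mapMatrix (PadicInt.toZModPow 1)).toMonoidHom.comp T.ρ

theorem sB_emb (g : Gam) (x : W2) : g • T.emb 1 x = T.emb 1 (sB T g *ᵥ x) := T.smul 1 g x

theorem sB_sm : Sm ⊤ (sB T) := T.sm 1

theorem sB_tr {g : Gam} (h : ∀ i, g (er i) ≠ er i) : (sB T g).trace = 1 := by
  by_contra k
  obtain ⟨x, x0, hx⟩ := n_tr _ _ (sig_inv (sB T) g) k
  have e := congrArg xco (sB_emb T g x)
  rw [hx, xco_smul] at e
  rcases cub_eq_zero.1 ((two_iff.1 (T.tors 1 x)).resolve_left fun k =>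
    x0 (T.inj 1 (k.trans (map_zero _).symm))) with k | k | k <;> exact h _ (k ▸ e)

theorem sB_ev {g : Gam} (h : chi (-1) g = 1) (k : ∀ p ∈ (3 * NN).primeFactors, chi p g = 1) :
    sB T g ^ 3 = 1 := by
  obtain ⟨s, s0, hs⟩ := WZ_disc
  have n0 := Int.natCast_ne_zero.2 NN_ne
  rcases un_even (g := g) (by
    rw [hs, ← neg_one_mul, chi_mul (by simp) (mul_ne_zero n0 (pow_ne_zero 2 s0)), h,
      chi_mul n0 (pow_ne_zero 2 s0), chi_sq, chi_nat _ NN_ne fun p hp e => k p (Nat.mem_primeFactors.2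
        ⟨hp, e.mul_left _, mul_ne_zero three_ne_zero NN_ne⟩), mul_one, mul_one]) with e | e
  · rw [show sB T g = 1 from T.mred_eq_one (m := 1) fun P hP => by
      rcases two_iff.1 hP with rfl | k
      · exact smul_zero g
      · rcases cub_eq_zero.1 k with k | k | k <;> exact (two_fix g hP).2 (k ▸ e _), one_pow]
  · rw [pow_three']
    exact N2.cube _ _ (sig_inv _ g) (sB_tr T e)

theorem cob_bad {c : Gam → W2} (k : Coc ⊤ (sg (sB T)) c) {v : Plc} (hv : v.p ∣ NN)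
    (h : ∀ σ ∈ Ine v, sB T σ = 1 → c σ = 0) : ∃ x, ∀ σ ∈ Ine v, c σ = cob (sg (sB T)) x σ := by
  have v2 := ne_two_of_dvd hv
  obtain ⟨φ, hφ⟩ := exists_frob v
  obtain ⟨τ, hτ⟩ := exists_gen v2
  obtain ⟨x, x0, hx⟩ := T.exists_fix hv
  have tr : ∀ σ ∈ Ine v, (sB T σ).trace ≠ 1 := fun σ hσ e =>
    x0 (N2.fpf _ _ (sig_inv _ σ) e _ ((tah_red 1 _ x).trans (by rw [hx σ hσ])))
  have e := N2.sq _ _ (sig_inv _ τ) (tr τ hτ.1)
  obtain ⟨y, hy⟩ := inv_cob e (T.gen_ne hv hτ) (x := c τ)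
    ((c_mul k τ τ).symm.trans (h _ (mul_mem hτ.1 hτ.1) ((map_mul _ _ _).trans e)))
  exact ⟨y, fun σ hσ => (TA.of_act3 (m := 1) (tm_split isOpen_univ v2 le_top hφ hτ)
    (lf_two (dual_W (sB_sm T) ⊤)) (act3_sg (sB_sm T) _) tr).cob_ine (c_res k _) hy hσ⟩

theorem ex_kum {d : ℤ} {R : EE} (h : ∀ g, tw d g (2 • R) = 2 • R) : ∃ κ : Gam → W2,
    Coc ⊤ (sg (sB T)) κ ∧ ∀ g, T.emb 1 (κ g) = tw d g R - R := by
  have e : ∀ g, T.emb 1 (Function.invFun (T.emb 1) (tw d g R - R)) = tw d g R - R := fun g =>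
    Function.invFun_eq (T.surj 1 _ (by
      rw [pow_one, smul_sub, sub_eq_zero, ← h g, tw, tw, smul_comm g, smul_comm]))
  refine ⟨fun g => Function.invFun (T.emb 1) (tw d g R - R), ⟨(sm_chi d).comp₂ (sm_pt ⊤ R) fun (a : ℤˣ) (P : EE) =>
    Function.invFun (T.emb 1) ((a : ℤ) • P - R), fun g _ k _ => T.inj 1 ?_⟩, e⟩
  beta_reduce
  rw [map_add, sg_apply, ← sB_emb, ← tw_two d g (T.tors 1 _), e, e, e]
  simp only [tw, map_mul, Units.val_mul, mul_smul, smul_sub, smul_comm g (chi d k : ℤ)]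
  abel

end S9

open S9

variable [Cs]

/-- The Heegner point of a suitable prime discriminant is not divisible by two over the
completion at two. -/
theorem seed_two (P : Par Wu NN) (ht : P.t0 ∈ P.L.lattice) (h2 : P.t0 / 2 ∉ P.L.lattice)
    (ha : Even WZ.a₁) (B : ℕ) : ∃ (q : ℕ) (r : ℤ), q.Prime ∧ q % 8 = 3 ∧ q % 3 = 2 ∧ B < q ∧
      4 * (NN : ℤ) ∣ r ^ 2 + q ∧ ∀ (r : ℤ) (T : Finset Fm), 4 * (NN : ℤ) ∣ r ^ 2 + q →
        HRp NN (-q) r T → ∀ w : Plc, w.p = 2 → ∀ R : EE, (∀ g ∈ GK q ⊓ Dec w, g • R = R) →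
          2 • pmap jC R ≠ ysum P.φ 1 T := by
  obtain ⟨M, hM, k⟩ := seed_K P ht h2
  obtain ⟨T, hc⟩ := exists_TB
  have hs := sB_sm T
  replace hc : sB T cc = JJ := by
    show mred 1 (T.ρ cc) = _
    rw [hc]
    ext i j
    fin_cases i <;> fin_cases j <;> simp [mred, JJ]
  obtain ⟨γ, hγ⟩ := un_three cub_irr
  obtain ⟨c, c1, c2, h, c3, c4⟩ := ex_cls hs hc (sB_tr T hγ)
  have n3 := mul_ne_zero three_ne_zero NN_ne
  have o3 : Odd (3 * NN) := Odd.mul (by decide) NN_odd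
  obtain ⟨w, φ, w1, w2, w3, w4, w5, w6, w7⟩ := ex_frob hs hc (sB_tr T hγ) c1 c3 c4
    (S := (3 * NN).primeFactors) (fun p hp => ⟨Nat.prime_of_mem_primeFactors hp, fun e =>
      o3.not_two_dvd_nat (e ▸ Nat.dvd_of_mem_primeFactors hp)⟩) (fun g => sB_ev T)
    (range (B + M + NN + 4))
  rw [mem_range, not_lt] at w1
  have hq := w.prime
  have q2 : w.p ≠ 2 := by omega
  have qo := hq.odd_of_ne_two q2
  have nd : ∀ {a : ℕ}, a ≠ 0 → a < w.p → ¬ w.p ∣ a := fun a0 h => Nat.not_dvd_of_pos_of_lt a0.bot_lt h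
  have n2 : ∀ {a : ℤ}, a ≠ 0 → a.natAbs < w.p → ¬ (w.p : ℤ) ∣ 2 * a := fun a0 h e =>
    ((Nat.prime_iff_prime_int.1 hq).dvd_or_dvd e).elim
      (fun e => nd two_ne_zero (by omega) (Int.natCast_dvd_natCast.1 e))
      fun e => nd (Int.natAbs_ne_zero.2 a0) h (Int.natCast_dvd.1 e)
  have q8 : w.p % 8 = 3 := by
    have e1 := chi_frob (n2 (a := -1) (by simp) (by omega)) w2
    have e2 := chi_frob (n2 (a := 2) (by simp) (by omega)) w2
    rw [w5, jacobiSym.at_neg_one qo, ZMod.χ₄_nat_eq_if_mod_four] at e1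
    rw [w6, jacobiSym.at_two qo, ZMod.χ₈_nat_eq_if_mod_eight] at e2
    have := Nat.odd_iff.1 qo
    split_ifs at e1 e2 <;> first | omega | simp at e1 e2
  have j : ∀ p : ℕ, p.Prime → p ∣ 3 * NN → J(-w.p | p) = 1 := fun p hp e => by
    have := NN_pos
    have := (hp.dvd_mul.1 e).imp (Nat.le_of_dvd three_pos) (Nat.le_of_dvd NN_pos)
    rw [tw_rec (by omega) (o3.of_dvd_nat e), ← chi_frob (n2 (by simpa using hp.ne_zero)
      (by omega)) w2, w7 p (Nat.mem_primeFactors.2 ⟨hp, e, n3⟩), Units.val_one]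
  obtain ⟨r, hr⟩ := kl_root NN_sqf NN_odd (x := -w.p) (by omega) fun p hp e =>
    j p hp (e.mul_left _)
  refine ⟨w.p, r, hq, q8, ?_, by omega, by simpa using hr, fun r F hr hF v hv R hR e => ?_⟩
  · have := j 3 Nat.prime_three (dvd_mul_right _ _)
    rcases (by omega : w.p % 3 = 0 ∨ w.p % 3 = 1 ∨ w.p % 3 = 2) with e | e | e
    · rw [kl_jac (b := 0) (by omega)] at this
      norm_num at this
    · rw [kl_jac (b := 2) (by omega)] at this
      norm_num at this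
    · exact e
  have qN := nd NN_ne (by omega)
  obtain ⟨y, y1, y2, y3, y4⟩ := k w q8 (by omega) (nd hM (by omega)) qN r F hr hF
  obtain rfl : 2 • R = y := pmap_injective jC (by rw [map_nsmul, e, y1])
  obtain ⟨κ, k1, k2⟩ := ex_kum T y2
  obtain ⟨τ, hτ⟩ := exists_gen q2
  have t0 : ∀ {g}, tw (-w.p) g R - R = 0 → κ g = 0 := fun h =>
    T.inj 1 ((k2 _).trans (h.trans (map_zero _).symm))
  have t1 : ∀ {g}, g ∈ GK w.p → ∀ S, tw (-w.p) g S = g • S := fun h S => by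
    rw [tw, B4c_mem.1 h, Units.val_one, one_smul]
  have t2 : ∀ g, 2 • (tw (-w.p) g R - R) = 0 := fun g => k2 g ▸ T.tors 1 _
  have t3 : ∀ u : Plc, u.p ≠ w.p → Ine u ≤ GK w.p := fun u hu => ine_le_GK' (by omega) fun e =>
    hu ((Nat.prime_dvd_prime_iff_eq u.prime hq).1 (Int.natCast_dvd_natCast.1 e))
  have t4 : ∀ u : Plc, u.p ≠ 2 → ¬ u.p ∣ NN → ∀ σ ∈ Ine u, sB T σ = 1 := fun u a b σ hσ => by
    rw [sB, MonoidHom.comp_apply, T.unr u a (mt (dvd_Δ u.prime).1 b) σ hσ, map_one]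
  refine b3b_one.symm ((recip hs hc c1 k1 q2 w2 hτ (t4 w q2 qN)
    (fun σ hσ => c2 w q2 σ hσ (t4 w q2 qN σ hσ)) w3 (fun e => y3 ?_) fun u hu => ?_).symm.trans w4)
  · have e1 := k2 τ
    rw [e, map_zero, tw, B4c_notMem.1 (y4 τ hτ), Units.val_neg, Units.val_one, neg_one_zsmul,
      eq_comm, sub_eq_zero, neg_eq_iff_eq_neg] at e1
    have := neg_mem (K1_ine (mt (dvd_Δ hq).1 qN) hτ.1 R)
    rwa [e1, ← neg_add', neg_neg, ← two_nsmul] at this
  by_cases u2 : u.p = 2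
  · obtain ⟨g, rfl⟩ := plc_conj (hv.trans u2.symm)
    refine .inl ⟨_, fun s hs' => lf_conj (x := 0) (act3_sg hs ⊤).toAct0 k1 (γ := g) trivial trivial
      ((t0 (two_ine ha hv (t2 _) fun σ hσ => ?_)).trans (lf_cob_zero _ _).symm)⟩
    have m := mem_Dec_smul.1 hs'
    generalize g⁻¹ * s * g = t at m
    have f : ∀ σ ∈ Ine v, σ • R = R := fun σ hσ => hR σ ⟨t3 v hu hσ, Ine_le v hσ⟩
    rw [smul_sub, f σ hσ, tw, smul_comm σ, smul_smul σ, show σ * t = t * (t⁻¹ * σ * t⁻¹⁻¹) by group,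
      mul_smul, f _ (conj_mem_Ine (inv_mem m) hσ)]
  by_cases uN : u.p ∣ NN
  · obtain ⟨x, hx⟩ := cob_bad T c1 uN (c2 u u2)
    obtain ⟨Q, q1, q3⟩ := div_ine uN (2 • R) fun σ hσ => (t1 (t3 u hu hσ) _).symm.trans (y2 σ)
    obtain ⟨z, hz⟩ := T.surj 1 (R - Q) (by rw [pow_one, smul_sub, q3, sub_self])
    refine .inr ⟨x, z, hx, fun σ hσ => T.inj 1 ?_⟩
    rw [k2, t1 (t3 u hu hσ), cob, map_sub, sg_apply, ← sB_emb, hz, smul_sub, q1 σ hσ,
      sub_sub_sub_cancel_right]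
  · refine .inr ⟨0, 0, fun σ hσ => ?_, fun σ hσ => ?_⟩ <;> rw [lf_cob_zero]
    · exact c2 u u2 σ hσ (t4 u u2 uN σ hσ)
    · refine t0 (K1_tors (m := 1) u2 ?_ (t2 σ))
      rw [t1 (t3 u hu hσ)]
      exact K1_ine (mt (dvd_Δ u.prime).1 uN) hσ R

end Pool.Agent.B6.B7
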