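import Pool.Agent.Lib.MP_696deb_nt.B7.CN7q
import Pool.Agent.Lib.MP_696deb_nt.B5.HWa

/-! The conductor at an odd prime that does not divide the level is removed. -/

set_option autoImplicit false

open scoped Classical
open Finset NumberTheorySymbols

namespace Pool.Agent.G7

open Pool.Agent.Lib.MP_696deb_nt Pool.Agent.B4.GE
open Pool.Agent.G5 hiding Cx Yw Cw zs Ori

namespace Gd

variable {N p : ℕ} {D ρ E β t P : ℤ} {Φ : Fm → Fm → ℤ} {Q R : Fm} {F G : Fm × Fm → ℤ}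

/-- Comparison of two sums along a map with finite fibres. -/
theorem corr_fib {I Y : Type} [Fintype Y] (u : I → Y → Fm × Fm) (v : I → Fm × Fm)
    (hF : PInv N F) (hG : PInv N G) (hf : OFin N F)
    (h1 : ∀ x, F x ≠ 0 → ∃ i y, G5.PEq N (u i y) x) (h2 : ∀ x, G x ≠ 0 → ∃ i, G5.PEq N (v i) x)
    (h3 : ∀ i j y z, G5.PEq N (u i y) (u j z) → G5.PEq N (v i) (v j))
    (h4 : ∀ i j y, G5.PEq N (v i) (v j) → ∃ z, G5.PEq N (u i y) (u j z))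
    (h5 : ∀ i y z, F (u i y) ≠ 0 → G5.PEq N (u i y) (u i z) → y = z)
    (h6 : ∀ i, ∑ y, F (u i y) = G (v i)) : orb N F = orb N G := by
  choose c y hc using fun (x : Quot (G5.PEq N)) => h1 x.out
  obtain ⟨φ, hφ⟩ : ∃ φ : Quot (G5.PEq N) → Quot (G5.PEq N), ∀ x h, φ x = Quot.mk _ (v (c x h)) :=
    ⟨fun x => if h : F x.out ≠ 0 then Quot.mk _ (v (c x h)) else x, fun x h => dif_pos h⟩
  have k0 : ∀ x, F (Quot.mk (G5.PEq N) x).out = F x := fun x => (hF _ _ (out_mk _)).symm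
  have k1 : ∀ i z, F (u i z) ≠ 0 → φ (Quot.mk _ (u i z)) = Quot.mk _ (v i) := fun i z h =>
    (hφ _ ((k0 _).symm ▸ h)).trans (mk_eq.2 (h3 _ _ _ _ ((hc _ _).trans (out_mk _))))
  have k2 : ∀ i, ∑ x ∈ hf.toFinset with φ x = Quot.mk _ (v i), F x.out =
      G (Quot.mk (G5.PEq N) (v i)).out := fun i => by
    rw [← hG _ _ (out_mk _), ← h6, ← sum_filter_ne_zero univ, eq_comm]
    refine sum_nbij (fun z => Quot.mk _ (u i z)) (fun z hz => ?_) (fun z hz w _ e => ?_)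
      (fun x hx => ?_) fun z _ => (k0 _).symm
    · have := (mem_filter.1 hz).2
      exact mem_filter.2 ⟨hf.mem_toFinset.2 (k0 _ ▸ this :), k1 i z this⟩
    · exact h5 i z w (mem_filter.1 hz).2 (mk_eq.1 e)
    · obtain ⟨a, b⟩ := mem_filter.1 hx
      have a' : F x.out ≠ 0 := hf.mem_toFinset.1 a
      obtain ⟨z, hz⟩ := h4 _ i (y x a') (mk_eq.1 ((hφ x a').symm.trans b))
      have e := hz.symm.trans (hc x a')
      exact ⟨z, mem_filter.2 ⟨mem_univ _, hF _ _ e ▸ a'⟩, eq_of_out e⟩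
  rw [orb, finsum_eq_sum_of_support_subset (s := hf.toFinset) _ fun x hx => hf.mem_toFinset.2 hx,
    ← sum_fiberwise_of_maps_to (g := φ) fun x hx => mem_image_of_mem φ hx, orb,
    finsum_eq_sum_of_support_subset (s := hf.toFinset.image φ) _ fun x hx => ?_]
  · refine sum_congr rfl fun x hx => ?_
    obtain ⟨x, a, rfl⟩ := mem_image.1 hx
    rw [hφ x (hf.mem_toFinset.1 a), k2]
  · obtain ⟨i, hi⟩ := h2 _ hx
    obtain ⟨z, -, hz⟩ := exists_ne_zero_of_sum_ne_zero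
      (show ∑ y, F (u i y) ≠ 0 by rwa [h6, ← hG _ _ hi])
    exact mem_coe.2 (mem_image.2 ⟨_, hf.mem_toFinset.2 (k0 _ ▸ hz :),
      (k1 i z hz).trans (eq_of_out hi)⟩)

/-- A pair of forms that are not proportional has no automorphisms. -/
theorem pair_free {a b c d : ℤ} (e : a * d - b * c = 1) (h1 : fmap Q a b c d = Q)
    (h2 : fmap R a b c d = R) (h : fbil Q R ^ 2 ≠ fdisc Q * fdisc R) : b = 0 ∧ c = 0 := by
  obtain ⟨a1, a2, a3, -⟩ := aut_eqs e h1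
  obtain ⟨b1, b2, b3, -⟩ := aut_eqs e h2
  obtain ⟨A, B, C⟩ := Q
  obtain ⟨α, β, γ⟩ := R
  simp only [fbil, fdisc] at *
  have k : (B * β - 2 * A * γ - 2 * C * α) ^ 2 - (B ^ 2 - 4 * A * C) * (β ^ 2 - 4 * α * γ) =
    4 * ((A * γ - C * α) ^ 2 - (A * β - B * α) * (B * γ - C * β)) := by ring
  constructor <;> by_contra h0 <;> refine h (sub_eq_zero.1 (k.trans ?_))
  · rw [show A * γ - C * α = 0 from mul_right_cancel₀ h0 (by linear_combination γ * a2 - C * b2),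
      show B * γ - C * β = 0 from mul_right_cancel₀ h0 (by linear_combination C * b3 - γ * a3)]
    ring
  · rw [show A * γ - C * α = 0 from mul_right_cancel₀ h0 (by linear_combination A * b2 - α * a2),
      show A * β - B * α = 0 from mul_right_cancel₀ h0 (by linear_combination A * b1 - α * a1)]
    ring

theorem solve (hP : Prime P) {m : ℤ} (hm : ¬ P ∣ m) (r : ℤ) : ∃ z, P ∣ r + m * z := by
  obtain ⟨u, v, h⟩ := hP.irreducible.coprime_iff_not_dvd.2 hm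
  exact ⟨-v * r, u * r, by linear_combination (-r) * h⟩

theorem nd (hP : Prime P) {x y : ℤ} (hx : ¬ P ∣ x) (hy : ¬ P ∣ y) : ¬ P ∣ x * y :=
  fun k => (hP.dvd_or_dvd k).elim hx hy

theorem sq_dvd (hP : Prime P) (h2 : ¬ P ∣ 2) {m x y : ℤ} (hm : ¬ P ∣ m) (hy : P ∣ y)
    (h : P ^ 2 ∣ y ^ 2 - 4 * (x * m)) : P ^ 2 ∣ x :=
  (IsCoprime.pow_left (hP.irreducible.coprime_iff_not_dvd.2 (nd hP h2 (nd hP h2 hm)))
    ).dvd_of_dvd_mul_left (by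
      convert (pow_dvd_pow_of_dvd hy 2).sub h using 1
      ring)

theorem mid (hP : Prime P) (h : P ∣ fdisc Q) (k : P ∣ Q.1 * Q.2.2) : P ∣ Q.2.1 :=
  hP.dvd_of_dvd_pow (n := 2) (by simpa [fdisc, mul_assoc] using h.add (k.mul_left 4))

theorem dn_of (hP : Prime P) (h2 : ¬ P ∣ 2) (hQ : P ^ 2 ∣ fdisc Q) (hb : P ∣ Q.2.1)
    (hc : ¬ P ∣ Q.2.2) : ∃ Q', Q = dnf P Q' ∧ ¬ P ∣ Q'.2.2 := by
  obtain ⟨a, ha⟩ := sq_dvd hP h2 (x := Q.1) hc hb (by rwa [← mul_assoc])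
  obtain ⟨b, hb⟩ := hb
  exact ⟨(a, b, Q.2.2), Prod.ext ha (Prod.ext hb rfl), hc⟩

theorem up_of (hP : Prime P) (h2 : ¬ P ∣ 2) (hQ : P ^ 2 ∣ fdisc Q) (hb : P ∣ Q.2.1)
    (ha : ¬ P ∣ Q.1) : ∃ Q', Q = upf P Q' := by
  obtain ⟨c, hc⟩ := sq_dvd hP h2 (x := Q.2.2) ha hb (by rwa [mul_comm Q.2.2, ← mul_assoc])
  obtain ⟨b, hb⟩ := hb
  exact ⟨(Q.1, b, c), Prod.ext rfl (Prod.ext hb hc)⟩

theorem dn_key (hP : Prime P) (h2 : ¬ P ∣ 2) (hN : ¬ P ∣ N) (hQ : P ^ 2 ∣ fdisc Q)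
    (hc : ¬ P ∣ Q.2.2) : ∃ c Q', fmap Q 1 0 (N * c) 1 = dnf P Q' ∧ ¬ P ∣ Q'.2.2 := by
  obtain ⟨c, k⟩ := solve hP (nd hP h2 (nd hP hc hN)) Q.2.1
  exact ⟨c, dn_of hP h2 (by rwa [fdisc_fmap (by ring)])
    (by convert k using 1; simp only [fmap]; ring) (by simpa [fmap, fval] using hc)⟩

/-- The normal forms of a form that is primitive at the prime. -/
theorem nf_dn (hP : Prime P) (h2 : ¬ P ∣ 2) (hN : ¬ P ∣ N) (hQ : P ^ 2 ∣ fdisc Q)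
    (h : ¬ (P ∣ Q.1 ∧ P ∣ Q.2.2)) : ∃ (a b c d : ℤ) (Q' : Fm), a * d - b * (N * c) = 1 ∧
      fmap Q a b (N * c) d = dnf P Q' ∧ ¬ P ∣ Q'.2.2 := by
  by_cases k : P ∣ Q.2.2
  · obtain ⟨c, Q', h1, h3⟩ := dn_key (Q := fmap Q 1 1 0 1) hP h2 hN
      (by rwa [fdisc_fmap (by norm_num)]) fun l => h ⟨((l.sub k).sub
        (mid hP ((dvd_pow_self P two_ne_zero).trans hQ) (k.mul_left _))).trans
          (dvd_of_eq (by simp only [fmap, fval]; ring)), k⟩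
    exact ⟨1 + N * c, 1, c, 1, Q', by ring, by rw [← h1, fmap_fmap]; congr 1 <;> ring, h3⟩
  · obtain ⟨c, Q', h1, h3⟩ := dn_key hP h2 hN hQ k
    exact ⟨1, 0, c, 1, Q', by ring, h1, h3⟩

theorem nf_up (hP : Prime P) (h2 : ¬ P ∣ 2) (hN : ¬ P ∣ N) (hQ : P ^ 2 ∣ fdisc Q)
    (h : ¬ (P ∣ Q.1 ∧ P ∣ Q.2.2)) : ∃ (a b c d : ℤ) (Q' : Fm), a * d - b * (N * c) = 1 ∧
      fmap Q a b (N * c) d = upf P Q' := by
  have key : ∀ Q : Fm, P ^ 2 ∣ fdisc Q → ¬ P ∣ Q.1 → ∃ b Q', fmap Q 1 b 0 1 = upf P Q' :=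
    fun Q hQ ha => by
      obtain ⟨b, k⟩ := solve hP (nd hP h2 ha) Q.2.1
      exact ⟨b, up_of hP h2 (by rwa [fdisc_fmap (by ring)])
        (by convert k using 1; simp only [fmap]; ring) (by simpa [fmap, fval] using ha)⟩
  by_cases k : P ∣ Q.1
  · obtain ⟨b, Q', h1⟩ := key (fmap Q 1 0 N 1) (by rwa [fdisc_fmap (by norm_num)]) fun l =>
      nd hP (fun j => h ⟨k, j⟩) (fun j => hN (hP.dvd_of_dvd_pow (n := 2) j)) (((l.sub k).sub
        ((mid hP ((dvd_pow_self P two_ne_zero).trans hQ) (k.mul_right _)).mul_right N)).trans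
          (dvd_of_eq (by simp only [fmap, fval]; ring)))
    exact ⟨1, b, 1, N * b + 1, Q', by ring, by rw [← h1, fmap_fmap]; congr 1; ring⟩
  · obtain ⟨b, Q', h1⟩ := key Q hQ k
    exact ⟨1, b, 0, 1, Q', by ring, by rwa [mul_zero]⟩

/-- A matrix between two normal forms. -/
theorem dnf_low (hP : Prime P) (hN : ¬ P ∣ N) {Q' : Fm} {a b c d : ℤ} (h : ¬ P ∣ Q.2.2)
    (e : dnf P Q' = fmap (dnf P Q) a b (N * c) d) : P ∣ c := by
  have h1 := congrArg Prod.fst e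
  simp only [dnf, fmap, fval] at h1
  refine (hP.dvd_or_dvd (hP.dvd_of_dvd_pow (n := 2) ((hP.dvd_or_dvd (a := Q.2.2)
    ⟨P * Q'.1 - P * Q.1 * a ^ 2 - Q.2.1 * a * (N * c), ?_⟩).resolve_left h))).resolve_left hN
  linear_combination -h1

theorem upf_top (hP : Prime P) {Q' : Fm} {a b c d : ℤ} (h : ¬ P ∣ Q.1)
    (e : upf P Q' = fmap (upf P Q) a b c d) : P ∣ b := by
  have h1 := congrArg (·.2.2) e
  simp only [upf, fmap, fval] at h1
  refine hP.dvd_of_dvd_pow (n := 2) ((hP.dvd_or_dvd (a := Q.1)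
    ⟨P * Q'.2.2 - P * Q.2.2 * d ^ 2 - Q.2.1 * b * d, ?_⟩).resolve_left h)
  linear_combination -h1

theorem cop (hP : Prime P) {m x : ℤ} (hm : ¬ P ∣ m) : m ∣ P * x ↔ m ∣ x :=
  ⟨(hP.irreducible.coprime_iff_not_dvd.2 hm).symm.dvd_of_dvd_mul_left, fun k => k.mul_left _⟩

theorem fam_dnf (hP : Prime P) (h2 : ¬ P ∣ 2) (hN : ¬ P ∣ N) :
    G5.Fam N (D * P ^ 2) (ρ * P) (dnf P Q) ↔ G5.Fam N D ρ Q := by
  simp only [G5.Fam, fdisc_dnf, mul_comm D, mul_comm ρ, mul_right_inj' (pow_ne_zero 2 hP.ne_zero)]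
  simp only [dnf, ← mul_sub, sq, mul_assoc, cop hP hN, cop hP (nd hP h2 hN)]

theorem fam_upf (hP : Prime P) (h2 : ¬ P ∣ 2) (hN : ¬ P ∣ N) :
    G5.Fam N (D * P ^ 2) (ρ * P) (upf P Q) ↔ G5.Fam N D ρ Q := by
  simp only [G5.Fam, fdisc_upf, mul_comm D, mul_comm ρ, mul_right_inj' (pow_ne_zero 2 hP.ne_zero)]
  simp only [upf, ← mul_sub, cop hP (nd hP h2 hN)]

theorem gch_dnf (hp : p.Prime) (Q : Fm) : gch p (dnf p Q) = J(Q.2.2 | p) :=
  (gch_prime hp _).trans (if_pos ((dvd_pow_self _ two_ne_zero).mul_right _))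

theorem gch_ne (hp : p.Prime) (h : gch p Q ≠ 0) : ¬ ((p : ℤ) ∣ Q.1 ∧ (p : ℤ) ∣ Q.2.2) := fun k =>
  h (by rw [gch_prime hp, gl, if_pos k.1, jac_zero_of_dvd hp k.2])

theorem odd_of (hp : p.Prime) (h2 : ¬ (p : ℤ) ∣ 2) : Odd p :=
  hp.odd_of_ne_two fun k => h2 (by simp [k])

theorem pinv_g (hp : Odd p) (h : Cm N p Φ) (hD : (p : ℤ) ∣ D) (hE : (p : ℤ) ∣ E) :
    PInv N (ptm N D ρ E β t fun Q R => gch p Q * gch p R * Φ Q R) :=
  pinv_ptm fun Q R a b c d e h1 h2 => by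
    rw [h.inv Q R a b c d e h1.1 h2.1, gch_fmap hp (h1.2.1 ▸ hD) e, gch_fmap hp (h2.2.1 ▸ hE) e]

theorem pinv_c (h : Cm N p Φ) (k : ℤ) : PInv N (ptm N D ρ E β t fun Q R => k * Φ Q R) :=
  pinv_ptm fun Q R a b c d e h1 h2 => by rw [h.inv Q R a b c d e h1.1 h2.1]

theorem jac_bil (hp : p.Prime) (h2 : ¬ (p : ℤ) ∣ 2) {x y : ℤ} (h : (p : ℤ) ∣ t + 2 * (x * y)) :
    J(-2 * t | p) = J(x | p) * J(y | p) := by
  rw [← jacobiSym.mul_left, ← CN.jac_sq_mul hp h2 (x * y)]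
  exact jac_congr ((h.mul_left (-2)).trans (dvd_of_eq (by ring)))

/-- The bilinear form is prime to `p`. -/
theorem step_a (hp : p.Prime) (h2 : ¬ (p : ℤ) ∣ 2) (hN : ¬ (p : ℤ) ∣ N) (h : Cm N p Φ)
    (hE : (p : ℤ) ∣ E) (ht : ¬ (p : ℤ) ∣ t) :
    pcn N (D * p ^ 2) (ρ * p) E β t (fun Q R => gch p Q * gch p R * Φ Q R) =
      J(-2 * t | p) * pcn N D ρ (E * p ^ 2) (β * p) t Φ := by
  have hP := Nat.prime_iff_prime_int.1 hp
  have o : ∀ i : Fm × Fm, fbil (dnf p i.1) i.2 = t → (p : ℤ) ∣ t + 2 * (i.1.2.2 * i.2.1) :=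
    fun i k => ⟨i.1.2.1 * i.2.2.1 - 2 * p * i.1.1 * i.2.2.2, by
      rw [← k]; simp only [fbil, dnf]; ring⟩
  have o2 : ∀ i : Fm × Fm, fbil (dnf p i.1) i.2 = t → ¬ (p : ℤ) ∣ i.1.2.2 * i.2.1 :=
    fun i k l => ht ((dvd_add_left (l.mul_left 2)).1 (o i k))
  rw [← pcn_mul]
  refine corr (fun i : Fm × Fm => (dnf p i.1, i.2)) (fun i => (i.1, upf p i.2))
    (pinv_g (odd_of hp h2) h ((dvd_pow_self _ two_ne_zero).mul_left _) hE) (pinv_c h _)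
    (fun x hx => ?_) (fun x hx => ?_) (fun i j hi _ => ⟨?_, ?_⟩) fun i => ?_
  · obtain ⟨a, b, c, d, Q', e, k, -⟩ := nf_dn hP h2 hN
      (Dvd.intro_left D (ptm_fam hx).1.2.1.symm)
      (gch_ne hp (left_ne_zero_of_mul (left_ne_zero_of_mul (ptm_ne hx))))
    exact ⟨(Q', fmap x.2 a b (N * c) d), G5.PEq.symm ⟨a, b, c, d, e, k.symm, rfl⟩⟩
  · obtain ⟨-, h3, h4⟩ := ptm_fam hx
    have h5 : (p : ℤ) ^ 2 ∣ fdisc x.2 := Dvd.intro_left E h3.2.1.symm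
    obtain ⟨a, b, c, d, Q', e, k⟩ := nf_up hP h2 hN h5 fun l => ht (h4 ▸
      (((mid hP ((dvd_pow_self _ two_ne_zero).trans h5) (l.1.mul_right _)).mul_left _).sub
        (l.2.mul_left _)).sub (l.1.mul_left _))
    exact ⟨(fmap x.1 a b (N * c) d, Q'), G5.PEq.symm ⟨a, b, c, d, e, rfl, k.symm⟩⟩
  · rintro ⟨a, b, c, d, e, k1, k2⟩
    obtain ⟨c, rfl⟩ := dnf_low hP hN (fun l => o2 i (ptm_fam hi).2.2 (l.mul_right _)) k1
    rw [mul_left_comm] at k1 k2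
    exact ⟨a, p * b, c, d, by linear_combination e, dnf_inj hP.ne_zero (k1.trans (fmap_dnf ..)),
      (congrArg (upf p) k2).trans (fmap_upf ..).symm⟩
  · rintro ⟨a, b, c, d, e, k1, k2⟩
    obtain ⟨b, rfl⟩ := upf_top hP (fun l => o2 i (ptm_fam hi).2.2 (l.mul_left _)) k2
    refine ⟨a, b, p * c, d, by linear_combination e, ?_, ?_⟩ <;> rw [mul_left_comm]
    exacts [(congrArg (dnf p) k1).trans (fmap_dnf ..).symm,
      upf_inj hP.ne_zero (k2.trans (fmap_upf ..))]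
  · refine if_ctx_congr (and_congr (fam_dnf hP h2 hN) (and_congr (fam_upf hP h2 hN).symm
      (by rw [fbil_dnf]))) (fun k => ?_) fun _ => rfl
    have h3 := (fbil_dnf ..).trans k.2.2
    dsimp only
    rw [h.tr p hp dvd_rfl i.1 i.2 k.1.1 k.2.1.1, gch_dnf hp, jac_bil hp h2 (o i h3), gch_prime hp, gl,
      if_neg fun l => o2 i h3 (l.mul_left _)]

theorem nf_pair (hp : p.Prime) (h2 : ¬ (p : ℤ) ∣ 2) (hN : ¬ (p : ℤ) ∣ N)
    (hQ : (p : ℤ) ^ 2 ∣ fdisc Q) (hR : (p : ℤ) ^ 2 ∣ fdisc R) (h : gch p Q * gch p R ≠ 0)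
    (ht : (p : ℤ) ∣ fbil Q R) :
    ∃ Q' R', G5.PEq N (dnf p Q', dnf p R') (Q, R) ∧ ¬ (p : ℤ) ∣ R'.2.2 := by
  have hP := Nat.prime_iff_prime_int.1 hp
  obtain ⟨a, b, c, d, Q', e, k1, k2⟩ := nf_dn hP h2 hN hQ (gch_ne hp (left_ne_zero_of_mul h))
  have h3 := (dvd_pow_self (p : ℤ) two_ne_zero).trans hR
  have h4 := gch_ne hp (gch_fmap (odd_of hp h2) h3 e ▸ right_ne_zero_of_mul h)
  rw [← fbil_fmap e, k1] at ht
  rw [← fdisc_fmap e] at hR h3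
  have h5 : (p : ℤ) ∣ (fmap R a b (N * c) d).1 := by
    generalize fmap R a b (N * c) d = S at ht
    refine (hP.dvd_or_dvd ?_).resolve_left (nd hP h2 k2)
    convert (dvd_mul_right (p : ℤ) (Q'.2.1 * S.2.1 - 2 * p * Q'.1 * S.2.2)).sub ht using 1
    simp only [fbil, dnf]
    ring
  obtain ⟨R', k3, k4⟩ := dn_of hP h2 hR (mid hP h3 (h5.mul_right _)) fun l => h4 ⟨h5, l⟩
  exact ⟨Q', R', G5.PEq.symm ⟨a, b, c, d, e, k1.symm, k3.symm⟩, k4⟩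

/-- The bilinear form is divisible by `p` exactly. -/
theorem step_b (hp : p.Prime) (h2 : ¬ (p : ℤ) ∣ 2) (hN : ¬ (p : ℤ) ∣ N) (hD : (p : ℤ) ^ 2 ∣ D)
    (hE : (p : ℤ) ^ 2 ∣ E) (ht : (p : ℤ) ∣ t) (ht' : ¬ (p : ℤ) ^ 2 ∣ t) :
    pcn N D ρ E β t (fun Q R => gch p Q * gch p R * Φ Q R) = 0 :=
  pcn_zero fun Q R h3 h4 h5 => by_contra fun k => by
    obtain ⟨Q', R', ⟨a, b, c, d, e, k1, k2⟩, -⟩ := nf_pair hp h2 hN (h3.2.1 ▸ hD) (h4.2.1 ▸ hE)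
      (left_ne_zero_of_mul k) (h5 ▸ ht)
    dsimp only at k1 k2
    rw [k1, k2, fbil_fmap e, fbil_dnf2] at h5
    exact ht' ⟨_, h5.symm⟩

/-- The translate of a pair. -/
def sh (y : ℤ) (x : Fm × Fm) : Fm × Fm := (fmap x.1 1 y 0 1, fmap x.2 1 y 0 1)

/-- The isogenous pair. -/
def dd (P : ℤ) (x : Fm × Fm) : Fm × Fm := (dnf P x.1, dnf P x.2)

theorem peq_sh (y : ℤ) (x : Fm × Fm) : G5.PEq N x (sh y x) :=
  ⟨1, y, 0, 1, by ring, by rw [mul_zero]; rfl, by rw [mul_zero]; rfl⟩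

theorem peq_dd (hP : Prime P) (hN : ¬ P ∣ N) {x x' : Fm × Fm} (h : ¬ P ∣ x.2.2.2) :
    G5.PEq N (dd P x) (dd P x') ↔ ∃ a b c d : ℤ, a * d - P * b * (N * c) = 1 ∧
      x'.1 = fmap x.1 a (P * b) (N * c) d ∧ x'.2 = fmap x.2 a (P * b) (N * c) d := by
  constructor <;> rintro ⟨a, b, c, d, e, k1, k2⟩
  · obtain ⟨c, rfl⟩ := dnf_low hP hN h k2
    rw [mul_left_comm] at k1 k2
    exact ⟨a, b, c, d, by linear_combination e, dnf_inj hP.ne_zero (k1.trans (fmap_dnf ..)),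
      dnf_inj hP.ne_zero (k2.trans (fmap_dnf ..))⟩
  · refine ⟨a, b, P * c, d, by linear_combination e, ?_, ?_⟩ <;> rw [mul_left_comm]
    exacts [(congrArg (dnf P) k1).trans (fmap_dnf ..).symm,
      (congrArg (dnf P) k2).trans (fmap_dnf ..).symm]

theorem sh_thd (y : ℤ) (Q R : Fm) : P ∣ (sh y (Q, dnf P R)).2.2.2 - R.2.2 :=
  ⟨P * R.1 * y ^ 2 + R.2.1 * y, by simp only [sh, dnf, fmap, fval]; ring⟩

theorem cm_dd (hp : p.Prime) (hN : ¬ (p : ℤ) ∣ N) (h : Cm N p Φ) (h1 : (N : ℤ) ∣ Q.1)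
    (h2 : (N : ℤ) ∣ R.1) : Φ (dnf p Q) (dnf p R) = Φ Q R := by
  rw [h.tr p hp dvd_rfl Q (dnf p R) h1 (h2.mul_left _),
    ← h.sc p hp dvd_rfl (fun k => hN (mod_cast k)) Q R.1 R.2.1 R.2.2 h2]
  simp only [upf, dnf, sq, mul_assoc]

theorem sum_val [hp : Fact p.Prime] (h2 : ¬ (p : ℤ) ∣ 2) (h : ¬ (p : ℤ) ∣ fdisc Q) :
    ∑ y : ZMod p, J(fval Q y.val 1 | p) = -J(Q.1 | p) := by
  have h1 := Hw.sum_quad (K := ZMod p)
    (by rw [ZMod.ringChar_zmod_n]; exact fun k => h2 (by simp [k])) (a := Q.1) (b := -Q.2.1)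
    (c := Q.2.2) (by rw [← ZMod.intCast_zmod_eq_zero_iff_dvd] at h; simpa [fdisc] using h)
  rw [Tern.jac_eq, ← eq_neg_of_add_eq_zero_right h1]
  exact sum_congr rfl fun y _ => by simp [Tern.jac_eq, fval]

/-- The bilinear form is divisible by the square of `p`. -/
theorem step_c (hp : p.Prime) (h2 : ¬ (p : ℤ) ∣ 2) (hN : ¬ (p : ℤ) ∣ N) (h0 : N ≠ 0)
    (h : Cm N p Φ) (hD : D < 0 ∨ D ≠ 0 ∧ IsSquare D) (hc : ¬ (p : ℤ) ∣ D)
    (ht : t ^ 2 ≠ D * (E * p ^ 2)) :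
    pcn N (D * p ^ 2) (ρ * p) (E * p ^ 2 * p ^ 2) (β * p * p) (p ^ 2 * t)
      (fun Q R => gch p Q * gch p R * Φ Q R) =
        -J(-2 * t | p) * pcn N D ρ (E * p ^ 2) (β * p) t Φ := by
  have hP := Nat.prime_iff_prime_int.1 hp
  have := Fact.mk hp
  have p2 : (0 : ℤ) < p ^ 2 := pow_pos (mod_cast hp.pos) 2
  have o : ∀ (y : ℤ) (x : Fm × Fm), G5.Fam N (D * p ^ 2) (ρ * p) (dd p (sh y x)).1 ∧
      G5.Fam N (E * p ^ 2 * p ^ 2) (β * p * p) (dd p (sh y x)).2 ∧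
        fbil (dd p (sh y x)).1 (dd p (sh y x)).2 = p ^ 2 * t ↔
      G5.Fam N D ρ x.1 ∧ G5.Fam N (E * p ^ 2) (β * p) x.2 ∧ fbil x.1 x.2 = t := fun y x => by
    have k : ∀ Q : Fm, G5.FEq N Q (fmap Q 1 y 0 1) := fun Q =>
      ⟨1, y, 0, 1, by ring, by rw [mul_zero]⟩
    simp only [dd, fam_dnf hP h2 hN, fbil_dnf2, mul_right_inj' p2.ne']
    exact and_congr ⟨(k _).symm.fam, (k _).fam⟩ (and_congr ⟨(k _).symm.fam, (k _).fam⟩
      (by rw [sh, fbil_fmap (by ring)]))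
  have o2 : ∀ (y : ℤ) (i : {i : Fm × Fm // ¬ (p : ℤ) ∣ i.2.2.2}),
      ¬ (p : ℤ) ∣ (sh y (i.1.1, dnf p i.1.2)).2.2.2 := fun y i l =>
    i.2 ((dvd_sub_right l).1 (sh_thd ..))
  rw [← pcn_mul]
  refine corr_fib (fun (i : {i : Fm × Fm // ¬ (p : ℤ) ∣ i.2.2.2}) (y : ZMod p) =>
    dd p (sh y.val (i.1.1, dnf p i.1.2))) (fun i => (i.1.1, dnf p i.1.2))
    (pinv_g (odd_of hp h2) h ((dvd_pow_self _ two_ne_zero).mul_left _)
      ((dvd_pow_self _ two_ne_zero).mul_left _)) (pinv_c h _)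
    (ofin h0 (hD.imp (fun k => mul_neg_of_neg_of_pos k p2) fun k =>
      ⟨mul_ne_zero k.1 p2.ne', k.2.mul (IsSquare.sq _)⟩) (fun k => ht
        (mul_left_cancel₀ (pow_ne_zero 2 p2.ne') (by linear_combination k))) _)
    (fun x hx => ?_) (fun x hx => ?_) (fun i j y z e => ?_) (fun i j y e => ?_)
    (fun i y z hi e => ?_) fun i => ?_
  · obtain ⟨h3, h4, h5⟩ := ptm_fam hx
    obtain ⟨Q', R', e, k⟩ := nf_pair hp h2 hN (Dvd.intro_left D h3.2.1.symm)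
      (Dvd.intro_left _ h4.2.1.symm) (left_ne_zero_of_mul (ptm_ne hx))
      (h5 ▸ (dvd_pow_self _ two_ne_zero).mul_right _)
    obtain ⟨c, S, k1, k2⟩ := dn_key hP h2 hN (Q := R') ⟨E, mul_left_cancel₀ p2.ne' (by
      obtain ⟨a, b, c, d, e, -, l⟩ := e
      rw [← fdisc_dnf, ← fdisc_fmap e, ← l, h4.2.1]
      ring)⟩ k
    refine ⟨⟨(fmap Q' 1 0 (N * c) 1, S), k2⟩, 0, G5.PEq.trans (G5.PEq.symm
      ((peq_dd hP hN (x := (Q', R')) k).2 ⟨1, 0, c, 1, by ring, ?_, ?_⟩)) e⟩ <;>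
    simp [sh, fmap_one, k1]
  · obtain ⟨-, h4, h5⟩ := ptm_fam hx
    have h6 : (p : ℤ) ^ 2 ∣ fdisc x.2 := Dvd.intro_left E h4.2.1.symm
    obtain ⟨a, b, c, d, S, e, k1, k2⟩ := nf_dn hP h2 hN h6 fun l =>
      left_ne_zero_of_mul (ptm_ne hx) (neg_eq_zero.2 (jac_zero_of_dvd hp (Dvd.dvd.mul_left (h5 ▸
        (((mid hP ((dvd_pow_self _ two_ne_zero).trans h6) (l.1.mul_right _)).mul_left _).sub
          (l.2.mul_left _)).sub (l.1.mul_left _)) _)))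
    exact ⟨⟨(fmap x.1 a b (N * c) d, S), k2⟩, G5.PEq.symm ⟨a, b, c, d, e, rfl, k1.symm⟩⟩
  · obtain ⟨a, b, c, d, e, k1, k2⟩ := (peq_dd hP hN (o2 _ i)).1 e
    exact ((peq_sh _ _).trans ⟨a, p * b, c, d, e, k1, k2⟩).trans (peq_sh _ _).symm
  · obtain ⟨a, b, c, d, e, k1, k2⟩ := e
    obtain ⟨c, rfl⟩ := dnf_low hP hN i.2 k2
    obtain ⟨z, m, hm⟩ : ∃ z : ZMod p, (p : ℤ) ∣ z.val - d * (y.val * d - b) :=
      ⟨(d * (y.val * d - b) : ℤ), (ZMod.intCast_zmod_eq_zero_iff_dvd _ _).1 (by simp)⟩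
    refine ⟨z, (peq_dd hP hN (o2 _ i)).2 ⟨a - y.val * (N * (p * c)),
      b * N * c * (y.val * d - b) + a * m - y.val * N * c * z.val, p * c,
      N * (p * c) * z.val + d, ?_, ?_, ?_⟩⟩
    · linear_combination (1 + N * (p * c) * (y.val * d - b)) * e + N * (p * c) * a * hm
    all_goals
      dsimp only at k1 k2
      simp only [sh, k1, k2, fmap_fmap]
      congr 1
      · ring
      · linear_combination (y.val * d - b) * e + a * hm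
      · ring
      · ring
  · obtain ⟨a, b, c, d, e, k1, k2⟩ := (peq_dd hP hN (o2 _ i)).1 e
    obtain ⟨h3, h4, h5⟩ := (o _ _).1 (ptm_fam hi)
    have k : ∀ Q : Fm, fmap Q 1 z.val 0 1 = fmap (fmap Q 1 y.val 0 1) a (p * b) (N * c) d →
        fmap Q (a + y.val * (N * c)) (p * b + y.val * d - z.val * (a + y.val * (N * c))) (N * c)
          (d - z.val * (N * c)) = Q := fun Q l => by
      refine Eq.trans ?_ (fmap_inv (a := 1) (b := z.val) (c := 0) (d := 1) (by ring) Q)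
      simp only [l, fmap_fmap]
      congr 1 <;> ring
    obtain ⟨k3, k4⟩ := pair_free (by linear_combination e) (k _ k1) (k _ k2)
      (by rwa [h3.2.1, h4.2.1, h5])
    rw [k4] at e k3
    refine (ZMod.val_injective p) (Nat.cast_injective (R := ℤ) (sub_eq_zero.1
      (Int.eq_zero_of_abs_lt_dvd (m := p) ⟨-(a * b), ?_⟩ ?_)))
    · rcases Int.eq_one_or_neg_one_of_mul_eq_one' (show a * d = 1 by simpa using e) with l | l <;>
        rw [l.1, l.2] at k3 <;> rw [l.1] <;> linarith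
    · have := y.val_lt
      have := z.val_lt
      exact abs_lt.2 ⟨by omega, by omega⟩
  · unfold ptm
    simp only [o]
    split_ifs with k
    · obtain ⟨h3, h4, h5⟩ := k
      rw [jac_bil hp h2 (x := i.1.1.1) (y := i.1.2.2.2) ⟨i.1.1.2.1 * i.1.2.2.1 -
        2 * p * i.1.1.2.2 * i.1.2.1, by rw [← h5]; simp only [fbil, dnf]; ring⟩, ← neg_mul,
        ← sum_val h2 (h3.2.1 ▸ hc), sum_mul, sum_mul]
      refine sum_congr rfl fun y _ => ?_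
      have h6 := peq_lev (peq_sh y.val (i.1.1, dnf p i.1.2)) ⟨h3.1, h4.1⟩
      rw [dd, gch_dnf hp, gch_dnf hp, jac_congr (sh_thd ..), cm_dd hp hN h h6.1 h6.2]
      congr 1
      simpa only [mul_zero, sh] using h.inv _ _ 1 y.val 0 1 (by ring) h3.1 h4.1
    · exact sum_const_zero

end Gd

open Gd in
/-- The transfer at an odd prime that does not divide the level. -/
theorem trf_good {N p : ℕ} (hN : Squarefree N) (hp : p.Prime) (h2 : p ≠ 2) (hpN : ¬ p ∣ N) :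
    Trf N p p fun Q R => gch p Q * gch p (G5.fV N R) := fun t => by
  have h3 : ¬ (p : ℤ) ∣ 2 := not_dvd_of_prime_ne hp Nat.prime_two h2
  have h4 : ¬ (p : ℤ) ∣ N := mod_cast hpN
  have p0 : (0 : ℤ) < p := mod_cast hp.pos
  have k : ∀ (D ρ E β : ℤ) (Φ : Fm → Fm → ℤ), pcn N D ρ (E * (p * p) ^ 2) β t
      (fun Q R => gch p Q * gch p (G5.fV N R) * Φ Q R) = J(N | p) * pcn N D ρ (E * (p * p) ^ 2) β t
        fun Q R => gch p Q * gch p R * Φ Q R := fun D ρ E β Φ => by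
    rw [← pcn_mul]
    refine pcn_congr fun Q R _ h _ => ?_
    rw [gch_fV hN.ne_zero hp.squarefree (hp.odd_of_ne_two h2) ((Nat.Prime.coprime_iff_not_dvd hp).2
      hpN) ⟨E * (p * p) * p, by rw [h.2.1]; ring⟩ h.1]
    ring
  have l : ∀ (n l : ℕ), l.Prime → (l : ℤ) ∣ (p : ℤ) ^ n → l ∣ p := fun n l hl h =>
    hl.dvd_of_dvd_pow (n := n) (mod_cast h)
  by_cases ht : (p : ℤ) ∣ t
  · by_cases ht' : (p : ℤ) ^ 2 ∣ t
    · obtain ⟨t, rfl⟩ := ht'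
      refine ⟨1, -(J(N | p) * J(-2 * t | p)), p, t, one_pos, p0, fun q hq h => mod_cast h,
        fun _ => by ring, fun D ρ E β Φ h a b _ c d => ?_⟩
      rw [one_mul, k, show E * (p * p) ^ 2 = E * p ^ 2 * p ^ 2 by ring, ← mul_assoc β,
        step_c hp h3 h4 hN.ne_zero h (c.imp_right fun c => ⟨by omega, c⟩)
          (fun e => hp.not_isUnit (Nat.isUnit_iff.2 (mod_cast Int.eq_one_of_dvd_one p0.le
            (isUnit_iff_dvd_one.1 (b.isUnit_of_dvd' e dvd_rfl)))))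
          fun e => d (by linear_combination (p : ℤ) ^ 4 * e)]
      ring
    · exact ⟨1, 0, 1, 0, one_pos, one_pos, fun q hq h => absurd (mod_cast h) hq.not_dvd_one,
        fun h => absurd rfl h, fun D ρ E β Φ _ _ _ _ _ _ => by
          rw [k, step_b hp h3 h4 (dvd_mul_left _ _) ⟨E * p ^ 2, by ring⟩ ht ht']
          ring⟩
  · refine ⟨1, J(N | p) * J(-2 * t | p), p ^ 3, t, one_pos, pow_pos p0 3, l 3, fun _ => by ring,
      fun D ρ E β Φ h _ _ _ _ _ => ?_⟩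
    rw [one_mul, k, step_a hp h3 h4 h ⟨E * (p * p) * p, by ring⟩ ht, mul_assoc J(N | p),
      show E * (p * p) ^ 2 * p ^ 2 = E * (p ^ 3) ^ 2 by ring, show β * (p * p) * p = β * p ^ 3 by ring]

end Pool.Agent.G7
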