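import Pool.Agent.Lib.MP_696deb_nt.B7.CN7q

/-! The conductor at a prime of the level is moved from one form to the other. -/

set_option autoImplicit false

open scoped Classical
open Finset NumberTheorySymbols

namespace Pool.Agent.G7

open Pool.Agent.Lib.MP_696deb_nt Pool.Agent.B4.GE
open Pool.Agent.G5 hiding Cx Yw Cw zs Ori

variable {N p : ℕ} {q a₀ b₀ c₀ d₀ D ρ E β t : ℤ} {Φ W : Fm → Fm → ℤ} {Q R : Fm}

theorem bad_cop (w : AW N p q a₀ b₀ c₀ d₀) : IsCoprime (p : ℤ) (2 * q) :=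
  IsCoprime.mul_right (Nat.isCoprime_iff_coprime.2
    ((Nat.coprime_primes w.hp Nat.prime_two).2 w.h2)) ⟨a₀ * d₀, -(b₀ * c₀), by
      linear_combination w.det⟩

theorem bad_prime (w : AW N p q a₀ b₀ c₀ d₀) : Prime (p : ℤ) := Nat.prime_iff_prime_int.1 w.hp

theorem bad_nd (w : AW N p q a₀ b₀ c₀ d₀) : ¬ (p : ℤ) ∣ 2 * q :=
  (bad_prime w).irreducible.coprime_iff_not_dvd.1 (bad_cop w)

theorem bad_N (w : AW N p q a₀ b₀ c₀ d₀) : N ≠ 0 := fun h => bad_nd w (by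
  have := w.lev
  rw [h, Nat.cast_zero, eq_comm, mul_eq_zero] at this
  rw [this.resolve_left w.p0]
  simp)

theorem bad_dvd (w : AW N p q a₀ b₀ c₀ d₀) {a b c : ℤ} (h : (p : ℤ) ^ 2 ∣ fdisc (N * a, b, c)) :
    (p : ℤ) ∣ b ∧ ((p : ℤ) ∣ a ∨ (p : ℤ) ∣ c) := by
  have hP := bad_prime w
  have h1 : ¬ (p : ℤ) ∣ 2 * (2 * q) := fun k => (hP.dvd_or_dvd k).elim
    (fun j => bad_nd w (j.mul_right _)) (bad_nd w)
  rw [show fdisc (N * a, b, c) = b ^ 2 - p * (2 * (2 * q) * (a * c)) by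
    simp only [fdisc, w.lev]; ring] at h
  have h2 : (p : ℤ) ∣ b := hP.dvd_of_dvd_pow (n := 2)
    ((dvd_sub_left (dvd_mul_right _ _)).1 ((dvd_pow_self _ two_ne_zero).trans h))
  have h3 := (dvd_sub_right (pow_dvd_pow_of_dvd h2 2)).1 h
  rw [sq, mul_dvd_mul_iff_left hP.ne_zero] at h3
  exact ⟨h2, hP.dvd_or_dvd ((hP.dvd_or_dvd h3).resolve_left h1)⟩

theorem bad_dn_up (w : AW N p q a₀ b₀ c₀ d₀) (hQ : (N : ℤ) ∣ Q.1) (hR : (N : ℤ) ∣ R.1)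
    (hQ' : (p : ℤ) ^ 2 ∣ fdisc Q) (hR' : (p : ℤ) ^ 2 ∣ fdisc R) : (p : ℤ) ∣ fbil Q R ∧
      gch p Q * gch p (G5.fV N R) = J(-(2 * q) * (fbil Q R / p) | p) * idn p Q := by
  obtain ⟨_, b, c⟩ := Q
  obtain ⟨_, y, z⟩ := R
  obtain ⟨a, rfl⟩ := hQ
  obtain ⟨x, rfl⟩ := hR
  have pp := w.hp
  have p0 := w.p0
  obtain ⟨⟨b, rfl⟩, h1⟩ := bad_dvd w hQ'
  obtain ⟨⟨y, rfl⟩, -⟩ := bad_dvd w hR'
  have h15 : (p : ℤ) ∣ N := ⟨q, w.lev⟩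
  have e : fbil ((N : ℤ) * a, p * b, c) (N * x, p * y, z) =
      p * (p * b * y - 2 * q * (a * z + c * x)) := by
    simp only [fbil, w.lev]
    ring
  refine ⟨⟨_, e⟩, ?_⟩
  rw [e, Int.mul_ediv_cancel_left _ p0, G5.fV_eq (bad_N w), G5.gch_prime pp,
    G5.gch_prime pp, gl, gl, if_pos (h15.mul_right _), if_pos (h15.mul_right _), idn]
  simp only [dvd_mul_right, true_and]
  split_ifs with k
  · rw [jac_zero_of_dvd pp k, zero_mul, mul_zero]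
  · obtain ⟨a, rfl⟩ := h1.resolve_right k
    rw [mul_one, jac_congr (u := -(2 * q) * _) (v := (2 * q) ^ 2 * (c * x))
      ⟨2 * q * (2 * q * a * z - b * y), by ring⟩,
      jacobiSym.mul_left, jacobiSym.mul_left, jacobiSym.pow_left, jac_sq pp (bad_nd w), one_mul]

theorem bad_peq (w : AW N p q a₀ b₀ c₀ d₀) {u v : Fm × Fm} (h1 : (N : ℤ) ∣ u.1.1)
    (h2 : (N : ℤ) ∣ u.2.1) (h : G5.PEq N u v) :
    G5.PEq N (G5.fW p q a₀ b₀ c₀ d₀ u.1, G5.fW p q a₀ b₀ c₀ d₀ u.2)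
      (G5.fW p q a₀ b₀ c₀ d₀ v.1, G5.fW p q a₀ b₀ c₀ d₀ v.2) := by
  obtain ⟨h3, h4⟩ := peq_lev h ⟨h1, h2⟩
  obtain ⟨x, y, z, r, k, k1, k2⟩ := h
  have h5 : ∀ (S : Fm) (x y z u : ℤ), (p : ℤ) • fmap S x y z u = fmap ((p : ℤ) • S) x y z u :=
    fun S x y z u => by
      simp only [fmap, fval, Prod.smul_mk, Prod.smul_fst, Prod.smul_snd, smul_eq_mul, Prod.mk.injEq]
      refine ⟨?_, ?_, ?_⟩ <;> ring
  have h6 : ∀ S : Fm, (N : ℤ) ∣ S.1 → (N : ℤ) ∣ (fmap S x y (N * z) r).1 →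
      G5.fW p q a₀ b₀ c₀ d₀ (fmap S x y (N * z) r) = fmap (G5.fW p q a₀ b₀ c₀ d₀ S)
        (d₀ * (p * a₀ * x + N * c₀ * y) - b₀ * q * (p * a₀ * z + c₀ * r))
        (d₀ * (x * b₀ + y * p * d₀) - b₀ * (q * z * b₀ + r * d₀))
        (N * (a₀ * (p * z * a₀ + r * c₀) - c₀ * (x * a₀ + y * q * c₀)))
        (a₀ * (N * z * b₀ + r * p * d₀) - q * c₀ * (x * b₀ + y * p * d₀)) := fun S j1 j2 => by
    refine smul_right_injective Fm w.p0 ?_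
    dsimp only
    rw [h5, w.smul j2, w.smul j1, fmap_fmap, fmap_fmap, w.lev]
    congr 1
    · linear_combination -(x * (p * a₀) + y * (p * q * c₀)) * w.det
    · linear_combination -(x * b₀ + y * (p * d₀)) * w.det
    · linear_combination -(p * q * z * (p * a₀) + r * (p * q * c₀)) * w.det
    · linear_combination -(p * q * z * b₀ + r * (p * d₀)) * w.det
  refine ⟨_, _, _, _, ?_, (congrArg _ k1).trans (h6 _ h1 (k1 ▸ h3)),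
    (congrArg _ k2).trans (h6 _ h2 (k2 ▸ h4))⟩
  rw [w.lev] at k ⊢
  linear_combination (p * a₀ * d₀ - b₀ * q * c₀) ^ 2 * k + (p * a₀ * d₀ - b₀ * q * c₀ + 1) * w.det

theorem bad_pcn (w : AW N p q a₀ b₀ c₀ d₀) {ρ' β' : ℤ} (k1 : (p : ℤ) ∣ ρ' + ρ) (k2 : 2 * q ∣ ρ' - ρ)
    (k3 : (p : ℤ) ∣ β' + β) (k4 : 2 * q ∣ β' - β) (h : PInv N (ptm N D ρ' E β' t W)) :
    pcn N D ρ E β t (fun Q R => W (G5.fW p q a₀ b₀ c₀ d₀ Q) (G5.fW p q a₀ b₀ c₀ d₀ R)) =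
      pcn N D ρ' E β' t W := by
  have k : ∀ u : Fm × Fm, (N : ℤ) ∣ u.1.1 → (N : ℤ) ∣ u.2.1 →
      ptm N D ρ E β t (fun Q R => W (G5.fW p q a₀ b₀ c₀ d₀ Q) (G5.fW p q a₀ b₀ c₀ d₀ R)) u =
        ptm N D ρ' E β' t W (G5.fW p q a₀ b₀ c₀ d₀ u.1, G5.fW p q a₀ b₀ c₀ d₀ u.2) :=
    fun u h1 h2 => if_congr (by rw [w.fam_iff k1 k2 h1, w.fam_iff k3 k4 h2, w.bil h1 h2]) rfl rfl
  refine corr (I := {u : Fm × Fm // (N : ℤ) ∣ u.1.1 ∧ (N : ℤ) ∣ u.2.1}) Subtype.val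
    (fun u => (G5.fW p q a₀ b₀ c₀ d₀ u.1.1, G5.fW p q a₀ b₀ c₀ d₀ u.1.2)) (fun u v e => ?_) h
    (fun u hu => ⟨⟨u, (ptm_fam hu).1.1, (ptm_fam hu).2.1.1⟩, peq_refl u⟩)
    (fun v hv => ⟨⟨(G5.fW p q d₀ (-b₀) (-c₀) a₀ v.1, G5.fW p q d₀ (-b₀) (-c₀) a₀ v.2),
      w.adj.dvd (ptm_fam hv).1.1, w.adj.dvd (ptm_fam hv).2.1.1⟩, ?_⟩)
    (fun i j _ _ => ⟨bad_peq w i.2.1 i.2.2, fun e => ?_⟩) fun i => k i.1 i.2.1 i.2.2
  · by_cases h1 : (N : ℤ) ∣ u.1.1 ∧ (N : ℤ) ∣ u.2.1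
    · rw [k u h1.1 h1.2, k v (peq_lev e h1).1 (peq_lev e h1).2, h _ _ (bad_peq w h1.1 h1.2 e)]
    · exact (if_neg fun h2 => h1 (peq_lev e.symm ⟨h2.1.1, h2.2.1.1⟩)).trans
        (if_neg fun h2 => h1 ⟨h2.1.1, h2.2.1.1⟩).symm
  · simp only [w.inv' (ptm_fam hv).1.1, w.inv' (ptm_fam hv).2.1.1]
    exact peq_refl v
  · simpa only [w.inv i.2.1, w.inv i.2.2, w.inv j.2.1, w.inv j.2.2] using
      bad_peq w.adj (w.dvd i.2.1) (w.dvd i.2.2) e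

theorem bad_snd {p a b c d : ℤ} (hp : p ∣ N) (e : a * d - b * (N * c) = 1) (h1 : p ∣ Q.1)
    (h2 : p ∣ Q.2.1) : p ∣ (fmap Q a b (N * c) d).2.2 ↔ p ∣ Q.2.2 := by
  obtain ⟨q, hq⟩ := hp
  have h3 : IsCoprime p (d ^ 2) :=
    IsCoprime.pow_right ⟨-(b * q * c), a, by rw [hq] at e; linear_combination e⟩
  simp only [fmap, fval]
  rw [dvd_add_right ((h1.mul_right _).add ((h2.mul_right _).mul_right _))]
  exact ⟨h3.dvd_of_dvd_mul_right, fun h => h.mul_right _⟩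

theorem bad_mid (w : AW N p q a₀ b₀ c₀ d₀) (k : G5.Fam N D (p * ρ) Q) : (p : ℤ) ∣ Q.2.1 :=
  (dvd_sub_left (dvd_mul_right _ _)).1 ((Dvd.dvd.mul_left ⟨q, w.lev⟩ 2).trans k.2.2)

theorem bad_mid' (w : AW N p q a₀ b₀ c₀ d₀) (k : G5.Fam N D (p ^ 2 * ρ) Q) : (p : ℤ) ∣ Q.2.1 :=
  bad_mid w (ρ := p * ρ) (by rwa [← mul_assoc, ← sq])

theorem bad_pinv (w : AW N p q a₀ b₀ c₀ d₀) (h : Cm N p Φ) :
    PInv N (ptm N D ρ E (p ^ 2 * β) t fun Q R => if (p : ℤ) ∣ R.2.2 then Φ Q R else 0) :=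
  pinv_ptm fun Q R a b c d e h1 h2 =>
    if_congr (bad_snd ⟨q, w.lev⟩ e (Dvd.dvd.trans ⟨q, w.lev⟩ h2.1) (bad_mid' w h2))
      (h.inv Q R a b c d e h1.1 h2.1) rfl

theorem bad_xor (w : AW N p q a₀ b₀ c₀ d₀) {x y z : ℤ} (hQ : (N : ℤ) ∣ Q.1)
    (hR : fdisc (N * x, y, z) = p ^ 4 * E) (ht : ¬ (p : ℤ) ^ 2 ∣ fbil Q (N * x, y, z)) :
    (p : ℤ) ∣ y ∧ ((p : ℤ) ∣ x ↔ ¬ (p : ℤ) ∣ z) := by
  have hP := bad_prime w
  have hs := w.lev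
  obtain ⟨h1, h2⟩ := bad_dvd w (a := x) (b := y) (c := z) ⟨p ^ 2 * E, by rw [hR]; ring⟩
  refine ⟨h1, ⟨?_, h2.resolve_right⟩⟩
  rintro ⟨x, rfl⟩ ⟨z, rfl⟩
  obtain ⟨y, rfl⟩ := h1
  obtain ⟨a, ha⟩ := hQ
  obtain ⟨y, rfl⟩ : (p : ℤ) ∣ y := hP.dvd_of_dvd_pow (n := 2) ⟨p * E + 4 * q * x * z,
    mul_left_cancel₀ (pow_ne_zero 2 hP.ne_zero) (by
      simp only [fdisc] at hR
      linear_combination hR + 4 * p ^ 2 * x * z * hs)⟩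
  exact ht ⟨Q.2.1 * y - 2 * q * a * z - 2 * Q.2.2 * q * x, by
    simp only [fbil]
    rw [ha]
    linear_combination -(2 * p * a * z + 2 * Q.2.2 * p * x) * hs⟩

theorem bad_ne4 {x : Fm × Fm} (h : ptm N D ρ E β t W x ≠ 0) :
    G5.Fam N D ρ x.1 ∧ G5.Fam N E β x.2 ∧ fbil x.1 x.2 = t ∧ W x.1 x.2 ≠ 0 :=
  ⟨(ptm_fam h).1, (ptm_fam h).2.1, (ptm_fam h).2.2, ptm_ne h⟩

theorem bad_half (w : AW N p q a₀ b₀ c₀ d₀) (h : Cm N p Φ) (hρ : (p : ℤ) ∣ ρ ^ 2 - D)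
    (ht : ¬ (p : ℤ) ^ 2 ∣ t) :
    pcn N (p ^ 2 * D) (p * ρ) (p ^ 2 * E) (p * β) t (fun Q R => idn p Q * Φ Q R) =
      pcn N D ρ (p ^ 4 * E) (p ^ 2 * β) t fun Q R => if (p : ℤ) ∣ R.2.2 then Φ Q R else 0 := by
  have hq := w.lev
  have hc := bad_cop w
  have pp := w.hp
  have p0 := w.p0
  have c1 : ∀ y : ℤ, (p : ℤ) ∣ y → (N : ℤ) ∣ p ^ 2 * y → (N : ℤ) ∣ y := fun y j1 j2 => by
    rw [hq] at j2 ⊢
    exact hc.of_mul_right_right.mul_dvd j1 ((hc.of_mul_right_right.symm.pow_right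
      (n := 2)).dvd_of_dvd_mul_left ((dvd_mul_left q p).trans j2))
  have c2 : ∀ y : ℤ, (p : ℤ) ∣ y → 2 * (N : ℤ) ∣ p * y → 2 * (N : ℤ) ∣ y := fun y j1 j2 => by
    rw [hq, mul_left_comm] at j2 ⊢
    exact hc.mul_dvd j1 ((mul_dvd_mul_iff_left p0).1 j2)
  have pi := bad_prime w
  have cp : ∀ {y : ℤ}, ¬ (p : ℤ) ∣ y → IsCoprime (p : ℤ) y := pi.irreducible.coprime_iff_not_dvd.2
  have c4 : IsCoprime (p : ℤ) 4 := hc.of_mul_right_left.mul_right hc.of_mul_right_left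
  have d1 : (p : ℤ) ∣ N := ⟨q, hq⟩
  have d2 : (p : ℤ) ∣ 2 * N := d1.mul_left 2
  refine corr (fun i : {i : Fm × Fm // ((N : ℤ) ∣ i.1.1 ∧ 2 * (N : ℤ) ∣ i.1.2.1 - ρ) ∧
    ¬ (p : ℤ) ∣ i.1.2.2 ∧ (p : ℤ) ∣ i.2.2.1} => (dnf p i.1.1, i.1.2))
    (fun i => (i.1.1, upf p i.1.2)) (pinv_ptm fun Q R a b c d e h1 h2 => ?_) (bad_pinv w h)
    (fun x hx => ?_) (fun x hx => ?_) (fun i j hi _ => ⟨?_, ?_⟩) fun i => ?_
  · rw [h.inv Q R a b c d e h1.1 h2.1, idn, idn]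
    simp only [bad_mid w h1, bad_mid w (G5.FEq.fam ⟨a, b, c, d, e, rfl⟩ h1),
      bad_snd d1 e (d1.trans h1.1) (bad_mid w h1)]
  · obtain ⟨⟨A, B, C⟩, R⟩ := x
    obtain ⟨h1, h2, -, h3⟩ := bad_ne4 hx
    have h4 : ¬ (p : ℤ) ∣ C := fun k => h3 (by simp [idn, k])
    obtain ⟨B, rfl⟩ := bad_mid w h1
    obtain ⟨A, rfl⟩ := (c4.mul_right (cp h4)).pow_left (m := 2).dvd_of_dvd_mul_left (z := A)
      ⟨B ^ 2 - D, by have := h1.2.1; simp only [fdisc] at this; linear_combination -this⟩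
    obtain ⟨u, v, huv⟩ := hc.mul_right (cp h4)
    have e : 1 * 1 - 0 * (N * (v * (ρ - B))) = (1 : ℤ) := by ring
    have k : fmap (p ^ 2 * A, p * B, C) 1 0 (N * (v * (ρ - B))) 1 =
        dnf p (fmap (A, B, C) 1 (p * 0) (q * (v * (ρ - B))) 1) := by
      rw [hq, mul_assoc]
      exact fmap_dnf p (A, B, C) ..
    have h5 := G5.FEq.fam ⟨_, _, _, _, e, k.symm⟩ h1
    have h6 : (p : ℤ) ∣ (fmap (A, B, C) 1 (p * 0) (q * (v * (ρ - B))) 1).2.1 - ρ :=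
      ⟨u * (B - ρ), by simp only [fmap]; linear_combination (ρ - B) * huv⟩
    have h7 : (fmap (A, B, C) 1 (p * 0) (q * (v * (ρ - B))) 1).2.2 = C := by simp [fmap, fval]
    have h8 := mul_left_cancel₀ (pow_ne_zero 2 p0) ((fdisc_dnf ..).symm.trans h5.2.1)
    generalize fmap (A, B, C) 1 (p * 0) (q * (v * (ρ - B))) 1 = Q at h5 h6 h7 h8 k
    refine ⟨⟨(Q, fmap R 1 0 (N * (v * (ρ - B))) 1), ⟨c1 Q.1 ?_ h5.1, c2 _ h6
      (by rw [mul_sub]; exact h5.2.2)⟩, fun l => h4 (h7 ▸ l),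
      bad_mid w (G5.FEq.fam ⟨_, _, _, _, e, rfl⟩ h2)⟩,
      G5.PEq.symm ⟨_, _, _, _, e, k.symm, rfl⟩⟩
    refine (c4.mul_right (cp h4)).dvd_of_dvd_mul_left ?_
    rw [show 4 * C * Q.1 = (Q.2.1 - ρ) * (Q.2.1 + ρ) + (ρ ^ 2 - D) by
      rw [← h8, ← h7, fdisc]; ring]
    exact (h6.mul_right _).add hρ
  · obtain ⟨Q, A, B, C⟩ := x
    obtain ⟨h1, h2, h3, h4⟩ := bad_ne4 hx
    obtain ⟨C, rfl⟩ : (p : ℤ) ∣ C := by_contra fun k => h4 (if_neg k)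
    obtain ⟨B, rfl⟩ := bad_mid' w h2
    obtain ⟨A, rfl⟩ := d1.trans h2.1
    have h5 : B ^ 2 - 4 * A * C = p ^ 2 * E := mul_left_cancel₀ (pow_ne_zero 2 p0) (by
      have := h2.2.1; simp only [fdisc] at this; linear_combination this)
    have h6 : ¬ (p : ℤ) ∣ A := fun ⟨A, hA⟩ => by
      obtain ⟨B, rfl⟩ := pi.dvd_of_dvd_pow (a := B) (n := 2)
        ⟨p * E + 4 * A * C, by rw [hA] at h5; linear_combination h5⟩
      obtain ⟨a, ha⟩ := d1.trans h1.1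
      exact ht ⟨Q.2.1 * B - 2 * a * C - 2 * Q.2.2 * A, by rw [← h3, fbil, ha, hA]; ring⟩
    obtain ⟨u, v, huv⟩ := hc.of_mul_right_left.mul_right (cp h6)
    obtain ⟨γ, hγ⟩ := (c4.mul_right (cp h6)).dvd_of_dvd_mul_left (z := fval (A, B, C) (-(v * B)) 1)
      ⟨p * ((u * B) ^ 2 - E), by
        simp only [fval]
        linear_combination -h5 - B * (B + 2 * A * (-(v * B)) + p * u * B) * huv⟩
    have e : 1 * 1 - -(v * B) * (N * 0) = (1 : ℤ) := by ring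
    have k : upf p (p * A, p * (u * B), γ) = fmap (p * A, p * B, p * C) 1 (-(v * B)) (N * 0) 1 := by
      simp only [fval] at hγ
      simp only [upf, fmap, fval, Prod.mk.injEq]
      exact ⟨by ring, by linear_combination p * B * huv, by linear_combination -p * hγ⟩
    have h7 := G5.FEq.fam ⟨_, _, _, _, e, rfl⟩ h1
    refine ⟨⟨(fmap Q 1 (-(v * B)) (N * 0) 1, p * A, p * (u * B), γ), ⟨h7.1, h7.2.2⟩,
      fun ⟨c, l⟩ => ht ?_, dvd_mul_right _ _⟩, G5.PEq.symm ⟨_, _, _, _, e, rfl, k⟩⟩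
    rw [← h3, ← fbil_fmap e, ← k]
    generalize fmap Q 1 (-(v * B)) (N * 0) 1 = Q at l
    dsimp only at l
    exact ⟨Q.2.1 * (u * B) - 2 * Q.1 * γ - 2 * c * A, by simp only [fbil, upf, l]; ring⟩
  · rintro ⟨a, b, c, d, e, k1, k2⟩
    obtain ⟨c, rfl⟩ : (p : ℤ) ∣ c := by
      have k := congrArg (·.2.1) k1
      obtain ⟨s, hs⟩ := (d2.trans j.2.1.2).sub (d2.trans i.2.1.2)
      simp only [dnf, fmap, hq] at k e
      refine ((hc.mul_right (cp i.2.2.1)).mul_right (z := d) ⟨-(b * q * c), a, by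
        linear_combination e⟩).dvd_of_dvd_mul_left
        ⟨s - 2 * i.1.1.1 * a * b - 2 * i.1.1.2.1 * b * q * c, mul_left_cancel₀ p0 ?_⟩
      linear_combination -k + p * hs - p * i.1.1.2.1 * e
    rw [mul_left_comm] at k1 k2
    exact ⟨a, p * b, c, d, by linear_combination e, dnf_inj p0 (k1.trans (fmap_dnf ..)),
      (congrArg (upf p) k2).trans (fmap_upf ..).symm⟩
  · rintro ⟨a, b, c, d, e, k1, k2⟩
    obtain ⟨b, rfl⟩ : (p : ℤ) ∣ b := by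
      obtain ⟨-, h2, h3, -⟩ := bad_ne4 hi
      have k := congrArg (·.2.1) k2
      obtain ⟨A, hA⟩ := d1.trans h2.1
      obtain ⟨r, hr⟩ := i.2.2.2
      obtain ⟨s, hs⟩ := j.2.2.2
      simp only [upf, fmap, fbil, dnf] at k hA h3
      rw [hA, hr] at h3 k
      rw [hs] at k
      refine ((hc.of_mul_right_left.mul_right (cp (y := A) fun ⟨z, hz⟩ => ht ⟨i.1.1.2.1 * r -
        2 * i.1.1.1 * i.1.2.2.2 - 2 * i.1.1.2.2 * z, by rw [← h3, hz]; ring⟩)).mul_right (z := a)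
        ⟨-(b * q * c), d, by rw [hq] at e; linear_combination e⟩).dvd_of_dvd_mul_left
        ⟨s - r * (a * d + b * (N * c)) - 2 * i.1.2.2.2 * (N * c) * d, mul_left_cancel₀ p0 ?_⟩
      linear_combination -k
    refine ⟨a, b, p * c, d, by linear_combination e, ?_, ?_⟩ <;> rw [mul_left_comm]
    exacts [(congrArg (dnf p) k1).trans (fmap_dnf ..).symm, upf_inj p0 (k2.trans (fmap_upf ..))]
  · obtain ⟨⟨Q, R⟩, ⟨h1, h2⟩, h3, h4⟩ := i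
    refine if_ctx_congr (and_congr ⟨fun k => ⟨h1, ?_, h2⟩, fun k => ⟨h1.mul_left _, ?_, ?_⟩⟩
      (and_congr (and_congr_right' (and_congr ?_ ?_)) (by rw [fbil_dnf]))) (fun k => ?_) fun _ => rfl
    · exact mul_left_cancel₀ (pow_ne_zero 2 p0) ((fdisc_dnf ..).symm.trans k.2.1)
    · rw [fdisc_dnf, k.2.1]
    · exact mul_sub (p : ℤ) _ _ ▸ h2.mul_left _
    · rw [fdisc_upf, show (p : ℤ) ^ 4 * E = p ^ 2 * (p ^ 2 * E) by ring,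
        mul_right_inj' (pow_ne_zero 2 p0)]
    · rw [show (upf p R).2.1 - p ^ 2 * β = p * (R.2.1 - p * β) by simp only [upf]; ring]
      exact ⟨fun k => k.mul_left _, c2 _ (h4.sub (dvd_mul_right _ _))⟩
    · dsimp only
      rw [idn, if_pos ⟨dvd_mul_right _ _, h3⟩, one_mul,
        if_pos (c := (p : ℤ) ∣ (upf p R).2.2) ((dvd_pow_self _ two_ne_zero).mul_right _)]
      exact h.tr p pp dvd_rfl Q R h1 k.2.1.1

theorem bad_step (w : AW N p q a₀ b₀ c₀ d₀) (h : Cm N p Φ) (hρ : (p : ℤ) ∣ ρ ^ 2 - D)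
    (hD : D ≠ 0) (ht : ¬ (p : ℤ) ^ 2 ∣ t) (h0 : D < 0 ∨ IsSquare D)
    (h1 : t ^ 2 ≠ D * (p ^ 4 * E)) :
    2 * pcn N (p ^ 2 * D) (p * ρ) (p ^ 2 * E) (p * β) t (fun Q R => idn p Q * Φ Q R) =
      pcn N D ρ (p ^ 4 * E) (p ^ 2 * β) t Φ := by
  have fin := ofin (ρ := ρ) (β := p ^ 2 * β) (bad_N w) (h0.imp_right fun k => ⟨hD, k⟩) h1
  have e1 : pcn N D ρ (p ^ 4 * E) (p ^ 2 * β) t Φ =
      (pcn N D ρ (p ^ 4 * E) (p ^ 2 * β) t fun Q R => if (p : ℤ) ∣ R.2.2 then Φ Q R else 0) +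
      pcn N D ρ (p ^ 4 * E) (p ^ 2 * β) t fun Q R => if ¬ (p : ℤ) ∣ R.2.2 then Φ Q R else 0 := by
    rw [pcn, pcn, pcn, ← orb_add (fin _) (fin _)]
    refine congrArg (orb N) (funext fun q => ?_)
    simp only [ptm]
    split_ifs <;> simp
  have k1 : (p : ℤ) ∣ (p * a₀ * d₀ + b₀ * q * c₀) * ρ + ρ :=
    ⟨2 * a₀ * d₀ * ρ, by linear_combination -ρ * w.det⟩
  have k2 : 2 * q ∣ (p * a₀ * d₀ + b₀ * q * c₀) * ρ - ρ :=
    ⟨b₀ * c₀ * ρ, by linear_combination ρ * w.det⟩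
  have k3 : (p : ℤ) ∣ ((p * a₀ * d₀ + b₀ * q * c₀) * ρ) ^ 2 - D := by
    rw [show ((p * a₀ * d₀ + b₀ * q * c₀) * ρ) ^ 2 - D = ((p * a₀ * d₀ + b₀ * q * c₀) * ρ + ρ) *
      ((p * a₀ * d₀ + b₀ * q * c₀) * ρ - ρ) + (ρ ^ 2 - D) by ring]
    exact (k1.mul_right _).add hρ
  rw [e1, ← bad_half w h hρ ht, two_mul, add_right_inj,
    pcn_mod (ρ' := p * ((p * a₀ * d₀ + b₀ * q * c₀) * ρ)) (β' := p * β) ⟨-(b₀ * c₀ * ρ), by
      rw [w.lev]; linear_combination -(p * ρ) * w.det⟩ (by simp), bad_half w h k3 ht,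
    ← bad_pcn w (β := p ^ 2 * β) k1 k2 ⟨2 * p * β, by ring⟩ (by simp) (bad_pinv w h)]
  refine pcn_congr ?_
  rintro Q ⟨_, y, z⟩ j1 ⟨⟨x, rfl⟩, j2, j3⟩ j4
  obtain ⟨j5, j6⟩ := bad_xor w j1.1 j2 (j4 ▸ ht)
  refine if_congr ?_ (h.al p dvd_rfl _ _ _ _ _ w _ _ j1.1 (dvd_mul_right _ _)) rfl
  have hP := bad_prime w
  have hb : ¬ (p : ℤ) ∣ q * b₀ := fun k => hP.not_dvd_one (by
    rw [← w.det, show b₀ * q * c₀ = q * b₀ * c₀ by ring, mul_assoc (p : ℤ)]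
    exact (dvd_mul_right _ _).sub (k.mul_right _))
  rw [w.eq, ← j6]
  dsimp only
  rw [show q * x * b₀ ^ 2 + y * b₀ * d₀ + z * p * d₀ ^ 2 =
    x * (q * b₀ * b₀) + (y * (b₀ * d₀) + p * (z * d₀ ^ 2)) by ring,
    dvd_add_left ((j5.mul_right _).add (dvd_mul_right _ _)), hP.dvd_mul, or_iff_left fun k =>
      (hP.dvd_or_dvd k).elim hb fun k' => hb (k'.mul_left _)]

/-- The transfer of the conductor at a prime of the level. -/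
theorem trf_bad (hN : Squarefree N) (ho : Odd N) (hp : p.Prime) (h : p ∣ N) :
    Trf N p 1 fun Q R => gch p Q * gch p (G5.fV N R) := fun t => by
  obtain ⟨a, b, c, d, w⟩ := exists_aw hN ho hp h
  generalize ((N / p : ℕ) : ℤ) = q at w
  have p0 := w.p0
  refine ⟨2, if (p : ℤ) ∣ t then J(-(2 * q) * (t / p) | p) else 0, p ^ 2, t, two_pos,
    pow_pos (Nat.cast_pos.2 hp.pos) 2, fun l hl k => Int.natCast_dvd_natCast.1
      ((Nat.prime_iff_prime_int.1 hl).dvd_of_dvd_pow k), fun _ => by push_cast; ring,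
    fun D ρ E β Φ hΦ h4 hc hρ h0 h1 => ?_⟩
  have e : ∀ Q R : Fm, G5.Fam N (p ^ 2 * D) (p * ρ) Q → G5.Fam N (p ^ 2 * E) (p * β) R →
      (p : ℤ) ∣ fbil Q R ∧
        gch p Q * gch p (G5.fV N R) = J(-(2 * q) * (fbil Q R / p) | p) * idn p Q :=
    fun Q R k1 k2 => bad_dn_up w k1.1 k2.1 ⟨D, k1.2.1⟩ ⟨E, k2.2.1⟩
  rw [Nat.cast_one, mul_one, mul_comm D, mul_comm ρ, mul_comm E, mul_comm β, mul_comm E,
    mul_comm β, ← pow_mul]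
  split_ifs with k
  · rw [pcn_congr (W' := fun Q R => J(-(2 * q) * (t / p) | p) * (idn p Q * Φ Q R))
      fun Q R k1 k2 k3 => by beta_reduce; rw [(e Q R k1 k2).2, k3, mul_assoc], pcn_mul, mul_left_comm]
    by_cases k' : (p : ℤ) ^ 2 ∣ t
    · obtain ⟨s, rfl⟩ := k'
      rw [jac_zero_of_dvd hp (Dvd.dvd.mul_left ⟨s, by
        rw [sq, mul_assoc, Int.mul_ediv_cancel_left _ p0]⟩ _), zero_mul, zero_mul]
    · refine congrArg _ (bad_step w hΦ (Dvd.dvd.trans ⟨4 * q, by rw [w.lev]; ring⟩ hρ)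
        (fun j => by rw [j] at h4; omega) k' h0 fun j => h1 ?_)
      rw [j]
      push_cast
      ring
  · rw [pcn_zero (t := t) fun Q R k1 k2 k3 => absurd (k3 ▸ (e Q R k1 k2).1) k, mul_zero,
      zero_mul]

end Pool.Agent.G7
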