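import Pool.Agent.Lib.MP_696deb_nt.B7.CN7p

/-! The conductor at two is moved from one form to the other. -/

set_option autoImplicit false

open scoped Classical
open Finset NumberTheorySymbols

namespace Pool.Agent.G7.Two

open Pool.Agent.Lib.MP_696deb_nt

variable {N : ℕ} {D ρ E β t p : ℤ} {Φ : Fm → Fm → ℤ} {Q R : Fm}

theorem odd_eq (hN : Odd N) : ∃ M : ℤ, (N : ℤ) = 2 * M + 1 := by
  obtain ⟨M, rfl⟩ := hN
  exact ⟨M, by push_cast; rfl⟩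

theorem nd_lev (hN : Odd N) : ¬ 2 ∣ (N : ℤ) := by
  obtain ⟨M, h⟩ := odd_eq hN
  omega

theorem nd_lev' (hN : Odd N) : ¬ 2 ∣ N := by
  have := nd_lev hN
  omega

theorem cop_lev (hN : Odd N) : IsCoprime (2 : ℤ) N :=
  (Int.prime_two.irreducible.coprime_iff_not_dvd).2 (nd_lev hN)

theorem ev_lev (hN : Odd N) {x : ℤ} (h : 2 ∣ N * x) : 2 ∣ x :=
  (Int.prime_two.dvd_or_dvd h).resolve_left (nd_lev hN)

theorem fam_par (h : G5.Fam N D ρ Q) : 2 ∣ Q.2.1 - ρ := (dvd_mul_right 2 _).trans h.2.2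

theorem mid_iff (hN : Odd N) {x y : ℤ} (h : 2 ∣ x - y) :
    2 * (N : ℤ) ∣ 2 * x - 2 * y ↔ 2 * (N : ℤ) ∣ x - y := by
  rw [← mul_sub, mul_dvd_mul_iff_left two_ne_zero]
  exact ⟨(cop_lev hN).mul_dvd h, (dvd_mul_left _ _).trans⟩

theorem fam_dnf (hN : Odd N) (hρ : 2 ∣ D - ρ) :
    G5.Fam N (4 * D) (2 * ρ) (dnf 2 Q) ↔ G5.Fam N D ρ Q := by
  have := par_mid Q
  simp only [G5.Fam, fdisc_dnf]
  simp only [dnf]
  refine and_congr ⟨(cop_lev hN).symm.pow_right.dvd_of_dvd_mul_left, fun h => h.mul_left _⟩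
    ⟨fun h => ⟨by omega, (mid_iff hN (by omega)).1 h.2⟩,
      fun h => ⟨by omega, (mid_iff hN (by omega)).2 h.2⟩⟩

theorem fam_upf (hN : Odd N) (hρ : 2 ∣ D - ρ) :
    G5.Fam N (4 * D) (2 * ρ) (upf 2 Q) ↔ G5.Fam N D ρ Q := by
  have := par_mid Q
  simp only [G5.Fam, fdisc_upf]
  simp only [upf]
  exact and_congr_right' ⟨fun h => ⟨by omega, (mid_iff hN (by omega)).1 h.2⟩,
    fun h => ⟨by omega, (mid_iff hN (by omega)).2 h.2⟩⟩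

theorem cm_dnf (h : Cm N 2 Φ) (h1 : (N : ℤ) ∣ Q.1) (h2 : (N : ℤ) ∣ R.1) :
    Φ (dnf 2 Q) R = Φ Q (upf 2 R) := h.tr 2 Nat.prime_two dvd_rfl _ _ h1 h2

theorem cm_sc (hN : Odd N) (h : Cm N 2 Φ) (Q : Fm) (α β γ : ℤ) (k : (N : ℤ) ∣ α) :
    Φ Q (4 * α, 4 * β, 4 * γ) = Φ Q (α, β, γ) :=
  h.sc 2 Nat.prime_two dvd_rfl (nd_lev' hN) Q α β γ k

theorem sq_mod4 (x : ℤ) : ∃ k, x ^ 2 = 4 * k + x % 2 := by
  obtain ⟨k, rfl | rfl⟩ := Int.even_or_odd' x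
  · exact ⟨k ^ 2, by rw [Int.mul_emod_right]; ring⟩
  · exact ⟨k ^ 2 + k, by rw [show (2 * k + 1) % 2 = 1 by omega]; ring⟩

theorem odd_mul' {x y : ℤ} (h : ¬ 2 ∣ x * y) : ¬ 2 ∣ x ∧ ¬ 2 ∣ y :=
  ⟨fun k => h (k.mul_right _), fun k => h (k.mul_left _)⟩

theorem four_dvd {x y : ℤ} (h : ¬ 2 ∣ x) (k : 4 ∣ x * y) : 4 ∣ y :=
  (IsCoprime.pow_left (m := 2) ((Int.prime_two.irreducible.coprime_iff_not_dvd).2
    h)).dvd_of_dvd_mul_left k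

/-- The normal form of a form that is primitive at two. -/
theorem nf_dn (hN : Odd N) (hD : D % 4 = 0 ∨ D % 4 = 1) (hQ : fdisc Q = 4 * D) (h : Pr2 Q) :
    ∃ (a b c d : ℤ) (Q' : Fm), a * d - b * (N * c) = 1 ∧ fmap Q a b (N * c) d = dnf 2 Q' ∧ ¬ 2 ∣ Q'.2.2 := by
  obtain ⟨M, hM⟩ := odd_eq hN
  have key : ∀ Q : Fm, fdisc Q = 4 * D → ¬ 2 ∣ Q.2.2 →
      ∃ c Q', fmap Q 1 0 (N * c) 1 = dnf 2 Q' ∧ ¬ 2 ∣ Q'.2.2 := fun ⟨A, B, C⟩ hQ h => by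
    obtain ⟨B, rfl⟩ : 2 ∣ B := by have := par_mid (A, B, C); simp only at this; omega
    obtain ⟨k, hk⟩ := sq_mod4 (N * C * (B + D) + B)
    obtain ⟨C, rfl⟩ : ∃ c, C = 2 * c + 1 := ⟨C / 2, by simp only at h; omega⟩
    have h2 : (N * (2 * C + 1) * (B + D) + B) % 2 = D % 2 := by
      rw [show N * (2 * C + 1) * (B + D) + B = D + 2 * (B + (N * C + M) * (B + D)) by
        rw [hM]; ring, Int.add_mul_emod_self_left]
    obtain ⟨a, ha⟩ := four_dvd (y := fval (A, 2 * B, 2 * C + 1) 1 (N * (B + D))) h (by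
      have : (2 * C + 1) * fval (A, 2 * B, 2 * C + 1) 1 (N * (B + D)) =
          (N * (2 * C + 1) * (B + D) + B) ^ 2 - D := by
        simp only [fval, fdisc] at hQ ⊢
        linarith
      simp only
      omega)
    refine ⟨B + D, (a, B + (2 * C + 1) * (N * (B + D)), 2 * C + 1), ?_, h⟩
    simp only [fmap, dnf, ha, Prod.mk.injEq]
    refine ⟨by ring, by ring, by simp [fval]⟩
  by_cases k : 2 ∣ Q.2.2
  · obtain ⟨c, Q', h1, h2⟩ := key (fmap Q 1 1 0 1) (by rw [fdisc_fmap (by norm_num), hQ]) (by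
      have := par_mid Q
      simp only [Pr2, fmap, fval] at h ⊢
      omega)
    exact ⟨1 + N * c, 1, c, 1, Q', by ring, by rw [← h1, fmap_fmap]; congr 1 <;> ring, h2⟩
  · obtain ⟨c, Q', h1, h2⟩ := key Q hQ k
    exact ⟨1, 0, c, 1, Q', by ring, h1, h2⟩

theorem nf_up (hN : Odd N) (hD : 4 ∣ D) (hQ : fdisc Q = 4 * D) (h : Pr2 Q) :
    ∃ (a b c d : ℤ) (Q' : Fm), a * d - b * (N * c) = 1 ∧ fmap Q a b (N * c) d = upf 2 Q' := by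
  have key : ∀ Q : Fm, fdisc Q = 4 * D → ¬ 2 ∣ Q.1 →
      ∃ b Q', fmap Q 1 b 0 1 = upf 2 Q' := fun ⟨A, B, C⟩ hQ h => by
    obtain ⟨B, rfl⟩ : 2 ∣ B := by have := par_mid (A, B, C); simp only at this; omega
    obtain ⟨A, rfl⟩ : ∃ c, A = 2 * c + 1 := ⟨A / 2, by simp only at h; omega⟩
    obtain ⟨D, rfl⟩ := hD
    obtain ⟨a, ha⟩ := four_dvd (y := fval (2 * A + 1, 2 * B, C) B 1) h
      ⟨((A + 1) * B) ^ 2 - D, by
        simp only [fval, fdisc] at hQ ⊢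
        linarith⟩
    refine ⟨B, (2 * A + 1, (2 * A + 1) * B + B, a), ?_⟩
    simp only [fmap, upf, ha, Prod.mk.injEq]
    refine ⟨by simp [fval], by ring, by ring⟩
  by_cases k : 2 ∣ Q.1
  · obtain ⟨b, Q', h1⟩ := key (fmap Q 1 0 N 1) (by rw [fdisc_fmap (by norm_num), hQ]) (by
      have h1 : 2 ∣ Q.2.1 := by have := par_mid Q; omega
      have h2 := nd_lev hN
      simp only [Pr2, ← even_iff_two_dvd, fmap, fval, parity_simps] at h h1 h2 k ⊢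
      tauto)
    exact ⟨1, b, 1, N * b + 1, Q', by ring, by rw [← h1, fmap_fmap]; congr 1; ring⟩
  · obtain ⟨b, Q', h1⟩ := key Q hQ k
    exact ⟨1, b, 0, 1, Q', by ring, h1⟩

/-- A matrix between two normal forms. -/
theorem dnf_even (hN : Odd N) {Q' : Fm} {a b c d : ℤ} (h : ¬ 2 ∣ Q.2.2)
    (e : dnf 2 Q' = fmap (dnf 2 Q) a b (N * c) d) : 2 ∣ c := by
  have h1 := congrArg Prod.fst e
  simp only [dnf, fmap, fval] at h1
  refine ev_lev hN (Int.prime_two.dvd_of_dvd_pow (n := 2) ((Int.prime_two.dvd_or_dvd (a := Q.2.2)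
    ⟨2 * Q'.1 - 2 * Q.1 * a ^ 2 - Q.2.1 * a * (N * c), ?_⟩).resolve_left h))
  linear_combination -h1

theorem upf_even {Q' : Fm} {a b c d : ℤ} (h : ¬ 2 ∣ Q.1)
    (e : upf 2 Q' = fmap (upf 2 Q) a b c d) : 2 ∣ b := by
  have h1 := congrArg (·.2.2) e
  simp only [upf, fmap, fval] at h1
  refine Int.prime_two.dvd_of_dvd_pow (n := 2) ((Int.prime_two.dvd_or_dvd (a := Q.1)
    ⟨2 * Q'.2.2 - 2 * Q.2.2 * d ^ 2 - Q.2.1 * b * d, ?_⟩).resolve_left h)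
  linear_combination -h1

theorem ptm_ne4 {W : Fm → Fm → ℤ} {x : Fm × Fm} (h : ptm N D ρ E β t W x ≠ 0) :
    G5.Fam N D ρ x.1 ∧ G5.Fam N E β x.2 ∧ fbil x.1 x.2 = t ∧ W x.1 x.2 ≠ 0 := by
  unfold ptm at h
  split_ifs at h with k
  exacts [⟨k.1, k.2.1, k.2.2, h⟩, absurd rfl h]

theorem odd_bil (h1 : 4 ∣ Q.2.1 * R.2.1) (ht : fbil Q R % 4 = 2) :
    ¬ 2 ∣ Q.1 * R.2.2 + Q.2.2 * R.1 := by
  simp only [fbil, mul_assoc] at ht
  omega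

theorem step_a (hN : Odd N) (h : Cm N 2 Φ) (hD : D % 4 = 0 ∨ D % 4 = 1) (hρ : 2 ∣ D - ρ) (hE : 4 ∣ E)
    (hβ : 2 ∣ β) (ht : t % 4 = 2) :
    pcn N (4 * D) (2 * ρ) E β t Φ = pcn N D ρ (4 * E) (2 * β) t Φ := by
  have o : ∀ {Q R : Fm}, G5.Fam N (4 * D) (2 * ρ) Q → G5.Fam N E β R → fbil Q R = t →
      ¬ 2 ∣ Q.1 * R.2.2 + Q.2.2 * R.1 := fun {Q R} a b c => odd_bil
    (mul_dvd_mul (show (2 : ℤ) ∣ Q.2.1 by have := fam_par a; omega)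
      (show (2 : ℤ) ∣ R.2.1 by have := fam_par b; omega)) (c ▸ ht)
  have o2 : ∀ i : Fm × Fm, ptm N (4 * D) (2 * ρ) E β t Φ (dnf 2 i.1, i.2) ≠ 0 →
      ¬ 2 ∣ i.1.2.2 * i.2.1 := fun i k l => by
    obtain ⟨a, b, c, -⟩ := ptm_ne4 k
    exact o a b c (dvd_add (((dvd_pow_self 2 two_ne_zero).mul_right _).mul_right _) l)
  refine corr (fun i : Fm × Fm => (dnf 2 i.1, i.2)) (fun i => (i.1, upf 2 i.2)) h.pinv h.pinv
    (fun x hx => ?_) (fun x hx => ?_) (fun i j hi _ => ⟨?_, ?_⟩) fun i => ?_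
  · obtain ⟨h1, h2, h3, -⟩ := ptm_ne4 hx
    obtain ⟨a, b, c, d, Q', e, k, -⟩ := nf_dn hN hD h1.2.1 fun k =>
      o h1 h2 h3 (dvd_add (k.1.mul_right _) (k.2.mul_right _))
    exact ⟨(Q', fmap x.2 a b (N * c) d), G5.PEq.symm ⟨a, b, c, d, e, k.symm, rfl⟩⟩
  · obtain ⟨h1, h2, h3, -⟩ := ptm_ne4 hx
    obtain ⟨a, b, c, d, Q', e, k⟩ := nf_up hN hE h2.2.1 fun ⟨⟨y, hy⟩, z, hz⟩ => by
      obtain ⟨s, hs⟩ : 2 ∣ x.2.2.1 := by have := fam_par h2; omega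
      obtain ⟨E, rfl⟩ := hE
      have h4 := h2.2.1
      obtain ⟨s, rfl⟩ := Int.prime_two.dvd_of_dvd_pow (a := s) (n := 2) ⟨2 * (E + y * z), by
        simp only [fdisc, hy, hz, hs] at h4
        linarith⟩
      exact odd_bil (Dvd.dvd.mul_left ⟨s, by rw [hs]; ring⟩ _) (h3 ▸ ht)
        (dvd_add (Dvd.dvd.mul_left ⟨z, hz⟩ _) (Dvd.dvd.mul_left ⟨y, hy⟩ _))
    exact ⟨(fmap x.1 a b (N * c) d, Q'), G5.PEq.symm ⟨a, b, c, d, e, rfl, k.symm⟩⟩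
  · rintro ⟨a, b, c, d, e, k1, k2⟩
    obtain ⟨c, rfl⟩ := dnf_even hN (odd_mul' (o2 i hi)).1 k1
    rw [mul_left_comm] at k1 k2
    exact ⟨a, 2 * b, c, d, by linear_combination e, dnf_inj two_ne_zero (k1.trans (fmap_dnf ..)),
      (congrArg (upf 2) k2).trans (fmap_upf ..).symm⟩
  · rintro ⟨a, b, c, d, e, k1, k2⟩
    obtain ⟨b, rfl⟩ := upf_even (odd_mul' (o2 i hi)).2 k2
    refine ⟨a, b, 2 * c, d, by linear_combination e, ?_, ?_⟩ <;> rw [mul_left_comm]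
    exacts [(congrArg (dnf 2) k1).trans (fmap_dnf ..).symm,
      upf_inj two_ne_zero (k2.trans (fmap_upf ..))]
  · exact if_ctx_congr (and_congr (fam_dnf hN hρ) (and_congr (fam_upf hN (by omega)).symm
      (by rw [fbil_dnf]))) (fun k => cm_dnf h k.1.1 k.2.1.1) fun _ => rfl

theorem pr2_fmap {a b c d : ℤ} (e : a * d - b * c = 1) (h2 : 2 ∣ Q.2.1) (h : Pr2 Q) :
    Pr2 (fmap Q a b c d) := fun k => h (by
  have h3 : 2 ∣ (fmap Q a b c d).2.1 := by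
    have h4 := par_mid Q
    have h5 := par_mid (fmap Q a b c d)
    rw [fdisc_fmap e] at h5
    omega
  rw [← fmap_inv e Q]
  generalize fmap Q a b c d = R at k h3
  exact ⟨((k.1.mul_right _).add ((h3.mul_right _).mul_right _)).add (k.2.mul_right _),
    ((k.1.mul_right _).add ((h3.mul_right _).mul_right _)).add (k.2.mul_right _)⟩)

theorem pr2_iff {a b c d : ℤ} (e : a * d - b * c = 1) (h2 : 2 ∣ Q.2.1) :
    Pr2 (fmap Q a b c d) ↔ Pr2 Q := ⟨fun h => by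
  have h4 := par_mid Q
  have h5 := par_mid (fmap Q a b c d)
  rw [fdisc_fmap e] at h5
  exact fmap_inv e Q ▸ pr2_fmap (by linear_combination e) (by omega) h, pr2_fmap e h2⟩

theorem step_b (hN : Odd N) (h : Cm N 2 Φ) (hD : 4 ∣ D) (hρ : 2 ∣ ρ) (hE : 4 ∣ E) (hβ : 2 ∣ β) (ht : t % 4 = 2) :
    pcn N (4 * D) (2 * ρ) (4 * E) (2 * β) (4 * t) (fun Q R => if Pr2 Q ∧ Pr2 R then Φ Q R else 0) =
      pcn N D ρ E β t Φ := by
  have o : ∀ {Q R : Fm}, G5.Fam N D ρ Q → G5.Fam N E β R → fbil Q R = t →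
      ¬ 2 ∣ Q.1 * R.2.2 + Q.2.2 * R.1 := fun {Q R} a b c => odd_bil
    (mul_dvd_mul (show (2 : ℤ) ∣ Q.2.1 by have := fam_par a; omega)
      (show (2 : ℤ) ∣ R.2.1 by have := fam_par b; omega)) (c ▸ ht)
  have h4 : ∀ i : {i : Fm × Fm // ¬ 2 ∣ i.1.2.2 ∧ ¬ 2 ∣ i.2.2.2},
      ptm N (4 * D) (2 * ρ) (4 * E) (2 * β) (4 * t) (fun Q R => if Pr2 Q ∧ Pr2 R then Φ Q R else 0)
        (dnf 2 i.1.1, dnf 2 i.1.2) = ptm N D ρ E β t Φ i.1 := fun i =>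
    if_ctx_congr (and_congr (fam_dnf hN (by omega)) (and_congr (fam_dnf hN (by omega))
      (by rw [fbil_dnf2]; omega))) (fun k => by
        dsimp only
        rw [if_pos ⟨fun l => i.2.1 l.2, fun l => i.2.2 l.2⟩, cm_dnf h k.1.1 (k.2.1.1.mul_left _),
          ← cm_sc hN h _ _ _ _ k.2.1.1]
        simp only [upf, dnf]
        congr 3; ring) fun _ => rfl
  refine corr (fun i : {i : Fm × Fm // ¬ 2 ∣ i.1.2.2 ∧ ¬ 2 ∣ i.2.2.2} =>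
    (dnf 2 i.1.1, dnf 2 i.1.2)) (fun i => i.1) (pinv_ptm fun Q R a b c d e h1 h2 => ?_) h.pinv
    (fun x hx => ?_) (fun x hx => ?_) (fun i j hi _ => ⟨?_, ?_⟩) h4
  · rw [h.inv Q R a b c d e h1.1 h2.1]
    simp only [pr2_iff e (show 2 ∣ Q.2.1 by have := fam_par h1; omega),
      pr2_iff e (show 2 ∣ R.2.1 by have := fam_par h2; omega)]
  · obtain ⟨h1, h2, h3, h5⟩ := ptm_ne4 hx
    have h6 : Pr2 x.1 ∧ Pr2 x.2 := by_contra fun k => h5 (if_neg k)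
    obtain ⟨a, b, c, d, Q', e, k, k'⟩ := nf_dn hN (by omega) h1.2.1 h6.1
    have h7 := k ▸ G5.FEq.fam ⟨a, b, c, d, e, rfl⟩ h1
    have h8 := G5.FEq.fam ⟨a, b, c, d, e, rfl⟩ h2
    have h9 := pr2_fmap e (by have := fam_par h2; omega) h6.2
    rw [← fbil_fmap e, k] at h3
    obtain ⟨⟨A, B, C⟩, hR⟩ : ∃ R, R = fmap x.2 a b (N * c) d := ⟨_, rfl⟩
    rw [← hR] at h3 h8 h9
    obtain ⟨B, rfl⟩ : 2 ∣ B := by have := fam_par h8; simp only at this; omega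
    obtain ⟨s, hs⟩ : 2 ∣ Q'.2.1 := by have := fam_par ((fam_dnf hN (by omega)).1 h7); omega
    obtain ⟨A, rfl⟩ := four_dvd (y := A) k' ⟨s * B - Q'.1 * C - 2 * (t / 4) - 1, by
      simp only [fbil, dnf, hs] at h3
      have : t = 4 * (t / 4) + 2 := by omega
      linarith⟩
    exact ⟨⟨(Q', (A, B, C)), k', fun l => h9 ⟨⟨2 * A, by ring⟩, l⟩⟩,
      G5.PEq.symm ⟨a, b, c, d, e, k.symm, hR⟩⟩
  · obtain ⟨h1, h2, h3, -⟩ := ptm_ne4 hx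
    have h5 := o h1 h2 h3
    have h6 : 2 ∣ x.1.2.1 := by have := fam_par h1; omega
    have h7 : 2 ∣ x.2.2.1 := by have := fam_par h2; omega
    by_cases k1 : ¬ 2 ∣ x.1.2.2 ∧ ¬ 2 ∣ x.2.2.2
    · exact ⟨⟨x, k1⟩, 1, 0, 0, 1, by ring, by simp [fmap_one], by simp [fmap_one]⟩
    by_cases k2 : ¬ 2 ∣ x.1.1 ∧ ¬ 2 ∣ x.2.1
    · obtain ⟨M, hM⟩ := odd_eq hN
      exact ⟨⟨(fmap x.1 (M + 1) 1 (N * 1) 2, fmap x.2 (M + 1) 1 (N * 1) 2), by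
        simp only [fmap, fval]; omega⟩,
        G5.PEq.symm ⟨M + 1, 1, 1, 2, by linear_combination -hM, rfl, rfl⟩⟩
    refine ⟨⟨(fmap x.1 1 1 (N * 0) 1, fmap x.2 1 1 (N * 0) 1), ?_⟩,
      G5.PEq.symm ⟨1, 1, 0, 1, by ring, rfl, rfl⟩⟩
    simp only [← even_iff_two_dvd, fmap, fval, parity_simps] at h5 h6 h7 k1 k2 ⊢
    tauto
  · rintro ⟨a, b, c, d, e, k1, k2⟩
    obtain ⟨c, rfl⟩ := dnf_even hN i.2.1 k1
    rw [mul_left_comm] at k1 k2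
    exact ⟨a, 2 * b, c, d, by linear_combination e, dnf_inj two_ne_zero (k1.trans (fmap_dnf ..)),
      dnf_inj two_ne_zero (k2.trans (fmap_dnf ..))⟩
  · rintro ⟨a, b, c, d, e, k1, k2⟩
    obtain ⟨h1, h2, h3, -⟩ := ptm_ne4 (h4 i ▸ hi)
    obtain ⟨b, rfl⟩ : 2 ∣ b := by
      have h5 := o h1 h2 h3
      have h6 : 2 ∣ i.1.1.2.1 := by have := fam_par h1; omega
      have h7 : 2 ∣ i.1.2.2.1 := by have := fam_par h2; omega
      obtain ⟨a1, a2⟩ := i.2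
      obtain ⟨a3, a4⟩ := j.2
      rw [k1] at a3
      rw [k2] at a4
      simp only [← even_iff_two_dvd, fmap, fval, parity_simps] at h5 h6 h7 a1 a2 a3 a4 ⊢
      tauto
    refine ⟨a, b, 2 * c, d, by linear_combination e, ?_, ?_⟩ <;> rw [mul_left_comm]
    exacts [(congrArg (dnf 2) k1).trans (fmap_dnf ..).symm,
      (congrArg (dnf 2) k2).trans (fmap_dnf ..).symm]

theorem iter_a (hN : Odd N) (h : Cm N 2 Φ) (hD : D % 4 = 1) (hρ : ρ % 2 = 1) (ht : t % 4 = 2) (k : ℕ) :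
    ∀ {E β : ℤ}, 4 ∣ E → 2 ∣ β →
      pcn N (4 ^ k * D) (2 ^ k * ρ) E β t Φ = pcn N D ρ (4 ^ k * E) (2 ^ k * β) t Φ := by
  induction k with
  | zero => simp
  | succ k ih =>
    intro E β hE hβ
    have h1 : (4 ^ k * D % 4 = 0 ∨ 4 ^ k * D % 4 = 1) ∧ 2 ∣ 4 ^ k * D - 2 ^ k * ρ := by
      rcases k with _ | k
      · omega
      · rw [pow_succ', pow_succ', mul_assoc, mul_assoc]
        omega
    rw [pow_succ' 4, pow_succ' 2, mul_assoc, mul_assoc, step_a hN h h1.1 h1.2 hE hβ ht,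
      ih (dvd_mul_right _ _) (dvd_mul_right _ _)]
    congr 1 <;> ring

end Pool.Agent.G7.Two
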