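import Pool.Agent.Lib.MP_696deb_nt.B5.Z4
import Pool.Agent.Lib.MP_696deb_nt.B5.ZFb
import Pool.Agent.Lib.MP_696deb_nt.B7.RN

/-! Special points with an arbitrary quadratic character: definitions and statements. -/

set_option autoImplicit false

open Finset NumberTheorySymbols Filter Topology
open scoped Classical ComplexConjugate

namespace Pool.Agent.G7

open Pool.Agent.Lib.MP_696deb_nt Pool.Agent.B4.GE Pool.Agent.Shared.Weier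
open Pool.Agent.Lib.MP_696deb_nt.B3 (kro chi2 odp PChr)
open Pool.Agent.B6.B7 (LX LKr lvQ rootNo)
open Pool.Agent.G5 hiding Cx Yw Cw zs Ori CNStmt HWStmt LTStmt GLStmt LAStmt SWStmt NUStmt WPStmt
  HTStmt GZStmt LFStmt LRStmt LQStmt

/-- The conductor of the character of a quadratic field. -/
abbrev cnd (d : ℤ) : ℕ := B3.cond d

/-- The genus character of the field generated by a square root of `d`. -/
def gD (d : ℤ) (Q : Fm) : ℤ := chi2 d (if 2 ∣ Q.1 then Q.2.2 else Q.1) * gch (odp d) Q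

/-- The genus character after the involution of Fricke. -/
def gU (N : ℕ) (d : ℤ) (Q : Fm) : ℤ := gD d (G5.fV N Q)

/-- A weight restricted to a family. -/
noncomputable def wF (N : ℕ) (ω : Fm → ℤ) (e β : ℤ) (R : Fm) : ℤ :=
  if G5.Fam N e β R then ω R else 0

/-- The symmetrized weight on the positive forms. -/
noncomputable def zF (N : ℕ) (ω : Fm → ℤ) (σ D ρ : ℤ) (Q : Fm) : ℤ :=
  if 0 < Q.1 then wF N ω D ρ Q + σ * wF N ω D (-ρ) Q else 0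

/-- The sum of a function over special points, weighted by the genus character. -/
noncomputable def yD {V : Type} [AddCommGroup V] (S : ℂ → V) (d : ℤ) (T : Finset Fm) : V :=
  ∑ Q ∈ T, gD d Q • S (froot Q)

/-- The count of pairs of a line and a geodesic. -/
noncomputable def cX (c : ℕ) (χ : ℤ → ℤ) (w : Fm → ℤ) (t : ℤ) : ℤ :=
  cntL c (Ico (0 : ℤ) c) χ w t + cntL c (Ico (0 : ℤ) c) χ w (-t)

/-- The logarithmic terms. -/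
noncomputable def LgX (c : ℕ) (χ : ℤ → ℤ) (w : Fm → ℤ) : ℝ :=
  ∑ k ∈ Ico (0 : ℤ) c, (χ k : ℝ) * ∑ᶠ R : Fm, if R.1 * fval R k c < 0 then
    (w R * R.1.sign : ℝ) * (Real.log |(fval R k c : ℝ)| - Real.log |(R.1 : ℝ)|) / 2 else 0

/-- `S` is an eigenfunction of an involution of Atkin and Lehner, up to the constant `c`. -/
def Ale {V : Type} [AddCommGroup V] (N q : ℕ) (s : ℤ) (S : ℂ → V) (c : V) : Prop :=
  ∃ w : MZ, ALm N q w ∧ ∀ z : ℂ, 0 < z.im → S (act w z) = s • S z + c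

/-- The numerical data. -/
structure Dat where
  N : ℕ
  p : ℕ
  n : ℕ
  f : ℤ
  a : ℤ
  b : ℤ
  ρ : ℤ
  ρ' : ℤ
  β : ℤ
  s : ℤ

namespace Dat

variable (X : Dat)

/-- The conductor. -/
def c : ℕ := cnd X.f

/-- The common part of the level and the conductor. -/
def g : ℕ := X.N.gcd X.f.natAbs

/-- The discriminant of the special points. -/
def D : ℤ := -(X.n * X.c ^ 2)

/-- The conditions on the data. -/
structure Ok : Prop extends G5.Good X.N X.n where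
  hp : X.p.Prime
  dvd : X.p ∣ X.N
  ne : X.N ≠ X.p
  gt : 3 < X.n
  mul : X.a * X.b = -X.n
  a4 : X.a % 4 = 1
  fs : Squarefree X.f
  fn : IsCoprime X.f (X.p * X.n)
  spl : ∀ r : ℕ, r.Prime → r ≠ 2 → (r : ℤ) ∣ X.f → J(-X.n | r) = 1
  A1 : X.f * X.a ≠ 1
  B1 : X.f * X.b ≠ 1
  sgn : X.s = 1 ∨ X.s = -1
  jac : kro (X.f * X.b) (-(lvQ X.N X.f : ℤ)) * X.s = 1
  root : 4 * (X.N : ℤ) ∣ X.ρ ^ 2 + X.n
  rp : (X.p : ℤ) ∣ X.ρ' + X.ρ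
  rq : 2 * ((X.N / X.p : ℕ) : ℤ) ∣ X.ρ' - X.ρ
  bet : 2 * (X.N : ℤ) ∣ X.b.natAbs * X.β + X.ρ * X.ρ'

/-- Representatives for both orientations. -/
structure Rep (r : ℤ) (T T' : Finset Fm) : Prop where
  fst : G5.FReps X.N X.D (r * X.c) T
  snd : G5.FReps X.N X.D (-(r * X.c)) T'

/-- The weight of the basic divisor. -/
noncomputable def w : Fm → ℤ := zF X.N (gD (X.f * X.b)) (X.f * X.b).sign X.D (X.ρ * X.c)

/-- The second family of divisors. -/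
noncomputable def Y (m : ℕ) : Fm → ℤ :=
  zF X.N (gU X.N (X.f * X.b)) (X.f * X.b).sign (X.D * m ^ 2) (X.ρ' * X.c * m)

/-- The split families of geodesics. -/
noncomputable def C (m : ℕ) : Fm → ℤ :=
  wF X.N (gU X.N (X.f * X.a)) ((cnd (X.f * X.a) * m) ^ 2) (X.β * X.c * m)

/-- The character that enters the recursion. -/
def η (l : ℕ) : ℤ := kro (X.f * X.a) l

/-- The sum of a function over the basic divisor. -/
noncomputable def zs {V : Type} [AddCommGroup V] (T T' : Finset Fm) (S : ℂ → V) : V :=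
  ∑ Q ∈ T ∪ T', X.w Q • S (froot Q)

/-- Special points of the first kind. -/
def Ori (z : ℂ) : Prop := ∃ (R : Fm) (M : ℕ), M ≠ 0 ∧ M.Coprime X.N ∧ 0 < R.1 ∧
  (G5.Fam X.N (-(X.n * (X.g * M) ^ 2)) (X.ρ * (X.g * M)) R ∨
    G5.Fam X.N (-(X.n * (X.g * M) ^ 2)) (-(X.ρ * (X.g * M))) R) ∧ IsCoprime R.2.2 X.g ∧
  z = froot R

/-- The numbers that are divisible by the good primes of the conductor. -/
structure Adm (m : ℕ) : Prop where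
  ne : m ≠ 0
  cop : m.Coprime X.N
  dvd : ∀ r : ℕ, r.Prime → r ∣ X.c → ¬ r ∣ X.N → r ∣ m

end Dat

/-- The two counts agree. -/
def CNStmt : Prop := ∀ X : Dat, X.Ok → ∃ σ : ℤ, (σ = 1 ∨ σ = -1) ∧
  ∀ (T T' : Finset Fm) (m : ℕ) (t : ℤ), X.Rep X.ρ T T' → X.Adm m → 0 ≤ t →
    (cnd (X.f * X.b) * (cnd (X.f * X.a) * m) : ℤ) ^ 2 < t ^ 2 →
    cntP (T ∪ T') X.w (X.Y m) (-t) = σ * cX (cnd (X.f * X.b)) (kro (X.f * X.b)) (X.C m) t

/-- The Hecke recursion for both families, and the points where the divisors vanish. -/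
def HWStmt : Prop := ∀ X : Dat, X.Ok →
  HFm X.N X.η (fun m => nuW (X.Y m)) ∧ HFm X.N X.η (fun m => Iw (X.C m)) ∧
  (∀ z, X.Ori z → ∀ l : ℕ, l.Prime → ¬ l ∣ X.N → ∀ i, X.Ori (act (rP l i) z)) ∧
  (∀ z, X.Ori z → ∀ m : ℕ, m ≠ 0 → m.Coprime X.N → ∀ R, X.Y m R ≠ 0 → froot R ≠ z) ∧
  ∀ Q, X.w Q ≠ 0 → X.Ori (froot Q)

/-- The logarithmic terms at a prime. -/
def LTStmt : Prop := ∀ X : Dat, X.Ok → ∀ l m : ℕ, l.Prime → X.Adm m →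
  (l ∣ X.c → LgX (cnd (X.f * X.b)) (kro (X.f * X.b)) (X.C m) ∈ LogS l) ∧
  (¬ l ∣ X.c → m.Coprime l →
    (et X.n l = 1 → LgX (cnd (X.f * X.b)) (kro (X.f * X.b)) (X.C m) ∈ LogS l) ∧
    (et X.n l ≠ 1 → ∃ C : ℚ, ∀ i : ℕ, ∃ σ : ℚ, |σ| ≤ C * (i + 1) ^ 2 ∧
      LgX (cnd (X.f * X.b)) (kro (X.f * X.b)) (X.C (m * l ^ i)) - σ * Real.log l ∈ LogS l))

/-- Lines against geodesics. -/
def GLStmt : Prop := ∀ (N c : ℕ) (χ : ℤ → ℤ) (w : ℕ → Fm → ℤ) (e : ℕ → ℤ) (a : ℕ →₀ ℤ)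
  (G : ℂ → ℂ), Squarefree N → PChr c χ → 1 < c →
  (∀ m ∈ a.support, 0 < e m ∧ G5.Wt N (w m) (e m) ∧
    ∀ R, w m R ≠ 0 → R.1 ≠ 0 ∧ ∀ k : ℤ, χ k ≠ 0 → fval R k c ≠ 0) →
  Ci N G → (Inv0 N fun z => (G z).re - cmb (fun m => Iw (w m)) a z) → LX G c χ 1 = 0 →
  Tendsto (fun ε : ℝ => a.sum fun m x => (x : ℝ) * ∑' t : ℕ,
    (cX c χ (w m) t : ℝ) * kerK ε (t / (c * √(e m : ℝ)))) (𝓝[>] 0)
    (𝓝 ((deriv (LX G c χ) 1).re - a.sum fun m x => (x : ℝ) * LgX c χ (w m)))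

/-- The sign of the functional equation. -/
def LAStmt : Prop := ∀ (N c q : ℕ) (χ : ℤ → ℤ) (F : ℂ → ℂ) (y : ℂ) (s : ℤ), Squarefree N →
  PChr c χ → q ∣ N → q.Coprime c → N ∣ q * c → Ci N F → Ale N q s F y → χ (-q) * s = 1 →
  LX F c χ 1 = 0

/-- The split family has a class, and the class dies when the twisted period vanishes. -/
def SWStmt : Prop := ∀ X : Dat, X.Ok →
  (∀ m : ℕ, m ≠ 0 → m.Coprime X.N → ∀ R, X.C m R ≠ 0 → R.1 ≠ 0 ∧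
    ∀ k : ℤ, kro (X.f * X.b) k ≠ 0 → fval R k (cnd (X.f * X.b)) ≠ 0) ∧
  ∃ G, G5.Geo X.N (X.C 1) G ∧ ∀ (F F₂ : ℂ → ℂ) (t : HW), Ci X.N F → Ci X.N F₂ → t ∈ HA X.N →
    Prj X.N F F₂ t → LKr F (X.f * X.a) 1 = 0 → LKr F₂ (X.f * X.a) 1 = 0 →
    ∃ y, ∀ z : ℂ, 0 < z.im → hf ℂ t G z = y

/-- Basic facts on the special divisors. -/
def NUStmt : Prop := ∀ X : Dat, X.Ok →
  (∀ m : ℕ, m ≠ 0 → G5.Wt X.N (X.Y m) (X.D * m ^ 2) ∧
    G5.Wt X.N (X.C m) ((cnd (X.f * X.a) * m) ^ 2)) ∧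
  (∀ T T', X.Rep X.ρ T T' → Pts (T ∪ T') X.w X.D ∧
    ∀ (V : Type) [AddCommGroup V] (S : ℂ → V) (y : V), Inv0 X.N S → Ale X.N (lvQ X.N X.f) X.s S y →
      ∃ k : ℤ, X.zs T T' S = 2 • yD S (X.f * X.b) T + k • y) ∧
  ∀ R R', X.Rep X.ρ' R R' → Rp X.N (nuW (X.Y 1)) ((R ∪ R').image froot) ∧
    ∀ (V : Type) [AddCommGroup V] (S : ℂ → V),
      ∑ z ∈ (R ∪ R').image froot, nuW (X.Y 1) z • S z = ∑ Q ∈ R ∪ R', X.Y 1 Q • S (froot Q)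

/-- The involution moves one divisor to the other. -/
def WPStmt : Prop := ∀ (X : Dat) (T T' R R' : Finset Fm) (w : MZ), X.Ok → X.Rep X.ρ T T' →
  X.Rep X.ρ' R R' → ALm X.N (X.g * X.p) w → ∃ e : ℤ, (e = 1 ∨ e = -1) ∧
  ∀ (V : Type) [AddCommGroup V] (S : ℂ → V), Inv0 X.N S →
    ∑ Q ∈ R ∪ R', X.Y 1 Q • S (froot Q) = e • X.zs T T' fun z => S (act w z)

/-- The height pairing is the sum of the Green function and of logarithms. -/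
def HTStmt : Prop := ∀ (W : WeierstrassCurve ℚ) [W.IsElliptic] (X : Dat) (P : Par W X.N),
  (∃ W' : WeierstrassCurve ℤ, W = W'.map (Int.castRingHom ℚ)) →
  ∀ (T T' : Finset Fm) (l l₀ : ℕ) (a : ℕ →₀ ℤ) (u : ℂ) (V : ℂ → ℂ), X.Ok → X.Rep X.ρ T T' →
  l.Prime → l₀.Prime → l ≠ l₀ → l₀ ≠ 2 → et X.n l₀ = -1 → Sup (X.N * l * l₀) a →
  Th X.N (cmb (fun m => nuW (X.Y m)) a) (U1 P.L P.F u) V → P.per.unif u ∈ Alg W →
  (et X.n l = 1 → ∀ j : ℕ, (l ∣ X.N → j = 0) →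
    hpair (X.zs T T' (hsum (l₀ * l ^ j) P.φ)) (P.per.unif u) -
      2 * X.zs T T' (hsum (l₀ * l ^ j) (gT (U1 P.L P.F u) V)) ∈ LogS l) ∧
  (et X.n l ≠ 1 → ∃ (C : ℚ) (k : ℕ), ∀ j : ℕ, ∃ r : ℚ, |r| ≤ C * (j + 1) ^ k ∧
    hpair (X.zs T T' (hsum (l₀ * l ^ j) P.φ)) (P.per.unif u) -
      2 * X.zs T T' (hsum (l₀ * l ^ j) (gT (U1 P.L P.F u) V)) - r * Real.log l ∈ LogS l)

/-- The involutions act on a newform, with constants of finite order. -/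
def ALStmt : Prop := ∀ (W : WeierstrassCurve ℚ) (N : ℕ) (D : MD W N), Squarefree N → Nw D →
  ∀ q : ℕ, q ∣ N → ∃ y : ℂ, IsOfFinAddOrder (D.par.per.unif y) ∧
    Ale N q (∏ p ∈ q.primeFactors, -D.c p) D.par.F y

/-- The parametrization of the raised level and its companion. -/
def LRStmt : Prop := ∀ (W : WeierstrassCurve ℚ) (N r : ℕ) (D : MD W N), Squarefree N → Nw D →
  r.Prime → ¬ r ∣ N → ∃ P : Par W (N * r), P.L = D.L ∧ P.a = D.c ∧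
    (∀ z, P.F z = D.par.F z + D.par.F (r * z)) ∧ ∀ q : ℕ, q ∣ N →
    Cp P (fun z => D.par.F z - D.par.F (r * z)) (q * r) ∧ ∃ y : ℂ,
      IsOfFinAddOrder (P.per.unif y) ∧ Ale (N * r) (q * r) (∏ p ∈ q.primeFactors, -D.c p) P.F y

/-- Special points and twisted series at the raised level. -/
def LQStmt : Prop := (∀ (N r n : ℕ) (f b ρ ρ₁ : ℤ) (T T₁ : Finset Fm), G5.Good (N * r) n →
    r.Prime → 3 < n → Squarefree f → IsCoprime f (r * n) → b ∣ n → b % 4 = 1 →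
    4 * ((N * r : ℕ) : ℤ) ∣ ρ₁ ^ 2 + n → 2 * (N : ℤ) ∣ ρ₁ - ρ →
    G5.FReps N (-(n * cnd f ^ 2)) (ρ * cnd f) T →
    G5.FReps (N * r) (-(n * cnd f ^ 2)) (ρ₁ * cnd f) T₁ →
    ∀ (V : Type) [AddCommGroup V] (S : ℂ → V), Inv0 N S → yD S (f * b) T₁ = yD S (f * b) T ∧
      yD (fun z => S (r * z)) (f * b) T₁ = kro (f * b) r • yD S (f * b) T) ∧
  ∀ (N r c : ℕ) (χ : ℤ → ℤ) (G : ℂ → ℂ), N ≠ 0 → r ≠ 0 → PChr c χ → r.Coprime c → Ci N G → ∀ s,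
    LX (fun z => G (r * z)) c χ s = χ r * (r : ℂ) ^ (1 - s) * LX G c χ s

/-- Complex conjugation on the special points. -/
def CJStmt : Prop := ∀ (W : WeierstrassCurve ℚ) (N n : ℕ) (D : MD W N) (f b ρ : ℤ) (T : Finset Fm),
  G5.Good N n → 3 < n → Nw D → Squarefree f → IsCoprime f n → b ∣ n → b % 4 = 1 →
  4 * (N : ℤ) ∣ ρ ^ 2 + n → G5.FReps N (-(n * cnd f ^ 2)) (ρ * cnd f) T →
  IsOfFinAddOrder (pmap (starRingEnd ℂ) (yD D.par.φ (f * b) T) +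
    ((f * b).sign * rootNo D.c N (f * b)) • yD D.par.φ (f * b) T)

/-- The formula of Gross and Zagier for an arbitrary twist. -/
def GZStmt : Prop := ∀ (W : WeierstrassCurve ℚ) [W.IsElliptic] (N : ℕ) (D : MD W N),
  (∃ W' : WeierstrassCurve ℤ, W = W'.map (Int.castRingHom ℚ)) → Nw D →
  (∀ n M : ℕ, Squarefree n → n % 4 = 3 → M ≠ 0 →
    ∃ l : ℕ, l.Prime ∧ ¬ l ∣ M ∧ J((l : ℤ) | n) = -1 ∧ D.c l ≠ 0) →
  ∀ (n : ℕ) (f a b ρ : ℤ) (T : Finset Fm), G5.Good N n → 3 < n → a * b = -n → a % 4 = 1 →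
    Squarefree f → IsCoprime f n → (∀ r : ℕ, r.Prime → r ≠ 2 → (r : ℤ) ∣ f → J(-n | r) = 1) →
    f * a ≠ 1 → f * b ≠ 1 → rootNo D.c N (f * b) = -1 → 4 * (N : ℤ) ∣ ρ ^ 2 + n →
    G5.FReps N (-(n * cnd f ^ 2)) (ρ * cnd f) T → ¬ IsOfFinAddOrder (yD D.par.φ (f * b) T) →
    LKr D.par.F (f * a) 1 ≠ 0 ∧ LKr D.par.F (f * b) 1 = 0 ∧ deriv (LKr D.par.F (f * b)) 1 ≠ 0

/-- The relation of Gross, Kohnen and Zagier for twists that are ramified at two. -/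
def GKStmt : Prop := ∀ (W : WeierstrassCurve ℚ) (N : ℕ) (D : MD W N), Squarefree N → Odd N →
  1 < N → Nw D → ∀ (f a x : ℤ) (M : ℕ), f ∣ 2 → f ≠ 1 → Squarefree a → a % 4 = 1 → IsCoprime a N →
  Squarefree x → x % 4 = 1 → IsCoprime x N → 0 < a * x → a ≠ x → M ≠ 0 →
  ∃ al nu : ℤ, (LKr D.par.F (f * a) 1 ≠ 0 → nu ≠ 0) ∧ ∀ (b ρ ρ₂ : ℤ) (n : ℕ) (T T₂ : Finset Fm),
    b ∣ M → a * b = -n → G5.Good N n → 3 < n → kro (f * b) (-N) = -1 →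
    (∀ k : ℤ, b * x ≠ -3 * k ^ 2) → 4 * (N : ℤ) ∣ ρ ^ 2 + n → 4 * (N : ℤ) ∣ ρ₂ ^ 2 - b * x →
    G5.FReps N (-(n * cnd f ^ 2)) (ρ * cnd f) T →
    G5.FReps N (b * x * cnd f ^ 2) (ρ₂ * cnd f) T₂ →
    ∃ s : ℤ, (s = 1 ∨ s = -1) ∧
      IsOfFinAddOrder (al • yD D.par.φ (f * b) T - (s * nu) • yD D.par.φ (f * b) T₂)

end Pool.Agent.G7
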