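import Pool.Agent.Lib.MP_696deb_nt.B7.CN7r
import Pool.Agent.Lib.MP_696deb_nt.B7.CN7s
import Pool.Agent.Lib.MP_696deb_nt.B7.Z0

/-! The cancellation of the deep pairs, and the transfer at two. -/

set_option autoImplicit false

open scoped Classical
open Finset NumberTheorySymbols

namespace Pool.Agent.G7.Two

open Pool.Agent.Lib.MP_696deb_nt

variable {N : ℕ} {ε D ρ E β t : ℤ} {Φ : Fm → Fm → ℤ} {Q R : Fm}

/-- The normal forms of the pairs whose paths have two edges in common. -/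
def p3d (N : ℕ) (i : Fm) : Fm := (8 * N * i.1, 4 * i.2.1, 2 * i.2.2 + 1)

/-- The passage to the other neighbour. -/
def p3t (N : ℕ) (i : Fm) : Fm := (i.1, 2 * N * i.1 + i.2.1, N * i.1 + i.2.1 + i.2.2)

theorem ev_sq (hN : Odd N) {c z : ℤ} (h : 2 ∣ (2 * c + 1) * (N * z) ^ 2) : 2 ∣ z :=
  ev_lev hN (Int.prime_two.dvd_of_dvd_pow ((Int.prime_two.dvd_or_dvd h).resolve_left (by omega)))

theorem p3_map {i j : Fm} {w y z s : ℤ} (h : p3d N j = fmap (p3d N i) (w + 2 * s) y (N * (4 * z)) w) :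
    p3d N (p3t N j) =
      fmap (p3d N (p3t N i)) (w + 2 * s - 2 * N * z) (y + s - N * z) (N * (4 * z)) (2 * N * z + w) := by
  simp only [p3d, p3t, fmap, fval, Prod.mk.injEq] at h ⊢
  obtain ⟨h1, h2, h3⟩ := h
  exact ⟨by linear_combination h1, by linear_combination h1 + h2,
    mul_left_cancel₀ four_ne_zero (by linear_combination h1 + 2 * h2 + 4 * h3)⟩

theorem p3_peq (hN : Odd N) {i j : Fm × Fm} (h : G5.PEq N (p3d N i.1, p3d N i.2) (p3d N j.1, p3d N j.2)) :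
    G5.PEq N (p3d N (p3t N i.1), p3d N (p3t N i.2)) (p3d N (p3t N j.1), p3d N (p3t N j.2)) := by
  obtain ⟨x, y, z, w, e, h1, h2⟩ := h
  have k := congrArg Prod.fst h1
  simp only [p3d, fmap, fval] at k
  obtain ⟨z, rfl⟩ : 2 ∣ z := ev_sq hN (c := i.1.2.2)
    ⟨4 * N * j.1.1 - 4 * N * (i.1.1 * x ^ 2) - 2 * N * (i.1.2.1 * x * z), by linear_combination -k⟩
  obtain ⟨z, rfl⟩ : 2 ∣ z := ev_sq hN (c := i.1.2.2)
    ⟨N * j.1.1 - N * (i.1.1 * x ^ 2) - N * (i.1.2.1 * x * z),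
      mul_left_cancel₀ four_ne_zero (by linear_combination -k)⟩
  have o : ¬ 2 ∣ x * w := by
    rw [show x * w = 2 * (2 * N * (y * z)) + 1 by linear_combination e]
    omega
  obtain ⟨s, rfl⟩ : ∃ s, x = w + 2 * s := ⟨(x - w) / 2, by
    have := mt (Dvd.dvd.mul_right · w) o
    have := mt (Dvd.dvd.mul_left · x) o
    omega⟩
  rw [show 2 * (2 * z) = 4 * z by ring] at e h1 h2
  exact ⟨_, _, _, _, by linear_combination e, p3_map h1, p3_map h2⟩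

theorem p3_two (i : Fm × Fm) :
    G5.PEq N (p3d N i.1, p3d N i.2) (p3d N (p3t N (p3t N i.1)), p3d N (p3t N (p3t N i.2))) := by
  refine ⟨1, 1, 0, 1, by norm_num, ?_, ?_⟩ <;>
  simp only [p3d, p3t, fmap, fval, Prod.mk.injEq] <;>
  exact ⟨by ring, by ring, by ring⟩

theorem p3_nf2 (hN : Odd N) (h1 : (N : ℤ) ∣ Q.1) (h2 : (N : ℤ) ∣ R.1) (d1 : 16 ∣ fdisc Q) (d2 : 16 ∣ fdisc R)
    (p1 : Pr2 Q) (p2 : Pr2 R) (ht : 16 ∣ fbil Q R) (h : 2 ∣ Q.1) :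
    ∃ i : Fm × Fm, G5.PEq N (p3d N i.1, p3d N i.2) (Q, R) := by
  obtain ⟨b, b1⟩ := pw_even (e := 4) dvd_rfl d1
  obtain ⟨β, b2⟩ := pw_even (e := 4) dvd_rfl d2
  obtain ⟨A, B, C⟩ := Q
  obtain ⟨A', B', C'⟩ := R
  simp only [Pr2, fdisc, fbil] at *
  subst b1 b2
  have ev : ∀ {a b c : ℤ}, (N : ℤ) ∣ a → 2 ∣ a → 16 ∣ (2 * b) ^ 2 - 4 * a * (2 * c + 1) →
      ∃ a' b', a = 4 * N * a' ∧ b = 2 * b' := fun {a b c} k1 k2 k3 => by
    obtain ⟨a, rfl⟩ := (cop_lev hN).mul_dvd k2 k1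
    rw [show (2 * b) ^ 2 - 4 * (2 * N * a) * (2 * c + 1) =
      4 * b ^ 2 - 8 * (N * a) - 16 * (N * a * c) by ring] at k3
    obtain ⟨k4, k5⟩ : 2 ∣ N * a ∧ 2 ∣ b := by
      rcases pw_sq b with ⟨j, k4, k5⟩ | ⟨k4, j, k5⟩ <;> omega
    obtain ⟨a, rfl⟩ := ev_lev hN k4
    obtain ⟨b, rfl⟩ := k5
    exact ⟨a, b, by ring, rfl⟩
  obtain ⟨c, rfl⟩ : ∃ c, C = 2 * c + 1 := ⟨C / 2, by omega⟩
  obtain ⟨a, b, rfl, rfl⟩ := ev h1 h d1
  have h3 : 2 ∣ A' := by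
    rw [show 2 * (2 * b) * (2 * β) - 2 * (4 * N * a) * C' - 2 * (2 * c + 1) * A' =
      4 * (2 * b * β - 2 * N * a * C' - c * A') - 2 * A' by ring] at ht
    omega
  obtain ⟨γ, rfl⟩ : ∃ c, C' = 2 * c + 1 := ⟨C' / 2, by omega⟩
  obtain ⟨α, β, rfl, rfl⟩ := ev h2 h3 d2
  rw [show 2 * (2 * b) * (2 * (2 * β)) - 2 * (4 * N * a) * (2 * γ + 1) -
    2 * (2 * c + 1) * (4 * N * α) =
    16 * (b * β - N * a * γ - N * c * α) - 8 * (N * (a + α)) by ring] at ht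
  have h4 : 2 ∣ a + α := ev_lev hN (by omega)
  rcases Int.even_or_odd' a with ⟨a, rfl | rfl⟩
  · obtain ⟨α, rfl⟩ : 2 ∣ α := by omega
    refine ⟨((a, b, c), (α, β, γ)), 1, 0, 0, 1, by norm_num, ?_, ?_⟩ <;>
    simp only [p3d, fmap, fval, Prod.mk.injEq] <;>
    exact ⟨by ring, by ring, by ring⟩
  · obtain ⟨α, rfl⟩ : ∃ k, α = 2 * k + 1 := ⟨α / 2, by omega⟩
    obtain ⟨M, hM⟩ := odd_eq hN
    refine ⟨((a + b + N * c + M + 1, b + N * (2 * c + 1), c),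
      (α + β + N * γ + M + 1, β + N * (2 * γ + 1), γ)), 1, 0, -2, 1, by norm_num, ?_, ?_⟩ <;>
    simp only [p3d, fmap, fval, Prod.mk.injEq, hM] <;>
    exact ⟨by ring, by ring, by ring⟩

theorem p3_sh (hN : Odd N) {a b c D : ℤ} (h : b ^ 2 - 2 * N * a * (2 * c + 1) = 4 * D) :
    ∃ k, N * a + b = 2 * k ∧ 2 ∣ k - D := by
  rw [show 2 * N * a * (2 * c + 1) = 2 * (N * a) + 4 * (N * a * c) by ring] at h
  obtain ⟨b, rfl, hb⟩ := (pw_sq b).resolve_right fun ⟨_, _, _⟩ => by omega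
  obtain ⟨a, rfl⟩ : 2 ∣ a := ev_lev hN (by omega)
  have h1 : b ^ 2 - N * a - 2 * (N * a * c) = D := by linarith
  exact ⟨N * a + b, by ring, by rcases pw_sq b with ⟨j, k4, k5⟩ | ⟨k4, j, k5⟩ <;> omega⟩

theorem p3_gR (hN : Odd N) (hε : ε = -4 ∨ ε = 8 ∨ ε = -8) {i : Fm} (h : fdisc (p3d N i) = 4 * ε ^ 2 * E) :
    g2 ε (p3d N (p3t N i)) = g2 ε (p3d N i) := by
  obtain ⟨a, b, c⟩ := i
  simp only [g2, p3d, p3t, fdisc, show ∀ a : ℤ, 2 ∣ 8 * N * a from fun a => ⟨4 * N * a, by ring⟩, if_true] at h ⊢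
  have k : ε ∣ 2 * (N * a + b) := by
    rcases hε with rfl | hε
    · obtain ⟨k, h1, -⟩ := p3_sh hN (a := a) (b := b) (c := c) (D := E) (by linarith)
      exact ⟨-k, by omega⟩
    · obtain ⟨k, h1, h2⟩ := p3_sh hN (a := a) (b := b) (c := c) (D := 4 * E)
        (by rcases hε with rfl | rfl <;> linarith)
      have : 8 ∣ 2 * (N * a + b) := by omega
      rcases hε with rfl | rfl
      exacts [this, this.neg_left]
  exact k2_eq (l := 2 * (2 * c + 1) + 2 * (N * a + b)) (by omega) (by omega)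
    ((pow_dvd_pow_of_dvd k 2).trans ⟨-1, by ring⟩)

theorem p3_gQ (hN : Odd N) (hε : ε = -4 ∨ ε = 8 ∨ ε = -8) (hD : D % 4 = 1) {i : Fm}
    (h : fdisc (p3d N i) = ε ^ 2 * D) : g2 ε (p3d N (p3t N i)) = -g2 ε (p3d N i) := by
  obtain ⟨a, b, c⟩ := i
  simp only [g2, p3d, p3t, fdisc, show ∀ a : ℤ, 2 ∣ 8 * N * a from fun a => ⟨4 * N * a, by ring⟩, if_true] at h ⊢
  have k : k2 ε ((2 * (N * a + b + c) + 1) * (2 * c + 1)) = -1 := by
    obtain ⟨j, hj⟩ := ((pw_sq (2 * c + 1)).resolve_left fun ⟨_, _, _⟩ => by omega).2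
    rcases hε with rfl | hε
    · refine k2_four (by decide) (by decide) ?_
      have h1 : b ^ 2 - 2 * (N * a) - 4 * (N * a * c) = D := by linarith
      rw [show (2 * (N * a + b + c) + 1) * (2 * c + 1) =
        (2 * c + 1) ^ 2 + 2 * (N * a + b) + 4 * ((N * a + b) * c) by ring]
      rcases pw_sq b with ⟨j, k4, k5⟩ | ⟨k4, j, k5⟩ <;> omega
    · refine k2_eight (by omega) ?_
      obtain ⟨k, h1, h2⟩ := p3_sh hN (a := a) (b := b) (c := c) (D := D)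
        (by rcases hε with rfl | rfl <;> linarith)
      rw [h1, show (2 * (2 * k + c) + 1) * (2 * c + 1) = (2 * c + 1) ^ 2 + 4 * k + 8 * (k * c) by
        ring]
      omega
  rw [k2_mul] at k
  linear_combination k2 ε (2 * c + 1) * k -
    k2 ε (2 * (N * a + b + c) + 1) * k2_sq ε (show ¬ 2 ∣ 2 * c + 1 by omega)

theorem p3_cm (hN : Odd N) (h : Cm N 2 Φ) (i j : Fm) :
    Φ (p3d N (p3t N i)) (p3d N (p3t N j)) = Φ (p3d N i) (p3d N j) := by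
  have l : ∀ x : ℤ, (N : ℤ) ∣ 2 * N * x := fun x => ⟨2 * x, by ring⟩
  have k : ∀ i j : Fm, Φ (p3d N i) (p3d N j) = Φ (2 * N * i.1, 2 * i.2.1, 2 * i.2.2 + 1)
      (2 * N * j.1, 2 * j.2.1, 2 * j.2.2 + 1) := fun i j => by
    have h1 := cm_dnf (Q := (2 * N * i.1, 2 * i.2.1, 2 * i.2.2 + 1)) (R := p3d N j) h (l _)
      ⟨8 * j.1, by simp only [p3d]; ring⟩
    rw [← cm_sc hN h _ (2 * N * j.1) _ _ (l _)]
    refine (congrArg₂ Φ ?_ rfl).trans (h1.trans (congrArg₂ Φ rfl ?_)) <;>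
    simp only [p3d, dnf, upf, Prod.mk.injEq, and_true] <;>
    refine ⟨by ring, ?_⟩
    exacts [by ring, ⟨by ring, by ring⟩]
  rw [k, k i, ← h.inv (2 * N * i.1, _, _) (2 * N * j.1, _, _) 1 1 0 1 (by norm_num) (l _) (l _)]
  refine congrArg₂ Φ ?_ ?_ <;>
  simp only [p3t, fmap, fval, Prod.mk.injEq] <;>
  exact ⟨by ring, by ring, by ring⟩

theorem p3_fam (i : Fm) : G5.Fam N D ρ (p3d N (p3t N i)) ↔ G5.Fam N D ρ (p3d N i) := by
  rw [G5.Fam, G5.Fam, show fdisc (p3d N (p3t N i)) = fdisc (p3d N i) by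
    simp only [fdisc, p3d, p3t]; ring]
  simp only [p3d, p3t]
  refine and_congr_right' (and_congr_right' ?_)
  rw [show 4 * (2 * N * i.1 + i.2.1) - ρ = 2 * N * (4 * i.1) + (4 * i.2.1 - ρ) by ring]
  exact dvd_add_right (dvd_mul_right _ _)

/-- The two neighbours of a pair cancel. -/
theorem step_s (hN : Odd N) (hε : ε = -4 ∨ ε = 8 ∨ ε = -8) (h : Cm N 2 Φ) (hD : D % 4 = 1) (ht : t % 4 ≠ 2)
    (ht' : t % 16 ≠ 8) :
    pcn N (ε ^ 2 * D) ρ (4 * ε ^ 2 * E) β t (fun Q R => g2 ε Q * g2 ε R * Φ Q R) = 0 := by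
  rw [pcn]
  set F := ptm N (ε ^ 2 * D) ρ (4 * ε ^ 2 * E) β t fun Q R => g2 ε Q * g2 ε R * Φ Q R with hF
  have h1 : PInv N F := pinv_ptm fun Q R a b c d e k1 k2 => by
    rw [h.inv Q R a b c d e k1.1 k2.1, g2_fmap ⟨D, k1.2.1⟩ e,
      g2_fmap ⟨4 * E, by rw [k2.2.1]; ring⟩ e]
  have h16 : 16 ∣ ε ^ 2 := pow_dvd_pow_of_dvd (p3_four hε) 2
  have h2 : ∀ p, F p ≠ 0 → (N : ℤ) ∣ p.1.1 ∧ 16 ∣ fdisc p.1 ∧ (2 ∣ p.1.1 →
      ∃ i : Fm × Fm, G5.PEq N (p3d N i.1, p3d N i.2) p) := fun p hp => by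
    obtain ⟨k1, k2, k3⟩ := ptm_fam hp
    have k4 := left_ne_zero_of_mul (ptm_ne hp)
    have k5 : 16 ∣ fdisc p.1 := k1.2.1 ▸ h16.mul_right _
    refine ⟨k1.1, k5, p3_nf2 hN k1.1 k2.1 k5 (k2.2.1 ▸ (h16.mul_left _).mul_right _)
      (by_contra fun k => left_ne_zero_of_mul k4 (g2_npr hε k))
      (by_contra fun k => right_ne_zero_of_mul k4 (g2_npr hε k)) ?_⟩
    have := g2_cases (p3_four hε) (by omega) k1.2.1 hD ⟨E, k2.2.1⟩ (left_ne_zero_of_mul k4)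
      (right_ne_zero_of_mul k4)
    omega
  have h3 : ∀ p, F p ≠ 0 → ∃ i : Fm × Fm, G5.PEq N (p3d N i.1, p3d N i.2) p := fun p hp => by
    obtain ⟨b, hb⟩ := pw_even (e := 4) dvd_rfl (h2 p hp).2.1
    have k : ∀ x y z w : ℤ, x * w - y * (N * z) = 1 → 2 ∣ fval p.1 x (N * z) →
        ∃ i : Fm × Fm, G5.PEq N (p3d N i.1, p3d N i.2) p := fun x y z w e k => by
      have k1 : G5.PEq N p (fmap p.1 x y (N * z) w, fmap p.2 x y (N * z) w) := ⟨x, y, z, w, e, rfl, rfl⟩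
      exact ((h2 _ (h1 _ _ k1 ▸ hp)).2.2 k).imp fun i hi => hi.trans k1.symm
    by_cases k1 : 2 ∣ p.1.1
    · exact (h2 p hp).2.2 k1
    by_cases k2 : 2 ∣ p.1.2.2
    · obtain ⟨M, hM⟩ := odd_eq hN
      exact k 2 1 1 (M + 1) (by linear_combination -hM) (by
        have := k2.mul_right ((N * 1) ^ 2)
        have := dvd_mul_left 2 p.1.2.1 |>.mul_right (N * 1)
        rw [fval]
        omega)
    · exact k 1 0 1 1 (by norm_num) (by
        have := nd_lev hN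
        simp only [← even_iff_two_dvd, fval, hb, parity_simps] at k1 k2 this ⊢
        tauto)
  have h4 := corr (F := F) (G := fun p => -F p) (fun i : Fm × Fm => (p3d N i.1, p3d N i.2))
    (fun i => (p3d N (p3t N i.1), p3d N (p3t N i.2))) h1 (fun p q e => congrArg Neg.neg (h1 p q e)) h3
    (fun q hq => (h3 q (neg_ne_zero.1 hq)).elim fun i hi =>
      ⟨(p3t N i.1, p3t N i.2), (p3_two i).symm.trans hi⟩)
    (fun i j _ _ => ⟨p3_peq hN, fun e => (p3_two i).trans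
      ((p3_peq hN (i := (p3t N i.1, p3t N i.2)) (j := (p3t N j.1, p3t N j.2)) e).trans (p3_two j).symm)⟩)
    fun i => by
      simp only [hF, ptm, p3_fam, p3_cm hN h, show fbil (p3d N (p3t N i.1)) (p3d N (p3t N i.2)) =
        fbil (p3d N i.1) (p3d N i.2) by simp only [fbil, p3d, p3t]; ring]
      split_ifs with k
      · rw [p3_gQ hN hε hD k.1.2.1, p3_gR hN hε k.2.1.2.1]
        ring
      · rfl
  rw [orb_neg] at h4
  omega

/-- The transfer at two, for the prime discriminant `ε`. -/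
theorem step_two (hN : Odd N) (hε : ε = -4 ∨ ε = 8 ∨ ε = -8) (t : ℤ) : ∃ lam u t' : ℤ, 0 < u ∧
    (∀ l : ℕ, l.Prime → (l : ℤ) ∣ u → l = 2) ∧ (lam ≠ 0 → t' * (|ε| * (|ε| * 2)) = t * u) ∧
    ∀ {D ρ E β : ℤ} {Φ : Fm → Fm → ℤ}, Cm N 2 Φ → D % 4 = 1 → ρ % 2 = 1 →
      pcn N (ε ^ 2 * D) (|ε| * ρ) (4 * ε ^ 2 * E) (2 * |ε| * β) t
          (fun Q R => g2 ε Q * g2 ε R * Φ Q R) =
        lam * pcn N D ρ (u ^ 2 * E) (u * β) t' Φ := by
  obtain ⟨k, h1, h2⟩ : ∃ k : ℕ, ε ^ 2 = 4 ^ (k + 2) ∧ |ε| = 2 ^ (k + 2) := by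
    rcases hε with rfl | rfl | rfl
    exacts [⟨0, by decide⟩, ⟨1, by decide⟩, ⟨1, by decide⟩]
  have h5 : ∀ (j l : ℕ), l.Prime → (l : ℤ) ∣ 2 ^ j → l = 2 := fun j l hl h =>
    (Nat.prime_dvd_prime_iff_eq hl Nat.prime_two).1
      (Int.natCast_dvd_natCast.1 ((Nat.prime_iff_prime_int.1 hl).dvd_of_dvd_pow h))
  have h7 : ∀ j : ℕ, (4 : ℤ) ^ j = (2 ^ j) ^ 2 := fun j => by
    rw [← pow_mul, mul_comm, pow_mul]; rfl
  by_cases ht : t % 4 = 2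
  · refine ⟨k2 ε (-(t / 2)), 2 ^ (2 * k + 5), t, by positivity, h5 _, fun _ => by rw [h2]; ring,
      fun {D ρ E β Φ} h hD hρ => ?_⟩
    rw [pcn_congr (W' := fun Q R => k2 ε (-(t / 2)) * Φ Q R) fun Q R a b c => by
      rw [g2_one hε (a.2.1 ▸ dvd_mul_right _ _) (b.2.1 ▸ ⟨4 * E, by ring⟩) (c ▸ ht), c],
      pcn_mul, h1, h2, iter_a hN h hD hρ ht _ ⟨4 ^ (k + 2) * E, by ring⟩
        ⟨2 ^ (k + 2) * β, by ring⟩, h7]
    congr 2 <;> ring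
  by_cases ht' : t % 16 = 8
  · refine ⟨-k2 ε (-(t / 8)), 2 ^ (2 * k + 3), t / 4, by positivity, h5 _, fun _ => ?_,
      fun {D ρ E β Φ} h hD hρ => ?_⟩
    · obtain ⟨s, rfl⟩ : 4 ∣ t := by omega
      rw [h2, Int.mul_ediv_cancel_left _ four_ne_zero]
      ring
    have h8 := step_b (D := 4 ^ (k + 1) * D) (ρ := 2 ^ (k + 1) * ρ) (E := ε ^ 2 * E)
      (β := 2 ^ (k + 2) * β) (t := t / 4) hN h ⟨4 ^ k * D, by ring⟩ ⟨2 ^ k * ρ, by ring⟩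
      ⟨4 ^ (k + 1) * E, by rw [h1]; ring⟩ ⟨2 ^ (k + 1) * β, by ring⟩ (by omega)
    rw [iter_a hN h hD hρ (by omega) _ ⟨4 ^ (k + 1) * E, by rw [h1]; ring⟩
      ⟨2 ^ (k + 1) * β, by ring⟩] at h8
    rw [pcn_congr (W' := fun Q R => -k2 ε (-(t / 8)) * if Pr2 Q ∧ Pr2 R then Φ Q R else 0)
      fun Q R a b c => ?_, pcn_mul]
    · congr 1
      convert h8 using 2
      · rw [h1]; ring
      · rw [h2]; ring
      · ring
      · rw [h2]; ring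
      · omega
      · rw [h1, h7, h7]; ring
      · ring
    · split_ifs with h9
      · rw [g2_three hε hD a.2.1 (b.2.1 ▸ ⟨E, rfl⟩) (c ▸ ht') h9.1 h9.2, c]
      · rcases not_and_or.1 h9 with h9 | h9 <;> simp [g2_npr hε h9]
  · exact ⟨0, 1, t, one_pos, fun l hl h => absurd (Int.natCast_dvd_natCast.1 h) hl.not_dvd_one,
      fun h => absurd rfl h, fun h hD _ => by rw [step_s hN hε h hD ht ht', zero_mul]⟩

theorem exists_eps {d : ℤ} (hd : d = -1 ∨ d = 2 ∨ d = -2) : ∃ ε : ℤ, (ε = -4 ∨ ε = 8 ∨ ε = -8) ∧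
    (cnd d : ℤ) = |ε| ∧ 2 ∣ cnd d ∧ ∀ Q, gD d Q = g2 ε Q := by
  rcases hd with rfl | rfl | rfl
  · exact ⟨-4, by simp, by decide, by decide, fun Q => by
      simp [gD, g2, k2, B3.chi2, B3.odp, gch]⟩
  · exact ⟨8, by simp, by decide, by decide, fun Q => by
      simp [gD, g2, k2, B3.chi2, B3.odp, gch]⟩
  · exact ⟨-8, by simp, by decide, by decide, fun Q => by
      simp [gD, g2, k2, B3.chi2, B3.odp, gch]⟩

end Two

open Two in
/-- The transfer at two. -/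
theorem trf_two {N : ℕ} {d : ℤ} (hN : Odd N) (hd : d = -1 ∨ d = 2 ∨ d = -2) :
    Trf N (cnd d) 2 fun Q R => gD d Q * gU N d R := fun t => by
  obtain ⟨ε, hε, h1, h2, h3⟩ := exists_eps hd
  obtain ⟨lam, u, t₁, u0, u1, u2, u3⟩ := step_two hN hε t
  refine ⟨1, k2 ε N * lam, u, t₁, one_pos, u0, fun l hl h => u1 l hl h ▸ h2,
    fun h => by rw [h1]; exact u2 (right_ne_zero_of_mul h), fun D ρ E β Φ h hD _ hρ _ _ => ?_⟩
  have h4 : ρ % 2 = 1 := by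
    have := (dvd_mul_right 4 _).trans hρ
    rcases pw_sq ρ with ⟨j, k4, k5⟩ | ⟨k4, j, k5⟩ <;> omega
  have h5 := u3 (E := E) (β := β) (h.mono (Int.natCast_dvd_natCast.2 h2)) hD h4
  rw [one_mul, mul_assoc (k2 ε N), mul_comm E (u ^ 2), mul_comm β u, ← h5, ← pcn_mul, h1]
  have e1 : D * |ε| ^ 2 = ε ^ 2 * D := by rw [sq_abs, mul_comm]
  have e2 : E * (|ε| * (2 : ℕ)) ^ 2 = 4 * ε ^ 2 * E := by
    rw [mul_pow, sq_abs]; push_cast; ring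
  have e3 : β * (|ε| * (2 : ℕ)) = 2 * |ε| * β := by push_cast; ring
  rw [e1, e2, e3, mul_comm ρ]
  refine pcn_congr fun Q R _ b _ => ?_
  simp only [gU, h3]
  rw [g2_fV hN (b.2.1 ▸ ⟨4 * E, by ring⟩) b.1]
  ring

end Pool.Agent.G7
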