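import Pool.Agent.Lib.MP_696deb_nt.B7.CN7c
import Pool.Agent.Lib.MP_696deb_nt.B7.CN7g
import Pool.Agent.Lib.MP_696deb_nt.B7.CN7h
import Pool.Agent.Lib.MP_696deb_nt.B7.CN7w

/-! The three local steps, and the equality of the two counts. -/

set_option autoImplicit false

namespace Pool.Agent.G7

theorem steps (N : ℕ) (hN : Squarefree N) (ho : Odd N) : Steps N :=
  ⟨fun _ hp h2 h => trf_good hN hp h2 h, fun _ hp h => trf_bad hN ho hp h, fun _ h => trf_two ho h⟩

theorem transfer {N : ℕ} {f : ℤ} (hN : Squarefree N) (ho : Odd N) (hf : Squarefree f) :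
    Trf N (cnd f) (yy N f) fun Q R => gD f Q * gU N f R := transfer_of (steps N hN ho) ho hf

theorem cn_stmt : CNStmt := cn_of steps

end Pool.Agent.G7
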