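import Pool.Agent.Lib.MP_696deb_nt.B7.GL7a

/-! Vertical lines against geodesics, for an arbitrary primitive quadratic character. -/

set_option autoImplicit false

open Filter Topology Set MeasureTheory UpperHalfPlane Metric CongruenceSubgroup NumberTheorySymbols
open scoped Real MatrixGroups

namespace Pool.Agent.G5.GL

open Pool.Agent.Lib.MP_696deb_nt Pool.Agent.B4.GE

variable {N : ℕ} {ι : Type} {J : Finset ι} {c : ι → ℤ} {w : ι → Fm → ℤ} {e : ι → ℤ} {G : ℂ → ℂ}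

theorem Gs.integral_ps7 (h : Gs N J c w e G) (hN : Squarefree N) {A : ℤ} (hA : 0 < A)
    {S : Finset ℤ} {χ : ℤ → ℤ} (hχ : ∑ k ∈ S, χ k = 0) (hc : ∀ k ∈ S, IsCoprime k (A.gcd N))
    (hS : ∀ k ∈ S, ∀ m ∈ J, ∀ R, w m R ≠ 0 → fval R k A ≠ 0)
    (hL : ∑ k ∈ S, χ k * Ld G k A 1 = 0) :
    IntegrableOn (fun y : ℝ => (∑ k ∈ S, χ k * ps J c w G (vpt (k / A) y)) / y) (Ioi 0) ∧
    ∫ y in Ioi (0 : ℝ), (∑ k ∈ S, χ k * ps J c w G (vpt (k / A) y)) / y =
      (deriv (fun s => ∑ k ∈ S, χ k * Ld G k A s) 1).re - ∑ m ∈ J, c m * lgL A S χ (w m) := by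
  have hA' : (0 : ℝ) < A := by exact_mod_cast hA
  choose! s hs hI using fun m (hm : m ∈ J) k (hk : k ∈ S) =>
    (h.gw m hm).Iw_line hA k (hS k hk m hm)
  let T : Finset (Σ _ : ι, Σ _ : ℤ, Fm) := J.sigma fun m => S.sigma (s m)
  have hT : ∀ f : ι → ℤ → Fm → ℝ, ∑ i ∈ T, f i.1 i.2.1 i.2.2 =
      ∑ m ∈ J, ∑ k ∈ S, ∑ R ∈ s m k, f m k R := fun f => by
    rw [Finset.sum_sigma]
    exact Finset.sum_congr rfl fun m _ => by rw [Finset.sum_sigma]
  have h0 : ∑ i ∈ T, (c i.1 * (χ i.2.1 * (w i.1 i.2.2 * i.2.2.1.sign)) : ℝ) = 0 := by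
    have h1 : ∀ m ∈ J, ∀ k ∈ S, (thw (w m) k A : ℝ) =
        2 * ∑ R ∈ s m k, (w m R * R.1.sign : ℝ) := fun m hm k hk => by
      rw [thw, finsum_eq_sum_of_support_subset (s := s m k) _ fun R hR =>
        (hs m hm k hk R).mpr (thw_support (h.gw m hm).ne (hS k hk m hm) hR), Int.cast_sum,
        Finset.mul_sum]
      refine Finset.sum_congr rfl fun R hR => ?_
      rw [isign_of_mul_neg ((hs m hm k hk R).mp hR).2]
      push_cast
      ring
    have h2 := h.cross_thw7 hN hA.ne' hχ hc hS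
    rw [hL, Complex.zero_re, mul_zero] at h2
    apply mul_left_cancel₀ (two_ne_zero (α := ℝ))
    rw [hT fun m k R => (c m * (χ k * (w m R * R.1.sign)) : ℝ), mul_zero, h2, Finset.mul_sum]
    refine Finset.sum_congr rfl fun m hm => ?_
    rw [Finset.mul_sum, Finset.mul_sum]
    refine Finset.sum_congr rfl fun k hk => ?_
    rw [h1 m hm k hk]
    simp only [← Finset.mul_sum]
    ring
  have hp : ∀ i ∈ T, (fval i.2.2 i.2.1 A : ℝ) ≠ 0 ∧ (i.2.2.1 : ℝ) ≠ 0 := fun i hi => by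
    obtain ⟨h1, h2⟩ := Finset.mem_sigma.mp hi
    obtain ⟨h2, h3⟩ := Finset.mem_sigma.mp h2
    have h3 := ((hs _ h1 _ h2 _).mp h3).2.ne
    exact ⟨by exact_mod_cast right_ne_zero_of_mul h3, by exact_mod_cast left_ne_zero_of_mul h3⟩
  obtain ⟨h1, h2⟩ := integral_steps T
    (fun i => (c i.1 * (χ i.2.1 * (w i.1 i.2.2 * i.2.2.1.sign)) : ℝ))
    (fun i => |(fval i.2.2 i.2.1 A : ℝ)| / (|(i.2.2.1 : ℝ)| * A ^ 2)) (fun i hi => by
      have := abs_pos.mpr (hp i hi).1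
      have := abs_pos.mpr (hp i hi).2
      positivity) h0
  obtain ⟨h3, h4⟩ := h.ci.integral_line' h.N0 hA.ne' hχ hL
  have h5 := h3.re
  have h6 : EqOn (fun y : ℝ => (∑ k ∈ S, χ k * ps J c w G (vpt (k / A) y)) / y)
      (fun y : ℝ => RCLike.re ((∑ k ∈ S, χ k * G (k / A + y * Complex.I)) / y) -
        (∑ i ∈ T, (c i.1 * (χ i.2.1 * (w i.1 i.2.2 * i.2.2.1.sign)) : ℝ) * (1 - Real.sign (y ^ 2 -
          |(fval i.2.2 i.2.1 A : ℝ)| / (|(i.2.2.1 : ℝ)| * A ^ 2))) / 2) / y) (Ioi 0) :=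
    fun y hy => by
    simp only [RCLike.re_to_complex]
    rw [Complex.div_ofReal_re, ← sub_div, hT fun m k R => (c m * (χ k * (w m R * R.1.sign)) : ℝ) *
      (1 - Real.sign (y ^ 2 - |(fval R k A : ℝ)| / (|(R.1 : ℝ)| * A ^ 2))) / 2, Finset.sum_comm,
      Complex.re_sum, ← Finset.sum_sub_distrib]
    congr 1
    refine Finset.sum_congr rfl fun k hk => ?_
    rw [coe_vpt _ hy, cast_div, ps, ← Complex.ofReal_intCast (χ k), Complex.re_ofReal_mul, mul_sub,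
      Finset.mul_sum]
    congr 1
    refine Finset.sum_congr rfl fun m hm => ?_
    rw [hI m hm k hk y hy, Finset.mul_sum, Finset.mul_sum]
    exact Finset.sum_congr rfl fun R _ => by ring
  refine ⟨(integrableOn_congr_fun h6 measurableSet_Ioi).mpr (h5.sub h1), ?_⟩
  rw [setIntegral_congr_fun measurableSet_Ioi h6, integral_sub h5 h1, h2,
    integral_re h3, h4, RCLike.re_to_complex,
    Finset.sum_congr rfl (g := fun i => (c i.1 * (χ i.2.1 * (w i.1 i.2.2 * i.2.2.1.sign)) : ℝ) *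
      (Real.log |(fval i.2.2 i.2.1 A : ℝ)| - Real.log |(i.2.2.1 : ℝ)|) / 2 -
      (c i.1 * (χ i.2.1 * (w i.1 i.2.2 * i.2.2.1.sign)) : ℝ) * (Real.log (A ^ 2) / 2))
      fun i hi => ?_,
    Finset.sum_sub_distrib, ← Finset.sum_mul, h0, zero_mul, sub_zero,
    hT fun m k R => (c m * (χ k * (w m R * R.1.sign)) : ℝ) *
      (Real.log |(fval R k A : ℝ)| - Real.log |(R.1 : ℝ)|) / 2]
  · congr 1
    refine Finset.sum_congr rfl fun m hm => ?_
    rw [lgL, Finset.mul_sum]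
    refine Finset.sum_congr rfl fun k hk => ?_
    rw [finsum_eq_sum_of_support_subset (s := s m k) _ fun R hR => ?_, Finset.mul_sum,
      Finset.mul_sum]
    · refine Finset.sum_congr rfl fun R hR => ?_
      rw [if_pos ((hs m hm k hk R).mp hR).2]
      ring
    · rw [Function.mem_support, ne_eq, ite_eq_right_iff, Classical.not_imp] at hR
      exact (hs m hm k hk R).mpr ⟨fun h => hR.2 (by simp [h]), hR.1⟩
  · have h7 := abs_ne_zero.mpr (hp i hi).1
    have h8 := abs_ne_zero.mpr (hp i hi).2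
    rw [Real.log_div h7 (by positivity), Real.log_mul h8 (by positivity)]
    ring

/-- Vertical lines against geodesics. -/
theorem Gs.line7 (h : Gs N J c w e G) (hN : Squarefree N) {A : ℤ} (hA : 0 < A)
    {S : Finset ℤ} {χ : ℤ → ℤ} (hχ : ∑ k ∈ S, χ k = 0) (hcop : ∀ k ∈ S, IsCoprime k A)
    (hS : ∀ k ∈ S, ∀ m ∈ J, ∀ R, w m R ≠ 0 → fval R k A ≠ 0)
    (hL : ∑ k ∈ S, χ k * Ld G k A 1 = 0) :
    Tendsto (fun ε : ℝ => ∑ m ∈ J, (c m : ℝ) * ∑' t : ℕ,
      ((cntL A S χ (w m) t + cntL A S χ (w m) (-t) : ℤ) : ℝ) * kerK ε (t / (A * √(e m : ℝ))))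
      (𝓝[>] 0) (𝓝 ((deriv (fun s => ∑ k ∈ S, χ k * Ld G k A s) 1).re -
        ∑ m ∈ J, c m * lgL A S χ (w m))) := by
  have : NeZero N := ⟨h.N0⟩
  obtain ⟨h1, h2⟩ := h.integral_ps7 hN hA hχ
    (fun k hk => (hcop k hk).of_isCoprime_of_dvd_right (Int.gcd_dvd_left _ _)) hS hL
  have h3 := (tendsto_line7 h.tame hN hA hχ hcop).const_sub
    (∫ y in Ioi (0 : ℝ), (∑ k ∈ S, χ k * ps J c w G (vpt (k / A) y)) / y)
  rw [sub_zero] at h3
  rw [← h2]
  refine h3.congr' ?_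
  filter_upwards [self_mem_nhdsWithin] with ε hε
  have h4 := fun m (hm : m ∈ J) => (h.gw m hm).hasSum_lines hA χ (fun k hk => hS k hk m hm) hε
  have h5 := fun m (hm : m ∈ J) => (h4 m hm).1.const_mul (c m : ℝ)
  have h6 : ∀ y : ℝ, (∑ k ∈ S, χ k * avg ε (fun v => ps J c w G v) (vpt (k / A) y)) / y =
      (∑ k ∈ S, χ k * ps J c w G (vpt (k / A) y)) / y -
        ∑ m ∈ J, (c m : ℝ) * ∑ k ∈ S, χ k * (Df (w m) ε (vpt (k / A) y) / y) := fun y => by
    simp only [Finset.mul_sum]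
    rw [Finset.sum_comm, Finset.sum_div, Finset.sum_div, ← Finset.sum_sub_distrib]
    refine Finset.sum_congr rfl fun k _ => ?_
    rw [sub_eq_iff_eq_add'.mp (h.defect hε (vpt (k / A) y)), mul_add, add_div, Finset.mul_sum,
      Finset.sum_div, add_sub_assoc, ← Finset.sum_sub_distrib,
      Finset.sum_eq_zero fun m _ => by ring, add_zero]
  simp only [h6]
  rw [integral_sub h1 (integrable_finsetSum J h5), sub_sub_cancel, integral_finsetSum J h5]
  refine Finset.sum_congr rfl fun m hm => ?_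
  rw [integral_const_mul, (h4 m hm).2.tsum_eq]

end Pool.Agent.G5.GL

namespace Pool.Agent.G7

open Pool.Agent.Lib.MP_696deb_nt Pool.Agent.G5 Pool.Agent.B6.B7 Finset
open Pool.Agent.Lib.MP_696deb_nt.B3 (PChr)

/-- The values of a nontrivial character have sum zero. -/
theorem pchr_sum {M : ℕ} {χ : ℤ → ℤ} (h : PChr M χ) (h1 : 1 < M) :
    ∑ k ∈ Finset.Ico (0 : ℤ) M, χ k = 0 := by
  have : NeZero M := ⟨h.ne⟩
  have h2 := gsX_eq h 0
  rw [h.zero 0 (by rw [isCoprime_zero_left, Int.isUnit_iff]; omega), Int.cast_zero, Int.cast_zero,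
    zero_mul, gsX] at h2
  rw [Int.Ico_eq_finset_map, sum_map, ← Int.cast_inj (α := ℂ), Int.cast_sum, Int.cast_zero, ← h2]
  refine (sum_nbij' (fun j : ZMod M => j.val) (fun j : ℕ => (j : ZMod M)) (by
    simp [ZMod.val_lt]) (by simp) (by simp)
    (fun j hj => ZMod.val_cast_of_lt (by simpa using hj)) fun k _ => ?_).symm
  simp

/-- Sums over the support of a weight. -/
theorem sum_supp {V : Type} [Ring V] (S : Finset ℤ) (χ : ℤ → ℤ) (f : ℤ → V) :
    ∑ k ∈ S, (χ k : V) * f k = ∑ k ∈ S.filter (χ · ≠ 0), (χ k : V) * f k :=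
  (sum_filter_of_ne (p := (χ · ≠ 0)) fun k _ h e => h (by rw [e, Int.cast_zero, zero_mul])).symm

theorem gl_stmt : GLStmt := fun N c χ w e a G hN hχ h1 hw hG hi hL => by
  have h := GL.Gs.of_cmb hN.ne_zero (fun m hm => ⟨(hw m hm).2.1, (hw m hm).1,
    fun R hR => ((hw m hm).2.2 R hR).1⟩) hG hi
  obtain ⟨S, hS⟩ : ∃ S, S = (Finset.Ico (0 : ℤ) c).filter (χ · ≠ 0) := ⟨_, rfl⟩
  have k1 : ∀ v t, cX c χ v t = cntL c S χ v t + cntL c S χ v (-t) := fun v t =>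
    hS ▸ congrArg₂ _ (sum_supp _ χ _) (sum_supp _ χ _)
  have k2 : ∀ v, LgX c χ v = GL.lgL c S χ v := fun v => hS ▸ sum_supp _ χ _
  have k3 : LX G c χ = fun s => ∑ k ∈ S, (χ k : ℂ) * Ld G k c s := by
    rw [LX_eq_Ico, hS]
    exact funext fun s => sum_supp _ χ _
  simp only [k1, k2, k3] at hL ⊢
  subst hS
  exact h.line7 hN (A := c) (by exact_mod_cast one_pos.trans h1)
    ((sum_filter_of_ne fun _ _ h => h).trans (pchr_sum hχ h1))
    (fun k hk => hχ.cop (mem_filter.1 hk).2)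
    (fun k hk m hm R hR => ((hw m hm).2.2 R hR).2 k (mem_filter.1 hk).2) hL

end Pool.Agent.G7
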