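import Pool.Agent.Lib.MP_696deb_nt.B7.GZ7b
import Pool.Agent.Lib.MP_696deb_nt.B5.ZLa

/-! The formula of Gross and Zagier for an arbitrary twist at the level of a newform. -/

set_option autoImplicit false

open Finset Complex NumberTheorySymbols
open scoped Classical

namespace Pool.Agent.G7

open Pool.Agent.Lib.MP_696deb_nt Pool.Agent.B4.GE Pool.Agent.Shared.Weier
open Pool.Agent.Lib.MP_696deb_nt.B3 (kro pchr_kro)
open Pool.Agent.B6.B7 (LX LKr lvQ lvS rootNo LKr_diff)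
open Pool.Agent.G5 hiding Cx Yw Cw zs Ori CNStmt HWStmt LTStmt GLStmt LAStmt SWStmt NUStmt WPStmt
  HTStmt GZStmt LFStmt LRStmt LQStmt zs_congr zs_aff ker_eq arch_eq log_terms Parts exists_th
  gz_core tors_of_zs HTc GZc gz_c gz_of

variable {N r : ℕ} {d : ℤ}

theorem lvS_up (hN : N ≠ 0) (hr : r.Prime) (h : ¬ (r : ℤ) ∣ d) :
    lvS (N * r) d = insert r (lvS N d) := by
  ext p
  rw [mem_insert, B6.B7.mem_lvS (mul_ne_zero hN hr.ne_zero), B6.B7.mem_lvS hN]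
  refine ⟨fun ⟨h1, h2, h3⟩ => (h1.dvd_mul.1 h2).symm.imp
    (Nat.prime_dvd_prime_iff_eq h1 hr).1 fun k => ⟨h1, k, h3⟩, ?_⟩
  rintro (rfl | ⟨h1, h2, h3⟩)
  exacts [⟨hr, dvd_mul_left _ _, h⟩, ⟨h1, h2.mul_right _, h3⟩]

theorem lvQ_up (hN : N ≠ 0) (hr : r.Prime) (h : ¬ (r : ℤ) ∣ d) (k : ¬ r ∣ N) :
    lvQ (N * r) d = lvQ N d * r := by
  rw [lvQ, lvS_up hN hr h, prod_insert fun e => k ((B6.B7.mem_lvS hN).1 e).2.1, mul_comm, lvQ]

/-- The formula of Gross and Zagier. -/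
theorem gz_of (H₅ : G5.Parts) (H : Parts) (ht : HTStmt) (lr : LRStmt) (lq : LQStmt) : GZStmt := by
  intro W _ N D hW h hi n f a b ρ T h1 h3 hm a4 fs fn spl A1 B1 hJ hρ hT hy
  have sq : ∀ {e : ℤ}, e ∣ n → Squarefree (f * e) := fun he =>
    squarefree_mul_iff.2 ⟨(fn.of_isCoprime_of_dvd_right he).isRelPrime, fs,
      (Int.squarefree_natCast.2 h1.sqf).squarefree_of_dvd he⟩
  have ad : a ∣ n := ⟨-b, by linear_combination hm⟩
  have bd : b ∣ n := ⟨-a, by linear_combination hm⟩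
  have b4 : b % 4 = 1 := by
    have k1 := congrArg (· % 4) hm
    have k2 := h1.mod4
    simp only [Int.mul_emod a, a4, one_mul, Int.emod_emod] at k1
    omega
  obtain ⟨r, k, hr, e⟩ := Nat.forall_exists_prime_gt_and_modEq (N + f.natAbs)
    (q := 4 * n * (cnd (f * a) * cnd (f * b))) (a := 1) (mul_ne_zero (mul_ne_zero four_ne_zero
      h1.sqf.ne_zero) (mul_ne_zero (cnd_ne (sq ad)) (cnd_ne (sq bd)))) (Nat.coprime_one_left _)
  have rN : ¬ r ∣ N := fun d => (Nat.le_of_dvd h1.N0.bot_lt d).not_gt (by omega)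
  have rf : ¬ (r : ℤ) ∣ f := fun d => (Nat.le_of_dvd (Int.natAbs_pos.2 fs.ne_zero)
    (Int.natCast_dvd.1 d)).not_gt (by omega)
  have c0 : ∀ {x : ℕ}, x ∣ 4 * n * (cnd (f * a) * cnd (f * b)) → r.Coprime x := fun d => by
    rw [Nat.Coprime, (e.of_dvd d).gcd_eq, Nat.gcd_one_left]
  have j : ∀ {x : ℤ}, Squarefree x → cnd x ∣ cnd (f * a) * cnd (f * b) → kro x r = 1 :=
    fun s d => ((pchr_kro s).per _ 1 (by
      exact_mod_cast (Nat.modEq_iff_dvd.1 (e.of_dvd (d.mul_left _)).symm))).trans (pchr_kro s).one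
  have jA := j (sq ad) (dvd_mul_right _ _)
  have jB := j (sq bd) (dvd_mul_left _ _)
  have rn : r.Coprime n := c0 ((dvd_mul_left _ _).mul_right _)
  have ro : Odd r := Nat.coprime_two_right.1 (c0 ⟨2 * n * (cnd (f * a) * cnd (f * b)), by ring⟩)
  have cN := (Nat.Prime.coprime_iff_not_dvd hr).2 rN
  have g3 : Good (N * r) n := ⟨h1.sqf, h1.mod4, h1.cop.mul_right rn.symm,
    (Nat.squarefree_mul cN.symm).2 ⟨h1.lsq, hr.squarefree⟩, h1.lodd.mul ro,
    one_lt_mul'' h1.l1 hr.one_lt⟩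
  have := Fact.mk hr
  obtain ⟨x, hx⟩ : IsSquare ((-n : ℤ) : ZMod r) := ZMod.isSquare_of_jacobiSym_eq_one (by
    rw [jac_neg_swap h1.mod4 ro, jacobiSym.mod_left' (Int.natCast_modEq_iff.2
      (e.of_dvd ((dvd_mul_left _ _).mul_right _))), Nat.cast_one, jacobiSym.one_left])
  have c4 : IsCoprime (4 * N : ℤ) r := by
    exact_mod_cast Nat.isCoprime_iff_coprime.2 (((Nat.coprime_two_left.2 ro).pow_left 2).mul_left
      cN.symm)
  obtain ⟨ρ₁, k1, k2⟩ := exists_crt c4 ρ x.val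
  have k3 : 4 * ((N * r : ℕ) : ℤ) ∣ ρ₁ ^ 2 + n := by
    rw [Nat.cast_mul N, ← mul_assoc]
    refine c4.mul_dvd (by convert dvd_add (k1.mul_right (ρ₁ + ρ)) hρ using 1; ring) ?_
    rw [← ZMod.intCast_zmod_eq_zero_iff_dvd] at k2 ⊢
    push_cast [ZMod.natCast_zmod_val] at k2 hx ⊢
    linear_combination (ρ₁ + x) * k2 - hx
  have k4 : 2 * (N : ℤ) ∣ ρ₁ - ρ := Dvd.dvd.trans ⟨2, by ring⟩ k1
  obtain ⟨ρ', k5, k6⟩ := exists_crt (Nat.isCoprime_iff_coprime.2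
    ((Nat.coprime_two_right.2 ro).mul_right cN)) (-ρ₁) ρ₁
  obtain ⟨u, v, k7⟩ := Nat.isCoprime_iff_coprime.2 (show b.natAbs.Coprime (2 * (N * r)) from
    ((Nat.coprime_two_right.2 h1.odd).mul_right g3.cop).coprime_dvd_left (Int.dvd_natCast.1 bd))
  have bN : IsCoprime b N := (Nat.isCoprime_iff_coprime.2 h1.cop).of_isCoprime_of_dvd_left bd
  have fr : IsCoprime f (r * n) :=
    ((Nat.prime_iff_prime_int.1 hr).coprime_iff_not_dvd.2 rf).symm.mul_right fn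
  have q0 := lvQ_up h1.N0 hr rf rN
  rw [B6.B7.rootNo_eq h1.lodd (sq bd), B6.B7.lvS_mul bN, B6.B7.lvQ_mul bN] at hJ
  let X : Dat := ⟨N * r, r, n, f, a, b, ρ₁, ρ', -(u * (ρ₁ * ρ')), ∏ p ∈ lvS N f, -D.c p⟩
  have c : X.Ok := ⟨g3, hr, dvd_mul_left r N, fun e => h1.l1.ne' (by simpa [X, hr.ne_zero] using e),
    h3, hm, a4, fs, fr, spl, A1, B1, Int.eq_one_or_neg_one_of_mul_eq_one (v := kro (f * b)
      (-lvQ N f)) (by linear_combination -hJ), by
      show kro (f * b) (-(lvQ (N * r) f : ℕ)) * ∏ p ∈ lvS N f, -D.c p = 1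
      rw [q0, Nat.cast_mul, ← neg_mul, (pchr_kro (sq bd)).mul, jB]
      linear_combination -hJ, k3, by simpa using k5, by
      simpa [X, Nat.mul_div_cancel _ hr.pos] using k6, v * (ρ₁ * ρ'), by
      push_cast at k7
      simp only [X]
      push_cast
      linear_combination -(ρ₁ * ρ') * k7⟩
  have gg : X.g = N.gcd f.natAbs := Nat.Coprime.gcd_mul_right_cancel _
    (hr.coprime_iff_not_dvd.2 fun k => rf (Int.natCast_dvd.2 k))
  obtain ⟨P, e1, e2, e3, e4⟩ := lr W N r D h1.lsq h hr rN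
  have cp := (e4 _ (Nat.gcd_dvd_left N f.natAbs)).1
  obtain ⟨y, y1, y2⟩ := (e4 _ (B6.B7.lvQ_dvd (d := f))).2
  rw [B6.B7.lvQ_pf, ← q0] at y2
  obtain ⟨T', hT'⟩ := exists_freps h1.N0 c.neg (-ρ * cnd f)
  obtain ⟨S, S', hS⟩ := c.exists_rep ρ₁
  obtain ⟨q1, q2⟩ := lq.1 N r n f b ρ ρ₁ T S g3 hr h3 fs fr bd b4 k3 k4 hT hS.fst _ _ D.par.inv0
  obtain ⟨q3, q4⟩ := lq.1 N r n f b (-ρ) (-ρ₁) T' S' g3 hr h3 fs fr bd b4 (by rwa [neg_sq])
    (by rwa [neg_sub_neg, ← dvd_neg, neg_sub]) hT' (neg_mul ρ₁ _ ▸ hS.snd) _ _ D.par.inv0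
  have w : P.per.unif = D.par.per.unif := by
    have : ∀ (L : PeriodPair) (k : IsPer L (W.baseChange ℂ)), L = D.L → k.unif = D.per.unif := by
      rintro _ _ rfl
      rfl
    exact this _ _ e1
  have l : ∀ x : ℤ, Squarefree x → cnd x ∣ cnd (f * a) * cnd (f * b) →
      LKr P.F x = (fun s => (1 + (r : ℂ) ^ (1 - s)) * LKr D.par.F x s) ∧
      LKr (fun z => D.par.F z - D.par.F (r * z)) x =
        fun s => (1 - (r : ℂ) ^ (1 - s)) * LKr D.par.F x s := fun x hx d => by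
    have l2 := LKr_lin (G := D.par.F) (κ := 1 / 2) (κ₂ := 1 / 2) (y := 0) g3.N0 hx (par_ci P) cp.ci
      fun z _ => by rw [e3]; ring
    have l3 := LKr_lin (G := fun z => D.par.F (r * z)) (κ := 1 / 2) (κ₂ := -1 / 2) (y := 0) g3.N0 hx
      (par_ci P) cp.ci fun z _ => by rw [e3]; ring
    have l4 : ∀ s, LKr (fun z => D.par.F (r * z)) x s = kro x r * (r : ℂ) ^ (1 - s) *
        LKr D.par.F x s := lq.2 N r _ _ _ h1.N0 hr.ne_zero (pchr_kro hx) (c0 (d.mul_left _))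
      (par_ci D.par)
    simp only [j hx d, Int.cast_one, one_mul] at l4
    constructor <;> funext s
    · linear_combination -l2 s - l3 s + l4 s
    · linear_combination -l2 s + l3 s - l4 s
  obtain ⟨l1, l2⟩ := l _ (sq ad) (dvd_mul_right _ _)
  obtain ⟨l3, l4⟩ := l _ (sq bd) (dvd_mul_left _ _)
  have a3 : LKr D.par.F (f * b) 1 = 0 := B6.B7.LKr_zero h h1.lsq h1.lodd (sq bd) (by
    rwa [B6.B7.rootNo_eq h1.lodd (sq bd), B6.B7.lvS_mul bN, B6.B7.lvQ_mul bN])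
  have d1 := (LKr_diff (par_ci D.par) h1.N0 (sq bd) 1).hasDerivAt
  have d2 := ((hasDerivAt_id' (1 : ℂ)).const_sub 1).const_cpow (c := (r : ℂ))
    (.inl (by exact_mod_cast hr.ne_zero))
  simp only [yD, Par.φ, jB, one_smul] at q1 q2 q3 q4
  obtain ⟨g1, g2⟩ := gz_c (X := X) (P := P) H₅ H ht hW c hS (gg ▸ cp) y1 y2
    (by simp [X, l2]) (by simp [X, l4])
    (by simp only [X]; rw [l4, ((d2.const_sub 1).fun_mul d1).deriv]; simp [a3]) (by
      rw [c.zs_eq hS]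
      simp only [X, yD, w, map_sub, zsmul_sub, sum_sub_distrib, q1, q2, q3, q4]
      simp) (fun M => e2 ▸ hi _ M h1.sqf h1.mod4) fun k => hy (by
      simp only [X, yD, Par.φ, w, e3, map_add, zsmul_add, sum_add_distrib, q1, q2,
        ← two_nsmul] at k
      exact k.of_nsmul two_ne_zero)
  refine ⟨fun k => g1 (by simp [X, l1, k]), a3, fun k => g2 ?_⟩
  simp only [X]
  rw [l3, ((d2.const_add 1).fun_mul d1).deriv]
  simp [a3, k]

end Pool.Agent.G7
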