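import Pool.Agent.Lib.MP_696deb_nt.B6.CMa

/-! Complex Heegner points whose conductor need not be prime to the level. -/

set_option autoImplicit false

open scoped Classical NumberTheorySymbols ComplexConjugate

namespace Pool.Agent.B6.B7.Dn

open Pool.Agent.Lib.MP_696deb_nt Pool.Agent.Lib.MP_696deb_nt.B2 Pool.Agent.Lib.MP_696deb_nt.B2.CM
open Pool.Agent.B4 (OkN HgN GEq exists_mob im_hk ok_neg im_mul_pos be_froot idl_froot)
open Pool.Agent.Lib.MP_696deb_nt.B3.CM (St fs sum_nb nb_isIv_of nb_hk not_st_inert mid_idl st_idl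
  st_of_isIv exists_up prim_root Inert sum_bad)
open Pool.Agent.B6.CM (act_rP)

variable {W : WeierstrassCurve ℚ} {N M n c d l : ℕ} {r b k : ℤ} {τ τ' : ℂ} {Q : Fm}

/-- The standing hypotheses. -/
structure OkD (N n c : ℕ) (r : ℤ) : Prop extends Ok n c where
  root : 4 * (N : ℤ) ∣ r ^ 2 + n
  cop : n.Coprime N

theorem OkD.of_ne (ok : OkD N n c r) (h : d ≠ 0) : OkD N n d r :=
  ⟨⟨ok.m4, ok.gt, h⟩, ok.root, ok.cop⟩

theorem OkD.of_dvd (ok : OkD N n d r) (h : c ∣ d) : OkD N n c r :=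
  ok.of_ne (ne_zero_of_dvd_ne_zero ok.ne h)

theorem OkD.of_mul (ok : OkD N n (c * l) r) : OkD N n c r := ok.of_dvd (dvd_mul_right _ _)

theorem OkD.lev (ok : OkD N n c r) (h : M ∣ N) : OkD M n c r :=
  ⟨ok.toOk, (mul_dvd_mul_left 4 (Int.natCast_dvd_natCast.2 h)).trans ok.root,
    ok.cop.coprime_dvd_right h⟩

theorem OkD.okN (ok : OkD N n c r) (h : c.Coprime N) : OkN N n c r :=
  ⟨ok.toOk, ok.root, ok.cop.mul_left h⟩

theorem OkD.N_ne (ok : OkD N n c r) : N ≠ 0 :=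
  ((ok.of_ne one_ne_zero).okN (Nat.coprime_one_left N)).N_ne

theorem OkD.eq (ok : OkD N n c r) : ∃ k : ℤ, (r * c) ^ 2 + n * c ^ 2 = 4 * N * k := by
  obtain ⟨k, hk⟩ := ok.root
  exact ⟨k * c ^ 2, by linear_combination c ^ 2 * hk⟩

theorem OkD.be_mem (ok : OkD N n c r) : be n c (r * c) ∈ Oc n c := by
  obtain ⟨k, hk⟩ := ok.eq
  exact CM.be_mem ok.m4 (two_dvd_sub ok.m4 (hk.trans (mul_assoc _ _ _)))

theorem hg_lev (h : HgN N n c r τ) (hM : M ∣ N) : HgN M n c r τ := by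
  obtain ⟨t, rfl⟩ := hM
  have k : sp2 ((M * t : ℕ) * τ) 1 ≤ sp2 (M * τ) 1 :=
    sp2_le.2 ⟨mem_sp2.2 ⟨t, 0, by push_cast; ring⟩, right_mem_sp2 _ _⟩
  exact ⟨h.pos, h.iv, k h.one, k h.tau⟩

/-- The matrix of the generator of the order. -/
theorem hg_mat (ok : OkD N n c r) (h : HgN N n c r τ) : ∃ x y u v : ℤ,
    be n c (r * c) = x * (N * τ) + y ∧ be n c (r * c) * τ = u * (N * τ) + v ∧
      u * N + y = r * c ∧ ∃ s t w : ℤ, s * N + t * y + w * v = 1 := by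
  obtain ⟨k, hk⟩ := ok.eq
  obtain ⟨x, y, e1⟩ := cmd_mem h.one
  obtain ⟨u, v, e2⟩ := cmd_mem h.tau
  have n0 : 0 < n := by have := ok.gt; omega
  have h0 : 0 < x * N := by
    have k1 := congrArg Complex.im e1
    have k2 := mul_pos (Nat.cast_pos (α := ℝ).2 (Nat.pos_of_ne_zero ok.ne)) (dl_im n0)
    simp only [be, Complex.div_ofNat_im, Complex.add_im, Complex.intCast_im, Complex.mul_im,
      Complex.natCast_re, Complex.natCast_im, Complex.intCast_re, zero_mul, add_zero,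
      zero_add] at k1
    have k3 : 0 < (x * N : ℝ) * τ.im := by linarith
    exact_mod_cast (mul_pos_iff_of_pos_right h.pos).1 k3
  obtain ⟨h1, h2⟩ := tau_indep h.pos.ne' (x := x * N * (u * N + y - r * c))
    (y := x * N * v + y ^ 2 - r * c * y + N * k) (by
      have := be_sq (N := N * k) (hk.trans (mul_assoc _ _ _))
      push_cast at this ⊢
      linear_combination this - x * N * e2 - (be n c (r * c) + y - r * c) * e1)
  replace h1 := (mul_eq_zero.1 h1).resolve_left h0.ne'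
  obtain ⟨s, t, w, e⟩ := prim_root (A := x * N) (B := y - u * N) (C := -v) ok.toOk
    (by linear_combination hk + 4 * h2 + (u * N - 3 * y + r * c) * h1) h0 h.pos
    (by push_cast; linear_combination e2 - τ * e1) one_ne_zero (by rw [sc_one]; exact h.iv)
  exact ⟨x, y, u, v, e1, e2, by linear_combination h1, s * x - t * u, t, -w,
    by linear_combination e⟩

theorem hg_mul (ok : OkD N n c r) (h : HgN N n c r τ) :
    idl n c N (r * c) * sp2 τ 1 = sp2 (N * τ) 1 := by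
  rw [idl]
  refine le_antisymm (sp2_mul_le.2 ⟨by simpa using left_mem_sp2 _ _,
    mem_sp2.2 ⟨0, N, by simp⟩, h.tau, by simpa using h.one⟩) ?_
  obtain ⟨m1, m2, m3, m4⟩ :=
    (sp2_mul_le (a := (N : ℤ)) (b := be n c (r * c)) (c := τ) (d := 1)).1 le_rfl
  obtain ⟨x, y, u, v, e1, e2, -, s, t, w, e⟩ := hg_mat ok h
  replace e := congrArg (Int.cast : ℤ → ℂ) e
  refine sp2_le.2 ⟨by simpa using m1, ?_⟩
  have h3 := add_mem (add_mem (int_mul_mem m2 s) (int_mul_mem (sub_mem m4 (int_mul_mem m1 x)) t))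
    (int_mul_mem (sub_mem m3 (int_mul_mem m1 u)) w)
  rwa [show (s : ℂ) * ((N : ℤ) * 1) + t * (be n c (r * c) * 1 - x * ((N : ℤ) * τ)) +
      w * (be n c (r * c) * τ - u * ((N : ℤ) * τ)) = 1 by
    push_cast at e ⊢
    linear_combination e + t * e1 + w * e2] at h3

theorem hg_geq (ok : OkD N n c r) (h : HgN N n c r τ) (h' : HgN N n c r τ')
    (e : cl (Oc n c) (sp2 τ 1) = cl _ (sp2 τ' 1)) : GEq N τ' τ := by
  obtain ⟨a, ha, e⟩ := (cl_eq_iff h.iv h'.iv).1 e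
  obtain ⟨x, y, z, w, h1, h2, h3⟩ := exists_mob h.pos h'.pos ha e
  have h4 : a * 1 ∈ sp2 (N * τ') 1 := by
    rw [← hg_mul ok h', e, mul_sc, hg_mul ok h, mul_mem_sc ha]
    exact right_mem_sp2 _ _
  obtain ⟨u, v, h5⟩ := cmd_mem h4
  have h6 : z = N * u := (cmd_ext h'.pos.ne' (y := w) (y' := v) (by
    push_cast; linear_combination h5 - h2)).1
  exact ⟨!![x, y; z, w], by simpa using h1, ⟨u, h6⟩, by rw [act_of, ← h3]⟩

theorem hg_form (ok : Ok n c) (hD : fdisc Q = -(n * c ^ 2)) (h : 0 < Q.1) (h1 : (N : ℤ) ∣ Q.1)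
    (h2 : 2 * (N : ℤ) ∣ Q.2.1 - r * c) (hI : IsIv (Oc n c) (sp2 (froot Q) 1)) :
    HgN N n c r (froot Q) := by
  obtain ⟨a, ha⟩ := h1
  obtain ⟨k, hk⟩ := h2
  have h3 := froot_root (hD ▸ ok_neg ok) h
  have h4 : be n c (r * c) = a * (N * froot Q) + (r * c + N * k : ℤ) := by
    have := cmc_be_add n c (-Q.2.1) (r * c + N * k)
    rw [show -Q.2.1 + 2 * (r * c + N * k) = r * c by linear_combination -hk, be_froot hD h,
      ha] at this
    rw [this]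
    push_cast
    ring
  refine ⟨im_froot_pos (hD ▸ ok_neg ok) h, hI, mem_sp2.2 ⟨a, _, by rw [mul_one]; exact h4⟩,
    mem_sp2.2 ⟨-k, -Q.2.2, ?_⟩⟩
  have hk' := congrArg (Int.cast : ℤ → ℂ) hk
  rw [h4]
  rw [ha] at h3
  push_cast at h3 hk' ⊢
  linear_combination h3 - froot Q * hk'

/-- Every class contains a Heegner form. -/
theorem exists_hform (ok : OkD N n c r) (x : Pc n c) : ∃ Q : Fm, fdisc Q = -(n * c ^ 2) ∧ 0 < Q.1 ∧
    (N : ℤ) ∣ Q.1 ∧ 2 * (N : ℤ) ∣ Q.2.1 - r * c ∧ IsIv (Oc n c) (sp2 (froot Q) 1) ∧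
    cl _ (sp2 (froot Q) 1) = x := by
  have N0 : (N : ℤ) ≠ 0 := by exact_mod_cast ok.N_ne
  obtain ⟨a, b, k, h1, h2, h3, h4, rfl⟩ := exists_idl_coprime ok.toOk x N0
  obtain ⟨j, hj⟩ := ok.eq
  obtain ⟨s, hs⟩ : 2 ∣ b - r * c := by
    have := two_dvd_sub ok.m4 (h2.trans (mul_assoc _ _ _))
    have := two_dvd_sub ok.m4 (hj.trans (mul_assoc _ _ _))
    omega
  obtain ⟨u, v, e⟩ := h3
  obtain ⟨B, e1, e2⟩ : ∃ B : ℤ, B = r * c + 2 * N * (v * s) ∧ B = b - 2 * a * (u * s) :=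
    ⟨_, rfl, by linear_combination -hs + 2 * s * e⟩
  have e3 : B ^ 2 + n * c ^ 2 = 4 * (N * (j + r * c * v * s + N * (v * s) ^ 2)) := by
    rw [e1]; linear_combination hj
  have e4 : B ^ 2 + n * c ^ 2 = 4 * (a * (k - b * u * s + a * (u * s) ^ 2)) := by
    rw [e2]; linear_combination h2
  obtain ⟨C, hC⟩ : (a : ℤ) ∣ j + r * c * v * s + N * (v * s) ^ 2 :=
    IsCoprime.dvd_of_dvd_mul_left ⟨u, v, e⟩ ⟨k - b * u * s + a * (u * s) ^ 2, by linarith⟩
  have e5 : B ^ 2 + n * c ^ 2 = 4 * a * (N * C) := by rw [e3, hC]; ring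
  have h6 : fdisc (N * C, B, a) = -(n * c ^ 2) := by simp only [fdisc]; linear_combination e5
  have a0 : (0 : ℤ) < a := by omega
  have h7 : (0 : ℤ) < N * C := by
    have := ok_neg ok.toOk
    have k : 0 < 4 * a * (N * C) := by nlinarith [sq_nonneg B]
    exact (mul_pos_iff_of_pos_left (by omega)).1 k
  have h8 := idl_froot h6 h7
  obtain ⟨s', t', e'⟩ := h4
  have h9 : ((N * C : ℤ) : ℂ) ≠ 0 := by exact_mod_cast h7.ne'
  have i3 := (h8 ▸ isIv_idl ok.m4 (m := N * C) (b := -B) (k := a) (by linear_combination e5) h7.ne'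
    ⟨0, -t', s' + 2 * t' * u * s, by rw [e2]; linear_combination e'⟩).sc (inv_ne_zero h9)
  rw [sc_inv_sc h9] at i3
  refine ⟨_, h6, h7, dvd_mul_right _ _, ⟨v * s, by rw [e1]; ring⟩, i3, ?_⟩
  rw [← cl_sc i3 h9, ← h8, cmb_swap ok.m4 e5 a0.ne' h7.ne'
    ⟨s' + 2 * t' * u * s, t', 0, by rw [e2]; linear_combination e'⟩,
    idl_congr (b' := b) ⟨-(u * s), by rw [e2]; ring⟩]

theorem exists_hg (ok : OkD N n c r) (x : Pc n c) : ∃ τ, HgN N n c r τ ∧ cl _ (sp2 τ 1) = x := by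
  obtain ⟨Q, h1, h2, h3, h4, h5, h6⟩ := exists_hform ok x
  exact ⟨_, hg_form ok.toOk h1 h2 h3 h4 h5, h6⟩

/-- The second invariant is a singular modulus of lower conductor. -/
theorem exists_nu (ok : OkD N n c r) : ∃ (d : ℕ) (ν : Pc n d), d ∣ c ∧ ∀ τ, HgN N n c r τ →
    jP n d (ν * pj n d c (cl _ (sp2 τ 1))) = jf (N * τ) := by
  obtain ⟨g, d, M, g0, h1, rfl, rfl⟩ := Nat.exists_coprime' (Nat.gcd_pos_of_pos_left N
    (Nat.pos_of_ne_zero ok.ne))
  have ok1 := (ok.of_mul.lev (dvd_mul_right M g)).okN h1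
  have g1 : (g : ℂ) ≠ 0 := by exact_mod_cast g0.ne'
  refine ⟨d, cl _ (idl n d M (r * d)), dvd_mul_right _ _, fun τ h => ?_⟩
  have i := h.iv.ext (Oc_le n (dvd_mul_right d g))
  have e : idl n (d * g) (M * g : ℕ) (r * (d * g : ℕ)) = sc g (idl n d M (r * d)) := by
    rw [idl, idl, sc_sp2, ← be_mul, Nat.cast_mul, Nat.cast_mul, mul_assoc, Int.cast_mul, mul_comm]
    rfl
  rw [pj_cl (dvd_mul_right _ _) h.iv, ← cl_mul ok1.isIv i, jP_cl ok1.toOk (ok1.isIv.mul i),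
    ← jL_sc ((ok1.isIv.mul i).isLat ok1.toOk) g1, mul_comm (sp2 τ 1), ← mul_assoc, ok1.isIv.1,
    ← sc_mul, ← e, hg_mul ok h, jL_tau (im_mul_pos ok.N_ne h.pos)]

end Pool.Agent.B6.B7.Dn
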