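import Pool.Agent.Lib.MP_696deb_nt.B5.GAb
import Pool.Agent.Lib.MP_696deb_nt.B3.CMk
import Pool.Agent.Lib.MP_696deb_nt.B7.CMa
import Pool.Agent.Lib.MP_696deb_nt.B7.Z0

/-! The genus character of a conjugate form. -/

set_option autoImplicit false

open scoped Classical NumberTheorySymbols

namespace Pool.Agent.G7

open Pool.Agent.Lib.MP_696deb_nt Pool.Agent.Lib.MP_696deb_nt.B2 Pool.Agent.B4 Pool.Agent.B4.GE
  Pool.Agent.Lib.MP_696deb_nt.B2.CM
open Pool.Agent.Lib.MP_696deb_nt.B3 (kro chi2 odp cond2 pchr_chi2 pchr_kro odp_odd odp_sqf)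
open Pool.Agent.Lib.MP_696deb_nt.B3.CM (Kc kc_one kc_four kc_eight kc_eight' prim_root)
open Pool.Agent.B6.B7.Dn (OkD)
open Pool.Agent.G5 (fsm fdisc_sm froot_sm gch_sm exists_prim exists_gam ex_sqrt)

variable {N n c : ℕ} {d r : ℤ} {σ : ℂ ≃+* ℂ} {g : Gam} {Q : Fm}

/-- The discriminant of the component at two. -/
def e2 (d : ℤ) : ℤ :=
  if d % 4 = 1 then 1 else if d % 4 = 3 then -4 else if d % 8 = 2 then 8 else -8

theorem kc_e2 (hc : cond2 d ∣ c) : Kc n c (e2 d) (chi2 d) := by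
  unfold cond2 at hc
  unfold e2 chi2
  split_ifs at hc ⊢
  exacts [kc_one n c, kc_four hc, kc_eight hc, kc_eight' hc]

/-- The character of the Galois group that belongs to `d`. -/
noncomputable def xi (d : ℤ) (g : Gam) : ℤˣ :=
  chi (e2 d) g * ∏ p ∈ (odp d).primeFactors, chi (pst p) g

theorem xi_mul (d : ℤ) (g h : Gam) : xi d (g * h) = xi d g * xi d h := by
  simp only [xi, map_mul, Finset.prod_mul_distrib]
  exact mul_mul_mul_comm _ _ _ _

theorem xi_form (ok : Ok n c) (hd : Squarefree d) (h2 : cond2 d ∣ c) (ho : odp d ∣ n * c)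
    (hg : g ∈ GK n) (hD : fdisc Q = -(n * c ^ 2)) (h : 0 < Q.1)
    (hI : IsIv (Oc n c) (sp2 (froot Q) 1)) (e : rho n c g = cl _ (sp2 (froot Q) 1)) :
    (xi d g : ℤ) = gD d Q := by
  rw [xi, gD, Units.val_mul, Units.coe_prod, gch_eq]
  congr 1
  · by_cases h1 : d % 4 = 1
    · rw [e2, chi2, if_pos h1, if_pos h1, show chi 1 g = 1 by simpa using chi_sq 1 g,
        Units.val_one]
    have k := kc_e2 (n := n) h2
    obtain ⟨θ, hθ⟩ := k.exists_th ok
    have e1 : Q.2.1 ^ 2 + n * c ^ 2 = 4 * Q.1 * Q.2.2 := by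
      rw [fdisc] at hD
      linear_combination hD
    have c2 : 2 ∣ c := by
      unfold cond2 at h2
      split_ifs at h2 <;> omega
    rw [← hθ g hg, e, ← cl_sc hI (a := Q.1) (by exact_mod_cast h.ne'), ← idl_froot hD h]
    refine k.th_form ok hθ e1 h (prim_root ok e1 h (im_froot_pos (hD ▸ ok_neg ok) h)
      (froot_root (hD ▸ ok_neg ok) h) one_ne_zero (by rwa [sc_one])) Nat.prime_two
      ((Int.natCast_dvd_natCast.2 c2).mul_left _) fun v hv =>
      ((Int.prime_two.coprime_iff_not_dvd.2 hv).symm.pow_right (n := 3)).of_isCoprime_of_dvd_right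
        ?_
    unfold e2
    split_ifs <;> decide
  · refine Finset.prod_congr rfl fun p hp => ?_
    have p1 := Nat.prime_of_mem_primeFactors hp
    have p2 := Nat.dvd_of_mem_primeFactors hp
    refine chi_form ok hg p1 ?_ (p2.trans ho) hD h hI e
    rintro rfl
    exact (odp_odd hd).not_two_dvd_nat p2

/-- The conjugate of a primitive form. -/
theorem ga_prim (ok : OkD N n c r) (hσ : Ex g σ) (hd : Squarefree d) (h2 : cond2 d ∣ c)
    (ho : odp d ∣ n * c) (hD : fdisc Q = -(n * c ^ 2)) (h0 : 0 < Q.1)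
    (hI : IsIv (Oc n c) (sp2 (froot Q) 1)) : ∃ R,
    G5.Fam N (-(n * c ^ 2)) ((if g ∈ GK n then 1 else -1) * r * c) R ∧ 0 < R.1 ∧
      jf (froot R) = σ (jf (froot Q)) ∧
      gD d R = xi d (if g ∈ GK n then g else g * cc) * gD d Q := by
  have hc : cc ∉ GK n := cc_notMem (by have := ok.gt; omega)
  obtain ⟨h, hh, e⟩ := rho_surj ok.toOk (cl _ (sp2 (froot Q) 1))
  obtain ⟨ok', t, ht, e1, e3⟩ : OkD N n c ((if g ∈ GK n then 1 else -1) * r) ∧ ∃ t ∈ GK n,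
      g (jQ n c (rho n c h)) = jQ n c (rho n c t) ∧
      xi d t = xi d (if g ∈ GK n then g else g * cc) * xi d h := by
    split_ifs with hg
    · exact ⟨by rwa [one_mul], g * h, mul_mem hg hh,
        by rw [smul_jQ ok.toOk hg, rho_mul ok.toOk hg], xi_mul _ _ _⟩
    · exact ⟨⟨ok.toOk, by rw [neg_one_mul, neg_sq]; exact ok.root, ok.cop⟩, g * (h * cc),
        mul_mem_GK hg fun k => hc ((mul_mem_cancel_left hh).1 k),
        by rw [smul_jQ' ok.toOk hg, rho_mul' ok.toOk hg, rho_mul ok.toOk hh, rho_cc ok.toOk,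
          mul_one], by simp only [xi_mul, mul_assoc, mul_comm (xi d h)]⟩
  obtain ⟨R, r1, r2, r3, r4, r5, r6⟩ := B6.B7.Dn.exists_hform ok' (rho n c t)
  refine ⟨R, ⟨r3, r1, r4⟩, r2, ?_, ?_⟩
  · rw [← jL_tau (im_froot_pos (r1 ▸ ok_neg ok.toOk) r2),
      ← jL_tau (im_froot_pos (hD ▸ ok_neg ok.toOk) h0), ← jP_cl ok.toOk r5, ← jP_cl ok.toOk hI,
      ← jC_jQ ok.toOk, ← jC_jQ ok.toOk, hσ, ← e, e1, r6]
  · rw [← xi_form ok.toOk hd h2 ho ht r1 r2 r5 r6.symm, ← xi_form ok.toOk hd h2 ho hh hD h0 hI e,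
      e3, Units.val_mul]

theorem gD_fsm (hd : Squarefree d) (k : ℤ) (Q : Fm) : gD d (fsm k Q) = kro d k * gD d Q := by
  rw [gD, gD, gch_sm, kro, jac_eq_prod _ (odp_sqf hd), mul_mul_mul_comm]
  congr 1
  change chi2 d (if 2 ∣ k * Q.1 then k * Q.2.2 else k * Q.1) = _
  by_cases h : 2 ∣ k
  · rw [if_pos (h.mul_right _), (pchr_chi2 d).mul]
    by_cases h1 : d % 4 = 1
    · simp only [chi2, if_pos h1]
    · rw [(pchr_chi2 d).zero k fun e => absurd (e.isUnit_of_dvd' h (by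
        unfold cond2
        split_ifs <;> decide)) (by decide), zero_mul, zero_mul]
  · rw [← (pchr_chi2 d).mul, mul_ite]
    exact congrArg _ (if_congr (Int.prime_two.dvd_mul.trans (or_iff_right h)) rfl rfl)

/-- The conjugate of a form on which the genus character does not vanish. -/
theorem ga_form (hn : Squarefree n) (h4 : n % 4 = 3) (h3 : 3 < n) (hc : n.Coprime N)
    (hd : Squarefree d) (σ : ℂ ≃+* ℂ) : ∃ e s : ℤ, (e = 1 ∨ e = -1) ∧ (s = 1 ∨ s = -1) ∧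
    (∀ (m : ℕ) (x : ℂ), x ^ 2 = -(n * m ^ 2) → σ x = s * x) ∧
    ∀ (r : ℤ) (M : ℕ) (R : Fm), 4 * (N : ℤ) ∣ r ^ 2 + n → M ≠ 0 → cond2 d ∣ M → odp d ∣ n * M →
      0 < R.1 → fdisc R = -(n * M ^ 2) → gD d R ≠ 0 → ∃ R', 0 < R'.1 ∧
        G5.Fam N (-(n * M ^ 2)) (s * (r * M)) R' ∧ jf (froot R') = σ (jf (froot R)) ∧
        gD d R' = e * gD d R := by
  obtain ⟨g, hσ⟩ := exists_gam σ
  refine ⟨xi d (if g ∈ GK n then g else g * cc), if g ∈ GK n then 1 else -1,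
    Int.isUnit_iff.1 (Units.isUnit _), by split_ifs <;> simp, fun m x hx => ex_sqrt hσ hx,
    fun r M R hr M0 h2 ho r0 r1 r2 => ?_⟩
  obtain ⟨k, c, Q, k0, rfl, rfl, q0, q1, q2⟩ := exists_prim hn h4 r1 r0
  have ok : OkD N n c r := ⟨⟨h4, h3, right_ne_zero_of_mul M0⟩, hr, hc⟩
  have k1 : k.Coprime (cond2 d * odp d) := Nat.isCoprime_iff_coprime.1 (by_contra fun h => r2 (by
    rw [gD_fsm hd, (pchr_kro hd).zero _ h, zero_mul]))
  obtain ⟨P, p1, p2, p3, p4⟩ := ga_prim ok hσ hd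
    (k1.coprime_mul_right_right.symm.dvd_of_dvd_mul_left h2)
    (k1.coprime_mul_left_right.symm.dvd_of_dvd_mul_left (by rwa [mul_left_comm] at ho)) q1 q0 q2
  have d1 : (0 : ℤ) < k := by exact_mod_cast k0
  refine ⟨fsm k P, mul_pos d1 p2, ⟨p1.1.mul_left k, by
    rw [fdisc_sm, p1.2.1, ← q1, ← fdisc_sm, r1], ?_⟩, by
    rwa [froot_sm d1 (q1 ▸ ok_neg ok.toOk) q0, froot_sm d1 (p1.2.1 ▸ ok_neg ok.toOk) p2], by
    rw [gD_fsm hd, gD_fsm hd, p4, mul_left_comm]⟩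
  refine (p1.2.2.mul_left k).trans ⟨1, ?_⟩
  simp only [fsm]
  push_cast
  ring

end Pool.Agent.G7
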