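import Pool.Agent.Lib.MP_696deb_nt.B7.HT7a

/-! The supports of the special divisors. -/

set_option autoImplicit false

open Finset NumberTheorySymbols
open scoped Classical

namespace Pool.Agent.G7

open Pool.Agent.Lib.MP_696deb_nt Pool.Agent.B4.GE Pool.Agent.Shared.Weier
open Pool.Agent.G5 hiding Cx Yw Cw zs Ori CNStmt HWStmt LTStmt GLStmt LAStmt SWStmt NUStmt WPStmt
  HTStmt GZStmt LFStmt LRStmt LQStmt GPStmt LCStmt NSStmt ARStmt exists_JM zv_hpt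
  isCM_froot
open Pool.Agent.B5 (Aff)
open Pool.Agent.Dih (Yv Zv HI hpt mem_HI finite_jf_cm)

variable {N n c l l₀ m M p : ℕ} {σ D ρ r : ℤ} {ω : Fm → ℤ} {Q R : Fm} {T T' : Finset Fm} {X : Dat}
  {a : ℕ →₀ ℤ} {t : (_ : ℕ × ℕ) × ℕ}

theorem zF_spec (h : zF N ω σ D ρ R ≠ 0) :
    0 < R.1 ∧ ω R ≠ 0 ∧ (G5.Fam N D ρ R ∨ G5.Fam N D (-ρ) R) := by
  unfold zF wF at h
  refine ⟨by_contra fun k => h (if_neg k), fun k => h (by simp [k]), by_contra fun k => h ?_⟩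
  rw [if_neg (not_or.1 k).1, if_neg (not_or.1 k).2]
  simp

theorem abs_gD_le (d : ℤ) (Q : Fm) : |gD d Q| ≤ 1 := by
  rw [gD, abs_mul]
  refine mul_le_one₀ ?_ (abs_nonneg _) (abs_gch _ _)
  rcases (B3.pchr_chi2 d).cases (if 2 ∣ Q.1 then Q.2.2 else Q.1) with e | e | e <;> simp [e]

theorem abs_zF (h : ∀ R, |ω R| ≤ 1) (d : ℤ) : |zF N ω d.sign D ρ R| ≤ 2 := by
  have k : ∀ β, |wF N ω D β R| ≤ 1 := fun β => by
    rw [wF]
    split_ifs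
    exacts [h R, by simp]
  have h1 := abs_le.1 (k ρ)
  have h2 := abs_le.1 (k (-ρ))
  rw [zF, abs_le]
  rcases lt_trichotomy d 0 with e | e | e
  · rw [Int.sign_eq_neg_one_of_neg e]
    split_ifs <;> omega
  · rw [e, Int.sign_zero]
    split_ifs <;> omega
  · rw [Int.sign_eq_one_of_pos e]
    split_ifs <;> omega

theorem Dat.Rep.spec (h : X.Rep r T T') (hQ : Q ∈ T ∪ T') :
    0 < Q.1 ∧ fdisc Q = -X.n * X.c ^ 2 :=
  (mem_union.1 hQ).elim (fun k => ⟨h.fst.pos _ k, (h.fst.fam _ k).2.1.trans (neg_mul _ _).symm⟩)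
    fun k => ⟨h.snd.pos _ k, (h.snd.fam _ k).2.1.trans (neg_mul _ _).symm⟩

theorem Y_spec (h : X.Y m R ≠ 0) :
    0 < R.1 ∧ (X.N : ℤ) ∣ R.1 ∧ fdisc R = -X.n * ((X.c * m : ℕ) : ℤ) ^ 2 := by
  obtain ⟨h1, -, h2⟩ := zF_spec h
  refine ⟨h1, h2.elim (·.1) (·.1), (h2.elim (·.2.1) (·.2.1)).trans ?_⟩
  rw [Dat.D]
  push_cast
  ring

theorem abs_Y (m : ℕ) (R : Fm) : |X.Y m R| ≤ 2 := abs_zF (fun _ => abs_gD_le _ _) _

/-- The invariants of the points of the divisor, and a bound for the multiplicities. -/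
theorem Dat.Ok.exists_JM (h : X.Ok) (ha : ∀ m ∈ a.support, m ≠ 0) : ∃ (J : Finset ℂ) (m : ℕ),
    (∀ z : ℂ, cmb (fun m => nuW (X.Y m)) a z ≠ 0 → jf z ∈ J) ∧
    (∀ z : ℂ, 0 < z.im → cmb (fun m => nuW (X.Y m)) a (-1 / (X.N * z)) ≠ 0 → jf z ∈ J) ∧
    (∀ z : ℂ, |cmb (fun m => nuW (X.Y m)) a z| < m) ∧
    ∀ k ∈ J, ∃ (R : Fm) (c : ℕ), c ∈ a.support ∧ 0 < R.1 ∧
      fdisc R = -X.n * ((X.c * c : ℕ) : ℤ) ^ 2 ∧ k = jf (froot R) := by
  have hN := h.N0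
  have d : ∀ c ∈ a.support, (-X.n * ((X.c * c : ℕ) : ℤ) ^ 2) < 0 := fun c hc =>
    mul_neg_of_neg_of_pos h.toGood.neg (by have := ha c hc; have := h.c0; positivity)
  have f : {k | ∃ (R : Fm) (c : ℕ), c ∈ a.support ∧ 0 < R.1 ∧
      fdisc R = -X.n * ((X.c * c : ℕ) : ℤ) ^ 2 ∧ k = jf (froot R)}.Finite :=
    (a.support.finite_toSet.biUnion fun c _ =>
      finite_jf_cm (-X.n * ((X.c * c : ℕ) : ℤ) ^ 2)).subset (by
      rintro _ ⟨R, c, h1, h2, h3, rfl⟩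
      exact Set.mem_biUnion h1 ⟨_, h3 ▸ isCM_froot (h3 ▸ d c h1) h2, rfl⟩)
  have k : ∀ z, cmb (fun m => nuW (X.Y m)) a z ≠ 0 →
      ∃ c ∈ a.support, ∃ R, X.Y c R ≠ 0 ∧ froot R = z := fun z hz =>
    (ns_cmb_ne hz).imp fun c hc => ⟨hc.1, exists_of_nuW hc.2⟩
  obtain ⟨C, hC⟩ := ns_cmb_bdd (fun m => nuW (X.Y m)) a fun c hc => ⟨2, fun z => by
    by_cases h : nuW (X.Y c) z = 0
    · simp [h]
    obtain ⟨R, h1, rfl⟩ := exists_of_nuW h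
    obtain ⟨r1, -, r3⟩ := Y_spec h1
    rw [nuW_froot (fun S hS => ⟨(Y_spec hS).2.2.trans r3.symm, (Y_spec hS).1⟩) (r3 ▸ d c hc) r1]
    exact abs_Y _ _⟩
  refine ⟨f.toFinset, C, fun z hz => ?_, fun z z0 hz => ?_, hC, fun k hk => f.mem_toFinset.1 hk⟩
  · obtain ⟨c, hc, R, h, rfl⟩ := k z hz
    exact f.mem_toFinset.2 ⟨R, c, hc, (Y_spec h).1, (Y_spec h).2.2, rfl⟩
  · obtain ⟨c, hc, R, h, h'⟩ := k _ hz
    obtain ⟨r1, r2, r3⟩ := Y_spec h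
    have r4 := froot_fV hN (r3 ▸ d c hc) r1 r2
    have n0 : (X.N : ℂ) ≠ 0 := by exact_mod_cast hN
    have z1 : z ≠ 0 := fun e => by simp [e] at z0
    rw [h', show -1 / (X.N * (-1 / (X.N * z))) = z by field_simp] at r4
    have r5 := pos_c (r3 ▸ d c hc) r1
    obtain ⟨_, y, w⟩ := R
    obtain ⟨x, rfl⟩ := r2
    rw [fV_eq hN] at r4
    refine f.mem_toFinset.2 ⟨(X.N * w, -y, x), c, hc, by positivity, ?_, by rw [r4]⟩
    rw [← r3, fdisc, fdisc]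
    ring

/-- A prime that does not split is prime to the level. -/
theorem Dat.Ok.nd_N (h : X.Ok) (hl : l.Prime) (hJ : et X.n l ≠ 1) : ¬ l ∣ X.N := by
  rintro ⟨c, hc⟩
  rcases jac_cases hl hJ with k | k
  · obtain ⟨d, hd⟩ := h.root
    exact inert_of_jac h.mod4 hl k X.ρ (c * d) (by rw [hd, hc]; push_cast; ring)
  · exact hl.one_lt.ne' (Nat.eq_one_of_dvd_coprimes h.cop k ⟨c, hc⟩)

/-- An odd inert prime is prime to the conductor. -/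
theorem Dat.Ok.nd_c (h : X.Ok) (hl : l.Prime) (h2 : l ≠ 2) (hJ : et X.n l = -1) : ¬ l ∣ X.c :=
  fun k => by
    have := h.spl l hl h2 ((dvd_cnd h.fs hl k).resolve_left h2)
    rw [jac_neg_swap h.mod4 (hl.odd_of_ne_two h2)] at this
    exact absurd (hJ.symm.trans this) (by decide)

theorem ne_zero_of_not_dvd' (h : ¬ l ∣ m) : m ≠ 0 := fun e => h (e ▸ dvd_zero _)

theorem zv_hpt (hn : Squarefree n) (h4 : n % 4 = 3) (hQ : 0 < Q.1) (hD : fdisc Q = -n * c ^ 2)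
    (hl : l.Prime) (hJ : J((l : ℤ) | n) = -1) (hc : ¬ l ∣ c) (hm : ¬ l ∣ m) (ht : t ∈ HI (l * m)) :
    Zv l (-n) (hpt t (froot Q)) := by
  obtain ⟨h1, h2⟩ := ns0_of_jac hn h4 hl (by omega) hc
  have hp := Nat.prime_iff_prime_int.1 hl
  have h0 : fdisc Q < 0 := hD ▸ h1
  obtain ⟨-, -, h3, h5⟩ := fpi_form h0 hQ ht
  have k := fun x y => fpi_inert (h2.resolve_right fun e => (hp.dvd_or_dvd e.1).elim
    (fun e => not_dvd_of_jac h4 hl (by omega) (by exact_mod_cast dvd_neg.1 e))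
    fun e => hc (by exact_mod_cast hp.dvd_of_dvd_pow e)) hl hD (x := x) (y := y)
  refine ⟨c * m, by
    exact_mod_cast mul_ne_zero (ne_zero_of_not_dvd' hc) (ne_zero_of_not_dvd' hm), hpt_im ht (im_froot_pos h0 hQ), _, h5,
    by rw [h3, hD]; push_cast; ring, fun ⟨a1, _, a2⟩ => hm ?_⟩
  have := mul_dvd_mul (Int.natCast_dvd_natCast.1 (k _ _ a2).2) (Int.natCast_dvd_natCast.1 (k _ _ a1).1)
  rwa [(mem_HI.1 ht).1, Nat.mul_dvd_mul_iff_left hl.pos] at this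

/-- Points of different conductors have different invariants. -/
theorem jf_ne_hpt (hn : Squarefree n) (h4 : n % 4 = 3) (hQ : 0 < Q.1) (hD : fdisc Q = -n * c ^ 2)
    (hl : l₀.Prime) (hJ : J((l₀ : ℤ) | n) = -1) (hc : ¬ l₀ ∣ c) (hM : ¬ l₀ ∣ M)
    (ht : t ∈ HI (l₀ * M)) (hR : 0 < R.1) (hm : ¬ l₀ ∣ m) (hd : fdisc R = -n * m ^ 2) :
    jf (froot R) ≠ jf (hpt t (froot Q)) :=
  have n0 : -(n : ℤ) < 0 := by omega
  (yv_froot n0 hR hm hd).jf_ne (zv_hpt hn h4 hQ hD hl hJ hc hM ht) hl n0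

theorem Dat.Ok.nd_cm (h : X.Ok) (hl : l₀.Prime) (h2 : l₀ ≠ 2) (hJ : et X.n l₀ = -1)
    (ha : Sup (M * l₀) a) (hm : m ∈ a.support) : ¬ l₀ ∣ X.c * m := fun e =>
  (hl.dvd_mul.1 e).elim (h.nd_c hl h2 hJ)
    (hl.coprime_iff_not_dvd.1 (Nat.Coprime.coprime_mul_left_right (ha m hm).2).symm)

/-- The divisor vanishes at the points of the Hecke correspondence. -/
theorem Dat.Ok.nu_hpt (h : X.Ok) (hl : l₀.Prime) (h2 : l₀ ≠ 2) (hJ : et X.n l₀ = -1)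
    (ha : Sup (N * l₀) a) (hQ : 0 < Q.1) (hD : fdisc Q = -X.n * X.c ^ 2) (hM : ¬ l₀ ∣ M)
    (ht : t ∈ HI (l₀ * M)) : cmb (fun m => nuW (X.Y m)) a (hpt t (froot Q)) = 0 := by
  obtain ⟨J, c, h1, -, -, h3⟩ := h.exists_JM fun m hm => (ha m hm).1
  by_contra k
  obtain ⟨R, m, r1, r2, r3, r4⟩ := h3 _ (h1 _ k)
  exact jf_ne_hpt h.sqf h.mod4 hQ hD hl hJ (h.nd_c hl h2 hJ) hM ht r2 (h.nd_cm hl h2 hJ ha r1) r3
    r4.symm

section
variable {Γ : Type*} [LinearOrderedCommGroupWithZero Γ] {V : Valuation ℂ Γ}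

theorem val_dn (hp : p.Prime) (hV : V p < 1) (h2 : p ≠ 2) {a b c : ℤ}
    (hD : b ^ 2 - 4 * a * c < 0) {τ : ℂ} (hτ : 0 < τ.im)
    (h : a * (p * τ) ^ 2 + b * (p * τ) + c = 0) (hc : ¬ (p : ℤ) ∣ c)
    (hs : SplitAt p (b ^ 2 - 4 * a * c)) : V (Dl τ / Dl (p * τ)) = 1 := by
  have hP := Nat.prime_iff_prime_int.mp hp
  have h1 : 0 < (p * τ).im := by simpa using mul_pos (Nat.cast_pos.mpr hp.pos) hτ
  have p0 : (p : ℂ) ≠ 0 := by exact_mod_cast hp.ne_zero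
  have cm := isCM_of_form h1 hD h
  obtain ⟨i, hi⟩ := cm.ord hp hV hs
  have e0 : act (rP p (some ⟨0, hp.pos⟩)) (p * τ) = τ := by rw [act_some hp]; simp
  have := hi.unit (some ⟨0, hp.pos⟩) ?_
  · rw [ph_some hp] at this
    simpa [div_eq_mul_inv] using this
  rintro rfl
  obtain ⟨x, hx⟩ : ∃ x : ℤ, ¬ (p : ℤ) ∣ x ^ 2 + x * 1 * b + 1 ^ 2 * (a * c) := by
    by_contra! k
    have k1 := dvd_sub (dvd_add (k 1) (k (-1))) ((k 0).mul_left 2)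
    ring_nf at k1
    exact h2 ((Nat.prime_dvd_prime_iff_eq hp Nat.prime_two).mp (by exact_mod_cast k1))
  have h3 : 0 < x ^ 2 + x * 1 * b + 1 ^ 2 * (a * c) := by nlinarith [sq_nonneg (2 * x + b)]
  have h4 : a * c ≠ 0 := by intro e; nlinarith [sq_nonneg b]
  have h5 : Fix (a * c) b (p * τ) := by
    refine ⟨!![0, -c; a, b], by simp [mul_comm], by simp, ?_⟩
    rw [act_eq_iff (by simpa [mul_comm] using h4) h1]
    simpa using h
  obtain ⟨M, m1, m2, m3⟩ := hi.fix hp hV h3 hx (h5.add h1 h4 x 1 h3.ne')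
  rw [e0, act_eq_iff (m1 ▸ h3.ne') hτ] at m3
  obtain ⟨k1, k2⟩ := B2.CM.tau_indep hτ.ne' (x := M 1 0 * c - a * p ^ 2 * -M 0 1)
    (y := (M 1 1 - M 0 0) * c - b * p * -M 0 1) (mul_left_cancel₀ (a := τ)
      (fun e => by simp [e] at hτ) (by push_cast; linear_combination c * m3 + M 0 1 * h))
  rw [Matrix.det_fin_two] at m1
  rw [Matrix.trace_fin_two] at m2
  refine hc (hP.dvd_of_dvd_pow (n := 2) ⟨p * M 0 1 ^ 2, mul_left_cancel₀ hD.ne ?_⟩)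
  linear_combination 4 * c ^ 2 * m1 - c ^ 2 * (M 0 0 + M 1 1 + 2 * x + b) * m2 +
    ((M 1 1 - M 0 0) * c - b * p * M 0 1) * k2 + 4 * M 0 1 * c * k1

/-- The points that lie below a point of smaller conductor reduce to the component of infinity. -/
theorem aff_dn (hN : Squarefree N) (hp : p.Prime) (hV : V p < 1) (h2 : p ≠ 2) (hpN : p ∣ N)
    (hD : D < 0) (hs : SplitAt p D) (k2 : fdisc Q = D * p ^ 2) (hQ : 0 < Q.1) (k6 : (p : ℤ) ∣ Q.1)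
    (k7 : ¬ (p : ℤ) ∣ Q.2.2) : Aff N V (froot Q) := by
  have hP := Nat.prime_iff_prime_int.mp hp
  have k3 : fdisc Q < 0 := k2 ▸ mul_neg_of_neg_of_pos hD (pow_pos (by exact_mod_cast hp.pos) 2)
  have k4 := froot_root k3 hQ
  have cm := isCM_froot k3 hQ
  refine ⟨cm.1, cm.val_jf V, ?_⟩
  have k5 := cm.1
  have k8 := (cm.isog (g := ut p 0 1) (by simpa [det_ut] using hp.pos)).val_jf V
  rw [act_dg] at k8
  generalize froot Q = τ at k4 k5 k8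
  obtain ⟨a, b, c⟩ := Q
  simp only [fdisc] at k2 k4 k6 k7
  obtain ⟨a, rfl⟩ := k6
  obtain ⟨b, rfl⟩ : (p : ℤ) ∣ b :=
    hP.dvd_of_dvd_pow (n := 2) ⟨D * p + 4 * a * c, by linear_combination k2⟩
  obtain ⟨a, rfl⟩ : (p : ℤ) ∣ a := by
    have k8 : (p : ℤ) ∣ 2 * (2 * (a * c)) := ⟨b ^ 2 - D, mul_left_cancel₀ hP.ne_zero (by
      linear_combination -k2)⟩
    have k9 : ¬ (p : ℤ) ∣ 2 := not_dvd_of_prime_ne hp Nat.prime_two h2
    simpa only [hP.dvd_mul, k9, k7, false_or, or_false] using k8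
  obtain rfl : D = b ^ 2 - 4 * a * c := mul_right_cancel₀ (pow_ne_zero 2 hP.ne_zero) (by
    linear_combination -k2)
  have h1 := val_dn hp hV h2 hD k5 (by push_cast at k4; linear_combination k4) k7 hs
  obtain ⟨d, rfl⟩ := hpN
  have h3 := (val_Dl_div (V := V) (d := d) (right_ne_zero_of_mul hN.ne_zero)
    (ga_pos hp.ne_zero k5) k8).2.2 (by
      simpa using val_int_eq_one hp hV (n := d) fun k => hp.ne_one (Nat.eq_one_of_dvd_coprimes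
        (Nat.coprime_of_squarefree_mul hN) dvd_rfl (Int.natCast_dvd_natCast.mp k)))
  rw [← mul_assoc, ← Nat.cast_mul, mul_comm d] at h3
  rw [← div_mul_div_cancel₀ (Dl_ne (ga_pos hp.ne_zero k5)), map_mul, h1, h3, one_mul]

end

end Pool.Agent.G7
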