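import Pool.Agent.Lib.MP_696deb_nt.B7.Z0
import Pool.Agent.Lib.MP_696deb_nt.B5.LQa

/-! Special points and twisted series at the raised level. -/

set_option autoImplicit false

open Finset NumberTheorySymbols
open scoped Classical

namespace Pool.Agent.G7

open Pool.Agent.Lib.MP_696deb_nt Pool.Agent.B4.GE
open Pool.Agent.Lib.MP_696deb_nt.B3 (kro chi2 odp cond2 PChr pchr_chi2 pchr_kro)
open Pool.Agent.B6.B7 (LX)
open Pool.Agent.G5 hiding LQStmt lq_stmt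

variable {N r : ℕ} {d : ℤ} {Q R : Fm}

theorem lq_cop (h : d % 4 ≠ 1) {v : ℤ} : IsCoprime v (cond2 d) ↔ ¬ 2 ∣ v := by
  rw [← Int.prime_two.coprime_iff_not_dvd, isCoprime_comm (x := 2), cond2, if_neg h]
  split_ifs
  · exact (IsCoprime.pow_right_iff (x := v) (y := 2) two_pos :)
  · exact (IsCoprime.pow_right_iff (x := v) (y := 2) three_pos :)

theorem lq_val (h : d % 4 ≠ 1) (hd : 4 * (cond2 d : ℤ) ∣ fdisc Q) {x y : ℤ}
    (hv : ¬ 2 ∣ fval Q x y) : chi2 d (fval Q x y) = chi2 d (if 2 ∣ Q.1 then Q.2.2 else Q.1) := by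
  have k := pchr_chi2 d
  obtain ⟨A, B, C⟩ := Q
  obtain ⟨t, ht⟩ := hd
  simp only [fdisc, fval] at ht hv ⊢
  obtain ⟨B, rfl⟩ : 2 ∣ B := Int.prime_two.dvd_of_dvd_pow (n := 2)
    ⟨2 * (cond2 d * t + A * C), by linear_combination ht⟩
  have e : B ^ 2 - A * C = cond2 d * t := by linarith
  have key : ∀ {u v w : ℤ}, ¬ 2 ∣ u → ¬ 2 ∣ v → (cond2 d : ℤ) ∣ u * v - w * w →
      chi2 d u = chi2 d v := fun {u v w} hu hv e => by
    have h1 := k.per _ _ e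
    have h2 := k.sq ((lq_cop h).2 hu)
    have h3 := k.sq ((lq_cop h).2 hv)
    rw [k.mul, k.mul] at h1
    rcases k.cases w with h4 | h4 | h4 <;> rw [h4] at h1
    · linear_combination (chi2 d u - chi2 d v) * (chi2 d u * chi2 d v * h1 - chi2 d v ^ 2 * h2 - h3)
    all_goals linear_combination chi2 d u * -h3 + chi2 d v * h1
  split_ifs with hA
  · refine key (w := B * x + C * y) hv (fun hC => hv ?_) ⟨-t * x ^ 2, by linear_combination -x ^ 2 * e⟩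
    exact ((hA.mul_right _).add ⟨B * x * y, by ring⟩).add (hC.mul_right _)
  · exact key (w := A * x + B * y) hv hA ⟨-t * y ^ 2, by linear_combination -y ^ 2 * e⟩

/-- The genus character is a class function. -/
theorem lq_inv (hd : Squarefree d) (h2 : d % 4 = 1 ∨ 4 * (cond2 d : ℤ) ∣ fdisc Q)
    (ho : (odp d : ℤ) ∣ fdisc Q) (h : FEq N Q R) : gD d R = gD d Q := by
  rw [gD, gD, h.gch (B3.odp_odd hd) ho]
  congr 1
  by_cases h4 : d % 4 = 1
  · rw [chi2, chi2, if_pos h4, if_pos h4]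
  replace h2 := h2.resolve_left h4
  have key : ∀ {Q R : Fm}, FEq N Q R → 4 * (cond2 d : ℤ) ∣ fdisc Q →
      ¬ 2 ∣ (if 2 ∣ R.1 then R.2.2 else R.1) → chi2 d (if 2 ∣ R.1 then R.2.2 else R.1) =
        chi2 d (if 2 ∣ Q.1 then Q.2.2 else Q.1) := by
    rintro Q _ ⟨a, b, c, e, -, rfl⟩ h2 k
    by_cases k1 : 2 ∣ (fmap Q a b (N * c) e).1
    · rw [if_pos k1] at k ⊢
      exact lq_val h4 h2 k
    · rw [if_neg k1]
      exact lq_val h4 h2 k1
  by_cases k : 2 ∣ (if 2 ∣ R.1 then R.2.2 else R.1)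
  · by_cases k' : 2 ∣ (if 2 ∣ Q.1 then Q.2.2 else Q.1)
    · rw [(pchr_chi2 d).zero _ fun e => (lq_cop h4).1 e k,
        (pchr_chi2 d).zero _ fun e => (lq_cop h4).1 e k']
    · exact (key h.symm (h.disc ▸ h2) k').symm
  · exact key h h2 k

/-- Moving a prime from the first to the last coefficient. -/
theorem lq_move (hd : Squarefree d) (hr : r.Prime) (h2 : Odd r) (h : ¬ (r : ℤ) ∣ d) (A B B' C : ℤ) :
    gD d (r * A, B, C) = kro d r * gD d (A, B', r * C) := by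
  have key : ∀ {p : ℤ} {k : ℕ} {χ : ℤ → ℤ}, PChr k χ → IsCoprime (r : ℤ) k → IsCoprime p r →
      χ (if p ∣ r * A then C else r * A) = χ r * χ (if p ∣ A then r * C else A) :=
    fun {p k χ} hχ h1 h3 => by
      rw [if_congr (⟨h3.dvd_of_dvd_mul_left, fun e => e.mul_left _⟩ : p ∣ r * A ↔ p ∣ A) rfl rfl]
      split_ifs
      · rw [hχ.mul, ← mul_assoc, ← sq, hχ.sq h1, one_mul]
      · exact hχ.mul _ _
  have c : IsCoprime (r : ℤ) (B3.cond d) := Nat.isCoprime_iff_coprime.2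
    (hr.coprime_iff_not_dvd.2 fun e => h ((B3.odd_dvd_cond hd h2).1 e))
  rw [B3.cond, Nat.cast_mul] at c
  rw [gD, gD, kro, gch, gch, jac_eq_prod _ (B3.odp_sqf hd), mul_mul_mul_comm, ← prod_mul_distrib,
    key (pchr_chi2 d) c.of_mul_right_left (by exact_mod_cast Nat.coprime_two_left.2 h2)]
  congr 1
  refine prod_congr rfl fun p hp => ?_
  have p1 := Nat.dvd_of_mem_primeFactors hp
  have c1 := c.of_mul_right_right.of_isCoprime_of_dvd_right (Int.natCast_dvd_natCast.2 p1)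
  simpa only [apply_ite fun x => J(x | p)] using key (B3.pchr_jac ((B3.odp_odd hd).of_dvd_nat p1)
    (Nat.prime_of_mem_primeFactors hp).squarefree) c1 c1.symm

theorem lq_pts (n : ℕ) (f b ρ ρ₁ : ℤ) (T T₁ : Finset Fm) (hg : Good (N * r) n) (hr : r.Prime)
    (hf : Squarefree f) (hc : IsCoprime f (r * n)) (hb : b ∣ n) (b4 : b % 4 = 1)
    (h4 : 4 * ((N * r : ℕ) : ℤ) ∣ ρ₁ ^ 2 + n) (e : 2 * (N : ℤ) ∣ ρ₁ - ρ)
    (h : FReps N (-(n * cnd f ^ 2)) (ρ * cnd f) T)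
    (h₁ : FReps (N * r) (-(n * cnd f ^ 2)) (ρ₁ * cnd f) T₁) (V : Type) [AddCommGroup V] (S : ℂ → V)
    (hS : Inv0 N S) : yD S (f * b) T₁ = yD S (f * b) T ∧
      yD (fun z => S (r * z)) (f * b) T₁ = kro (f * b) r • yD S (f * b) T := by
  have n1 : N * r ≠ 0 := hg.lsq.ne_zero
  have n0 : N ≠ 0 := left_ne_zero_of_mul n1
  have pr : Prime (r : ℤ) := Nat.prime_iff_prime_int.1 hr
  have ro : Odd r := (Nat.odd_mul.1 hg.lodd).2
  have rf : ¬ (r : ℤ) ∣ f := fun k => pr.not_isUnit (hc.isUnit_of_dvd' k (dvd_mul_right _ _))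
  have rb : ¬ (r : ℤ) ∣ b := fun k => hr.one_lt.ne' (Nat.eq_one_of_dvd_coprimes hg.cop
    (Int.natCast_dvd_natCast.1 (k.trans hb)) (dvd_mul_left _ _))
  have sq : Squarefree (f * b) := squarefree_mul_iff.2
    ⟨(hc.of_mul_right_right.of_isCoprime_of_dvd_right hb).isRelPrime, hf,
      (Int.squarefree_natCast.2 hg.sqf).squarefree_of_dvd hb⟩
  have hD : (r : ℤ) ∣ (ρ₁ * cnd f) ^ 2 - -(n * cnd f ^ 2) := by
    rw [sub_neg_eq_add, mul_pow, ← add_mul]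
    exact (((Int.natCast_dvd_natCast.2 (dvd_mul_left r N)).mul_left 4).trans h4).mul_right _
  have hρ : ¬ (r : ℤ) ∣ ρ₁ * cnd f := fun k => (pr.dvd_or_dvd k).elim
    (hg.not_dvd h4 hr.one_lt (dvd_mul_left _ _)) fun k =>
      rf ((B3.odd_dvd_cond hf ro).1 (Int.natCast_dvd_natCast.1 k))
  have h2 : ¬ (r : ℤ) ∣ 2 * N := fun k => (pr.dvd_or_dvd k).elim
    (fun k => hr.one_lt.ne' (Nat.eq_one_of_dvd_coprimes (Nat.coprime_two_left.2 ro)
      (by exact_mod_cast k) dvd_rfl)) fun k => hr.one_lt.ne' (Nat.isUnit_iff.1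
        (hg.lsq r (mul_dvd_mul_right (Int.natCast_dvd_natCast.1 k) r)))
  have h0 : -(n * cnd f ^ 2 : ℤ) < 0 := by
    have := hg.sqf.ne_zero
    have := (pchr_kro hf).ne
    rw [neg_lt_zero]
    positivity
  have e' : 2 * (N : ℤ) ∣ ρ₁ * cnd f - ρ * cnd f := sub_mul ρ₁ ρ _ ▸ e.mul_right _
  have d1 : (odp (f * b) : ℤ) ∣ -(n * cnd f ^ 2) :=
    (Int.natCast_dvd.2 (B3.odp_dvd _)).trans (dvd_neg.2 (mul_comm f b ▸ mul_dvd_mul hb
      (dvd_pow (B3.dvd_cond hf) two_ne_zero)))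
  have d2 : f * b % 4 = 1 ∨ 4 * (cond2 (f * b) : ℤ) ∣ -(n * cnd f ^ 2) := by
    refine (em _).imp_right fun k => dvd_neg.2 (Dvd.dvd.mul_left ?_ _)
    have k1 : f * b % 4 = f % 4 := by rw [Int.mul_emod, b4, mul_one, Int.emod_emod]
    rw [k1] at k
    rw [cnd, B3.cond, cond2, cond2, k1, if_neg k, Nat.cast_mul, mul_pow]
    split_ifs <;> exact Dvd.dvd.mul_right (by norm_num) _
  have sm : ∀ {U : Finset Fm}, FReps N (-(n * cnd f ^ 2)) (ρ * cnd f) U →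
      yD S (f * b) U = yD S (f * b) T := fun hU => hU.sum_eq h _ fun Q R h1 h2 h3 => by
    rw [lq_inv sq (h1.2.1 ▸ d2) (h1.2.1 ▸ d1) h3, h3.inv0 hS (h1.2.1 ▸ h0) h2]
  refine ⟨sm (lq_freps pr h2 hρ hD h0 e' h₁), ?_⟩
  have k := (lq_freps (ρ := -(ρ * cnd f)) pr h2 (by rwa [dvd_neg]) (by rwa [neg_sq]) h0
    (by rwa [neg_sub_neg, dvd_sub_comm]) (h₁.fV n1 h0).1).fV n0 h0
  rw [neg_neg] at k
  rw [← sm k.1, yD, yD, k.2, (h₁.fV n1 h0).2, smul_sum]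
  refine sum_congr rfl fun Q hQ => ?_
  have f1 := h₁.fam Q hQ
  have f2 := (h₁.fV n1 h0).1
  have f3 := f2.fam _ (mem_image_of_mem _ hQ)
  rw [froot_fV n0 (f3.2.1 ▸ h0) (f2.pos _ (mem_image_of_mem _ hQ))
    ((Int.natCast_dvd_natCast.2 (dvd_mul_right N r)).trans f3.1),
    froot_fV n1 (f1.2.1 ▸ h0) (h₁.pos Q hQ) f1.1, smul_smul]
  obtain ⟨_, B, C⟩ := Q
  obtain ⟨A, rfl⟩ := f1.1
  have n2 : (N : ℂ) ≠ 0 := by exact_mod_cast n0
  congr 1
  · rw [fV_eq n1, Nat.cast_mul, mul_assoc (N : ℤ) r C, fV_eq n0, mul_right_comm,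
      mul_comm _ (r : ℤ)]
    exact lq_move sq hr ro (fun k => (pr.dvd_or_dvd k).elim rf rb) _ _ _ _
  · congr 1
    push_cast
    field_simp

theorem lq_ser {c : ℕ} {χ : ℤ → ℤ} {G : ℂ → ℂ} (hr : r ≠ 0) (h : PChr c χ) (hc : r.Coprime c)
    (hG : Ci N G) (s : ℂ) :
    LX (fun z => G (r * z)) c χ s = χ r * (r : ℂ) ^ (1 - s) * LX G c χ s := by
  have b0 : (c : ℤ) ≠ 0 := by exact_mod_cast h.ne
  have inj : ∀ k ∈ range c, ∀ l ∈ range c, r * k % c = r * l % c → k = l := fun k hk l hl e =>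
    Nat.ModEq.eq_of_lt_of_lt (Nat.ModEq.cancel_left_of_coprime hc.symm e) (mem_range.1 hk)
      (mem_range.1 hl)
  have mem : ∀ k ∈ range c, r * k % c ∈ range c := fun k _ => mem_range.2 (Nat.mod_lt _ h.ne.bot_lt)
  rw [LX, LX, mul_sum]
  refine sum_bij (fun k _ => r * k % c) mem inj (fun l hl => ?_) fun k _ => ?_
  · obtain ⟨k, hk, e⟩ := surj_on_of_inj_on_of_card_le (fun k _ => r * k % c) mem
      (fun k l hk hl => inj k hk l hl) le_rfl l hl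
    exact ⟨k, hk, e.symm⟩
  · have e2 : (r * k : ℤ) = (r * k % c : ℕ) + c * (r * k / c : ℕ) := by
      exact_mod_cast (Nat.mod_add_div _ _).symm
    have e1 : χ ((r * k % c : ℕ) : ℤ) = χ r * χ k := by
      rw [← h.mul]
      exact h.per _ _ ⟨-(r * k / c : ℕ), by linear_combination -e2⟩
    have j3 : (χ r : ℂ) ^ 2 = 1 := by exact_mod_cast h.sq (Nat.isCoprime_iff_coprime.2 hc)
    rw [Ld_mul hr, e2, hG.Ld_add _ _ b0, e1]
    push_cast
    linear_combination (-(χ k * (r : ℂ) ^ (1 - s) * Ld G (r * k % c) c s)) * j3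

theorem lq_stmt : LQStmt :=
  ⟨fun _ _ n f b ρ ρ₁ T T₁ hg hr _ => lq_pts n f b ρ ρ₁ T T₁ hg hr,
    fun _ _ _ _ _ _ hr => lq_ser hr⟩

end Pool.Agent.G7
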