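import Pool.Agent.Lib.MP_696deb_nt.B7.GA7a
import Pool.Agent.Lib.MP_696deb_nt.B7.GA7b
import Pool.Agent.Lib.MP_696deb_nt.B7.HT7b
import Pool.Agent.Lib.MP_696deb_nt.B7.LQ7a

/-! The automorphisms of the complex numbers act on the special divisors by a sign. -/

set_option autoImplicit false

open scoped Classical NumberTheorySymbols

namespace Pool.Agent.G7

open Pool.Agent.Lib.MP_696deb_nt Pool.Agent.B4.GE
open Pool.Agent.Lib.MP_696deb_nt.B3 (kro chi2 odp cond2 cond_eq)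
open Pool.Agent.G5 (Pc nuW Wt fV_eq froot_fV nuW_froot exists_of_nuW)

variable {N m p : ℕ} {d e s t D β ρ : ℤ} {ω w w' : Fm → ℤ} {Q R R' : Fm} {X : Dat} {z z' : ℂ}
  {σ : ℂ ≃+* ℂ}

theorem ga_wt (hD : D < 0) (hω : ∀ Q R, fdisc Q = D → G5.FEq N Q R → ω R = ω Q)
    (hb : ∀ R, |ω R| ≤ 1) (d : ℤ) : Wt N (zF N ω d.sign D ρ) D := by
  have h3 : ∀ R, zF N ω d.sign D ρ R ≠ 0 → fdisc R = D := fun R h =>
    (zF_spec h).2.2.elim (·.2.1) (·.2.1)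
  refine ⟨h3, fun Q R h => ?_, 2, fun R => abs_zF hb d⟩
  by_cases h4 : fdisc Q = D
  · have k : ∀ β, wF N ω D β R = wF N ω D β Q := fun β => by
      rw [wF, wF, hω Q R h4 h, if_congr ⟨h.symm.fam, h.fam⟩ rfl rfl]
    rw [zF, zF, k, k, if_congr
      ⟨fun k => h.symm.pos (h.disc ▸ h4 ▸ hD) k, fun k => h.pos (h4 ▸ hD) k⟩ rfl rfl]
  · rw [of_not_not (mt (h3 Q) h4), of_not_not (mt (h3 R) fun h5 => h4 (h.disc ▸ h5))]

theorem ga_nu (hD : D < 0) (h : zF N ω t D ρ R ≠ 0) :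
    nuW (zF N ω t D ρ) (froot R) = zF N ω t D ρ R := by
  have k : ∀ S, zF N ω t D ρ S ≠ 0 → fdisc S = D := fun S h =>
    (zF_spec h).2.2.elim (·.2.1) (·.2.1)
  exact nuW_froot (fun S hS => ⟨(k S hS).trans (k R h).symm, (zF_spec hS).1⟩) (k R h ▸ hD)
    (zF_spec h).1

theorem wF_eq (h : (N : ℤ) ∣ R.1) (h' : (N : ℤ) ∣ R'.1) (hD : fdisc R' = fdisc R)
    (hs : s * s = 1) (k : 2 * (N : ℤ) ∣ R'.2.1 - s * R.2.1) (f : ω R' = e * ω R) (β : ℤ) :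
    wF N ω D (s * β) R' = e * wF N ω D β R := by
  rw [wF, wF, mul_ite, mul_zero, f]
  refine if_congr ⟨fun a => ⟨h, hD ▸ a.2.1, ?_⟩, fun a => ⟨h', hD ▸ a.2.1, ?_⟩⟩ rfl rfl
  · rw [show R.2.1 - β = s * (R'.2.1 - s * β - (R'.2.1 - s * R.2.1)) by
      linear_combination (β - R.2.1) * hs]
    exact (a.2.2.sub k).mul_left s
  · rw [show R'.2.1 - s * β = R'.2.1 - s * R.2.1 + s * (R.2.1 - β) by ring]
    exact k.add (a.2.2.mul_left s)

theorem zF_eq (h : (N : ℤ) ∣ R.1) (h' : (N : ℤ) ∣ R'.1) (hD : fdisc R' = fdisc R) (p : 0 < R.1)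
    (p' : 0 < R'.1) (hs : s = 1 ∨ s = -1) (ht : t * t = 1)
    (k : 2 * (N : ℤ) ∣ R'.2.1 - s * R.2.1) (f : ω R' = e * ω R) :
    zF N ω t D ρ R' = (if s = 1 then 1 else t) * e * zF N ω t D ρ R := by
  have k1 := wF_eq (D := D) h h' hD (by rcases hs with rfl | rfl <;> rfl) k f
  rw [zF, zF, if_pos p, if_pos p']
  rcases hs with rfl | rfl
  · simp only [one_mul] at k1
    rw [k1, k1, if_pos rfl]
    ring
  · simp only [neg_one_mul] at k1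
    have k2 := k1 (-ρ)
    rw [neg_neg] at k2
    rw [k1, k2, if_neg (by decide)]
    linear_combination -e * wF N ω D (-ρ) R * ht

/-- The upper divisors are the images of the lower ones under the involution of Fricke. -/
theorem zF_fV (hN : N ≠ 0) (hD : D < 0) (h : (N : ℤ) ∣ R.1) (h0 : 0 < R.1) (h1 : fdisc R = D) :
    zF N (gU N d) t D ρ R = zF N (gD d) t D (-ρ) (G5.fV N R) := by
  have h2 := pos_c (h1 ▸ hD) h0
  have k : ∀ β, wF N (gU N d) D β R = wF N (gD d) D (-β) (G5.fV N R) := fun β => by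
    rw [wF, wF, gU]
    obtain ⟨_, b, c⟩ := R
    obtain ⟨a, rfl⟩ := h
    rw [fV_eq hN]
    refine if_congr ⟨fun k => ⟨dvd_mul_right _ _, ?_, ?_⟩, fun k => ⟨dvd_mul_right _ _, h1, ?_⟩⟩
      rfl rfl
    · rw [← h1, fdisc, fdisc]
      ring
    · exact (dvd_neg.2 k.2.2).trans ⟨1, by ring⟩
    · exact (dvd_neg.2 k.2.2).trans ⟨1, by ring⟩
  rw [zF, zF, k, k, if_pos h0, if_pos (show 0 < (G5.fV N R).1 from mul_pos (by omega) h2)]

theorem nuW_fV (hN : N ≠ 0) (hD : D < 0) (hz : 0 < z.im) :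
    nuW (zF N (gU N d) t D ρ) z = nuW (zF N (gD d) t D (-ρ)) (-1 / (N * z)) := by
  have n0 : (N : ℂ) ≠ 0 := by exact_mod_cast hN
  have key : ∀ R : Fm, (N : ℤ) ∣ R.1 → 0 < R.1 → fdisc R = D → zF N (gU N d) t D ρ R ≠ 0 →
      nuW (zF N (gU N d) t D ρ) (froot R) =
        nuW (zF N (gD d) t D (-ρ)) (-1 / (N * froot R)) := fun R h1 h2 h3 h4 => by
    rw [ga_nu hD h4, ← froot_fV hN (h3 ▸ hD) h2 h1, ga_nu hD (zF_fV hN hD h1 h2 h3 ▸ h4),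
      zF_fV hN hD h1 h2 h3]
  by_cases h : nuW (zF N (gU N d) t D ρ) z = 0
  · refine by_contra fun k => ?_
    obtain ⟨⟨_, b, c⟩, q1, q2⟩ := exists_of_nuW (h ▸ Ne.symm k)
    obtain ⟨q3, -, q4⟩ := zF_spec q1
    obtain ⟨⟨a, rfl⟩, q5⟩ : (N : ℤ) ∣ _ ∧ fdisc _ = D :=
      q4.elim (fun k => ⟨k.1, k.2.1⟩) fun k => ⟨k.1, k.2.1⟩
    have q6 := froot_fV hN (q5 ▸ hD) q3 (dvd_mul_right _ _)
    have z1 : z ≠ 0 := fun e => by simp [e] at hz
    rw [q2, show -1 / (N * (-1 / (N * z))) = z by field_simp, fV_eq hN] at q6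
    have q7 : 0 < (N : ℤ) * c := mul_pos (by omega) (pos_c (q5 ▸ hD) q3)
    have q8 : fdisc (N * c, -b, a) = D := by
      rw [← q5, fdisc, fdisc]
      ring
    refine k (q6 ▸ key _ (dvd_mul_right _ _) q7 q8 ?_)
    rwa [zF_fV hN hD (dvd_mul_right _ _) q7 q8, fV_eq hN, neg_neg b]
  · obtain ⟨R, r1, rfl⟩ := exists_of_nuW h
    obtain ⟨r2, -, r3⟩ := zF_spec r1
    exact key R (r3.elim (·.1) (·.1)) r2 (r3.elim (·.2.1) (·.2.1)) r1

namespace Dat.Ok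

theorem ga_two (h : X.Ok) : cond2 (X.f * X.b) ∣ X.c := by
  have h1 : cond2 (X.f * X.b) ∣ X.c * X.b.natAbs := h.cb ▸ dvd_mul_right _ _
  have h2 : Nat.Coprime 2 X.b.natAbs :=
    Nat.coprime_two_left.2 (Nat.odd_iff.2 (by have := h.b4; omega))
  refine ((h2.pow_left 3).coprime_dvd_left ?_).dvd_of_dvd_mul_right h1
  unfold cond2
  split_ifs <;> decide

theorem ga_odd (h : X.Ok) : odp (X.f * X.b) ∣ X.n * X.c := by
  rw [← h.abs_mul, mul_assoc, mul_comm X.b.natAbs, ← h.cb]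
  exact (dvd_mul_left _ _).mul_left _

/-- The forms in the support lie below at the common primes of level and conductor. -/
theorem dw (h : X.Ok) (hm : m.Coprime X.N) (hD : fdisc R = -(X.n * (X.c * m : ℕ) ^ 2))
    (h1 : (X.N : ℤ) ∣ R.1) (hg : gD (X.f * X.b) R ≠ 0) (hp : p.Prime) (hN : p ∣ X.N)
    (hd : (p : ℤ) ∣ fdisc R) : Dw p R := by
  have p2 : p ≠ 2 := by
    rintro rfl
    exact h.lodd.not_two_dvd_nat hN
  have c2 : p.Coprime (2 ^ 3) := ((Nat.coprime_primes hp Nat.prime_two).2 p2).pow_right 3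
  have pm : ¬ p ∣ m := fun k => hp.ne_one (Nat.eq_one_of_dvd_coprimes hm k hN)
  have pc : p ∣ X.c := by
    rw [hD, dvd_neg] at hd
    rcases hp.dvd_mul.1 (show p ∣ X.n * (X.c * m) ^ 2 by exact_mod_cast hd) with k | k
    · exact absurd (Nat.eq_one_of_dvd_coprimes h.cop k hN) hp.ne_one
    · exact (hp.dvd_mul.1 (hp.dvd_of_dvd_pow k)).resolve_right pm
  have p1 := (Int.natCast_dvd_natCast.2 hN).trans h1
  have po : p ∈ (odp (X.f * X.b)).primeFactors := by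
    refine Nat.mem_primeFactors.2 ⟨hp, (c2.coprime_dvd_right (n := cond2 (X.f * X.b))
      ?_).dvd_of_dvd_mul_left ?_, (B3.odp_odd h.sb).pos.ne'⟩
    · unfold cond2
      split_ifs <;> decide
    · exact (pc.mul_right _).trans h.cb.symm.dvd
  obtain ⟨k, hk⟩ := pc
  refine dw_of (k := k * m) hp p2 (h.spl p hp p2 ((dvd_cnd h.fs hp ⟨k, hk⟩).resolve_left p2))
    (fun e => ?_) (by rw [hD, hk]; push_cast; ring) p1 fun e => hg ?_
  · have e1 : p * p ∣ 2 ^ 3 * X.f.natAbs := (mul_dvd_mul_left p ((hp.dvd_mul.1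
      (by exact_mod_cast e)).resolve_right pm)).trans (by
        rw [← hk, Dat.c, cnd, cond_eq h.fs]
        split_ifs
        exacts [dvd_mul_left _ _, mul_dvd_mul_right (by decide) _])
    exact hp.prime.not_isUnit (Int.squarefree_natAbs.2 h.fs p
      ((c2.mul_left c2).dvd_of_dvd_mul_left e1))
  · rw [gD, gch, Finset.prod_eq_zero po, mul_zero]
    rw [if_pos p1, jacobiSym.mod_left, Int.emod_eq_zero_of_dvd e, jacobiSym.zero_left hp.one_lt]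

theorem ga_key (h : X.Ok) (σ : ℂ ≃+* ℂ) : ∃ e : ℤ, (e = 1 ∨ e = -1) ∧
    ∀ (ρ β D : ℤ) (m : ℕ) (z z' : ℂ), 4 * (X.N : ℤ) ∣ ρ ^ 2 + X.n → m ≠ 0 → m.Coprime X.N →
      D = -(X.n * (X.c * m : ℕ) ^ 2) → β = ρ * (X.c * m : ℕ) → Pd X.N σ z z' →
      nuW (zF X.N (gD (X.f * X.b)) (X.f * X.b).sign D β) z ≠ 0 →
      nuW (zF X.N (gD (X.f * X.b)) (X.f * X.b).sign D β) z' =
        e * nuW (zF X.N (gD (X.f * X.b)) (X.f * X.b).sign D β) z := by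
  obtain ⟨e, s, he, hs, k1, k⟩ := ga_form h.sqf h.mod4 h.gt h.cop h.sb σ
  have ht : (X.f * X.b).sign * (X.f * X.b).sign = 1 := by
    rw [← Int.sign_mul, Int.sign_eq_one_of_pos (mul_self_pos.2 h.sb.ne_zero)]
  refine ⟨(if s = 1 then 1 else (X.f * X.b).sign) * e, Int.isUnit_iff.1 (IsUnit.mul ?_
    (Int.isUnit_iff.2 he)), ?_⟩
  · split_ifs
    exacts [isUnit_one, .of_mul_eq_one _ ht]
  rintro ρ _ D m z z' hρ m0 m1 hD rfl hc hz
  have M0 := mul_ne_zero h.c0 m0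
  have D0 : D < 0 := by
    have := h.n0
    rw [hD]
    exact neg_lt_zero.2 (by positivity)
  have a2 := h.ga_two.mul_right m
  have ao : odp (X.f * X.b) ∣ X.n * (X.c * m) := mul_assoc X.n _ _ ▸ h.ga_odd.mul_right m
  obtain ⟨R, r1, rfl⟩ := exists_of_nuW hz
  obtain ⟨r2, r3, r4⟩ := zF_spec r1
  obtain ⟨r, hr, r5⟩ : ∃ r : ℤ, 4 * (X.N : ℤ) ∣ r ^ 2 + X.n ∧
      G5.Fam X.N D (r * (X.c * m : ℕ)) R :=
    r4.elim (fun k => ⟨ρ, hρ, k⟩) fun k => ⟨-ρ, by rwa [neg_sq], by rwa [neg_mul]⟩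
  obtain ⟨R', b1, b2, b3, b4⟩ := k r _ R hr M0 a2 ao r2 (r5.2.1.trans hD) r3
  have b5 : fdisc R' = fdisc R := b2.2.1.trans (hD.symm.trans r5.2.1.symm)
  have b6 : 2 * (X.N : ℤ) ∣ R'.2.1 - s * R.2.1 :=
    (b2.2.2.sub (r5.2.2.mul_left s)).trans ⟨1, by ring⟩
  have b7 := zF_eq (D := D) (ρ := ρ * (X.c * m : ℕ)) r5.1 b2.1 b5 r2 b1 hs ht b6 b4
  have b8 : gD (X.f * X.b) R' ≠ 0 := b4 ▸ mul_ne_zero (by omega) r3
  obtain ⟨g, hg, rfl⟩ := pd_g0 h.lsq h.lodd hc (r5.2.1 ▸ D0) (fun p p1 p2 p3 =>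
    ⟨h.dw m1 (r5.2.1.trans hD) r5.1 r3 p1 p2 p3, h.dw m1 b2.2.1 b2.1 b8 p1 p2 (b5 ▸ p3)⟩)
    b5 r2 b1 r5.1 b2.1 (hc.j.trans b3.symm) (by rcases hs with rfl | rfl <;> rfl)
    ((dvd_mul_left _ 2).trans b6) fun x hx => k1 (X.c * m) x (by
      rw [hx, r5.2.1, hD]; push_cast; ring)
  have w := ga_wt (N := X.N) (ρ := ρ * (X.c * m : ℕ)) D0 (fun Q R q1 q2 => lq_inv h.sb ?_ ?_ q2)
    (abs_gD_le (X.f * X.b)) (X.f * X.b)
  · rw [w.nuW_inv D0 (fun S hS => (zF_spec hS).1) g hg _ (im_froot_pos (b5 ▸ r5.2.1 ▸ D0) b1),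
      ga_nu D0 r1, ← b7]
    exact nuW_froot (fun S hS => ⟨(w.disc S hS).trans (b5.trans r5.2.1).symm, (zF_spec hS).1⟩)
      (b5 ▸ r5.2.1 ▸ D0) b1
  · refine or_iff_not_imp_left.2 fun h4 => ?_
    have a3 := Int.natCast_dvd_natCast.2 a2
    rw [q1, hD, dvd_neg, sq]
    refine (mul_dvd_mul (dvd_trans ?_ a3) a3).mul_left _
    unfold cond2
    split_ifs <;> decide
  · rw [q1, hD, dvd_neg, sq, ← mul_assoc]
    exact Dvd.dvd.mul_right (by exact_mod_cast ao) _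

end Dat.Ok

theorem gp_stmt : GPStmt := fun X h => by
  have h0 := h.N0
  have k0 : ∀ {a a' e e' : ℤ}, (e' = 1 ∨ e' = -1) → (a ≠ 0 → a' = e * a) → (a' ≠ 0 → a = e' * a') →
      a' = e * a := fun {a a' e e'} he k k' => by
    by_cases ha : a = 0
    · rw [ha, mul_zero]
      exact by_contra fun ha' => mul_ne_zero (by omega) ha' ((k' ha').symm.trans ha)
    · exact k ha
  refine ⟨fun σ => ?_, fun z z' hz hc => ?_⟩
  · obtain ⟨e, he, k⟩ := h.ga_key σ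
    obtain ⟨e', he', k'⟩ := h.ga_key σ.symm
    refine ⟨e, he, fun m z z' m0 m1 hc => ?_, fun z z' hc => ?_⟩
    · have D0 : X.D * m ^ 2 < 0 := mul_neg_of_neg_of_pos h.neg (by positivity)
      have e1 : X.D * m ^ 2 = -(X.n * (X.c * m : ℕ) ^ 2) := by
        rw [Dat.D]
        push_cast
        ring
      have e2 : -(X.ρ' * X.c * m) = -X.ρ' * (X.c * m : ℕ) := by
        push_cast
        ring
      have e3 : 4 * (X.N : ℤ) ∣ (-X.ρ') ^ 2 + X.n := by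
        rw [neg_sq]
        exact h.root'
      rw [Dat.Y, nuW_fV h0 D0 hc.pos, nuW_fV h0 D0 hc.pos']
      exact k0 he' (k _ _ _ m _ _ e3 m0 m1 e1 e2 (pd_W h0 hc))
        (k' _ _ _ m _ _ e3 m0 m1 e1 e2 (pd_W h0 hc.symm))
    · have e1 : X.D = -(X.n * (X.c * 1 : ℕ) ^ 2) := by rw [mul_one, Dat.D]
      have e2 : X.ρ * X.c = X.ρ * (X.c * 1 : ℕ) := by rw [mul_one]
      exact k0 he' (k _ _ _ 1 _ _ h.root one_ne_zero (Nat.coprime_one_left _) e1 e2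
        (pd_of_pc h0 hc)) (k' _ _ _ 1 _ _ h.root one_ne_zero (Nat.coprime_one_left _) e1 e2
          (pd_of_pc h0 hc.symm))
  · obtain ⟨R, r1, rfl⟩ := exists_of_nuW hz
    obtain ⟨r2, r3, r4⟩ := zF_spec r1
    have r5 : (X.N : ℤ) ∣ R.1 := r4.elim (·.1) (·.1)
    have r6 : fdisc R = X.D := r4.elim (·.2.1) (·.2.1)
    have r7 := fun p p1 p2 p3 => h.dw (p := p) (Nat.coprime_one_left _)
      (by rw [r6, mul_one, Dat.D]) r5 r3 p1 p2 p3
    exact pd_g0 (s := 1) h.lsq h.lodd (pd_of_pc h0 hc) (r6 ▸ h.neg)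
      (fun p p1 p2 p3 => ⟨r7 p p1 p2 p3, r7 p p1 p2 p3⟩) rfl r2 r2 r5 r5 (pd_of_pc h0 hc).j rfl
      (by simp) (by simp)

end Pool.Agent.G7
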