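import Pool.Agent.Lib.MP_696deb_nt.B7.Z1
import Pool.Agent.Lib.MP_696deb_nt.B5.LCc

/-! The genus character of a twist sums to zero on each orientation. -/

set_option autoImplicit false

open Finset NumberTheorySymbols
open scoped Classical

namespace Pool.Agent.G7

open Pool.Agent.Lib.MP_696deb_nt Pool.Agent.Lib.MP_696deb_nt.Gal
open Pool.Agent.Lib.MP_696deb_nt.B3 (kro chi2 odp cond2 PChr pchr_kro pchr_chi2 kro_odd)

variable {N l : ℕ} {D r s d e x y : ℤ} {T : Finset Fm} {Q R : Fm} {X : Dat}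

/-- A weight that changes sign under a translation of the classes sums to zero. -/
theorem lc_sum_sh (h : G5.FReps N D r T) (hD : D < 0) (ω : Fm → ℤ) (hl : l.Prime) (h2 : l ≠ 2)
    (hN : ¬ (l : ℤ) ∣ N) (hs : (l : ℤ) ∣ s ^ 2 - D) (h0 : ¬ (l : ℤ) ∣ s)
    (hi : ∀ Q R, fdisc Q = D → G5.FEq N Q R → ω R = ω Q)
    (hw : ∀ Q, (l : ℤ) ∣ Q.1 → ω (sh l Q) = -ω Q) : ∑ Q ∈ T, ω Q = 0 := by
  have hP := Nat.prime_iff_prime_int.1 hl
  have cN : IsCoprime (l : ℤ) N := hP.coprime_iff_not_dvd.2 hN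
  have : ∀ Q ∈ T, ∃ R, G5.FEq N Q R ∧ (l : ℤ) ∣ R.1 ∧ (l : ℤ) ∣ R.2.1 - s := fun Q hQ => by
    obtain ⟨a, b, c, d, e, k1, k2⟩ := exists_type (r := s) Q (N := N) hP
      (not_dvd_of_prime_ne hl Nat.prime_two h2) hN (by rwa [(h.fam Q hQ).2.1])
    exact ⟨_, ⟨a, b, c, d, e, rfl⟩, k1, k2⟩
  choose! ψ p1 p2 p3 using this
  have f1 := fun Q hQ => (p1 Q hQ).fam (h.fam Q hQ)
  have s1 : ∀ Q ∈ T, G5.Fam N D r (sh l (ψ Q)) ∧ 0 < (sh l (ψ Q)).1 := fun Q hQ => by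
    obtain ⟨a, ha⟩ := cN.mul_dvd (p2 Q hQ) (f1 Q hQ).1
    have l0 : (0 : ℤ) < l := by exact_mod_cast hl.pos
    have e : (ψ Q).1 / l = N * a := by rw [ha, mul_assoc, Int.mul_ediv_cancel_left _ l0.ne']
    refine ⟨⟨⟨a, e⟩, ?_, (f1 Q hQ).2.2⟩, Int.ediv_pos_of_pos_of_dvd
      ((p1 Q hQ).pos ((h.fam Q hQ).2.1 ▸ hD) (h.pos Q hQ)) l0.le (p2 Q hQ)⟩
    rw [← (f1 Q hQ).2.1]
    simp only [fdisc, sh, e]
    rw [ha]
    ring
  choose! φ q1 q2 using fun Q hQ => h.ex _ (s1 Q hQ).1 (s1 Q hQ).2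
  have i1 : Set.InjOn φ T := fun Q hQ Q' hQ' e => h.uniq Q hQ Q' hQ' (((p1 Q hQ).trans
    (G5.feq_of_sh hl h2 (fun h => h0 (by simpa using dvd_sub h (p3 Q hQ))) (p2 Q hQ)
      (p2 Q' hQ') (by simpa using dvd_sub (p3 Q' hQ') (p3 Q hQ))
      ((q2 Q hQ).symm.trans (e ▸ q2 Q' hQ')))).trans (p1 Q' hQ').symm)
  have e : ∑ Q ∈ T, ω (φ Q) = ∑ Q ∈ T, ω Q := sum_nbij φ q1 i1
    (Finset.surjOn_of_injOn_of_card_le φ q1 i1 le_rfl) fun _ _ => rfl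
  rw [sum_congr rfl fun Q hQ => show ω (φ Q) = -ω Q by
    rw [← hi _ _ (h.fam _ (q1 Q hQ)).2.1 (q2 Q hQ), hw _ (p2 Q hQ),
      hi _ _ (h.fam Q hQ).2.1 (p1 Q hQ)], sum_neg_distrib] at e
  omega

theorem lc_cond2_dvd (d : ℤ) : (cond2 d : ℤ) ∣ 8 := by
  unfold cond2
  split_ifs <;> norm_num

theorem lc_chi2_sq (d : ℤ) (h : ¬ 2 ∣ x) : chi2 d x ^ 2 = 1 :=
  (pchr_chi2 d).sq ((Int.prime_two.coprime_iff_not_dvd.2 h).symm.pow_right (n := 3)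
    |>.of_isCoprime_of_dvd_right (lc_cond2_dvd d))

theorem lc_chi2_even (hd : d % 4 ≠ 1) (h : 2 ∣ x) : chi2 d x = 0 :=
  (pchr_chi2 d).zero _ fun k => Int.prime_two.not_isUnit (k.isUnit_of_dvd' h (by
    unfold cond2
    rw [if_neg hd]
    split_ifs <;> norm_num))

theorem lc_chi2_eq {z k : ℤ} (hx : ¬ 2 ∣ x) (hy : ¬ 2 ∣ y) (hd : d % 4 ≠ 1)
    (h : x * y = z ^ 2 - cond2 d * k) : chi2 d x = chi2 d y := by
  have c2 : (2 : ℤ) ∣ cond2 d := by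
    unfold cond2
    rw [if_neg hd]
    split_ifs <;> norm_num
  have hz : ¬ 2 ∣ z := fun e => (Int.prime_two.dvd_or_dvd
    (h ▸ dvd_sub (dvd_pow e two_ne_zero) (c2.mul_right k))).elim hx hy
  have e := (pchr_chi2 d).per (x * y) (z * z) ⟨-k, by linear_combination h⟩
  rw [(pchr_chi2 d).mul, (pchr_chi2 d).mul, ← pow_two, lc_chi2_sq d hz] at e
  linear_combination chi2 d y * e - chi2 d x * lc_chi2_sq d hy

/-- The component at two is the value on an odd represented number. -/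
theorem lc_chi2_val (hd : d % 4 ≠ 1) (h : 4 * (cond2 d : ℤ) ∣ fdisc Q) (hv : ¬ 2 ∣ fval Q x y) :
    chi2 d (if 2 ∣ Q.1 then Q.2.2 else Q.1) = chi2 d (fval Q x y) := by
  obtain ⟨a, b, c⟩ := Q
  obtain ⟨k, hk⟩ := h
  simp only [fdisc, fval] at hk hv ⊢
  obtain ⟨b, rfl⟩ : 2 ∣ b := Int.prime_two.dvd_of_dvd_pow (n := 2)
    ⟨2 * (cond2 d * k + a * c), by linear_combination hk⟩
  have e : b ^ 2 - a * c = cond2 d * k := by linarith
  split_ifs with h1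
  · refine lc_chi2_eq (fun h2 => hv ((((h1.mul_right _).add
      (((dvd_mul_right 2 b).mul_right _).mul_right _))).add (h2.mul_right _))) hv hd
      (z := b * x + c * y) (k := k * x ^ 2) (by linear_combination -x ^ 2 * e)
  · exact lc_chi2_eq h1 hv hd (z := a * x + b * y) (k := k * y ^ 2)
      (by linear_combination -y ^ 2 * e)

theorem lc_gD_feq (hd : Squarefree d) (h1 : (odp d : ℤ) ∣ fdisc Q)
    (h2 : d % 4 ≠ 1 → 4 * (cond2 d : ℤ) ∣ fdisc Q) (h : G5.FEq N Q R) : gD d R = gD d Q := by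
  rw [gD, gD, h.gch (B3.odp_odd hd) h1]
  congr 1
  by_cases h4 : d % 4 = 1
  · rw [chi2, chi2, if_pos h4, if_pos h4]
  have key : ∀ Q R : Fm, 4 * (cond2 d : ℤ) ∣ fdisc Q → G5.FEq N Q R →
      ¬ 2 ∣ (if 2 ∣ R.1 then R.2.2 else R.1) → chi2 d (if 2 ∣ R.1 then R.2.2 else R.1) =
        chi2 d (if 2 ∣ Q.1 then Q.2.2 else Q.1) := by
    rintro Q _ k ⟨a, b, c, e, -, rfl⟩ k'
    by_cases j : 2 ∣ (fmap Q a b (N * c) e).1
    · rw [if_pos j] at k' ⊢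
      exact (lc_chi2_val h4 k k').symm
    · rw [if_neg j]
      exact (lc_chi2_val h4 k j).symm
  by_cases k : 2 ∣ (if 2 ∣ R.1 then R.2.2 else R.1)
  · by_cases k' : 2 ∣ (if 2 ∣ Q.1 then Q.2.2 else Q.1)
    · rw [lc_chi2_even h4 k, lc_chi2_even h4 k']
    · exact (key R Q (h.disc ▸ h2 h4) h.symm k').symm
  · exact key Q R (h2 h4) h k

theorem lc_gD_sh (hd : Squarefree d) (hl : l.Prime) (h2 : l ≠ 2) (hc : ¬ l ∣ odp d)
    (h : (l : ℤ) ∣ Q.1) : gD d (sh l Q) = kro d l * gD d Q := by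
  have o : ¬ (2 : ℤ) ∣ l := not_dvd_of_prime_ne Nat.prime_two hl h2.symm
  rw [gD, gD, G5.gch_sh (B3.odp_sqf hd) hl hc h, kro, mul_mul_mul_comm]
  congr 1
  obtain ⟨_, b, c⟩ := Q
  obtain ⟨a, rfl⟩ := h
  have l0 : (l : ℤ) ≠ 0 := by exact_mod_cast hl.ne_zero
  simp only [sh, Int.mul_ediv_cancel_left _ l0, Int.prime_two.dvd_mul, o, false_or]
  split_ifs
  · rw [(pchr_chi2 d).mul, mul_comm]
  · rw [(pchr_chi2 d).mul, ← mul_assoc, ← pow_two, lc_chi2_sq d o, one_mul]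

theorem lc_prime_one (hd : Squarefree d) (h : d ≠ 1) (M : ℕ) :
    ∃ q > M, q.Prime ∧ kro d q = -1 := by
  obtain ⟨p, hp, C, hC⟩ := Nat.exists_prime_and_dvd (cnd_gt hd h).ne'
  obtain ⟨u, -, hu⟩ := (pchr_kro hd).prim p C hp hC
  obtain ⟨q, q1, q2, q3⟩ := Nat.forall_exists_prime_gt_and_zmodEq M (cnd_ne hd)
    ((pchr_kro hd).cop (a := u) (by omega))
  exact ⟨q, q1, q2, ((pchr_kro hd).per _ _ q3.symm.dvd).trans hu⟩

/-- A prime at which two nontrivial characters are both nontrivial. -/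
theorem lc_prime_two (hd : Squarefree d) (he : Squarefree e) (h : d ≠ 1) (h' : e ≠ 1) (M : ℕ) :
    ∃ q > M, q.Prime ∧ kro d q = -1 ∧ kro e q = -1 := by
  have c0 := mul_ne_zero (cnd_ne hd) (cnd_ne he)
  obtain ⟨u, u1, u2, u3⟩ := lc_prime_one hd h (cnd d * cnd e)
  obtain ⟨v, v1, v2, v3⟩ := lc_prime_one he h' (cnd d * cnd e)
  have cop : ∀ q : ℕ, q > cnd d * cnd e → q.Prime → IsCoprime (q : ℤ) (cnd d * cnd e : ℕ) :=
    fun q h1 h2 => Nat.isCoprime_iff_coprime.2 (h2.coprime_iff_not_dvd.2 fun k =>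
      absurd (Nat.le_of_dvd c0.bot_lt k) h1.not_ge)
  have cu := cop u u1 u2
  have cv := cop v v1 v2
  obtain ⟨k, k0, k1, k2⟩ : ∃ k : ℤ, IsCoprime k (cnd d * cnd e : ℕ) ∧ kro d k = -1 ∧
      kro e k = -1 := by
    rw [Nat.cast_mul] at cu cv ⊢
    rcases (pchr_kro he).unit cu.of_mul_right_right with a | a
    · rcases (pchr_kro hd).unit cv.of_mul_right_left with b | b
      · exact ⟨u * v, cu.mul_left cv, by rw [(pchr_kro hd).mul, u3, b, mul_one],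
          by rw [(pchr_kro he).mul, v3, a, one_mul]⟩
      · exact ⟨v, cv, b, v3⟩
    · exact ⟨u, cu, u3, a⟩
  obtain ⟨q, q1, q2, q3⟩ := Nat.forall_exists_prime_gt_and_zmodEq M c0 k0
  have q4 := q3.symm.dvd
  rw [Nat.cast_mul] at q4
  exact ⟨q, q1, q2, ((pchr_kro hd).per _ _ ((dvd_mul_right _ _).trans q4)).trans k1,
    ((pchr_kro he).per _ _ ((dvd_mul_left _ _).trans q4)).trans k2⟩

theorem Dat.Ok.lc_gD (h : X.Ok) (hQ : fdisc Q = X.D) (e : G5.FEq N Q R) :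
    gD (X.f * X.b) R = gD (X.f * X.b) Q := by
  have e4 : X.f * X.b % 4 = X.f % 4 := by rw [Int.mul_emod, h.b4, mul_one, Int.emod_emod]
  refine lc_gD_feq h.sb ?_ (fun k => ?_) e
  · rw [hQ, Dat.D, dvd_neg]
    refine (Int.natCast_dvd_natCast.2 (B3.odp_dvd _)).trans (Int.natAbs_dvd.2 ?_)
    rw [mul_comm]
    exact mul_dvd_mul h.b_dvd ((B3.dvd_cond h.fs).trans (dvd_pow_self _ two_ne_zero))
  · rw [hQ, Dat.D, dvd_neg, Dat.c, cnd, B3.cond]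
    refine Dvd.dvd.mul_left ?_ _
    rw [Nat.cast_mul, mul_pow]
    refine Dvd.dvd.mul_right ?_ _
    unfold cond2
    rw [e4] at k ⊢
    rw [if_neg k]
    split_ifs <;> norm_num

/-- The genus character sums to zero. -/
theorem Dat.Ok.sum_gD (h : X.Ok) (hT : G5.FReps X.N X.D r T) :
    ∑ Q ∈ T, gD (X.f * X.b) Q = 0 := by
  obtain ⟨l, h0, hl, ka, kb⟩ := lc_prime_two h.sa h.sb h.A1 h.B1 (2 + X.N + X.n + X.c)
  have hP := Nat.prime_iff_prime_int.1 hl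
  have nd : ∀ k : ℕ, k ≠ 0 → k ≤ 2 + X.N + X.n + X.c → ¬ (l : ℤ) ∣ k := fun k h1 h2 h =>
    absurd (Nat.le_of_dvd h1.bot_lt (Int.natCast_dvd_natCast.mp h)) (by omega)
  have o : Odd l := hl.odd_of_ne_two (by omega)
  have hJ : J(-X.n * X.f ^ 2 | l) = 1 := by
    rw [show -X.n * X.f ^ 2 = X.f * X.a * (X.f * X.b) by rw [← h.mul]; ring, jacobiSym.mul_left,
      ← kro_odd h.sa o, ← kro_odd h.sb o, ka, kb]
    rfl
  have := Fact.mk hl
  have hJ' : J(-X.n | l) = 1 := by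
    rw [jacobiSym.mul_left, jacobiSym.pow_left] at hJ
    rcases jacobiSym.trichotomy X.f l with e | e | e <;> rw [e] at hJ <;> omega
  obtain ⟨s, hs⟩ := ZMod.isSquare_of_jacobiSym_eq_one hJ'
  obtain ⟨s, rfl⟩ := ZMod.intCast_surjective s
  have h5 : (l : ℤ) ∣ s ^ 2 + X.n := (ZMod.intCast_zmod_eq_zero_iff_dvd _ _).1 (by
    push_cast at hs ⊢
    linear_combination -hs)
  refine lc_sum_sh hT h.neg _ hl (by omega) (nd _ h.N0 (by omega)) (s := s * X.c)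
    (by rw [Dat.D, show (s * X.c) ^ 2 - -(X.n * X.c ^ 2) = (s ^ 2 + X.n) * X.c ^ 2 by ring]
        exact h5.mul_right _)
    (fun k => (hP.dvd_or_dvd k).elim (fun k => nd _ h.n0 (by omega)
      ((dvd_add_right (dvd_pow k two_ne_zero)).1 h5)) (nd _ h.c0 (by omega)))
    (fun Q R => h.lc_gD) fun Q hQ => ?_
  rw [lc_gD_sh h.sb hl (by omega) (fun k => ?_) hQ, kb, neg_one_mul]
  have := kro_zero h.sb hl (k.trans (dvd_mul_left _ _))
  omega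

end Pool.Agent.G7
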