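import Pool.Agent.Lib.MP_696deb_nt.B7.HT7b
import Pool.Agent.Lib.MP_696deb_nt.B7.LC7a

/-! The places above a split prime do not contribute. -/

set_option autoImplicit false

open Finset NumberTheorySymbols
open scoped Classical NNReal

namespace Pool.Agent.G7

open Pool.Agent.Lib.MP_696deb_nt Pool.Agent.B4.GE Pool.Agent.Shared.Weier
open Pool.Agent.G5 hiding Cx Yw Cw zs Ori CNStmt HWStmt LTStmt GLStmt LAStmt SWStmt NUStmt WPStmt
  HTStmt GZStmt LFStmt LRStmt LQStmt GPStmt LCStmt NSStmt ARStmt exists_JM zv_hpt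
  isCM_froot lc_stmt
open Pool.Agent.B5 (IntW valOf Aff)
open Pool.Agent.Dih (Yv Zv HI hpt mem_HI)

variable {l l₀ j : ℕ} {r : ℤ} {T : Finset Fm} {Q Q' R R' : Fm} {X : Dat}
  {t : (_ : ℕ × ℕ) × ℕ}

theorem lc_sum_zero {ω : Fm → ℤ} (F : Fm → ℝ) (h : ∑ Q ∈ T, ω Q = 0)
    (k : ∀ Q ∈ T, ∀ Q' ∈ T, ω Q ≠ 0 → ω Q' ≠ 0 → F Q = F Q') : ∑ Q ∈ T, ω Q • F Q = 0 := by
  by_cases e : ∃ Q₀ ∈ T, ω Q₀ ≠ 0
  · obtain ⟨Q₀, q0, q1⟩ := e
    rw [sum_congr rfl fun Q hQ => show ω Q • F Q = ω Q • F Q₀ by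
      by_cases e : ω Q = 0
      · rw [e, zero_smul, zero_smul]
      · rw [k Q hQ Q₀ q0 e q1], ← sum_smul, h, zero_smul]
  · exact sum_eq_zero fun Q hQ => by rw [of_not_not fun k => e ⟨Q, hQ, k⟩, zero_smul]

/-- The forms that carry the weight lie below at the primes of the common part. -/
theorem Dat.Ok.lc_down (h : X.Ok) (hl : l.Prime) (hN : l ∣ X.N) (hc : l ∣ X.c)
    (h1 : (l : ℤ) ∣ Q.1) (g : gD (X.f * X.b) Q ≠ 0) : ¬ (l : ℤ) ∣ Q.2.2 := fun k => by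
  have o := h.lodd.of_dvd_nat hN
  have d : l ∣ B3.odp (X.f * X.b) := by
    have e : l ∣ B3.cond (X.f * X.b) := by
      have := h.cb
      rw [cnd] at this
      exact this ▸ hc.mul_right _
    refine (Nat.Coprime.dvd_mul_left ?_).1 e
    exact Nat.Coprime.coprime_dvd_right (Int.natCast_dvd_natCast.1 (lc_cond2_dvd _))
      ((Nat.coprime_two_right.2 o).pow_right 3)
  refine g (mul_eq_zero_of_right _ (prod_eq_zero (Nat.mem_primeFactors.2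
    ⟨hl, d, (B3.odp_sqf h.sb).ne_zero⟩) ?_))
  rw [if_pos h1, jac_zero_of_dvd hl k]

variable {W : WeierstrassCurve ℚ} [W.IsElliptic] {P : Par W X.N} {v : AbsoluteValue ℂ ℝ}
  {a : ℕ →₀ ℤ} {u : ℂ} {V : ℂ → ℂ}

/-- The Green function takes the same value on corresponding points. -/
theorem Dat.Ok.lc_pair (ok : X.Ok) (I : IntW v (W.baseChange ℂ)) (hv : v l < 1) (hl : l.Prime)
    (hl₀ : l₀.Prime) (hne : l ≠ l₀) (h2 : l₀ ≠ 2) (hJ : et X.n l₀ = -1) (h1 : et X.n l = 1)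
    (ha : Sup (X.N * l * l₀) a) (h : Th X.N (cmb (fun m => nuW (X.Y m)) a) (U1 P.L P.F u) V)
    (hj : l ∣ X.N → j = 0) (f : G5.Fam X.N X.D r Q) (f' : G5.Fam X.N X.D r Q') (p : 0 < Q.1)
    (p' : 0 < Q'.1) (g : gD (X.f * X.b) Q ≠ 0) (g' : gD (X.f * X.b) Q' ≠ 0)
    (ht : t ∈ HI (l₀ * l ^ j)) :
    gv v P u V (hpt t (froot Q)) = gv v P u V (hpt t (froot Q')) := by
  have h4 := ok.mod4
  have hP := Nat.prime_iff_prime_int.1 hl
  have hD : (-X.n : ℤ) < 0 := by omega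
  have hV : valOf I.na l < 1 := hv
  have c₀ := ok.nd_c hl₀ h2 hJ
  have h₀ := ok.nd_N hl₀ (by omega)
  have m₀ : ¬ l₀ ∣ l ^ j := fun e =>
    hne ((Nat.prime_dvd_prime_iff_eq hl₀ hl).1 (hl₀.dvd_of_dvd_pow e)).symm
  obtain ⟨J, m, j1, j2, j3, j4⟩ := ok.exists_JM fun c hc => (ha c hc).1
  have c : ∀ k ∈ J, v k ≤ 1 ∧ ∀ x, Zv l₀ (-X.n) x → v (jf x - k) = 1 := fun k hk => by
    obtain ⟨S, c, s1, s2, s3, rfl⟩ := j4 k hk
    have s5 := ok.nd_cm hl₀ h2 hJ ha s1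
    have s4 := isCM_froot (s3 ▸ mul_neg_of_neg_of_pos hD (by
      have := ne_zero_of_not_dvd' s5; positivity)) s2
    refine ⟨s4.val_jf (valOf I.na), fun x hx => ?_⟩
    have := (yv_froot hD s2 s5 s3).val_sub hx hl₀ hD hl hV hne
      (s4.ord hl hV (s3 ▸ split_of_jac h4 hl h1 _))
    rw [v.map_sub]
    exact congrArg NNReal.toReal this
  have e : ∀ {Q : Fm}, G5.Fam X.N X.D r Q → fdisc Q = -X.n * X.c ^ 2 := fun f =>
    f.2.1.trans (neg_mul _ _).symm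
  have z := zv_hpt ok.sqf h4 p (e f) hl₀ hJ c₀ m₀ ht
  have z' := zv_hpt ok.sqf h4 p' (e f') hl₀ hJ c₀ m₀ ht
  obtain ⟨r1, r2, r3, -⟩ := fpi_form (f.2.1 ▸ ok.neg) p ht
  obtain ⟨s1, s2, s3, -⟩ := fpi_form (f'.2.1 ▸ ok.neg) p' ht
  have hM : (0 : ℤ) < ((l₀ * l ^ j : ℕ) : ℤ) ^ 2 := by
    have := hl.pos
    have := hl₀.pos
    positivity
  have d0 := mul_neg_of_neg_of_pos ok.neg hM
  rw [f.2.1] at r3
  rw [f'.2.1] at s3
  have cm := isCM_froot (r3 ▸ d0) r1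
  have cm' := isCM_froot (s3 ▸ d0) s1
  rw [← r2] at z ⊢
  rw [← s2] at z' ⊢
  have k : Aff X.N (valOf I.na) _ → Aff X.N (valOf I.na) _ → _ := fun b b' =>
    gv_const I h (fun z _ => j1 z) (fun z _ => j3 z) (fun k hk => (c k hk).1) b b'
      (fun k hk => (c k hk).2 _ z) fun k hk => (c k hk).2 _ z'
  by_cases hlN : l ∣ X.N
  swap
  · have e : valOf I.na X.N = 1 := by
      simpa using val_int_eq_one hl hV (n := X.N) (mt Int.natCast_dvd_natCast.1 hlN)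
    exact k (.of_unit P.N0 e cm.1 (cm.val_jf _)) (.of_unit P.N0 e cm'.1 (cm'.val_jf _))
  obtain rfl := hj hlN
  have hN := Int.natCast_dvd_natCast.2 hlN
  have l2 : l ≠ 2 := by
    rintro rfl
    exact (Nat.not_even_iff_odd.2 ok.lodd) (even_iff_two_dvd.2 hlN)
  have n1 : ∀ {Q : Fm}, G5.Fam X.N X.D r Q → (X.N : ℤ) ∣ (fmap Q t.1.2 (-t.2) 0 t.1.1).1 :=
    fun f => by simpa [fmap, fval] using f.1.mul_right _
  have t1 : (t.1.1 * t.1.2 : ℤ) = l₀ := by exact_mod_cast (mem_HI.1 ht).1.trans (by simp)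
  by_cases hc : l ∣ X.c
  · obtain ⟨c', hc'⟩ := id hc
    have c0 : c' ≠ 0 := right_ne_zero_of_mul (hc' ▸ ok.c0)
    have aff : ∀ {Q : Fm}, G5.Fam X.N X.D r Q → gD (X.f * X.b) Q ≠ 0 →
        0 < (fmap Q t.1.2 (-t.2) 0 t.1.1).1 →
        fdisc (fmap Q t.1.2 (-t.2) 0 t.1.1) = X.D * ((l₀ * l ^ 0 : ℕ) : ℤ) ^ 2 →
        Aff X.N (valOf I.na) (froot (fmap Q t.1.2 (-t.2) 0 t.1.1)) := fun {Q} f g r1 r3 => by
      have a1 := hN.trans f.1
      have a2 : (l : ℤ) ∣ Q.2.1 := hP.dvd_of_dvd_pow (n := 2) (by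
        have := e f
        rw [fdisc, hc', sub_eq_iff_eq_add] at this
        rw [this]
        exact dvd_add ⟨-X.n * l * c' ^ 2, by push_cast; ring⟩ ((a1.mul_left 4).mul_right _))
      refine aff_dn ok.lsq hl hV l2 hlN (D := -X.n * (c' * l₀ : ℤ) ^ 2)
        (mul_neg_of_neg_of_pos hD (by have := hl₀.pos; positivity)) (split_of_jac h4 hl h1 _)
        (by rw [r3, Dat.D, hc']; push_cast; ring) r1 (hN.trans (n1 f)) fun k => ?_
      refine (hP.dvd_or_dvd ((dvd_add_right ((a1.mul_right _).add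
        ((a2.mul_right _).mul_right _))).1 k)).elim (ok.lc_down hl hlN hc a1 g) fun k => ?_
      exact not_dvd_of_prime_ne hl hl₀ hne (t1 ▸ (hP.dvd_of_dvd_pow k).mul_right _)
    exact k (aff f g r1 r3) (aff f' g' s1 s3)
  have nd : ¬ (l : ℤ) ∣ X.D * ((l₀ * l ^ 0 : ℕ) : ℤ) ^ 2 := fun e => by
    rcases hP.dvd_or_dvd e with e | e
    · rcases hP.dvd_or_dvd (dvd_neg.1 e) with e | e
      · exact not_dvd_of_jac h4 hl (h1.trans_ne one_ne_zero) (by exact_mod_cast e)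
      · exact hc (by exact_mod_cast hP.dvd_of_dvd_pow e)
    · exact not_dvd_of_prime_ne hl hl₀ hne (by simpa using hP.dvd_of_dvd_pow e)
  have b := val_froot hl hV l2 P.N0 hlN (r3 ▸ d0) r1 (n1 f) (r3 ▸ nd)
  have b' := val_froot hl hV l2 P.N0 hlN (s3 ▸ d0) s1 (n1 f') (s3 ▸ nd)
  have d : (l : ℤ) ∣ (fmap Q' t.1.2 (-t.2) 0 t.1.1).2.1 - (fmap Q t.1.2 (-t.2) 0 t.1.1).2.1 := by
    obtain ⟨x, hx⟩ := hN.trans f.1
    obtain ⟨y, hy⟩ := hN.trans f'.1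
    obtain ⟨w, hw⟩ := (hN.mul_left 2).trans (dvd_sub f'.2.2 f.2.2)
    refine ⟨2 * (x - y) * t.1.2 * t.2 + w * l₀, ?_⟩
    simp only [fmap, hx, hy]
    linear_combination l₀ * hw + (Q'.2.1 - Q.2.1) * t1
  rw [r3] at b
  rw [s3] at b'
  generalize fmap Q t.1.2 (-t.2) 0 t.1.1 = R at *
  generalize fmap Q' t.1.2 (-t.2) 0 t.1.1 = R' at *
  by_cases e : valOf I.na (R.2.1 + √(-(X.D * ((l₀ * l ^ 0 : ℕ) : ℤ) ^ 2 : ℤ) : ℝ) * Complex.I) = 1
  · exact k (b.1 e) (b'.1 (val_shift hV d e))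
  have w : ∀ {x : ℂ}, Zv l₀ (-X.n) x → Zv l₀ (-X.n) (-1 / (X.N * x)) := fun hx =>
    act_W X.N _ ▸ hx.act hl₀ (by simpa using Nat.pos_of_ne_zero P.N0)
      (by simpa using mt Int.natCast_dvd_natCast.1 h₀)
  have a1 := b.2 e
  have a2 := b'.2 fun e' => e (val_shift hV (dvd_sub_comm.1 d) e')
  have := gv_const I h.al j2 (fun z _ => j3 _) (fun k hk => (c k hk).1) a1 a2
    (fun k hk => (c k hk).2 _ (w z)) fun k hk => (c k hk).2 _ (w z')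
  have n0 : (X.N : ℂ) ≠ 0 := by exact_mod_cast P.N0
  have i : ∀ {x : ℂ}, 0 < x.im → -1 / (X.N * (-1 / (X.N * x))) = x := fun {x} hx => by
    have : x ≠ 0 := fun e => by simp [e] at hx
    field_simp
  rwa [gv_al I a1.pos, gv_al I a2.pos, i cm.1, i cm'.1, sub_left_inj] at this

theorem lc_stmt : LCStmt := by
  intro W _ X P T T' l l₀ j a u V v ok hT hl hl₀ hne h2 hJ ha h I hv h1 hj
  have k : ∀ {r : ℤ} {T : Finset Fm}, G5.FReps X.N X.D r T →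
      yD (hsum (l₀ * l ^ j) (gv v P u V)) (X.f * X.b) T = 0 := fun hT =>
    lc_sum_zero _ (ok.sum_gD hT) fun Q hQ Q' hQ' g g' => by
      rw [hsum_eq, hsum_eq]
      exact sum_congr rfl fun t ht => ok.lc_pair I hv hl hl₀ hne h2 hJ h1 ha h hj (hT.fam Q hQ)
        (hT.fam Q' hQ') (hT.pos Q hQ) (hT.pos Q' hQ') g g' ht
  rw [ok.zs_eq hT, k hT.fst, k hT.snd, smul_zero, add_zero]

end Pool.Agent.G7
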