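import Pool.Agent.Lib.MP_696deb_nt.B7.GD7a
import Pool.Agent.Lib.MP_696deb_nt.B7.LC7a
import Pool.Agent.Lib.MP_696deb_nt.B5.WPa

/-! The involutions of Atkin and Lehner on forms, and basic facts on the special divisors. -/

set_option autoImplicit false

open Finset NumberTheorySymbols
open scoped Classical

namespace Pool.Agent.G7

open Pool.Agent.Lib.MP_696deb_nt Pool.Agent.B4.GE
open Pool.Agent.Lib.MP_696deb_nt.B3 (kro pchr_kro)
open Pool.Agent.B6.B7 (lvQ)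
open Pool.Agent.G5 hiding Cx Yw Cw zs Ori CNStmt HWStmt LTStmt GLStmt LAStmt SWStmt NUStmt WPStmt
  HTStmt GZStmt LFStmt LRStmt LQStmt nu_stmt wp_stmt

variable {N p : ℕ} {d D β β' ε : ℤ} {T T' : Finset Fm} {w : MZ} {Q R : Fm} {ω ω' : Fm → ℤ}

/-- The form `R` is the image of `Q` under the matrix `w` of determinant `p`. -/
def AlR (p : ℕ) (w : MZ) (Q R : Fm) : Prop := ∀ s t : ℤ,
  p * fval R s t = fval Q (w 1 1 * s + -w 0 1 * t) (-w 1 0 * s + w 0 0 * t)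

/-- The involution on forms. -/
theorem nu_form (h : ALm N p w) (ho : Odd p) (hN : p ∣ N) (hD : D < 0)
    (k1 : (p : ℤ) ∣ β' + β) (k2 : 2 * ((N / p : ℕ) : ℤ) ∣ β' - β) (hQ : G5.Fam N D β Q)
    (h0 : 0 < Q.1) : ∃ R, G5.Fam N D β' R ∧ 0 < R.1 ∧ froot R = act w (froot Q) ∧ AlR p w Q R := by
  have hp := ho.pos.ne'
  obtain ⟨q, a, b, c, d, h1, e, rfl⟩ := h.shape hp hN
  have p0 : (0 : ℤ) < p := by exact_mod_cast ho.pos
  rw [Int.natCast_div, h1, Int.mul_ediv_cancel_left _ p0.ne'] at k2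
  obtain ⟨_, y, x⟩ := Q
  obtain ⟨⟨α, rfl⟩, h3, t, h4⟩ := hQ
  obtain ⟨R, hR⟩ : ∃ R : Fm, R = (N * (α * p * d ^ 2 - y * d * c + x * q * c ^ 2),
    y * (p * a * d + b * q * c) - 2 * N * (α * d * b + x * c * a),
    q * α * b ^ 2 - y * b * a + x * p * a ^ 2) := ⟨_, rfl⟩
  have v1 : ∀ s t, p * fval R s t =
      fval (N * α, y, x) (p * d * s + -b * t) (-(p * q * c) * s + p * a * t) := fun s t => by
    simp only [hR, fval, h1]; ring
  have v2 : ∀ s t, fval R (p * a * s + b * t) (p * q * c * s + p * d * t) =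
      p * fval (N * α, y, x) s t := fun s t => by
    simp only [hR, fval, h1]
    linear_combination p * (p * q * α * s ^ 2 + y * s * t + x * t ^ 2) *
      (p * a * d - b * q * c + 1) * e
  have hd : fdisc R = D := by
    rw [← h3]
    simp only [hR, fdisc, h1]
    linear_combination (y ^ 2 - 4 * (p * q * α) * x) * (p * a * d - b * q * c + 1) * e
  have hz := im_froot_pos (h3 ▸ hD) h0
  have h5 : 0 < R.1 := by
    have k3 : 4 * R.1 * (p * (N * α)) = (2 * R.1 * (p * a) + R.2.1 * (p * q * c)) ^ 2 -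
        (p * q * c) ^ 2 * D := by
      have := v2 1 0
      simp only [fval, mul_one, mul_zero, add_zero] at this
      rw [← hd, fdisc]
      linear_combination -4 * R.1 * this
    have k4 : R.1 ≠ 0 := fun k => by
      rw [fdisc, k] at hd
      nlinarith [sq_nonneg R.2.1]
    have k5 : 0 < p * (N * α) := mul_pos p0 h0
    refine lt_of_le_of_ne (le_of_not_gt fun k => ?_) k4.symm
    nlinarith [sq_nonneg (2 * R.1 * (p * a) + R.2.1 * (p * q * c)), sq_nonneg (p * q * c)]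
  refine ⟨R, ⟨hR ▸ dvd_mul_right _ _, hd, ?_⟩, h5, (eq_froot (hd ▸ hD) h5
    (act_pos (h.pos hp) hz) ?_).symm, v1⟩
  · obtain ⟨s, hs⟩ := k1
    obtain ⟨r, hr⟩ := k2
    obtain ⟨k, hk⟩ := (IsCoprime.mul_right (Nat.isCoprime_iff_coprime.2
      (Nat.coprime_two_right.2 ho)) (z := q) ⟨a * d, -(b * c), by
        linear_combination e⟩).dvd_of_dvd_mul_left (z := β * b * c - r)
      ⟨2 * β * a * d - s, by push_cast; linear_combination hr - hs - 2 * β * e⟩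
    refine ⟨t * (p * a * d + b * q * c) - (α * d * b + x * c * a) + k, ?_⟩
    simp only [hR, h1] at h4 ⊢
    linear_combination (p * a * d + b * q * c) * h4 + 2 * q * hk - hr + β * e
  · have k3 := froot_root (h3 ▸ hD) h0
    have k4 := den_ne' (h.pos hp).ne' hz
    have k5 : (p : ℂ) * a * d - b * q * c = 1 := by exact_mod_cast e
    have k6 : (N : ℂ) = p * q := by exact_mod_cast h1
    generalize froot (N * α, y, x) = τ at k3 k4
    simp only [hR, act_of, mob, den, Matrix.of_apply, Matrix.cons_val', Matrix.cons_val_zero,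
      Matrix.cons_val_one, Matrix.cons_val_fin_one] at k3 k4 ⊢
    push_cast at k3 k4 ⊢
    rw [k6] at k3 ⊢
    obtain ⟨u, hu⟩ : ∃ u, u = (p : ℂ) * q * c * τ + p * d := ⟨_, rfl⟩
    rw [← hu] at k4 ⊢
    field_simp
    rw [hu]
    linear_combination p * (p * a * d - b * q * c) ^ 2 * k3

/-- The genus character under an involution whose degree is prime to the conductor. -/
theorem AlR.gD (k : AlR p w Q R) (h : ALm N p w) (hQ : Gen7 d (fdisc Q))
    (hc : IsCoprime (p : ℤ) (cnd d)) : gD d R = kro d p * gD d Q := by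
  have e := h.det
  rw [Matrix.det_fin_two] at e
  rw [gD_sim hQ (k := p) (m := 1) (fun s t => by rw [k s t, one_mul]) (by
    rw [show w 1 1 * w 0 0 - -w 0 1 * -w 1 0 = p by linear_combination e, mul_one]
    exact hc.mul_left hc), mul_one]

theorem nu_sum (h : ALm N p w) (ho : Odd p) (hN : p ∣ N) (hD : D < 0)
    (k1 : (p : ℤ) ∣ β' + β) (k2 : 2 * ((N / p : ℕ) : ℤ) ∣ β' - β) (hT : G5.FReps N D β T)
    (hT' : G5.FReps N D β' T') (hi : ∀ Q R, G5.Fam N D β' Q → G5.FEq N Q R → ω' R = ω' Q)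
    (hω : ∀ Q R, G5.Fam N D β Q → G5.Fam N D β' R → AlR p w Q R → ω' R = ε * ω Q)
    {V : Type} [AddCommGroup V] {S : ℂ → V} (hS : Inv0 N S) : ∑ Q ∈ T', ω' Q • S (froot Q) =
      ε • ∑ Q ∈ T, ω Q • S (act w (froot Q)) := by
  have p0 := ho.pos.ne'
  choose! φ f1 f2 f3 f4 using fun Q (hQ : Q ∈ T) =>
    nu_form h ho hN hD k1 k2 (hT.fam Q hQ) (hT.pos Q hQ)
  have d1 : ∀ {β : ℤ} {Q : Fm}, G5.Fam N D β Q → fdisc Q < 0 := fun k => k.2.1 ▸ hD
  have z1 := fun Q hQ => im_froot_pos (d1 (hT.fam Q hQ)) (hT.pos Q hQ)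
  have inj : ∀ Q ∈ T, ∀ R ∈ T, G5.FEq N (φ Q) (φ R) → Q = R := fun Q hQ R hR e => by
    obtain ⟨g, g1, g2⟩ := e.root (d1 (f1 Q hQ)) (f2 Q hQ)
    obtain ⟨g', g3, g4⟩ := h.adj.act_norm p0 hN g1
    refine hT.uniq Q hQ R hR (feq_of_root g3 (d1 (hT.fam Q hQ)) (hT.pos Q hQ) (hT.pos R hR)
      ((hT.fam R hR).2.1.trans (hT.fam Q hQ).2.1.symm) ?_).2
    rw [← h.act_adj p0 (z1 Q hQ), ← f3 Q hQ, g2, g4 _ (im_froot_pos (d1 (f1 R hR)) (f2 R hR)),
      f3 R hR, h.act_adj p0 (z1 R hR)]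
  have key : G5.FReps N D β' (T.image φ) := by
    refine ⟨forall_mem_image.2 f1, forall_mem_image.2 f2, fun Q a b => ?_, ?_⟩
    · obtain ⟨P, a1, a2, a3, -⟩ :=
        nu_form h.adj ho hN hD (add_comm β' β ▸ k1) (dvd_sub_comm.1 k2) a b
      obtain ⟨R, hR, e⟩ := hT.ex P a1 a2
      obtain ⟨g, g1, g2⟩ := e.root (d1 (hT.fam R hR)) (hT.pos R hR)
      obtain ⟨g', g3, g4⟩ := h.act_norm p0 hN g1
      refine ⟨_, mem_image_of_mem _ hR, (feq_of_root g3 (d1 (f1 R hR)) (f2 R hR) b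
        (a.2.1.trans (f1 R hR).2.1.symm) ?_).2⟩
      rw [f3 R hR, g2, g4 _ (im_froot_pos (d1 a1) a2), a3, h.act_adj' p0 (im_froot_pos (d1 a) b)]
    · simp only [forall_mem_image]
      exact fun Q hQ R hR e => congrArg φ (inj Q hQ R hR e)
  rw [hT'.sum_eq key _ fun Q R a b e => by rw [hi Q R a e, e.inv0 hS (d1 a) b],
    sum_image fun Q hQ R hR e => inj Q hQ R hR ((show φ Q = φ R from e) ▸ G5.FEq.refl _), smul_sum]
  exact sum_congr rfl fun Q hQ => by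
    rw [f3 Q hQ, hω _ _ (hT.fam Q hQ) (f1 Q hQ) (f4 Q hQ), mul_smul]

namespace Dat.Ok

variable {X : Dat} (h : X.Ok)
include h

/-- The part of the level that is prime to the twist is prime to the conductor. -/
theorem lvQ_cnd : IsCoprime (lvQ X.N X.f : ℤ) (cnd (X.f * X.b)) :=
  (cop_of_primes (v := cnd (X.f * X.b)) fun r hr k j => by
    have h1 := B6.B7.lvQ_cop (N := X.N) (d := X.f * X.b)
    rw [h.lvQ_b] at h1
    exact (Nat.prime_iff_prime_int.1 hr).not_isUnit (h1.isUnit_of_dvd'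
      (Int.natCast_dvd_natCast.2 k) ((B3.odd_dvd_cond h.sb
        (h.lodd.of_dvd_nat (k.trans B6.B7.lvQ_dvd))).1 (Int.natCast_dvd_natCast.1 j)))).symm

theorem div_lvQ : X.N / lvQ X.N X.f = X.g :=
  Nat.div_eq_of_eq_mul_left (Nat.pos_of_ne_zero B6.B7.lvQ_ne) h.g_mul.symm

theorem wt_Y {m : ℕ} (hm : m ≠ 0) : G5.Wt X.N (X.Y m) (X.D * m ^ 2) :=
  wt_zF (mul_neg_of_neg_of_pos h.neg (by positivity))
    (fun _ _ k1 k2 k3 => gU_feq h.N0 k3 k1 (h.gen_b (k2 ▸ dvd_mul_right _ _))) (abs_gU _ _)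

theorem wt_C (m : ℕ) : G5.Wt X.N (X.C m) ((cnd (X.f * X.a) * m) ^ 2) :=
  wt_wF (fun _ _ k1 k3 => gU_feq h.N0 k3 k1.1 (k1.2.1 ▸ h.gen_C m)) (abs_gU _ _)

/-- The second orientation is the image of the first. -/
theorem yD_snd (hT : X.Rep X.ρ T T') (hw : ALm X.N (lvQ X.N X.f) w) {V : Type} [AddCommGroup V]
    {S : ℂ → V} (hS : Inv0 X.N S) : yD S (X.f * X.b) T' =
      kro (X.f * X.b) (lvQ X.N X.f) • yD (fun z => S (act w z)) (X.f * X.b) T :=
  nu_sum hw (h.lodd.of_dvd_nat B6.B7.lvQ_dvd) B6.B7.lvQ_dvd h.neg (by simp) (by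
    obtain ⟨k, hk⟩ := h.g_dvd_c
    exact ⟨-(X.ρ * k), by rw [h.div_lvQ, hk]; push_cast; ring⟩) hT.fst hT.snd
    (fun _ _ k1 k2 => gD_feq k2 (h.gen_b (k1.2.1 ▸ dvd_rfl)))
    (fun _ _ k1 _ k3 => k3.gD hw (h.gen_b (k1.2.1 ▸ dvd_rfl)) h.lvQ_cnd) hS

end Dat.Ok

theorem Dat.Y_one (X : Dat) :
    X.Y 1 = zF X.N (gU X.N (X.f * X.b)) (X.f * X.b).sign X.D (X.ρ' * X.c) := by simp [Dat.Y]

theorem nu7_spec {σ ρ : ℤ} (h : zF N ω σ D ρ R ≠ 0) :
    0 < R.1 ∧ (G5.Fam N D ρ R ∨ G5.Fam N D (-ρ) R) := by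
  unfold zF wF at h
  refine ⟨by_contra fun k => h (if_neg k), by_contra fun k => h ?_⟩
  rw [if_neg (not_or.1 k).1, if_neg (not_or.1 k).2]
  simp

theorem nu_stmt : NUStmt := by
  intro X h
  have h0 := h.neg
  have sp : ∀ {r : ℤ} {T T' : Finset Fm}, X.Rep r T T' → ∀ Q ∈ T ∪ T', fdisc Q = X.D ∧ 0 < Q.1 :=
    fun k Q hQ => (mem_union.1 hQ).elim (fun j => ⟨(k.fst.fam Q j).2.1, k.fst.pos Q j⟩)
      fun j => ⟨(k.snd.fam Q j).2.1, k.snd.pos Q j⟩
  refine ⟨fun m hm => ⟨h.wt_Y hm, h.wt_C m⟩, fun T T' k => ⟨⟨h0, fun Q j => (sp k Q j).1,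
    fun Q j => (sp k Q j).2, ?_⟩, fun V _ S y hS ⟨w, hw, e⟩ => ⟨0, ?_⟩⟩, fun T T' k => ?_⟩
  · simpa [Dat.zs, yD, h.sum_gD k.fst, h.sum_gD k.snd] using h.zs_eq k fun _ => (1 : ℤ)
  · have j := h.jac
    rw [← neg_one_mul, (pchr_kro h.sb).mul, B3.kro_neg_one h.sb] at j
    rw [h.zs_eq k, h.yD_snd k hw hS, yD, yD, sum_congr (f := fun Q => _ • S (act w (froot Q))) rfl
      fun Q hQ => by rw [e _ (im_froot_pos ((k.fst.fam Q hQ).2.1 ▸ h0) (k.fst.pos Q hQ)), smul_add,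
        smul_comm _ X.s], sum_add_distrib, ← sum_smul, h.sum_gD k.fst, ← smul_sum, zero_smul,
      add_zero, add_zero, smul_smul, smul_smul, j, one_smul, two_smul]
  have hw : G5.Wt X.N (X.Y 1) X.D := by simpa using h.wt_Y one_ne_zero
  have hp : ∀ R, X.Y 1 R ≠ 0 → _ := fun R j => nu7_spec (X.Y_one ▸ j)
  have h1 := h.nd_ρc'
  refine ⟨⟨hw.nuW_inv h0 fun R j => (hp R j).1,
    forall_mem_image.2 fun Q hQ => im_froot_pos ((sp k Q hQ).1 ▸ h0) (sp k Q hQ).2,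
    forall_mem_image.2 fun Q hQ g => CM.free ⟨Q, X.c, h.c0, (sp k Q hQ).2, (sp k Q hQ).1, rfl⟩
      h.sqf h.gt, fun z _ j => ?_, ?_⟩, fun V _ S => ?_⟩
  · obtain ⟨R, k1, rfl⟩ := exists_of_nuW j
    obtain ⟨k2, k3⟩ := hp R k1
    obtain ⟨Q, k4, k5⟩ : ∃ Q ∈ T ∪ T', G5.FEq X.N Q R := k3.elim
      (fun j => (k.fst.ex R j k2).imp fun Q l => ⟨mem_union_left _ l.1, l.2⟩)
      fun j => (k.snd.ex R j k2).imp fun Q l => ⟨mem_union_right _ l.1, l.2⟩
    exact ⟨_, mem_image_of_mem _ k4, k5.symm.root (hw.disc R k1 ▸ h0) k2⟩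
  · simp only [forall_mem_image]
    intro Q hQ R hR g hg e
    have j := (feq_of_root hg ((sp k Q hQ).1 ▸ h0) (sp k Q hQ).2 (sp k R hR).2
      ((sp k R hR).1.trans (sp k Q hQ).1.symm) e).2
    congr 1
    rcases mem_union.1 hQ with a | a <;> rcases mem_union.1 hR with b | b
    exacts [k.fst.uniq Q a R b j, absurd (k.snd.fam R b) ((j.fam (k.fst.fam Q a)).not_neg h1),
      absurd (j.fam (k.snd.fam Q a)) ((k.fst.fam R b).not_neg h1), k.snd.uniq Q a R b j]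
  · rw [sum_image fun Q hQ R hR e => froot_inj ((sp k R hR).1 ▸ h0) (sp k R hR).2 (sp k Q hQ).2
      ((sp k Q hQ).1.trans (sp k R hR).1.symm) e]
    exact sum_congr rfl fun Q hQ => by
      rw [nuW_froot (fun R j => ⟨(hw.disc R j).trans (sp k Q hQ).1.symm, (hp R j).1⟩)
        ((sp k Q hQ).1 ▸ h0) (sp k Q hQ).2]

end Pool.Agent.G7
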