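import Pool.Agent.Lib.MP_696deb_nt.B7.HT7f
import Pool.Agent.Lib.MP_696deb_nt.B7.GA7c
import Pool.Agent.Lib.MP_696deb_nt.B7.LC7b
import Pool.Agent.Lib.MP_696deb_nt.B7.NU7a

/-! The height pairing is the sum of the Green function and of logarithms. -/

set_option autoImplicit false

namespace Pool.Agent.G7

theorem ht_of_nu (nu : NUStmt) : HTStmt := ht_of' gp_stmt lc_stmt nu

theorem ht_stmt : HTStmt := ht_of_nu nu_stmt

end Pool.Agent.G7
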