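import Pool.Agent.Lib.MP_696deb_nt.B7.HW7c
import Pool.Agent.Lib.MP_696deb_nt.B5.HWd

/-! The Hecke recursion for both families, and the points where the divisors vanish. -/

set_option autoImplicit false
set_option linter.unusedSectionVars false

open Finset NumberTheorySymbols Function
open scoped Classical

namespace Pool.Agent.G7

open Pool.Agent.Lib.MP_696deb_nt Pool.Agent.G5.Hw Hv
open Pool.Agent.Lib.MP_696deb_nt.B3 (kro chi2 odp cond2 odp_odd odp_sqf)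

variable {l q m : ℕ} {d e : ℤ} {Q R : Fm}

/-- A form with nonzero weight is primitive at the odd primes of the conductor. -/
theorem nd_of_gD (hd : Squarefree d) (h : gD d Q ≠ 0) (hq : q.Prime) (k : q ∣ odp d)
    (j : (q : ℤ) ∣ Q.1) : ¬ (q : ℤ) ∣ Q.2.2 := fun i => right_ne_zero_of_mul h (by
  rw [gch_eq]
  exact prod_eq_zero (Nat.mem_primeFactors.2 ⟨hq, k, (odp_sqf hd).ne_zero⟩)
    (by rw [gl, if_pos j, jac_zero_of_dvd hq i]))

namespace Dat.Ok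

variable {X : Dat} (h : X.Ok)
include h

theorem dvd_odp (hq : q.Prime) (k : q ∣ X.g) (he : e % 4 = 1) : q ∣ odp (X.f * e) := by
  rw [odp_mul he]
  refine ((cnd_cases hq (k.trans h.g_dvd_c)).resolve_left fun j => ?_).mul_right _
  exact absurd (h.lodd.of_dvd_nat (k.trans h.g_dvd)) (by rw [j.1]; decide)

theorem p_sub : ¬ (X.p : ℤ) ∣ X.ρ' - X.ρ := fun k =>
  h.toGood.not_dvd h.root h.hp.one_lt h.dvd (G5.hw_half h.dvd h.lodd (by
    simpa only [show X.ρ' + X.ρ - (X.ρ' - X.ρ) = 2 * X.ρ by ring] using h.rp.sub k))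

/-- A prime of the level at which the two orientations agree. -/
theorem exists_q : ∃ q : ℕ, q.Prime ∧ q ∣ X.N ∧ ¬ (q : ℤ) ∣ X.ρ ∧ ¬ (q : ℤ) ∣ X.ρ' + X.ρ := by
  have h1 : X.N / X.p ≠ 1 := fun k => h.ne (by rw [← Nat.div_mul_cancel h.dvd, k, one_mul])
  obtain ⟨q, hq, k⟩ := Nat.exists_prime_and_dvd h1
  have h2 := k.trans (Nat.div_dvd_of_dvd h.dvd)
  have h3 := h.toGood.not_dvd h.root hq.one_lt h2
  refine ⟨q, hq, h2, h3, fun j => h3 (G5.hw_half h2 h.lodd ?_)⟩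
  simpa only [show X.ρ' + X.ρ - (X.ρ' - X.ρ) = 2 * X.ρ by ring] using
    j.sub (((Int.natCast_dvd_natCast.2 k).mul_left 2).trans h.rq)

theorem four_β : 4 ∣ (X.β * X.c) ^ 2 - (cnd (X.f * X.a) : ℤ) ^ 2 := by
  have o : ∀ x : ℤ, 4 * (X.N : ℤ) ∣ x ^ 2 + X.n → Odd x := fun x k => by
    have := h.mod4
    have : (4 : ℤ) ∣ x ^ 2 + X.n := (dvd_mul_right _ _).trans k
    exact (Int.odd_pow' two_ne_zero).1 (Int.odd_iff.2 (by omega))
  have h1 : Odd X.β := (Int.odd_mul.1 ((Int.even_add'.1 (even_iff_two_dvd.2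
    ((dvd_mul_right _ _).trans h.bet))).2 ((o _ h.root).mul (o _ h.root')))).2
  have h2 : Odd (X.a.natAbs : ℤ) := Int.odd_iff.2 (by have := h.a4; omega)
  rw [h.ca, Nat.cast_mul, mul_pow, mul_pow, mul_comm _ ((X.a.natAbs : ℤ) ^ 2), ← sub_mul]
  exact (G5.hw_four h1 h2).mul_right _

/-- No geodesic of the split family ends at infinity. -/
theorem C_ne (hm : m.Coprime X.N) (k : X.C m R ≠ 0) : R.1 ≠ 0 := fun j => by
  obtain ⟨hR, hw⟩ := fam_of_wF k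
  have h1 : R.2.1 ^ 2 = (X.c * X.a.natAbs * m) ^ 2 := by
    have := hR.2.1
    rw [fdisc, j, h.ca] at this
    push_cast at this ⊢
    linear_combination this
  have key : ∀ q : ℕ, q.Prime → q ∣ X.N → ∀ s : ℤ, R.2.1 = s * (X.c * X.a.natAbs * m) →
      s ^ 2 = 1 → (q : ℤ) ∣ X.ρ' - s * X.ρ := fun q hq i s e hs => by
    have hP := Nat.prime_iff_prime_int.1 hq
    have i' := Int.natCast_dvd_natCast.2 i
    have a1 : ¬ (q : ℤ) ∣ X.c := fun a => nd_of_gD h.sa hw hq (h.dvd_odp hq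
      ((h.dvd_g i).1 (Int.natCast_dvd_natCast.1 a)) h.a4) (i'.mul_right _) (by simp [G5.fV, j])
    have a2 : ¬ (q : ℤ) ∣ m := fun a =>
      hq.ne_one (Nat.eq_one_of_dvd_coprimes hm (Int.natCast_dvd_natCast.1 a) i)
    have a3 := h.toGood.not_dvd h.root hq.one_lt i
    have b1 := (i'.mul_left 2).trans hR.2.2
    have b2 := (i'.mul_left 2).trans h.bet
    have b3 := (i'.mul_left 4).trans h.root
    have b4 : (X.n : ℤ) = X.a.natAbs * X.b.natAbs := by rw [← h.abs_mul, Nat.cast_mul]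
    have := ((b1.mul_left X.b.natAbs).add (b2.mul_left (X.c * m))).sub (b3.mul_left (s * X.c * m))
    rw [e, b4, show X.b.natAbs * (s * (X.c * X.a.natAbs * m) - X.β * X.c * m) +
      X.c * m * (X.b.natAbs * X.β + X.ρ * X.ρ') - s * X.c * m * (X.ρ ^ 2 + X.a.natAbs * X.b.natAbs) =
      X.c * (m * (X.ρ * (X.ρ' - s * X.ρ))) by ring] at this
    exact (hP.dvd_or_dvd ((hP.dvd_or_dvd ((hP.dvd_or_dvd this).resolve_left a1)).resolve_left
      a2)).resolve_left a3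
  rcases sq_eq_sq_iff_eq_or_eq_neg.1 h1 with e | e
  · exact h.p_sub (by simpa using key _ h.hp h.dvd 1 (by rw [e, one_mul]) rfl)
  · obtain ⟨q, hq, i, -, a⟩ := h.exists_q
    exact a (by simpa using key _ hq i (-1) (by rw [e, neg_one_mul]) rfl)

theorem hfY : G5.HFm X.N X.η fun m => G5.nuW (X.Y m) :=
  hf_Y h.sa h.sb h.a4 h.b4 dvd_rfl (by rw [h.mul, Dat.D, neg_mul]; rfl) (by
    rw [Dat.D, mul_pow, sub_neg_eq_add, ← add_mul]
    exact ((dvd_mul_right _ _).trans h.root').mul_right _) h.neg _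

theorem hfC : G5.HFm X.N X.η fun m => Iw (X.C m) := by
  simp only [Dat.C, mul_pow]
  exact hf_C h.sa h.sa h.a4 h.a4 h.N0 dvd_rfl (by
    rw [h.ca, Nat.cast_mul, mul_pow, Int.natAbs_sq, sq X.a, mul_comm]; rfl) h.four_β
    fun m _ k R j => h.C_ne k (by rwa [Dat.C, mul_pow])

theorem ori_act {z : ℂ} (hz : X.Ori z) (hl : l.Prime) (hN : ¬ l ∣ X.N) (i : Option (Fin l)) :
    X.Ori (act (rP l i) z) := by
  obtain ⟨R, M, h0, h1, h2, h3, h7, rfl⟩ := hz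
  obtain ⟨k1, k2, k3⟩ := G5.hw_adj hl.ne_zero i h2
  have h4 : (4 : ℤ) ∣ X.ρ ^ 2 + X.n := (dvd_mul_right _ _).trans h.root
  have h5 : ∀ β : ℤ, β ^ 2 = (X.ρ * (X.g * M)) ^ 2 → G5.Fam X.N (-(X.n * (X.g * M) ^ 2)) β R →
      G5.Fam X.N (-(X.n * (X.g * (M * l : ℕ)) ^ 2)) (β * l) (nb l i (sc l R)) := fun β e k => by
    have h6 : 4 ∣ β ^ 2 - -(X.n * (X.g * M) ^ 2) := by
      rw [e, mul_pow, sub_neg_eq_add, ← add_mul]; exact h4.mul_right _
    rw [show -((X.n : ℤ) * (X.g * (M * l : ℕ)) ^ 2) = -(X.n * (X.g * M) ^ 2) * l ^ 2 by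
      push_cast; ring, ← fam_hm (i := i) hl hN (four h6 l), k3, fam_sc hl hN (four h6 l),
      fam_sc hl hN h6]
    exact k
  refine ⟨_, M * l, mul_ne_zero h0 hl.ne_zero,
    Nat.Coprime.mul_left h1 (hl.coprime_iff_not_dvd.2 hN), k2, h3.imp (fun k => ?_) fun k => ?_,
    ?_, k1.symm⟩
  · simpa only [mul_assoc, Nat.cast_mul] using h5 _ rfl k
  · simpa only [mul_assoc, Nat.cast_mul, neg_mul] using h5 _ (neg_sq _) k
  have g1 := Int.natCast_dvd_natCast.2 h.g_dvd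
  rcases i with _ | k
  · have := (cop hl fun j => hN (j.trans h.g_dvd)).symm
    exact this.mul_left (this.mul_left h7)
  · obtain ⟨x, hx⟩ := g1.trans (h3.elim (·.1) (·.1))
    obtain ⟨y, hy⟩ : (X.g : ℤ) ∣ R.2.1 := h3.elim
      (fun j => (dvd_sub_left ⟨X.ρ * M, by ring⟩).1 ((g1.mul_left 2).trans j.2.2))
      fun j => (dvd_sub_left ⟨-(X.ρ * M), by ring⟩).1 ((g1.mul_left 2).trans j.2.2)
    change IsCoprime (vl l (some k) (sc l R) / l) _
    rw [vl_sc, Int.mul_ediv_cancel_left _ (Nat.cast_ne_zero.2 hl.ne_zero), vl, hx, hy, show X.g * x * ((k : ℕ) : ℤ) ^ 2 - X.g * y * (k : ℕ) + R.2.2 =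
      R.2.2 + X.g * (x * (k : ℕ) ^ 2 - y * (k : ℕ)) by ring]
    exact h7.add_mul_left_left _

theorem exists_c : ∃ M : ℕ, M ≠ 0 ∧ M.Coprime X.N ∧ X.c = X.g * M := by
  obtain ⟨M, hM⟩ := h.g_dvd_c
  refine ⟨M, right_ne_zero_of_mul (hM ▸ h.c0), Nat.Coprime.symm
    (Nat.coprime_of_dvd fun q hq k j => ?_), hM⟩
  have h1 := (h.dvd_g k).1 (hM ▸ j.mul_left _)
  have h2 : q * q ∣ cond2 X.f * odp X.f := (mul_dvd_mul h1 j).trans (dvd_of_eq hM.symm)
  have h3 : q.Coprime 8 := (Nat.coprime_two_right.2 (h.lodd.of_dvd_nat k)).pow_right 3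
  have h4 : q.Coprime (cond2 X.f) :=
    h3.coprime_dvd_right (by unfold cond2; split_ifs <;> decide)
  exact hq.prime.not_isUnit (odp_sqf h.fs q ((h4.mul_left h4).dvd_of_dvd_mul_left h2))

theorem ori_w (k : X.w Q ≠ 0) : X.Ori (froot Q) := by
  obtain ⟨k1, k2, k3⟩ := of_zF k
  obtain ⟨M, h0, h1, h2⟩ := h.exists_c
  rw [Dat.D, h2, Nat.cast_mul] at k2
  refine ⟨Q, M, h0, h1, k1, k2, Int.isCoprime_iff_gcd_eq_one.2 (Nat.Coprime.symm
    (Nat.coprime_of_dvd fun q hq i j => ?_)), rfl⟩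
  exact nd_of_gD h.sb k3 hq (h.dvd_odp hq i h.b4) ((Int.natCast_dvd_natCast.2
    (i.trans h.g_dvd)).trans (k2.elim (·.1) (·.1))) (Int.natCast_dvd.2 j)

theorem ori_ne {z : ℂ} (hz : X.Ori z) (m0 : m ≠ 0) (hm : m.Coprime X.N) (k : X.Y m R ≠ 0) :
    froot R ≠ z := fun e => by
  obtain ⟨Q, M, h0, h1, h2, h3, h4, rfl⟩ := hz
  obtain ⟨k1, k2, k3⟩ := of_zF k
  obtain ⟨c, c0, c1, c2⟩ := h.exists_c
  have g0 : X.g ≠ 0 := left_ne_zero_of_mul (c2 ▸ h.c0)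
  have n0 := h.n0
  have M0 : (0 : ℤ) < M := by positivity
  have m1 : (0 : ℤ) < c * m := by positivity
  have dQ : fdisc Q = -(X.n * (X.g * M) ^ 2) := h3.elim (·.2.1) (·.2.1)
  have dR : fdisc R = X.D * m ^ 2 := k2.elim (·.2.1) (·.2.1)
  have h5 := froot_inj (Q := sc (c * m) Q) (R := sc M R) (by
    rw [disc_sc, dQ, neg_mul, neg_lt_zero]; positivity) (mul_pos m1 h2) (mul_pos M0 k1)
    (by rw [disc_sc, disc_sc, dQ, dR, Dat.D, c2]; push_cast; ring)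
    (by rw [froot_sc M0, froot_sc m1, e])
  have h6 : M * R.1 = c * m * Q.1 := congrArg (fun S : Fm => S.1) h5
  have h7 : M * R.2.1 = c * m * Q.2.1 := congrArg (fun S : Fm => S.2.1) h5
  obtain ⟨s, hs, s1⟩ : ∃ s : ℤ, (s = 1 ∨ s = -1) ∧ 2 * (X.N : ℤ) ∣ Q.2.1 - s * (X.ρ * (X.g * M)) :=
    h3.elim (fun j => ⟨1, .inl rfl, by simpa using j.2.2⟩) fun j => ⟨-1, .inr rfl, by simpa using j.2.2⟩
  obtain ⟨t, ht, t1⟩ : ∃ s : ℤ, (s = 1 ∨ s = -1) ∧ 2 * (X.N : ℤ) ∣ R.2.1 - s * (X.ρ' * X.c * m) :=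
    k2.elim (fun j => ⟨1, .inl rfl, by simpa using j.2.2⟩) fun j => ⟨-1, .inr rfl, by simpa using j.2.2⟩
  have key : ∀ q : ℕ, q.Prime → q ∣ X.N → (q : ℤ) ∣ t * X.ρ' - s * X.ρ := fun q hq i => by
    have hP := Nat.prime_iff_prime_int.1 hq
    have i' := Int.natCast_dvd_natCast.2 i
    have nd : ∀ x : ℕ, x.Coprime X.N → ¬ (q : ℤ) ∣ x := fun x a b =>
      hq.ne_one (Nat.eq_one_of_dvd_coprimes a (Int.natCast_dvd_natCast.1 b) i)
    have a1 : ¬ (q : ℤ) ∣ X.g := fun a => by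
      have b1 : (q : ℤ) ∣ Q.2.1 := (dvd_sub_left ((a.mul_right _).mul_left _ |>.mul_left _)).1
        ((i'.mul_left 2).trans s1)
      have b2 : (q : ℤ) ^ 2 ∣ Q.1 * (2 ^ 2 * Q.2.2) := by
        rw [show Q.1 * (2 ^ 2 * Q.2.2) = Q.2.1 ^ 2 + X.n * (X.g * M) ^ 2 by
          rw [fdisc] at dQ; linear_combination -dQ]
        exact (pow_dvd_pow_of_dvd b1 2).add ((pow_dvd_pow_of_dvd (a.mul_right _) 2).mul_left _)
      have b3 := ((Nat.isCoprime_iff_coprime.2 (Nat.coprime_two_right.2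
        (h.lodd.of_dvd_nat i))).pow_right (n := 2) |>.mul_right
        (h4.of_isCoprime_of_dvd_right a).symm).pow_left.dvd_of_dvd_mul_right b2
      have b4 := (hP.coprime_iff_not_dvd.2 (nd M h1)).pow_left.dvd_of_dvd_mul_left
        (h6 ▸ b3.mul_left _ : (q : ℤ) ^ 2 ∣ M * R.1)
      obtain ⟨r, hr⟩ : (X.N : ℤ) ∣ R.1 := k2.elim (·.1) (·.1)
      refine nd_of_gD h.sb k3 hq (h.dvd_odp hq (Int.natCast_dvd_natCast.1 a) h.b4)
        (i'.mul_right _) ?_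
      obtain ⟨N', hN⟩ := i
      have b5 : ¬ (q : ℤ) ∣ N' := fun j => (split hq (hN ▸ h.lsq)).2.2 (Int.natCast_dvd_natCast.1 j)
      rw [hr, hN, Nat.cast_mul, mul_assoc, sq, mul_dvd_mul_iff_left hP.ne_zero] at b4
      simpa [G5.fV, hr, h.N0] using (hP.dvd_or_dvd b4).resolve_left b5
    have := (((i'.mul_left 2).trans s1).mul_left (c * m)).sub
      (((i'.mul_left 2).trans t1).mul_left M)
    rw [c2, Nat.cast_mul, show c * m * (Q.2.1 - s * (X.ρ * (X.g * M))) -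
      M * (R.2.1 - t * (X.ρ' * (X.g * c) * m)) = X.g * (c * (m * (M * (t * X.ρ' - s * X.ρ)))) by
        linear_combination -h7] at this
    exact (hP.dvd_or_dvd ((hP.dvd_or_dvd ((hP.dvd_or_dvd ((hP.dvd_or_dvd this).resolve_left
      a1)).resolve_left (nd c c1))).resolve_left (nd m hm))).resolve_left (nd M h1)
  obtain ⟨q, hq, i, -, a⟩ := h.exists_q
  rcases hs with rfl | rfl <;> rcases ht with rfl | rfl
  · exact h.p_sub (by simpa using key _ h.hp h.dvd)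
  · exact a (dvd_neg.1 (by simpa [sub_eq_add_neg, add_comm] using key _ hq i))
  · exact a (by simpa using key _ hq i)
  · exact h.p_sub (dvd_neg.1 (by simpa [sub_eq_add_neg, add_comm] using key _ h.hp h.dvd))

end Dat.Ok

theorem hw_stmt : HWStmt := fun _ h => ⟨h.hfY, h.hfC, fun _ hz _ hl hN i => h.ori_act hz hl hN i,
  fun _ hz _ m0 hm _ k => h.ori_ne hz m0 hm k, fun _ => h.ori_w⟩

end Pool.Agent.G7
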