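import Pool.Agent.Lib.MP_696deb_nt.B7.Z0
import Pool.Agent.Lib.MP_696deb_nt.B5.LRb
import Pool.Agent.Lib.MP_696deb_nt.B5.ORa

/-! The sign of the functional equation, the involutions, and the raised level. -/

set_option autoImplicit false

open Finset
open scoped Classical

namespace Pool.Agent.G7

open Pool.Agent.Lib.MP_696deb_nt Pool.Agent.B4.GE Pool.Agent.Shared.Weier
open Pool.Agent.B6.B7 (LX LX_eq_zero nw_al)
open Pool.Agent.G5 hiding LAStmt LRStmt lr_stmt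

variable {N q r : ℕ} {s : ℤ} {F : ℂ → ℂ} {y : ℂ} {w : MZ}

theorem alm_iff : ALm N q w ↔ B5.AL N q w :=
  ⟨fun h => ⟨h.det, h.a, h.c, h.d⟩, fun h => ⟨h.det, h.a, h.c, h.d⟩⟩

theorem exists_al (hN : Squarefree N) (hq : q ∣ N) : ∃ w, ALm N q w := by
  obtain ⟨t, rfl⟩ := exists_eq_mul_left_of_dvd hq
  exact (B5.exists_AL (Nat.coprime_of_squarefree_mul hN)).imp fun _ => alm_iff.2

/-- The eigenvalue does not depend on the choice of the matrix. -/
theorem Ale.all (h : Ale N q s F y) (hF : Ci N F) (h0 : q ≠ 0) (hq : q ∣ N) (hw : ALm N q w) :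
    ∃ c, ∀ z : ℂ, 0 < z.im → F (act w z) = s * F z + c := by
  obtain ⟨v, hv, e⟩ := h
  obtain ⟨t, rfl⟩ := exists_eq_mul_left_of_dvd hq
  obtain ⟨g, hg, rfl⟩ := (alm_iff.1 hv).unique (alm_iff.1 hw) h0
  obtain ⟨c, hc⟩ := hF.inv g hg
  have p := hv.pos h0
  exact ⟨y + c, fun z hz => by
    rw [act_mul _ p.ne' hz, hc _ (act_pos p hz), e z hz, zsmul_eq_mul, add_assoc]⟩

theorem la_stmt : LAStmt := by
  intro N c q χ F y s hN hχ hq hc hd hF h e
  have q0 : q ≠ 0 := ne_zero_of_dvd_ne_zero hN.ne_zero hq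
  refine LX_eq_zero hχ hN.ne_zero hF q0 hc hd fun w hw => ?_
  have k : χ (-q) = s := by
    rcases Int.eq_one_or_neg_one_of_mul_eq_one' e with k | k <;> rw [k.1, k.2]
  exact k ▸ h.all hF q0 hq (alm_iff.2 hw)

theorem al_stmt : ALStmt := by
  intro W N D hN h q hq
  obtain ⟨w, hw⟩ := exists_al hN hq
  obtain ⟨c, hc⟩ := nw_al h hN hq w (alm_iff.1 hw)
  exact ⟨c, alm_tors D hw (ne_zero_of_dvd_ne_zero D.N0 hq) hq hc, w, hw, fun z hz => by
    rw [hc z hz, zsmul_eq_mul]⟩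

/-- An involution of the raised level in terms of involutions of the lower level. -/
theorem alm_split (hr : r ≠ 0) (hw : ALm (N * r) (q * r) w) : ∃ u v, ALm N q u ∧ ALm N q v ∧
    ∀ z : ℂ, act w z = act u (r * z) ∧ r * act w z = act v z := by
  obtain ⟨h0, ⟨a, h1⟩, ⟨c, h2⟩, ⟨d, h3⟩⟩ := hw
  have r0 : (r : ℤ) ≠ 0 := Nat.cast_ne_zero.2 hr
  have r1 : (r : ℂ) ≠ 0 := Nat.cast_ne_zero.2 hr
  rw [Matrix.det_fin_two, h1, h2, h3] at h0
  rw [Matrix.eta_fin_two w, h1, h2, h3]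
  generalize w 0 1 = b at h0
  have e : q * a * (q * r * d) - b * (N * c) = q :=
    mul_left_cancel₀ r0 (by push_cast at h0; linear_combination h0)
  refine ⟨!![q * a, b; N * c, q * r * d], !![q * r * a, b; N * c, q * d],
    ⟨by rw [Matrix.det_fin_two_of, e], by simp, by simp, by simp [mul_assoc]⟩,
    ⟨by rw [Matrix.det_fin_two_of]; linear_combination e, by simp [mul_assoc], by simp, by simp⟩,
    fun z => ⟨?_, ?_⟩⟩ <;> simp only [act_of, mob] <;> push_cast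
  · congr 1 <;> ring
  · rw [← mul_div_assoc, ← mul_div_mul_left (q * r * a * z + b) _ r1]
    congr 1
    ring

theorem lr_stmt : LRStmt := by
  intro W N r D hN hD hr h
  obtain ⟨P, h1, h2, h3, -, k⟩ := lr_stmt' W N r D hN hD hr h
  refine ⟨P, h1, h2, h3, fun q hq => ?_⟩
  have q0 : q ≠ 0 := ne_zero_of_dvd_ne_zero D.N0 hq
  have sq : Squarefree (N * r) :=
    (Nat.squarefree_mul (hr.coprime_iff_not_dvd.2 h).symm).2 ⟨hN, hr.squarefree⟩
  obtain ⟨w, hw⟩ := exists_al sq (mul_dvd_mul_right hq r)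
  obtain ⟨u, v, hu, hv, e⟩ := alm_split hr.ne_zero hw
  obtain ⟨c₁, e₁⟩ := nw_al hD hN hq u (alm_iff.1 hu)
  obtain ⟨c₂, e₂⟩ := nw_al hD hN hq v (alm_iff.1 hv)
  have hs : (∏ p ∈ q.primeFactors, -D.c p) ^ 2 = 1 := by
    rw [← prod_pow]
    exact prod_eq_one fun p hp => by
      rw [neg_sq, (hD p (Nat.prime_of_mem_primeFactors hp)
        ((Nat.dvd_of_mem_primeFactors hp).trans hq)).1]
  have key : ∀ z : ℂ, 0 < z.im →
      P.F (act w z) = (∏ p ∈ q.primeFactors, -D.c p : ℤ) * P.F z + (c₁ + c₂) ∧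
      D.par.F (act w z) - D.par.F (r * act w z) = -(∏ p ∈ q.primeFactors, -D.c p : ℤ) *
        (D.par.F z - D.par.F (r * z)) + (c₁ - c₂) := fun z hz => by
    rw [h3, h3, (e z).2, (e z).1, e₁ _ (lr_pos hr.ne_zero hz), e₂ z hz]
    constructor <;> ring
  refine ⟨⟨k.ci, k.per, k.eig, ⟨w, _, _, _, hw, sq_eq_one_iff.1 hs, key⟩, k.prj⟩, c₁ + c₂, ?_, w, hw,
    fun z hz => by rw [(key z hz).1, zsmul_eq_mul]⟩
  obtain ⟨l, l1, hl⟩ := Nat.exists_infinite_primes (N * r + 1)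
  have l2 : ¬ l ∣ N * r := Nat.not_dvd_of_pos_of_lt (Nat.pos_of_ne_zero P.N0) l1
  refine isOfFinAddOrder_iff_zsmul_eq_zero.2 ⟨_, ?_, alm_kill P (hw.nrm (mul_ne_zero q0 hr.ne_zero)
    (mul_dvd_mul_right hq r)) (fun z hz => (key z hz).1) hl l2⟩
  rw [h2]
  exact (sub_pos.2 (lt_of_abs_lt (B5.md_abs_lt D hl fun k => l2 (k.mul_right r)))).ne'

end Pool.Agent.G7
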