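import Pool.Agent.Lib.MP_696deb_nt.B7.LV7d

/-! The logarithmic terms at a prime: the statement. -/

set_option autoImplicit false

open Finset NumberTheorySymbols
open scoped Classical

namespace Pool.Agent.G7

open Pool.Agent.Lib.MP_696deb_nt
open Pool.Agent.Lib.MP_696deb_nt.B3 (kro odp pchr_kro cond2)
open Pool.Agent.G5.LG (val TS mem_TS jac_lev)
open Pool.Agent.B6.B7 (lvQ)

namespace Lt7

open Fx

variable {X : Dat} {l m : ℕ} {d t u : ℤ}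

theorem cnd_split (hd : Squarefree d) (hl : l.Prime) (h2 : l ≠ 2) (h : l ∣ cnd d) :
    ∃ C₁ : ℕ, cnd d = l * (1 * C₁) ∧ ¬ (l : ℤ) ∣ C₁ := by
  have h0 : ¬ l ∣ cond2 d := fun k => h2 ((Nat.prime_dvd_prime_iff_eq hl Nat.prime_two).1
    (hl.dvd_of_dvd_pow (k.trans (cond2_dvd d))))
  obtain ⟨o, ho⟩ := (hl.dvd_mul.1 h).resolve_left h0
  refine ⟨cond2 d * o, by rw [cnd, B3.cond, ho]; ring, fun k => ?_⟩
  exact (hl.dvd_mul.1 (Int.natCast_dvd_natCast.1 k)).elim h0 fun j =>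
    hl.not_isUnit (B3.odp_sqf hd l (ho ▸ mul_dvd_mul_left l j))

/-- The data attached to the index `m`. -/
noncomputable def fx (h : X.Ok) (m : ℕ) : Fx :=
  ⟨X.N, cnd (X.f * X.b), kro (X.f * X.b), X.f * X.a, (cnd (X.f * X.a) * m) ^ 2, X.β * X.c * m,
    pchr_kro h.sb, h.sa, m ^ 2, by ring⟩

variable (h : X.Ok)
include h

theorem eta_eq (hu : IsCoprime u X.c) :
    (fx h m).eta (cnd (X.f * X.a)).primeFactors u = J(u | X.n) := by
  have h1 := (pchr_kro h.fs).sq hu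
  rw [eta, ← h.abs_mul, jacobiSym.mul_right' _ (Int.natAbs_ne_zero.2 h.sa.of_mul_right.ne_zero)
    (Int.natAbs_ne_zero.2 h.sb.of_mul_right.ne_zero)]
  simp only [fx]
  rw [← kro_eq h.sa, kro_mul h.sa h.a4, kro_mul h.sb h.b4]
  linear_combination J(u | X.a.natAbs) * J(u | X.b.natAbs) * h1

theorem cS_vZ (hl : l.Prime) (ht : t ∈ TS ((fx h m).C ^ 2 * (fx h m).E)) :
    (fx h m).cS l t = vZ ((fx h m).mf t) l ((fx h m).Ms t) := by
  have g0 : (0 : ℤ) < X.g := Int.natCast_pos.2 (Nat.pos_of_dvd_of_pos h.g_dvd h.lodd.pos)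
  have hN : ((fx h m).N : ℤ) = X.g * lvQ X.N X.f := by exact_mod_cast h.g_mul.symm
  obtain ⟨c, hc⟩ := h.g_dvd_c
  have hC : ((fx h m).C : ℤ) = X.g * (c * X.b.natAbs) := by
    simp only [fx, h.cb, hc]; push_cast; ring
  have h0 : Odd (lvQ X.N X.f) := h.lodd.of_dvd_nat B6.B7.lvQ_dvd
  have h1 : ∀ {d : ℤ}, Squarefree d → lvQ X.N d = lvQ X.N X.f →
      IsCoprime (lvQ X.N X.f : ℤ) (cnd d) := fun {d} hd e => by
    rw [cnd, B3.cond, Nat.cast_mul]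
    refine (cop_cond2 fun k => h0.not_two_dvd_nat (by exact_mod_cast k)).mul_right
      ((e ▸ B6.B7.lvQ_cop).of_isCoprime_of_dvd_right ?_)
    exact Int.natCast_dvd.2 (B3.odp_dvd d)
  rw [cS_eq h.N0 hl, sign_zero g0 ?_ (fun a e k => ?_) fun a w k1 k2 => ?_, zero_mul, sub_zero]
  · unfold Ms
    split_ifs
    · exact Int.ediv_nonpos_of_nonpos_of_neg (by linarith [mem_TS.1 ht]) (by
        have := h.lodd.pos
        simp only [fx]; omega)
    · rfl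
  · obtain ⟨k, b, c', -, k1, -⟩ := exists_of_mu k
    rw [k1.e_eq, hN, hC]
    exact ⟨lvQ X.N X.f * a * k ^ 2 + b * k * (c * X.b.natAbs) +
      c' * X.g * (c * X.b.natAbs) ^ 2, by ring⟩
  · refine (mu_swap Subset.rfl (k1 ▸ Ms_eq k2) hN hC (((Int.natCast_dvd_natCast.2
      h.g_dvd_c).mul_left _).mul_right _) (h1 h.sb h.lvQ_b) fun p hp j => ?_).trans ?_
    · exact (Nat.prime_iff_prime_int.1 (Nat.prime_of_mem_primeFactors hp)).not_isUnit
        ((h1 h.sa h.lvQ_a).isUnit_of_dvd' j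
          (Int.natCast_dvd_natCast.2 (Nat.dvd_of_mem_primeFactors hp)))
    · rw [← eta]
      erw [eta_eq h (h1 h.fs rfl)]
      rw [jac_lev h.toGood h.root B6.B7.lvQ_dvd, one_mul]

theorem cS_cond (hl : l.Prime) (hm : X.Adm m) (hc : l ∣ X.c) (t : ℤ) : (fx h m).cS l t = 0 := by
  refine sum_eq_zero fun z hz => ?_
  by_cases k : (fx h m).mf t z.1 z.2 = 0
  · rw [k, zero_mul, zero_mul]
  have h1 : l ∣ cnd (X.f * X.a) := h.ca ▸ hc.mul_right _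
  have h2 : l ∣ cnd (X.f * X.b) := h.cb ▸ hc.mul_right _
  have h3 : l ∈ (cnd (fx h m).d).primeFactors := Nat.mem_primeFactors.2 ⟨hl, h1, cnd_ne h.sa⟩
  rw [show padicValInt l z.2 = padicValInt l ((fx h m).N * z.1) from ?_, sub_self, mul_zero]
  by_cases hN : l ∣ X.N
  · exact val_lev Subset.rfl h3 h.lsq hN h2
      (((Int.natCast_dvd_natCast.2 hc).mul_left _).mul_right _) k
  have h4 := Int.natCast_dvd_natCast.2 (hm.dvd l hl hc hN)
  by_cases h5 : l = 2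
  · subst h5
    refine val_two Subset.rfl h3 h.lodd (C₁ := odp (X.f * X.b)) ?_ (B3.odp_odd h.sb)
      (pow_dvd_pow_of_dvd ?_ 2) (of_mem hz) k
    · simp only [fx, cnd, B3.cond, cond2, Int.mul_emod X.f, h.a4, h.b4]
    · rw [mul_comm]
      exact mul_dvd_mul (Int.natCast_dvd_natCast.2 (dvd_mul_right _ _)) h4
  obtain ⟨C₁, k1, k2⟩ := cnd_split h.sb hl h5 h2
  exact val_odd Subset.rfl h3 h5 (mt Int.natCast_dvd_natCast.1 hN) k1 k2
    ((dvd_of_eq (by ring)).trans (pow_dvd_pow_of_dvd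
      (mul_dvd_mul (Int.natCast_dvd_natCast.2 h1) h4) 2)) (of_mem hz) k

theorem of_eq {r s : ℕ} {a e : ℤ} (hl : l.Prime) (ha : ¬ (l : ℤ) ∣ a) (he : ¬ (l : ℤ) ∣ e)
    (k : l ^ r * a * (l ^ s * e) = (fx h m).Ms t) : 4 * (fx h m).N * (l ^ r * a * (l ^ s * e)) =
      t ^ 2 - (fx h m).C ^ 2 * (fx h m).E := by
  have h0 : ∀ (i : ℕ) (x : ℤ), ¬ (l : ℤ) ∣ x → (l : ℤ) ^ i * x ≠ 0 := fun i x hx =>
    mul_ne_zero (pow_ne_zero _ (Nat.cast_ne_zero.2 hl.ne_zero)) fun j => hx (j ▸ dvd_zero _)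
  rw [k, Ms_eq (k ▸ mul_ne_zero (h0 r a ha) (h0 s e he))]

theorem nd_cnd (hl : l.Prime) (hc : ¬ l ∣ X.c) :
    (¬ l ∣ X.a.natAbs → l ∉ (cnd (fx h m).d).primeFactors) ∧
      (¬ l ∣ X.b.natAbs → IsCoprime (l : ℤ) (fx h m).C) :=
  ⟨fun k j => (hl.dvd_mul.1 (h.ca ▸ Nat.dvd_of_mem_primeFactors j)).elim hc k, fun k =>
    Nat.isCoprime_iff_coprime.2 (hl.coprime_iff_not_dvd.2 fun j =>
      (hl.dvd_mul.1 (h.cb ▸ j)).elim hc k)⟩

theorem vZ_split (hl : l.Prime) (hc : ¬ l ∣ X.c) (hJ : J((l : ℤ) | X.n) = 1) (t : ℤ) :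
    vZ ((fx h m).mf t) l ((fx h m).Ms t) = 0 := by
  have h0 : ¬ l ∣ X.n := fun k => by
    rw [jac_eq_prod _ h.sqf, prod_eq_zero (Nat.mem_primeFactors.2 ⟨hl, k, h.n0⟩)
      (jac_zero_of_dvd hl dvd_rfl)] at hJ
    exact zero_ne_one hJ
  exact vZ_zero hl fun r s a e ha he k => mu_even Subset.rfl hl
    ((nd_cnd h hl hc).2 fun j => h0 (h.abs_mul ▸ j.mul_left _))
    ((nd_cnd h hl hc).1 fun j => h0 (h.abs_mul ▸ j.mul_right _))
    (.inl ((eta_eq h (Nat.isCoprime_iff_coprime.2 (hl.coprime_iff_not_dvd.2 hc))).trans hJ))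
    (of_eq h hl ha he k)

theorem vZ_far (hl : l.Prime) (hc : ¬ l ∣ X.c) (hN : ¬ l ∣ X.N) {i : ℕ} {y : ℤ}
    (ht : ¬ (l : ℤ) ^ i ∣ t) (hy : (fx h m).C ^ 2 * (fx h m).E = (y * l ^ i) ^ 2) :
    vZ ((fx h m).mf t) l ((fx h m).Ms t) = 0 := by
  have hP := Nat.prime_iff_prime_int.mp hl
  have hN' : ¬ (l : ℤ) ∣ (fx h m).N := fun k => hN (Int.natCast_dvd_natCast.mp k)
  obtain ⟨v, u, hu, rfl⟩ := exists_pow_mul hl (k := t) fun k => ht (k ▸ dvd_zero _)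
  obtain ⟨j, rfl⟩ : ∃ j, i = v + 1 + j := Nat.exists_eq_add_of_le
    (not_le.1 fun k => ht ((pow_dvd_pow _ k).mul_right _))
  have hw : ¬ (l : ℤ) ∣ u ^ 2 - l * (l * (y * l ^ j) ^ 2) := fun k =>
    hu (hP.dvd_of_dvd_pow ((dvd_sub_left (dvd_mul_right _ _)).mp k))
  refine vZ_zero hl fun r s a e ha he k => ?_
  have hM := of_eq h hl ha he k
  have hM' := hy ▸ hM
  have hae := nd_mul hl hN' (nd_mul hl ha he)
  have ev : ¬ l ∣ X.n → Even (r + s) → (fx h m).mf (l ^ v * u) (l ^ s * a) (l ^ r * e) =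
      (fx h m).mf (l ^ v * u) (l ^ r * a) (l ^ s * e) := fun h0 h1 => mu_even Subset.rfl hl
    ((nd_cnd h hl hc).2 fun j => h0 (h.abs_mul ▸ j.mul_left _))
    ((nd_cnd h hl hc).1 fun j => h0 (h.abs_mul ▸ j.mul_right _)) (.inr h1) hM
  by_cases h2 : l = 2
  · have e1 : (l : ℤ) ^ (r + s + 2) * ((fx h m).N * (a * e)) =
        l ^ (2 * v) * (u ^ 2 - l * (l * (y * l ^ j) ^ 2)) := by
      have : (l : ℤ) ^ 2 = 4 := by rw [h2]; norm_num
      linear_combination hM' + l ^ r * l ^ s * ((fx h m).N * (a * e)) * this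
    have e2 := congrArg (padicValInt l) e1
    rw [val hl hae, val hl hw] at e2
    exact ev (fun k => absurd (h2 ▸ k) h.oddn.not_two_dvd_nat) ⟨v - 1, by omega⟩
  have e1 : (l : ℤ) ^ (r + s) * (2 ^ 2 * ((fx h m).N * (a * e))) =
      l ^ (2 * v) * (u ^ 2 - l * (l * (y * l ^ j) ^ 2)) := by linear_combination hM'
  have e2 := congrArg (padicValInt l) e1
  rw [val hl (nd_mul hl (nd_pow hl (a := 2) (not_dvd_of_prime_ne hl Nat.prime_two h2) 2) hae),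
    val hl hw] at e2
  rw [e2, mul_right_inj' (pow_ne_zero _ hP.ne_zero)] at e1
  by_cases h0 : l ∣ X.n
  swap
  · exact ev h0 ⟨v, by omega⟩
  have h3 : ¬ (l ∣ X.a.natAbs ∧ l ∣ X.b.natAbs) := fun k =>
    hl.not_isUnit (h.sqf l (h.abs_mul ▸ mul_dvd_mul k.1 k.2))
  rcases hl.dvd_mul.1 (h.abs_mul ▸ h0) with k1 | k1
  · exact sym_geo Subset.rfl (u := u) (Nat.mem_primeFactors.2 ⟨hl, h.ca ▸ k1.mul_left _,
      cnd_ne h.sa⟩) h2 hN' (hP.coprime_iff_not_dvd.1 ((nd_cnd h hl hc).2 fun j => h3 ⟨k1, j⟩))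
      ⟨v, by omega⟩ ha he ⟨l * (y * l ^ j) ^ 2, by linear_combination -e1⟩ hM
  by_cases hrs : r = s
  · rw [hrs]
  obtain ⟨C₁, k2, k3⟩ := cnd_split h.sb hl h2 (h.cb ▸ k1.mul_left _)
  have h4 := (nd_cnd h (m := m) hl hc).1 fun j => h3 ⟨j, k1⟩
  exact (zero_line Subset.rfl hl h4 h2 hN' k2 k3 (Ne.symm hrs) (by omega) ha he
    (by rw [← hM]; ring)).trans (zero_line Subset.rfl hl h4 h2 hN' k2 k3 hrs e2 ha he hM).symm

end Lt7

open Lt7 Lt7.Fx in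
/-- The logarithmic terms at a prime. -/
theorem lt_stmt : LTStmt := by
  intro X h l m hl hm
  refine ⟨fun hc => ?_, fun hc _ => ⟨fun hJ => ?_, fun hJ => ?_⟩⟩
  · have k := main (Z := fx h m) h.N0 hl
    rw [sum_eq_zero fun t _ => cS_cond h hl hm hc t, Int.cast_zero, zero_div, Rat.cast_zero,
      zero_mul, sub_zero] at k
    exact k
  · have k := main (Z := fx h m) h.N0 hl
    rw [sum_eq_zero fun t ht => (cS_vZ h hl ht).trans (vZ_split h hl hc hJ t), Int.cast_zero,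
      zero_div, Rat.cast_zero, zero_mul, sub_zero] at k
    exact k
  have hlN : ¬ l ∣ X.N := fun k => hJ (jac_lev h.toGood h.root k)
  set k : ℕ := (cnd (X.f * X.b) * (cnd (X.f * X.a) * m)) ^ 2 with hk
  refine ⟨(2 * k + 1) * (cnd (X.f * X.b) * (2 * k + 1) * (k + 2) ^ 2), fun i =>
    ⟨_, ?_, main (Z := fx h (m * l ^ i)) h.N0 hl⟩⟩
  set Z := fx h (m * l ^ i) with hZ
  have e1 : Z.C ^ 2 * Z.E = (cnd (X.f * X.b) * (cnd (X.f * X.a) * m) * l ^ i) ^ 2 := by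
    simp only [hZ, fx]; push_cast; ring
  have e2 : (k : ℤ) = (cnd (X.f * X.b) * (cnd (X.f * X.a) * m)) ^ 2 := by rw [hk]; push_cast; ring
  have h1 : ∀ t ∈ TS (Z.C ^ 2 * Z.E), vZ (Z.mf t) l (Z.Ms t) ≠ 0 →
      t ∈ (TS k).image fun u => (l : ℤ) ^ i * u := fun t ht h0 => by
    obtain ⟨u, rfl⟩ : (l : ℤ) ^ i ∣ t := by_contra fun h4 => h0 (vZ_far h hl hc hlN h4 e1)
    refine mem_image.2 ⟨u, mem_TS.2 ?_, rfl⟩
    have h4 := mem_TS.1 ht
    rw [e1, mul_pow, mul_comm (_ * _ : ℤ) ((l : ℤ) ^ i), mul_pow] at h4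
    exact e2 ▸ lt_of_mul_lt_mul_left h4 (sq_nonneg _)
  have h2 : ∀ t ∈ (TS k).image fun u => (l : ℤ) ^ i * u, |vZ (Z.mf t) l (Z.Ms t)| ≤
      cnd (X.f * X.b) * (2 * k + 1) * ((k + 2) * (i + 1)) ^ 2 := by
    intro t ht
    obtain ⟨u, hu, rfl⟩ := mem_image.1 ht
    have h3 := mem_TS.1 hu
    by_cases h4 : Z.Ms (l ^ i * u) = 0
    · rw [h4, vZ, Int.divisorsAntidiag_zero, sum_empty, abs_zero]
      positivity
    refine vZ_le (fun _ _ => abs_mu) hl (K := u ^ 2 - k) (by omega)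
      (abs_le.2 ⟨by linarith [sq_nonneg u], by omega⟩) ⟨4 * Z.N, ?_⟩
    rw [mul_comm (Z.Ms _), Ms_eq h4, e1, e2]
    ring
  have h3 : (((TS k).image fun u => (l : ℤ) ^ i * u).card : ℤ) ≤ 2 * k + 1 := by
    have k1 := (card_image_le (s := TS k) (f := fun u => (l : ℤ) ^ i * u)).trans
      (card_filter_le _ _)
    rw [Int.card_Icc, show (k + 1 - -(k : ℤ)).toNat = 2 * k + 1 by omega] at k1
    exact_mod_cast k1
  have h4 : |∑ t ∈ TS (Z.C ^ 2 * Z.E), Z.cS l t| ≤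
      (2 * k + 1) * (cnd (X.f * X.b) * (2 * k + 1) * ((k + 2) * (i + 1)) ^ 2) := by
    rw [sum_congr rfl fun t ht => cS_vZ h hl ht, ← sum_filter_ne_zero]
    refine (abs_sum_le_sum_abs _ _).trans (le_trans (sum_le_sum_of_subset_of_nonneg (fun t ht =>
      h1 t (mem_filter.1 ht).1 (mem_filter.1 ht).2) fun _ _ _ => abs_nonneg _)
      ((sum_le_card_nsmul _ _ _ h2).trans ?_))
    rw [nsmul_eq_mul]
    exact mul_le_mul_of_nonneg_right h3 (by positivity)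
  have h5 := (Int.cast_le (R := ℚ)).2 h4
  rw [Int.cast_abs] at h5
  rw [abs_div, abs_two]
  refine (half_le_self (abs_nonneg _)).trans (h5.trans (le_of_eq ?_))
  push_cast
  ring

end Pool.Agent.G7
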