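import Pool.Agent.Lib.MP_696deb_nt.B7.HW7a
import Pool.Agent.Lib.MP_696deb_nt.B5.WPa

/-! An involution of Atkin and Lehner moves one special divisor to the other. -/

set_option autoImplicit false

open Finset NumberTheorySymbols
open scoped Classical

namespace Pool.Agent.G7

open Pool.Agent.Lib.MP_696deb_nt Pool.Agent.B4.GE
open Pool.Agent.Lib.MP_696deb_nt.B3 (kro cond2 odp pchr_kro)
open Pool.Agent.B6.B7 (lvQ)
open Pool.Agent.G5 hiding Cx Yw Cw zs Ori CNStmt HWStmt LTStmt GLStmt LAStmt SWStmt NUStmt WPStmt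
  HTStmt GZStmt LFStmt LRStmt LQStmt wp_stmt
open Pool.Agent.G5.Hw (sc)
open Pool.Agent.G7.Hv (Cls tm_gD wt_gU disc_fV)

variable {N p : ℕ} {D β β' : ℤ} {T T' : Finset Fm} {w : MZ}

/-- The involution on forms. -/
theorem al_form (h : ALm N p w) (hp : Odd p) (hN0 : N ≠ 0) (hN : p ∣ N) (hD : D < 0)
    (k1 : (p : ℤ) ∣ β' + β) (k2 : 2 * ((N / p : ℕ) : ℤ) ∣ β' - β) {Q : Fm} (hQ : Fam N D β Q)
    (h0 : 0 < Q.1) : ∃ R, Fam N D β' R ∧ 0 < R.1 ∧ froot R = act w (froot Q) ∧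
      (∃ x y z u : ℤ, x * u - y * z = p ∧ sc p R = fmap Q x y z u) ∧
      ∃ x y z u : ℤ, x * u - y * z = (N / p : ℕ) ∧ sc (N / p : ℕ) (fV N R) = fmap Q x y z u := by
  obtain ⟨q, a, b, c, d, h1, e, rfl⟩ := h.shape hp.pos.ne' hN
  have p0 : (0 : ℤ) < p := by exact_mod_cast hp.pos
  have hq : ((N / p : ℕ) : ℤ) = q := by
    rw [Int.natCast_div, h1, Int.mul_ediv_cancel_left _ p0.ne']
  rw [hq] at k2 ⊢
  obtain ⟨_, y, x⟩ := Q
  obtain ⟨⟨α, rfl⟩, h3, t, h4⟩ := hQ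
  obtain ⟨R, hR⟩ : ∃ R : Fm, R = (N * (α * p * d ^ 2 - y * d * c + x * q * c ^ 2),
    y * (p * a * d + b * q * c) - 2 * N * (α * d * b + x * c * a),
    q * α * b ^ 2 - y * b * a + x * p * a ^ 2) := ⟨_, rfl⟩
  have v2 : ∀ s t, fval R (p * a * s + b * t) (p * q * c * s + p * d * t) =
      p * fval (N * α, y, x) s t := fun s t => by
    simp only [hR, fval, h1]
    linear_combination p * (p * q * α * s ^ 2 + y * s * t + x * t ^ 2) *
      (p * a * d - b * q * c + 1) * e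
  have hd : fdisc R = D := by
    rw [← h3]
    simp only [hR, fdisc, h1]
    linear_combination (y ^ 2 - 4 * (p * q * α) * x) * (p * a * d - b * q * c + 1) * e
  have hz := im_froot_pos (h3 ▸ hD) h0
  have h5 : 0 < R.1 := by
    have k3 : 4 * R.1 * (p * (N * α)) = (2 * R.1 * (p * a) + R.2.1 * (p * q * c)) ^ 2 -
        (p * q * c) ^ 2 * D := by
      have := v2 1 0
      simp only [fval, mul_one, mul_zero, add_zero] at this
      rw [← hd, fdisc]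
      linear_combination -4 * R.1 * this
    have k4 : R.1 ≠ 0 := fun k => by
      rw [fdisc, k] at hd
      nlinarith [sq_nonneg R.2.1]
    have k5 : 0 < p * (N * α) := mul_pos p0 h0
    refine lt_of_le_of_ne (le_of_not_gt fun k => ?_) k4.symm
    nlinarith [sq_nonneg (2 * R.1 * (p * a) + R.2.1 * (p * q * c)), sq_nonneg (p * q * c)]
  refine ⟨R, ⟨hR ▸ dvd_mul_right _ _, hd, ?_⟩, h5, (eq_froot (hd ▸ hD) h5
    (act_pos (h.pos hp.pos.ne') hz) ?_).symm,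
    ⟨p * d, -b, -(p * q * c), p * a, by linear_combination p * e, ?_⟩,
    b * q, d, -(a * N), -(q * c), by rw [h1]; linear_combination q * e, ?_⟩
  · obtain ⟨s, hs⟩ := k1
    obtain ⟨r, hr⟩ := k2
    obtain ⟨k, hk⟩ := (IsCoprime.mul_right (Nat.isCoprime_iff_coprime.2
      (Nat.coprime_two_right.2 hp)) (z := q) ⟨a * d, -(b * c), by
        linear_combination e⟩).dvd_of_dvd_mul_left (z := β * b * c - r)
      ⟨2 * β * a * d - s, by push_cast; linear_combination hr - hs - 2 * β * e⟩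
    refine ⟨t * (p * a * d + b * q * c) - (α * d * b + x * c * a) + k, ?_⟩
    simp only [hR, h1] at h4 ⊢
    linear_combination (p * a * d + b * q * c) * h4 + 2 * q * hk - hr + β * e
  · have k3 := froot_root (h3 ▸ hD) h0
    have k4 := den_ne' (h.pos hp.pos.ne').ne' hz
    have k5 : (p : ℂ) * a * d - b * q * c = 1 := by exact_mod_cast e
    have k6 : (N : ℂ) = p * q := by exact_mod_cast h1
    generalize froot (N * α, y, x) = τ at k3 k4
    simp only [hR, act_of, mob, den, Matrix.of_apply, Matrix.cons_val', Matrix.cons_val_zero,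
      Matrix.cons_val_one, Matrix.cons_val_fin_one] at k3 k4 ⊢
    push_cast at k3 k4 ⊢
    rw [k6] at k3 ⊢
    obtain ⟨u, hu⟩ : ∃ u, u = (p : ℂ) * q * c * τ + p * d := ⟨_, rfl⟩
    rw [← hu] at k4 ⊢
    field_simp
    rw [hu]
    linear_combination p * (p * a * d - b * q * c) ^ 2 * k3
  · simp only [hR, sc, fmap, fval, h1, Prod.mk.injEq]
    refine ⟨?_, ?_, ?_⟩ <;> ring
  · rw [hR, fV_eq hN0]
    simp only [sc, fmap, fval, h1, Prod.mk.injEq]
    refine ⟨?_, ?_, ?_⟩ <;> ring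

/-- The involution on sums over representatives. -/
theorem al_sum (h : ALm N p w) (hp : Odd p) (hN0 : N ≠ 0) (hN : p ∣ N) (hD : D < 0)
    (k1 : (p : ℤ) ∣ β' + β) (k2 : 2 * ((N / p : ℕ) : ℤ) ∣ β' - β) (hT : FReps N D β T)
    (hT' : FReps N D β' T') {ω ω' : Fm → ℤ} {κ : ℤ}
    (hi : ∀ Q R, Fam N D β' Q → FEq N Q R → ω' R = ω' Q)
    (hω : ∀ Q R, Fam N D β Q → Fam N D β' R →
      (∃ x y z u : ℤ, x * u - y * z = p ∧ sc p R = fmap Q x y z u) →
      (∃ x y z u : ℤ, x * u - y * z = (N / p : ℕ) ∧ sc (N / p : ℕ) (fV N R) = fmap Q x y z u) →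
      ω' R = κ * ω Q)
    {V : Type} [AddCommGroup V] {S : ℂ → V} (hS : Inv0 N S) : ∑ Q ∈ T', ω' Q • S (froot Q) =
      κ • ∑ Q ∈ T, ω Q • S (act w (froot Q)) := by
  have p0 := hp.pos.ne'
  choose! φ f1 f2 f3 f4 f5 using fun Q (hQ : Q ∈ T) =>
    al_form h hp hN0 hN hD k1 k2 (hT.fam Q hQ) (hT.pos Q hQ)
  have d1 : ∀ {β : ℤ} {Q : Fm}, Fam N D β Q → fdisc Q < 0 := fun k => k.2.1 ▸ hD
  have z1 := fun Q hQ => im_froot_pos (d1 (hT.fam Q hQ)) (hT.pos Q hQ)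
  have inj : ∀ Q ∈ T, ∀ R ∈ T, FEq N (φ Q) (φ R) → Q = R := fun Q hQ R hR e => by
    obtain ⟨g, g1, g2⟩ := e.root (d1 (f1 Q hQ)) (f2 Q hQ)
    obtain ⟨g', g3, g4⟩ := h.adj.act_norm p0 hN g1
    refine hT.uniq Q hQ R hR (feq_of_root g3 (d1 (hT.fam Q hQ)) (hT.pos Q hQ) (hT.pos R hR)
      ((hT.fam R hR).2.1.trans (hT.fam Q hQ).2.1.symm) ?_).2
    rw [← h.act_adj p0 (z1 Q hQ), ← f3 Q hQ, g2, g4 _ (im_froot_pos (d1 (f1 R hR)) (f2 R hR)),
      f3 R hR, h.act_adj p0 (z1 R hR)]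
  have key : FReps N D β' (T.image φ) := by
    refine ⟨forall_mem_image.2 f1, forall_mem_image.2 f2, fun Q a b => ?_, ?_⟩
    · obtain ⟨P, a1, a2, a3, -⟩ :=
        al_form h.adj hp hN0 hN hD (add_comm β' β ▸ k1) (dvd_sub_comm.1 k2) a b
      obtain ⟨R, hR, e⟩ := hT.ex P a1 a2
      obtain ⟨g, g1, g2⟩ := e.root (d1 (hT.fam R hR)) (hT.pos R hR)
      obtain ⟨g', g3, g4⟩ := h.act_norm p0 hN g1
      refine ⟨_, mem_image_of_mem _ hR, (feq_of_root g3 (d1 (f1 R hR)) (f2 R hR) b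
        (a.2.1.trans (f1 R hR).2.1.symm) ?_).2⟩
      rw [f3 R hR, g2, g4 _ (im_froot_pos (d1 a1) a2), a3, h.act_adj' p0 (im_froot_pos (d1 a) b)]
    · simp only [forall_mem_image]
      exact fun Q hQ R hR e => congrArg φ (inj Q hQ R hR e)
  rw [hT'.sum_eq key _ fun Q R a b e => by rw [hi Q R a e, e.inv0 hS (d1 a) b],
    sum_image fun Q hQ R hR e => inj Q hQ R hR ((show φ Q = φ R from e) ▸ FEq.refl _), smul_sum]
  exact sum_congr rfl fun Q hQ => by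
    rw [f3 Q hQ, hω Q _ (hT.fam Q hQ) (f1 Q hQ) (f4 Q hQ) (f5 Q hQ), mul_smul]

theorem al_sum_gU {d : ℤ} (hd : Squarefree d) (hc : Cls d D) (h : ALm N p w) (hp : Odd p)
    (hN0 : N ≠ 0) (hN : p ∣ N) (hD : D < 0) (hq : IsCoprime ((N / p : ℕ) : ℤ) (cnd d))
    (k1 : (p : ℤ) ∣ β' + β) (k2 : 2 * ((N / p : ℕ) : ℤ) ∣ β' - β) (hT : FReps N D β T)
    (hT' : FReps N D β' T') {V : Type} [AddCommGroup V] {S : ℂ → V} (hS : Inv0 N S) :
    ∑ Q ∈ T', gU N d Q • S (froot Q) = kro d (N / p : ℕ) • yD (fun z => S (act w z)) d T := by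
  refine al_sum h hp hN0 hN hD k1 k2 hT hT' (fun Q R a e => ?_) ?_ hS
  · have := (wt_gU hN0 hd hc β').inv Q R e
    rwa [wF, wF, if_pos a, if_pos (e.fam a)] at this
  · rintro Q R a b - ⟨x, y, z, u, e1, e2⟩
    exact tm_gD hd hc Q _ _ x y z u (a.2.1 ▸ dvd_rfl) (by rw [disc_fV hN0 b.1, b.2.1]) e2
      (by rw [e1]; exact hq.mul_left hq)

namespace Dat.Ok

variable {X : Dat} (h : X.Ok)
include h

theorem cls_D' : Cls (X.f * X.b) X.D := by
  have e : cond2 (X.f * X.b) * odp (X.f * X.b) = X.c * X.b.natAbs := h.cb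
  have b1 : Odd X.b.natAbs := by
    have := h.b4
    rw [Nat.odd_iff]
    omega
  have c : (cond2 (X.f * X.b)).Coprime X.b.natAbs := by
    have k := Nat.coprime_two_left.2 b1
    unfold cond2
    split_ifs
    exacts [Nat.coprime_one_left _, k.pow_left 2, k.pow_left 3]
  refine ⟨((pow_dvd_pow_of_dvd (Int.natCast_dvd_natCast.2
    (c.dvd_of_dvd_mul_right ⟨_, e.symm⟩)) 2).mul_left _).neg_right, Dvd.dvd.neg_right ?_⟩
  refine (Int.natCast_dvd_natCast.2 (Dvd.intro_left _ e)).trans ?_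
  rw [← h.abs_mul]
  exact ⟨X.a.natAbs * X.c, by push_cast; ring⟩

/-- The rest of the level is prime to the conductor. -/
theorem cop_rest : IsCoprime ((X.N / (X.g * X.p) : ℕ) : ℤ) (cnd (X.f * X.b)) := by
  obtain ⟨q, hq⟩ := h.gp_dvd
  have g0 : 0 < X.g * X.p := Nat.pos_of_ne_zero fun e => h.N0 (by rw [hq, e, zero_mul])
  have e : X.N / (X.g * X.p) = q := Nat.div_eq_of_eq_mul_right g0 hq
  have e2 : lvQ X.N (X.f * X.b) = X.p * q := by
    rw [h.lvQ_b]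
    exact Nat.eq_of_mul_eq_mul_left (Nat.pos_of_mul_pos_right g0)
      (by rw [h.g_mul, ← mul_assoc, hq])
  rw [e]
  refine Nat.isCoprime_iff_coprime.2 (Nat.coprime_of_dvd fun k hk k1 k2 => ?_)
  have k3 : (k : ℤ) ∣ X.f * X.b :=
    (B3.odd_dvd_cond h.sb (h.lodd.of_dvd_nat (hq ▸ k1.mul_left _))).1 k2
  exact (Nat.prime_iff_prime_int.1 hk).not_isUnit ((B6.B7.lvQ_cop (N := X.N)).isUnit_of_dvd'
    (Int.natCast_dvd_natCast.2 (e2 ▸ k1.mul_left _)) k3)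

theorem gp_add : ((X.g * X.p : ℕ) : ℤ) ∣ X.ρ' * X.c + X.ρ * X.c := by
  rw [← add_mul, Nat.cast_mul, mul_comm]
  exact mul_dvd_mul h.rp (Int.natCast_dvd_natCast.2 h.g_dvd_c)

theorem gp_sub : 2 * ((X.N / (X.g * X.p) : ℕ) : ℤ) ∣ X.ρ' * X.c - X.ρ * X.c := by
  rw [← sub_mul]
  refine (dvd_trans (mul_dvd_mul_left _ (Int.natCast_dvd_natCast.2 ?_)) h.rq).mul_right _
  exact Nat.div_dvd_div_left h.gp_dvd (dvd_mul_left _ _)

end Dat.Ok

theorem wp_stmt : WPStmt := by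
  intro X T T' R R' w h hT hR hw
  have ho : Odd (X.g * X.p) := h.lodd.of_dvd_nat h.gp_dvd
  refine ⟨kro (X.f * X.b) (X.N / (X.g * X.p) : ℕ),
    sq_eq_one_iff.1 ((pchr_kro h.sb).sq h.cop_rest), fun V _ S hS => ?_⟩
  have e : X.Y 1 = zF X.N (gU X.N (X.f * X.b)) (X.f * X.b).sign X.D (X.ρ' * X.c) := by
    rw [Dat.Y, Nat.cast_one, one_pow, mul_one, mul_one]
  rw [e, sum_zF _ hR.fst hR.snd h.nd_ρc', h.zs_eq hT,
    al_sum_gU h.sb h.cls_D' hw ho h.N0 h.gp_dvd h.neg h.cop_rest h.gp_add h.gp_sub hT.fst hR.fst hS,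
    al_sum_gU h.sb h.cls_D' hw ho h.N0 h.gp_dvd h.neg h.cop_rest
      (by rw [← neg_add, dvd_neg]; exact h.gp_add)
      (by rw [neg_sub_neg]; exact dvd_sub_comm.1 h.gp_sub) hT.snd hR.snd hS,
    smul_add, smul_comm (X.f * X.b).sign]

end Pool.Agent.G7
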