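import Pool.Agent.Lib.MP_696deb_nt.B5.ZLd
import Pool.Agent.Lib.MP_696deb_nt.B7.GZ7c
import Pool.Agent.Lib.MP_696deb_nt.B7.CN7v
import Pool.Agent.Lib.MP_696deb_nt.B7.HW7d
import Pool.Agent.Lib.MP_696deb_nt.B7.LV7e
import Pool.Agent.Lib.MP_696deb_nt.B7.GL7b
import Pool.Agent.Lib.MP_696deb_nt.B7.LA7a
import Pool.Agent.Lib.MP_696deb_nt.B7.WP7a
import Pool.Agent.Lib.MP_696deb_nt.B7.HT7z
import Pool.Agent.Lib.MP_696deb_nt.B7.LQ7a
import Pool.Agent.Lib.MP_696deb_nt.B7.SW7c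

/-! The parts are put together. -/

set_option autoImplicit false

namespace Pool.Agent.G7

theorem gz_of_sw (sw : SWStmt) : GZStmt :=
  gz_of G5.parts ⟨cn_stmt, hw_stmt, lt_stmt, gl_stmt, la_stmt, sw, nu_stmt, wp_stmt⟩ ht_stmt
    lr_stmt lq_stmt

/-- The formula of Gross and Zagier for an arbitrary twist, in qualitative form. -/
theorem gz_stmt : GZStmt := gz_of_sw (sw_stmt hw_stmt)

end Pool.Agent.G7
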