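import Pool.Agent.Lib.MP_696deb_nt.B7.XSb
import Pool.Agent.Lib.MP_696deb_nt.B7.XSc

/-! Duality for the modules of the patching argument. -/

set_option autoImplicit false

open scoped NNReal Classical
open Finset Matrix NumberTheorySymbols PowerSeries

namespace Pool.Agent.B6.B7

open Pool.Agent.Lib.MP_696deb_nt Pool.Agent.Lib.MP_696deb_nt.B2 Pool.Agent.Lib.MP_696deb_nt.B6

theorem sum_spl {n N : ℕ} (hn : 0 < n) (hN : N ≠ 0) (hs : ∀ u : Plc, u.p ∣ N → Dec u ≤ GK n)
    (t : ℕ → ℕ) : 2 * ∑ p ∈ N.primeFactors, t p ≤ ∑ w ∈ spl N, t w.p := by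
  rw [← sum_fiberwise_of_maps_to (t := N.primeFactors) (g := Plc.p) fun w hw =>
    Nat.mem_primeFactors.2 ⟨w.prime, ((mem_spl hN).1 hw).1, hN⟩, mul_sum]
  refine sum_le_sum fun p hp => ?_
  rw [sum_congr rfl (g := fun _ => t p) fun w hw => by rw [(mem_filter.1 hw).2], sum_const,
    smul_eq_mul]
  have := card_spl hn hN hs (· = p)
  refine Nat.mul_le_mul_right _ (le_trans ?_ (this.trans (card_le_card fun w hw => ?_)))
  · exact Nat.le_mul_of_pos_right 2 (card_pos.2 ⟨p, by simpa only [mem_filter, and_true] using hp⟩)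
  · simpa only [mem_filter] using hw

variable [Md]

variable {T : Tate} {f : ℤ} {n k m : ℕ} {lam : Tp} {v w : Plc} {ψ : Gam → Lam} {Q R : Finset Plc}
  {ty ty' : Plc → Ty} {B B' : Type} [AddCommGroup B] [Module Lam B] [AddCommGroup B']
  [Module Lam B'] {c : Gam → Fin 2 → B} {c' : Gam → Fin 2 → B'} {g : Gam}
  {N : Plc → AddSubgroup ((Fin 2 → B) × (Fin 2 → B))}
  {N' : Plc → AddSubgroup ((Fin 2 → B') × (Fin 2 → B'))} {β : B →+ B' →+ ZMod (2 ^ m)}

theorem InSU.tr (hc : InSU T n f lam ψ Q ty c) (hv : v ∈ Q) (e : ty v = .tr) : c (fq v) = 0 := by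
  have := hc.dp v hv
  rw [e] at this
  exact this.1

theorem SOk0.rs_triv (h : SOk0 T n f k lam ψ Q) (hB : Kil k B) (hw : w ∈ Q)
    (hg : g ∈ GK n ⊓ Dec w) (x : Fin 2 → B) : rs (GK n) (cob (act T ψ B) x) g = 0 := by
  rw [rs_of_mem hg.1, cob, h.triv hB hw hg, sub_self]

theorem SOk0.isoW (F : CFT) (h : SOk0 T n f k lam ψ Q) (hw : w ∈ Q)
    (ht : ∀ v ∈ Q, v ≠ w → ty v = .tr) (y : Lam) (hy : YY y) :
    IsoW (y ^ 4) (SS T n f lam ψ k Q ty) (toK n (fq w)) (toK n (gn w)) := by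
  intro I hI c hc c' hc'
  rw [h.wk_SS hI] at hc hc'
  obtain ⟨c, ⟨hc, -⟩, rfl⟩ := hc
  obtain ⟨c', ⟨hc', -⟩, rfl⟩ := hc'
  have hB := kil_quot hI
  have := finite_quot hI
  obtain ⟨B', _, _, _, β, hB', hβ⟩ := exists_perf hB
  have t := h.tm hw
  simp only [xsd_res t.φ_mem.1, xsd_res t.τ_mem.1]
  refine hβ.left _ fun u => ?_
  let ι : (Lam ⧸ I) →ₗ[Lam] B' := I.liftQ (LinearMap.toSpanSingleton Lam B' u) fun a ha =>
    hβ.right _ fun x => by
      obtain ⟨x, rfl⟩ := Ideal.Quotient.mk_surjective x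
      rw [LinearMap.toSpanSingleton_apply, ← hβ.bal, show a • Ideal.Quotient.mk I x = 0 from
        Ideal.Quotient.eq_zero_iff_mem.2 (I.mul_mem_right x ha), map_zero, AddMonoidHom.zero_apply]
  have hι : ∀ x z, β x (ι z) = β (x * z) u := fun x z => by
    obtain ⟨z, rfl⟩ := Ideal.Quotient.mk_surjective z
    rw [mul_comm, show ι (Ideal.Quotient.mk I z) = z • u from rfl, ← hβ.bal]
    rfl
  have u1 : InSU T n f lam ψ Q ty (y ^ 4 • c) := (SU T n f lam ψ Q ty _).smul_mem _ hc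
  have u2 : InSU T n f lam ψ Q ty fun g i => ι (c' g i) := SU_map ι hc'
  have k := sel_iso F h hB hB' le_rfl hβ u1 (u2.twc h hB') hw
    (fun v hv e => dP_tr (u1.tr hv (ht v hv e)) (by
      rw [(h.twc_deep hB' hv u2.z1.1).1, u2.tr hv (ht v hv e), map_zero]))
    fun v hv => .inl (h.f_pow hB (h.fok.spl_p hv) (InSU.coc hc v) hy)
  rw [(h.twc_deep hB' hw u2.z1.1).1, (h.twc_deep hB' hw u2.z1.1).2] at k
  simp only [dP_apply, detb_apply, map_neg, tauB_zero, tauB_one, hι, Pi.smul_apply,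
    smul_mul_assoc] at k
  simp only [b6, smul_add, smul_sub, map_add, map_sub, AddMonoidHom.add_apply,
    AddMonoidHom.sub_apply]
  linear_combination -k

theorem xsd_ker (h : SOk0 T n f k lam ψ Q) (hB : Kil k B) (hw : w ∈ Q) (h0 : ty w = .rel) :
    SelX T n f lam ψ R Q (cnd B ty) ⊓ (xsdL B w).ker =
      SelX T n f lam ψ R Q (cnd B (Function.update ty w .str)) := by
  ext z
  rw [AddSubgroup.mem_inf, h.mem_SelX hB, h.mem_SelX hB]
  simp only [and_assoc]
  refine and_congr_right fun _ => and_congr_right fun _ => and_congr_right fun _ =>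
    ⟨fun k v hv => ?_, fun k => ⟨fun v hv => ?_, ?_⟩⟩
  · by_cases e : v = w
    · rw [e, cnd, Function.update_self]
      exact k.2
    · rw [cnd, Function.update_of_ne e]
      exact k.1 v hv
  · by_cases e : v = w
    · rw [e, cnd, h0]
      trivial
    · have := k v hv
      rwa [cnd, Function.update_of_ne e] at this
  · have := k w hw
    rwa [cnd, Function.update_self] at this

/-- The localisations of a structure and of its dual are exact annihilators. -/
theorem xsd_ann (F : CFT) (su : SUStmt) (ch : ChebStmt) (h : SOk0 T n f k lam ψ Q) (hB : Kil k B)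
    (hB' : Kil k B') [Finite B] [Finite B'] (hm : m ≤ k) (hβ : Perf β) (hw : w ∈ Q)
    (h0 : ty w = .rel) (ht : ∀ v ∈ Q, v ≠ w → ty v = .tr) :
    (SelX T n f lam ψ ∅ Q (cnd B ty)).map (xsdL B w) =
      ann (dP β) ((SelX T n f lam (cjc ψ) (plX f lam) Q (cnd B' ty)).map (xsdL B' w)) := by
  have tr : ∀ {t t' : Ty}, t = .tr → t' = .tr → ∀ z ∈ (t.cond B).toAddSubgroup,
      ∀ z' ∈ (t'.cond B').toAddSubgroup, dP β z' z = 0 := by
    rintro _ _ rfl rfl z hz z' hz'
    exact dP_tr hz.1 hz'.1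
  refine eq_ann _ ?_ ?_
  · rintro _ ⟨z, hz, rfl⟩ _ ⟨z', hz', rfl⟩
    obtain ⟨a1, -, -, a2⟩ := (h.mem_SelX hB).1 hz
    obtain ⟨b1, b2, -, b3⟩ := (h.cjc.mem_SelX hB').1 hz'
    exact sel_iso F h hB hB' hm hβ a1 b1 hw
      (fun v hv e => tr (ht v hv e) (ht v hv e) _ (a2 v hv) _ (b3 v hv))
      fun v hv => .inr ⟨_, b2 v (mem_union_right _ hv)⟩
  rw [dP_ker hβ, inf_bot_eq, AddSubgroup.card_bot, mul_one]
  have m1 := card_map_inf (xsdL B w) (SelX T n f lam ψ ∅ Q (cnd B ty))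
  have m2 := card_map_inf (xsdL B' w) (SelX T n f lam (cjc ψ) (plX f lam) Q (cnd B' ty))
  rw [xsd_ker h hB hw h0] at m1
  rw [xsd_ker h.cjc hB' hw h0] at m2
  have e2 : Function.update ty w .str w = .str := Function.update_self ..
  have e3 : ∀ v ∈ Q, v ≠ w → Function.update ty w .str v = .tr := fun v hv e =>
    (Function.update_of_ne e ..).trans (ht v hv e)
  generalize Function.update ty w .str = t2 at m1 m2 e2 e3
  have cd : ∀ {B : Type} [AddCommGroup B] [Module Lam B] (ty : Plc → Ty) (v : Plc),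
      Nat.card (cnd B ty v) = _ := fun ty v => card_cond (ty v)
  have e := hβ.card
  obtain ⟨-, f1, c1⟩ := sel_count (N := cnd B ty) (N' := cnd B' t2) F su ch h hB hB' hm hβ
    (fun v hv => by
      by_cases k : v = w
      · intro z _ z' hz'
        rw [k, cnd, e2] at hz'
        rw [show z' = 0 from hz', map_zero, AddMonoidHom.zero_apply]
      · exact tr (ht v hv k) (e3 v hv k))
    fun v hv => by
      rw [cd, cd, e, ← pow_add]
      by_cases k : v = w
      · rw [k, h0, e2]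
        exact le_rfl
      · rw [ht v hv k, e3 v hv k]
        exact le_rfl
  obtain ⟨-, -, c2⟩ := sel_count (N := cnd B t2) (N' := cnd B' ty) F su ch h hB hB' hm hβ
    (fun v hv => by
      by_cases k : v = w
      · intro z hz z' _
        rw [k, cnd, e2] at hz
        rw [show z = 0 from hz, map_zero]
      · exact tr (e3 v hv k) (ht v hv k))
    fun v hv => by
      rw [cd, cd, e, ← pow_add]
      by_cases k : v = w
      · rw [k, h0, e2]
        exact le_rfl
      · rw [ht v hv k, e3 v hv k]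
        exact le_rfl
  rw [← mul_prod_erase _ _ hw, cd, h0, m1] at c1
  rw [← mul_prod_erase _ _ hw, cd, e2, m2, prod_congr rfl (g := fun v => Nat.card (cnd B ty v))
    fun v hv => by
      rw [cnd, cnd, e3 v (mem_of_mem_erase hv) (ne_of_mem_erase hv),
        ht v (mem_of_mem_erase hv) (ne_of_mem_erase hv)]] at c2
  have p0 : 0 < ∏ v ∈ Q.erase w, Nat.card (cnd B ty v) := prod_pos fun _ _ => Nat.card_pos
  have p1 : 0 < Nat.card (SelX T n f lam (cjc ψ) (plX f lam) Q (cnd B' t2)) := Nat.card_pos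
  rw [Nat.card_prod, xlc_card2]
  dsimp only at c1 c2
  refine (Nat.eq_of_mul_eq_mul_left (Nat.mul_pos p1 p0) ?_).le
  rw [mul_right_comm, c2] at c1
  linear_combination -c1

theorem SOk0.coW (F : CFT) (su : SUStmt) (ch : ChebStmt) (h : SOk0 T n f k lam ψ Q) (hw : w ∈ Q)
    (h0 : ty w = .rel) (ht : ∀ v ∈ Q, v ≠ w → ty v = .tr) :
    CoW 1 (SS T n f lam ψ k Q ty) (toK n (fq w)) (toK n (gn w)) := by
  intro j i h1 hj hi x y hxy
  have hI : aa k k ≤ aa j i := aa_le hj (.inl (by omega))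
  have hB := kil_quot hI
  have := finite_quot hI
  rw [h.wk_SS hI] at hxy ⊢
  obtain ⟨t, hβ⟩ := perf_aa j i
  have tm := h.tm hw
  have nm : ∀ c ∈ SU T n f lam ψ Q ty (Lam ⧸ aa j i), ∃ d ∈ SM T n f lam ψ Q ty (Lam ⧸ aa j i),
      resK n _ d (toK n (fq w)) = c (fq w) ∧ resK n _ d (toK n (gn w)) = c (gn w) := fun c hc => by
    obtain ⟨u, hu⟩ := h.norm hB hc
    exact ⟨_, hu, by rw [xsd_res tm.φ_mem.1, Pi.sub_apply, h.rs_triv hB hw tm.φ_mem, sub_zero],
      by rw [xsd_res tm.τ_mem.1, Pi.sub_apply, h.rs_triv hB hw tm.τ_mem, sub_zero]⟩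
  have m : (x, y) ∈ (SelX T n f lam ψ ∅ Q (cnd (Lam ⧸ aa j i) ty)).map (xsdL _ w) := by
    rw [xsd_ann F su ch h hB hB hj hβ hw h0 ht]
    rintro _ ⟨z, hz, rfl⟩
    obtain ⟨b1, -, -, b3⟩ := (h.cjc.mem_SelX hB).1 hz
    have b4 := b1.twc h.cjc hB
    rw [cjc_cjc] at b4
    obtain ⟨d, hd, e1, e2⟩ := nm _ (b4.of_dp (ty' := ty) fun v hv => by
      by_cases k : v = w
      · rw [k, h0]
        trivial
      · have b5 := b3 v hv
        rw [cnd, ht v hv k] at b5
        rw [ht v hv k, (h.cjc.twc_deep hB hv b1.z1.1).1, show z.1 (fq v) = 0 from b5.1, map_zero]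
        exact ⟨rfl, trivial⟩)
    have e := congrArg t (hxy _ ⟨d, hd, rfl⟩)
    rw [e1, e2, (h.cjc.twc_deep hB hw b1.z1.1).1, (h.cjc.twc_deep hB hw b1.z1.1).2] at e
    simp only [b6, Pi.neg_apply, tauB_zero, tauB_one, neg_mul, map_add, map_sub, map_neg,
      map_zero] at e
    change t (x 0 * z.1 (gn w) 1) - t (x 1 * z.1 (gn w) 0) -
      (t (y 0 * z.1 (fq w) 1) - t (y 1 * z.1 (fq w) 0)) = 0
    rw [mul_comm (x 0), mul_comm (x 1), mul_comm (y 0), mul_comm (y 1)]
    linear_combination -e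
  obtain ⟨z, hz, e⟩ := m
  obtain ⟨d, hd, e1, e2⟩ := nm _ ((h.mem_SelX0 hB).1 hz).1
  exact ⟨_, ⟨d, hd, rfl⟩, e1.trans ((congrArg Prod.fst e).trans (one_smul _ _).symm),
    e2.trans ((congrArg Prod.snd e).trans (one_smul _ _).symm)⟩

theorem SOk0.diag_mem (h : SOk0 T n f k lam ψ Q) (hB : Kil k B) (x : Fin 2 → B) :
    ((rs (GK n) (cob (act T ψ B) x), fun w => if w ∈ R then x else 0) : Co B) ∈
      SelX T n f lam ψ R Q N := by
  refine (h.mem_SelX hB).2 ⟨h.cob_mem hB x, fun w hw g hg => ?_, fun w hw => if_neg hw,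
    fun w hw => ?_⟩
  · change rs (GK n) _ g = cob _ (if w ∈ R then x else 0) g
    rw [if_pos hw, rs_of_mem hg.1]
  · change (rs (GK n) _ _, rs (GK n) _ _) ∈ _
    rw [h.rs_triv hB hw (h.tm hw).φ_mem, h.rs_triv hB hw (h.tm hw).τ_mem]
    exact zero_mem _

/-- The diagonal classes. -/
noncomputable def xsd_dg (h : SOk0 T n f k lam ψ Q) (hB : Kil k B) (R : Finset Plc)
    (N : Plc → AddSubgroup ((Fin 2 → B) × (Fin 2 → B))) : (Fin 2 → B) →+ SelX T n f lam ψ R Q N :=
  AddMonoidHom.mk' (fun x => ⟨_, h.diag_mem hB x⟩) fun x y => Subtype.ext (Prod.ext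
    (by
      change rs (GK n) (cob _ (x + y)) = rs (GK n) (cob _ x) + rs (GK n) (cob _ y)
      rw [← map_add]
      exact congrArg _ (funext fun g => lf_cob_add x y))
    (funext fun w => by
      change (if w ∈ R then x + y else 0) = (if w ∈ R then x else 0) + if w ∈ R then y else 0
      split_ifs
      · rfl
      · rw [add_zero]))

theorem xsd_dg_snd (h : SOk0 T n f k lam ψ Q) (hB : Kil k B) (hw : w ∈ R) (x : Fin 2 → B) :
    (xsd_dg h hB R N x).1.2 w = x := if_pos hw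

/-- Rigid Selmer groups are left exact. -/
theorem SOk0.card_mono (h : SOk0 T n f k lam ψ Q) (hB : Kil k B) (hB' : Kil k B') (hw : w ∈ R)
    {ι : B →ₗ[Lam] B'} (hι : Function.Injective ι)
    (hN : ∀ v, ∀ z ∈ N v, ((fun i => ι (z.1 i)), fun i => ι (z.2 i)) ∈ N' v)
    [Finite (SelX T n f lam ψ R Q N')] :
    Nat.card (SelX T n f lam ψ R Q N) * Nat.card B' ^ 2 ≤
      Nat.card (SelX T n f lam ψ R Q N') * Nat.card B ^ 2 := by
  have f1 : Finite (Fin 2 → B') := Finite.of_injective (xsd_dg h hB' R N') fun x y e => by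
    rw [← xsd_dg_snd (N := N') h hB' hw x, e, xsd_dg_snd h hB' hw]
  have f2 : Finite (Fin 2 → B) := Finite.of_injective (fun (x : Fin 2 → B) j => ι (x j))
    fun x y e => funext fun j => hι (congrFun e j)
  have mp : ∀ z ∈ SelX T n f lam ψ R Q N,
      ((fun g i => ι (z.1 g i), fun w i => ι (z.2 w i)) : Co B') ∈ SelX T n f lam ψ R Q N' :=
    fun z hz => by
      obtain ⟨a1, a2, a3, a4⟩ := (h.mem_SelX hB).1 hz
      exact (h.mem_SelX hB').2 ⟨SU_map ι a1, fun v hv g hg =>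
        (congrArg (fun x i => ι (x i)) (a2 v hv g hg)).trans (cob_map ι _),
        fun v hv => funext fun i => (congrArg ι (congrFun (a3 v hv) i)).trans (map_zero ι),
        fun v hv => hN v _ (a4 v hv)⟩
  let F : SelX T n f lam ψ R Q N →+ SelX T n f lam ψ R Q N' :=
    AddMonoidHom.mk' (fun z => ⟨_, mp z z.2⟩) fun z z' => Subtype.ext (Prod.ext
      (funext fun _ => funext fun _ => map_add ι _ _)
      (funext fun _ => funext fun _ => map_add ι _ _))
  have hF : Function.Injective F := fun z z' e => Subtype.ext (Prod.ext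
    (funext fun g => funext fun j => hι (congrArg (fun u => u.1.1 g j) e))
    (funext fun g => funext fun j => hι (congrArg (fun u => u.1.2 g j) e)))
  let Φ := F.coprod (xsd_dg h hB' R N')
  have h1 : Nat.card Φ.ker ≤ Nat.card (Fin 2 → B) := by
    refine Nat.card_le_card_of_injective (fun p => p.1.1.1.2 w) fun p q e => ?_
    have key : ∀ p : Φ.ker, p.1.2 = fun j => -ι (p.1.1.1.2 w j) := fun p => by
      have e1 := congrArg (fun u => u.1.2 w) (AddMonoidHom.mem_ker.1 p.2)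
      change (fun j => ι (p.1.1.1.2 w j)) + (xsd_dg h hB' R N' p.1.2).1.2 w = 0 at e1
      rw [xsd_dg_snd h hB' hw] at e1
      exact eq_neg_of_add_eq_zero_right e1
    have e2 : p.1.2 = q.1.2 := by
      rw [key p, key q]
      exact funext fun j => congrArg (fun x : Fin 2 → B => -ι (x j)) e
    refine Subtype.ext (Prod.ext (hF ?_) e2)
    have e3 : F p.1.1 + xsd_dg h hB' R N' p.1.2 = 0 := AddMonoidHom.mem_ker.1 p.2
    have e4 : F q.1.1 + xsd_dg h hB' R N' q.1.2 = 0 := AddMonoidHom.mem_ker.1 q.2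
    rw [e2, ← e4] at e3
    exact add_right_cancel e3
  have h2 : Nat.card Φ.range ≤ Nat.card (SelX T n f lam ψ R Q N') :=
    Nat.card_le_card_of_injective _ Subtype.val_injective
  rw [← xlc_card2, ← xlc_card2, ← Nat.card_prod,
    AddSubgroup.card_eq_card_quotient_mul_card_addSubgroup Φ.ker,
    Nat.card_congr (QuotientAddGroup.quotientKerEquivRange Φ).toEquiv]
  exact Nat.mul_le_mul h2 h1

theorem lag_count (F : CFT) (su : SUStmt) (ch : ChebStmt) (h : SOk0 T n f k lam ψ {w})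
    (hB : Kil k B) (hB' : Kil k B') [Finite B] [Finite B'] (hm : m ≤ k) (hβ : Perf β) :
    Finite (SelX T n f lam (cjc ψ) (plX f lam) {w} fun _ => (lagD B').toAddSubgroup) ∧
    Nat.card (SelX T n f lam (cjc ψ) (plX f lam) {w} fun _ => (lagD B').toAddSubgroup) =
      Nat.card (SM T n f lam ψ {w} (fun _ => .lag) B) * Nat.card B ^ 2 := by
  have e : ∀ v, Nat.card (cnd B (fun _ => .lag) v) = Nat.card B ^ 2 := fun _ => card_cond .lag
  obtain ⟨-, f1, c1⟩ := sel_count (N := cnd B fun _ => .lag)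
    (N' := fun _ => (lagD B').toAddSubgroup) F su ch h hB hB' hm hβ
    (fun v _ z hz z' hz' => by
      simp [dP_apply, detb_apply, show z.1 1 = 0 from hz.1, show z.2 0 = 0 from hz.2,
        show z'.1 0 = 0 from hz'.1, show z'.2 1 = 0 from hz'.2])
    fun v _ => by
      rw [e, show Nat.card (lagD B').toAddSubgroup = _ from card_lagD, hβ.card, ← pow_add]
  rw [prod_singleton, e, card_singleton, mul_one, h.card_SelX0 hB] at c1
  exact ⟨f1, (Nat.eq_of_mul_eq_mul_right (pow_pos Nat.card_pos _) c1).symm⟩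

/-- The inequality that gives a square presentation. -/
theorem SOk0.sq_lag (F : CFT) (su : SUStmt) (ch : ChebStmt) (h : SOk0 T n f k lam ψ {w}) :
    Nat.card (SM T n f lam ψ {w} (fun _ => .lag)
        (Lam ⧸ (aa k k ⊔ Ideal.span {(2 * X) ^ (k - 1)}))) ≤
      Nat.card (SM T n f lam ψ {w} (fun _ => .lag) (Ak k)) := by
  generalize hI : aa k k ⊔ Ideal.span {(2 * X) ^ (k - 1)} = I
  have hl : aa k k ≤ I := hI ▸ le_sup_left
  have hB := kil_quot hl
  have hA := kil_Ak k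
  have := finite_quot hl
  obtain ⟨B', _, _, _, β, hB', hβ⟩ := exists_perf hB
  obtain ⟨t, hα⟩ := perf_aa k k
  obtain ⟨ι, hι⟩ := xsd_emb hα hβ (Submodule.factor hl) (Submodule.factor_surjective hl)
  obtain ⟨-, c1⟩ := lag_count F su ch h hB hB' le_rfl hβ
  obtain ⟨f2, c2⟩ := lag_count F su ch h hA hA le_rfl hα
  have c3 := h.cjc.card_mono (R := plX f lam) (N := fun _ => (lagD B').toAddSubgroup)
    (N' := fun _ => (lagD (Ak k)).toAddSubgroup) hB' hA (mem_union_left _ h.tok.mem) hι fun _ z hz =>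
      ⟨(congrArg ι hz.1).trans (map_zero ι), (congrArg ι hz.2).trans (map_zero ι)⟩
  rw [c1, c2, hβ.card, mul_assoc, mul_assoc, mul_comm (Nat.card (Ak k) ^ 2)] at c3
  exact Nat.le_of_mul_le_mul_right c3
    (Nat.mul_pos (pow_pos Nat.card_pos _) (pow_pos Nat.card_pos _))

/-- The fixed vectors above the primes of `f` give Selmer classes. -/
theorem lam_bound (F : CFT) (su : SUStmt) (ch : ChebStmt) (h : SOk T n f k lam ψ {w}) {j : ℕ}
    (h2 : 2 ≤ j) (hj : j ≤ k) :
    2 ^ (2 * mm f) ≤ Nat.card (SM T n f lam ψ {w} (fun _ => .lag) (Lam ⧸ aa 1 j)) := by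
  replace h := h.sok0
  have hI : aa k k ≤ aa 1 j := aa_le (by omega) (.inl hj)
  have hB := kil_quot hI
  have := finite_quot hI
  obtain ⟨t, hβ⟩ := perf_aa 1 j
  obtain ⟨f1, c1⟩ := lag_count F su ch h hB hB (by omega) hβ
  have p : 0 < Nat.card (Lam ⧸ aa 1 j) ^ 2 := pow_pos Nat.card_pos _
  have c0 := Nat.card_pos
    (α := SelX T n f lam (cjc ψ) (plX f lam) {w} fun _ => (lagD (Lam ⧸ aa 1 j)).toAddSubgroup)
  refine Nat.le_of_mul_le_mul_right ?_ p
  rw [← c1]
  rw [SelX, card_Sel (s := pls f lam {w}) _ _ subset_union_left subset_union_right h.disj] at c0 ⊢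
  rw [mul_comm]
  refine Nat.mul_le_mul ?_ ?_
  · have := Nat.finite_of_card_ne_zero (Nat.pos_of_mul_pos_right c0).ne'
    rw [← xlc_card2]
    refine Nat.card_le_card_of_injective (fun x => ⟨rs (GK n) (cob (act T (cjc ψ) _) x), ?_⟩)
      fun x y e => ?_
    · obtain ⟨a1, a2, a3, -, a4⟩ := h.cjc.diag_mem (R := plX f lam)
        (N := fun _ => (lagD (Lam ⧸ aa 1 j)).toAddSubgroup) hB x
      refine mem_Zc.2 ⟨⟨a1, a2⟩, fun v _ => ?_⟩
      split_ifs with k1 k2
      exacts [rs_mem_B1.2 ⟨_, a3 v k1⟩, a4 v k2, trivial]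
    · have e1 := congrFun (congrArg Subtype.val e) (fq lam.pl)
      simp only [rs_of_mem h.adm.tm'.mem] at e1
      exact sub_eq_zero.1 (h.cjc.lam_fix (by rw [lf_cob_sub, e1, sub_self]))
  · refine le_trans ?_ (prod_le_prod_of_subset_of_one_le' subset_union_right
      fun _ _ _ => Nat.card_pos)
    refine le_trans ?_ (prod_le_prod' fun v hv => h.cjc.wt_h0 h2 hj (h.fok.spl_p hv))
    rw [prod_pow_eq_pow_sum]
    exact Nat.pow_le_pow_right two_pos (sum_spl h.nok.pos h.fok.od_ne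
      (fun u hu => h.fok.split (Int.natCast_dvd.2 hu)) wt)

end Pool.Agent.B6.B7
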