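import Pool.Agent.Lib.MP_696deb_nt.B6.MCO
import Pool.Agent.Lib.MP_696deb_nt.B7.XKC
import Pool.Agent.Lib.MP_696deb_nt.B7.XA
import Pool.Agent.Lib.MP_696deb_nt.B7.XTG

/-! The core of the converse theorem for arbitrary twists. -/

set_option autoImplicit false

open scoped NNReal Classical
open Finset Matrix NumberTheorySymbols PowerSeries

namespace Pool.Agent.B6.B7

open Pool.Agent.Lib.MP_696deb_nt Pool.Agent.Lib.MP_696deb_nt.B2 Pool.Agent.Lib.MP_696deb_nt.B6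

variable [Md]

theorem m_core (F : CFT) (su : SUStmt) (ch : ChebStmt) (T : Tate) {n : ℕ}
    {f d e e' : ℤ} (hn : Nok n) (hf : Fok n f) (hd : d ∣ 2) {S : HS n} (Y₀ : ES S d) (Y : ES S f)
    (hY : Cong Y Y₀) (ho : Od (Y₀.ychi 1)) (he : e * e' = -n) (h4 : e % 4 = 1)
    (h : Cork (f * e)) (h' : Cork (f * e')) :
    ¬ IsOfFinAddOrder (Y.ychi e) ∧ ¬ (Nz (f * e) ∧ Nz (f * e')) := by
  obtain ⟨C2, htg⟩ := tg_bound T hn hf S he h4 h h'
  obtain ⟨lv, l0, l1⟩ : ∃ lv : ℕ → ℕ, (∀ k, k < lv k) ∧ ∀ k, 2 * mm f < lv k :=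
    ⟨fun k => k + 2 * mm f + 1, by simp only; omega, by simp only; omega⟩
  have l3 : ∀ k, 1 ≤ lv k := fun k => (Nat.zero_le k).trans_lt (l0 k)
  choose lam hl using fun k => exists_Tw T hn hf S (lv k)
  choose w w0 w1 using fun k => exists_unit (T := T) (f := f) ch Y₀ hn hd (l3 k) (hl k).adm ho
  choose κ R c1 c2 c3 c4 c5 using fun k => kc T hn hf hd Y Y₀ hY (hl k) e
  choose x hx using fun k => Ideal.Quotient.mk_surjective (I := aa (lv k) (lv k))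
    (κ k ∅ (fq (w k)) 1)
  choose L a1 a2 a3 a4 using fun k =>
    exists_lev F su ch hn hf (hl k) e (w0 k) (c1 k) (c2 k) (hx k)
  have o1 : ∀ k, SOk T n f (lv k) (lam k) (HS.psf S (lv k) (lam k) f e) {w k} := fun k =>
    tw_sok (hl k) hn hf ⟨by simpa using w0 k, by simp⟩ e
  have o0 : ∀ k, SOk T n f (lv k) (lam k) (HS.psf S (lv k) (lam k) f e) ∅ := fun k =>
    tw_sok (hl k) hn hf ⟨by simp, by simp⟩ e
  obtain ⟨p1, C3, p2⟩ := PA.pa (GK n) (thK n) 4 lv L l0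
    ⟨2 * mm f + 2, fun k hj => ⟨2 * mm f, by omega, by
      rw [a3]
      exact c5 k _ (w0 k).fq_mem (w1 k) (l1 k) _ (hx k), by
      rw [a1, (o1 k).card_wk (aa_le (l3 k) (.inl hj))]
      exact lam_bound F su ch (o1 k) (by omega) hj⟩⟩
    ⟨C2, fun k j hj => by
      rw [a2, (o0 k).card_wk (aa_le hj (.inl (l3 k)))]
      exact htg _ _ (hl k) j hj⟩
  refine ⟨fun ht => p1 ?_, fun ⟨z, z'⟩ => ?_⟩
  · obtain ⟨N, N0, hN⟩ := isOfFinAddOrder_iff_nsmul_eq_zero.1 ht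
    obtain ⟨r, M, hM, rfl⟩ := Nat.exists_eq_two_pow_mul_odd N0.ne'
    refine ⟨r, fun k σ hσ i => mco_ker ?_⟩
    obtain ⟨s1, s2⟩ := a4 k σ hσ
    have e1 : (σ : Gam) • (2 ^ r * M) • R k = (2 ^ r * M) • R k := N_fix s1 (Nat.le_add_right _ 2) _ (by
      obtain ⟨A, hA⟩ := c3 k
      rw [smul_comm, hA, smul_comm, hN, smul_zero])
    have e2 := T.inj (lv k) (a₁ := (2 ^ r * M) • fun i => evk _ (κ k ∅ σ i)) (a₂ := 0) (by
      rw [map_nsmul, c4 k _ s1, smul_sub, smul_comm, e1, sub_self, map_zero])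
    have e3 : (M : ZMod (2 ^ lv k)) * (2 ^ r * evk _ (κ k ∅ σ i)) = 0 := by
      have := congrFun e2 i
      simp only [Pi.smul_apply, nsmul_eq_mul, Pi.zero_apply] at this
      push_cast at this
      linear_combination this
    have e4 := ((ZMod.isUnit_iff_coprime M _).2
      ((Nat.coprime_two_right.2 hM).pow_right _)).mul_right_eq_zero.1 e3
    rw [s2, map_mul, map_pow, map_ofNat, e4]
  · obtain ⟨C4, hz⟩ := nz_bound T hn hf S he h4 z z'
    obtain ⟨j, hj⟩ := mco_pow (C4 * C3)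
    obtain ⟨k, q1, q2⟩ := p2 j
    rw [a2, (o0 k).card_wk (aa_le q1 (.inl (l3 k)))] at q2
    exact hj ((hz _ _ (hl k) j q1).trans (mul_assoc C4 _ _ ▸ Nat.mul_le_mul_left _ q2))

end Pool.Agent.B6.B7
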