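import Pool.Agent.Lib.MP_696deb_nt.B7.SD7a
import Pool.Agent.Lib.MP_696deb_nt.B7.EP
import Pool.Agent.Lib.MP_696deb_nt.B7.MCO
import Pool.Agent.Lib.MP_696deb_nt.B6.KLb

/-! The converse theorem for an arbitrary twist, from the modules. -/

set_option autoImplicit false

open scoped Classical
open Finset NumberTheorySymbols

namespace Pool.Agent.B6.B7

open Pool.Agent.Lib.MP_696deb_nt Pool.Agent.Lib.MP_696deb_nt.B2
open Pool.Agent.B4 (GE.Par GE.Geo GE.MD)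
open Pool.Agent.G7 (cnd gD yD GKStmt GZStmt CJStmt)

theorem dt_mul (f : ℤ) {e : ℤ} (h : e % 4 = 1) : dt (f * e) = dt f := by
  obtain ⟨k, rfl⟩ : ∃ k, e = 4 * k + 1 := ⟨e / 4, by omega⟩
  obtain ⟨m, rfl | rfl⟩ := Int.even_or_odd' f
  · rw [show 2 * m * (4 * k + 1) = 2 * m + 8 * (m * k) by ring]
    unfold dt
    split_ifs <;> omega
  · rw [show (2 * m + 1) * (4 * k + 1) = 2 * m + 1 + 4 * ((2 * m + 1) * k) by ring]
    unfold dt
    split_ifs <;> omega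

theorem kl_split7 {q : ℕ} (hq : q.Prime) (q4 : q % 4 = 3) {d : ℤ} (hd : Squarefree d) :
    ∃ f e e₁ : ℤ, d = f * e ∧ e * e₁ = -q ∧ e % 4 = 1 ∧ e₁ % 4 = 1 ∧ IsCoprime f q := by
  have hq' := Nat.prime_iff_prime_int.1 hq
  by_cases h : (q : ℤ) ∣ d
  · obtain ⟨t, rfl⟩ := h
    exact ⟨-t, -q, 1, by ring, by ring, by omega, rfl, ((hq'.coprime_iff_not_dvd.2 fun k =>
      hq'.not_isUnit (hd _ (mul_dvd_mul_left _ k))).symm).neg_left⟩
  · exact ⟨d, 1, -q, by ring, by ring, rfl, by omega, (hq'.coprime_iff_not_dvd.2 h).symm⟩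

/-- The part of an integer that is prime to twice the level. -/
theorem kl_part {N : ℕ} {f : ℤ} (hf : f ≠ 0) : ∃ o : ℤ, o % 4 = 1 ∧ o ∣ f ∧ IsCoprime o N ∧
    ∀ r : ℕ, r.Prime → (r : ℤ) ∣ f → ¬ r ∣ 2 * N → (r : ℤ) ∣ o := by
  obtain ⟨x, x1, x2, x3⟩ : ∃ x : ℕ, (x : ℤ) ∣ f ∧ x.Coprime (2 * N) ∧
      ∀ r : ℕ, r.Prime → (r : ℤ) ∣ f → ¬ r ∣ 2 * N → r ∣ x :=
    ⟨∏ p ∈ f.natAbs.primeFactors with ¬ p ∣ 2 * N, p, Int.natCast_dvd.2
      ((prod_dvd_prod_of_subset _ _ _ (filter_subset _ _)).trans (Nat.prod_primeFactors_dvd _)),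
      Nat.Coprime.prod_left fun p hp => (Nat.prime_of_mem_primeFactors
        (mem_filter.1 hp).1).coprime_iff_not_dvd.2 (mem_filter.1 hp).2,
      fun r r1 r2 r3 => dvd_prod_of_mem _ (mem_filter.2 ⟨Nat.mem_primeFactors.2
        ⟨r1, Int.natCast_dvd.1 r2, Int.natAbs_ne_zero.2 hf⟩, r3⟩)⟩
  have o := Nat.odd_iff.1 (Nat.coprime_two_right.1 x2.coprime_mul_right_right)
  have c := Nat.isCoprime_iff_coprime.2 x2.coprime_mul_left_right
  by_cases k : x % 4 = 1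
  · exact ⟨x, by omega, x1, c, fun r a b e => Int.natCast_dvd_natCast.2 (x3 r a b e)⟩
  · exact ⟨-x, by omega, neg_dvd.2 x1, c.neg_left,
      fun r a b e => dvd_neg.2 (Int.natCast_dvd_natCast.2 (x3 r a b e))⟩

variable [Md]

variable {D : GE.MD Wu NN} {n q : ℕ} {f a b r d : ℤ} {S : HS n}

theorem ychi_symm (Y : ES S f) (ab : a * b = -n) (a4 : a % 4 = 1) (b4 : b % 4 = 1) :
    Y.ychi a = Y.ychi b := sum_congr rfl fun x _ => by
  obtain ⟨g, hg, rfl⟩ := S.surj 1 (adm_one n) x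
  have k := B4c_mem.1 hg
  rw [← ab, chi_mul (by omega) (by omega)] at k
  rw [S.gen_ψ a ⟨-b, by linear_combination ab⟩ a4 g hg,
    S.gen_ψ b ⟨-a, by linear_combination ab⟩ b4 g hg, eq_inv_of_mul_eq_one_left k,
    Int.units_inv_eq_self]

theorem root_pair (hN : G5.Nw D) (hf : f ≠ 0) (hn : Nok n) (ab : a * b = -n) :
    rootNo D.c NN (f * a) * rootNo D.c NN (f * b) = -1 := by
  obtain ⟨r, hr⟩ := hn.root
  have c := (Nat.isCoprime_iff_coprime.2 hn.good.cop).neg_left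
  have j := jac_root hn.good.cop hr (lvQ_dvd (d := f))
  have s := Int.sign_eq_neg_one_of_neg (a := -n) (by have := hn.pos; omega)
  rw [← ab] at c j s
  rw [jacobiSym.mul_left] at j
  rw [Int.sign_mul] at s
  rw [rootNo_mul c.of_mul_left_left, rootNo_mul c.of_mul_left_right]
  rcases nw_cases hN hf with k | k <;> rw [k] <;>
    linear_combination J(a | lvQ NN f) * J(b | lvQ NN f) * s - j

/-- The branch with root number `-1`. -/
theorem kl_branch (T : Tate) (gz : GZStmt) (cj : CJStmt) (hN : G5.Nw D) (ha : ∀ l, al l = D.c l)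
    (hn : Nok n) (hf : Fok n f) (fn : IsCoprime f n) (hr : 4 * (NN : ℤ) ∣ r ^ 2 + n) (Y : ES S f)
    (hL : Link Y D.par.φ r) (ab : a * b = -n) (a4 : a % 4 = 1) (b4 : b % 4 = 1)
    (w : rootNo D.c NN (f * b) = -1) (hy : ¬ IsOfFinAddOrder (Y.ychi b)) :
    (∃ Q : EE, ¬ IsOfFinAddOrder Q ∧ ∀ g, tw (f * b) g Q = Q) ∧ (f * a ≠ 1 →
      LKr D.par.F (f * a) 1 ≠ 0 ∧ deriv (LKr D.par.F (f * b)) 1 ≠ 0) := by
  have f0 := hf.sqf.ne_zero
  have db : b ∣ n := ⟨-a, by linear_combination ab⟩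
  obtain ⟨U, hU⟩ := exists_hrc hn.pos hf.sqf r
  have e := hL U b hU db b4
  have y1 : ¬ IsOfFinAddOrder (ix f • Y.ychi b) := fun k => hy (k.of_nsmul (ix_ne f))
  refine ⟨fi_rat hn.pos (fun g hg => by rw [← lkT_apply, map_nsmul, lkT_apply, Y.gk f0 db b4 hg])
    ?_ y1, fun h1 => ?_⟩
  · have k := (cj Wu NN n D f b r U hn.good.g5 hn.gt hN hf.sqf fn db b4 hr hU).zsmul
      (i := (f * b).sign)
    have b0 : f * b ≠ 0 := mul_ne_zero f0 (by omega)
    have s : (chi (f * b) cc : ℤ) = (f * b).sign := by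
      rw [chi_cc b0]
      split_ifs with h
      · rw [Int.sign_eq_one_of_pos h, Units.val_one]
      · rw [Int.sign_eq_neg_one_of_neg (by omega), Units.val_neg, Units.val_one]
    have s2 : (f * b).sign * ((f * b).sign * -1) = -1 := by
      rw [← s, ← mul_assoc, ← Units.val_mul, Int.units_mul_self, Units.val_one, one_mul]
    rw [w, smul_add, smul_smul, s2, neg_one_smul, ← sub_eq_add_neg] at k
    rwa [← fi_jC, map_sub, tw, map_zsmul, jC_cc_pt, e, s]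
  · have := gz Wu NN D ⟨WZ, rfl⟩ hN (funext ha ▸ T.inert) n f a b r U hn.good.g5 hn.gt ab a4 hf.sqf
      fn (fun p hp p2 k => hf.spl p hp ((dvd_od f0 hp).2 ⟨p2, k⟩)) h1 (fun k => by
        rw [k, rootNo_one hN NN_sqf] at w
        omega) w hr hU (e ▸ mt fi_jC.1 y1)
    exact ⟨this.1, this.2.2⟩

/-- The seed moves to all auxiliary fields. -/
def Mv (φ : ℂ → Pt Wu ℂ) (q : ℕ) (δ : ℤ) : Prop := ∃ B : ℕ, ∀ l > B, l.Prime → l % 8 = 1 →
  ¬ l ∣ 2 * NN → J(-q | l) = -1 → ¬ Rt l → Good (q * l) → Prm φ (q * l) δ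

/-- The converse theorem for an arbitrary twist. -/
theorem k_core7 (cm : CMStmt) (gz : GZStmt) (cj : CJStmt) (T : Tate) (h : Hyp D)
    (G : GE.Geo D.par) (ha : ∀ l, al l = D.c l) (hM : G.M ∣ MM) (hq : q.Prime) (q8 : q % 8 = 3)
    (q3 : 3 < q) (qN : q.Coprime NN) (hr : ∃ r : ℤ, 4 * (NN : ℤ) ∣ r ^ 2 + q) (hd : Squarefree d)
    (mv : Mv D.par.φ q (dt d)) : Cnv D.c d := by
  intro hc
  obtain ⟨F⟩ := m_cft
  obtain ⟨B, mv⟩ := mv
  obtain ⟨r₀, hr⟩ := hr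
  obtain ⟨f, e, e₁, rfl, ee, e4, e14, fq⟩ := kl_split7 hq (by omega) hd
  have sf : Squarefree f := hd.squarefree_of_dvd (dvd_mul_right _ _)
  have f0 := sf.ne_zero
  obtain ⟨o, o4, o1, o2, o3⟩ := kl_part (N := NN) f0
  obtain ⟨l, l1, l2, l3, l8, lN, lq, lf, h'⟩ := exists_aux T hq q8 qN o4 o2
    (fq.of_isCoprime_of_dvd_left o1) (d₁ := f * e₁) (mul_ne_zero f0 (by omega))
    (B + 2 * NN + q + f.natAbs)
  have hl' := Nat.prime_iff_prime_int.1 l1
  have nd : ∀ {m : ℕ}, m ≠ 0 → m < l → ¬ l ∣ m := fun h0 h1 k =>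
    absurd (Nat.le_of_dvd h0.bot_lt k) (by omega)
  have N0 := NN_pos
  have lN' : l.Coprime NN := l1.coprime_iff_not_dvd.2 (nd NN_ne (by omega))
  have n8 : q * l % 8 = 3 := by rw [Nat.mul_mod, q8, l8]
  obtain ⟨β, hβ⟩ := kl_root NN_sqf NN_odd (x := l) (by omega) fun p _ k => lN p k
  have root : 4 * (NN : ℤ) ∣ (r₀ * β) ^ 2 + (q * l : ℕ) := by
    rw [show (r₀ * β) ^ 2 + (q * l : ℕ) = (r₀ ^ 2 + q) * β ^ 2 - q * (β ^ 2 - l) by push_cast; ring]
    exact dvd_sub (hr.mul_right _) (hβ.mul_left q)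
  have hn : Nok (q * l) := ⟨⟨(Nat.squarefree_mul ((Nat.coprime_primes hq l1).2 (by omega))).2
    ⟨hq.squarefree, l1.squarefree⟩, by omega, qN.mul_left lN'⟩, n8, by nlinarith [l1.pos],
    ⟨_, root⟩, kl_condB hq l1 lq⟩
  have hf : Fok (q * l) f := ⟨sf, fun p p1 p2 => by
    obtain ⟨p3, p4⟩ := (dvd_od f0 p1).1 p2
    by_cases k : p ∣ NN
    · exact jac_root hn.good.cop root k
    rw [Nat.cast_mul, ← neg_mul, jacobiSym.mul_left, lf p (o3 p p1 p4 fun j => (p1.dvd_mul.1 j).elim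
      (fun j => p3 ((Nat.prime_dvd_prime_iff_eq p1 Nat.prime_two).1 j)) k), ← sq]
    exact jacobiSym.sq_one (Int.isCoprime_iff_gcd_eq_one.1
      (fq.of_isCoprime_of_dvd_left p4).symm.neg_left)⟩
  have fn : IsCoprime f (q * l : ℕ) := by
    rw [Nat.cast_mul]
    exact fq.mul_right (hl'.coprime_iff_not_dvd.2 fun k =>
      nd (by omega) (by omega) (Int.natCast_dvd.1 k)).symm
  obtain ⟨S, hS⟩ := cm F D G h.nw (fun l _ _ => ha l) hM _ _ hn root
  obtain ⟨Y₀, Y, y1, y2, y3, y4⟩ := hS f hf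
  have ho : Od (Y₀.ychi 1) := by
    obtain ⟨U, hU⟩ := exists_hrc hn.pos (sqf_two (dt_dvd f)) (r₀ * β)
    have := mv l (by omega) l1 l8 (nd (by omega) (by omega)) (by
      rw [jacobiSym.neg _ (Nat.odd_iff.2 (by omega)), ZMod.χ₄_nat_one_mod_four (by omega), one_mul,
        ← jacobiSym.quadratic_reciprocity_one_mod_four (by omega) (Nat.odd_iff.2 (by omega)), lq])
      l3 hn.good
    rw [dt_mul f e4] at this
    exact this _ U _ root hU y2 (by simpa using y3 U 1 hU (one_dvd _) rfl)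
  have ee' : e * (e₁ * l) = -((q * l : ℕ) : ℤ) := by
    push_cast
    linear_combination l * ee
  have e4' : e₁ * l % 4 = 1 := by rw [Int.mul_emod, e14, show (l : ℤ) % 4 = 1 by omega]; rfl
  rw [mul_assoc] at h'
  obtain ⟨hy, hz⟩ := m_core F m_su m_cheb T hn hf (dt_dvd f) Y₀ Y y1 ho ee' e4 hc h'
  have d0 := hd.ne_zero
  have fin := (m_rank d0 hc).1
  rcases nw_cases h.nw d0 with w | w
  · have w' : rootNo D.c NN (f * (e₁ * l)) = -1 := by
      rw [← root_pair h.nw f0 hn ee', w, one_mul]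
    obtain ⟨k1, k2⟩ := kl_branch T gz cj h.nw ha hn hf fn root Y y4 ee' e4 e4' w'
      (ychi_symm Y ee' e4 e4' ▸ hy)
    rw [if_pos w]
    refine ⟨bsd_an0 h hd ?_, fin, fi_finrank d0 hc fun k =>
      hz ⟨k, (m_nz (mul_ne_zero f0 (by omega)) h').2 k1⟩⟩
    by_cases k : f * e = 1
    · rw [k, LKr_eq_LA _ rfl]
      exact h.LA_one
    · exact (k2 k).1
  · obtain ⟨⟨Q, q1, q2⟩, k2⟩ := kl_branch T gz cj h.nw ha hn hf fn root Y y4
      ((mul_comm _ _).trans ee') e4' e4 w hy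
    rw [if_neg (by omega)]
    exact ⟨bsd_an1 h hd w (k2 fun k => l1.ne_one (by
      have := Int.isUnit_iff_natAbs_eq.1 (isUnit_of_dvd_one ⟨f * e₁, by rw [← k]; ring⟩ : IsUnit (l : ℤ))
      simpa using this)).2, fin, fi_finrank_one d0 hc q1 q2⟩

end Pool.Agent.B6.B7
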