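import Pool.Agent.Lib.MP_696deb_nt.B7.D9

/-! Closure properties of integral modular functions. -/

set_option autoImplicit false

open Polynomial Filter Topology
open scoped Classical

namespace Pool.Agent.B6.D9

open Pool.Agent.Lib.MP_696deb_nt Pool.Agent.B4.GE
open Pool.Agent.G5 (Cq Cg)

variable {A : ValuationSubring ℂ} {L M m : ℕ} {f k : ℂ → ℂ} {z c : ℂ}

theorem ne_of_val (h : A.valuation L = 1) : L ≠ 0 := by
  rintro rfl
  simp at h

theorem val_of_dvd (h : A.valuation L = 1) (hM : M ∣ L) : A.valuation M = 1 := by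
  obtain ⟨t, rfl⟩ := hM
  rw [Nat.cast_mul, map_mul] at h
  exact le_antisymm (val_nat _ M) (h ▸ mul_le_of_le_one_right' (val_nat _ t))

theorem val_three (h : A.valuation L = 1) (h9 : 9 ∣ L) : A.valuation 3 = 1 := by
  simpa using val_of_dvd h ((show 3 ∣ 9 by decide).trans h9)

theorem val_odd (h2 : A.valuation 2 < 1) (hL : Odd L) : A.valuation L = 1 := by
  simpa using val_int_eq_one Nat.prime_two (by simpa using h2) (n := L)
    (by have := Nat.odd_iff.1 hL; omega)

theorem val_top (hc : c ≠ 0) : (⊤ : ValuationSubring ℂ).valuation c = 1 :=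
  le_antisymm ((ValuationSubring.valuation_le_one_iff _ _).2 trivial) (by
    have := (ValuationSubring.valuation_le_one_iff ⊤ c⁻¹).2 trivial
    rwa [map_inv₀, inv_le_one₀ (zero_lt_iff.2 (by simpa using hc))] at this)

theorem IM.mf (h : IM A L f) : MF L f := ⟨h.1, fun g hg => LE.mono (h.2 g hg) le_top⟩

theorem im_top (h : MF L f) : IM ⊤ L f := ⟨h.1, fun g hg => LE.mono (h.2 g hg) fun x _ =>
  (ValuationSubring.valuation_le_one_iff ⊤ x).2 trivial⟩

theorem im_const (hc : A.valuation c ≤ 1) : IM A L fun _ => c :=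
  ⟨fun _ _ _ _ => rfl, fun _ _ => const_mem _ hc⟩

theorem IM.add (h : IM A L f) (h' : IM A L k) : IM A L fun z => f z + k z :=
  ⟨fun g hg z hz => by simp only [h.1 g hg z hz, h'.1 g hg z hz],
    fun g hg => add_mem (h.2 g hg) (h'.2 g hg)⟩

theorem IM.mul (h : IM A L f) (h' : IM A L k) : IM A L fun z => f z * k z :=
  ⟨fun g hg z hz => by simp only [h.1 g hg z hz, h'.1 g hg z hz],
    fun g hg => mul_mem (h.2 g hg) (h'.2 g hg)⟩

theorem IM.sub (h : IM A L f) (h' : IM A L k) : IM A L fun z => f z - k z :=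
  ⟨fun g hg z hz => by simp only [h.1 g hg z hz, h'.1 g hg z hz],
    fun g hg => sub_mem (h.2 g hg) (h'.2 g hg)⟩

theorem IM.pow (h : IM A L f) (n : ℕ) : IM A L fun z => f z ^ n :=
  ⟨fun g hg z hz => by simp only [h.1 g hg z hz], fun g hg => pow_mem (h.2 g hg) n⟩

theorem IM.congr (hL : L ≠ 0) (h : IM A L f) (e : ∀ z : ℂ, 0 < z.im → k z = f z) : IM A L k :=
  ⟨(B5.mf_congr hL h.mf e).1, fun g hg => LE.congr (h.2 g hg) fun _ hz =>
    e _ (act_pos (by omega) (ga_pos hL hz))⟩

theorem mf_hol (hL : L ≠ 0) (h : MF L f) : Hol f := (B5.mf_le hL h).hol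

theorem mf_an (hL : L ≠ 0) (h : MF L f) (hz : 0 < z.im) : AnalyticAt ℂ f z :=
  B4.gb_an (mf_hol hL h) hz

theorem IM.val (hL : L ≠ 0) (h : IM A L f) (hz : 0 < z.im) (hj : A.valuation (jf z) ≤ 1) :
    A.valuation (f z) ≤ 1 := h.1.val_le hL hL h.2 hz hj

theorem IM.lev (h : IM A M f) (hM : M ∣ L) (hL : L ≠ 0) : IM A L f := by
  obtain ⟨t, rfl⟩ := hM
  refine ⟨fun g hg => h.1 g ⟨hg.1, (Int.natCast_dvd_natCast.2 (dvd_mul_right M t)).trans hg.2⟩,
    fun g hg => ?_⟩
  exact LE.congr (LE.expand (h.2 g hg) (right_ne_zero_of_mul hL)) fun z _ => by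
    rw [Nat.cast_mul, mul_assoc]

theorem IM.dil (h : IM A M f) (hM : M ≠ 0) (hm : m ≠ 0) : IM A (M * m) fun z => f (m * z) := by
  refine ⟨fun g hg z hz => ?_, fun g hg => ?_⟩
  · obtain ⟨h1, c, hc⟩ := hg
    have e : ut m 0 1 * g = !![g 0 0, m * g 0 1; M * c, g 1 1] * ut m 0 1 := by
      ext i j
      fin_cases i <;> fin_cases j <;> simp [ut, Matrix.mul_apply, hc, mul_comm, mul_assoc]
    have d : (ut m 0 1).det ≠ 0 := by simpa [det_ut] using hm
    beta_reduce
    rw [← act_dg, ← act_mul _ (by omega) hz, e, act_mul _ d hz, act_dg]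
    refine h.1 _ ⟨?_, by simp⟩ _ (ga_pos hm hz)
    rw [Matrix.det_fin_two, hc] at h1
    rw [Matrix.det_fin_two_of]
    push_cast at h1
    linear_combination h1
  · obtain ⟨a, b, d, u, rfl, h1, h2⟩ := exists_dg hm hg
    obtain ⟨ha, hd⟩ := mul_ne_zero_iff.1 hm
    refine LE.congr (le_aff ged_int (h.2 u h1) (mul_ne_zero ha ha) (b / (d * M))) fun z hz => ?_
    have p := ga_pos (mul_ne_zero hM hm) hz
    have d0 : (d : ℂ) ≠ 0 := by exact_mod_cast hd
    have m0 : (M : ℂ) ≠ 0 := by exact_mod_cast hM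
    beta_reduce
    rw [← act_dg (N := a * d), ← act_mul _ (by omega) p, h2, act_mul _ (by simp [det_ut, ha, hd]) p]
    congr 2
    simp only [ut, act_of, mob, aff]
    push_cast
    rw [zero_mul, zero_add]
    field_simp

theorem im_jf (hL : L ≠ 0) : IM A L jf :=
  ⟨inv0_jf, fun _ hg => LE.congr (lz_jf.expand_mem _ hL) fun _ hz => jf_act hg (ga_pos hL hz)⟩

theorem im_jN (hM : M ∣ L) (hL : L ≠ 0) : IM A L (jN M) :=
  ((im_jf one_ne_zero).dil one_ne_zero (ne_zero_of_dvd_ne_zero hL hM)).lev (by simpa using hM) hL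

theorem IM.eval (h : IM A L f) {P : ℂ[X]} (hP : I1 A P) : IM A L fun z => P.eval (f z) := by
  simp only [eval_eq_sum_range]
  induction Finset.range (P.natDegree + 1) using Finset.induction_on with
  | empty => simpa using im_const (c := 0) (by simp)
  | insert i s hi ih =>
    simpa only [Finset.sum_insert hi] using ((im_const (hP i)).mul (h.pow i)).add ih

theorem IM.evalEval (h : IM A L f) (h' : IM A L k) {P : ℂ[X][X]} (hP : I2 A P) :
    IM A L fun z => P.evalEval (f z) (k z) := by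
  simp only [← map_evalRingHom_eval, eval_map, eval₂_eq_sum_range, coe_evalRingHom]
  induction Finset.range (P.natDegree + 1) using Finset.induction_on with
  | empty => simpa using im_const (c := 0) (by simp)
  | insert i s hi ih =>
    simpa only [Finset.sum_insert hi] using ((h.eval (hP i)).mul (h'.pow i)).add ih

theorem Gf.add (h : Gf A L f) (h' : Gf A L k) : Gf A L fun z => f z + k z :=
  ⟨h.1.add h'.1, fun σ => (h.2 σ).add (h'.2 σ)⟩

theorem Gf.mul (h : Gf A L f) (h' : Gf A L k) : Gf A L fun z => f z * k z :=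
  ⟨h.1.mul h'.1, fun σ => (h.2 σ).mul (h'.2 σ)⟩

theorem gf_int (n : ℤ) : Gf A L fun _ => n :=
  ⟨im_const (val_int _ n), fun σ => by simpa using G5.cg_const (N := L) (σ := σ) n⟩

theorem Gf.pow (h : Gf A L f) (n : ℕ) : Gf A L fun z => f z ^ n := by
  induction n with
  | zero => simpa using gf_int 1
  | succ n ih => simpa only [pow_succ] using ih.mul h

theorem gf_jf (hL : L ≠ 0) : Gf A L jf :=
  ⟨im_jf hL, fun _ => ⟨B5.mf_jf hL, B5.mf_jf hL, G5.cq_jf⟩⟩

theorem gf_jN (hM : M ∣ L) (hL : L ≠ 0) : Gf A L (jN M) :=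
  have k : IM A L (jN M) := im_jN hM hL
  ⟨k, fun _ => ⟨k.mf, k.mf, G5.cq_jN (ne_zero_of_dvd_ne_zero hL hM)⟩⟩

theorem Gf.aeval (h : Gf A L f) (h' : Gf A L k) (P : ℤ[X][X]) :
    Gf A L fun z => aevalAeval (f z) (k z) P := by
  have a : ∀ q : ℤ[X], Gf A L fun z => Polynomial.aeval (f z) q := fun q => by
    induction q using Polynomial.induction_on with
    | C c => simpa using gf_int c
    | add p q hp hq => simpa using hp.add hq
    | monomial n c hp => simpa [pow_succ, mul_assoc] using hp.mul h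
  induction P using Polynomial.induction_on with
  | C c => simpa only [aevalAeval_C] using a c
  | add p q hp hq => simpa only [map_add] using hp.add hq
  | monomial n c hp => simpa only [pow_succ, ← mul_assoc, map_mul, aevalAeval_Y] using hp.mul h'

theorem cq_dil {σ : ℂ ≃+* ℂ} (h : Cq σ f k) (hm : m ≠ 0) :
    Cq σ (fun z => f (m * z)) fun z => k (m * z) := by
  obtain ⟨n, B, a, b⟩ := h
  refine ⟨m * n, _, (a.expand m hm).congr fun z _ => by rw [q1_nat_mul, ← pow_mul], ?_⟩
  rw [PowerSeries.map_expand]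
  exact (b.expand m hm).congr fun z _ => by rw [q1_nat_mul, ← pow_mul]

theorem Gf.dil (h : Gf A M f) (hM : M ≠ 0) (hm : m ≠ 0) : Gf A (M * m) fun z => f (m * z) :=
  have k := h.1.dil hM hm
  ⟨k, fun σ => ⟨k.mf, k.mf, cq_dil (h.2 σ).ex hm⟩⟩

theorem Gf.dv (a : DimStmt) (b : DcqStmt) (h9 : 9 ∣ L) (hL : A.valuation L = 1) (h : Gf A L f)
    (n : ℕ) : Gf A L (Dv n f) :=
  ⟨a A L n f h9 hL h.1, fun σ => b L n σ f f h9 (ne_of_val hL) (h.2 σ)⟩

theorem dv_zero (f : ℂ → ℂ) : Dv 0 f = f := funext fun _ => by simp [Dv]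

theorem dv_one (f : ℂ → ℂ) (z : ℂ) : Dv 1 f z = deriv f z / deriv tt z := by simp [Dv, dd]

theorem deriv_tt_ne (a : DerStmt) (hz : 0 < z.im) : deriv tt z ≠ 0 := fun h => by
  have := a z hz
  rw [h, zero_div, zero_pow (by decide), zero_mul] at this
  exact pow_ne_zero _ (Dl_ne (by simpa using hz)) this.symm

/-- The power sums of the three roots of the modular equation. -/
theorem pw_spec {K : Type*} [CommRing K] {t a b c : K} (h1 : a + b + c = t ^ 2)
    (h2 : a * b + a * c + b * c = 9 * t) (h3 : a * b * c = 54 - t ^ 3) :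
    (∀ n, a ^ n + b ^ n + c ^ n = pw t n) ∧ ps t a = 0 ∧ ps t b = 0 ∧ ps t c = 0 := by
  have ka : ps t a = 0 := by rw [ps]; linear_combination a ^ 2 * h1 - a * h2 + h3
  have kb : ps t b = 0 := by rw [ps]; linear_combination b ^ 2 * h1 - b * h2 + h3
  have kc : ps t c = 0 := by rw [ps]; linear_combination c ^ 2 * h1 - c * h2 + h3
  refine ⟨fun n => ?_, ka, kb, kc⟩
  induction n using Nat.strong_induction_on with
  | _ n ih =>
    match n with
    | 0 => norm_num [pw]
    | 1 => simpa [pw] using h1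
    | 2 => rw [pw]; linear_combination (a + b + c + t ^ 2) * h1 - 2 * h2
    | n + 3 =>
      rw [pw, ← ih (n + 2) (by omega), ← ih (n + 1) (by omega), ← ih n (by omega)]
      rw [ps] at ka kb kc
      linear_combination a ^ n * ka + b ^ n * kb + c ^ n * kc

end Pool.Agent.B6.D9
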