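import Pool.Agent.Lib.MP_696deb_nt.B7.CM0
import Pool.Agent.Lib.MP_696deb_nt.B6.SDb
import Pool.Agent.Lib.MP_696deb_nt.B6.EP

/-! Moving the seed for characters of two-power conductor. -/

set_option autoImplicit false

open Finset
open scoped Classical NumberTheorySymbols

namespace Pool.Agent.B6.B7

open Pool.Agent.Lib.MP_696deb_nt Pool.Agent.Lib.MP_696deb_nt.B2
open Pool.Agent.B4 (GE.Par GE.Geo GE.MD)
open Pool.Agent.G7 (cnd gD yD GKStmt GZStmt)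
open Pool.Agent.Lib.MP_696deb_nt.B3 (kro)

theorem jac_root {N n p : ℕ} {r : ℤ} (hc : n.Coprime N) (hr : 4 * (N : ℤ) ∣ r ^ 2 + n)
    (hp : p ∣ N) : J(-n | p) = 1 := by
  obtain ⟨u, v, e⟩ := Nat.isCoprime_iff_coprime.2 (hc.coprime_dvd_right hp)
  obtain ⟨k, hk⟩ := ((Int.natCast_dvd_natCast.2 hp).mul_left 4).trans hr
  rw [jacobiSym.mod_left' (a₂ := r ^ 2) (Int.modEq_iff_dvd.2 ⟨k, by linear_combination hk⟩)]
  exact jacobiSym.sq_one' (Int.isCoprime_iff_gcd_eq_one.1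
    ⟨-(u * r), u * k + v, by linear_combination e - u * hk⟩)

theorem tors_of_nsmul {V : Type} [AddCommGroup V] {k : ℕ} (hk : k ≠ 0) {a b : ℤ} {x y : V}
    (h : IsOfFinAddOrder (a • k • x - b • k • y)) : IsOfFinAddOrder (a • x - b • y) :=
  IsOfFinAddOrder.of_nsmul (n := k) (by rwa [smul_sub, smul_comm k a, smul_comm k b]) hk

theorem two_cases {d : ℤ} (hd : d ∣ 2) : d = 1 ∨ d = -1 ∨ d = 2 ∨ d = -2 := by
  have h1 := (Nat.dvd_prime Nat.prime_two).1 (Int.natAbs_dvd_natAbs.2 hd)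
  omega

theorem sqf_two {d : ℤ} (hd : d ∣ 2) : Squarefree d :=
  Int.prime_two.squarefree.squarefree_of_dvd hd

theorem cop_two {d x : ℤ} (hd : d ∣ 2) (hx : x % 2 = 1) : IsCoprime d x :=
  (Int.isCoprime_two_left.2 (Int.odd_iff.2 hx)).of_isCoprime_of_dvd_left hd

theorem cnd_ne {d : ℤ} (hd : Squarefree d) : cnd d ≠ 0 := (B3.pchr_kro hd).ne

theorem disc_neg {n c : ℕ} (hn : 0 < n) (hc : c ≠ 0) : -((n : ℤ) * c ^ 2) < 0 :=
  neg_lt_zero.2 (by positivity)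

/-- The special point of the character of `δ` is not `k` times a point of the twist. -/
def SeedE [Cs] (φ : ℂ → Pt Wu ℂ) (q : ℕ) (δ : ℤ) (k : ℕ) : Prop := ∃ r : ℤ,
  4 * (NN : ℤ) ∣ r ^ 2 + q ∧ ∀ U, G5.FReps NN (-(q * cnd δ ^ 2)) (r * cnd δ) U →
    ∀ R : EE, (∀ g ∈ GK q, tw δ g R = R) → k • pmap jC R ≠ yD φ δ U

variable [Md] {n q m : ℕ} {δ r : ℤ} {φ : ℂ → Pt Wu ℂ} {D : GE.MD Wu NN} {Y P : EE}

theorem exists_hrc (hn : 0 < n) (hd : Squarefree δ) (r : ℤ) : ∃ U, HRc n δ r U :=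
  G5.exists_freps NN_ne (disc_neg hn (cnd_ne hd)) _

theorem kro_root (hN : G5.Nw D) {d : ℤ} (hd : Squarefree d) (hc : IsCoprime d NN) :
    kro d (-NN) = rootNo D.c NN d := by rw [kro_neg hd NN_odd, rootNo_cop hN NN_sqf hc]

variable (T : Tate)

include T

theorem ix_inj (hY : Y ∈ EN) (hP : P ∈ EN) (h : pmap jC (ix δ • P) = pmap jC (ix δ • Y)) :
    P = Y := by
  have k := pmap_injective jC h
  unfold ix at k
  split_ifs at k
  · simpa using k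
  · exact sub_eq_zero.1 (T.EN_two (sub_mem hP hY) (by rw [smul_sub, k, sub_self]))

theorem od_of_tw (h : ∀ g ∈ GK q, tw δ g Y = Y)
    (k : ∀ R : EE, (∀ g ∈ GK q, tw δ g R = R) → 2 • R ≠ Y) : Od Y := fun R hR e =>
  k R (fun g hg => sub_eq_zero.1 (T.EN_two (sub_mem (zsmul_mem (EN_smul hR g) _) hR) (by
    rw [smul_sub, e, sub_eq_zero, ← h g hg, ← e, tw, tw, smul_comm g, smul_comm 2]))) e

theorem prm_of_od (hY : Y ∈ EN) (ho : Od Y) {U : Finset Fm}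
    (h : pmap jC (ix δ • Y) = yD φ δ U) (hP : P ∈ EN) (k : pmap jC (ix δ • P) = yD φ δ U) : Od P :=
  ix_inj T hY hP (k.trans h.symm) ▸ ho

theorem nt_of_od (hY : Y ∈ EN) (ho : Od Y) : ¬ IsOfFinAddOrder (pmap jC (ix δ • Y)) := fun k =>
  T.od_ne ho hY (((pmap_injective jC).isOfFinAddOrder_iff.1 k).of_nsmul (ix_ne δ))

/-- Moving the seed. -/
theorem sd_move7 (gk : GKStmt) (gz : GZStmt) (sd : SDStmt) (G : GE.Geo D.par) (hN : G5.Nw D)
    (ha : ∀ l, al l = D.c l) (hq : Good q) (q8 : q % 8 = 3) (h3 : 3 < q) (hδ : δ ∣ 2) (h1 : δ ≠ 1)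
    (hs : SeedE D.par.φ q δ (2 * ix δ)) (m1 : Squarefree m) (m8 : m % 8 = 1) (m0 : m ≠ 1)
    (m3 : ∀ l : ℕ, l.Prime → l ∣ m → ¬ l ∣ 2 * NN ∧ J(-q | l) = -1 ∧ ¬ Rt l) :
    Prm D.par.φ (q * m) δ := by
  intro r U P u1 u2 u3 u4
  obtain ⟨r₀, s1, s2⟩ := hs
  have q4 := hq.mod4
  have c1 : q.Coprime m := Nat.coprime_of_dvd fun l hl k1 k2 => by
    have := (m3 l hl k2).2.1
    rw [jac_zero_of_dvd hl (dvd_neg.2 (Int.natCast_dvd_natCast.2 k1))] at this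
    omega
  have c2 : m.Coprime NN := Nat.coprime_of_dvd fun l hl k1 k2 => (m3 l hl k1).1 (k2.mul_left 2)
  have n8 : q * m % 8 = 3 := by rw [Nat.mul_mod, q8, m8]
  have g1 : Good (q * m) := ⟨(Nat.squarefree_mul c1).2 ⟨hq.sqf, m1⟩, by omega, hq.cop.mul_left c2⟩
  have l2 : 3 < q * m := by nlinarith [m1.ne_zero.bot_lt]
  have sδ := sqf_two hδ
  have cN : IsCoprime δ NN := cop_two hδ (by have := Nat.odd_iff.1 NN_odd; omega)
  have j1 := fun p => jac_root (p := p) hq.cop s1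
  have j2 : ∀ p : ℕ, p.Prime → p ∣ NN → J(m | p) = 1 := fun p _ k => by
    have := jac_root g1.cop u1 k
    rwa [Nat.cast_mul, ← neg_mul, jacobiSym.mul_left, j1 p k, one_mul] at this
  obtain ⟨a, b, ab, a4, b4, w⟩ : ∃ a b : ℤ, a * b = -q ∧ a % 4 = 1 ∧ b % 4 = 1 ∧
      rootNo D.c NN (δ * b) = -1 := by
    rcases nw_cases hN sδ.ne_zero with k | k
    · exact ⟨1, -q, one_mul _, rfl, by omega, by
        rw [rootNo_heeg fun p _ => j1 p, k, one_mul, Int.sign_eq_neg_one_of_neg (by omega)]⟩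
    · exact ⟨-q, 1, mul_one _, by omega, rfl, by rwa [mul_one]⟩
  have da : a ∣ q := ⟨-b, by linear_combination ab⟩
  have db : b ∣ q := ⟨-a, by linear_combination ab⟩
  have sq := Int.squarefree_natCast.2 g1.sqf
  have cq := Nat.isCoprime_iff_coprime.2 g1.cop
  have no : ∀ l : ℕ, l.Prime → l ∣ 1 → ∀ n : ℕ, ¬ l ∣ 2 * NN ∧ J(-n | l) = -1 :=
    fun _ hl k => absurd k hl.not_dvd_one
  have ne1 : ∀ x : ℤ, x % 4 = 1 → δ * x ≠ 1 := fun x hx k => by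
    rcases two_cases hδ with rfl | rfl | rfl | rfl <;> omega
  push_cast at sq cq
  obtain ⟨Y₀, a1, a2, a3, a4'⟩ := sd D.par G (ha 2) q 1 δ r₀ hq q8 h3 s1 hδ squarefree_one
    fun l hl k => no l hl k q
  obtain ⟨Y₁, b1, -, b3, b4'⟩ := sd D.par G (ha 2) (q * m) 1 δ r g1 n8 l2 u1 hδ squarefree_one
    fun l hl k => no l hl k _
  obtain ⟨Y₂, c1', -, c3, c4⟩ := sd D.par G (ha 2) q m δ r₀ hq q8 h3 s1 hδ m1
    fun l hl k => ⟨(m3 l hl k).1, (m3 l hl k).2.1⟩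
  simp only [Nat.cast_one, mul_one, Nat.primeFactors_one, prod_empty, one_smul, one_dvd,
    forall_const] at a4' b4'
  obtain ⟨U₀, t0⟩ := exists_hrc (n := q) (by omega) sδ r₀
  obtain rfl : Y₂ = Y₀ := ix_inj T a1 c1' ((c3 U₀ t0).trans (a3 U₀ t0).symm)
  have o0 : Od Y₂ := od_of_tw T a2 fun R hR e => s2 U₀ t0 R hR (by
    rw [← a3 U₀ t0, ← e, smul_smul, mul_comm, map_nsmul])
  obtain ⟨U₂, t2⟩ := G5.exists_freps NN_ne (disc_neg (n := q) (by omega)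
    (mul_ne_zero (cnd_ne sδ) m1.ne_zero)) (r₀ * (cnd δ * m))
  push_cast at t2
  have m4 : (m : ℤ) % 4 = 1 := by omega
  have bm : b * m % 4 = 1 := by rw [Int.mul_emod, b4, m4]; rfl
  have dbm : b * m ∣ q * m := mul_dvd_mul_right db _
  obtain ⟨R₀, d1, d2⟩ := a4' b U₀ b4 db t0
  obtain ⟨R₁, d3, d4⟩ := b4' b U b4 (by push_cast; exact db.mul_right _) u2
  obtain ⟨R₂, d5, d6⟩ := b4' (b * m) U bm (by push_cast; exact dbm) u2
  obtain ⟨R₃, d7, d8⟩ := c4 (b * m) U₂ bm (dvd_mul_left _ _) dbm t2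
  have e0 := add_mem a1 (nsmul_mem d1 2)
  have o1 := od_add o0 d1
  have L := (gz Wu NN D ⟨WZ, rfl⟩ hN (funext ha ▸ T.inert) q δ a b r₀ U₀ hq.g5 h3 ab a4 sδ
    (cop_two hδ (by omega)) (fun p hp p2 k => absurd ((Nat.prime_dvd_prime_iff_eq hp
      Nat.prime_two).1 (Int.natCast_dvd_natCast.1 (k.trans hδ))) p2) (ne1 a a4) (ne1 b b4) w s1 t0
    (d2 ▸ nt_of_od T e0 o1)).1
  have dam : a * m ∣ q * m := mul_dvd_mul_right da _
  have mz : (1 : ℤ) < m := by have := m1.ne_zero; omega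
  have a0 : a ≠ 0 := by omega
  obtain ⟨u, ν, n1, n2⟩ := gk Wu NN D NN_sqf NN_odd NN_gt hN δ a (a * m) (q * m) hδ h1
    (sq.squarefree_of_dvd (da.mul_right _)) a4 (cq.of_isCoprime_of_dvd_left (da.mul_right _))
    (sq.squarefree_of_dvd dam) (by rw [Int.mul_emod, a4, m4]; rfl)
    (cq.of_isCoprime_of_dvd_left dam) (mul_assoc a a m ▸ mul_pos (mul_self_pos.2 a0) (by omega))
    (fun k => mz.ne (mul_left_cancel₀ a0 ((mul_one a).trans k))) g1.sqf.ne_zero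
  have x1 : b * (a * m) = -((q * m : ℕ) : ℤ) := by push_cast; linear_combination m * ab
  have x2 : b * m * (a * m) = -(q * m ^ 2) := by linear_combination m ^ 2 * ab
  have kr : ∀ x : ℤ, x % 4 = 1 → x ∣ q * m → kro (δ * x) (-NN) = rootNo D.c NN (δ * x) :=
    fun x hx k => kro_root hN (squarefree_mul_iff.2 ⟨(cop_two hδ (by omega)).isRelPrime, sδ,
      sq.squarefree_of_dvd k⟩) (cN.mul_left (cq.of_isCoprime_of_dvd_left k))
  have n3 : ∀ {n c : ℕ}, Squarefree n → 3 < n → c ≠ 0 → ∀ k : ℤ, -((n : ℤ) * c ^ 2) ≠ -3 * k ^ 2 :=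
    fun h h' hc k e => ne_three h h' hc k.natAbs (by
      zify
      rw [sq_abs]
      linear_combination -e)
  obtain ⟨s, -, e1⟩ := n2 b r₀ r q U₀ U (by push_cast; exact db.mul_right _) ab hq.g5 h3
    ((kr b b4 (db.mul_right _)).trans w) (by simpa [x1] using n3 g1.sqf l2 one_ne_zero) s1
    (by rwa [x1, sub_neg_eq_add]) t0 (by rwa [x1, neg_mul])
  obtain ⟨t, ht, e2⟩ := n2 (b * m) r (r₀ * m) (q * m) U U₂ (by push_cast; exact dbm)
    (by rw [← x1]; ring) g1.g5 l2 (by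
      rw [kr _ bm dbm, ← mul_assoc, rootNo_heeg j2, w, Int.sign_eq_one_of_pos (by omega), mul_one])
    (x2 ▸ n3 hq.sqf h3 m1.ne_zero) u1
    (by rw [x2, sub_neg_eq_add, mul_pow, ← add_mul]; exact s1.mul_right _) u2
    (by convert t2 using 1 <;> [rw [x2]; skip] <;> ring)
  rw [← d2, ← d4, ← map_zsmul, ← map_zsmul, ← map_sub,
    (pmap_injective jC).isOfFinAddOrder_iff] at e1
  rw [← d6, ← d8, ← map_zsmul, ← map_zsmul, ← map_sub,
    (pmap_injective jC).isOfFinAddOrder_iff] at e2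
  have k1 : Odd (∏ l ∈ m.primeFactors, D.par.a l) := prod_induction _ Odd (fun _ _ => Odd.mul)
    odd_one fun l hl => by
      have p1 := Nat.prime_of_mem_primeFactors hl
      have p2 := m3 l p1 (Nat.dvd_of_mem_primeFactors hl)
      exact Int.not_even_iff_odd.1 (mt (ha l ▸ even_al p1 p2.1).1 p2.2.2)
  have := od_add (T.od_of o1 (od_add (o0.zsmul a1 k1) d7) e0 (add_mem b1 (nsmul_mem d3 2))
    (add_mem (zsmul_mem a1 _) (nsmul_mem d7 2)) (n1 L) ht (tors_of_nsmul (ix_ne δ) e1)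
    (tors_of_nsmul (ix_ne δ) e2)) (neg_mem d5)
  rw [smul_neg, add_neg_cancel_right] at this
  exact prm_of_od T b1 this (b3 U u2) u3 u4

omit T in
/-- The old notion of primitivity. -/
theorem prm_one (hn : 0 < n) (h : Prim φ n) : Prm φ n 1 := fun r U P h1 h2 _ h4 =>
  h r U P h1 ((hrp_iff (by omega)).2 (by simpa [HRc, show cnd 1 = 1 from rfl] using h2))
    (by rwa [ix_odd rfl, one_smul, yD_odd φ rfl] at h4)

/-- The seeds that come for free. -/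
theorem prm_neg (fl : FLStmt) {P : GE.Par Wu NN} (G : GE.Geo P) (ha : al 2 = P.a 2)
    (h2 : Even (al 2)) (hn : Good n) (n8 : n % 8 = 3) (h3 : 3 < n) :
    (Prm P.φ n 1 → Prm P.φ n (-1)) ∧ (Prm P.φ n 2 → Prm P.φ n (-2)) := by
  have key : ∀ δ : ℤ, δ = 1 ∨ δ = 2 → Prm P.φ n δ → Prm P.φ n (-δ) := fun δ hδ h r U R u1 u2 u3 u4 => by
    obtain ⟨Y, y1, y2, y3⟩ := fl P G ha h2 n r hn n8 h3 u1
    have d1 : δ ∣ 2 := by rcases hδ with rfl | rfl <;> decide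
    obtain ⟨U₀, t0⟩ := exists_hrc (n := n) (by omega) (sqf_two d1) r
    obtain ⟨S, s1, s2⟩ : ∃ S ∈ EN, Y (-δ) = Y δ + 2 • S := by rcases hδ with rfl | rfl <;> assumption
    exact prm_of_od T (y1 _ (neg_dvd.2 d1)).1
      (s2 ▸ od_add (h r U₀ _ u1 t0 (y1 δ d1).1 ((y1 δ d1).2 U₀ t0)) s1)
      ((y1 _ (neg_dvd.2 d1)).2 U u2) u3 u4
  exact ⟨key 1 (.inl rfl), key 2 (.inr rfl)⟩

/-- The old seed. -/
theorem seed_one (sd : SDStmt) {P : GE.Par Wu NN} (G : GE.Geo P) (ha : al 2 = P.a 2)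
    (hq : Good q) (q8 : q % 8 = 3) (h3 : 3 < q) (h : SeedC P.φ q) : Seed P.φ q := by
  obtain ⟨r, U, h1, h2, h4⟩ := h
  obtain ⟨Y, a1, a2, a3, -⟩ := sd P G ha q 1 1 r hq q8 h3 h1 (one_dvd _) squarefree_one
    fun l hl k => absurd k hl.not_dvd_one
  have c : ∀ g R, tw 1 g R = g • R := fun g R => by
    rw [tw, show chi 1 g = 1 by simpa using chi_sq 1 g, Units.val_one, one_smul]
  have e := a3 U (by simpa [HRc, show cnd 1 = 1 from rfl] using (hrp_iff (by omega)).1 h2)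
  rw [ix_odd rfl, one_smul, yD_odd P.φ rfl] at e
  exact ⟨r, U, h1, h2, Y, a1, e, od_of_tw T a2 fun R hR k =>
    h4 R (fun g hg => c g R ▸ hR g hg) (by rw [← map_nsmul, k, e]; rfl)⟩

end Pool.Agent.B6.B7
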