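import Pool.Agent.Lib.MP_696deb_nt.B7.D9a

/-! The expansions of the eta quotient of level nine at all cusps. -/

set_option autoImplicit false

open PowerSeries
open scoped ModularForm

namespace Pool.Agent.B6.D9

open Pool.Agent.Lib.MP_696deb_nt Pool.Agent.B4.GE

namespace Cusp

variable {Γ : Type*} [LinearOrderedCommGroupWithZero Γ] {V : Valuation ℂ Γ}

theorem lu_aff {F : ℂ → ℂ} {B : ℤ⟦X⟧} (h : QE F (toC B)) (hB : constantCoeff B = 1) {a : ℕ}
    (ha : a ≠ 0) (c : ℚ) : LU V 0 fun z => F (aff a c z) := by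
  refine ⟨_, ((h.shift c).expand a ha).congr fun z _ => by simp [aff],
    Cf.expand (fun k => ?_) a ha, ?_⟩
  · change V _ ≤ 1
    rw [coeff_rescale, map_mul, map_pow, val_q1, one_pow, one_mul, coeff_map]
    exact val_int V _
  · rw [coeff_expand, if_pos (dvd_zero _), Nat.zero_div, coeff_rescale, cc_toC, hB]
    simp

theorem const_of_pow {F : ℂ → ℂ} (hF : Hol F) {c : ℂ} (h : ∀ z : ℂ, 0 < z.im → F z ^ 8 = c) :
    ∃ c', c' ^ 8 = c ∧ ∀ z : ℂ, 0 < z.im → F z = c' := by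
  refine ⟨F Complex.I, h _ (by simp), fun z hz => ?_⟩
  have hf : Set.Finite {x : ℂ | x ^ 8 = c} :=
    (Polynomial.nthRoots 8 c).toFinset.finite_toSet.subset fun x hx => by
      simpa [Polynomial.mem_nthRoots] using hx
  exact (convex_halfSpace_im_gt 0).isPreconnected.constant_of_mapsTo hf.isDiscrete
    (fun z hz => (hF z hz).continuousAt.continuousWithinAt) h hz (by simp)

theorem rr_pow (z : ℂ) : rr z ^ 8 = Dl z / Dl (9 * z) := by
  rw [rr, Dl, Dl, ← pow_mul, div_pow]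

theorem hol_rr : Hol rr := fun z hz => by
  have p : 0 < ((9 : ℂ) * z).im := by simpa using hz
  exact ((hol_eta z hz).div ((hol_eta _ p).comp z (by fun_prop)) (eta_ne p)).pow 3

theorem rr_act {g k : MZ} {a b d : ℕ} (hg : g.det = 1) (hk : k.det = 1) (had : a * d = 9)
    (hm : ut 9 0 1 * g = k * ut a b d) {u : ℂ} (hu : 0 < u.im) :
    rr (act g u) ^ 8 = d ^ 12 * Dl u / Dl (act (ut a b d) u) := by
  have h0 : 0 < (ut a b d).det := by rw [det_ut, ← Nat.cast_mul, had]; decide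
  have p := act_pos h0 hu
  have e1 : 9 * act g u = act k (act (ut a b d) u) := by
    rw [← act_mul _ h0.ne' hu, ← hm, act_mul _ (by omega) hu, act_dg, Nat.cast_ofNat]
  have e2 : den g u = den k (act (ut a b d) u) * d := by
    have := den_mul k h0.ne' hu
    rw [← hm, den_mul _ (by omega) hu] at this
    simpa [den, ut] using this
  have := den_ne' (M := k) (by omega) p
  have := Dl_ne p
  rw [rr_pow, e1, Dl_act hg hu, Dl_act hk p, e2]
  field_simp

end Cusp

open Cusp in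
theorem cusp_stmt (_ : InvStmt) (_ : TexStmt) : CuspStmt := by
  intro A h3 g hg
  obtain ⟨a, b, d, k, had, hk, hm⟩ := exists_dg (N := 9) (by decide) hg
  obtain ⟨ha, hd⟩ : a ≠ 0 ∧ d ≠ 0 := mul_ne_zero_iff.1 (by omega)
  obtain ⟨e, he, hG⟩ : ∃ e : ℤ, 8 * e + 9 = (a * a : ℕ) ∧ (¬ G0 9 g → e ≤ 0) := by
    have h9 : a ≤ 9 := Nat.le_of_dvd (by decide) ⟨d, had.symm⟩
    interval_cases a <;> try omega
    · exact ⟨-1, by decide, fun _ => by decide⟩
    · exact ⟨0, by decide, fun _ => le_rfl⟩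
    · refine ⟨9, by decide, fun h => (h ⟨hg, k 1 0, ?_⟩).elim⟩
      simpa [ut, Matrix.mul_apply, mul_comm] using congrFun (congrFun hm 1) 0
  have haa := mul_ne_zero ha ha
  have i1 : QE (fun z => (eul (q1 z))⁻¹) (toC (invOfUnit P1 1)) :=
    qe_P1.inv (fun _ => eul_ne) (by rw [← map_mul, mul_invOfUnit _ _ (by simp [cc_P1]), map_one])
  obtain ⟨B, h1, h2, h4⟩ := ((lu_aff (V := A.valuation) qe_P1 cc_P1 (a := 9) (by decide) 0).mul
    (lu_aff i1 (by simp) haa (b / d))).pow 3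
  simp only [add_zero, mul_zero, pow_zero, one_mul] at h1
  have n1 : ∀ z : ℂ, 0 < z.im → eul (q1 (aff 9 0 z)) ≠ 0 := fun z hz =>
    eul_ne (aff_pos (by decide) _ hz)
  have n2 : ∀ z : ℂ, 0 < z.im → eul (q1 (aff (a * a) (b / d) z)) ≠ 0 := fun z hz =>
    eul_ne (aff_pos haa _ hz)
  have a9 : ∀ z : ℂ, aff 9 0 z = 9 * z := fun z => by simp [aff]
  have p9 : ∀ z : ℂ, 0 < z.im → 0 < ((9 : ℂ) * z).im := fun z hz => by simpa using hz
  obtain ⟨c, hc, h5⟩ := const_of_pow (c := d ^ 12 / q1 (((b / d : ℚ) : ℝ) : ℂ))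
    (F := fun z => q1 z ^ e * rr (act g (9 * z)) /
      (eul (q1 (aff 9 0 z)) * (eul (q1 (aff (a * a) (b / d) z)))⁻¹) ^ 3)
    (fun z hz => (((hol_q1 z hz).zpow (Or.inl (q1_ne z))).mul
      ((hol_rr _ (act_pos (by omega) (p9 z hz))).comp z
        ((hol_act (by omega) _ (p9 z hz)).comp z (by fun_prop)))).div (h1.hol z hz)
      (pow_ne_zero _ (mul_ne_zero (n1 z hz) (inv_ne_zero (n2 z hz))))) fun z hz => by
    have e1 := act_ut_aff (a := a) (b := b) hd 1 z
    rw [mul_one, mul_one, had, a9] at e1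
    have e2 : (q1 z ^ e) ^ 8 * q1 z ^ 9 = q1 z ^ (a * a) := by
      rw [← zpow_natCast, ← zpow_natCast, ← zpow_natCast, ← zpow_mul, ← zpow_add₀ (q1_ne z), ← he]
      congr 1
      push_cast
      ring
    have e3 : q1 (aff (a * a) (b / d) z) = q1 z ^ (a * a) * q1 (((b / d : ℚ) : ℝ) : ℂ) := by
      rw [aff, q1_add, q1_nat_mul]
    have e4 : q1 (9 * z) = q1 z ^ 9 := by simpa using q1_nat_mul 9 z
    have := n1 z hz
    have := n2 z hz
    have := q1_ne z
    have := q1_ne (((b / d : ℚ) : ℝ) : ℂ)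
    rw [div_pow, mul_pow, rr_act hg hk had hm (p9 z hz), e1, Dl_eq, Dl_eq, ← a9]
    generalize eul (q1 (aff 9 0 z)) = x at *
    generalize eul (q1 (aff (a * a) (b / d) z)) = y at *
    rw [e3, a9, e4, ← e2]
    have := zpow_ne_zero e (q1_ne z)
    field_simp
  have hv : A.valuation c = 1 := by
    have h9 : A.valuation ((9 : ℕ) : ℂ) = 1 := by
      rw [show ((9 : ℕ) : ℂ) = 3 ^ 2 by norm_num, map_pow, h3, one_pow]
    have := congrArg A.valuation hc
    rwa [map_div₀, map_pow, map_pow, val_q1, val_of_dvd h9 (Dvd.intro_left _ had), one_pow, div_one,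
      pow_eq_one_iff_left (by decide)] at this
  refine ⟨e, ⟨_, (h1.smul c).congr fun z hz => ?_, fun n => ?_,
    by rw [coeff_C_mul, map_mul, hv, h4, one_mul]⟩, hG⟩
  swap
  · rw [coeff_C_mul]
    exact ged_int _ hv.le _ (h2 n)
  rw [← h5 z hz, div_mul_cancel₀ _
    (pow_ne_zero _ (mul_ne_zero (n1 z hz) (inv_ne_zero (n2 z hz))))]

end Pool.Agent.B6.D9
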