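import Pool.Agent.Lib.MP_696deb_nt.B7.D9a

/-! Integral expansions are stable under divided derivatives. -/

set_option autoImplicit false

open scoped Real

namespace Pool.Agent.B6.D9

open Pool.Agent.Lib.MP_696deb_nt

namespace Hq

variable {F : ℂ → ℂ} {B : PowerSeries ℂ} {m : ℕ}

theorem step (h : QE (fun z => q1 z ^ m * F z) B) :
    QE (fun z => q1 z ^ (m + 1) * (deriv F z / (2 * π * Complex.I * q1 z)))
      (PowerSeries.mk fun k => PowerSeries.coeff k B * ((k : ℂ) - m)) := by
  obtain ⟨G, h1, h2⟩ := h.hasDerivAt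
  convert (h1.sub (h.smul m)).congr fun z hz => ?_ using 1
  · ext k
    rcases k with _ | k
    · simp [mul_comm]
    · rw [map_sub, PowerSeries.coeff_succ_X_mul, PowerSeries.coeff_derivative,
        PowerSeries.coeff_C_mul, PowerSeries.coeff_mk]
      push_cast
      ring
  · have e := (h2 z hz).unique
      (((hasDerivAt_q1 z).fun_pow m).fun_mul (hol_of_pow_mul h z hz).hasDerivAt)
    have k : (m : ℂ) * q1 z ^ (m - 1) * q1 z = m * q1 z ^ m := by
      rcases m with _ | m
      · simp
      · rw [Nat.add_sub_cancel, mul_assoc, ← pow_succ]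
    have q0 := q1_ne z
    have p0 := Complex.two_pi_I_ne_zero
    rw [← mul_div_assoc, div_eq_iff (mul_ne_zero p0 q0)]
    linear_combination -q1 z * e - 2 * π * Complex.I * q1 z * F z * k

theorem iter (h : QE (fun z => q1 z ^ m * F z) B) (n : ℕ) :
    QE (fun z => q1 z ^ (m + n) * (fun G u => deriv G u / (2 * π * Complex.I * q1 u))^[n] F z)
      (PowerSeries.mk fun k =>
        PowerSeries.coeff k B * ((descPochhammer ℤ n).eval ((k : ℤ) - m) : ℤ)) := by
  induction n with
  | zero => exact Eq.subst (motive := QE _) (PowerSeries.ext fun k => by simp) h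
  | succ n ih =>
    rw [Function.iterate_succ_apply']
    refine Eq.subst (motive := QE _) (PowerSeries.ext fun k => ?_) (step (m := m + n) ih)
    simp only [PowerSeries.coeff_mk, descPochhammer_succ_eval]
    push_cast
    ring

end Hq

theorem hq_stmt : HqStmt := by
  rintro R F n ⟨m, B, h1, h2⟩
  refine ⟨m + n, _, ((Hq.iter h1 n).smul (n.factorial : ℂ)⁻¹).congr fun z _ => by ring, fun k => ?_⟩
  have n0 : (n.factorial : ℂ) ≠ 0 := Nat.cast_ne_zero.2 n.factorial_ne_zero
  rw [PowerSeries.coeff_C_mul, PowerSeries.coeff_mk, Polynomial.eval_eq_smeval,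
    Ring.descPochhammer_eq_factorial_smul_choose, nsmul_eq_mul, Int.cast_mul, Int.cast_natCast,
    mul_left_comm, inv_mul_cancel_left₀ n0]
  exact R.mul_mem (h2 k) (intCast_mem R _)

end Pool.Agent.B6.D9
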