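import Pool.Agent.Lib.MP_696deb_nt.B7.D9a

/-! Functions with poles at infinity only are polynomials in the coordinate. -/

set_option autoImplicit false

open Polynomial Filter Topology
open scoped Classical

namespace Pool.Agent.B6.D9

open Pool.Agent.Lib.MP_696deb_nt Pool.Agent.B4.GE

theorem Poly.bdd (h3 : CuspStmt) {g : MZ} (hg : g.det = 1) (h : ¬ G0 9 g) (n : ℕ) :
    Bdd fun z => tt (act g z) ^ n := by
  obtain ⟨e, ⟨B, hB, -⟩, he⟩ := h3 ⊤ (val_top three_ne_zero) g hg
  obtain ⟨m, rfl⟩ := Int.exists_eq_neg_ofNat (he h)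
  refine ((((QE.const 3).add (hB.pow_mul m)).pow n).bdd.comp_affine (r := 9⁻¹) (by norm_num)
    0).congr fun z _ => ?_
  rw [← mul_assoc, zpow_neg, zpow_natCast, mul_inv_cancel₀ (pow_ne_zero _ (q1_ne _)), one_mul, tt]
  simp

theorem poly_stmt (h1 : InvStmt) (h2 : TexStmt) (h3 : CuspStmt) : PolyStmt := by
  obtain ⟨J, hJ, c1⟩ : ∃ J, QE (fun z => q1 z ^ 1 * tt z) (toC J) ∧
      PowerSeries.constantCoeff J = 1 := h2.elim fun _ h => ⟨_, h, by simp⟩
  intro S n F A hF hb hA hS
  induction n generalizing F A with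
  | zero =>
    have hA' : QE F A := hA.congr fun z _ => by simp
    obtain ⟨c, hc⟩ := const_of_inv 9 hA'.hol
      (fun a b c d e z hz => hF !![a, b; (9 : ℕ) * c, d] ⟨by simpa using e, by simp⟩ z hz)
      fun a b c d e => by
        by_cases k : G0 9 !![a, b; c, d]
        exacts [hA'.bdd.congr (hF _ k), hb _ (by simpa using e) k]
    refine ⟨C (PowerSeries.coeff 0 A), fun k => ?_, by simp, by simp, fun z hz => ?_⟩
    · rw [coeff_C]
      split_ifs
      exacts [hS 0, S.zero_mem]
    · rw [eval_C, hc z hz]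
      exact tendsto_nhds_unique (tendsto_const_nhds.congr' (ev_pos.mono fun z hz => (hc z hz).symm))
        hA'.tendsto
  | succ n ih =>
    obtain ⟨B, hB⟩ : PowerSeries.X ∣
        A - PowerSeries.C (PowerSeries.coeff 0 A) * toC (J ^ (n + 1)) := by
      rw [PowerSeries.X_dvd_iff, ← PowerSeries.coeff_zero_eq_constantCoeff, map_sub,
        PowerSeries.coeff_C_mul, cc_toC, map_pow, c1]
      simp
    have k := hA.sub ((hJ.pow (n + 1)).smul (PowerSeries.coeff 0 A))
    rw [← map_pow, hB, ← pow_one PowerSeries.X] at k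
    obtain ⟨P, p1, p2, -, p4⟩ := ih (fun z => F z - PowerSeries.coeff 0 A * tt z ^ (n + 1)) B
      (fun g hg z hz => by simp only [hF g hg z hz, h1 g hg z hz])
      (fun g hg h => (hb g hg h).sub ((Bdd.const _).mul (Poly.bdd h3 hg h _)))
      (k.of_X_pow_mul.congr fun z _ => by have := q1_ne z; field_simp; ring)
      (Cf.of_X_mul (hB ▸ hS.sub (Cf.const_mul_toC (hS 0) _)))
    refine ⟨P + monomial (n + 1) (PowerSeries.coeff 0 A), fun k => ?_, ?_, ?_, fun z hz => ?_⟩
    · rw [coeff_add, coeff_monomial]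
      split_ifs
      exacts [S.add_mem (p1 k) (hS 0), S.add_mem (p1 k) S.zero_mem]
    · exact (natDegree_add_le _ _).trans (max_le (by omega) (natDegree_monomial_le _))
    · rw [coeff_add, coeff_eq_zero_of_natDegree_lt (by omega), coeff_monomial_same, zero_add]
    · rw [eval_add, eval_monomial, ← p4 z hz, sub_add_cancel]

end Pool.Agent.B6.D9
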