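import Pool.Agent.Lib.MP_696deb_nt.B7.D9a

/-! Transport of values along a residue disc. -/

set_option autoImplicit false

open Polynomial Filter Topology
open scoped Classical

namespace Pool.Agent.B6.D9

open Pool.Agent.Lib.MP_696deb_nt Pool.Agent.B4.GE

namespace Tr

section
variable {A R S T : Type} [CommRing A] [CommRing R] [Algebra A R] [CommRing S] [Algebra A S]
  [CommRing T] [Algebra A T]

/-- Evaluation of a polynomial in two variables. -/
noncomputable def e2 (x y : S) (Φ : A[X][X]) : S := (Φ.map (aeval x).toRingHom).eval y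

theorem e2_hom (φ : S →ₐ[A] T) (x y : S) (Φ : A[X][X]) : φ (e2 x y Φ) = e2 (φ x) (φ y) Φ := by
  rw [e2, e2, eval_map, eval_map]
  refine (hom_eval₂ Φ _ φ.toRingHom y).trans ?_
  congr 1
  ext <;> simp

theorem e2_eq (x y : S) (Φ : A[X][X]) :
    e2 x y Φ = (Φ.map (mapRingHom (algebraMap A S))).evalEval x y := by
  rw [← map_evalRingHom_eval, Polynomial.map_map, e2]
  congr 2
  ext <;> simp

theorem un_monic [Nontrivial R] {M : A[X]} (hM : M.Monic) (c : R) :
    ∃ n, IsUnit (PowerSeries.coeff n (aeval (PowerSeries.C c + PowerSeries.X) M)) := by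
  have e : aeval (PowerSeries.C c + PowerSeries.X) M =
      ((taylor c (M.map (algebraMap A R)) : R[X]) : PowerSeries R) := by
    clear hM
    induction M using Polynomial.induction_on' with
    | add p q hp hq => simp [hp, hq]
    | monomial n a => simp [taylor_monomial, add_comm, PowerSeries.algebraMap_apply]
  exact ⟨_, by rw [e, coeff_coe, coeff_taylor_natDegree, (hM.map _).leadingCoeff]; exact isUnit_one⟩

theorem un_mul [IsLocalRing R] {G F : PowerSeries R}
    (h : ∃ n, IsUnit (PowerSeries.coeff n (G * F))) : ∃ m, IsUnit (PowerSeries.coeff m F) := by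
  by_contra k
  obtain ⟨n, h⟩ := h
  rw [PowerSeries.coeff_mul] at h
  exact (IsLocalRing.mem_maximalIdeal _).1 (Ideal.sum_mem _ fun p _ => Ideal.mul_mem_left _ _
    ((IsLocalRing.mem_maximalIdeal _).2 fun u => k ⟨_, u⟩)) h

theorem ex_monic {P Q D : A[X]} (hP : P.Monic) (d : P.natDegree = Q.natDegree + 1) (hD : D.Monic)
    {t j : S} (h : aeval t Q * j = aeval t P) :
    ∃ (E : A[X]) (G : S), E.Monic ∧ G * aeval j D = aeval t E := by
  refine ⟨P ^ D.natDegree + ∑ k ∈ Finset.range D.natDegree,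
    C (D.coeff k) * (P ^ k * Q ^ (D.natDegree - k)), aeval t Q ^ D.natDegree, ?_, ?_⟩
  · nontriviality A
    refine (hP.pow _).add_of_left ((degree_sum_le _ _).trans_lt ((Finset.sup_lt_iff
      (bot_lt_iff_ne_bot.2 (mt degree_eq_bot.1 (hP.pow _).ne_zero))).2 fun k hk => ?_))
    refine degree_lt_degree ((natDegree_C_mul_le _ _).trans_lt (natDegree_mul_le.trans_lt ?_))
    obtain ⟨m, hm⟩ := Nat.exists_eq_add_of_lt (Finset.mem_range.1 hk)
    have := natDegree_pow_le (p := Q) (n := D.natDegree - k)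
    rw [hP.natDegree_pow, hP.natDegree_pow, d]
    rw [hm, add_assoc, Nat.add_sub_cancel_left] at this ⊢
    nlinarith
  · rw [congrArg (aeval j) hD.as_sum]
    simp only [map_add, map_sum, map_mul, map_pow, aeval_C, aeval_X, ← h, mul_add, Finset.mul_sum,
      mul_pow]
    congr 1
    refine Finset.sum_congr rfl fun k hk => ?_
    rw [← pow_mul_pow_sub (aeval t Q) (Finset.mem_range.1 hk).le]
    ring

theorem core (root : RootStmt) [IsLocalRing R] (reg : ∀ (F G : PowerSeries R) (n : ℕ),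
      IsUnit (PowerSeries.coeff n F) → F * G = 0 → G = 0) (α β : S →ₐ[A] PowerSeries R)
    {t j y E h : S} {c : R} {P Q D D' : A[X]} {Φ B : A[X][X]} (ht : α t = β t)
    (hc : β t = PowerSeries.C c + PowerSeries.X) (hP : P.Monic) (hQ : Q.Monic)
    (d : P.natDegree = Q.natDegree + 1) (hD : D.Monic) (hD' : D'.Monic)
    (hy : ∀ k, ¬ IsUnit (PowerSeries.coeff k (α y - β y)))
    (H : ∀ φ, φ = α ∨ φ = β → φ (aeval t Q * j) = φ (aeval t P) ∧ φ (e2 j y Φ) = φ 0 ∧
      φ (E * e2 j y (derivative Φ)) = φ (aeval j D) ∧ φ (aeval j D' * h) = φ (e2 j y B)) :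
    α h = β h := by
  obtain ⟨a1, a2, -, a4⟩ := H α (.inl rfl)
  obtain ⟨b1, b2, b3, b4⟩ := H β (.inr rfl)
  simp only [map_mul, map_zero, e2_hom, ← aeval_algHom_apply, ht, hc] at a1 a2 a4 b1 b2 b3 b4
  have un : ∀ {M : A[X]}, M.Monic → ∃ n, IsUnit (PowerSeries.coeff n (aeval (β j) M)) := fun hM => by
    obtain ⟨M', G, m, e⟩ := ex_monic hP d hM b1
    exact un_mul (e ▸ un_monic m c)
  obtain ⟨n, hn⟩ := un_monic hQ c
  have ej : α j = β j := sub_eq_zero.1 (reg _ _ n hn (by rw [mul_sub, a1, b1, sub_self]))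
  rw [ej] at a2 a4
  obtain ⟨m, hm⟩ := un_mul (b3 ▸ un hD)
  have ey : α y = β y := root R reg _ _ _ m a2 b2 hy (by rwa [derivative_map])
  obtain ⟨k, hk⟩ := un hD'
  exact sub_eq_zero.1 (reg _ _ k hk (by rw [mul_sub, a4, b4, ey, sub_self]))

end

variable {A : ValuationSubring ℂ} {L : ℕ}

theorem lift1 {P : ℂ[X]} (h : I1 A P) : ∃ P' : A[X], P'.map (algebraMap A ℂ) = P :=
  (mem_lifts P).1 ((lifts_iff_coeff_lifts P).2 fun n =>
    ⟨⟨_, (A.valuation_le_one_iff _).1 (h n)⟩, rfl⟩)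

theorem lift2 {P : ℂ[X][X]} (h : I2 A P) :
    ∃ P' : A[X][X], P'.map (mapRingHom (algebraMap A ℂ)) = P :=
  (mem_lifts P).1 ((lifts_iff_coeff_lifts P).2 fun n => lift1 (h n))

/-- The algebra of integral modular functions. -/
def IS (A : ValuationSubring ℂ) (L : ℕ) : Subalgebra A (ℂ → ℂ) where
  carrier := {h | IM A L h}
  mul_mem' := IM.mul
  add_mem' := IM.add
  algebraMap_mem' c := im_const (A.valuation_le_one c)

/-- The value at a point. -/
noncomputable def ev (u : ℂ) : IS A L →ₐ[A] ℂ := (Pi.evalAlgHom A _ u).comp (IS A L).val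

theorem ex_ty (hTay : TayStmt) (hDim : DimStmt) (h9 : 9 ∣ L) (hL : A.valuation L = 1) {w : ℂ}
    (hw : 0 < w.im) (hj : A.valuation (jf w) ≤ 1) : ∃ T : IS A L →ₐ[A] PowerSeries A,
      (∀ h, (T h).map (algebraMap A ℂ) = Ty w h) ∧
        ∀ h k, (∀ u : ℂ, 0 < u.im → ev u h = ev u k) → T h = T k := by
  obtain ⟨-, t2, t3, t4⟩ := hTay w hw
  have L0 := ne_of_val hL
  have inj := PowerSeries.map_injective (algebraMap A ℂ) Subtype.val_injective
  obtain ⟨f, hf⟩ : ∃ f : IS A L → PowerSeries A, ∀ h, (f h).map (algebraMap A ℂ) = Ty w h :=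
    ⟨fun h => .mk fun n => ⟨Dv n h w, (A.valuation_le_one_iff _).1
      ((hDim A L n h h9 hL h.2).val L0 hw hj)⟩, fun h => by ext n; simp [Ty]⟩
  have an : ∀ h : IS A L, AnalyticAt ℂ h w := fun h => mf_an L0 (IM.mf (A := A) (f := h) h.2) hw
  have co : ∀ c, f (algebraMap A _ c) = algebraMap A _ c := fun c => inj (by
    rw [hf, PowerSeries.algebraMap_apply, PowerSeries.map_C]; exact t2 c)
  refine ⟨{ toFun := f
            map_one' := by simpa using co 1
            map_zero' := by simpa using co 0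
            map_mul' := fun h k => inj ?_
            map_add' := fun h k => inj ?_
            commutes' := co }, hf, fun h k e => inj ?_⟩
  · rw [map_mul, hf, hf, hf]
    exact ((t4 h (an h)).2 k (an k)).2
  · rw [map_add, hf, hf, hf]
    exact ((t4 h (an h)).2 k (an k)).1
  · refine (hf h).trans ((t3 _ _ ?_).trans (hf k).symm)
    filter_upwards [(isOpen_lt continuous_const Complex.continuous_im).mem_nhds hw] with u hu
      using e u hu

end Tr

open Tr in
theorem tr_stmt (hTay : TayStmt) (hDim : DimStmt) (hTim : TimStmt) (hJ : JStmt) (hFld : FldStmt)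
    (hPhi : PhiStmt) (hReg : RegStmt) (hRoot : RootStmt) (hShift : ShiftStmt) : TrStmt := by
  intro A L z z' h9 hL hz hz' hj hj' hε har hy h hh K
  have L0 := ne_of_val hL
  rcases K.eq_zero_or_pos with rfl | K0
  · simpa using hh.val L0 hz' hj'
  obtain ⟨ε, he⟩ : ∃ ε : A, (ε : ℂ) = tt z' - tt z := ⟨⟨_, (A.valuation_le_one_iff _).1 hε.le⟩, rfl⟩
  rw [← he] at hε ⊢
  obtain ⟨I, hI⟩ : ∃ I : Ideal A, I = Ideal.span {ε ^ K} := ⟨_, rfl⟩
  have mem : ∀ a : A, Ideal.Quotient.mk I a = 0 ↔ A.valuation a ≤ A.valuation ε ^ K := fun a => by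
    rw [Ideal.Quotient.eq_zero_iff_mem, hI, Ideal.mem_span_singleton', ← map_pow,
      A.valuation_le_iff]
    exact exists_congr fun b => by rw [Subtype.ext_iff]; simp
  have : Nontrivial (A ⧸ I) := ⟨1, 0, fun k => ((mem 1).1 k).not_gt (by
    simpa using pow_lt_one₀ zero_le hε K0.ne')⟩
  have : IsLocalRing (A ⧸ I) := .of_surjective' _ Ideal.Quotient.mk_surjective
  have := IsLocalHom.of_surjective _ (Ideal.Quotient.mk_surjective (I := I))
  have nu : ∀ a : A, A.valuation a < 1 →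
      Ideal.Quotient.mk I a ∈ IsLocalRing.maximalIdeal (A ⧸ I) := fun a ha =>
    map_nonunit _ a ((A.valuation_lt_one_iff a).2 ha)
  have reg : ∀ (F G : PowerSeries (A ⧸ I)) (n : ℕ), IsUnit (PowerSeries.coeff n F) → F * G = 0 →
      G = 0 := by
    rcases har with e | e
    · have : I.IsPrime := by
        rw [hI, show ε = 0 from Subtype.ext (he.trans (sub_eq_zero.2 e)), zero_pow K0.ne',
          Ideal.span_singleton_zero]
        exact Ideal.isPrime_bot
      intro F G n u k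
      exact (mul_eq_zero.1 k).resolve_left fun k => u.ne_zero (by rw [k, map_zero])
    · refine hReg _ fun x => ?_
      obtain ⟨a, rfl⟩ := Ideal.Quotient.mk_surjective x
      rcases (A.valuation_le_one a).eq_or_lt with k | k
      · exact .inl (((A.valuation_eq_one_iff a).2 k).map _)
      · obtain ⟨n, hn⟩ := e a k
        refine .inr ⟨n * K, ?_⟩
        rw [← map_pow, mem, SubmonoidClass.coe_pow, map_pow, pow_mul, he]
        exact pow_le_pow_left' hn K
  obtain ⟨s, s1, s2, s3, s4⟩ := hShift _ (Ideal.Quotient.mk I ε) K (by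
    rw [← map_pow, mem, SubmonoidClass.coe_pow, map_pow])
  obtain ⟨T, t1, t2⟩ := ex_ty hTay hDim h9 hL hz hj
  obtain ⟨T', t1', t2'⟩ := ex_ty hTay hDim h9 hL hz' hj'
  have inj := PowerSeries.map_injective (algebraMap A ℂ) Subtype.val_injective
  have c1 : ∀ f n, ((PowerSeries.coeff n (T f) : A) : ℂ) = Dv n f z := fun f n => by
    simpa [Ty] using congrArg (PowerSeries.coeff n) (t1 f)
  have c2 : ∀ f n, ((PowerSeries.coeff n (T' f) : A) : ℂ) = Dv n f z' := fun f n => by
    simpa [Ty] using congrArg (PowerSeries.coeff n) (t1' f)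
  obtain ⟨P, Q, p1, q1, p2, q2, d, hPQ⟩ := hJ A (val_three hL h9)
  obtain ⟨Φ, D, E, f1, d1, d2, hE, hΦ⟩ := hPhi A L hL
  obtain ⟨D', d1', d2', hB⟩ := hFld A L hL
  obtain ⟨B, b1, hB⟩ := hB h hh
  obtain ⟨P, rfl⟩ := lift1 p2
  obtain ⟨Q, rfl⟩ := lift1 q2
  obtain ⟨D, rfl⟩ := lift1 d2
  obtain ⟨D', rfl⟩ := lift1 d2'
  obtain ⟨Φ, rfl⟩ := lift2 f1
  obtain ⟨B, rfl⟩ := lift2 b1
  have iA : Function.Injective (algebraMap A ℂ) := Subtype.val_injective
  rw [natDegree_map_eq_of_injective iA, natDegree_map_eq_of_injective iA] at d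
  have ht := (hTim A L h9 hL).1
  let r : PowerSeries A →ₐ[A] PowerSeries (A ⧸ I) := PowerSeries.mapAlgHom (Ideal.Quotient.mkₐ A I)
  have hr : ∀ F, r F = F.map (Ideal.Quotient.mk I) := PowerSeries.mapAlgHom_apply _
  let s' : PowerSeries (A ⧸ I) →ₐ[A] PowerSeries (A ⧸ I) :=
    { s with commutes' := fun c => by rw [PowerSeries.algebraMap_apply]; exact s1 _ }
  obtain ⟨c, hc⟩ : ∃ c : A, (c : ℂ) = tt z := ⟨⟨_, (A.valuation_le_one_iff _).1 (ht.val L0 hz hj)⟩, rfl⟩
  have e1 : T ⟨tt, ht⟩ = PowerSeries.C c + PowerSeries.X := inj (by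
    rw [t1, map_add, PowerSeries.map_C, PowerSeries.map_X]; exact (hTay z hz).1.trans (by rw [← hc]; rfl))
  have e2 : T' ⟨tt, ht⟩ = PowerSeries.C (c + ε) + PowerSeries.X := inj (by
    rw [t1', map_add, PowerSeries.map_C, PowerSeries.map_X, (hTay z' hz').1]
    simp [hc, he])
  have e3 : (r.comp T') ⟨tt, ht⟩ =
      PowerSeries.C (Ideal.Quotient.mk I (c + ε)) + PowerSeries.X := by
    rw [AlgHom.comp_apply, e2, hr, map_add, PowerSeries.map_C, PowerSeries.map_X]
  have key := core hRoot reg (s'.comp (r.comp T)) (r.comp T') (j := ⟨jf, im_jf L0⟩)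
    (y := ⟨jN L, im_jN dvd_rfl L0⟩) (E := ⟨E, hE⟩) (h := ⟨h, hh⟩) (Φ := Φ) (B := B) ?_ e3
    (monic_of_injective iA p1) (monic_of_injective iA q1) d (monic_of_injective iA d1)
    (monic_of_injective iA d1') (fun k => ?_) fun φ hφ => ?_
  · have k0 := (s3 _).symm.trans (congrArg (PowerSeries.coeff 0) key)
    have := (mem (PowerSeries.coeff 0 (T' ⟨h, hh⟩) -
      ∑ n ∈ Finset.range K, PowerSeries.coeff n (T ⟨h, hh⟩) * ε ^ n)).1 (by
        simpa [hr, sub_eq_zero] using k0.symm)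
    push_cast at this
    simpa only [c1, c2, dv_zero] using this
  · rw [e3, AlgHom.comp_apply, AlgHom.comp_apply, e1, hr, map_add, PowerSeries.map_C,
      PowerSeries.map_X, map_add, map_add, map_add, add_assoc]
    exact congrArg₂ _ (s1 _) s2
  · obtain ⟨b, hb⟩ := s4 (r (T ⟨jN L, im_jN dvd_rfl L0⟩)) k
    have a1 := Ideal.mul_mem_right b _ (nu ε hε)
    have a2 := nu (PowerSeries.coeff k (T' ⟨jN L, im_jN dvd_rfl L0⟩) -
      PowerSeries.coeff k (T ⟨jN L, im_jN dvd_rfl L0⟩)) (by simpa [c1, c2] using hy k)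
    have a3 := sub_mem (hb ▸ a1) a2
    refine (IsLocalRing.mem_maximalIdeal _).1 ?_
    simpa [hr, s'] using a3
  · have g : ∀ f k : IS A L, (∀ u : ℂ, 0 < u.im → ev u f = ev u k) → φ f = φ k := fun f k e => by
      rcases hφ with rfl | rfl
      · simp only [AlgHom.comp_apply, t2 f k e]
      · simp only [AlgHom.comp_apply, t2' f k e]
    refine ⟨g _ _ fun u hu => ?_, g _ _ fun u hu => ?_, g _ _ fun u hu => ?_,
      g _ _ fun u hu => ?_⟩ <;>
      simp only [map_mul, map_zero, e2_hom, ← aeval_algHom_apply] <;>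
      simp only [← eval_map_algebraMap, e2_eq]
    · exact hPQ u hu
    · exact (hΦ u hu).1
    · rw [← derivative_map, mul_comm]
      exact (hΦ u hu).2
    · exact hB u hu

end Pool.Agent.B6.D9
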