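import Pool.Agent.Lib.MP_696deb_nt.B7.CMe
import Pool.Agent.Lib.MP_696deb_nt.B6.MCM

/-! The half points of conductor four and eight, and the seeds. -/

set_option autoImplicit false

open scoped Classical NumberTheorySymbols

namespace Pool.Agent.B6.B7.Dn

open Pool.Agent.Lib.MP_696deb_nt Pool.Agent.Lib.MP_696deb_nt.B2 Pool.Agent.Lib.MP_696deb_nt.B2.CM
open Pool.Agent.Lib.MP_696deb_nt.B3 (odp cond2)
open Pool.Agent.Lib.MP_696deb_nt.B3.CM (fs fs_congr fs_mul fs_sub fs_self Gd th ind ind_neg two_ind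
  m2 m2_dvd dvd_two gd_two kc_odd th_one fs_const_up inert_of_jac inert_two)
open Pool.Agent.B6.CM (yA units_eq)
open Pool.Agent.G7 (cnd gD yD)

variable {n c d l : ℕ} {r f o δ : ℤ} {g φ : Gam} {w : Plc} {T : Finset Fm}

theorem two_spec (h : δ ∣ 2) : cond2 δ = m2 δ ∧ odp δ = 1 ∧ cnd δ = m2 δ ∧ m2 δ ≠ 0 ∧ δ ≠ 0 ∧
    dt δ = δ ∧ mo δ = 1 := by
  rcases dvd_two h with rfl | rfl | rfl | rfl <;> decide

theorem nd_m2 (h : δ ∣ 2) (hl : l.Prime) (h2 : l ≠ 2) : ¬ l ∣ m2 δ := fun k =>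
  h2 ((Nat.prime_dvd_prime_iff_eq hl Nat.prime_two).1
    (hl.dvd_of_dvd_pow (k.trans (m2_dvd h) : l ∣ 2 ^ 3)))

variable [Md] [∀ c, Fintype (Pc n c)] {P : B4.GE.Par Wu NN}

theorem nd_NN : ¬ 2 ∣ NN := fun k => ne_two_of_dvd k rfl

variable (P) in
/-- The half points of the twist by a divisor of two. -/
noncomputable def yB (r δ : ℤ) : ∀ c, Pc n c → EE :=
  hb (fun d => yA P n d r) (tf (P.a 2) δ) δ

theorem dw_yB {L : EE →+ EE} (ok : Ok n c) (h : δ ∣ 2) (hl : l.Prime) (h2 : l ≠ 2)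
    (hy : Dw (fun d => yA P n d r) l L) : Dw (yB (n := n) P r δ) l L :=
  have k := ok_of ok (two_spec h).2.2.2.1
  hy.hb k (gd_two k h dvd_rfl) hl (nd_m2 h hl h2)

variable (G : B4.GE.Geo P)
include G

theorem dw_inert (ok : OkD NN n c r) (hl : l.Prime) (hN : ¬ l ∣ NN) (hJ : J(-n | l) = -1) :
    Dw (fun d => yA P n d r) l (zsmulAddGroupHom (P.a l)) := fun _ _ d0 hd he =>
  trA_inert G (ok.of_ne (he ▸ mul_ne_zero d0 hl.ne_zero)) hl hN he (inert_of_jac ok.m4 hl hJ) hd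

theorem kr_yB (ok : OkD NN n c r) (h : δ ∣ 2) (hM : ¬ w.p ∣ G.M) (hJ : J(-n | w.p) = -1)
    (hφ : IsFrob w w.p φ) : Kr (yB (n := n) P r δ) w φ :=
  have k := ok_of ok.toOk (two_spec h).2.2.2.1
  have h2 : w.p ≠ 2 := fun e => hM (e ▸ (dvd_mul_right 2 NN).trans G.dvd)
  Kr.hb (fun _ _ d0 hd he => kron_yA G (ok.of_ne (he ▸ mul_ne_zero d0 w.prime.ne_zero)) he hM
    (fun e => hM ((((dvd_Δ w.prime).1 e).mul_left 2).trans G.dvd)) hJ hd hφ) k
    (gd_two k h dvd_rfl) h2 hJ (nd_m2 h w.prime h2)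

theorem gv_yB (ok : OkD NN n c r) (h8 : n % 8 = 3) (h : δ ∣ 2) (hc : ¬ 2 ∣ c) :
    Gv n δ (rho n c) (yB P r δ c) :=
  have k := ok.of_ne (mul_ne_zero ok.ne (two_spec h).2.2.2.1)
  gv_hb k.toOk (gd_two k.toOk h (dvd_mul_left _ _)) (gv_yA G ok) (gv_yA G k)
    (two_rel G ok nd_NN h8 hc h rfl)

theorem yB_EN (ok : OkD NN n c r) (h : δ ∣ 2) (hc : c.Coprime NN) (x : Pc n c) :
    yB P r δ c x ∈ EN :=
  add_mem (wg_mem (yA_EN G ((ok.of_ne (mul_ne_zero ok.ne (two_spec h).2.2.2.1)).okN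
    (hc.mul_left (Nat.coprime_of_dvd fun _ hp k k' => nd_m2 h hp (ne_two_of_dvd k') k)))) x)
    (zsmul_mem (yA_EN G (ok.okN hc) x) _)

/-- The twisted sums of half points are the complex Heegner points. -/
theorem link_yB (a2 : al 2 = P.a 2) (ok : OkD NN n c r) (hn : Squarefree n) (h8 : n % 8 = 3)
    (h : δ ∣ 2) (hc : ¬ 2 ∣ c) (h4 : o % 4 = 1) (hs : Squarefree o) (ho : o ∣ n * c)
    (hp : ∀ p : ℕ, p.Prime → p ∣ c → p ∣ o.natAbs) (hd : d = c * m2 δ)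
    (hT : G5.FReps NN (-(n * d ^ 2)) (r * d) T) :
    pmap jC (ix δ • ∑ z, (th n c o z : ℤ) • yB P r δ c z) = yD P.φ (δ * o) T := by
  subst hd
  obtain ⟨e1, e2, e3, e4, e5, -⟩ := two_spec h
  have k := ok.of_ne (mul_ne_zero ok.ne e4)
  have sq : Squarefree (δ * o) := squarefree_mul_iff.2
    ⟨((Int.prime_two.coprime_iff_not_dvd.2 (by omega)).of_isCoprime_of_dvd_left h).isRelPrime,
      Int.prime_two.squarefree.squarefree_of_dvd h, hs⟩
  obtain ⟨c1, c2⟩ := cnd_prod sq h4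
  rw [← link_yD P k hn sq (c1 ▸ e1 ▸ dvd_mul_left _ _) (by
      rw [c2, e2, one_mul, Nat.cast_mul, ← mul_assoc]
      exact (Int.natAbs_dvd.2 ho).mul_right _) (fun p p1 p2 => by
      rw [G7.cnd_mul sq h4, e3]
      exact (p1.dvd_mul.1 p2).elim (fun k => (hp p p1 k).mul_left _) fun k => k.mul_right _) hT,
    Finset.smul_sum, Finset.sum_congr rfl fun z _ => by
      rw [smul_comm, ix, a2, yB, ix_hb (two_rel G ok nd_NN h8 hc h rfl), th_wg k.toOk
        (dvd_mul_right _ _) ((kc_odd ok.m4 h4 ho).exists_th ok.toOk)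
        (gd_two k.toOk h (dvd_mul_left _ _)) e5 hs.ne_zero, wg], sum_fs, map_sum]
  exact Finset.sum_congr rfl fun z _ => by rw [map_zsmul, jC_yA G k]

theorem link_one (a2 : al 2 = P.a 2) (ok : OkD NN n 1 r) (hn : Squarefree n) (h8 : n % 8 = 3)
    (h : δ ∣ 2) (hT : HRc n δ r T) : pmap jC (ix δ • ∑ z : Pc n 1, yB P r δ 1 z) = yD P.φ δ T := by
  have := link_yB G a2 ok hn h8 h (by decide) (o := 1) rfl squarefree_one (one_dvd _)
    (fun _ _ k => k) ((two_spec h).2.2.1.trans (one_mul _).symm) hT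
  simpa only [th_one ok.toOk, Units.val_one, one_smul, mul_one] using this

omit [∀ c, Fintype (Pc n c)] in
theorem yA_two (ok : OkD NN n c r) (hd : d ∣ 8) (x : Pc n d) : yA P n d r x ∈ EN :=
  yA_EN G ((ok.of_ne (ne_zero_of_dvd_ne_zero (by decide) hd)).okN
    (((Nat.coprime_two_left.2 NN_odd).pow_left 3).coprime_dvd_left hd)) x

theorem odd_yB (ok : OkD NN n 1 r) (h8 : n % 8 = 3) (h : δ ∣ 2) (ht : tf (P.a 2) δ % 2 = 1) :
    ∃ R ∈ EN, ∑ x : Pc n 1, yB P r δ 1 x = ∑ x : Pc n 1, yA P n 1 r x + 2 • R := by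
  have k := two_rel G ok nd_NN h8 (by decide) h rfl
  refine ⟨∑ x, ((tf (P.a 2) δ / 2) • yA P n 1 r x -
    wg (fun d => yA P n d r) (fun a => ind (-a)) δ 1 (1 * m2 δ) x), sum_mem fun x _ => sub_mem
      (zsmul_mem (yA_two G ok (one_dvd _) x) _)
      (wg_mem (yA_two G ok (by simpa using m2_dvd h)) x), ?_⟩
  rw [Finset.smul_sum, ← Finset.sum_add_distrib]
  refine Finset.sum_congr rfl fun x _ => ?_
  have e := ix_hb (y := fun d => yA P n d r) k x
  rw [if_pos ht, one_smul, wg_eq, k] at e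
  rw [yB, e]
  conv_lhs => rw [show tf (P.a 2) δ = 1 + 2 * (tf (P.a 2) δ / 2) by omega]
  module

theorem even_half (ok : OkD NN n 1 r) (h8 : n % 8 = 3) (ha : Even (P.a 2)) :
    ∃ R ∈ EN, ∑ z : Pc n 8, ind (-th n 8 (-1) z) • yA P n 8 r z = 2 • R := by
  obtain ⟨a, ha⟩ := ha
  have p2 := Nat.prime_two
  have ok2 := ok.of_ne (d := 2) (by decide)
  have ok4 := ok.of_ne (d := 4) (by decide)
  have ok8 := ok.of_ne (d := 8) (by decide)
  have g4 : Gd n 4 (-1) := gd_two ok4.toOk (by decide) (by decide)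
  have k1 : ∀ u, 2 ∣ fs 2 4 (fun z => ind (-th n 4 (-1) z)) u -
      fs 2 4 (fun z => ind (-th n 4 (-1) z)) 1 := fun u => by
    obtain ⟨g, -, rfl⟩ := rho_surj ok2.toOk u
    rw [← pj_rho ok4.toOk (by decide : 2 ∣ 4), ← mul_one (pj n 2 4 _), ← fs_mul]
    simp only [map_mul]
    rcases Int.units_eq_one_or (th n 4 (-1) (rho n 4 g)) with k | k <;> rw [k]
    · simp
    · simp only [neg_one_mul, ind_neg (-_)]
      rw [fs_sub, fs_const_up (c := 1) ok.toOk p2 rfl rfl]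
      simp only [nsmul_eq_mul]
      omega
  choose j hj using k1
  generalize fs 2 4 (fun z => ind (-th n 4 (-1) z)) 1 = t at hj
  have k2 : ∑ u : Pc n 2, yA P n 2 r u = P.a 2 • ∑ x : Pc n 1, yA P n 1 r x := by
    rw [← sum_fs (c := 1), Finset.smul_sum]
    exact Finset.sum_congr rfl fun x _ => trA_inert G ok2 p2 nd_NN rfl (inert_two h8) (by decide) x
  have k3 : ∑ x : Pc n 4, ind (-th n 4 (-1) x) • yA P n 2 r (pj n 2 4 x) =
      t • ∑ u : Pc n 2, yA P n 2 r u + 2 • ∑ u, j u • yA P n 2 r u := by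
    rw [← sum_fs (c := 2), Finset.smul_sum, Finset.smul_sum, ← Finset.sum_add_distrib]
    refine Finset.sum_congr rfl fun u _ => ?_
    rw [fs_congr (G := fun x => ind (-th n 4 (-1) x) • yA P n 2 r u) fun x hx => by rw [hx], fs,
      ← Finset.sum_smul, ← fs, eq_add_of_sub_eq' (hj u)]
    module
  refine ⟨a • ∑ x, ind (-th n 4 (-1) x) • yA P n 4 r x - (t * a) • ∑ x, yA P n 1 r x -
    ∑ u, j u • yA P n 2 r u, sub_mem (sub_mem (zsmul_mem (sum_mem fun x _ => zsmul_mem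
      (yA_two G ok (by decide) x) _) _) (zsmul_mem (sum_mem fun x _ =>
        yA_two G ok (by decide) x) _)) (sum_mem fun x _ => zsmul_mem
          (yA_two G ok (by decide) x) _), ?_⟩
  rw [← sum_fs (c := 4), Finset.sum_congr rfl (g := fun x => P.a 2 • ind (-th n 4 (-1) x) •
    yA P n 4 r x - ind (-th n 4 (-1) x) • yA P n 2 r (pj n 2 4 x)) fun x _ => ?_,
    Finset.sum_sub_distrib, k3, k2, ← Finset.smul_sum, ha]
  · module
  · rw [smul_comm, ← smul_sub, ← trA_up (c := 2) (d := 4) G ok8 p2 nd_NN rfl rfl, fs, fs, Finset.smul_sum]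
    exact Finset.sum_congr rfl fun z hz => by
      rw [g4.th_pj ok8.toOk (by decide), (Finset.mem_filter.1 hz).2]

end Pool.Agent.B6.B7.Dn

namespace Pool.Agent.B6.B7

open Pool.Agent.Lib.MP_696deb_nt Pool.Agent.Lib.MP_696deb_nt.B2 Pool.Agent.Lib.MP_696deb_nt.B2.CM
open Pool.Agent.Lib.MP_696deb_nt.B3.CM (fs fs_fs fs_congr fs_mul fs_sub fs_self Gd th ind ind_neg
  two_ind m2 gd_two th_one fs_const_up inert_two)
open Pool.Agent.B6.CM (yA units_eq)
open Dn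

variable [Md]

theorem sd_stmt : SDStmt := by
  intro P G a2 n m δ r hn h8 h3 hr h hm hi
  have i0 := finite_Pc hn.mod4 h3
  let i1 : ∀ c, Fintype (Pc n c) := fun c => Fintype.ofFinite _
  have ok1 : OkD NN n 1 r := ⟨⟨hn.mod4, h3, one_ne_zero⟩, hr, hn.cop⟩
  have ok := ok1.of_ne hm.ne_zero
  have m2' : ¬ 2 ∣ m := fun k => (hi 2 Nat.prime_two k).1 (dvd_mul_right _ _)
  have h4 : Squarefree (n * m) := (Nat.squarefree_mul (Nat.coprime_of_dvd fun k hk k1 k2 => by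
    have := (hi k hk k2).2
    rw [jac_zero_of_dvd hk (dvd_neg.2 (Int.natCast_dvd_natCast.2 k1))] at this
    omega)).2 ⟨hn.sqf, hm⟩
  refine ⟨∑ x, yB P r δ 1 x, sum_mem fun x _ => yB_EN G ok1 h (Nat.coprime_one_left _) x,
    fun g hg => ?_, fun T => link_one G a2 ok1 hn.sqf h8 h, fun o U o1 o2 o3 hU => ?_⟩
  · rw [tw, Finset.smul_sum, Finset.smul_sum]
    exact (Finset.sum_congr rfl fun x _ => (gv_yB G ok1 h8 h (by decide)).tw hg x).trans
      (Equiv.sum_comp (Equiv.mulLeft (rho n 1 g)) (yB P r δ 1))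
  refine ⟨-∑ z, ind (-th n m o z) • yB P r δ m z, neg_mem (sum_mem fun z _ => zsmul_mem (yB_EN G ok
    h (Nat.coprime_of_dvd fun k hk k1 k2 => (hi k hk k1).1 (k2.mul_left 2)) z) _), ?_⟩
  have k := dw_ind (y := yB P r δ) (c := 1) one_ne_zero (fun l => zsmulAddGroupHom (P.a l))
    (fun s u => ∀ x, u x = (∏ l ∈ s, P.a l) • yB P r δ 1 x) m.primeFactors (fun l hl => by
      have p1 := Nat.prime_of_mem_primeFactors hl
      obtain ⟨p2, p3⟩ := hi l p1 (Nat.dvd_of_mem_primeFactors hl)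
      exact ⟨p1, p1.not_dvd_one, dw_yB ok.toOk h p1 (fun e => p2 (e ▸ dvd_mul_right _ _))
        (dw_inert G ok p1 (fun e => p2 (e.mul_left _)) p3)⟩) (by simp)
    (fun l _ t u h1 h2 x => by rw [Finset.prod_insert h1, mul_smul, ← h2]; rfl) m
    (by rw [Nat.prod_primeFactors_of_squarefree hm, one_mul])
  rw [← link_yB G a2 ok hn.sqf h8 h m2' o1 ((Int.squarefree_natCast.2 h4).squarefree_of_dvd
    (by exact_mod_cast o3)) o3 (fun p _ k => k.trans (Int.natCast_dvd.1 o2)) (d := G7.cnd δ * m)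
    (by rw [(two_spec h).2.2.1, mul_comm]) (by exact_mod_cast hU), Finset.smul_sum (r := ∏ l ∈ _, _),
    ← Finset.sum_congr rfl fun x _ => k x, sum_fs, ← Finset.sum_neg_distrib,
    Finset.smul_sum (r := 2), ← Finset.sum_add_distrib]
  refine congrArg (fun z => pmap jC (ix δ • z)) (Finset.sum_congr rfl fun z _ => ?_)
  conv_rhs => rw [units_eq (th n m o z)]
  module

theorem fl_stmt : FLStmt := by
  intro P G a2 ha n r hn h8 h3 hr
  have i0 := finite_Pc hn.mod4 h3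
  let i1 : ∀ c, Fintype (Pc n c) := fun c => Fintype.ofFinite _
  have ok : OkD NN n 1 r := ⟨⟨hn.mod4, h3, one_ne_zero⟩, hr, hn.cop⟩
  rw [a2] at ha
  refine ⟨fun δ => ∑ x, yB P r δ 1 x, fun δ h => ⟨sum_mem fun x _ =>
    yB_EN G ok h (Nat.coprime_one_left _) x, fun T => link_one G a2 ok hn.sqf h8 h⟩, ?_, ?_⟩
  · obtain ⟨R, h1, h2⟩ := odd_yB G ok h8 (δ := 1) (by decide) rfl
    obtain ⟨R', h3, h4⟩ := odd_yB G ok h8 (δ := -1) (by decide) (by
      obtain ⟨a, ha⟩ := ha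
      rw [tf, if_neg (by decide), if_pos (by decide), ha,
        show (a + a) ^ 2 - 3 = 2 * (2 * a ^ 2 - 2) + 1 by ring]
      omega)
    exact ⟨R' - R, sub_mem h3 h1, by beta_reduce; rw [h2, h4]; module⟩
  obtain ⟨R, h1, h2⟩ := even_half G ok h8 ha
  have ok8 := ok.of_ne (d := 8) (by decide)
  have e : ∀ δ : ℤ, δ = 2 ∨ δ = -2 → ∑ x : Pc n 1, yB P r δ 1 x = ∑ z : Pc n 8, ind (th n 8 δ z) •
      yA P n 8 r z + k0 (P.a 2 ^ 3 - 5 * P.a 2) • ∑ x : Pc n 1, yA P n 1 r x := fun δ h => by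
    have k : w0 (P.a 2 ^ 3 - 5 * P.a 2) = B3.CM.ind := funext fun _ => by
      obtain ⟨a, ha⟩ := ha
      rw [w0, ha, show (a + a) ^ 3 - 5 * (a + a) = 2 * (4 * a ^ 3 - 5 * a) by ring,
        if_neg (by omega)]
    rw [← sum_fs (c := 1) (d := 8), Finset.smul_sum, ← Finset.sum_add_distrib, ← k]
    rcases h with rfl | rfl <;> rfl
  refine ⟨R - ∑ z, (ind (th n 8 2 z) * ind (-th n 8 (-1) z)) • yA P n 8 r z, sub_mem h1
    (sum_mem fun z _ => zsmul_mem (yA_two G ok dvd_rfl z) _), ?_⟩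
  beta_reduce
  rw [e _ (.inl rfl), e _ (.inr rfl), smul_sub, ← h2, add_right_comm, add_left_inj, Finset.smul_sum,
    ← Finset.sum_sub_distrib, ← Finset.sum_add_distrib]
  refine Finset.sum_congr rfl fun z _ => ?_
  rw [show (-2 : ℤ) = 2 * -1 from rfl, th_mul ok8.toOk (gd_two ok8.toOk dvd_rfl (by decide))
    (gd_two ok8.toOk (by decide) (by decide)) (by decide) (by decide), ← natCast_zsmul, smul_smul,
    ← sub_smul, ← add_smul]
  congr 1
  rcases Int.units_eq_one_or (th n 8 2 z) with k | k <;>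
    rcases Int.units_eq_one_or (th n 8 (-1) z) with k' | k' <;> rw [k, k'] <;> decide

end Pool.Agent.B6.B7
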