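import Pool.Agent.Lib.MP_696deb_nt.B7.Z1

/-! The genus character of an arbitrary quadratic field. -/

set_option autoImplicit false

open Finset NumberTheorySymbols
open scoped Classical

namespace Pool.Agent.G7

open Pool.Agent.Lib.MP_696deb_nt Pool.Agent.B4.GE
open Pool.Agent.Lib.MP_696deb_nt.B3 (kro chi2 odp cond2 PChr pchr_kro pchr_chi2 cond_eq odp_odd
  odp_sqf)

variable {d f a b c e k m u v x y D D' β σ : ℤ} {N n p A : ℕ} {Q R : Fm} {ω : Fm → ℤ}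

/-- The conditions under which `gD d` is a genus character on the forms of discriminant `D`. -/
structure Gen7 (d D : ℤ) : Prop where
  sqf : Squarefree d
  two : (cond2 d : ℤ) ^ 2 ∣ D
  odd : (odp d : ℤ) ∣ D

/-- Forms that are primitive at the primes of the conductor. -/
def Prim7 (d : ℤ) (Q : Fm) : Prop :=
  ∀ p : ℕ, p.Prime → p ∣ cnd d → ¬ ((p : ℤ) ∣ Q.1 ∧ (p : ℤ) ∣ Q.2.2)

theorem cnd_cast (d : ℤ) : (cnd d : ℤ) = cond2 d * odp d := Nat.cast_mul _ _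

theorem Gen7.of_dvd (h : Gen7 d D) (k : D ∣ D') : Gen7 d D' :=
  ⟨h.sqf, h.two.trans k, h.odd.trans k⟩

theorem gen7_sq (hd : Squarefree d) : Gen7 d (cnd d ^ 2) :=
  ⟨hd, pow_dvd_pow_of_dvd (cnd_cast d ▸ dvd_mul_right _ _) 2,
    dvd_pow (cnd_cast d ▸ dvd_mul_left _ _) two_ne_zero⟩

theorem Gen7.prime_dvd (h : Gen7 d D) (hp : p.Prime) (k : p ∣ cnd d) : (p : ℤ) ∣ D :=
  (hp.dvd_mul.1 k).elim (fun j => (dvd_pow (Int.natCast_dvd_natCast.2 j) two_ne_zero).trans h.two)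
    fun j => (Int.natCast_dvd_natCast.2 j).trans h.odd

theorem Gen7.of_mul (h : Gen7 d (k * D)) (hk : IsCoprime k (cnd d)) : Gen7 d D :=
  ⟨h.sqf, (IsCoprime.pow_left (cnd_cast d ▸ hk).of_mul_right_left.symm).dvd_of_dvd_mul_left h.two,
    (cnd_cast d ▸ hk).of_mul_right_right.symm.dvd_of_dvd_mul_left h.odd⟩

theorem mul_mod4 (f : ℤ) (h4 : a % 4 = 1) : f * a % 4 = f % 4 := by
  rw [Int.mul_emod, h4, mul_one, Int.emod_emod]

theorem cond2_mul (f : ℤ) (h4 : a % 4 = 1) : cond2 (f * a) = cond2 f := by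
  rw [cond2, cond2, mul_mod4 f h4]

theorem chi2_mul (f : ℤ) (h4 : a % 4 = 1) : chi2 (f * a) = chi2 f := funext fun k => by
  rw [chi2, chi2, mul_mod4 f h4]
  by_cases h1 : f % 4 = 1
  · rw [if_pos h1, if_pos h1]
  by_cases h3 : f % 4 = 3
  · rw [if_neg h1, if_neg h1, if_pos h3, if_pos h3]
  obtain ⟨e, rfl⟩ : 2 ∣ f := by omega
  obtain ⟨j, rfl⟩ : ∃ j, a = 4 * j + 1 := ⟨a / 4, by omega⟩
  rw [show 2 * e * (4 * j + 1) = 2 * e + 8 * (e * j) by ring, Int.add_mul_emod_self_left]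

theorem odp_mul (f : ℤ) (h4 : a % 4 = 1) : odp (f * a) = odp f * a.natAbs := by
  have := mul_mod4 f h4
  rw [odp, odp, Int.natAbs_mul]
  by_cases h : f % 2 = 1
  · rw [if_pos h, if_pos (by omega)]
  · rw [if_neg h, if_neg (by omega), Nat.div_mul_right_comm (by omega)]

theorem kro_mul (h : Squarefree (f * a)) (h4 : a % 4 = 1) (k : ℤ) :
    kro (f * a) k = kro f k * J(k | a.natAbs) := by
  have h0 := (odp_sqf h).ne_zero
  rw [odp_mul f h4] at h0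
  rw [kro, kro, chi2_mul f h4, odp_mul f h4,
    jacobiSym.mul_right' _ (left_ne_zero_of_mul h0) (right_ne_zero_of_mul h0), mul_assoc]

theorem gD_mul (h : Squarefree (f * a)) (h4 : a % 4 = 1) (Q : Fm) :
    gD (f * a) Q = gD f Q * gch a.natAbs Q := by
  have h0 := odp_sqf h
  rw [odp_mul f h4] at h0
  rw [gD, gD, chi2_mul f h4, odp_mul f h4, G5.gch_mul (Nat.coprime_of_squarefree_mul h0), mul_assoc]

theorem gD_one (h : d % 4 = 1) (Q : Fm) : gD d Q = gch d.natAbs Q := by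
  rw [gD, chi2, if_pos h, one_mul, odp, if_pos (by omega)]

theorem gen7_mul (h : Squarefree (f * a)) (h4 : a % 4 = 1) (k : a * cnd f ^ 2 ∣ D) :
    Gen7 (f * a) D := by
  have := gen7_sq h.of_mul_left
  refine ⟨h, cond2_mul f h4 ▸ (this.two.mul_left a).trans k, Dvd.dvd.trans ?_ k⟩
  rw [odp_mul f h4, Nat.cast_mul, mul_comm]
  exact mul_dvd_mul (Int.natAbs_dvd.2 dvd_rfl) this.odd

theorem abs_gD (d : ℤ) (Q : Fm) : |gD d Q| ≤ 1 := by
  rw [gD, abs_mul]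
  refine mul_le_one₀ ?_ (abs_nonneg _) (abs_gch_le _ _)
  rcases (pchr_chi2 d).cases (if 2 ∣ Q.1 then Q.2.2 else Q.1) with e | e | e <;> simp [e]

theorem chi2_eq (hu : ¬ 2 ∣ u) (hv : ¬ 2 ∣ v) (h : (cond2 d : ℤ) ^ 2 ∣ 4 * (u * v) - k ^ 2) :
    chi2 d u = chi2 d v := by
  have sq : ∀ x : ℤ, ¬ 2 ∣ x → ∃ j, x ^ 2 = 8 * j + 1 := fun x hx => by
    obtain ⟨y, rfl⟩ : ∃ y, x = 2 * y + 1 := ⟨x / 2, by omega⟩
    obtain ⟨j, hj⟩ := Int.even_mul_succ_self y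
    exact ⟨j, by linear_combination 4 * hj⟩
  have key : ∀ N : ℤ, N = 1 ∨ N = 2 → (4 * N) ^ 2 ∣ 4 * (u * v) - k ^ 2 → 4 * N ∣ u - v :=
    fun N hN ⟨t, ht⟩ => by
    have h1 : 2 ∣ k := Int.prime_two.dvd_of_dvd_pow (n := 2)
      ⟨2 * (u * v) - 8 * N ^ 2 * t, by linear_combination -ht⟩
    obtain ⟨l, rfl⟩ := h1
    have h2 : u * v = l ^ 2 + 4 * (N ^ 2 * t) := by linarith
    have h3 : ¬ 2 ∣ l := fun k => (Int.prime_two.dvd_or_dvd (a := u) (b := v)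
      (h2 ▸ dvd_add (dvd_pow k two_ne_zero) (Dvd.dvd.mul_right (by norm_num) _))).elim hu hv
    obtain ⟨i, hi⟩ := sq l h3
    obtain ⟨j, hj⟩ := sq v hv
    rcases hN with rfl | rfl
    · exact ⟨2 * (v * i - u * j) + v * t, by linear_combination v * h2 + v * hi - u * hj⟩
    · exact ⟨v * i - u * j + 2 * v * t, by linear_combination v * h2 + v * hi - u * hj⟩
  refine (pchr_chi2 d).per _ _ ?_
  unfold cond2 at h ⊢
  split_ifs at h ⊢
  exacts [one_dvd _, key 1 (.inl rfl) h, key 2 (.inr rfl) h]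

theorem cond2_cases (d : ℤ) : (∀ k, chi2 d k = 1) ∧ cond2 d = 1 ∨ 4 ∣ cond2 d := by
  unfold chi2 cond2
  split_ifs <;> simp

theorem chi2_val (hd : (cond2 d : ℤ) ^ 2 ∣ fdisc Q) (hv : IsCoprime (fval Q x y) (cond2 d)) :
    chi2 d (if 2 ∣ Q.1 then Q.2.2 else Q.1) = chi2 d (fval Q x y) := by
  rcases cond2_cases d with h4 | h4
  · rw [h4.1, h4.1]
  have h2 : (2 : ℤ) ∣ cond2 d := Dvd.dvd.trans (by norm_num) (Int.natCast_dvd_natCast.2 h4)
  have h : ¬ 2 ∣ fval Q x y := fun k => Int.prime_two.not_isUnit (hv.isUnit_of_dvd' k h2)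
  split_ifs with h1
  · have hb : 2 ∣ Q.2.1 := Int.prime_two.dvd_of_dvd_pow (n := 2) (by
      simpa [fdisc] using ((dvd_pow h2 two_ne_zero).trans hd).add ((h1.mul_left 4).mul_right Q.2.2))
    have hc : ¬ 2 ∣ Q.2.2 := fun hc =>
      h (((h1.mul_right _).add ((hb.mul_right _).mul_right _)).add (hc.mul_right _))
    refine chi2_eq hc h (k := 2 * Q.2.2 * y + Q.2.1 * x) ?_
    exact hd.trans ⟨-x ^ 2, by simp only [fdisc, fval]; ring⟩
  · refine chi2_eq h1 h (k := 2 * Q.1 * x + Q.2.1 * y) ?_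
    exact hd.trans ⟨-y ^ 2, by simp only [fdisc, fval]; ring⟩

theorem gch_val (hA : Squarefree A) (ho : Odd A) (hd : (A : ℤ) ∣ fdisc Q)
    (hv : IsCoprime (fval Q x y) A) : gch A Q = J(fval Q x y | A) := by
  rw [gch_eq, jac_eq_prod _ hA]
  exact prod_congr rfl fun p hp => gl_fval (Nat.prime_of_mem_primeFactors hp) (prime_ne_two ho hp)
    (dvd_of_mem hd hp) fun k => (Nat.prime_iff_prime_int.1
      (Nat.prime_of_mem_primeFactors hp)).not_isUnit (hv.isUnit_of_dvd' k (dvd_of_mem dvd_rfl hp))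

/-- The genus character is the character of any represented number prime to the conductor. -/
theorem gD_val (h : Gen7 d (fdisc Q)) (hv : IsCoprime (fval Q x y) (cnd d)) :
    gD d Q = kro d (fval Q x y) := by
  rw [cnd_cast] at hv
  rw [gD, kro, chi2_val h.two hv.of_mul_right_left,
    gch_val (odp_sqf h.sqf) (odp_odd h.sqf) h.odd hv.of_mul_right_right]

theorem gD_fst (h : Gen7 d (fdisc Q)) (hv : IsCoprime Q.1 (cnd d)) : gD d Q = kro d Q.1 := by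
  simpa [fval] using gD_val (x := 1) (y := 0) h (by simpa [fval] using hv)

theorem gD_last (h : Gen7 d (fdisc Q)) (hv : IsCoprime Q.2.2 (cnd d)) : gD d Q = kro d Q.2.2 := by
  simpa [fval] using gD_val (x := 0) (y := 1) h (by simpa [fval] using hv)

theorem gD_zero (hd : Squarefree d) (hp : p.Prime) (h : p ∣ cnd d) (h1 : (p : ℤ) ∣ Q.1)
    (h2 : (p : ℤ) ∣ Q.2.2) : gD d Q = 0 := by
  rcases hp.dvd_mul.1 h with k | k
  · have : (p : ℤ) ∣ if 2 ∣ Q.1 then Q.2.2 else Q.1 := by split_ifs; exacts [h2, h1]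
    rw [gD, (pchr_chi2 d).zero _ fun j => (Nat.prime_iff_prime_int.1 hp).not_isUnit
      (j.isUnit_of_dvd' this (Int.natCast_dvd_natCast.2 k)), zero_mul]
  · rw [gD, gch, prod_eq_zero (Nat.mem_primeFactors.2 ⟨hp, k, (odp_sqf hd).ne_zero⟩), mul_zero]
    rw [if_pos h1, jac_zero_of_dvd hp h2]

theorem prim7_of_ne (hd : Squarefree d) (h : gD d Q ≠ 0) : Prim7 d Q :=
  fun _ hp k j => h (gD_zero hd hp k j.1 j.2)

theorem cop_of_primes (h : ∀ p : ℕ, p.Prime → p ∣ A → ¬ (p : ℤ) ∣ v) : IsCoprime v A :=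
  Int.isCoprime_iff_gcd_eq_one.2 (Nat.eq_one_iff_not_exists_prime_dvd.2 fun p hp k =>
    h p hp (k.trans (Nat.gcd_dvd_right _ _)) (Int.natCast_dvd.2 (k.trans (Nat.gcd_dvd_left _ _))))

theorem Prim7.exists_val (h : Prim7 d Q) (hd : Squarefree d) :
    ∃ x y, IsCoprime x y ∧ IsCoprime (fval Q x y) (cnd d) := by
  obtain ⟨x, y, h1, h2⟩ := G5.exists_val_coprime (cnd_ne hd) (R := Q)
    fun p hp k j => h p hp k ⟨j.1, j.2.2⟩
  exact ⟨x, y, h1, cop_of_primes h2⟩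

theorem Prim7.unit (h : Prim7 d Q) (k : Gen7 d (fdisc Q)) : gD d Q = 1 ∨ gD d Q = -1 := by
  obtain ⟨x, y, -, h2⟩ := h.exists_val k.sqf
  rw [gD_val k h2]
  exact (pchr_kro k.sqf).unit h2

theorem gD_ne_zero (k : Gen7 d (fdisc Q)) : gD d Q ≠ 0 ↔ Prim7 d Q :=
  ⟨prim7_of_ne k.sqf, fun h => by rcases h.unit k with e | e <;> simp [e]⟩

theorem Gen7.dvd_val (h : Gen7 d (fdisc Q)) (hp : p.Prime) (k : p ∣ cnd d) (h1 : (p : ℤ) ∣ Q.1)
    (h2 : (p : ℤ) ∣ Q.2.2) (x y : ℤ) : (p : ℤ) ∣ fval Q x y :=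
  ((h1.mul_right _).add ((((Nat.prime_iff_prime_int.1 hp).dvd_of_dvd_pow (n := 2) (by
    simpa [fdisc] using (h.prime_dvd hp k).add ((h1.mul_left 4).mul_right Q.2.2))).mul_right
      _).mul_right _)).add (h2.mul_right _)

/-- Comparison of the genus characters of two forms whose values correspond. -/
theorem gD_of_vals (hQ : Gen7 d (fdisc Q)) (hR : Gen7 d (fdisc R)) (hk : IsCoprime k (cnd d))
    (h : ∀ x y, ∃ x' y', (cnd d : ℤ) ∣ fval R x' y' - k * fval Q x y)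
    (h0 : ∀ p : ℕ, p.Prime → p ∣ cnd d → (∀ x y, (p : ℤ) ∣ fval Q x y) →
      ∀ x y, (p : ℤ) ∣ fval R x y) : gD d R = kro d k * gD d Q := by
  by_cases h1 : Prim7 d Q
  · obtain ⟨x, y, -, h2⟩ := h1.exists_val hQ.sqf
    obtain ⟨x', y', t, ht⟩ := h x y
    rw [gD_val hQ h2, ← (pchr_kro hQ.sqf).mul, gD_val hR (x := x') (y := y') (by
      rw [eq_add_of_sub_eq ht]
      exact (hk.mul_left h2).mul_add_left_left t), (pchr_kro hQ.sqf).per _ _ ⟨t, ht⟩]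
  · simp only [Prim7, not_forall, not_not] at h1
    obtain ⟨p, hp, j, j1, j2⟩ := h1
    have := h0 p hp j (hQ.dvd_val hp j j1 j2)
    rw [gD_zero hQ.sqf hp j j1 j2, gD_zero hQ.sqf hp j (by simpa [fval] using this 1 0)
      (by simpa [fval] using this 0 1), mul_zero]

theorem disc_sim (h : ∀ x y, k * fval R x y = m * fval Q (a * x + b * y) (c * x + e * y)) :
    k ^ 2 * fdisc R = (m * (a * e - b * c)) ^ 2 * fdisc Q := by
  have q1 := h 1 0
  have q2 := h 0 1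
  have q3 := h 1 1
  simp only [fval] at q1 q2 q3
  have q6 : k * R.2.1 = m * (2 * Q.1 * a * b + Q.2.1 * (a * e + b * c) + 2 * Q.2.2 * c * e) := by
    linear_combination q3 - q1 - q2
  rw [show k ^ 2 * fdisc R = (k * R.2.1) ^ 2 - 4 * (k * (R.1 * 1 ^ 2 + R.2.1 * 1 * 0 + R.2.2 * 0 ^ 2))
    * (k * (R.1 * 0 ^ 2 + R.2.1 * 0 * 1 + R.2.2 * 1 ^ 2)) by rw [fdisc]; ring, q1, q2, q6, fdisc]
  ring

/-- Similar forms. -/
theorem gD_sim (hQ : Gen7 d (fdisc Q))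
    (h : ∀ x y, k * fval R x y = m * fval Q (a * x + b * y) (c * x + e * y))
    (hc : IsCoprime (k * m * (a * e - b * c)) (cnd d)) : gD d R = kro d (k * m) * gD d Q := by
  have h1 := hc.of_mul_left_left
  have h2 := hc.of_mul_left_right
  have h3 : Gen7 d (fdisc R) := Gen7.of_mul (k := k ^ 2)
    (disc_sim h ▸ hQ.of_dvd (dvd_mul_left _ _)) h1.of_mul_left_left.pow_left
  rw [gD_of_vals hQ h3 (k := k * m * (a * e - b * c) ^ 2) (h1.mul_left h2.pow_left)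
    (fun x y => ⟨k * (e * x - b * y), k * (a * y - c * x), 0, ?_⟩) fun p hp j h0 x y =>
      ((Nat.prime_iff_prime_int.1 hp).dvd_or_dvd (h x y ▸ (h0 _ _).mul_left m)).resolve_left
        fun i => (Nat.prime_iff_prime_int.1 hp).not_isUnit
          (h1.isUnit_of_dvd' (i.mul_right _) (Int.natCast_dvd_natCast.2 j)),
    (pchr_kro hQ.sqf).mul, sq, (pchr_kro hQ.sqf).mul (_ - _), ← sq, (pchr_kro hQ.sqf).sq h2, mul_one]
  have := h (e * x - b * y) (a * y - c * x)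
  simp only [fval] at this ⊢
  linear_combination k * this

theorem gD_fmap' (hQ : Gen7 d (fdisc Q)) (hc : IsCoprime (a * e - b * c) (cnd d)) :
    gD d (fmap Q a b c e) = gD d Q := by
  rw [gD_sim hQ (k := 1) (m := 1) (fun x y => by rw [fval_fmap]) (by simpa using hc), one_mul,
    (pchr_kro hQ.sqf).one, one_mul]

/-- Invariance under the modular group. -/
theorem gD_fmap (hQ : Gen7 d (fdisc Q)) (h : a * e - b * c = 1) : gD d (fmap Q a b c e) = gD d Q :=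
  gD_fmap' hQ (h ▸ isCoprime_one_left)

theorem gD_feq (h : G5.FEq N Q R) (hQ : Gen7 d (fdisc Q)) : gD d R = gD d Q := by
  obtain ⟨a, b, c, e, h, rfl⟩ := h
  exact gD_fmap hQ h

theorem gD_cj (d : ℤ) (Q : Fm) : gD d (cj Q) = gD d Q := rfl

theorem gD_mid (d a b b' c : ℤ) : gD d (a, b, c) = gD d (a, b', c) := rfl

/-- Multiples of a form. -/
theorem gD_smul (hd : Squarefree d) (t a b b' c : ℤ) :
    gD d (t * a, b', t * c) = kro d t * gD d (a, b, c) := by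
  have h1 : gch (odp d) (t * a, b', t * c) = J(t | odp d) * gch (odp d) (a, b, c) := by
    rw [gch, gch, jac_eq_prod _ (odp_sqf hd), ← prod_mul_distrib]
    refine prod_congr rfl fun p hp => ?_
    have k := Nat.prime_of_mem_primeFactors hp
    by_cases j : (p : ℤ) ∣ t
    · rw [if_pos (j.mul_right _), jac_zero_of_dvd k (j.mul_right _), jac_zero_of_dvd k j, zero_mul]
    · rw [if_congr ((Nat.prime_iff_prime_int.1 k).dvd_mul.trans (or_iff_right j)) rfl rfl]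
      split_ifs <;> exact jacobiSym.mul_left _ _ _
  rw [gD, gD, h1, kro, mul_mul_mul_comm, ← (pchr_chi2 d).mul]
  congr 1
  rcases cond2_cases d with h4 | h4
  · rw [h4.1, h4.1]
  by_cases j : 2 ∣ t
  · have z : chi2 d t = 0 := (pchr_chi2 d).zero _ fun i => Int.prime_two.not_isUnit
      (i.isUnit_of_dvd' j (Dvd.dvd.trans (by norm_num) (Int.natCast_dvd_natCast.2 h4)))
    rw [if_pos (j.mul_right _), (pchr_chi2 d).mul, (pchr_chi2 d).mul, z, zero_mul, zero_mul]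
  · rw [if_congr (Int.prime_two.dvd_mul.trans (or_iff_right j)) rfl rfl, mul_ite]

theorem gD_neg (hd : Squarefree d) (Q : Fm) : gD d (-Q) = d.sign * gD d Q := by
  rw [← B3.kro_neg_one hd, ← gD_smul hd (-1) Q.1 Q.2.1 (-Q.2.1), neg_one_mul, neg_one_mul]
  rfl

theorem fdisc_fV7 (hN : N ≠ 0) (h : (N : ℤ) ∣ Q.1) : fdisc (G5.fV N Q) = fdisc Q := by
  obtain ⟨_, b, c⟩ := Q
  obtain ⟨a, rfl⟩ := h
  simp only [G5.fV_eq hN, fdisc]
  ring

theorem fV_fV7 (hN : N ≠ 0) (h : (N : ℤ) ∣ Q.1) : G5.fV N (G5.fV N Q) = Q := by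
  obtain ⟨_, b, c⟩ := Q
  obtain ⟨a, rfl⟩ := h
  rw [G5.fV_eq hN, G5.fV_eq hN, neg_neg]

theorem feq_fV (hN : N ≠ 0) (h : G5.FEq N Q R) (hQ : (N : ℤ) ∣ Q.1) :
    G5.FEq N (G5.fV N Q) (G5.fV N R) := by
  obtain ⟨_, b, c⟩ := Q
  obtain ⟨a, rfl⟩ := hQ
  obtain ⟨x, y, z, u, h, rfl⟩ := h
  refine ⟨u, -z, -y, x, by linear_combination h, ?_⟩
  simp only [G5.fV, fmap, fval, Prod.mk.injEq,
    mul_div_cancel_left₀ _ (Nat.cast_ne_zero.2 hN : (N : ℤ) ≠ 0)]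
  refine ⟨by ring, by ring, ?_⟩
  rw [Int.ediv_eq_iff_eq_mul_right (Nat.cast_ne_zero.2 hN)
    ⟨a * x ^ 2 + b * x * z + N * c * z ^ 2, by ring⟩]
  ring

theorem abs_gU (N : ℕ) (d : ℤ) (Q : Fm) : |gU N d Q| ≤ 1 := abs_gD _ _

theorem gU_feq (hN : N ≠ 0) (h : G5.FEq N Q R) (h1 : (N : ℤ) ∣ Q.1) (hQ : Gen7 d (fdisc Q)) :
    gU N d R = gU N d Q := gD_feq (feq_fV hN h h1) (fdisc_fV7 hN h1 ▸ hQ)

/-- At a level prime to the conductor the two characters differ by a sign. -/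
theorem gU_cop (hN : N ≠ 0) (h1 : (N : ℤ) ∣ Q.1) (hQ : Gen7 d (fdisc Q))
    (hc : IsCoprime (N : ℤ) (cnd d)) : gU N d Q = kro d N * gD d Q := by
  obtain ⟨_, b, c⟩ := Q
  obtain ⟨a, rfl⟩ := h1
  rw [gU, gD_sim hQ (k := N) (m := 1) (a := 0) (b := -1) (c := N) (e := 0)
    (fun x y => by simp only [G5.fV_eq hN, fval]; ring) (by simpa using hc.mul_left hc), mul_one]

theorem wt_wF (hi : ∀ Q R, G5.Fam N D β Q → G5.FEq N Q R → ω R = ω Q) (hb : ∀ R, |ω R| ≤ 1) :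
    G5.Wt N (wF N ω D β) D where
  disc R h := by_contra fun k => h (if_neg fun j => k j.2.1)
  inv Q R h := by
    by_cases h1 : G5.Fam N D β Q
    · rw [wF, wF, if_pos h1, if_pos (h.fam h1), hi Q R h1 h]
    · rw [wF, wF, if_neg h1, if_neg fun h2 => h1 (h.symm.fam h2)]
  bdd := ⟨1, fun R => by
    unfold wF
    split_ifs
    exacts [hb R, by simp]⟩

theorem wt_zF (hD : D < 0) (hi : ∀ Q R, (N : ℤ) ∣ Q.1 → fdisc Q = D → G5.FEq N Q R → ω R = ω Q)
    (hb : ∀ R, |ω R| ≤ 1) : G5.Wt N (zF N ω σ D β) D := by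
  have h1 := wt_wF (β := β) (fun Q R k => hi Q R k.1 k.2.1) hb
  have h2 := wt_wF (β := -β) (fun Q R k => hi Q R k.1 k.2.1) hb
  have h3 : ∀ R, zF N ω σ D β R ≠ 0 → fdisc R = D := fun R h => by
    by_contra h4
    simp [zF, of_not_not (mt (h1.disc R) h4), of_not_not (mt (h2.disc R) h4)] at h
  refine ⟨h3, fun Q R h => ?_, ?_⟩
  · by_cases h4 : fdisc Q = D
    · rw [zF, zF, h1.inv Q R h, h2.inv Q R h, if_congr
        ⟨fun k => h.symm.pos (h.disc ▸ h4 ▸ hD) k, fun k => h.pos (h4 ▸ hD) k⟩ rfl rfl]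
    · rw [of_not_not (mt (h3 Q) h4), of_not_not (mt (h3 R) fun h5 => h4 (h.disc ▸ h5))]
  · obtain ⟨C, hC⟩ := h1.bdd
    obtain ⟨C', hC'⟩ := h2.bdd
    refine ⟨C + |σ| * C', fun R => ?_⟩
    have k := mul_le_mul_of_nonneg_left (hC' R) (abs_nonneg σ)
    unfold zF
    split_ifs
    · exact (abs_add_le _ _).trans (add_le_add (hC R) (abs_mul σ _ ▸ k))
    · exact abs_zero.trans_le (add_nonneg ((abs_nonneg _).trans (hC R))
        ((mul_nonneg (abs_nonneg _) (abs_nonneg _)).trans k))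

/-- The product of all local genus characters is trivial on positive primitive forms. -/
theorem gch_full7 (hn : Squarefree n) (n4 : n % 4 = 3) (hd : fdisc R = -(n * e ^ 2)) (h0 : e ≠ 0)
    (hR : 0 < R.1) (hp : ∀ p : ℕ, p.Prime → (p : ℤ) ∣ e →
      ¬ ((p : ℤ) ∣ R.1 ∧ (p : ℤ) ∣ R.2.1 ∧ (p : ℤ) ∣ R.2.2)) : gch n R = 1 := by
  have ho : Odd n := Nat.odd_iff.2 (by omega)
  have n0 : 0 < n := by omega
  obtain ⟨x, y, ⟨z, w, k⟩, hv⟩ := G5.exists_val_coprime (m := 2 * (n * e.natAbs)) (R := R)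
    (by positivity) fun p h1 hm ⟨h2, h3, h4⟩ => by
      have h6 := Nat.prime_iff_prime_int.1 h1
      by_cases h7 : (p : ℤ) ∣ e
      · exact hp p h1 h7 ⟨h2, h3, h4⟩
      have h5 : (p : ℤ) * p ∣ n * e ^ 2 := by
        rw [← dvd_neg, ← hd]
        exact dvd_sub (by rw [sq]; exact mul_dvd_mul h3 h3)
          (by rw [mul_assoc]; exact (mul_dvd_mul h2 h4).mul_left _)
      have h8 : IsCoprime ((p : ℤ) * p) (e ^ 2) :=
        ((h6.coprime_iff_not_dvd.2 h7).mul_left (h6.coprime_iff_not_dvd.2 h7)).pow_right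
      exact h1.not_isUnit (hn p (by exact_mod_cast h8.dvd_of_dvd_mul_right h5))
  have k' : x * z - -w * y = 1 := by linear_combination k
  have h3 := fdisc_fmap k' R
  have hD : fdisc R < 0 := by
    rw [hd, neg_lt_zero]
    positivity
  have h4 := fmap_pos k' hD hR
  change ∀ p : ℕ, _ → _ → ¬ _ ∣ (fmap R x (-w) y z).1 at hv
  rw [← gch_fmap ho (hd ▸ (dvd_mul_right _ _).neg_right) k', gch, prod_congr rfl fun p hp =>
    if_neg (hv p (Nat.prime_of_mem_primeFactors hp)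
      (((Nat.dvd_of_mem_primeFactors hp).mul_right _).mul_left 2)), ← jac_eq_prod _ hn]
  generalize fmap R x (-w) y z = P at *
  have h5 : Odd P.1.natAbs := by have := hv 2 Nat.prime_two (by simp); rw [Nat.odd_iff]; omega
  have key : ∀ u : ℤ, (∀ p : ℕ, p.Prime → (p : ℤ) ∣ u → (p : ℤ) ∣ P.1 → p ∣ n * e.natAbs) →
      J(u ^ 2 | P.1.natAbs) = 1 := fun u hu =>
    jacobiSym.sq_one' (Nat.eq_one_iff_not_exists_prime_dvd.mpr fun p hp k => by
      replace k := Int.natCast_dvd_natCast.mpr k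
      have k1 := (k.trans (Int.gcd_dvd_right _ _)).trans (Int.natAbs_dvd.mpr dvd_rfl)
      exact hv p hp ((hu p hp (k.trans (Int.gcd_dvd_left _ _)) k1).mul_left 2) k1)
  have h6 : J(fdisc R | P.1.natAbs) = 1 := by
    rw [← h3, jacobiSym.mod_left' (a₂ := P.2.1 ^ 2) (Int.modEq_iff_dvd.mpr
      (Int.natAbs_dvd.mpr ⟨4 * P.2.2, by rw [fdisc]; ring⟩))]
    refine key _ fun p hp k1 k2 => ?_
    have k3 : (p : ℤ) ∣ n * e ^ 2 := by
      rw [← dvd_neg, ← hd, ← h3]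
      exact dvd_sub (dvd_pow k1 two_ne_zero) ((k2.mul_left _).mul_right _)
    rcases (Nat.prime_iff_prime_int.1 hp).dvd_or_dvd k3 with k4 | k4
    exacts [(Int.natCast_dvd_natCast.1 k4).mul_right _,
      (Int.natCast_dvd.1 ((Nat.prime_iff_prime_int.1 hp).dvd_of_dvd_pow k4)).mul_left _]
  rwa [hd, ← neg_mul, jacobiSym.mul_left, key e fun p _ k _ => (Int.natCast_dvd.1 k).mul_left _,
    mul_one, G5.jac_neg_swap n4 h5, Int.natAbs_of_nonneg h4.le] at h6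

/-- The two genus characters of a factorization agree on positive forms that are primitive away
from the conductor. -/
theorem gD_swap' (hn : Squarefree n) (n4 : n % 4 = 3) (hm : a * b = -n) (h4 : a % 4 = 1)
    (ha : Squarefree (f * a)) (hb : Squarefree (f * b)) (hd : fdisc R = -(n * e ^ 2)) (h0 : e ≠ 0)
    (hR : 0 < R.1) (hp : ∀ p : ℕ, p.Prime → (p : ℤ) ∣ e → (p : ℤ) ∣ R.1 → (p : ℤ) ∣ R.2.1 →
      (p : ℤ) ∣ R.2.2 → p ∣ cnd f) : gD (f * a) R = gD (f * b) R := by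
  have b4 : b % 4 = 1 := by
    have := mul_mod4 b h4
    rw [mul_comm, hm] at this
    omega
  have k : a.natAbs * b.natAbs = n := by rw [← Int.natAbs_mul, hm]; simp
  rw [gD_mul ha h4, gD_mul hb b4]
  by_cases h1 : gD f R = 0
  · rw [h1, zero_mul, zero_mul]
  have h2 := gch_full7 hn n4 hd h0 hR fun p j1 j2 j =>
    prim7_of_ne ha.of_mul_left h1 p j1 (hp p j1 j2 j.1 j.2.1 j.2.2) ⟨j.1, j.2.2⟩
  rw [← k, G5.gch_mul (Nat.coprime_of_squarefree_mul (k ▸ hn))] at h2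
  rcases Int.eq_one_or_neg_one_of_mul_eq_one' h2 with j | j <;> rw [j.1, j.2]

theorem gD_swap (hn : Squarefree n) (n4 : n % 4 = 3) (hm : a * b = -n) (h4 : a % 4 = 1)
    (ha : Squarefree (f * a)) (hb : Squarefree (f * b)) (hd : fdisc R = -(n * cnd f ^ 2))
    (hR : 0 < R.1) : gD (f * a) R = gD (f * b) R :=
  gD_swap' hn n4 hm h4 ha hb hd (Nat.cast_ne_zero.2 (cnd_ne ha.of_mul_left)) hR
    fun _ _ k _ _ _ => Int.natCast_dvd_natCast.1 k

theorem Dat.Ok.gen_b {X : Dat} (h : X.Ok) (k : X.D ∣ D) : Gen7 (X.f * X.b) D :=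
  gen7_mul h.sb h.b4 ((mul_dvd_mul_right h.b_dvd _).neg_right.trans k)

theorem Dat.Ok.gen_a {X : Dat} (h : X.Ok) (k : X.D ∣ D) : Gen7 (X.f * X.a) D :=
  gen7_mul h.sa h.a4 ((mul_dvd_mul_right h.a_dvd _).neg_right.trans k)

theorem Dat.Ok.gen_C {X : Dat} (h : X.Ok) (m : ℤ) :
    Gen7 (X.f * X.a) ((cnd (X.f * X.a) * m) ^ 2) :=
  (gen7_sq h.sa).of_dvd (pow_dvd_pow_of_dvd (dvd_mul_right _ _) 2)

end Pool.Agent.G7
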