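import Pool.Agent.Lib.MP_696deb_nt.B7.GK7z
import Pool.Agent.Lib.MP_696deb_nt.B7.GD7a
import Pool.Agent.Lib.MP_696deb_nt.B5.AJa

/-! The Hecke operators move from the special divisors to an invariant function, for an
arbitrary twist. -/

set_option autoImplicit false

open Finset
open scoped Classical

namespace Pool.Agent.G7

open Pool.Agent.Lib.MP_696deb_nt Pool.Agent.B4.GE Pool.Agent.Shared.Weier
open Pool.Agent.G7.Hv (Cls)
open Pool.Agent.G5 hiding Cx Yw Cw zs Ori CNStmt HWStmt LTStmt GLStmt LAStmt SWStmt NUStmt WPStmt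
  HTStmt GZStmt LFStmt LRStmt LQStmt

namespace Aj

open Pool.Agent.G5.AD

variable {N n : ℕ}

theorem pos_of_zF {ω : Fm → ℤ} {σ D ρ : ℤ} {R : Fm} (h : zF N ω σ D ρ R ≠ 0) :
    0 < R.1 ∧ (G5.Fam N D ρ R ∨ G5.Fam N D (-ρ) R) := by
  unfold zF wF at h
  refine ⟨by_contra fun k => h (if_neg k), by_contra fun k => h ?_⟩
  rw [if_neg (not_or.1 k).1, if_neg (not_or.1 k).2]
  simp

/-- The roots of the representatives of both orientations. -/
theorem reps {M : ℕ} {d D ρ : ℤ} {T T' : Finset Fm} (hn : 0 < n) (hM : M ≠ 0)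
    (hB : Squarefree d) (hd : Cls d D) (hD : D = -(n * M ^ 2)) (h1 : ¬ (N : ℤ) ∣ ρ)
    (h : G5.FReps N D ρ T) (h' : G5.FReps N D (-ρ) T') :
    Inv0 N (nuW (zF N (gD d) d.sign D ρ)) ∧ Sep N n ((T ∪ T').image froot) ∧
      Cov N (nuW (zF N (gD d) d.sign D ρ)) ((T ∪ T').image froot) ∧
      ∀ (V : Type) [AddCommGroup V] (S : ℂ → V),
        ∑ Q ∈ T ∪ T', zF N (gD d) d.sign D ρ Q • S (froot Q) =
          ∑ z ∈ (T ∪ T').image froot, nuW (zF N (gD d) d.sign D ρ) z • S z := by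
  have h0 : D < 0 := by
    rw [hD, neg_lt_zero]
    positivity
  have hw : G5.Wt N (zF N (gD d) d.sign D ρ) D :=
    wt_zF h0 (fun Q R _ e k => gD_feq k (e ▸ ⟨hB, hd.1, hd.2⟩)) (abs_gD d)
  have hd : ∀ Q ∈ T ∪ T', fdisc Q = D := fun Q hQ =>
    (mem_union.1 hQ).elim (fun k => (h.fam Q k).2.1) fun k => (h'.fam Q k).2.1
  have hp : ∀ Q ∈ T ∪ T', 0 < Q.1 := fun Q hQ => (mem_union.1 hQ).elim (h.pos Q) (h'.pos Q)
  refine ⟨hw.nuW_inv h0 fun R k => (pos_of_zF k).1, ⟨forall_mem_image.2 fun Q hQ =>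
    ⟨Q, M, hM, hp Q hQ, (hd Q hQ).trans hD, rfl⟩, ?_⟩, fun z _ k => ?_, fun V _ S => ?_⟩
  · simp only [forall_mem_image]
    rintro Q hQ R hR ⟨g, hg, e⟩
    have k := (feq_of_root hg (hd Q hQ ▸ h0) (hp Q hQ) (hp R hR)
      ((hd R hR).trans (hd Q hQ).symm) e).2
    congr 1
    rcases mem_union.1 hQ with a | a <;> rcases mem_union.1 hR with b | b
    exacts [h.uniq Q a R b k, absurd (h'.fam R b) ((k.fam (h.fam Q a)).not_neg h1),
      absurd (k.fam (h'.fam Q a)) ((h.fam R b).not_neg h1), h'.uniq Q a R b k]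
  · obtain ⟨R, k1, rfl⟩ := exists_of_nuW k
    obtain ⟨k2, k3⟩ := pos_of_zF k1
    obtain ⟨Q, k4, k5⟩ : ∃ Q ∈ T ∪ T', G5.FEq N Q R := k3.elim
      (fun j => (h.ex R j k2).imp fun Q l => ⟨mem_union_left _ l.1, l.2⟩)
      fun j => (h'.ex R j k2).imp fun Q l => ⟨mem_union_right _ l.1, l.2⟩
    exact ⟨_, mem_image_of_mem _ k4, k5.symm.root (hw.disc R k1 ▸ h0) k2⟩
  · rw [sum_image fun Q hQ R hR e => froot_inj (hd R hR ▸ h0) (hp R hR) (hp Q hQ)
      ((hd Q hQ).trans (hd R hR).symm) e]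
    exact sum_congr rfl fun Q hQ => by
      rw [nuW_froot (fun R k => ⟨(hw.disc R k).trans (hd Q hQ).symm, (pos_of_zF k).1⟩)
        (hd Q hQ ▸ h0) (hp Q hQ)]

end Aj

open Pool.Agent.G5.AD in
theorem aj7 : AJ7 := by
  intro N K n g d D ρ η T T' t hN hK hB hd hn h3 hg hD hρ ht hT hH V _ S hS
  have n0 : 0 < n := by omega
  have R := fun (m : ℕ) (h0 : m ≠ 0) (hm : m.Coprime K) => Aj.reps (M := g * m) n0
    (mul_ne_zero hg h0) hB
    (show Cls d (D * (m : ℤ) ^ 2) from ⟨hd.1.mul_right _, hd.2.mul_right _⟩)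
    (by rw [hD]; push_cast; ring)
    (fun k => by
      have c := hρ.mul_right (Nat.isCoprime_iff_coprime.2 (hm.coprime_dvd_right hK).symm)
      have := Int.isUnit_iff.1 (c.isUnit_of_dvd' dvd_rfl k)
      omega) (hT m h0).1 (hT m h0).2
  have one : Sup K (Finsupp.single 1 1) := Sup.single one_ne_zero (Nat.coprime_one_left K) 1
  have hs := one.ha (η := η) ht
  have hF := fun z hz => HFm.hf (z := z) hH ht one hz
  generalize ha η t (Finsupp.single 1 1) = a at hs hF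
  obtain ⟨r1, r2, r3, r4⟩ := R 1 one_ne_zero (Nat.coprime_one_left K)
  simp only [cmb_single, one_smul] at hF
  simp only [Nat.cast_one, one_pow, mul_one] at r1 r2 r3 r4 hF
  obtain ⟨s', a1, a2, a3⟩ := AJ.main hn h3 (HA_mono hK ht) r1 r2 r3
  obtain ⟨u, c1, c2⟩ := exists_sep (N := N) n0
    (s' ∪ a.support.biUnion fun m => (T m ∪ T' m).image froot) fun z hz => by
      rcases mem_union.1 hz with k | k
      · exact a1.cm z k
      · obtain ⟨m, hm, k⟩ := mem_biUnion.1 k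
        exact (R m (hs m hm).1 (hs m hm).2).2.1.cm z k
  rw [r4, ← a3 V S hS, sum_indep n0 a1 c1 (inv_smul (inv0_hf r1 (HA_mono hK ht)) hS) (a2.smul S)
    ((a2.mono n0 c1 fun z hz => c2 z (mem_union_left _ hz)).smul S),
    sum_congr rfl fun z hz => by rw [hF z (cm_pos n0 (c1.cm z hz))]]
  simp only [Finsupp.linearCombination_apply, Finsupp.sum, Finset.sum_apply, sum_smul]
  rw [sum_comm]
  refine sum_congr rfl fun m hm => ?_
  obtain ⟨k1, k2, k3, k4⟩ := R m (hs m hm).1 (hs m hm).2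
  rw [k4, sum_indep n0 k2 c1 (inv_smul k1 hS) (k3.smul S) ((k3.mono n0 c1 fun z hz =>
    c2 z (mem_union_right _ (mem_biUnion.2 ⟨m, hm, hz⟩))).smul S), smul_sum]
  exact sum_congr rfl fun z _ => by rw [Pi.smul_apply, smul_assoc]

end Pool.Agent.G7
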