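import Pool.Agent.Lib.MP_696deb_nt.B7.D1
import Pool.Agent.Lib.MP_696deb_nt.B7.Z0

/-! Heegner points of the conductor of an arbitrary quadratic character: definitions. -/

set_option autoImplicit false

open scoped Classical
open Finset NumberTheorySymbols

namespace Pool.Agent.B6.B7

open Pool.Agent.Lib.MP_696deb_nt Pool.Agent.Lib.MP_696deb_nt.B2
open Pool.Agent.Lib.MP_696deb_nt.B3 (chi2 odp)
open Pool.Agent.G7 (cnd gD yD)

/-- The part at two of a squarefree integer. -/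
def dt (f : ℤ) : ℤ :=
  if f % 4 = 1 then 1 else if f % 4 = 3 then -1 else if f % 8 = 2 then 2 else -2

/-- The trace from the conductor at two of the character of `f` to conductor one. -/
def tf (a f : ℤ) : ℤ := if f % 4 = 1 then 1 else if f % 4 = 3 then a ^ 2 - 3 else a ^ 3 - 5 * a

theorem dt_dvd (f : ℤ) : dt f ∣ 2 := by
  unfold dt
  split_ifs <;> decide

theorem dt_dt (f : ℤ) : dt (dt f) = dt f := by
  unfold dt
  split_ifs <;> omega

theorem gD_odd {d : ℤ} (h : d % 4 = 1) (Q : Fm) : gD d Q = gch d.natAbs Q := by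
  rw [gD, chi2, if_pos h, one_mul, odp, if_pos (by omega)]

theorem yD_odd [Cw] (φ : ℂ → Pt Wu ℂ) {d : ℤ} (h : d % 4 = 1) (T : Finset Fm) :
    yD φ d T = ysum φ d.natAbs T := sum_congr rfl fun Q _ => by rw [gD_odd h]

variable [Md]

/-- The index of the complex point in the point of the Euler system. -/
def ix (f : ℤ) : ℕ := if tf (al 2) f % 2 = 1 then 1 else 2

/-- Representatives of the forms of the conductor of the character of `f`. -/
def HRc (n : ℕ) (f r : ℤ) (T : Finset Fm) : Prop :=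
  G5.FReps NN (-(n * cnd f ^ 2)) (r * cnd f) T

/-- The point for the character of `d` is not divisible by two. -/
def Prm (φ : ℂ → Pt Wu ℂ) (n : ℕ) (d : ℤ) : Prop := ∀ (r : ℤ) (T : Finset Fm) (P : EE),
  4 * (NN : ℤ) ∣ r ^ 2 + n → HRc n d r T → P ∈ EN → pmap jC (ix d • P) = yD φ d T → Od P

variable {n : ℕ} {S : HS n} {f : ℤ}

/-- The points of the system are the complex Heegner points. -/
def Link (Y : ES S f) (φ : ℂ → Pt Wu ℂ) (r : ℤ) : Prop := ∀ (T : Finset Fm) (e : ℤ), HRc n f r T →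
  e ∣ n → e % 4 = 1 → pmap jC (ix f • Y.ychi e) = yD φ (f * e) T

theorem ix_odd (h : f % 4 = 1) : ix f = 1 := by rw [ix, tf, if_pos h, if_pos (by decide)]

theorem ix_dt (f : ℤ) : ix (dt f) = ix f := by
  unfold ix tf dt
  split_ifs <;> omega

theorem ix_ne (f : ℤ) : ix f ≠ 0 := by
  unfold ix
  split_ifs <;> decide

/-- The Euler systems of Heegner points for all twists. -/
def CMStmt : Prop := ∀ (_ : CFT) (D : B4.GE.MD Wu NN) (G : B4.GE.Geo D.par), G5.Nw D →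
  (∀ l : ℕ, l.Prime → ¬ l ∣ NN → al l = D.c l) → G.M ∣ MM → ∀ (n : ℕ) (r : ℤ), Nok n →
  4 * (NN : ℤ) ∣ r ^ 2 + n → ∃ S : HS n, ∀ f, Fok n f → ∃ (Y₀ : ES S (dt f)) (Y : ES S f),
    Cong Y Y₀ ∧ Y₀.ychi 1 ∈ EN ∧ Link Y₀ D.par.φ r ∧ Link Y D.par.φ r

/-- The genus points of a conductor that is a product of inert primes, modulo two. -/
def SDStmt : Prop := ∀ (P : B4.GE.Par Wu NN) (_ : B4.GE.Geo P), al 2 = P.a 2 →
  ∀ (n m : ℕ) (δ r : ℤ), Good n → n % 8 = 3 → 3 < n → 4 * (NN : ℤ) ∣ r ^ 2 + n → δ ∣ 2 →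
  Squarefree m → (∀ l : ℕ, l.Prime → l ∣ m → ¬ l ∣ 2 * NN ∧ J(-n | l) = -1) →
  ∃ Y ∈ EN, (∀ g ∈ GK n, tw δ g Y = Y) ∧
    (∀ T, HRc n δ r T → pmap jC (ix δ • Y) = yD P.φ δ T) ∧
    ∀ (o : ℤ) (U : Finset Fm), o % 4 = 1 → (m : ℤ) ∣ o → o ∣ n * m →
      G5.FReps NN (-(n * (cnd δ * m) ^ 2)) (r * (cnd δ * m)) U → ∃ R ∈ EN,
        pmap jC (ix δ • ((∏ l ∈ m.primeFactors, P.a l) • Y + 2 • R)) = yD P.φ (δ * o) U

/-- The seeds that come for free when the eigenvalue at two is even. -/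
def FLStmt : Prop := ∀ (P : B4.GE.Par Wu NN) (_ : B4.GE.Geo P), al 2 = P.a 2 → Even (al 2) →
  ∀ (n : ℕ) (r : ℤ), Good n → n % 8 = 3 → 3 < n → 4 * (NN : ℤ) ∣ r ^ 2 + n →
  ∃ Y : ℤ → EE, (∀ δ, δ ∣ 2 → Y δ ∈ EN ∧
    ∀ T, HRc n δ r T → pmap jC (ix δ • Y δ) = yD P.φ δ T) ∧
    (∃ R ∈ EN, Y (-1) = Y 1 + 2 • R) ∧ ∃ R ∈ EN, Y (-2) = Y 2 + 2 • R

end Pool.Agent.B6.B7
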