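import Pool.Agent.Lib.MP_696deb_nt.B7.CMa

/-! Norm relations and conjugation for complex Heegner points of arbitrary conductor. -/

set_option autoImplicit false

open scoped Classical NumberTheorySymbols ComplexConjugate

namespace Pool.Agent.B6.B7.Dn

open Pool.Agent.Lib.MP_696deb_nt Pool.Agent.Lib.MP_696deb_nt.B2 Pool.Agent.Lib.MP_696deb_nt.B2.CM
open Pool.Agent.B4 (OkN HgN HRp GEq im_hk ok_neg sp2_mob idl_froot)
open Pool.Agent.Lib.MP_696deb_nt.B3.CM (St fs sum_nb nb_isIv_of nb_hk not_st_inert mid_idl st_idl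
  st_of_isIv exists_up prim_root isIv_root Inert sum_bad)
open Pool.Agent.B6.CM (act_rP yC)

variable {W : WeierstrassCurve ℚ} {N M Q n c d l : ℕ} {r b k : ℤ} {τ τ' : ℂ} {T : Finset Fm}

theorem nb_iv {A : Subalgebra ℤ ℂ} (hl : 0 < l) (i : Option (Fin l)) (hI : IsIv A (nb l 1 τ i)) :
    IsIv A (sp2 (hk l τ i) 1) ∧ cl A (sp2 (hk l τ i) 1) = cl _ (nb l 1 τ i) := by
  obtain ⟨a, ha, e0⟩ := nb_hk hl 1 τ i
  simp only [Int.cast_one, one_mul] at e0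
  have h0 : IsIv A (sp2 (hk l τ i) 1) := by
    simpa only [e0, sc_inv_sc ha] using hI.sc (inv_ne_zero ha)
  exact ⟨h0, by rw [e0, cl_sc h0 ha]⟩

/-- A neighbour of a Heegner point is a Heegner point for its own order. -/
theorem hg_nb (ok : OkD N n c r) (hl : 0 < l) (h : HgN N n d r τ) (i : Option (Fin l))
    (hI : IsIv (Oc n c) (nb l 1 τ i)) {m : ℕ} (hm : m.Coprime N) (e : m * c = l * d) :
    HgN N n c r (hk l τ i) ∧ cl (Oc n c) (sp2 (hk l τ i) 1) = cl _ (nb l 1 τ i) := by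
  have l2 : (l : ℂ) ≠ 0 := by exact_mod_cast hl.ne'
  obtain ⟨h0, h4⟩ := nb_iv hl i hI
  refine ⟨?_, h4⟩
  have e' : (m : ℂ) * c = l * d := by exact_mod_cast e
  have e3 : m * be n c (r * c) = l * be n d (r * d) := by
    simp only [be]
    push_cast
    linear_combination (r + dl n) / 2 * e'
  obtain ⟨x, y, e1⟩ := cmd_mem h.one
  obtain ⟨u, v, e2⟩ := cmd_mem h.tau
  have h1 : m * be n c (r * c) ∈ sp2 (N * hk l τ i) 1 ∧
      m * (be n c (r * c) * hk l τ i) ∈ sp2 (N * hk l τ i) 1 := by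
    rw [← mul_assoc, e3]
    rcases i with _ | j
    · exact ⟨mem_sp2.2 ⟨x, l * y, by rw [hk]; push_cast; linear_combination (l : ℂ) * e1⟩,
        mem_sp2.2 ⟨l * u, l ^ 2 * v, by rw [hk]; push_cast; linear_combination (l : ℂ) ^ 2 * e2⟩⟩
    · have e4 : l * hk l τ (some j) = τ + (j : ℕ) := by rw [hk, mul_div_cancel₀ _ l2]
      exact ⟨mem_sp2.2 ⟨l ^ 2 * x, l * (y - x * N * (j : ℕ)), by
        push_cast; linear_combination (l : ℂ) * e1 - l * x * N * e4⟩,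
        mem_sp2.2 ⟨l * (u + (j : ℕ) * x), v + (j : ℕ) * y - (u + (j : ℕ) * x) * N * (j : ℕ), by
          push_cast
          linear_combination e2 + ((j : ℕ) : ℂ) * e1 +
            (be n d (r * d) - (u + (j : ℕ) * x) * N) * e4⟩⟩
  have h2 : ∀ z ∈ sp2 (hk l τ i) 1, m * z ∈ sp2 (N * hk l τ i) 1 → z ∈ sp2 (N * hk l τ i) 1 :=
    fun z hz k => by
      obtain ⟨s, t, e4⟩ := Nat.isCoprime_iff_coprime.2 hm
      obtain ⟨p, q, e5⟩ := cmd_mem hz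
      have e6 := congrArg (Int.cast : ℤ → ℂ) e4
      have := add_mem (int_mul_mem k s) (int_mul_mem
        (mem_sp2.2 ⟨p, N * q, rfl⟩ : _ ∈ sp2 (N * hk l τ i) 1) t)
      rwa [show (s : ℂ) * (m * z) + t * (p * (N * hk l τ i) + (N * q : ℤ) * 1) = z by
        push_cast at e6 ⊢; linear_combination z * e6 - t * N * e5] at this
  exact ⟨im_hk hl h.pos i, h0,
    h2 _ (by simpa using h0.mul_mem ok.be_mem (right_mem_sp2 _ _)) h1.1,
    h2 _ (h0.mul_mem ok.be_mem (left_mem_sp2 _ _)) h1.2⟩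

/-- The neighbours of the second kind that keep the order. -/
theorem hg_some (ok : OkD N n c r) (hl : 0 < l) (h : HgN N n c r τ) (j : Fin l)
    (hI : IsIv (Oc n c) (nb l 1 τ (some j))) : HgN N n c r (hk l τ (some j)) := by
  have l2 : (l : ℂ) ≠ 0 := by exact_mod_cast hl.ne'
  have h0 := (nb_iv hl _ hI).1
  have i0 := im_hk hl h.pos (some j)
  obtain ⟨x, y, e1⟩ := cmd_mem h.one
  obtain ⟨u, v, e2⟩ := cmd_mem h.tau
  obtain ⟨s, t, e3⟩ := cmd_mem (h0.mul_mem ok.be_mem (left_mem_sp2 _ _))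
  have e4 : l * hk l τ (some j) = τ + (j : ℕ) := by rw [hk, mul_div_cancel₀ _ l2]
  have e5 := (cmd_ext i0.ne' (x := l * s) (y := l * t) (x' := l * ((u + (j : ℕ) * x) * N))
    (y' := v + (j : ℕ) * y - (u + (j : ℕ) * x) * N * (j : ℕ)) (by
      push_cast
      linear_combination e2 + ((j : ℕ) : ℂ) * e1 - l * e3 +
        (be n c (r * c) - (u + (j : ℕ) * x) * N) * e4)).1
  obtain rfl := mul_left_cancel₀ (Int.natCast_ne_zero.2 hl.ne') e5
  exact ⟨i0, h0, mem_sp2.2 ⟨l * x, y - x * N * (j : ℕ), by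
    push_cast; linear_combination e1 - x * N * e4⟩,
    mem_sp2.2 ⟨u + (j : ℕ) * x, t, by rw [e3]; push_cast; ring⟩⟩

/-- The image of a Heegner point under the reflection and an involution of Atkin and Lehner. -/
theorem hg_al (ok : OkD (M * Q) n c r) (hM : M ∣ c) (hQ : c.Coprime Q) {x₀ y₀ z₀ w₀ : ℤ}
    (e : x₀ * (Q * w₀) - y₀ * (M * z₀) = 1) (h : HgN (M * Q) n c r τ)
    (e' : τ' = mob (Q * x₀) y₀ (M * Q * z₀) (Q * w₀) (-conj τ)) : HgN (M * Q) n c r τ' ∧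
    cl (Oc n c) (sp2 τ' 1) = (cl _ (idl n c Q (r * c)) * cl _ (sp2 τ 1))⁻¹ := by
  have ok1 := ok.lev (dvd_mul_left Q M)
  have q0 : (0 : ℤ) < Q := by have := ok1.N_ne; omega
  have i0 : 0 < (-conj τ).im := by simpa using h.pos
  have d0 : 0 < Q * x₀ * (Q * w₀) - y₀ * (M * Q * z₀) := by
    rwa [show Q * x₀ * (Q * w₀) - y₀ * (M * Q * z₀) = Q by linear_combination Q * e]
  have j0 := den_ne d0.ne' i0
  have h2 : (starRingAut : ℂ ≃+* ℂ) (dl n) = -dl n := conj_dl n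
  have i1 := (ok1.okN hQ).isIv
  have h3 := i1.mul h.iv
  have h4 := h3.mp ok.m4 (.inr h2)
  obtain ⟨x, y, u, v, e1, e2, e3, -⟩ := hg_mat ok h
  obtain ⟨t, rfl⟩ := hM
  obtain ⟨y, rfl⟩ : (M : ℤ) ∣ y := ⟨r * t - u * Q, by push_cast at e3; linear_combination e3⟩
  have e5 : conj (be n (M * t) (r * (M * t : ℕ))) =
      (u * (M * Q : ℕ) + M * y : ℤ) - be n (M * t) (r * (M * t : ℕ)) := by
    have := cmb_be_neg h2 (M * t) (r * (M * t : ℕ))
    rw [e3]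
    rw [cmb_neg, neg_sub] at this
    exact this
  have f1 := congrArg conj e1
  have f2 := congrArg conj e2
  simp only [map_add, map_mul, map_intCast, map_natCast, e5] at f1 f2
  have f3 : mp starRingAut (idl n (M * t) Q (r * (M * t : ℕ)) * sp2 τ 1) =
      sp2 (Q * -conj τ) 1 := by
    rw [hg_mul ok1 (hg_lev h (dvd_mul_left Q M)), mp_sp2, map_one, map_mul, map_natCast, mul_neg,
      cmb_comm, cmb_comm (-_), cmb_sp2_neg]
    rfl
  have e0 := (eq_div_iff j0).1 e'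
  have i2 : 0 < τ'.im := e' ▸ im_mob_pos d0 i0
  obtain ⟨σ, hσ⟩ : ∃ σ, conj τ = -σ := ⟨_, (neg_neg _).symm⟩
  rw [hσ] at f1 f2
  rw [hσ, neg_neg] at e0 j0 f3
  have f4 : sc (((M * Q * z₀ : ℤ) : ℂ) * σ + (Q * w₀ : ℤ)) (sp2 τ' 1) = sp2 (Q * σ) 1 := by
    rw [← cmc_basis e (Q * σ) 1, sc_sp2, mul_comm _ τ', e0]
    congr 1 <;> push_cast <;> ring
  have h5 := h4.sc (inv_ne_zero j0)
  rw [f3, ← f4, sc_inv_sc j0] at h5
  replace e := congrArg (Int.cast : ℤ → ℂ) e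
  refine ⟨⟨i2, h5, mem_sp2.2 ⟨(z₀ * M * y + w₀ * x * Q) * w₀ - (M * z₀ * v + w₀ * u * M * Q) * z₀,
    Q * (M * z₀ * v + w₀ * u * M * Q) * x₀ - M * (z₀ * M * y + w₀ * x * Q) * y₀,
    mul_right_cancel₀ j0 ?_⟩, mem_sp2.2 ⟨(x₀ * y + y₀ * x) * w₀ - (x₀ * v + y₀ * u * M) * z₀,
    Q * (x₀ * v + y₀ * u * M) * x₀ - M * (x₀ * y + y₀ * x) * y₀, mul_right_cancel₀ j0 ?_⟩⟩, ?_⟩
  · push_cast at e e0 f1 f2 ⊢
    linear_combination M * Q * z₀ * f2 - Q * w₀ * f1 - ((z₀ * M * y + w₀ * x * Q) * w₀ -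
      (M * z₀ * v + w₀ * u * M * Q) * z₀) * M * Q * e0 - Q * (M * (z₀ * M * y + w₀ * x * Q) * σ +
        (M * z₀ * v + w₀ * u * M * Q)) * e
  · push_cast at e e0 f1 f2 ⊢
    linear_combination Q * x₀ * f2 - y₀ * f1 + (be n (M * t) (r * (M * t)) -
      ((x₀ * y + y₀ * x) * w₀ - (x₀ * v + y₀ * u * M) * z₀) * M * Q) * e0 -
        Q * (M * (x₀ * y + y₀ * x) * σ + (x₀ * v + y₀ * u * M)) * e
  · rw [← cl_sc h5 j0, f4, ← f3, cl_mp_neg ok.toOk h2 h3, cl_mul i1 h.iv]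

/-- The ideal above a prime of the level that does not divide the conductor. -/
theorem OkD.root_bad (ok : OkD N n c r) (hl : l.Prime) (hN : l ∣ N) (hc : ¬ l ∣ c) :
    (∃ k : ℤ, (r * c) ^ 2 + n * c ^ 2 = 4 * l * k) ∧ ¬ (l : ℤ) ∣ r * c :=
  ⟨(ok.lev hN).eq, fun h => (Nat.prime_iff_prime_int.1 hl).not_isUnit
    (((ok.lev hN).okN (hl.coprime_iff_not_dvd.2 hc).symm).cop_r.isUnit_of_dvd' dvd_rfl h)⟩

/-- The two stable neighbours at a split prime. -/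
theorem st_two (ok : Ok n c) (hl : l.Prime) (e : b ^ 2 + n * c ^ 2 = 4 * l * k)
    (hb : ¬ (l : ℤ) ∣ b) (h0 : 0 < τ.im) (h : IsIv (Oc n c) (sp2 τ 1)) : ∃ i j, i ≠ j ∧
      idl n c l b * sp2 τ 1 = nb l 1 τ i ∧ idl n c l (-b) * sp2 τ 1 = nb l 1 τ j ∧
      ∀ m, St n c (nb l 1 τ m) ↔ m = i ∨ m = j := by
  have l2 : (l : ℂ) ≠ 0 := by exact_mod_cast hl.ne_zero
  have e2 : (-b) ^ 2 + n * c ^ 2 = 4 * l * k := by rw [neg_sq, e]
  have m1 := mid_idl ok hl e h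
  have m2 := mid_idl ok hl e2 h
  obtain ⟨i, n1⟩ := cmd_mid hl (cmd_one hl) h0.ne' m1.1 m1.2
  obtain ⟨j, n2⟩ := cmd_mid hl (cmd_one hl) h0.ne' m2.1 m2.2
  refine ⟨i, j, ?_, n1, n2, fun m => ⟨fun hw => (hw.eq_idl ok hl e hb h (nb_mid hl h0.ne' m).1
    (nb_mid hl h0.ne' m).2).imp (fun k => ?_) fun k => ?_, ?_⟩⟩
  · rintro rfl
    refine m1.2.not_ge fun z hz => cmd_bez hl hb (m1.1.le ((mul_mem_sc l2).2 hz)) ?_
    have k1 := Submodule.mul_mem_mul (right_mem_sp2 ((l : ℤ) : ℂ) (be n c b)) hz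
    have k2 : be n c (-b) * z ∈ idl n c l b * sp2 τ 1 := by
      rw [n1, ← n2]
      exact Submodule.mul_mem_mul (right_mem_sp2 _ _) hz
    have k3 := sub_mem k1 k2
    rwa [← sub_mul, be_sub] at k3
  · exact nb_inj hl (cmd_one hl) h0.ne' (k.trans n1)
  · exact nb_inj hl (cmd_one hl) h0.ne' (k.trans n2)
  · rintro (rfl | rfl)
    · exact n1 ▸ st_of_isIv ok.m4 (st_idl ok hl e hb h)
    · exact n2 ▸ st_of_isIv ok.m4 (st_idl ok hl e2 (by rwa [dvd_neg]) h)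

variable (P : B4.GE.Par W N)

theorem yC_cl (ok : OkD N n c r) (h : HgN N n c r τ) : yC P n c r (cl _ (sp2 τ 1)) = P.φ τ := by
  have k : ∃ τ', HgN N n c r τ' ∧ cl (Oc n c) (sp2 τ' 1) = cl _ (sp2 τ 1) := ⟨τ, h, rfl⟩
  obtain ⟨g, g1, g2, g3⟩ := hg_geq ok k.choose_spec.1 h k.choose_spec.2
  rw [yC, dif_pos k, g3]
  exact P.inv0 g ⟨g1, g2⟩ τ h.pos

/-- Complex conjugation, in terms of an involution of Atkin and Lehner. -/
theorem yC_conj (P : B4.GE.Par W (M * Q)) (ok : OkD (M * Q) n c r) (hM : M ∣ c) (hQ : c.Coprime Q)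
    {x₀ y₀ z₀ w₀ s : ℤ} {t : Pt W ℂ} (e : x₀ * (Q * w₀) - y₀ * (M * z₀) = 1)
    (hw : ∀ z : ℂ, 0 < z.im → P.φ (mob (Q * x₀) y₀ (M * Q * z₀) (Q * w₀) z) = s • P.φ z + t)
    (x : Pc n c) : s • pmap (starRingEnd ℂ) (yC P n c r x) + t =
      yC P n c r ((cl _ (idl n c Q (r * c)) * x)⁻¹) := by
  obtain ⟨τ, h, rfl⟩ := exists_hg ok x
  obtain ⟨h1, h2⟩ := hg_al ok hM hQ e h rfl
  rw [← h2, yC_cl P ok h, yC_cl P ok h1, hw _ (by simpa using h.pos), P.φ_conj h.pos]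

/-- Twisted sums over the class group are twisted sums over Heegner forms. -/
theorem link_sum [Fintype (Pc n d)] (ok : OkD N n d r) (hT : HRp N (-(n * d ^ 2)) (r * d) T)
    (θ : Pc n d → ℤ) (ω : Fm → ℤ) (hω : ∀ A B C : ℤ, B ^ 2 + n * d ^ 2 = 4 * A * C → 0 < A →
      ω (A, B, C) = if ∃ x y z : ℤ, x * A + y * B + z * C = 1 then θ (cl _ (idl n d A (-B)))
        else 0) :
    ∑ z, θ z • yC P n d r z = ∑ Q ∈ T, ω Q • P.φ (froot Q) := by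
  have hD := ok_neg ok.toOk
  have k : ∀ Q ∈ T, Q.2.1 ^ 2 + n * d ^ 2 = 4 * Q.1 * Q.2.2 ∧ 0 < Q.1 ∧ 0 < (froot Q).im ∧
      Q.1 * froot Q ^ 2 + Q.2.1 * froot Q + Q.2.2 = 0 := fun Q h => by
    have h := hT.mem Q h
    have h2 := h.disc
    rw [fdisc] at h2
    exact ⟨by linear_combination h2, h.pos, h.im_pos hD, froot_root (h.disc ▸ hD) h.pos⟩
  have h1 : ∀ z : Pc n d, ∃ Q ∈ T, IsIv (Oc n d) (sp2 (froot Q) 1) ∧ cl _ (sp2 (froot Q) 1) = z :=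
    fun z => by
      obtain ⟨Q, q1, q2, q3, q4, q5, rfl⟩ := exists_hform ok z
      obtain ⟨R, hR, g, g1, -, g3⟩ := hT.ex Q ⟨q1, q2, q3, q4⟩
      have i := (k R hR).2.2.1
      have k3 := sp2_mob (Matrix.det_fin_two g ▸ g1) i
      have k4 : (g 1 0 : ℂ) * froot R + g 1 1 ≠ 0 := den_ne' (M := g) (by omega) i
      rw [show mob (g 0 0) (g 0 1) (g 1 0) (g 1 1) (froot R) = froot Q from g3.symm] at k3
      exact ⟨R, hR, k3 ▸ q5.sc k4, by rw [k3, cl_sc q5 k4]⟩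
  choose β b1 b2 b3 using h1
  have hg : ∀ Q ∈ T, IsIv (Oc n d) (sp2 (froot Q) 1) → HgN N n d r (froot Q) := fun Q h =>
    hg_form ok.toOk (hT.mem Q h).disc (hT.mem Q h).pos (hT.mem Q h).lev (hT.mem Q h).res
  refine Finset.sum_of_injOn β (fun x _ y _ h => by rw [← b3 x, h, b3]) (fun z _ => b1 z)
    (fun Q hQ h => ?_) fun z _ => ?_
  · obtain ⟨k1, k2, k3, k4⟩ := k Q hQ
    rw [hω _ _ _ k1 k2, if_neg fun hp => h ?_, zero_smul]
    have i := isIv_root ok.toOk k1 k2 k3 k4 hp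
    exact ⟨_, Finset.mem_univ _, (hT.uniq Q hQ _ (b1 _)
      (hg_geq ok (hg _ (b1 _) (b2 _)) (hg Q hQ i) (b3 _))).symm⟩
  · obtain ⟨k1, k2, k3, k4⟩ := k _ (b1 z)
    rw [← yC_cl P ok (hg _ (b1 z) (b2 z)), b3, hω _ _ _ k1 k2, if_pos
      (prim_root ok.toOk k1 k2 k3 k4 one_ne_zero (by rw [sc_one]; exact b2 z)),
      idl_froot (hT.mem _ (b1 z)).disc k2, cl_sc (b2 z) (by exact_mod_cast k2.ne'), b3]

variable [∀ c, Fintype (Pc n c)]

theorem fs_nb (ok : OkD N n (c * l) r) (hl : l.Prime) (h : HgN N n c r τ) :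
    fs c (c * l) (yC P n (c * l) r) (cl _ (sp2 τ 1)) =
      ∑ i with ¬ St n c (nb l 1 τ i), P.φ (hk l τ i) := by
  have ok' := ok.of_mul
  have hI : IsIv (Oc n c) (sc 1 (sp2 τ 1)) := by rw [sc_one]; exact h.iv
  have h1 := sum_nb (s := 1) ok'.toOk hl (cmd_one hl) h.pos.ne' one_ne_zero hI (yC P n (c * l) r)
  simp only [sc_one] at h1
  rw [fs, h1]
  refine Finset.sum_congr rfl fun i hi => ?_
  have h2 := (nb_isIv_of ok'.toOk hl h.pos.ne' one_ne_zero hI (Finset.mem_filter.1 hi).2).1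
  rw [sc_one] at h2
  obtain ⟨h3, h4⟩ := hg_nb ok hl.pos h i h2 (Nat.coprime_one_left N) (by ring)
  rw [← h4, yC_cl P ok h3]

/-- The trace to a lower conductor, in terms of the stable neighbours. -/
theorem fs_yC (ok : OkD N n (c * l) r) (hl : l.Prime) (hN : ¬ l ∣ N) (h : HgN N n c r τ) :
    fs c (c * l) (yC P n (c * l) r) (cl _ (sp2 τ 1)) =
      P.a l • P.φ τ - ∑ i with St n c (nb l 1 τ i), P.φ (hk l τ i) := by
  rw [fs_nb P ok hl h, ← P.φ_hecke hl hN h.pos, eq_sub_iff_add_eq',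
    Finset.sum_filter_add_sum_filter_not]
  simp only [act_rP]

theorem tr_inert (ok : OkD N n d r) (hl : l.Prime) (hN : ¬ l ∣ N) (hd : d = c * l)
    (hi : Inert n l) (hc : ¬ l ∣ c) (z : Pc n c) :
    fs c d (yC P n d r) z = P.a l • yC P n c r z := by
  subst hd
  obtain ⟨τ, h, rfl⟩ := exists_hg ok.of_mul z
  rw [fs_yC P ok hl hN h, yC_cl P ok.of_mul h, Finset.filter_false_of_mem fun i _ =>
    not_st_inert ok.of_mul.toOk hl hi hc h.iv (nb_mid hl h.pos.ne' i).1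
      (nb_mid hl h.pos.ne' i).2, Finset.sum_empty, sub_zero]

theorem tr_up {e : ℕ} (ok : OkD N n e r) (hl : l.Prime) (hN : ¬ l ∣ N) (hd : d = c * l)
    (he : e = d * l) (z : Pc n d) :
    fs d e (yC P n e r) z = P.a l • yC P n d r z - yC P n c r (pj n c d z) := by
  subst hd he
  have l2 : (l : ℂ) ≠ 0 := by exact_mod_cast hl.ne_zero
  have ok1 := ok.of_mul
  have ok0 := ok1.of_mul
  obtain ⟨τ, h, rfl⟩ := exists_hg ok1 z
  obtain ⟨j, e1, hj⟩ := exists_up (a := 1) ok0.toOk hl (cmd_one hl) h.pos.ne' one_ne_zero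
    (by rw [sc_one]; exact h.iv)
  simp only [sc_one] at e1
  have hO := h.iv.ext (Oc_le n (dvd_mul_right c l))
  obtain ⟨h3, h4⟩ := hg_nb ok0 hl.pos h j (e1 ▸ hO.sc l2) (m := l * l)
    (Nat.Coprime.mul_left (hl.coprime_iff_not_dvd.2 hN) (hl.coprime_iff_not_dvd.2 hN)) (by ring)
  rw [fs_yC P ok hl hN h, yC_cl P ok1 h, pj_cl (dvd_mul_right c l) h.iv, ← cl_sc hO l2, ← e1, ← h4,
    yC_cl P ok0 h3, Finset.sum_eq_single_of_mem j (by simpa using (hj j).not) fun i hi k =>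
      absurd (Finset.mem_filter.1 hi).2 ((hj i).2 k)]

/-- The norm relation at a split prime. -/
theorem tr_split (ok : OkD N n d r) (hl : l.Prime) (hN : ¬ l ∣ N) (hd : d = c * l)
    (e : b ^ 2 + n * c ^ 2 = 4 * l * k) (hb : ¬ (l : ℤ) ∣ b) (z : Pc n c) :
    fs c d (yC P n d r) z = P.a l • yC P n c r z - yC P n c r (cl _ (idl n c l b) * z) -
      yC P n c r ((cl _ (idl n c l b))⁻¹ * z) := by
  subst hd
  have l0 : (l : ℤ) ≠ 0 := by exact_mod_cast hl.ne_zero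
  have ok0 := ok.of_mul
  obtain ⟨τ, h, rfl⟩ := exists_hg ok0 z
  have key : ∀ (b : ℤ) i, b ^ 2 + n * c ^ 2 = 4 * l * k → ¬ (l : ℤ) ∣ b →
      idl n c l b * sp2 τ 1 = nb l 1 τ i →
      yC P n c r (cl _ (idl n c l b) * cl _ (sp2 τ 1)) = P.φ (hk l τ i) := fun b i e hb n1 => by
    obtain ⟨h3, h4⟩ := hg_nb ok0 hl.pos h i (n1 ▸ st_idl ok0.toOk hl e hb h.iv)
      (hl.coprime_iff_not_dvd.2 hN) rfl
    rw [← cl_mul (isIv_idl ok.m4 e l0 (cmf_prim hl hb k)) h.iv, n1, ← h4, yC_cl P ok0 h3]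
  obtain ⟨i, j, hne, n1, n2, hs⟩ := st_two ok0.toOk hl e hb h.pos h.iv
  rw [fs_yC P ok hl hN h, show (Finset.univ.filter fun i => St n c (nb l 1 τ i)) = {i, j} by
    ext m; simp [hs], Finset.sum_pair hne, yC_cl P ok0 h,
    ← cl_idl_neg ok.m4 e l0 (cmf_prim hl hb k), key b i e hb n1,
    key (-b) j (by rw [neg_sq, e]) (by rwa [dvd_neg]) n2, sub_sub]

/-- The norm relation at a prime of the level. -/
theorem tr_bad (ok : OkD N n d r) (hl : l.Prime) (hN : l ∣ N) (hd : d = c * l) (hc : ¬ l ∣ c)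
    {ε : ℤ} (hU : ∀ τ : ℂ, 0 < τ.im → ∑ j : Fin l, P.φ (hk l τ (some j)) = ε • P.φ τ)
    (z : Pc n c) : fs c d (yC P n d r) z =
      ε • yC P n c r z - yC P n c r ((cl _ (idl n c l (r * c)))⁻¹ * z) := by
  subst hd
  have l0 : (l : ℤ) ≠ 0 := by exact_mod_cast hl.ne_zero
  have ok0 := ok.of_mul
  obtain ⟨⟨k, e⟩, hb⟩ := ok0.root_bad hl hN hc
  have e2 : (-(r * c)) ^ 2 + n * c ^ 2 = 4 * l * k := by rw [neg_sq, e]
  have hb2 : ¬ (l : ℤ) ∣ -(r * c) := by rwa [dvd_neg]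
  obtain ⟨τ, h, rfl⟩ := exists_hg ok0 z
  obtain ⟨i, j, hne, n1, n2, hs⟩ := st_two ok0.toOk hl e hb h.pos h.iv
  obtain rfl : none = i := nb_inj hl (cmd_one hl) h.pos.ne'
    ((hg_mul (ok0.lev hN) (hg_lev h hN)).symm.trans n1)
  obtain ⟨j, rfl⟩ := Option.ne_none_iff_exists'.1 hne.symm
  have i2 := n2 ▸ st_idl ok0.toOk hl e2 hb2 h.iv
  rw [fs_nb P ok hl h, yC_cl P ok0 h, ← cl_idl_neg ok.m4 e l0 (cmf_prim hl hb k),
    ← cl_mul (isIv_idl ok.m4 e2 l0 (cmf_prim hl hb2 k)) h.iv, n2, ← (nb_iv hl.pos _ i2).2,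
    yC_cl P ok0 (hg_some ok0 hl.pos h j i2), eq_sub_iff_add_eq, ← hU τ h.pos]
  exact sum_bad j _ (fun i => by rw [hs, not_or]) _

end Pool.Agent.B6.B7.Dn
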