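import Pool.Agent.Lib.MP_696deb_nt.B7.CMb
import Pool.Agent.Lib.MP_696deb_nt.B6.CMc
import Pool.Agent.Lib.MP_696deb_nt.B4.GEm

/-! Algebraic Heegner points whose conductor need not be prime to the level. -/

set_option autoImplicit false

open scoped Classical NumberTheorySymbols

namespace Pool.Agent.B6.B7.Dn

open Pool.Agent.Lib.MP_696deb_nt Pool.Agent.Lib.MP_696deb_nt.B2 Pool.Agent.Lib.MP_696deb_nt.B2.CM
open Pool.Agent.B4 (OkN HgN)
open Pool.Agent.Lib.MP_696deb_nt.B3.CM (fs fs_fs fs_congr map_fs fs_mul fs_sub fs_cart fs_self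
  exists_frob_idl Gd th Inert inert_of_jac)
open Pool.Agent.B6.CM (act_rP yC yA exists_bound K1_of_near)

variable {N n c d e l : ℕ} {r b k f ε : ℤ} {τ : ℂ} {g φ : Gam} {w : Plc}

theorem jQ_tau (ok : Ok n c) (h : HgN N n c r τ) : jC (jQ n c (cl _ (sp2 τ 1))) = jf τ := by
  rw [jC_jQ ok, jP_cl ok h.iv, jL_tau h.pos]

/-- A Frobenius element at the prime of the level that is singled out by the orientation. -/
theorem exists_frob_bad (ok : OkD N n c r) (hl : l.Prime) (h2 : l ≠ 2) (hN : l ∣ N) :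
    ∃ φ ∈ GK n, (∃ w : Plc, w.p = l ∧ IsFrob w l φ) ∧
      ∀ d, d ≠ 0 → ¬ l ∣ d → rho n d φ = (cl _ (idl n d l (r * d)))⁻¹ := by
  obtain ⟨⟨k, e⟩, hb⟩ := (ok.of_ne one_ne_zero).root_bad hl hN hl.not_dvd_one
  have hw : ∃ w : Plc, w.p = l ∧ w.V (beQ n 1 (r * (1 : ℕ))) < 1 := by
    obtain ⟨w, rfl⟩ := exists_plc hl
    rcases V_beQ_or ok.m4 e with h | h
    · exact ⟨w, rfl, h⟩
    · refine ⟨cc⁻¹ • w, rfl, ?_⟩
      rw [smul_V, inv_inv, show cc (beQ n 1 (r * (1 : ℕ))) = -beQ n 1 (-(r * (1 : ℕ))) by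
        simp only [beQ, map_div₀, map_add, map_mul, map_intCast, map_natCast, map_ofNat,
          smul_dq' (cc_notMem (q := n) (by have := ok.gt; omega))]
        push_cast; ring, Valuation.map_neg]
      exact h
  obtain ⟨w, rfl, hw⟩ := hw
  obtain ⟨φ, hφ⟩ := B2.exists_frob w
  refine ⟨φ, dec_le_split h2 (jac_of_root hl e hb) hφ.1, ⟨w, rfl, hφ⟩, fun d hd h => ?_⟩
  obtain ⟨⟨k, e⟩, hb⟩ := (ok.of_ne hd).root_bad hl hN h
  refine rho_frob_split (ok.of_ne hd).toOk e hb ?_ hφ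
  rw [show beQ n d (r * d) = (d : ℤ) * beQ n 1 (r * (1 : ℕ)) by
    simp only [beQ]; push_cast; ring, map_mul]
  exact mul_lt_one_of_nonneg_of_lt_one_right (w.V_int_le d) zero_le hw

/-- The relation of the operator `U` at a prime of the level. -/
theorem md_U {W : WeierstrassCurve ℚ} (D : B4.GE.MD W N) (hl : l.Prime)
    (hU : ∀ m, D.c (l * m) = D.c l * D.c m) (τ : ℂ) (hτ : 0 < τ.im) :
    ∑ j : Fin l, D.par.φ (hk l τ (some j)) = D.c l • D.par.φ τ := by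
  have := Fact.mk hl
  have l0 : (l : ℂ) ≠ 0 := by exact_mod_cast hl.ne_zero
  have h1 := ((D.par.qe.Up (p := l)).smul l).eq_of_eq (F' := fun z => D.c l * D.par.F z) (by
    convert D.par.qe.smul (D.c l) using 1
    ext m
    simp only [PowerSeries.coeff_C_mul, PowerSeries.coeff_mk, PowerSeries.coeff_map,
      B4.GE.MD.par, hU, eq_ratCast]
    push_cast
    rcases eq_or_ne (m : ℂ) 0 with h | h
    · simp [h]
    · field_simp) hτ
  simp only [B4.GE.Par.φ]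
  rw [← map_sum, ← map_zsmul, zsmul_eq_mul, ← h1, Finset.mul_sum]
  refine congrArg _ (Finset.sum_nbij' (fun j : Fin l => ((j : ℕ) : ZMod l))
    (fun j => ⟨j.val, ZMod.val_lt j⟩) (by simp) (by simp)
    (fun j _ => Fin.ext (ZMod.val_cast_of_lt j.2)) (by simp) fun j _ => ?_)
  simp only [sl, mob, hk, ZMod.val_cast_of_lt j.2, Int.cast_one, one_mul, Int.cast_zero, zero_mul,
    zero_add, Int.cast_natCast, sub_zero, mul_zero]
  field_simp

variable [Cw] {P : B4.GE.Par Wu N} (G : B4.GE.Geo P)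
include G

theorem jC_yA (ok : OkD N n c r) (x : Pc n c) : pmap jC (yA P n c r x) = yC P n c r x := by
  obtain ⟨τ, h, rfl⟩ := exists_hg ok x
  refine Function.invFun_eq ?_
  rw [yC_cl P ok h]
  exact G.alg τ _ h.pos (jQ_tau ok.toOk h)

theorem smul_av (ok : OkD N n c r) (av : ∀ x, Polynomial.aeval (jQ n c x) G.m ≠ 0) (hg : g ∈ GK n)
    (x : Pc n c) : g • yA P n c r x = yA P n c r (rho n c g * x) := by
  obtain ⟨d, ν, hd, hν⟩ := exists_nu ok
  have ok1 := (ok.of_dvd hd).toOk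
  have key : ∀ x, yA P n c r x = G.Φ (jQ n c x) (jQ n d (ν * pj n d c x)) := fun x => by
    obtain ⟨τ, h, rfl⟩ := exists_hg ok x
    refine pmap_injective jC ?_
    rw [jC_yA G ok, yC_cl P ok h, G.Φ_eq τ _ _ h.pos (jQ_tau ok.toOk h)
      ((jC_jQ ok1 _).trans (hν τ h)) (av _)]
  rw [key, key, map_mul, pj_rho ok.toOk hd, mul_left_comm, ← smul_jQ ok.toOk hg, ← smul_jQ ok1 hg]
  exact G.Φ_gal g _ _

section

variable [∀ c, Fintype (Pc n c)]

theorem jC_fs (ok : OkD N n d r) (x : Pc n c) :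
    pmap jC (fs c d (yA P n d r) x) = fs c d (yC P n d r) x :=
  (map_fs _ _ x).trans (fs_congr fun z _ => jC_yA G ok z)

theorem trA_inert (ok : OkD N n d r) (hl : l.Prime) (hN : ¬ l ∣ N) (hd : d = c * l)
    (hi : Inert n l) (hc : ¬ l ∣ c) (z : Pc n c) :
    fs c d (yA P n d r) z = P.a l • yA P n c r z :=
  pmap_injective jC (by
    rw [jC_fs G ok, tr_inert P ok hl hN hd hi hc, map_zsmul, jC_yA G (hd ▸ ok).of_mul])

theorem trA_up (ok : OkD N n e r) (hl : l.Prime) (hN : ¬ l ∣ N) (hd : d = c * l) (he : e = d * l)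
    (z : Pc n d) : fs d e (yA P n e r) z = P.a l • yA P n d r z - yA P n c r (pj n c d z) :=
  pmap_injective jC (by
    rw [jC_fs G ok, tr_up P ok hl hN hd he, map_sub, map_zsmul, jC_yA G (he ▸ ok).of_mul,
      jC_yA G (hd ▸ (he ▸ ok).of_mul).of_mul])

end

/-- The action of the Galois group on Heegner points. -/
theorem smul_yA (ok : OkD N n c r) (hg : g ∈ GK n) (x : Pc n c) :
    g • yA P n c r x = yA P n c r (rho n c g * x) := by
  obtain ⟨B, hB⟩ := exists_bound G.m0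
  obtain ⟨l, h1, hl⟩ := Nat.exists_infinite_primes (B + N + 1)
  have i0 := finite_Pc ok.m4 ok.gt
  let i1 : ∀ c, Fintype (Pc n c) := fun c => Fintype.ofFinite _
  have h2 : ¬ l ∣ N := Nat.not_dvd_of_pos_of_lt (Nat.pos_of_ne_zero ok.N_ne) (by omega)
  have key : ∀ d, OkD N n d r → OkD N n (d * l) r ∧ ∀ g ∈ GK n, ∀ x,
      g • yA P n (d * l) r x = yA P n (d * l) r (rho n (d * l) g * x) := fun d ok => by
    have ok1 := ok.of_ne (mul_ne_zero ok.ne hl.ne_zero)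
    refine ⟨ok1, fun g => smul_av G ok1 (hB _ _ ok1.toOk ?_)⟩
    have := Nat.le_of_dvd (Nat.mul_pos (by have := ok.gt; omega) (pow_pos (Nat.pos_of_ne_zero
      ok1.ne) 2)) (show l ∣ n * (d * l) ^ 2 from ⟨n * d ^ 2 * l, by ring⟩)
    omega
  obtain ⟨ok1, k1⟩ := key c ok
  obtain ⟨ok2, k2⟩ := key _ ok1
  obtain ⟨h, -, rfl⟩ := rho_surj ok.toOk x
  have e0 := fun z => eq_sub_of_add_eq' (eq_sub_iff_add_eq.1 (trA_up G ok2 hl h2 rfl rfl z))
  have e1 := e0 (rho n (c * l) h)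
  have e2 := e0 (rho n (c * l) g * rho n (c * l) h)
  rw [map_mul, pj_rho ok1.toOk (dvd_mul_right c l)] at e2
  rw [pj_rho ok1.toOk (dvd_mul_right c l)] at e1 e2
  rw [e1, e2, smul_sub, smul_comm g, k1 g hg, ← pj_rho ok2.toOk (dvd_mul_right _ l) g, ← fs_mul,
    fs, fs, Finset.smul_sum]
  simp only [k2 g hg]

theorem kron_yA (ok : OkD N n d r) (hd : d = c * w.p) (hM : ¬ w.p ∣ G.M)
    (hΔ : ¬ (w.p : ℤ) ∣ WZ.Δ) (hJ : J(-n | w.p) = -1) (hc : ¬ w.p ∣ c) (hg : IsFrob w w.p g)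
    (x : Pc n d) : yA P n d r x - g • yA P n c r (pj n c d x) ∈ K1 w := by
  subst hd
  have hl := w.prime
  have h2 : w.p ≠ 2 := fun h => hM (h ▸ (dvd_mul_right 2 N).trans G.dvd)
  have ok' := ok.of_mul
  obtain ⟨τ, h, e0⟩ := exists_hg ok' (pj n c (c * w.p) x)
  have hI : IsIv (Oc n c) (sc 1 (sp2 τ 1)) := by rw [sc_one]; exact h.iv
  obtain ⟨j, rfl⟩ := nb_cl_surj (s := 1) ok'.toOk hl (cmd_one hl) h.pos.ne' one_ne_zero hI
    (by rw [sc_one]; exact e0.symm)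
  have i1 := (nb_isIv (s := 1) ok'.toOk hl h2 hJ hc h.pos.ne' one_ne_zero hI j).1
  rw [sc_one] at i1 e0 ⊢
  obtain ⟨h3, h4⟩ := hg_nb ok hl.pos h j i1 (Nat.coprime_one_left N) (by ring)
  obtain ⟨R, hR, i, k1, k2⟩ := G.kron w g τ _ _ hM hg h.pos (jQ_tau ok'.toOk h) (V_jQ ok'.toOk w _)
    ((jC_yA G ok' _).trans (yC_cl P ok' h))
  have e3 : yA P n (c * w.p) r (cl _ (nb w.p 1 τ j)) = R j :=
    pmap_injective jC (by rw [jC_yA G ok, ← h4, yC_cl P ok h3, hR, act_rP])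
  rw [e3, ← e0]
  by_cases hj : j = i
  · exact hj ▸ K1_of_near hΔ k1
  have hn : g ∉ GK n := fun h => by
    have k := chi_frob (B4c_not_dvd h2 (by rw [hJ]; decide)) hg
    rw [hJ, B4c_mem.1 h] at k
    exact absurd k (by decide)
  refine (K1_smul hg.1).1 ?_
  rw [smul_sub, smul_smul, smul_yA G ok' (mul_mem_GK hn hn), rho_sq ok'.toOk hn, one_mul]
  exact K1_of_near hΔ (k2 j hj)

variable [∀ c, Fintype (Pc n c)]

theorem trA_split (ok : OkD N n d r) (hN : ¬ w.p ∣ N) (hd : d = c * w.p) (h2 : w.p ≠ 2)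
    (hJ : J(-n | w.p) = 1) (hc : ¬ w.p ∣ c) (hφ : IsFrob w w.p φ) (z : Pc n c) :
    fs c d (yA P n d r) z = P.a w.p • yA P n c r z - φ • yA P n c r z - φ⁻¹ • yA P n c r z := by
  have ok0 : OkD N n c r := (hd ▸ ok).of_mul
  obtain ⟨b, k, e, hb⟩ := exists_root_split ok.m4 w.prime h2 hJ hc
  obtain ⟨h1, h3⟩ := exists_frob_idl ok0.toOk w.prime h2 e hb rfl hφ
  refine pmap_injective jC ?_
  rw [smul_yA G ok0 h1, smul_yA G ok0 (inv_mem h1), rho_inv ok0.toOk h1, jC_fs G ok,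
    tr_split P ok w.prime hN hd e hb, map_sub, map_sub, map_zsmul, jC_yA G ok0,
    jC_yA G ok0, jC_yA G ok0]
  rcases h3 with h | h <;> rw [h]
  rw [inv_inv, sub_right_comm]

theorem trA_bad (ok : OkD N n d r) (hl : l.Prime) (hN : l ∣ N) (hd : d = c * l) (hc : ¬ l ∣ c)
    (hU : ∀ τ : ℂ, 0 < τ.im → ∑ j : Fin l, P.φ (hk l τ (some j)) = ε • P.φ τ) (hφ : φ ∈ GK n)
    (hρ : rho n c φ = (cl _ (idl n c l (r * c)))⁻¹) (z : Pc n c) :
    fs c d (yA P n d r) z = ε • yA P n c r z - φ • yA P n c r z := by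
  have ok0 : OkD N n c r := (hd ▸ ok).of_mul
  refine pmap_injective jC ?_
  rw [smul_yA G ok0 hφ, hρ, jC_fs G ok, tr_bad P ok hl hN hd hc hU, map_sub, map_zsmul,
    jC_yA G ok0, jC_yA G ok0]

end Pool.Agent.B6.B7.Dn
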