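import Pool.Agent.Lib.MP_696deb_nt.B7.Z0
import Pool.Agent.Lib.MP_696deb_nt.B5.NUa

/-! Elementary facts on the numerical data. -/

set_option autoImplicit false
set_option linter.unusedSectionVars false

open Finset NumberTheorySymbols
open scoped Classical

namespace Pool.Agent.G7

open Pool.Agent.Lib.MP_696deb_nt Pool.Agent.B4.GE
open Pool.Agent.Lib.MP_696deb_nt.B3 (kro chi2 odp PChr pchr_kro cond_eq)
open Pool.Agent.B6.B7 (LX LKr lvQ lvS rootNo)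

variable {f a d : ℤ} {N l : ℕ}

theorem cnd_ne (hd : Squarefree d) : cnd d ≠ 0 := (pchr_kro hd).ne

theorem cnd_mul (h : Squarefree (f * a)) (h4 : a % 4 = 1) : cnd (f * a) = cnd f * a.natAbs := by
  have e : f * a % 4 = f % 4 := by rw [Int.mul_emod, h4, mul_one, Int.emod_emod]
  rw [cnd, cnd, cond_eq h, cond_eq h.of_mul_left, e, Int.natAbs_mul]
  split_ifs
  exacts [rfl, (mul_assoc _ _ _).symm]

theorem cnd_gt (hd : Squarefree d) (h : d ≠ 1) : 1 < cnd d := by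
  have := hd.ne_zero
  rw [cnd, cond_eq hd]
  split_ifs <;> omega

theorem dvd_cnd (hd : Squarefree d) (hl : l.Prime) (h : l ∣ cnd d) : l = 2 ∨ (l : ℤ) ∣ d :=
  (hl.eq_two_or_odd').imp_right (B3.odd_dvd_cond hd · |>.1 h)

theorem kro_zero (hd : Squarefree d) (hl : l.Prime) (h : l ∣ cnd d) : kro d l = 0 :=
  (pchr_kro hd).zero _ fun k =>
    hl.ne_one (Nat.eq_one_of_dvd_coprimes (Nat.isCoprime_iff_coprime.1 k) dvd_rfl h)

theorem gcd_mul_lvQ (hN : Squarefree N) (d : ℤ) : N.gcd d.natAbs * lvQ N d = N := by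
  have h1 : (lvQ N d).Coprime d.natAbs := Int.isCoprime_iff_gcd_eq_one.1 B6.B7.lvQ_cop
  refine Nat.dvd_antisymm (Nat.Coprime.mul_dvd_of_dvd_of_dvd
    (h1.symm.coprime_dvd_left (Nat.gcd_dvd_right _ _)) (Nat.gcd_dvd_left _ _) B6.B7.lvQ_dvd) ?_
  rw [← Nat.gcd_mul_right]
  exact Nat.dvd_gcd (dvd_mul_right _ _) (mul_comm (lvQ N d) _ ▸ B6.B7.dvd_lvQ hN)

namespace Dat.Ok

variable {X : Dat} (h : X.Ok)
include h

theorem N0 : X.N ≠ 0 := h.lsq.ne_zero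

theorem n0 : X.n ≠ 0 := h.sqf.ne_zero

theorem b4 : X.b % 4 = 1 := by
  have h1 := congrArg (· % 4) h.mul
  have h2 := h.mod4
  simp only [Int.mul_emod X.a, h.a4, one_mul, Int.emod_emod] at h1
  omega

theorem a_dvd : X.a ∣ X.n := ⟨-X.b, by linear_combination h.mul⟩

theorem b_dvd : X.b ∣ X.n := ⟨-X.a, by linear_combination h.mul⟩

theorem abs_mul : X.a.natAbs * X.b.natAbs = X.n := by
  rw [← Int.natAbs_mul, h.mul, Int.natAbs_neg, Int.natAbs_natCast]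

theorem fcop : IsCoprime X.f X.n := h.fn.of_mul_right_right

theorem sqf_mul {e : ℤ} (he : e ∣ X.n) : Squarefree (X.f * e) :=
  squarefree_mul_iff.2 ⟨(h.fcop.of_isCoprime_of_dvd_right he).isRelPrime, h.fs,
    (Int.squarefree_natCast.2 h.sqf).squarefree_of_dvd he⟩

theorem sa : Squarefree (X.f * X.a) := h.sqf_mul h.a_dvd

theorem sb : Squarefree (X.f * X.b) := h.sqf_mul h.b_dvd

theorem ca : cnd (X.f * X.a) = X.c * X.a.natAbs := cnd_mul h.sa h.a4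

theorem cb : cnd (X.f * X.b) = X.c * X.b.natAbs := cnd_mul h.sb h.b4

theorem c0 : X.c ≠ 0 := cnd_ne h.fs

theorem neg : X.D < 0 := by
  have := h.c0
  have := h.n0
  rw [Dat.D, neg_lt_zero]
  positivity

theorem cop_of_dvd {e : ℤ} (he : e ∣ X.n) : IsCoprime e X.N :=
  (Nat.isCoprime_iff_coprime.2 h.cop).of_isCoprime_of_dvd_left he

theorem lvQ_a : lvQ X.N (X.f * X.a) = lvQ X.N X.f := B6.B7.lvQ_mul (h.cop_of_dvd h.a_dvd)

theorem lvQ_b : lvQ X.N (X.f * X.b) = lvQ X.N X.f := B6.B7.lvQ_mul (h.cop_of_dvd h.b_dvd)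

theorem g_mul : X.g * lvQ X.N X.f = X.N := gcd_mul_lvQ h.lsq _

theorem g_dvd : X.g ∣ X.N := Nat.gcd_dvd_left _ _

theorem g_dvd_f : (X.g : ℤ) ∣ X.f := Int.natCast_dvd.2 (Nat.gcd_dvd_right _ _)

theorem g_dvd_c : X.g ∣ X.c := (Nat.gcd_dvd_right _ _).trans (Int.dvd_natCast.1 (B3.dvd_cond h.fs))

theorem p_nd_f : ¬ (X.p : ℤ) ∣ X.f := fun k => (Nat.prime_iff_prime_int.1 h.hp).not_isUnit
  (h.fn.isUnit_of_dvd' k (dvd_mul_right _ _))

theorem p_odd : Odd X.p := h.lodd.of_dvd_nat h.dvd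

theorem p_nd_c : ¬ X.p ∣ X.c := fun k => h.p_nd_f ((B3.odd_dvd_cond h.fs h.p_odd).1 k)

theorem gp_dvd : X.g * X.p ∣ X.N := Nat.Coprime.mul_dvd_of_dvd_of_dvd
  (h.hp.coprime_iff_not_dvd.2 fun k => h.p_nd_c (k.trans h.g_dvd_c)).symm h.g_dvd h.dvd

/-- A prime of the level divides the conductor only through the common part. -/
theorem dvd_g (k : l ∣ X.N) : l ∣ X.c ↔ l ∣ X.g :=
  ⟨fun e => Nat.dvd_gcd k (Int.natCast_dvd.1
    ((B3.odd_dvd_cond h.fs (h.lodd.of_dvd_nat k)).1 e)), fun e => e.trans h.g_dvd_c⟩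

theorem η_zero (hl : l.Prime) (k : l ∣ X.c) : X.η l = 0 :=
  kro_zero h.sa hl (h.ca ▸ k.mul_right _)

theorem root' : 4 * (X.N : ℤ) ∣ X.ρ' ^ 2 + X.n := by
  obtain ⟨M, hM⟩ := h.dvd
  obtain ⟨x, hx⟩ := h.rp
  obtain ⟨y, hy⟩ := h.rq
  rw [hM, Nat.mul_div_cancel_left _ h.hp.pos] at hy
  obtain ⟨k, hk⟩ : Odd (X.p : ℤ) := by exact_mod_cast h.p_odd
  obtain ⟨z, rfl⟩ : 2 ∣ x := ⟨X.ρ + M * y - k * x, by linear_combination -hx + hy - x * hk⟩
  obtain ⟨v, hv⟩ := h.root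
  refine ⟨v + y * z, ?_⟩
  rw [hM] at hv ⊢
  push_cast at hv ⊢
  linear_combination hv + (X.ρ' - X.ρ) * hx + 2 * X.p * z * hy

/-- The two orientations are different. -/
theorem nd_ρc : ¬ (X.N : ℤ) ∣ X.ρ * X.c := fun k =>
  ((Nat.prime_iff_prime_int.1 h.hp).dvd_or_dvd ((Int.natCast_dvd_natCast.2 h.dvd).trans k)).elim
    (h.toGood.not_dvd h.root h.hp.one_lt h.dvd) fun e => h.p_nd_c (Int.natCast_dvd_natCast.1 e)

theorem nd_ρc' : ¬ (X.N : ℤ) ∣ X.ρ' * X.c := fun k =>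
  ((Nat.prime_iff_prime_int.1 h.hp).dvd_or_dvd ((Int.natCast_dvd_natCast.2 h.dvd).trans k)).elim
    (h.toGood.not_dvd h.root' h.hp.one_lt h.dvd) fun e => h.p_nd_c (Int.natCast_dvd_natCast.1 e)

theorem exists_rep (r : ℤ) : ∃ T T', X.Rep r T T' :=
  (G5.exists_freps h.N0 h.neg _).imp fun _ k =>
    (G5.exists_freps h.N0 h.neg _).imp fun _ k' => ⟨k, k'⟩

end Dat.Ok

/-- Sums over both orientations. -/
theorem sum_zF {M : Type} [AddCommGroup M] {D ρ σ : ℤ} {T T' : Finset Fm} (ω : Fm → ℤ)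
    (h : G5.FReps N D ρ T) (h' : G5.FReps N D (-ρ) T') (hρ : ¬ (N : ℤ) ∣ ρ) (S : Fm → M) :
    ∑ Q ∈ T ∪ T', zF N ω σ D ρ Q • S Q = ∑ Q ∈ T, ω Q • S Q + σ • ∑ Q ∈ T', ω Q • S Q := by
  rw [sum_union (disjoint_left.mpr fun Q h1 h2 => (h.fam Q h1).not_neg hρ (h'.fam Q h2)), smul_sum]
  congr 1 <;> refine sum_congr rfl fun Q hQ => ?_
  · rw [zF, if_pos (h.pos Q hQ), wF, wF, if_pos (h.fam Q hQ),
      if_neg ((h.fam Q hQ).not_neg hρ), mul_zero, add_zero]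
  · rw [zF, if_pos (h'.pos Q hQ), wF, wF, if_pos (h'.fam Q hQ),
      if_neg fun k => G5.Fam.not_neg hρ k (h'.fam Q hQ), zero_add, mul_smul]

theorem Dat.Ok.zs_eq {X : Dat} (h : X.Ok) {T T' : Finset Fm} (hT : X.Rep X.ρ T T') {V : Type}
    [AddCommGroup V] (S : ℂ → V) : X.zs T T' S =
      yD S (X.f * X.b) T + (X.f * X.b).sign • yD S (X.f * X.b) T' :=
  sum_zF _ hT.fst hT.snd h.nd_ρc _

end Pool.Agent.G7
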