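import Pool.Agent.Lib.MP_696deb_nt.B7.CMc
import Pool.Agent.Lib.MP_696deb_nt.B7.CM0
import Pool.Agent.Lib.MP_696deb_nt.B7.Z1
import Pool.Agent.Lib.MP_696deb_nt.B6.CMx
import Pool.Agent.Lib.MP_696deb_nt.B5.ORa

/-! Genus characters of arbitrary quadratic fields, and the action of complex conjugation. -/

set_option autoImplicit false

open scoped Classical NumberTheorySymbols

namespace Pool.Agent.B6.B7.Dn

open Pool.Agent.Lib.MP_696deb_nt Pool.Agent.Lib.MP_696deb_nt.B2 Pool.Agent.Lib.MP_696deb_nt.B2.CM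
open Pool.Agent.B4 (OkN HgN HRp ok_neg)
open Pool.Agent.Lib.MP_696deb_nt.B3 (kro chi2 odp cond2 pchr_chi2)
open Pool.Agent.Lib.MP_696deb_nt.B3.CM (Gd th Kc m2 k2' kc_two kc_odd gd_two chi_four th_one gch_th
  m2_cases)
open Pool.Agent.B6.CM (yC)
open Pool.Agent.G7 (cnd gD yD)

variable {N n c : ℕ} {r a b d f A B C : ℤ} {T : Finset Fm}

/-- The odd part of a squarefree integer, with the sign that makes it a discriminant. -/
def mo (f : ℤ) : ℤ :=
  if f % 4 = 1 then f else if f % 4 = 3 then -f else if f % 8 = 2 then f / 2 else -(f / 2)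

theorem mo_spec (hf : Squarefree f) :
    dt f * mo f = f ∧ mo f % 4 = 1 ∧ (mo f).natAbs = odp f := by
  have := B3.mod4_ne hf
  unfold dt mo odp
  split_ifs <;> omega

theorem m2_dt (f : ℤ) : m2 (dt f) = cond2 f := by
  unfold dt cond2
  split_ifs <;> rfl

theorem k2_dt (f : ℤ) : k2' (dt f) = chi2 f := by
  funext v
  unfold dt chi2
  split_ifs <;> rfl

theorem dt_ne (f : ℤ) : dt f ≠ 0 := fun h => by simpa [h] using dt_dvd f

theorem gd_mul (h : Gd n c a) (h' : Gd n c b) (ha : a ≠ 0) (hb : b ≠ 0) : Gd n c (a * b) :=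
  ⟨th n c a * th n c b, fun g hg => by
    rw [MonoidHom.mul_apply, h.th hg, h'.th hg, chi_mul ha hb]⟩

theorem th_mul (ok : Ok n c) (h : Gd n c a) (h' : Gd n c b) (ha : a ≠ 0) (hb : b ≠ 0)
    (z : Pc n c) : th n c (a * b) z = th n c a z * th n c b z := by
  obtain ⟨g, hg, rfl⟩ := rho_surj ok z
  rw [(gd_mul h h' ha hb).th hg, h.th hg, h'.th hg, chi_mul ha hb]

theorem mo_dvd (hd : Squarefree d) (h : (odp d : ℤ) ∣ n * c) : mo d ∣ n * c :=
  Int.natAbs_dvd.1 ((mo_spec hd).2.2 ▸ h)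

theorem kc_kro (hn : n % 4 = 3) (hd : Squarefree d) (h2 : cond2 d ∣ c) (h : (odp d : ℤ) ∣ n * c) :
    ∃ E, E ∣ 4 * d ∧ (∀ g, chi E g = chi d g) ∧ Kc n c E (kro d) := by
  obtain ⟨e1, e2, e3⟩ := mo_spec hd
  have k := kc_odd hn e2 (mo_dvd hd h)
  rw [e3] at k
  rcases eq_or_ne (dt d) 1 with h1 | h1
  · rw [h1, one_mul] at e1
    refine ⟨d, dvd_mul_left _ _, fun _ => rfl, ?_⟩
    convert k using 1
    · exact e1.symm
    · funext v
      rw [kro, ← k2_dt, h1]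
      exact one_mul _
  · have := (kc_two (dt_dvd d) h1 (m2_dt d ▸ h2)).prod k
    rw [mul_assoc, e1, k2_dt] at this
    exact ⟨_, dvd_rfl, chi_four hd.ne_zero, this⟩

theorem gd_kro (ok : Ok n c) (hd : Squarefree d) (h2 : cond2 d ∣ c) (h : (odp d : ℤ) ∣ n * c) :
    Gd n c d := by
  obtain ⟨E, -, h1, h3⟩ := kc_kro ok.m4 hd h2 h
  exact (h3.exists_th ok).imp fun θ k g hg => (k g hg).trans (h1 g)

theorem th_kro (ok : Ok n c) (hd : Squarefree d) (h2 : cond2 d ∣ c) (h : (odp d : ℤ) ∣ n * c)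
    (e : B ^ 2 + n * c ^ 2 = 4 * A * C) (hA : 0 < A)
    (hp : ∃ x y z : ℤ, x * A + y * B + z * C = 1) (hE : IsCoprime A (4 * d)) :
    (th n c d (cl _ (idl n c A B)) : ℤ) = kro d A := by
  obtain ⟨E, h0, h1, h3⟩ := kc_kro ok.m4 hd h2 h
  exact h3.th_idl ok (fun g hg => by rw [(gd_kro ok hd h2 h).th hg, h1]) e hA hp
    (hE.of_isCoprime_of_dvd_right h0)

/-- The genus character on forms is the genus character on classes. -/
theorem gD_th (ok : Ok n c) (hn : Squarefree n) (hd : Squarefree d) (h2 : cond2 d ∣ c)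
    (h : (odp d : ℤ) ∣ n * c) (hc : ∀ p : ℕ, p.Prime → p ∣ c → p ∣ cnd d) (A B C : ℤ)
    (e : B ^ 2 + n * c ^ 2 = 4 * A * C) (hA : 0 < A) : gD d (A, B, C) =
      if ∃ x y z : ℤ, x * A + y * B + z * C = 1 then (th n c d (cl _ (idl n c A (-B))) : ℤ)
        else 0 := by
  obtain ⟨e1, e2, e3⟩ := mo_spec hd
  split_ifs with hp
  · have g1 := gd_two ok (dt_dvd d) (m2_dt d ▸ h2)
    have k := th_mul ok g1 ((kc_odd ok.m4 e2 (mo_dvd hd h)).exists_th ok) (dt_ne d) (by omega)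
    rw [e1] at k
    rw [k, Units.val_mul, gch_th ok (e1 ▸ hd).of_mul_right e2 (mo_dvd hd h) e hA hp, e3, gD,
      ← k2_dt]
    congr 1
    rcases eq_or_ne (dt d) 1 with h1 | h1
    · rw [h1, th_one ok]
      rfl
    have h3 : 2 ∣ c := by
      rw [← m2_dt] at h2
      rcases m2_cases (dt_dvd d) h1 with k | k <;> rw [k.1] at h2 <;> omega
    exact ((kc_two (dt_dvd d) h1 (m2_dt d ▸ h2)).th_form ok (fun g hg => by
      rw [g1.th hg, chi_four (dt_ne d)]) e hA hp Nat.prime_two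
      ((Int.natCast_dvd_natCast.2 h3).mul_left _) fun v hv =>
        ((Int.prime_two.coprime_iff_not_dvd.2 hv).symm.pow_right (n := 3)).of_isCoprime_of_dvd_right
          (mul_dvd_mul_left 4 (dt_dvd d))).symm
  obtain ⟨g, x, y, z, a, b, c', e0, rfl, rfl, rfl⟩ := cmb_gcd A B C
  obtain ⟨p, hq, hg⟩ := Int.exists_prime_and_dvd (n := g) fun k => hp (by
    rcases Int.natAbs_eq_iff.1 k with k | k
    · exact ⟨x, y, z, e0.trans k⟩
    · exact ⟨-x, -y, -z, by rw [k] at e0 ⊢; push_cast at e0 ⊢; linear_combination -e0⟩)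
  obtain ⟨g, rfl⟩ := hg
  have h1 : p ∣ c := by
    by_contra k
    have k1 : p * p ∣ n * c ^ 2 := ⟨g ^ 2 * (4 * a * c' - b ^ 2), by linear_combination e⟩
    exact hq.not_isUnit (Int.squarefree_natCast.2 hn p
      (((hq.coprime_iff_not_dvd.2 k).mul_left (hq.coprime_iff_not_dvd.2 k)).pow_right
        |>.dvd_of_dvd_mul_right k1))
  have hq' := Int.prime_iff_natAbs_prime.1 hq
  have h3 : ∀ t, (p.natAbs : ℤ) ∣ p * g * t := fun t =>
    Int.natAbs_dvd.2 ((dvd_mul_right _ _).mul_right _)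
  rw [gD, mul_eq_zero]
  refine (hq'.dvd_mul.1 (hc _ hq' (Int.natAbs_dvd_natAbs.2 h1))).imp (fun k => ?_) fun k => ?_
  · refine (pchr_chi2 d).zero _ fun k' => (Nat.prime_iff_prime_int.1 hq').not_isUnit
      (k'.isUnit_of_dvd' ?_ (Int.natCast_dvd_natCast.2 k))
    split_ifs
    exacts [h3 _, h3 _]
  · rw [gch, Finset.prod_eq_zero (i := p.natAbs) (Nat.mem_primeFactors.2 ⟨hq', k, by omega⟩)]
    rw [if_pos (h3 a), jac_zero_of_dvd hq' (h3 c')]

/-- Sums over the class group are the sums over Heegner forms. -/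
theorem link_yD {W : WeierstrassCurve ℚ} (P : B4.GE.Par W N) [Fintype (Pc n c)] (ok : OkD N n c r)
    (hn : Squarefree n) (hd : Squarefree d) (h2 : cond2 d ∣ c) (h : (odp d : ℤ) ∣ n * c)
    (hc : ∀ p : ℕ, p.Prime → p ∣ c → p ∣ cnd d) (hT : G5.FReps N (-(n * c ^ 2)) (r * c) T) :
    ∑ z, (th n c d z : ℤ) • yC P n c r z = yD P.φ d T :=
  link_sum P ok ((hrp_iff (ok_neg ok.toOk)).2 hT) _ _ (gD_th ok.toOk hn hd h2 h hc)

/-- The conductor of a product with an odd discriminant. -/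
theorem cnd_prod (h : Squarefree (f * b)) (h4 : b % 4 = 1) :
    cond2 (f * b) = cond2 f ∧ odp (f * b) = odp f * b.natAbs := by
  have e : f * b % 4 = f % 4 := by rw [Int.mul_emod, h4, mul_one, Int.emod_emod]
  have e1 : cond2 (f * b) = cond2 f := by rw [cond2, cond2, e]
  refine ⟨e1, mul_left_cancel₀ (pchr_chi2 f).ne ?_⟩
  rw [← mul_assoc, ← B3.cond, ← G7.cnd_mul h h4, ← e1]
  rfl

theorem cnd_div (h : Squarefree (f * b)) (h4 : b % 4 = 1) (hb : b ∣ n) :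
    cond2 (f * b) ∣ cnd f ∧ (odp (f * b) : ℤ) ∣ n * cnd f ∧
      ∀ p : ℕ, p.Prime → p ∣ cnd f → p ∣ cnd (f * b) := by
  obtain ⟨e1, e2⟩ := cnd_prod h h4
  refine ⟨e1 ▸ dvd_mul_right _ _, ?_, fun p _ k => G7.cnd_mul h h4 ▸ k.mul_right _⟩
  rw [e2, Nat.cast_mul, mul_comm]
  exact mul_dvd_mul (Int.natAbs_dvd.2 hb) (Int.natCast_dvd_natCast.2 (dvd_mul_left _ _))

theorem conj_abs {C V : Type} [CommGroup C] [Fintype C] [AddCommGroup V] (θ : C →* ℤˣ) (y : C → V)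
    (σ : V →+ V) (q : C) {s : ℤ} {t : V} (hs : s ^ 2 = 1) (ht : IsOfFinAddOrder t)
    (h : ∀ x, s • σ (y x) + t = y (q * x)⁻¹) : IsOfFinAddOrder (σ (∑ z, (θ z : ℤ) • y z) +
      (-s * θ q) • ∑ z, (θ z : ℤ) • y z) := by
  have e := Equiv.sum_comp ((Equiv.mulLeft q).trans (Equiv.inv C)) fun z => (θ z : ℤ) • y z
  have e1 : (θ q : ℤ) • ∑ z, (θ z : ℤ) • y z =
      s • σ (∑ z, (θ z : ℤ) • y z) + (∑ z, (θ z : ℤ)) • t := by
    conv_lhs => rw [← e]
    rw [map_sum, Finset.smul_sum, Finset.smul_sum, Finset.sum_smul, ← Finset.sum_add_distrib]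
    refine Finset.sum_congr rfl fun x _ => ?_
    rw [Equiv.trans_apply, Equiv.coe_mulLeft, Equiv.inv_apply, ← h, map_inv, map_mul,
      Int.units_inv_eq_self, smul_smul, ← Units.val_mul, ← mul_assoc, Int.units_mul_self, one_mul,
      map_zsmul, smul_comm s, smul_add]
  rw [mul_smul, e1, smul_add, smul_smul, neg_mul, ← sq, hs, neg_one_smul, add_neg_cancel_left]
  exact ht.zsmul.zsmul

theorem conj_al {W : WeierstrassCurve ℚ} {M Q : ℕ} [Fintype (Pc n c)] (D : B4.GE.MD W N)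
    (hw : G5.Nw D) (hN : Squarefree N) (e : M * Q = N) (ok : OkD N n c r) (hM : M ∣ c)
    (hQ : c.Coprime Q) (θ : Pc n c →* ℤˣ) {k : ℤ} (hk : ∀ C : ℤ,
      (r * c) ^ 2 + n * c ^ 2 = 4 * Q * C → (∃ x y z : ℤ, x * Q + y * (r * c) + z * C = 1) →
      (θ (cl _ (idl n c Q (r * c))) : ℤ) = k) :
    IsOfFinAddOrder (pmap (starRingEnd ℂ) (∑ z, (θ z : ℤ) • yC D.par n c r z) +
      (-(∏ p ∈ Q.primeFactors, -D.c p) * k) • ∑ z, (θ z : ℤ) • yC D.par n c r z) := by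
  subst e
  have ok1 := (ok.lev (dvd_mul_left Q M)).okN hQ
  obtain ⟨j, hj⟩ := ok1.eq
  obtain ⟨u, u', hu⟩ := ok1.cop_r
  obtain ⟨w, hW⟩ := B5.exists_AL (Nat.coprime_of_squarefree_mul hN)
  obtain ⟨t, ht⟩ := nw_al hw hN (dvd_mul_left Q M) w hW
  have t0 := G5.alm_tors D ⟨hW.det, hW.a, hW.c, hW.d⟩ ok1.N_ne (dvd_mul_left Q M) ht
  obtain ⟨x, y, z, v, rfl, e⟩ := hW.form ok1.N_ne
  rw [← hk j hj ⟨u, u', 0, by linear_combination hu⟩]
  refine conj_abs θ _ _ _ ?_ t0 (yC_conj D.par ok hM hQ (x₀ := x) (y₀ := y) (z₀ := z) (w₀ := v)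
    (by linear_combination e) fun z hz => ?_)
  · rw [← Finset.prod_pow]
    exact Finset.prod_eq_one fun p hp => neg_sq (D.c p) ▸ (hw p (Nat.prime_of_mem_primeFactors hp)
      ((Nat.dvd_of_mem_primeFactors hp).mul_left _)).1
  · rw [← G5.alm_phi D.par ht hz, act_of]

end Pool.Agent.B6.B7.Dn

namespace Pool.Agent.G7

open Pool.Agent.Lib.MP_696deb_nt Pool.Agent.Lib.MP_696deb_nt.B2 Pool.Agent.Lib.MP_696deb_nt.B2.CM
open Pool.Agent.B6.B7 Pool.Agent.B6.B7.Dn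
open Pool.Agent.Lib.MP_696deb_nt.B3.CM (th)

theorem cj_stmt : CJStmt := by
  intro W N n D f b ρ T hg h3 hw hf hfn hb h4 hr hT
  have i0 := finite_Pc hg.mod4 h3
  let i1 : Fintype (Pc n (cnd f)) := Fintype.ofFinite _
  have sq : Squarefree (f * b) := squarefree_mul_iff.2 ⟨(hfn.of_isCoprime_of_dvd_right hb).isRelPrime,
    hf, (Int.squarefree_natCast.2 hg.sqf).squarefree_of_dvd hb⟩
  have bN : IsCoprime b N := (Nat.isCoprime_iff_coprime.2 hg.cop).of_isCoprime_of_dvd_left hb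
  obtain ⟨c1, c2, c3⟩ := cnd_div sq h4 hb
  have ok : OkD N n (cnd f) ρ := ⟨⟨hg.mod4, h3, cnd_ne hf⟩, hr, hg.cop⟩
  have q1 : Odd (lvQ N f) := hg.lodd.of_dvd_nat lvQ_dvd
  have q2 : IsCoprime (lvQ N f : ℤ) (4 * (f * b)) := IsCoprime.mul_right
    (Nat.isCoprime_iff_coprime.2 ((Nat.coprime_two_right.2 q1).pow_right 2))
    (lvQ_mul bN ▸ lvQ_cop (d := f * b))
  have q3 : (cnd f).Coprime (lvQ N f) := Nat.coprime_of_dvd fun p hp k k' =>
    (Nat.prime_iff_prime_int.1 hp).not_isUnit (lvQ_cop.isUnit_of_dvd'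
      (Int.natCast_dvd_natCast.2 k') ((B3.odd_dvd_cond hf (q1.of_dvd_nat k')).1 k))
  have q4 : N.gcd f.natAbs ∣ cnd f :=
    (Nat.gcd_dvd_right _ _).trans (Int.dvd_natCast.1 (B3.dvd_cond hf))
  have e1 : (f * b).sign * rootNo D.c N (f * b) =
      -(∏ p ∈ (lvQ N f).primeFactors, -D.c p) * B3.kro (f * b) (lvQ N f) := by
    rw [rootNo, ← mul_assoc, ← Int.sign_mul, Int.sign_eq_one_of_pos (mul_self_pos.2 sq.ne_zero), one_mul, rt0_eq, lvS_mul bN,
      lvQ_mul bN, lvQ_pf, B3.kro_odd sq q1]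
  rw [e1, ← link_yD D.par ok hg.sqf sq c1 c2 c3 hT]
  exact conj_al D hw hg.lsq (gcd_mul_lvQ hg.lsq f) ok q4 q3 _ fun C e k =>
    th_kro ok.toOk sq c1 c2 e (by have := lvQ_ne (N := N) (d := f); omega) k q2

end Pool.Agent.G7
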