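import Pool.Agent.Lib.MP_696deb_nt.B7.CMd

/-! Weighted traces of families of points indexed by ring class groups. -/

set_option autoImplicit false

open scoped Classical NumberTheorySymbols

namespace Pool.Agent.B6.B7.Dn

open Pool.Agent.Lib.MP_696deb_nt Pool.Agent.Lib.MP_696deb_nt.B2 Pool.Agent.Lib.MP_696deb_nt.B2.CM
open Pool.Agent.Lib.MP_696deb_nt.B3.CM (fs fs_fs fs_congr map_fs fs_mul fs_sub fs_cart fs_self
  Gd th ind ind_neg two_ind m2 dvd_two inert_two fs_const_inert fs_const_up)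
open Pool.Agent.B6.CM (yA not_dvd_prod units_eq)

variable {N n c d e l m : ℕ} {r t f δ : ℤ} {g φ : Gam} {w : Plc}

theorem ok_of (ok : Ok n c) (h : d ≠ 0) : Ok n d := ⟨ok.m4, ok.gt, h⟩

theorem chi_one (g : Gam) : chi 1 g = 1 := by simpa using chi_sq 1 g

/-- The weight of the half point. -/
def w0 (t : ℤ) (a : ℤˣ) : ℤ := if t % 2 = 1 then a else ind a

/-- The coefficient of the point of lower level in the half point. -/
def k0 (t : ℤ) : ℤ := if t % 2 = 1 then 0 else -(t / 2)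

theorem half_spec (t : ℤ) : ∃ κ : ℤ, (∀ a, w0 t (-a) = -1 * w0 t a + κ) ∧ κ * t = -2 * k0 t ∧
    ((if t % 2 = 1 then 1 else 2 : ℕ) : ℤ) = 1 + κ ∧ (∀ a, (1 + κ) * w0 t a = 1 * a + κ) ∧
    (1 + κ) * k0 t = -(κ * t) := by
  unfold w0 k0
  split_ifs with h
  · exact ⟨0, by simp, by simp, rfl, by simp, by simp⟩
  · exact ⟨1, fun a => by rw [ind_neg]; ring, by omega, rfl, fun a => by
      linear_combination two_ind a, by omega⟩

variable [Cw]

/-- Twisted equivariance of a function on a quotient of the Galois group. -/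
def Gv (n : ℕ) (δ : ℤ) {C : Type} [Mul C] (ψ : Gam → C) (v : C → EE) : Prop :=
  ∀ g ∈ GK n, ∀ a, g • v a = (chi δ g : ℤ) • v (ψ g * a)

theorem Gv.tw {C : Type} [Mul C] {ψ : Gam → C} {v : C → EE} (h : Gv n δ ψ v) (hg : g ∈ GK n)
    (a : C) : tw δ g (v a) = v (ψ g * a) := by
  rw [B6.tw, h g hg, smul_smul, ← Units.val_mul, Int.units_mul_self, Units.val_one, one_smul]

theorem Gv.sh {C : Type} [CommGroup C] {ψ : Gam → C} {v : C → EE} (h : Gv n δ ψ v)
    (x : MonoidAlgebra ℤ C) : Gv n δ ψ (shA C EE x v) := fun g hg a => by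
  induction x using MonoidAlgebra.induction_linear with
  | zero => simp
  | add x y h1 h2 => simp only [map_add, LinearMap.add_apply, Pi.add_apply, smul_add, h1, h2]
  | single b k => rw [shA_single, shA_single, smul_comm g, h g hg, smul_comm, mul_left_comm]

variable [∀ c, Fintype (Pc n c)] {y y' : ∀ d, Pc n d → EE} {V : ℤˣ → ℤ} {T : EE →+ EE}

/-- Weighted traces. -/
noncomputable def wg (y : ∀ d, Pc n d → EE) (V : ℤˣ → ℤ) (f : ℤ) (c d : ℕ) (x : Pc n c) : EE :=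
  fs c d (fun z => V (th n d f z) • y d z) x

/-- The norm relation at a prime. -/
def Dw (y : ∀ d, Pc n d → EE) (l : ℕ) (T : EE →+ EE) : Prop :=
  ∀ d e, d ≠ 0 → ¬ l ∣ d → e = d * l → ∀ z, fs d e (y e) z = T (y d z)

/-- The congruence relation at a place. -/
def Kr (y : ∀ d, Pc n d → EE) (w : Plc) (φ : Gam) : Prop :=
  ∀ d e, d ≠ 0 → ¬ w.p ∣ d → e = d * w.p → ∀ z, y e z - φ • y d (pj n d e z) ∈ K1 w

theorem wg_lin (k κ : ℤ) (x : Pc n c) :
    wg y (fun a => k * V a + κ) f c d x = k • wg y V f c d x + κ • fs c d (y d) x := by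
  simp only [wg, fs, add_smul, mul_smul, Finset.smul_sum, Finset.sum_add_distrib]

theorem wg_eq (x : Pc n c) :
    wg y (↑) f c d x = fs c d (y d) x + 2 • -wg y (fun a => ind (-a)) f c d x := by
  have := wg_lin (y := y) (V := fun a => ind (-a)) (f := f) (d := d) (-2) 1 x
  simp only [add_comm _ (1 : ℤ), ← units_eq] at this
  exact this.trans (by module)

theorem wg_mem {H : AddSubgroup EE} (h : ∀ z, y d z ∈ H) (x : Pc n c) : wg y V f c d x ∈ H :=
  sum_mem fun z _ => zsmul_mem (h z) _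

theorem smul_wg (ok : Ok n d) (hc : c ∣ d) (h : Gd n d f) (hy : Gv n δ (rho n d) (y d))
    (hg : g ∈ GK n) (x : Pc n c) : g • wg y V f c d x =
      (chi δ g : ℤ) • wg y (fun a => V (chi f g * a)) f c d (rho n c g * x) := by
  rw [wg, wg, ← pj_rho ok hc, ← fs_mul, fs, fs, Finset.smul_sum, Finset.smul_sum]
  refine Finset.sum_congr rfl fun z _ => ?_
  rw [smul_comm, hy g hg, map_mul, h.th hg, ← mul_assoc, Int.units_mul_self, one_mul, smul_comm]

theorem gv_wg (ok : Ok n d) (hc : c ∣ d) (h : Gd n d f) (hy : Gv n δ (rho n d) (y d))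
    (h1 : δ ≠ 0) (h2 : f ≠ 0) : Gv n (δ * f) (rho n c) (wg y (↑) f c d) := fun g hg x => by
  have := wg_lin (y := y) (V := (↑)) (f := f) (d := d) (chi f g) 0 (rho n c g * x)
  simp only [add_zero, zero_smul, ← Units.val_mul] at this
  rw [smul_wg ok hc h hy hg, this, smul_smul, chi_mul h1 h2, Units.val_mul]

theorem Dw.wg (h : Dw y l T) (ok : Ok n m) (hG : Gd n m f) (hl : l.Prime) (hm : ¬ l ∣ m) :
    Dw (fun c => wg y V f c (c * m)) l T := by
  rintro d _ d0 hd rfl x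
  have k1 : d * m ∣ d * l * m := mul_right_comm d m l ▸ dvd_mul_right _ _
  have k2 := ok_of ok (mul_ne_zero (mul_ne_zero d0 hl.ne_zero) ok.ne)
  have k3 := hG.of_dvd (ok_of ok (mul_ne_zero d0 ok.ne)) (dvd_mul_left m d)
  refine (fs_fs (dvd_mul_right d l) (dvd_mul_right _ m) _ x).trans ?_
  beta_reduce
  rw [Dn.wg, map_fs, ← fs_fs (dvd_mul_right d m) k1]
  refine fs_congr fun z _ => ?_
  rw [map_zsmul, ← h _ _ (mul_ne_zero d0 ok.ne) (fun k => (hl.dvd_mul.1 k).elim hd hm)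
    (mul_right_comm d l m), fs, fs, Finset.smul_sum]
  refine Finset.sum_congr rfl fun u hu => ?_
  rw [k3.th_pj k2 k1, (Finset.mem_filter.1 hu).2]

theorem Kr.wg (h : Kr y w φ) (ok : Ok n m) (hG : Gd n m f) (h2 : w.p ≠ 2) (hJ : J(-n | w.p) = -1)
    (hm : ¬ w.p ∣ m) : Kr (fun c => wg y V f c (c * m)) w φ := by
  rintro d _ d0 hd rfl x
  have k0 := mul_ne_zero d0 ok.ne
  have k1 : ¬ w.p ∣ d * m := fun k => (w.prime.dvd_mul.1 k).elim hd hm
  have k2 := ok_of ok (mul_ne_zero (mul_ne_zero d0 w.prime.ne_zero) ok.ne)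
  have k3 := hG.of_dvd (ok_of ok k0) (dvd_mul_left m d)
  have he := mul_right_comm d w.p m
  beta_reduce
  rw [Dn.wg, Dn.wg, ← fs_cart (ok_of ok k0) w.prime h2 hJ k1 (dvd_mul_right d m) rfl he, fs, fs,
    Finset.smul_sum, ← Finset.sum_sub_distrib]
  refine sum_mem fun z _ => ?_
  rw [k3.th_pj k2 (he ▸ dvd_mul_right _ _), smul_comm φ, ← smul_sub]
  exact zsmul_mem (h _ _ k0 k1 he z) _

/-- Induction along a product of primes. -/
theorem dw_ind (c0 : c ≠ 0) (T : ℕ → EE →+ EE) (Q : Finset ℕ → (Pc n c → EE) → Prop)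
    (s : Finset ℕ) (hs : ∀ l ∈ s, l.Prime ∧ ¬ l ∣ c ∧ Dw y l (T l)) (h0 : Q ∅ (y c))
    (h1 : ∀ l ∈ s, ∀ t u, l ∉ t → Q t u → Q (insert l t) fun x => T l (u x)) :
    ∀ d, d = c * ∏ l ∈ s, l → Q s (fs c d (y d)) := by
  induction s using Finset.induction_on with
  | empty =>
    rintro d hd
    rw [Finset.prod_empty, mul_one] at hd
    subst hd
    rwa [funext (fs_self (y d))]
  | insert l s hl ih =>
    intro d hd
    obtain ⟨k1, k2, k3⟩ := hs l (Finset.mem_insert_self l s)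
    have hs' := fun p hp => hs p (Finset.mem_insert_of_mem hp)
    rw [Finset.prod_insert hl, mul_comm l, ← mul_assoc] at hd
    convert h1 l (Finset.mem_insert_self l s) s _ hl
      (ih hs' (fun p hp => h1 p (Finset.mem_insert_of_mem hp)) _ rfl) with x
    rw [← fs_fs (dvd_mul_right c _) (hd ▸ dvd_mul_right _ l), map_fs]
    exact fs_congr fun z _ => k3 _ _ (mul_ne_zero c0 (Finset.prod_ne_zero_iff.2 fun p hp =>
      (hs' p hp).1.ne_zero)) (not_dvd_prod k1 (fun p hp => (hs' p hp).1) hl k2) hd z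

/-- Weighted traces compose. -/
theorem th_wg (ok : Ok n e) (hd : d ∣ e) (h : Gd n d f) (h' : Gd n e δ) (h1 : δ ≠ 0) (h2 : f ≠ 0)
    (z : Pc n d) : (th n d f z : ℤ) • wg y (↑) δ d e z = wg y (↑) (δ * f) d e z := by
  rw [wg, wg, fs, fs, Finset.smul_sum]
  refine Finset.sum_congr rfl fun u hu => ?_
  rw [th_mul ok h' (h.of_dvd ok hd) h1 h2, h.th_pj ok hd, (Finset.mem_filter.1 hu).2, smul_smul,
    Units.val_mul, mul_comm]

omit [Cw] in
theorem sum_fs {M : Type} [AddCommMonoid M] (F : Pc n d → M) : ∑ x, fs c d F x = ∑ z, F z :=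
  Finset.sum_fiberwise Finset.univ (pj n c d) F

/-- The half points. -/
noncomputable def hb (y : ∀ d, Pc n d → EE) (t δ : ℤ) (c : ℕ) (x : Pc n c) : EE :=
  wg y (w0 t) δ c (c * m2 δ) x + k0 t • y c x

theorem Dw.hb (h : Dw y l T) (ok : Ok n (m2 δ)) (hG : Gd n (m2 δ) δ) (hl : l.Prime)
    (hm : ¬ l ∣ m2 δ) : Dw (hb y t δ) l T := fun d e d0 hd he x => by
  rw [Dn.hb, map_add, map_zsmul, ← h d e d0 hd he, ← h.wg ok hG hl hm d e d0 hd he]
  simp only [fs, Dn.hb, Finset.sum_add_distrib, Finset.smul_sum]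

theorem Kr.hb (h : Kr y w φ) (ok : Ok n (m2 δ)) (hG : Gd n (m2 δ) δ) (h2 : w.p ≠ 2)
    (hJ : J(-n | w.p) = -1) (hm : ¬ w.p ∣ m2 δ) : Kr (hb y t δ) w φ := fun d e d0 hd he x => by
  rw [Dn.hb, Dn.hb, smul_add, smul_comm φ, add_sub_add_comm, ← smul_sub]
  exact add_mem (h.wg ok hG h2 hJ hm d e d0 hd he x) (zsmul_mem (h d e d0 hd he x) _)

theorem gv_hb (ok : Ok n (c * m2 δ)) (hG : Gd n (c * m2 δ) δ) (h0 : Gv n 1 (rho n c) (y c))
    (h1 : Gv n 1 (rho n (c * m2 δ)) (y _)) (ht : ∀ z, fs c (c * m2 δ) (y _) z = t • y c z) :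
    Gv n δ (rho n c) (hb y t δ c) := fun g hg x => by
  obtain ⟨κ, k1, k2, -⟩ := half_spec t
  rw [hb, hb, smul_add, smul_comm g, smul_wg ok (dvd_mul_right _ _) hG h1 hg, h0 g hg, chi_one,
    Units.val_one, one_smul, one_smul]
  rcases Int.units_eq_one_or (chi δ g) with k | k <;> rw [k]
  · simp only [one_mul, Units.val_one, one_smul]
  · simp only [neg_one_mul (α := ℤˣ), k1]
    rw [wg_lin, ht, smul_smul, k2, Units.val_neg, Units.val_one]
    module

theorem ix_hb (ht : ∀ z, fs c (c * m2 δ) (y _) z = t • y c z) (x : Pc n c) :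
    (if t % 2 = 1 then 1 else 2 : ℕ) • hb y t δ c x = wg y (↑) δ c (c * m2 δ) x := by
  obtain ⟨κ, -, -, k1, k2, k3⟩ := half_spec t
  have e1 := wg_lin (y := y) (V := w0 t) (f := δ) (d := c * m2 δ) (1 + κ) 0 x
  simp only [add_zero, zero_smul, k2] at e1
  rw [← natCast_zsmul, k1, hb, smul_add, ← e1, wg_lin, ht, smul_smul, smul_smul, k3]
  module

variable {P : B4.GE.Par Wu N} (G : B4.GE.Geo P)
include G

omit [∀ c, Fintype (Pc n c)] in
theorem gv_yA (ok : OkD N n c r) : Gv n 1 (rho n c) (yA P n c r) := fun g hg x => by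
  rw [smul_yA G ok hg, chi_one, Units.val_one, one_smul]

/-- The traces from the conductors four and eight. -/
theorem two_rel (ok : OkD N n c r) (hN : ¬ 2 ∣ N) (h8 : n % 8 = 3) (hc : ¬ 2 ∣ c) (h : δ ∣ 2)
    (hd : d = c * m2 δ) (z : Pc n c) :
    fs c d (yA P n d r) z = tf (P.a 2) δ • yA P n c r z := by
  have p2 := Nat.prime_two
  have ok1 := ok.of_ne (mul_ne_zero ok.ne two_ne_zero)
  have ok2 := ok.of_ne (mul_ne_zero ok1.ne two_ne_zero)
  have ok3 := ok.of_ne (mul_ne_zero ok2.ne two_ne_zero)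
  have k1 := dvd_mul_right c 2
  have k2 := dvd_mul_right (c * 2) 2
  have k3 := dvd_mul_right (c * 2 * 2) 2
  have hs : ∀ {c d : ℕ} (k : ℤ) (F : Pc n d → EE) (x : Pc n c),
      fs c d (fun z => k • F z) x = k • fs c d F x := fun k F x => Finset.smul_sum.symm
  have s1 := trA_inert G ok1 p2 hN rfl (inert_two h8) hc z
  have s2 : fs c (c * 2 * 2) (yA P n _ r) z = (P.a 2 ^ 2 - 3) • yA P n c r z := by
    rw [← fs_fs k1 k2, fs_congr (G := fun x => P.a 2 • yA P n _ r x - yA P n c r z) fun x hx => by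
      rw [trA_up G ok2 p2 hN rfl rfl, hx], fs_sub, hs, s1,
      fs_const_inert ok.toOk p2 rfl (inert_two h8) hc]
    module
  have s3 : fs c (c * 2 * 2 * 2) (yA P n _ r) z = (P.a 2 ^ 3 - 5 * P.a 2) • yA P n c r z := by
    rw [← fs_fs (k1.trans k2) k3, fs_congr fun x _ => trA_up G ok3 p2 hN rfl rfl x, fs_sub, hs, s2,
      ← fs_fs k1 k2, fs_congr (G := fun x => (2 : ℤ) • yA P n _ r x) fun x _ =>
        (fs_congr fun u hu => by rw [hu]).trans ((fs_const_up ok.toOk p2 rfl rfl x _).trans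
          (natCast_zsmul _ _).symm), hs, s1]
    module
  rcases dvd_two h with rfl | rfl | rfl | rfl
  · obtain rfl : d = c := hd.trans (mul_one c)
    exact (fs_self _ z).trans (one_smul ℤ _).symm
  · obtain rfl : d = c * 2 * 2 := hd.trans (mul_assoc c 2 2).symm
    exact s2
  · obtain rfl : d = c * 2 * 2 * 2 := hd.trans (show c * 8 = _ by ring)
    exact s3
  · obtain rfl : d = c * 2 * 2 * 2 := hd.trans (show c * 8 = _ by ring)
    exact s3

end Pool.Agent.B6.B7.Dn
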