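import Pool.Agent.Lib.MP_696deb_nt.B5.CNf
import Pool.Agent.Lib.MP_696deb_nt.B5.LGb

/-! The counts of conductor one, orientation by orientation. -/

set_option autoImplicit false

open Finset NumberTheorySymbols
open scoped Classical

namespace Pool.Agent.G7

open Pool.Agent.Lib.MP_696deb_nt Pool.Agent.G5 Pool.Agent.G5.CN

variable {N A B : ℕ} {D E β ρ ρ' t : ℤ} {T : Finset Fm}

theorem one_cntL (hn : G5.Good N (A * B)) {M : ℕ} (h0 : 0 < M) (hD : (A : ℤ) ∣ D)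
    (hM : t ^ 2 - B ^ 2 * D = 4 * N * M) :
    cntL B (Ico (0 : ℤ) B) (fun k => J(k | B)) (G5.wG N A D β) t =
      if 2 * (N : ℤ) ∣ t - B * β then 2 * (J(-N | B) * J(N | A)) * G5.CF N (A * B) B t M
        else 0 := by
  split_ifs with h
  swap
  · exact sum_eq_zero fun k _ => mul_eq_zero_of_right _ (finsum_eq_zero_of_forall_eq_zero fun R =>
      ite_eq_right_iff.mpr fun h3 => by rw [wG_eq_zero h h3, zero_mul])
  have h1 := sum_lines (K := ℤ) (A := B) (B := A) hn.comm hD hM.symm (by omega)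
    h fun a _ => a.sign
  have h2 := sum_muW (A := B) (B := A) (t := t) (M := M) hn.comm ⟨D, by linarith⟩
  rw [Int.divisorsAntidiag_natCast, sum_disjUnion, sum_map, sum_map, ← sum_add_distrib,
    sum_congr rfl (g := fun z : ℕ × ℕ => 2 * muW N B A t z.1 z.2) fun z hz => by
      have : (0 : ℤ) < z.1 := mod_cast Nat.pos_of_mem_divisors
        (Nat.fst_mem_divisors_of_mem_antidiagonal hz)
      simp [gza_neg_neg hn, Int.sign_eq_one_of_pos this, two_mul], ← mul_sum, h2,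
    mul_comm B A] at h1
  rw [cntL, sum_Ico0]
  refine Eq.trans (sum_congr rfl fun k _ => congr_arg _ (finsum_congr fun R => ?_))
    (h1.trans (by ring))
  by_cases h3 : G5.wG N A D β R = 0
  · simp [h3]
  obtain ⟨a, ha⟩ := (of_wG h3).1
  have h4 : (0 : ℤ) < N := mod_cast hn.lsq.ne_zero.bot_lt
  simp [ha, Int.sign_mul, Int.sign_eq_one_of_pos h4, Int.mul_ediv_cancel_left _ h4.ne']

/-- The counts for trivial conductor. -/
theorem one_cnt (hn : G5.Good N (A * B)) (n3 : A * B ≠ 3)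
    (hρ : 4 * (N : ℤ) ∣ ρ ^ 2 + (A * B : ℕ)) (h : 2 * (N : ℤ) ∣ B * β - ρ * ρ')
    (hT : G5.FReps N (-(A * B : ℕ)) ρ T) (hD : (A : ℤ) ∣ D) (hE : (B : ℤ) ∣ E)
    (he : -(A * B : ℕ) * E = B ^ 2 * D) (ht : B ^ 2 * D < t ^ 2) :
    cntL B (Ico (0 : ℤ) B) (fun k => J(k | B)) (G5.wG N A D β) t =
      J(-N | B) * J(N | A) * (2 * cntP T (gch B) (G5.wG N B E ρ') t) := by
  have N0 : (0 : ℤ) < N := by exact_mod_cast hn.lodd.pos
  by_cases h2 : 4 * (N : ℤ) ∣ t ^ 2 - B ^ 2 * D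
  swap
  · have k1 : cntP T (gch B) (G5.wG N B E ρ') t = 0 := sum_eq_zero fun Q hQ =>
      mul_eq_zero_of_right _ (finsum_eq_zero_of_forall_eq_zero fun R => ite_eq_right_iff.mpr
        fun h3 => if_neg fun h4 => h2 (by rw [← he, ← h3]; exact fam_fbil2 (hT.fam Q hQ) h4))
    rw [k1, mul_zero, mul_zero]
    exact sum_eq_zero fun k _ => mul_eq_zero_of_right _ (finsum_eq_zero_of_forall_eq_zero fun R =>
      ite_eq_right_iff.mpr fun h3 => mul_eq_zero_of_left (if_neg fun ⟨⟨a, ha⟩, h5, _⟩ =>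
        h2 ⟨a * fval R k B, by rw [← h3, ← h5, fbil_line, ha]; ring⟩) _)
  obtain ⟨M, hM⟩ := h2
  have h3 : 0 < M := pos_of_mul_pos_right (hM ▸ sub_pos.2 ht) (by omega)
  lift M to ℕ using h3.le
  replace h3 : 0 < M := by omega
  have h4 : 2 * (N : ℤ) ∣ t - B * β ↔ 2 * (N : ℤ) ∣ t - ρ * ρ' := by
    rw [show t - ρ * ρ' = t - B * β + (B * β - ρ * ρ') by ring, dvd_add_left h]
  rw [one_cntL hn h3 hD hM, cntP_eq hn n3 (dvd_mul_left B A) hρ hT hE h3 (by linarith),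
    if_congr h4 rfl rfl]
  split_ifs <;> ring

/-- The divisors of the level are in the principal genus up to the sign of one factor. -/
theorem jac_two (hn : G5.Good N (A * B)) (hρ : 4 * (N : ℤ) ∣ ρ ^ 2 + (A * B : ℕ)) {l : ℕ}
    (hl : l ∣ N) : J(l | A) * J(l | B) = 1 := by
  have h := LG.jac_lev hn hρ hl
  rwa [jacobiSym.mul_right' _ hn.sqf.of_mul_left.ne_zero hn.sqf.of_mul_right.ne_zero] at h

end Pool.Agent.G7
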