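import Pool.Agent.Lib.MP_696deb_nt.B7.CN7t
import Pool.Agent.Lib.MP_696deb_nt.B7.CN7q
import Pool.Agent.Lib.MP_696deb_nt.B7.Z1
import Pool.Agent.Lib.MP_696deb_nt.B7.CN7a

/-! The genus character on forms, and the counts as sums over classes of pairs. -/

set_option autoImplicit false

open scoped Classical
open Finset NumberTheorySymbols

namespace Pool.Agent.G7.Cu

open Pool.Agent.Lib.MP_696deb_nt
open Pool.Agent.Lib.MP_696deb_nt.B3 (kro chi2 odp cond2 PChr pchr_chi2 pchr_kro)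

variable {N A : ℕ} {d f b u v l x y k m D ρ E β t : ℤ} {Q R : Fm} {T : Finset Fm}

/-- The character of `d` is a genus character on the forms of discriminant `D`. -/
structure Gn (d D : ℤ) : Prop where
  sqf : Squarefree d
  two : (cond2 d : ℤ) ^ 2 ∣ D
  odd : (odp d : ℤ) ∣ D

theorem chi2_eq (hu : ¬ 2 ∣ u) (hv : ¬ 2 ∣ v) (h : (cond2 d : ℤ) ^ 2 ∣ 4 * (u * v) - l ^ 2) :
    chi2 d u = chi2 d v := by
  have sq : ∀ x : ℤ, ¬ 2 ∣ x → ∃ j, x ^ 2 = 8 * j + 1 := fun x hx => by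
    obtain ⟨y, rfl⟩ : ∃ y, x = 2 * y + 1 := ⟨x / 2, by omega⟩
    obtain ⟨j, hj⟩ := Int.even_mul_succ_self y
    exact ⟨j, by linear_combination 4 * hj⟩
  have key : ∀ N : ℤ, N = 1 ∨ N = 2 → (4 * N) ^ 2 ∣ 4 * (u * v) - l ^ 2 → 4 * N ∣ u - v :=
    fun N hN ⟨t, ht⟩ => by
    have h1 : 2 ∣ l := Int.prime_two.dvd_of_dvd_pow (n := 2)
      ⟨2 * (u * v) - 8 * N ^ 2 * t, by linear_combination -ht⟩
    obtain ⟨l, rfl⟩ := h1
    have h2 : u * v = l ^ 2 + 4 * (N ^ 2 * t) := by linarith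
    have h3 : ¬ 2 ∣ l := fun k => (Int.prime_two.dvd_or_dvd (a := u) (b := v)
      (h2 ▸ dvd_add (dvd_pow k two_ne_zero) (Dvd.dvd.mul_right (by norm_num) _))).elim hu hv
    obtain ⟨i, hi⟩ := sq l h3
    obtain ⟨j, hj⟩ := sq v hv
    rcases hN with rfl | rfl
    · exact ⟨2 * (v * i - u * j) + v * t, by linear_combination v * h2 + v * hi - u * hj⟩
    · exact ⟨v * i - u * j + 2 * v * t, by linear_combination v * h2 + v * hi - u * hj⟩
  refine (pchr_chi2 d).per _ _ ?_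
  unfold cond2 at h ⊢
  split_ifs at h ⊢
  exacts [one_dvd _, key 1 (.inl rfl) h, key 2 (.inr rfl) h]

theorem two_dvd (h : d % 4 ≠ 1) : (2 : ℤ) ∣ cond2 d := by
  unfold cond2
  split_ifs <;> first | contradiction | norm_num

theorem chi2_even (h : d % 4 ≠ 1) (hv : 2 ∣ v) : chi2 d v = 0 := (pchr_chi2 d).zero _ fun k =>
  Int.prime_two.not_isUnit (k.isUnit_of_dvd' hv (two_dvd h))

theorem g2_fval (h4 : d % 4 ≠ 1) (hd : (cond2 d : ℤ) ^ 2 ∣ fdisc R) (h : ¬ 2 ∣ fval R x y) :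
    chi2 d (if 2 ∣ R.1 then R.2.2 else R.1) = chi2 d (fval R x y) := by
  split_ifs with h1
  · have hb : 2 ∣ R.2.1 := Int.prime_two.dvd_of_dvd_pow (n := 2) (by
      have := ((dvd_pow (two_dvd h4) two_ne_zero).trans hd).add ((h1.mul_left 4).mul_right R.2.2)
      simpa [fdisc] using this)
    have hc : ¬ 2 ∣ R.2.2 := fun hc =>
      h (((h1.mul_right _).add ((hb.mul_right _).mul_right _)).add (hc.mul_right _))
    refine chi2_eq hc h (l := 2 * R.2.2 * y + R.2.1 * x) ?_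
    exact hd.trans ⟨-x ^ 2, by simp only [fdisc, fval]; ring⟩
  · refine chi2_eq h1 h (l := 2 * R.1 * x + R.2.1 * y) ?_
    exact hd.trans ⟨-y ^ 2, by simp only [fdisc, fval]; ring⟩

theorem g2_zero (h4 : d % 4 ≠ 1) (h : ∀ x y, 2 ∣ fval R x y) :
    chi2 d (if 2 ∣ R.1 then R.2.2 else R.1) = 0 := by
  rw [if_pos (by simpa [fval] using h 1 0), chi2_even h4 (by simpa [fval] using h 0 1)]

theorem gD_fmap (h : Gn d (fdisc Q)) {a b c e : ℤ} (k : a * e - b * c = 1) :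
    gD d (fmap Q a b c e) = gD d Q := by
  rw [gD, gD, gch_fmap (B3.odp_odd h.sqf) h.odd k]
  congr 1
  by_cases h4 : d % 4 = 1
  · simp only [chi2, if_pos h4]
  by_cases h1 : ∀ x y, 2 ∣ fval (fmap Q a b c e) x y
  · rw [g2_zero h4 h1, g2_zero h4 fun x y => by
      simpa only [fval_fmap, show a * (e * x - b * y) + b * (a * y - c * x) = x by
        linear_combination x * k, show c * (e * x - b * y) + e * (a * y - c * x) = y by
        linear_combination y * k] using h1 (e * x - b * y) (a * y - c * x)]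
  push Not at h1
  obtain ⟨x, y, h1⟩ := h1
  rw [g2_fval h4 ((fdisc_fmap k Q).symm ▸ h.two) h1, fval_fmap, g2_fval h4 h.two (fval_fmap .. ▸ h1)]

theorem gD_feq (h : Gn d (fdisc Q)) (k : G5.FEq N Q R) : gD d R = gD d Q := by
  obtain ⟨a, b, c, e, k, rfl⟩ := k
  exact gD_fmap h k

theorem gU_feq (hN : N ≠ 0) (h : Gn d (fdisc Q)) (hQ : (N : ℤ) ∣ Q.1) (k : G5.FEq N Q R) :
    gU N d R = gU N d Q := by
  obtain ⟨a, b, c, e, k, rfl⟩ := k
  rw [gU, gU, fV_fmap hN hQ]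
  exact gD_fmap ((fdisc_fV hN hQ).symm ▸ h) (by linear_combination k)

theorem chi2_mul (h4 : b % 4 = 1) (f : ℤ) : chi2 (f * b) = chi2 f ∧ cond2 (f * b) = cond2 f := by
  obtain ⟨c, rfl⟩ : ∃ c, b = 4 * c + 1 := ⟨b / 4, by omega⟩
  have e1 : f * (4 * c + 1) % 4 = f % 4 := by rw [mul_add, mul_left_comm]; omega
  have e2 : f % 4 ≠ 1 → f % 4 ≠ 3 → f * (4 * c + 1) % 8 = f % 8 := fun h1 h3 => by
    obtain ⟨g, rfl⟩ : 2 ∣ f := by omega
    rw [show 2 * g * (4 * c + 1) = 8 * (g * c) + 2 * g by ring]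
    omega
  refine ⟨funext fun k => ?_, by simp only [cond2, e1]⟩
  simp only [chi2, e1]
  split_ifs with h1 h3 <;> first | rfl | (rw [e2 h1 h3] at *; contradiction)

theorem odp_mul (h4 : b % 4 = 1) (f : ℤ) : odp (f * b) = odp f * b.natAbs := by
  have e1 : f * b % 2 = f % 2 := by
    rw [Int.mul_emod, show b % 2 = 1 by omega, mul_one, Int.emod_emod]
  rw [odp, odp, e1, Int.natAbs_mul]
  split_ifs with h
  · rfl
  · exact (Nat.div_mul_right_comm (by omega) _).symm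

theorem gD_mul (h : Squarefree (f * b)) (h4 : b % 4 = 1) (Q : Fm) :
    gD (f * b) Q = gD f Q * gch b.natAbs Q := by
  have := B3.odp_sqf h
  rw [odp_mul h4] at this
  rw [gD, gD, (chi2_mul h4 f).1, odp_mul h4, G5.gch_mul (Nat.coprime_of_squarefree_mul this),
    mul_assoc]

theorem gn_mul (h : Squarefree (f * b)) (h4 : b % 4 = 1) (k : b * cnd f ^ 2 ∣ D) : Gn (f * b) D := by
  refine ⟨h, Dvd.dvd.trans ?_ k, Dvd.dvd.trans ?_ k⟩
  · rw [(chi2_mul h4 f).2, cnd, B3.cond]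
    push_cast
    exact ⟨b * odp f ^ 2, by ring⟩
  · rw [odp_mul h4, cnd, B3.cond, Nat.cast_mul, mul_comm]
    push_cast
    exact mul_dvd_mul ((abs_dvd _ _).2 dvd_rfl) ⟨cond2 f ^ 2 * odp f, by ring⟩

theorem gD_neg (h : Squarefree d) (Q : Fm) : gD d (-Q) = d.sign * gD d Q := by
  have h2 : gch (odp d) (-Q) = J(-1 | odp d) * gch (odp d) Q := by
    rw [gch, gch, jac_eq_prod _ (B3.odp_sqf h), ← prod_mul_distrib]
    refine prod_congr rfl fun p _ => ?_
    simp only [Prod.fst_neg, Prod.snd_neg, dvd_neg]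
    split_ifs <;> rw [← jacobiSym.mul_left, neg_one_mul]
  rw [gD, gD, h2, ← B3.kro_neg_one h, kro, mul_mul_mul_comm, ← (pchr_chi2 d).mul]
  simp only [Prod.fst_neg, Prod.snd_neg, dvd_neg]
  split_ifs <;> rw [neg_one_mul]

theorem gD_line (h : Squarefree d) (C k : ℤ) : gD d (0, C, -k) = d.sign * kro d k := by
  rw [← B3.kro_neg_one h, ← (pchr_kro h).mul, neg_one_mul, gD, if_pos (dvd_zero _), kro,
    jac_eq_prod _ (B3.odp_sqf h)]
  exact congrArg _ (prod_congr rfl fun p _ => if_pos (dvd_zero _))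

theorem gD_cop (h : Squarefree d) (ho : Odd N) (hQ : (N : ℤ) ∣ Q.1) (k : gD d Q ≠ 0) :
    IsCoprime Q.2.2 ((cnd d).gcd N : ℕ) := by
  refine Int.isCoprime_iff_gcd_eq_one.2 (Nat.eq_one_iff_not_exists_prime_dvd.2 fun p hp j => ?_)
  replace j := Int.natCast_dvd_natCast.2 j
  have j' := Int.natCast_dvd_natCast.1 (j.trans (Int.gcd_dvd_right _ _))
  have j1 := j'.trans (Nat.gcd_dvd_right _ _)
  have j2 : p ∣ odp d := (hp.dvd_mul.1 (j'.trans (Nat.gcd_dvd_left _ _))).resolve_left fun e => by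
    have := (ho.of_dvd_nat j1).not_two_dvd_nat
    refine this ((Nat.prime_dvd_prime_iff_eq hp Nat.prime_two).1
      (hp.dvd_of_dvd_pow (n := 3) (e.trans ?_)) ▸ dvd_rfl)
    unfold cond2
    split_ifs <;> norm_num
  refine right_ne_zero_of_mul k (prod_eq_zero (Nat.mem_primeFactors.2
    ⟨hp, j2, (B3.odp_sqf h).ne_zero⟩) ?_)
  rw [if_pos ((Int.natCast_dvd_natCast.2 j1).trans hQ),
    jac_zero_of_dvd hp (j.trans (Int.gcd_dvd_left _ _))]

/-- The count of pairs of a line and a geodesic. -/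
theorem pcn_cntL (hA : 0 < A) (ht : t ^ 2 ≠ A ^ 2 * E) {u w : Fm → ℤ} {χ : ℤ → ℤ} {η : ℤ}
    (hu : ∀ Q R, G5.Fam N (A ^ 2) A Q → G5.FEq N Q R → u R = u Q)
    (hw : ∀ Q R, G5.Fam N E β Q → G5.FEq N Q R → w R = w Q)
    (hs : ∀ Q, G5.Fam N (A ^ 2) A Q → u Q ≠ 0 → IsCoprime Q.2.2 (A.gcd N : ℕ))
    (hχ : ∀ k, u (0, A, -k) = η * χ k) :
    pcn N (A ^ 2) A E β t (fun Q R => u Q * w R * rsg Q R) =
      η * cntL A (Ico (0 : ℤ) A) χ (wF N w E β) t := by
  rw [pcn_lines hA ht (pinv_ptm fun Q R a b c d e h1 h2 => by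
    rw [hu Q _ h1 ⟨a, b, c, d, e, rfl⟩, hw R _ h2 ⟨a, b, c, d, e, rfl⟩,
      (cm_rsg N 1).inv Q R a b c d e h1.1 h2.1])
    fun Q R h1 h2 => hs Q h1 (left_ne_zero_of_mul (left_ne_zero_of_mul h2)), cntL, mul_sum]
  refine sum_congr rfl fun k _ => ?_
  rw [mul_finsum, mul_finsum]
  refine finsum_congr fun R => ?_
  rw [hχ, rsg, rv_one (by exact_mod_cast hA), wF]
  by_cases h1 : fbil (0, A, -k) R = t <;> by_cases h2 : G5.Fam N E β R <;> simp [h1, h2, mul_assoc]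

/-- The geodesics are reversed. -/
theorem cntL_neg (hN : N ≠ 0) (h : Squarefree d) (C : ℤ) (S : Finset ℤ) (χ : ℤ → ℤ) :
    cntL C S χ (wF N (gU N d) E (-β)) (-t) = -d.sign * cntL C S χ (wF N (gU N d) E β) t := by
  rw [cntL, cntL, mul_sum]
  refine sum_congr rfl fun k _ => ?_
  rw [mul_left_comm, mul_finsum _ (-d.sign), ← finsum_comp_equiv (Equiv.neg Fm)]
  refine congrArg _ (finsum_congr fun R => ?_)
  rw [mul_ite, mul_zero]
  refine if_congr ?_ ?_ rfl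
  · rw [show fbil (0, C, -k) (Equiv.neg Fm R) = -fbil (0, C, -k) R by simp [fbil]; ring, neg_inj]
  rw [wF, wF, ← mul_assoc, mul_ite, mul_zero, Equiv.neg_apply, Prod.fst_neg, Int.sign_neg, mul_neg,
    ← neg_mul]
  congr 1
  rw [neg_ite, neg_zero]
  refine if_ctx_congr ?_ (fun k => ?_) fun _ => rfl
  · simp only [G5.Fam, fdisc, Prod.fst_neg, Prod.snd_neg]
    exact and_congr dvd_neg (and_congr (by rw [neg_sq, mul_neg 4, neg_mul_neg])
      (by rw [← dvd_neg, neg_sub, sub_neg_eq_add, neg_add_eq_sub]))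
  · rw [gU, gU, neg_mul, ← gD_neg h]
    obtain ⟨_, y, z⟩ := R
    obtain ⟨x, rfl⟩ := k.1
    rw [Prod.neg_mk, ← mul_neg, Prod.neg_mk, G5.fV_eq hN, G5.fV_eq hN]
    simp

/-- Both orientations in the second family. -/
theorem cntP_zF (ω m : Fm → ℤ) (σ : ℤ) (hD : D < 0) (hT : G5.FReps N D ρ T) (he : E < 0)
    (ht : t ≤ 0) : cntP T m (zF N ω σ E β) t =
      cntP T m (wF N ω E β) t + σ * cntP T m (wF N ω E (-β)) t := by
  rw [cntP, cntP, cntP, mul_sum, ← sum_add_distrib]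
  refine sum_congr rfl fun Q hQ => ?_
  have h1 : fdisc Q < 0 := (hT.fam Q hQ).2.1 ▸ hD
  have h2 : ∀ β, (Function.support fun R => if fbil Q R = t then wF N ω E β R else 0).Finite :=
    fun β => (p1f_def h1 E t).subset fun R hR => by
      have h3 : fbil Q R = t := by_contra fun h => hR (if_neg h)
      exact ⟨(by_contra fun h => hR ((if_pos h3).trans (if_neg h)) : G5.Fam N E β R).2.1, h3⟩
  rw [mul_left_comm, ← mul_add, mul_finsum _ σ, ← finsum_add_distrib (h2 _)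
    ((h2 (-β)).subset fun R hR => right_ne_zero_of_mul hR)]
  refine congr_arg _ (finsum_congr fun R => ?_)
  beta_reduce
  split_ifs with h3
  swap
  · simp
  rw [zF]
  split_ifs with h4
  · rfl
  have h5 : ∀ β, wF N ω E β R = 0 := fun β =>
    if_neg fun h : G5.Fam _ _ _ _ => h4 (G5.CN.pos_fbil h1 (hT.pos Q hQ) (h.2.1 ▸ he) (h3 ▸ ht))
  rw [h5, h5, mul_zero, add_zero]

end Pool.Agent.G7.Cu
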