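import Pool.Agent.Lib.MP_696deb_nt.B7.CN7b

/-! Equal counts of pairs of points and of pairs of lines and geodesics. -/

set_option autoImplicit false

open scoped Classical
open Finset NumberTheorySymbols

namespace Pool.Agent.G7

open Pool.Agent.Lib.MP_696deb_nt Cu
open Pool.Agent.Lib.MP_696deb_nt.B3 (kro chi2 odp cond2 PChr pchr_chi2 pchr_kro)

variable {X : Dat} {ρ ρ' β t : ℤ} {m : ℕ} {T : Finset Fm}

theorem Dat.Ok.good (h : X.Ok) : G5.Good X.N (X.a.natAbs * X.b.natAbs) := h.abs_mul ▸ h.toGood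

theorem Dat.Ok.cop_c (h : X.Ok) : IsCoprime (X.c : ℤ) X.n := by
  refine Nat.isCoprime_iff_coprime.2 (Nat.Coprime.symm (Nat.coprime_of_dvd fun p hp h1 h2 => ?_))
  rcases dvd_cnd h.fs hp h2 with rfl | e
  · have := h.mod4
    omega
  · exact (Nat.prime_iff_prime_int.1 hp).not_isUnit
      (h.fcop.isUnit_of_dvd' e (Int.natCast_dvd_natCast.2 h1))

/-- The two counts, orientation by orientation. -/
theorem cn_ori (S : Steps X.N) (h : X.Ok) (hm : X.Adm m) (hρ : 4 * (X.N : ℤ) ∣ ρ ^ 2 + X.n)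
    (hβ : 2 * (X.N : ℤ) ∣ X.b.natAbs * β - ρ * ρ') (hT : G5.FReps X.N X.D (ρ * X.c) T)
    (ht : (cnd (X.f * X.b) * (cnd (X.f * X.a) * m) : ℤ) ^ 2 < t ^ 2) :
    cntL (cnd (X.f * X.b)) (Ico (0 : ℤ) (cnd (X.f * X.b))) (kro (X.f * X.b))
      (wF X.N (gU X.N (X.f * X.a)) ((cnd (X.f * X.a) * m) ^ 2) (β * X.c * m)) t =
    2 * ((X.f * X.b).sign * cntP T (gD (X.f * X.b))
      (wF X.N (gU X.N (X.f * X.b)) (X.D * m ^ 2) (ρ' * X.c * m)) t) := by
  obtain ⟨m, rfl⟩ := hm.yy_dvd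
  have m0 : (m : ℤ) ≠ 0 := by exact_mod_cast right_ne_zero_of_mul hm.ne
  have g := h.good
  have N0 := h.N0
  have c0 : (X.c : ℤ) ≠ 0 := by exact_mod_cast h.c0
  have cn := h.cop_c
  have ea := h.ca
  have eb := h.cb
  have en := h.abs_mul
  have aa := Int.natAbs_pow_two X.a
  have bb := Int.natAbs_pow_two X.b
  have ab := h.mul
  have b4 := h.b4
  have oka : ∀ {D}, X.a * X.c ^ 2 ∣ D → Gn (X.f * X.a) D := gn_mul h.sa h.a4
  have okb : ∀ {D}, X.b * X.c ^ 2 ∣ D → Gn (X.f * X.b) D := gn_mul h.sb b4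
  have sa := gD_mul h.sa h.a4
  have sb := gD_mul h.sb b4
  have tr : Trf X.N X.c (yy X.N X.f) fun Q R => gD X.f Q * gU X.N X.f R :=
    transfer_of S h.lodd h.fs
  obtain ⟨k, lam, u, s, k0, u0, -, k1, k2⟩ := tr t
  clear tr
  generalize hA : X.a.natAbs = A at *
  generalize hB : X.b.natAbs = B at *
  generalize yy X.N X.f = y at *
  have y0 : (y : ℤ) ≠ 0 := by exact_mod_cast left_ne_zero_of_mul hm.ne
  obtain ⟨oA, oB⟩ := Nat.odd_mul.1 g.oddn
  have sA := g.sqf.of_mul_left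
  have sB := g.sqf.of_mul_right
  have en' : (X.n : ℤ) = A * B := by rw [← en, Nat.cast_mul]
  have cA : IsCoprime (X.c : ℤ) A := (en' ▸ cn).of_mul_right_left
  have cB : IsCoprime (X.c : ℤ) B := (en' ▸ cn).of_mul_right_right
  have hρ' : 4 * (X.N : ℤ) ∣ ρ ^ 2 + (A * B : ℕ) := en ▸ hρ
  have j1 := G5.CN.gza_sq g.comm
  have j2 : J(-1 | B) ^ 2 = 1 := jacobiSym.sq_one (by simp)
  have j3 := G5.CN.gza_sq g
  have j4 : (X.f * X.b).sign ^ 2 = 1 := by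
    rw [← B3.kro_neg_one h.sb]
    exact (pchr_kro h.sb).sq isCoprime_one_left.neg_left
  have j5 : J(-X.N | B) = J(-1 | B) * J(X.N | B) := by rw [← jacobiSym.mul_left, neg_one_mul]
  obtain ⟨T₀, h₀⟩ := G5.exists_freps N0 (D := -(X.n * 1 ^ 2)) (by have := h.gt; omega) ρ
  rw [ea, eb] at ht ⊢
  push_cast at ht
  have hs' : t ^ 2 ≠ B ^ 2 * X.c ^ 2 * (A ^ 2 * m ^ 2 * (X.c * y) ^ 2) := by
    convert ht.ne' using 1
    ring
  have l1 := k2 (-(X.n * 1 ^ 2)) ρ (-(X.n * m ^ 2)) (ρ' * m) _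
    ((cm_pos1 X.N _).mul (cm_gg sB oB sB oB cB cB fun p hp _ => (pow_two _).symm.trans
      (jacobiSym.sq_one (Int.isCoprime_iff_gcd_eq_one.1 (Nat.isCoprime_iff_coprime.2
        (g.cop.coprime_mul_left.coprime_dvd_right hp).symm)))))
    (by have := h.mod4; omega) (by simpa using cn.symm.neg_left) (by simpa using hρ)
    (.inl (by have := h.gt; omega)) (by rw [en']; convert hs' using 1; ring)
  have l2 := k2 (B ^ 2) B (A ^ 2 * m ^ 2) (β * m) _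
    ((cm_gg sB oB sA oA cB cA fun p hp _ => (mul_comm _ _).trans (jac_two g hρ' hp)).mul
      (cm_rsg X.N _))
    (by rw [bb, sq, Int.mul_emod, b4]; rfl) cB.symm.pow_left (by simp) (.inr ⟨B, pow_two _⟩) hs'
  have nB : (B : ℤ) ∣ X.n := en' ▸ dvd_mul_left _ _
  have e1 : -(X.n * 1 ^ 2 : ℤ) * X.c ^ 2 = X.D := by rw [Dat.D]; ring
  have e2 : -(X.n * m ^ 2 : ℤ) * (X.c * y) ^ 2 = X.D * (y * m : ℕ) ^ 2 := by
    rw [Dat.D]; push_cast; ring
  have e3 : ∀ r : ℤ, r * m * (X.c * y) = r * X.c * (y * m : ℕ) := fun r => by push_cast; ring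
  have e4 : (B : ℤ) ^ 2 * X.c ^ 2 = (X.c * B : ℕ) ^ 2 := by push_cast; ring
  have e5 : (A : ℤ) ^ 2 * m ^ 2 * (X.c * y) ^ 2 = ((X.c * A : ℕ) * (y * m : ℕ)) ^ 2 := by
    push_cast; ring
  have d1 : X.b * X.c ^ 2 ∣ X.D := ⟨X.a, by rw [Dat.D]; linear_combination -X.c ^ 2 * ab⟩
  have d2 : (B : ℤ) ∣ X.D := (nB.mul_right _).neg_right
  rw [e1, e2, e3, pcn_congr (W' := fun Q R => J(X.N | B) *
      (ipos Q * (gD (X.f * X.b) Q * gU X.N (X.f * X.b) R))) fun Q R hQ hR _ => ?_, pcn_mul,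
    pcn_cntP (D := X.D) h.sqf h.gt c0 rfl hT (fun Q R k => gD_feq (k.2.1 ▸ okb d1))
      fun Q R k => gU_feq N0 (k.2.1 ▸ okb (d1.mul_right _)) k.1,
    pcn_congr (W' := fun Q R => ipos Q * (gch B Q * gch B R)) fun Q R hQ hR _ => ?_,
    pcn_cntP h.sqf h.gt one_ne_zero rfl h₀
      (fun Q R k l => l.gch oB (k.2.1 ▸ (nB.mul_right _).neg_right))
      fun Q R k l => l.gch oB (k.2.1 ▸ ((nB.mul_right _).neg_right).mul_right _)] at l1
  rotate_left
  · rw [gg, if_pos ⟨hQ.2.1 ▸ (nB.mul_right _).neg_right,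
      hR.2.1 ▸ ((nB.mul_right _).neg_right).mul_right _⟩]
  · beta_reduce
    rw [gg, if_pos ⟨hQ.2.1 ▸ d2, hR.2.1 ▸ d2.mul_right _⟩, gU, gU, sb, sb,
      G5.gch_fV N0 sB oB g.cop.coprime_mul_left (hR.2.1 ▸ d2.mul_right _) hR.1]
    linear_combination -(gD X.f Q * gD X.f (G5.fV X.N R) * ipos Q * gch B Q * gch B R) * j1
  have cB0 : 0 < X.c * B := Nat.mul_pos (Nat.pos_of_ne_zero h.c0) oB.pos
  rw [e4, e5, e3, mul_comm (B : ℤ), ← Nat.cast_mul, pcn_congr (W' := fun Q R => J(X.N | A) *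
      (gD (X.f * X.b) Q * gU X.N (X.f * X.a) R * rsg Q R)) fun Q R hQ hR _ => ?_, pcn_mul,
    pcn_cntL cB0 (by rw [← e4, ← e5]; exact hs')
      (fun Q R k => gD_feq (k.2.1 ▸ okb ⟨X.b, by rw [← e4, bb]; ring⟩))
      (fun Q R k => gU_feq N0 (k.2.1 ▸ oka ⟨X.a * (y * m) ^ 2, by rw [← e5, aa]; ring⟩) k.1)
      (fun Q k l => eb ▸ gD_cop h.sb h.lodd k.1 l) (gD_line h.sb _),
    pcn_congr (W' := fun Q R => gch B Q * gch A R * rsg Q R) fun Q R hQ hR _ => ?_] at l2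
  rotate_left
  · rw [gg, if_pos ⟨by rw [hQ.2.1]; simp, hR.2.1 ▸ ⟨A * m ^ 2 * u ^ 2, by ring⟩⟩]
  · have d3 : (A : ℤ) ∣ fdisc R := hR.2.1 ▸ e5 ▸ ⟨A * m ^ 2 * (X.c * y) ^ 2, by ring⟩
    beta_reduce
    rw [gg, if_pos ⟨hQ.2.1 ▸ e4 ▸ ⟨B * X.c ^ 2, by ring⟩, d3⟩, gU, gU, sb, sa,
      G5.gch_fV N0 sA oA g.cop.coprime_mul_right d3 hR.1]
    linear_combination -(gD X.f Q * gD X.f (G5.fV X.N R) * rsg Q R * gch B Q * gch A R) * j3
  refine mul_left_cancel₀ k0.ne' ?_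
  change k * (_ * cntP T _ (wF X.N _ _ _) t) = lam * cntP T₀ _ (G5.wG X.N B _ _) s at l1
  generalize cntP T _ _ t = P at l1 ⊢
  generalize cntL _ _ _ _ t = L at l2 ⊢
  generalize (X.f * X.b).sign = σ at *
  by_cases l0 : lam = 0
  · rw [l0, zero_mul] at l1 l2
    linear_combination -2 * σ * J(X.N | B) * l1 + σ * J(X.N | A) * l2 +
      2 * k * σ * P * j1 - k * L * σ ^ 2 * j3 - k * L * j4
  have lt : B ^ 2 * (A ^ 2 * m ^ 2 * u ^ 2) < s ^ 2 := by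
    have p : 0 < (X.c * (X.c * y) : ℤ) ^ 2 := by positivity
    refine lt_of_mul_lt_mul_right ?_ p.le
    rw [← mul_pow s, k1 l0, mul_pow t]
    convert mul_lt_mul_of_pos_right ht (pow_pos u0 2) using 1
    ring
  rw [pcn_cntL oB.pos lt.ne' (χ := fun k => J(k | B)) (η := J(-1 | B))
    (fun Q R k l => l.gch oB (by rw [k.2.1]; simp))
    (fun Q R k l => l.gch oA (k.2.1 ▸ ⟨A * m ^ 2 * u ^ 2, by ring⟩))
    (fun Q _ _ => by rw [g.cop.coprime_mul_left]; exact isCoprime_one_right) fun k => by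
      rw [← jacobiSym.mul_left, neg_one_mul, jac_eq_prod _ sB]
      exact prod_congr rfl fun p _ => if_pos (dvd_zero _)] at l2
  change _ = lam * (_ * cntL _ _ _ (G5.wG X.N A _ _) s) at l2
  rw [one_cnt g (by have := h.gt; omega) hρ' (ρ' := ρ' * m * u) (E := -(X.n * m ^ 2) * u ^ 2)
    (T := T₀) (Dvd.dvd.trans (hβ.mul_right (m * u)) ⟨1, by ring⟩) (by simpa [en'] using h₀)
    ⟨A * m ^ 2 * u ^ 2, by ring⟩ (((nB.mul_right _).neg_right).mul_right _)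
    (by rw [en']; push_cast; ring) lt, j5] at l2
  generalize cntP T₀ _ _ s = Z at l1 l2
  linear_combination -2 * σ * J(X.N | B) * l1 + σ * J(X.N | A) * l2 +
    2 * k * σ * P * j1 - k * L * σ ^ 2 * j3 - k * L * j4 +
    2 * lam * Z * σ * J(X.N | B) * (J(X.N | A) ^ 2 * j2 + j3)

theorem cn_of (S : ∀ N : ℕ, Squarefree N → Odd N → Steps N) : CNStmt := fun X h =>
  ⟨1, .inl rfl, fun T T' m t hT hm h0 ht => by
    have S := S X.N h.lsq h.lodd
    have e : X.D * m ^ 2 < 0 := mul_neg_of_neg_of_pos h.neg (by have := hm.ne; positivity)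
    have ht' : (cnd (X.f * X.b) * (cnd (X.f * X.a) * m) : ℤ) ^ 2 < (-t) ^ 2 := by rwa [neg_sq]
    have r : 4 * (X.N : ℤ) ∣ (-X.ρ) ^ 2 + X.n := by rw [neg_sq]; exact h.root
    have hT' : G5.FReps X.N X.D (-X.ρ * X.c) T' := neg_mul X.ρ _ ▸ hT.snd
    have b := h.bet
    have k1 := cn_ori S h hm h.root (ρ' := -X.ρ') (β := X.β) (by simpa using b) hT.fst ht'
    have k2 := cn_ori S h hm r (ρ' := X.ρ') (β := X.β) (by simpa using b) hT' ht'
    have k3 := cn_ori S h hm h.root (ρ' := X.ρ') (β := -X.β)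
      (Dvd.dvd.trans b ⟨-1, by ring⟩) hT.fst ht'
    have k4 := cn_ori S h hm r (ρ' := -X.ρ') (β := -X.β)
      (Dvd.dvd.trans b ⟨-1, by ring⟩) hT' ht'
    have k5 := sum_zF (σ := (X.f * X.b).sign) (gD (X.f * X.b)) hT.fst hT.snd h.nd_ρc
      fun Q => ∑ᶠ R : Fm, if fbil Q R = -t then X.Y m R else 0
    have k6 : (X.f * X.a).sign = -(X.f * X.b).sign := by
      have := congrArg Int.sign h.mul
      rw [Int.sign_mul, Int.sign_neg, Int.sign_eq_one_of_pos (a := X.n)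
        (by have := h.gt; omega)] at this
      rw [Int.sign_mul, Int.sign_mul]
      rcases Int.eq_one_or_neg_one_of_mul_eq_neg_one' this with k | k <;> simp [k]
    have j4 : (X.f * X.b).sign ^ 2 = 1 := by
      rw [← B3.kro_neg_one h.sb]
      exact (pchr_kro h.sb).sq isCoprime_one_left.neg_left
    change cntP _ X.w _ _ = cntP T _ (X.Y m) _ + _ * cntP T' _ (X.Y m) _ at k5
    simp only [neg_mul] at k1 k3 k4
    rw [cntL_neg h.N0 h.sa, k6] at k3 k4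
    rw [k5, Dat.Y, cntP_zF _ _ _ h.neg hT.fst e (by omega), cntP_zF _ _ _ h.neg hT.snd e (by omega),
      cX, Dat.C]
    refine mul_left_cancel₀ two_ne_zero ?_
    generalize (X.f * X.b).sign = σ at *
    generalize cntL _ _ _ _ t = L at *
    generalize cntL _ _ _ _ (-t) = L' at *
    clear k5
    generalize cntP T _ (wF _ _ _ (-_)) _ = P2 at *
    generalize cntP T' _ (wF _ _ _ (-_)) _ = P4 at *
    generalize cntP T _ (wF _ _ _ _) _ = P1 at *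
    generalize cntP T' _ (wF _ _ _ _) _ = P3 at *
    linear_combination -k1 - k2 - σ * k3 - σ * k4 + (2 * L - 2 * P1) * j4⟩

end Pool.Agent.G7
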