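import Pool.Agent.Lib.MP_696deb_nt.B5.MAb

/-! Sums over the classes of pairs of forms of level `N`, and correspondences between them. -/

set_option autoImplicit false

open scoped Classical
open Finset NumberTheorySymbols

namespace Pool.Agent.G7

open Pool.Agent.Lib.MP_696deb_nt Pool.Agent.B4.GE
open Pool.Agent.G5 hiding Cx Yw Cw zs Ori

/-- The sum over the classes of pairs of forms. -/
noncomputable def orb (N : ℕ) (F : Fm × Fm → ℤ) : ℤ := ∑ᶠ x : Quot (G5.PEq N), F x.out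

/-- Only finitely many classes contribute. -/
def OFin (N : ℕ) (F : Fm × Fm → ℤ) : Prop := {x : Quot (G5.PEq N) | F x.out ≠ 0}.Finite

/-- Functions on the classes of pairs. -/
def PInv (N : ℕ) (F : Fm × Fm → ℤ) : Prop := ∀ p q, G5.PEq N p q → F q = F p

/-- The weight `W` on the pairs of two families with given bilinear form. -/
noncomputable def ptm (N : ℕ) (D ρ E β t : ℤ) (W : Fm → Fm → ℤ) (p : Fm × Fm) : ℤ :=
  if G5.Fam N D ρ p.1 ∧ G5.Fam N E β p.2 ∧ fbil p.1 p.2 = t then W p.1 p.2 else 0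

/-- The weighted number of classes of pairs. -/
noncomputable def pcn (N : ℕ) (D ρ E β t : ℤ) (W : Fm → Fm → ℤ) : ℤ := orb N (ptm N D ρ E β t W)

/-- The form `Q (p x, y)`. -/
def dnf (p : ℤ) (Q : Fm) : Fm := (p ^ 2 * Q.1, p * Q.2.1, Q.2.2)

/-- The form `Q (x, p y)`. -/
def upf (p : ℤ) (Q : Fm) : Fm := (Q.1, p * Q.2.1, p ^ 2 * Q.2.2)

/-- Weights that do not change if the conductor at a prime factor of `K` is moved. -/
structure Cm (N : ℕ) (K : ℤ) (Φ : Fm → Fm → ℤ) : Prop where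
  inv : ∀ (Q R : Fm) (a b c d : ℤ), a * d - b * (N * c) = 1 → (N : ℤ) ∣ Q.1 → (N : ℤ) ∣ R.1 →
    Φ (fmap Q a b (N * c) d) (fmap R a b (N * c) d) = Φ Q R
  tr : ∀ p : ℕ, p.Prime → (p : ℤ) ∣ K → ∀ Q R : Fm, (N : ℤ) ∣ Q.1 → (N : ℤ) ∣ R.1 →
    Φ (dnf p Q) R = Φ Q (upf p R)
  sc : ∀ p : ℕ, p.Prime → (p : ℤ) ∣ K → ¬ p ∣ N → ∀ (Q : Fm) (α β γ : ℤ), (N : ℤ) ∣ α →
    Φ Q (p ^ 2 * α, p ^ 2 * β, p ^ 2 * γ) = Φ Q (α, β, γ)
  al : ∀ p : ℕ, (p : ℤ) ∣ K → ∀ q a b c d : ℤ, AW N p q a b c d → ∀ Q R : Fm, (N : ℤ) ∣ Q.1 →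
    (N : ℤ) ∣ R.1 → Φ (G5.fW p q a b c d Q) (G5.fW p q a b c d R) = Φ Q R

/-- The conductor `c` can be removed from the first family, at the cost of the weight `w`. -/
def Trf (N c y : ℕ) (w : Fm → Fm → ℤ) : Prop := ∀ t : ℤ, ∃ k lam u t₁ : ℤ, 0 < k ∧ 0 < u ∧
  (∀ l : ℕ, l.Prime → (l : ℤ) ∣ u → l ∣ c) ∧ (lam ≠ 0 → t₁ * (c * (c * y)) = t * u) ∧
  ∀ (D ρ E β : ℤ) (Φ : Fm → Fm → ℤ), Cm N c Φ → D % 4 = 1 → IsCoprime D c →
    4 * (N : ℤ) ∣ ρ ^ 2 - D → (D < 0 ∨ IsSquare D) → t ^ 2 ≠ D * c ^ 2 * (E * (c * y) ^ 2) →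
    k * pcn N (D * c ^ 2) (ρ * c) (E * (c * y) ^ 2) (β * (c * y)) t (fun Q R => w Q R * Φ Q R) =
      lam * pcn N D ρ (E * u ^ 2) (β * u) t₁ Φ

/-- Forms with even middle coefficient that are primitive at two. -/
def Pr2 (Q : Fm) : Prop := ¬ (2 ∣ Q.1 ∧ 2 ∣ Q.2.2)

/-- The indicator of the positive definite forms. -/
def ipos (Q : Fm) : ℤ := if fdisc Q < 0 ∧ 0 < Q.1 then 1 else 0

/-- The product of two genus characters. -/
def gg (A B : ℕ) (Q R : Fm) : ℤ :=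
  if (A : ℤ) ∣ fdisc Q ∧ (B : ℤ) ∣ fdisc R then gch A Q * gch B R else 0

/-- The indicator of the forms whose isogeny of degree `p` lowers the conductor. -/
def idn (p : ℤ) (Q : Fm) : ℤ := if p ∣ Q.2.1 ∧ ¬ p ∣ Q.2.2 then 1 else 0

variable {N : ℕ} {K K' D ρ ρ' E β β' t : ℤ} {Φ Ψ W W' : Fm → Fm → ℤ}

section

variable {p : ℤ} {Q R : Fm}

theorem fmap_dnf (p : ℤ) (Q : Fm) (a b c d : ℤ) :
    fmap (dnf p Q) a b (p * c) d = dnf p (fmap Q a (p * b) c d) := by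
  simp only [dnf, fmap, fval, Prod.mk.injEq]
  refine ⟨?_, ?_, ?_⟩ <;> ring

theorem fmap_upf (p : ℤ) (Q : Fm) (a b c d : ℤ) :
    fmap (upf p Q) a (p * b) c d = upf p (fmap Q a b (p * c) d) := by
  simp only [upf, fmap, fval, Prod.mk.injEq]
  refine ⟨?_, ?_, ?_⟩ <;> ring

theorem dnf_inj (hp : p ≠ 0) (h : dnf p Q = dnf p R) : Q = R := by
  simp only [dnf, Prod.mk.injEq] at h
  exact Prod.ext (mul_left_cancel₀ (pow_ne_zero 2 hp) h.1)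
    (Prod.ext (mul_left_cancel₀ hp h.2.1) h.2.2)

theorem upf_inj (hp : p ≠ 0) (h : upf p Q = upf p R) : Q = R := by
  simp only [upf, Prod.mk.injEq] at h
  exact Prod.ext h.1 (Prod.ext (mul_left_cancel₀ hp h.2.1)
    (mul_left_cancel₀ (pow_ne_zero 2 hp) h.2.2))

theorem fdisc_dnf (p : ℤ) (Q : Fm) : fdisc (dnf p Q) = p ^ 2 * fdisc Q := by
  simp only [dnf, fdisc]
  ring

theorem fdisc_upf (p : ℤ) (Q : Fm) : fdisc (upf p Q) = p ^ 2 * fdisc Q := by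
  simp only [upf, fdisc]
  ring

theorem fbil_dnf (p : ℤ) (Q R : Fm) : fbil (dnf p Q) R = fbil Q (upf p R) := by
  simp only [dnf, upf, fbil]
  ring

theorem fbil_dnf2 (p : ℤ) (Q R : Fm) : fbil (dnf p Q) (dnf p R) = p ^ 2 * fbil Q R := by
  simp only [dnf, fbil]
  ring

theorem par_mid (Q : Fm) : 2 ∣ fdisc Q - Q.2.1 := by
  obtain ⟨k, hk⟩ := (Int.even_mul_pred_self Q.2.1).two_dvd
  exact ⟨k - 2 * Q.1 * Q.2.2, by simp only [fdisc]; linear_combination hk⟩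

end

theorem Cm.mono (h : Cm N K Φ) (k : K' ∣ K) : Cm N K' Φ :=
  ⟨h.inv, fun p hp l => h.tr p hp (l.trans k), fun p hp l => h.sc p hp (l.trans k),
    fun p l => h.al p (l.trans k)⟩

theorem Cm.mul (h : Cm N K Φ) (k : Cm N K Ψ) : Cm N K fun Q R => Φ Q R * Ψ Q R where
  inv Q R a b c d e h1 h2 := by rw [h.inv Q R a b c d e h1 h2, k.inv Q R a b c d e h1 h2]
  tr p hp l Q R h1 h2 := by rw [h.tr p hp l Q R h1 h2, k.tr p hp l Q R h1 h2]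
  sc p hp l j Q α β γ h1 := by rw [h.sc p hp l j Q α β γ h1, k.sc p hp l j Q α β γ h1]
  al p l q a b c d e Q R h1 h2 := by
    rw [h.al p l q a b c d e Q R h1 h2, k.al p l q a b c d e Q R h1 h2]

theorem fam_congr (h : 2 * (N : ℤ) ∣ ρ - ρ') {Q : Fm} : G5.Fam N D ρ Q ↔ G5.Fam N D ρ' Q :=
  and_congr_right' (and_congr_right' ⟨fun k => by simpa using k.add h,
    fun k => by simpa using k.sub h⟩)

theorem pcn_mod (h : 2 * (N : ℤ) ∣ ρ - ρ') (k : 2 * (N : ℤ) ∣ β - β') :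
    pcn N D ρ E β t W = pcn N D ρ' E β' t W := by
  unfold pcn ptm
  simp only [fam_congr h, fam_congr k]

theorem pcn_congr (h : ∀ Q R, G5.Fam N D ρ Q → G5.Fam N E β R → fbil Q R = t → W Q R = W' Q R) :
    pcn N D ρ E β t W = pcn N D ρ E β t W' :=
  congrArg (orb N) (funext fun _ => if_ctx_congr Iff.rfl (fun k => h _ _ k.1 k.2.1 k.2.2) fun _ => rfl)

theorem pcn_mul (c : ℤ) : pcn N D ρ E β t (fun Q R => c * W Q R) = c * pcn N D ρ E β t W := by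
  unfold pcn orb ptm
  rw [mul_finsum]
  exact finsum_congr fun x => by split_ifs <;> simp

theorem pcn_zero (h : ∀ Q R, G5.Fam N D ρ Q → G5.Fam N E β R → fbil Q R = t → W Q R = 0) :
    pcn N D ρ E β t W = 0 := by
  rw [pcn_congr (W' := fun Q R => 0 * W Q R) fun Q R a b c => by rw [h Q R a b c, mul_zero],
    pcn_mul, zero_mul]

theorem pinv_ptm (h : ∀ (Q R : Fm) (a b c d : ℤ), a * d - b * (N * c) = 1 → G5.Fam N D ρ Q →
    G5.Fam N E β R → W (fmap Q a b (N * c) d) (fmap R a b (N * c) d) = W Q R) :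
    PInv N (ptm N D ρ E β t W) := by
  rintro ⟨Q, R⟩ ⟨_, _⟩ ⟨a, b, c, d, e, rfl, rfl⟩
  have h1 : G5.FEq N Q (fmap Q a b (N * c) d) := ⟨a, b, c, d, e, rfl⟩
  have h2 : G5.FEq N R (fmap R a b (N * c) d) := ⟨a, b, c, d, e, rfl⟩
  refine if_ctx_congr (and_congr ⟨h1.symm.fam, h1.fam⟩ (and_congr ⟨h2.symm.fam, h2.fam⟩ ?_))
    (fun k => h Q R a b c d e k.1 k.2.1) fun _ => rfl
  rw [fbil_fmap e]

theorem Cm.pinv (h : Cm N K Φ) : PInv N (ptm N D ρ E β t Φ) :=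
  pinv_ptm fun Q R a b c d e h1 h2 => h.inv Q R a b c d e h1.1 h2.1

variable {F G : Fm × Fm → ℤ} {S : Finset Fm} {m : Fm → ℤ}

theorem peq_refl (p : Fm × Fm) : G5.PEq N p p :=
  ⟨1, 0, 0, 1, by norm_num, by simp [fmap, fval], by simp [fmap, fval]⟩

theorem mk_eq {p q : Fm × Fm} : Quot.mk (G5.PEq N) p = Quot.mk (G5.PEq N) q ↔ G5.PEq N p q := by
  rw [Quot.eq]
  exact Equivalence.eqvGen_iff ⟨peq_refl, G5.PEq.symm, G5.PEq.trans⟩

theorem out_mk (p : Fm × Fm) : G5.PEq N (Quot.mk (G5.PEq N) p).out p := mk_eq.1 (Quot.out_eq _)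

theorem eq_of_out {x : Quot (G5.PEq N)} {p : Fm × Fm} (h : G5.PEq N p x.out) : Quot.mk (G5.PEq N) p = x :=
  (mk_eq.2 h).trans (Quot.out_eq x)

/-- Two sums agree if their supports have normal forms with the same parameters. -/
theorem corr {I : Type} (u v : I → Fm × Fm) (hF : PInv N F) (hG : PInv N G)
    (h1 : ∀ p, F p ≠ 0 → ∃ i, G5.PEq N (u i) p) (h2 : ∀ q, G q ≠ 0 → ∃ i, G5.PEq N (v i) q)
    (h3 : ∀ i j, F (u i) ≠ 0 → F (u j) ≠ 0 → (G5.PEq N (u i) (u j) ↔ G5.PEq N (v i) (v j)))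
    (h4 : ∀ i, F (u i) = G (v i)) : orb N F = orb N G := by
  choose c hc using fun (x : Quot (G5.PEq N)) => h1 x.out
  have k1 : ∀ x h, F (u (c x h)) = F x.out := fun x h => (hF _ _ (hc x h)).symm
  have k2 : ∀ i, G (Quot.mk (G5.PEq N) (v i)).out = G (v i) := fun i => (hG _ _ (out_mk _)).symm
  rw [orb, orb, ← finsum_mem_support, ← finsum_mem_support fun y : Quot (G5.PEq N) => G y.out]
  refine finsum_mem_eq_of_bijOn
    (fun x => if h : F x.out ≠ 0 then Quot.mk (G5.PEq N) (v (c x h)) else x) ⟨fun x hx => ?_,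
    fun x hx y hy e => ?_, fun y hy => ?_⟩ fun x hx => ?_
  · rw [Function.mem_support] at hx ⊢
    beta_reduce
    rwa [dif_pos hx, k2, ← h4, k1]
  · rw [Function.mem_support] at hx hy
    simp only [dif_pos hx, dif_pos hy, mk_eq] at e
    rw [← h3 _ _ (k1 x hx ▸ hx) (k1 y hy ▸ hy)] at e
    exact (eq_of_out (hc x hx)).symm.trans (eq_of_out (e.trans (hc y hy)))
  · rw [Function.mem_support] at hy
    obtain ⟨j, hj⟩ := h2 _ hy
    have h5 : F (u j) ≠ 0 := by rwa [h4, ← hG _ _ hj]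
    have h6 : F (Quot.mk (G5.PEq N) (u j)).out ≠ 0 := by rwa [hF _ _ (out_mk _)] at h5
    refine ⟨_, h6, (dif_pos h6).trans (eq_of_out (G5.PEq.trans ?_ hj))⟩
    exact (h3 _ _ (k1 _ h6 ▸ h6) h5).1 ((hc _ h6).trans (out_mk _))
  · rw [Function.mem_support] at hx
    rw [dif_pos hx, k2, ← h4, k1]

theorem orb_neg (F : Fm × Fm → ℤ) : orb N (fun p => -F p) = -orb N F := finsum_neg_distrib _

theorem orb_add (hF : OFin N F) (hG : OFin N G) : orb N (fun p => F p + G p) = orb N F + orb N G :=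
  finsum_add_distrib hF hG

theorem OFin.mono (hG : OFin N G) (h : ∀ p, F p ≠ 0 → G p ≠ 0) : OFin N F :=
  hG.subset fun _ k => h _ k

theorem orb_eq_sum (hS : G5.Sys N S m) (hF : PInv N F) (hm : ∀ p, F p ≠ 0 → m p.1 ≠ 0)
    (hf : ∀ Q ∈ S, {R | F (Q, R) ≠ 0}.Finite) : orb N F = ∑ Q ∈ S, ∑ᶠ R, F (Q, R) := by
  have h1 : {p : Fm × Fm | p.1 ∈ S ∧ F p ≠ 0}.Finite :=
    (S.finite_toSet.biUnion fun Q hQ => (hf Q hQ).image (Prod.mk Q)).subset fun p hp =>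
      Set.mem_biUnion hp.1 ⟨p.2, hp.2, rfl⟩
  rw [sum_finsum_eq (F := fun Q R => F (Q, R)) (X := h1.toFinset)
    (fun p hp => (h1.mem_toFinset.1 hp).1) fun Q hQ R hR => h1.mem_toFinset.2 ⟨hQ, hR⟩, orb,
    finsum_eq_sum_of_support_subset (s := h1.toFinset.image (Quot.mk (G5.PEq N))) _ fun x hx => ?_,
    sum_image fun p hp q hq e => ?_]
  · exact sum_congr rfl fun p _ => (hF _ _ (out_mk p)).symm
  · rw [mem_coe, h1.mem_toFinset] at hp hq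
    exact hS.uniq_pair (hm _ hp.2) hp.1 hq.1 (mk_eq.1 e)
  · obtain ⟨q, h2, h3⟩ := hS.ex_pair (hm _ hx)
    exact mem_coe.2 (mem_image.2 ⟨q, h1.mem_toFinset.2 ⟨h2, hF _ _ h3 ▸ hx⟩, eq_of_out h3⟩)

variable {D ρ E β t : ℤ} {W : Fm → Fm → ℤ} {T : Finset Fm}

theorem pcn_swap (h : PInv N (ptm N D ρ E β t W)) :
    pcn N E β D ρ t (fun R Q => W Q R) = pcn N D ρ E β t W := by
  have k : ∀ p : Fm × Fm, ptm N E β D ρ t (fun R Q => W Q R) p = ptm N D ρ E β t W p.swap := fun p =>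
    if_congr (by
      rw [show fbil p.1 p.2 = fbil p.swap.1 p.swap.2 by simp only [fbil, Prod.swap]; ring]
      exact and_left_comm) rfl rfl
  exact corr id Prod.swap (fun p q e => by rw [k, k, h _ _ e.swap]) h
    (fun p _ => ⟨p, peq_refl p⟩) (fun q _ => ⟨q.swap, peq_refl q⟩)
    (fun i j _ _ => ⟨G5.PEq.swap, G5.PEq.swap⟩) k

theorem fbil_fV (hN : N ≠ 0) {Q R : Fm} (hQ : (N : ℤ) ∣ Q.1) (hR : (N : ℤ) ∣ R.1) :
    fbil (G5.fV N Q) (G5.fV N R) = fbil Q R := by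
  obtain ⟨_, b, c⟩ := Q
  obtain ⟨_, β, γ⟩ := R
  obtain ⟨a, rfl⟩ := hQ
  obtain ⟨α, rfl⟩ := hR
  simp only [G5.fV_eq hN, fbil]
  ring

theorem fV_fV (hN : N ≠ 0) {Q : Fm} (h : (N : ℤ) ∣ Q.1) : G5.fV N (G5.fV N Q) = Q := by
  obtain ⟨_, b, c⟩ := Q
  obtain ⟨a, rfl⟩ := h
  simp only [G5.fV_eq hN, neg_neg]

theorem fam_fV (hN : N ≠ 0) {Q : Fm} (h : G5.Fam N D ρ Q) : G5.Fam N D (-ρ) (G5.fV N Q) := by
  obtain ⟨_, b, c⟩ := Q
  obtain ⟨⟨a, rfl⟩, h2, h3⟩ := h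
  rw [G5.fV_eq hN]
  refine ⟨dvd_mul_right _ _, ?_, by simpa [← sub_eq_neg_add] using dvd_sub_comm.mp h3⟩
  rw [← h2]
  simp only [fdisc]
  ring

theorem fV_fmap (hN : N ≠ 0) {Q : Fm} (h : (N : ℤ) ∣ Q.1) (x y z u : ℤ) :
    G5.fV N (fmap Q x y (N * z) u) = fmap (G5.fV N Q) u (-z) (N * -y) x := by
  obtain ⟨_, b, c⟩ := Q
  obtain ⟨a, rfl⟩ := h
  have h0 : (N : ℤ) ≠ 0 := Nat.cast_ne_zero.2 hN
  simp only [G5.fV, fmap, fval, Prod.mk.injEq, mul_div_cancel_left₀ _ h0]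
  refine ⟨by ring, by ring, ?_⟩
  rw [Int.ediv_eq_iff_eq_mul_right h0 ⟨a * x ^ 2 + b * x * z + N * c * z ^ 2, by ring⟩]
  ring

theorem peq_fV (hN : N ≠ 0) {p q : Fm × Fm} (h1 : (N : ℤ) ∣ p.1.1) (h2 : (N : ℤ) ∣ p.2.1)
    (h : G5.PEq N p q) : G5.PEq N (G5.fV N p.1, G5.fV N p.2) (G5.fV N q.1, G5.fV N q.2) := by
  obtain ⟨x, y, z, u, e, k1, k2⟩ := h
  exact ⟨u, -z, -y, x, by linear_combination e, by rw [k1, fV_fmap hN h1],
    by rw [k2, fV_fmap hN h2]⟩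

theorem peq_lev {p q : Fm × Fm} (h : G5.PEq N p q) (k : (N : ℤ) ∣ p.1.1 ∧ (N : ℤ) ∣ p.2.1) :
    (N : ℤ) ∣ q.1.1 ∧ (N : ℤ) ∣ q.2.1 := by
  obtain ⟨x, y, z, u, e, k1, k2⟩ := h
  exact ⟨(G5.FEq.fam (e := fdisc _) ⟨x, y, z, u, e, k1⟩ ⟨k.1, rfl, 0, sub_self _⟩).1,
    (G5.FEq.fam (e := fdisc _) ⟨x, y, z, u, e, k2⟩ ⟨k.2, rfl, 0, sub_self _⟩).1⟩

theorem fam_fV_iff (hN : N ≠ 0) {Q : Fm} (h : (N : ℤ) ∣ Q.1) : G5.Fam N D ρ (G5.fV N Q) ↔ G5.Fam N D (-ρ) Q :=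
  ⟨fun k => fV_fV hN h ▸ fam_fV hN k, fun k => neg_neg ρ ▸ fam_fV hN k⟩

theorem ptm_fam {p : Fm × Fm} (h : ptm N D ρ E β t W p ≠ 0) :
    G5.Fam N D ρ p.1 ∧ G5.Fam N E β p.2 ∧ fbil p.1 p.2 = t := by_contra fun k => h (if_neg k)

theorem ptm_ne {p : Fm × Fm} (h : ptm N D ρ E β t W p ≠ 0) : W p.1 p.2 ≠ 0 := fun k =>
  h ((if_pos (ptm_fam h)).trans k)

theorem pcn_fV (hN : N ≠ 0) (h : PInv N (ptm N D ρ E β t W)) :
    pcn N D (-ρ) E (-β) t (fun Q R => W (G5.fV N Q) (G5.fV N R)) = pcn N D ρ E β t W := by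
  have k : ∀ p : Fm × Fm, (N : ℤ) ∣ p.1.1 → (N : ℤ) ∣ p.2.1 →
      ptm N D (-ρ) E (-β) t (fun Q R => W (G5.fV N Q) (G5.fV N R)) p = ptm N D ρ E β t W (G5.fV N p.1, G5.fV N p.2) :=
    fun p h1 h2 => if_congr (by rw [fam_fV_iff hN h1, fam_fV_iff hN h2, fbil_fV hN h1 h2]) rfl rfl
  have l : ∀ Q : Fm, (N : ℤ) ∣ (G5.fV N Q).1 := fun Q => dvd_mul_right _ _
  refine corr (I := {p : Fm × Fm // (N : ℤ) ∣ p.1.1 ∧ (N : ℤ) ∣ p.2.1}) Subtype.val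
    (fun p => (G5.fV N p.1.1, G5.fV N p.1.2)) (fun p q e => ?_) h
    (fun p hp => ⟨⟨p, (ptm_fam hp).1.1, (ptm_fam hp).2.1.1⟩, peq_refl p⟩)
    (fun q hq => ⟨⟨(G5.fV N q.1, G5.fV N q.2), l _, l _⟩, ?_⟩)
    (fun i j _ _ => ⟨peq_fV hN i.2.1 i.2.2, fun e => ?_⟩) fun i => k i.1 i.2.1 i.2.2
  · by_cases h1 : (N : ℤ) ∣ p.1.1 ∧ (N : ℤ) ∣ p.2.1
    · rw [k p h1.1 h1.2, k q (peq_lev e h1).1 (peq_lev e h1).2, h _ _ (peq_fV hN h1.1 h1.2 e)]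
    · exact (if_neg fun h2 => h1 (peq_lev e.symm ⟨h2.1.1, h2.2.1.1⟩)).trans
        (if_neg fun h2 => h1 ⟨h2.1.1, h2.2.1.1⟩).symm
  · simp only [fV_fV hN (ptm_fam hq).1.1, fV_fV hN (ptm_fam hq).2.1.1]
    exact peq_refl q
  · simpa only [fV_fV hN i.2.1, fV_fV hN i.2.2, fV_fV hN j.2.1, fV_fV hN j.2.2] using
      peq_fV hN (l _) (l _) e

theorem p1f_def {Q : Fm} (hD : fdisc Q < 0) (E t : ℤ) :
    {R : Fm | fdisc R = E ∧ fbil Q R = t}.Finite := by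
  obtain ⟨a, b, c⟩ := Q
  have ha : a ≠ 0 := fun k => by
    simp only [fdisc, k] at hD
    nlinarith [sq_nonneg b]
  refine Set.Finite.of_injOn (f := fun R : Fm => (R.1 + a * t, a * R.2.1 - b * R.1))
    (fun R ⟨h1, h2⟩ => ?_) (fun R hR S hS e => ?_)
    ((Set.finite_Icc (-(a ^ 2 * (E + t ^ 2))) (a ^ 2 * (E + t ^ 2))).prod
      (Set.finite_Icc (-(a ^ 2 * (E + t ^ 2))) (a ^ 2 * (E + t ^ 2))))
  · have h3 : (R.1 + a * t) ^ 2 + (a * R.2.1 - b * R.1) ^ 2 =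
        a ^ 2 * (E + t ^ 2) + R.1 ^ 2 * (fdisc (a, b, c) + 1) := by
      simp only [fdisc, fbil] at h1 h2 ⊢
      linear_combination a ^ 2 * h1 - 2 * a * R.1 * h2
    have h4 : R.1 ^ 2 * (fdisc (a, b, c) + 1) ≤ 0 :=
      mul_nonpos_of_nonneg_of_nonpos (sq_nonneg _) (by omega)
    have k : ∀ x : ℤ, |x| ≤ x ^ 2 := fun x => sq_abs x ▸ Int.le_self_sq |x|
    exact ⟨abs_le.1 ((k _).trans (by linarith [sq_nonneg (a * R.2.1 - b * R.1)])),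
      abs_le.1 ((k _).trans (by linarith [sq_nonneg (R.1 + a * t)]))⟩
  · obtain ⟨e1, e2⟩ := Prod.ext_iff.1 e
    have h1 : R.1 = S.1 := add_right_cancel e1
    have h2 : R.2.1 = S.2.1 := mul_left_cancel₀ ha (by linear_combination e2 + b * h1)
    have h3 := hR.2.trans hS.2.symm
    simp only [fbil, h1, h2] at h3
    exact Prod.ext h1 (Prod.ext h2 (mul_left_cancel₀ ha (by linarith)))

/-- The count of pairs of a point and a form. -/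
theorem pcn_cntP {n : ℕ} {M : ℤ} (hn : Squarefree n) (h3 : 3 < n) (hM : M ≠ 0)
    (h0 : D = -(n * M ^ 2)) (hT : G5.FReps N D ρ T) {u w : Fm → ℤ}
    (hu : ∀ Q R, G5.Fam N D ρ Q → G5.FEq N Q R → u R = u Q) (hw : ∀ Q R, G5.Fam N E β Q → G5.FEq N Q R → w R = w Q) :
    pcn N D ρ E β t (fun Q R => ipos Q * (u Q * w R)) =
      cntP T u (fun R => if G5.Fam N E β R then w R else 0) t := by
  have hD : D < 0 := by rw [h0, neg_lt_zero]; positivity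
  have k : ∀ Q R, G5.Fam N D ρ Q → G5.FEq N Q R → ipos R = ipos Q := fun Q R h e =>
    if_congr (by
      rw [(e.fam h).2.1, h.2.1]
      exact and_congr_right fun _ => ⟨e.symm.pos ((e.fam h).2.1 ▸ hD), e.pos (h.2.1 ▸ hD)⟩) rfl rfl
  have hS : G5.Sys N T fun Q => if G5.Fam N D ρ Q then ipos Q else 0 := by
    refine ⟨fun Q R e => if_ctx_congr ⟨e.symm.fam, e.fam⟩ (fun h => k Q R h e) fun _ => rfl,
      fun R hR => ?_, hT.uniq, fun Q hQ _ a b c d e k => ?_⟩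
    · have h1 : G5.Fam N D ρ R := by_contra fun h => hR (if_neg h)
      exact hT.ex R h1 (by_contra fun h => hR ((if_pos h1).trans (if_neg fun h' => h h'.2)))
    · rcases free_of_cm (g := !![a, b; N * c, d]) hn h3 hM (g0_of e).1
        ((hT.fam Q hQ).2.1.trans h0) k with h | h
      · exact ⟨congr_fun₂ h 0 1, congr_fun₂ h 1 0⟩
      · exact ⟨congr_fun₂ h 0 1, congr_fun₂ h 1 0⟩
  rw [pcn, orb_eq_sum hS (pinv_ptm fun Q R a b c d e h1 h2 => ?_) (fun p hp => ?_) fun Q hQ => ?_,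
    cntP]
  · refine sum_congr rfl fun Q hQ => ?_
    rw [mul_finsum]
    refine finsum_congr fun R => ?_
    simp only [ptm, hT.fam Q hQ, true_and, ipos, (hT.fam Q hQ).2.1, hD, hT.pos Q hQ, if_true,
      one_mul]
    by_cases h1 : G5.Fam N E β R <;> by_cases h2 : fbil Q R = t <;> simp [h1, h2]
  · rw [k Q _ h1 ⟨a, b, c, d, e, rfl⟩, hu Q _ h1 ⟨a, b, c, d, e, rfl⟩,
      hw R _ h2 ⟨a, b, c, d, e, rfl⟩]
  · rw [if_pos (ptm_fam hp).1]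
    exact left_ne_zero_of_mul (ptm_ne hp)
  · exact (p1f_def ((hT.fam Q hQ).2.1 ▸ hD) E t).subset fun R hR =>
      ⟨(ptm_fam hR).2.1.2.1, (ptm_fam hR).2.2⟩

end Pool.Agent.G7
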