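import Pool.Agent.Lib.MP_696deb_nt.B7.CN7p

/-! The characters at two: the product of two weights as a function of the bilinear form. -/

set_option autoImplicit false

open scoped Classical
open Finset NumberTheorySymbols

namespace Pool.Agent.G7.Two

open Pool.Agent.Lib.MP_696deb_nt

/-- The character attached to the even prime discriminant that divides `e`. -/
def k2 (e v : ℤ) : ℤ :=
  if 8 ∣ e then (if e / 8 % 4 = 1 then ZMod.χ₈ v else ZMod.χ₈' v)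
  else if 4 ∣ e then ZMod.χ₄ v else 1

/-- The genus character at two on forms with even middle coefficient. -/
def g2 (e : ℤ) (Q : Fm) : ℤ := k2 e (if 2 ∣ Q.1 then Q.2.2 else Q.1)

variable {e ε k D t u v : ℤ} {Q R : Fm}

theorem k2_mul (e u v : ℤ) : k2 e (u * v) = k2 e u * k2 e v := by
  unfold k2
  split_ifs <;> simp only [Int.cast_mul, map_mul, mul_one]

theorem k2_one (e : ℤ) : k2 e 1 = 1 := by
  unfold k2
  split_ifs <;> simp only [Int.cast_one, map_one]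

theorem k2_of_not (h : ¬ 4 ∣ e) (v : ℤ) : k2 e v = 1 := by
  rw [k2, if_neg fun k => h (Dvd.dvd.trans (by norm_num) k), if_neg h]

theorem k2_even (h : 4 ∣ e) (hv : 2 ∣ v) : k2 e v = 0 := by
  unfold k2
  split_ifs
  · rw [ZMod.χ₈_int_eq_if_mod_eight, if_pos (by omega)]
  · rw [ZMod.χ₈'_int_eq_if_mod_eight, if_pos (by omega)]
  · rw [ZMod.χ₄_int_eq_if_mod_four, if_pos (by omega)]

theorem k2_eq {l : ℤ} (hu : ¬ 2 ∣ u) (hv : ¬ 2 ∣ v) (h : e ^ 2 ∣ 4 * (u * v) - l ^ 2) :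
    k2 e u = k2 e v := by
  have sq : ∀ x : ℤ, ¬ 2 ∣ x → ∃ j, x ^ 2 = 8 * j + 1 := fun x hx => by
    obtain ⟨y, rfl⟩ : ∃ y, x = 2 * y + 1 := ⟨x / 2, by omega⟩
    obtain ⟨j, hj⟩ := Int.even_mul_succ_self y
    exact ⟨j, by linear_combination 4 * hj⟩
  have key : ∀ N : ℤ, N = 1 ∨ N = 2 → 4 * N ∣ e → 4 * N ∣ u - v := fun N hN hd => by
    obtain ⟨s, rfl⟩ := hd
    obtain ⟨t, ht⟩ := h
    have h1 : 2 ∣ l := Int.prime_two.dvd_of_dvd_pow (n := 2)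
      ⟨2 * (u * v) - 8 * N ^ 2 * s ^ 2 * t, by linear_combination -ht⟩
    obtain ⟨l, rfl⟩ := h1
    have h2 : u * v = l ^ 2 + 4 * (N ^ 2 * (s ^ 2 * t)) := by linarith
    have h3 : ¬ 2 ∣ l := fun k => (Int.prime_two.dvd_or_dvd (a := u) (b := v)
      (h2 ▸ dvd_add (dvd_pow k two_ne_zero) (Dvd.dvd.mul_right (by norm_num) _))).elim hu hv
    obtain ⟨i, hi⟩ := sq l h3
    obtain ⟨j, hj⟩ := sq v hv
    rcases hN with rfl | rfl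
    · exact ⟨2 * (v * i - u * j) + v * (s ^ 2 * t), by
        linear_combination v * h2 + v * hi - u * hj⟩
    · exact ⟨v * i - u * j + 2 * v * (s ^ 2 * t), by linear_combination v * h2 + v * hi - u * hj⟩
  unfold k2
  split_ifs with h8 _ h4
  · rw [(ZMod.intCast_eq_intCast_iff_dvd_sub v u 8).2 (key 2 (.inr rfl) h8)]
  · rw [(ZMod.intCast_eq_intCast_iff_dvd_sub v u 8).2 (key 2 (.inr rfl) h8)]
  · rw [(ZMod.intCast_eq_intCast_iff_dvd_sub v u 4).2 (key 1 (.inl rfl) h4)]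
  · rfl

theorem g2_fval (hd : e ^ 2 ∣ fdisc R) {x y : ℤ} (h : ¬ 2 ∣ fval R x y) :
    g2 e R = k2 e (fval R x y) := by
  by_cases h4 : 4 ∣ e
  swap
  · rw [g2, k2_of_not h4, k2_of_not h4]
  unfold g2
  split_ifs with h1
  · have hb : 2 ∣ R.2.1 := Int.prime_two.dvd_of_dvd_pow (n := 2) (by
      have := ((dvd_pow (Dvd.dvd.trans (by norm_num) h4 : 2 ∣ e) two_ne_zero).trans hd).add
        ((h1.mul_left 4).mul_right R.2.2)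
      simpa [fdisc] using this)
    have hc : ¬ 2 ∣ R.2.2 := fun hc =>
      h (((h1.mul_right _).add ((hb.mul_right _).mul_right _)).add (hc.mul_right _))
    refine k2_eq hc h (l := 2 * R.2.2 * y + R.2.1 * x) ?_
    exact hd.trans ⟨-x ^ 2, by simp only [fdisc, fval]; ring⟩
  · refine k2_eq h1 h (l := 2 * R.1 * x + R.2.1 * y) ?_
    exact hd.trans ⟨-y ^ 2, by simp only [fdisc, fval]; ring⟩

theorem g2_zero (h4 : 4 ∣ e) (h : ∀ x y, 2 ∣ fval R x y) : g2 e R = 0 := by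
  rw [g2, if_pos (by simpa [fval] using h 1 0), k2_even h4 (by simpa [fval] using h 0 1)]

theorem k2_sq (e : ℤ) (hv : ¬ 2 ∣ v) : k2 e v * k2 e v = 1 := by
  rw [← k2_mul, k2_eq (u := v * v) (v := 1) (l := 2 * v)
    (fun k => (Int.prime_two.dvd_or_dvd k).elim hv hv) (by norm_num) ⟨0, by ring⟩, k2_one]

theorem k2_ne (e : ℤ) (hv : ¬ 2 ∣ v) : k2 e v ≠ 0 := left_ne_zero_of_mul_eq_one (k2_sq e hv)

theorem k2_four (h4 : 4 ∣ e) (h8 : ¬ 8 ∣ e) (hv : v % 4 = 3) : k2 e v = -1 := by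
  rw [k2, if_neg h8, if_pos h4, ZMod.χ₄_int_three_mod_four hv]

theorem k2_eight (h8 : 8 ∣ e) (hv : v % 8 = 5) : k2 e v = -1 := by
  rw [k2, if_pos h8]
  split_ifs
  · rw [ZMod.χ₈_int_eq_if_mod_eight, if_neg (by omega), if_neg (by omega)]
  · rw [ZMod.χ₈'_int_eq_if_mod_eight, if_neg (by omega), if_neg (by omega)]

theorem g2_vals (hQ : e ^ 2 ∣ fdisc Q) (hR : e ^ 2 ∣ fdisc R) (hk : ¬ 2 ∣ k)
    (h1 : ∀ x y, ∃ u v, k * fval R x y = fval Q u v)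
    (h2 : ∀ x y, ∃ u v, fval R u v = k * fval Q x y) : g2 e R = k2 e k * g2 e Q := by
  by_cases h4 : 4 ∣ e
  swap
  · rw [g2, g2, k2_of_not h4, k2_of_not h4, k2_of_not h4, mul_one]
  by_cases h : ∀ x y, 2 ∣ fval R x y
  · rw [g2_zero h4 h, g2_zero h4 fun x y => ?_, mul_zero]
    obtain ⟨u, v, h3⟩ := h2 x y
    exact (Int.prime_two.dvd_or_dvd (h3 ▸ h u v)).resolve_left hk
  push Not at h
  obtain ⟨x, y, h⟩ := h
  obtain ⟨u, v, h3⟩ := h1 x y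
  rw [g2_fval hR h, g2_fval hQ (x := u) (y := v) fun l =>
    (Int.prime_two.dvd_or_dvd (h3 ▸ l)).elim hk h, ← h3, k2_mul, ← mul_assoc, k2_sq e hk, one_mul]

theorem g2_fmap {a b c d : ℤ} (h : e ^ 2 ∣ fdisc Q) (k : a * d - b * c = 1) :
    g2 e (fmap Q a b c d) = g2 e Q := by
  rw [g2_vals (k := 1) h (by rwa [fdisc_fmap k]) (by decide)
    (fun x y => ⟨_, _, by rw [one_mul, fval_fmap]⟩) fun x y => ⟨d * x - b * y, a * y - c * x, ?_⟩,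
    k2_one, one_mul]
  rw [fval_fmap, one_mul]
  congr 1
  exacts [by linear_combination x * k, by linear_combination y * k]

theorem g2_fV {N : ℕ} (hN : Odd N) (h : e ^ 2 ∣ fdisc Q) (k : (N : ℤ) ∣ Q.1) :
    g2 e (G5.fV N Q) = k2 e N * g2 e Q := by
  obtain ⟨_, b, c⟩ := Q
  obtain ⟨a, rfl⟩ := k
  rw [G5.fV_eq hN.pos.ne']
  refine g2_vals h (h.trans ⟨1, by simp only [fdisc]; ring⟩) ?_
    (fun x y => ⟨-y, N * x, by simp only [fval]; ring⟩)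
    fun x y => ⟨y, -(N * x), by simp only [fval]; ring⟩
  have := Nat.odd_iff.1 hN
  omega

theorem pw_even (h4 : 4 ∣ e) (hQ : e ^ 2 ∣ fdisc Q) : 2 ∣ Q.2.1 :=
  Int.prime_two.dvd_of_dvd_pow (n := 2) (by
    have := ((dvd_pow (Dvd.dvd.trans (by norm_num) h4 : 2 ∣ e) two_ne_zero).trans hQ).add
      (Dvd.intro (2 * Q.1 * Q.2.2) (by ring) : 2 ∣ 4 * Q.1 * Q.2.2)
    simpa [fdisc] using this)

theorem g2_fst (h : ¬ 2 ∣ Q.1) : g2 e Q = k2 e Q.1 := by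
  rw [g2, if_neg h]

theorem g2_snd (hQ : e ^ 2 ∣ fdisc Q) (h : ¬ 2 ∣ Q.2.2) : g2 e Q = k2 e Q.2.2 := by
  simpa [fval] using g2_fval hQ (x := 0) (y := 1) (by simpa [fval] using h)

theorem g2_odd (h4 : 4 ∣ e) (h : g2 e Q ≠ 0) : ¬ 2 ∣ Q.1 ∨ ¬ 2 ∣ Q.2.2 := by
  by_contra k
  push Not at k
  exact h (by rw [g2, if_pos k.1, k2_even h4 k.2])

theorem pw_one (h4 : 4 ∣ e) (hQ : e ^ 2 ∣ fdisc Q) (hR : e ^ 2 ∣ fdisc R)
    (ht : fbil Q R % 4 = 2) (h : ¬ 2 ∣ Q.1 * R.2.2) :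
    g2 e Q * g2 e R = k2 e (-fbil Q R / 2) := by
  obtain ⟨β, h1⟩ := pw_even h4 hQ
  obtain ⟨γ, h2⟩ := pw_even h4 hR
  obtain ⟨τ, h3⟩ : ∃ τ, -fbil Q R = 2 * τ := ⟨-fbil Q R / 2, by omega⟩
  rw [g2_fst fun k => h (k.mul_right _), g2_snd hR fun k => h (k.mul_left _), ← k2_mul, h3,
    Int.mul_ediv_cancel_left _ two_ne_zero]
  obtain ⟨D, hD⟩ := hQ
  obtain ⟨E, hE⟩ := hR
  obtain ⟨s, rfl⟩ := h4
  refine k2_eq h (by omega) (l := 2 * (Q.1 * R.2.2 - β * γ))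
    ⟨4 * s ^ 2 * D * E - D * γ ^ 2 - E * β ^ 2, mul_left_cancel₀ (four_ne_zero) ?_⟩
  simp only [fdisc, fbil, h1, h2] at hD hE h3
  linear_combination -8 * Q.1 * R.2.2 * h3 + (4 * R.1 * R.2.2) * -hD +
    (4 * β ^ 2 - (4 * s) ^ 2 * D) * -hE

/-- The case in which the two paths to the centres are disjoint. -/
theorem pw_g1 (h4 : 4 ∣ e) (hQ : e ^ 2 ∣ fdisc Q) (hR : e ^ 2 ∣ fdisc R)
    (ht : fbil Q R % 4 = 2) : g2 e Q * g2 e R = k2 e (-fbil Q R / 2) := by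
  by_cases h : 2 ∣ Q.1 * R.2.2
  swap
  · exact pw_one h4 hQ hR ht h
  have c : fbil R Q = fbil Q R := by simp only [fbil]; ring
  rw [mul_comm, ← c]
  refine pw_one h4 hR hQ (c ▸ ht) fun k => ?_
  obtain ⟨β, h1⟩ := pw_even h4 hQ
  obtain ⟨γ, h2⟩ := pw_even h4 hR
  obtain ⟨x, hx⟩ := h
  obtain ⟨y, hy⟩ := k
  have : fbil Q R = 4 * (β * γ - x - y) := by
    simp only [fbil, h1, h2]
    linear_combination -2 * hx - 2 * hy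
  omega

/-- A common odd value. -/
theorem pw_common (h4 : 4 ∣ e) (hQ : e ^ 2 ∣ fdisc Q) (hR : e ^ 2 ∣ fdisc R) (h1 : g2 e Q ≠ 0)
    (h2 : g2 e R ≠ 0) (ht : fbil Q R % 4 ≠ 2) : ∃ a a' s : ℤ, ¬ 2 ∣ a ∧ ¬ 2 ∣ a' ∧
      g2 e Q = k2 e a ∧ g2 e R = k2 e a' ∧ 4 ∣ fbil Q R ∧
      -2 * a * a' * fbil Q R = s ^ 2 - a ^ 2 * fdisc R - a' ^ 2 * fdisc Q := by
  obtain ⟨β, b1⟩ := pw_even h4 hQ
  obtain ⟨γ, b2⟩ := pw_even h4 hR
  have b3 : fbil Q R = 4 * (β * γ) - 2 * (Q.1 * R.2.2) - 2 * (Q.2.2 * R.1) := by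
    simp only [fbil, b1, b2]
    ring
  have b4 : 4 ∣ fbil Q R := by omega
  have o : ∀ {x y : ℤ}, ¬ 2 ∣ x → ¬ 2 ∣ y → ¬ 2 ∣ x * y := fun hx hy k =>
    (Int.prime_two.dvd_or_dvd k).elim hx hy
  have k : (¬ 2 ∣ Q.1 ∧ ¬ 2 ∣ R.1) ∨ (¬ 2 ∣ Q.2.2 ∧ ¬ 2 ∣ R.2.2) := by
    rcases g2_odd h4 h1 with p | p <;> rcases g2_odd h4 h2 with q | q
    · exact .inl ⟨p, q⟩
    · refine .inl ⟨p, fun k => ?_⟩
      have := o p q
      have := k.mul_left Q.2.2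
      omega
    · refine .inr ⟨p, fun k => ?_⟩
      have := o p q
      have := k.mul_left Q.1
      omega
    · exact .inr ⟨p, q⟩
  rcases k with ⟨p, q⟩ | ⟨p, q⟩
  · exact ⟨_, _, Q.1 * R.2.1 - R.1 * Q.2.1, p, q, g2_fst p, g2_fst q, b4, by
      simp only [fbil, fdisc]; ring⟩
  · exact ⟨_, _, Q.2.2 * R.2.1 - R.2.2 * Q.2.1, p, q, g2_snd hQ p, g2_snd hR q, b4, by
      simp only [fbil, fdisc]; ring⟩

theorem pw_sq (x : ℤ) : (∃ j, x = 2 * j ∧ x ^ 2 = 4 * j ^ 2) ∨ (¬ 2 ∣ x ∧ ∃ j, x ^ 2 = 8 * j + 1) := by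
  rcases Int.even_or_odd' x with ⟨y, rfl | rfl⟩
  · exact .inl ⟨y, rfl, by ring⟩
  · obtain ⟨j, hj⟩ := Int.even_mul_succ_self y
    exact .inr ⟨by omega, j, by linear_combination 4 * hj⟩

theorem pw_deep (h4 : 4 ∣ e) (h16 : ¬ 16 ∣ e) (hQ : fdisc Q = e ^ 2 * D) (hD : D % 4 = 1)
    (hR : 4 * e ^ 2 ∣ fdisc R) (h1 : g2 e Q ≠ 0) (h2 : g2 e R ≠ 0) (ht : fbil Q R % 4 ≠ 2) :
    32 ∣ fbil Q R ∨ (fbil Q R % 16 = 8 ∧ g2 e Q * g2 e R = -k2 e (-fbil Q R / 8)) := by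
  obtain ⟨a, a', s, p, q, e1, e2, ⟨τ, hτ⟩, k⟩ :=
    pw_common h4 ⟨D, hQ⟩ ((dvd_mul_left _ _).trans hR) h1 h2 ht
  obtain ⟨E, hE⟩ := hR
  obtain ⟨f, rfl⟩ := h4
  have o : ¬ 2 ∣ a * a' := fun k => (Int.prime_two.dvd_or_dvd k).elim p q
  rw [hQ, hE, hτ] at k
  obtain ⟨s, rfl⟩ : 2 ∣ s := Int.prime_two.dvd_of_dvd_pow (n := 2)
    ⟨-4 * a * a' * τ + 32 * a ^ 2 * f ^ 2 * E + 8 * a' ^ 2 * f ^ 2 * D, by linear_combination -k⟩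
  obtain ⟨s, rfl⟩ : 2 ∣ s := Int.prime_two.dvd_of_dvd_pow (n := 2)
    ⟨-a * a' * τ + 8 * a ^ 2 * f ^ 2 * E + 2 * a' ^ 2 * f ^ 2 * D, by linarith⟩
  obtain ⟨τ, rfl⟩ : 2 ∣ τ := (Int.prime_two.dvd_or_dvd (a := a * a') (b := τ)
    ⟨-s ^ 2 + 4 * a ^ 2 * f ^ 2 * E + a' ^ 2 * f ^ 2 * D, by linarith⟩).resolve_left o
  have k1 : a * a' * -τ = s ^ 2 - 4 * ((a * f) ^ 2 * E) - (a' * f) ^ 2 * D := by linarith
  have k2' : -fbil Q R / 8 = -τ := by omega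
  rw [k2', e1, e2, ← k2_mul]
  by_cases hτ2 : 2 ∣ τ
  · left
    suffices 4 ∣ a * a' * -τ by
      obtain ⟨z, hz⟩ := (IsCoprime.pow_left (m := 2)
        (Int.prime_two.irreducible.coprime_iff_not_dvd.2 o)).dvd_of_dvd_mul_left this
      omega
    have h5 : 2 ∣ a * a' * -τ := (dvd_neg.2 hτ2).mul_left _
    rw [k1] at h5 ⊢
    obtain ⟨d, rfl⟩ : ∃ d, D = 4 * d + 1 := ⟨D / 4, by omega⟩
    rw [mul_add, mul_one, mul_left_comm _ 4] at h5 ⊢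
    rcases pw_sq s with ⟨i, -, hi⟩ | ⟨-, i, hi⟩ <;> rcases pw_sq (a' * f) with ⟨j, -, hj⟩ | ⟨-, j, hj⟩ <;>
      rw [hi] at h5 ⊢ <;> generalize (a' * f) ^ 2 * d = z at h5 ⊢ <;> omega
  refine .inr ⟨by omega, ?_⟩
  have o' : ¬ 2 ∣ -τ := by omega
  have o2 : ¬ 2 ∣ a * a' * -τ := fun k => (Int.prime_two.dvd_or_dvd k).elim o o'
  have k3 : k2 (4 * f) (a * a' * -τ) = -1 := by
    obtain ⟨d, rfl⟩ : ∃ d, D = 4 * d + 1 := ⟨D / 4, by omega⟩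
    rw [k1, mul_add, mul_one, mul_left_comm _ 4] at o2 ⊢
    by_cases hf : 2 ∣ f
    · obtain ⟨f, rfl⟩ := hf
      refine k2_eight ⟨f, by ring⟩ ?_
      have h6 : ¬ 2 ∣ a' * f := fun k => (Int.prime_two.dvd_or_dvd k).elim q (by omega)
      obtain ⟨j, hj⟩ := ((pw_sq (a' * f)).resolve_left fun ⟨j, hj, _⟩ => h6 ⟨j, hj⟩).2
      rw [show (a * (2 * f)) ^ 2 * E = 4 * ((a * f) ^ 2 * E) by ring,
        show (a' * (2 * f)) ^ 2 = 4 * (a' * f) ^ 2 by ring, mul_assoc 4, hj] at o2 ⊢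
      generalize (8 * j + 1) * d = z at o2 ⊢
      rcases pw_sq s with ⟨i, -, hi⟩ | ⟨-, i, hi⟩ <;> omega
    · refine k2_four ⟨f, rfl⟩ (by omega) ?_
      have h6 : ¬ 2 ∣ a' * f := fun k => (Int.prime_two.dvd_or_dvd k).elim q hf
      obtain ⟨j, hj⟩ := ((pw_sq (a' * f)).resolve_left fun ⟨j, hj, _⟩ => h6 ⟨j, hj⟩).2
      rw [hj] at o2 ⊢
      generalize (8 * j + 1) * d = z at o2 ⊢
      rcases pw_sq s with ⟨i, -, hi⟩ | ⟨-, i, hi⟩ <;> omega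
  rw [k2_mul] at k3
  linear_combination k2 (4 * f) (-τ) * k3 - k2 (4 * f) (a * a') * k2_sq (4 * f) o'

/-- The case in which the two paths have exactly one edge in common. -/
theorem pw_g3 (h4 : 4 ∣ e) (h16 : ¬ 16 ∣ e) (hQ : fdisc Q = e ^ 2 * D) (hD : D % 4 = 1)
    (hR : 4 * e ^ 2 ∣ fdisc R) (h1 : g2 e Q ≠ 0) (h2 : g2 e R ≠ 0) (ht : fbil Q R % 16 = 8) :
    g2 e Q * g2 e R = -k2 e (-fbil Q R / 8) :=
  ((pw_deep h4 h16 hQ hD hR h1 h2 (by omega)).resolve_left (by omega)).2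

theorem g2_cases (h4 : 4 ∣ e) (h16 : ¬ 16 ∣ e) (hQ : fdisc Q = e ^ 2 * D) (hD : D % 4 = 1)
    (hR : 4 * e ^ 2 ∣ fdisc R) (h1 : g2 e Q ≠ 0) (h2 : g2 e R ≠ 0) :
    fbil Q R % 4 = 2 ∨ fbil Q R % 16 = 8 ∨ 32 ∣ fbil Q R :=
  or_iff_not_imp_left.2 fun ht => ((pw_deep h4 h16 hQ hD hR h1 h2 ht).imp_right And.left).symm

theorem p3_four (hε : ε = -4 ∨ ε = 8 ∨ ε = -8) : 4 ∣ ε := by omega

theorem g2_npr (hε : ε = -4 ∨ ε = 8 ∨ ε = -8) (h : ¬ Pr2 Q) : g2 ε Q = 0 := by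
  rw [g2, if_pos (not_not.1 h).1, k2_even (p3_four hε) (not_not.1 h).2]

theorem g2_pr (h : Pr2 Q) : g2 ε Q ≠ 0 := by
  refine k2_ne ε ?_
  split_ifs with k
  exacts [fun l => h ⟨k, l⟩, k]

theorem g2_one (hε : ε = -4 ∨ ε = 8 ∨ ε = -8) (hQ : ε ^ 2 ∣ fdisc Q) (hR : ε ^ 2 ∣ fdisc R)
    (ht : fbil Q R % 4 = 2) : g2 ε Q * g2 ε R = k2 ε (-(fbil Q R / 2)) := by
  rw [pw_g1 (p3_four hε) hQ hR ht, show -fbil Q R / 2 = -(fbil Q R / 2) by omega]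

theorem g2_three (hε : ε = -4 ∨ ε = 8 ∨ ε = -8) (hD : D % 4 = 1) (hQ : fdisc Q = ε ^ 2 * D)
    (hR : 4 * ε ^ 2 ∣ fdisc R) (ht : fbil Q R % 16 = 8) (h1 : Pr2 Q) (h2 : Pr2 R) :
    g2 ε Q * g2 ε R = -k2 ε (-(fbil Q R / 8)) := by
  rw [pw_g3 (p3_four hε) (by omega) hQ hD hR (g2_pr h1) (g2_pr h2) ht,
    show -fbil Q R / 8 = -(fbil Q R / 8) by omega]

end Pool.Agent.G7.Two
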