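import Pool.Agent.Lib.MP_696deb_nt.B7.CN7u

/-! The whole conductor is moved from one form to the other. -/

set_option autoImplicit false

open scoped Classical
open Finset NumberTheorySymbols

namespace Pool.Agent.G7

open Pool.Agent.Lib.MP_696deb_nt
open Pool.Agent.Lib.MP_696deb_nt.B3 (kro chi2 odp cond2 PChr pchr_chi2)

/-- The product of the primes of `M` that do not divide `N`. -/
def yN (N M : ℕ) : ℕ := ∏ p ∈ M.primeFactors.filter fun p => ¬ p ∣ N, p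

/-- The product of the good primes of the conductor. -/
def yy (N : ℕ) (f : ℤ) : ℕ := yN N (cnd f)

/-- The three local steps. -/
structure Steps (N : ℕ) : Prop where
  good : ∀ p : ℕ, p.Prime → p ≠ 2 → ¬ p ∣ N → Trf N p p fun Q R => gch p Q * gch p (G5.fV N R)
  bad : ∀ p : ℕ, p.Prime → p ∣ N → Trf N p 1 fun Q R => gch p Q * gch p (G5.fV N R)
  two : ∀ d : ℤ, d = -1 ∨ d = 2 ∨ d = -2 → Trf N (cnd d) 2 fun Q R => gD d Q * gU N d R

variable {N c c' y y' M : ℕ} {w w' : Fm → Fm → ℤ} {f K : ℤ}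

theorem Trf.congr (h : Trf N c y w) (e : ∀ Q R : Fm, (N : ℤ) ∣ R.1 → (c : ℤ) ^ 2 ∣ fdisc Q →
    (c : ℤ) ^ 2 ∣ fdisc R → w' Q R = w Q R) : Trf N c y w' := fun t => by
  obtain ⟨k, lam, u, t₁, h1, h2, h3, h4, h5⟩ := h t
  refine ⟨k, lam, u, t₁, h1, h2, h3, h4, fun D ρ E β Φ a1 a2 a3 a4 a5 a6 => ?_⟩
  rw [← h5 D ρ E β Φ a1 a2 a3 a4 a5 a6]
  refine congrArg _ (pcn_congr fun Q R b1 b2 _ => ?_)
  rw [e Q R b2.1 (b1.2.1 ▸ dvd_mul_left _ _) (b2.2.1 ▸ ⟨E * y ^ 2, by ring⟩)]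

theorem trf_one (N : ℕ) : Trf N 1 1 fun _ _ => 1 := fun t =>
  ⟨1, 1, 1, t, one_pos, one_pos, fun l hl h => absurd (Int.natCast_dvd_natCast.1 h)
    hl.not_dvd_one, fun _ => by simp, fun D ρ E β Φ _ _ _ _ _ _ => by simp⟩

theorem Trf.mul (h : Trf N c y w) (h' : Trf N c' y' w') (ho : Odd c')
    (hc : c.Coprime c') (hw : Cm N c w') :
    Trf N (c * c') (y * y') fun Q R => w Q R * w' Q R := fun t => by
  obtain ⟨k, lam, u, t₁, h1, h2, h3, h4, h5⟩ := h t
  obtain ⟨k', lam', u', t₂, j1, j2, j3, j4, j5⟩ := h' t₁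
  refine ⟨k' * k, lam * lam', u * u', t₂, mul_pos j1 h1, mul_pos h2 j2, fun l hl e => ?_,
    fun e => ?_, fun D ρ E β Φ a1 a2 a3 a4 a5 a6 => ?_⟩
  · exact ((Nat.prime_iff_prime_int.1 hl).dvd_or_dvd e).elim (fun e => (h3 l hl e).mul_right _)
      fun e => (j3 l hl e).mul_left _
  · push_cast
    linear_combination c * (c * y) * j4 (right_ne_zero_of_mul e) +
      u' * h4 (left_ne_zero_of_mul e)
  push_cast at a1 a3 a6 ⊢
  obtain ⟨s, hs⟩ : Odd (c' : ℤ) := by exact_mod_cast ho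
  have c1 : (0 : ℤ) < c' := by exact_mod_cast ho.pos
  have b1 := h5 (D * c' ^ 2) (ρ * c') (E * (c' * y') ^ 2) (β * (c' * y')) _
    (hw.mul (a1.mono (dvd_mul_right _ _)))
    (by rw [hs, show D * (2 * s + 1) ^ 2 = D + 4 * (D * (s ^ 2 + s)) by ring]; omega)
    (a3.of_mul_right_left.mul_left (Nat.isCoprime_iff_coprime.2 hc.symm).pow_left)
    (by rw [mul_pow, ← sub_mul]; exact a4.mul_right _)
    (a5.imp (mul_neg_of_neg_of_pos · (pow_pos c1 2)) (·.mul (IsSquare.sq _)))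
    (by convert a6 using 1; ring)
  have b2 : k * pcn N (D * (c * c') ^ 2) (ρ * (c * c')) (E * (c * c' * (y * y')) ^ 2)
      (β * (c * c' * (y * y'))) t (fun Q R => w Q R * w' Q R * Φ Q R) =
      lam * pcn N (D * c' ^ 2) (ρ * c') (E * u ^ 2 * (c' * y') ^ 2) (β * u * (c' * y')) t₁
        fun Q R => w' Q R * Φ Q R := by
    simp only [mul_assoc (w _ _)]
    convert b1 using 3 <;> ring
  rw [mul_assoc, b2]
  by_cases l0 : lam = 0
  · simp [l0]
  have b3 := j5 D ρ (E * u ^ 2) (β * u) Φ (a1.mono (dvd_mul_left _ _)) a2 a3.of_mul_right_right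
    a4 a5 fun e => a6 (mul_right_cancel₀ (pow_ne_zero 2 h2.ne') (by
      rw [← mul_pow t, ← h4 l0, mul_pow t₁, e]; ring))
  rw [mul_left_comm, b3, mul_assoc lam]
  congr 3 <;> ring

theorem fdisc_fV (hN : N ≠ 0) {R : Fm} (h : (N : ℤ) ∣ R.1) : fdisc (G5.fV N R) = fdisc R :=
  (fam_fV hN (D := fdisc R) (ρ := R.2.1) ⟨h, rfl, by simp⟩).2.1

theorem cm_up (hN : N ≠ 0) (hM : Squarefree M) (ho : Odd M) (hc : IsCoprime K M) :
    Cm N K fun Q R => gg M M Q (G5.fV N R) :=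
  cm_of fun Q R Q' R' a b c d k m m' p _ _ _ _ h8 h9 h5 r1 r2 h6 h7 => by
    have c1 := cop_of h8 h9 hc (y := k * 1 * (a * d - b * (N * c))) ⟨m * m', by ring⟩
    have c2 := cop_of h8 h9 hc (y := m * m' * (d * a - -c * -(b * N))) ⟨k, by ring⟩
    have h7 := h7.fV hN r1 r2
    refine if_ctx_congr (and_congr (h6.dvd c1) (h7.dvd c2)) (fun e => ?_) fun _ => rfl
    rw [h6.gch hM ho e.1 c1, h7.gch hM ho e.2 c2, mul_mul_mul_comm, mul_one]
    rcases h5 with ⟨rfl, s, e⟩ | ⟨rfl, e, h⟩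
    · rw [e] at c2 ⊢
      rw [jacobiSym.one_left, one_mul, jacobiSym.sq_one' (Int.isCoprime_iff_gcd_eq_one.1
        (IsCoprime.pow_left_iff two_pos |>.1 c2.of_mul_left_left)), one_mul]
    · rw [e, ← sq, jacobiSym.sq_one (Int.isCoprime_iff_gcd_eq_one.1
        (hc.of_isCoprime_of_dvd_left h8)), one_mul]

theorem yN_mul (h : c.Coprime c') (N : ℕ) : yN N (c * c') = yN N c * yN N c' := by
  rw [yN, h.primeFactors_mul, filter_union,
    prod_union (disjoint_filter_filter h.disjoint_primeFactors), yN, yN]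

theorem yN_ne (N M : ℕ) : yN N M ≠ 0 :=
  prod_ne_zero_iff.2 fun _ hp => (Nat.prime_of_mem_primeFactors (mem_filter.1 hp).1).ne_zero

theorem yN_dvd {m : ℕ} (h : ∀ r : ℕ, r.Prime → r ∣ M → ¬ r ∣ N → r ∣ m) : yN N M ∣ m :=
  prod_primes_dvd _ (fun _ hp => (Nat.prime_of_mem_primeFactors (mem_filter.1 hp).1).prime)
    fun p hp => h p (Nat.prime_of_mem_primeFactors (mem_filter.1 hp).1)
      (Nat.dvd_of_mem_primeFactors (mem_filter.1 hp).1) (mem_filter.1 hp).2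

theorem Trf.odd (h : Trf N c y w) (hN : N ≠ 0) (hM : Squarefree M)
    (ho : Odd M) (hc : c.Coprime M)
    (k : Trf N M y' fun Q R => gch M Q * gch M (G5.fV N R)) :
    Trf N (c * M) (y * y') fun Q R => w Q R * (gch M Q * gch M (G5.fV N R)) := by
  have e : ∀ {x : ℤ} {Q R : Fm}, (M : ℤ) ∣ x → (N : ℤ) ∣ R.1 → x ^ 2 ∣ fdisc Q → x ^ 2 ∣ fdisc R →
      gg M M Q (G5.fV N R) = gch M Q * gch M (G5.fV N R) := fun h0 h1 h2 h3 =>
    if_pos ⟨(dvd_pow h0 two_ne_zero).trans h2, fdisc_fV hN h1 ▸ (dvd_pow h0 two_ne_zero).trans h3⟩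
  exact (h.mul (k.congr fun Q R => e dvd_rfl) ho hc
    (cm_up hN hM ho (Nat.isCoprime_iff_coprime.2 hc))).congr fun Q R h1 h2 h3 => by
      rw [e (by push_cast; exact dvd_mul_left _ _) h1 h2 h3]

theorem trf_odd (S : Steps N) (hN : N ≠ 0) : ∀ M : ℕ, Squarefree M → Odd M →
    Trf N M (yN N M) fun Q R => gch M Q * gch M (G5.fV N R) := by
  refine induction_on_primes (fun h => absurd h not_squarefree_zero)
    (fun _ _ => by simpa [yN, gch] using trf_one N) fun p M hp ih h1 h2 => ?_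
  have hc := Nat.coprime_of_squarefree_mul h1
  obtain ⟨o1, o2⟩ := Nat.odd_mul.1 h2
  have k : Trf N p (yN N p) fun Q R => gch p Q * gch p (G5.fV N R) := by
    rw [yN, hp.primeFactors, filter_singleton]
    split_ifs with e
    · simpa using S.bad p hp e
    · simpa using S.good p hp (by rintro rfl; exact absurd o1 (by decide)) e
  rw [yN_mul hc]
  exact (k.odd hN h1.of_mul_right o2 hc (ih h1.of_mul_right o2)).congr
    fun Q R _ _ _ => by rw [G5.gch_mul hc, G5.gch_mul hc]; ring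

/-- The conductor of an arbitrary twist is moved from the first form to the second. -/
theorem transfer_of (S : Steps N) (hN : Odd N) (hf : Squarefree f) :
    Trf N (cnd f) (yy N f) fun Q R => gD f Q * gU N f R := by
  have N0 := hN.pos.ne'
  have k := trf_odd S N0 _ (B3.odp_sqf hf) (B3.odp_odd hf)
  have h4 := B3.mod4_ne hf
  by_cases h1 : f % 4 = 1
  · simpa [yy, cnd, B3.cond, cond2, gD, gU, chi2, h1] using k
  obtain ⟨d, d1, d2, d3, d4, e, d5⟩ : ∃ d : ℤ, (d = -1 ∨ d = 2 ∨ d = -2) ∧ chi2 d = chi2 f ∧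
      odp d = 1 ∧ cond2 d = cond2 f ∧ ∃ e, cond2 f = 2 ^ (e + 1) := by
    by_cases h3 : f % 4 = 3
    · exact ⟨-1, .inl rfl, funext fun k => by simp [chi2, h3], rfl, by simp [cond2, h3], 1,
        by simp [cond2, h3]⟩
    by_cases h2 : f % 8 = 2
    · exact ⟨2, .inr (.inl rfl), funext fun k => by simp [chi2, h1, h3, h2], rfl,
        by simp [cond2, h1, h3], 2, by simp [cond2, h1, h3]⟩
    · exact ⟨-2, .inr (.inr rfl), funext fun k => by simp [chi2, h1, h3, h2], rfl,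
        by simp [cond2, h1, h3], 2, by simp [cond2, h1, h3]⟩
  have hc : (cond2 f).Coprime (odp f) :=
    d5 ▸ (Nat.coprime_two_left.2 (B3.odp_odd hf)).pow_left _
  have k2 := S.two d d1
  rw [cnd, B3.cond, d3, d4, mul_one] at k2
  have y2 : yN N (cond2 f) = 2 := by
    rw [yN, d5, Nat.primeFactors_prime_pow (by omega) Nat.prime_two, filter_singleton,
      if_pos (Nat.two_dvd_ne_zero.2 (Nat.odd_iff.1 hN)), prod_singleton]
  rw [yy, cnd, B3.cond, yN_mul hc, y2]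
  exact (k2.odd N0 (B3.odp_sqf hf) (B3.odp_odd hf) hc k).congr
    fun Q R _ _ _ => by simp only [gU, gD, d2, d3, gch, Nat.primeFactors_one, prod_empty]; ring

theorem Dat.Adm.yy_dvd {X : Dat} {m : ℕ} (h : X.Adm m) : yy X.N X.f ∣ m := yN_dvd h.dvd

end Pool.Agent.G7
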