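import Pool.Agent.Lib.MP_696deb_nt.B7.CN7p
import Pool.Agent.Lib.MP_696deb_nt.B7.Z0

/-! Weights on pairs of forms that do not see the conductor. -/

set_option autoImplicit false

open scoped Classical
open Finset NumberTheorySymbols

namespace Pool.Agent.G7

open Pool.Agent.Lib.MP_696deb_nt
open Pool.Agent.Lib.MP_696deb_nt.B3 (kro chi2 odp cond2 PChr pchr_chi2)

/-- The primitive vector `v` is the root of orientation `σ` of the split form `Q`. -/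
def Rt (σ : ℤ) (Q : Fm) (v : ℤ × ℤ) : Prop := IsCoprime v.1 v.2 ∧ ∃ s : ℤ, 0 < s ∧
  fdisc Q = s ^ 2 ∧ 2 * Q.1 * v.1 + (Q.2.1 + σ * s) * v.2 = 0 ∧
    (Q.2.1 - σ * s) * v.1 + 2 * Q.2.2 * v.2 = 0

/-- The value of `R` at a root of `Q`. -/
noncomputable def rv (σ : ℤ) (Q R : Fm) : ℤ :=
  if h : ∃ v, Rt σ Q v then fval R h.choose.1 h.choose.2 else 0

/-- The sign at the first root. -/
noncomputable def rsg (Q R : Fm) : ℤ := (rv 1 Q R).sign

/-- The difference of the valuations at the two roots, with the sign at the first. -/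
noncomputable def rvl (l : ℕ) (Q R : Fm) : ℤ :=
  (rv 1 Q R).sign * (padicValInt l (rv (-1) Q R) - padicValInt l (rv 1 Q R))

variable {σ A k : ℤ} {Q R : Fm}

theorem rv_eq (hσ : σ = 1 ∨ σ = -1) {v : ℤ × ℤ} (h : Rt σ Q v) (R : Fm) :
    rv σ Q R = fval R v.1 v.2 := by
  rw [rv, dif_pos ⟨v, h⟩]
  obtain ⟨⟨a, b, h1⟩, s, h2, h3, h4, h5⟩ := (⟨v, h⟩ : ∃ v, Rt σ Q v).choose_spec
  generalize (⟨v, h⟩ : ∃ v, Rt σ Q v).choose = w at h1 h4 h5
  obtain ⟨⟨c, d, k1⟩, s', k2, k3, k4, k5⟩ := h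
  obtain rfl : s = s' := (pow_left_inj₀ h2.le k2.le two_ne_zero).1 (h3.symm.trans k3)
  have e : v.1 * w.2 = v.2 * w.1 := by
    refine mul_left_cancel₀ (mul_ne_zero (show 2 * σ ≠ 0 by omega) h2.ne') ?_
    linear_combination v.1 * h4 - w.1 * k4 + v.2 * h5 - w.2 * k5
  have e1 : w.1 = (c * w.1 + d * w.2) * v.1 := by linear_combination -w.1 * k1 - d * e
  have e2 : w.2 = (c * w.1 + d * w.2) * v.2 := by linear_combination -w.2 * k1 + c * e
  generalize c * w.1 + d * w.2 = t at e1 e2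
  have e3 : t * (a * v.1 + b * v.2) = 1 := by linear_combination h1 - a * e1 - b * e2
  rw [e1, e2]
  rcases Int.eq_one_or_neg_one_of_mul_eq_one e3 with rfl | rfl <;> simp [fval]

theorem rv_one (hA : 0 < A) (k : ℤ) (R : Fm) : rv 1 (0, A, -k) R = R.1 := by
  rw [rv_eq (Or.inl rfl) (v := (1, 0)) ⟨isCoprime_one_left, A, hA, by simp [fdisc], by simp, by simp⟩]
  simp [fval]

theorem rv_two (hA : 0 < A) (hk : IsCoprime k A) (R : Fm) : rv (-1) (0, A, -k) R = fval R k A :=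
  rv_eq (Or.inr rfl) (v := (k, A)) ⟨hk, A, hA, by simp [fdisc], by simp, by simp only; ring⟩ R

theorem p7_root {Q' : Fm} {a b c d k k' : ℤ} (hk : 0 < k) (hk' : 0 < k') (hd : 0 < a * d - b * c)
    (h : ∀ x y, k * fval Q' x y = k' * fval Q (a * x + b * y) (c * x + d * y)) {v : ℤ × ℤ}
    (hv : Rt σ Q' v) : ∃ (w : ℤ × ℤ) (κ : ℤ), Rt σ Q w ∧ κ ∣ a * d - b * c ∧
      a * v.1 + b * v.2 = κ * w.1 ∧ c * v.1 + d * v.2 = κ * w.2 := by
  obtain ⟨⟨e, f, h1⟩, s', h2, h3, h4, h5⟩ := hv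
  have q1 := h 1 0
  have q2 := h 0 1
  have q3 := h 1 1
  simp only [fval, fdisc] at q1 q2 q3 h3
  have q4 : k * Q'.1 = k' * (Q.1 * a ^ 2 + Q.2.1 * a * c + Q.2.2 * c ^ 2) := by
    linear_combination q1
  have q5 : k * Q'.2.2 = k' * (Q.1 * b ^ 2 + Q.2.1 * b * d + Q.2.2 * d ^ 2) := by
    linear_combination q2
  have q6 : k * Q'.2.1 = k' * (2 * Q.1 * a * b + Q.2.1 * (a * d + b * c) + 2 * Q.2.2 * c * d) := by
    linear_combination q3 - q1 - q2
  have q7 : (k * s') ^ 2 = (k' * (a * d - b * c)) ^ 2 * fdisc Q := by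
    have : (k * s') ^ 2 = (k * Q'.2.1) ^ 2 - 4 * (k * Q'.1) * (k * Q'.2.2) := by
      linear_combination -k ^ 2 * h3
    rw [this, q4, q5, q6, fdisc]
    ring
  have hp := mul_pos hk' hd
  obtain ⟨s, hs⟩ := (Int.pow_dvd_pow_iff two_ne_zero).1 (Dvd.intro _ q7.symm)
  have s0 : 0 < s := (mul_pos_iff_of_pos_left hp).1 (hs ▸ mul_pos hk h2)
  have s1 : fdisc Q = s ^ 2 := by
    refine mul_left_cancel₀ (pow_ne_zero 2 hp.ne') ?_
    rw [← q7, hs, mul_pow]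
  have r1 : 2 * Q.1 * (a * v.1 + b * v.2) + (Q.2.1 + σ * s) * (c * v.1 + d * v.2) = 0 := by
    refine mul_left_cancel₀ hp.ne' ?_
    linear_combination d * k * h4 - c * k * h5 - 2 * d * v.1 * q4 + 2 * c * v.2 * q5 -
      (d * v.2 - c * v.1) * q6 - σ * (d * v.2 + c * v.1) * hs
  have r2 : (Q.2.1 - σ * s) * (a * v.1 + b * v.2) + 2 * Q.2.2 * (c * v.1 + d * v.2) = 0 := by
    refine mul_left_cancel₀ hp.ne' ?_
    linear_combination a * k * h5 - b * k * h4 + 2 * b * v.1 * q4 - 2 * a * v.2 * q5 -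
      (a * v.1 - b * v.2) * q6 + σ * (a * v.1 + b * v.2) * hs
  have r3 : a * d - b * c = (e * d - f * c) * (a * v.1 + b * v.2) +
      (f * a - e * b) * (c * v.1 + d * v.2) := by linear_combination -(a * d - b * c) * h1
  generalize a * v.1 + b * v.2 = x at r1 r2 r3
  generalize c * v.1 + d * v.2 = y at r1 r2 r3
  have g0 : 0 < Int.gcd x y := Int.gcd_pos_iff.2 (by
    by_contra hn
    push Not at hn
    rw [hn.1, hn.2] at r3
    omega)
  obtain ⟨x', y', g1, g2, g3⟩ := Int.exists_gcd_one g0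
  generalize Int.gcd x y = g at g0 g2 g3
  have g4 : (g : ℤ) ≠ 0 := by omega
  subst g2 g3
  refine ⟨(x', y'), g, ⟨Int.isCoprime_iff_gcd_eq_one.2 g1, s, s0, s1, ?_, ?_⟩,
    ⟨(e * d - f * c) * x' + (f * a - e * b) * y', by linear_combination r3⟩, mul_comm _ _,
    mul_comm _ _⟩
  · exact mul_left_cancel₀ g4 (by linear_combination r1)
  · exact mul_left_cancel₀ g4 (by linear_combination r2)

theorem p7_rv (hσ : σ = 1 ∨ σ = -1) {Q' R' : Fm} {a b c d k k' m m' : ℤ} (hk : 0 < k)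
    (hk' : 0 < k') (hd : 0 < a * d - b * c)
    (h : ∀ x y, k * fval Q' x y = k' * fval Q (a * x + b * y) (c * x + d * y))
    (h' : ∀ x y, m * fval R' x y = m' * fval R (a * x + b * y) (c * x + d * y)) :
    ∃ κ, κ ∣ a * d - b * c ∧ m * rv σ Q' R' = m' * κ ^ 2 * rv σ Q R := by
  by_cases hv : ∃ v, Rt σ Q' v
  · obtain ⟨v, hv⟩ := hv
    obtain ⟨w, κ, h1, h2, h3, h4⟩ := p7_root hk hk' hd h hv
    refine ⟨κ, h2, ?_⟩
    rw [rv_eq hσ hv, rv_eq hσ h1, h', h3, h4, fval, fval]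
    ring
  refine ⟨1, one_dvd _, ?_⟩
  rw [rv, rv, dif_neg hv, dif_neg, mul_zero, mul_zero]
  rintro ⟨w, hw⟩
  obtain ⟨v, -, h1, -⟩ := p7_root (Q := Q') (a := d) (b := -b) (c := -c) (d := a)
    (mul_pos hk' (pow_pos hd 2)) hk (by linarith) (fun x y => by rw [h, fval, fval]; ring) hw
  exact hv ⟨v, h1⟩

theorem p7_sgn {m m' κ x x' : ℤ} (hm : 0 < m) (hm' : 0 < m') (hκ : κ ≠ 0)
    (h : m * x' = m' * κ ^ 2 * x) : x'.sign = x.sign := by
  have e := congrArg Int.sign h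
  rwa [Int.sign_mul, Int.sign_mul, Int.sign_eq_one_of_pos hm,
    Int.sign_eq_one_of_pos (mul_pos hm' (pow_pos (abs_pos.2 hκ) 2 |>.trans_eq (sq_abs κ))),
    one_mul, one_mul] at e

theorem p7_val {l : ℕ} (hl : l.Prime) {m m' x x' : ℤ} (hm : ¬ (l : ℤ) ∣ m) (hm' : ¬ (l : ℤ) ∣ m')
    (h : m * x' = m' * x) : padicValInt l x' = padicValInt l x := by
  have := Fact.mk hl
  have h0 : m ≠ 0 := fun e => hm (e ▸ dvd_zero _)
  have h1 : m' ≠ 0 := fun e => hm' (e ▸ dvd_zero _)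
  by_cases hx : x = 0
  · rw [hx, mul_zero, mul_eq_zero] at h
    rw [hx, h.resolve_left h0]
  have hx' : x' ≠ 0 := fun e => mul_ne_zero h1 hx (by rw [← h, e, mul_zero])
  have e := congrArg (padicValInt l) h
  rwa [padicValInt.mul h0 hx', padicValInt.mul h1 hx, padicValInt.eq_zero_of_not_dvd hm,
    padicValInt.eq_zero_of_not_dvd hm', zero_add, zero_add] at e

/-- The form `k R` is the transform of `m Q`. -/
def Sim (k m a b c d : ℤ) (Q R : Fm) : Prop :=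
  ∀ x y, k * fval R x y = m * fval Q (a * x + b * y) (c * x + d * y)

section

variable {m a b c d : ℤ} {N : ℕ} {K : ℤ} {Φ : Fm → Fm → ℤ}

theorem Sim.inv (h : Sim k m a b c d Q R) (x y : ℤ) :
    fval R (k * (d * x - b * y)) (k * (a * y - c * x)) =
      k * m * (a * d - b * c) ^ 2 * fval Q x y := by
  have := h (d * x - b * y) (a * y - c * x)
  simp only [fval] at this ⊢
  linear_combination k * this

theorem Sim.disc (h : Sim k m a b c d Q R) :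
    k ^ 2 * fdisc R = (m * (a * d - b * c)) ^ 2 * fdisc Q := by
  have q1 := h 1 0
  have q2 := h 0 1
  have q3 := h 1 1
  simp only [fval] at q1 q2 q3
  have q4 : k * R.1 = m * (Q.1 * a ^ 2 + Q.2.1 * a * c + Q.2.2 * c ^ 2) := by linear_combination q1
  have q5 : k * R.2.2 = m * (Q.1 * b ^ 2 + Q.2.1 * b * d + Q.2.2 * d ^ 2) := by
    linear_combination q2
  have q6 : k * R.2.1 = m * (2 * Q.1 * a * b + Q.2.1 * (a * d + b * c) + 2 * Q.2.2 * c * d) := by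
    linear_combination q3 - q1 - q2
  rw [show k ^ 2 * fdisc R = (k * R.2.1) ^ 2 - 4 * (k * R.1) * (k * R.2.2) by rw [fdisc]; ring,
    q4, q5, q6, fdisc]
  ring

theorem Sim.fV (hN : N ≠ 0) (h : Sim k m a b (N * c) d Q R) (hQ : (N : ℤ) ∣ Q.1)
    (hR : (N : ℤ) ∣ R.1) : Sim k m d (-c) (-(b * N)) a (G5.fV N Q) (G5.fV N R) := fun x y => by
  obtain ⟨_, q, r⟩ := Q
  obtain ⟨_, β, γ⟩ := R
  obtain ⟨p, rfl⟩ := hQ
  obtain ⟨α, rfl⟩ := hR
  have := h (-y) (N * x)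
  simp only [G5.fV_eq hN, fval] at this ⊢
  exact mul_left_cancel₀ (Nat.cast_ne_zero.2 hN : (N : ℤ) ≠ 0) (by linear_combination this)

theorem Sim.dvd {e : ℤ} (h : Sim k m a b c d Q R) (hc : IsCoprime (k * m * (a * d - b * c)) e) :
    e ∣ fdisc R ↔ e ∣ fdisc Q :=
  ⟨fun j => (show IsCoprime e ((m * (a * d - b * c)) ^ 2) from IsCoprime.pow_right
      (IsCoprime.of_mul_left_right (mul_assoc k m _ ▸ hc)).symm).dvd_of_dvd_mul_left
      (h.disc ▸ j.mul_left _),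
    fun j => (show IsCoprime e (k ^ 2) from IsCoprime.pow_right
      hc.of_mul_left_left.of_mul_left_left.symm).dvd_of_dvd_mul_left (h.disc ▸ j.mul_left _)⟩

theorem Sim.gch (h : Sim k m a b c d Q R) {A : ℕ} (hA : Squarefree A) (ho : Odd A)
    (hd : (A : ℤ) ∣ fdisc Q) (hc : IsCoprime (k * m * (a * d - b * c)) A) :
    gch A R = J(k * m | A) * gch A Q := by
  rw [gch_eq, gch_eq, jac_eq_prod _ hA, ← prod_mul_distrib]
  refine prod_congr rfl fun p hp => ?_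
  have h1 := Nat.prime_of_mem_primeFactors hp
  have h2 := Nat.prime_iff_prime_int.mp h1
  have h3 : ¬ (p : ℤ) ∣ k * m * (a * d - b * c) := fun j =>
    h2.not_isUnit (hc.isUnit_of_dvd' j (dvd_of_mem dvd_rfl hp))
  have h4 : ¬ (p : ℤ) ∣ a * d - b * c := fun j => h3 (j.mul_left _)
  rw [gl_of_vals h1 (prime_ne_two ho hp) (dvd_of_mem hd hp) (dvd_of_mem ((h.dvd hc).2 hd) hp)
    (k := k * m * (a * d - b * c) ^ 2) (fun j => (h2.dvd_or_dvd j).elim
      (fun j => h3 (j.mul_right _)) fun j => h4 (h2.dvd_of_dvd_pow j))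
    (fun x y => ⟨_, _, 0, by rw [h.inv, sub_self, mul_zero]⟩) fun h0 x y =>
      (h2.dvd_or_dvd (h x y ▸ (h0 _ _).mul_left m)).resolve_left
        fun j => h3 ((j.mul_right _).mul_right _),
    jacobiSym.mul_left (k * m), jacobiSym.pow_left, jac_sq h1 h4, mul_one]

theorem Sim.ipos (h : Sim k m a b c d Q R) (hk : 0 < k) (hm : 0 < m) (hd : 0 < a * d - b * c) :
    ipos R = ipos Q := by
  have e : fdisc R < 0 ↔ fdisc Q < 0 := by
    rw [← neg_pos, ← mul_pos_iff_of_pos_left (pow_pos hk 2), mul_neg, h.disc, ← mul_neg,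
      mul_pos_iff_of_pos_left (pow_pos (mul_pos hm hd) 2), neg_pos]
  refine if_congr ?_ rfl rfl
  rw [e]
  refine and_congr_right fun hD => ?_
  have h1 := four_mul_fval Q a c
  have h2 : k * R.1 = m * fval Q a c := by simpa [fval] using h 1 0
  have h0 : Q.1 ≠ 0 := fun e => by
    rw [fdisc, e] at hD
    nlinarith [sq_nonneg Q.2.1]
  have h3 : 0 < 4 * Q.1 * fval Q a c := by
    rw [h1]
    rcases eq_or_ne c 0 with rfl | hc
    · have ha : a ≠ 0 := by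
        rintro rfl
        omega
      have : 0 < (2 * Q.1 * a) ^ 2 := by positivity
      simpa using this
    · nlinarith [sq_nonneg (2 * Q.1 * a + Q.2.1 * c), mul_pos (sq_pos_of_ne_zero hc) (neg_pos.2 hD)]
  have h4 : 0 < R.1 * Q.1 := (mul_pos_iff_of_pos_left (show 0 < 4 * k by omega)).1
    ((mul_pos hm h3).trans_eq (by linear_combination -4 * Q.1 * h2))
  exact pos_iff_pos_of_mul_pos h4

/-- Weights that are invariant under the similarities whose factors divide a power of `K`. -/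
theorem cm_of (H : ∀ (Q R Q' R' : Fm) (a b c d k m m' : ℤ) (p : ℕ), 0 < k → 0 < m → 0 < m' →
    0 < a * d - b * (N * c) → (p : ℤ) ∣ K → k * m * m' * (a * d - b * (N * c)) ∣ p ^ 3 →
    (k = 1 ∧ (∃ s, m * m' = s ^ 2) ∨ k = p ∧ m * m' = p ∧ p ∣ N) → (N : ℤ) ∣ R.1 → (N : ℤ) ∣ R'.1 →
    Sim k 1 a b (N * c) d Q Q' → Sim m m' a b (N * c) d R R' → Φ Q' R' = Φ Q R) : Cm N K Φ where
  inv Q R a b c d e _ h := H _ _ _ _ a b c d 1 1 1 1 one_pos one_pos one_pos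
    (by omega) (one_dvd _) (by simp [e]) (.inl ⟨rfl, 1, rfl⟩) h
    (G5.FEq.fam (e := fdisc _) ⟨a, b, c, d, e, rfl⟩ ⟨h, rfl, 0, sub_self _⟩).1
    (fun x y => by rw [fval_fmap]) fun x y => by rw [fval_fmap]
  tr p hp l Q R _ h := by
    have h0 : (0 : ℤ) < p := by exact_mod_cast hp.pos
    exact H _ _ _ _ p 0 0 1 1 (p ^ 2) 1 p one_pos (pow_pos h0 2) one_pos (by omega) l
      ⟨1, by ring⟩ (.inl ⟨rfl, p, mul_one _⟩) h h (fun x y => by simp only [fval, dnf]; ring)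
      fun x y => by simp only [fval, upf]; ring
  sc p hp l _ Q α β γ h := by
    have h0 : (0 : ℤ) < p := by exact_mod_cast hp.pos
    exact H _ _ _ _ 1 0 0 1 1 1 (p ^ 2) p one_pos one_pos (pow_pos h0 2) (by omega) l
      ⟨p, by ring⟩ (.inl ⟨rfl, p, one_mul _⟩) h (h.mul_left _) (fun x y => by simp)
      fun x y => by simp only [fval]; ring
  al p l q a b c d e Q R h1 h2 := by
    have h0 : (0 : ℤ) < p := by exact_mod_cast e.hp.pos
    have h3 : p * a * (p * d) - b * (N * c) = p := by rw [e.lev]; linear_combination p * e.det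
    exact H _ _ _ _ (p * a) b c (p * d) p p 1 p h0 h0 one_pos (by omega) l
      ⟨1, by rw [h3]; ring⟩ (.inr ⟨rfl, mul_one _, Int.natCast_dvd_natCast.1 ⟨q, e.lev⟩⟩) h2
      (e.dvd h2) (fun x y => by rw [e.val h1, one_mul]) fun x y => by rw [e.val h2, one_mul]

theorem cm_pos1 (N : ℕ) (K : ℤ) : Cm N K fun Q _ => ipos Q :=
  cm_of fun _ _ _ _ _ _ _ _ _ _ _ _ h1 _ _ h4 _ _ _ _ _ h _ => h.ipos h1 one_pos h4

theorem cm_pos2 (N : ℕ) (K : ℤ) : Cm N K fun _ R => ipos R :=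
  cm_of fun _ _ _ _ _ _ _ _ _ _ _ _ _ h2 h3 h4 _ _ _ _ _ _ h => h.ipos h2 h3 h4

theorem cm_rsg (N : ℕ) (K : ℤ) : Cm N K rsg :=
  cm_of fun Q R Q' R' a b c d k m m' p h1 h2 h3 h4 _ _ _ _ _ h6 h7 => by
    obtain ⟨κ, e1, e2⟩ := p7_rv (Or.inl rfl) h1 one_pos h4 h6 h7
    exact p7_sgn h2 h3 (ne_zero_of_dvd_ne_zero h4.ne' e1) e2

theorem cm_rvl (N : ℕ) {l : ℕ} (hl : l.Prime) (h : ¬ (l : ℤ) ∣ K) : Cm N K (rvl l) :=
  cm_of fun Q R Q' R' a b c d k m m' p h1 h2 h3 h4 h8 h9 _ _ _ h6 h7 => by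
    have hp := Nat.prime_iff_prime_int.1 hl
    have n0 : ¬ (l : ℤ) ∣ k * m * m' * (a * d - b * (N * c)) := fun e =>
      h ((hp.dvd_of_dvd_pow (e.trans h9)).trans h8)
    have n1 : ¬ (l : ℤ) ∣ m := fun e => n0 (((e.mul_left _).mul_right _).mul_right _)
    have n2 : ∀ κ, κ ∣ a * d - b * (N * c) → ¬ (l : ℤ) ∣ m' * κ ^ 2 := fun κ e1 e =>
      (hp.dvd_or_dvd e).elim (fun e => n0 ((e.mul_left _).mul_right _))
        fun e => n0 (((hp.dvd_of_dvd_pow e).trans e1).mul_left _)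
    obtain ⟨κ, e1, e2⟩ := p7_rv (Or.inl rfl) h1 one_pos h4 h6 h7
    obtain ⟨κ', e3, e4⟩ := p7_rv (Or.inr rfl) h1 one_pos h4 h6 h7
    rw [rvl, rvl, p7_sgn h2 h3 (ne_zero_of_dvd_ne_zero h4.ne' e1) e2, p7_val hl n1 (n2 κ e1) e2,
      p7_val hl n1 (n2 κ' e3) e4]

theorem cop_of {p : ℕ} {e x y : ℤ} (h1 : (p : ℤ) ∣ K) (h2 : x ∣ p ^ 3) (h3 : IsCoprime K e)
    (h4 : y ∣ x) : IsCoprime y e :=
  ((h3.of_isCoprime_of_dvd_left h1).pow_left (m := 3)).of_isCoprime_of_dvd_left (h4.trans h2)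

theorem cm_gg {A B : ℕ} (hA : Squarefree A) (oA : Odd A) (hB : Squarefree B) (oB : Odd B)
    (cA : IsCoprime K A) (cB : IsCoprime K B) (j : ∀ p : ℕ, p ∣ N → (p : ℤ) ∣ K →
      J(p | A) * J(p | B) = 1) : Cm N K (gg A B) :=
  cm_of fun Q R Q' R' a b c d k m m' p _ _ _ _ h8 h9 h5 _ _ h6 h7 => by
    have c1 := cop_of h8 h9 cA (y := k * 1 * (a * d - b * (N * c))) ⟨m * m', by ring⟩
    have c2 := cop_of h8 h9 cB (y := m * m' * (a * d - b * (N * c))) ⟨k, by ring⟩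
    refine if_ctx_congr (and_congr (h6.dvd c1) (h7.dvd c2)) (fun e => ?_) fun _ => rfl
    rw [h6.gch hA oA e.1 c1, h7.gch hB oB e.2 c2, mul_mul_mul_comm, mul_one]
    rcases h5 with ⟨rfl, s, e⟩ | ⟨rfl, e, h⟩
    · rw [e] at c2 ⊢
      rw [jacobiSym.one_left, one_mul, jacobiSym.sq_one' (Int.isCoprime_iff_gcd_eq_one.1
        (IsCoprime.pow_left_iff two_pos |>.1 c2.of_mul_left_left)), one_mul]
    · rw [e, j p h h8, one_mul]

end

end Pool.Agent.G7
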