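import Pool.Agent.Lib.MP_696deb_nt.B6.D1

/-! Twists by arbitrary squarefree integers. -/

set_option autoImplicit false

open scoped NNReal Classical
open Finset Matrix NumberTheorySymbols

namespace Pool.Agent.B6.B7

open Pool.Agent.Lib.MP_696deb_nt Pool.Agent.Lib.MP_696deb_nt.B2

/-- The odd part of the absolute value. -/
def od (f : ℤ) : ℤ := (ordCompl[2] f.natAbs : ℕ)

theorem od_dvd (f : ℤ) : od f ∣ f := Int.natCast_dvd.2 (Nat.ordCompl_dvd _ _)

theorem od_ne {f : ℤ} (hf : f ≠ 0) : od f ≠ 0 := fun e => hf (zero_dvd_iff.1 (e ▸ od_dvd f))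

theorem dvd_od {f : ℤ} (hf : f ≠ 0) {p : ℕ} (hp : p.Prime) :
    (p : ℤ) ∣ od f ↔ p ≠ 2 ∧ (p : ℤ) ∣ f := by
  have h0 := Int.natAbs_ne_zero.2 hf
  refine ⟨fun h => ⟨?_, h.trans (od_dvd f)⟩, fun h => ?_⟩
  · rintro rfl
    exact Nat.not_dvd_ordCompl Nat.prime_two h0 (Int.natCast_dvd_natCast.1 h)
  · have h1 := Int.natCast_dvd.1 h.2
    rw [← Nat.ordProj_mul_ordCompl_eq_self f.natAbs 2] at h1
    exact Int.natCast_dvd_natCast.2 ((hp.dvd_mul.1 h1).resolve_left fun k =>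
      h.1 ((Nat.prime_dvd_prime_iff_eq hp Nat.prime_two).1 (hp.dvd_of_dvd_pow k)))

section

variable [Cs]

/-- The product of the bad primes that do not divide `f`. -/
noncomputable def Nf (f : ℤ) : ℕ :=
  ∏ p ∈ NN.primeFactors.filter fun p : ℕ => ¬ (p : ℤ) ∣ f, p

theorem Nf_ne (f : ℤ) : Nf f ≠ 0 := prod_ne_zero_iff.2 fun _ hp =>
  (Nat.prime_of_mem_primeFactors (mem_filter.1 hp).1).ne_zero

theorem dvd_Nf {f : ℤ} {p : ℕ} (hp : p.Prime) : p ∣ Nf f ↔ p ∣ NN ∧ ¬ (p : ℤ) ∣ f := by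
  rw [Nf, hp.prime.dvd_finsetProd_iff]
  refine ⟨fun ⟨q, hq, h⟩ => ?_, fun h =>
    ⟨p, mem_filter.2 ⟨Nat.mem_primeFactors.2 ⟨hp, h.1, NN_ne⟩, h.2⟩, dvd_rfl⟩⟩
  obtain ⟨h1, h2⟩ := mem_filter.1 hq
  obtain rfl := (Nat.prime_dvd_prime_iff_eq hp (Nat.prime_of_mem_primeFactors h1)).1 h
  exact ⟨Nat.dvd_of_mem_primeFactors h1, h2⟩

/-- Squarefree integers all of whose odd primes split. -/
structure Fok (n : ℕ) (f : ℤ) : Prop where
  sqf : Squarefree f
  spl : ∀ r : ℕ, r.Prime → (r : ℤ) ∣ od f → J(-n | r) = 1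

/-- The order modulo two of the Euler factor at a prime. -/
noncomputable def wt (r : ℕ) : ℕ := if r ∣ NN then 1 else if Rt r then 2 else 0

/-- The order modulo two of the product of the Euler factors. -/
noncomputable def mm (f : ℤ) : ℕ := ∑ r ∈ (od f).natAbs.primeFactors, wt r

end

variable [Md]

variable {n : ℕ} {S : HS n} {f d : ℤ}

/-- The system of Heegner points is an Euler system for the trivial twist. -/
noncomputable def es (S : HS n) : ES S 1 where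
  y := S.y
  gal c h g hg a := by
    rw [tw, show chi 1 g = 1 by simpa using chi_sq 1 g, Units.val_one, one_smul,
      S.gal c h g hg a]
  trace := S.trace
  kron := S.kron

theorem es_ychi (e : ℤ) : (es S).ychi e = S.ychi e := rfl

/-- The product of the Euler factors at the odd primes of `f`. -/
noncomputable def Eul (S : HS n) (f : ℤ) (l : ℕ) (φ : ℕ → Gam) (ε : ℕ → ℤ) :
    MonoidAlgebra ℤ (S.C l) :=
  ∏ r ∈ (od f).natAbs.primeFactors, if r ∣ NN then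
    MonoidAlgebra.single 1 (ε r) - MonoidAlgebra.single (S.ψ l (φ r)) 1 else
    MonoidAlgebra.single 1 (al r) - MonoidAlgebra.single (S.ψ l (φ r)) 1 -
      MonoidAlgebra.single (S.ψ l (φ r))⁻¹ 1

/-- The congruence between the system for `f` and a system for `d`. -/
def Cong (Y : ES S f) (Y₀ : ES S d) : Prop := ∃ (φ : ℕ → Gam) (ε : ℕ → ℤ), (∀ r, Odd (ε r)) ∧
  (∀ r ∈ (od f).natAbs.primeFactors, ∃ w : Plc, w.p = r ∧ IsFrob w r (φ r)) ∧
  ∀ l, Adm n l → ∀ a, ∃ u : EE,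
    (∀ g ∈ GK n, S.ψ l g = 1 → chi f g = 1 → chi d g = 1 → g • u = u) ∧
    Y.y l a = shA _ EE (Eul S f l φ ε) (Y₀.y l) a + 2 • u

end Pool.Agent.B6.B7
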