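import Pool.Agent.Lib.MP_696deb_nt.B6.LOK0

/-! The twisted Kummer condition with coefficients in an arbitrary finite group. -/

set_option autoImplicit false

open scoped NNReal Classical

namespace Pool.Agent.B6.B7

open Pool.Agent.Lib.MP_696deb_nt Pool.Agent.Lib.MP_696deb_nt.B2

section

variable [Cw] (d : ℤ) (g : Gam) (P Q : EE)

theorem tw_add : tw d g (P + Q) = tw d g P + tw d g Q := by
  rw [tw, tw, tw, smul_add, smul_add]

theorem tw_neg : tw d g (-P) = -tw d g P := by rw [tw, tw, smul_neg, smul_neg]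

theorem tw_sub : tw d g (P - Q) = tw d g P - tw d g Q := by rw [tw, tw, tw, smul_sub, smul_sub]

theorem tw_zero : tw d g 0 = 0 := by rw [tw, smul_zero, smul_zero]

theorem tw_nsmul (k : ℕ) : tw d g (k • P) = k • tw d g P := by
  rw [tw, tw, smul_comm g k, smul_comm k (chi d g : ℤ)]

theorem tw_mul (h : Gam) : tw d (g * h) P = tw d g (tw d h P) := by
  rw [tw, tw, tw, map_mul, Units.val_mul, mul_smul, mul_smul, smul_comm g (chi d h : ℤ)]

end

variable [Md]

/-- Cochains that are coboundaries in the group of all points with the twisted action. -/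
def KumP (T : Tate) (f : ℤ) (m : ℕ) (D : Subgroup Gam) (x : Gam → Fin 2 → ZMod (2 ^ m)) : Prop :=
  ∃ S : EE, ∀ g ∈ D, T.emb m (x g) = tw f g S - S

/-- The twisted Kummer condition with coefficients in `B`. -/
def KumC (T : Tate) (f : ℤ) (D : Subgroup Gam) {B : Type} [AddCommGroup B]
    (c : Gam → Fin 2 → B) : Prop :=
  ∀ (m : ℕ) (p : B →+ ZMod (2 ^ m)), KumP T f m D fun g i => p (c g i)

variable {T : Tate} {f : ℤ} {D : Subgroup Gam} {m : ℕ}

theorem KumP.zero : KumP T f m D 0 := ⟨0, fun g _ => by simp [tw_zero]⟩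

theorem KumP.add {x y : Gam → Fin 2 → ZMod (2 ^ m)} (h : KumP T f m D x) (k : KumP T f m D y) :
    KumP T f m D (x + y) := by
  obtain ⟨S, h⟩ := h
  obtain ⟨S', k⟩ := k
  refine ⟨S + S', fun g hg => ?_⟩
  rw [Pi.add_apply, map_add, h g hg, k g hg, tw_add]
  abel

theorem KumP.neg {x : Gam → Fin 2 → ZMod (2 ^ m)} (h : KumP T f m D x) : KumP T f m D (-x) := by
  obtain ⟨S, h⟩ := h
  refine ⟨-S, fun g hg => ?_⟩
  rw [Pi.neg_apply, map_neg, h g hg, tw_neg]
  abel

theorem KumP.congr {x y : Gam → Fin 2 → ZMod (2 ^ m)} (h : KumP T f m D x)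
    (k : ∀ g ∈ D, y g = x g) : KumP T f m D y :=
  h.imp fun _ h g hg => (k g hg).symm ▸ h g hg

variable {B : Type} [AddCommGroup B]

theorem KumC.zero : KumC T f D (0 : Gam → Fin 2 → B) := fun _ p =>
  KumP.zero.congr fun _ _ => funext fun _ => map_zero p

theorem KumC.add {c c' : Gam → Fin 2 → B} (h : KumC T f D c) (k : KumC T f D c') :
    KumC T f D (c + c') := fun m p =>
  ((h m p).add (k m p)).congr fun _ _ => funext fun _ => map_add p _ _

theorem KumC.neg {c : Gam → Fin 2 → B} (h : KumC T f D c) : KumC T f D (-c) := fun m p =>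
  (h m p).neg.congr fun _ _ => funext fun _ => map_neg p _

theorem KumC.congr {c c' : Gam → Fin 2 → B} (h : KumC T f D c) (k : ∀ g ∈ D, c' g = c g) :
    KumC T f D c' := fun m p => (h m p).congr fun g hg => by rw [k g hg]

theorem KumC.map {B' : Type} [AddCommGroup B'] {c : Gam → Fin 2 → B} (h : KumC T f D c)
    (φ : B →+ B') : KumC T f D fun g i => φ (c g i) := fun m p => h m (p.comp φ)

/-- The local condition at two. -/
def LK (T : Tate) (f : ℤ) (D : Subgroup Gam) (B : Type) [AddCommGroup B] :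
    AddSubgroup (Gam → Fin 2 → B) where
  carrier := {c | KumC T f D c ∧ ∀ g ∉ D, c g = 0}
  zero_mem' := ⟨KumC.zero, fun _ _ => rfl⟩
  add_mem' h k := ⟨h.1.add k.1, fun g hg => by rw [Pi.add_apply, h.2 g hg, k.2 g hg, add_zero]⟩
  neg_mem' h := ⟨h.1.neg, fun g hg => by rw [Pi.neg_apply, h.2 g hg, neg_zero]⟩

theorem mem_LK {c : Gam → Fin 2 → B} : c ∈ LK T f D B ↔ KumC T f D c ∧ ∀ g ∉ D, c g = 0 :=
  Iff.rfl

/-- On `D` the action `a` is the one of the twisted Tate module. -/
def TAct (T : Tate) (f : ℤ) (D : Subgroup Gam) (a : Gam → (Fin 2 → B) →+ Fin 2 → B) : Prop :=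
  ∀ (m : ℕ) (p : B →+ ZMod (2 ^ m)), ∀ g ∈ D, ∀ x,
    (fun i => p (a g x i)) = (chi f g : ℤ) • (mred m (T.ρ g)).mulVec fun i => p (x i)

/-- The twisted action on torsion points. -/
theorem _root_.Pool.Agent.B6.Tate.tw_emb (T : Tate) (f : ℤ) (g : Gam)
    (x : Fin 2 → ZMod (2 ^ m)) :
    tw f g (T.emb m x) = T.emb m ((chi f g : ℤ) • (mred m (T.ρ g)).mulVec x) := by
  rw [tw, T.smul, map_zsmul]

end Pool.Agent.B6.B7
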