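import Pool.Agent.Lib.MP_696deb_nt.B6.D2
import Pool.Agent.Lib.MP_696deb_nt.B7.D1
import Pool.Agent.Lib.MP_696deb_nt.B7.LOK0

/-! Selmer groups for twists by arbitrary squarefree integers. -/

set_option autoImplicit false

open scoped NNReal Classical
open Finset Matrix NumberTheorySymbols PowerSeries

namespace Pool.Agent.B6.B7

open Pool.Agent.Lib.MP_696deb_nt Pool.Agent.Lib.MP_696deb_nt.B2

variable [Md]

/-- The data of a tower: a conductor, places above its primes and characters. -/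
structure Tp where
  pl : Plc
  ps : Finset Plc
  c : ℕ
  ν : ∀ {n : ℕ} (S : HS n) (s : ℕ), S.C c →* Multiplicative (ZMod (2 ^ s))

/-- The hypotheses on the places of a tower. -/
structure TOk (n : ℕ) (lam : Tp) : Prop where
  adm : Adm n lam.c
  mem : lam.pl ∈ lam.ps
  dvd : ∀ w ∈ lam.ps, w.p ∣ lam.c
  ex : ∀ w : Plc, w.p ∣ lam.c → ∃ v ∈ lam.ps, w.p = v.p
  inj : ∀ w ∈ lam.ps, ∀ v ∈ lam.ps, w.p = v.p → w = v
  nrt : ∀ w : Plc, w.p ∣ lam.c → ¬ Rt w.p

/-- Characters of level `k` that are dihedral and ramify outside `lam` like the character of `f`.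
At the odd primes of `f` the value at Frobenius is a generator modulo two. -/
structure Chr0 (f : ℤ) (n k : ℕ) (lam : Tp) (ψ : Gam → Lam) : Prop where
  sm : Sm (GK n) ψ
  one : ψ 1 - 1 ∈ aa k k
  mul : ∀ g ∈ GK n, ∀ h ∈ GK n, ψ (g * h) - ψ g * ψ h ∈ aa k k
  res : ∀ g, ψ g - 1 ∈ aa 1 1
  dih : ∀ g ∉ GK n, ψ (g * g) - 1 ∈ aa k k
  unr : ∀ w : Plc, ¬ w.p ∣ lam.c → ∀ σ ∈ GK n ⊓ Ine w, ψ σ - ((chi f σ : ℤ) : Lam) ∈ aa k k
  dec : ∀ w : Plc, w.p = 2 → ∀ g ∈ GK n ⊓ Dec w, ψ g - ((chi f g : ℤ) : Lam) ∈ aa k k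
  gf : ∀ w : Plc, (w.p : ℤ) ∣ od f → ∀ φ, IsFrob w w.p φ →
    ∃ u : Lam, IsUnit u ∧ ψ φ - (1 + u * X) ∈ aa 1 k

/-- The same, with a generator of the tower. -/
structure Chr (f : ℤ) (n k : ℕ) (lam : Tp) (ψ : Gam → Lam) : Prop extends Chr0 f n k lam ψ where
  gen : ∃ z, Gen lam.pl z ∧ ψ z - (1 + X) ∈ aa k k

/-- Inert places that are deep for the level `k`. -/
structure DpL (n k : ℕ) (T : Tate) (lam : Tp) (ψ : Gam → Lam) (w : Plc) : Prop where
  adm : Adm n w.p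
  ne : ¬ w.p ∣ lam.c
  rho : mred (k + 2) (T.ρ (cc * fr w)) = 1
  psi : ψ (cc * fr w) - 1 ∈ aa k k

section

variable (T : Tate) (n : ℕ) (f : ℤ) (lam : Tp) (ψ : Gam → Lam)

/-- Selmer cocycles: no condition above the odd part of `f` and at the prime of the tower,
coboundaries on inertia above the other bad primes, the twisted Kummer condition at two, the
condition `ty` at the places in `Q`. -/
structure InSU (Q : Finset Plc) (ty : Plc → Ty) {B : Type} [AddCommGroup B] [Module Lam B]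
    (c : Gam → Fin 2 → B) : Prop where
  z1 : c ∈ Z1 (GK n) (act T ψ B)
  unr : ∀ w : Plc, ¬ w.p ∣ 2 * NN → ¬ (w.p : ℤ) ∣ od f → ¬ w.p ∣ lam.c → (∀ v ∈ Q, w.p ≠ v.p) →
    ∀ σ ∈ GK n ⊓ Ine w, c σ = 0
  lur : ∀ w : Plc, w.p ∣ Nf f → ∃ x, ∀ σ ∈ Ine w, c σ = cob (act T ψ B) x σ
  kum : KumC T f (GK n ⊓ Dec w2) c
  dp : ∀ w ∈ Q, (c (fq w), c (gn w)) ∈ (ty w).cond B

/-- The module of these cocycles. -/
noncomputable def SU (Q : Finset Plc) (ty : Plc → Ty) (B : Type) [AddCommGroup B] [Module Lam B] :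
    Submodule Lam (Gam → Fin 2 → B) where
  carrier := {c | InSU T n f lam ψ Q ty c}
  zero_mem' := ⟨zero_mem _, fun _ _ _ _ _ _ _ => rfl,
    fun _ _ => ⟨0, fun σ _ => (lf_cob_zero _ σ).symm⟩, KumC.zero, fun _ _ => zero_mem _⟩
  add_mem' {c c'} h h' := ⟨add_mem h.z1 h'.z1, fun w a b d e σ hσ => by
      rw [Pi.add_apply, h.unr w a b d e σ hσ, h'.unr w a b d e σ hσ, add_zero],
    fun w hw => by
      obtain ⟨x, hx⟩ := h.lur w hw
      obtain ⟨y, hy⟩ := h'.lur w hw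
      exact ⟨x + y, fun σ hσ => by rw [Pi.add_apply, hx σ hσ, hy σ hσ, lf_cob_add]⟩,
    h.kum.add h'.kum, fun w hw => add_mem (h.dp w hw) (h'.dp w hw)⟩
  smul_mem' a c h := ⟨Z1_smul T ψ h.z1 a, fun w a' b d e σ hσ => by
      rw [Pi.smul_apply, h.unr w a' b d e σ hσ, smul_zero],
    fun w hw => by
      obtain ⟨x, hx⟩ := h.lur w hw
      exact ⟨a • x, fun σ hσ => by
        simp only [Pi.smul_apply, hx σ hσ, cob, act_apply, map_smul, smul_sub]⟩,
    h.kum.map (DistribSMul.toAddMonoidHom B a), fun w hw => Submodule.smul_mem _ a (h.dp w hw)⟩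

theorem mem_SU {Q : Finset Plc} {ty : Plc → Ty} {B : Type} [AddCommGroup B] [Module Lam B]
    {c : Gam → Fin 2 → B} : c ∈ SU T n f lam ψ Q ty B ↔ InSU T n f lam ψ Q ty c := Iff.rfl

/-- The cocycles that vanish at the square of Frobenius of the prime of the tower. -/
noncomputable def SM (Q : Finset Plc) (ty : Plc → Ty) (B : Type) [AddCommGroup B] [Module Lam B] :
    Submodule Lam (Gam → Fin 2 → B) :=
  SU T n f lam ψ Q ty B ⊓ LinearMap.ker (LinearMap.proj (fq lam.pl))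

theorem mem_SM {Q : Finset Plc} {ty : Plc → Ty} {B : Type} [AddCommGroup B] [Module Lam B]
    {c : Gam → Fin 2 → B} :
    c ∈ SM T n f lam ψ Q ty B ↔ InSU T n f lam ψ Q ty c ∧ c (fq lam.pl) = 0 := Iff.rfl

/-- The modules of the patching argument. -/
noncomputable def SS (k : ℕ) (Q : Finset Plc) (ty : Plc → Ty) :
    Submodule Lam (GK n → Fin 2 → Ak k) := (SM T n f lam ψ Q ty (Ak k)).map (resK n _)

end

/-- The hypotheses on the places, which are stable under conjugation of the character. -/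
structure SOk0 (T : Tate) (n : ℕ) (f : ℤ) (k : ℕ) (lam : Tp) (ψ : Gam → Lam) (Q : Finset Plc) :
    Prop where
  nok : Nok n
  fok : Fok n f
  tok : TOk n lam
  chr : Chr0 f n k lam ψ
  deep : ∀ w ∈ Q, DpL n k T lam ψ w
  inj : ∀ w ∈ Q, ∀ v ∈ Q, w.p = v.p → w = v

/-- The hypotheses under which Selmer groups are studied. -/
structure SOk (T : Tate) (n : ℕ) (f : ℤ) (k : ℕ) (lam : Tp) (ψ : Gam → Lam) (Q : Finset Plc) :
    Prop where
  nok : Nok n
  fok : Fok n f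
  tok : TOk n lam
  chr : Chr f n k lam ψ
  deep : ∀ w ∈ Q, DpL n k T lam ψ w
  inj : ∀ w ∈ Q, ∀ v ∈ Q, w.p = v.p → w = v

theorem SOk.sok0 {T : Tate} {n k : ℕ} {f : ℤ} {lam : Tp} {ψ : Gam → Lam} {Q : Finset Plc}
    (h : SOk T n f k lam ψ Q) : SOk0 T n f k lam ψ Q :=
  ⟨h.nok, h.fok, h.tok, h.chr.toChr0, h.deep, h.inj⟩

section

variable {n : ℕ} (S : HS n) (T : Tate) (k : ℕ) (lam : Tp) (f : ℤ)

/-- The towers at level `k`. -/
structure HS.Tw : Prop where
  tok : TOk n lam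
  gen : ∃ z, Gen lam.pl z ∧ (lam.ν S (2 * k + 3) (S.ψ lam.c z)).toAdd = 1
  gf : ∀ v : Plc, (v.p : ℤ) ∣ f → ∀ g, IsFrob v v.p g →
    Odd (lam.ν S (2 * k + 3) (S.ψ lam.c g)).toAdd.val

/-- The character of the branch `e` on the class group. -/
noncomputable def HS.Psi (e : ℤ) (x : S.C lam.c) : Lam :=
  ((S.gen e (S.pr 1 lam.c x) : ℤ) : Lam) * (1 + X) ^ (lam.ν S (2 * k + 3) x).toAdd.val

/-- The character of the branch `e` on the Galois group. -/
noncomputable def HS.psi (e : ℤ) (g : Gam) : Lam := HS.Psi S k lam e (S.ψ lam.c g)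

/-- The character of the branch `f e`. -/
noncomputable def HS.psf (e : ℤ) (g : Gam) : Lam := ((chi f g : ℤ) : Lam) * HS.psi S k lam e g

/-- The elements that act trivially at level `k` on all branches. -/
noncomputable def HS.N : Subgroup Gam where
  carrier := {z | z ∈ GK n ∧ mred (k + 2) (T.ρ z) = 1 ∧ (Adm n lam.c → S.ψ lam.c z = 1) ∧
    chi f z = 1}
  one_mem' := ⟨one_mem _, by simp [mred], fun h =>
    by simpa using S.mul _ h 1 (one_mem _) 1 (one_mem _), map_one _⟩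
  mul_mem' := fun {x y} hx hy => ⟨mul_mem hx.1 hy.1, by
    have h1 := hx.2.1
    have h2 := hy.2.1
    unfold mred at h1 h2 ⊢
    rw [map_mul, Matrix.map_mul, h1, h2, one_mul], fun h => by
    rw [S.mul _ h x hx.1 y hy.1, hx.2.2.1 h, hy.2.2.1 h, one_mul], by
    rw [map_mul, hx.2.2.2, hy.2.2.2, one_mul]⟩
  inv_mem' := fun {x} hx => ⟨inv_mem hx.1, by
    have h1 := hx.2.1
    have h2 := congrArg (mred (k + 2)) (map_mul T.ρ x⁻¹ x)
    unfold mred at h1 h2 ⊢
    rw [Matrix.map_mul, h1, mul_one, inv_mul_cancel, map_one] at h2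
    rw [← h2]
    simp, fun h => by
    have h1 := S.mul _ h _ (inv_mem hx.1) _ hx.1
    have h2 := S.mul _ h 1 (one_mem _) 1 (one_mem _)
    rw [mul_one, left_eq_mul] at h2
    rw [inv_mul_cancel, h2, hx.2.2.1 h, mul_one] at h1
    exact h1.symm, by rw [map_inv, hx.2.2.2, inv_one]⟩

theorem HS.mem_N {z : Gam} : z ∈ HS.N S T k lam f ↔ z ∈ GK n ∧ mred (k + 2) (T.ρ z) = 1 ∧
    (Adm n lam.c → S.ψ lam.c z = 1) ∧ chi f z = 1 := Iff.rfl

/-- Places that are deep for all branches. -/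
structure HS.Dp (w : Plc) : Prop where
  adm : Adm n w.p
  ne : ¬ w.p ∣ lam.c
  mem : cc * fr w ∈ HS.N S T k lam f

/-- Sets of deep places above different primes. -/
structure HS.DpS (Q : Finset Plc) : Prop where
  dp : ∀ w ∈ Q, HS.Dp S T k lam f w
  inj : ∀ w ∈ Q, ∀ v ∈ Q, w.p = v.p → w = v

/-- Properties of deep places that hold outside of a proper subgroup. -/
def HS.Often (P : Plc → Prop) : Prop := ∃ (m : ℕ) (c : Gam → ZMod (2 ^ m)), Sm (GK n) c ∧
  IsHom (HS.N S T k lam f) c ∧ (∃ z ∈ HS.N S T k lam f, c z + c (cc * z * cc) ≠ 0) ∧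
    ∀ w, HS.Dp S T k lam f w → c (fq w) ≠ 0 → P w

end

end Pool.Agent.B6.B7
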