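import Pool.Agent.Lib.MP_696deb_nt.B5.CJb
import Pool.Agent.Lib.MP_696deb_nt.B4.GEe

/-! Power series on a residue disc: definitions and the analytic statements. -/

set_option autoImplicit false

open Polynomial Filter Topology
open scoped Classical Real ModularForm

namespace Pool.Agent.B6.D9

open Pool.Agent.Lib.MP_696deb_nt Pool.Agent.B4.GE
open Pool.Agent.G5 (Cq Cg)

/-- An eta quotient of level nine. -/
noncomputable def rr (z : ℂ) : ℂ := (η z / η (9 * z)) ^ 3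

/-- The coordinate. -/
noncomputable def tt (z : ℂ) : ℂ := 3 + rr z

/-- Laurent expansions of exact order `-e` with unit leading coefficient. -/
def UL (A : ValuationSubring ℂ) (e : ℤ) (F : ℂ → ℂ) : Prop :=
  ∃ B, QE (fun z => q1 z ^ e * F z) B ∧ Cf A.valuation.integer.toAddSubgroup B ∧
    A.valuation (PowerSeries.coeff 0 B) = 1

/-- Modular functions with integral expansions at all cusps. -/
def IM (A : ValuationSubring ℂ) (L : ℕ) (h : ℂ → ℂ) : Prop :=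
  Inv0 L h ∧ ∀ g : MZ, g.det = 1 → (fun z => h (act g (L * z))) ∈ LR A.valuation.integer

/-- Modular functions with rational expansion at infinity. -/
def Ra (L : ℕ) (h : ℂ → ℂ) : Prop := ∀ σ : ℂ ≃+* ℂ, Cg L σ h h

/-- Both. -/
def Gf (A : ValuationSubring ℂ) (L : ℕ) (h : ℂ → ℂ) : Prop := IM A L h ∧ Ra L h

/-- The derivative with respect to the coordinate. -/
noncomputable def dd (h : ℂ → ℂ) (z : ℂ) : ℂ := deriv h z / deriv tt z

/-- The divided higher derivatives. -/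
noncomputable def Dv (n : ℕ) (h : ℂ → ℂ) (z : ℂ) : ℂ := dd^[n] h z / n.factorial

/-- The expansion at `z` in powers of the coordinate. -/
noncomputable def Ty (z : ℂ) (h : ℂ → ℂ) : PowerSeries ℂ := PowerSeries.mk fun n => Dv n h z

/-- Polynomials with integral coefficients. -/
def I1 (A : ValuationSubring ℂ) (P : ℂ[X]) : Prop := ∀ k, A.valuation (P.coeff k) ≤ 1

/-- The same in two variables. -/
def I2 (A : ValuationSubring ℂ) (P : ℂ[X][X]) : Prop := ∀ k, I1 A (P.coeff k)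

/-- The modular equation of degree two. -/
def ps {K : Type*} [CommRing K] (t T : K) : K := T ^ 3 - t ^ 2 * T ^ 2 + 9 * t * T + t ^ 3 - 54

/-- The power sums of its roots. -/
def pw {K : Type*} [CommRing K] (t : K) : ℕ → K
  | 0 => 3
  | 1 => t ^ 2
  | 2 => t ^ 4 - 18 * t
  | n + 3 => t ^ 2 * pw t (n + 2) - 9 * t * pw t (n + 1) + (54 - t ^ 3) * pw t n

/-! ### Block A: the coordinate -/

def InvStmt : Prop := Inv0 9 tt

def TexStmt : Prop := ∃ R : PowerSeries ℤ, QE (fun z => q1 z ^ 1 * tt z)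
  (toC (1 + 5 * PowerSeries.X ^ 3 - 7 * PowerSeries.X ^ 6 + PowerSeries.X ^ 7 * R))

def CuspStmt : Prop := ∀ A : ValuationSubring ℂ, A.valuation 3 = 1 → ∀ g : MZ, g.det = 1 →
  ∃ e : ℤ, UL A e (fun z => rr (act g (9 * z))) ∧ (¬ G0 9 g → e ≤ 0)

def TimStmt : Prop := ∀ (A : ValuationSubring ℂ) (L : ℕ), 9 ∣ L → A.valuation L = 1 → Gf A L tt

/-- Functions with poles at infinity only are polynomials in the coordinate. -/
def PolyStmt : Prop := ∀ (S : AddSubgroup ℂ) (n : ℕ) (h : ℂ → ℂ) (B : PowerSeries ℂ), Inv0 9 h →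
  (∀ g : MZ, g.det = 1 → ¬ G0 9 g → Bdd fun z => h (act g z)) →
  QE (fun z => q1 z ^ n * h z) B → Cf S B → ∃ P : ℂ[X], (∀ k, P.coeff k ∈ S) ∧ P.natDegree ≤ n ∧
    P.coeff n = PowerSeries.coeff 0 B ∧ ∀ z : ℂ, 0 < z.im → h z = P.eval (tt z)

def JStmt : Prop := ∀ A : ValuationSubring ℂ, A.valuation 3 = 1 → ∃ P Q : ℂ[X], P.Monic ∧ Q.Monic ∧
  I1 A P ∧ I1 A Q ∧ P.natDegree = Q.natDegree + 1 ∧
    ∀ z : ℂ, 0 < z.im → Q.eval (tt z) * jf z = P.eval (tt z)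

def RotStmt : Prop := ∀ z : ℂ, 0 < z.im → tt (z + 1 / 3) = q1 (-1 / 3) * tt z

def UnitStmt : Prop := ∀ A : ValuationSubring ℂ, A.valuation 3 = 1 → ∀ z : ℂ, 0 < z.im →
  A.valuation (jf z) ≤ 1 → A.valuation (tt z ^ 3 - 27) = 1

def DerStmt : Prop := ∀ z : ℂ, 0 < z.im →
  (deriv tt z / (2 * π * Complex.I)) ^ 12 * Dl (9 * z) ^ 3 = Dl (3 * z) ^ 5

def DuStmt : Prop := ∀ (A : ValuationSubring ℂ) (L : ℕ), 9 ∣ L → A.valuation L = 1 → ∀ g : MZ,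
  g.det = 1 → ∃ e : ℤ, UL A e fun z => deriv (fun u => tt (act g (L * u))) z / (2 * π * Complex.I)

def HkStmt : Prop := ∀ z : ℂ, 0 < z.im →
  tt (2 * z) + tt (z / 2) + tt ((z + 1) / 2) = tt z ^ 2 ∧
  tt (2 * z) * tt (z / 2) + tt (2 * z) * tt ((z + 1) / 2) + tt (z / 2) * tt ((z + 1) / 2) =
    9 * tt z ∧ tt (2 * z) * tt (z / 2) * tt ((z + 1) / 2) = 54 - tt z ^ 3

/-! ### Block B: expansions -/

def TayStmt : Prop := ∀ z : ℂ, 0 < z.im → Ty z tt = PowerSeries.C (tt z) + PowerSeries.X ∧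
  (∀ c, Ty z (fun _ => c) = PowerSeries.C c) ∧ (∀ h k, h =ᶠ[𝓝 z] k → Ty z h = Ty z k) ∧
  ∀ h, AnalyticAt ℂ h z → (∀ n, AnalyticAt ℂ (Dv n h) z) ∧ ∀ k, AnalyticAt ℂ k z →
    Ty z (fun u => h u + k u) = Ty z h + Ty z k ∧ Ty z (fun u => h u * k u) = Ty z h * Ty z k

/-- Change of the derivation in divided powers. -/
def HasStmt : Prop := ∀ (R : Type) [CommRing R] [Algebra ℚ R] (B : Subring R) (d : R →+ R)
  (s u : R), (∀ a b, d (a * b) = d a * b + a * d b) →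
  (∀ b ∈ B, ∀ n : ℕ, ((n.factorial : ℚ)⁻¹ • d^[n] b) ∈ B) → s ∈ B → u ∈ B → u * d s = 1 →
  ∀ b ∈ B, ∀ n : ℕ, ((n.factorial : ℚ)⁻¹ • (fun a => u * d a)^[n] b) ∈ B

/-- Integral expansions are stable under divided derivatives. -/
def HqStmt : Prop := ∀ (R : Subring ℂ) (F : ℂ → ℂ) (n : ℕ), F ∈ LR R →
  (fun z => (fun G u => deriv G u / (2 * π * Complex.I * q1 u))^[n] F z / n.factorial) ∈ LR R

def DimStmt : Prop := ∀ (A : ValuationSubring ℂ) (L n : ℕ) (h : ℂ → ℂ), 9 ∣ L →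
  A.valuation L = 1 → IM A L h → IM A L (Dv n h)

def DcqStmt : Prop := ∀ (L n : ℕ) (σ : ℂ ≃+* ℂ) (h h' : ℂ → ℂ), 9 ∣ L → L ≠ 0 → Cg L σ h h' →
  Cg L σ (Dv n h) (Dv n h')

/-! ### Block T: transport -/

def FldStmt : Prop := ∀ (A : ValuationSubring ℂ) (L : ℕ), A.valuation L = 1 → ∃ D : ℂ[X],
  D.Monic ∧ I1 A D ∧ ∀ h, IM A L h → ∃ B : ℂ[X][X], I2 A B ∧
    ∀ z : ℂ, 0 < z.im → D.eval (jf z) * h z = B.evalEval (jf z) (jN L z)

def PhiStmt : Prop := ∀ (A : ValuationSubring ℂ) (L : ℕ), A.valuation L = 1 →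
  ∃ (Φ : ℂ[X][X]) (D : ℂ[X]) (E : ℂ → ℂ), I2 A Φ ∧ D.Monic ∧ I1 A D ∧ IM A L E ∧
    ∀ z : ℂ, 0 < z.im → Φ.evalEval (jf z) (jN L z) = 0 ∧
      (derivative Φ).evalEval (jf z) (jN L z) * E z = D.eval (jf z)

def RfStmt : Prop := ∀ (A : ValuationSubring ℂ) (L : ℕ) (h : ℂ → ℂ), A.valuation L = 1 →
  Gf A L h → ∃ e B, RF L e B h ∧ A.valuation (e.leadingCoeff : ℂ) = 1

def RegStmt : Prop := ∀ (R : Type) [CommRing R], (∀ x : R, IsUnit x ∨ IsNilpotent x) →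
  ∀ (F G : PowerSeries R) (n : ℕ), IsUnit (PowerSeries.coeff n F) → F * G = 0 → G = 0

def RootStmt : Prop := ∀ (R : Type) [CommRing R] [IsLocalRing R],
  (∀ (F G : PowerSeries R) (n : ℕ), IsUnit (PowerSeries.coeff n F) → F * G = 0 → G = 0) →
  ∀ (Φ : (PowerSeries R)[X]) (Y Y' : PowerSeries R) (n : ℕ), Φ.eval Y = 0 → Φ.eval Y' = 0 →
    (∀ k, ¬ IsUnit (PowerSeries.coeff k (Y - Y'))) →
    IsUnit (PowerSeries.coeff n ((derivative Φ).eval Y')) → Y = Y'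

def ShiftStmt : Prop := ∀ (R : Type) [CommRing R] (e : R) (K : ℕ), e ^ K = 0 →
  ∃ s : PowerSeries R →+* PowerSeries R, (∀ c, s (PowerSeries.C c) = PowerSeries.C c) ∧
    s PowerSeries.X = PowerSeries.C e + PowerSeries.X ∧
    (∀ F, PowerSeries.coeff 0 (s F) = ∑ n ∈ Finset.range K, PowerSeries.coeff n F * e ^ n) ∧
    ∀ F n, e ∣ PowerSeries.coeff n (s F - F)

/-- Values at a point of the same residue disc are values of the expansion. -/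
def TrStmt : Prop := ∀ (A : ValuationSubring ℂ) (L : ℕ) (z z' : ℂ), 9 ∣ L → A.valuation L = 1 →
  0 < z.im → 0 < z'.im → A.valuation (jf z) ≤ 1 → A.valuation (jf z') ≤ 1 →
  A.valuation (tt z' - tt z) < 1 → (tt z' = tt z ∨ ∀ x, A.valuation x < 1 →
    ∃ n : ℕ, A.valuation x ^ n ≤ A.valuation (tt z' - tt z)) →
  (∀ n, A.valuation (Dv n (jN L) z' - Dv n (jN L) z) < 1) →
  ∀ h, IM A L h → ∀ K : ℕ, A.valuation (h z' - ∑ n ∈ Finset.range K,
    Dv n h z * (tt z' - tt z) ^ n) ≤ A.valuation (tt z' - tt z) ^ K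

/-! ### Block U: the square class on a disc -/

/-- The homogeneous two-division cubic of a supersingular model. -/
def cf {K : Type*} [CommRing K] (b₂ b₄ b₆ c : ℤ) (X Z : K) : K :=
  4 * X ^ 3 + 4 * b₂ * X ^ 2 * Z + 4 * b₄ * X * Z ^ 2 + (c ^ 2 + 4 * b₆) * Z ^ 3

def LocStmt : Prop := ∀ (R : Type) [CommRing R] [IsDomain R] [IsDiscreteValuationRing R]
  (p e X Z W : R) (b₂ b₄ b₆ c : ℤ), Irreducible p → IsUnit e → 2 = e * p ^ 3 → Odd c →
  p ^ 3 + 2 * b₂ * p ^ 2 + 4 * b₄ * p + 2 * (c ^ 2 + 4 * b₆) = 0 → W ≠ 0 →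
  W ^ 2 = Z * cf b₂ b₄ b₆ c X Z → ∃ S g : R, e * Z * (e * p ^ 2 * X - Z) = S ^ 2 * (1 + p ^ 2 * g)

def UfdStmt : Prop := ∀ (R : Type) [CommRing R] [IsDomain R] [IsDiscreteValuationRing R]
  (p e : R) (X Z W : PowerSeries R) (b₂ b₄ b₆ c : ℤ), Irreducible p → IsUnit e → 2 = e * p ^ 3 →
  Odd c → p ^ 3 + 2 * b₂ * p ^ 2 + 4 * b₄ * p + 2 * (c ^ 2 + 4 * b₆) = 0 → W ≠ 0 →
  W ^ 2 = Z * cf b₂ b₄ b₆ c X Z → ∃ S g : PowerSeries R,
    PowerSeries.C e * Z * (PowerSeries.C (e * p ^ 2) * X - Z) =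
      S ^ 2 * (1 + PowerSeries.C (p ^ 2) * g)

end Pool.Agent.B6.D9
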