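import Pool.Agent.Lib.MP_696deb_nt.B7.D9
import Pool.Agent.Lib.MP_696deb_nt.B6.Cs
import Pool.Agent.Lib.MP_696deb_nt.B2.B3a

/-! Square classes at a place above two: definitions and the local statements. -/

set_option autoImplicit false

open scoped Classical NNReal

namespace Pool.Agent.B6.D9

open Pool.Agent.Lib.MP_696deb_nt Pool.Agent.Lib.MP_696deb_nt.B2

/-- Equality up to the square of a number fixed by `H`. -/
def Rel (H : Subgroup Gam) (a c : Qbar) : Prop := ∃ b, b ≠ 0 ∧ Fx H b ∧ a = b ^ 2 * c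

/-- Series with integral coefficients fixed by `H`. -/
def IF (w : Plc) (H : Subgroup Gam) (F : PowerSeries Qbar) : Prop :=
  ∀ n, Fx H (PowerSeries.coeff n F) ∧ w.V (PowerSeries.coeff n F) ≤ 1

/-- Truncated values. -/
noncomputable def tv (F : PowerSeries Qbar) (K : ℕ) (e : Qbar) : Qbar :=
  ∑ n ∈ Finset.range K, PowerSeries.coeff n F * e ^ n

/-- The number `a` is the value of `F` at `e`. -/
def Ap (w : Plc) (F : PowerSeries Qbar) (e a : Qbar) : Prop :=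
  ∀ K : ℕ, w.V (a - tv F K e) ≤ w.V e ^ K

/-- The invariant of a disc. -/
noncomputable def kv (g : PowerSeries Qbar) (β : Qbar) : Qbar :=
  PowerSeries.coeff 1 g * β + PowerSeries.coeff 3 g

theorem Rel.refl (H : Subgroup Gam) (a : Qbar) : Rel H a a :=
  ⟨1, one_ne_zero, fun _ _ => map_one _, by ring⟩

variable {H H' : Subgroup Gam} {a b c d : Qbar}

theorem Rel.symm (h : Rel H a c) : Rel H c a := by
  obtain ⟨b, h1, h2, rfl⟩ := h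
  exact ⟨b⁻¹, inv_ne_zero h1, fun g hg => by rw [map_inv₀, h2 g hg], by field_simp⟩

theorem Rel.mul (h : Rel H a c) (k : Rel H b d) : Rel H (a * b) (c * d) := by
  obtain ⟨x, h1, h2, rfl⟩ := h
  obtain ⟨y, k1, k2, rfl⟩ := k
  exact ⟨x * y, mul_ne_zero h1 k1, fun g hg => by rw [map_mul, h2 g hg, k2 g hg], by ring⟩

theorem Rel.trans (h : Rel H a b) (k : Rel H b c) : Rel H a c := by
  obtain ⟨x, h1, h2, rfl⟩ := h
  obtain ⟨y, k1, k2, rfl⟩ := k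
  exact ⟨x * y, mul_ne_zero h1 k1, fun g hg => by rw [map_mul, h2 g hg, k2 g hg], by ring⟩

theorem Rel.mono (h : Rel H a c) (k : H' ≤ H) : Rel H' a c :=
  h.imp fun _ e => ⟨e.1, fun g hg => e.2.1 g (k hg), e.2.2⟩

theorem Rel.prod {ι : Type*} (s : Finset ι) {u v : ι → Qbar} (h : ∀ i ∈ s, Rel H (u i) (v i)) :
    Rel H (∏ i ∈ s, u i) (∏ i ∈ s, v i) := by
  induction s using Finset.induction_on with
  | empty => exact .refl _ _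
  | insert i s hi ih =>
    rw [Finset.prod_insert hi, Finset.prod_insert hi]
    exact (h i (by simp)).mul (ih fun j hj => h j (by simp [hj]))

/-! ### Block C: local computations -/

/-- Numbers that agree modulo four agree up to squares. -/
def AsStmt : Prop := ∀ (w : Plc) (H : Subgroup Gam) (a c : Qbar), w.p = 2 → H ≤ Ine w → Fx H a →
  Fx H c → w.V c = 1 → w.V (a - c) ≤ w.V 4 → Rel H a c

def C1Stmt : Prop := ∀ (w : Plc) (p t c : Qbar) (ι : Type) [Fintype ι] (s : ι → Qbar)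
  (g : PowerSeries Qbar) (K : ℕ), w.p = 2 → w.V p ^ 3 = w.V 2 → w.V t ≤ w.V 2 → w.V c ≤ w.V 2 →
  (∀ n, ∑ i, s i ^ n = pw t n) → (∀ i, ps t (s i) = 0) →
  (∀ n, w.V (PowerSeries.coeff n g) ≤ 1) → 4 ≤ K →
  w.V (∏ i, (1 + p ^ 2 * tv g K (s i - c)) -
    (1 + p ^ 2 * PowerSeries.coeff 0 g) ^ 3 * (1 + 2 * p ^ 2 * kv g (c / 2))) ≤ w.V 4

def C2Stmt : Prop := ∀ (w : Plc) (p β : Qbar) (ι : Type) [Fintype ι] (e : ι → Qbar)
  (g : PowerSeries Qbar) (K : ℕ), w.p = 2 → w.V p ^ 3 = w.V 2 → w.V β ≤ 1 →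
  (∀ i, w.V (e i) ^ 12 ≤ w.V 2) → w.V (∑ i, e i - β * rt 2) < w.V (rt 2) →
  w.V (∑ i, e i ^ 3 - rt 2) < w.V (rt 2) →
  (∀ n ∈ ({2, 4, 5, 6} : Finset ℕ), w.V (∑ i, e i ^ n) < w.V (rt 2)) →
  (∀ n, w.V (PowerSeries.coeff n g) ≤ 1) → 4 ≤ K →
  w.V (∏ i, (1 + p ^ 2 * tv g K (e i)) - (1 + p ^ 2 * PowerSeries.coeff 0 g) ^ Fintype.card ι *
    (1 + p ^ 2 * rt 2 * kv g β)) < w.V (p ^ 2 * rt 2)

/-- The power sums over the leaves of the tree of depth three. -/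
def C3Stmt : Prop := ∀ (w : Plc) (t : Qbar) (S₁ S₂ S₃ : ℕ → Qbar), w.p = 2 → w.V t ≤ w.V 2 →
  ∀ (ι κ : Type) [Fintype ι] [Fintype κ] (a : ι → Qbar) (b : κ → Qbar) (u : κ → ι),
  (∀ n, S₁ n = ∑ i, a i ^ n) → (∀ n, S₂ n = ∑ j, b j ^ n) → (∀ n, S₁ n = pw t n) →
  (∀ n, S₂ n = ∑ i, (pw (a i) n - t ^ n)) → (∀ n, S₃ n = ∑ j, (pw (b j) n - a (u j) ^ n)) →
  (∀ n, ∑ j, a (u j) ^ n = 2 * S₁ n) →
  w.V (S₃ 2 - 2 * t) ≤ w.V 8 ∧ w.V (S₃ 6 - 4) ≤ w.V 8 ∧ w.V (S₃ 10) ≤ w.V 8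

/-- The size of the roots of the modular equation. -/
def NwStmt : Prop := ∀ (w : Plc) (t s : Qbar), w.p = 2 → ps t s = 0 →
  (w.V t ≤ w.V 2 → w.V s ^ 3 ≤ w.V 2) ∧ (w.V t ^ 3 ≤ w.V 2 → w.V s ^ 6 ≤ w.V 2) ∧
    (w.V t ^ 6 ≤ w.V 2 → w.V s ^ 12 ≤ w.V 2)

/-- Power sums over half of a family. -/
def C4Stmt : Prop := ∀ (w : Plc) (ι : Type) [Fintype ι] (s : ι → Qbar) (ε : ι → ℤˣ), w.p = 2 →
  (∀ g ∈ Ine w, ∃ u : Equiv.Perm ι, ∀ i, g (s i) = s (u i) ∧ ε (u i) = chi 2 g * ε i) →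
  (∀ i, w.V (s i) < 1) → w.V (∑ i with ε i = 1, s i ^ 2) < w.V (rt 2) ∧
    ∀ β, w.V β ≤ 1 → w.V (∑ i, s i ^ 2 - 4 * β ^ 2) < w.V 4 →
      w.V (∑ i with ε i = 1, s i - β * rt 2) < w.V (rt 2)

variable [Cw]

/-- The uniformizer. -/
noncomputable def pp : Qbar := 2 * er 0

/-- The unit. -/
noncomputable def ee : Qbar := 2 / pp ^ 3

/-- The part of the inertia group that fixes the points of order two. -/
noncomputable def JF (w : Plc) : Subgroup Gam := Ine w ⊓ MulAction.stabilizer Gam (er 0)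

/-- The part that also fixes the square root of two. -/
noncomputable def JJ (w : Plc) : Subgroup Gam := JF w ⊓ (chi 2).ker

/-- The descent map. -/
noncomputable def kap (P : EE) : Qbar :=
  if P = 0 then 1 else if xco P = er 0 then 3 * er 0 ^ 2 + WZ.b₂ / 2 * er 0 + WZ.b₄ / 2
    else xco P - er 0

/-- The homogeneous two-division cubic. -/
def cF {K : Type*} [CommRing K] (X Z : K) : K :=
  4 * X ^ 3 + WZ.b₂ * X ^ 2 * Z + 2 * WZ.b₄ * X * Z ^ 2 + WZ.b₆ * Z ^ 3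

/-- Supersingular reduction at two. -/
def Ss : Prop := Even WZ.a₁ ∧ Odd WZ.a₃

theorem mem_JF {w : Plc} {g : Gam} : g ∈ JF w ↔ g ∈ Ine w ∧ g (er 0) = er 0 := Iff.rfl

theorem mem_JJ {w : Plc} {g : Gam} : g ∈ JJ w ↔ g ∈ JF w ∧ chi 2 g = 1 := Iff.rfl

theorem kap_smul {g : Gam} (h : g (er 0) = er 0) (P : EE) : kap (g • P) = g (kap P) := by
  have e : xco (g • P) = er 0 ↔ xco P = er 0 := by
    rw [xco_smul]
    conv_lhs => rw [← h]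
    exact g.injective.eq_iff
  simp only [kap, smul_eq_zero_iff_eq, e]
  split_ifs <;> simp [h, xco_smul, map_ofNat]

theorem kap_ne (P : EE) : kap P ≠ 0 := by
  unfold kap
  split_ifs with h1 h2
  · exact one_ne_zero
  · rw [er_b₂, er_b₄, show _ + _ = (er 0 - er 1) * (er 0 - er 2) by ring]
    exact mul_ne_zero (sub_ne_zero.2 er_ne.1) (sub_ne_zero.2 er_ne.2.1)
  · exact sub_ne_zero.2 h2

/-! ### Block K: the descent map -/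

def PsStmt : Prop := ∃ ψ : EE → Qbar, (∀ R, ψ R ^ 2 = kap (2 • R)) ∧
  (∀ g : Gam, g (er 0) = er 0 → ∀ R, ψ (g • R) = g (ψ R)) ∧ (∀ R, ψ (R + T1) = ψ R) ∧
    ∀ R, ψ (R + T2) = -ψ R

def KnStmt : Prop := ∀ H : Subgroup Gam, (∀ g ∈ H, g (er 0) = er 0) →
  (∀ R : EE, (∀ g ∈ H, g • R = R) → Rel H (kap (2 • R)) 1) ∧
  ∀ (ι : Type) [Fintype ι] (P : ι → EE), (∀ g ∈ H, ∃ u : Equiv.Perm ι, ∀ i, g • P i = P (u i)) →
    Rel H (kap (∑ i, P i)) (∏ i, kap (P i))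

def RtStmt : Prop := Ss → ∀ w : Plc, w.p = 2 → w.V pp ^ 3 = w.V 2 ∧
  (∀ g ∈ JF w, g (er 1) = er 1 ∧ g (er 2) = er 2) ∧
  (∃ τ ∈ Ine w, τ (er 0) = er 1 ∧ τ (er 1) = er 2 ∧ τ (er 2) = er 0) ∧
  (∃ σ, IsFrob w 2 σ ∧ σ (er 0) = er 0) ∧ ∀ U : EE, 2 • U = 0 → (∀ g ∈ Ine w, g • U = U) → U = 0

def VgStmt : Prop := Ss → ∀ w : Plc, w.p = 2 →
  (∀ x, Fx (JF w) x → x ≠ 0 → ∃ k : ℤ, w.V x = w.V pp ^ k) ∧
  ∀ b, Fx (JJ w) b → w.V (b ^ 2 - 1) ≠ w.V (pp ^ 2 * rt 2)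

def KcStmt : Prop := Ss → ∀ w : Plc, w.p = 2 → ∀ Y : EE, (∀ g ∈ Ine w, g • Y = Y) →
  Rel (JF w) (kap Y) 1 → ∃ R : EE, (∀ g ∈ Ine w, g • R = R) ∧ 2 • R = Y

def SqStmt : Prop := Ss → ∀ w : Plc, w.p = 2 → ∀ X Z W : PowerSeries Qbar, IF w (JF w) X →
  IF w (JF w) Z → IF w (JF w) W → W ≠ 0 → W ^ 2 = Z * cF X Z → ∃ S g, IF w (JF w) S ∧
    IF w (JF w) g ∧ PowerSeries.C ee * Z * (PowerSeries.C (ee * pp ^ 2) * X - Z) =
      S ^ 2 * (1 + PowerSeries.C (pp ^ 2) * g)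

/-- The descent map on a family of points of one disc. -/
def NdStmt : Prop := Ss → ∀ (w : Plc) (H : Subgroup Gam) (ι : Type) [Fintype ι] (P : ι → EE)
  (e x z : ι → Qbar) (X Z S g : PowerSeries Qbar), w.p = 2 → H ≤ JF w → IF w H X → IF w H Z →
  IF w H S → IF w H g → PowerSeries.C ee * Z * (PowerSeries.C (ee * pp ^ 2) * X - Z) =
    S ^ 2 * (1 + PowerSeries.C (pp ^ 2) * g) →
  (∀ h ∈ H, ∃ u : Equiv.Perm ι, ∀ i, h • P i = P (u i) ∧ h (e i) = e (u i) ∧ h (z i) = z (u i)) →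
  (∀ i, w.V (e i) < 1 ∧ P i ≠ 0 ∧ xco (P i) ≠ er 0 ∧ z i ≠ 0 ∧ xco (P i) * z i = x i ∧
    Ap w X (e i) (x i) ∧ Ap w Z (e i) (z i)) →
  ∃ K, 4 ≤ K ∧ Rel H (kap (∑ i, P i)) (∏ i, (1 + pp ^ 2 * tv g K (e i)))

/-- The conclusion of the computation on one disc. -/
def Dk (w : Plc) (a b : EE) (k : Qbar) : Prop := (∀ g ∈ JF w, g • a = a) ∧
  (∀ g ∈ JJ w, g • b = b) ∧ Fx (JF w) k ∧ w.V k ≤ 1 ∧ Rel (JF w) (kap a) (1 + 2 * pp ^ 2 * k) ∧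
    ∃ c, Rel (JJ w) (kap b) c ∧ w.V (c - (1 + pp ^ 2 * rt 2 * k)) < w.V (pp ^ 2 * rt 2)

/-- The sum over all discs. -/
def SumStmt : Prop := Ss → ∀ (w : Plc) (σ : Gam) (ι : Type) [Fintype ι] (a b : ι → EE)
  (k : ι → Qbar) (m : ℤ) (R : EE), w.p = 2 → σ ∈ Dec w → σ (er 0) = er 0 →
  (∀ i, Dk w (a i) (b i) (k i)) → (∀ g ∈ Ine w, g • ∑ i, a i = ∑ i, a i) →
  (∀ S : EE, (∀ g ∈ Ine w, g • S = S) → 2 • S ≠ ∑ i, a i) → (∀ g ∈ JJ w, g • R = R) →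
  ∑ i, b i ≠ 2 • R + m • σ • ∑ i, a i

end Pool.Agent.B6.D9
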