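import Pool.Agent.Lib.MP_696deb_nt.B7.D9a
import Pool.Agent.Lib.MP_696deb_nt.B7.D9v
import Pool.Agent.Lib.MP_696deb_nt.B7.CMc

/-! Values of modular functions at Heegner points: definitions and statements. -/

set_option autoImplicit false

open scoped Classical
open Polynomial

namespace Pool.Agent.B6.D9

open Pool.Agent.Lib.MP_696deb_nt Pool.Agent.Lib.MP_696deb_nt.B2 Pool.Agent.Lib.MP_696deb_nt.B2.CM
open Pool.Agent.B4 (HgN)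
open Pool.Agent.B4.GE (jN Par Geo)
open Pool.Agent.Lib.MP_696deb_nt.B3.CM (fs th)
open Pool.Agent.B6.CM (yA)
open Pool.Agent.B6.B7.Dn (OkD)

/-- A Heegner point in a given class. -/
noncomputable def hp (L q c : ℕ) (r : ℤ) (u : Pc q c) : ℂ :=
  if h : ∃ τ, HgN L q c r τ ∧ cl _ (sp2 τ 1) = u then h.choose else Complex.I

/-- The value of a function there, as an algebraic number. -/
noncomputable def hv (L q c : ℕ) (r : ℤ) (h : ℂ → ℂ) (u : Pc q c) : Qbar := pre (h (hp L q c r u))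

/-- The expansion at the centre of the disc. -/
noncomputable def sr (L q : ℕ) (r : ℤ) (σ : Gam) (h : ℂ → ℂ) (u : Pc q 1) : PowerSeries Qbar :=
  PowerSeries.mk fun n => σ (hv L q 1 r (Dv n h) u)

/-- Valuation rings in which no element of the maximal ideal is infinitely close to a unit. -/
def Ar (A : ValuationSubring ℂ) : Prop :=
  ∀ x, A.valuation x < 1 → ∃ n : ℕ, A.valuation x ^ n ≤ A.valuation 2

/-- The standing hypotheses. -/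
structure Cx (L q : ℕ) (r : ℤ) (w : Plc) (A : ValuationSubring ℂ) : Prop where
  ok : OkD L q 1 r
  sqf : Squarefree q
  m8 : q % 8 = 3
  big : 4 * L ^ 2 < q
  nine : 9 ∣ L
  odd : Odd L
  p2 : w.p = 2
  ov : Over A w
  ar : Ar A

theorem hp_spec {L q c : ℕ} {r : ℤ} (ok : OkD L q c r) (u : Pc q c) :
    HgN L q c r (hp L q c r u) ∧ cl _ (sp2 (hp L q c r u) 1) = u := by
  have h := B7.Dn.exists_hg ok u
  rw [hp, dif_pos h]
  exact h.choose_spec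

theorem over_le {A : ValuationSubring ℂ} {w : Plc} (h : Over A w) (x y : Qbar) :
    A.valuation (jC x) ≤ A.valuation (jC y) ↔ w.V x ≤ w.V y := by
  rcases eq_or_ne y 0 with rfl | h0
  · simp
  have := (h (x / y)).1
  rwa [map_div₀, map_div₀, map_div₀, div_le_one₀ (zero_lt_iff.2 (by simpa using h0)),
    div_le_one₀ (zero_lt_iff.2 (by simpa using h0))] at this

theorem over_two {A : ValuationSubring ℂ} {w : Plc} (h : Over A w) (h2 : w.p = 2) :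
    A.valuation 2 < 1 := by
  have := (h 2).2.2 (by simpa [h2] using (b4a_V_p w).2)
  rwa [map_ofNat] at this

theorem ar_le {A : ValuationSubring ℂ} {w : Plc} (h : Over A w) (h2 : w.p = 2) (ha : Ar A)
    {e : Qbar} (he : e ≠ 0) (x : ℂ) (hx : A.valuation x < 1) :
    ∃ n : ℕ, A.valuation x ^ n ≤ A.valuation (jC e) := by
  obtain ⟨n, hn⟩ := ha x hx
  obtain ⟨m, hm⟩ := exists_pow_lt_of_lt_one (zero_lt_iff.2 ((map_ne_zero w.V).2 he))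
    (show w.V 2 < 1 by simpa [h2] using (b4a_V_p w).2)
  refine ⟨n * m, ?_⟩
  rw [← map_pow] at hm
  have := (over_le h _ _).2 hm.le
  rw [map_pow, map_pow, map_ofNat] at this
  rw [pow_mul]
  exact (pow_le_pow_left' hn m).trans this

/-! ### Block G: the action of the Galois group -/

def ArStmt : Prop := ∀ w : Plc, w.p = 2 → ∃ A, Over A w ∧ Ar A

def PcStmt : Prop := ∀ (L n c : ℕ) (r : ℤ) (τ τ' : ℂ) (g : Gam) (σ : ℂ ≃+* ℂ), OkD L n c r →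
  Squarefree n → 4 * L ^ 2 < n → g ∈ GK n → Ex g σ → HgN L n c r τ → HgN L n c r τ' →
  cl (Oc n c) (sp2 τ' 1) = rho n c g * cl _ (sp2 τ 1) → G5.Pc L σ τ τ'

def AlgStmt : Prop := ∀ (L : ℕ) (h : ℂ → ℂ) (z : ℂ) (x : Qbar), L ≠ 0 → Ra L h → 0 < z.im →
  jC x = jf z → ∃ y, jC y = h z

/-- The class field is unramified at two. -/
def FixStmt : Prop := ∀ (q : ℕ) (w : Plc) (g : Gam), q % 8 = 3 → q % 3 = 2 → w.p = 2 →
  g ∈ Ine w → rho q 1 g = 1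

def HvStmt : Prop := ∀ (L q c : ℕ) (r : ℤ) (w : Plc) (A : ValuationSubring ℂ) (h : ℂ → ℂ),
  Cx L q r w A → c ≠ 0 → Gf A L h →
  (∀ τ, HgN L q c r τ → jC (hv L q c r h (cl _ (sp2 τ 1))) = h τ) ∧
  (∀ u, w.V (hv L q c r h u) ≤ 1) ∧
  ∀ g ∈ GK q, ∀ u, g (hv L q c r h u) = hv L q c r h (rho q c g * u)

def KrStmt : Prop := ∀ (L q c d : ℕ) (r : ℤ) (w : Plc) (A : ValuationSubring ℂ) (h : ℂ → ℂ),
  Cx L q r w A → c ≠ 0 → d = c * 2 → Gf A L h →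
  (∀ u, w.V (hv L q c r h u ^ 4 - hv L q c r h u) < 1) ∧
  ∀ v, w.V (hv L q d r h v - hv L q c r h (pj q c d v) ^ 2) < 1

def CtStmt : Prop := ∀ (L q : ℕ) (r : ℤ) (w : Plc) (A : ValuationSubring ℂ) (σ : Gam)
  (u : Pc q 1), Cx L q r w A → IsFrob w 2 σ →
  (∃ z : ℂ, 0 < z.im ∧ ∀ h, Gf A L h → PowerSeries.map jC (sr L q r σ h u) = Ty z h) ∧
  ∀ c, c = 2 ∨ c = 8 → ∀ v : Pc q c, pj q 1 c v = u → ∀ h, Gf A L h →
    Ap w (sr L q r σ h u) (hv L q c r tt v - σ (hv L q 1 r tt u)) (hv L q c r h v)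

def PwStmt : Prop := ∀ (L q : ℕ) (r : ℤ) (w : Plc) (A : ValuationSubring ℂ)
  [∀ c, Fintype (Pc q c)], Cx L q r w A →
  (∀ n u, fs 1 2 (fun v => hv L q 2 r tt v ^ n) u = pw (hv L q 1 r tt u) n) ∧
  (∀ b c d, b ≠ 0 → c = b * 2 → d = c * 2 → ∀ n u, fs c d (fun v => hv L q d r tt v ^ n) u =
    pw (hv L q c r tt u) n - hv L q b r tt (pj q b c u) ^ n) ∧
  ∀ c d, c ≠ 0 → d = c * 2 → ∀ v, ps (hv L q c r tt (pj q c d v)) (hv L q d r tt v) = 0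

variable [Cw]

/-- Homogeneous coordinates for the parametrization. -/
def ChStmt : Prop := ∀ (N : ℕ) (P : Par Wu N), ∃ (X Z W : ℤ[X][X]) (B : ℕ),
  (∀ z : ℂ, 0 < z.im → aevalAeval (jf z) (jN N z) W ^ 2 = aevalAeval (jf z) (jN N z) Z *
    cF (aevalAeval (jf z) (jN N z) X) (aevalAeval (jf z) (jN N z) Z)) ∧
  ∀ (n c : ℕ) (z : ℂ), Ok n c → B < n → 0 < z.im → IsIv (Oc n c) (sp2 z 1) →
    aevalAeval (jf z) (jN N z) W ≠ 0 ∧ aevalAeval (jf z) (jN N z) Z ≠ 0 ∧ P.φ z ≠ 0 ∧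
      cub (xco (P.φ z)) ≠ 0 ∧
      xco (P.φ z) * aevalAeval (jf z) (jN N z) Z = aevalAeval (jf z) (jN N z) X

/-- What is used about the points of conductor dividing eight. -/
structure Sys (w : Plc) (σ : Gam) (q : ℕ) [∀ c, Fintype (Pc q c)] (y : ∀ c, Pc q c → EE) where
  t : ∀ c, Pc q c → Qbar
  x : ∀ c, Pc q c → Qbar
  z : ∀ c, Pc q c → Qbar
  X : Pc q 1 → PowerSeries Qbar
  Z : Pc q 1 → PowerSeries Qbar
  W : Pc q 1 → PowerSeries Qbar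
  ok : Ok q 1
  p2 : w.p = 2
  fr : IsFrob w 2 σ
  le : Ine w ≤ GK q
  out : σ ∉ GK q
  gal : ∀ c, c ∣ 8 → ∀ g ∈ GK q, ∀ u, g (t c u) = t c (rho q c g * u) ∧
    g (z c u) = z c (rho q c g * u) ∧ g • y c u = y c (rho q c g * u)
  unr : ∀ g ∈ Ine w, rho q 1 g = 1
  ss : ∀ u, w.V (σ (t 1 u)) ≤ w.V 2 ∧ w.V (t 1 u) ≤ w.V 2 ∧ Fx (Ine w) (σ (t 1 u))
  pw1 : ∀ n u, fs 1 2 (fun v => t 2 v ^ n) u = pw (t 1 u) n
  pw2 : ∀ n u, fs 2 4 (fun v => t 4 v ^ n) u = pw (t 2 u) n - t 1 (pj q 1 2 u) ^ n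
  pw3 : ∀ n u, fs 4 8 (fun v => t 8 v ^ n) u = pw (t 4 u) n - t 2 (pj q 2 4 u) ^ n
  rt : ∀ c d, d = c * 2 → d ∣ 8 → ∀ v, ps (t c (pj q c d v)) (t d v) = 0
  aff : ∀ c, c ∣ 8 → ∀ u, y c u ≠ 0 ∧ xco (y c u) ≠ er 0 ∧ z c u ≠ 0 ∧
    xco (y c u) * z c u = x c u
  int : ∀ u, IF w (Ine w) (X u) ∧ IF w (Ine w) (Z u) ∧ IF w (Ine w) (W u) ∧ W u ≠ 0 ∧
    W u ^ 2 = Z u * cF (X u) (Z u)
  ctr : ∀ u, PowerSeries.coeff 0 (X u) = σ (x 1 u) ∧ PowerSeries.coeff 0 (Z u) = σ (z 1 u)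
  ap : ∀ c, c = 2 ∨ c = 8 → ∀ u (v : Pc q c), pj q 1 c v = u →
    Ap w (X u) (t c v - σ (t 1 u)) (x c v) ∧ Ap w (Z u) (t c v - σ (t 1 u)) (z c v)

/-- The factorization on the disc of `u`. -/
def Sys.Fac {w : Plc} {σ : Gam} {q : ℕ} [∀ c, Fintype (Pc q c)] {y : ∀ c, Pc q c → EE}
    (T : Sys w σ q y) (u : Pc q 1) (g : PowerSeries Qbar) : Prop :=
  IF w (JF w) g ∧ ∃ S, IF w (JF w) S ∧
    PowerSeries.C ee * T.Z u * (PowerSeries.C (ee * pp ^ 2) * T.X u - T.Z u) =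
      S ^ 2 * (1 + PowerSeries.C (pp ^ 2) * g)

/-- The leaves on which the character of conductor eight is trivial. -/
abbrev Lv (q : ℕ) (u : Pc q 1) : Type := {v : Pc q 8 // pj q 1 8 v = u ∧ th q 8 2 v = 1}

def SysStmt : Prop := ∀ (N : ℕ) (P : Par Wu N) (_ : Geo P), Odd N → ∃ B : ℕ, ∀ (q : ℕ) (r : ℤ)
  (w : Plc) (σ : Gam) [∀ c, Fintype (Pc q c)], Squarefree q → q % 8 = 3 → q % 3 = 2 → B < q →
  q.Coprime N → 4 * ((9 * N : ℕ) : ℤ) ∣ r ^ 2 + q → w.p = 2 → IsFrob w 2 σ →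
  Nonempty (Sys w σ q fun c => yA P q c r)

/-- The computation at the first level. -/
def D1Stmt : Prop := Ss → ∀ (w : Plc) (σ : Gam) (q : ℕ) [∀ c, Fintype (Pc q c)]
  (y : ∀ c, Pc q c → EE) (T : Sys w σ q y) (a : ℤ) (u : Pc q 1) (g : PowerSeries Qbar),
  σ (er 0) = er 0 → Even a → fs 1 2 (y 2) u = a • y 1 u → T.Fac u g →
  Rel (JF w) (kap (σ • y 1 u)) (1 + 2 * pp ^ 2 * kv g (σ (T.t 1 u) / 2)) ∧
  Rel (JF w) (1 + pp ^ 2 * PowerSeries.coeff 0 g) (1 + 2 * pp ^ 2 * kv g (σ (T.t 1 u) / 2))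

/-- The power sums at the third level. -/
def P3Stmt : Prop := ∀ (w : Plc) (σ : Gam) (q : ℕ) [∀ c, Fintype (Pc q c)]
  (y : ∀ c, Pc q c → EE) (T : Sys w σ q y) (u : Pc q 1) (e : Lv q u → Qbar),
  (∀ v, e v = T.t 8 v.1 - σ (T.t 1 u)) → (∀ v, w.V (e v) ^ 12 ≤ w.V 2) ∧
  w.V (∑ v, e v - σ (T.t 1 u) / 2 * rt 2) < w.V (rt 2) ∧
  w.V (∑ v, e v ^ 3 - rt 2) < w.V (rt 2) ∧
  ∀ n ∈ ({2, 4, 5, 6} : Finset ℕ), w.V (∑ v, e v ^ n) < w.V (rt 2)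

/-- The computation on one disc. -/
def DkStmt : Prop := Ss → ∀ (w : Plc) (σ : Gam) (q : ℕ) [∀ c, Fintype (Pc q c)]
  (y : ∀ c, Pc q c → EE) (_ : Sys w σ q y) (a : ℤ) (u : Pc q 1), σ (er 0) = er 0 → Even a →
  fs 1 2 (y 2) u = a • y 1 u → ∃ k, Dk w (σ • y 1 u) (∑ v : Lv q u, y 8 v.1) k

end Pool.Agent.B6.D9
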