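import Pool.Agent.Lib.MP_696deb_nt.B7.KL7a
import Pool.Agent.Lib.MP_696deb_nt.B7.CMg
import Pool.Agent.Lib.MP_696deb_nt.B6.MTA
import Pool.Agent.Lib.MP_696deb_nt.B5.GKd
import Pool.Agent.Lib.MP_696deb_nt.B4.GEg

/-! The converse theorem for all twists, from the modules and the seeds. -/

set_option autoImplicit false

open scoped Classical
open NumberTheorySymbols

namespace Pool.Agent.B6.B7

open Pool.Agent.Lib.MP_696deb_nt Pool.Agent.Lib.MP_696deb_nt.B2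
open Pool.Agent.B4 (GE.Par GE.Geo GE.MD)
open Pool.Agent.G7 (GKStmt GZStmt)

/-- The primes that carry a seed. -/
structure Sq [Cs] (q : ℕ) : Prop where
  prime : q.Prime
  m8 : q % 8 = 3
  gt : 3 < q
  cop : q.Coprime NN

theorem Sq.good [Cs] {q : ℕ} (h : Sq q) : Good q :=
  ⟨h.prime.squarefree, by have := h.m8; omega, h.cop⟩

section

variable [Md] {D : GE.MD Wu NN} {q : ℕ} {δ d : ℤ} (T : Tate) (h : Hyp D)
  (G : GE.Geo D.par) (ha : ∀ l, al l = D.c l) (hq : Sq q)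

include T h G ha hq

theorem mv_one (hs : SeedC D.par.φ q) : Mv D.par.φ q 1 := by
  obtain ⟨B, hB⟩ := T.sd_prim G5.gk6_stmt G h.nw ha h.LA_one hq.good hq.gt
    (seed_one T sd_stmt G (ha 2) hq.good hq.m8 hq.gt hs)
  exact ⟨B, fun l l1 l2 l3 l4 l5 l6 g => prm_one g.sqf.ne_zero.bot_lt
    (hB l l1 l2.squarefree (by omega) fun p hp k => by
      obtain rfl := (Nat.prime_dvd_prime_iff_eq hp l2).1 k
      exact ⟨l4, l5, l6⟩)⟩

theorem mv_two (gz : GZStmt) (gk : GKStmt) (hδ : δ ∣ 2) (h1 : δ ≠ 1)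
    (hs : SeedE D.par.φ q δ (2 * ix δ)) : Mv D.par.φ q δ :=
  ⟨0, fun l _ l2 l3 l4 l5 l6 _ => sd_move7 T gk gz sd_stmt G h.nw ha hq.good hq.m8 hq.gt hδ h1
    hs l2.squarefree l3 l2.ne_one fun p hp k => by
      obtain rfl := (Nat.prime_dvd_prime_iff_eq hp l2).1 k
      exact ⟨l4, l5, l6⟩⟩

omit h in
theorem mv_neg (h2 : Even (al 2)) :
    (Mv D.par.φ q 1 → Mv D.par.φ q (-1)) ∧ (Mv D.par.φ q 2 → Mv D.par.φ q (-2)) := by
  have k := fun l (l2 : l.Prime) (l3 : l % 8 = 1) (g : Good (q * l)) => prm_neg T fl_stmt G (ha 2)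
    h2 g (by rw [Nat.mul_mod, hq.m8, l3]) (by nlinarith [l2.pos, hq.gt])
  exact ⟨.imp fun _ hB l l1 l2 l3 l4 l5 l6 g => (k l l2 l3 g).1 (hB l l1 l2 l3 l4 l5 l6 g),
    .imp fun _ hB l l1 l2 l3 l4 l5 l6 g => (k l l2 l3 g).2 (hB l l1 l2 l3 l4 l5 l6 g)⟩

end

variable [C : Cs] {D : GE.MD Wu NN} {d : ℤ}

/-- The passage from a curve to the full data. -/
abbrev mdOf (h : Hyp D) (G : GE.Geo D.par) : Md :=
  { C with al := D.c, M := G.M, M_ne := G.M0, dvd_M := G.dvd, par := h.par }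

theorem cnv_md (gz : GZStmt) (h : Hyp D) (hd : Squarefree d)
    (k : ∀ G : GE.Geo D.par, @Tate (mdOf h G) → ∃ q, Sq q ∧
      (∃ r : ℤ, 4 * (NN : ℤ) ∣ r ^ 2 + q) ∧ @Mv (mdOf h G) D.par.φ q (dt d)) : Cnv D.c d := by
  obtain ⟨G⟩ := D.par.geo
  let _ := mdOf h G
  obtain ⟨T⟩ := m_tate fun w φ Q hw hφ =>
    G.es w φ (K1 w) hw hφ (near_iff (mta_good fun k => hw (k.trans G.dvd)).2) Q
  obtain ⟨q, hq, hr, mv⟩ := k G T
  exact k_core7 cm_stmt gz G7.cj_stmt T h G (fun _ => rfl) dvd_rfl hq.prime hq.m8 hq.gt hq.cop hr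
    hd mv

/-- The converse theorem, with one seed for every ramified character of two-power conductor. -/
theorem conv7_gen (gz : GZStmt) (gk : GKStmt) (h : Hyp D) (hd : Squarefree d)
    (hs : d % 4 ≠ 1 → ∃ q, Sq q ∧
      SeedE D.par.φ q (dt d) (if tf (D.c 2) d % 2 = 1 then 2 else 4)) : Cnv D.c d :=
  cnv_md gz h hd fun G T => by
    let _ := mdOf h G
    by_cases k : d % 4 = 1
    · obtain ⟨q, q1, q2, q3, q4, hs⟩ := h.seed
      rw [dt, if_pos k]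
      exact ⟨q, ⟨q1, q2, q3, q4⟩, ⟨_, hs.choose_spec.choose_spec.1⟩,
        mv_one T h G (fun _ => rfl) ⟨q1, q2, q3, q4⟩ hs⟩
    · obtain ⟨q, hq, hs⟩ := hs k
      refine ⟨q, hq, ⟨_, hs.choose_spec.1⟩, mv_two T h G (fun _ => rfl) hq gz gk (dt_dvd d) ?_ ?_⟩
      · unfold dt
        split_ifs <;> omega
      · rw [ix_dt, ix, mul_ite]
        exact hs

/-- The converse theorem for odd twists when the eigenvalue at two is even. -/
theorem conv7_odd (gz : GZStmt) (h : Hyp D) (hd : Squarefree d) (ho : Odd d)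
    (h2 : d % 4 = 3 → Even (D.c 2)) : Cnv D.c d :=
  cnv_md gz h hd fun G T => by
    let _ := mdOf h G
    obtain ⟨q, q1, q2, q3, q4, hs⟩ := h.seed
    have m := mv_one T h G (fun _ => rfl) ⟨q1, q2, q3, q4⟩ hs
    refine ⟨q, ⟨q1, q2, q3, q4⟩, ⟨_, hs.choose_spec.choose_spec.1⟩, ?_⟩
    have := Int.odd_iff.1 ho
    unfold dt
    split_ifs with k k'
    exacts [m, (mv_neg T G (fun _ => rfl) ⟨q1, q2, q3, q4⟩ (h2 k')).1 m, by omega, by omega]

/-- The converse theorem for all twists when the eigenvalue at two is even. -/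
theorem conv7 (gz : GZStmt) (gk : GKStmt) (h : Hyp D) (h2 : Even (D.c 2)) {q : ℕ} (hq : Sq q)
    (hs : SeedE D.par.φ q 2 4) (hd : Squarefree d) : Cnv D.c d :=
  (Int.even_or_odd d).elim (fun k => cnv_md gz h hd fun G T => by
    let _ := mdOf h G
    have m := mv_two T h G (fun _ => rfl) hq gz gk (δ := 2) dvd_rfl (by decide) (by
      obtain ⟨a, ha⟩ := h2
      rwa [ix, if_neg]
      change ¬ (D.c 2 ^ 3 - 5 * D.c 2) % 2 = 1
      rw [ha, show (a + a) ^ 3 - 5 * (a + a) = 2 * (4 * a ^ 3 - 5 * a) by ring]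
      omega)
    refine ⟨q, hq, ⟨_, hs.choose_spec.1⟩, ?_⟩
    have := Int.even_iff.1 k
    rw [dt, if_neg (by omega), if_neg (by omega)]
    split_ifs
    exacts [m, (mv_neg T G (fun _ => rfl) hq h2).2 m]) fun k => conv7_odd gz h hd k fun _ => h2

end Pool.Agent.B6.B7
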