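import Pool.Agent.Lib.MP_696deb_nt.B7.D9c
import Pool.Agent.Lib.MP_696deb_nt.B7.S9z
import Pool.Agent.Lib.MP_696deb_nt.B7.KL7b

/-! The Heegner point of conductor eight is not divisible by four. -/

set_option autoImplicit false

open scoped Classical

namespace Pool.Agent.B6.D9

open Pool.Agent.Lib.MP_696deb_nt Pool.Agent.Lib.MP_696deb_nt.B2 Pool.Agent.Lib.MP_696deb_nt.B2.CM
open Pool.Agent.B4.GE (Par Geo)
open Pool.Agent.Lib.MP_696deb_nt.B3.CM (fs m2 gd_two th_one inert_two)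
open Pool.Agent.B6.CM (yA)
open Pool.Agent.B6.B7 Pool.Agent.B6.B7.Dn

theorem lift_three {M r q : ℤ} (h : M ∣ r ^ 2 + q) (h3 : q % 3 = 2) :
    ∃ s, 3 * M ∣ s ^ 2 + q := by
  obtain ⟨s, hs⟩ := h
  have k : ∀ r s M : ZMod 3, r ^ 2 + 2 = M * s → ∃ k, s + 2 * r * k + M * k ^ 2 = 0 := by decide
  obtain ⟨k, hk⟩ := k r s M (by
    have := congrArg (Int.cast : ℤ → ZMod 3) hs
    rw [← Int.mul_ediv_add_emod q 3, h3] at this
    push_cast at this
    rwa [show (3 : ZMod 3) = 0 from rfl, zero_mul, zero_add] at this)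
  obtain ⟨k, rfl⟩ := ZMod.intCast_surjective k
  obtain ⟨c, hc⟩ := (ZMod.intCast_zmod_eq_zero_iff_dvd (s + 2 * r * k + M * k ^ 2) 3).1
    (by exact_mod_cast hk)
  exact ⟨r + M * k, c, by push_cast at hc; linear_combination hs + M * hc⟩

variable [Cs]

theorem ss_of (ha : Even WZ.a₁) : Ss := ⟨ha, Int.not_even_iff_odd.1 fun ⟨n, hn⟩ => by
  obtain ⟨m, hm⟩ := ha
  refine ne_two_of_dvd ((dvd_Δ Nat.prime_two).1 ?_) rfl
  have b2 : (2 : ℤ) ∣ WZ.b₂ := ⟨2 * (m ^ 2 + WZ.a₂), by rw [WeierstrassCurve.b₂, hm]; ring⟩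
  have b6 : (2 : ℤ) ∣ WZ.b₆ := ⟨2 * (n ^ 2 + WZ.a₆), by rw [WeierstrassCurve.b₆, hn]; ring⟩
  exact (((((b2.pow two_ne_zero).neg_right.mul_right _).sub ((by decide : (2 : ℤ) ∣ 8).mul_right
    _)).sub ((b6.pow two_ne_zero).mul_left _)).add (b6.mul_left _))⟩

theorem seed_of (hR : RtStmt) (hS : SysStmt) (hD : DkStmt) (hU : SumStmt) (P : Par Wu NN)
    (ht : P.t0 ∈ P.L.lattice) (h2 : P.t0 / 2 ∉ P.L.lattice) (ha : Even WZ.a₁)
    (h : Even (P.a 2)) : ∃ q, Sq q ∧ SeedE P.φ q 2 4 := by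
  obtain ⟨G⟩ := P.geo
  obtain ⟨B, hB⟩ := hS NN P G NN_odd
  obtain ⟨q, r, q1, q8, q3, q4, hr, k⟩ := seed_two P ht h2 ha (B + NN + 3)
  have qN : q.Coprime NN := Nat.coprime_of_lt_prime NN_ne (by omega) q1
  obtain ⟨r, hr⟩ := lift_three hr (by omega)
  obtain ⟨r, hr⟩ := lift_three hr (by omega)
  have r1 : 4 * (NN : ℤ) ∣ r ^ 2 + q := ((dvd_mul_left _ 3).mul_left 3).trans hr
  have ok : OkD NN q 1 r := ⟨⟨by omega, by omega, one_ne_zero⟩, r1, qN⟩
  have ok8 := ok.of_ne (d := 1 * m2 2) (by decide)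
  have i0 := finite_Pc ok.m4 ok.gt
  let i1 : ∀ c, Fintype (Pc q c) := fun c => Fintype.ofFinite _
  have n2 : ¬ 2 ∣ NN := fun e => ne_two_of_dvd e rfl
  obtain ⟨w, hw⟩ := exists_plc Nat.prime_two
  have ss := ss_of ha
  obtain ⟨-, -, -, ⟨σ, s1, s2⟩, tw0⟩ := hR ss w hw
  obtain ⟨T⟩ := hB q r w σ q1.squarefree q8 q3 (by omega) qN (by convert hr using 1; push_cast; ring)
    hw s1
  choose κ hκ using fun u => hD ss w σ q _ T (P.a 2) u s2 h
    (trA_inert G (ok.of_ne two_ne_zero) Nat.prime_two n2 rfl (inert_two q8) (by decide) u)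
  refine ⟨q, ⟨q1, q8, ok.gt, qN⟩, r, r1, fun U hU' R hR' e => ?_⟩
  have fY : ∀ g ∈ GK q, g • ∑ u, yA P q 1 r u = ∑ u, yA P q 1 r u := fun g hg => by
    simp only [Finset.smul_sum, smul_yA G ok hg]
    exact Equiv.sum_comp (Equiv.mulLeft (rho q 1 g)) (yA P q 1 r)
  have cj : ∀ {Y : EE}, (∀ g ∈ Ine w, g • Y = Y) → ∀ t ∈ Dec w, ∀ g ∈ Ine w, g • t • Y = t • Y :=
    fun hY t m g hg => by
      rw [smul_smul, show g * t = t * (t⁻¹ * g * t⁻¹⁻¹) by group, mul_smul,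
        hY _ (conj_mem_Ine (inv_mem m) hg)]
  have tr := two_rel G ok n2 q8 (δ := 2) (by decide) dvd_rfl rfl
  obtain ⟨a, ha'⟩ := h
  have ev : ¬ tf (P.a 2) 2 % 2 = 1 := by
    change ¬ (P.a 2 ^ 3 - 5 * P.a 2) % 2 = 1
    rw [ha', show (a + a) ^ 3 - 5 * (a + a) = 2 * (4 * a ^ 3 - 5 * a) by ring]
    omega
  have g8 := gd_two ok8.toOk (δ := 2) dvd_rfl (by decide)
  have gv := gv_hb (y := fun d => yA P q d r) ok8.toOk g8 (gv_yA G ok) (gv_yA G ok8) tr
  have ix := fun x => if_neg ev ▸ ix_hb (y := fun d => yA P q d r) tr x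
  generalize hH : ∑ x, hb (fun d => yA P q d r) (tf (P.a 2) 2) 2 1 x = H
  have e0 : 2 • (2 • R - H) = 0 := pmap_injective jC (by
    rw [smul_sub, smul_smul, map_sub, map_nsmul, map_zero, sub_eq_zero, ← hH, Finset.smul_sum,
      Finset.sum_congr rfl fun x _ => ix x]
    refine e.trans ?_
    rw [← link_yD P ok8 q1.squarefree Int.prime_two.squarefree (by decide) (by simp [B3.odp])
      (fun p _ k => k) hU']
    refine Eq.trans ?_ (congrArg _ (sum_fs _)).symm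
    rw [map_sum]
    exact Finset.sum_congr rfl fun z _ => by rw [map_zsmul, jC_yA G ok8])
  have e1 : 2 • R = H := sub_eq_zero.1 (tw0 _ e0 fun g hg => by
    have k1 : tw 2 g H = H := by
      rw [← hH, tw, Finset.smul_sum, Finset.smul_sum]
      exact (Finset.sum_congr rfl fun x _ => gv.tw (T.le hg) x).trans
        (Equiv.sum_comp (Equiv.mulLeft (rho q 1 g)) _)
    rw [← tw_two 2 g e0]
    conv_rhs => rw [← k1, ← hR' g (T.le hg)]
    simp only [tw, smul_sub, smul_comm g (2 : ℕ), smul_comm (2 : ℕ) (chi 2 g : ℤ)])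
  refine hU ss w σ (Pc q 1) _ _ κ (-k0 (tf (P.a 2) 2)) R hw s1.1 s2 hκ ?_ (fun S k1 k2 => ?_)
    (fun g hg => ?_) ?_
  · rw [← Finset.smul_sum]
    exact cj (fun g hg => fY g (T.le hg)) σ s1.1
  · obtain ⟨F, hF⟩ := exists_hrp NN_ne (D := -q) (by omega) r
    have k3 := cj k1 _ (inv_mem s1.1)
    have k4 : 2 • σ⁻¹ • S = ∑ u, yA P q 1 r u := by
      rw [smul_comm, k2, ← Finset.smul_sum, inv_smul_smul]
    refine k r F r1 hF w hw (σ⁻¹ • S) (fun g hg => sub_eq_zero.1 (tw0 _ ?_ fun t m => ?_)) ?_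
    · rw [smul_sub, smul_comm, k4, fY g hg.1, sub_self]
    · rw [smul_sub, cj k3 g hg.2 t m, k3 t m]
    · rw [← map_nsmul, k4, map_sum]
      refine Eq.trans ?_ ((link_yD P ok q1.squarefree squarefree_one (by decide) (by simp [B3.odp])
        (fun p _ k => k.trans (one_dvd _)) (by
          simpa using (hrp_iff (by omega)).1 hF)).trans (yD_odd _ rfl F))
      exact Finset.sum_congr rfl fun z _ => by
        rw [jC_yA G ok, th_one ok.toOk, Units.val_one, one_smul]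
  · simpa only [tw, (mem_JJ.1 hg).2, Units.val_one, one_smul] using hR' g (T.le hg.1.1)
  · rw [e1, ← hH, ← Finset.smul_sum, smul_smul, fY _ (mul_mem_GK T.out T.out), neg_smul,
      ← sub_eq_add_neg, Finset.smul_sum, ← Finset.sum_sub_distrib]
    refine Finset.sum_congr rfl fun u _ => ?_
    rw [hb, add_sub_cancel_right, wg, fs]
    simp only [w0, if_neg ev, B3.CM.ind, ite_smul, one_smul, zero_smul]
    rw [← Finset.sum_filter, Finset.filter_filter]
    exact (Finset.sum_subtype _ (fun _ => Finset.mem_filter_univ _) _).symm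

end Pool.Agent.B6.D9
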