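import Pool.Agent.Lib.MP_696deb_nt.B7.D2
import Pool.Agent.Lib.MP_696deb_nt.B6.LB

/-! First properties of the twisting parameter. -/

set_option autoImplicit false

open scoped NNReal
open Finset Matrix NumberTheorySymbols

namespace Pool.Agent.B6.B7

open Pool.Agent.Lib.MP_696deb_nt Pool.Agent.Lib.MP_696deb_nt.B2 Pool.Agent.Lib.MP_696deb_nt.B6

variable [Md]

variable {n : ℕ} {f d : ℤ} {w : Plc} {g τ : Gam}

theorem Nf_N (hw : w.p ∣ Nf f) : w.p ∣ NN := ((dvd_Nf w.prime).1 hw).1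

theorem Nf_nd (hw : w.p ∣ Nf f) : ¬ (w.p : ℤ) ∣ od f := fun k =>
  ((dvd_Nf w.prime).1 hw).2 (k.trans (od_dvd f))

theorem Fok.ne (hf : Fok n f) : f ≠ 0 := hf.sqf.ne_zero

theorem Fok.od_ne (hf : Fok n f) : (od f).natAbs ≠ 0 := Int.natAbs_ne_zero.2 (B7.od_ne hf.ne)

theorem Fok.ne_two (hf : Fok n f) {r : ℕ} (h : (r : ℤ) ∣ od f) : r ≠ 2 := by
  rintro rfl
  exact ((dvd_od hf.ne Nat.prime_two).1 h).1 rfl

/-- A bad prime divides the twist or its complement. -/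
theorem Fok.dvd_Nf (hf : Fok n f) (hw : w.p ∣ NN) (h : ¬ (w.p : ℤ) ∣ od f) : w.p ∣ Nf f :=
  (B7.dvd_Nf w.prime).2 ⟨hw, fun k => h ((dvd_od hf.ne w.prime).2 ⟨ne_two_of_dvd hw, k⟩)⟩

theorem Fok.nd30 (hf : Fok n f) {r : ℕ} (hr : r.Prime) (h : (r : ℤ) ∣ od f) (hN : ¬ r ∣ NN) :
    ¬ r ∣ 2 * NN := fun k => ((dvd_two_NN hr).1 k).elim (hf.ne_two h) hN

theorem Fok.not_dvd (hf : Fok n f) {r : ℕ} (hr : r.Prime) (h : (r : ℤ) ∣ od f) : ¬ r ∣ n :=
  fun k => B4c_not_dvd (w := pl r hr) (a := -n) (by rw [pl_p]; exact hf.ne_two h)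
    (by rw [pl_p, hf.spl r hr h]; exact one_ne_zero)
    (by rw [pl_p]; exact (dvd_neg.2 (Int.natCast_dvd_natCast.2 k)).mul_left 2)

theorem Fok.split (hf : Fok n f) (hw : (w.p : ℤ) ∣ od f) : Dec w ≤ GK n :=
  dec_le_split (hf.ne_two hw) (hf.spl _ w.prime hw)

theorem Fok.tm (hf : Fok n f) (hw : (w.p : ℤ) ∣ od f) : Tm (GK n) w w.p (fr w) (gn w) :=
  tm_split (op_GK n) (hf.ne_two hw) (hf.split hw) (fr_spec w) (gn_spec (hf.ne_two hw))

theorem Fok.chi_ine (hf : Fok n f) (h2 : w.p ≠ 2) (hw : ¬ (w.p : ℤ) ∣ od f) (hg : g ∈ Ine w) :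
    chi f g = 1 := B2.chi_ine (mu0_ndvd h2 fun k => hw ((dvd_od hf.ne w.prime).2 ⟨h2, k⟩)) hg

/-- Admissible primes do not divide the twist. -/
theorem Fok.ndf (hf : Fok n f) (h : Adm n w.p) : ¬ (w.p : ℤ) ∣ od f := fun k =>
  absurd (h.inert.symm.trans (hf.spl _ w.prime k)) (by decide)

theorem Fok.chi_adm (hf : Fok n f) (h : Adm n w.p) (hg : g ∈ Ine w) : chi f g = 1 :=
  hf.chi_ine h.ne_two (hf.ndf h) hg

theorem Fok.chi_Nf (hf : Fok n f) (hw : w.p ∣ Nf f) (hg : g ∈ Ine w) : chi f g = 1 :=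
  hf.chi_ine (ne_two_of_dvd (Nf_N hw)) (Nf_nd hw) hg

theorem Fok.chi_gen (hf : Fok n f) (hw : (w.p : ℤ) ∣ od f) (hτ : Gen w τ) : chi f τ = -1 := by
  obtain ⟨h2, u, hu⟩ := (dvd_od hf.ne w.prime).1 hw
  have hp := Nat.prime_iff_prime_int.1 w.prime
  have u0 : u ≠ 0 := fun e => hf.ne (by rw [hu, e, mul_zero])
  rw [hu, chi_mul hp.ne_zero u0, hτ.2, B2.chi_ine (mu0_ndvd h2 fun e => ?_) hτ.1, mul_one]
  exact hp.not_isUnit (hf.sqf _ (hu ▸ mul_dvd_mul_left _ e))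

omit [Md] in
theorem fok_cases (hd : d ∣ 2) : d = 1 ∨ d = -1 ∨ d = 2 ∨ d = -2 := by
  have h1 := Int.le_of_dvd two_pos hd
  have h2 := Int.le_of_dvd two_pos (neg_dvd.2 hd)
  have h3 : d ≠ 0 := fun e => by simp [e] at hd
  omega

/-- Characters of two-power conductor are trivial above the bad primes. -/
theorem chi_IN (hd : d ∣ 2) (hg : g ∈ IN) : chi d g = 1 :=
  (iSup_le fun w _ hσ => B2.chi_ine (mu0_ndvd (ne_two_of_dvd w.2) fun k =>
    mu0_ndvd (c := 1) (ne_two_of_dvd w.2) (fun e => w.1.prime.ne_one (by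
      simpa using Int.natCast_dvd.1 e)) (by simpa using k.trans hd)) hσ : IN ≤ (chi d).ker) hg

/-- Characters of two-power conductor are trivial on what fixes the points of order eight. -/
theorem chi_rho (T : Tate) (hd : d ∣ 2) {m : ℕ} (hm : 3 ≤ m) (h : mred m (T.ρ g) = 1) :
    chi d g = 1 := by
  have k : ∀ j ≤ m, cy j g = 1 := fun j hj => by
    have := congrArg Matrix.det ((la_mred_le hj (h.trans (mred_one m).symm)).trans (mred_one j))
    rwa [mred_det, T.det, det_one] at this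
  have h1 : chi (-1) g = 1 := (Int.units_eq_one_or _).resolve_right fun e => by
    have := (cy_two g).symm.trans (k 2 (by omega))
    rw [e] at this
    exact absurd this (by decide)
  have h2 : chi 2 g = 1 := (chi_two_iff g).2 (.inl (k 3 hm))
  rcases fok_cases hd with rfl | rfl | rfl | rfl
  · simpa using chi_sq 1 g
  · exact h1
  · exact h2
  · rw [show (-2 : ℤ) = -1 * 2 by norm_num, chi_mul (by decide) (by decide), h1, h2, mul_one]

theorem fok_one (n : ℕ) : Fok n 1 :=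
  ⟨squarefree_one, fun _ hr h => absurd (Int.natCast_dvd.1 (h.trans (od_dvd 1)))
    (by simpa using hr.ne_one)⟩

end Pool.Agent.B6.B7
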