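import Pool.Agent.Lib.MP_696deb_nt.B7.GK7z
import Pool.Agent.Lib.MP_696deb_nt.B7.GD7a
import Pool.Agent.Lib.MP_696deb_nt.B7.WP7a
import Pool.Agent.Lib.MP_696deb_nt.B5.ORa
import Pool.Agent.Lib.MP_696deb_nt.B5.PRa

/-! Change of orientation of a special divisor. -/

set_option autoImplicit false

open Finset NumberTheorySymbols
open scoped Classical

namespace Pool.Agent.G7

open Pool.Agent.Lib.MP_696deb_nt Pool.Agent.B4.GE Pool.Agent.Shared.Weier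
open Pool.Agent.Lib.MP_696deb_nt.B3 (kro pchr_kro)
open Pool.Agent.G7.Hv (Cls tm_gD)
open Pool.Agent.G5 hiding Cx Yw Cw zs Ori CNStmt HWStmt LTStmt GLStmt LAStmt SWStmt NUStmt WPStmt
  HTStmt GZStmt LFStmt LRStmt LQStmt

variable {W : WeierstrassCurve ℚ} {N p : ℕ} {d e ρ ρ' : ℤ} {T T' : Finset Fm}

theorem fq_cop (hp : p.Prime) (ho : Odd N) (hN : p ∣ N) (hd : Squarefree d) (hc : IsCoprime d N) :
    IsCoprime (p : ℤ) (cnd d) :=
  Nat.isCoprime_iff_coprime.2 (hp.coprime_iff_not_dvd.2 fun k =>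
    (Nat.prime_iff_prime_int.1 hp).not_isUnit (hc.isUnit_of_dvd'
      ((B3.odd_dvd_cond hd (ho.of_dvd_nat hN)).1 k) (Int.natCast_dvd_natCast.2 hN)))

theorem fp7 : FP7 := by
  intro N p d D β β' w T T' h hp ho hN hD k1 k2 hT hT' hd hc hk V _ S hS
  have hq := fq_cop hp ho hN hd hc
  refine al_sum h (ho.of_dvd_nat hN) ho.pos.ne' hN hD k1 k2 hT hT'
    (fun Q R a e => gD_feq e (a.2.1 ▸ ⟨hd, hk.1, hk.2⟩)) ?_ hS
  rintro Q R a b ⟨x, y, z, u, e1, e2⟩ -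
  exact tm_gD hd hk Q R _ x y z u (a.2.1 ▸ dvd_rfl) (b.2.1 ▸ dvd_rfl) e2
    (by rw [e1]; exact hq.mul_left hq)

theorem yD_eq (P : Par W N) (h : FReps N e ρ T) (h' : FReps N e ρ' T') (k : 2 * (N : ℤ) ∣ ρ - ρ')
    (hd : Squarefree d) (hk : Cls d e) (he : e < 0) : yD P.φ d T' = yD P.φ d T :=
  h'.sum_eq (h.congr k) _ fun Q R a b r => by
    rw [gD_feq r (a.2.1 ▸ ⟨hd, hk.1, hk.2⟩), r.inv0 P.inv0 (a.2.1 ▸ he) b]

/-- The flip of the orientation at one prime. -/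
theorem yD_flip (D : MD W N) (hp : p.Prime) (ho : Odd N) (hN : p ∣ N) (hC : Cp D.par 0 p)
    (hd : Squarefree d) (hc : IsCoprime d N) (hk : Cls d e) (he : e < 0)
    (k1 : (p : ℤ) ∣ ρ' + ρ) (k2 : 2 * ((N / p : ℕ) : ℤ) ∣ ρ' - ρ) (hT : FReps N e ρ T)
    (hT' : FReps N e ρ' T') :
    ∃ s : ℤ, (s = 1 ∨ s = -1) ∧ IsOfFinAddOrder (yD D.par.φ d T' - s • yD D.par.φ d T) := by
  obtain ⟨w, s, c, c₂, hw, hs, h⟩ := hC.al
  have hJ : kro d p = 1 ∨ kro d p = -1 :=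
    sq_eq_one_iff.1 ((pchr_kro hd).sq (fq_cop hp ho hN hd hc))
  refine ⟨kro d p * s, by rcases hJ with a | a <;> rcases hs with b | b <;> simp [a, b], ?_⟩
  have h1 : yD D.par.φ d T' =
      kro d p • (s • yD D.par.φ d T + (∑ Q ∈ T, gD d Q) • D.par.per.unif c) := by
    rw [fp7 N p d e ρ ρ' w T T' hw hp ho hN he k1 k2 hT hT' hd hc hk _ _ D.par.inv0, yD, yD,
      smul_sum (r := s), Finset.sum_smul (R := ℤ) (M := Pt W ℂ), ← sum_add_distrib]
    refine congrArg _ (sum_congr rfl fun Q hQ => ?_)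
    rw [alm_phi D.par (fun z hz => (h z hz).1)
      (im_froot_pos ((hT.fam Q hQ).2.1 ▸ he) (hT.pos Q hQ)), smul_add, smul_comm]
  rw [h1, smul_add, mul_smul, add_sub_cancel_left]
  exact ((alm_tors D hw hp.ne_zero hN fun z hz => (h z hz).1).zsmul).zsmul

theorem or7 : OR7 := by
  intro W N D d e ρ ρ' T T' hN hodd hw hB hc hd he hρ hρ' hT hT'
  have hC := (pr_stmt W N D hN hw).2
  suffices key : ∀ (S : Finset ℕ) (ρ : ℤ) (T : Finset Fm), 4 * (N : ℤ) ∣ ρ ^ 2 - e →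
      FReps N e ρ T → (∀ q : ℕ, q.Prime → q ∣ N → q ∉ S → (q : ℤ) ∣ ρ - ρ') →
      ∃ s : ℤ, (s = 1 ∨ s = -1) ∧ IsOfFinAddOrder (yD D.par.φ d T' - s • yD D.par.φ d T) from
    key N.primeFactors ρ T hρ hT fun q h1 h2 h3 =>
      absurd (Nat.mem_primeFactors.2 ⟨h1, h2, D.N0⟩) h3
  have sq : ∀ ρ : ℤ, 4 * (N : ℤ) ∣ ρ ^ 2 - e → 4 * (N : ℤ) ∣ (ρ - ρ') * (ρ + ρ') := fun ρ h =>
    (show ρ ^ 2 - e - (ρ' ^ 2 - e) = (ρ - ρ') * (ρ + ρ') by ring) ▸ h.sub hρ'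
  intro S
  induction S using Finset.induction_on with
  | empty =>
    intro ρ T hρ hT h
    have h1 : (N : ℤ) ∣ ρ - ρ' := by
      rw [← Int.natAbs_dvd_natAbs, Int.natAbs_natCast, ← Nat.prod_primeFactors_of_squarefree hN]
      refine Finset.prod_primes_dvd _ (fun q hq => (Nat.prime_of_mem_primeFactors hq).prime)
        fun q hq => Int.natCast_dvd.1
          (h q (Nat.prime_of_mem_primeFactors hq) (Nat.dvd_of_mem_primeFactors hq) (by simp))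
    have h2 : (2 : ℤ) ∣ ρ - ρ' := by
      rcases Int.prime_two.dvd_or_dvd ((show (2 : ℤ) ∣ 4 * N from ⟨2 * N, by ring⟩).trans
        (sq ρ hρ)) with a | a <;> omega
    have h3 : IsCoprime (2 : ℤ) N :=
      Nat.isCoprime_iff_coprime.2 (Nat.coprime_two_left.2 hodd)
    refine ⟨1, Or.inl rfl, ?_⟩
    rw [yD_eq D.par hT hT' (h3.mul_dvd h2 h1) hB hd he, one_smul, sub_self]
    exact IsOfFinAddOrder.zero
  | insert p S _ ih =>
    intro ρ T hρ hT h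
    by_cases k : p.Prime ∧ p ∣ N ∧ ¬ (p : ℤ) ∣ ρ - ρ'
    swap
    · refine ih ρ T hρ hT fun q h1 h2 h3 => ?_
      by_cases a : q = p
      · subst a
        exact by_contra fun b => k ⟨h1, h2, b⟩
      · exact h q h1 h2 (by simp [a, h3])
    obtain ⟨hp, ⟨M, rfl⟩, k⟩ := k
    have p2 : p ≠ 2 := fun a => Nat.not_even_iff_odd.2 hodd (a ▸ even_two_mul M)
    have k1 : (p : ℤ) ∣ ρ + ρ' := ((Nat.prime_iff_prime_int.1 hp).dvd_or_dvd
      ((show (p : ℤ) ∣ 4 * (p * M : ℕ) from ⟨4 * M, by push_cast; ring⟩).trans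
        (sq ρ hρ))).resolve_left k
    obtain ⟨u, v, uv⟩ : IsCoprime (p : ℤ) (2 * M) := IsCoprime.mul_right
      (Nat.isCoprime_iff_coprime.2 ((Nat.coprime_primes hp Nat.prime_two).2 p2))
      (Nat.isCoprime_iff_coprime.2 (Nat.coprime_of_squarefree_mul hN))
    obtain ⟨r, hr⟩ : ∃ r : ℤ, r = ρ - 2 * ρ * v * (2 * M) := ⟨_, rfl⟩
    have r1 : (p : ℤ) ∣ r + ρ := ⟨2 * ρ * u, by rw [hr]; linear_combination -2 * ρ * uv⟩
    have r2 : 2 * (M : ℤ) ∣ r - ρ := ⟨-(2 * ρ * v), by rw [hr]; ring⟩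
    obtain ⟨R, hR⟩ := exists_freps D.N0 he r
    obtain ⟨s, hs, h1⟩ := ih r R (by
      have : r ^ 2 - e = ρ ^ 2 - e + 4 * (p * M : ℕ) * -(2 * ρ ^ 2 * u * v) := by
        rw [hr]
        push_cast
        linear_combination 8 * ρ ^ 2 * v * M * uv
      rw [this]
      exact hρ.add (dvd_mul_right _ _)) hR fun q h1 h2 h3 => by
        by_cases a : q = p
        · subst a
          exact (show r + ρ - (ρ + ρ') = r - ρ' by ring) ▸ r1.sub k1
        · rw [← sub_add_sub_cancel r ρ ρ']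
          refine dvd_add (((Int.natCast_dvd_natCast.2 ?_).mul_left 2).trans r2)
            (h q h1 h2 (by simp [a, h3]))
          exact (h1.dvd_mul.1 h2).resolve_left fun b =>
            a ((Nat.prime_dvd_prime_iff_eq h1 hp).1 b)
    obtain ⟨t, ht, h2⟩ := yD_flip D hp hodd (dvd_mul_right p M) (hC p hp (dvd_mul_right p M)) hB
      hc hd he r1 (by rwa [Nat.mul_div_cancel_left _ hp.pos]) hT hR
    refine ⟨s * t, by rcases hs with a | a <;> rcases ht with b | b <;> simp [a, b], ?_⟩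
    have h3 := h1.add (h2.zsmul (i := s))
    rwa [smul_sub, sub_add_sub_cancel, ← mul_smul] at h3

end Pool.Agent.G7
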