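import Pool.Agent.Lib.MP_696deb_nt.B7.HF

/-! Equidistribution of the sign in a periodic family that need not be symmetric. -/

set_option autoImplicit false

open scoped Classical
open Finset Filter Topology

namespace Pool.Agent.B6.B7

open Pool.Agent.Lib.MP_696deb_nt Pool.Agent.Lib.MP_696deb_nt.B3

variable {M : ℕ}

/-- Half of the members of a periodic family of squarefree integers have sign one. -/
theorem half_fam2 (hM : M ≠ 0) {A : ℤ → Prop} {rt : ℤ → ℤ}
    (A2 : ∀ d, A (d + M) ↔ A d) (A3 : ∀ d : ℤ, IsCoprime d M → A d ∨ A (-d))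
    (r1 : ∀ d, rt d = 1 ∨ rt d = -1)
    (r2 : ∀ d, rt (d + M) = rt d) {P : ℕ → ℤ → Prop} (hd : ∀ d, P 0 d → ¬ P 1 d)
    (h : ∀ ε : ℝ, 0 < ε → ∃ X0 : ℕ, ∀ X ≥ X0, (((Icc (-(X : ℤ)) X).filter fun d =>
      (Squarefree d ∧ A d) ∧ ¬ P (if d.sign * rt d = 1 then 0 else 1) d).card : ℝ) ≤ ε * X)
    {r : ℕ} (hr : r ≤ 1) :
    Tendsto (fun X : ℕ => (Set.ncard {d : ℤ | |d| ≤ X ∧ Squarefree d ∧ A d ∧ P r d} : ℝ) /
      (Set.ncard {d : ℤ | |d| ≤ X ∧ Squarefree d ∧ A d} : ℝ)) atTop (𝓝 (1 / 2)) := by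
  rw [Metric.tendsto_nhds]
  intro ε hε
  have L0 : (0 : ℝ) < M := Nat.cast_pos.2 (Nat.pos_of_ne_zero hM)
  obtain ⟨δ, hδ, e0⟩ : ∃ δ : ℝ, 0 < δ ∧ δ * (8 * M) = ε / 5 :=
    ⟨ε / (40 * M), by positivity, by field_simp; norm_num⟩
  obtain ⟨X0, h0⟩ := h δ hδ
  set ψ : ℤ → ℝ := fun d =>
    ((if A d then (rt d : ℝ) else 0) - if A (-d) then (rt (-d) : ℝ) else 0) / 2 with hψ
  filter_upwards [eventually_ge_atTop X0, sv_small (ψ := ψ) hM (fun d => by
      simp only [hψ]
      rcases r1 d with a | a <;> rcases r1 (-d) with b | b <;> rw [a, b] <;> split_ifs <;>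
        norm_num [abs_le]) (fun d => by
      simp only [hψ, neg_neg]
      ring) (fun d => by
      have a := A2 (-(d + M))
      have b := r2 (-(d + M))
      rw [neg_add, neg_add_cancel_right, ← neg_add] at a b
      simp only [hψ, A2, r2, ← a, ← b]) hδ,
    (tendsto_natCast_atTop_atTop (R := ℝ)).eventually_gt_atTop 0] with X h1 h2 h3
  set F := (cF X).filter A with hF
  have e1 : {d : ℤ | |d| ≤ X ∧ Squarefree d ∧ A d ∧ P r d} = ↑(F.filter (P r)) := by
    ext d
    simp [hF, cF, abs_le, and_assoc]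
  have e2 : {d : ℤ | |d| ≤ X ∧ Squarefree d ∧ A d} = ↑F := by
    ext d
    simp [hF, cF, abs_le, and_assoc]
  rw [e1, e2, Set.ncard_coe_finset, Set.ncard_coe_finset, Real.dist_eq]
  have b := h0 X h1
  rw [← filter_filter, ← filter_filter, ← cF, ← hF, ← sum_boole] at b
  have c : ((B2.V.gfS M X).card : ℝ) ≤ F.card := by
    refine Nat.cast_le.2 (card_le_card_of_injOn (fun N : ℕ => if A N then (N : ℤ) else -N)
      (fun N hN => ?_) fun a _ b _ h => by
        simp only at h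
        split_ifs at h <;> omega)
    simp only [B2.V.gfS, hF, cF, coe_filter, mem_filter, mem_range, mem_Icc,
      Set.mem_ofPred_eq] at hN ⊢
    have q := Int.squarefree_natCast.2 hN.2.1
    split_ifs with k
    · exact ⟨⟨by omega, q⟩, k⟩
    · exact ⟨⟨by omega, q.squarefree_of_dvd (neg_dvd.2 dvd_rfl)⟩,
        (A3 _ (Nat.isCoprime_iff_coprime.2 hN.2.2.2)).resolve_left k⟩
  have g := (B2.V.gf_big M hM X).trans (mul_le_mul_of_nonneg_left c (by positivity))
  have s : ∑ d ∈ F, ((d.sign * rt d : ℤ) : ℝ) = 2 * ∑ N ∈ cS X, ψ (N : ℕ) := by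
    rw [hF, sum_filter, c_sum, mul_sum]
    refine sum_congr rfl fun N hN => ?_
    have := (mem_filter.1 hN).2.ne_zero
    simp only [hψ]
    rw [Int.sign_eq_one_of_pos (by omega), Int.sign_eq_neg_one_of_neg (by omega)]
    split_ifs <;> push_cast <;> ring
  rw [abs_le] at h2
  have k : ∀ d ∈ F, |(if P r d then (1 : ℝ) else 0) - 1 / 2 -
      (1 / 2 - r) * ((d.sign * rt d : ℤ) : ℝ)| ≤
      if ¬ P (if d.sign * rt d = 1 then 0 else 1) d then 1 else 0 := fun d hd' => by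
    have j : d.sign * rt d = 1 ∨ d.sign * rt d = -1 := by
      rcases lt_or_gt_of_ne (mem_filter.1 (mem_filter.1 hd').1).2.ne_zero with k | k
      · rw [Int.sign_eq_neg_one_of_neg k]
        rcases r1 d with e | e <;> simp [e]
      · rw [Int.sign_eq_one_of_pos k, one_mul]
        exact r1 d
    have := hd d
    interval_cases r <;> rcases j with j | j <;> by_cases p0 : P 0 d <;> by_cases p1 : P 1 d <;>
      simp only [j, p0, p1, forall_const, not_true_eq_false] at this ⊢ <;> norm_num [p0, p1]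
  have k2 := ((abs_sum_le_sum_abs _ _).trans (sum_le_sum k)).trans b
  rw [sum_sub_distrib, sum_sub_distrib, sum_boole, ← mul_sum, sum_const, nsmul_eq_mul,
    abs_le, s] at k2
  have a0 : (0 : ℝ) < F.card := (mul_pos_iff_of_pos_left (by positivity)).1 (h3.trans_le g)
  have r3 : |(1 / 2 - (r : ℝ)) * (2 * ∑ N ∈ cS X, ψ (N : ℕ))| ≤ δ * X := by
    interval_cases r <;> rw [abs_le] <;> push_cast <;> constructor <;> nlinarith [h2.1, h2.2]
  rw [abs_le] at r3
  have a1 : δ * X ≤ ε / 5 * F.card := by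
    rw [← e0, mul_assoc]
    exact mul_le_mul_of_nonneg_left g hδ.le
  have a2 := mul_pos hε a0
  rw [abs_lt, lt_sub_iff_add_lt, sub_lt_iff_lt_add, lt_div_iff₀ a0, div_lt_iff₀ a0]
  constructor <;> nlinarith [k2.1, k2.2, r3.1, r3.2]

end Pool.Agent.B6.B7
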