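import Pool.Agent.Lib.MP_696deb_nt.B7.FinU
import Pool.Agent.Lib.MP_696deb_nt.B7.HF2

/-! Densities and root numbers for the curves whose central value is a unit at two. -/

set_option autoImplicit false

open scoped Classical
open Filter Topology NumberTheorySymbols

namespace Pool.Agent.B6.B7

open Pool.Agent.Lib.MP_696deb_nt Pool.Agent.Lib.MP_696deb_nt.B2 Pool.Agent.B4.GE

variable [Cs] {D : MD Wu NN} {r : ℕ}

theorem half_cnv2 (n : G5.Nw D) {k : ℕ} (hk : k ≠ 0) {A : ℤ → Prop}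
    (A2 : ∀ d, A (d + (NN * k : ℕ)) ↔ A d)
    (A3 : ∀ d : ℤ, IsCoprime d (NN * k : ℕ) → A d ∨ A (-d))
    (h : ∀ d, Squarefree d → A d → Cnv D.c d) (hr : r ≤ 1) : HalfA A WZ.c₄ WZ.c₆ r := by
  refine half_fam2 (P := fun r d => ∀ a b : ℤ, a = -27 * WZ.c₄ * d ^ 2 → b = -54 * WZ.c₆ * d ^ 3 →
    Both a b r) (mul_ne_zero NN_ne hk) A2 A3 (rt0_cases fun p hp k => (n p hp k).1)
    (fun d => per_mul rt0_add d k) (fun d h0 h1 => by
      simpa using (h0 _ _ rfl rfl).unique (h1 _ _ rfl rfl)) (fun ε hε => ?_) hr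
  obtain ⟨X0, h1⟩ := S.smith6 hε
  refine ⟨X0, fun X hX => le_trans (Nat.cast_le.2 (Finset.card_le_card fun d hd => ?_)) (h1 X hX)⟩
  rw [Finset.mem_filter] at hd ⊢
  obtain ⟨k0, ⟨k1, k2⟩, k4⟩ := hd
  exact ⟨k0, k1, fun hc => k4 fun a b ha hb => res_of (h d k1 k2 hc) ha hb⟩

/-- A family cut out by a condition modulo four that contains the odd discriminants. -/
theorem half_four (n : G5.Nw D) {A : ℤ → Prop} (A2 : ∀ d e, A (d + 4 * e) ↔ A d)
    (h : ∀ d, Squarefree d → d % 4 = 1 ∨ A d → Cnv D.c d) (hr : r ≤ 1) :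
    HalfA (fun d => d % 4 = 1 ∨ A d) WZ.c₄ WZ.c₆ r :=
  half_cnv2 n four_ne_zero (fun d => by
    rw [Nat.cast_mul, mul_comm, Nat.cast_ofNat, A2, Int.add_mul_emod_self_left]) (fun d hd => by
      rw [Nat.cast_mul] at hd
      have := Int.odd_iff.1 (Int.isCoprime_two_right.1
        (hd.of_mul_right_right.of_isCoprime_of_dvd_right (by decide)))
      rcases (by omega : d % 4 = 1 ∨ -d % 4 = 1) with k | k
      exacts [.inl (.inl k), .inr (.inl k)]) h hr

theorem half_unit (h : Hyp D) (hr : r ≤ 1) :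
    HalfA (fun d => d % 4 = 1 ∨ Odd d ∧ Even (D.c 2)) WZ.c₄ WZ.c₆ r :=
  half_four h.nw (fun d e => and_congr_left' (by
    simp only [Int.odd_iff]
    omega)) (fun _ => cnv_unit h) hr

/-- The root number as a product of local signs. -/
theorem rootNo_prod (n : G5.Nw D) (d : ℤ) : rootNo D.c NN d =
    d.sign * ∏ p ∈ NN.primeFactors, if (p : ℤ) ∣ d then -D.c p else J(d | p) := by
  have k := nw_prod n NN_sqf
  rw [← Finset.prod_filter_mul_prod_filter_not _ fun p : ℕ => (p : ℤ) ∣ d] at k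
  have k1 : (∏ p ∈ lvS NN d, -D.c p) ^ 2 = 1 := by
    rw [← Finset.prod_pow]
    exact Finset.prod_eq_one fun p hp => by
      rw [neg_sq]
      exact (n p (lvS_prime hp) ((mem_lvS NN_ne).1 hp).2.1).1
  rw [rootNo, rt0, Finset.prod_ite, Finset.prod_mul_distrib]
  unfold lvS at k1 ⊢
  have e : ∀ x y : ℤ, y * x = -1 → x ^ 2 = 1 → y = -x := fun x y k k1 => by
    linear_combination x * k - y * k1
  rw [e _ _ k k1, neg_mul]

theorem both_prod (n : G5.Nw D) {d : ℤ} (h : Cnv D.c d) (hd : d ≠ 0) {a b : ℤ}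
    (ha : a = -27 * WZ.c₄ * d ^ 2) (hb : b = -54 * WZ.c₆ * d ^ 3) (hS : Stmt.CorankLE
      ({ a₁ := 0, a₂ := 0, a₃ := 0, a₄ := (a : ℚ), a₆ := (b : ℚ) } : WeierstrassCurve ℚ) 1) :
    Both a b (if (d.sign * ∏ p ∈ NN.primeFactors, if (p : ℤ) ∣ d then -D.c p else J(d | p)) = 1
      then 0 else 1) :=
  rootNo_prod n d ▸ res_cnv h hd ha hb hS

end Pool.Agent.B6.B7
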