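import Pool.Agent.Lib.MP_696deb_nt.B3.Cnt
import Pool.Agent.Lib.MP_696deb_nt.S5.GF

/-! A sign that is the sign of `d` times a periodic function is equidistributed. -/

set_option autoImplicit false

open scoped Classical
open Finset Filter Topology

namespace Pool.Agent.B6.B7

open Pool.Agent.Lib.MP_696deb_nt Pool.Agent.Lib.MP_696deb_nt.B3

variable {M : ℕ} {ψ : ℤ → ℝ}

theorem per_mul {α : Type*} {f : ℤ → α} (h : ∀ d, f (d + M) = f d) (d : ℤ) (k : ℕ) :
    f (d + (M * k : ℕ)) = f d := by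
  induction k with
  | zero => simp
  | succ k ih => rw [mul_add, mul_one, Nat.cast_add, ← add_assoc, h, ih]

/-- The sieved function. -/
noncomputable def svd (ψ : ℤ → ℝ) (K : ℕ) (N : ℤ) : ℝ :=
  if ∀ p ≤ K, p.Prime → ¬ ((p * p : ℕ) : ℤ) ∣ N then ψ N else 0

theorem sv_sum (hM : M ≠ 0) (h1 : ∀ d, |ψ d| ≤ 1) (h2 : ∀ d, ψ (-d) = -ψ d)
    (h3 : ∀ d, ψ (d + M) = ψ d) (K : ℕ) : ∃ C : ℝ, ∀ X, |∑ N ∈ range X, svd ψ K ((N : ℕ) : ℤ)| ≤ C := by
  have hA : ∀ N, svd ψ K (N + (M * (K.factorial * K.factorial) : ℕ)) = svd ψ K N := fun N => by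
    unfold svd
    rw [per_mul h3]
    refine if_congr (forall_congr' fun p => forall_congr' fun h => forall_congr' fun hp => ?_) rfl rfl
    have := Nat.dvd_factorial hp.pos h
    rw [dvd_add_left (Int.natCast_dvd_natCast.2 ((Nat.mul_dvd_mul this this).mul_left _))]
  have hN : ∀ N, svd ψ K (-N) = -svd ψ K N := fun N => by
    unfold svd
    simp only [dvd_neg, h2]
    split_ifs <;> simp
  have M0 : 0 < M * (K.factorial * K.factorial) := by positivity
  generalize M * (K.factorial * K.factorial) = L at hA M0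
  refine ⟨L, B2.gf_per (f := fun N : ℕ => svd ψ K N) M0 (fun N => by rw [Nat.cast_add, hA]) ?_
    fun N => ?_⟩
  · have k1 : ∑ N ∈ range (L + 1), svd ψ K ((N : ℕ) : ℤ) =
        -∑ N ∈ range (L + 1), svd ψ K ((N : ℕ) : ℤ) := by
      conv_lhs => rw [← sum_range_reflect]
      rw [← sum_neg_distrib]
      refine sum_congr rfl fun N hN' => ?_
      rw [mem_range] at hN'
      rw [← hN, ← hA (-N)]
      congr 1
      omega
    have k2 : svd ψ K (L : ℕ) = 0 := by
      have k3 := hN 0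
      have k4 := hA 0
      rw [neg_zero] at k3
      rw [zero_add] at k4
      linarith
    rw [sum_range_succ, k2] at k1
    linarith
  · unfold svd
    split_ifs
    exacts [h1 _, by simp]

theorem sv_small (hM : M ≠ 0) (h1 : ∀ d, |ψ d| ≤ 1) (h2 : ∀ d, ψ (-d) = -ψ d)
    (h3 : ∀ d, ψ (d + M) = ψ d) {δ : ℝ} (hδ : 0 < δ) :
    ∀ᶠ X : ℕ in atTop, |∑ N ∈ cS X, ψ (N : ℕ)| ≤ δ * X := by
  obtain ⟨K, hK⟩ := exists_nat_gt (2 / δ)
  have K0 : (0 : ℝ) < K := (by positivity : 0 < 2 / δ).trans hK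
  obtain ⟨C, hC⟩ := sv_sum hM h1 h2 h3 K
  filter_upwards [(tendsto_natCast_atTop_atTop (R := ℝ)).eventually_ge_atTop (2 * C / δ)] with X hX
  have k1 := B2.gf_bad (K := K) (by rintro rfl; simp at K0) X
  have k2 : ∀ N : ℕ, |(if Squarefree N then ψ N else 0) - svd ψ K N| ≤
      if N ≠ 0 ∧ ∃ k, K < k ∧ k * k ∣ N then 1 else 0 := fun N => by
    by_cases h4 : Squarefree N
    · rw [if_pos h4, svd, if_pos fun p _ hp k => Nat.squarefree_iff_prime_squarefree.1 h4 p hp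
        (Int.natCast_dvd_natCast.1 k), sub_self, abs_zero]
      split_ifs <;> norm_num
    rw [if_neg h4, zero_sub, abs_neg, svd]
    by_cases h5 : ∀ p ≤ K, p.Prime → ¬ ((p * p : ℕ) : ℤ) ∣ (N : ℤ)
    · rw [if_pos h5]
      rcases eq_or_ne N 0 with rfl | h0
      · have := h2 0
        rw [neg_zero] at this
        rw [Nat.cast_zero, show ψ 0 = 0 by linarith, abs_zero]
        split_ifs <;> norm_num
      rw [if_pos]
      · exact h1 N
      rw [Nat.squarefree_iff_prime_squarefree] at h4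
      push Not at h4
      obtain ⟨p, hp, h6⟩ := h4
      exact ⟨h0, p, not_le.1 fun k => h5 p k hp (Int.natCast_dvd_natCast.2 h6), h6⟩
    · rw [if_neg h5, abs_zero]
      split_ifs <;> norm_num
  have k3 := (abs_sum_le_sum_abs _ (range (X + 1))).trans (sum_le_sum fun N _ => k2 N)
  rw [sum_sub_distrib, sum_boole, ← sum_filter] at k3
  have k4 := hC (X + 1)
  have k5 : (X : ℝ) / K ≤ δ / 2 * X := by
    rw [div_le_iff₀ K0]
    rw [div_lt_iff₀ hδ] at hK
    have : (0 : ℝ) ≤ X := Nat.cast_nonneg _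
    nlinarith
  rw [div_le_iff₀ hδ] at hX
  unfold cS
  rw [abs_le] at k3 k4 ⊢
  constructor <;> linarith [k3.1, k3.2, k4.1, k4.2]

/-- Half of the members of a symmetric periodic family of squarefree integers have sign one. -/
theorem half_fam (hM : M ≠ 0) {A : ℤ → Prop} {rt : ℤ → ℤ} (A1 : ∀ d, A (-d) ↔ A d)
    (A2 : ∀ d, A (d + M) ↔ A d) (A3 : ∀ d : ℤ, IsCoprime d M → A d)
    (r1 : ∀ d, rt d = 1 ∨ rt d = -1)
    (r2 : ∀ d, rt (d + M) = rt d) {P : ℕ → ℤ → Prop} (hd : ∀ d, P 0 d → ¬ P 1 d)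
    (h : ∀ ε : ℝ, 0 < ε → ∃ X0 : ℕ, ∀ X ≥ X0, (((Icc (-(X : ℤ)) X).filter fun d =>
      (Squarefree d ∧ A d) ∧ ¬ P (if d.sign * rt d = 1 then 0 else 1) d).card : ℝ) ≤ ε * X)
    {r : ℕ} (hr : r ≤ 1) :
    Tendsto (fun X : ℕ => (Set.ncard {d : ℤ | |d| ≤ X ∧ Squarefree d ∧ A d ∧ P r d} : ℝ) /
      (Set.ncard {d : ℤ | |d| ≤ X ∧ Squarefree d ∧ A d} : ℝ)) atTop (𝓝 (1 / 2)) := by
  rw [Metric.tendsto_nhds]
  intro ε hε
  have L0 : (0 : ℝ) < M := Nat.cast_pos.2 (Nat.pos_of_ne_zero hM)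
  obtain ⟨δ, hδ, e0⟩ : ∃ δ : ℝ, 0 < δ ∧ δ * (8 * M) = ε / 5 :=
    ⟨ε / (40 * M), by positivity, by field_simp; norm_num⟩
  obtain ⟨X0, h0⟩ := h δ hδ
  set ψ : ℤ → ℝ := fun d => if A d then ((rt d : ℝ) - rt (-d)) / 2 else 0 with hψ
  filter_upwards [eventually_ge_atTop X0, sv_small (ψ := ψ) hM (fun d => by
      simp only [hψ]
      split_ifs
      · rcases r1 d with a | a <;> rcases r1 (-d) with b | b <;> rw [a, b] <;> norm_num
      · simp) (fun d => by
      simp only [hψ, A1, neg_neg]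
      split_ifs <;> ring) (fun d => by
      simp only [hψ, A2, r2]
      rw [← r2 (-(d + M)), neg_add, neg_add_cancel_right]) hδ,
    (tendsto_natCast_atTop_atTop (R := ℝ)).eventually_gt_atTop 0] with X h1 h2 h3
  set F := (cF X).filter A with hF
  have e1 : {d : ℤ | |d| ≤ X ∧ Squarefree d ∧ A d ∧ P r d} = ↑(F.filter (P r)) := by
    ext d
    simp [hF, cF, abs_le, and_assoc]
  have e2 : {d : ℤ | |d| ≤ X ∧ Squarefree d ∧ A d} = ↑F := by
    ext d
    simp [hF, cF, abs_le, and_assoc]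
  rw [e1, e2, Set.ncard_coe_finset, Set.ncard_coe_finset, Real.dist_eq]
  have b := h0 X h1
  rw [← filter_filter, ← filter_filter, ← cF, ← hF, ← sum_boole] at b
  have c : ((B2.V.gfS M X).card : ℝ) ≤ F.card := by
    refine Nat.cast_le.2 (card_le_card_of_injOn (fun N : ℕ => (N : ℤ)) (fun N hN => ?_)
      fun a _ b _ h => by simpa using h)
    simp only [B2.V.gfS, hF, cF, coe_filter, mem_filter, mem_range, mem_Icc,
      Set.mem_ofPred_eq] at hN ⊢
    exact ⟨⟨by omega, Int.squarefree_natCast.2 hN.2.1⟩,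
      A3 _ (Nat.isCoprime_iff_coprime.2 hN.2.2.2)⟩
  have g := (B2.V.gf_big M hM X).trans (mul_le_mul_of_nonneg_left c (by positivity))
  have s : ∑ d ∈ F, ((d.sign * rt d : ℤ) : ℝ) = 2 * ∑ N ∈ cS X, ψ (N : ℕ) := by
    rw [hF, sum_filter, c_sum, mul_sum]
    refine sum_congr rfl fun N hN => ?_
    have := (mem_filter.1 hN).2.ne_zero
    simp only [hψ, A1]
    rw [Int.sign_eq_one_of_pos (by omega), Int.sign_eq_neg_one_of_neg (by omega)]
    split_ifs <;> push_cast <;> ring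
  rw [abs_le] at h2
  have k : ∀ d ∈ F, |(if P r d then (1 : ℝ) else 0) - 1 / 2 -
      (1 / 2 - r) * ((d.sign * rt d : ℤ) : ℝ)| ≤
      if ¬ P (if d.sign * rt d = 1 then 0 else 1) d then 1 else 0 := fun d hd' => by
    have j : d.sign * rt d = 1 ∨ d.sign * rt d = -1 := by
      rcases lt_or_gt_of_ne (mem_filter.1 (mem_filter.1 hd').1).2.ne_zero with k | k
      · rw [Int.sign_eq_neg_one_of_neg k]
        rcases r1 d with e | e <;> simp [e]
      · rw [Int.sign_eq_one_of_pos k, one_mul]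
        exact r1 d
    have := hd d
    interval_cases r <;> rcases j with j | j <;> by_cases p0 : P 0 d <;> by_cases p1 : P 1 d <;>
      simp only [j, p0, p1, forall_const, not_true_eq_false] at this ⊢ <;> norm_num [p0, p1]
  have k2 := ((abs_sum_le_sum_abs _ _).trans (sum_le_sum k)).trans b
  rw [sum_sub_distrib, sum_sub_distrib, sum_boole, ← mul_sum, sum_const, nsmul_eq_mul,
    abs_le, s] at k2
  have a0 : (0 : ℝ) < F.card := (mul_pos_iff_of_pos_left (by positivity)).1 (h3.trans_le g)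
  have r3 : |(1 / 2 - (r : ℝ)) * (2 * ∑ N ∈ cS X, ψ (N : ℕ))| ≤ δ * X := by
    interval_cases r <;> rw [abs_le] <;> push_cast <;> constructor <;> nlinarith [h2.1, h2.2]
  rw [abs_le] at r3
  have a1 : δ * X ≤ ε / 5 * F.card := by
    rw [← e0, mul_assoc]
    exact mul_le_mul_of_nonneg_left g hδ.le
  have a2 := mul_pos hε a0
  rw [abs_lt, lt_sub_iff_add_lt, sub_lt_iff_lt_add, lt_div_iff₀ a0, div_lt_iff₀ a0]
  constructor <;> nlinarith [k2.1, k2.2, r3.1, r3.2]

end Pool.Agent.B6.B7
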