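import Pool.Agent.Lib.MP_696deb_nt.B6.GF
import Pool.Agent.Lib.MP_696deb_nt.B7.EP
import Pool.Agent.Lib.MP_696deb_nt.B7.HF

/-! Densities among all squarefree twists. -/

set_option autoImplicit false

open scoped Classical
open Filter Topology NumberTheorySymbols

namespace Pool.Agent.B6.B7

open Pool.Agent.Lib.MP_696deb_nt Pool.Agent.Lib.MP_696deb_nt.B2 Pool.Agent.B4.GE

/-- Half of the twists in a family have both ranks equal to `r`. -/
def HalfA (A : ℤ → Prop) (c₄ c₆ : ℤ) (r : ℕ) : Prop := Tendsto (fun X : ℕ =>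
  (Set.ncard {d : ℤ | |d| ≤ X ∧ Squarefree d ∧ A d ∧
    ∀ a b : ℤ, a = -27 * c₄ * d ^ 2 → b = -54 * c₆ * d ^ 3 → Both a b r} : ℝ) /
  (Set.ncard {d : ℤ | |d| ≤ X ∧ Squarefree d ∧ A d} : ℝ)) atTop (𝓝 (1 / 2))

/-- Half of all twists have both ranks equal to `r`. -/
def HalfAll (c₄ c₆ : ℤ) (r : ℕ) : Prop := Tendsto (fun X : ℕ =>
  (Set.ncard {d : ℤ | |d| ≤ X ∧ Squarefree d ∧
    ∀ a b : ℤ, a = -27 * c₄ * d ^ 2 → b = -54 * c₆ * d ^ 3 → Both a b r} : ℝ) /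
  (Set.ncard {d : ℤ | |d| ≤ X ∧ Squarefree d} : ℝ)) atTop (𝓝 (1 / 2))

variable [Cs] {D : MD Wu NN} {r : ℕ}

theorem half_cnv (hs : Smith) (n : G5.Nw D) {k : ℕ} (hk : k ≠ 0) {A : ℤ → Prop}
    (A1 : ∀ d, A (-d) ↔ A d) (A2 : ∀ d, A (d + (NN * k : ℕ)) ↔ A d)
    (A3 : ∀ d : ℤ, IsCoprime d (NN * k : ℕ) → A d) (h : ∀ d, Squarefree d → A d → Cnv D.c d)
    (hr : r ≤ 1) : HalfA A WZ.c₄ WZ.c₆ r := by
  refine half_fam (P := fun r d => ∀ a b : ℤ, a = -27 * WZ.c₄ * d ^ 2 → b = -54 * WZ.c₆ * d ^ 3 →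
    Both a b r) (mul_ne_zero NN_ne hk) A1 A2 A3 (rt0_cases fun p hp k => (n p hp k).1)
    (fun d => per_mul rt0_add d k) (fun d h0 h1 => by
      simpa using (h0 _ _ rfl rfl).unique (h1 _ _ rfl rfl)) (fun ε hε => ?_) hr
  obtain ⟨X0, h1⟩ := hs ε hε
  refine ⟨X0, fun X hX => le_trans (Nat.cast_le.2 (Finset.card_le_card fun d hd => ?_)) (h1 X hX)⟩
  rw [Finset.mem_filter] at hd ⊢
  obtain ⟨k0, ⟨k1, k2⟩, k4⟩ := hd
  exact ⟨k0, k1, fun hc => k4 fun a b ha hb => res_of (h d k1 k2 hc) ha hb⟩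

theorem half_all (hs : Smith) (n : G5.Nw D) (h : ∀ d, Squarefree d → Cnv D.c d) (hr : r ≤ 1) :
    HalfAll WZ.c₄ WZ.c₆ r := by
  simpa only [HalfA, HalfAll, true_and, and_true] using half_cnv (A := fun _ => True) hs n
    one_ne_zero
    (fun _ => Iff.rfl) (fun _ => Iff.rfl) (fun _ _ => trivial) (fun d hd _ => h d hd) hr

theorem half_odd (hs : Smith) (n : G5.Nw D) (h : ∀ d, Squarefree d → Odd d → Cnv D.c d)
    (hr : r ≤ 1) : HalfA Odd WZ.c₄ WZ.c₆ r :=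
  half_cnv hs n two_ne_zero (fun _ => odd_neg) (fun d => by
    simp only [Int.odd_iff]
    omega) (fun d hd => by
      rw [Nat.cast_mul] at hd
      exact Int.isCoprime_two_right.1 hd.of_mul_right_right) h hr

/-- The root number when the conductor is a prime. -/
theorem rootNo_pr (n : G5.Nw D) (hp : NN.Prime) (d : ℤ) :
    rootNo D.c NN d = if (NN : ℤ) ∣ d then -d.sign else d.sign * J(d | NN) := by
  have := nw_prod n NN_sqf
  rw [hp.primeFactors, Finset.prod_singleton, neg_inj] at this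
  rw [rootNo_prime hp, this, mul_one]

/-- The converse theorem in explicit form when the conductor is a prime. -/
theorem both_pr (n : G5.Nw D) (hp : NN.Prime) {d : ℤ} (h : Cnv D.c d) (hd : d ≠ 0) {a b : ℤ}
    (ha : a = -27 * WZ.c₄ * d ^ 2) (hb : b = -54 * WZ.c₆ * d ^ 3) (hS : Stmt.CorankLE
      ({ a₁ := 0, a₂ := 0, a₃ := 0, a₄ := (a : ℚ), a₆ := (b : ℚ) } : WeierstrassCurve ℚ) 1) :
    Both a b (if (if (NN : ℤ) ∣ d then -d.sign else d.sign * J(d | NN)) = 1 then 0 else 1) :=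
  rootNo_pr n hp d ▸ res_cnv h hd ha hb hS

end Pool.Agent.B6.B7
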