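import Pool.Agent.Lib.MP_696deb_nt.B6.UNc
import Pool.Agent.Lib.MP_696deb_nt.B6.SLk
import Pool.Agent.Lib.MP_696deb_nt.B7.KL7b
import Pool.Agent.Lib.MP_696deb_nt.B7.GZ7z
import Pool.Agent.Lib.MP_696deb_nt.B7.GF

/-! Odd twists of the curves whose central value is a unit at two. -/

set_option autoImplicit false

open Classical Complex Filter Topology NumberTheorySymbols
open scoped Real UpperHalfPlane

namespace Pool.Agent.B6.B7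

open Pool.Agent.Lib.MP_696deb_nt Pool.Agent.Lib.MP_696deb_nt.B2 Pool.Agent.B4

theorem hyp_c
    (W : WeierstrassCurve ℤ) (N : ℕ) (hN : Squarefree N) (hN2 : Odd N) (hN1 : 1 < N)
    (hrad : ∀ p : ℕ, p.Prime → (p : ℤ) ∣ W.Δ → p ∣ N) (hc4 : IsCoprime W.c₄ W.Δ)
    (h2 : ∀ x : ℚ, 4 * x ^ 3 + W.b₂ * x ^ 2 + 2 * W.b₄ * x + W.b₆ ≠ 0)
    (f : CuspForm (CongruenceSubgroup.Gamma0 N) 2) (c : ℕ → ℤ) (hc : c 1 = 1)
    (hf : ∀ τ : ℍ, HasSum (fun n : ℕ => (c n : ℂ) * cexp (2 * π * I * τ) ^ n) (f τ))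
    (hT : ∀ l : ℕ, l.Prime → ¬ l ∣ N → ∀ n : ℕ,
      c (l * n) + (if l ∣ n then l * c (n / l) else 0) = c l * c n)
    (hU : ∀ p : ℕ, p.Prime → p ∣ N → c p ^ 2 = 1 ∧ ∀ n : ℕ, c (p * n) = c p * c n)
    (hW : ∀ τ τ' : ℍ, (τ' : ℂ) = -1 / (N * τ) → f τ' = -(N * τ ^ 2) * f τ)
    (hE : ∀ l : ℕ, l.Prime → ¬ l ∣ 2 * N →
      c l = l + 1 - Nat.card (W.map (Int.castRingHom (ZMod l))).toAffine.Point)
    (F : ℂ → ℂ) (hF : ∀ z : ℂ, F z = ∑' n : ℕ, (c n : ℂ) / n * cexp (2 * π * I * z) ^ n)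
    (L : PeriodPair) (h4 : (W.c₄ : ℂ) = 12 * L.g₂) (h6 : (W.c₆ : ℂ) = 216 * L.g₃)
    (k : ℚ) (hL : ∀ γ ∈ CongruenceSubgroup.Gamma0 N, ∀ τ : ℍ,
      k * (F (γ • τ : ℍ) - F τ) ∈ L.lattice)
    (Ω : ℂ) (hΩ : Tendsto (fun y : ℝ => F (y * I)) (𝓝[>] 0) (𝓝 Ω))
    (hH : ∀ m : ℤ, Odd m → m * (k * Ω) / 2 ∉ L.lattice) :
    ∃ (C : Cs) (D : GE.MD (@Wu C.toCw) (@NN C)), @WZ C.toCw = W ∧ @NN C = N ∧ D.c = c ∧
      @Hyp C D := by
  have h0 : W.Δ ≠ 0 := fun e => by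
    obtain ⟨p, p1, p2⟩ := Nat.exists_infinite_primes (N + 1)
    exact absurd (Nat.le_of_dvd hN2.pos (hrad p p2 (e ▸ dvd_zero _))) (by omega)
  let C₀ : Cw := ⟨W, h0⟩
  have k0 : k ≠ 0 := fun e => hH 1 odd_one (by simp [e])
  let D₀ : GE.MD Wu N := ⟨hN.ne_zero, f, c, hc, hf, hT, hW, F, hF, L,
    ⟨Wu_c₄.trans h4, Wu_c₆.trans h6⟩, k, k0, hL, Ω, hΩ⟩
  have ht : ∀ (l : ℕ) [Fact l.Prime], ¬ l ∣ 2 * N → c l = tr l cub := fun l hl e => by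
    rw [cub_fun]
    refine (hE l hl.out e).trans ?_
    rw [card_mod (fun k => e (k ▸ dvd_mul_right _ _))
      (fun k => e ((hrad l hl.out k).mul_left _)) rfl rfl rfl, sub_sub_cancel]
    rfl
  obtain ⟨hΔ, D, e, t1, t2⟩ := un_norm h2 hN D₀ (fun l hl k => by
    have := Fact.mk hl
    have e : ¬ l ∣ 2 * N := fun e => by have := Nat.le_of_dvd (by omega) e; omega
    rw [show D₀.c l = _ from ht l e, cub_fun]
    exact even_tr' (W := WZ) (fun k => e (k ▸ dvd_mul_right _ _))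
      (fun k => e ((hrad l hl k).mul_left _)) rfl rfl rfl) hH
  let C : Cs := @Cs.mk C₀ N hN hN2 hN1 hΔ hrad hc4 h2
  refine ⟨C, D, rfl, rfl, e, fun p h1 h2 => ?_, fun l hl k => ?_, fun k => t2 (by
      rw [show D.par.t0 = 0 from k, zero_div]; exact zero_mem _),
    SE.seed_all D.par t1 t2⟩
  · rw [e]
    exact hU p h1 h2
  · rw [e]
    exact ht l k

variable [Cs] {D : GE.MD Wu NN}

theorem cnv_unit (h : Hyp D) {d : ℤ} (hd : Squarefree d) (k : d % 4 = 1 ∨ Odd d ∧ Even (D.c 2)) :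
    Cnv D.c d :=
  conv7_odd G7.gz_stmt h hd (k.elim (fun k => Int.odd_iff.2 (by omega)) And.left) fun j =>
    (k.resolve_left (by omega)).2

end Pool.Agent.B6.B7
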