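import Pool.Agent.Lib.MP_696deb_nt.B7.GK7z
import Pool.Agent.Lib.MP_696deb_nt.B7.GD7a
import Pool.Agent.Lib.MP_696deb_nt.B7.LQ7a
import Pool.Agent.Lib.MP_696deb_nt.B5.GKz

/-! The relation of Gross, Kohnen and Zagier at the level of the newform. -/

set_option autoImplicit false

open Finset Complex NumberTheorySymbols
open scoped Classical ComplexConjugate

namespace Pool.Agent.G7

open Pool.Agent.Lib.MP_696deb_nt Pool.Agent.B4.GE Pool.Agent.Shared.Weier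
open Pool.Agent.Lib.MP_696deb_nt.B3 (kro PChr pchr_kro)
open Pool.Agent.B6.B7 (LKr LX LX_lin)
open Pool.Agent.G5 hiding Cx Yw Cw zs Ori CNStmt HWStmt LTStmt GLStmt LAStmt SWStmt NUStmt WPStmt
  HTStmt GZStmt LFStmt LRStmt LQStmt GKStmt

variable {N r K : ℕ} {d e f a ρ₁ : ℤ} {T : Finset Fm}

/-- The second degeneracy map on a twisted divisor of arbitrary discriminant. -/
theorem gky_lq (n0 : N ≠ 0) (hr : r.Prime) (h2 : ¬ (r : ℤ) ∣ 2 * N) (hρ : ¬ (r : ℤ) ∣ ρ₁)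
    (hD : (r : ℤ) ∣ ρ₁ ^ 2 - e) (h0 : e < 0) (hd : Gen7 d e)
    (c1 : IsCoprime ((N * r : ℕ) : ℤ) (cnd d)) (h₁ : FReps (N * r) e ρ₁ T) {V : Type}
    [AddCommGroup V] {S : ℂ → V} (hS : Inv0 N S) :
    yD (fun z => S (r * z)) d T = kro d r • yD S d T := by
  have n1 : N * r ≠ 0 := mul_ne_zero n0 hr.ne_zero
  have pr : Prime (r : ℤ) := Nat.prime_iff_prime_int.1 hr
  have c2 := c1
  rw [Nat.cast_mul] at c2
  have c0 := c2.of_mul_left_left
  have h : FReps N e ρ₁ T := lq_freps pr h2 hρ hD h0 (by simp) h₁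
  have k := (lq_freps (ρ := -ρ₁) pr h2 (by rwa [dvd_neg]) (by rwa [neg_sq]) h0 (by simp)
    (h₁.fV n1 h0).1).sum_eq (h.fV n0 h0).1 (fun Q => gD d Q • S (-1 / (N * froot Q)))
    fun Q R h1 h2 h3 => by
      rw [gD_feq h3 (h1.2.1 ▸ hd), h3.inv0 (inv0_fricke n0 hS) (h1.2.1 ▸ h0) h2]
  rw [(h.fV n0 h0).2, (h₁.fV n1 h0).2] at k
  have n2 : (N : ℂ) ≠ 0 := by exact_mod_cast n0
  have k1 : ∀ Q ∈ T, gD d (fV (N * r) Q) • S (-1 / (N * froot (fV (N * r) Q))) =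
      (kro d N * kro d r) • gD d Q • S (r * froot Q) := fun Q hQ => by
    have f := h₁.fam Q hQ
    rw [← gU, gU_cop n1 f.1 (f.2.1 ▸ hd) c1, froot_fV n1 (f.2.1 ▸ h0) (h₁.pos Q hQ) f.1, mul_smul,
      Nat.cast_mul, (pchr_kro hd.sqf).mul]
    congr 3
    push_cast
    field_simp
  have k2 : ∀ Q ∈ T, gD d (fV N Q) • S (-1 / (N * froot (fV N Q))) =
      kro d N • gD d Q • S (froot Q) := fun Q hQ => by
    have f := h.fam Q hQ
    rw [← gU, gU_cop n0 f.1 (f.2.1 ▸ hd) c0, froot_fV n0 (f.2.1 ▸ h0) (h.pos Q hQ) f.1, mul_smul]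
    congr 3
    field_simp
  rw [sum_congr rfl k1, sum_congr rfl k2, ← smul_sum, ← smul_sum] at k
  have j1 := (pchr_kro hd.sqf).sq c0
  have j2 := (pchr_kro hd.sqf).sq c2.of_mul_left_right
  have k3 := congrArg (fun x => (kro d N * kro d r) • x) k
  simp only [smul_smul] at k3
  rwa [show kro d N * kro d r * (kro d N * kro d r) = 1 by
      linear_combination kro d r ^ 2 * j1 + j2,
    show kro d N * kro d r * kro d N = kro d r by linear_combination kro d r * j1,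
    one_smul] at k3

theorem gky_cnd (hf : f ∣ 2) : Squarefree f ∧ cnd f ∣ 8 := by
  have : f = 1 ∨ f = -1 ∨ f = 2 ∨ f = -2 := by
    have h1 := Int.le_of_dvd two_pos hf
    have h2 := Int.le_of_dvd two_pos (neg_dvd.2 hf)
    have h3 : f ≠ 0 := ne_zero_of_dvd_ne_zero two_ne_zero hf
    omega
  exact ⟨Int.prime_two.squarefree.squarefree_of_dvd hf,
    by rcases this with rfl | rfl | rfl | rfl <;> decide⟩

theorem gky_cop (h4 : a % 4 = 1) (h : IsCoprime a N) : IsCoprime a (4 * N) :=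
  IsCoprime.mul_right ⟨1, -(a / 4), by omega⟩ h

theorem gky_sqf (hf : f ∣ 2) (ha : Squarefree a) (h4 : a % 4 = 1) : Squarefree (f * a) :=
  squarefree_mul_iff.2 ⟨(IsCoprime.of_isCoprime_of_dvd_left
    (⟨-(2 * (a / 4)), 1, by omega⟩ : IsCoprime 2 a) hf).isRelPrime, (gky_cnd hf).1, ha⟩

theorem gky_kro (hd : Squarefree d) (h : r ≡ 1 [MOD K]) (k : cnd d ∣ K) : kro d r = 1 :=
  ((pchr_kro hd).per _ _ ((Int.natCast_dvd_natCast.2 k).trans h.symm.dvd)).trans (pchr_kro hd).one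

theorem gky_jac (h4 : a % 4 = 1) (h : r ≡ 1 [MOD K]) (ho : Odd r)
    (k : a.natAbs ∣ K) : J(a | r) = 1 := by
  rw [← B3.jac_star h4 ho, gkz_jac h k]

theorem gk_of (gc : GC7) (ot : OR7) : GKStmt := by
  intro W N D hN oN N1 h f a x M hf f1 sa a4 ca sx x4 cx ax ne M0
  have b4 : ∀ {b : ℤ} {n : ℕ}, a * b = -n → G5.Good N n → b % 4 = 1 := fun {b n} e g => by
    have k := mul_mod4 b a4
    have := g.mod4
    rw [mul_comm, e] at k
    omega
  have bn : ∀ {b : ℤ} {n : ℕ}, a * b = -n → b ∣ n := fun e => ⟨-a, by linear_combination e⟩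
  by_cases hβ : ∃ β₀ : ℤ, 4 * (N : ℤ) ∣ β₀ ^ 2 - a * x
  swap
  · refine ⟨0, 1, fun _ => one_ne_zero, fun b ρ ρ₂ n T T₂ _ e g _ _ _ h1 h2 _ _ => (hβ ?_).elim⟩
    obtain ⟨u, v, k⟩ := gky_cop (b4 e g)
      ((Nat.isCoprime_iff_coprime.2 g.cop).of_isCoprime_of_dvd_left (bn e))
    obtain ⟨y, hy⟩ := h1
    obtain ⟨z, hz⟩ := h2
    refine ⟨u * ρ * ρ₂, u ^ 2 * (y * ρ₂ ^ 2 + a * b * z) - v * (u * b + 1) * (a * x), ?_⟩
    linear_combination u ^ 2 * ρ₂ ^ 2 * hy + u ^ 2 * a * b * hz + (u * b + 1) * (a * x) * k -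
      u ^ 2 * ρ₂ ^ 2 * e
  obtain ⟨β₀, hβ₀⟩ := hβ
  have K0 : 8 * (a.natAbs * x.natAbs * M * N) ≠ 0 := by
    have := Int.natAbs_ne_zero.2 sa.ne_zero
    have := Int.natAbs_ne_zero.2 sx.ne_zero
    positivity
  obtain ⟨r, hr, -, rm⟩ := Nat.exists_prime_gt_modEq_one 0 K0
  have r8 : r % 8 = 1 := rm.of_mul_right _
  have ro : Odd r := Nat.odd_iff.2 (by omega)
  have cr : ∀ {X : ℕ}, X ∣ 8 * (a.natAbs * x.natAbs * M * N) → X.Coprime r := fun d =>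
    (Nat.coprime_of_mul_modEq_one 1 (by simpa using rm)).symm.of_dvd_left d
  have dA : a.natAbs ∣ 8 * (a.natAbs * x.natAbs * M * N) := ⟨8 * (x.natAbs * M * N), by ring⟩
  have dx : x.natAbs ∣ 8 * (a.natAbs * x.natAbs * M * N) := ⟨8 * (a.natAbs * M * N), by ring⟩
  have dM : M ∣ a.natAbs * x.natAbs * M * N := ⟨a.natAbs * x.natAbs * N, by ring⟩
  have cN : N.Coprime r := cr ((dvd_mul_left _ _).mul_left _)
  have rN : ¬ r ∣ N := (Nat.Prime.coprime_iff_not_dvd hr).1 cN.symm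
  have c4 := (gkz_cop ro cN.symm).symm
  have jA := gky_jac a4 rm ro dA
  have jx := gky_jac x4 rm ro dx
  obtain ⟨β, hβ, -⟩ := gkz_lift hr c4 (by rw [jacobiSym.mul_left, jA, jx, mul_one]) hβ₀
  have c2 : IsCoprime (2 * N : ℤ) r := c4.of_isCoprime_of_dvd_left ⟨2, by ring⟩
  obtain ⟨γ, g1, g2⟩ := exists_crt c2.symm (-a.natAbs) a.natAbs
  obtain ⟨P, e1, e2, e3, h0, cp⟩ := gkz_lr W N r D hN h hr rN
  have n1 : N * r ≠ 0 := mul_ne_zero D.N0 hr.ne_zero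
  have sN : Squarefree (N * r) := (Nat.squarefree_mul cN).2 ⟨hN, hr.squarefree⟩
  have up : ∀ {y : ℤ}, IsCoprime y N → y.natAbs ∣ 8 * (a.natAbs * x.natAbs * M * N) →
      IsCoprime y (N * r : ℕ) := fun k l => by
    rw [Nat.cast_mul]
    exact k.mul_right (Int.isCoprime_iff_gcd_eq_one.2 (cr l))
  obtain ⟨al, nu, k1, k2⟩ := gc W _ r P _ M f a x β γ sN (oN.mul ro) hr (dvd_mul_left r N)
    (fun e => N1.ne' (by simpa [hr.ne_zero] using e)) cp (fun z hz => by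
      rw [map_sub, ← D.par.F_conj hz, ← D.par.F_conj (lr_pos hr.ne_zero hz)]
      simp) h0 (fun l hl k => by
      rw [e2]
      exact (lt_of_abs_lt (B5.md_abs_lt D hl fun d => k (d.mul_right r))).ne) hf f1 sa a4 (up ca dA)
    sx x4 (up cx dx) ax ne M0 (by simpa using g1) (by rwa [Nat.mul_div_cancel _ hr.pos])
  have ci := par_ci D.par
  obtain ⟨sf, f8⟩ := gky_cnd hf
  refine ⟨al, nu, fun k => k1 ?_, fun b ρ ρ₂ n T T₂ d e g h3 hJ n3 h1 h2 hT hT₂ => ?_⟩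
  · have s := gky_sqf hf sa a4
    have dc : cnd (f * a) ∣ 8 * (a.natAbs * x.natAbs * M * N) := cnd_mul s a4 ▸
      mul_dvd_mul f8 ⟨x.natAbs * M * N, by ring⟩
    rw [LKr, LX_lin (κ := 1) (κ₂ := 1) (c := 0) n1 (cnd_ne s) (ci.raise D.N0 hr.ne_zero)
      (ci.raise_mul D.N0 hr.ne_zero) fun z _ => by rw [e3]; ring,
      lq_ser hr.ne_zero (pchr_kro s) (cr dc).symm ci, gky_kro s rm dc]
    simpa [← two_mul, LKr] using k
  have b1 := b4 e g
  have sB : Squarefree b := (Int.squarefree_natCast.2 g.sqf).squarefree_of_dvd (bn e)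
  have s := gky_sqf hf sB b1
  have cB : IsCoprime b N := (Nat.isCoprime_iff_coprime.2 g.cop).of_isCoprime_of_dvd_left (bn e)
  have dB : b.natAbs ∣ a.natAbs * x.natAbs * M * N := (Int.dvd_natCast.1 d).trans dM
  have jB := gky_jac b1 rm ro (dB.mul_left 8)
  have dc : cnd (f * b) ∣ 8 * (a.natAbs * x.natAbs * M * N) := cnd_mul s b1 ▸ mul_dvd_mul f8 dB
  have jB' := gky_kro s rm dc
  have en : a.natAbs * b.natAbs = n := by rw [← Int.natAbs_mul, e]; simp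
  have g' : Good (N * r) n := ⟨g.sqf, g.mod4,
    g.cop.mul_right (en ▸ (cr dA).mul_left (cr (dB.mul_left 8))), sN, oN.mul ro,
    one_lt_mul'' N1 hr.one_lt⟩
  obtain ⟨ρ₁, p1, p2⟩ := gkz_lift (e := -n) hr c4 (by
    rw [← e, jacobiSym.mul_left, jA, jB, mul_one]) (by rwa [sub_neg_eq_add])
  have g3 : 4 * ((N * r : ℕ) : ℤ) ∣ γ ^ 2 - a ^ 2 := by
    rw [Nat.cast_mul, ← mul_assoc, ← Int.natAbs_sq a]
    exact c4.mul_dvd (gkz_sq g2) (by convert g1.mul_right (γ - a.natAbs) using 1; ring)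
  have c5 := gky_cop a4 (up ca dA)
  have c6 : IsCoprime γ (4 * ((N * r : ℕ) : ℤ)) := by
    obtain ⟨y, hy⟩ := g3
    have := (c5.pow_left (m := 2)).add_mul_left_left y
    rw [← hy, add_sub_cancel] at this
    exact this.of_isCoprime_of_dvd_left (dvd_pow_self γ two_ne_zero)
  obtain ⟨u, v, uv⟩ := c6
  have p3 : 2 * ((N * r : ℕ) : ℤ) ∣ ρ₁ * β - γ * (u * ρ₁ * β) :=
    ⟨2 * v * ρ₁ * β, by linear_combination -(ρ₁ * β) * uv⟩
  have p4 : 4 * ((N * r : ℕ) : ℤ) ∣ (u * ρ₁ * β) ^ 2 - b * x := by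
    refine (c5.symm.pow_right (n := 2)).dvd_of_dvd_mul_left ?_
    convert (((p1.mul_right (β ^ 2)).sub (hβ.mul_left n)).sub (gkz_sq p3)).sub
      (g3.mul_right ((u * ρ₁ * β) ^ 2)) using 1
    linear_combination -(a * x) * e
  generalize u * ρ₁ * β = ρ₃ at p3 p4
  have c0 : (0 : ℤ) < cnd f ^ 2 := by
    have := cnd_ne sf
    positivity
  have x0 : b * x * cnd f ^ 2 < 0 := mul_neg_of_neg_of_pos (by
    have : 0 < a * a := mul_self_pos.2 sa.ne_zero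
    have : a * b * (a * x) < 0 := mul_neg_of_neg_of_pos (by omega) ax
    nlinarith) c0
  obtain ⟨S, hS⟩ := exists_freps n1 (D := -(n * cnd f ^ 2))
    (neg_lt_zero.2 (mul_pos (by omega) c0)) (ρ₁ * cnd f)
  obtain ⟨S₃, hS₃⟩ := exists_freps n1 x0 (ρ₃ * cnd f)
  obtain ⟨σ, hs, t1⟩ := k2 b ρ₁ ρ₃ n S S₃ d e g' h3 (by
    rw [Nat.cast_mul, ← neg_mul, (pchr_kro s).mul, hJ, jB', mul_one]) n3
    (by rwa [sub_neg_eq_add] at p1) p4 p3 hS hS₃
  have u : P.per.unif = D.par.per.unif := by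
    have : ∀ (L : PeriodPair) (k : IsPer L (W.baseChange ℂ)), L = D.L → k.unif = D.per.unif := by
      rintro _ _ rfl
      rfl
    exact this _ _ e1
  have pr : Prime (r : ℤ) := Nat.prime_iff_prime_int.1 hr
  have q0 : ¬ (r : ℤ) ∣ 2 * N := (Prime.coprime_iff_not_dvd pr).1 c2.symm
  have sq : ∀ {m y : ℤ}, m ∣ y ^ 2 - b * x → m ∣ (y * cnd f) ^ 2 - b * x * cnd f ^ 2 := fun k => by
    rw [mul_pow, ← sub_mul]
    exact k.mul_right _
  have q1 : (r : ℤ) ∣ ρ₃ ^ 2 - b * x := Dvd.dvd.trans ⟨4 * N, by push_cast; ring⟩ p4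
  have q2 : ¬ (r : ℤ) ∣ ρ₃ * cnd f := fun k => (pr.dvd_or_dvd k).elim (fun k => by
    have k1 := (dvd_pow k two_ne_zero).sub q1
    rw [sub_sub_cancel, Int.natCast_dvd, Int.natAbs_mul] at k1
    exact (Nat.Prime.coprime_iff_not_dvd hr).1 ((cr (dB.mul_left 8)).mul_left (cr dx)).symm k1)
    fun k => (Nat.Prime.coprime_iff_not_dvd hr).1 (cr (f8.mul_right _)).symm (mod_cast k)
  have gn : Gen7 (f * b) (b * x * cnd f ^ 2) := gen7_mul s b1 ⟨x, by ring⟩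
  have c2N : IsCoprime 2 (N : ℤ) := mod_cast Nat.isCoprime_iff_coprime.2 (Nat.coprime_two_left.2 oN)
  have cf := (c2N.of_isCoprime_of_dvd_left hf).mul_left cB
  have q3 := gky_lq D.N0 hr q0 q2 (sq q1) x0 gn (Nat.isCoprime_iff_coprime.2 (Nat.Coprime.mul_left
    (Nat.coprime_of_dvd fun k hk k1 k2 => (Nat.prime_iff_prime_int.1 hk).not_isUnit
      (cf.isUnit_of_dvd' ((B3.odd_dvd_cond s (oN.of_dvd_nat k1)).1 k2) (mod_cast k1)))
    (cr dc).symm)) hS₃ D.par.inv0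
  obtain ⟨q4, q5⟩ := lq_pts n f b ρ ρ₁ T S g' hr sf (IsCoprime.of_isCoprime_of_dvd_left (by
    exact_mod_cast Nat.isCoprime_iff_coprime.2 (Nat.coprime_two_left.2 (ro.mul g.odd))) hf) (bn e)
    b1 (by rwa [sub_neg_eq_add] at p1) p2 hT hS _ _ D.par.inv0
  obtain ⟨s', hs', t2⟩ := ot W N D (f * b) _ _ _ T₂ S₃ hN oN h s cf ⟨gn.two, gn.odd⟩ x0 (sq h2)
    (sq (Dvd.dvd.trans ⟨r, by push_cast; ring⟩ p4)) hT₂
    (lq_freps pr q0 q2 (sq q1) x0 (by simp) hS₃)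
  have y1 : yD P.φ (f * b) S = 2 • yD D.par.φ (f * b) T := by
    simp only [yD, Par.φ, jB', one_smul] at q4 q5
    simp only [yD, Par.φ, u, e3, map_add, zsmul_add, sum_add_distrib, q4, q5, two_nsmul]
  have y2 : yD P.φ (f * b) S₃ = 2 • yD D.par.φ (f * b) S₃ := by
    simp only [yD, Par.φ, jB', one_smul] at q3
    simp only [yD, Par.φ, u, e3, map_add, zsmul_add, sum_add_distrib, q3, two_nsmul]
  rw [y1, y2, smul_comm al, smul_comm (σ * nu), ← smul_sub] at t1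
  refine ⟨σ * s', by rcases hs with rfl | rfl <;> rcases hs' with rfl | rfl <;> simp, ?_⟩
  have t3 := (t1.of_nsmul two_ne_zero).add (t2.zsmul (i := σ * nu))
  rwa [smul_sub, smul_smul, sub_add_sub_cancel, mul_right_comm] at t3

end Pool.Agent.G7
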