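import Pool.Agent.Lib.MP_696deb_nt.B7.HW7b
import Pool.Agent.Lib.MP_696deb_nt.B5.HWc

/-! The Hecke recursion for divisors and geodesics with an arbitrary genus character. -/

set_option autoImplicit false

open Finset NumberTheorySymbols Function
open scoped Classical

namespace Pool.Agent.G7.Hv

open Pool.Agent.Lib.MP_696deb_nt Pool.Agent.G5.Hw
open Pool.Agent.Lib.MP_696deb_nt.B3 (kro chi2 odp cond2 PChr pchr_chi2 odp_odd odp_sqf pchr_kro
  jac_star odp_dvd)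
open Pool.Agent.G5 (HFm Tf nuW)

variable {l N M m : ℕ} {f u b d e β ρ σ : ℤ} {R : Fm} {ω : Fm → ℤ} {κ η : ℕ → ℤ} {z : ℂ}
  {V : Type} [AddCommGroup V]

theorem mod_mul (h : b % 4 = 1) (f : ℤ) : f * b % 4 = f % 4 := by
  rw [Int.mul_emod, h, mul_one, Int.emod_emod]

theorem cond2_mul (h : b % 4 = 1) (f : ℤ) : cond2 (f * b) = cond2 f := by
  rw [cond2, cond2, mod_mul h]

theorem chi2_mul (h : b % 4 = 1) (f : ℤ) : chi2 (f * b) = chi2 f := funext fun k => by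
  obtain ⟨s, rfl⟩ : ∃ s, b = 4 * s + 1 := ⟨b / 4, by omega⟩
  rw [chi2, chi2, mod_mul h]
  by_cases h1 : f % 2 = 0
  · obtain ⟨g, rfl⟩ := Int.dvd_of_emod_eq_zero h1
    rw [show 2 * g * (4 * s + 1) = 2 * g + 8 * (g * s) by ring, Int.add_mul_emod_self_left]
  · split_ifs <;> first | rfl | omega

theorem odp_mul (h : b % 4 = 1) (f : ℤ) : odp (f * b) = odp f * b.natAbs := by
  have := mod_mul h f
  rw [odp, odp, Int.natAbs_mul]
  split_ifs <;> try omega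
  obtain ⟨g, hg⟩ : 2 ∣ f.natAbs := by omega
  rw [hg, mul_assoc, Nat.mul_div_cancel_left _ two_pos, Nat.mul_div_cancel_left _ two_pos]

theorem kro_mul (hf : Squarefree f) (h : b % 4 = 1) (k : ℤ) :
    kro (f * b) k = kro f k * J(k | b.natAbs) := by
  rw [kro, kro, chi2_mul h, odp_mul h, jacobiSym.mul_right' _ (odp_sqf hf).ne_zero (by omega),
    mul_assoc]

theorem kr_eq (h : e % 4 = 1) (hl : l.Prime) : kr e l = J(l | e.natAbs) := by
  unfold kr
  by_cases h1 : l = 2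
  · subst h1
    rw [if_pos rfl, Nat.cast_ofNat, jacobiSym.at_two (Nat.odd_iff.2 (by omega)),
      ZMod.χ₈_nat_eq_if_mod_eight]
    split_ifs <;> omega
  · rw [if_neg h1, jac_star h (hl.odd_of_ne_two h1)]

theorem cls_of (h : b % 4 = 1) (f u m : ℤ) : Cls (f * b) (u * b * cnd f ^ 2 * m) := by
  rw [Cls, cond2_mul h, odp_mul h, cnd, B3.cond]
  push_cast
  exact ⟨⟨u * b * odp f ^ 2 * m, by ring⟩, ((mul_dvd_mul (dvd_refl (odp f : ℤ))
    ((abs_dvd _ _).2 dvd_rfl)).trans ⟨u * cond2 f ^ 2 * odp f * m, by ring⟩)⟩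

theorem nd_of (hl : l.Prime) (h : Squarefree (f * u)) (k : (l : ℤ) ∣ f) : ¬ (l : ℤ) ∣ u := fun j =>
  (Nat.prime_iff_prime_int.1 hl).not_isUnit (h l (mul_dvd_mul k j))

/-- The sum over the neighbours at a prime that does not divide the index. -/
theorem eta_gU (hu : Squarefree (f * u)) (hb : Squarefree (f * b)) (u4 : u % 4 = 1) (b4 : b % 4 = 1)
    (hl : l.Prime) (hN : ¬ l ∣ N) (hm : ¬ l ∣ m) (a : (N : ℤ) ∣ R.1)
    (hR : fdisc R = u * b * cnd f ^ 2 * m ^ 2) :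
    Ns l (gU N (f * b)) R = (kro (f * b) l + kro (f * u) l) * gU N (f * b) R := by
  have hP := Nat.prime_iff_prime_int.mp hl
  have hf := hb.of_mul_left
  have hc : Cls (f * b) (fdisc R) := hR ▸ cls_of b4 f u _
  have m' : ¬ (l : ℤ) ∣ m := by rwa [Int.natCast_dvd_natCast]
  have nd : ∀ {x y : ℤ}, ¬ (l : ℤ) ∣ x → ¬ (l : ℤ) ∣ y → ¬ (l : ℤ) ∣ x * y := fun i j k =>
    (hP.dvd_or_dvd k).elim i j
  have n2 : ∀ {x : ℤ}, ¬ (l : ℤ) ∣ x → ¬ (l : ℤ) ∣ x ^ 2 := fun i k => i (hP.dvd_of_dvd_pow k)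
  by_cases k : l ∣ cnd f
  · rw [kro_mul hf b4, kro_mul hf u4, kro_zero hf hl k, zero_mul, zero_mul, add_zero, zero_mul]
    rcases cnd_cases hl k with ⟨rfl, j⟩ | j
    · obtain ⟨s, hs⟩ : Odd ((odp f : ℤ) * m) := by
        exact_mod_cast (odp_odd hf).mul (Nat.odd_iff.2 (by omega))
      refine ns_two hb hc hN a (by rwa [mod_mul b4]) (u := u * b * (odp f * m) ^ 2) ?_
        (by rw [hR, cond2_mul b4, cnd, B3.cond]; push_cast; ring)
      rw [hs, show (2 * s + 1) ^ 2 = 1 + 4 * (s ^ 2 + s) by ring, mod_mul (by omega), mod_mul b4, u4]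
    · have j1 : (l : ℤ) ∣ f := Int.natCast_dvd.2 (j.trans (odp_dvd f))
      obtain ⟨C, hC⟩ := j
      refine ns_odd hb hc hl hN a (odp_mul b4 f ▸ hC ▸ (dvd_mul_right _ _).mul_right _)
        (e := u * b * (cond2 f * C * m) ^ 2) (by rw [hR, cnd, B3.cond, hC]; push_cast; ring)
        (nd (nd (nd_of hl hu j1) (nd_of hl hb j1)) (n2 (nd (nd (fun i => ?_) fun i => ?_) m')))
      · exact ne_two hf ⟨C, hC⟩ ((Nat.prime_dvd_prime_iff_eq hl Nat.prime_two).1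
          (hl.dvd_of_dvd_pow (n := 3) ((Int.natCast_dvd_natCast.1 i).trans
            (by unfold cond2; split_ifs <;> decide))))
      · exact (split hl (hC ▸ odp_sqf hf)).2.2 (Int.natCast_dvd_natCast.1 i)
  have c' : ¬ (l : ℤ) ∣ cnd f := by rwa [Int.natCast_dvd_natCast]
  by_cases j : (l : ℤ) ∣ b
  · obtain ⟨b, rfl⟩ := j
    have ho : Odd l := by
      by_contra i
      obtain ⟨s, rfl⟩ := Nat.not_odd_iff_even.1 i
      rw [Nat.cast_add, add_mul] at b4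
      omega
    have b' : ¬ (l : ℤ) ∣ b := nd_of hl hb.of_mul_right dvd_rfl
    have h1 : odp (f * (l * b)) = l * (odp f * b.natAbs) := by
      rw [odp_mul b4, Int.natAbs_mul, Int.natAbs_natCast, mul_left_comm]
    rw [B3.kro_odd hb ho, jac_zero_of_dvd hl ((dvd_mul_right _ _).mul_left _), zero_add]
    by_cases i : (l : ℤ) ∣ u
    · rw [B3.kro_odd hu ho, jac_zero_of_dvd hl (i.mul_left _), zero_mul]
      obtain ⟨u, rfl⟩ := i
      exact ns_odd hb hc hl hN a ⟨_, h1⟩ (e := u * b * (cnd f * m) ^ 2) (by rw [hR]; ring)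
        (nd (nd (nd_of hl hu.of_mul_right dvd_rfl) b') (n2 (nd c' m')))
    · have h2 : J(l | b.natAbs) = J(-b | l) := by
        rcases Nat.odd_mod_four_iff.1 (Nat.odd_iff.1 ho) with s | s
        · rw [mul_comm, mod_mul (by omega)] at b4
          rw [jac_star b4 ho, jacobiSym.neg _ ho, ZMod.χ₄_nat_one_mod_four s, one_mul]
        · rw [show l * b = -b * -l by ring, mod_mul (by omega)] at b4
          rw [← jac_star b4 ho, Int.natAbs_neg]
      rw [ns_ram hb hc hl hN a h1 (e := u * b * (cnd f * m) ^ 2) (by rw [hR]; ring)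
        (nd (nd i b') (n2 (nd c' m'))), chi2_mul b4, jacobiSym.mul_right' _ (odp_sqf hf).ne_zero
        (by rintro s; exact b' (by rw [Int.natAbs_eq_zero.1 s]; exact dvd_zero _)), h2,
        kro_mul hf u4, jac_star u4 ho, kro, show -(u * b * (cnd f * m) ^ 2) =
        u * -b * (cnd f * m) ^ 2 by ring, jacobiSym.mul_left, jacobiSym.mul_left,
        jacobiSym.pow_left, jac_sq hl (nd c' m')]
      linear_combination chi2 f l * J(l | odp f) * J(u | l) * gU N (f * (l * b)) R *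
        jac_sq hl (k := -b) (by rwa [dvd_neg])
  · have h1 : J(l | b.natAbs) ^ 2 = 1 := jacobiSym.sq_one (Int.isCoprime_iff_gcd_eq_one.1
      (hP.coprime_iff_not_dvd.2 (by rwa [Int.dvd_natAbs])))
    rw [ns_cop hb hc hl hN a (by
      rw [cnd_mul hb b4]
      exact fun i => (hl.dvd_mul.1 i).elim k fun i => j (Int.natCast_dvd.2 i)) fun i => ?_, hR,
      show u * b * cnd f ^ 2 * m ^ 2 = u * b * (cnd f * m) ^ 2 by ring, kr_sq hl (nd c' m'),
      kr_eq (by rw [mod_mul b4, u4]) hl, kro_mul hf b4, kro_mul hf u4, Int.natAbs_mul,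
      jacobiSym.mul_right' _ (by omega) (by omega)]
    · linear_combination kro f l * J(l | u.natAbs) * gU N (f * b) R * h1
    · rw [hR, mul_assoc, mul_assoc, sq] at i
      exact hP.not_isUnit (hu.of_mul_right l (((hP.coprime_iff_not_dvd.2
        (nd j (nd (n2 c') (n2 m')))).mul_left (hP.coprime_iff_not_dvd.2
        (nd j (nd (n2 c') (n2 m'))))).dvd_of_dvd_mul_right i))

/-- The recursion for a sum over a family. -/
theorem hf_gen {Ψ : Fm → ℂ → V} (hΨ : Kn Ψ) (hM : N ∣ M) (h4 : 4 ∣ β ^ 2 - e)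
    (hω : ∀ l : ℕ, l.Prime → ¬ l ∣ N → Cmp l N e ω (κ l))
    (hη : ∀ l : ℕ, l.Prime → ¬ l ∣ M → ∀ m : ℕ, ¬ l ∣ m → ∀ R : Fm, (N : ℤ) ∣ R.1 →
      fdisc R = e * m ^ 2 → Ns l ω R = (κ l + η l) * ω R)
    (hf : ∀ m : ℕ, m ≠ 0 → m.Coprime M → ∀ z : ℂ, 0 < z.im →
      (support fun R => wF N ω (e * m ^ 2) (β * m) R • Ψ R z).Finite) :
    HFm M η fun m z => ∑ᶠ R, wF N ω (e * m ^ 2) (β * m) R • Ψ R z := by
  intro l hl hK m h0 hm z hz
  have hN : ¬ l ∣ N := fun j => hK (j.trans hM)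
  have l0 : (0 : ℤ) < l := by exact_mod_cast hl.pos
  have f1 := hf (l * m) (mul_ne_zero hl.ne_zero h0)
    (Nat.Coprime.mul_left (hl.coprime_iff_not_dvd.2 hK) hm) z hz
  have h1 : Tf V l (fun z => ∑ᶠ R, wF N ω (e * m ^ 2) (β * m) R • Ψ R z) z =
      ∑ᶠ R, (∑ i, ex (G5.Hw.hm l i) (wF N ω (e * m ^ 2) (β * m)) R) • Ψ R z := by
    simp only [sum_smul]
    rw [finsum_sum_comm _ _ fun i _ => ex_fin (Ψ := fun R => Ψ R z) (hm_inj hl.ne_zero i) (by
      simpa only [hΨ.hm _ _ _ _ hl.ne_zero] using hf m h0 hm _ (im_pos hl.ne_zero i hz))]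
    change ∑ i, ∑ᶠ R, wF N ω (e * m ^ 2) (β * m) R • Ψ R (act (rP l i) z) = _
    refine sum_congr rfl fun i _ => ?_
    rw [ex_sum (hm_inj hl.ne_zero i) _ fun R => Ψ R z]
    simp only [hΨ.hm _ _ _ _ hl.ne_zero]
  rw [h1]
  simp only [w_rec hl hN h4 (hω l hl hN) (hη l hl hK m), add_smul]
  split_ifs with k
  · have f2 := ex_fin (Ψ := fun R => Ψ R z) (sc_inj (mul_pos l0 l0).ne') (by
      simpa only [hΨ.sc _ _ _ (mul_pos l0 l0)] using hf (m / l)
        (Nat.div_pos (Nat.le_of_dvd (Nat.pos_of_ne_zero h0) k) hl.pos).ne'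
        (hm.coprime_dvd_left (Nat.div_dvd_of_dvd k)) z hz)
    rw [finsum_add_distrib f1 (fin_mul _ f2), sum_mul' _ f2, ex_sum (sc_inj (mul_pos l0 l0).ne')]
    simp only [hΨ.sc _ _ _ (mul_pos l0 l0)]
  · have f2 := ex_fin (Ψ := fun R => Ψ R z) (sc_inj l0.ne') (by
      simpa only [hΨ.sc _ _ _ l0] using hf m h0 hm z hz)
    rw [finsum_add_distrib f1 (fin_mul _ f2), sum_mul' _ f2, ex_sum (sc_inj l0.ne')]
    simp only [hΨ.sc _ _ _ l0]

theorem fam_of_wF (h : wF N ω e β R ≠ 0) : G5.Fam N e β R ∧ ω R ≠ 0 := by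
  unfold wF at h
  split_ifs at h with k
  exacts [⟨k, h⟩, absurd rfl h]

theorem of_zF (h : zF N ω σ e ρ R ≠ 0) :
    0 < R.1 ∧ (G5.Fam N e ρ R ∨ G5.Fam N e (-ρ) R) ∧ ω R ≠ 0 := by
  unfold zF at h
  split_ifs at h with k
  · by_cases j : wF N ω e ρ R = 0
    · rw [j, zero_add] at h
      exact ⟨k, .inr (fam_of_wF (right_ne_zero_of_mul h)).1, (fam_of_wF (right_ne_zero_of_mul h)).2⟩
    · exact ⟨k, .inl (fam_of_wF j).1, (fam_of_wF j).2⟩
  · exact absurd rfl h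

theorem fin_N (he : e < 0) (z : ℂ) : (support fun R => wF N ω e β R • kN R z).Finite := by
  refine Set.Subsingleton.finite fun Q hQ R hR => ?_
  have h : ∀ R ∈ support fun R => wF N ω e β R • kN R z, fdisc R = e ∧ 0 < R.1 ∧ froot R = z :=
    fun R k => ⟨(fam_of_wF (left_ne_zero_of_mul k)).1.2.1,
      by_contra fun j => right_ne_zero_of_mul k (if_neg j)⟩
  obtain ⟨a1, a2, a3⟩ := h Q hQ
  obtain ⟨b1, b2, b3⟩ := h R hR
  exact froot_inj (b1 ▸ he) b2 a2 (a1.trans b1.symm) (a3.trans b3.symm)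

theorem nuW_zF (he : e < 0) (z : ℂ) : nuW (zF N ω σ e ρ) z =
    ∑ᶠ R, wF N ω e ρ R • kN R z + σ • ∑ᶠ R, wF N ω e (-ρ) R • kN R z := by
  rw [← sum_mul' _ (fin_N he z), ← finsum_add_distrib (fin_N he z) (fin_mul _ (fin_N he z)), nuW]
  refine finsum_congr fun R => ?_
  rw [zF, kN]
  by_cases h1 : 0 < R.1 <;> by_cases h2 : froot R = z <;> simp [h1, h2]

theorem hf_nuW (hM : N ∣ M) (h4 : 4 ∣ ρ ^ 2 - e) (he : e < 0)
    (hω : ∀ l : ℕ, l.Prime → ¬ l ∣ N → Cmp l N e ω (κ l))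
    (hη : ∀ l : ℕ, l.Prime → ¬ l ∣ M → ∀ m : ℕ, ¬ l ∣ m → ∀ R : Fm, (N : ℤ) ∣ R.1 →
      fdisc R = e * m ^ 2 → Ns l ω R = (κ l + η l) * ω R) (σ : ℤ) :
    HFm M η fun m => nuW (zF N ω σ (e * m ^ 2) (ρ * m)) := by
  have hn : ∀ m : ℕ, m ≠ 0 → e * m ^ 2 < 0 := fun m k => mul_neg_of_neg_of_pos he (by positivity)
  have h1 : ∀ m : ℕ, m ≠ 0 → nuW (zF N ω σ (e * m ^ 2) (ρ * m)) =
      (fun z => ∑ᶠ R, wF N ω (e * m ^ 2) (ρ * m) R • kN R z) +
        σ • fun z => ∑ᶠ R, wF N ω (e * m ^ 2) (-ρ * m) R • kN R z := fun m k => funext fun z => by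
    rw [nuW_zF (hn m k), ← neg_mul]; rfl
  have h2 := fun (β : ℤ) (h4 : 4 ∣ β ^ 2 - e) =>
    hf_gen kn_kN hM h4 hω hη fun m a _ z _ => fin_N (hn m a) z
  intro l hl hK m h0 hm z hz
  beta_reduce
  rw [h1 m h0, h1 _ (mul_ne_zero hl.ne_zero h0), map_add, map_smul, Pi.add_apply, Pi.smul_apply,
    h2 ρ h4 l hl hK m h0 hm z hz, h2 (-ρ) (by rwa [neg_sq]) l hl hK m h0 hm z hz]
  split_ifs with k
  · rw [h1 _ (Nat.div_pos (Nat.le_of_dvd (Nat.pos_of_ne_zero h0) k) hl.pos).ne']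
    simp only [Pi.add_apply, Pi.smul_apply, smul_eq_mul]
    ring
  · simp only [Pi.add_apply, Pi.smul_apply, smul_eq_mul]
    ring

/-- The recursion for the divisors attached to the discriminants `u b c ^ 2`. -/
theorem hf_Y (hu : Squarefree (f * u)) (hb : Squarefree (f * b)) (u4 : u % 4 = 1) (b4 : b % 4 = 1)
    (hM : N ∣ M) (he : e = u * b * cnd f ^ 2) (h4 : 4 ∣ ρ ^ 2 - e) (h0 : e < 0) (σ : ℤ) :
    HFm M (fun l => kro (f * u) l) fun m => nuW (zF N (gU N (f * b)) σ (e * m ^ 2) (ρ * m)) :=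
  hf_nuW (κ := fun l => kro (f * b) l) hM h4 h0
    (fun _ hl k => cmp_gU hb (by simpa [he] using cls_of b4 f u 1) hl k)
    (fun _ hl k _ j _ a i => eta_gU hu hb u4 b4 hl (fun s => k (s.trans hM)) j a (he ▸ i)) σ

/-- The recursion for the geodesics attached to the discriminants `u b c ^ 2`. -/
theorem hf_C (hu : Squarefree (f * u)) (hb : Squarefree (f * b)) (u4 : u % 4 = 1) (b4 : b % 4 = 1)
    (hN : N ≠ 0) (hM : N ∣ M) (he : e = u * b * cnd f ^ 2) (h4 : 4 ∣ β ^ 2 - e)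
    (hne : ∀ m : ℕ, m ≠ 0 → m.Coprime M → ∀ R,
      wF N (gU N (f * b)) (e * m ^ 2) (β * m) R ≠ 0 → R.1 ≠ 0) :
    HFm M (fun l => kro (f * u) l) fun m => Iw (wF N (gU N (f * b)) (e * m ^ 2) (β * m)) := by
  simp only [funext (Iw_eq _)]
  exact hf_gen (κ := fun l => kro (f * b) l) kn_kI hM h4
    (fun _ hl k => cmp_gU hb (by simpa [he] using cls_of b4 f u 1) hl k)
    (fun _ hl k _ j _ a i => eta_gU hu hb u4 b4 hl (fun s => k (s.trans hM)) j a (he ▸ i))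
    fun m a c z k => fin_kI (wt_gU hN hb (he ▸ cls_of b4 f u _) _) (hne m a c) k

end Pool.Agent.G7.Hv
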