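import Pool.Agent.Lib.MP_696deb_nt.B7.GK7z
import Pool.Agent.Lib.MP_696deb_nt.B7.HW7c
import Pool.Agent.Lib.MP_696deb_nt.B7.GD7a

/-! The Hecke recursion for twists that are ramified at two. -/

set_option autoImplicit false

open Finset NumberTheorySymbols
open scoped Classical

namespace Pool.Agent.G7

open Pool.Agent.Lib.MP_696deb_nt Pool.Agent.G5.Hw
open Pool.Agent.Lib.MP_696deb_nt.B3 (kro odp cond2)
open Pool.Agent.G7.Hv (Cls Cmp Ns)

variable {l N : ℕ} {d e f a κ : ℤ} {R : Fm} {ω μ : Fm → ℤ}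

theorem hg_gU (hd : Squarefree d) (h : Cls d e) (k : e ∣ fdisc R) : gD d R = gU 1 d R := by
  rw [gU, show G5.fV 1 R = fmap R 0 1 (-1) 0 by simp [G5.fV, fmap, fval],
    gD_fmap ⟨hd, h.1.trans k, h.2.trans k⟩ (by simp)]

theorem hg_cmp (hl : l ≠ 0) (h : ∀ R, e ∣ fdisc R → ω R = μ R) (k : Cmp l 1 e μ κ) :
    Cmp l N e ω κ := by
  have s : ∀ R, e ∣ fdisc R → e ∣ fdisc (sc l R) := fun R b => disc_sc l R ▸ b.mul_right _
  refine ⟨fun R _ b => ?_, fun i R _ b j => ?_, fun R _ b => ?_⟩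
  · rw [h _ (s R b), h R b, k.hs R (one_dvd _) b]
  · rw [h _ (disc_hm i R ▸ b.mul_right _), h R b, k.hh i R (one_dvd _) b j]
  · rw [h _ (s R b), h R b, ← k.ha R (one_dvd _) b]
    exact sum_congr rfl fun i _ =>
      h _ (disc_nb hl (vl_sc i l R ▸ dvd_mul_right _ _) ▸ s R b)

theorem hg_ns (hl : l ≠ 0) (h : ∀ R, e ∣ fdisc R → ω R = μ R) (b : e ∣ fdisc R) :
    Ns l ω R = Ns l μ R := sum_congr rfl fun i _ => by
  split_ifs with j
  exacts [h _ (disc_nb hl j ▸ b), rfl]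

theorem hg_cases (h : f ∣ 2) (h1 : f ≠ 1) :
    Squarefree f ∧ f % 4 ≠ 1 ∧ cnd f = cond2 f ∧ odp f = 1 ∧ 4 ∣ cnd f ∧ cnd f ∣ 8 := by
  have h2 := Int.le_of_dvd two_pos h
  have h3 := Int.le_of_dvd two_pos (neg_dvd.2 h)
  refine ⟨Int.prime_two.squarefree.squarefree_of_dvd h, ?_⟩
  obtain rfl | rfl | rfl | rfl : f = -2 ∨ f = -1 ∨ f = 0 ∨ f = 2 := by omega
  · decide
  · decide
  · omega
  · decide

theorem hg7 : HG7 := by
  intro N K f a u β η hN hf f1 ha a4 _ au u4 NK uK hη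
  obtain ⟨fs, f4, c2, o1, c4, c8⟩ := hg_cases hf f1
  have hd : Squarefree (f * a) := squarefree_mul_iff.2 ⟨((Int.prime_two.coprime_iff_not_dvd.2
    (by omega)).of_isCoprime_of_dvd_left hf).isRelPrime, fs, ha⟩
  have cl : Cls (f * a) (u * cnd f ^ 2) := by
    obtain ⟨s, rfl⟩ := au
    simpa [mul_comm a] using Hv.cls_of a4 f s 1
  have h4 : 4 ∣ (β * cnd f) ^ 2 - u * cnd f ^ 2 := by
    obtain ⟨s, hs⟩ := c4
    exact ⟨4 * (β ^ 2 - u) * s ^ 2, by rw [hs]; push_cast; ring⟩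
  have eq := fun R => hg_gU (R := R) hd cl
  have hω : ∀ l : ℕ, l.Prime → ¬ l ∣ N → Cmp l N (u * cnd f ^ 2) (gD (f * a)) (kro (f * a) l) :=
    fun l hl _ => hg_cmp hl.ne_zero eq (Hv.cmp_gU hd cl hl hl.not_dvd_one)
  have hs : ∀ l : ℕ, l.Prime → ¬ l ∣ K → ∀ m : ℕ, ¬ l ∣ m → ∀ R : Fm, (N : ℤ) ∣ R.1 →
      fdisc R = u * cnd f ^ 2 * m ^ 2 →
      Ns l (gD (f * a)) R = (kro (f * a) l + η l) * gD (f * a) R := fun l hl k m hm R _ hR => by
    have b : u * cnd f ^ 2 ∣ fdisc R := hR ▸ dvd_mul_right _ _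
    have c : Cls (f * a) (fdisc R) := ⟨cl.1.trans b, cl.2.trans b⟩
    have hP := Nat.prime_iff_prime_int.1 hl
    rw [hg_ns hl.ne_zero eq b, hη l hl k, eq R b]
    rcases hl.eq_two_or_odd' with rfl | o
    · obtain ⟨s, hs⟩ : Odd (m : ℤ) := by exact_mod_cast Nat.odd_iff.2 (by omega)
      rw [kro_zero hd hl (cnd_mul hd a4 ▸ (Dvd.dvd.trans (by decide) c4).mul_right _), zero_mul,
        add_zero, zero_mul]
      refine Hv.ns_two hd c hl.not_dvd_one (one_dvd _) (by rwa [Hv.mod_mul a4]) (u := u * m ^ 2) ?_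
        (by rw [hR, Hv.cond2_mul a4, c2]; ring)
      rw [hs, show (2 * s + 1) ^ 2 = 1 + 4 * (s ^ 2 + s) by ring, Hv.mod_mul (by omega), u4]
    have n1 : ¬ (l : ℤ) ∣ u := fun j =>
      k (Int.natCast_dvd_natCast.1 (hP.dvd_of_dvd_pow (j.trans uK)))
    have l2 : l ≠ 2 := by
      rintro rfl
      exact absurd o (by decide)
    have n2 : ¬ l ∣ cnd f := fun j => l2 ((Nat.prime_dvd_prime_iff_eq hl Nat.prime_two).1
      (hl.dvd_of_dvd_pow (n := 3) (j.trans c8)))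
    have n3 : ¬ (l : ℤ) ∣ cnd f * m := fun j => (hP.dvd_or_dvd j).elim
      (fun i => n2 (Int.natCast_dvd_natCast.1 i)) fun i => hm (Int.natCast_dvd_natCast.1 i)
    replace hR : fdisc R = u * (cnd f * m) ^ 2 := by rw [hR]; ring
    rw [Hv.ns_cop hd c hl hl.not_dvd_one (one_dvd _) (cnd_mul hd a4 ▸ fun j =>
      (hl.dvd_mul.1 j).elim n2 fun i => n1 ((Int.natCast_dvd.2 i).trans au)) fun j =>
        (hP.dvd_or_dvd (hR ▸ (dvd_pow_self _ two_ne_zero).trans j)).elim n1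
          fun i => n3 (hP.dvd_of_dvd_pow i), hR, kr_sq hl n3, kr, if_neg l2, mul_comm J(u | l)]
  have c0 := cnd_ne fs
  refine ⟨fun _ hne => ?_, fun h0 => Hv.hf_nuW NK h4
    (mul_neg_of_neg_of_pos h0 (by positivity)) hω hs _⟩
  simp only [funext (Iw_eq _)]
  exact Hv.hf_gen kn_kI NK h4 hω hs fun m a c z k => fin_kI (wt_wF (fun Q R i j => gD_feq j
    ⟨hd, i.2.1 ▸ cl.1.mul_right _, i.2.1 ▸ cl.2.mul_right _⟩) (Hv.abs_gD _))
    (fun R j => hne m a (c.coprime_dvd_right NK) R (Hv.fam_of_wF j).1) k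

end Pool.Agent.G7
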