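import Pool.Agent.Lib.MP_696deb_nt.B7.HW7a

/-! The relation between special points of different fields for twists that are ramified at two:
statements. -/

set_option autoImplicit false

open Finset NumberTheorySymbols
open scoped Classical ComplexConjugate

namespace Pool.Agent.G7

open Pool.Agent.Lib.MP_696deb_nt Pool.Agent.B4.GE Pool.Agent.Shared.Weier
open Pool.Agent.Lib.MP_696deb_nt.B3 (kro)
open Pool.Agent.B6.B7 (LKr)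
open Pool.Agent.G7.Hv (Cls)
open Pool.Agent.G5 hiding Cx Yw Cw zs Ori CNStmt HWStmt LTStmt GLStmt LAStmt SWStmt NUStmt WPStmt
  HTStmt GZStmt LFStmt LRStmt LQStmt

/-- The counts of pairs of a point and a geodesic agree for a twisted and a split family. -/
def MA7 : Prop := ∀ (N p n : ℕ) (f a b γ : ℤ), G5.Good N n → 3 < n → a * b = -n → a % 4 = 1 →
  f ∣ 2 → f ≠ 1 → p.Prime → p ∣ N → (p : ℤ) ∣ γ + a.natAbs →
  2 * ((N / p : ℕ) : ℤ) ∣ γ - a.natAbs → ∃ σ : ℤ, (σ = 1 ∨ σ = -1) ∧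
  ∀ (x ρ ρ₂ β t : ℤ) (k g : ℕ) (T T₂ : Finset Fm), Squarefree k → 3 < k → g ≠ 0 →
    b * x = -(k * g ^ 2) → 4 * (N : ℤ) ∣ ρ ^ 2 + n → 2 * (N : ℤ) ∣ ρ * β - γ * ρ₂ →
    G5.FReps N (-(n * cnd f ^ 2)) (ρ * cnd f) T →
    G5.FReps N (b * x * (cnd f * 2) ^ 2) (ρ₂ * (cnd f * 2)) T₂ →
    cntP T (gD (f * b)) (wF N (gD (f * a)) (a * x * (cnd f * 2) ^ 2) (β * (cnd f * 2))) t =
      σ * cntP T₂ (gD (f * b)) (wF N (gD (f * a)) (a * a * cnd f ^ 2) (γ * cnd f)) t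

/-- The Hecke recursion at two and at the primes that do not divide the discriminant. -/
def HG7 : Prop := ∀ (N K : ℕ) (f a u β : ℤ) (η : ℕ → ℤ), Odd N → f ∣ 2 → f ≠ 1 → Squarefree a →
  a % 4 = 1 → IsCoprime a N → a ∣ u → u % 4 = 1 → N ∣ K → u ∣ K ^ 2 →
  (∀ l : ℕ, l.Prime → ¬ l ∣ K → η l = kro (f * a) l * J(u | l)) →
  (0 < u → (∀ m : ℕ, m ≠ 0 → m.Coprime N → ∀ R,
      G5.Fam N (u * cnd f ^ 2 * m ^ 2) (β * cnd f * m) R → R.1 ≠ 0) →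
    HFm K η fun m => Iw (wF N (gD (f * a)) (u * cnd f ^ 2 * m ^ 2) (β * cnd f * m))) ∧
  (u < 0 → HFm K η fun m =>
    nuW (zF N (gD (f * a)) (f * a).sign (u * cnd f ^ 2 * m ^ 2) (β * cnd f * m)))

/-- The Hecke operators move from the special divisors to an invariant function. -/
def AJ7 : Prop := ∀ (N K n g : ℕ) (d D ρ : ℤ) (η : ℕ → ℤ) (T T' : ℕ → Finset Fm) (t : HW),
  1 < N → N ∣ K → Squarefree d → Cls d D → Squarefree n → 3 < n → g ≠ 0 → D = -(n * g ^ 2) →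
  IsCoprime (N : ℤ) ρ → t ∈ HA K →
  (∀ m : ℕ, m ≠ 0 → G5.FReps N (D * m ^ 2) (ρ * m) (T m) ∧
    G5.FReps N (D * m ^ 2) (-(ρ * m)) (T' m)) →
  (HFm K η fun m => nuW (zF N (gD d) d.sign (D * m ^ 2) (ρ * m))) →
  ∀ (V : Type) [AddCommGroup V] (S : ℂ → V), Inv0 N S →
    cmb (fun m => ∑ Q ∈ T m ∪ T' m, zF N (gD d) d.sign (D * m ^ 2) (ρ * m) Q • S (froot Q))
      (ha η t (Finsupp.single 1 1)) =
    ∑ Q ∈ T 1 ∪ T' 1, zF N (gD d) d.sign D ρ Q • hf V t S (froot Q)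

/-- The class of the split family survives when the twisted period does not vanish. -/
def PD7 : Prop := ∀ (N p : ℕ) (d β : ℤ) (F F₂ G : ℂ → ℂ) (a : ℕ → ℤ) (t : HW) (w : MZ) (s : ℤ)
  (c c₂ κ κ₂ c₃ : ℂ), Squarefree N → Odd N → p.Prime → p ∣ N → N ≠ p → Squarefree d →
  IsCoprime d N → (p : ℤ) ∣ β + cnd d → 2 * ((N / p : ℕ) : ℤ) ∣ β - cnd d →
  Ci N F → Ci N F₂ → G5.Eig N a F → ALm N p w → (s = 1 ∨ s = -1) →
  (∀ z : ℂ, 0 < z.im → F (act w z) = s * F z + c ∧ F₂ (act w z) = -s * F₂ z + c₂) → t ∈ HA N →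
  (Inv0 N fun z => (G z).re - cmb (fun m => Iw (wF N (gD d) ((cnd d * m) ^ 2) (β * m)))
    (ha (fun l => kro d l) t (Finsupp.single 1 1)) z) →
  (∀ z : ℂ, 0 < z.im → G z = κ * F z + κ₂ * F₂ z + c₃) → he a t ≠ 0 → LKr F d 1 ≠ 0 → κ ≠ 0

/-- The involution at one prime flips the orientation. -/
def FP7 : Prop := ∀ (N p : ℕ) (d D β β' : ℤ) (w : MZ) (T T' : Finset Fm), ALm N p w → p.Prime →
  Odd N → p ∣ N → D < 0 → (p : ℤ) ∣ β' + β → 2 * ((N / p : ℕ) : ℤ) ∣ β' - β →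
  G5.FReps N D β T → G5.FReps N D β' T' → Squarefree d → IsCoprime d N → Cls d D →
  ∀ (V : Type) [AddCommGroup V] (S : ℂ → V), Inv0 N S →
    yD S d T' = kro d p • yD (fun z => S (act w z)) d T

/-- Change of orientation. -/
def OR7 : Prop := ∀ (W : WeierstrassCurve ℚ) (N : ℕ) (D : MD W N) (d e ρ ρ' : ℤ)
  (T T' : Finset Fm), Squarefree N → Odd N → Nw D → Squarefree d → IsCoprime d N → Cls d e →
  e < 0 → 4 * (N : ℤ) ∣ ρ ^ 2 - e → 4 * (N : ℤ) ∣ ρ' ^ 2 - e → G5.FReps N e ρ T →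
  G5.FReps N e ρ' T' →
  ∃ s : ℤ, (s = 1 ∨ s = -1) ∧ IsOfFinAddOrder (yD D.par.φ d T' - s • yD D.par.φ d T)

/-- The relation at a composite level, for a fixed orientation. -/
def GC7 : Prop := ∀ (W : WeierstrassCurve ℚ) (N p : ℕ) (P : Par W N) (F₂ : ℂ → ℂ) (M : ℕ)
  (f a x β γ : ℤ), Squarefree N → Odd N → p.Prime → p ∣ N → N ≠ p → Cp P F₂ p →
  (∀ z : ℂ, 0 < z.im → F₂ (-conj z) = conj (F₂ z)) → IsOfFinAddOrder (P.per.unif P.t0) →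
  (∀ l : ℕ, l.Prime → ¬ l ∣ N → P.a l ≠ l + 1) → f ∣ 2 → f ≠ 1 → Squarefree a → a % 4 = 1 →
  IsCoprime a N → Squarefree x → x % 4 = 1 → IsCoprime x N → 0 < a * x → a ≠ x → M ≠ 0 →
  (p : ℤ) ∣ γ + a.natAbs → 2 * ((N / p : ℕ) : ℤ) ∣ γ - a.natAbs →
  ∃ al nu : ℤ, (LKr P.F (f * a) 1 ≠ 0 → nu ≠ 0) ∧ ∀ (b ρ ρ₂ : ℤ) (n : ℕ) (T T₂ : Finset Fm),
    b ∣ M → a * b = -n → G5.Good N n → 3 < n → kro (f * b) (-N) = -1 →
    (∀ k : ℤ, b * x ≠ -3 * k ^ 2) → 4 * (N : ℤ) ∣ ρ ^ 2 + n → 4 * (N : ℤ) ∣ ρ₂ ^ 2 - b * x →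
    2 * (N : ℤ) ∣ ρ * β - γ * ρ₂ → G5.FReps N (-(n * cnd f ^ 2)) (ρ * cnd f) T →
    G5.FReps N (b * x * cnd f ^ 2) (ρ₂ * cnd f) T₂ →
    ∃ s : ℤ, (s = 1 ∨ s = -1) ∧
      IsOfFinAddOrder (al • yD P.φ (f * b) T - (s * nu) • yD P.φ (f * b) T₂)

end Pool.Agent.G7
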