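import Pool.Agent.Lib.MP_696deb_nt.B7.MA7a
import Pool.Agent.Lib.MP_696deb_nt.B7.GK7z

/-! The counts of pairs of a point and a geodesic agree. -/

set_option autoImplicit false

open scoped Classical
open Finset NumberTheorySymbols

namespace Pool.Agent.G7

open Pool.Agent.Lib.MP_696deb_nt
open Pool.Agent.Lib.MP_696deb_nt.B3 (kro)

theorem Ma.cntP_gU {N : ℕ} {d E : ℤ} (hN : N ≠ 0) (h : Cu.Gn d E) (hc : IsCoprime (N : ℤ) (cnd d))
    (T : Finset Fm) (m : Fm → ℤ) (β t : ℤ) :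
    cntP T m (wF N (gU N d) E β) t = kro d N * cntP T m (wF N (gD d) E β) t := by
  rw [cntP, cntP, mul_sum]
  refine sum_congr rfl fun Q _ => ?_
  rw [mul_left_comm, mul_finsum _ (kro d N)]
  refine congrArg _ (finsum_congr fun R => ?_)
  rw [mul_ite, mul_zero, wF, wF, mul_ite, mul_zero]
  refine if_congr Iff.rfl (if_ctx_congr Iff.rfl (fun k => ?_) fun _ => rfl) rfl
  exact Hv.tm_gD h.sqf (K := E) ⟨h.two, h.odd⟩ R _ N 0 1 (-N) 0 (k.2.1 ▸ dvd_rfl)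
    (((Hv.disc_fV hN k.1).trans k.2.1) ▸ dvd_rfl) (Hv.sc_fV hN k.1)
    (hc.mul_left (by simpa using hc))

theorem ma7 : MA7 := by
  intro N p n f a b γ hn h3 hm a4 f2 f1 hp hN g1 g2
  have hf : f = -1 ∨ f = 2 ∨ f = -2 := by
    have := (Nat.dvd_prime Nat.prime_two).1 (Int.natAbs_dvd_natAbs.2 f2)
    omega
  have h := Ma.ok_two hf hn hm a4
  obtain ⟨σ, hσ, H⟩ := ma_two hf hn h3 hm a4 hp hN g1 g2
  refine ⟨σ, hσ, fun x ρ ρ₂ β t k g T T₂ k1 k2 k3 k4 k5 k6 k7 k8 => ?_⟩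
  have h1 := H x ρ ρ₂ β t k g T T₂ k1 k2 k3 k4 k5 k6 k7 k8
  have hc : IsCoprime (N : ℤ) (cnd (f * a)) := by
    rw [cnd_mul h.sa a4]
    exact Nat.isCoprime_iff_coprime.2
      (Nat.Coprime.mul_right h.cN.symm h.good.cop.coprime_mul_right.symm)
  rw [Ma.cntP_gU h.n0 (Cu.gn_mul h.sa a4 (mul_dvd_mul (dvd_mul_right a x) ⟨2 ^ 2, by ring⟩)) hc,
    Ma.cntP_gU h.n0 (Cu.gn_mul h.sa a4 (mul_dvd_mul_right (dvd_pow_self a two_ne_zero) _)) hc,
    mul_left_comm σ, sq a] at h1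
  exact mul_left_cancel₀ (by rcases (B3.pchr_kro h.sa).unit hc with e | e <;> simp [e]) h1

end Pool.Agent.G7
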