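import Pool.Agent.Lib.MP_696deb_nt.B7.PD7b
import Pool.Agent.Lib.MP_696deb_nt.B7.GK7z

/-! The class of the split family, in the form used by the relation between special points. -/

set_option autoImplicit false

namespace Pool.Agent.G7

theorem pd7 : PD7 := fun _ _ _ _ _ _ _ _ _ _ _ _ _ _ _ _ hN oN hp hpN hne hd hc k1 k2 hF hF₂ hE hw hs
    hal ht hI hG h0 hL =>
  pd_kro (ε := 1) hN oN dvd_rfl hp hpN hne hd hc (.inl rfl) (fun _ _ _ => rfl) (.inl rfl)
    (by rwa [one_mul]) (by rwa [one_mul]) hF hF₂ hE hw hs hal ht hI hG h0 hL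

end Pool.Agent.G7
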