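import Pool.Agent.Lib.MP_696deb_nt.B7.GK7b
import Pool.Agent.Lib.MP_696deb_nt.B7.GK7y
import Pool.Agent.Lib.MP_696deb_nt.B7.MA7b
import Pool.Agent.Lib.MP_696deb_nt.B7.HG7a
import Pool.Agent.Lib.MP_696deb_nt.B7.AJ7a
import Pool.Agent.Lib.MP_696deb_nt.B7.PD7c
import Pool.Agent.Lib.MP_696deb_nt.B7.FQ7a

/-! The relation of Gross, Kohnen and Zagier for twists that are ramified at two. -/

set_option autoImplicit false

namespace Pool.Agent.G7

theorem gk_stmt : GKStmt := gk_of (Gk.gc7 ma7 hg7 aj7 pd7 fp7) or7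

end Pool.Agent.G7
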