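import Pool.Agent.Lib.MP_696deb_nt.B7.FinG
import Pool.Agent.Lib.MP_696deb_nt.B7.D9End
import Pool.Agent.Lib.MP_696deb_nt.B7.GK7w

/-! All twists of the supersingular curves whose central value is a unit at two. -/

set_option autoImplicit false

open Classical Complex Filter Topology NumberTheorySymbols
open scoped Real UpperHalfPlane

namespace Pool.Agent.B6.B7

open Pool.Agent.Lib.MP_696deb_nt Pool.Agent.Lib.MP_696deb_nt.B2 Pool.Agent.B4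

/-- An ordinary curve has an even number of points over the field with two elements. -/
theorem card_even {W : WeierstrassCurve (ZMod 2)} (h1 : W.a₁ = 1) (h0 : W.Δ ≠ 0) :
    2 ∣ Nat.card W.toAffine.Point := by
  have k : ∀ x y : ZMod 2, y ^ 2 + 1 * x * y + x * y = y ∧ y = -y - 1 * x - x := by decide
  have n := (W.toAffine.equation_iff_nonsingular_of_Δ_ne_zero h0).1
    ((W.toAffine.equation_iff W.a₃ _).2 (h1 ▸ (k W.a₃ _).1))
  have e := addOrderOf_eq_prime (x := WeierstrassCurve.Affine.Point.some _ _ n) (p := 2)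
    ((two_nsmul _).trans (WeierstrassCurve.Affine.Point.add_self_of_Y_eq (by
      rw [WeierstrassCurve.Affine.negY, h1]
      exact (k _ _).2))) (WeierstrassCurve.Affine.Point.some_ne_zero n)
  exact e.symm.dvd.trans (addOrderOf_dvd_natCard _)

theorem cnv_even [Cs] {D : GE.MD Wu NN} (h : Hyp D) (t1 : D.par.t0 ∈ D.par.L.lattice)
    (t2 : D.par.t0 / 2 ∉ D.par.L.lattice) (ha : Even WZ.a₁) (h2 : Even (D.c 2)) {d : ℤ}
    (hd : Squarefree d) : Cnv D.c d :=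
  let ⟨_, a, b⟩ := D9.seed_eight D.par t1 t2 ha h2
  conv7 G7.gz_stmt G7.gk_stmt h h2 a b hd

theorem hyp_d
    (W : WeierstrassCurve ℤ) (N : ℕ) (hN : Squarefree N) (hN2 : Odd N) (hN1 : 1 < N)
    (hrad : ∀ p : ℕ, p.Prime → (p : ℤ) ∣ W.Δ → p ∣ N) (hc4 : IsCoprime W.c₄ W.Δ)
    (h2 : ∀ x : ℚ, 4 * x ^ 3 + W.b₂ * x ^ 2 + 2 * W.b₄ * x + W.b₆ ≠ 0)
    (f : CuspForm (CongruenceSubgroup.Gamma0 N) 2) (c : ℕ → ℤ) (hc : c 1 = 1)
    (hf : ∀ τ : ℍ, HasSum (fun n : ℕ => (c n : ℂ) * cexp (2 * π * I * τ) ^ n) (f τ))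
    (hT : ∀ l : ℕ, l.Prime → ¬ l ∣ N → ∀ n : ℕ,
      c (l * n) + (if l ∣ n then l * c (n / l) else 0) = c l * c n)
    (hU : ∀ p : ℕ, p.Prime → p ∣ N → c p ^ 2 = 1 ∧ ∀ n : ℕ, c (p * n) = c p * c n)
    (hW : ∀ τ τ' : ℍ, (τ' : ℂ) = -1 / (N * τ) → f τ' = -(N * τ ^ 2) * f τ)
    (hE : ∀ l : ℕ, l.Prime → ¬ l ∣ N →
      c l = l + 1 - Nat.card (W.map (Int.castRingHom (ZMod l))).toAffine.Point)
    (F : ℂ → ℂ) (hF : ∀ z : ℂ, F z = ∑' n : ℕ, (c n : ℂ) / n * cexp (2 * π * I * z) ^ n)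
    (L : PeriodPair) (h4 : (W.c₄ : ℂ) = 12 * L.g₂) (h6 : (W.c₆ : ℂ) = 216 * L.g₃)
    (k : ℚ) (hL : ∀ γ ∈ CongruenceSubgroup.Gamma0 N, ∀ τ : ℍ,
      k * (F (γ • τ : ℍ) - F τ) ∈ L.lattice)
    (Ω : ℂ) (hΩ : Tendsto (fun y : ℝ => F (y * I)) (𝓝[>] 0) (𝓝 Ω))
    (hH : ∀ m : ℤ, Odd m → m * (k * Ω) / 2 ∉ L.lattice) :
    ∃ (C : Cs) (D : GE.MD (@Wu C.toCw) (@NN C)), @WZ C.toCw = W ∧ @NN C = N ∧ D.c = c ∧
      G5.Nw D ∧ ∀ d, Squarefree d → d % 4 = 1 ∨ Even (c 2) → @Cnv C D.c d := by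
  have h0 : W.Δ ≠ 0 := fun e => by
    obtain ⟨p, p1, p2⟩ := Nat.exists_infinite_primes (N + 1)
    exact absurd (Nat.le_of_dvd hN2.pos (hrad p p2 (e ▸ dvd_zero _))) (by omega)
  let C₀ : Cw := ⟨W, h0⟩
  have k0 : k ≠ 0 := fun e => hH 1 odd_one (by simp [e])
  let D₀ : GE.MD Wu N := ⟨hN.ne_zero, f, c, hc, hf, hT, hW, F, hF, L,
    ⟨Wu_c₄.trans h4, Wu_c₆.trans h6⟩, k, k0, hL, Ω, hΩ⟩
  have ht : ∀ (l : ℕ) [Fact l.Prime], ¬ l ∣ 2 * N → c l = tr l cub := fun l hl e => by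
    rw [cub_fun]
    refine (hE l hl.out fun k => e (k.mul_left _)).trans ?_
    rw [card_mod (fun k => e (k ▸ dvd_mul_right _ _))
      (fun k => e ((hrad l hl.out k).mul_left _)) rfl rfl rfl, sub_sub_cancel]
    rfl
  obtain ⟨hΔ, D, e, t1, t2⟩ := un_norm h2 hN D₀ (fun l hl k => by
    have := Fact.mk hl
    have e : ¬ l ∣ 2 * N := fun e => by have := Nat.le_of_dvd (by omega) e; omega
    rw [show D₀.c l = _ from ht l e, cub_fun]
    exact even_tr' (W := WZ) (fun k => e (k ▸ dvd_mul_right _ _))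
      (fun k => e ((hrad l hl k).mul_left _)) rfl rfl rfl) hH
  let C : Cs := @Cs.mk C₀ N hN hN2 hN1 hΔ hrad hc4 h2
  replace e : D.c = c := e
  have h : Hyp D := ⟨fun p h1 h2 => e ▸ hU p h1 h2, fun l hl k => e ▸ ht l k, fun k => t2 (by
      rw [show D.par.t0 = 0 from k, zero_div]; exact zero_mem _), SE.seed_all D.par t1 t2⟩
  refine ⟨C, D, rfl, rfl, e, h.nw, fun d hd => Or.rec (fun k => cnv_unit h hd (.inl k)) fun k =>
    cnv_even h t1 t2 (Int.not_odd_iff_even.1 fun j => ?_) (e ▸ k) hd⟩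
  have n2 := hN2.not_two_dvd_nat
  obtain ⟨m, hm⟩ := card_even (W := W.map (Int.castRingHom (ZMod 2)))
    (ZMod.intCast_eq_one_iff_odd.2 j) (by
      rw [WeierstrassCurve.map_Δ]
      exact fun z => n2 (hrad 2 Nat.prime_two ((ZMod.intCast_zmod_eq_zero_iff_dvd _ 2).1 z)))
  rw [hE 2 Nat.prime_two n2, hm, Int.even_iff] at k
  omega

theorem half_even [Cs] {D : GE.MD Wu NN} (n : G5.Nw D)
    (h : ∀ d, Squarefree d → d % 4 = 1 ∨ Even (D.c 2) → Cnv D.c d) {r : ℕ} (hr : r ≤ 1) :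
    HalfA (fun d => d % 4 = 1 ∨ Even (D.c 2)) WZ.c₄ WZ.c₆ r :=
  half_four n (A := fun _ => Even (D.c 2)) (fun _ _ => Iff.rfl) h hr

end Pool.Agent.B6.B7
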