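import Pool.Agent.Lib.MP_696deb_nt.B5.GAd
import Pool.Agent.Lib.MP_696deb_nt.B7.Z1

/-! Special points whose conductor is not prime to the level: components and conjugates. -/

set_option autoImplicit false

open Complex
open scoped Classical NumberTheorySymbols

namespace Pool.Agent.G7

open Pool.Agent.Lib.MP_696deb_nt Pool.Agent.B4.GE Pool.Agent.B5
open Pool.Agent.Lib.MP_696deb_nt.B4
open Pool.Agent.G5 (Pc nuW exists_sl cg_rD can_uniq exists_orient val_froot val_shift Dl_W)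

/-- The automorphisms of the complex numbers fix the special divisors up to a common sign, and the
modular functions separate the points of the basic divisor. -/
def GPStmt : Prop := ∀ X : Dat, X.Ok →
  (∀ σ : ℂ ≃+* ℂ, ∃ e : ℤ, (e = 1 ∨ e = -1) ∧
    (∀ (m : ℕ) (z z' : ℂ), m ≠ 0 → m.Coprime X.N → Pc X.N σ z z' →
      nuW (X.Y m) z' = e * nuW (X.Y m) z) ∧
    ∀ z z' : ℂ, Pc X.N σ z z' → nuW X.w z' = e * nuW X.w z) ∧
  ∀ z z' : ℂ, nuW X.w z ≠ 0 → Pc X.N (RingEquiv.refl ℂ) z z' → ∃ g, G0 X.N g ∧ z' = act g z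

variable {N n p : ℕ} {k : ℤ} {σ : ℂ ≃+* ℂ} {z z' τ : ℂ} {Q R : Fm}

/-- Forms whose root has conductor exactly divisible by the split prime `p`, while the conductor
of `p` times the root is prime to `p`. -/
def Dw (p : ℕ) (Q : Fm) : Prop := ∃ a b x : ℤ, Q.1 = p ^ 2 * a ∧ Q.2.1 = p * b ∧
  ¬ (p : ℤ) ∣ Q.2.2 ∧ ¬ (p : ℤ) ∣ b ^ 2 - 4 * a * Q.2.2 ∧ (p : ℤ) ∣ x ^ 2 + b * x + a * Q.2.2

theorem dw_of (hp : p.Prime) (h2 : p ≠ 2) (hJ : J(-n | p) = 1) (hk : ¬ (p : ℤ) ∣ k)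
    (hD : fdisc Q = -(n * (p * k) ^ 2)) (h1 : (p : ℤ) ∣ Q.1) (h3 : ¬ (p : ℤ) ∣ Q.2.2) :
    Dw p Q := by
  have hP := Nat.prime_iff_prime_int.1 hp
  have := Fact.mk hp
  have p2 : ¬ (p : ℤ) ∣ 2 := not_dvd_of_prime_ne hp Nat.prime_two h2
  have p0 : (p : ℤ) ≠ 0 := hP.ne_zero
  obtain ⟨A, B, C⟩ := Q
  simp only [fdisc] at hD h1 h3
  obtain ⟨A, rfl⟩ := h1
  obtain ⟨b, rfl⟩ : (p : ℤ) ∣ B := hP.dvd_of_dvd_pow (n := 2)
    ⟨4 * A * C - n * p * k ^ 2, by linear_combination hD⟩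
  have e1 : 2 * (2 * (A * C)) = p * (b ^ 2 + n * k ^ 2) :=
    mul_left_cancel₀ p0 (by linear_combination -hD)
  obtain ⟨a, rfl⟩ : (p : ℤ) ∣ A := (hP.dvd_or_dvd ((hP.dvd_or_dvd ((hP.dvd_or_dvd
    ⟨_, e1⟩).resolve_left p2)).resolve_left p2)).resolve_right h3
  have e2 : b ^ 2 - 4 * a * C = -(n * k ^ 2) := mul_left_cancel₀ p0 (by linear_combination -e1)
  obtain ⟨s, hs⟩ := ZMod.isSquare_of_jacobiSym_eq_one hJ
  obtain ⟨s, rfl⟩ := ZMod.intCast_surjective s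
  obtain ⟨t, ht⟩ : (p : ℤ) ∣ s ^ 2 + n := (ZMod.intCast_zmod_eq_zero_iff_dvd _ _).1 (by
    push_cast at hs ⊢
    linear_combination -hs)
  obtain ⟨u, hu⟩ := hp.odd_of_ne_two h2
  have hu' : (p : ℤ) = 2 * u + 1 := by exact_mod_cast hu
  refine ⟨a, b, (u + 1) * (s * k - b), by simp only; ring, rfl, h3, ?_, ?_⟩
  · rw [e2, dvd_neg]
    intro h
    rcases hP.dvd_or_dvd h with h | h
    · rw [jacobiSym.mod_left, Int.emod_eq_zero_of_dvd h.neg_right,
        jacobiSym.zero_left hp.one_lt] at hJ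
      exact zero_ne_one hJ
    · exact hk (hP.dvd_of_dvd_pow h)
  · refine (hP.dvd_or_dvd ((hP.dvd_or_dvd (a := 2) (b := 2 * _) ⟨k ^ 2 * t + (s * k - b) *
      (p * (s * k - b) + 2 * (s * k)), ?_⟩).resolve_left p2)).resolve_left p2
    simp only
    rw [hu'] at ht ⊢
    linear_combination k ^ 2 * ht - e2

section
variable {Γ : Type*} [LinearOrderedCommGroupWithZero Γ] {V : Valuation ℂ Γ}

theorem val_low (hp : p.Prime) {a b c x : ℤ} (hτ : 0 < τ.im) (hj : V (jf τ) ≤ 1)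
    (h : a * τ ^ 2 + b * τ + c = 0) (h0 : 0 < x ^ 2 + b * x + a * c) (hc : ¬ (p : ℤ) ∣ c)
    (hx : (p : ℤ) ∣ x ^ 2 + b * x + a * c) (hu : V (a * τ + (b + x : ℤ)) = 1) :
    V (phiJ (ut 1 0 p) τ) = 1 := by
  have hd : (!![x, -c; a, b + x] : MZ).det = x ^ 2 + b * x + a * c := by
    rw [Matrix.det_fin_two_of]
    ring
  obtain ⟨i, M, e⟩ := exists_factor hp (hd ▸ hx)
  have h1 : 0 < M.det := by
    rw [← hd, e, Matrix.det_mul] at h0
    exact pos_of_mul_pos_left h0 (rP_pos hp i).le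
  have h2 := val_phi_of_den h1 (rP_pos hp i) hτ hj (by
    rw [← e, act_eq_iff (hd ▸ h0.ne') hτ]
    simpa using h) (by rw [← e]; simpa [den] using hu)
  rw [(isReps_rP hp).det, Int.cast_natCast] at h2
  refine (can_of_val hp hτ hj h2).unit (some ⟨0, hp.pos⟩) ?_
  rintro rfl
  refine hc (dvd_neg.1 ⟨M 0 1, ?_⟩)
  simpa [rP, ut, Matrix.mul_apply, mul_comm] using congrFun (congrFun e 0) 1

/-- The lower points reduce to the component of the cusp at infinity. -/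
theorem aff_down (hp : p.Prime) (hV : V p < 1) (hD : fdisc Q < 0) (hQ : 0 < Q.1) (h : Dw p Q) :
    Aff p V (froot Q) := by
  have c := isCM_froot hD hQ
  have h0 := froot_root hD hQ
  have p0 : (p : ℂ) ≠ 0 := by exact_mod_cast hp.ne_zero
  have p1 : (0 : ℤ) < p := by exact_mod_cast hp.pos
  have c1 := c.isog (g := ut p 0 1) (by simpa [det_ut] using p1)
  rw [act_dg] at c1
  obtain ⟨a, b, x, e1, e2, h1, h2, h3⟩ := h
  have hD' : b ^ 2 - 4 * a * Q.2.2 < 0 := by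
    rw [fdisc, e1, e2] at hD
    exact neg_of_mul_neg_right (by linarith :
      (p : ℤ) ^ 2 * (b ^ 2 - 4 * a * Q.2.2) < 0) (sq_nonneg _)
  rw [e1, e2] at h0
  generalize froot Q = τ at *
  generalize Q.2.2 = C at *
  have h4 : a * (p * τ) ^ 2 + b * (p * τ) + C = 0 := by
    push_cast at h0
    linear_combination h0
  have h5 : 0 < x ^ 2 + b * x + a * C := by nlinarith [sq_nonneg (2 * x + b)]
  have hd : (!![x, -C; a, b + x] : MZ).det = x ^ 2 + b * x + a * C := by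
    rw [Matrix.det_fin_two_of]
    ring
  have hf : act !![x, -C; a, b + x] (p * τ) = p * τ := by
    rw [act_eq_iff (hd ▸ h5.ne') c1.1]
    simpa using h4
  have h6 : V (phiJ (ut 1 0 p) (p * τ)) = 1 := by
    rcases val_den_or (hd ▸ h5) c1.1 (c1.val_jf V) hf (val_int_eq_one hp hV fun k => h2 (by
      rw [Matrix.trace_fin_two_of] at k
      rw [show b ^ 2 - 4 * a * C = (x + (b + x)) ^ 2 - 4 * (x ^ 2 + b * x + a * C) by ring]
      exact (dvd_pow k two_ne_zero).sub (h3.mul_left 4))) with k | k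
    · exact val_low hp c1.1 (c1.val_jf V) h4 h5 h1 h3 (by simpa [den] using k)
    · have e : (-b - x) ^ 2 + b * (-b - x) + a * C = x ^ 2 + b * x + a * C := by ring
      refine val_low hp (x := -b - x) c1.1 (c1.val_jf V) h4 (e ▸ h5) h1 (e ▸ h3) ?_
      rw [eq_sub_of_add_eq' (den_add_div (hd ▸ h5.ne') c1.1 hf), ← V.map_neg] at k
      rw [← k]
      congr 1
      simp [den, Matrix.trace_fin_two_of]
      ring
  refine ⟨c.1, c.val_jf V, ?_⟩
  rw [phi_ut hp.ne_zero, show act (ut 1 0 p) (p * τ) = τ by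
    simp [ut, act_of, mob, p0]] at h6
  simpa [div_eq_mul_inv] using h6

theorem aff_lev (hN : Squarefree N) (hp : p.Prime) (hV : V p < 1) (hd : p ∣ N) (h : Aff p V τ) :
    Aff N V τ := by
  obtain ⟨e, rfl⟩ := hd
  have e0 := right_ne_zero_of_mul hN.ne_zero
  have h1 := ga_pos hp.ne_zero h.pos
  have h2 : V (e : ℂ) = 1 := by
    simpa using val_int_eq_one hp hV (n := e) fun k => hp.ne_one (Nat.eq_one_of_dvd_coprimes
      (Nat.coprime_of_squarefree_mul hN) dvd_rfl (Int.natCast_dvd_natCast.1 k))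
  have h3 := (val_Dl_div e0 h1 (val_Dl_div hp.ne_zero h.pos h.int).1).2.2 h2
  refine ⟨h.pos, h.int, ?_⟩
  rw [← div_mul_div_cancel₀ (Dl_ne h1), map_mul, h.unit, one_mul, mul_comm p e, Nat.cast_mul,
    mul_assoc, h3]

end

/-- The invariant and the quotients of discriminants are conjugate. -/
structure Pd (N : ℕ) (σ : ℂ ≃+* ℂ) (z z' : ℂ) : Prop where
  pos' : 0 < z'.im
  j : jf z' = σ (jf z)
  r : ∀ d, d ∣ N → rD d z' = σ (rD d z)

theorem pd_of_pc (hN : N ≠ 0) (h : Pc N σ z z') : Pd N σ z z' :=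
  ⟨h.pos', (h.rj hN).j, fun _ hd => h.ev _ _ (cg_rD hN hd)⟩

theorem rD_W {d e : ℕ} (hN : d * e ≠ 0) (hz : 0 < z.im) :
    rD d (-1 / ((d * e : ℕ) * z)) = d ^ 12 * (rD e z / rD (d * e) z) := by
  have d0 : (d : ℂ) ≠ 0 := by exact_mod_cast left_ne_zero_of_mul hN
  have e0 : (e : ℂ) ≠ 0 := by exact_mod_cast right_ne_zero_of_mul hN
  have z0 : z ≠ 0 := fun k => by simp [k] at hz
  have h1 := Dl_ne hz
  have h2 := Dl_ne (ga_pos hN hz)
  have h3 := Dl_ne (ga_pos (right_ne_zero_of_mul hN) hz)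
  rw [rD, rD, rD, (Dl_W hN hz).1, show d * (-1 / ((d * e : ℕ) * z)) = -1 / (e * z) by
    push_cast; field_simp, (Dl_W (right_ne_zero_of_mul hN) hz).1]
  generalize Dl ((d * e : ℕ) * z) = x at *
  push_cast
  field_simp

theorem jf_W (hN : N ≠ 0) (hz : 0 < z.im) : 0 < (-1 / (N * z)).im ∧ jf (-1 / (N * z)) = jN N z := by
  have e : -1 / (N * z) = act !![0, -1; 1, 0] (N * z) := by simp [act_of, mob]
  rw [e]
  exact ⟨act_pos (by simp) (ga_pos hN hz), jf_act (by simp) (ga_pos hN hz)⟩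

theorem pd_W (hN : N ≠ 0) (h : Pc N σ z z') : Pd N σ (-1 / (N * z)) (-1 / (N * z')) := by
  refine ⟨(jf_W hN h.pos').1, by rw [(jf_W hN h.pos').2, (jf_W hN h.pos).2, (h.rj hN).jN], ?_⟩
  rintro d ⟨e, rfl⟩
  rw [rD_W hN h.pos, rD_W hN h.pos', (pd_of_pc hN h).r _ dvd_rfl,
    (pd_of_pc hN h).r _ (dvd_mul_left _ _), map_mul, map_div₀, map_pow, map_natCast]

/-- Conjugate special points are determined by the invariant and the orientation. -/
theorem pd_g0 (hN : Squarefree N) (h2 : Odd N) (h : Pd N σ (froot Q) z') (hD : fdisc Q < 0)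
    (hc : ∀ p : ℕ, p.Prime → p ∣ N → (p : ℤ) ∣ fdisc Q → Dw p Q ∧ Dw p R)
    (e : fdisc R = fdisc Q) (q0 : 0 < Q.1) (r0 : 0 < R.1)
    (q1 : (N : ℤ) ∣ Q.1) (r1 : (N : ℤ) ∣ R.1) (hj : jf z' = jf (froot R)) {s : ℤ} (s1 : s * s = 1)
    (s2 : (N : ℤ) ∣ R.2.1 - s * Q.2.1) (s3 : ∀ x : ℂ, x ^ 2 = fdisc Q → σ x = s * x) :
    ∃ g, G0 N g ∧ z' = act g (froot R) := by
  obtain ⟨g, hg, rfl⟩ := exists_sl (im_froot_pos (e ▸ hD) r0) h.pos' hj
  refine ⟨g, ⟨hg, ?_⟩, rfl⟩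
  rw [← Nat.prod_primeFactors_of_squarefree hN, Nat.cast_prod]
  refine Finset.prod_dvd_of_coprime (fun a ha b hb hab => Nat.isCoprime_iff_coprime.2
    ((Nat.coprime_primes (Nat.prime_of_mem_primeFactors ha)
      (Nat.prime_of_mem_primeFactors hb)).2 hab)) fun p hp => ?_
  have p1 := Nat.prime_of_mem_primeFactors hp
  have p2 := Nat.dvd_of_mem_primeFactors hp
  have p3 : (p : ℤ) ∣ N := Int.natCast_dvd_natCast.2 p2
  have p4 : p ≠ 2 := by
    rintro rfl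
    exact h2.not_two_dvd_nat p2
  have k : ∀ {A : ValuationSubring ℂ} {V : Valuation ℂ A.ValueGroup}, V p < 1 →
      Aff p V (froot Q) → Aff p (V.comap (σ.symm : ℂ →+* ℂ)) (froot R) → (p : ℤ) ∣ g 1 0 :=
    fun v1 a1 a2 => can_uniq p1 (by simpa using v1) a2 hg (by
      rw [h.r p p2, Valuation.comap_apply, RingHom.coe_coe, σ.symm_apply_apply]
      exact a1.unit)
  by_cases p5 : (p : ℤ) ∣ fdisc Q
  · obtain ⟨A, V, v1, -⟩ := exists_orient p1 p4 (D := -1) (by decide)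
      (fun k => (Nat.prime_iff_prime_int.1 p1).not_dvd_one (dvd_neg.1 k)) 0
    exact k v1 (aff_down p1 v1 hD q0 (hc p p1 p2 p5).1)
      (aff_down p1 (by simpa using v1) (e ▸ hD) r0 (hc p p1 p2 p5).2)
  obtain ⟨A, V, v1, v2⟩ := exists_orient p1 p4 hD p5 Q.2.1
  have s4 := s3 (√(-fdisc Q : ℝ) * I) (by
    rw [mul_pow, I_sq, ← ofReal_pow, Real.sq_sqrt (by exact_mod_cast (neg_pos.2 hD).le)]
    simp)
  have s5 : (s : ℂ) * s = 1 := by exact_mod_cast s1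
  have v4 : V s = 1 := by
    rw [← pow_eq_one_iff_left two_ne_zero, ← map_pow, sq, s5, map_one]
  refine k v1 ((val_froot p1 v1 p4 p1.ne_zero dvd_rfl hD q0 (p3.trans q1) p5).1 v2)
    ((val_froot p1 (by simpa using v1) p4 p1.ne_zero dvd_rfl (e ▸ hD) r0 (p3.trans r1)
      (e ▸ p5)).1 ?_)
  rw [e]
  generalize (√(-fdisc Q : ℝ) * I : ℂ) = x at v2 s4
  have : (R.2.1 + x : ℂ) = σ (s * ((s * R.2.1 : ℤ) + x)) := by
    simp only [map_mul, map_add, map_intCast, s4]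
    push_cast
    linear_combination -(R.2.1 + x) * s5
  rw [this, Valuation.comap_apply, RingHom.coe_coe, σ.symm_apply_apply, map_mul, v4, one_mul]
  refine val_shift v1 ?_ v2
  rw [show s * R.2.1 - Q.2.1 = s * (R.2.1 - s * Q.2.1) by linear_combination Q.2.1 * s1]
  exact (p3.trans s2).mul_left s

end Pool.Agent.G7
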