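import Pool.Agent.Lib.MP_696deb_nt.B7.GK7z
import Pool.Agent.Lib.MP_696deb_nt.B7.GD7a
import Pool.Agent.Lib.MP_696deb_nt.B5.GKc

/-! Symmetrized special divisors with an arbitrary character, and the basic relation. -/

set_option autoImplicit false

open Filter Topology Finset NumberTheorySymbols
open scoped Classical ComplexConjugate

namespace Pool.Agent.G7.Gk

open Pool.Agent.Lib.MP_696deb_nt Pool.Agent.B4.GE Pool.Agent.G5.GL
open Pool.Agent.Lib.MP_696deb_nt.B3 (kro pchr_kro)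
open Pool.Agent.G5 hiding Cx Yw Cw zs Ori CNStmt HWStmt LTStmt GLStmt LAStmt SWStmt NUStmt WPStmt
  HTStmt GZStmt LFStmt LRStmt LQStmt zz Fg Iw_cj gk_rel

/-- The data of a symmetrized special divisor. -/
structure Sv (N : ℕ) (d D ρ : ℤ) : Prop where
  l1 : 1 < N
  neg : D < 0
  gen : Gen7 d D
  cop : IsCoprime (N : ℤ) (cnd d)
  jac : kro d (-N) = -1
  cr : IsCoprime (N : ℤ) ρ

/-- The sum of a function over the symmetrized divisor. -/
noncomputable def zz {V : Type} [AddCommGroup V] (N : ℕ) (d D ρ : ℤ) (T T' : Finset Fm)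
    (S : ℂ → V) : V := ∑ Q ∈ T ∪ T', zF N (gD d) d.sign D ρ Q • S (froot Q)

variable {V : Type} [AddCommGroup V] {N K p m : ℕ} {d d' D ρ e β γ u : ℤ} {T T' U U' : Finset Fm}
  {S : ℂ → V} {η : ℕ → ℤ}

theorem Sv.n0 (h : Sv N d D ρ) : N ≠ 0 := by have := h.l1; omega

theorem Sv.ne (h : Sv N d D ρ) : ¬ (N : ℤ) ∣ ρ := fun k => by
  have := Int.isUnit_iff.1 (h.cr.isUnit_of_dvd k)
  have := h.l1
  omega

theorem Sv.mul (h : Sv N d D ρ) (h0 : m ≠ 0) (hm : m.Coprime N) : Sv N d (D * m ^ 2) (ρ * m) :=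
  ⟨h.l1, mul_neg_of_neg_of_pos h.neg (by positivity), h.gen.of_dvd (dvd_mul_right _ _), h.cop, h.jac,
    h.cr.mul_right (Nat.isCoprime_iff_coprime.2 hm.symm)⟩

theorem Sv.sum_fV (k : Sv N d D ρ) (h : FReps N D ρ T) (h' : FReps N D (-ρ) T') (f : Fm → V)
    (hf : ∀ Q R, Fam N D (-ρ) Q → 0 < Q.1 → FEq N Q R → f R = f Q) :
    ∑ Q ∈ T ∪ T', zF N (gD d) d.sign D ρ Q • f Q =
      ∑ Q ∈ T, gD d Q • f Q - ∑ Q ∈ T, gD d Q • f (fV N Q) := by
  rw [sum_zF _ h h' k.ne, h'.sum_eq (h.fV k.n0 k.neg).1 _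
    fun Q R h1 h2 h3 => by rw [gD_feq h3 (h1.2.1 ▸ k.gen), hf Q R h1 h2 h3],
    (h.fV k.n0 k.neg).2, sub_eq_add_neg, smul_sum, ← sum_neg_distrib]
  refine congrArg _ (sum_congr rfl fun Q hQ => ?_)
  rw [show gD d (fV N Q) = _ from gU_cop k.n0 (h.fam Q hQ).1 ((h.fam Q hQ).2.1 ▸ k.gen) k.cop,
    smul_smul, ← mul_assoc, ← B3.kro_neg_one k.gen.sqf, ← (pchr_kro k.gen.sqf).mul, neg_one_mul,
    k.jac, neg_one_mul, neg_smul]

theorem Sv.im (k : Sv N d D ρ) (h : FReps N D ρ T) (h' : FReps N D (-ρ) T') :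
    ∀ Q ∈ T ∪ T', 0 < (froot Q).im := fun Q hQ =>
  im_froot_pos ((mem_reps h h' Q hQ).1 ▸ k.neg) (mem_reps h h' Q hQ).2

theorem Sv.pts (k : Sv N d D ρ) (h : FReps N D ρ T) (h' : FReps N D (-ρ) T') :
    Pts (T ∪ T') (zF N (gD d) d.sign D ρ) D :=
  ⟨k.neg, fun Q hQ => (mem_reps h h' Q hQ).1, fun Q hQ => (mem_reps h h' Q hQ).2, by
    simpa using k.sum_fV h h' (fun _ => (1 : ℤ)) fun _ _ _ _ _ => rfl⟩

theorem Sv.zz_al (k : Sv N d D ρ) (h : FReps N D ρ T) (h' : FReps N D (-ρ) T') (hS : Inv0 N S)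
    {c : V} (hc : ∀ z : ℂ, 0 < z.im → S (-1 / (N * z)) = c - S z) :
    ∃ j : ℤ, zz N d D ρ T T' S = 2 • yD S d T + j • c := by
  refine ⟨-∑ Q ∈ T, gD d Q, ?_⟩
  rw [zz, k.sum_fV h h' _ fun Q R k1 k2 k3 => k3.inv0 hS (k1.2.1 ▸ k.neg) k2,
    sum_congr (f := fun Q => gD d Q • S (froot (fV N Q))) rfl fun Q hQ => by
      rw [froot_fV k.n0 ((h.fam Q hQ).2.1 ▸ k.neg) (h.pos Q hQ) (h.fam Q hQ).1,
        hc _ (im_froot_pos ((h.fam Q hQ).2.1 ▸ k.neg) (h.pos Q hQ)), smul_sub],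
    sum_sub_distrib, ← sum_smul, two_smul, neg_smul, yD]
  abel

theorem Sv.flip (fp : FP7) (k : Sv N d D ρ) (k' : Sv N d D (u * ρ)) {w : MZ} (hw : ALm N p w)
    (hp : p.Prime) (ho : Odd N) (hN : p ∣ N) (hd : IsCoprime d N) (u1 : (p : ℤ) ∣ u + 1)
    (u2 : 2 * ((N / p : ℕ) : ℤ) ∣ u - 1)
    (h : FReps N D ρ T) (h' : FReps N D (-ρ) T') (g : FReps N D (u * ρ) U)
    (g' : FReps N D (-(u * ρ)) U') (hS : Inv0 N S) :
    zz N d D (u * ρ) U U' S = kro d p • zz N d D ρ T T' fun z => S (act w z) := by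
  have h1 := fp N p d D ρ _ w T U hw hp ho hN k.neg (by simpa [add_mul] using u1.mul_right ρ)
    (by simpa [sub_mul] using u2.mul_right ρ) h g k.gen.sqf hd ⟨k.gen.two, k.gen.odd⟩ V S hS
  have h2 := fp N p d D (-ρ) _ w T' U' hw hp ho hN k.neg
    ((u1.mul_right (-ρ)).trans (dvd_of_eq (by ring)))
    ((u2.mul_right (-ρ)).trans (dvd_of_eq (by ring))) h' g' k.gen.sqf hd ⟨k.gen.two, k.gen.odd⟩ V S hS
  rw [yD, yD] at h1 h2
  rw [zz, zz, sum_zF _ g g' k'.ne, sum_zF _ h h' k.ne, h1, h2, smul_add, smul_comm]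

theorem Sv.cnt (k : Sv N d D ρ) (h : FReps N D ρ T) (h' : FReps N D (-ρ) T') (w : Fm → ℤ) (t : ℤ) :
    cntP (T ∪ T') (zF N (gD d) d.sign D ρ) w t =
      cntP T (gD d) w t + d.sign * cntP T' (gD d) w t :=
  sum_zF _ h h' k.ne fun Q => ∑ᶠ R : Fm, if fbil Q R = t then w R else 0

theorem sign_cases (hd : Squarefree d) : d.sign = 1 ∨ d.sign = -1 :=
  (lt_or_gt_of_ne hd.ne_zero).symm.imp Int.sign_eq_one_of_pos Int.sign_eq_neg_one_of_neg

theorem Sv.conj (k : Sv N d D ρ) (h : FReps N D ρ T) {G : ℂ → ℂ}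
    (hG : ∀ z : ℂ, 0 < z.im → G (-conj z) = conj (G z)) :
    conj (zz N d D ρ T (T.image cj) G) = d.sign * zz N d D ρ T (T.image cj) G := by
  rw [zz, sum_zF _ h h.cj.1 k.ne, h.cj.2,
    sum_congr (f := fun Q => gD d (cj Q) • G (froot (cj Q))) rfl fun Q hQ => by
      rw [froot_cj, hG _ (im_froot_pos ((h.fam Q hQ).2.1 ▸ k.neg) (h.pos Q hQ)), gD_cj,
        ← map_zsmul], ← map_sum]
  rcases sign_cases k.gen.sqf with j | j <;> rw [j] <;> simp [add_comm]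

theorem fam_of_wF {ω : Fm → ℤ} {R : Fm} (h : wF N ω e β R ≠ 0) : Fam N e β R :=
  by_contra fun k => h (if_neg k)

/-- A family of geodesics with all its multiples. -/
structure Fg (N K : ℕ) (d e β : ℤ) (η : ℕ → ℤ) : Prop where
  gw : ∀ m : ℕ, m ≠ 0 → m.Coprime K → Gw N (wF N (gD d) (e * m ^ 2) (β * m)) (e * m ^ 2)
  hf : HFm K η fun m => Iw (wF N (gD d) (e * m ^ 2) (β * m))

theorem gw_of (hd : Gen7 d e) (he : 0 < e) (h : ∀ R, Fam N e β R → R.1 ≠ 0) :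
    Gw N (wF N (gD d) e β) e :=
  ⟨wt_wF (fun _ _ k j => gD_feq j (k.2.1 ▸ hd)) (abs_gD d), he, fun R hR => h R (fam_of_wF hR)⟩

variable {t : HW} {G : ℂ → ℂ}

theorem Fg.one (h : Fg N K d e β η) : Gw N (wF N (gD d) e β) e := by
  simpa using h.gw 1 one_ne_zero (Nat.coprime_one_left K)

theorem Fg.hf_eq (h : Fg N K d e β η) (ht : t ∈ HA K) {z : ℂ} (hz : 0 < z.im) :
    G5.hf ℝ t (Iw (wF N (gD d) e β)) z =
      cmb (fun m : ℕ => Iw (wF N (gD d) (e * m ^ 2) (β * m))) (ha η t (Finsupp.single 1 1)) z := by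
  simpa [cmb_single] using h.hf.hf ht (sup_one K) hz

theorem Fg.di_eq (h : Fg N K d e β η) (ht : t ∈ HA K) {ε : ℝ} (hε : 0 < ε) {z : ℂ} (hz : 0 < z.im) :
    G5.hf ℝ t (DI (Iw (wF N (gD d) e β)) ε) z =
      cmb (fun m : ℕ => DI (Iw (wF N (gD d) (e * m ^ 2) (β * m))) ε)
        (ha η t (Finsupp.single 1 1)) z := by
  simpa [cmb_single] using (h.hf.di fun m m0 hm => (h.gw m m0 hm).intI hε).hf ht (sup_one K) hz

theorem Fg.tendsto (h : Fg N K d e β η) (ht : t ∈ HA K) (hG : Ci N G)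
    (hi : Inv0 N fun z => (G z).re - G5.hf ℝ t (Iw (wF N (gD d) e β)) z) (k : Sv N d' D ρ)
    (g : FReps N D ρ T) (g' : FReps N D (-ρ) T') :
    Tendsto (fun ε => zz N d' D ρ T T' (G5.hf ℝ t (DI (Iw (wF N (gD d) e β)) ε))) (𝓝[>] 0)
      (𝓝 (zz N d' D ρ T T' fun z => (G z).re - G5.hf ℝ t (Iw (wF N (gD d) e β)) z)) := by
  have hs := (sup_one K).ha (η := η) ht
  have h1 := tendsto_pts k.n0 (fun m hm => h.gw m (hs m hm).1 (hs m hm).2) hG
    (fun g hg z hz => by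
      have := hi g hg z hz
      dsimp only at this ⊢
      rwa [h.hf_eq ht hz, h.hf_eq ht (act_pos (hg.1 ▸ one_pos) hz)] at this) (k.pts g g')
  rw [zz, sum_congr rfl fun Q hQ => by rw [h.hf_eq ht (k.im g g' Q hQ)]]
  refine h1.congr' ?_
  filter_upwards [self_mem_nhdsWithin] with ε hε
  exact sum_congr rfl fun Q hQ => by rw [h.di_eq ht hε (k.im g g' Q hQ)]

/-- The basic relation between two invariant functions. -/
theorem gk_rel (aj : AJ7) {η' : ℕ → ℤ} {e' β' D' ρ' σ : ℤ} {G' : ℂ → ℂ} {n g : ℕ}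
    (h : Fg N K d e β η) (h' : Fg N K d e' β' η') (hK : N ∣ K) (ht : t ∈ HA K) (hG : Ci N G)
    (hG' : Ci N G') (hi : Inv0 N fun z => (G z).re - hf ℝ t (Iw (wF N (gD d) e β)) z)
    (hi' : Inv0 N fun z => (G' z).re - hf ℝ t (Iw (wF N (gD d) e' β')) z)
    (k : Sv N d' D ρ) (k' : Sv N d' D' ρ') (hn : Squarefree n) (h3 : 3 < n) (g0 : g ≠ 0)
    (hD : D' = -(n * g ^ 2)) (hr : D * e = D' * e')
    (hν : HFm K η fun m => nuW (zF N (gD d') d'.sign (D' * m ^ 2) (ρ' * m)))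
    (hc : ∀ m ∈ (ha η t (Finsupp.single 1 1)).support, ∀ (s : ℤ) (T U : Finset Fm),
      s = 1 ∨ s = -1 → FReps N D (s * ρ) T → FReps N (D' * m ^ 2) (s * (ρ' * m)) U → ∀ j,
        cntP T (gD d') (wF N (gD d) (e * m ^ 2) (β * m)) j =
          σ * cntP U (gD d') (wF N (gD d) e' β') j)
    (f : FReps N D ρ T) (f' : FReps N D (-ρ) T') (r : FReps N D' ρ' U) (r' : FReps N D' (-ρ') U') :
    zz N d' D ρ T T' (fun z => (G z).re - hf ℝ t (Iw (wF N (gD d) e β)) z) =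
      σ * zz N d' D' ρ' U U' fun z => (G' z).re - hf ℝ t (Iw (wF N (gD d) e' β')) z := by
  have ex : ∀ m : ℕ, ∃ X X', (m = 1 → X = U ∧ X' = U') ∧ (m ≠ 0 →
      FReps N (D' * m ^ 2) (ρ' * m) X ∧ FReps N (D' * m ^ 2) (-(ρ' * m)) X') := fun m => by
    rcases eq_or_ne m 1 with rfl | h1
    · exact ⟨U, U', fun _ => ⟨rfl, rfl⟩, fun _ => by simpa using ⟨r, r'⟩⟩
    rcases eq_or_ne m 0 with rfl | h0
    · exact ⟨U, U', fun _ => ⟨rfl, rfl⟩, fun j => absurd rfl j⟩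
    have j : D' * m ^ 2 < 0 := mul_neg_of_neg_of_pos k'.neg (by positivity)
    obtain ⟨X, hX⟩ := exists_freps k.n0 j (ρ' * m)
    obtain ⟨X', hX'⟩ := exists_freps k.n0 j (-(ρ' * m))
    exact ⟨X, X', fun j => absurd j h1, fun _ => ⟨hX, hX'⟩⟩
  choose X X' e1 e2 using ex
  have hs := (sup_one K).ha (η := η) ht
  refine tendsto_nhds_unique (h.tendsto ht hG hi k f f')
    (((h'.tendsto ht hG' hi' k' r r').const_mul (σ : ℝ)).congr' ?_)
  filter_upwards [self_mem_nhdsWithin] with ε hε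
  have h1 := aj N K n g d' D' ρ' η X X' t k.l1 hK k.gen.sqf ⟨k'.gen.two, k'.gen.odd⟩ hn h3 g0 hD
    k'.cr ht e2 hν ℝ _ (h'.one.di_inv (ε := ε))
  rw [(e1 1 rfl).1, (e1 1 rfl).2] at h1
  rw [zz, ← h1, zz, sum_congr rfl fun Q hQ => by rw [h.di_eq ht hε (k.im f f' Q hQ)]]
  simp only [Finsupp.linearCombination_apply, Finsupp.sum, Finset.sum_apply, Pi.smul_apply, smul_sum,
    mul_sum]
  rw [sum_comm]
  refine sum_congr rfl fun m hm => ?_
  obtain ⟨m0, m1⟩ := hs m hm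
  have km := k'.mul m0 (m1.coprime_dvd_right hK)
  have h2 := di_eq (μ := zF N (gD d') d'.sign D ρ) (μ' := zF N (gD d') d'.sign (D' * m ^ 2) (ρ' * m))
    (h.gw m m0 m1) h'.one k.neg
    km.neg (mem_reps f f') (mem_reps (e2 m m0).1 (e2 m m0).2) (by linear_combination m ^ 2 * hr)
    (σ := σ) (fun j => by
      rw [k.cnt f f', km.cnt (e2 m m0).1 (e2 m m0).2,
        hc m hm 1 _ _ (.inl rfl) (by rwa [one_mul]) (by simpa using (e2 m m0).1),
        hc m hm (-1) _ _ (.inr rfl) (by rwa [neg_one_mul]) (by simpa using (e2 m m0).2)]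
      ring) hε
  simp only [smul_comm (zF N (gD d') d'.sign D ρ _) (ha η t _ m), ← smul_sum, ← mul_sum]
  rw [h2, mul_smul_comm]

variable {F F₂ : ℂ → ℂ} {I : ℂ → ℝ} {κ κ₂ c c₂ c₃ z : ℂ} {w : MZ} {s : ℤ}

theorem zz_plus (k : Kc N F F₂ I G κ κ₂ c₃) (h : Sg N p F F₂ w s c c₂) (v : Sv N d D ρ)
    (f : FReps N D ρ T) (f' : FReps N D (-ρ) T') : ∃ j : ℤ,
    2 * (zz N d D ρ T T' (fun z => (G z).re - I z) +
      s * zz N d D ρ T T' fun z => (G (act w z)).re - I (act w z)) =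
      4 * (κ * zz N d D ρ T T' F).re + j := by
  obtain ⟨C, hC⟩ := k.plus h
  choose! j hj using fun Q hQ => hC _ (v.im f f' Q hQ)
  have h1 : ∑ Q ∈ T ∪ T', (zF N (gD d) d.sign D ρ Q : ℝ) * C = 0 := by
    rw [← sum_mul, ← Int.cast_sum, (v.pts f f').deg, Int.cast_zero, zero_mul]
  refine ⟨∑ Q ∈ T ∪ T', zF N (gD d) d.sign D ρ Q * j Q, ?_⟩
  rw [← add_zero (4 * _), ← h1]
  simp only [zz, zsmul_eq_mul, mul_sum, Complex.re_sum, Int.cast_sum, ← sum_add_distrib]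
  refine sum_congr rfl fun Q hQ => ?_
  rw [mul_left_comm κ, ← Complex.ofReal_intCast, Complex.re_ofReal_mul, Int.cast_mul]
  linear_combination zF N (gD d) d.sign D ρ Q * hj Q hQ

theorem Iw_cj (hd : Squarefree d) (e β : ℤ) (z : ℂ) :
    Iw (wF N (gD d) e β) (-conj z) = (-d.sign : ℤ) * Iw (wF N (gD d) e β) z := by
  have h : Function.Involutive fun R : Fm => ((-R.1, R.2.1, -R.2.2) : Fm) := fun R => by simp
  rw [Iw, Iw, ← mul_div_assoc, mul_finsum, ← finsum_comp_equiv h.toPerm]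
  refine congrArg (· / 2) (finsum_congr fun R => ?_)
  have h1 : wF N (gD d) e β (-R.1, R.2.1, -R.2.2) = d.sign * wF N (gD d) e β R := by
    have : Fam N e β (-R.1, R.2.1, -R.2.2) ↔ Fam N e β R := by simp [G5.Fam, fdisc]
    rw [wF, wF, mul_ite, mul_zero, ← gD_neg hd]
    exact if_congr this rfl rfl
  have h2 : fside (-R.1, R.2.1, -R.2.2) (-conj z) = -fside R z := by
    simp [fside]
    ring
  simp only [Function.Involutive.coe_toPerm, h1, h2, Int.cast_neg, Real.sign_neg, Int.cast_mul]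
  ring

theorem Fg.cj (h : Fg N K d e β η) (hd : Squarefree d) (ht : t ∈ HA K) (hz : 0 < z.im) :
    G5.hf ℝ t (Iw (wF N (gD d) e β)) (-conj z) =
      (-d.sign : ℤ) * G5.hf ℝ t (Iw (wF N (gD d) e β)) z := by
  rw [h.hf_eq ht hz, h.hf_eq ht (im_neg_conj hz), cmb_Iw, cmb_Iw, mul_sum]
  exact sum_congr rfl fun m _ => by rw [Iw_cj hd, mul_left_comm]

theorem Sv.unif {W : WeierstrassCurve ℚ} (P : Par W N) (v : Sv N d D ρ) (f : FReps N D ρ T)
    (f' : FReps N D (-ρ) T') : ∃ j : ℤ,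
    P.per.unif (zz N d D ρ T T' P.F) = 2 • yD P.φ d T + j • P.per.unif P.t0 := by
  obtain ⟨j, hj⟩ := v.zz_al f f' P.inv0 fun z hz => P.φ_al hz
  refine ⟨j, Eq.trans ?_ hj⟩
  simp only [zz, map_sum, map_zsmul, Par.φ]

end Pool.Agent.G7.Gk
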