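import Pool.Agent.Lib.MP_696deb_nt.B7.Z1
import Pool.Agent.Lib.MP_696deb_nt.B5.ZGb

/-! The analytic half of the formula of Gross and Zagier for an arbitrary twist. -/

set_option autoImplicit false

open Finset Filter Topology Complex NumberTheorySymbols
open scoped Classical

namespace Pool.Agent.G7

open Pool.Agent.Lib.MP_696deb_nt Pool.Agent.B4.GE Pool.Agent.Shared.Weier
open Pool.Agent.Lib.MP_696deb_nt.B3 (kro pchr_kro)
open Pool.Agent.B6.B7 (LX LKr lvQ LX_eq_Ico)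
open Pool.Agent.G5 hiding Cx Yw Cw zs Ori CNStmt HWStmt LTStmt GLStmt LAStmt SWStmt NUStmt WPStmt
  HTStmt GZStmt LFStmt LRStmt LQStmt zs_congr zs_aff ker_eq arch_eq log_terms

variable {X : Dat} {M K l l₀ m : ℕ} {T T' : Finset Fm} {V G : ℂ → ℂ} {b b' : ℕ →₀ ℤ} {t u : HW}
  {η a : ℕ → ℤ}

/-- Coefficients supported on multiples of `K` that are prime to `M`. -/
def Sd (M K : ℕ) (b : ℕ →₀ ℤ) : Prop := ∀ m ∈ b.support, m ≠ 0 ∧ m.Coprime M ∧ K ∣ m

theorem sd_iff : Sd M K b ↔ b ∈ Finsupp.supported ℤ ℤ {m | m ≠ 0 ∧ m.Coprime M ∧ K ∣ m} := Iff.rfl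

theorem Sd.sup (h : Sd M K b) : Sup M b := fun m hm => ⟨(h m hm).1, (h m hm).2.1⟩

theorem Sd.single (h0 : m ≠ 0) (h : m.Coprime M) (k : K ∣ m) (c : ℤ) :
    Sd M K (Finsupp.single m c) := fun k' hk => by
  obtain rfl := mem_singleton.1 (Finsupp.support_single_subset hk)
  exact ⟨h0, h, k⟩

theorem Sd.add (h : Sd M K b) (h' : Sd M K b') : Sd M K (b + b') :=
  sd_iff.2 (add_mem (sd_iff.1 h) (sd_iff.1 h'))

theorem Sd.smul (h : Sd M K b) (c : ℤ) : Sd M K (c • b) :=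
  sd_iff.2 (Submodule.smul_mem _ c (sd_iff.1 h))

theorem Sd.mono {N : ℕ} (h : Sd M K b) (e : N ∣ M) : Sd N K b := fun m hm =>
  ⟨(h m hm).1, (h m hm).2.1.coprime_dvd_right e, (h m hm).2.2⟩

theorem Sd.ind {p : (ℕ →₀ ℤ) → Prop} (h : Sd M K b) (h0 : p 0)
    (h1 : ∀ m c, m ≠ 0 → m.Coprime M → K ∣ m → p (Finsupp.single m c))
    (h2 : ∀ b b', p b → p b' → p (b + b')) : p b := by
  rw [← b.sum_single, Finsupp.sum]
  exact sum_induction _ p h2 h0 fun m hm => h1 m _ (h m hm).1 (h m hm).2.1 (h m hm).2.2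

theorem Sd.Ta (h : Sd M K b) (hl : l.Prime) (e : ¬ l ∣ M * K) : Sd M K (Ta η l b) := by
  refine h.ind (p := fun b => Sd M K (G5.Ta η l b)) (by simp [Sd]) (fun m c h0 h1 h2 => ?_)
    fun b b' h1 h2 => map_add (G5.Ta η l) b b' ▸ h1.add h2
  have c := hl.coprime_iff_not_dvd.2 e
  rw [Ta_single]
  refine ((Sd.single (mul_ne_zero hl.ne_zero h0) (c.coprime_mul_right_right.mul_left h1)
    (h2.mul_left l) _).add ?_).smul _
  split_ifs with k
  · refine .single (Nat.div_ne_zero_iff_of_dvd k |>.2 ⟨h0, hl.ne_zero⟩)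
      (h1.coprime_dvd_left (Nat.div_dvd_of_dvd k)) ?_ _
    exact c.coprime_mul_left_right.symm.dvd_of_dvd_mul_left ((Nat.mul_div_cancel' k).symm ▸ h2)
  · exact .single h0 h1 h2 _

theorem Sd.ha (h : Sd M K b) (ht : t ∈ HA (M * K)) : Sd M K (ha η t b) := by
  revert b
  exact HA_ind (p := fun t => ∀ {b}, Sd M K b → Sd M K (G5.ha η t b)) ht
    (fun l hl e b h => ha_tl η l ▸ h.Ta hl e) (fun c b h => ha_int (η := η) c b ▸ h.smul c)
    (fun s t _ _ h1 h2 b h => ha_add (η := η) s t b ▸ (h1 h).add (h2 h))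
    fun s t _ _ h1 h2 b h => ha_mul (η := η) s t b ▸ h1 (h2 h)

theorem ha_Xl_zero (hl : l.Prime) (h : ¬ l ∣ m) (e : η l = 0) (c : ℤ) (j : ℕ) :
    ha η (Xl l j) (Finsupp.single m c) = Finsupp.single (m * l ^ j) c := by
  rw [ha_Xl hl h, sum_range_succ, Nat.sub_self, pow_zero, one_mul, sum_eq_zero fun i hi => by
    rw [e, zero_pow (by have := mem_range.1 hi; omega), zero_mul, Finsupp.single_zero], zero_add]

theorem Sd.Xl (h : Sd (M * l) K b) (hl : l.Prime) (k : ¬ l ∣ M) (e : η l = 0) {j : ℕ} (hj : j ≠ 0) :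
    Sd M (K * l) (G5.ha η (Xl l j) b) := by
  refine h.ind (p := fun b => Sd M (K * l) (G5.ha η (G5.Xl l j) b)) (by simp [Sd])
    (fun m c h0 h1 h2 => ?_) fun b b' h1 h2 => map_add (G5.ha η (G5.Xl l j)) b b' ▸ h1.add h2
  rw [ha_Xl_zero hl (hl.coprime_iff_not_dvd.1 h1.coprime_mul_left_right.symm) e]
  exact .single (mul_ne_zero h0 (pow_ne_zero j hl.ne_zero)) (h1.coprime_mul_right_right.mul_left
    ((hl.coprime_iff_not_dvd.2 k).pow_left j)) (mul_dvd_mul h2 (dvd_pow_self l hj)) c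

theorem he_two (hl : l.Prime) : he a (Xl l 2) ≠ 0 := fun e => by
  have h := cassini a l 0
  simp only [zero_add, e, zero_mul, sub_zero, pow_one] at h
  exact hl.not_isSquare ⟨(he a (Xl l 1)).natAbs, by
    zify
    rw [← h, abs_mul_abs_self, sq]⟩

/-- An operator that moves the basic index to a multiple of the given primes. -/
theorem exists_push (a : ℕ → ℤ) (S : Finset ℕ) (h : ∀ r ∈ S, r.Prime ∧ ¬ r ∣ M ∧ η r = 0) :
    ∃ u ∈ HA M, he a u ≠ 0 ∧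
      ha η u (Finsupp.single 1 1) = Finsupp.single (∏ r ∈ S, r ^ 2) 1 := by
  induction S using Finset.induction_on with
  | empty => exact ⟨1, one_mem _, by simp, by simp⟩
  | insert r S hr ih =>
    obtain ⟨u, u1, u2, u3⟩ := ih fun s hs => h s (mem_insert_of_mem hs)
    obtain ⟨r1, r2, r3⟩ := h r (mem_insert_self r S)
    refine ⟨Xl r 2 * u, mul_mem (Xl_mem r1 r2 2) u1, by
      rw [map_mul]; exact mul_ne_zero (he_two r1) u2, ?_⟩
    rw [ha_mul, u3, ha_Xl_zero r1 (fun k => ?_) r3, prod_insert hr, mul_comm]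
    obtain ⟨s, hs, k⟩ := (r1.prime.dvd_finsetProd_iff _).1 k
    exact hr ((Nat.prime_dvd_prime_iff_eq r1 (h s (mem_insert_of_mem hs)).1).1
      (r1.dvd_of_dvd_pow k) ▸ hs)

/-- The growth argument without the first term. -/
theorem mem_of_growth' (hl : l.Prime) {δ : ℝ} {C : ℚ} {k : ℕ} (h : ∀ j : ℕ, j ≠ 0 → ∃ σ : ℚ,
    |σ| ≤ C * (j + 1) ^ k ∧ he a (Xl l j) * δ - σ * Real.log l ∈ LogS l) : δ ∈ LogS l := by
  obtain ⟨c, -, h1⟩ := h 2 two_ne_zero
  have h2 : (he a (Xl l 2) : ℝ) ≠ 0 := by exact_mod_cast he_two hl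
  refine mem_of_growth (a := a) (C := |C| + |c / he a (Xl l 2)|) (k := k) hl fun j => ?_
  rcases eq_or_ne j 0 with rfl | hj
  · refine ⟨c / he a (Xl l 2), by simp, ?_⟩
    convert LogS.rat_mul (he a (Xl l 2) : ℚ)⁻¹ h1 using 1
    simp only [Xl, map_one] at h2 ⊢
    push_cast
    field_simp
  · obtain ⟨σ, k1, k2⟩ := h j hj
    exact ⟨σ, k1.trans (mul_le_mul_of_nonneg_right
      ((le_abs_self C).trans (le_add_of_nonneg_right (abs_nonneg _))) (by positivity)), k2⟩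

theorem Dat.Ori.cm {z : ℂ} (hX : X.Ok) (h : X.Ori z) : CM X.n z := by
  obtain ⟨R, M, h1, -, h2, h3, -, h4⟩ := h
  exact ⟨R, X.g * M, mul_ne_zero (ne_zero_of_dvd_ne_zero hX.N0 hX.g_dvd) h1, h2,
    by exact_mod_cast h3.elim (·.2.1) (·.2.1), h4⟩

theorem Dat.Rep.cm {r : ℤ} (h : X.Rep r T T') (hX : X.Ok) {Q : Fm} (hQ : Q ∈ T ∪ T') :
    CM X.n (froot Q) := by
  rcases mem_union.1 hQ with k | k
  exacts [⟨Q, X.c, hX.c0, h.fst.pos Q k, (h.fst.fam Q k).2.1, rfl⟩,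
    ⟨Q, X.c, hX.c0, h.snd.pos Q k, (h.snd.fam Q k).2.1, rfl⟩]

theorem zs_congr {E : Type} [AddCommGroup E] {S S' : ℂ → E} (hX : X.Ok) (hT : X.Rep X.ρ T T')
    (e : ∀ z : ℂ, 0 < z.im → S z = S' z) : X.zs T T' S = X.zs T T' S' :=
  sum_congr rfl fun _ hQ => by rw [e _ ((hT.cm hX hQ).pos hX.n0)]

theorem zs_aff {E : Type} [AddCommGroup E] (S : ℂ → E) (e : ℤ) (c : E)
    (h : Pts (T ∪ T') X.w X.D) : (X.zs T T' fun z => e • S z + c) = e • X.zs T T' S := by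
  simp only [Dat.zs, smul_add, sum_add_distrib, ← sum_smul, h.deg, zero_smul, add_zero, smul_sum,
    smul_comm e]

/-- The statement on the counts, for a fixed sign. -/
def Cnt (X : Dat) (σ : ℤ) : Prop := ∀ (T T' : Finset Fm) (m : ℕ) (t : ℤ), X.Rep X.ρ T T' →
  X.Adm m → 0 ≤ t → (cnd (X.f * X.b) * (cnd (X.f * X.a) * m) : ℤ) ^ 2 < t ^ 2 →
  cntP (T ∪ T') X.w (X.Y m) (-t) = σ * cX (cnd (X.f * X.b)) (kro (X.f * X.b)) (X.C m) t

/-- The logarithmic term of the index `m`. -/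
noncomputable abbrev Dat.lg (X : Dat) (m : ℕ) : ℝ :=
  LgX (cnd (X.f * X.b)) (kro (X.f * X.b)) (X.C m)

/-- The two kernel sums agree. -/
theorem ker_eq {σ : ℤ} (cn : Cnt X σ) (hX : X.Ok) (hT : X.Rep X.ρ T T') (hm : X.Adm m) (ε : ℝ) :
    ∑' t : ℕ, (cntP (T ∪ T') X.w (X.Y m) (-t) : ℝ) *
      kerK ε (t / √(X.D * (X.D * m ^ 2 : ℤ) : ℝ)) =
    σ * ∑' t : ℕ, (cX (cnd (X.f * X.b)) (kro (X.f * X.b)) (X.C m) t : ℝ) *
      kerK ε (t / (cnd (X.f * X.b) * √(((cnd (X.f * X.a) * m) ^ 2 : ℤ) : ℝ))) := by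
  rw [← tsum_mul_left]
  refine tsum_congr fun t => ?_
  have e0 : X.D * (X.D * m ^ 2) = (cnd (X.f * X.b) * (cnd (X.f * X.a) * m) : ℤ) ^ 2 := by
    rw [hX.ca, hX.cb, Dat.D, ← hX.abs_mul]
    push_cast
    ring
  have e : √(X.D * (X.D * m ^ 2 : ℤ) : ℝ) =
      cnd (X.f * X.b) * √(((cnd (X.f * X.a) * m) ^ 2 : ℤ) : ℝ) := by
    rw [← Real.sqrt_sq (x := (cnd (X.f * X.b) : ℝ)) (by positivity), ← Real.sqrt_mul (sq_nonneg _),
      ← Int.cast_mul, e0]
    congr 1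
    push_cast
    ring
  rw [e]
  by_cases h1 : (cnd (X.f * X.b) * (cnd (X.f * X.a) * m) : ℤ) ^ 2 < (t : ℤ) ^ 2
  · rw [cn T T' m t hT hm (by omega) h1, Int.cast_mul, mul_assoc]
  · rw [kerK, if_neg, mul_zero, mul_zero, mul_zero]
    rw [← e, not_lt]
    refine div_le_one_of_le₀ (Real.le_sqrt_of_sq_le ?_) (Real.sqrt_nonneg _)
    exact_mod_cast (not_lt.mp h1).trans_eq e0.symm

/-- The Green function summed over a Hecke translate of the special divisor. -/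
theorem arch_eq {σ : ℤ} (cn : Cnt X σ) (hw : HWStmt) (gr : GRStmt) (pp : PPStmt) (gl : GLStmt)
    (sw : SWStmt) (nu : NUStmt) (c : X.Ok) (hT : X.Rep X.ρ T T') {L : PeriodPair} {F G₀ : ℂ → ℂ}
    {x : ℂ} {n : ℤ} (hF : Ci X.N F) (g0 : G5.Geo X.N (X.C 1) G₀) (ht : t ∈ HA X.N)
    (hu : u ∈ HA X.N) (hb : b = n • ha X.η t (Finsupp.single 1 1))
    (sa : ∀ m ∈ (ha X.η u b).support, X.Adm m)
    (hV : Th X.N (cmb (fun m => nuW (X.Y m)) b) (U1 L F x) V)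
    (hG : G = fun z => n * hf ℂ (u * t) G₀ z) (h1 : LKr G (X.f * X.b) 1 = 0) :
    X.zs T T' (hf ℝ u (gT (U1 L F x) V)) = -σ *
      ((deriv (LKr G (X.f * X.b)) 1).re - cmb X.lg (ha X.η u b)) := by
  have N0 := c.N0
  have n0 := c.n0
  obtain ⟨w1, w2, w3, w4, w5⟩ := hw X c
  have s1 : Sup X.N (Finsupp.single 1 (1 : ℤ)) := .single one_ne_zero (by simp) 1
  have sb : Sup X.N b := hb ▸ (s1.ha ht).smul n
  have z0 : ∀ z, X.Ori z → cmb (fun m => nuW (X.Y m)) b z = 0 := fun z hz => by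
    rw [cmb_apply]
    refine sum_eq_zero fun m hm => smul_eq_zero_of_right _
      (finsum_eq_zero_of_forall_eq_zero fun R => ite_eq_right_iff.2 fun e => ?_)
    exact by_contra fun k => w4 z hz m (sb m hm).1 (sb m hm).2 R k e
  obtain ⟨g1, g2, -⟩ := gr X.N (cmb (fun m => nuW (X.Y m)) b) N0
  obtain ⟨Θ, k1, k2⟩ := g2 L F V x hF hV
  obtain ⟨Θ', k3, k4⟩ := g1 Θ X.Ori u k1 (fun z hz => ⟨(hz.cm c).pos n0, z0 z hz⟩) w3 hu
  obtain ⟨u2, u3, -⟩ := nu X c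
  have p1 := pp X.N _ _ _ X.Y (fun m => X.D * m ^ 2) (ha X.η u b) Θ' N0 (u3 T T' hT).1
    (fun m hm => by
      have m0 := (sa m hm).ne
      exact ⟨mul_neg_of_neg_of_pos c.neg (by positivity), (u2 m m0).1, fun R hR =>
        ⟨by_contra fun k => hR (if_neg k), fun Q _ hQ => w4 _ (w5 Q hQ) m m0 (sa m hm).cop R hR⟩⟩)
    (k3.congr fun z hz => (w1.hf hu sb hz).symm)
  have cG : Ci X.N G := hG ▸ (g0.ci.hf N0 (mul_mem hu ht)).smul n
  have p2 := gl X.N _ _ X.C (fun m => (cnd (X.f * X.a) * m) ^ 2) (ha X.η u b) G c.lsq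
    (pchr_kro c.sb) (cnd_gt c.sb c.B1) (fun m hm => by
      have m0 := (sa m hm).ne
      have := cnd_ne c.sa
      exact ⟨by positivity, (u2 m m0).2, (sw X c).1 m m0 (sa m hm).cop⟩) cG (by
      have e : ∀ z : ℂ, 0 < z.im → (G z).re - cmb (fun m => Iw (X.C m)) (ha X.η u b) z =
          n * hf ℝ (u * t) (fun z => (G₀ z).re - Iw (X.C 1) z) z := fun z hz => by
        have e1 := congrFun (hf_map reAddGroupHom (u * t) G₀) z
        have e2 := w2.hf (mul_mem hu ht) s1 hz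
        rw [cmb_single, one_smul, ha_mul] at e2
        rw [hb, map_smul, map_smul, Pi.smul_apply, ← e2, hG, show (fun z => (G₀ z).re -
          Iw (X.C 1) z) = (fun z => reAddGroupHom (G₀ z)) - Iw (X.C 1) from rfl, map_sub,
          Pi.sub_apply, e1]
        simp [mul_sub]
      intro g hg z hz
      simp only [e z hz, e _ (act_pos (hg.1 ▸ one_pos) hz),
        inv0_hf g0.inv (mul_mem hu ht) g hg z hz]) h1
  have p3 := tendsto_nhds_unique p1 ((p2.const_mul (σ : ℝ)).congr fun ε => by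
      rw [Finsupp.sum, Finsupp.sum, mul_sum]
      exact sum_congr rfl fun m hm => by rw [ker_eq cn c hT (sa m hm), mul_left_comm])
  rw [Finsupp.linearCombination_apply]
  simp only [zsmul_eq_mul]
  rw [neg_mul, LKr, ← p3, neg_neg, Dat.zs]
  refine sum_congr rfl fun Q _ => ?_
  by_cases hQ : X.w Q = 0
  · simp [hQ]
  rw [k4 _ (w5 Q hQ), zsmul_eq_mul,
    hf_congr_on w3 hu (fun z hz => k2 z ((hz.cm c).pos n0) (z0 z hz)) (w5 Q hQ)]

/-- The logarithmic terms, termwise. -/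
theorem log_mem (lt : LTStmt) (c : X.Ok) (hl : l.Prime) (h : ∀ m ∈ b.support, X.Adm m ∧
    (¬ l ∣ X.c → m.Coprime l ∧ et X.n l = 1)) : cmb X.lg b ∈ LogS l := by
  rw [Finsupp.linearCombination_apply]
  refine Submodule.sum_mem _ fun m hm => ?_
  obtain ⟨k1, k2⟩ := lt X c l m hl (h m hm).1
  by_cases e : l ∣ X.c
  · simpa using LogS.int_mul _ (k1 e)
  · simpa using LogS.int_mul _ ((k2 e ((h m hm).2 e).1).1 ((h m hm).2 e).2)

/-- The logarithmic terms at a prime that does not split. -/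
theorem log_terms (lt : LTStmt) (c : X.Ok) (hl : l.Prime) (h0 : l₀.Prime) (hne : l ≠ l₀)
    (hN : ¬ l₀ ∣ X.N) (hc : ¬ l ∣ X.c) (h : et X.n l ≠ 1)
    (hK : ∀ r : ℕ, r.Prime → r ∣ X.c → ¬ r ∣ X.N → r ∣ K) (hb : Sd (X.N * l * l₀) K b) :
    ∃ C : ℚ, ∀ j : ℕ, ∃ σ : ℚ, |σ| ≤ C * (j + 1) ^ 3 ∧
      cmb X.lg (ha X.η (tl l₀ * Xl l j) b) - σ * Real.log l ∈ LogS l := by
  have d0 : ¬ l₀ ∣ X.N * l := fun e => (h0.dvd_mul.1 e).elim hN fun e =>
    hne ((Nat.prime_dvd_prime_iff_eq h0 hl).1 e).symm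
  refine hb.ind (p := fun b => ∃ C : ℚ, ∀ j : ℕ, ∃ σ : ℚ, |σ| ≤ C * (j + 1) ^ 3 ∧
    cmb X.lg (ha X.η (tl l₀ * Xl l j) b) - σ * Real.log l ∈ LogS l)
    ⟨0, fun j => ⟨0, by simp, by simp⟩⟩ (fun m x m0 m1 m2 => ?_) ?_
  · have c1 : m.Coprime (X.N * l) := m1.coprime_mul_right_right
    have c2 := ((Nat.Prime.coprime_iff_not_dvd h0).2 d0).mul_left c1
    obtain ⟨C, hC⟩ := ((lt X c l m hl ⟨m0, c1.coprime_mul_right_right,
      fun r r1 r2 r3 => (hK r r1 r2 r3).trans m2⟩).2 hc c1.coprime_mul_left_right).2 h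
    obtain ⟨C', hC'⟩ := ((lt X c l (l₀ * m) hl ⟨mul_ne_zero h0.ne_zero m0,
      c2.coprime_mul_right_right, fun r r1 r2 r3 => ((hK r r1 r2 r3).trans m2).mul_left _⟩).2 hc
      c2.coprime_mul_left_right).2 h
    choose σ s1 s2 using hC
    choose σ' s1' s2' using hC'
    have j1 : ∀ k, |(X.η k : ℚ)| ≤ 1 := fun k => by
      rcases (pchr_kro c.sa).cases k with e | e | e <;> simp [Dat.η, e]
    have C0 : 0 ≤ C := by simpa using (abs_nonneg _).trans (s1 0)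
    have C0' : 0 ≤ C' := by simpa using (abs_nonneg _).trans (s1' 0)
    refine ⟨|(x : ℚ)| * (C' + C), fun j => ⟨∑ i ∈ range (j + 1),
      X.η l ^ (j - i) * x * (σ' i + X.η l₀ * σ i), ?_, ?_⟩⟩
    · refine (abs_sum_le_sum_abs _ _).trans ((sum_le_card_nsmul _ _
        (|(x : ℚ)| * (C' + C) * (j + 1) ^ 2) fun i hi => ?_).trans_eq (by simp; ring))
      have i1 : ((i : ℚ) + 1) ^ 2 ≤ (j + 1) ^ 2 := by
        gcongr
        exact Nat.lt_succ_iff.1 (mem_range.1 hi)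
      rw [abs_mul, abs_mul, abs_pow, mul_assoc |(x : ℚ)|]
      refine mul_le_mul (mul_le_of_le_one_left (abs_nonneg _) (pow_le_one₀ (abs_nonneg _) (j1 l)))
        ((abs_add_le _ _).trans ?_) (abs_nonneg _) (abs_nonneg _)
      rw [abs_mul, add_mul]
      exact add_le_add ((s1' i).trans (mul_le_mul_of_nonneg_left i1 C0'))
        ((mul_le_of_le_one_left (abs_nonneg _) (j1 l₀)).trans
          ((s1 i).trans (mul_le_mul_of_nonneg_left i1 C0)))
    · rw [ha_mul, ha_Xl hl ((Nat.Prime.coprime_iff_not_dvd hl).1 c1.coprime_mul_left_right.symm),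
        map_sum, map_sum, Rat.cast_sum, sum_mul, ← sum_sub_distrib]
      refine Submodule.sum_mem _ fun i _ => ?_
      rw [ha_tl, Ta_single, if_neg fun e => (h0.dvd_mul.1 e).elim
        ((Nat.Prime.coprime_iff_not_dvd h0).1 m1.coprime_mul_left_right.symm) fun e =>
          hne ((Nat.prime_dvd_prime_iff_eq h0 hl).1 (h0.dvd_of_dvd_pow e)).symm,
        map_smul, map_add, cmb_single, cmb_single, ← mul_assoc l₀]
      convert LogS.int_mul (X.η l ^ (j - i) * x)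
        (add_mem (s2' i) (LogS.int_mul (X.η l₀) (s2 i))) using 1
      simp only [zsmul_eq_mul]
      push_cast
      ring
  · rintro b b' ⟨C, hC⟩ ⟨C', hC'⟩
    refine ⟨C + C', fun j => ?_⟩
    obtain ⟨σ, s1, s2⟩ := hC j
    obtain ⟨σ', s1', s2'⟩ := hC' j
    refine ⟨σ + σ', (abs_add_le _ _).trans (by linarith), ?_⟩
    convert add_mem s2 s2' using 1
    rw [map_add, map_add]
    push_cast
    ring

end Pool.Agent.G7
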