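import Pool.Agent.Lib.MP_696deb_nt.B7.GK7a
import Pool.Agent.Lib.MP_696deb_nt.B7.GZ7a
import Pool.Agent.Lib.MP_696deb_nt.B5.GKd

/-! The relation between special points of different fields at a composite level. -/

set_option autoImplicit false

open Finset NumberTheorySymbols
open scoped Classical ComplexConjugate

namespace Pool.Agent.G7.Gk

open Pool.Agent.Lib.MP_696deb_nt Pool.Agent.B4.GE Pool.Agent.G5.GL
open Pool.Agent.Lib.MP_696deb_nt.B3 (kro pchr_kro kro_odd)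
open Pool.Agent.G5 hiding Cx Yw Cw zs Ori CNStmt HWStmt LTStmt GLStmt LAStmt SWStmt NUStmt WPStmt
  HTStmt GZStmt LFStmt LRStmt LQStmt zz Fg Iw_cj gk_rel Sd

variable {N l : ℕ} {f a b x : ℤ}

theorem cnd_two (h : f ∣ 2) (h1 : f ≠ 1) : Squarefree f ∧ ∃ j, cnd f = 2 ^ (j + 1) := by
  have h2 := Int.le_of_dvd two_pos h
  have h3 := Int.le_of_dvd two_pos (neg_dvd.2 h)
  refine ⟨Int.prime_two.squarefree.squarefree_of_dvd h, ?_⟩
  obtain rfl | rfl | rfl | rfl : f = -2 ∨ f = -1 ∨ f = 0 ∨ f = 2 := by omega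
  exacts [⟨2, by decide⟩, ⟨1, by decide⟩, absurd h (by decide), ⟨2, by decide⟩]

theorem sqf_two (h : f ∣ 2) (ha : Squarefree a) (h4 : a % 4 = 1) : Squarefree (f * a) :=
  squarefree_mul_iff.2 ⟨(IsCoprime.of_isCoprime_of_dvd_left
    ((Int.prime_two.coprime_iff_not_dvd).2 (by omega)) h).isRelPrime,
    Int.prime_two.squarefree.squarefree_of_dvd h, ha⟩

theorem eta_eq (h : f ∣ 2) (h1 : f ≠ 1) (ha : Squarefree a) (h4 : a % 4 = 1) (hl : l.Prime)
    (k : ¬ (l : ℤ) ∣ a) (x : ℤ) :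
    kro (f * a) l * J(a * x | l) = if l = 2 then 0 else J(f * x | l) := by
  have s := sqf_two h ha h4
  split_ifs with e
  · obtain ⟨-, j, hj⟩ := cnd_two h h1
    rw [kro_zero s hl (by rw [cnd_mul s h4, hj, e, pow_succ']; exact ⟨2 ^ j * a.natAbs, by ring⟩),
      zero_mul]
  · rw [kro_odd s (hl.odd_of_ne_two e), jacobiSym.mul_left, jacobiSym.mul_left, jacobiSym.mul_left]
    linear_combination J(f | l) * J(x | l) * jac_sq hl k

theorem gc7 (ma : MA7) (hg : HG7) (aj : AJ7) (pd : PD7) (fp : FP7) : GC7 := by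
  intro W N p P F₂ M f a x β γ hN oN hp hd hne cp hc ht0 hal f2 f1 hA a4 cA hx x4 cx ax hAx M0 g1 g2
  obtain ⟨w, s, c, c₂, hw, hs, hF⟩ := cp.al
  have sg : Sg N p P.F F₂ w s c c₂ := ⟨hw, hp.ne_zero, hd, hs, hF⟩
  obtain ⟨sf, i₀, hi₀⟩ := cnd_two f2 f1
  have sa := sqf_two f2 hA a4
  have c0 : cnd f ≠ 0 := cnd_ne sf
  have cN : (cnd f).Coprime N := hi₀ ▸ (Nat.coprime_two_left.2 oN).pow_left _
  have cf : IsCoprime f N := IsCoprime.of_isCoprime_of_dvd_left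
    (Nat.isCoprime_iff_coprime.2 (Nat.coprime_two_left.2 oN)) f2
  obtain ⟨j₀, M', oM, rfl⟩ := Nat.exists_eq_two_pow_mul_odd M0
  have A0 : a.natAbs ≠ 0 := by omega
  have x0 : x.natAbs ≠ 0 := by omega
  have K0 : a.natAbs * x.natAbs * M' * 2 ≠ 0 := by have := oM.pos; positivity
  obtain ⟨t₀, t1, t2, t3⟩ := cp.prj _ K0
  rw [← mul_assoc] at t1
  set K := N * (a.natAbs * x.natAbs * M') with hK
  have NK : N ∣ K := dvd_mul_right _ _
  have K2 : ¬ 2 ∣ K := Odd.not_two_dvd_nat (oN.mul (((Nat.odd_iff.2 (by omega)).mul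
    (Nat.odd_iff.2 (by omega))).mul oM))
  have aK : a ∣ K := Int.natAbs_dvd.1 (Int.natCast_dvd_natCast.2 ⟨N * x.natAbs * M', by rw [hK]; ring⟩)
  have xK : x ∣ K := Int.natAbs_dvd.1 (Int.natCast_dvd_natCast.2 ⟨N * a.natAbs * M', by rw [hK]; ring⟩)
  have MK : (M' : ℤ) ∣ K := Int.natCast_dvd_natCast.2 ⟨N * a.natAbs * x.natAbs, by rw [hK]; ring⟩
  have nd : ∀ {q : ℕ} {y : ℤ}, ¬ q ∣ K → y ∣ K → ¬ (q : ℤ) ∣ y := fun k h j =>
    k (Int.natCast_dvd_natCast.1 (j.trans h))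
  obtain ⟨l, l1, hl⟩ := Nat.exists_infinite_primes (K * 2 + 1)
  have lK : ¬ l ∣ K * 2 := fun k => by
    have := Nat.le_of_dvd (Nat.pos_of_ne_zero (by rw [hK, mul_assoc]; exact mul_ne_zero P.N0 K0)) k
    omega
  have lN : ¬ l ∣ N := fun k => lK ((k.trans NK).mul_right 2)
  have m4 : ∀ {y z : ℤ}, y % 4 = 1 → z % 4 = 1 → y * z % 4 = 1 := fun h k => by
    rw [mul_mod4 _ k, h]
  have fg : ∀ {u r : ℤ} {η : ℕ → ℤ}, 0 < a * u → u % 4 = 1 → u ∣ K →
      (∀ q : ℕ, q.Prime → ¬ q ∣ K → η q = kro (f * a) q * J(a * u | q)) →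
      (∀ m : ℕ, m ≠ 0 → m.Coprime N → ∀ R,
        Fam N (a * u * cnd f ^ 2 * m ^ 2) (r * cnd f * m) R → R.1 ≠ 0) →
      Fg N K (f * a) (a * u * cnd f ^ 2) (r * cnd f) η := fun {u r η} h1 h2 h3 h4 h5 =>
    ⟨fun m m0 hm => gw_of (gen7_mul sa a4 ⟨u * m ^ 2, by ring⟩) (by positivity)
      (h5 m m0 (hm.coprime_dvd_right NK)), (hg N K f a (a * u) r η oN f2 f1 hA a4 cA
      (dvd_mul_right _ _) (m4 a4 h2) NK (sq (K : ℤ) ▸ mul_dvd_mul aK h3) h4).1 h1 h5⟩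
  have cA' : a.natAbs.Coprime N := Int.isCoprime_iff_gcd_eq_one.1 cA
  have fV : Fg N K (f * a) (a * a * cnd f ^ 2) (γ * cnd f) fun q => kro (f * a) q :=
    fg (mul_self_pos.2 hA.ne_zero) a4 aK (fun q hq k => by
      rw [jacobiSym.mul_left, ← sq, jac_sq hq (nd k aK), mul_one]) fun m _ hm R hR =>
      gk_ne' (m := cnd f * m) oN hp hd hne cA' g1 g2 (cN.mul_left hm) (by
        convert hR using 1
        · rw [Int.natAbs_mul_self']
          push_cast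
          ring
        · push_cast
          ring)
  have fx : Fg N K (f * a) (a * x * cnd f ^ 2) (β * cnd f) fun q => kro (f * a) q * J(a * x | q) :=
    fg ax x4 xK (fun _ _ _ => rfl) fun m m0 _ R hR =>
      gk_ne (m := cnd f * m) (Int.squarefree_natAbs.2 hA) (Int.squarefree_natAbs.2 hx)
        (fun e => by omega) (mul_ne_zero c0 m0) (by
          rw [hR.2.1, ← Nat.cast_mul a.natAbs, ← Int.natAbs_mul, Int.natAbs_of_nonneg ax.le]
          push_cast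
          ring)
  have X2 := Xl_mem Nat.prime_two K2 2
  have t4 : t₀ * Xl 2 2 ∈ HA K := mul_mem (HA_mono (dvd_mul_right K 2) t1) X2
  have t5 : Prj N P.F F₂ (t₀ * Xl 2 2) := fun G hG => by
    simpa only [hf_mul] using t3 _ (hG.hf P.N0 (HA_mono NK X2))
  obtain ⟨Gx, κx, κx₂, cx₃, kx⟩ := exists_kc hN hl lN (HA_mono NK t4) t5 fx.one
  obtain ⟨GV, κV, κV₂, cV₃, kV⟩ := exists_kc hN hl lN (HA_mono NK t4) t5 fV.one
  have t6 : tl l - algebraMap ℤ HW (l + 1) ∈ HA (K * 2) :=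
    sub_mem (tl_mem hl lK) (Subalgebra.algebraMap_mem _ _)
  have ht := mul_mem t4 (HA_mono (dvd_mul_right K 2) t6)
  have he0 : he P.a (t₀ * Xl 2 2 * (tl l - algebraMap ℤ HW (l + 1))) ≠ 0 := by
    rw [map_mul, map_mul, map_sub, he_tl, AlgHom.commutes]
    exact mul_ne_zero (mul_ne_zero t2 (he_two Nat.prime_two)) (sub_ne_zero.2 (hal l hl lN))
  have hs2 : Sd K (1 * 2) (ha (fun q => kro (f * a) q * J(a * x | q))
      (t₀ * Xl 2 2 * (tl l - algebraMap ℤ HW (l + 1))) (Finsupp.single 1 1)) := by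
    rw [ha_mul, ha_mul]
    refine Sd.ha (Sd.Xl (Sd.ha (.single one_ne_zero (Nat.coprime_one_left _) dvd_rfl 1)
      (by rwa [mul_one])) Nat.prime_two K2 ?_ two_ne_zero) (by rwa [one_mul])
    exact (eta_eq f2 f1 hA a4 Nat.prime_two (nd K2 aK) x).trans (if_pos rfl)
  generalize t₀ * Xl 2 2 * (tl l - algebraMap ℤ HW (l + 1)) = t at kx kV ht he0 hs2
  have hε : -(f * a).sign = 1 ∨ -(f * a).sign = -1 := by
    have := sign_cases sa
    omega
  obtain ⟨ω, ω0, ω1, ω2, ω3⟩ := exists_om P hε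
  obtain ⟨al, hbl⟩ := ω3 κx fun g hg z hz => kx.per sg hg hz
  obtain ⟨nu, hnu⟩ := ω3 κV fun g hg z hz => kV.per sg hg hz
  refine ⟨al, nu, fun hL k => ?_, fun b ρ ρ₂ n T T₂ BM ab hn h3 hB n3 r1 r2 r3 hT hT₂ => ?_⟩
  · have e0 : (cnd (f * a) : ℤ) = a.natAbs * cnd f := by rw [cnd_mul sa a4, mul_comm, Nat.cast_mul]
    have e : ∀ m : ℕ, ((cnd (f * a) : ℤ) * m) ^ 2 = a * a * cnd f ^ 2 * m ^ 2 := fun m => by
      rw [e0, ← Int.natAbs_mul_self']
      ring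
    have h1 := pd N p (f * a) (γ * cnd f) P.F F₂ GV P.a t w s c c₂ κV κV₂ cV₃ hN oN hp hd hne sa
      (cf.mul_left cA) (by rw [e0, ← add_mul]; exact g1.mul_right _)
      (by rw [e0, ← sub_mul]; exact g2.mul_right _) (par_ci P) cp.ci (par_eig P) hw hs hF
      (HA_mono NK ht) (fun g hg z hz => by
        have := kV.inv g hg z hz
        dsimp only at this ⊢
        rw [fV.hf_eq ht hz, fV.hf_eq ht (act_pos (hg.1 ▸ one_pos) hz)] at this
        simpa only [e] using this) kV.eq he0 hL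
    have h2 := kV.conj sg P.N0 (par_ci P) (par_ne P) (fun z => par_conj P) hc fun z => fV.cj sa ht
    have h5 : conj (κV * ω) = κV * ω := by
      rw [map_mul, h2, ω1]
      rcases hε with j | j <;> rw [j] <;> simp
    rw [k, Int.cast_zero, mul_eq_zero_iff_left four_ne_zero] at hnu
    exact mul_ne_zero h1 ω0 (by rw [← Complex.conj_eq_iff_re.1 h5, hnu, Complex.ofReal_zero])
  have n4 := hn.mod4
  have b4 : b % 4 = 1 := by
    have := mul_mod4 b a4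
    rw [mul_comm, ab] at this
    omega
  have bn : b ∣ n := ⟨-a, by linear_combination ab⟩
  have hb : Squarefree b := (Int.squarefree_natCast.2 hn.sqf).squarefree_of_dvd bn
  have cB : IsCoprime b N := IsCoprime.of_isCoprime_of_dvd_left
    (Nat.isCoprime_iff_coprime.2 hn.cop) bn
  have sb := sqf_two f2 hb b4
  have bK : b ∣ K := Dvd.dvd.trans (IsCoprime.dvd_of_dvd_mul_left (y := 2 ^ j₀)
    ((Int.prime_two.coprime_iff_not_dvd.2 (by omega)).symm.pow_right) (by exact_mod_cast BM)) MK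
  have a0 : a * b < 0 := by omega
  have bx : b * x < 0 := by
    by_contra k
    nlinarith [mul_nonneg (not_lt.1 k) (mul_self_nonneg a), mul_neg_of_neg_of_pos a0 ax]
  have hJ : (f * b).sign = -(f * a).sign := by
    have h1 := Int.sign_eq_neg_one_of_neg a0
    rw [Int.sign_mul] at h1 ⊢
    rw [Int.sign_mul]
    rcases sign_cases hA with j | j <;> rw [j] at h1 ⊢
    · rw [one_mul] at h1
      rw [h1]
      ring
    · rw [show b.sign = 1 by omega]
      ring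
  have cb : IsCoprime (N : ℤ) (cnd (f * b)) := by
    rw [cnd_mul sb b4]
    exact Nat.isCoprime_iff_coprime.2 (cN.mul_left (Int.isCoprime_iff_gcd_eq_one.1 cB)).symm
  have sd : ∀ {y r v : ℤ}, b * y < 0 → IsCoprime y N → 4 * (N : ℤ) ∣ r ^ 2 - b * y →
      4 * (N : ℤ) ∣ v ^ 2 - 1 → Sv N (f * b) (b * y * cnd f ^ 2) (v * (r * cnd f)) :=
    fun {y r v} h1 h2 h4 h5 => by
      refine ⟨hn.l1, mul_neg_of_neg_of_pos h1 (by positivity), gen7_mul sb b4 ⟨y, by ring⟩, cb, hB,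
        IsCoprime.mul_right ?_ (IsCoprime.mul_right ?_ (Nat.isCoprime_iff_coprime.2 cN.symm))⟩
      · obtain ⟨k, hk⟩ := h5
        exact ⟨-(4 * k), v, by linear_combination hk⟩
      · obtain ⟨k, hk⟩ := h4
        obtain ⟨i, j, e⟩ := cB.mul_left h2
        exact ⟨j - 4 * k * i, i * r, by linear_combination e + i * hk⟩
  obtain ⟨k, g, ng, hsq⟩ := Nat.sq_mul_squarefree (b * x).natAbs
  have x3 := m4 b4 x4
  have g0 : g ≠ 0 := by
    rintro rfl
    omega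
  have ng' : b * x = -(k * g ^ 2) := by
    rw [← Nat.cast_pow, ← Nat.cast_mul, mul_comm k, ng]
    omega
  have n0 : 3 < k := by
    have h1 : k ≠ 3 := fun j => n3 g (by rw [ng', j]; push_cast; ring)
    have h2 : (g ^ 2 * k) % 4 = 3 := by omega
    obtain ⟨i, rfl⟩ : Odd g := by
      by_contra h
      obtain ⟨i, rfl⟩ := Nat.not_odd_iff_even.1 h
      rw [show (i + i) ^ 2 * k = 4 * (i ^ 2 * k) by ring] at h2
      omega
    rw [show (2 * i + 1) ^ 2 * k = 4 * ((i ^ 2 + i) * k) + k by ring] at h2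
    omega
  obtain ⟨σ, hσ, ma⟩ := ma N p n f a b γ hn h3 ab a4 f2 f1 hp hd g1 g2
  have sq : ∀ {v r y : ℤ}, 4 * (N : ℤ) ∣ v ^ 2 - 1 → 4 * (N : ℤ) ∣ r ^ 2 + y →
      4 * (N : ℤ) ∣ (v * r) ^ 2 + y := fun {v r y} h1 h2 =>
    ((h1.mul_right (r ^ 2)).add h2).trans (dvd_of_eq (by ring))
  have d1 : ∀ {v : ℤ}, 4 * (N : ℤ) ∣ v ^ 2 - 1 →
      Sv N (f * b) (-(n * cnd f ^ 2)) (v * (ρ * cnd f)) := fun hv => by
    have := sd (mul_comm a b ▸ a0) cA (r := ρ) (by rwa [mul_comm b, ab, sub_neg_eq_add]) hv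
    rwa [mul_comm b, ab, neg_mul] at this
  have d2 := fun {v : ℤ} (hv : 4 * (N : ℤ) ∣ v ^ 2 - 1) => sd bx cx r2 hv
  have key : ∀ (v : ℤ) (X X' Y Y' : Finset Fm), 4 * (N : ℤ) ∣ v ^ 2 - 1 →
      FReps N (-(n * cnd f ^ 2)) (v * (ρ * cnd f)) X →
      FReps N (-(n * cnd f ^ 2)) (-(v * (ρ * cnd f))) X' →
      FReps N (b * x * cnd f ^ 2) (v * (ρ₂ * cnd f)) Y →
      FReps N (b * x * cnd f ^ 2) (-(v * (ρ₂ * cnd f))) Y' →
      zz N (f * b) (-(n * cnd f ^ 2)) (v * (ρ * cnd f)) X X' (fun z => (Gx z).re -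
        hf ℝ t (Iw (wF N (gD (f * a)) (a * x * cnd f ^ 2) (β * cnd f))) z) =
      σ * zz N (f * b) (b * x * cnd f ^ 2) (v * (ρ₂ * cnd f)) Y Y' fun z => (GV z).re -
        hf ℝ t (Iw (wF N (gD (f * a)) (a * a * cnd f ^ 2) (γ * cnd f))) z := fun v X X' Y Y' hv =>
    gk_rel aj fx fV NK ht kx.ci kV.ci kx.inv kV.inv (d1 hv) (d2 hv) hsq n0 (mul_ne_zero g0 c0)
      (by rw [ng']; push_cast; ring) (by linear_combination -(a * x * cnd f ^ 4) * ab)
      (by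
        rw [← mul_assoc v]
        exact (hg N K f b (b * x) (v * ρ₂) _ oN f2 f1 hb b4 cB (dvd_mul_right _ _) x3 NK
          (pow_two (K : ℤ) ▸ mul_dvd_mul bK xK) fun q hq j => by
            rw [eta_eq f2 f1 hA a4 hq (nd j aK), eta_eq f2 f1 hb b4 hq (nd j bK)]).2 bx)
      fun m hm j U U' hj hU hU' i => by
        obtain ⟨m0, -, m, rfl⟩ := hs2 m hm
        have := ma (x * m ^ 2) (j * (v * ρ)) (j * v * m * ρ₂) (β * m) i k (g * m) U U' hsq n0
          (mul_ne_zero g0 (right_ne_zero_of_mul m0)) (by push_cast; linear_combination m ^ 2 * ng')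
          (sq (by rcases hj with rfl | rfl <;> simp) (sq hv r1))
          ((r3.mul_left (j * v * m)).trans (dvd_of_eq (by ring))) (by
            convert hU using 1
            ring) (by convert hU' using 1 <;> push_cast <;> ring)
        convert this using 3 <;> push_cast <;> ring
  have p2 : p ≠ 2 := by
    rintro rfl
    exact Nat.not_even_iff_odd.2 oN (even_iff_two_dvd.2 hd)
  clear_value K
  obtain ⟨q, rfl⟩ := hd
  obtain ⟨y, z, yz⟩ := Nat.isCoprime_iff_coprime.2 (show p.Coprime (2 * q) from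
    Nat.Coprime.mul_right ((Nat.coprime_primes hp Nat.prime_two).2 p2)
      (Nat.coprime_of_squarefree_mul hN))
  have u1 : (p : ℤ) ∣ 2 * y * p - 1 + 1 := ⟨2 * y, by ring⟩
  have u2 : 2 * ((p * q / p : ℕ) : ℤ) ∣ 2 * y * p - 1 - 1 := by
    rw [Nat.mul_div_cancel_left _ hp.pos]
    exact ⟨-2 * z, by push_cast at yz; linear_combination 2 * yz⟩
  have u3 : 4 * ((p * q : ℕ) : ℤ) ∣ (2 * y * p - 1) ^ 2 - 1 :=
    ⟨-2 * y * z, by push_cast at yz ⊢; linear_combination 4 * y * p * yz⟩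
  generalize 2 * y * (p : ℤ) - 1 = u at u1 u2 u3
  have e1 := d1 (v := 1) (by simp)
  have e2 := d2 (v := 1) (by simp)
  have E1 := key 1 T (T.image cj) T₂ (T₂.image cj) (by simp)
  simp only [one_mul] at e1 e2 E1
  obtain ⟨X, hX⟩ := exists_freps P.N0 e1.neg (u * (ρ * cnd f))
  obtain ⟨Y, hY⟩ := exists_freps P.N0 e2.neg (u * (ρ₂ * cnd f))
  have E2 := key u _ _ _ _ u3 hX hX.cj.1 hY hY.cj.1
  rw [e1.flip fp (d1 u3) hw hp oN sg.dvd (cf.mul_left cB) u1 u2 hT hT.cj.1 hX hX.cj.1 kx.inv,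
    e2.flip fp (d2 u3) hw hp oN sg.dvd (cf.mul_left cB) u1 u2 hT₂ hT₂.cj.1 hY hY.cj.1 kV.inv,
    mul_smul_comm] at E2
  replace E2 := smul_right_injective ℝ (show kro (f * b) p ≠ 0 by
    have := (pchr_kro sb).unit (cb.of_isCoprime_of_dvd_left (Int.natCast_dvd_natCast.2 sg.dvd))
    omega) E2
  obtain ⟨j1, k1⟩ := zz_plus kx sg e1 hT hT.cj.1
  obtain ⟨j2, k2⟩ := zz_plus kV sg e2 hT₂ hT₂.cj.1
  have c1 := re_line hε ω1 (hJ ▸ e1.conj hT fun z => par_conj P) κx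
  have c2 := re_line hε ω1 (hJ ▸ e2.conj hT₂ fun z => par_conj P) κV
  obtain ⟨i1, q1⟩ := e1.unif P hT hT.cj.1
  obtain ⟨i2, q2⟩ := e2.unif P hT₂ hT₂.cj.1
  rw [E1 hT hT.cj.1 hT₂ hT₂.cj.1, E2] at k1
  generalize zz (p * q) (f * b) (-(n * cnd f ^ 2)) (ρ * cnd f) T (T.image cj) P.F = Z₁ at *
  generalize zz (p * q) (f * b) (b * x * cnd f ^ 2) (ρ₂ * cnd f) T₂ (T₂.image cj) P.F = Z₂ at *
  have h1 : (4 * (κx * Z₁).re - σ * (4 * (κV * Z₂).re) : ℝ) = (σ * j2 - j1 : ℤ) := by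
    push_cast
    linear_combination σ * k2 - k1
  have h2 : al • Z₁ - (σ * nu) • Z₂ = (σ * j2 - j1) • ω := by
    have h4 := congrArg (fun r : ℝ => (r : ℂ)) h1
    have h5 := congrArg (fun r : ℝ => (r : ℂ)) hbl
    have h6 := congrArg (fun r : ℝ => (r : ℂ)) hnu
    simp only [zsmul_eq_mul]
    push_cast at h4 h5 h6 ⊢
    linear_combination ω * h4 - Z₁ * h5 + σ * Z₂ * h6 - 4 * c1 + 4 * σ * c2
  have h4 := P.per.unif_eq_zero_iff.2 (h2 ▸ zsmul_mem ω2 _)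
  rw [map_sub, map_zsmul, map_zsmul, q1, q2] at h4
  refine ⟨σ, hσ, IsOfFinAddOrder.of_nsmul (n := 2) ?_ two_ne_zero⟩
  convert ht0.zsmul (i := σ * nu * i2 - al * i1) using 1
  rw [← sub_eq_zero, ← h4]
  module

end Pool.Agent.G7.Gk
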