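import Pool.Agent.Lib.MP_696deb_nt.B7.Z0
import Pool.Agent.Lib.MP_696deb_nt.B5.GLc

/-! Vertical lines whose denominators share primes with the level, against geodesics. -/

set_option autoImplicit false

open Filter Topology Set MeasureTheory UpperHalfPlane Metric CongruenceSubgroup NumberTheorySymbols
open scoped Real MatrixGroups

namespace Pool.Agent.G5.GL

open Pool.Agent.Lib.MP_696deb_nt Pool.Agent.B4.GE

variable {N : ℕ} {ι : Type} {J : Finset ι} {c : ι → ℤ} {w : ι → Fm → ℤ} {e : ι → ℤ} {G : ℂ → ℂ}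

/-- The class of a cusp depends only on the common part of its denominator and the level. -/
theorem exists_col (hN : Squarefree N) {k A : ℤ} (hk : IsCoprime k A) :
    ∃ u v j : ℤ, k * v - u * A = 1 ∧ A - A.gcd N * v = N * j := by
  obtain ⟨A', hA⟩ := Int.gcd_dvd_left A N
  obtain ⟨N', hN'⟩ := Int.gcd_dvd_right A N
  have h0 : (A.gcd N : ℤ) ≠ 0 := fun h => hN.ne_zero (by rw [h, zero_mul] at hN'; exact_mod_cast hN')
  have h1 : IsCoprime A' N' := ⟨A.gcdA N, A.gcdB N, mul_left_cancel₀ h0 (by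
    have := Int.gcd_eq_gcd_ab A N
    linear_combination -this - A.gcdA N * hA - A.gcdB N * hN')⟩
  have h2 : IsCoprime (A.gcd N : ℤ) N' := by
    rw [Int.isCoprime_iff_gcd_eq_one]
    refine Nat.coprime_of_squarefree_mul (m := (A.gcd N : ℤ).natAbs) (n := N'.natAbs) ?_
    rwa [← Int.natAbs_mul, ← hN', Int.natAbs_natCast]
  obtain ⟨s, r, h3⟩ := h2.mul_left h1
  obtain ⟨x, y, h4⟩ := hk
  rw [← hA] at h3
  generalize (A.gcd N : ℤ) = g at *
  exact ⟨k * (s * (A' - x)) - y, x + A * (s * (A' - x)), (A' - x) * r, by linear_combination h4,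
    by linear_combination hA - (A' - x) * r * hN' - g * (A' - x) * h3⟩

/-- The limit of the invariant function at a cusp. -/
theorem Gs.cusp_val7 (h : Gs N J c w e G) (hN : Squarefree N) {A k : ℤ} (hA : A ≠ 0)
    (hc : IsCoprime k (A.gcd N)) (hk : ∀ m ∈ J, ∀ R, w m R ≠ 0 → fval R k A ≠ 0) :
    2 * (Ld G k A 1).re - ∑ m ∈ J, (c m : ℝ) * thw (w m) k A =
      2 * (Ld G 1 (A.gcd N) 1).re - ∑ m ∈ J, (c m : ℝ) * thw (w m) 1 (A.gcd N) := by
  obtain ⟨g, k, b, A, d, hg, rfl, rfl, hd⟩ := exists_SL (a := k) (Or.inr hA)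
  replace hA := left_ne_zero_of_mul hA
  have h0 : (A * g).gcd N = A.gcd N := by
    refine Int.gcd_mul_left_left_of_gcd_eq_one (Nat.eq_one_iff_not_exists_prime_dvd.2 fun p hp l => ?_)
    have l1 : (p : ℤ) ∣ g.gcd N := Int.natCast_dvd_natCast.2 l
    have l2 := l1.trans (Int.gcd_dvd_left _ _)
    exact (Nat.prime_iff_prime_int.1 hp).not_isUnit (hc.isUnit_of_dvd' (l2.mul_left _)
      (Int.dvd_coe_gcd (l2.mul_left _) (l1.trans (Int.gcd_dvd_right _ _))))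
  rw [h0]
  obtain ⟨u, v, j, h1, h2⟩ := exists_col hN (k := k) (A := A) ⟨d, -b, by linear_combination hd⟩
  have g0 : (A.gcd N : ℤ) ≠ 0 := by
    exact_mod_cast (Int.gcd_pos_of_ne_zero_left _ hA).ne'
  generalize (A.gcd N : ℤ) = q at *
  have h3 : (k - q * u) * v - u * (N * j) = 1 := by linear_combination h1 + u * h2
  have e1 : (k - q * u) * 1 + u * q = k := by ring
  have e2 : N * j * 1 + v * q = A := by linear_combination -h2
  have h5 : ∀ m ∈ J, thw (w m) (k * g) (A * g) =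
      thw (w m) (k - q * u) (N * j) + thw (w m) 1 q := by
    intro m hm
    have h4 : ∀ R, w m R ≠ 0 → fval R 1 q ≠ 0 := by
      intro R hR
      obtain ⟨R, rfl⟩ := (fequiv h3).surjective R
      change w m (fmap R (k - q * u) u (N * j) v) ≠ 0 at hR
      change fval (fmap R (k - q * u) u (N * j) v) 1 q ≠ 0
      rw [(h.gw m hm).fmap h3] at hR
      have h4 := hk m hm R hR
      rw [show fval R (k * g) (A * g) = g ^ 2 * fval R k A by simp only [fval]; ring] at h4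
      rw [fval_fmap, e1, e2]
      exact right_ne_zero_of_mul h4
    rw [thw_scale hg.ne', ← (h.gw m hm).thw_add h3 h4, e1, e2]
  obtain ⟨L, hL⟩ := h.ci.inv !![k - q * u, u; N * j, v]
    ⟨by rw [Matrix.det_fin_two_of]; exact h3, by simp⟩
  have h6 := (h.ci.tendsto_mob h.N0 h1 hA).1
  have h7 := (h.ci.tendsto_mob h.N0 (a := 1) (b := 0) (c := q) (d := 1) (by norm_num)
    g0).1.add_const L
  have h8 : Ld G k A 1 = Ld G 1 q 1 + L := by
    have := atI_neBot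
    have h9 := tendsto_nhds_unique_of_eventuallyEq h6 h7 (ev_pos.mono fun z hz => by
      have hS : (!![1, 0; q, 1] : MZ).det = 1 := by simp [Matrix.det_fin_two_of]
      have := hL _ (act_pos (M := !![1, 0; q, 1]) (by rw [hS]; exact one_pos) hz)
      rw [← act_mul _ (by rw [hS]; exact one_ne_zero) hz, Matrix.mul_fin_two, e1, e2] at this
      simpa [act_of] using this)
    linear_combination h9
  have h9 := h.per h3 (z := Complex.I) (by simp)
  rw [← act_of, hL _ (by simp), add_sub_cancel_left] at h9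
  rw [Ld_scale G hg.ne', h8, Finset.sum_congr rfl fun m hm => by rw [h5 m hm], Complex.add_re]
  simp only [Int.cast_add, mul_add, Finset.sum_add_distrib]
  linarith

/-- The class is read off from crossing numbers. -/
theorem Gs.cross_thw7 (h : Gs N J c w e G) (hN : Squarefree N) {A : ℤ} (hA : A ≠ 0)
    {S : Finset ℤ} {χ : ℤ → ℤ} (hχ : ∑ k ∈ S, χ k = 0) (hc : ∀ k ∈ S, IsCoprime k (A.gcd N))
    (hS : ∀ k ∈ S, ∀ m ∈ J, ∀ R, w m R ≠ 0 → fval R k A ≠ 0) :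
    2 * (∑ k ∈ S, χ k * Ld G k A 1).re =
      ∑ m ∈ J, (c m : ℝ) * ∑ k ∈ S, (χ k : ℝ) * thw (w m) k A := by
  have h5 : (∑ k ∈ S, (χ k : ℝ)) = 0 := by exact_mod_cast hχ
  simp only [Finset.mul_sum]
  rw [Finset.sum_comm, Complex.re_sum, Finset.mul_sum, ← sub_eq_zero, ← Finset.sum_sub_distrib,
    Finset.sum_congr rfl (g := fun k => (χ k : ℝ) *
      (2 * (Ld G 1 (A.gcd N) 1).re - ∑ m ∈ J, (c m : ℝ) * thw (w m) 1 (A.gcd N)))
      fun k hk => ?_, ← Finset.sum_mul, h5, zero_mul]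
  rw [← h.cusp_val7 hN hA (hc k hk) (hS k hk), mul_sub, Finset.mul_sum]
  simp only [Complex.mul_re, Complex.intCast_re, Complex.intCast_im, zero_mul, sub_zero,
    mul_left_comm (χ k : ℝ)]

theorem Gs.cross7 (h : Gs N J c w e G) (hN : Squarefree N) {A : ℤ} (hA : A ≠ 0)
    {S : Finset ℤ} {χ : ℤ → ℤ} (hχ : ∑ k ∈ S, χ k = 0) (hc : ∀ k ∈ S, IsCoprime k (A.gcd N))
    (hS : ∀ k ∈ S, ∀ m ∈ J, ∀ R, w m R ≠ 0 → fval R k A ≠ 0) :
    (∑ k ∈ S, χ k * Ld G k A 1).re = ((∑ m ∈ J, c m *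
      ∑ᶠ t : ℤ, if t ^ 2 < A ^ 2 * e m then cntL A S χ (w m) t else 0 : ℤ) : ℝ) := by
  apply mul_left_cancel₀ (two_ne_zero (α := ℝ))
  rw [h.cross_thw7 hN hA hχ hc hS, Int.cast_sum, Finset.mul_sum]
  refine Finset.sum_congr rfl fun m hm => ?_
  have h1 := congrArg (Int.cast : ℤ → ℝ) ((h.gw m hm).cross χ fun k hk => hS k hk m hm)
  push_cast at h1 ⊢
  rw [← h1]
  ring

/-- Crossing numbers for one family. -/
theorem geo_cross_thw7 {w : Fm → ℤ} {e : ℤ} (hN : Squarefree N) (hw : Gw N w e) (hG : Geo N w G)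
    {A : ℤ} (hA : A ≠ 0) {S : Finset ℤ} {χ : ℤ → ℤ} (hχ : ∑ k ∈ S, χ k = 0)
    (hc : ∀ k ∈ S, IsCoprime k (A.gcd N)) (hS : ∀ k ∈ S, ∀ R, w R ≠ 0 → fval R k A ≠ 0) :
    2 * (∑ k ∈ S, χ k * Ld G k A 1).re = ∑ k ∈ S, (χ k : ℝ) * thw w k A := by
  simpa using (Gs.of_geo hN.ne_zero hw hG).cross_thw7 hN hA hχ hc fun k hk _ _ => hS k hk

theorem geo_cross7 {w : Fm → ℤ} {e : ℤ} (hN : Squarefree N) (hw : Gw N w e) (hG : Geo N w G)
    {A : ℤ} (hA : A ≠ 0) {S : Finset ℤ} {χ : ℤ → ℤ} (hχ : ∑ k ∈ S, χ k = 0)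
    (hc : ∀ k ∈ S, IsCoprime k (A.gcd N)) (hS : ∀ k ∈ S, ∀ R, w R ≠ 0 → fval R k A ≠ 0) :
    (∑ k ∈ S, χ k * Ld G k A 1).re =
      ((∑ᶠ t : ℤ, if t ^ 2 < A ^ 2 * e then cntL A S χ w t else 0 : ℤ) : ℝ) := by
  simpa using (Gs.of_geo hN.ne_zero hw hG).cross7 hN hA hχ hc fun k hk _ _ => hS k hk

theorem line_small7 (hN : Squarefree N) {k A : ℤ} (hA : 0 < A) (hk : IsCoprime k A) {σ : SL(2, ℤ)}
    (hσ : (σ : MZ) = !![1, 0; (A.gcd N : ℤ), 1]) : ∃ x : ℝ, ∃ γ ∈ Gamma0 N, ∀ y : ℝ, 0 < y →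
      vpt (k / A) y = γ • σ • vpt x ((A : ℝ) ^ 2 * y)⁻¹ := by
  obtain ⟨u, v, j, h1, h2⟩ := exists_col hN hk
  generalize (A.gcd N : ℤ) = q at *
  let g : SL(2, ℤ) := ⟨!![k - q * u, u; N * j, v], by
    rw [Matrix.det_fin_two_of]; linear_combination h1 + u * h2⟩
  have h3 : ((g * σ : SL(2, ℤ)) : MZ) = !![k, u; A, v] := by
    rw [Matrix.SpecialLinearGroup.coe_mul, hσ, Matrix.mul_fin_two,
      show (k - q * u) * 1 + u * q = k by ring, show N * j * 1 + v * q = A by linear_combination -h2]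
    simp
  refine ⟨-(v : ℤ) / A, g, ?_, fun y hy => ?_⟩
  · rw [Gamma0_mem, ZMod.intCast_zmod_eq_zero_iff_dvd]
    simp [g]
  · ext1
    rw [smul_smul, coe_smul_eq_mob, coe_vpt _ hy, coe_vpt _ (by positivity), cast_div,
      ← mob_pth h1 hA.ne' hy.ne', h3]
    simp [pth]

theorem tendsto_line7 [NeZero N] {u : ℍ → ℝ} (hu : Tame (Gamma0 N) u) (hN : Squarefree N) {A : ℤ}
    (hA : 0 < A) {S : Finset ℤ} {χ : ℤ → ℤ} (hχ : ∑ k ∈ S, χ k = 0)
    (hcop : ∀ k ∈ S, IsCoprime k A) :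
    Tendsto (fun ε => ∫ y in Ioi (0 : ℝ), (∑ k ∈ S, χ k * avg ε u (vpt (k / A) y)) / y)
      (𝓝[>] 0) (𝓝 0) := by
  obtain ⟨C, hC0, hC⟩ := hu.lip'
  obtain ⟨σ, hσ⟩ : ∃ σ : SL(2, ℤ), (σ : MZ) = !![1, 0; (A.gcd N : ℤ), 1] :=
    ⟨⟨_, by simp [Matrix.det_fin_two_of]⟩, rfl⟩
  have hχ' : ∑ k ∈ S, (χ k : ℝ) = 0 := by exact_mod_cast hχ
  have h1 : ∀ k ∈ S, ∃ B : ℝ, ∀ ε ∈ Ioc (0 : ℝ) 1, ∀ y : ℝ, 0 < y →
      |χ k * (avg ε u (vpt (k / A) y) - avg ε u (if y ≤ 1 then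
        σ • vpt 0 ((A : ℝ) ^ 2 * y)⁻¹ else vpt 0 y)) / y| ≤ B * (1 + y ^ 2)⁻¹ := by
    intro k hk
    obtain ⟨x, γ, hγ, h⟩ := line_small7 hN hA (hcop k hk) hσ
    refine ⟨|(χ k : ℝ)| * (2 * C * (|x| * A ^ 2 + |(k / A : ℝ)|)), fun ε hε y hy => ?_⟩
    rw [mul_div_assoc, abs_mul, mul_assoc, abs_div, abs_of_pos hy]
    refine mul_le_mul_of_nonneg_left ?_ (abs_nonneg _)
    rw [← div_eq_mul_inv, div_le_div_iff₀ hy (by positivity)]
    have h2 := abs_nonneg (k / A : ℝ)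
    have h3 : 0 ≤ |x| * (A : ℝ) ^ 2 := by positivity
    split_ifs with h4
    · have h5 := hC ε hε (σ • vpt x ((A : ℝ) ^ 2 * y)⁻¹) (σ • vpt 0 ((A : ℝ) ^ 2 * y)⁻¹)
      have h6 := mul_le_mul_of_nonneg_left
        (dist_vpt x (y := ((A : ℝ) ^ 2 * y)⁻¹) (by positivity)) hC0
      rw [div_inv_eq_mul, ← mul_assoc |x|] at h6
      rw [dist_smul_int] at h5
      rw [h y hy, avg_inv hu.inv _ hγ]
      refine (mul_le_mul (h5.trans h6) (show 1 + y ^ 2 ≤ 2 by nlinarith) (by positivity)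
        (by positivity)).trans ?_
      nlinarith [mul_nonneg (mul_nonneg hC0 h2) hy.le]
    · have h5 := (hC ε hε _ _).trans (mul_le_mul_of_nonneg_left (dist_vpt (k / A) hy) hC0)
      refine (mul_le_mul h5 (show 1 + y ^ 2 ≤ 2 * y * y by nlinarith) (by positivity)
        (by positivity)).trans ?_
      rw [show C * (|(k / A : ℝ)| / y) * (2 * y * y) = 2 * C * |(k / A : ℝ)| * y by field_simp]
      nlinarith [mul_nonneg (mul_nonneg hC0 h3) hy.le]
  choose! B hB using h1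
  have h2 := tendsto_integral_filter_of_dominated_convergence (μ := volume.restrict (Ioi (0 : ℝ)))
    (l := 𝓝[>] (0 : ℝ)) (F := fun ε y => (∑ k ∈ S, χ k * avg ε u (vpt (k / A) y)) / y)
    (f := fun _ => 0) (fun y => (∑ k ∈ S, B k) * (1 + y ^ 2)⁻¹) (by
      filter_upwards [self_mem_nhdsWithin] with ε hε
      exact ((Finset.measurable_fun_sum _ fun k _ => ((hu.continuous_avg hε).measurable.comp
        (measurable_vpt _)).const_mul _).div measurable_id).aestronglyMeasurable) (by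
      filter_upwards [Ioc_mem_nhdsGT one_pos] with ε hε
      refine ae_restrict_of_forall_mem measurableSet_Ioi fun y hy => ?_
      rw [Finset.sum_mul]
      refine le_trans (le_of_eq ?_) ((Finset.abs_sum_le_sum_abs _ _).trans
        (Finset.sum_le_sum fun k hk => hB k hk ε hε y hy))
      simp only [mul_sub, ← Finset.sum_div, Finset.sum_sub_distrib, ← Finset.sum_mul, hχ',
        zero_mul, sub_zero, Real.norm_eq_abs])
    (integrable_inv_one_add_sq.const_mul _).integrableOn (.of_forall fun y => by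
      simpa using (hu.tendsto_sum S (fun k => (χ k : ℝ)) (fun k => vpt (k / A) y) hχ').div_const y)
  simpa using h2

end Pool.Agent.G5.GL
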