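import Pool.Agent.Lib.MP_696deb_nt.B7.GZ7a

/-! The formula of Gross and Zagier for an arbitrary twist, from its parts. -/

set_option autoImplicit false

open Finset Filter Topology Complex NumberTheorySymbols
open scoped Classical

namespace Pool.Agent.G7

open Pool.Agent.Lib.MP_696deb_nt Pool.Agent.B4.GE Pool.Agent.Shared.Weier
open Pool.Agent.Lib.MP_696deb_nt.B3 (kro pchr_kro)
open Pool.Agent.B6.B7 (LX LKr lvQ LX_lin LKr_diff)
open Pool.Agent.G5 hiding Cx Yw Cw zs Ori CNStmt HWStmt LTStmt GLStmt LAStmt SWStmt NUStmt WPStmt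
  HTStmt GZStmt LFStmt LRStmt LQStmt zs_congr zs_aff ker_eq arch_eq log_terms Parts exists_th
  gz_core tors_of_zs HTc GZc gz_c gz_of

variable {W : WeierstrassCurve ℚ} {X : Dat} {T T' : Finset Fm} {t : HW} {F₂ : ℂ → ℂ}
  {P : Par W X.N}

/-- The parts that depend on the twist. -/
structure Parts : Prop where
  cn : CNStmt
  hw : HWStmt
  lt : LTStmt
  gl : GLStmt
  la : LAStmt
  sw : SWStmt
  nu : NUStmt
  wp : WPStmt

/-- The function attached to a projector, and its point. -/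
theorem exists_th (H₅ : G5.Parts) (H : Parts) (c : X.Ok) (hT : X.Rep X.ρ T T')
    (cp : Cp P F₂ (X.g * X.p)) (h2 : IsOfFinAddOrder (X.zs T T' fun z => P.per.unif (F₂ z)))
    (ht : t ∈ HA X.N) (pj : Prj X.N P.F F₂ t) : ∃ (n k : ℤ) (δ : ℕ) (x : ℂ) (V : ℂ → ℂ), k ≠ 0 ∧
      δ ≠ 0 ∧ Th X.N (cmb (fun m => nuW (X.Y m)) (n • ha X.η t (Finsupp.single 1 1)))
        (U1 P.L P.F x) V ∧ δ • P.per.unif x = (k * he P.a t) • X.zs T T' P.φ := by
  have N0 := c.N0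
  obtain ⟨-, u2, u3⟩ := H.nu X c
  obtain ⟨R, R', hR⟩ := c.exists_rep X.ρ'
  obtain ⟨a2, a3⟩ := u3 R R' hR
  have b1 := (u2 T T' hT).1
  obtain ⟨w, e, c₁, c₂, w1, w2, w3⟩ := cp.al
  obtain ⟨e', w4, w5⟩ := H.wp X T T' R R' w c hT hR w1
  obtain ⟨k₀, Θ, k0, g0⟩ := H₅.ex X.N _ _ N0 a2 (by
    have := (a3 ℤ fun _ => 1).trans (w5 ℤ (fun _ => 1) fun _ _ _ _ => rfl)
    simp only [Dat.zs, smul_eq_mul, mul_one, b1.deg, mul_zero] at this
    exact this)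
  obtain ⟨n, x, x₂, V, n0, t1⟩ := H₅.th X.N P.L P.F F₂ Θ _ t N0 (par_ci P) cp.ci g0 ht pj
  obtain ⟨s, r1, -, r2⟩ := H₅.ad X.N X.n _ _ t N0 c.sqf c.gt a2 (fun z hz => by
    obtain ⟨Q, hQ, rfl⟩ := mem_image.1 hz
    exact hR.cm c hQ) ht
  rw [map_smul, smul_smul] at t1
  have key : ∀ (G : ℂ → ℂ) (ε : ℤ) (y : ℂ), PerL X.N P.L G → Eig X.N P.a G →
      (∀ z : ℂ, 0 < z.im → G (act w z) = ε * G z + y) → P.per.unif (∑ z ∈ s, (((n : ℤ) * k₀) •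
        hf ℤ t (nuW (X.Y 1))) z * G z) = (n * k₀ * (he P.a t * (e' * ε))) •
        X.zs T T' fun z => P.per.unif (G z) := fun G ε y h1 h3 h4 => by
    have i : Inv0 X.N fun z => P.per.unif (G z) := fun g hg z hz =>
      P.per.unif_eq_iff.2 (h1 g hg z hz)
    have := r2 _ _ P.a i fun l hl h z hz => by
      rw [Tf_apply, ← map_sum, ← map_zsmul, ← h3 l hl h z hz, Tf_apply]
    rw [a3, w5 _ _ i, zs_congr (S' := fun z => ε • P.per.unif (G z) + P.per.unif y) c hT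
      fun z hz => by rw [h4 z hz, map_add, ← zsmul_eq_mul, map_zsmul],
      zs_aff _ _ _ b1, smul_smul, smul_smul, mul_assoc] at this
    rw [mul_smul ((n : ℤ) * k₀), ← this, smul_sum, map_sum]
    exact sum_congr rfl fun z _ => by
      rw [← zsmul_eq_mul, map_zsmul, Pi.smul_apply, smul_eq_mul, mul_smul ((n : ℤ) * k₀)]
  obtain ⟨k, δ, V', k1, d0, t2, t3⟩ := H₅.ab X.N _ P.L P.F F₂ V x x₂ _ s w e c₁ c₂ c.lsq c.gp_dvd
    (par_ci P) cp.ci P.inv cp.per (par_ne P) w1 w2 w3 (r1.smul _) t1 (by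
      obtain ⟨m, m0, hm⟩ := isOfFinAddOrder_iff_nsmul_eq_zero.1 h2
      refine ⟨m, m0, P.per.unif_eq_zero_iff.1 ?_⟩
      rw [← nsmul_eq_mul, map_nsmul, key F₂ (-e) c₂ cp.per cp.eig fun z hz => by
        rw [(w3 z hz).2, Int.cast_neg], smul_comm, hm, smul_zero])
  refine ⟨k * (n * k₀), 2 * k * (n * k₀) * (e' * e), 2 * δ, k * x, V',
    mul_ne_zero (by positivity) (mul_ne_zero (by omega) (by omega)), by omega,
    t2.congr fun z hz => ?_, ?_⟩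
  · rw [map_smul, Pi.smul_apply, ← (H.hw X c).1.hf ht
      (.single one_ne_zero (by simp) 1) hz, cmb_single, one_smul, smul_smul, Pi.smul_apply]
  · have t4 := key P.F e c₁ P.inv (par_eig P) fun z hz => (w3 z hz).1
    have t5 := P.per.unif_eq_zero_iff.2 t3
    rw [two_mul, map_add, map_sub, t4, ← nsmul_eq_mul, map_nsmul] at t5
    rw [← nsmul_eq_mul, map_nsmul]
    show _ = _ • X.zs T T' fun z => P.per.unif (P.F z)
    linear_combination (norm := module) (k : ℤ) • t5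

theorem LKr_lin {N : ℕ} {d : ℤ} {G F : ℂ → ℂ} {κ κ₂ y : ℂ} (hN : N ≠ 0) (hd : Squarefree d)
    (hF : Ci N F) (hF₂ : Ci N F₂) (h : ∀ z : ℂ, 0 < z.im → G z = κ * F z + κ₂ * F₂ z + y) (s : ℂ) :
    LKr G d s = κ * LKr F d s + κ₂ * LKr F₂ d s := LX_lin hN (cnd_ne hd) hF hF₂ h _ s

/-- The special point is torsion when the projected derivative vanishes. -/
theorem gz_core [W.IsElliptic] (H₅ : G5.Parts) (H : Parts) (ht : HTStmt)
    (hW : ∃ W' : WeierstrassCurve ℤ, W = W'.map (Int.castRingHom ℚ)) (c : X.Ok)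
    (hT : X.Rep X.ρ T T') (cp : Cp P F₂ (X.g * X.p)) (a1 : LKr P.F (X.f * X.b) 1 = 0)
    (a2 : LKr F₂ (X.f * X.b) 1 = 0) (a3 : deriv (LKr F₂ (X.f * X.b)) 1 = 0)
    (h2 : IsOfFinAddOrder (X.zs T T' fun z => P.per.unif (F₂ z)))
    (hin : ∀ M : ℕ, M ≠ 0 → ∃ l : ℕ, l.Prime ∧ ¬ l ∣ M ∧ et X.n l = -1 ∧ P.a l ≠ 0)
    {G₀ : ℂ → ℂ} (g0 : G5.Geo X.N (X.C 1) G₀)
    (hd : ∀ t ∈ HA X.N, Prj X.N P.F F₂ t → ∀ κ κ₂ y : ℂ, (∀ z : ℂ, 0 < z.im →
      hf ℂ t G₀ z = κ * P.F z + κ₂ * F₂ z + y) → κ * deriv (LKr P.F (X.f * X.b)) 1 = 0) :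
    IsOfFinAddOrder (X.zs T T' P.φ) := by
  have N0 := c.N0
  have n0 := c.n0
  have c0 := c.c0
  have la1 := fun G (h : Ci X.N G) => LKr_diff h N0 c.sb
  obtain ⟨ε, ε1, cn⟩ := H.cn X c
  have ay : X.zs T T' P.φ ∈ Alg W := sum_mem fun Q hQ => zsmul_mem
    (H₅.ag W X.N _ P _ (Nat.pos_of_ne_zero n0) (hT.cm c hQ)) _
  refine isOfFinAddOrder_of_hpair ay (eq_zero_of_mem_LogS fun l hl => ?_)
  obtain ⟨l₀, h0, d0, i0, v0⟩ := hin (2 * (X.N * l * X.c)) (by have := hl.ne_zero; positivity)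
  have dM : ¬ l₀ ∣ X.N * l * X.c := fun e => d0 (e.mul_left 2)
  have dN : ¬ l₀ ∣ X.N := fun e => dM ((e.mul_right l).mul_right _)
  have ne : l ≠ l₀ := fun e => dM (e ▸ (dvd_mul_left l X.N).mul_right _)
  obtain ⟨t₀, t1, t2, t3⟩ := cp.prj (l * l₀ * X.c)
    (mul_ne_zero (mul_ne_zero hl.ne_zero h0.ne_zero) c0)
  obtain ⟨S, hS⟩ : ∃ S : Finset ℕ, ∀ r, r ∈ S ↔ r.Prime ∧ r ∣ X.c ∧ ¬ r ∣ X.N * l :=
    ⟨X.c.primeFactors.filter fun r => ¬ r ∣ X.N * l, fun r => by simp [c0, and_assoc]⟩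
  have s0 : ∀ r ∈ S, ¬ r ∣ X.N * l * l₀ := fun r hr e => by
    obtain ⟨r1, r2, r3⟩ := (hS r).1 hr
    exact (r1.dvd_mul.1 e).elim r3 fun e =>
      dM ((Nat.prime_dvd_prime_iff_eq r1 h0).1 e ▸ r2.mul_left _)
  obtain ⟨u₀, u1, u2, u3⟩ := exists_push (M := X.N * l * l₀) (η := X.η) P.a S fun r hr =>
    ⟨((hS r).1 hr).1, s0 r hr, c.η_zero ((hS r).1 hr).1 ((hS r).1 hr).2.1⟩
  have u4 : u₀ ∈ HA X.N := HA_mono ((dvd_mul_right _ _).mul_right _) u1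
  have t4 : t₀ * u₀ ∈ HA X.N := mul_mem (HA_mono (dvd_mul_right _ _) t1) u4
  have t5 : Prj X.N P.F F₂ (t₀ * u₀) := fun G hG => hf_mul t₀ u₀ G ▸ t3 _ (hG.hf N0 u4)
  have t6 : he P.a (t₀ * u₀) ≠ 0 := by rw [map_mul]; exact mul_ne_zero t2 u2
  obtain ⟨K, K1, K2, K3⟩ : ∃ K : ℕ, K ∣ X.c ∧ (∀ r ∈ S, r ∣ K) ∧
      Sd (X.N * l * l₀) K (ha X.η (t₀ * u₀) (Finsupp.single 1 1)) := by
    have k : ∏ r ∈ S, r ∣ X.c := Finset.prod_primes_dvd _ (fun r hr => ((hS r).1 hr).1.prime)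
      fun r hr => ((hS r).1 hr).2.1
    refine ⟨∏ r ∈ S, r, k, fun r hr => dvd_prod_of_mem _ hr, ?_⟩
    rw [ha_mul, u3]
    refine (Sd.single (prod_ne_zero_iff.2 fun r hr => pow_ne_zero 2 ((hS r).1 hr).1.ne_zero)
      (Nat.Coprime.prod_left fun r hr => (((hS r).1 hr).1.coprime_iff_not_dvd.2
        (s0 r hr)).pow_left 2) (prod_dvd_prod_of_dvd _ _ fun r _ => dvd_pow_self r two_ne_zero)
      1).ha (HA_mono ?_ t1)
    rw [← mul_assoc, ← mul_assoc]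
    exact mul_dvd_mul_left _ k
  generalize t₀ * u₀ = t at t4 t5 t6 K3
  obtain ⟨n, k, δ, x, V, k0, δ0, e1, e2⟩ := exists_th H₅ H c hT cp h2 t4 t5
  have sb := K3.smul n
  have ax : P.per.unif x ∈ Alg W := alg_of_smul P.per δ0 (e2 ▸ zsmul_mem ay _)
  have pF : ∀ z : ℂ, 0 < z.im → P.F (z + 1) = P.F z := fun z hz => by
    simpa using P.qe.periodic 1 hz
  have arch : ∀ j, Xl l j ∈ HA X.N → (∀ m ∈ (ha X.η (tl l₀ * Xl l j)
      (n • ha X.η t (Finsupp.single 1 1))).support, X.Adm m) →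
      hpair (X.zs T T' (hsum (l₀ * l ^ j) P.φ)) (P.per.unif x) -
        2 * X.zs T T' (hsum (l₀ * l ^ j) (gT (U1 P.L P.F x) V)) =
      he P.a (Xl l j) * (P.a l₀ * hpair (X.zs T T' P.φ) (P.per.unif x)) + (2 * -ε : ℤ) * cmb X.lg
          (ha X.η (tl l₀ * Xl l j) (n • ha X.η t (Finsupp.single 1 1))) := fun j hj sa => by
    have hu := mul_mem (tl_mem h0 dN) hj
    have pj := t5.mul (par_eig P) cp.eig hu
    obtain ⟨κ, κ₂, y, e⟩ := pj G₀ g0.ci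
    have e3 := LKr_lin (G := fun z => n * hf ℂ (tl l₀ * Xl l j * t) G₀ z) (κ := n * κ)
      (κ₂ := n * κ₂) (y := n * y) N0 c.sb (par_ci P) cp.ci fun z hz => by rw [e z hz]; ring
    have e4 := arch_eq cn H.hw H₅.gr H₅.pp H.gl H.sw H.nu c hT (par_ci P) g0 t4 hu rfl sa e1 rfl
      (by rw [e3, a1, a2, mul_zero, mul_zero, add_zero])
    rw [funext e3, ((((la1 _ (par_ci P)) 1).hasDerivAt.const_mul _).fun_add
      (((la1 _ cp.ci) 1).hasDerivAt.const_mul _)).deriv, a3, mul_assoc (n : ℂ),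
      hd _ (mul_mem hu t4) pj κ κ₂ y e] at e4
    rw [zs_congr c hT fun z hz => (hf_tl_Xl (gT_per e1 pF) hl h0 ne j hz).symm, e4,
      zs_congr (S' := fun z => he P.a (tl l₀ * Xl l j) • P.φ z + 0) c hT fun z hz => by
        rw [← hf_tl_Xl (fun z hz => inv0_per P.inv0 hz) hl h0 ne j hz,
          (par_eig_φ P).hf hu hz, add_zero], zs_aff _ _ _ ((H.nu X c).2.1 T T' hT).1]
    have e5 := congrArg (· ⟨_, ax⟩) (map_zsmul hbil (he P.a (tl l₀ * Xl l j)) ⟨_, ay⟩)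
    simp only [AddMonoidHom.zsmul_apply, hbil_apply, AddSubgroupClass.coe_zsmul, zsmul_eq_mul] at e5
    rw [e5, map_mul, he_tl]
    simp
    ring
  obtain ⟨s1, s2⟩ := ht W X P hW T T' l l₀ _ x V c hT hl h0 ne
    (fun e => d0 (e ▸ dvd_mul_right _ _)) i0 sb.sup e1 ax
  have kK : ∀ r : ℕ, r.Prime → r ∣ X.c → ¬ r ∣ X.N → r ≠ l → r ∣ K := fun r r1 r2 r3 r4 =>
    K2 r ((hS r).2 ⟨r1, r2, fun e => (r1.dvd_mul.1 e).elim r3 fun e =>
      r4 ((Nat.prime_dvd_prime_iff_eq r1 hl).1 e)⟩)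
  have dK : ¬ l₀ ∣ X.N * l * K := fun e => dM (e.trans (mul_dvd_mul_left _ K1))
  have fin : P.a l₀ * hpair (X.zs T T' P.φ) (P.per.unif x) ∈ LogS l := by
    by_cases h : et X.n l = 1 ∧ (l ∣ X.c → l ∣ X.N)
    · have sa := (sb.mono (dvd_mul_right _ _)).ha (η := X.η) (tl_mem h0 dK)
      have ad : ∀ m ∈ (ha X.η (tl l₀) (n • ha X.η t (Finsupp.single 1 1))).support, X.Adm m :=
        fun m hm => ⟨(sa m hm).1, (sa m hm).2.1.coprime_mul_right_right, fun r r1 r2 r3 =>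
          (kK r r1 r2 r3 fun e => r3 (e ▸ h.2 (e ▸ r2))).trans (sa m hm).2.2⟩
      have := arch 0 (one_mem _) (by simpa only [Xl, mul_one] using ad)
      have k1 := s1 h.1 0 fun _ => rfl
      rw [this] at k1
      simp only [Xl, mul_one, map_one, Int.cast_one, one_mul] at k1
      convert sub_mem k1 (LogS.int_mul (2 * -ε) (log_mem H.lt c hl fun m hm =>
        ⟨ad m hm, fun _ => ⟨(sa m hm).2.1.coprime_mul_left_right, h.1⟩⟩)) using 1
      exact (add_sub_cancel_right _ _).symm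
    have lN : ¬ l ∣ X.N := fun e => h ⟨c.toGood.et c.root e, fun _ => e⟩
    obtain ⟨C, i, hC⟩ : ∃ (C : ℚ) (k : ℕ), ∀ j : ℕ, ∃ r : ℚ, |r| ≤ C * (j + 1) ^ k ∧
        hpair (X.zs T T' (hsum (l₀ * l ^ j) P.φ)) (P.per.unif x) - 2 * X.zs T T'
          (hsum (l₀ * l ^ j) (gT (U1 P.L P.F x) V)) - r * Real.log l ∈ LogS l := by
      by_cases e : et X.n l = 1
      · exact ⟨0, 0, fun j => ⟨0, by simp, by simpa using s1 e j fun k => absurd k lN⟩⟩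
      · exact s2 e
    have ad : ∀ j, j ≠ 0 → ∀ m ∈ (ha X.η (tl l₀ * Xl l j)
        (n • ha X.η t (Finsupp.single 1 1))).support, X.Adm m := fun j hj m hm => by
      rw [ha_mul] at hm
      by_cases e : l ∣ X.c
      · have sa := ((sb.mono (dvd_mul_right _ _)).Xl hl lN (c.η_zero hl e) hj).ha (η := X.η)
          (tl_mem h0 (by rwa [mul_comm K, ← mul_assoc])) m hm
        refine ⟨sa.1, sa.2.1, fun r r1 r2 r3 => Dvd.dvd.trans ?_ sa.2.2⟩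
        rcases eq_or_ne r l with rfl | k
        exacts [dvd_mul_left _ _, (kK r r1 r2 r3 k).mul_right _]
      · have sa := ((sb.mono ((dvd_mul_right _ _).mul_right _)).ha (η := X.η) (Xl_mem hl
          (fun k => (hl.dvd_mul.1 k).elim lN fun k => e (k.trans K1)) j)).ha (η := X.η)
          (tl_mem h0 fun k => dK (k.trans (mul_dvd_mul_right (dvd_mul_right _ _) _))) m hm
        exact ⟨sa.1, sa.2.1, fun r r1 r2 r3 => (kK r r1 r2 r3 fun k => e (k ▸ r2)).trans sa.2.2⟩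
    obtain ⟨C', hC'⟩ : ∃ C : ℚ, ∀ j : ℕ, j ≠ 0 → ∃ σ : ℚ, |σ| ≤ C * (j + 1) ^ 3 ∧ cmb X.lg (ha X.η
        (tl l₀ * Xl l j) (n • ha X.η t (Finsupp.single 1 1))) - σ * Real.log l ∈ LogS l := by
      by_cases e : l ∣ X.c
      · exact ⟨0, fun j hj => ⟨0, by simp, by
          simpa using log_mem H.lt c hl fun m hm => ⟨ad j hj m hm, fun k => absurd e k⟩⟩⟩
      · exact (log_terms H.lt c hl h0 ne dN e (fun k => h ⟨k, fun k => absurd k e⟩)
          (fun r r1 r2 r3 => kK r r1 r2 r3 fun k => e (k ▸ r2)) sb).imp fun _ k j _ => k j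
    refine mem_of_growth' (a := P.a) (C := |C| + 2 * |C'|) (k := i + 3) hl fun j hj => ?_
    obtain ⟨r, r1, r2⟩ := hC j
    obtain ⟨σ, r3, r4⟩ := hC' j hj
    refine ⟨r - (2 * -ε : ℤ) * σ, ?_, ?_⟩
    · have j1 : (1 : ℚ) ≤ j + 1 := by simp
      have j2 : |((2 * -ε : ℤ) : ℚ)| ≤ 2 := by rcases ε1 with e | e <;> simp [e]
      refine (abs_sub _ _).trans ?_
      rw [abs_mul, add_mul, mul_assoc]
      refine add_le_add (r1.trans ?_) (mul_le_mul j2 (r3.trans ?_) (abs_nonneg _) zero_le_two)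
      all_goals
        exact mul_le_mul (le_abs_self _) (pow_le_pow_right₀ j1 (by omega)) (by positivity)
          (abs_nonneg _)
    · rw [arch j (Xl_mem hl lN j) (ad j hj)] at r2
      convert sub_mem r2 (LogS.int_mul (2 * -ε) r4) using 1
      push_cast
      ring
  have e6 := congrArg (hbil ⟨_, ay⟩) (show δ • (⟨_, ax⟩ : Alg W) = (k * he P.a t) • ⟨_, ay⟩ from
    Subtype.ext e2)
  simp only [map_nsmul, map_zsmul, hbil_apply, nsmul_eq_mul, zsmul_eq_mul] at e6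
  have z0 : ((P.a l₀ * (k * he P.a t) : ℤ) : ℝ) ≠ 0 := by
    exact_mod_cast mul_ne_zero v0 (mul_ne_zero k0 t6)
  convert LogS.rat_mul (δ / (P.a l₀ * (k * he P.a t) : ℤ)) fin using 1
  rw [Rat.cast_div, Rat.cast_intCast, div_mul_eq_mul_div, eq_div_iff z0, Int.cast_mul,
    Rat.cast_natCast, mul_left_comm (δ : ℝ), e6]
  ring

/-- The formula for one parametrization. -/
theorem gz_c [W.IsElliptic] (H₅ : G5.Parts) (H : Parts) (ht : HTStmt)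
    (hW : ∃ W' : WeierstrassCurve ℤ, W = W'.map (Int.castRingHom ℚ)) (c : X.Ok)
    (hT : X.Rep X.ρ T T') (cp : Cp P F₂ (X.g * X.p)) {y : ℂ} (h0 : IsOfFinAddOrder (P.per.unif y))
    (al : Ale X.N (lvQ X.N X.f) X.s P.F y) (a0 : LKr F₂ (X.f * X.a) 1 = 0)
    (a2 : LKr F₂ (X.f * X.b) 1 = 0) (a3 : deriv (LKr F₂ (X.f * X.b)) 1 = 0)
    (h2 : IsOfFinAddOrder (X.zs T T' fun z => P.per.unif (F₂ z)))
    (hin : ∀ M : ℕ, M ≠ 0 → ∃ l : ℕ, l.Prime ∧ ¬ l ∣ M ∧ et X.n l = -1 ∧ P.a l ≠ 0)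
    (hy : ¬ IsOfFinAddOrder (yD P.φ (X.f * X.b) T)) :
    LKr P.F (X.f * X.a) 1 ≠ 0 ∧ deriv (LKr P.F (X.f * X.b)) 1 ≠ 0 := by
  have la1 := fun G (h : Ci X.N G) => LKr_diff h c.N0 c.sb
  have a1 : LKr P.F (X.f * X.b) 1 = 0 := H.la X.N _ _ _ P.F y X.s c.lsq (pchr_kro c.sb)
    B6.B7.lvQ_dvd (Nat.Coprime.prod_left fun p hp =>
      (B6.B7.lvS_prime hp).coprime_iff_not_dvd.2 fun e => by
        have k := Nat.dvd_of_mem_primeFactors (mem_filter.1 hp).1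
        exact ((Nat.prime_iff_prime_int.1 (B6.B7.lvS_prime hp)).dvd_or_dvd
          ((B3.odd_dvd_cond c.sb (c.lodd.of_dvd_nat k)).1 e)).elim (mem_filter.1 hp).2 fun e =>
            (Nat.prime_iff_prime_int.1 (B6.B7.lvS_prime hp)).not_isUnit
              ((c.cop_of_dvd c.b_dvd).isUnit_of_dvd' e (Int.natCast_dvd_natCast.2 k)))
    (by
      conv_lhs => rw [← c.g_mul, mul_comm]
      exact mul_dvd_mul_left _ ((c.g_dvd_c.mul_right _).trans c.cb.symm.dvd)) (par_ci P) al c.jac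
  obtain ⟨G₀, g0, g1⟩ := (H.sw X c).2
  have key := fun hd => hy (by
    obtain ⟨w, w1, w2⟩ := al
    obtain ⟨k, e⟩ := ((H.nu X c).2.1 T T' hT).2 _ P.φ (P.per.unif y) P.inv0 ⟨w, w1, fun z hz => by
      rw [Par.φ, Par.φ, w2 z hz, map_add, map_zsmul]⟩
    refine (isOfFinAddOrder_nsmul (n := 2).1 ?_).resolve_right two_ne_zero
    rw [eq_sub_of_add_eq e.symm, sub_eq_add_neg]
    exact (gz_core H₅ H ht hW c hT cp a1 a2 a3 h2 hin g0 hd).add h0.zsmul.neg)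
  refine ⟨fun h => key fun t t1 t2 κ κ₂ y e => ?_,
    fun h => key fun _ _ _ _ _ _ _ => by rw [h, mul_zero]⟩
  obtain ⟨x, hx⟩ := g1 P.F F₂ t (par_ci P) cp.ci t1 t2 h a0
  have e1 := LKr_lin c.N0 c.sb (par_ci P) cp.ci e
  have e2 := LKr_lin (G := hf ℂ t G₀) (κ := 0) (κ₂ := 0) (y := x) c.N0 c.sb (par_ci P) cp.ci
    fun z hz => by simp [hx z hz]
  have e3 := (((la1 _ (par_ci P)) 1).hasDerivAt.const_mul κ).fun_add
    (((la1 _ cp.ci) 1).hasDerivAt.const_mul κ₂)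
  rw [← funext e1, funext e2] at e3
  simpa [a3] using e3.deriv.symm

end Pool.Agent.G7
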