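import Pool.Agent.Lib.MP_696deb_nt.B7.Z1
import Pool.Agent.Lib.MP_696deb_nt.B5.HTz

/-! The inner statements of the height block for an arbitrary twist. -/

set_option autoImplicit false

open Finset NumberTheorySymbols
open scoped Classical

namespace Pool.Agent.G7

open Pool.Agent.Lib.MP_696deb_nt Pool.Agent.B4.GE Pool.Agent.Shared.Weier
open Pool.Agent.G5 hiding Cx Yw Cw zs Ori CNStmt HWStmt LTStmt GLStmt LAStmt SWStmt NUStmt WPStmt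
  HTStmt GZStmt LFStmt LRStmt LQStmt GPStmt LCStmt NSStmt ARStmt

/-- The places above a split prime. -/
def LCStmt : Prop := ∀ (W : WeierstrassCurve ℚ) [W.IsElliptic] (X : Dat) (P : Par W X.N)
  (T T' : Finset Fm) (l l₀ j : ℕ) (a : ℕ →₀ ℤ) (u : ℂ) (V : ℂ → ℂ) (v : AbsoluteValue ℂ ℝ),
  X.Ok → X.Rep X.ρ T T' → l.Prime → l₀.Prime → l ≠ l₀ → l₀ ≠ 2 → et X.n l₀ = -1 →
  Sup (X.N * l * l₀) a → Th X.N (cmb (fun m => nuW (X.Y m)) a) (U1 P.L P.F u) V →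
  B5.IntW v (W.baseChange ℂ) → v l < 1 → et X.n l = 1 → (l ∣ X.N → j = 0) →
  X.zs T T' (hsum (l₀ * l ^ j) (gv v P u V)) = 0

/-- The places above a prime that does not split. -/
def NSStmt : Prop := ∀ (W : WeierstrassCurve ℚ) [W.IsElliptic] (X : Dat) (P : Par W X.N)
  (T T' : Finset Fm) (l l₀ : ℕ) (a : ℕ →₀ ℤ) (u : ℂ) (V : ℂ → ℂ),
  X.Ok → X.Rep X.ρ T T' → l.Prime → l₀.Prime → l ≠ l₀ → l₀ ≠ 2 → et X.n l₀ = -1 →
  Sup (X.N * l * l₀) a → Th X.N (cmb (fun m => nuW (X.Y m)) a) (U1 P.L P.F u) V →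
  et X.n l ≠ 1 → ∃ (C : ℝ) (k : ℕ), ∀ (v : AbsoluteValue ℂ ℝ) (j : ℕ),
    B5.IntW v (W.baseChange ℂ) → v l < 1 →
    |X.zs T T' (hsum (l₀ * l ^ j) (gv v P u V))| ≤ C * (j + 1) ^ k * -Real.log (v l)

end Pool.Agent.G7
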