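import Pool.Agent.Lib.MP_696deb_nt.B5.NSb

/-! Congruences between supersingular points of arbitrary conductor. -/

set_option autoImplicit false

open Complex Finset NumberTheorySymbols
open scoped Real Classical NNReal
open Pool.Agent.Lib.MP_696deb_nt Pool.Agent.Lib.MP_696deb_nt.B2.CM Pool.Agent.Lib.MP_696deb_nt.Unif

namespace Pool.Agent.G7

open Pool.Agent.Dih hiding hsum hsum_eq
open Pool.Agent.G5 (NS0 ns0_of_jac val_ph_ram0 fpi_form fpi_swap fpi_inert fpi_prim hpt_im)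

variable {n m P e i : ℕ} {D D' : ℤ} {Q R : Fm} {τ τ' : ℂ} {t : (_ : ℕ × ℕ) × ℕ}

/-- The prime does not split and does not divide the conductor of the discriminant. -/
structure NS1 (P : ℕ) (D : ℤ) : Prop where
  ns : NS0 P D
  m4 : D % 4 = 0 ∨ D % 4 = 1
  sq : ¬ (P : ℤ) ^ 2 ∣ D

theorem mod4_mul (h : D % 4 = 0 ∨ D % 4 = 1) (x : ℤ) : D * x ^ 2 % 4 = 0 ∨ D * x ^ 2 % 4 = 1 := by
  obtain ⟨t, rfl | rfl⟩ := Int.even_or_odd' x
  · rw [show D * (2 * t) ^ 2 = 4 * (D * t ^ 2) by ring]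
    omega
  · rw [show D * (2 * t + 1) ^ 2 = 4 * (D * (t ^ 2 + t)) + D by ring]
    omega

theorem ns1_of_jac (hn : Squarefree n) (h4 : n % 4 = 3) (hP : P.Prime) (hJ : J((P : ℤ) | n) ≠ 1)
    (hm : ¬ P ∣ m) : NS1 P (-n * m ^ 2) := by
  have hp := Nat.prime_iff_prime_int.1 hP
  refine ⟨ns0_of_jac hn h4 hP hJ hm, mod4_mul (by omega) _, fun k => ?_⟩
  have := hp.pow_dvd_of_dvd_mul_right 2 (b := (m : ℤ) ^ 2)
    (fun k => hm (Int.natCast_dvd_natCast.1 (hp.dvd_of_dvd_pow k))) k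
  exact hP.prime.not_isUnit (hn P (by rw [← _root_.sq]; exact_mod_cast dvd_neg.1 this))

theorem NS1.neg (h : NS1 P D) (hP : P.Prime) (i : ℕ) : D * P ^ (2 * i) < 0 :=
  mul_neg_of_neg_of_pos h.ns.1 (pow_pos (Int.natCast_pos.2 hP.pos) _)

section
variable {Γ : Type*} [LinearOrderedCommGroupWithZero Γ] {V : Valuation ℂ Γ}

theorem val_fwd (hP : P.Prime) (hV : V P < 1) (hτ : 0 < τ.im) (h : Rt Q τ)
    (hD : fdisc Q < 0) {i k : Option (Fin P)} (hi : ∀ l, (P : ℤ) ∣ Dih.ev P Q l ↔ l = i)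
    (hk : ¬ (P : ℤ) ∣ Dih.ev P Q k) : V (ph P i τ) * V (ph P k τ) ^ P = V P ^ 12 := by
  rw [← val_ph_mul hP hτ ((h.isCM hτ hD).val_jf V) i, map_prod,
    Finset.prod_congr rfl (g := fun _ => V (ph P k τ)) fun l hl => val_ph_eq hP hV hτ h hD
      (fun e => Finset.ne_of_mem_erase hl ((hi l).mp e)) hk, Finset.prod_const,
    Finset.card_erase_of_mem (Finset.mem_univ i)]
  simp

theorem NS1.edge (h : NS1 P D) (hP : P.Prime) (hV : V P < 1) : ∃ N : ℕ, 3 ≤ N ∧ N ≤ 2 * P ∧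
    ∀ (i : ℕ) (Q : Fm) (τ : ℂ), 0 < τ.im → Rt Q τ → fdisc Q = D * P ^ (2 * i) → Prm P Q →
      ∀ k, ¬ (P : ℤ) ∣ Dih.ev P Q k → V (ph P k τ) ^ (N * P ^ i) = V P ^ 12 := by
  have hV0 : V P ^ 12 ≠ 0 := pow_ne_zero _ (V.ne_zero_iff.mpr (by exact_mod_cast hP.ne_zero))
  obtain ⟨N, hN, hN', h0⟩ : ∃ N : ℕ, 3 ≤ N ∧ N ≤ 2 * P ∧ ∀ (Q : Fm) (τ : ℂ), 0 < τ.im → Rt Q τ →
      fdisc Q = D → Prm P Q → ∀ k, ¬ (P : ℤ) ∣ Dih.ev P Q k → V (ph P k τ) ^ N = V P ^ 12 := by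
    have h2 := hP.two_le
    obtain ⟨d0, h | ⟨d1, d2⟩⟩ := h.ns
    · refine ⟨P + 1, by omega, by omega, ?_⟩
      rintro Q τ hτ hQ rfl - k hk
      rw [← val_prod_ph hP hτ ((hQ.isCM hτ d0).val_jf V), map_prod,
        Finset.prod_congr rfl (g := fun _ => V (ph P k τ)) fun l _ =>
          val_ph_eq hP hV hτ hQ d0 (not_dvd_ev h l) hk, Finset.prod_const]
      simp
    · refine ⟨P * 2, by omega, by omega, ?_⟩
      rintro Q τ hτ hQ rfl hq k hk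
      obtain ⟨i, hi⟩ := exists_back hP hq d1
      have e1 := val_fwd hP hV hτ hQ d0 hi hk
      have e2 := val_ph_ram0 hP hV hτ hQ d0 d1 d2 ((hi i).mpr rfl)
      refine mul_left_cancel₀ hV0 ?_
      rw [pow_mul]
      nth_rewrite 1 [← e2]
      rw [← mul_pow, e1, _root_.sq]
  refine ⟨N, hN, hN', fun i => ?_⟩
  induction i with
  | zero =>
    intro Q τ hτ hQ hD hq k hk
    simpa using h0 Q τ hτ hQ (by simpa using hD) hq k hk
  | succ i ih =>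
    intro Q τ hτ hQ hD hq k hk
    have hD0 : fdisc Q < 0 := hD ▸ h.neg hP _
    have hD2 : fdisc Q = D * P ^ (2 * i) * P ^ 2 := by rw [hD]; ring
    obtain ⟨j, hj⟩ := exists_back hP hq ⟨D * P ^ (2 * i) * P, by rw [hD2]; ring⟩
    obtain ⟨R, l, r1, r2, r3, r4, r5⟩ := exists_down hP hτ hQ hq hD2
      (pow_mul' (P : ℤ) 2 i ▸ mod4_mul h.m4 _) ((hj j).mpr rfl)
    have e1 := val_fwd hP hV hτ hQ hD0 hj hk
    have e2 := congr_arg V r5
    rw [map_mul, map_pow, ← e1, mul_comm] at e2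
    have e3 := mul_left_cancel₀ (V.ne_zero_iff.mpr (phi_ne (rP_pos hP j) hτ)) e2
    rw [← ih R _ (act_pos (rP_pos hP j) hτ) r1 r2 r3 l r4, e3, ← pow_mul]
    congr 1
    ring

theorem NS1.hasse_succ (h : NS1 P D) (hP : P.Prime) (hV : V P < 1)
    (hτ : Dp P (D * P ^ (2 * (i + 1))) τ) :
    V P ^ 4 ≤ V (hasse P τ) ^ P ^ i ∧ V (hasse P τ) ^ (2 * P ^ (i + 1)) ≤ V P ^ 12 := by
  have hj := (hτ.fpg_isCM (h.neg hP _)).val_jf V
  obtain ⟨h0, Q, h1, h2, h3⟩ := hτ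
  obtain ⟨N, hN, hN', he⟩ := h.edge hP hV
  obtain ⟨i₀, hi⟩ := exists_back hP h3 (h2 ▸ (dvd_pow_self _ (by omega)).mul_left _)
  have : Nonempty (Fin P) := ⟨⟨0, hP.pos⟩⟩
  obtain ⟨k₀, hk⟩ := exists_ne i₀
  have hx := he (i + 1) Q τ h0 h1 h2 h3 k₀ fun e => hk ((hi _).1 e)
  have hall : ∀ k, k ≠ i₀ → V (ph P k τ) = V (ph P k₀ τ) := fun k e =>
    val_ph_eq hP hV h0 h1 (h2 ▸ h.neg hP _) (fun e' => e ((hi _).1 e')) fun e => hk ((hi _).1 e)
  generalize V (ph P k₀ τ) = x at hx hall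
  have hπ := fpg_pos (V := V) hP
  have hle : P ≤ P ^ (i + 1) := Nat.le_self_pow (by omega) P
  have hlt : P + 1 < N * P ^ (i + 1) := by
    have := hP.two_le
    have := Nat.mul_le_mul hN hle
    omega
  have x0 : 0 < x := zero_lt_iff.2 fun e => by
    rw [e, zero_pow (by omega)] at hx
    exact (pow_pos hπ 12).ne hx
  have x1 : x < 1 := not_le.1 fun e =>
    ((one_le_pow₀ e).trans_eq hx).not_gt (pow_lt_one₀ zero_le hV (by norm_num))
  have t0 : V (1 * ∏ k ∈ univ.erase i₀, ph P k τ) = x ^ P := by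
    rw [one_mul, map_prod, prod_congr rfl fun k hk => hall k (ne_of_mem_erase hk), prod_const,
      card_erase_of_mem (mem_univ _), card_univ, Fintype.card_option, Fintype.card_fin,
      Nat.add_sub_cancel]
  have hh : V (hasse P τ) = x ^ P := by
    rw [hasse, sp, ← add_sum_erase _ _ (mem_univ i₀), ← t0]
    refine V.map_add_eq_of_lt_left (V.map_sum_lt (t0 ▸ (pow_pos x0 P).ne') fun k hk => ?_)
    have h4 := val_ph_mul hP h0 hj k
    rw [hall k (ne_of_mem_erase hk), ← hx] at h4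
    rw [t0, one_mul, ← mul_lt_mul_iff_right₀ x0, h4, ← pow_succ']
    exact pow_lt_pow_right_of_lt_one₀ x0 x1 hlt
  constructor
  · rw [hh, ← pow_mul, ← pow_succ', ← pow_le_pow_iff_left₀ zero_le zero_le three_ne_zero, ← pow_mul,
      ← hx, mul_comm N, pow_mul]
    exact pow_le_pow_of_le_one zero_le (pow_le_one₀ zero_le x1.le) hN
  · rw [hh, ← pow_mul, ← hx, ← mul_assoc, mul_comm P]
    exact pow_le_pow_of_le_one zero_le x1.le (Nat.mul_le_mul_right _ hN')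

theorem NS1.hasse_le (h : NS1 P D) (hP : P.Prime) (hV : V P < 1)
    (hτ : Dp P (D * P ^ (2 * e)) τ) : V (hasse P τ) ^ (2 * P ^ e) ≤ V P ^ 12 := by
  rcases e with _ | e
  swap
  · exact (h.hasse_succ hP hV hτ).2
  rw [mul_zero, pow_zero, mul_one] at hτ
  have h0 : V (hasse P τ) ≤ V P ^ 6 := by
    rw [hasse, sp]
    refine V.map_sum_le fun i _ => ?_
    have h1 := val_ph_mul hP hτ.1 ((hτ.fpg_isCM h.ns.1).val_jf V) i
    have h2 : V P ^ 6 ≤ V (ph P i τ) := by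
      rw [← pow_le_pow_iff_left₀ zero_le zero_le two_ne_zero, ← pow_mul]
      exact h.ns.edge hP hV hτ i
    rw [one_mul, ← mul_le_mul_iff_right₀ (pow_pos (fpg_pos (V := V) hP) 6), ← pow_add, ← h1]
    exact mul_le_mul_left h2 _
  exact (pow_le_pow_left₀ zero_le h0 _).trans_eq (by rw [← pow_mul, pow_zero]; rfl)

theorem NS1.near_succ (h : NS1 P D) (h' : NS1 P D') (hP : P.Prime) (hV : V P < 1) (hi : e < i)
    (hτ : Dp P (D * P ^ (2 * e)) τ) (hτ' : Dp P (D' * P ^ (2 * (i + 1))) τ') :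
    V P ^ 4 ≤ V (jf τ - jf τ') ^ P ^ i := by
  have h0 := h.hasse_le hP hV hτ
  have h1 := (h'.hasse_succ hP hV hτ').1
  have h2 : V (hasse P τ - hasse P τ') ≤ V (jf τ - jf τ') :=
    LE.val_sub_le hP.ne_zero (LE.congr (sp (fun _ => 1) (Ph V hP)).2 fun z _ => by
      rw [← evz_apply, map_sp]; rfl) (inv1_hasse hP) hτ.1 hτ'.1
      ((hτ.fpg_isCM (h.neg hP _)).val_jf V) ((hτ'.fpg_isCM (h'.neg hP _)).val_jf V)
  have h3 : V (hasse P τ) < V (hasse P τ') := not_le.1 fun k => by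
    have h4 := pow_le_pow_left₀ zero_le k (P ^ i)
    have h6 : V (hasse P τ) ≤ 1 := (pow_le_one_iff_of_nonneg zero_le
      (mul_ne_zero two_ne_zero (pow_ne_zero _ hP.ne_zero))).1
      (h0.trans (pow_le_one₀ zero_le hV.le))
    have h5 := pow_le_pow_of_le_one zero_le h6 (show 2 * P ^ e ≤ P ^ i from
      (Nat.mul_le_mul_right _ hP.two_le).trans (pow_succ' P e ▸ Nat.pow_le_pow_right hP.pos hi))
    exact (((h1.trans h4).trans h5).trans h0).not_gt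
      (pow_lt_pow_right_of_lt_one₀ (fpg_pos hP) hV (by norm_num))
  rw [V.map_sub_eq_of_lt_right h3] at h2
  exact h1.trans (pow_le_pow_left₀ zero_le h2 _)

end

theorem NS1.near (h : NS1 P D) (h' : NS1 P D') (hP : P.Prime) (e : ℕ) : ∃ a : ℕ,
    ∀ A : ValuationSubring ℂ, A.valuation P < 1 → ∀ (i : ℕ) (τ τ' : ℂ), Dp P (D * P ^ (2 * e)) τ →
      Dp P (D' * P ^ (2 * i)) τ' → jf τ ≠ jf τ' →
      A.valuation P ^ a ≤ A.valuation (jf τ - jf τ') ^ P ^ i := by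
  have H : ∀ x : ℂ, ∃ a : ℕ, IsAlgebraic ℚ x → x ≠ 0 → ∀ A : ValuationSubring ℂ,
      A.valuation P < 1 → A.valuation P ^ a ≤ A.valuation x := fun x => by
    by_cases hx : IsAlgebraic ℚ x ∧ x ≠ 0
    · obtain ⟨a, ha⟩ := exists_pow_le hP hx.1 hx.2
      exact ⟨a, fun _ _ => ha⟩
    · exact ⟨0, fun h1 h2 => absurd ⟨h1, h2⟩ hx⟩
  choose f hf using H
  obtain ⟨b, hb⟩ := ((finite_jf_cm (D * P ^ (2 * e))).image2 (fun x y => f (x - y))
    ((Set.finite_lt_nat (e + 2)).biUnion fun i _ => finite_jf_cm (D' * P ^ (2 * i)))).bddAbove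
  refine ⟨b * P ^ (e + 2) + 4 * P, fun A hA i τ τ' hτ hτ' hne => ?_⟩
  rcases lt_or_ge i (e + 2) with k | k
  · have c1 := hτ.fpg_isCM (h.neg hP _)
    have c2 := hτ'.fpg_isCM (h'.neg hP _)
    have h1 : f (jf τ - jf τ') ≤ b :=
      hb (Set.mem_image2_of_mem ⟨τ, c1, rfl⟩ (Set.mem_biUnion k ⟨τ', c2, rfl⟩))
    refine le_trans ?_ (pow_le_pow_left₀ zero_le
      (hf _ ((fpg_alg c1).sub (fpg_alg c2)) (sub_ne_zero.2 hne) A hA) _)
    rw [← pow_mul]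
    exact pow_le_pow_of_le_one zero_le hA.le ((Nat.mul_le_mul h1
      (Nat.pow_le_pow_right hP.pos k.le)).trans (Nat.le_add_right _ _))
  · obtain ⟨i, rfl⟩ : ∃ j, i = j + 1 := ⟨i - 1, by omega⟩
    have h1 := pow_le_pow_left₀ zero_le (h.near_succ h' hP hA (by omega) hτ hτ') P
    rw [← pow_mul, ← pow_mul, ← pow_succ] at h1
    exact (pow_le_pow_of_le_one zero_le hA.le (by omega)).trans h1

theorem ns0_dvd (h : NS0 P D) (hP : P.Prime) (hQ : fdisc Q = D) {x y : ℤ} (u : ℕ)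
    (hv : (P : ℤ) ^ (2 * u) ∣ fval Q x y) : (P : ℤ) ^ u ∣ x ∧ (P : ℤ) ^ u ∣ y := by
  have hp := Nat.prime_iff_prime_int.1 hP
  induction u generalizing x y with
  | zero => simp
  | succ u ih =>
  have h2 : (P : ℤ) ^ 2 ∣ fval Q x y := (pow_dvd_pow _ (by omega)).trans hv
  obtain ⟨⟨x, rfl⟩, y, rfl⟩ : (P : ℤ) ∣ x ∧ (P : ℤ) ∣ y := by
    rcases h.2 with k | ⟨⟨c, rfl⟩, k⟩
    · exact fpi_inert k hP hQ ((dvd_pow_self _ two_ne_zero).trans h2)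
    refine fpi_swap (fun Q x y hQ ⟨f, hf⟩ => ?_) hQ h2
    rw [fval] at hf
    rw [fdisc] at hQ
    obtain ⟨s, e⟩ := hp.dvd_of_dvd_pow (a := 2 * Q.1 * x + Q.2.1 * y) (n := 2)
      ⟨4 * Q.1 * P * f + c * y ^ 2, by linear_combination 4 * Q.1 * hf + y ^ 2 * hQ⟩
    refine hp.dvd_of_dvd_pow (n := 2) ((hp.dvd_or_dvd (a := c) ⟨s ^ 2 - 4 * Q.1 * f,
      mul_left_cancel₀ hp.ne_zero ?_⟩).resolve_left fun e => k (sq (P : ℤ) ▸ mul_dvd_mul_left _ e))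
    linear_combination (2 * Q.1 * x + Q.2.1 * y + P * s) * e - 4 * Q.1 * hf - y ^ 2 * hQ
  rw [show fval Q (P * x) (P * y) = P ^ 2 * fval Q x y by simp only [fval]; ring, mul_add, pow_add,
    mul_one, mul_comm, mul_dvd_mul_iff_left (pow_ne_zero _ hp.ne_zero)] at hv
  rw [pow_succ']
  exact ⟨mul_dvd_mul_left _ (ih hv).1, mul_dvd_mul_left _ (ih hv).2⟩

theorem NS1.dvd (h : NS1 P D) (hP : P.Prime) (hQ : fdisc Q = D * P ^ (2 * e)) {x y : ℤ} (u : ℕ)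
    (hv : (P : ℤ) ^ (2 * (e + u)) ∣ fval Q x y) : (P : ℤ) ^ u ∣ x ∧ (P : ℤ) ^ u ∣ y := by
  have p0 : (P : ℤ) ^ e ≠ 0 := pow_ne_zero _ (by exact_mod_cast hP.ne_zero)
  obtain ⟨s, hs⟩ : 4 ∣ D ^ 2 - D := by
    have := mod4_mul h.m4 D
    rcases h.m4 with k | k
    · obtain ⟨s, rfl⟩ : 4 ∣ D := by omega
      exact ⟨s * (4 * s - 1), by ring⟩
    · obtain ⟨s, hs⟩ : 4 ∣ D - 1 := by omega
      exact ⟨D * s, by linear_combination D * hs⟩
  have k : ∀ (Q : Fm) (x y : ℤ), fdisc Q = D * P ^ (2 * e) →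
      (P : ℤ) ^ (2 * (e + u)) ∣ fval Q x y → (P : ℤ) ^ u ∣ y := fun Q x y hQ hv => by
    rw [fdisc, pow_mul'] at hQ
    obtain ⟨w, hw⟩ : 2 ∣ Q.2.1 - D * P ^ e := by
      obtain ⟨a, ha⟩ := Int.even_mul_pred_self Q.2.1
      obtain ⟨b, hb⟩ := Int.even_mul_pred_self ((P : ℤ) ^ e)
      exact ⟨D * b - a + 2 * Q.1 * Q.2.2, by linear_combination hQ - ha + D * hb⟩
    have := (ns0_dvd (Q := (1, D, s)) (x := Q.1 * x + w * y) (y := P ^ e * y) h.ns hP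
      (by simp only [fdisc]; linear_combination hs) (e + u) ((hv.mul_left Q.1).trans
        (dvd_of_eq (mul_left_cancel₀ (a := 4) (by norm_num) (by
          simp only [fval]
          linear_combination -y ^ 2 * hQ + (P ^ e * y) ^ 2 * hs +
            y * (4 * Q.1 * x + y * (Q.2.1 + D * P ^ e + 2 * w)) * hw))))).2
    rwa [pow_add, mul_dvd_mul_iff_left p0] at this
  exact ⟨k (Q.2.2, Q.2.1, Q.1) y x (by rw [← hQ, fdisc, fdisc]; ring)
    (by convert hv using 1; simp only [fval]; ring), k Q x y hQ hv⟩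

/-- The level of a point in the tree of isogenies. -/
theorem NS1.level (h : NS1 P D) (hP : P.Prime) {j : ℕ} (hD : fdisc Q = D * P ^ (2 * j))
    (hQ : Q.1 ≠ 0) (hτ : 0 < τ.im) (h4 : Rt Q τ) : ∃ e i, j = e + i ∧ Dp P (D * P ^ (2 * i)) τ ∧
      (P : ℤ) ^ e ∣ Q.1 ∧ (P : ℤ) ^ e ∣ Q.2.2 := by
  have hp := Nat.prime_iff_prime_int.1 hP
  obtain ⟨e, R, r1, r2, r3, r4⟩ := fpi_prim hP hQ
  have p0 : (P : ℤ) ^ e ≠ 0 := pow_ne_zero _ hp.ne_zero
  have h5 : (P ^ e) ^ 2 * fdisc R = D * (P ^ j) ^ 2 := by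
    rw [fdisc, r2, r3, r4] at hD
    rw [fdisc]
    linear_combination hD
  obtain ⟨i, rfl⟩ : ∃ i, j = e + i := Nat.exists_eq_add_of_le (not_lt.1 fun k => by
    obtain ⟨i, rfl⟩ := Nat.exists_eq_add_of_lt k
    refine h.sq ⟨(P ^ i) ^ 2 * fdisc R,
      mul_left_cancel₀ (pow_ne_zero 2 (pow_ne_zero j hp.ne_zero)) ?_⟩
    linear_combination -h5)
  refine ⟨e, i, rfl, ⟨hτ, R, ?_, mul_left_cancel₀ (pow_ne_zero 2 p0) (by linear_combination h5),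
    r1⟩, ⟨_, r2⟩, _, r4⟩
  rw [Rt, r2, r3, r4] at h4
  push_cast at h4
  exact mul_left_cancel₀ (a := (P : ℂ) ^ e) (by exact_mod_cast p0) (by linear_combination h4)

theorem dp_hpt (h : NS1 P D) (h' : NS1 P (D * m ^ 2)) (hP : P.Prime)
    (hD : fdisc Q = D * P ^ (2 * e)) (hQ : 0 < Q.1) {j : ℕ} (ht : t ∈ HI (m * P ^ j)) :
    ∃ i, Dp P (D * m ^ 2 * P ^ (2 * i)) (hpt t (froot Q)) ∧
      P ^ j ≤ P ^ (e + 1) * hgc t ^ 2 * P ^ i := by
  have D0 : fdisc Q < 0 := hD ▸ h.neg hP _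
  obtain ⟨h1, -, h3, h4⟩ := fpi_form D0 hQ ht
  obtain ⟨k, i, e1, e2, r2, r4⟩ := h'.level hP (j := e + j) (h3.trans (by
    rw [hD]; push_cast; ring)) h1.ne' (hpt_im ht (im_froot_pos D0 hQ)) h4
  have d4 : P ^ (k / 2 - e) ≤ hgc t := by
    have g0 : 0 < hgc t := Nat.gcd_pos_of_pos_left _
      (Nat.pos_of_mul_pos_right ((mem_HI.1 ht).1 ▸ (mem_HI.1 ht).2.1.bot_lt))
    rcases le_total (k / 2) e with c | c
    · rwa [Nat.sub_eq_zero_of_le c]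
    have d : (P : ℤ) ^ (2 * (e + (k / 2 - e))) ∣ P ^ k := pow_dvd_pow _ (by omega)
    have d1 := (h.dvd hP hD _ (d.trans r2)).1
    obtain ⟨d2, d3⟩ := h.dvd hP hD _ (d.trans r4)
    exact Nat.le_of_dvd g0 (Nat.dvd_gcd (by exact_mod_cast d3) (Nat.dvd_gcd (by exact_mod_cast d1)
      (by exact_mod_cast dvd_neg.1 d2)))
  refine ⟨i, e2, le_trans ?_ (Nat.mul_le_mul_right _
    (Nat.mul_le_mul_left _ (Nat.pow_le_pow_left d4 2)))⟩
  rw [← pow_mul, ← pow_add, ← pow_add]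
  exact Nat.pow_le_pow_right hP.pos (by omega)

end Pool.Agent.G7
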