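import Pool.Agent.Lib.MP_696deb_nt.B7.HT7b
import Pool.Agent.Lib.MP_696deb_nt.B7.HT7c

/-! The local Green function at a prime that is not split. -/

set_option autoImplicit false

open Complex Finset NumberTheorySymbols
open scoped Real Classical NNReal

namespace Pool.Agent.G7

open Pool.Agent.Lib.MP_696deb_nt Pool.Agent.B4.GE Pool.Agent.Shared.Weier
open Pool.Agent.G5 hiding Cx Yw Cw zs Ori CNStmt HWStmt LTStmt GLStmt LAStmt SWStmt NUStmt WPStmt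
  HTStmt GZStmt LFStmt LRStmt LQStmt GPStmt LCStmt NSStmt ARStmt exists_JM zv_hpt
  isCM_froot dp_hpt ns_near ns_stmt
open Pool.Agent.B5 (IntW valOf Aff coe_valOf)
open Pool.Agent.Dih (HI hpt hgc mem_HI rt_froot)

variable {n c l l₀ m : ℕ} {R : Fm}

theorem ns_near (hn : Squarefree n) (h4 : n % 4 = 3) (hl : l.Prime) (hl₀ : l₀.Prime) (hne : l ≠ l₀)
    (hJ₀ : J((l₀ : ℤ) | n) = -1) (hJ : J((l : ℤ) | n) ≠ 1) (hR : 0 < R.1) (hc : ¬ l₀ ∣ c)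
    (hm : ¬ l₀ ∣ m) (hd : fdisc R = -n * m ^ 2) : ∃ b : ℕ,
    ∀ v : AbsoluteValue ℂ ℝ, IsNonarchimedean v → v l < 1 → ∀ (j : ℕ) (Q : Fm) (t), 0 < Q.1 →
      fdisc Q = -n * c ^ 2 → t ∈ HI (l₀ * l ^ j) →
      -Real.log (v (jf (hpt t (froot Q)) - jf (froot R))) ≤
        b * ((hgc t : ℝ) ^ 2 / l ^ j * -Real.log (v l)) := by
  have a0 := fun (j : ℕ) (Q : Fm) t hQ hD (ht : t ∈ HI (l₀ * l ^ j)) =>
    jf_ne_hpt (Q := Q) hn h4 hQ hD hl₀ hJ₀ hc (fun k => hne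
      ((Nat.prime_dvd_prime_iff_eq hl₀ hl).1 (hl₀.dvd_of_dvd_pow k)).symm) ht hR hm hd
  obtain ⟨e, c, c1, rfl⟩ :=
    Nat.exists_eq_pow_mul_and_not_dvd (ne_zero_of_not_dvd' hc) l hl.ne_one
  obtain ⟨k, m, m1, rfl⟩ :=
    Nat.exists_eq_pow_mul_and_not_dvd (ne_zero_of_not_dvd' hm) l hl.ne_one
  have a1 := ns1_of_jac hn h4 hl hJ c1
  have a2 := ns1_of_jac (m := c * l₀) hn h4 hl hJ fun e => (hl.dvd_mul.1 e).elim c1
    (mt (Nat.prime_dvd_prime_iff_eq hl hl₀).1 hne)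
  rw [Nat.cast_mul, mul_pow, ← mul_assoc] at a2
  have a3 := ns1_of_jac hn h4 hl hJ m1
  replace hd : fdisc R = -n * m ^ 2 * l ^ (2 * k) := by rw [hd]; push_cast; ring
  have d : fdisc R < 0 := hd ▸ a3.neg hl _
  obtain ⟨-, i₀, -, a4, -⟩ := a3.level hl hd hR.ne' (im_froot_pos d hR) (rt_froot d hR)
  obtain ⟨b, hb⟩ := a3.near a2 hl i₀
  refine ⟨b * l ^ (e + 1), fun v hv hvl j Q t hQ hD ht => ?_⟩
  obtain ⟨i, b1, b2⟩ := dp_hpt (e := e) a1 a2 hl (by rw [hD]; push_cast; ring) hQ ht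
  have k := ns_log hv hl (hb (valOf hv).valuationSubring
    ((valOf hv).isEquiv_valuation_valuationSubring.lt_one_iff_lt_one.1 (by
      rwa [← NNReal.coe_lt_coe, coe_valOf])) i _ _ a4 b1 (a0 j Q t hQ hD ht))
  rw [v.map_sub] at k
  have L : 0 ≤ -Real.log (v l) := neg_nonneg.2 (Real.log_nonpos (v.nonneg _) hvl.le)
  have p0 : (0 : ℝ) < l := by exact_mod_cast hl.pos
  have b3 : (l : ℝ) ^ j ≤ l ^ (e + 1) * (hgc t : ℝ) ^ 2 * l ^ i := by exact_mod_cast b2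
  push_cast at k ⊢
  refine le_of_mul_le_mul_left (k.trans ?_) (pow_pos p0 i)
  rw [show (l : ℝ) ^ i * (b * l ^ (e + 1) * ((hgc t : ℝ) ^ 2 / l ^ j * -Real.log (v l))) =
    b * -Real.log (v l) * (l ^ (e + 1) * (hgc t : ℝ) ^ 2 * l ^ i / l ^ j) by ring]
  exact le_mul_of_one_le_right (by positivity) ((one_le_div (by positivity)).2 b3)

/-- The contribution of a place above a prime that is not split grows slowly. -/
theorem ns_stmt (nu : NUStmt) : NSStmt := by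
  intro W _ X P T T' l l₀ a u V h hT hl hl₀ hne h2 hJ₀ ha hV hJ
  have deg := ((nu X h).2.1 T T' hT).1.deg
  obtain ⟨J, c, h1, -, h3, h4⟩ := h.exists_JM fun m hm => (ha m hm).1
  have c0 := h.nd_c hl₀ h2 hJ₀
  have h5 : ∀ k ∈ J, (∃ τ D, IsCM D τ ∧ k = jf τ) ∧ (∀ (j : ℕ) (Q : Fm) (t), 0 < Q.1 →
      fdisc Q = -X.n * X.c ^ 2 → t ∈ HI (l₀ * l ^ j) → k ≠ jf (hpt t (froot Q))) ∧ ∃ b : ℕ,
      ∀ v : AbsoluteValue ℂ ℝ, IsNonarchimedean v → v l < 1 → ∀ (j : ℕ) (Q : Fm) (t), 0 < Q.1 →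
      fdisc Q = -X.n * X.c ^ 2 → t ∈ HI (l₀ * l ^ j) → -Real.log (v (jf (hpt t (froot Q)) - k)) ≤
        b * ((hgc t : ℝ) ^ 2 / l ^ j * -Real.log (v l)) := by
    intro k hk
    obtain ⟨R, m, r0, r2, r3, rfl⟩ := h4 k hk
    have m0 := h.nd_cm hl₀ h2 hJ₀ ha r0
    have d : fdisc R < 0 := r3 ▸ mul_neg_of_neg_of_pos h.toGood.neg
      (by have := ne_zero_of_not_dvd' m0; positivity)
    exact ⟨⟨_, _, isCM_froot d r2, rfl⟩, fun j Q t hQ hD ht =>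
      jf_ne_hpt h.sqf h.mod4 hQ hD hl₀ hJ₀ c0 (fun k => hne ((Nat.prime_dvd_prime_iff_eq hl₀ hl).1
        (hl₀.dvd_of_dvd_pow k)).symm) ht r2 m0 r3,
      ns_near h.sqf h.mod4 hl hl₀ hne hJ₀ hJ r2 c0 m0 r3⟩
  choose! h6 h7 b hb using h5
  have hS := fun Q (hQ : Q ∈ T ∪ T') => hT.spec hQ
  refine ⟨(∑ Q ∈ T ∪ T', |(X.w Q : ℝ)|) * (8 * l₀ * (c * ∑ k ∈ J, (b k : ℝ))), 2,
    fun v j I hv => ?_⟩
  have L : 0 ≤ -Real.log (v l) := neg_nonneg.2 (Real.log_nonpos (v.nonneg _) hv.le)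
  have p0 : (0 : ℝ) < l := by exact_mod_cast hl.pos
  rcases (T ∪ T').eq_empty_or_nonempty with e | ⟨Q₀, hQ₀⟩
  · simp [Dat.zs, e]
  have M0 : l₀ * l ^ j ≠ 0 := mul_ne_zero hl₀.ne_zero (pow_ne_zero _ hl.ne_zero)
  have t0 : (⟨(l₀ * l ^ j, 1), 0⟩ : (_ : ℕ × ℕ) × ℕ) ∈ HI (l₀ * l ^ j) :=
    mem_HI.2 ⟨mul_one _, M0, one_pos⟩
  have af : ∀ Q ∈ T ∪ T', ∀ t ∈ HI (l₀ * l ^ j), Aff X.N (valOf I.na) (hpt t (froot Q)) := by
    intro Q hQ t ht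
    have d : fdisc Q < 0 := by simpa [(hS Q hQ).2, Dat.D] using h.neg
    obtain ⟨-, -, f3, f4⟩ := fpi_form d (hS Q hQ).1 ht
    have i := hpt_im ht (im_froot_pos d (hS Q hQ).1)
    exact .of_unit P.N0 (ns_unit I.na hl hv (h.nd_N hl hJ)) i
      ((f4.isCM i (f3 ▸ mul_neg_of_neg_of_pos d (by positivity))).val_jf _)
  have hi : ∀ k ∈ J, v k ≤ 1 := fun k hk => by
    obtain ⟨τ, D, k1, rfl⟩ := h6 k hk
    exact k1.val_jf (valOf I.na)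
  have nj : ∀ Q ∈ T ∪ T', ∀ t ∈ HI (l₀ * l ^ j), jf (hpt t (froot Q)) ∉ J := fun Q hQ t ht k =>
    h7 _ k j Q t (hS Q hQ).1 (hS Q hQ).2 ht rfl
  simp only [Dat.zs, hsum_eq]
  refine (ns_abs_sum _ _ _ _ (fun t => 2 * (c * ∑ k ∈ J, (b k : ℝ)) *
    ((hgc t : ℝ) ^ 2 / l ^ j * -Real.log (v l)))
    (gv v P u V (hpt ⟨(l₀ * l ^ j, 1), 0⟩ (froot Q₀))) deg fun Q hQ t ht => ?_).trans ?_
  · have g1 := gv_le I hV (fun z _ => h1 z) (fun z _ => h3 z) hi (af Q hQ t ht) (af Q₀ hQ₀ _ t0)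
      (nj Q hQ t ht) (nj Q₀ hQ₀ _ t0)
    have g2 := gv_le I hV (fun z _ => h1 z) (fun z _ => h3 z) hi (af Q₀ hQ₀ _ t0) (af Q hQ t ht)
      (nj Q₀ hQ₀ _ t0) (nj Q hQ t ht)
    have g0 : (1 : ℝ) ≤ hgc t := by
      exact_mod_cast Nat.gcd_pos_of_pos_left _
        (Nat.pos_of_mul_pos_right ((mem_HI.1 ht).1 ▸ M0.bot_lt))
    have g3 : -∑ k ∈ J, (Real.log (v (jf (hpt t (froot Q)) - k)) +
        Real.log (v (jf (hpt ⟨(l₀ * l ^ j, 1), 0⟩ (froot Q₀)) - k))) ≤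
        2 * (∑ k ∈ J, (b k : ℝ)) * ((hgc t : ℝ) ^ 2 / l ^ j * -Real.log (v l)) := by
      rw [← sum_neg_distrib, mul_assoc, sum_mul, mul_sum]
      refine sum_le_sum fun k hk => ?_
      have k1 := hb k hk v I.na hv j Q t (hS Q hQ).1 (hS Q hQ).2 ht
      have k2 := hb k hk v I.na hv j Q₀ _ (hS _ hQ₀).1 (hS _ hQ₀).2 t0
      have k3 : (b k : ℝ) * ((hgc ⟨(l₀ * l ^ j, 1), 0⟩ : ℝ) ^ 2 / l ^ j * -Real.log (v l)) ≤
          b k * ((hgc t : ℝ) ^ 2 / l ^ j * -Real.log (v l)) := by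
        gcongr
        simpa [hgc] using g0
      linarith
    have g4 := mul_le_mul_of_nonneg_left g3 (Nat.cast_nonneg (α := ℝ) c)
    rw [sum_add_distrib] at g1 g2 g4
    rw [abs_le]
    constructor <;> linarith
  · rw [mul_assoc, mul_assoc (∑ Q ∈ T ∪ T', _)]
    refine mul_le_mul_of_nonneg_left ?_ (by positivity)
    have s1 : ∑ t ∈ HI (l₀ * l ^ j), (hgc t : ℝ) ^ 2 ≤ (2 * (j + 1)) ^ 2 * (l₀ * l ^ j) := by
      exact_mod_cast (sum_hgc_le _).trans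
        (Nat.mul_le_mul_right _ (Nat.pow_le_pow_left (ns_card hl hl₀ j) 2))
    rw [← mul_sum, ← sum_mul, ← sum_div]
    calc _ ≤ 2 * (c * ∑ k ∈ J, (b k : ℝ)) *
          ((2 * (j + 1)) ^ 2 * (l₀ * l ^ j) / l ^ j * -Real.log (v l)) := by gcongr
      _ = _ := by field_simp; ring

end Pool.Agent.G7
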