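import Pool.Agent.Lib.MP_696deb_nt.B7.HT7d
import Pool.Agent.Lib.MP_696deb_nt.B7.GA7a

/-! The height pairing as a sum of local terms. -/

set_option autoImplicit false

open Finset
open scoped Classical

namespace Pool.Agent.G7

open Pool.Agent.Lib.MP_696deb_nt Pool.Agent.B4.GE Pool.Agent.Shared.Weier
open Pool.Agent.G5 hiding Cx Yw Cw zs Ori CNStmt HWStmt LTStmt GLStmt LAStmt SWStmt NUStmt WPStmt
  HTStmt GZStmt LFStmt LRStmt LQStmt GPStmt LCStmt NSStmt ARStmt exists_JM zv_hpt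
  isCM_froot dp_hpt ns_near ns_stmt zs_hsum ht_one
open Pool.Agent.B5 (IntW ZW)
open Pool.Agent.Dih (HI hpt mem_HI)

variable {W : WeierstrassCurve ℚ} [W.IsElliptic] {X : Dat} {l l₀ M : ℕ} {P : Par W X.N}
  {T T' : Finset Fm} {a : ℕ →₀ ℤ} {u : ℂ} {V : ℂ → ℂ}

theorem zs_hsum {E : Type} [AddCommGroup E] (g : ℂ → E) : X.zs T T' (hsum M g) =
    ∑ x ∈ (T ∪ T') ×ˢ HI M, X.w x.1 • g (hpt x.2 (froot x.1)) := by
  simp only [Dat.zs, hsum_eq, sum_product, smul_sum]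

/-- Representatives for the support of the basic divisor. -/
theorem Dat.Ok.rp_w (h : X.Ok) (hw : G5.Wt X.N X.w X.D) (hT : X.Rep X.ρ T T') :
    Rp X.N (nuW X.w) ((T ∪ T').image froot) ∧
      ∀ S : ℂ → ℝ, ∑ z ∈ (T ∪ T').image froot, nuW X.w z • S z = X.zs T T' S := by
  have h0 := h.neg
  have hd : ∀ Q ∈ T ∪ T', fdisc Q = X.D := fun Q hQ => (hT.spec hQ).2.trans (neg_mul _ _)
  have hp : ∀ Q ∈ T ∪ T', 0 < Q.1 := fun Q hQ => (hT.spec hQ).1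
  refine ⟨⟨hw.nuW_inv h0 fun R k => (zF_spec k).1,
    forall_mem_image.2 fun Q hQ => im_froot_pos (hd Q hQ ▸ h0) (hp Q hQ),
    forall_mem_image.2 fun Q hQ g => CM.free ⟨Q, X.c, h.c0, hp Q hQ, hd Q hQ, rfl⟩ h.sqf h.gt,
    fun z _ k => ?_, ?_⟩, fun S => ?_⟩
  · obtain ⟨R, k1, rfl⟩ := exists_of_nuW k
    obtain ⟨k2, -, k3⟩ := zF_spec k1
    obtain ⟨Q, k4, k5⟩ : ∃ Q ∈ T ∪ T', G5.FEq X.N Q R := k3.elim
      (fun j => (hT.fst.ex R j k2).imp fun Q l => ⟨mem_union_left _ l.1, l.2⟩)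
      fun j => (hT.snd.ex R j k2).imp fun Q l => ⟨mem_union_right _ l.1, l.2⟩
    exact ⟨_, mem_image_of_mem _ k4, k5.symm.root (hw.disc R k1 ▸ h0) k2⟩
  · simp only [forall_mem_image]
    intro Q hQ R hR g hg e
    have k := (feq_of_root hg (hd Q hQ ▸ h0) (hp Q hQ) (hp R hR)
      ((hd R hR).trans (hd Q hQ).symm) e).2
    congr 1
    rcases mem_union.1 hQ with a | a <;> rcases mem_union.1 hR with b | b
    exacts [hT.fst.uniq Q a R b k,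
      absurd (hT.snd.fam R b) ((k.fam (hT.fst.fam Q a)).not_neg h.nd_ρc),
      absurd (k.fam (hT.snd.fam Q a)) ((hT.fst.fam R b).not_neg h.nd_ρc), hT.snd.uniq Q a R b k]
  · rw [sum_image fun Q hQ R hR e => froot_inj (hd R hR ▸ h0) (hp R hR) (hp Q hQ)
      ((hd Q hQ).trans (hd R hR).symm) e]
    exact sum_congr rfl fun Q hQ => by
      rw [nuW_froot (fun R k => ⟨(hw.disc R k).trans (hd Q hQ).symm, (zF_spec k).1⟩)
        (hd Q hQ ▸ h0) (hp Q hQ)]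

/-- The archimedean places. -/
theorem ar_one (gp : GPStmt) (h : X.Ok) (hw : G5.Wt X.N X.w X.D) (hT : X.Rep X.ρ T T')
    (deg : ∑ x ∈ (T ∪ T') ×ˢ HI (l₀ * M), X.w x.1 = 0) (hl₀ : l₀.Prime) (h2 : l₀ ≠ 2)
    (hJ₀ : et X.n l₀ = -1) (M0 : M ≠ 0) (hM : M.Coprime (X.N * l₀)) (ha : Sup (X.N * l * l₀) a)
    (hV : Th X.N (cmb (fun m => nuW (X.Y m)) a) (U1 P.L P.F u) V) (hu : P.per.unif u ∈ Alg W) :
    ∃ c : ℂ, P.per.unif c ∈ Alg W ∧ (∀ Q ∈ T ∪ T', ∀ t ∈ HI (l₀ * M),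
      P.F (hpt t (froot Q)) - c ∉ P.L.lattice ∧ P.F (hpt t (froot Q)) - c - u ∉ P.L.lattice) ∧
      ∀ σ : ℂ ≃+* ℂ, X.zs T T' (hsum (l₀ * M) fun z => Real.log ‖σ (hq P u V c z)‖ +
        (lamA P.per (pmap (σ : ℂ →+* ℂ) (P.φ z - P.per.unif c)) -
          lamA P.per (pmap (σ : ℂ →+* ℂ) (P.φ z - P.per.unif c - P.per.unif u))) / 2) =
        X.zs T T' (hsum (l₀ * M) (gT (U1 P.L P.F u) V)) := by
  obtain ⟨c, c1, c2⟩ := exists_gd P hu (S := (fun x : Fm × _ => P.φ (hpt x.2 (froot x.1))) ''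
    ((T ∪ T') ×ˢ HI (l₀ * M) : Finset _)) (Set.toFinite _)
  have c3 := c2 (RingEquiv.refl ℂ)
  have id : ∀ R : Pt W ℂ, pmap (RingEquiv.refl ℂ : ℂ →+* ℂ) R = R := fun R => by cases R <;> rfl
  rw [id, id] at c3
  have c4 : ∀ Q ∈ T ∪ T', ∀ t ∈ HI (l₀ * M), P.F (hpt t (froot Q)) - c ∉ P.L.lattice ∧
      P.F (hpt t (froot Q)) - c - u ∉ P.L.lattice := fun Q hQ t ht => by
    have m : (Q, t) ∈ (T ∪ T') ×ˢ HI (l₀ * M) := mem_product.2 ⟨hQ, ht⟩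
    rw [sub_sub, ← P.per.unif_eq_zero_iff, ← P.per.unif_eq_zero_iff, map_sub, map_sub, map_add,
      sub_eq_zero, sub_eq_zero]
    exact ⟨fun e => c3.1.2 ⟨_, m, e⟩, fun e => c3.2.2 ⟨_, m, e⟩⟩
  refine ⟨c, c1, c4, fun σ => ?_⟩
  obtain ⟨g1, g2⟩ := gp X h
  obtain ⟨e, he, g1, g3⟩ := g1 σ
  obtain ⟨J, m, j1, -, j2, -⟩ := h.exists_JM fun m hm => (ha m hm).1
  obtain ⟨κ, hκ⟩ := ac_stmt W X.N P _ u c V J m σ e hV (fun z _ k => ⟨j1 z k, by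
      obtain ⟨m, hm, k⟩ := ns_cmb_ne k
      obtain ⟨R, r, rfl⟩ := exists_of_nuW k
      exact jf_stmt.2 _ _ h.sqf h.mod4 h.gt ⟨R, X.c * m, mul_ne_zero h.c0 (ha m hm).1,
        (Y_spec r).1, (Y_spec r).2.2.trans (neg_mul _ _), rfl⟩⟩)
    (fun z _ => j2 z) he (fun z z' k => by
      rw [cmb_apply, cmb_apply, mul_sum]
      exact sum_congr rfl fun m hm => by
        rw [g1 m z z' (ha m hm).1
          (ha m hm).2.coprime_mul_right_right.coprime_mul_right_right k, smul_eq_mul, smul_eq_mul,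
          mul_left_comm]) c3.1.1 c3.2.1 (c2 σ).1.1 (c2 σ).2.1
  obtain ⟨n1, n2⟩ := h.rp_w hw hT
  have M1 := mul_ne_zero hl₀.ne_zero M0
  rw [← n2, sum_conj (S' := hsum (l₀ * M) fun z => e * gT (U1 P.L P.F u) V z + κ) P.N0 n1 he g3 g2
    fun z hz z' _ k => ?_, n2, zs_hsum, zs_hsum]
  · simp only [smul_add, sum_add_distrib]
    rw [← sum_smul, deg, zero_smul, smul_zero, add_zero, smul_sum]
    refine sum_congr rfl fun x _ => ?_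
    rcases he with rfl | rfl <;> simp
  · obtain ⟨Q, hQ, rfl⟩ := mem_image.1 hz
    refine hb_stmt X.N _ σ _ z' _ _ P.N0 M1 ((hl₀.coprime_iff_not_dvd.2 (h.nd_N hl₀
      (by omega))).mul_left hM.coprime_mul_right_right) k ?_
    rintro _ w' ⟨x, d, y, e1, e2, rfl⟩ - k
    have ht : (⟨(x, d), y⟩ : (_ : ℕ × ℕ) × ℕ) ∈ HI (l₀ * M) := mem_HI.2 ⟨e1, M1, e2⟩
    have k1 := h.nu_hpt hl₀ h2 hJ₀ ha (hT.spec hQ).1 (hT.spec hQ).2
      (hl₀.coprime_iff_not_dvd.1 hM.coprime_mul_left_right.symm) ht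
    exact hκ (hpt ⟨(x, d), y⟩ (froot Q)) w' k k1 (c4 Q hQ _ ht).1 (c4 Q hQ _ ht).2

theorem ht_one (gp : GPStmt) (nu : NUStmt) (hW : ZW W) (h : X.Ok) (hw : G5.Wt X.N X.w X.D)
    (hT : X.Rep X.ρ T T') (hl : l.Prime) (hl₀ : l₀.Prime) (h2 : l₀ ≠ 2) (hJ₀ : et X.n l₀ = -1)
    (M0 : M ≠ 0) (hM : M.Coprime (X.N * l₀)) (ha : Sup (X.N * l * l₀) a)
    (hV : Th X.N (cmb (fun m => nuW (X.Y m)) a) (U1 P.L P.F u) V)
    (hu : P.per.unif u ∈ Alg W) {C : ℝ} (C0 : 0 ≤ C) (hC : ∀ v : AbsoluteValue ℂ ℝ,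
      IntW v (W.baseChange ℂ) → v l < 1 →
        |X.zs T T' (hsum (l₀ * M) (gv v P u V))| ≤ C * -Real.log (v l)) :
    ∃ r : ℚ, |(r : ℝ)| ≤ 2 * C ∧ hpair (X.zs T T' (hsum (l₀ * M) P.φ)) (P.per.unif u) -
      2 * X.zs T T' (hsum (l₀ * M) (gT (U1 P.L P.F u) V)) - r * Real.log l ∈ LogS l := by
  have deg : ∑ x ∈ (T ∪ T') ×ˢ HI (l₀ * M), X.w x.1 = 0 := by
    rw [sum_product, sum_comm]
    exact sum_eq_zero fun _ _ => ((nu X h).2.1 T T' hT).1.deg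
  obtain ⟨c, c1, c2, c3⟩ := ar_one gp h hw hT deg hl₀ h2 hJ₀ M0 hM ha hV hu
  have hS := fun Q (hQ : Q ∈ T ∪ T') => hT.spec hQ
  have d0 : ∀ Q ∈ T ∪ T', fdisc Q < 0 := fun Q hQ => by simpa [(hS Q hQ).2, Dat.D] using h.neg
  have v0 : ∀ x ∈ (T ∪ T') ×ˢ HI (l₀ * M), V (hpt x.2 (froot x.1)) ≠ 0 := fun x hx =>
    have ⟨k1, k2⟩ := mem_product.1 hx
    hV.dv.ne (hpt_im k2 (im_froot_pos (d0 _ k1) (hS _ k1).1)) (h.nu_hpt hl₀ h2 hJ₀ ha (hS _ k1).1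
      (hS _ k1).2 (hl₀.coprime_iff_not_dvd.1 hM.coprime_mul_left_right.symm) k2)
  rw [zs_hsum P.φ]
  refine htd_pair (h := fun x => hq P u V c (hpt x.2 (froot x.1))) hW (neron_lamA P.per)
    (fun x hx => ?_) c1 hu deg (fun x hx => ?_) (fun σ => by rw [← c3 σ, zs_hsum]) hl C0
    fun v I hv => le_trans (le_of_eq (congrArg abs ?_)) (hC v I hv)
  · obtain ⟨k1, k2⟩ := mem_product.1 hx
    obtain ⟨f1, f2, f3, -⟩ := fpi_form (d0 _ k1) (hS _ k1).1 k2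
    exact ag_stmt W X.N _ P _ h.n0.bot_lt ⟨_, X.c * (l₀ * M),
      mul_ne_zero h.c0 (mul_ne_zero hl₀.ne_zero M0), f1,
      by rw [f3, (hS _ k1).2]; push_cast; ring, f2.symm⟩
  · obtain ⟨k1, k2⟩ := mem_product.1 hx
    exact mul_ne_zero (v0 x hx)
      (div_ne_zero (sig_ne (c2 _ k1 _ k2).1) (sig_ne (c2 _ k1 _ k2).2))
  · rw [zs_hsum, ← add_zero (∑ x ∈ _, _ • (_ + _)),
      ← zero_smul ℤ (bv v P.per c u + Qv v P.per u / 2), ← deg, sum_smul, ← sum_add_distrib]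
    refine sum_congr rfl fun x hx => ?_
    obtain ⟨k1, k2⟩ := mem_product.1 hx
    rw [gv_eq I (v0 x hx) (c2 _ k1 _ k2).1 (c2 _ k1 _ k2).2, smul_add _ _ (_ + _ / 2), hq]

theorem ht_of (gp : GPStmt) (lc : LCStmt) (nu : NUStmt)
    (nw : ∀ X : Dat, X.Ok → G5.Wt X.N X.w X.D) : HTStmt := by
  intro W _ X P hW T T' l l₀ a u V h hT hl hl₀ hne h2 hJ₀ ha hV hu
  have cop : ∀ j : ℕ, (l ∣ X.N → j = 0) → (l ^ j).Coprime (X.N * l₀) := fun j hj => by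
    by_cases k : l ∣ X.N
    · rw [hj k, pow_zero]
      exact Nat.coprime_one_left _
    · exact ((hl.coprime_iff_not_dvd.2 k).mul_right ((Nat.coprime_primes hl hl₀).2 hne)).pow_left j
  refine ⟨fun hJ j hj => ?_, fun hJ => ?_⟩
  · obtain ⟨r, h1, h3⟩ := ht_one gp nu hW h (nw X h) hT hl hl₀ h2 hJ₀ (pow_ne_zero j hl.ne_zero)
      (cop j hj) ha hV hu le_rfl fun v I hv => by
        rw [lc W X P T T' l l₀ j a u V v h hT hl hl₀ hne h2 hJ₀ ha hV I hv hJ hj, abs_zero, zero_mul]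
    rw [mul_zero, abs_nonpos_iff] at h1
    rwa [h1, zero_mul, sub_zero] at h3
  · obtain ⟨C, k, hC⟩ := ns_stmt nu W X P T T' l l₀ a u V h hT hl hl₀ hne h2 hJ₀ ha hV hJ
    obtain ⟨C', hC'⟩ := exists_rat_gt (2 * |C|)
    refine ⟨C', k, fun j => ?_⟩
    obtain ⟨r, h1, h3⟩ := ht_one (C := |C| * (j + 1) ^ k) gp nu hW h (nw X h) hT hl hl₀ h2 hJ₀
      (pow_ne_zero j hl.ne_zero) (cop j fun e => absurd e (h.nd_N hl hJ)) ha hV hu (by positivity)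
      fun v I hv => (hC v j I hv).trans (mul_le_mul_of_nonneg_right
        (mul_le_mul_of_nonneg_right (le_abs_self C) (by positivity))
        (neg_nonneg.2 (Real.log_nonpos (v.nonneg _) hv.le)))
    refine ⟨r, ?_, h3⟩
    rw [← mul_assoc] at h1
    exact_mod_cast h1.trans (mul_le_mul_of_nonneg_right hC'.le (by positivity))

end Pool.Agent.G7
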