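import Pool.Agent.Lib.MP_696deb_nt.B7.Z1
import Pool.Agent.Lib.MP_696deb_nt.B5.HWb

/-! Local genus characters and their behaviour under integral substitutions. -/

set_option autoImplicit false

open Finset NumberTheorySymbols
open scoped Classical

namespace Pool.Agent.G7.Hv

open Pool.Agent.Lib.MP_696deb_nt Pool.Agent.G5.Hw
open Pool.Agent.Lib.MP_696deb_nt.B3 (kro chi2 odp cond2 PChr pchr_chi2 odp_odd odp_sqf)

variable {l c c' C N : ℕ} {χ ψ : ℤ → ℤ} {K d e t κ κ' ν : ℤ} {Q R : Fm} {w w' ω μ : Fm → ℤ}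
  {i : Option (Fin l)}

/-- The local genus character attached to `χ`. -/
def gL (l : ℕ) (χ : ℤ → ℤ) (R : Fm) : ℤ := χ (if (l : ℤ) ∣ R.1 then R.2.2 else R.1)

/-- Local characters that are constant on the values of the forms of discriminant divisible
by `K`. -/
structure Lc (l : ℕ) (χ : ℤ → ℤ) (K : ℤ) : Prop where
  pr : l.Prime
  dvd : (l : ℤ) ∣ K
  mul : ∀ a b, χ (a * b) = χ a * χ b
  zero : ∀ a, (l : ℤ) ∣ a → χ a = 0
  sq : ∀ a, ¬ (l : ℤ) ∣ a → χ a ^ 2 = 1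
  val : ∀ R x y, K ∣ fdisc R → ¬ (l : ℤ) ∣ fval R x y → gL l χ R = χ (fval R x y)

/-- Weights that transform by `χ` under the substitutions prime to `c`. -/
def Tm (c : ℕ) (χ : ℤ → ℤ) (K : ℤ) (w : Fm → ℤ) : Prop :=
  ∀ (Q R : Fm) (t x y z u : ℤ), K ∣ fdisc Q → K ∣ fdisc R → sc t R = fmap Q x y z u →
    IsCoprime (t * (x * u - y * z)) c → w R = χ t * w Q

/-- The discriminants on which the genus character of `d` is defined. -/
def Cls (d K : ℤ) : Prop := (cond2 d : ℤ) ^ 2 ∣ K ∧ (odp d : ℤ) ∣ K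

theorem fval_sc (t : ℤ) (R : Fm) (x y : ℤ) : fval (sc t R) x y = t * fval R x y := by
  simp only [fval, sc]; ring

theorem gl_eq (l : ℕ) : gl l = gL l fun k => J(k | l) := funext fun R => by
  rw [gl, gL, apply_ite fun k => J(k | l)]

theorem gD_eq (d : ℤ) (Q : Fm) : gD d Q = gL 2 (chi2 d) Q * gch (odp d) Q := rfl

theorem Lc.of_vals (h : Lc l χ K) (k : ∀ x y, (l : ℤ) ∣ fval R x y) : gL l χ R = 0 := by
  rw [gL, if_pos (by simpa [fval] using k 1 0), h.zero _ (by simpa [fval] using k 0 1)]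

theorem Lc.tm (h : Lc l χ K) : Tm l χ K (gL l χ) := fun Q R t x y z u hQ hR e k => by
  have hP := Nat.prime_iff_prime_int.mp h.pr
  have k1 := hP.coprime_iff_not_dvd.1 k.of_mul_left_left.symm
  have k2 := hP.coprime_iff_not_dvd.1 k.of_mul_left_right.symm
  have h1 : ∀ X Y, t * fval R X Y = fval Q (x * X + y * Y) (z * X + u * Y) := fun X Y => by
    rw [← fval_sc, e, fval_fmap]
  by_cases j : ∀ X Y, (l : ℤ) ∣ fval R X Y
  · rw [h.of_vals j, h.of_vals fun X Y => ?_, mul_zero]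
    have h2 := (j (u * X - y * Y) (x * Y - z * X)).mul_left t
    rw [h1, show fval Q _ _ = (x * u - y * z) ^ 2 * fval Q X Y by simp only [fval]; ring] at h2
    exact (hP.dvd_or_dvd h2).resolve_left fun j => k2 (hP.dvd_of_dvd_pow j)
  · push Not at j
    obtain ⟨X, Y, j⟩ := j
    rw [h.val R X Y hR j, h.val Q _ _ hQ (h1 X Y ▸ fun i => (hP.dvd_or_dvd i).elim k1 j), ← h1,
      h.mul, ← mul_assoc, ← pow_two, h.sq t k1, one_mul]

theorem Tm.mul (h : Tm c χ K w) (k : Tm c' ψ K w') :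
    Tm (c * c') (fun a => χ a * ψ a) K fun R => w R * w' R := fun Q R t x y z u hQ hR e j => by
  rw [Nat.cast_mul] at j
  beta_reduce
  rw [h Q R t x y z u hQ hR e j.of_mul_right_left, k Q R t x y z u hQ hR e j.of_mul_right_right]
  ring

theorem tm_one (K : ℤ) : Tm c (fun _ => 1) K fun _ => 1 := fun _ _ _ _ _ _ _ _ _ _ _ => rfl

theorem lc_odd (hl : l.Prime) (h2 : l ≠ 2) (h : (l : ℤ) ∣ K) : Lc l (fun k => J(k | l)) K where
  pr := hl
  dvd := h
  mul a b := jacobiSym.mul_left a b l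
  zero _ := jac_zero_of_dvd hl
  sq _ := jac_sq hl
  val _ _ _ k j := gl_eq l ▸ gl_fval hl h2 (h.trans k) j

theorem tm_gch (hC : Squarefree C) (ho : Odd C) (h : (C : ℤ) ∣ K) :
    Tm C (fun k => J(k | C)) K (gch C) := fun Q R t x y z u hQ hR e j => by
  beta_reduce
  rw [jac_eq_prod _ hC, gch_eq, gch_eq, ← prod_mul_distrib]
  refine prod_congr rfl fun p hp => ?_
  rw [gl_eq]
  exact (lc_odd (Nat.prime_of_mem_primeFactors hp) (prime_ne_two ho hp) (dvd_of_mem h hp)).tm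
    Q R t x y z u hQ hR e (j.of_isCoprime_of_dvd_right (dvd_of_mem dvd_rfl hp))

theorem cond2_cases (h : d % 4 ≠ 1) : cond2 d = 4 ∨ cond2 d = 8 := by
  unfold cond2
  split_ifs <;> simp_all

theorem cop2 (h : d % 4 ≠ 1) {a : ℤ} : IsCoprime a (cond2 d) ↔ ¬ 2 ∣ a := by
  rw [← Int.prime_two.coprime_iff_not_dvd, isCoprime_comm (x := 2)]
  rcases cond2_cases h with k | k <;> rw [k]
  · exact IsCoprime.pow_right_iff (y := (2 : ℤ)) two_pos
  · exact IsCoprime.pow_right_iff (y := (2 : ℤ)) three_pos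

theorem chi2_eq (h : d % 4 ≠ 1) {u v s : ℤ} (hu : ¬ 2 ∣ u) (hv : ¬ 2 ∣ v)
    (k : (cond2 d : ℤ) ∣ u * v - s ^ 2) : chi2 d u = chi2 d v := by
  have p := pchr_chi2 d
  have h1 : ¬ 2 ∣ s := fun j => by
    have : (2 : ℤ) ∣ cond2 d := by rcases cond2_cases h with k | k <;> rw [k] <;> decide
    exact (Int.prime_two.dvd_or_dvd ((dvd_sub_left (j.pow two_ne_zero)).1 (this.trans k))).elim hu hv
  have h2 := p.per _ _ k
  rw [p.mul, pow_two, p.mul, ← pow_two, p.sq ((cop2 h).2 h1)] at h2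
  linear_combination chi2 d v * h2 - chi2 d u * p.sq ((cop2 h).2 hv)

theorem lc_two (h : d % 4 ≠ 1) (k : (cond2 d : ℤ) ^ 2 ∣ K) : Lc 2 (chi2 d) K := by
  have p := pchr_chi2 d
  have h1 : 4 * (cond2 d : ℤ) ∣ K := dvd_trans (by
    rcases cond2_cases h with k | k <;> rw [k] <;> decide) k
  refine ⟨Nat.prime_two, dvd_trans ⟨2 * cond2 d, by push_cast; ring⟩ h1, p.mul,
    fun a j => p.zero a fun i => (cop2 h).1 i j, fun a j => p.sq ((cop2 h).2 j), ?_⟩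
  rintro ⟨a, b, c⟩ x y ⟨s, hs⟩ j
  obtain ⟨r, rfl⟩ := h1
  obtain ⟨b, rfl⟩ : 2 ∣ b := Int.prime_two.dvd_of_dvd_pow (n := 2)
    ⟨2 * (cond2 d * r * s + a * c), by simp only [fdisc] at hs; linear_combination hs⟩
  have h2 : b ^ 2 - a * c = cond2 d * (r * s) := by simp only [fdisc] at hs; linarith
  simp only [gL, fval, Nat.cast_ofNat] at j ⊢
  split_ifs with i
  · refine chi2_eq h (s := b * x + c * y) (fun i' => j ?_) j
      ⟨-(r * s * x ^ 2), by linear_combination -x ^ 2 * h2⟩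
    exact ((i.mul_right _).add ⟨b * x * y, by ring⟩).add (i'.mul_right _)
  · exact chi2_eq h (s := a * x + b * y) i j ⟨-(r * s * y ^ 2), by linear_combination -y ^ 2 * h2⟩

theorem chi2_one (h : d % 4 = 1) : chi2 d = fun _ => 1 := funext fun _ => if_pos h

theorem tm_two (k : (cond2 d : ℤ) ^ 2 ∣ K) : Tm (cond2 d) (chi2 d) K (gL 2 (chi2 d)) := by
  by_cases h : d % 4 = 1
  · rw [chi2_one h]
    exact tm_one K
  · exact fun Q R t x y z u hQ hR e j => (lc_two h k).tm Q R t x y z u hQ hR e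
      (Int.prime_two.coprime_iff_not_dvd.2 ((cop2 h).1 j)).symm

theorem tm_gD (hd : Squarefree d) (h : Cls d K) : Tm (cnd d) (kro d) K (gD d) :=
  (tm_two h.1).mul (tm_gch (odp_sqf hd) (odp_odd hd) h.2)

theorem abs_gD (d : ℤ) (Q : Fm) : |gD d Q| ≤ 1 := by
  rw [gD, abs_mul]
  refine mul_le_one₀ ?_ (abs_nonneg _) (abs_gch_le _ _)
  rcases (pchr_chi2 d).cases (if 2 ∣ Q.1 then Q.2.2 else Q.1) with h | h | h <;> simp [h]

theorem disc_fV (hN : N ≠ 0) (h : (N : ℤ) ∣ R.1) : fdisc (G5.fV N R) = fdisc R := by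
  obtain ⟨_, b, c⟩ := R
  obtain ⟨a, rfl⟩ := h
  rw [G5.fV_eq hN]
  simp only [fdisc]; ring

theorem sc_fV (hN : N ≠ 0) (h : (N : ℤ) ∣ R.1) : sc N (G5.fV N R) = fmap R 0 1 (-N) 0 := by
  obtain ⟨_, b, c⟩ := R
  obtain ⟨a, rfl⟩ := h
  rw [G5.fV_eq hN]
  simp only [sc, fmap, fval, Prod.mk.injEq]
  refine ⟨?_, ?_, ?_⟩ <;> ring

theorem fV_map (hN : N ≠ 0) (h : (N : ℤ) ∣ R.1) (x y z u : ℤ) :
    sc 1 (G5.fV N (fmap R x y (N * z) u)) = fmap (G5.fV N R) u (-z) (-(N * y)) x := by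
  obtain ⟨_, b, c⟩ := R
  obtain ⟨a, rfl⟩ := h
  rw [show fmap (N * a, b, c) x y (N * z) u = (N * (a * x ^ 2 + b * x * z + N * c * z ^ 2),
    (fmap (N * a, b, c) x y (N * z) u).2) from Prod.ext (by simp only [fmap, fval]; ring) rfl,
    G5.fV_eq hN, G5.fV_eq hN]
  simp only [sc, fmap, fval, Prod.mk.injEq]
  refine ⟨?_, ?_, ?_⟩ <;> ring

/-- The weight is invariant and bounded. -/
theorem wt_gU (hN : N ≠ 0) (hd : Squarefree d) (h : Cls d e) (β : ℤ) :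
    G5.Wt N (wF N (gU N d) e β) e where
  disc R k := (by_contra fun j => k (if_neg j) : G5.Fam N e β R).2.1
  inv Q R k := by
    by_cases h1 : G5.Fam N e β Q
    · have h2 := k.fam h1
      rw [wF, wF, if_pos h1, if_pos h2]
      obtain ⟨x, y, z, u, k, rfl⟩ := k
      exact (tm_gD hd h _ _ 1 _ _ _ _ (by rw [disc_fV hN h1.1, h1.2.1])
        (by rw [disc_fV hN h2.1, h2.2.1]) (fV_map hN h1.1 x y z u) (by
          rw [show 1 * (u * x - -z * -(N * y)) = 1 by linear_combination k]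
          exact isCoprime_one_left)).trans (by rw [(B3.pchr_kro hd).one, one_mul, gU])
    · rw [wF, wF, if_neg h1, if_neg fun h2 => h1 (k.symm.fam h2)]
  bdd := ⟨1, fun R => by
    unfold wF
    split_ifs
    exacts [abs_gD _ _, by simp]⟩

/-- The sum of a weight over the neighbours. -/
def Ns (l : ℕ) (ω : Fm → ℤ) (R : Fm) : ℤ := ∑ i, if (l : ℤ) ∣ vl l i R then ω (nb l i R) else 0

/-- Weights that are compatible with the Hecke correspondence at `l`. -/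
structure Cmp (l N : ℕ) (K : ℤ) (ω : Fm → ℤ) (κ : ℤ) : Prop where
  hs : ∀ R : Fm, (N : ℤ) ∣ R.1 → K ∣ fdisc R → ω (sc l R) = κ * ω R
  hh : ∀ i (R : Fm), (N : ℤ) ∣ R.1 → K ∣ fdisc R → Pr l (hm l i R) → ω (hm l i R) = ω R
  ha : ∀ R : Fm, (N : ℤ) ∣ R.1 → K ∣ fdisc R →
    ∑ i, ω (nb l i (sc l R)) = κ * ω (sc l R) + l * ω R

theorem cmp_one (l : ℕ) (K : ℤ) : Cmp l 1 K (fun _ => 1) 1 :=
  ⟨fun _ _ _ => rfl, fun _ _ _ _ _ => rfl, fun _ _ _ => by simp [add_comm]⟩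

theorem Lc.sc_zero (h : Lc l χ K) (R : Fm) : gL l χ (sc l R) = 0 :=
  h.of_vals fun x y => fval_sc l R x y ▸ dvd_mul_right _ _

theorem Lc.nb_sc (h : Lc l χ K) (i : Option (Fin l)) (R : Fm) :
    gL l χ (nb l i (sc l R)) = χ (vl l i R) := by
  have h0 : (l : ℤ) ≠ 0 := Nat.cast_ne_zero.2 h.pr.ne_zero
  rcases i with _ | k
  · simp only [gL, nb, sc, vl, Int.mul_ediv_cancel_left _ h0]
    split_ifs with k
    · rw [h.zero _ k, h.zero _ (dvd_mul_right _ _)]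
    · rfl
  · simp only [gL, nb, vl_sc, Int.mul_ediv_cancel_left _ h0, dvd_mul_right, if_true]

theorem exists_val (hl : l.Prime) (hd : (l : ℤ) ∣ fdisc R) (h : Pr l R) :
    ∃ x y, ¬ (l : ℤ) ∣ fval R x y := by
  by_contra k
  push Not at k
  have h1 : (l : ℤ) ∣ R.1 := by simpa [fval] using k 1 0
  exact h ⟨h1, (Nat.prime_iff_prime_int.mp hl).dvd_of_dvd_pow (n := 2) (by
    simpa [fdisc] using hd.add ((h1.mul_left 4).mul_right R.2.2)), by simpa [fval] using k 0 1⟩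

theorem Lc.cmp (h : Lc l χ K) : Cmp l 1 K (gL l χ) 0 where
  hs R _ _ := by rw [h.sc_zero, zero_mul]
  hh i R _ k j := by
    have k' : K ∣ fdisc (hm l i R) := disc_hm i R ▸ k.mul_right _
    obtain ⟨x, y, e⟩ := exists_val h.pr (h.dvd.trans k') j
    obtain ⟨a, b, d, -, -, h3⟩ := hm_eq i
    rw [h.val _ _ _ k' e]
    rw [h3, fval_fmap] at e ⊢
    rw [h.val _ _ _ k e]
  ha R _ k := by
    have h1 : ∀ i, gL l χ (nb l i (sc l R)) =
        gL l χ R - (if (l : ℤ) ∣ vl l i R then 1 else 0) * gL l χ R := fun i => by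
      rw [h.nb_sc]
      split_ifs with j
      · rw [h.zero _ j, one_mul, sub_self]
      · obtain ⟨x, y, e⟩ := vl_val i R
        rw [zero_mul, sub_zero, h.val _ _ _ k (e ▸ j), e]
    rw [sum_congr rfl fun i _ => h1 i, sum_sub_distrib, ← sum_mul, sum_const]
    by_cases j : Pr l R
    · rw [cnt h.pr j, kr_zero h.pr (h.dvd.trans k)]
      simp
      ring
    · obtain ⟨Q, rfl⟩ := exists_sc j
      simp [h.sc_zero]

/-- The sum over the neighbours vanishes at the primes of the conductor. -/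
theorem Lc.ns (h : Lc l χ K) (h4 : l = 2 → ∃ β, 4 ∣ β ^ 2 - e) (hd : fdisc R = e * l ^ 2)
    (h0 : ∀ Q, fdisc Q = e → ∑ i, χ (vl l i Q) = 0) : Ns l (gL l χ) R = 0 := by
  by_cases k : Pr l R
  · refine sum_eq_zero fun i _ => ?_
    split_ifs with j
    · obtain ⟨Q, rfl⟩ := exists_hm h.pr h4 hd k j
      rw [hm_inj h.pr.ne_zero i ((hm_nb j).trans (hm_sc i l Q).symm), h.sc_zero]
    · rfl
  · obtain ⟨Q, rfl⟩ := exists_sc k
    rw [← h0 Q (mul_right_cancel₀ (pow_ne_zero 2 (Nat.cast_ne_zero.2 h.pr.ne_zero))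
      ((disc_sc l Q).symm.trans hd))]
    exact sum_congr rfl fun i _ => by rw [if_pos (vl_sc i l Q ▸ dvd_mul_right _ _), h.nb_sc]

theorem sum_two (h : d % 4 ≠ 1) {u : ℤ} (hu : u % 4 = 1) (hd : fdisc Q * 4 = cond2 d ^ 2 * u) :
    ∑ i, chi2 d (vl 2 i Q) = 0 := by
  obtain ⟨a, b, c⟩ := Q
  obtain ⟨u, rfl⟩ : ∃ v, u = 4 * v + 1 := ⟨u / 4, by omega⟩
  rw [Fintype.sum_option, Fin.sum_univ_two]
  simp only [vl, fdisc, Fin.val_zero, Fin.val_one, Nat.cast_zero, Nat.cast_one] at hd ⊢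
  have k4 : ∀ a b c : ZMod 4, b ^ 2 - a * c = 1 → ZMod.χ₄ a +
    (ZMod.χ₄ (a * 0 ^ 2 - 2 * b * 0 + c) + ZMod.χ₄ (a * 1 ^ 2 - 2 * b * 1 + c)) = 0 := by decide
  have k8 : ∀ a b c : ZMod 8, b ^ 2 - a * c = 4 → (ZMod.χ₈ a +
    (ZMod.χ₈ (a * 0 ^ 2 - 2 * b * 0 + c) + ZMod.χ₈ (a * 1 ^ 2 - 2 * b * 1 + c)) = 0) ∧ ZMod.χ₈' a +
    (ZMod.χ₈' (a * 0 ^ 2 - 2 * b * 0 + c) + ZMod.χ₈' (a * 1 ^ 2 - 2 * b * 1 + c)) = 0 := by
    decide +kernel
  unfold cond2 at hd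
  simp only [chi2, if_neg h] at hd ⊢
  by_cases h3 : d % 4 = 3
  · simp only [if_pos h3] at hd ⊢
    obtain ⟨b, rfl⟩ : 2 ∣ b := Int.prime_two.dvd_of_dvd_pow (n := 2)
      ⟨2 * (a * c + 4 * u + 1), by push_cast at hd; linarith⟩
    push_cast
    refine k4 _ _ _ ?_
    have := (ZMod.intCast_eq_intCast_iff_dvd_sub 1 (b ^ 2 - a * c) 4).2
      ⟨u, by push_cast at hd ⊢; linarith⟩
    exact_mod_cast this.symm
  · simp only [if_neg h3] at hd ⊢
    obtain ⟨b, rfl⟩ : 2 ∣ b := Int.prime_two.dvd_of_dvd_pow (n := 2)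
      ⟨2 * (a * c + 16 * u + 4), by push_cast at hd; linarith⟩
    have := (ZMod.intCast_eq_intCast_iff_dvd_sub 4 (b ^ 2 - a * c) 8).2
      ⟨2 * u, by push_cast at hd ⊢; linarith⟩
    have := k8 a b c (by exact_mod_cast this.symm)
    push_cast
    split_ifs
    exacts [this.1, this.2]

end Pool.Agent.G7.Hv
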