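import Pool.Agent.Lib.MP_696deb_nt.B7.HT7e
import Pool.Agent.Lib.MP_696deb_nt.B7.HW7a

/-! The basic divisor is invariant. -/

set_option autoImplicit false

open scoped Classical

namespace Pool.Agent.G7

open Pool.Agent.Lib.MP_696deb_nt
open Pool.Agent.Lib.MP_696deb_nt.B3 (cond2 odp)
open Pool.Agent.G7.Hv (Cls tm_gD)

theorem wt_zF_gD {N : ℕ} {d D : ℤ} (hd : Squarefree d) (h : Cls d D) (hD : D < 0) (ρ : ℤ) :
    G5.Wt N (zF N (gD d) d.sign D ρ) D where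
  disc _ k := (zF_spec k).2.2.elim (·.2.1) (·.2.1)
  inv Q R k := by
    by_cases e : fdisc Q = D
    swap
    · have j : ∀ S, fdisc S = fdisc Q → zF N (gD d) d.sign D ρ S = 0 := fun S hS =>
        by_contra fun i => e (hS ▸ (zF_spec i).2.2.elim (·.2.1) (·.2.1))
      rw [j R k.disc, j Q rfl]
    have j : gD d R = gD d Q := by
      obtain ⟨x, y, z, u, k1, k2⟩ := id k
      exact (tm_gD hd h Q R 1 x y _ u (e ▸ dvd_rfl) ((k.disc.trans e) ▸ dvd_rfl)
        (by rw [← k2]; simp [G5.Hw.sc]) (by rw [k1, one_mul]; exact isCoprime_one_left)).trans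
        (by rw [(B3.pchr_kro hd).one, one_mul])
    have f : ∀ β, G5.Fam N D β R ↔ G5.Fam N D β Q := fun β => ⟨k.symm.fam, k.fam⟩
    have p : 0 < R.1 ↔ 0 < Q.1 := ⟨k.symm.pos ((k.disc.trans e) ▸ hD), k.pos (e ▸ hD)⟩
    rw [zF, zF, wF, wF, wF, wF, j, if_congr (f ρ) rfl rfl, if_congr (f (-ρ)) rfl rfl,
      if_congr p rfl rfl]
  bdd := ⟨2, fun _ => abs_zF (fun _ => abs_gD_le _ _) _⟩

theorem Dat.Ok.cls_D {X : Dat} (h : X.Ok) : Cls (X.f * X.b) X.D := by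
  have e : cond2 (X.f * X.b) * odp (X.f * X.b) = X.c * X.b.natAbs := h.cb
  have b1 : Odd X.b.natAbs := by
    have := h.b4
    rw [Nat.odd_iff]
    omega
  have c : (cond2 (X.f * X.b)).Coprime X.b.natAbs := by
    have k := Nat.coprime_two_left.2 b1
    unfold cond2
    split_ifs
    exacts [Nat.coprime_one_left _, k.pow_left 2, k.pow_left 3]
  refine ⟨((pow_dvd_pow_of_dvd (Int.natCast_dvd_natCast.2
    (c.dvd_of_dvd_mul_right ⟨_, e.symm⟩)) 2).mul_left _).neg_right, Dvd.dvd.neg_right ?_⟩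
  refine (Int.natCast_dvd_natCast.2 (Dvd.intro_left _ e)).trans ?_
  rw [← h.abs_mul]
  exact ⟨X.a.natAbs * X.c, by push_cast; ring⟩

theorem Dat.Ok.wt_w {X : Dat} (h : X.Ok) : G5.Wt X.N X.w X.D := wt_zF_gD h.sb h.cls_D h.neg _

theorem ht_of' (gp : GPStmt) (lc : LCStmt) (nu : NUStmt) : HTStmt :=
  ht_of gp lc nu fun _ h => h.wt_w

end Pool.Agent.G7
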