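import Pool.Agent.Lib.MP_696deb_nt.B7.HW7a

/-! The Hecke recursion on weights for an arbitrary genus character. -/

set_option autoImplicit false

open Finset NumberTheorySymbols
open scoped Classical

namespace Pool.Agent.G7.Hv

open Pool.Agent.Lib.MP_696deb_nt Pool.Agent.G5.Hw
open Pool.Agent.Lib.MP_696deb_nt.B3 (kro chi2 odp cond2 PChr pchr_chi2 odp_odd odp_sqf pchr_kro)

variable {l c c' C N m : ℕ} {χ ψ : ℤ → ℤ} {K d e t β η κ κ' ν : ℤ} {Q R : Fm}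
  {w w' ω μ : Fm → ℤ} {i : Option (Fin l)}

theorem lev_hm (hl : l.Prime) (hN : ¬ l ∣ N) : (N : ℤ) ∣ (hm l i R).1 ↔ (N : ℤ) ∣ R.1 := by
  rcases i with _ | k
  exacts [⟨(cop hl hN).pow_right.dvd_of_dvd_mul_right, fun k => k.mul_right _⟩, Iff.rfl]

theorem lev_nb (hl : l.Prime) (hN : ¬ l ∣ N) (h : (N : ℤ) ∣ R.1) (k : (l : ℤ) ∣ vl l i R) :
    (N : ℤ) ∣ (nb l i R).1 := (lev_hm (i := i) hl hN).1 (hm_nb k ▸ h.mul_left _)

/-- A weight is the product of its part at `l` and of its part away from `l`. -/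
structure Fac (l N : ℕ) (K : ℤ) (ω μ w : Fm → ℤ) (κ : ℤ) : Prop where
  pr : l.Prime
  nd : ¬ l ∣ N
  eq : ∀ R : Fm, (N : ℤ) ∣ R.1 → K ∣ fdisc R → ω R = μ R * w R
  hh : ∀ i (R : Fm), (N : ℤ) ∣ R.1 → K ∣ fdisc R → μ (hm l i R) = μ R
  hs : ∀ R : Fm, (N : ℤ) ∣ R.1 → K ∣ fdisc R → μ (sc l R) = κ * μ R
  sq : κ ^ 2 = 1

theorem Fac.nb (h : Fac l N K ω μ w κ) (a : (N : ℤ) ∣ R.1) (b : K ∣ fdisc R)
    (k : (l : ℤ) ∣ vl l i R) : ω (nb l i R) = κ * μ R * w (nb l i R) := by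
  have h1 := lev_nb h.pr h.nd a k
  have h2 : K ∣ fdisc (G5.Hw.nb l i R) := disc_nb h.pr.ne_zero k ▸ b
  rw [h.eq _ h1 h2, ← h.hh i _ h1 h2, hm_nb k, h.hs R a b]

theorem Fac.ns (h : Fac l N K ω μ w κ) (a : (N : ℤ) ∣ R.1) (b : K ∣ fdisc R)
    (k : Ns l w R = ν * w R) : Ns l ω R = κ * ν * ω R := by
  have : Ns l ω R = κ * μ R * Ns l w R := by
    rw [Ns, Ns, mul_sum]
    refine sum_congr rfl fun i _ => ?_
    split_ifs with j
    exacts [h.nb a b j, (mul_zero _).symm]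
  rw [this, k, h.eq R a b]
  ring

theorem Fac.cmp (h : Fac l N K ω μ w κ) (k : Cmp l 1 K w κ') : Cmp l N K ω (κ' * κ) := by
  have h0 : ∀ R : Fm, K ∣ fdisc R → K ∣ fdisc (sc l R) := fun R b => disc_sc l R ▸ b.mul_right _
  have h1 : ∀ R : Fm, (N : ℤ) ∣ R.1 → K ∣ fdisc R → ω (sc l R) = κ' * κ * ω R := fun R a b => by
    rw [h.eq (sc l R) (a.mul_left _) (h0 R b), h.hs R a b, k.hs R (one_dvd _) b, h.eq R a b]
    ring
  refine ⟨h1, fun i R a b j => ?_, fun R a b => ?_⟩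
  · rw [h.eq _ ((lev_hm h.pr h.nd).2 a) (disc_hm i R ▸ b.mul_right _), h.hh i R a b,
      k.hh i R (one_dvd _) b j, h.eq R a b]
  · rw [sum_congr rfl fun i _ => h.nb (R := sc l R) (a.mul_left _) (h0 R b)
      (vl_sc i l R ▸ dvd_mul_right _ _), ← mul_sum, k.ha R (one_dvd _) b, h1 R a b, h.hs R a b,
      k.hs R (one_dvd _) b, h.eq R a b]
    linear_combination l * μ R * w R * h.sq

theorem fac_of (hl : l.Prime) (hN : ¬ l ∣ N) (h : Tm c χ K μ) (hc : ¬ l ∣ c) (h1 : χ 1 = 1)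
    (h2 : χ l ^ 2 = 1) (k : Tm c' ψ K w) (hc' : N.Coprime c')
    (e : ∀ R, ω R = w (G5.fV N R) * μ (G5.fV N R)) :
    Fac l N K ω (fun R => ψ N * μ (G5.fV N R)) w (χ l) := by
  have N0 : N ≠ 0 := fun j => hN (j ▸ dvd_zero l)
  have c1 := (cop hl hc).symm
  have c2 := Nat.isCoprime_iff_coprime.2 hc'
  refine ⟨hl, hN, fun R a b => ?_, fun i R a b => ?_, fun R a b => ?_, h2⟩
  · rw [e, k R _ N 0 1 (-N) 0 b (disc_fV N0 a ▸ b) (sc_fV N0 a) (by simpa using c2.mul_left c2)]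
    ring
  · have a' := (lev_hm (i := i) hl hN).2 a
    have b' : K ∣ fdisc (G5.fV N (hm l i R)) := by
      rw [disc_fV N0 a', disc_hm]
      exact b.mul_right _
    obtain ⟨x, y, u, j, -, h3⟩ := hm_eq i
    rw [h3, ← mul_zero (N : ℤ)] at b' ⊢
    rw [h _ _ 1 _ _ _ _ (disc_fV N0 a ▸ b) b' (fV_map N0 a x y 0 u) (by
      rwa [show 1 * (u * x - -0 * -(N * y)) = l by linear_combination j]), h1, one_mul]
  · obtain ⟨_, y, z⟩ := R
    obtain ⟨x, rfl⟩ := a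
    have a : (N : ℤ) ∣ (N * x, y, z).1 := dvd_mul_right _ _
    rw [h (G5.fV N (N * x, y, z)) (G5.fV N (sc l (N * x, y, z))) l l 0 0 l (disc_fV N0 a ▸ b)
      (by rw [disc_fV N0 (a.mul_left _), disc_sc]; exact b.mul_right _) ?_
      (by simpa using c1.mul_left (c1.mul_left c1)), mul_left_comm]
    rw [show sc l (N * x, y, z) = (N * (l * x), l * y, l * z) by simp [sc, mul_left_comm],
      G5.fV_eq N0, G5.fV_eq N0]
    simp only [sc, fmap, fval, Prod.mk.injEq]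
    refine ⟨?_, ?_, ?_⟩ <;> ring

theorem fac_cop (hd : Squarefree d) (h : Cls d K) (hl : l.Prime) (hN : ¬ l ∣ N)
    (k : ¬ l ∣ cnd d) : ∃ μ, Fac l N K (gU N d) μ (fun _ => 1) (kro d l) :=
  ⟨_, fac_of hl hN (tm_gD hd h) k (pchr_kro hd).one ((pchr_kro hd).sq (cop hl k).symm)
    (tm_one (c := 1) K) (Nat.coprime_one_right _) fun _ => (one_mul _).symm⟩

theorem fac_odd (hd : Squarefree d) (h : Cls d K) (hl : l.Prime) (hN : ¬ l ∣ N)
    (k : odp d = l * C) :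
    ∃ μ, Fac l N K (gU N d) μ (gL l fun k => J(k | l)) (chi2 d l * J(l | C)) := by
  have hs := k ▸ odp_sqf hd
  have ho := k ▸ odp_odd hd
  obtain ⟨h1, h2, h3⟩ := split hl hs
  have h4 : l ≠ 2 := fun j => absurd (Nat.Odd.of_mul_left ho) (by rw [j]; decide)
  have h5 : ¬ l ∣ cond2 d := fun j => h4 ((Nat.prime_dvd_prime_iff_eq hl Nat.prime_two).1
    (hl.dvd_of_dvd_pow (n := 3) (j.trans (by unfold cond2; split_ifs <;> decide))))
  have h6 := h.2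
  rw [k, Nat.cast_mul] at h6
  refine ⟨_, fac_of hl hN ((tm_two h.1).mul (tm_gch h1 (Nat.Odd.of_mul_right ho)
    ((dvd_mul_left _ _).trans h6))) (fun j => (hl.dvd_mul.1 j).elim h5 h3)
    (by rw [(pchr_chi2 d).one, jacobiSym.one_left, one_mul]) (by
      rw [mul_pow, (pchr_chi2 d).sq (cop hl h5).symm, jacobiSym.sq_one (by simpa using h2), one_mul])
    (lc_odd hl h4 ((dvd_mul_right _ _).trans h6)).tm (hl.coprime_iff_not_dvd.2 hN).symm fun R => ?_⟩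
  rw [gU, gD_eq, k, G5.gch_mul h2, G5.gch_prime hl, gl_eq, mul_left_comm]

theorem fac_two (hd : Squarefree d) (h : Cls d K) (hN : ¬ 2 ∣ N) (k : d % 4 ≠ 1) :
    ∃ μ, Fac 2 N K (gU N d) μ (gL 2 (chi2 d)) J(2 | odp d) := by
  have h1 := Nat.coprime_two_left.2 (odp_odd hd)
  exact ⟨_, fac_of Nat.prime_two hN (tm_gch (odp_sqf hd) (odp_odd hd) h.2)
    (Nat.prime_two.coprime_iff_not_dvd.1 h1) (jacobiSym.one_left _)
    (jacobiSym.sq_one h1) (lc_two k h.1).tm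
    (Nat.prime_two.coprime_iff_not_dvd.2 hN).symm fun R => gD_eq _ _⟩

theorem cnd_cases (hl : l.Prime) (k : l ∣ cnd d) : (l = 2 ∧ d % 4 ≠ 1) ∨ l ∣ odp d :=
  (hl.dvd_mul.1 k).imp_left fun j => by
    have h : d % 4 ≠ 1 := fun i => hl.not_dvd_one (by rwa [cond2, if_pos i] at j)
    exact ⟨(Nat.prime_dvd_prime_iff_eq hl Nat.prime_two).1 (hl.dvd_of_dvd_pow (n := 3)
      (j.trans (by rcases cond2_cases h with i | i <;> rw [i] <;> decide))), h⟩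

theorem ne_two (hd : Squarefree d) (k : l ∣ odp d) : l ≠ 2 := fun j =>
  absurd ((odp_odd hd).of_dvd_nat k) (by rw [j]; decide)

theorem cmp_gU (hd : Squarefree d) (h : Cls d K) (hl : l.Prime) (hN : ¬ l ∣ N) :
    Cmp l N K (gU N d) (kro d l) := by
  by_cases k : l ∣ cnd d
  · rw [kro_zero hd hl k]
    rcases cnd_cases hl k with ⟨rfl, j⟩ | j
    · obtain ⟨μ, f⟩ := fac_two hd h hN j
      simpa using f.cmp (lc_two j h.1).cmp
    · obtain ⟨μ, f⟩ := fac_odd hd h hl hN j.choose_spec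
      simpa using f.cmp (lc_odd hl (ne_two hd j) ((Int.natCast_dvd_natCast.2 j).trans h.2)).cmp
  · obtain ⟨μ, f⟩ := fac_cop hd h hl hN k
    simpa using f.cmp (cmp_one l K)

theorem ns_cop (hd : Squarefree d) (h : Cls d (fdisc R)) (hl : l.Prime) (hN : ¬ l ∣ N)
    (a : (N : ℤ) ∣ R.1) (k : ¬ l ∣ cnd d) (j : ¬ (l : ℤ) ^ 2 ∣ fdisc R) :
    Ns l (gU N d) R = (kro d l + kr (fdisc R) l * kro d l) * gU N d R := by
  obtain ⟨μ, f⟩ := fac_cop hd h hl hN k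
  rw [f.ns a dvd_rfl ((cnt hl (pr_of j)).trans (mul_one _).symm)]
  ring

theorem ns_ram (hd : Squarefree d) (h : Cls d (fdisc R)) (hl : l.Prime) (hN : ¬ l ∣ N)
    (a : (N : ℤ) ∣ R.1) (k : odp d = l * C) (j : fdisc R = l * e) (he : ¬ (l : ℤ) ∣ e) :
    Ns l (gU N d) R = chi2 d l * J(l | C) * J(-e | l) * gU N d R := by
  obtain ⟨μ, f⟩ := fac_odd hd h hl hN k
  refine f.ns a dvd_rfl ?_
  have := G5.Hw.ns_ram (C := 1) hl (by simpa using hl.prime.squarefree)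
    (by simpa using (odp_odd hd).of_dvd_nat ⟨C, k⟩) (one_dvd _) j he
  rwa [NS, mul_one, funext (G5.gch_prime hl), gl_eq, jacobiSym.one_right, mul_one] at this

theorem ns_odd (hd : Squarefree d) (h : Cls d (fdisc R)) (hl : l.Prime) (hN : ¬ l ∣ N)
    (a : (N : ℤ) ∣ R.1) (k : l ∣ odp d) (j : fdisc R = e * l ^ 2) (he : ¬ (l : ℤ) ∣ e) :
    Ns l (gU N d) R = 0 := by
  obtain ⟨μ, f⟩ := fac_odd hd h hl hN k.choose_spec
  rw [f.ns (ν := 0) a dvd_rfl (((lc_odd hl (ne_two hd k)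
    ((Int.natCast_dvd_natCast.2 k).trans h.2)).ns (fun i => absurd i (ne_two hd k)) j
    fun Q i => sum_jac hl (ne_two hd k) (i ▸ he)).trans (zero_mul _).symm), mul_zero, zero_mul]

theorem ns_two (hd : Squarefree d) (h : Cls d (fdisc R)) (hN : ¬ 2 ∣ N) (a : (N : ℤ) ∣ R.1)
    (k : d % 4 ≠ 1) {u : ℤ} (hu : u % 4 = 1) (j : fdisc R = cond2 d ^ 2 * u) :
    Ns 2 (gU N d) R = 0 := by
  obtain ⟨μ, f⟩ := fac_two hd h hN k
  obtain ⟨s, hs⟩ : (4 : ℤ) ∣ cond2 d := by rcases cond2_cases k with i | i <;> rw [i] <;> decide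
  rw [f.ns (ν := 0) a dvd_rfl (((lc_two k h.1).ns (e := 4 * s ^ 2 * u)
    (fun _ => ⟨0, -(s ^ 2 * u), by ring⟩) (by rw [j, hs]; push_cast; ring)
    fun Q i => sum_two k hu (by rw [i, hs]; ring)).trans (zero_mul _).symm), mul_zero, zero_mul]

theorem sum_prim (hl : l.Prime) (hN : ¬ l ∣ N) (h4 : 4 ∣ β ^ 2 - e) (hω : Cmp l N K ω κ)
    (hd : K ∣ e) (h : Pr l R) :
    ∑ i, ex (hm l i) (wF N ω e β) R = wF N ω (e * l ^ 2) (β * l) R := by
  by_cases hF : G5.Fam N (e * l ^ 2) (β * l) R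
  · have h1 := cnt hl h
    rw [kr_zero hl (hF.2.1 ▸ (dvd_pow_self _ two_ne_zero).mul_left _), add_zero] at h1
    rw [wF, if_pos hF, ← one_mul (ω R), ← h1, sum_mul]
    refine sum_congr rfl fun i _ => ?_
    split_ifs with k
    · obtain ⟨Q, rfl⟩ := exists_hm hl (fun _ => ⟨β, h4⟩) hF.2.1 h k
      have hQ := (fam_hm hl hN h4).1 hF
      rw [ex_of (hm_inj hl.ne_zero i), wF, if_pos hQ, one_mul, hω.hh i Q hQ.1 (hQ.2.1 ▸ hd) h]
    · rw [zero_mul, ex_not]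
      rintro ⟨Q, rfl⟩
      exact k ((dvd_pow_self _ two_ne_zero).trans (vl_hm i Q))
  · rw [wF, if_neg hF]
    refine sum_eq_zero fun i _ => ?_
    by_cases k : ∃ Q, hm l i Q = R
    · obtain ⟨Q, rfl⟩ := k
      rw [ex_of (hm_inj hl.ne_zero i), wF, if_neg (mt (fam_hm hl hN h4).2 hF)]
    · exact ex_not _ k

theorem sum_sc (hl : l.Prime) (hN : ¬ l ∣ N) (h4 : 4 ∣ β ^ 2 - e) :
    ∑ i, ex (hm l i) (wF N ω e β) (sc l R) = if G5.Fam N e β R then Ns l ω R else 0 := by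
  have h0 : (l : ℤ) ≠ 0 := Nat.cast_ne_zero.2 hl.ne_zero
  rw [Ns, ← sum_const_zero (s := (univ : Finset (Option (Fin l)))), ← sum_ite_irrel]
  simp only [sum_const_zero]
  refine sum_congr rfl fun i _ => ?_
  by_cases k : (l : ℤ) ∣ vl l i R
  · rw [if_pos k, ← hm_nb k, ex_of (hm_inj hl.ne_zero i), wF, ← fam_hm (i := i) hl hN h4, hm_nb k,
      fam_sc hl hN h4]
  · rw [if_neg k, ite_self, ex_not]
    rintro ⟨Q, e⟩
    have := vl_hm i Q
    rw [e, vl_sc, sq, mul_dvd_mul_iff_left h0] at this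
    exact k this

theorem ns_sq (hl : l.Prime) (hN : ¬ l ∣ N) (h4 : 4 ∣ β ^ 2 - e) (hω : Cmp l N K ω κ) (hd : K ∣ e)
    (hF : G5.Fam N (e * l ^ 2) (β * l) R) (h : Pr l R) : Ns l ω R = κ * ω R := by
  have h1 := cnt hl h
  rw [kr_zero hl (hF.2.1 ▸ (dvd_pow_self _ two_ne_zero).mul_left _), add_zero] at h1
  rw [← one_mul (κ * ω R), ← h1, sum_mul]
  refine sum_congr rfl fun i _ => ?_
  split_ifs with k
  · obtain ⟨Q, rfl⟩ := exists_hm hl (fun _ => ⟨β, h4⟩) hF.2.1 h k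
    have hQ := (fam_hm hl hN h4).1 hF
    rw [hm_inj hl.ne_zero i ((hm_nb k).trans (hm_sc i l Q).symm), hω.hs Q hQ.1 (hQ.2.1 ▸ hd),
      hω.hh i Q hQ.1 (hQ.2.1 ▸ hd) h, one_mul]
  · rw [zero_mul]

/-- The recursion on weights. -/
theorem w_rec (hl : l.Prime) (hN : ¬ l ∣ N) (h4 : 4 ∣ β ^ 2 - e) (hω : Cmp l N e ω κ)
    (hη : ¬ l ∣ m → ∀ R : Fm, (N : ℤ) ∣ R.1 → fdisc R = e * m ^ 2 → Ns l ω R = (κ + η) * ω R)
    (R : Fm) : ∑ i, ex (hm l i) (wF N ω (e * m ^ 2) (β * m)) R =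
      wF N ω (e * (l * m : ℕ) ^ 2) (β * (l * m : ℕ)) R + if l ∣ m then
        l * ex (sc (l * l)) (wF N ω (e * (m / l : ℕ) ^ 2) (β * (m / l : ℕ))) R
      else η * ex (sc l) (wF N ω (e * m ^ 2) (β * m)) R := by
  have h0 : (l : ℤ) ≠ 0 := Nat.cast_ne_zero.2 hl.ne_zero
  have h1 : ∀ (m : ℤ) (R : Fm), wF N ω (e * m ^ 2 * l ^ 2) (β * m * l) (sc l R) =
      κ * wF N ω (e * m ^ 2) (β * m) R := fun m R => by
    rw [wF, wF, fam_sc hl hN (four h4 m)]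
    split_ifs with j
    exacts [hω.hs R j.1 (j.2.1 ▸ dvd_mul_right _ _), (mul_zero _).symm]
  rw [show e * ((l * m : ℕ) : ℤ) ^ 2 = e * m ^ 2 * l ^ 2 by push_cast; ring,
    show β * ((l * m : ℕ) : ℤ) = β * m * l by push_cast; ring]
  by_cases hR : Pr l R
  · rw [sum_prim hl hN (four h4 m) hω (dvd_mul_right _ _) hR, ex_not, ex_not]
    · simp
    · rintro ⟨Q, rfl⟩
      exact not_pr 1 Q (by rwa [mul_one])
    · rintro ⟨Q, rfl⟩
      exact not_pr l Q hR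
  obtain ⟨R, rfl⟩ := exists_sc hR
  rw [sum_sc hl hN (four h4 m), h1]
  by_cases hm : l ∣ m
  · obtain ⟨m, rfl⟩ := hm
    rw [if_pos (dvd_mul_right _ _), Nat.mul_div_cancel_left _ hl.pos,
      show e * ((l * m : ℕ) : ℤ) ^ 2 = e * m ^ 2 * l ^ 2 by push_cast; ring,
      show β * ((l * m : ℕ) : ℤ) = β * m * l by push_cast; ring]
    by_cases k : Pr l R
    · rw [ex_not, mul_zero, add_zero, wF]
      · split_ifs with j
        · exact ns_sq hl hN (four h4 m) hω (dvd_mul_right _ _) j k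
        · rw [mul_zero]
      · rintro ⟨Q, j⟩
        rw [← sc_sc] at j
        exact not_pr 1 Q (by rwa [mul_one, sc_inj h0 j])
    · obtain ⟨Q, rfl⟩ := exists_sc k
      rw [sc_sc, ex_of (sc_inj (mul_ne_zero h0 h0)), wF, wF, fam_sc hl hN (four h4 m)]
      split_ifs with j
      · rw [← hω.ha Q j.1 (j.2.1 ▸ dvd_mul_right _ _)]
        exact sum_congr rfl fun i _ => if_pos (vl_sc i l Q ▸ dvd_mul_right _ _)
      · simp
  · rw [if_neg hm, ex_of (sc_inj h0), wF]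
    split_ifs with j
    · rw [hη hm R j.1 j.2.1, add_mul]
    · simp

end Pool.Agent.G7.Hv
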