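import Pool.Agent.Lib.MP_696deb_nt.B6.MTA
import Pool.Agent.Lib.MP_696deb_nt.B6.PTd
import Pool.Agent.Lib.MP_696deb_nt.B7.LOK0

/-! Kummer cocycles of quadratic twists: isotropy, and their number at the place above two. -/

set_option autoImplicit false

open scoped NNReal Classical
open Matrix

namespace Pool.Agent.B6.B7

open Pool.Agent.Lib.MP_696deb_nt (Pt pmap xco yco)
open Pool.Agent.Lib.MP_696deb_nt.B2

variable {m : ℕ} {D : Subgroup Gam} {x y : Gam → Fin 2 → ZMod (2 ^ m)}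
  {r : Gam → (Fin 2 → ZMod (2 ^ m)) → Fin 2 → ZMod (2 ^ m)} {d : ℤ} {w : Plc} {σ g : Gam}

theorem lt_pow (v : Fin 2 → ZMod (2 ^ m)) : 2 ^ m • v = 0 := funext fun i => by
  rw [Pi.smul_apply, nsmul_eq_mul, ZMod.natCast_self, zero_mul, Pi.zero_apply]

theorem iso_gen [Cw] (c4 : WZ.c₄ ≠ 0) (c6 : WZ.c₆ ≠ 0) {ι : (Fin 2 → ZMod (2 ^ m)) →+ EE}
    (hι : Function.Injective ι) (hr : ∀ g v, g • ι v = ι (r g v)) (hD : IsClosed (D : Set Gam))
    {S S' : EE} (hx : ∀ g ∈ D, ι (x g) = g • S - S) (hy : ∀ g ∈ D, ι (y g) = g • S' - S') :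
    Spl m D fun g h => det2 (x g) (r g (y h)) := by
  obtain ⟨E⟩ := exists_emb c4 c6
  obtain ⟨T, -⟩ := E.exists_rho
  choose A hA using fun v => T.surj m (ι v) (by rw [← map_nsmul, lt_pow, map_zero])
  obtain ⟨M, hM⟩ : ∃ M : Matrix (Fin 2) (Fin 2) (ZMod (2 ^ m)), ∀ v, T.emb m (M *ᵥ v) = ι v := by
    refine ⟨of fun i j => A (Pi.single j 1) i, fun v => ?_⟩
    have e1 : (of fun i j => A (Pi.single j 1) i) *ᵥ v =
        (v 0).val • A (Pi.single 0 1) + (v 1).val • A (Pi.single 1 1) := by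
      ext i
      simp only [mulVec, dotProduct, Fin.sum_univ_two, of_apply, Pi.add_apply, Pi.smul_apply]
      simp [mul_comm]
    have e2 : v = (v 0).val • Pi.single 0 1 + (v 1).val • Pi.single 1 1 := by
      ext i
      simp only [Pi.add_apply, Pi.smul_apply]
      fin_cases i <;> simp
    rw [e1, map_add, map_nsmul, map_nsmul, hA, hA, ← map_nsmul, ← map_nsmul, ← map_add, ← e2]
  obtain ⟨u, hu⟩ : IsUnit M.det := (isUnit_iff_isUnit_det M).1 (mulVec_surjective_iff_isUnit.1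
    (Finite.surjective_of_injective fun a b e => hι (by rw [← hM, e, hM])))
  have h3 : ∀ g v, mred m (T.ρ g) *ᵥ M *ᵥ v = M *ᵥ r g v := fun g v => T.inj m (by
    rw [← T.smul, hM, hM, hr])
  have k := T.iso m D (fun g => M *ᵥ x g) (fun g => M *ᵥ y g) S S' hD
    (fun g hg => by rw [hM, hx g hg]) fun g hg => by rw [hM, hy g hg]
  refine tac_lin k k ↑u⁻¹ 0 fun g _ h _ => ?_
  simp only [h3, det2_mulVec, ← hu, zero_mul, add_zero, Units.inv_mul_cancel_left]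

theorem iso_gen' {W : WeierstrassCurve ℚ} (W' : WeierstrassCurve ℤ)
    (e : W = W'.map (Int.castRingHom ℚ)) (h0 : W'.Δ ≠ 0) (c4 : W'.c₄ ≠ 0) (c6 : W'.c₆ ≠ 0)
    {ι : (Fin 2 → ZMod (2 ^ m)) →+ Pt W Qbar} (hι : Function.Injective ι)
    (hr : ∀ (g : Gam) v, pmap (g : Qbar →+* Qbar) (ι v) = ι (r g v))
    (hD : IsClosed (D : Set Gam)) {S S' : Pt W Qbar}
    (hx : ∀ g ∈ D, ι (x g) = pmap (g : Qbar →+* Qbar) S - S)
    (hy : ∀ g ∈ D, ι (y g) = pmap (g : Qbar →+* Qbar) S' - S') :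
    Spl m D fun g h => det2 (x g) (r g (y h)) := by
  subst e
  exact @iso_gen m D x y r ⟨W', h0⟩ c4 c6 ι hι hr hD S S' hx hy

theorem iso_tw [Cs] (hd : d ≠ 0) {ι : (Fin 2 → ZMod (2 ^ m)) →+ EE} (hι : Function.Injective ι)
    (hr : ∀ g v, tw d g (ι v) = ι (r g v)) (hD : IsClosed (D : Set Gam)) {S S' : EE}
    (hx : ∀ g ∈ D, ι (x g) = tw d g S - S) (hy : ∀ g ∈ D, ι (y g) = tw d g S' - S') :
    Spl m D fun g h => det2 (x g) (r g (y h)) := by
  have e : Et d = (⟨0, 0, 0, -27 * WZ.c₄ * d ^ 2, -54 * WZ.c₆ * d ^ 3⟩ : WeierstrassCurve ℤ).map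
      (Int.castRingHom ℚ) := by
    ext <;> simp [Et]
  have k : ∀ {x : Gam → Fin 2 → ZMod (2 ^ m)} {S : EE}, (∀ g ∈ D, ι (x g) = tw d g S - S) →
      ∀ g ∈ D, (lkPhi hd).symm (ι (x g)) =
        pmap (g : Qbar →+* Qbar) ((lkPhi hd).symm S) - (lkPhi hd).symm S := fun h g hg =>
    (lkPhi hd).injective (by simp only [map_sub, lkPhi_pmap, AddEquiv.apply_symm_apply, h g hg])
  refine iso_gen' _ e (fun k => ?_) ?_ ?_ (ι := (lkPhi hd).symm.toAddMonoidHom.comp ι)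
    ((lkPhi hd).symm.injective.comp hι) (fun g v => (lkPhi hd).injective ?_) hD (k hx) (k hy)
  · have := (Et_elliptic hd).1.ne_zero
    rw [e, WeierstrassCurve.map_Δ, k, map_zero] at this
    exact this rfl
  · have := cs_ne.1
    generalize WZ.c₄ = c at this ⊢
    simp [WeierstrassCurve.c₄, WeierstrassCurve.b₂, WeierstrassCurve.b₄, hd, this]
  · have := cs_ne.2
    generalize WZ.c₆ = c at this ⊢
    simp [WeierstrassCurve.c₆, WeierstrassCurve.b₂, WeierstrassCurve.b₄, WeierstrassCurve.b₆, hd,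
      this]
  · rw [lkPhi_pmap]
    simp only [AddMonoidHom.comp_apply, AddEquiv.coe_toAddMonoidHom, AddEquiv.apply_symm_apply]
    rw [hr]

theorem lt_orb {α : Type} [MulAction Gam α] (hσ : σ ∈ D) (h1 : chi d σ = -1) {z : α}
    (hz : ∀ g ∈ D ⊓ (chi d).ker, g • z = z) (hg : g ∈ D) :
    (chi d g = 1 ∧ g • z = z ∧ g • σ • z = σ • z) ∨
      (chi d g = -1 ∧ g • z = σ • z ∧ g • σ • z = z) := by
  refine (Int.units_eq_one_or (chi d g)).imp (fun e => ⟨e, hz g ⟨hg, e⟩, ?_⟩)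
    fun e => ⟨e, ?_, ?_⟩
  · rw [← inv_smul_eq_iff, smul_smul, smul_smul]
    exact hz _ ⟨D.mul_mem (D.mul_mem (D.inv_mem hσ) hg) hσ, by simp [e]⟩
  · rw [← inv_smul_eq_iff, smul_smul]
    exact hz _ ⟨D.mul_mem (D.inv_mem hσ) hg, by simp [e, h1]⟩
  · rw [smul_smul]
    exact hz _ ⟨mul_mem hg hσ, by simp [e, h1]⟩

theorem lt_sq {a b : ℝ≥0} (h : a ^ 2 ≤ b ^ 2) : a ≤ b :=
  (pow_le_pow_iff_left₀ zero_le zero_le two_ne_zero).1 h

section

variable [Cw]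

/-- The points whose parameter is bounded. -/
noncomputable def Kq (w : Plc) (t : ℝ≥0) : AddSubgroup EE where
  carrier := {P | P ∈ K1 w ∧ w.V (zc P) ^ 2 ≤ t}
  zero_mem' := ⟨zero_mem _, by simp⟩
  add_mem' := fun {P Q} h k => ⟨add_mem h.1 k.1, by
    have m : w.V (zc (P + Q)) ≤ max (w.V (zc P)) (w.V (zc Q)) := by
      rw [← sub_add_cancel (zc (P + Q)) (zc P + zc Q)]
      exact w.V.map_add_le ((zc_add h.1 k.1 (le_max_left _ _) (le_max_right _ _)).trans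
        (pow_le_of_le_one zero_le (max_le (zc_lt h.1).le (zc_lt k.1).le) two_ne_zero))
        (w.V.map_add _ _)
    rcases le_max_iff.1 m with m | m
    exacts [(pow_le_pow_left₀ zero_le m 2).trans h.2, (pow_le_pow_left₀ zero_le m 2).trans k.2]⟩
  neg_mem' h := ⟨neg_mem h.1, by rw [V_zc_neg h.1]; exact h.2⟩

theorem lt_fin (hd : ¬ (w.p : ℤ) ∣ WZ.Δ) {R : Finset Qbar}
    (hR : ∀ x, Fx D x → w.V x ≤ 1 → ∃ r ∈ R, w.V (x - r) < 1)
    (gap : ∀ x, Fx D x → x ≠ 0 → ∃ k : ℤ, w.V x ^ 2 = ((2 : ℝ≥0) ^ k)⁻¹) (k : ℕ) :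
    (fixE D ⊓ Kq w (2 ^ k)⁻¹).relIndex (fixE D) ≠ 0 := by
  have fz : ∀ P ∈ fixE D, Fx D (zc P) := fun P hP g hg => by rw [← zc_smul, hP g hg]
  induction k with
  | zero =>
    have e : ∀ P ∈ K1 w, P ∈ Kq w (2 ^ 0)⁻¹ := fun P h =>
      ⟨h, by simpa using pow_le_one₀ zero_le (zc_lt h).le⟩
    refine tak_fin (Finset.insertNone (R ×ˢ R)) (fun P i => i.elim (P ∈ K1 w) fun r =>
      P ∉ K1 w ∧ w.V (xco P - r.1) < 1 ∧ w.V (yco P - r.2) < 1) (fun P hP => ?_) ?_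
    · by_cases k : P ∈ K1 w
      · exact ⟨none, Finset.none_mem_insertNone, k⟩
      obtain ⟨r, r1, r2⟩ := hR _ (fun g hg => by rw [← xco_smul, hP g hg]) (V_xco_le k).1
      obtain ⟨t, t1, t2⟩ := hR _ (fun g hg => by rw [← yco_smul, hP g hg]) (V_xco_le k).2
      exact ⟨some (r, t), Finset.some_mem_insertNone.2 (Finset.mem_product.2 ⟨r1, t1⟩), k, r2, t2⟩
    · rintro P hP Q hQ (_ | r) a b
      · exact AddSubgroup.mem_inf.2 ⟨sub_mem hP hQ, e _ (sub_mem a b)⟩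
      · exact AddSubgroup.mem_inf.2 ⟨sub_mem hP hQ, e _ (K1_near hd a.1 b.1
          (by simpa using w.V.map_sub_lt a.2.1 b.2.1)
          (by simpa using w.V.map_sub_lt a.2.2 b.2.2))⟩
  | succ k ih =>
    refine AddSubgroup.relIndex_ne_zero_trans ?_ ih
    have g1 : ∀ P ∈ fixE D, w.V (zc P) ^ 2 < (2 ^ k)⁻¹ → w.V (zc P) ^ 2 ≤ (2 ^ (k + 1))⁻¹ :=
      fun P h1 h2 => by
        by_cases x0 : zc P = 0
        · simp [x0]
        obtain ⟨j, hj⟩ := gap _ (fz P h1) x0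
        rw [hj] at h2 ⊢
        rw [inv_lt_inv₀ (by positivity) (by positivity), ← zpow_natCast,
          zpow_lt_zpow_iff_right₀ one_lt_two] at h2
        refine inv_anti₀ (by positivity) ?_
        rw [← zpow_natCast]
        exact zpow_le_zpow_right₀ one_le_two (by push_cast; omega)
    by_cases h : ∃ P ∈ fixE D ⊓ Kq w (2 ^ k)⁻¹, ¬ w.V (zc P) ^ 2 < (2 ^ k)⁻¹
    · obtain ⟨S, s1, s2⟩ := h
      have s3 := s1.2.2.eq_of_not_lt s2
      have s4 : 0 < w.V (zc S) := pos_of_ne_zero fun e => by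
        rw [e, zero_pow two_ne_zero] at s3
        exact absurd s3 (by positivity : (0 : ℝ≥0) < _).ne
      have s5 : zc S ≠ 0 := fun e => by simp [e] at s4
      have le : ∀ P ∈ fixE D ⊓ Kq w (2 ^ k)⁻¹, w.V (zc P) ≤ w.V (zc S) := fun P hP =>
        lt_sq (hP.2.2.trans s3.ge)
      refine tak_fin R (fun P r => w.V (zc P / zc S - r) < 1) (fun P hP => hR _ (fun g hg => by
        rw [map_div₀, fz P hP.1 g hg, fz S s1.1 g hg]) ?_)
        fun P hP Q hQ r a b => ⟨(sub_mem hP hQ).1, (sub_mem hP hQ).2.1, g1 _ (sub_mem hP hQ).1 ?_⟩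
      · rw [map_div₀]
        exact div_le_one_of_le₀ (le P hP) zero_le
      · have k1 := zc_sub hP.2.1 hQ.2.1 (le P hP) (le Q hQ)
        have k2 := w.V.map_sub_lt a b
        rw [show zc P / zc S - r - (zc Q / zc S - r) = (zc P - zc Q) / zc S by ring, map_div₀,
          div_lt_one s4] at k2
        rw [← s3, ← sub_add_cancel (zc (P - Q)) (zc P - zc Q)]
        refine pow_lt_pow_left₀ (w.V.map_add_lt (k1.trans_lt ?_) k2) zero_le two_ne_zero
        rw [sq]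
        exact mul_lt_of_lt_one_left s4 (zc_lt s1.2.1)
    · push Not at h
      have e : fixE D ⊓ Kq w (2 ^ k)⁻¹ ≤ fixE D ⊓ Kq w (2 ^ (k + 1))⁻¹ := fun P hP =>
        ⟨hP.1, hP.2.1, g1 P hP.1 (h P hP)⟩
      exact (AddSubgroup.relIndex_eq_one.2 e).trans_ne one_ne_zero

/-- The points fixed by a subgroup for the twisted action. -/
noncomputable def fixT (d : ℤ) (D : Subgroup Gam) : AddSubgroup EE where
  carrier := {P | ∀ g ∈ D, tw d g P = P}
  zero_mem' g _ := tw_zero d g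
  add_mem' h k g hg := by rw [tw_add, h g hg, k g hg]
  neg_mem' h g hg := by rw [tw_neg, h g hg]

theorem lt_sixteen {n : ℕ} {ι : (Fin 2 → ZMod (2 ^ 1)) →+ EE} (hι : Function.Injective ι)
    (hn : n % 8 = 3) (hw : w.p = 2) (hd : ¬ (w.p : ℤ) ∣ WZ.Δ) (d0 : d ≠ 0)
    (hσ : σ ∈ GK n ⊓ Dec w) (h1 : chi d σ = -1) :
    ∃ S : (Fin 2 × Fin 2) × (Fin 2 → ZMod (2 ^ 1)) → EE,
      (∀ i, 2 • S i ∈ fixT d (GK n ⊓ Dec w)) ∧
        ∀ i j, S i - S j ∈ fixT d (GK n ⊓ Dec w) → i = j := by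
  have hI : Ine w ≤ GK n ⊓ Dec w := fun σ hσ => ⟨chi_ine_two hw (by omega) hσ, hσ.1⟩
  obtain ⟨c, c1, c2⟩ := tak_om hn hw
  obtain ⟨φ, hφ⟩ := exists_frob w
  have hφ2 : φ * φ ∈ GK n ⊓ Dec w :=
    ⟨(map_mul _ φ φ).trans (Int.units_mul_self _), mul_mem hφ.1 hφ.1⟩
  have hD : GK n ⊓ Dec w ≤ Dec w := inf_le_right
  generalize GK n ⊓ Dec w = D at *
  have v2 := tak_two hw
  obtain ⟨R, hR⟩ := taf_root w (q := w.p * w.p * (w.p * w.p)) (by rw [hw]; norm_num)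
  have fin := lt_fin (D := D ⊓ (chi d).ker) hd (R := R) (fun x h1 h2 => hR x (by
    have := ((hφ.mul hφ).mul (hφ.mul hφ)).2 x h2
    rwa [h1 _ ⟨mul_mem hφ2 hφ2, (map_mul _ _ _).trans (Int.units_mul_self _)⟩,
      w.V.map_sub_swap] at this)) fun x hx x0 => by
    obtain ⟨k, hk⟩ := V_of_fx_ine (w := w) (x := x * σ x) (fun g hg => by
      rcases lt_orb (z := x) hσ h1 hx (hI hg) with ⟨-, a, b⟩ | ⟨-, a, b⟩ <;>
        simp only [AlgEquiv.smul_def] at a b <;> rw [map_mul, a, b]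
      exact mul_comm _ _) (mul_ne_zero x0 ((map_ne_zero σ).2 x0))
    exact ⟨k, by rw [sq, ← Nat.cast_ofNat, ← hw, ← hk, map_mul, mem_Dec.1 (hD hσ)]⟩
  have r0 : rt d ≠ 0 := fun e => d0 (by
    have := rt_sq d
    rw [e, zero_pow two_ne_zero] at this
    exact_mod_cast this.symm)
  obtain ⟨M, hM⟩ : ∃ M, w.V (rt d) = 8 * M := ⟨w.V (rt d) / 8, by field_simp⟩
  have M0 : 0 < M := pos_of_ne_zero fun e => r0 (by rwa [e, mul_zero, map_eq_zero] at hM)
  have M1 : 8 * M ≤ 1 := hM ▸ lt_sq (by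
    rw [← map_pow, rt_sq, one_pow]
    exact (intCast_mem w.V.integer d : _))
  have v4 : ∀ x, w.V (4 * rt d * x) = 2 * M * w.V x := fun x => by
    rw [show (4 : Qbar) = 2 * 2 by norm_num, map_mul, map_mul, map_mul, v2, hM]
    field_simp
    norm_num
  have v5 : ∀ i, w.V (4 * rt d * c i) ≤ 2 * M := fun i => by
    rw [v4]; exact mul_le_of_le_one_right' (c1 i).2
  have m1 : (2 * M) ^ 2 < M := by
    rw [← NNReal.coe_lt_coe] at M0 ⊢
    rw [← NNReal.coe_le_coe] at M1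
    push_cast at M0 M1 ⊢
    nlinarith
  have m2 : M ^ 2 < M := (pow_le_pow_left₀ zero_le (le_mul_of_one_le_left' one_le_two) 2).trans_lt m1
  have m3 : 2 * M < 2⁻¹ := by
    rw [← NNReal.coe_lt_coe]
    rw [← NNReal.coe_le_coe] at M1
    push_cast at M1 ⊢
    linarith
  choose p p1 p2 using fun i => exists_zc (w := w) (z := 4 * rt d * c i)
    ((v5 i).trans_lt (m3.trans (by norm_num)))
  have p3 : ∀ i, ∀ g ∈ D ⊓ (chi d).ker, g • p i = p i := fun i g hg =>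
    zc_inj ((K1_smul (hD hg.1)).2 (p1 i)) (p1 i) (by
      rw [zc_smul, p2, map_mul, map_mul, map_ofNat, (c1 i).1 g hg.1, chi_eq_one.1 hg.2])
  have p4 : ∀ i, σ • p i ∈ K1 w := fun i => (K1_smul (hD hσ)).2 (p1 i)
  have p5 : ∀ i, zc (σ • p i) = -(4 * rt d * c i) := fun i => by
    rw [zc_smul, p2, map_mul, map_mul, map_ofNat, (c1 i).1 σ hσ, chi_spec (rt_sq d), h1]
    push_cast
    ring
  have v8 : ∀ x, w.V (2 * (4 * rt d * x)) = M * w.V x := fun x => by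
    rw [map_mul, v4, v2]
    field_simp
  have b1 : ∀ i, w.V (zc (p i - σ • p i) - 2 * (4 * rt d * c i)) < M := fun i => by
    have := zc_sub (p1 i) (p4 i) (p2 i ▸ v5 i) (by rw [p5, Valuation.map_neg]; exact v5 i)
    rw [p2, p5, sub_neg_eq_add, ← two_mul] at this
    exact this.trans_lt m1
  have b2 : ∀ i, w.V (zc (p i - σ • p i)) ≤ M := fun i => by
    rw [← sub_add_cancel (zc _) (2 * (4 * rt d * c i))]
    exact w.V.map_add_le (b1 i).le (by rw [v8]; exact mul_le_of_le_one_right' (c1 i).2)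
  have b3 : ∀ i, p i - σ • p i ∈ fixT d D ⊓ Kq w (M ^ 2) := fun i => ⟨fun g hg => by
    rcases lt_orb hσ h1 (p3 i) hg with ⟨e, a, b⟩ | ⟨e, a, b⟩ <;>
      simp [tw, e, smul_sub, a, b, neg_add_eq_sub],
    sub_mem (p1 i) (p4 i), pow_le_pow_left₀ zero_le (b2 i) 2⟩
  choose H hH using fun i => exists_half (p i - σ • p i)
  have t2 : ∀ x, 2 • ι x = 0 := fun x => by rw [← map_nsmul, show 2 • x = 0 from lt_pow x, map_zero]
  obtain ⟨k, hk⟩ := exists_pow_lt_of_lt_one (pow_pos M0 2) (by norm_num : (2 : ℝ≥0)⁻¹ < 1)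
  have le : fixT d D ≤ fixE (D ⊓ (chi d).ker) := fun P hP g hg => by
    simpa [tw, MonoidHom.mem_ker.1 hg.2] using hP g hg.1
  have i1 : (fixT d D ⊓ Kq w (M ^ 2)).relIndex (fixT d D) ≠ 0 := fun e => fin k (by
    rw [AddSubgroup.inf_relIndex_left] at e ⊢
    have e1 : Kq w (2 ^ k)⁻¹ ≤ Kq w (M ^ 2) := fun P hP =>
      ⟨hP.1, hP.2.trans (inv_pow (2 : ℝ≥0) k ▸ hk.le)⟩
    exact AddSubgroup.relIndex_eq_zero_of_le_left e1
      (AddSubgroup.relIndex_eq_zero_of_le_right le e))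
  refine tak_idx (B := fixT d D ⊓ Kq w (M ^ 2)) (nsmulAddMonoidHom 2) exists_half
    (fun P hP => nsmul_mem hP 2) (fun P hP => nsmul_mem hP 2) inf_le_left i1
    (fun i => H i.1 + ι i.2) (fun i => ?_) ?_
  · rw [nsmulAddMonoidHom_apply, smul_add, hH, t2, add_zero]
    exact b3 _
  rintro ⟨i, x⟩ ⟨j, y⟩ k
  have k0 : w.V (zc _) ≤ M := lt_sq k.2.2
  have k1 := Kz_two hw ⟨k.2.1, k0.trans_lt ((le_mul_of_one_le_left' one_le_two).trans_lt m3)⟩
  obtain rfl : i = j := c2 i j (by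
    rw [smul_sub, smul_add, smul_add, hH, hH, t2, t2, add_zero, add_zero] at k1
    have k3 := (zc_sub (b3 i).2.1 (b3 j).2.1 (b2 i) (b2 j)).trans_lt m2
    have k2 : w.V (zc (p i - σ • p i - (p j - σ • p j))) < M := by
      rw [k1]
      exact (mul_le_mul_right k0 _).trans_lt (mul_lt_of_lt_one_left M0 (by norm_num))
    have k4 := w.V.map_sub_lt (w.V.map_sub_lt k2 k3) (w.V.map_sub_lt (b1 i) (b1 j))
    rw [show ∀ a b e x y : Qbar, e - (e - (a - b)) - (a - 2 * (4 * rt d * x) -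
      (b - 2 * (4 * rt d * y))) = 2 * (4 * rt d * (x - y)) from fun _ _ _ _ _ => by ring,
      v8] at k4
    exact (mul_lt_iff_lt_one_right M0).1 k4)
  simp only [add_sub_add_left_eq_sub] at k k1
  rw [smul_sub, t2, t2, sub_zero, zc_zero, map_zero] at k1
  have k5 : ι x - ι y = 0 := by_contra fun e => (mul_pos (by norm_num) (zc_pos k.2.1 e)).ne k1
  rw [hι (sub_eq_zero.1 k5)]

theorem lt_cnt {ι : Type} [Fintype ι] {S : ι → EE} (h1 : ∀ i, 2 • S i ∈ fixT d D)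
    (h2 : ∀ i j, S i - S j ∈ fixT d D → i = j) (m : ℕ) : ∃ s : Finset (Gam → EE),
      s.card = Fintype.card ι ^ m ∧ ∀ ξ ∈ s, (∀ g ∉ D, ξ g = 0) ∧
      (∀ g, 2 ^ m • ξ g = 0) ∧ ∃ S : EE, ∀ g ∈ D, ξ g = tw d g S - S := by
  induction m with
  | zero =>
    refine ⟨{0}, rfl, fun ξ hξ => ?_⟩
    rw [Finset.mem_singleton.1 hξ]
    exact ⟨fun _ _ => rfl, fun _ => smul_zero _, 0, fun g _ => by simp [tw_zero]⟩
  | succ m ih =>
    obtain ⟨s, hs, hz⟩ := ih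
    choose R hR using fun i => tab_half m (S i)
    let η : ι → Gam → EE := fun i g => if g ∈ D then tw d g (R i) - R i else 0
    have e1 : ∀ i, ∀ g ∈ D, η i g = tw d g (R i) - R i := fun i g hg => if_pos hg
    have e0 : ∀ i, ∀ g ∉ D, η i g = 0 := fun i g hg => if_neg hg
    have e2 : ∀ i, ∀ g ∈ D, 2 ^ m • η i g = tw d g (S i) - S i :=
      fun i g hg => by rw [e1 i g hg, smul_sub, ← tw_nsmul, hR]
    refine ⟨(Finset.univ ×ˢ s).image fun t => η t.1 + t.2, ?_, fun ξ hξ => ?_⟩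
    · rw [Finset.card_image_of_injOn, Finset.card_product, hs, Finset.card_univ, pow_succ']
      rintro ⟨i, ξ⟩ hξ ⟨j, ξ'⟩ hξ' e
      have k : η i + ξ = η j + ξ' := e
      have a1 := (hz ξ (Finset.mem_product.1 hξ).2).2.1
      have a2 := (hz ξ' (Finset.mem_product.1 hξ').2).2.1
      obtain rfl : i = j := h2 i j fun g hg => by
        have k2 := congrArg (fun f : Gam → EE => 2 ^ m • f g) k
        simp only [Pi.add_apply, smul_add, a1, a2, add_zero, e2 _ g hg] at k2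
        rw [tw_sub, sub_eq_sub_iff_sub_eq_sub, k2]
      rw [add_left_cancel k]
    · obtain ⟨⟨i, ξ'⟩, h', rfl⟩ := Finset.mem_image.1 hξ
      obtain ⟨a0, a1, Q, a2⟩ := hz ξ' (Finset.mem_product.1 h').2
      dsimp only
      refine ⟨fun g hg => ?_, fun g => ?_, R i + Q, fun g hg => ?_⟩
      · rw [Pi.add_apply, e0 i g hg, a0 g hg, add_zero]
      · rw [Pi.add_apply, pow_succ', mul_smul, smul_add, a1, add_zero]
        by_cases hg : g ∈ D
        · rw [e2 i g hg, smul_sub, ← tw_nsmul, h1 i g hg, sub_self]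
        · rw [e0 i g hg, smul_zero, smul_zero]
      · rw [Pi.add_apply, e1 i g hg, a2 g hg, tw_add]
        abel

end

variable [Md]

/-- Twisted Kummer cocycles are orthogonal. -/
theorem _root_.Pool.Agent.B6.Tate.iso_tw (T : Tate) (hd : d ≠ 0) (hD : IsClosed (D : Set Gam))
    {S S' : EE} (hx : ∀ g ∈ D, T.emb m (x g) = tw d g S - S)
    (hy : ∀ g ∈ D, T.emb m (y g) = tw d g S' - S') :
    Spl m D fun g h => det2 (x g) ((chi d g : ℤ) • mred m (T.ρ g) *ᵥ y h) :=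
  B7.iso_tw (r := fun g v => (chi d g : ℤ) • mred m (T.ρ g) *ᵥ v) hd (T.inj m) (T.tw_emb d) hD
    hx hy

/-- The number of twisted Kummer cocycles at two. -/
theorem _root_.Pool.Agent.B6.Tate.kumc_tw (T : Tate) (hd : d ≠ 0) {n : ℕ} (m : ℕ) (hn : n % 8 = 3)
    (hw : w.p = 2) : (16 ^ m : ℕ∞) ≤
    Set.encard {c : Gam → Fin 2 → ZMod (2 ^ m) | (∀ g ∉ GK n ⊓ Dec w, c g = 0) ∧
      ∃ S : EE, ∀ g ∈ GK n ⊓ Dec w, T.emb m (c g) = tw d g S - S} := by
  by_cases h : ∀ g ∈ GK n ⊓ Dec w, chi d g = 1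
  · refine (T.kumc n m w hn hw).trans (Set.encard_le_encard fun c hc => ⟨hc.1, hc.2.imp
      fun S k g hg => ?_⟩)
    rw [k g hg, tw, h g hg, Units.val_one, one_smul]
  push Not at h
  obtain ⟨σ, hσ, h1⟩ := h
  obtain ⟨S, h1, h2⟩ := lt_sixteen (T.inj 1) hn hw
    (fun k => ne_two_of_dvd ((dvd_Δ w.prime).1 k) hw) hd hσ
    ((Int.units_eq_one_or _).resolve_left h1)
  obtain ⟨s, hs, hz⟩ := lt_cnt h1 h2 m
  choose! f hf using T.surj m
  have e : (16 ^ m : ℕ∞) = (s : Set (Gam → EE)).encard := by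
    rw [Set.encard_coe_eq_coe_finsetCard, hs]
    norm_cast
  rw [e]
  refine Set.encard_le_encard_of_injOn (f := fun ξ g => f (ξ g)) (fun ξ hξ => ?_)
    fun ξ hξ ξ' hξ' k => funext fun g => ?_
  · obtain ⟨a0, a1, Q, a2⟩ := hz ξ hξ
    refine ⟨fun g hg => T.inj m ?_, Q, fun g hg => ?_⟩
    · rw [hf _ (a1 g), a0 g hg, map_zero]
    · rw [hf _ (a1 g), a2 g hg]
  · rw [← hf _ ((hz ξ hξ).2.1 g), ← hf _ ((hz ξ' hξ').2.1 g)]
    exact congrArg _ (congrFun k g)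

end Pool.Agent.B6.B7
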