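import Pool.Agent.Lib.MP_696deb_nt.B6.LO3b
import Pool.Agent.Lib.MP_696deb_nt.B7.LT

/-! The twisted Kummer condition: change of level, spanning, cocycle property, isotropy; it is
cartesian and is its own annihilator. -/

set_option autoImplicit false

open scoped NNReal Classical
open Finset Matrix

namespace Pool.Agent.B6.B7

open Pool.Agent.Lib.MP_696deb_nt Pool.Agent.Lib.MP_696deb_nt.B2 Pool.Agent.Lib.MP_696deb_nt.B6

variable [Md]

variable {T : Tate} {f : ℤ} {D : Subgroup Gam} {m k : ℕ} {B B' : Type} [AddCommGroup B]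
  [AddCommGroup B']

theorem lo_sm_tw (f : ℤ) (D : Subgroup Gam) (S : EE) : Sm D fun g => tw f g S :=
  (sm_chi f).comp₂ (sm_pt D S) fun (a : ℤˣ) P => (a : ℤ) • P

theorem KumP.smul_val {x : Gam → Fin 2 → ZMod (2 ^ m)} (h : KumP T f m D x) {t : ZMod (2 ^ k)}
    (ht : 2 ^ m • t = 0) : KumP T f k D fun g i => (x g i).val • t := by
  obtain ⟨S, h⟩ := h
  obtain ⟨n, hn⟩ := T.emb_smul ht
  exact ⟨n • S, fun g hg => by rw [hn, h g hg, tw_nsmul, nsmul_sub]⟩

theorem KumP.lift {x : Gam → Fin 2 → ZMod (2 ^ k)} (h : KumP T f k D x) (hk : k ≤ m) :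
    ∃ y, KumP T f m D y ∧ ∀ g ∈ D, ∀ i, ((y g i).val : ZMod (2 ^ k)) = x g i := by
  obtain ⟨j, rfl⟩ := Nat.exists_eq_add_of_le hk
  obtain ⟨S, h⟩ := h
  obtain ⟨S, rfl⟩ := lo3_half j S
  have e : ∀ g ∈ D, 2 ^ j • (tw f g S - S) = T.emb k (x g) := fun g hg => by
    rw [h g hg, tw_nsmul, nsmul_sub]
  have : ∀ g, ∃ y, g ∈ D → T.emb (k + j) y = tw f g S - S := fun g => by
    by_cases hg : g ∈ D
    · exact (T.surj (k + j) (tw f g S - S) (by rw [pow_add, mul_nsmul', e g hg, T.emb_pow])).imp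
        fun _ h _ => h
    · exact ⟨0, fun h => absurd h hg⟩
  choose y hy using this
  refine ⟨y, ⟨S, hy⟩, fun g hg => congrFun (T.inj k ?_)⟩
  rw [← e g hg, ← hy g hg, ← T.emb_nat (j := j) rfl]
  simp only [ZMod.natCast_zmod_val]

theorem KumP.coc {x : Gam → Fin 2 → ZMod (2 ^ m)} (h : KumP T f m D x) :
    Sm D x ∧ ∀ g ∈ D, ∀ k ∈ D, x (g * k) = x g + (chi f g : ℤ) • mred m (T.ρ g) *ᵥ x k := by
  obtain ⟨S, h⟩ := h
  obtain ⟨U, u1, u2, u3⟩ := lo_sm_tw f D S
  refine ⟨⟨U, u1, u2, fun g hg k hk e => T.inj m ?_⟩, fun g hg k hk => T.inj m ?_⟩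
  · rw [h g hg, h k hk, show tw f g S = tw f k S from u3 g hg k hk e]
  · rw [map_add, ← T.tw_emb, h _ (mul_mem hg hk), h g hg, h k hk, tw_mul, tw_sub]
    abel

/-- Elementary classes satisfy the Kummer condition. -/
theorem KumC.of_smul {x : Gam → Fin 2 → ZMod (2 ^ m)} (h : KumP T f m D x) {e : B}
    (he : 2 ^ m • e = 0) : KumC T f D fun g i => (x g i).val • e := fun _ q =>
  (h.smul_val (t := q e) (by rw [← map_nsmul, he, map_zero])).congr fun _ _ =>
    funext fun _ => map_nsmul q _ _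

theorem KumC.sum {ι : Type*} (s : Finset ι) {c : ι → Gam → Fin 2 → B}
    (h : ∀ i ∈ s, KumC T f D (c i)) : KumC T f D fun g j => ∑ i ∈ s, c i g j :=
  (sum_induction c (KumC T f D) (fun _ _ => KumC.add) KumC.zero h).congr fun g _ => by
    ext j
    simp only [Finset.sum_apply]

/-- Every class that satisfies the Kummer condition is a sum of elementary classes. -/
theorem KumC.span [Finite B] (hB : ∀ x : B, 2 ^ m • x = 0) {c : Gam → Fin 2 → B}
    (h : KumC T f D c) : ∃ (ι : Type) (_ : Fintype ι) (x : ι → Gam → Fin 2 → ZMod (2 ^ m))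
      (e : ι → B), (∀ i, KumP T f m D (x i)) ∧ ∀ g ∈ D, ∀ j, c g j = ∑ i, (x i g j).val • e i := by
  obtain ⟨ι, _, k, e, p, hk, he, hp⟩ := lo3_coord hB
  choose x h1 h2 using fun i => (h (k i) (p i)).lift (hk i)
  exact ⟨ι, inferInstance, x, e, h1, fun g hg j =>
    (hp _).trans (sum_congr rfl fun i _ => (lo3_nsmul (he i) (h2 i g hg j)).symm)⟩

variable {a : Gam → (Fin 2 → B) →+ Fin 2 → B} {a' : Gam → (Fin 2 → B') →+ Fin 2 → B'}

theorem KumC.coc [Finite B] (hB : ∀ x : B, 2 ^ m • x = 0) (ha : TAct T f D a)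
    {c : Gam → Fin 2 → B} (h : KumC T f D c) : Coc D a c := by
  refine ⟨?_, fun g hg k hk => funext fun j => lo3_sep hB fun n q => ?_⟩
  · obtain ⟨ι, _, x, e, h1, h2⟩ := h.span hB
    exact ((Sm.pi fun i => (h1 i).coc.1).comp fun z j => ∑ i, (z i j).val • e i).congr
      fun g hg => funext fun j => (h2 g hg j).symm
  · rw [Pi.add_apply, map_add, congrFun (ha n q g hg (c k)) j]
    exact congrFun ((h n q).coc.2 g hg k hk) j

theorem KumC.cob (ha : TAct T f D a) (x : Fin 2 → B) : KumC T f D (cob a x) := fun n q =>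
  ⟨T.emb n fun i => q (x i), fun g hg => by
    rw [T.tw_emb, ← ha n q g hg, ← map_sub]
    congr 1
    ext i
    exact map_sub q _ _⟩

theorem locC_LK {H : Subgroup Gam} {w : Plc} [Finite B] (hB : ∀ x : B, 2 ^ m • x = 0)
    (ha : TAct T f (H ⊓ Dec w) a) : LocC H w a (LK T f (H ⊓ Dec w) B) :=
  ⟨fun _ h => ⟨h.1.coc hB ha, h.2⟩, fun x =>
    ⟨(KumC.cob ha x).congr fun _ hg => rs_of_mem hg _, fun _ hg => rs_of_notMem hg _⟩⟩

theorem rs_mem_LK {c : Gam → Fin 2 → B} : rs D c ∈ LK T f D B ↔ KumC T f D c :=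
  ⟨fun h => h.1.congr fun _ hg => (rs_of_mem hg _).symm, fun h =>
    ⟨h.congr fun _ hg => rs_of_mem hg _, fun _ hg => rs_of_notMem hg _⟩⟩

/-- The cup product of two Kummer classes splits. -/
theorem KumC.iso [Finite B] (hf : f ≠ 0) (hB : ∀ x : B, 2 ^ m • x = 0) (hD : IsClosed (D : Set Gam))
    (ha' : TAct T f D a') (β : B →+ B' →+ ZMod (2 ^ m))
    {b : (Fin 2 → B) →+ (Fin 2 → B') →+ ZMod (2 ^ m)}
    (hb : ∀ x y, b x y = β (x 0) (y 1) - β (x 1) (y 0)) {c : Gam → Fin 2 → B}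
    {c' : Gam → Fin 2 → B'} (h : KumC T f D c) (h' : KumC T f D c') : Spl m D (cupb b a' c c') := by
  obtain ⟨ι, _, x, e, h1, h2⟩ := h.span hB
  refine lo3_spl_sum univ (c := fun i g k =>
    det2 (x i g) ((chi f g : ℤ) • mred m (T.ρ g) *ᵥ fun j => β (e i) (c' k j))) (fun i _ => ?_)
    fun g hg k _ => ?_
  · obtain ⟨S, hS⟩ := h1 i
    obtain ⟨S', hS'⟩ := h' m (β (e i))
    exact T.iso_tw hf hD hS hS'
  · simp only [cupb, hb, h2 g hg, map_sum, map_nsmul, AddMonoidHom.finsetSum_apply,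
      AddMonoidHom.nsmul_apply, nsmul_eq_mul, ZMod.natCast_zmod_val, ← sum_sub_distrib]
    exact sum_congr rfl fun i _ => by rw [← ha' m (β (e i)) g hg, det2]

/-- The number of Kummer classes at two. -/
theorem card_LK {n : ℕ} {w : Plc} (hf : f ≠ 0) (hn : n % 8 = 3) (hw : w.p = 2)
    (hB : ∀ x : B, 2 ^ m • x = 0) [Finite (LK T f (GK n ⊓ Dec w) B)] :
    Nat.card B ^ 4 ≤ Nat.card (LK T f (GK n ⊓ Dec w) B) := by
  obtain ⟨y, y1, y2⟩ := lo3_indep (F := ZMod 2) (V := Gam → Fin 2 → ZMod 2) _ 4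
    (le_trans (by simp) (T.kumc_tw hf 1 hn hw))
  choose x x1 x2 using fun i => KumP.lift (T := T) (f := f) (k := 1) (y1 i).2 (Nat.le_add_left 1 m)
  have hB' : ∀ x : B, 2 ^ (m + 1) • x = 0 := fun x => by rw [pow_succ, mul_nsmul, hB, nsmul_zero]
  let Φ : (Fin 4 → B) → LK T f (GK n ⊓ Dec w) B := fun b =>
    ⟨rs _ fun g j => ∑ i, (x i g j).val • b i,
      rs_mem_LK.2 (KumC.sum _ fun i _ => KumC.of_smul (x1 i) (hB' _))⟩
  have : Function.Injective Φ := fun b b' e => by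
    refine sub_eq_zero.1 (lo3_inj (y := y) y2
      (x := fun i g j => if g ∈ GK n ⊓ Dec w then (x i g j).val else 0) (fun i g j => ?_) hB
      fun g j => ?_)
    · split_ifs with hg
      · exact x2 i g hg j
      · rw [(y1 i).1 g hg, Nat.cast_zero, Pi.zero_apply]
    · split_ifs with hg
      · have := congrFun (congrFun (congrArg Subtype.val e) g) j
        simp only [Φ, rs_of_mem hg] at this
        simp only [Pi.sub_apply, nsmul_sub, sum_sub_distrib, this, sub_self]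
      · simp
  simpa [Nat.card_fun] using Nat.card_le_card_of_injective Φ this

/-- It suffices to test the Kummer condition at one level on a separating family. -/
theorem kumC_of_sep_hom [Finite B] {c : Gam → Fin 2 → B}
    (h : ∀ x : B, (∀ q : B →+ ZMod (2 ^ m), (KumP T f m D fun g i => q (c g i)) → q x = 0) → x = 0)
    (q : B →+ ZMod (2 ^ m)) : KumP T f m D fun g i => q (c g i) := by
  let W : AddSubgroup (B →+ ZMod (2 ^ m)) :=
    { carrier := {q | KumP T f m D fun g i => q (c g i)}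
      zero_mem' := KumP.zero
      add_mem' := fun h k => h.add k
      neg_mem' := fun h => h.neg }
  have := finite_hom (A := B) (n := 2 ^ m)
  have e := ann_ann (AddMonoidHom.id (B →+ ZMod (2 ^ m))) W
  have e2 : q ∈ ann (AddMonoidHom.id (B →+ ZMod (2 ^ m))).flip
      (ann (AddMonoidHom.id (B →+ ZMod (2 ^ m))) W) := mem_ann.2 fun x hx => by
    rw [h x fun q hf => mem_ann.1 hx q hf]
    exact map_zero q
  rw [e, (AddMonoidHom.ker_eq_bot_iff _).2 Function.injective_id, sup_bot_eq] at e2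
  exact e2

/-- The Kummer condition can be tested on a separating family of homomorphisms. -/
theorem KumC.of_sep [Finite B] [Finite B'] (hB' : ∀ x : B', 2 ^ m • x = 0) {ι : Type*}
    (φ : ι → B →+ B') (hφ : ∀ x, (∀ i, φ i x = 0) → x = 0) {c : Gam → Fin 2 → B}
    (h : ∀ i, KumC T f D fun g j => φ i (c g j)) : KumC T f D c := fun k q => by
  obtain ⟨u, -, hu⟩ := T.exists_up (Nat.le_add_left k m)
  obtain ⟨S, hS⟩ := kumC_of_sep_hom (T := T) (f := f) (D := D) (c := c) (m := m + k)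
    (fun x hx => hφ x fun i =>
    lo3_sep' T (m := m + k) (fun y => by rw [pow_add, mul_nsmul, hB', nsmul_zero]) fun p' =>
      hx (p'.comp (φ i)) (h i _ p')) (u.comp q)
  exact ⟨S, fun g hg => (hu _).symm.trans (hS g hg)⟩

theorem KumC.of_inj [Finite B'] (hB' : ∀ x : B', 2 ^ m • x = 0) (φ : B →+ B')
    (hφ : Function.Injective φ) {c : Gam → Fin 2 → B} (h : KumC T f D fun g j => φ (c g j)) :
    KumC T f D c :=
  have := Finite.of_injective φ hφ
  KumC.of_sep hB' (fun _ : Unit => φ) (fun x hx => (injective_iff_map_eq_zero φ).1 hφ x (hx ()))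
    fun _ => h

/-- For cyclic coefficients the condition is the usual one. -/
theorem KumP.kumC {x : Gam → Fin 2 → ZMod (2 ^ m)} (h : KumP T f m D x) : KumC T f D x :=
  (KumC.of_smul h (e := (1 : ZMod (2 ^ m))) (by
    rw [nsmul_eq_mul, ZMod.natCast_self, zero_mul])).congr fun _ _ => funext fun _ => by simp

theorem KumC.kumP {x : Gam → Fin 2 → ZMod (2 ^ m)} (h : KumC T f D x) : KumP T f m D x :=
  h m (AddMonoidHom.id _)

/-- Kummer classes lift along surjections. -/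
theorem KumC.lift [Finite B'] (hB : ∀ x : B, 2 ^ m • x = 0) (φ : B →+ B')
    (hφ : Function.Surjective φ) {c : Gam → Fin 2 → B'} (h : KumC T f D c) :
    ∃ c' : Gam → Fin 2 → B, KumC T f D c' ∧ ∀ g ∈ D, ∀ j, φ (c' g j) = c g j := by
  obtain ⟨ι, _, x, e, h1, h2⟩ := h.span (m := m) fun y => by
    obtain ⟨z, rfl⟩ := hφ y
    rw [← map_nsmul, hB, map_zero]
  choose e' he using fun i => hφ (e i)
  exact ⟨_, KumC.sum univ fun i _ => KumC.of_smul (h1 i) (hB (e' i)), fun g hg j => by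
    simp only [map_sum, map_nsmul, he, h2 g hg j]⟩

/-- The Kummer conditions at two are exact annihilators of each other. -/
theorem maxIso_LK {F : CFT} (ld : LD3Stmt F) {sig : Gam →* N2} {n : ℕ} {w : Plc} (hf : f ≠ 0)
    (hn : n % 8 = 3) (hw : w.p = 2) [Finite B] [Finite B'] {a : Gam → (Fin 2 → B) →+ Fin 2 → B}
    {a' : Gam → (Fin 2 → B') →+ Fin 2 → B'} (ha : TAct T f (GK n ⊓ Dec w) a)
    (ha' : TAct T f (GK n ⊓ Dec w) a') (hB : ∀ x : B, 2 ^ m • x = 0) (hB' : ∀ x : B', 2 ^ m • x = 0)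
    (β : B →+ B' →+ ZMod (2 ^ m)) {b : (Fin 2 → B) →+ (Fin 2 → B') →+ ZMod (2 ^ m)}
    (hb : ∀ x y, b x y = β (x 0) (y 1) - β (x 1) (y 0)) (hd : Dual3 sig m (GK n ⊓ Dec w) a a' b) :
    MaxIso F m (GK n) w a a' b (LK T f (GK n ⊓ Dec w) B) (LK T f (GK n ⊓ Dec w) B') := by
  have l1 := locC_LK hB ha
  have l2 := locC_LK hB' ha'
  have f1 := (ld sig m _ w _ _ a a' b (op_GK n) hd).1.1
  have f2 := (ld sig m _ w _ _ a' a b.flip (op_GK n) hd.flip).1.1
  have := Finite.of_injective _ (AddSubgroup.inclusion_injective l1.1)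
  have := Finite.of_injective _ (AddSubgroup.inclusion_injective l2.1)
  refine ⟨l1, l2, fun c hc c' hc' => ?_, ?_⟩
  · have := hc.1.iso hf hB ((op_GK n).closed.inter (closed_Dec w)) ha' β hb hc'.1
    exact (F.zero_iff (op_GK n) this.c2).2 this
  · have e := (lf_card hd.zero).ge
    simp only [Nat.card_fun, Nat.card_eq_fintype_card, Fintype.card_fin] at e ⊢
    rw [ldeg_two hn hw]
    refine le_trans ?_ (Nat.mul_le_mul (card_LK hf hn hw hB) (card_LK hf hn hw hB'))
    calc _ = Nat.card B ^ 4 * (Nat.card B ^ 2) ^ 2 := by ring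
      _ ≤ Nat.card B ^ 4 * (Nat.card B' ^ 2) ^ 2 := by gcongr
      _ = _ := by ring

end Pool.Agent.B6.B7
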