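import Pool.Agent.Lib.MP_696deb_nt.B7.FK
import Pool.Agent.Lib.MP_696deb_nt.B7.LO3

/-! The action on the Tate module with coefficients, for arbitrary twists. -/

set_option autoImplicit false

open scoped NNReal Classical
open Finset Matrix NumberTheorySymbols PowerSeries

namespace Pool.Agent.B6.B7

open Pool.Agent.Lib.MP_696deb_nt Pool.Agent.Lib.MP_696deb_nt.B2 Pool.Agent.Lib.MP_696deb_nt.B6

variable [Md]

section

variable {f : ℤ} {n k : ℕ} {lam : Tp} {ψ : Gam → Lam} {g h : Gam}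

theorem Chr0.inv_mul (hψ : Chr0 f n k lam ψ) (hg : g ∈ GK n) : ψ g⁻¹ * ψ g - 1 ∈ aa k k := by
  have := sub_mem hψ.one (hψ.mul _ (inv_mem hg) _ hg)
  rw [inv_mul_cancel] at this
  convert this using 1
  ring

theorem Chr0.mul_cj (hψ : Chr0 f n k lam ψ) (hn : 0 < n) (hg : g ∈ GK n) :
    ψ g * ψ (cc * g * cc) - 1 ∈ aa k k := by
  have h1 := hψ.dih (g * cc) fun e => cc_notMem hn ((mul_mem_cancel_left hg).1 e)
  have := sub_mem h1 (hψ.mul g hg _ (conj_cc_mem hg))
  rw [show g * cc * (g * cc) = g * (cc * g * cc) by group] at this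
  convert this using 1
  ring

theorem Chr0.unit (hψ : Chr0 f n k lam ψ) (g : Gam) : IsUnit (ψ g) := lf_unit (hψ.res g)

theorem Chr0.cjc (h : Chr0 f n k lam ψ) : Chr0 f n k lam (cjc ψ) where
  sm := h.sm.conj cc cc fun _ => conj_cc_mem
  one := by simpa [B2.cjc, cc_mul_cc] using h.one
  mul g hg g' hg' := by
    simpa only [B2.cjc, cc_mul] using h.mul _ (conj_cc_mem hg) _ (conj_cc_mem hg')
  res _ := h.res _
  dih g hg := by simpa only [B2.cjc, cc_mul] using h.dih _ fun e => hg (xsb_mem.1 e)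
  unr w hw σ hσ := la_chi_cj f σ ▸ h.unr (cc • w) hw _ ⟨conj_cc_mem hσ.1, mem_Ine_cc.2 hσ.2⟩
  dec w hw g hg := la_chi_cj f g ▸ h.dec (cc • w) hw _ ⟨conj_cc_mem hg.1, mem_Dec_cc.2 hg.2⟩
  gf w hw φ hφ := h.gf (cc • w) hw _ (by
    have := hφ.smul cc
    rwa [cc_inv] at this)

end

variable {T : Tate} {f : ℤ} {n k m : ℕ} {lam : Tp} {w : Plc} {ψ ψ' : Gam → Lam} {B B' : Type}
  [AddCommGroup B] [Module Lam B] [AddCommGroup B'] [Module Lam B'] {g h : Gam}
  {c : Gam → Fin 2 → B}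

theorem Chr0.act_mul (hψ : Chr0 f n k lam ψ) (hB : Kil k B) (hg : g ∈ GK n) (hh : h ∈ GK n)
    (x : Fin 2 → B) : act T ψ B (g * h) x = act T ψ B g (act T ψ B h x) := by
  rw [act_eq, act_eq, act_eq, hB.pi.congr (hψ.mul g hg h hh), map_mul, Matrix.map_mul, mact_mul,
    map_smul, mul_smul]

theorem Chr0.act0 (hψ : Chr0 f n k lam ψ) (T : Tate) (hB : Kil k B) : Act0 (GK n) (act T ψ B) := by
  refine ⟨?_, act_id hB hψ.one (by rw [map_one, la_mred_one]),
    fun g hg h hh => hψ.act_mul hB hg hh⟩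
  obtain ⟨U, u1, u2, u3⟩ := hψ.sm.comp₂ ((T.sm k).mono le_top) Prod.mk
  refine ⟨U, u1, u2, fun g hg h hh e => AddMonoidHom.ext fun x => ?_⟩
  have := Prod.mk.inj (u3 g hg h hh e)
  exact act_congr' hB (by rw [this.1, sub_self]; exact zero_mem _) this.2 x

theorem Chr0.act3 (hψ : Chr0 f n k lam ψ) (T : Tate) (hB : Kil k B) :
    Act3 T.sig (GK n) (act T ψ B) := by
  have h0 := hψ.act0 T hB
  refine ⟨h0, fun g hg h2 => ⟨k + k, fun x => ?_⟩, fun g _ h3 x e => lf_o3_eig
    (rep_trace_res (hψ.res g) h3) (rep_det_res (hψ.res g)) (u := 1) (by simp)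
    (e.trans (one_smul _ _).symm)⟩
  have e : ∀ (r : ℕ) (x : Fin 2 → B), B6.act T ψ B (g ^ r) x = mact B (rep T ψ g ^ r) x :=
    fun r => by
      induction r with
      | zero => intro x; rw [pow_zero, pow_zero, h0.one, mact_one]
      | succ r ih =>
        intro x
        rw [pow_succ, hψ.act_mul hB (pow_mem hg r) hg, ih, pow_succ, mact_mul, act_apply]
  rw [e, mact_congr' hB (A' := 1) (fun i j => la_pow_le k (Ideal.pow_le_pow_right (Nat.le_succ _)
    (la_pow_mem (fun i j => ?_) _ i j))), mact_one]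
  have e1 := la_C_mem (k := 1) (z := T.ρ g i j) (z' := (1 : Matrix (Fin 2) (Fin 2) ℤ_[2]) i j)
    (congrFun (congrFun (h2.trans (la_mred_one 1).symm) i) j) 1
  have e2 : (rep T ψ g - 1) i j = (ψ g - 1) * C (T.ρ g i j) +
      (C (T.ρ g i j) - C ((1 : Matrix (Fin 2) (Fin 2) ℤ_[2]) i j)) := by
    simp only [rep, Matrix.sub_apply, Matrix.smul_apply, Matrix.map_apply, smul_eq_mul, one_apply,
      apply_ite (C : ℤ_[2] → Lam), map_one, map_zero]
    ring
  exact e2 ▸ add_mem (Ideal.mul_mem_right _ _ (hψ.res g)) e1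

theorem tAct_of {D : Subgroup Gam} (hB : Kil k B)
    (e : ∀ g ∈ D, ψ g - ((chi f g : ℤ) : Lam) ∈ aa k k) : TAct T f D (act T ψ B) :=
  fun m q g hg x => funext fun i => by
  rw [act_eq, hB.pi.congr (e g hg), Int.cast_smul_eq_zsmul, Pi.smul_apply, map_zsmul, mact_apply,
    map_add, Matrix.map_apply, Matrix.map_apply, la_hom_C q (hB.two _), la_hom_C q (hB.two _),
    Pi.smul_apply]
  simp only [mred, mulVec, dotProduct, Fin.sum_univ_two, Matrix.map_apply]

theorem Chr0.tAct (hψ : Chr0 f n k lam ψ) (hB : Kil k B) (hw : w.p = 2) :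
    TAct T f (GK n ⊓ Dec w) (act T ψ B) := tAct_of hB (hψ.dec w hw)

theorem Chr0.dual3 {β : B →+ B' →+ ZMod (2 ^ m)} (h : Chr0 f n k lam ψ) (hn : 0 < n) (T : Tate)
    (hB : Kil k B) (hB' : Kil k B') (hβ : Perf β) :
    Dual3 T.sig m (GK n) (act T ψ B) (act T (B2.cjc ψ) B') (detb β) where
  sm := T.sm 1
  act := h.act3 T hB
  act' := h.cjc.act3 T hB'
  eqv g hg x y := by
    have e1 : ∀ z x y, β ((C z : Lam) • x) y = PadicInt.toZModPow m z * β x y := fun z x y =>
      la_hom_C (β.flip y) (hB.two x) z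
    have e2 : ∀ z x y, β x ((C z : Lam) • y) = PadicInt.toZModPow m z * β x y := fun z x y =>
      la_hom_C (β x) (hB'.two y) z
    rw [act_eq, act_eq, hβ.detb_bal, smul_smul, B2.cjc, hB'.pi.congr (h.mul_cj hn hg), one_smul,
      cy, ← T.det, det_fin_two]
    simp only [detb_apply, mact_apply, Matrix.map_apply, map_add, AddMonoidHom.add_apply, e1, e2,
      map_sub, map_mul]
    ring
  left x e := funext fun i => by
    fin_cases i
    · exact hβ.left _ fun y => by simpa [detb_apply] using e ![0, y]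
    · exact hβ.left _ fun y => by simpa [detb_apply] using e ![y, 0]
  right y e := funext fun i => by
    fin_cases i
    · exact hβ.right _ fun x => by simpa [detb_apply] using e ![0, x]
    · exact hβ.right _ fun x => by simpa [detb_apply] using e ![x, 0]

end Pool.Agent.B6.B7
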