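import Pool.Agent.Lib.MP_696deb_nt.B7.Z1
import Pool.Agent.Lib.MP_696deb_nt.B5.LGb

/-! Local components of the genus character, and sums over residue classes. -/

set_option autoImplicit false

open Finset NumberTheorySymbols
open scoped Classical

namespace Pool.Agent.G7.Lt7

open Pool.Agent.Lib.MP_696deb_nt
open Pool.Agent.Lib.MP_696deb_nt.B3 (kro chi2 odp PChr pchr_kro pchr_chi2 cond2)

variable {d u v : ℤ} {p C : ℕ} {P P' : Fm}

/-- The local component of the quadratic character. -/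
def lx (d : ℤ) (p : ℕ) (v : ℤ) : ℤ := if p = 2 then chi2 d v else J(v | p)

/-- The local component of the genus character. -/
def lc (d : ℤ) (p : ℕ) (P : Fm) : ℤ := lx d p (if (p : ℤ) ∣ P.1 then P.2.2 else P.1)

theorem lx_mul (d : ℤ) (p : ℕ) (u v : ℤ) : lx d p (u * v) = lx d p u * lx d p v := by
  unfold lx
  split_ifs
  exacts [(pchr_chi2 d).mul u v, jacobiSym.mul_left u v p]

theorem cond2_dvd (d : ℤ) : cond2 d ∣ 2 ^ 3 := by
  unfold cond2
  split_ifs <;> norm_num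

theorem cop_cond2 (h : ¬ 2 ∣ v) : IsCoprime v (cond2 d) :=
  ((Int.prime_two.coprime_iff_not_dvd.2 h).symm.pow_right (n := 3)).of_isCoprime_of_dvd_right
    (by exact_mod_cast cond2_dvd d)

theorem four_dvd (hd : Squarefree d) (h : 2 ∣ cnd d) : 4 ∣ cond2 d := by
  have := (Nat.prime_two.dvd_mul.1 h).resolve_right (B3.odp_odd hd).not_two_dvd_nat
  unfold cond2 at this ⊢
  split_ifs at this ⊢ <;> omega

theorem lx_sq (hp : p.Prime) (h : ¬ (p : ℤ) ∣ v) : lx d p v ^ 2 = 1 := by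
  unfold lx
  split_ifs with k
  · subst k
    exact (pchr_chi2 d).sq (cop_cond2 h)
  · exact jac_sq hp h

theorem lx_zero (hd : Squarefree d) (hp : p ∈ (cnd d).primeFactors) (h : (p : ℤ) ∣ v) :
    lx d p v = 0 := by
  unfold lx
  split_ifs with k
  · subst k
    refine (pchr_chi2 d).zero _ fun e => Int.prime_two.not_isUnit (e.isUnit_of_dvd' h ?_)
    exact_mod_cast (show 2 ∣ 4 by norm_num).trans (four_dvd hd (Nat.dvd_of_mem_primeFactors hp))
  · exact jac_zero_of_dvd (Nat.prime_of_mem_primeFactors hp) h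

theorem lx_abs (d : ℤ) (p : ℕ) (v : ℤ) : |lx d p v| ≤ 1 := by
  unfold lx
  split_ifs
  · rcases (pchr_chi2 d).cases v with h | h | h <;> simp [h]
  · exact G5.LG.abs_jac _ _

theorem prod_lx (hd : Squarefree d) (w : ℕ → ℤ) : ∏ p ∈ (cnd d).primeFactors, lx d p (w p) =
    chi2 d (w 2) * ∏ p ∈ (odp d).primeFactors, J(w p | p) := by
  have ho := B3.odp_odd hd
  have hc : (cond2 d).Coprime (odp d) :=
    ((Nat.coprime_two_left.2 ho).pow_left 3).coprime_dvd_left (cond2_dvd d)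
  rw [cnd, B3.cond, hc.primeFactors_mul, prod_union hc.disjoint_primeFactors]
  congr 1
  · have h4 : (4 : ℕ).primeFactors = {2} := Nat.primeFactors_prime_pow (k := 2) two_ne_zero
      Nat.prime_two
    have h8 : (8 : ℕ).primeFactors = {2} := Nat.primeFactors_prime_pow (k := 3) three_ne_zero
      Nat.prime_two
    unfold cond2
    split_ifs with h
    · rw [Nat.primeFactors_one, prod_empty, chi2, if_pos h]
    · rw [h4, prod_singleton, lx, if_pos rfl]
    · rw [h8, prod_singleton, lx, if_pos rfl]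
  · exact prod_congr rfl fun p hp => if_neg (prime_ne_two ho hp)

theorem kro_eq (hd : Squarefree d) (v : ℤ) : kro d v = ∏ p ∈ (cnd d).primeFactors, lx d p v := by
  rw [prod_lx hd fun _ => v, kro, jac_eq_prod _ (B3.odp_sqf hd)]

theorem gD_eq (hd : Squarefree d) (P : Fm) : gD d P = ∏ p ∈ (cnd d).primeFactors, lc d p P := by
  simp only [lc]
  rw [prod_lx hd fun p => if (p : ℤ) ∣ P.1 then P.2.2 else P.1, gD, gch]
  congr 1
  exact prod_congr rfl fun p _ => (apply_ite (J(· | p)) _ _ _).symm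

theorem pchr_of_sq {χ : ℤ → ℤ} (h : PChr C χ) {s : ℤ} (hu : IsCoprime u C) (hv : IsCoprime v C)
    (e : (C : ℤ) ∣ u * v - s ^ 2) : χ u = χ v := by
  obtain ⟨k, hk⟩ := id e
  have h1 : IsCoprime s C := by
    have := (hu.mul_left hv).add_mul_left_left (-k)
    rw [show u * v + C * -k = s * s by linear_combination hk] at this
    exact this.of_mul_left_left
  have h2 := h.per _ _ e
  rw [h.mul, sq, h.mul, ← sq, h.sq h1] at h2
  linear_combination χ v * h2 - χ u * h.sq hv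

theorem lc_fval (hd : Squarefree d) (hp : p ∈ (cnd d).primeFactors)
    (hP : (cnd d : ℤ) ^ 2 ∣ fdisc P) {x y : ℤ} (h : ¬ (p : ℤ) ∣ fval P x y) :
    lc d p P = lx d p (fval P x y) := by
  have h1 := Nat.prime_of_mem_primeFactors hp
  have h2 := Nat.dvd_of_mem_primeFactors hp
  by_cases k : p = 2
  swap
  · rw [lc, lx, lx, if_neg k, if_neg k, ← gl_fval h1 k (((Int.natCast_dvd_natCast.2 h2).trans
      (dvd_pow_self _ two_ne_zero)).trans hP) h, gl]
    exact apply_ite (J(· | p)) _ _ _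
  subst k
  obtain ⟨a, b, c⟩ := P
  obtain ⟨m, hm⟩ := four_dvd hd h2
  obtain ⟨z, hz⟩ := (pow_dvd_pow_of_dvd (Int.natCast_dvd_natCast.2
    (dvd_mul_right (cond2 d) (odp d))) 2).trans hP
  have h3 : (cond2 d : ℤ) = 4 * m := by exact_mod_cast hm
  simp only [fdisc] at hz
  obtain ⟨b, rfl⟩ : 2 ∣ b := Int.prime_two.dvd_of_dvd_pow (n := 2)
    ⟨2 * a * c + 8 * m ^ 2 * z, by rw [h3] at hz; linear_combination hz⟩
  have h4 : b ^ 2 - a * c = cond2 d * (m * z) := by
    rw [h3] at hz ⊢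
    linarith
  rw [lc, lx, lx, if_pos rfl, if_pos rfl]
  push_cast at h ⊢
  split_ifs with k
  · have h5 : 2 ∣ a := k
    refine pchr_of_sq (pchr_chi2 d) (s := c * y + b * x) (cop_cond2 fun j => h ?_) (cop_cond2 h)
      ⟨-(m * z * x ^ 2), by simp only [fval]; linear_combination -x ^ 2 * h4⟩
    exact ((h5.mul_right _).add (((dvd_mul_right 2 b).mul_right _).mul_right _)).add
      (j.mul_right _)
  · exact pchr_of_sq (pchr_chi2 d) (s := a * x + b * y) (cop_cond2 k) (cop_cond2 h)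
      ⟨-(m * z * y ^ 2), by simp only [fval]; linear_combination -y ^ 2 * h4⟩

theorem lc_zero (hd : Squarefree d) (hp : p ∈ (cnd d).primeFactors) (h1 : (p : ℤ) ∣ P.1)
    (h2 : (p : ℤ) ∣ P.2.2) : lc d p P = 0 := by
  rw [lc, if_pos h1, lx_zero hd hp h2]

/-- Comparison of the local characters of two forms whose values correspond. -/
theorem lc_rel (hd : Squarefree d) (hp : p ∈ (cnd d).primeFactors)
    (hP : (cnd d : ℤ) ^ 2 ∣ fdisc P) (hP' : (cnd d : ℤ) ^ 2 ∣ fdisc P') {α β γ δ : ℤ}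
    (hu : ¬ (p : ℤ) ∣ u) (hD : ¬ (p : ℤ) ∣ α * δ - β * γ)
    (h : ∀ x y, u * fval P' x y = fval P (α * x + β * y) (γ * x + δ * y)) :
    lc d p P = lx d p u * lc d p P' := by
  have h1 := Nat.prime_iff_prime_int.1 (Nat.prime_of_mem_primeFactors hp)
  by_cases k : ∀ x y, (p : ℤ) ∣ fval P' x y
  · have h2 : ∀ x y, (p : ℤ) ∣ fval P x y := fun x y => by
      have h3 := (k (δ * x - β * y) (α * y - γ * x)).mul_left u
      rw [h, show fval P _ _ = (α * δ - β * γ) ^ 2 * fval P x y by simp only [fval]; ring] at h3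
      exact (h1.dvd_or_dvd h3).resolve_left fun j => hD (h1.dvd_of_dvd_pow j)
    rw [lc_zero hd hp (by simpa [fval] using h2 1 0) (by simpa [fval] using h2 0 1),
      lc_zero hd hp (by simpa [fval] using k 1 0) (by simpa [fval] using k 0 1), mul_zero]
  push Not at k
  obtain ⟨x, y, k⟩ := k
  rw [lc_fval hd hp hP' k, ← lx_mul, h]
  exact lc_fval hd hp hP fun j => (h1.dvd_or_dvd (h x y ▸ j)).elim hu k

theorem kro_mul {f a : ℤ} (h : Squarefree (f * a)) (h4 : a % 4 = 1) (v : ℤ) :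
    kro (f * a) v = kro f v * J(v | a.natAbs) := by
  have e : f * a % 4 = f % 4 := by rw [Int.mul_emod, h4, mul_one, Int.emod_emod]
  have h1 : chi2 (f * a) v = chi2 f v := by
    have h0 := B3.mod4_ne h
    unfold chi2
    rw [e] at h0 ⊢
    refine if_ctx_congr Iff.rfl (fun _ => rfl) fun _ => if_ctx_congr Iff.rfl (fun _ => rfl)
      fun _ => ?_
    obtain ⟨g, rfl⟩ : 2 ∣ f := by omega
    obtain ⟨t, rfl⟩ : ∃ t, a = 4 * t + 1 := ⟨a / 4, by omega⟩
    rw [show 2 * g * (4 * t + 1) = 2 * g + 8 * (g * t) by ring, Int.add_mul_emod_self_left]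
  have h2 : odp (f * a) = odp f * a.natAbs := by
    unfold odp
    rw [Int.natAbs_mul]
    split_ifs with k1 k2 k2
    · rfl
    · omega
    · omega
    · exact (Nat.div_mul_right_comm (by omega) _).symm
  rw [kro, kro, h1, h2, jacobiSym.mul_right' _ (B3.odp_sqf h.of_mul_left).ne_zero
    (Int.natAbs_ne_zero.2 h.of_mul_right.ne_zero), mul_assoc]

theorem sum_perm (hC : C ≠ 0) (σ : Equiv.Perm (ZMod C)) {F G : ℤ → ℤ}
    (h : ∀ k k' : ℤ, (k' : ZMod C) = σ k → G k' = F k) :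
    ∑ k ∈ Ico (0 : ℤ) C, G k = ∑ k ∈ Ico (0 : ℤ) C, F k := by
  have : NeZero C := ⟨hC⟩
  have e : ∀ H : ℤ → ℤ, ∑ k ∈ Ico (0 : ℤ) C, H k = ∑ x : ZMod C, H x.val := fun H => by
    rw [G5.CN.sum_Ico0]
    refine (sum_bij (fun x _ => x.val) (fun x _ => mem_range.2 x.val_lt)
      (fun x _ y _ k => ZMod.val_injective _ k) (fun k hk => ⟨k, mem_univ _, ?_⟩) fun _ _ => rfl).symm
    exact ZMod.val_cast_of_lt (mem_range.1 hk)
  rw [e, e, ← Equiv.sum_comp σ]
  exact sum_congr rfl fun x _ => h _ _ (by simp)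

theorem sum_mul_eq (hC : C ≠ 0) (hu : IsCoprime u C) {F G : ℤ → ℤ}
    (h : ∀ k j : ℤ, G (u * k + C * j) = F k) :
    ∑ k ∈ Ico (0 : ℤ) C, G k = ∑ k ∈ Ico (0 : ℤ) C, F k := by
  refine sum_perm hC ((ZMod.coe_int_isUnit_iff_isCoprime u C).2 hu.symm).unit.mulLeft
    fun k k' e => ?_
  obtain ⟨j, hj⟩ := (ZMod.intCast_eq_intCast_iff_dvd_sub (u * k) k' C).1 (by simpa using e.symm)
  rw [← h k j, ← hj, add_sub_cancel]

theorem sum_inv_eq (hC : C ≠ 0) (hu : IsCoprime u C) {F G : ℤ → ℤ}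
    (h : ∀ k k' j : ℤ, u * k * k' = 1 + C * j → G k' = F k)
    (hF : ∀ k : ℤ, ¬ IsCoprime k C → F k = 0) (hG : ∀ k : ℤ, ¬ IsCoprime k C → G k = 0) :
    ∑ k ∈ Ico (0 : ℤ) C, G k = ∑ k ∈ Ico (0 : ℤ) C, F k := by
  have h0 := (ZMod.coe_int_isUnit_iff_isCoprime u C).2 hu.symm
  let s : ZMod C → ZMod C := fun x => if IsUnit x then (u * x)⁻¹ else x
  have h1 : ∀ x, IsUnit x → u * x * s x = 1 := fun x hx => by
    simp only [s, if_pos hx]
    exact ZMod.mul_inv_of_unit _ (h0.mul hx)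
  have h2 : Function.Involutive s := fun x => by
    by_cases hx : IsUnit x
    · have h3 : IsUnit (s x) := IsUnit.of_mul_eq_one_right _ (h1 x hx)
      refine (h0.mul h3).mul_left_cancel ?_
      rw [h1 _ h3, mul_right_comm, h1 x hx]
    · simp only [s, if_neg hx]
  refine sum_perm hC h2.toPerm fun k k' e => ?_
  replace e : (k' : ZMod C) = s k := e
  by_cases hx : IsUnit (k : ZMod C)
  · obtain ⟨j, hj⟩ := (ZMod.intCast_eq_intCast_iff_dvd_sub 1 (u * k * k') C).1 (by
      push_cast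
      rw [e, h1 _ hx])
    exact h k k' j (by linear_combination hj)
  · simp only [s, if_neg hx] at e
    rw [hF k fun j => hx ((ZMod.coe_int_isUnit_iff_isCoprime k C).2 j.symm),
      hG k' fun j => hx (e ▸ (ZMod.coe_int_isUnit_iff_isCoprime k' C).2 j.symm)]

end Pool.Agent.G7.Lt7
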