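import Pool.Agent.Lib.MP_696deb_nt.B7.LV7a

/-! The weight of a factorization and its symmetries. -/

set_option autoImplicit false

open Finset NumberTheorySymbols
open scoped Classical

namespace Pool.Agent.G7.Lt7

open Pool.Agent.Lib.MP_696deb_nt
open Pool.Agent.Lib.MP_696deb_nt.B3 (PChr)

/-- The data of a family of lines and a family of geodesics. -/
structure Fx where
  N : ℕ
  C : ℕ
  χ : ℤ → ℤ
  d : ℤ
  E : ℤ
  β : ℤ
  chr : PChr C χ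
  sqf : Squarefree d
  dvd : (cnd d : ℤ) ^ 2 ∣ E

namespace Fx

variable (Z : Fx) {S : Finset ℕ} {t a e k b c u s : ℤ} {l : ℕ}

/-- The form with coefficients `N a, b, c` meets the line of `k` with invariants `t, a, e`. -/
structure Cd (t a e k b c : ℤ) : Prop where
  hb : t - 2 * Z.N * a * k = Z.C * b
  hc : Z.N * a * k ^ 2 - t * k + e = Z.C ^ 2 * c
  ori : 2 * (Z.N : ℤ) ∣ b - Z.β

/-- The weight of this form. -/
noncomputable def tw (S : Finset ℕ) (t a e k : ℤ) : ℤ :=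
  if ∃ b c, Z.Cd t a e k b c then ∏ p ∈ S, lc Z.d p
    (Z.N * ((Z.N * a * k ^ 2 - t * k + e) / Z.C ^ 2), -((t - 2 * Z.N * a * k) / Z.C), a) else 0

/-- The weight of a factorization. -/
noncomputable def mu (S : Finset ℕ) (t a e : ℤ) : ℤ :=
  ∑ k ∈ Ico (0 : ℤ) Z.C, Z.χ k * Z.tw S t a e k

variable {Z}

theorem C0 : (Z.C : ℤ) ≠ 0 := Nat.cast_ne_zero.2 Z.chr.ne

theorem Cd.tw (h : Z.Cd t a e k b c) :
    Z.tw S t a e k = ∏ p ∈ S, lc Z.d p (Z.N * c, -b, a) := by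
  rw [Fx.tw, if_pos ⟨b, c, h⟩, h.hb, h.hc, Int.mul_ediv_cancel_left _ C0,
    Int.mul_ediv_cancel_left _ (pow_ne_zero 2 C0)]

theorem Cd.dvd (h : Z.Cd t a e k b c) (hM : 4 * Z.N * (a * e) = t ^ 2 - Z.C ^ 2 * Z.E) :
    b ^ 2 - 4 * Z.N * a * c = Z.E := mul_left_cancel₀ (pow_ne_zero 2 C0) (by
  linear_combination -(Z.C * b + t - 2 * Z.N * a * k) * h.hb + 4 * Z.N * a * h.hc - hM)

theorem Cd.disc (h : Z.Cd t a e k b c) (hM : 4 * Z.N * (a * e) = t ^ 2 - Z.C ^ 2 * Z.E) :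
    (cnd Z.d : ℤ) ^ 2 ∣ fdisc (Z.N * c, -b, a) :=
  Z.dvd.trans (dvd_of_eq (by simp only [fdisc]; linear_combination -h.dvd hM))

theorem tw_rel {t' a' e' k' : ℤ} (h1 : ∀ b c, Z.Cd t a e k b c → ∃ b' c', Z.Cd t' a' e' k' b' c' ∧
      ∏ p ∈ S, lc Z.d p (Z.N * c, -b, a) = s * ∏ p ∈ S, lc Z.d p (Z.N * c', -b', a'))
    (h2 : ∀ b c, Z.Cd t' a' e' k' b c → ∃ b' c', Z.Cd t a e k b' c') :
    Z.tw S t a e k = s * Z.tw S t' a' e' k' := by
  by_cases h : ∃ b c, Z.Cd t a e k b c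
  · obtain ⟨b, c, h⟩ := h
    obtain ⟨b', c', h3, h4⟩ := h1 b c h
    rw [h.tw, h3.tw, h4]
  · rw [tw, tw, if_neg h, if_neg fun ⟨b, c, j⟩ => h (h2 b c j), mul_zero]

theorem exists_of_mu (h : Z.mu S t a e ≠ 0) : ∃ k b c : ℤ, IsCoprime k Z.C ∧ Z.Cd t a e k b c ∧
    ∀ p ∈ S, lc Z.d p (Z.N * c, -b, a) ≠ 0 := by
  obtain ⟨k, -, h1⟩ := exists_ne_zero_of_sum_ne_zero h
  obtain ⟨b, c, h2⟩ := (ite_ne_right_iff.1 (right_ne_zero_of_mul h1)).1
  exact ⟨k, b, c, Z.chr.cop (left_ne_zero_of_mul h1), h2,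
    prod_ne_zero_iff.1 (h2.tw ▸ right_ne_zero_of_mul h1)⟩

theorem abs_mu : |Z.mu S t a e| ≤ Z.C := by
  refine (abs_sum_le_sum_abs _ _).trans ((sum_le_card_nsmul _ _ 1 fun k _ => ?_).trans (by simp))
  rw [abs_mul]
  refine mul_le_one₀ ?_ (abs_nonneg _) ?_
  · rcases Z.chr.cases k with h | h | h <;> simp [h]
  · unfold tw
    split_ifs
    · rw [abs_prod]
      exact prod_le_one (fun _ _ => abs_nonneg _) fun p _ => lx_abs _ _ _
    · simp

variable (hS : S ⊆ (cnd Z.d).primeFactors)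
include hS

theorem mu_scale (hM : 4 * Z.N * (u * a * e) = t ^ 2 - Z.C ^ 2 * Z.E) (hu : IsCoprime u Z.C)
    (hp : ∀ p ∈ S, ¬ (p : ℤ) ∣ u) :
    Z.mu S t (u * a) e = Z.χ u * (∏ p ∈ S, lx Z.d p u) * Z.mu S t a (u * e) := by
  rw [mu, mu, mul_sum]
  refine (sum_mul_eq Z.chr.ne hu fun k j => ?_).symm
  rw [Z.chr.per (u * k + _) (u * k) ⟨j, by ring⟩, Z.chr.mul, tw_rel (a := u * a)
    (s := ∏ p ∈ S, lx Z.d p u) (t' := t) (a' := a) (e' := u * e) (k' := u * k + Z.C * j) (fun b c h => ?_) fun b c h => ?_]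
  · linear_combination (Z.χ k * (∏ p ∈ S, lx Z.d p u) *
      Z.tw S t a (u * e) (u * k + Z.C * j)) * Z.chr.sq hu
  · have h1 : Z.Cd t a (u * e) (u * k + Z.C * j) (b - 2 * Z.N * a * j)
        (u * c - b * j + Z.N * a * j ^ 2) := ⟨by linear_combination h.hb,
      by linear_combination u * h.hc - Z.C * j * h.hb,
      by rw [sub_right_comm, mul_assoc _ a]; exact h.ori.sub (dvd_mul_right _ _)⟩
    refine ⟨_, _, h1, ?_⟩
    rw [← prod_mul_distrib]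
    exact prod_congr rfl fun p k1 => lc_rel Z.sqf (hS k1) (h.disc hM)
      (h1.disc (by linear_combination hM)) (α := u) (β := 0) (γ := Z.N * j) (δ := 1) (hp p k1)
      (by simpa using hp p k1) fun x y => by simp only [fval]; ring
  · obtain ⟨c', h1⟩ : (Z.C : ℤ) ^ 2 ∣ Z.N * (u * a) * k ^ 2 - t * k + e :=
      hu.symm.pow_left.dvd_of_dvd_mul_left ⟨c + b * j + Z.N * a * j ^ 2, by
        linear_combination h.hc + Z.C * j * h.hb⟩
    exact ⟨b + 2 * Z.N * a * j, c', by linear_combination h.hb, h1, by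
      rw [add_sub_right_comm, mul_assoc _ a]; exact h.ori.add (dvd_mul_right _ _)⟩

theorem mu_swap {g Q C₁ w : ℤ} (hM : 4 * Z.N * (a * (g * w)) = t ^ 2 - Z.C ^ 2 * Z.E)
    (hN : Z.N = g * Q) (hC : Z.C = g * C₁) (hβ : g ∣ Z.β) (hQ : IsCoprime Q Z.C)
    (hp : ∀ p ∈ S, ¬ (p : ℤ) ∣ Q) :
    Z.mu S t a (g * w) = Z.χ Q * (∏ p ∈ S, lx Z.d p Q) * Z.mu S t w (g * a) := by
  have g0 : g ≠ 0 := left_ne_zero_of_mul (hC ▸ C0)
  have Q1 : ∀ {a w k b c : ℤ}, Z.Cd t a (g * w) k b c → ∃ b', b = g * b' ∧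
      t = g * (C₁ * b + 2 * Q * a * k) ∧ w = Q * a * k ^ 2 + b * k * C₁ + c * g * C₁ ^ 2 :=
    fun {a w k b c} ⟨h1, h2, h3⟩ => by
      obtain ⟨b', h4⟩ : g ∣ b := (dvd_sub_left hβ).1 (Dvd.dvd.trans ⟨2 * Q, by rw [hN]; ring⟩ h3)
      rw [hN, hC] at h1 h2
      exact ⟨b', h4, by linear_combination h1,
        mul_left_cancel₀ g0 (by linear_combination h2 + k * h1)⟩
  have Q0 : ∀ {a w k k' j b c : ℤ}, Q * k * k' = 1 + Z.C * j → Z.Cd t a (g * w) k b c →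
      Z.Cd t w (g * a) k' (-b - 2 * Z.N * a * k * j - 2 * Z.C * j * b - 2 * Q * k' * c * Z.C)
        (g * a * j ^ 2 + b * j * k' + c * Q * k' ^ 2) := fun {a w k k' j b c} hj h => by
    obtain ⟨b, rfl, h1, h2⟩ := Q1 h
    refine ⟨?_, ?_, (h.ori.sub (dvd_mul_right _ (b * k * k' + a * k * j + k' * c * C₁))).trans
      (dvd_of_eq ?_)⟩
    · rw [hN, hC, h1, h2]
      rw [hC] at hj
      linear_combination (-2 * g * Q * a * k - 2 * g ^ 2 * b * C₁) * hj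
    · rw [hN, hC, h1, h2]
      rw [hC] at hj
      linear_combination (g * a * (Q * k * k' - 1 + g * C₁ * j) + g ^ 2 * b * C₁ * k') * hj
    · rw [hN, hC]
      rw [hC] at hj
      linear_combination (-2 * g * b) * hj
  rw [mu, mu, mul_sum]
  refine (sum_inv_eq Z.chr.ne hQ (fun k k' j hj => ?_)
    (fun k h => by rw [Z.chr.zero k h, zero_mul])
    fun k h => by rw [Z.chr.zero k h, zero_mul, mul_zero]).symm
  have h0 : Z.χ Q * Z.χ k * Z.χ k' = 1 := by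
    rw [← Z.chr.mul, ← Z.chr.mul, ← Z.chr.one]
    exact Z.chr.per _ _ ⟨j, by linear_combination hj⟩
  have h1 := Z.chr.sq (a := k) ⟨Q * k', -j, by linear_combination hj⟩
  rw [show Z.χ k = Z.χ Q * Z.χ k' by linear_combination -Z.χ k * h0 + Z.χ Q * Z.χ k' * h1,
    tw_rel (a := a) (k := k) (s := ∏ p ∈ S, lx Z.d p Q)
    (t' := t) (a' := w) (e' := g * a) (k' := k') (fun b c h => ⟨_, _, Q0 hj h, ?_⟩)
    fun b c h => ⟨_, _, Q0 (j := j) (by linear_combination hj) h⟩]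
  · ring
  rw [← prod_mul_distrib]
  refine prod_congr rfl fun p k1 => lc_rel Z.sqf (hS k1) (h.disc hM)
    ((Q0 hj h).disc (by linear_combination hM)) (α := Q * k') (β := C₁) (γ := -(Z.N * j))
    (δ := -(Q * k)) (hp p k1) (fun k2 => hp p k1 ?_) fun x y => ?_
  · refine dvd_neg.1 (k2.trans (dvd_of_eq ?_))
    rw [hN]
    rw [hC] at hj
    linear_combination -Q * hj
  · obtain ⟨b, rfl, -, h2⟩ := Q1 h
    simp only [fval]
    rw [hN, hC, h2]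
    rw [hC] at hj
    linear_combination (-Q * g * b * x * y) * hj

theorem mu_zero {y C₁ : ℕ} (hl : l.Prime) (hC : Z.C = l * (y * C₁))
    (hc : IsCoprime (C₁ : ℤ) l) (hy : ∀ p : ℕ, p.Prime → p ∣ y → p = l)
    (hM : 4 * Z.N * ((l * y) ^ 2 * a * ((l * y) ^ 2 * e)) =
      ((l * y) ^ 2 * t) ^ 2 - Z.C ^ 2 * Z.E)
    (H : l ∈ S → ∀ k j c c' : ℤ, ¬ (l : ℤ) ∣ k → ¬ (l : ℤ) ∣ k + y * C₁ * j →
      C₁ ^ 2 * c = Z.N * a * k ^ 2 - t * k + e →
      C₁ ^ 2 * c' = Z.N * a * (k + y * C₁ * j) ^ 2 - t * (k + y * C₁ * j) + e →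
      lx Z.d l (Z.N * c) = lx Z.d l (Z.N * c')) :
    Z.mu S ((l * y) ^ 2 * t) ((l * y) ^ 2 * a) ((l * y) ^ 2 * e) = 0 := by
  have hP := Nat.prime_iff_prime_int.1 hl
  have h0 : (Z.C : ℤ) = l * y * C₁ := by rw [hC]; push_cast; ring
  have h1 : (l * y : ℤ) ≠ 0 := left_ne_zero_of_mul (h0 ▸ C0)
  have h2 : ∀ p : ℕ, p.Prime → (p : ℤ) ∣ l * y → p = l := fun p hp k =>
    ((Nat.prime_iff_prime_int.1 hp).dvd_or_dvd k).elim (fun k =>
      (Nat.prime_dvd_prime_iff_eq hp hl).1 (Int.natCast_dvd_natCast.1 k))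
      fun k => hy p hp (Int.natCast_dvd_natCast.1 k)
  have h3 : IsCoprime (l * y : ℤ) C₁ := Int.isCoprime_iff_gcd_eq_one.2
    (Nat.eq_one_iff_not_exists_prime_dvd.2 fun p hp k => by
      replace k := Int.natCast_dvd_natCast.2 k
      obtain rfl := h2 p hp (k.trans (Int.gcd_dvd_left _ _))
      exact hP.not_isUnit (hc.isUnit_of_dvd' (k.trans (Int.gcd_dvd_right _ _)) dvd_rfl))
  have key : ∀ k j b c : ℤ, ¬ (l : ℤ) ∣ k → ¬ (l : ℤ) ∣ k + y * C₁ * j →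
      Z.Cd ((l * y) ^ 2 * t) ((l * y) ^ 2 * a) ((l * y) ^ 2 * e) k b c → ∃ b' c',
      Z.Cd ((l * y) ^ 2 * t) ((l * y) ^ 2 * a) ((l * y) ^ 2 * e) (k + y * C₁ * j) b' c' ∧
      ∏ p ∈ S, lc Z.d p (Z.N * c, -b, (l * y) ^ 2 * a) =
        1 * ∏ p ∈ S, lc Z.d p (Z.N * c', -b', (l * y) ^ 2 * a) := fun k j b c k1 k2 h => by
    have h4 := h.hb
    have h5 := h.hc
    rw [h0] at h4 h5
    obtain ⟨b, rfl⟩ : (l * y : ℤ) ∣ b := h3.dvd_of_dvd_mul_left ⟨t - 2 * Z.N * a * k,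
      mul_left_cancel₀ h1 (by linear_combination -h4)⟩
    have h6 : Z.Cd ((l * y) ^ 2 * t) ((l * y) ^ 2 * a) ((l * y) ^ 2 * e) (k + y * C₁ * j)
        (l * y * b - 2 * Z.N * (l * y * a * (y * j))) (c - b * (y * j) + Z.N * a * (y * j) ^ 2) :=
      ⟨by rw [h0]; linear_combination h4, by rw [h0]; linear_combination h5 - y * C₁ * j * h4,
        by rw [sub_right_comm]; exact h.ori.sub (dvd_mul_right _ _)⟩
    refine ⟨_, _, h6, (prod_congr rfl fun p hp => ?_).trans (one_mul _).symm⟩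
    have h7 := Nat.prime_of_mem_primeFactors (hS hp)
    by_cases h8 : p = l
    · subst h8
      have h9 : ∀ u v : ℤ, lc Z.d p (u, v, (p * y) ^ 2 * a) = lx Z.d p u := fun u v => by
        unfold lc
        split_ifs with j
        · rw [lx_zero Z.sqf (hS hp) j, lx_zero Z.sqf (hS hp) ⟨p * y ^ 2 * a, by ring⟩]
        · rfl
      have h10 := h6.hc
      rw [h0] at h10
      rw [h9, h9]
      exact H hp k j _ _ k1 k2 (mul_left_cancel₀ (pow_ne_zero 2 h1) (by linear_combination -h5))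
        (mul_left_cancel₀ (pow_ne_zero 2 h1) (by linear_combination -h10))
    have h9 : ¬ (p : ℤ) ∣ l * y * (l * y) := fun j =>
      ((Nat.prime_iff_prime_int.1 h7).dvd_or_dvd j).elim (h8 <| h2 p h7 ·) (h8 <| h2 p h7 ·)
    rw [lc_rel Z.sqf (hS hp) (h.disc hM) (h6.disc hM) (α := l * y) (β := 0) (γ := Z.N * (y * j))
      (δ := l * y) h9 (by simpa only [zero_mul, sub_zero] using h9) fun x z => by
        simp only [fval]; ring, lx_mul, ← sq, lx_sq h7 fun j => h8 (h2 p h7 j), one_mul]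
  obtain ⟨u, ⟨v, hv⟩, hu⟩ := Z.chr.prim l _ hl hC
  have h4 : IsCoprime u Z.C := Z.chr.cop (by rw [hu]; norm_num)
  have h5 : ∀ k : ℤ, IsCoprime k Z.C → ¬ (l : ℤ) ∣ k := fun k hk j =>
    hP.not_isUnit (hk.isUnit_of_dvd' j ⟨y * C₁, by rw [h0]; ring⟩)
  refine self_eq_neg.1 ?_
  rw [mu, ← sum_neg_distrib]
  refine sum_mul_eq Z.chr.ne h4 fun k j => ?_
  rw [Z.chr.per (u * k + _) (u * k) ⟨j, by ring⟩, Z.chr.mul, hu]
  by_cases hk : IsCoprime k Z.C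
  swap
  · rw [Z.chr.zero k hk, mul_zero, zero_mul, zero_mul, neg_zero]
  have h6 := h5 _ ((h4.mul_left hk).add_mul_left_left j)
  have h7 : u * k + Z.C * j = k + y * C₁ * (v * k + l * j) := by
    rw [h0]
    push_cast at hv
    linear_combination k * hv
  rw [h7] at h6 ⊢
  rw [tw_rel (k := k) (fun b c => key k _ b c (h5 k hk) h6) fun b c h => ?_]
  · ring
  have h8 : k + y * C₁ * (v * k + l * j) + y * C₁ * -(v * k + l * j) = k := by ring
  obtain ⟨b', c', h9, -⟩ := key _ (-(v * k + l * j)) b c h6 (h8.symm ▸ h5 k hk) h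
  exact ⟨b', c', h8 ▸ h9⟩

end Fx

end Pool.Agent.G7.Lt7
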