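import Pool.Agent.Lib.MP_696deb_nt.B7.LV7b

/-! The weight of a factorization at a prime. -/

set_option autoImplicit false

open Finset NumberTheorySymbols
open scoped Classical

namespace Pool.Agent.G7.Lt7

open Pool.Agent.Lib.MP_696deb_nt
open Pool.Agent.Lib.MP_696deb_nt.B3 (PChr cond2 pchr_chi2)
open Pool.Agent.G5.LG (val)

namespace Fx

variable {Z : Fx} {S : Finset ℕ} {t a e k b c u : ℤ} {l r s v C₁ : ℕ}

theorem Cd.e_eq (h : Z.Cd t a e k b c) : e = Z.N * a * k ^ 2 + b * k * Z.C + c * Z.C ^ 2 := by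
  linear_combination h.hc + k * h.hb

theorem nd_mul (hl : l.Prime) (ha : ¬ (l : ℤ) ∣ a) (hb : ¬ (l : ℤ) ∣ b) : ¬ (l : ℤ) ∣ a * b :=
  fun h => ((Nat.prime_iff_prime_int.1 hl).dvd_or_dvd h).elim ha hb

theorem nd_pow (hl : l.Prime) (ha : ¬ (l : ℤ) ∣ a) (i : ℕ) : ¬ (l : ℤ) ∣ a ^ i :=
  fun h => ha ((Nat.prime_iff_prime_int.1 hl).dvd_of_dvd_pow h)

theorem nd_of_cop (hl : l.Prime) (hk : IsCoprime k Z.C) (h : l ∣ Z.C) : ¬ (l : ℤ) ∣ k := fun j =>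
  (Nat.prime_iff_prime_int.1 hl).not_isUnit (hk.isUnit_of_dvd' j (Int.natCast_dvd_natCast.2 h))

theorem lc_of_dvd (hl : l ∈ (cnd Z.d).primeFactors) (h : (l : ℤ) ∣ a) (x y : ℤ) :
    lc Z.d l (x, y, a) = lx Z.d l x := by
  unfold lc
  split_ifs with j
  · rw [lx_zero Z.sqf hl j, lx_zero Z.sqf hl h]
  · rfl

/-- The character by which the weight changes. -/
noncomputable def eta (Z : Fx) (S : Finset ℕ) (u : ℤ) : ℤ := Z.χ u * ∏ p ∈ S, lx Z.d p u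

variable (hS : S ⊆ (cnd Z.d).primeFactors)
include hS

theorem mu_pow (hl : l.Prime) (hC : IsCoprime (l : ℤ) Z.C) (h : l ∉ S) (i : ℕ)
    (hM : 4 * Z.N * (l ^ i * a * e) = t ^ 2 - Z.C ^ 2 * Z.E) :
    Z.mu S t (l ^ i * a) e = Z.eta S l ^ i * Z.mu S t a (l ^ i * e) := by
  induction i generalizing e with
  | zero => simp
  | succ i ih =>
    rw [pow_succ', mul_assoc, mu_scale hS (by rw [← hM]; ring) hC fun p hp =>
      not_dvd_of_prime_ne (Nat.prime_of_mem_primeFactors (hS hp)) hl fun j => h (j ▸ hp),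
      ih (by rw [← hM]; ring), eta, mul_left_comm ((l : ℤ) ^ i), ← mul_assoc (l : ℤ)]
    ring

theorem mu_even (hl : l.Prime) (hC : IsCoprime (l : ℤ) Z.C) (h : l ∉ S)
    (hp : Z.eta S l = 1 ∨ Even (r + s))
    (hM : 4 * Z.N * (l ^ r * a * (l ^ s * e)) = t ^ 2 - Z.C ^ 2 * Z.E) :
    Z.mu S t (l ^ s * a) (l ^ r * e) = Z.mu S t (l ^ r * a) (l ^ s * e) := by
  rw [mu_pow hS hl hC h r hM, mu_pow hS hl hC h s (by rw [← hM]; ring), mul_left_comm (_ ^ s)]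
  congr 1
  rcases hp with hp | ⟨v, hv⟩
  · rw [hp, one_pow, one_pow]
  have h1 : Z.eta S l ^ 2 = 1 := by
    rw [eta, mul_pow, Z.chr.sq hC, one_mul, ← prod_pow]
    exact prod_eq_one fun p hp => lx_sq (Nat.prime_of_mem_primeFactors (hS hp))
      (not_dvd_of_prime_ne (Nat.prime_of_mem_primeFactors (hS hp)) hl fun j => h (j ▸ hp))
  rw [← one_mul (_ ^ s), ← one_pow r, ← h1, ← pow_mul, ← pow_add,
    show 2 * r + s = 2 * v + r by omega, pow_add, pow_mul, h1, one_pow, one_mul]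

theorem val_lev (hl : l ∈ S) (hN : Squarefree Z.N) (h1 : l ∣ Z.N) (h2 : l ∣ Z.C)
    (h3 : (l : ℤ) ∣ Z.β) (h : Z.mu S t a e ≠ 0) : padicValInt l e = padicValInt l (Z.N * a) := by
  have hp := Nat.prime_of_mem_primeFactors (hS hl)
  obtain ⟨k, b, c, k1, k2, k3⟩ := exists_of_mu h
  obtain ⟨n, hn⟩ := h1
  obtain ⟨C, hC⟩ := id h2
  have h4 : (Z.N : ℤ) = l * n := by exact_mod_cast hn
  have h5 : ¬ (l : ℤ) ∣ a := fun j => k3 l hl (lc_zero Z.sqf (hS hl) ⟨n * c, by rw [h4]; ring⟩ j)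
  have h6 : ¬ (l : ℤ) ∣ n := fun j => hp.not_isUnit
    (hN l (hn ▸ mul_dvd_mul_left l (Int.natCast_dvd_natCast.1 j)))
  obtain ⟨b, rfl⟩ : (l : ℤ) ∣ b := (dvd_sub_left h3).1
    (Dvd.dvd.trans ⟨2 * n, by rw [h4]; ring⟩ k2.ori)
  rw [show e = l ^ 1 * (n * a * k ^ 2 + l * (b * k * C + c * C ^ 2)) by
      rw [k2.e_eq, h4, hC]; push_cast; ring, show Z.N * a = l ^ 1 * (n * a) by rw [h4]; ring,
    val hp (nd_mul hp h6 h5), val hp fun j => nd_mul hp (nd_mul hp h6 h5)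
      (nd_pow hp (nd_of_cop hp k1 h2) 2) ((dvd_add_left (dvd_mul_right _ _)).1 j)]

theorem val_odd (hl : l ∈ S) (h2 : l ≠ 2) (hN : ¬ (l : ℤ) ∣ Z.N) (hC : Z.C = l * (1 * C₁))
    (hc : ¬ (l : ℤ) ∣ C₁) (hE : (l : ℤ) ^ 4 ∣ Z.E)
    (hM : 4 * Z.N * (a * e) = t ^ 2 - Z.C ^ 2 * Z.E) (h : Z.mu S t a e ≠ 0) :
    padicValInt l e = padicValInt l (Z.N * a) := by
  have hp := Nat.prime_of_mem_primeFactors (hS hl)
  have hP := Nat.prime_iff_prime_int.1 hp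
  obtain ⟨k, b, c, k1, k2, k3⟩ := exists_of_mu h
  have h3 : (Z.C : ℤ) = l * C₁ := by rw [hC]; push_cast; ring
  have h4 := nd_of_cop hp k1 ⟨_, hC⟩
  have h5 := k2.e_eq
  have h6 := k2.dvd hM
  have h7 : ¬ (l : ℤ) ∣ 2 := not_dvd_of_prime_ne hp Nat.prime_two h2
  obtain ⟨E, hE⟩ := hE
  rw [h3] at h5
  by_cases ha : (l : ℤ) ∣ a
  swap
  · rw [padicValInt.eq_zero_of_not_dvd (nd_mul hp hN ha), padicValInt.eq_zero_of_not_dvd fun j =>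
      nd_mul hp (nd_mul hp hN ha) (nd_pow hp h4 2) ((dvd_add_left ⟨b * k * C₁ + c * l * C₁ ^ 2,
        rfl⟩).1 (j.trans (dvd_of_eq (by rw [h5]; ring))))]
  have h8 : ¬ (l : ℤ) ∣ Z.N * c := fun j => k3 l hl (lc_zero Z.sqf (hS hl) j ha)
  obtain ⟨b, rfl⟩ : (l : ℤ) ∣ b := hP.dvd_of_dvd_pow (n := 2) (((ha.mul_left (4 * Z.N * c)).add
    (dvd_mul_right _ (l ^ 3 * E))).trans (dvd_of_eq (by linear_combination -h6 - hE)))
  obtain ⟨a, rfl⟩ : (l : ℤ) ^ 2 ∣ a := (hP.coprime_iff_not_dvd.2 (nd_mul hp (nd_pow hp h7 2)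
    h8)).pow_left.dvd_of_dvd_mul_left ⟨b ^ 2 - l ^ 2 * E, by linear_combination -h6 - hE⟩
  obtain ⟨t, h9, rfl⟩ : ∃ t', t' = C₁ * b + 2 * Z.N * a * k ∧ t = l ^ 2 * t' :=
    ⟨_, rfl, by have := k2.hb; rw [h3] at this; linear_combination this⟩
  obtain ⟨e, rfl⟩ : (l : ℤ) ^ 2 ∣ e := ⟨Z.N * a * k ^ 2 + b * k * C₁ + c * C₁ ^ 2, by
    rw [h5]; ring⟩
  have h10 : 2 ^ 2 * Z.N * (a * e) = t ^ 2 - l * (l * C₁ ^ 2 * E) :=
    mul_left_cancel₀ (pow_ne_zero 4 hP.ne_zero) (by rw [h3, hE] at hM; linear_combination hM)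
  by_cases ht : (l : ℤ) ∣ t
  swap
  · have h11 : ¬ (l : ℤ) ∣ a * e := fun j => nd_pow hp ht 2
      ((dvd_sub_left (dvd_mul_right _ _)).1 (h10 ▸ j.mul_left _))
    rw [mul_left_comm, val hp fun j => h11 (j.mul_left _),
      val hp (nd_mul hp hN fun j => h11 (j.mul_right _))]
  refine absurd ?_ h
  have h11 := mu_zero hS (t := t) (a := a) (e := e) hp hC (hP.coprime_iff_not_dvd.2 hc).symm
    (fun p hp k => absurd k hp.not_dvd_one) (by simpa using hM) fun _ k j c c' k4 k5 k6 k7 => ?_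
  · simpa using h11
  rw [lx, lx, if_neg h2, if_neg h2]
  obtain ⟨t, rfl⟩ := ht
  generalize k + (1 : ℕ) * C₁ * j = k' at k5 k7
  by_cases ha' : (l : ℤ) ∣ a
  · obtain ⟨a, rfl⟩ := ha'
    refine jac_congr ((hP.dvd_or_dvd (a := C₁ ^ 2) ⟨Z.N * (Z.N * a * (k ^ 2 - k' ^ 2) -
      t * (k - k')), by linear_combination Z.N * k6 - Z.N * k7⟩).resolve_left (nd_pow hp hc 2))
  obtain ⟨e, rfl⟩ : (l : ℤ) ∣ e := by_contra fun j => nd_mul hp (nd_mul hp (nd_pow hp h7 2) hN)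
    (nd_mul hp ha' j) ⟨l * t ^ 2 - l * C₁ ^ 2 * E, by linear_combination h10⟩
  have h12 : ∀ k c : ℤ, ¬ (l : ℤ) ∣ k → C₁ ^ 2 * c = Z.N * a * k ^ 2 - l * t * k + l * e →
      J(Z.N * c | l) = J(a | l) := fun k c j1 j2 => jac_eq_of_sq hp (nd_mul hp hN fun j =>
    nd_mul hp (nd_mul hp hN ha') (nd_pow hp j1 2) ((dvd_add_left (dvd_mul_right _ (e - t * k))).1
      ((j.mul_left (C₁ ^ 2)).trans (dvd_of_eq (by linear_combination j2))))) ha' hc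
    (l := Z.N * a * k) ⟨Z.N * a * (e - t * k), by linear_combination Z.N * a * j2⟩
  rw [h12 k c k4 k6, h12 k' c' k5 k7]

theorem val_two (hl : 2 ∈ S) (hN : Odd Z.N) (hC : Z.C = cond2 Z.d * C₁) (hc : Odd C₁)
    (hE : (2 * cond2 Z.d : ℤ) ^ 2 ∣ Z.E)
    (hM : 4 * Z.N * (a * e) = t ^ 2 - Z.C ^ 2 * Z.E) (h : Z.mu S t a e ≠ 0) :
    padicValInt 2 e = padicValInt 2 (Z.N * a) := by
  have hp := Nat.prime_two
  obtain ⟨k, b, c, k1, k2, k3⟩ := exists_of_mu h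
  obtain ⟨y, hy⟩ := four_dvd Z.sqf (Nat.dvd_of_mem_primeFactors (hS hl))
  obtain ⟨n, -, hn⟩ := (Nat.dvd_prime_pow hp).1 (cond2_dvd Z.d)
  have h0 : ∀ {x : ℕ}, Odd x → ¬ ((2 : ℕ) : ℤ) ∣ x := fun hx j =>
    hx.not_two_dvd_nat (Int.natCast_dvd_natCast.1 j)
  have h1 : (cond2 Z.d : ℤ) = 4 * y := by exact_mod_cast hy
  have h2 : (cond2 Z.d : ℤ) = (2 : ℕ) ^ n := by exact_mod_cast hn
  have h3 : (Z.C : ℤ) = cond2 Z.d * C₁ := by exact_mod_cast hC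
  have h4 := nd_of_cop hp k1 ⟨2 * y * C₁, by rw [hC, hy]; ring⟩
  have h5 := k2.e_eq
  have h6 := k2.dvd hM
  obtain ⟨E, hE⟩ := hE
  rw [h3] at h5
  by_cases ha : ((2 : ℕ) : ℤ) ∣ a
  swap
  · rw [padicValInt.eq_zero_of_not_dvd (nd_mul hp (h0 hN) ha), padicValInt.eq_zero_of_not_dvd
      fun j => nd_mul hp (nd_mul hp (h0 hN) ha) (nd_pow hp h4 2) ((dvd_add_left
        ⟨b * k * (2 * y) * C₁ + c * 8 * (y * C₁) ^ 2, rfl⟩).1
        (j.trans (dvd_of_eq (by rw [h5, h1]; push_cast; ring))))]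
  have h8 : ¬ ((2 : ℕ) : ℤ) ∣ Z.N * c := fun j => k3 2 hl (lc_zero Z.sqf (hS hl) j ha)
  have h9 := (Nat.prime_iff_prime_int.1 hp).coprime_iff_not_dvd.2 h8
  obtain ⟨b, rfl⟩ : 2 ∣ b := Int.prime_two.dvd_of_dvd_pow (n := 2)
    ⟨2 * (Z.N * a * c + cond2 Z.d ^ 2 * E), by linear_combination h6 + hE⟩
  have h7 : Z.N * c * a = b ^ 2 - cond2 Z.d ^ 2 * E := by linarith
  by_cases hb : (cond2 Z.d : ℤ) ∣ b
  swap
  · obtain ⟨i, b, j1, rfl⟩ := exists_pow_mul hp (k := b) fun j => hb (j ▸ dvd_zero _)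
    obtain ⟨m, rfl⟩ : ∃ m, n = i + 1 + m := Nat.exists_eq_add_of_le
      (not_le.1 fun j => hb (h2 ▸ (pow_dvd_pow _ j).mul_right _))
    rw [h2] at h5 h7
    obtain ⟨a, rfl⟩ : ((2 : ℕ) : ℤ) ^ (2 * i) ∣ a := h9.pow_left.dvd_of_dvd_mul_left
      ⟨b ^ 2 - 2 * (2 * (2 ^ m) ^ 2 * E), by rw [h7]; push_cast; ring⟩
    have h10 : Z.N * c * a = b ^ 2 - (2 : ℕ) * (2 * (2 ^ m) ^ 2 * E) :=
      mul_left_cancel₀ (pow_ne_zero (2 * i) two_ne_zero) (by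
        push_cast at h7 ⊢; linear_combination h7)
    have h11 := nd_mul hp (h0 hN) fun j : ((2 : ℕ) : ℤ) ∣ a => nd_pow hp j1 2
      ((dvd_sub_left (dvd_mul_right _ _)).1 (h10 ▸ j.mul_left _))
    rw [mul_left_comm, val hp h11, show e = (2 : ℕ) ^ (2 * i) * (Z.N * a * k ^ 2 + (2 : ℕ) *
      (2 * b * k * 2 ^ m * C₁ + 2 * c * (2 ^ m * C₁) ^ 2)) by rw [h5]; push_cast; ring,
      val hp fun j => nd_mul hp h11 (nd_pow hp h4 2) ((dvd_add_left (dvd_mul_right _ _)).1 j)]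
  obtain ⟨b, rfl⟩ := hb
  obtain ⟨a, rfl⟩ : (cond2 Z.d : ℤ) ^ 2 ∣ a := (h2 ▸ h9.pow_left.pow_left).dvd_of_dvd_mul_left
    ⟨b ^ 2 - E, by rw [h7]; ring⟩
  obtain ⟨t, rfl⟩ : (cond2 Z.d : ℤ) ^ 2 * 2 ∣ t := ⟨C₁ * b + Z.N * a * k, by
    have := k2.hb; rw [h3] at this; linear_combination this⟩
  obtain ⟨e, rfl⟩ : (cond2 Z.d : ℤ) ^ 2 ∣ e :=
    ⟨Z.N * a * k ^ 2 + 2 * b * k * C₁ + c * C₁ ^ 2, by rw [h5]; ring⟩
  have h10 : (cond2 Z.d : ℤ) = (2 : ℕ) * (2 * y : ℕ) := by rw [h1]; push_cast; ring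
  refine absurd ?_ h
  rw [mul_assoc _ 2, h10] at hM ⊢
  refine mu_zero hS hp (by rw [hC, hy]; ring)
    ((Nat.prime_iff_prime_int.1 hp).coprime_iff_not_dvd.2 (h0 hc)).symm (fun p j1 j2 =>
      (Nat.prime_dvd_prime_iff_eq j1 hp).1 (j1.dvd_of_dvd_pow (n := n) (j2.trans
        ⟨2, by rw [← hn, hy]; ring⟩))) hM fun _ k j c c' _ _ k6 k7 => ?_
  rw [lx, lx, if_pos rfl, if_pos rfl]
  refine (pchr_chi2 _).per _ _ ((cop_cond2 (nd_pow hp (h0 hc) 2)).symm.dvd_of_dvd_mul_left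
    ⟨Z.N * (t * C₁ * j - Z.N * a * (k * C₁ * j + y * C₁ ^ 2 * j ^ 2)), ?_⟩)
  rw [h1]
  push_cast at k7
  linear_combination Z.N * k6 - Z.N * k7

theorem zero_line (hp : l.Prime) (hl : l ∉ S) (h2 : l ≠ 2) (hN : ¬ (l : ℤ) ∣ Z.N)
    (hC : Z.C = l * (1 * C₁)) (hc : ¬ (l : ℤ) ∣ C₁) (hrs : r ≠ s) (hv : r + s = 2 * v)
    (ha : ¬ (l : ℤ) ∣ a) (he : ¬ (l : ℤ) ∣ e)
    (hM : 4 * Z.N * (l ^ r * a * (l ^ s * e)) = (l ^ v * u) ^ 2 - Z.C ^ 2 * Z.E) :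
    Z.mu S (l ^ v * u) (l ^ r * a) (l ^ s * e) = 0 := by
  have hP := Nat.prime_iff_prime_int.1 hp
  by_contra h
  obtain ⟨k, b, c, k1, ⟨k2, k3, -⟩, -⟩ := exists_of_mu h
  have h3 : (Z.C : ℤ) = l * C₁ := by rw [hC]; push_cast; ring
  have h4 := nd_of_cop hp k1 ⟨_, hC⟩
  have h5 := nd_mul hp (nd_mul hp hN ha) h4
  rw [h3] at k2 k3
  obtain ⟨v, rfl⟩ : ∃ w, v = w + 1 := ⟨v - 1, by omega⟩
  rcases r with _ | r
  · exact nd_mul hp (not_dvd_of_prime_ne hp Nat.prime_two h2) h5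
      ⟨l ^ v * u - C₁ * b, by push_cast; linear_combination -k2⟩
  rcases s with _ | s
  · exact he ⟨l * C₁ ^ 2 * c - Z.N * (l ^ r * a) * k ^ 2 + l ^ v * u * k, by
      linear_combination k3⟩
  obtain ⟨v, rfl⟩ : ∃ w, v = w + 1 := ⟨v - 1, by omega⟩
  rcases r with _ | r
  · obtain ⟨s, rfl⟩ : ∃ w, s = w + 1 := ⟨s - 1, by omega⟩
    exact nd_mul hp h5 h4 ⟨C₁ ^ 2 * c + l ^ v * u * k - l ^ s * e,
      mul_left_cancel₀ hP.ne_zero (by linear_combination k3)⟩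
  rcases s with _ | s
  · exact he ⟨C₁ ^ 2 * c - Z.N * (l ^ r * a) * k ^ 2 + l ^ v * u * k,
      mul_left_cancel₀ hP.ne_zero (by linear_combination k3)⟩
  have h6 : ∀ (i : ℕ) (x : ℤ), (l : ℤ) ^ (i + 1 + 1) * x = (l * (1 : ℕ)) ^ 2 * (l ^ i * x) :=
    fun i x => by push_cast; ring
  rw [h6, h6, h6] at h hM
  exact h (mu_zero hS hp hC (hP.coprime_iff_not_dvd.2 hc).symm
    (fun p hp k => absurd k hp.not_dvd_one) hM fun j => absurd j hl)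

theorem mu_erase (hl : l ∈ S) (h2 : l ≠ 2) (hC : ¬ (l : ℤ) ∣ Z.C)
    (hM : 4 * Z.N * (a * e) = t ^ 2 - Z.C ^ 2 * Z.E) : Z.mu S t a e =
      (if (l : ℤ) ∣ a then J(Z.N * e | l) else J(a | l)) * Z.mu (S.erase l) t a e := by
  have hp := Nat.prime_of_mem_primeFactors (hS hl)
  rw [mu, mu, mul_sum]
  refine sum_congr rfl fun k _ => ?_
  by_cases h : ∃ b c, Z.Cd t a e k b c
  swap
  · rw [tw, tw, if_neg h, if_neg h, mul_zero, mul_zero]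
  obtain ⟨b, c, h⟩ := h
  rw [h.tw, h.tw, ← mul_prod_erase _ _ hl, mul_left_comm]
  congr 1
  split_ifs with ha
  · obtain ⟨E, hE⟩ := ((Int.natCast_dvd_natCast.2 (Nat.dvd_of_mem_primeFactors (hS hl))).trans
      (dvd_pow_self _ two_ne_zero)).trans Z.dvd
    rw [lc_of_dvd (hS hl) ha, lx, if_neg h2, ← one_mul J(Z.N * c | l), ← jac_sq hp hC,
      ← jacobiSym.pow_left, ← jacobiSym.mul_left]
    obtain ⟨a, rfl⟩ := ha
    obtain ⟨b, rfl⟩ : (l : ℤ) ∣ b := (Nat.prime_iff_prime_int.1 hp).dvd_of_dvd_pow (n := 2)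
      ⟨E + 4 * Z.N * a * c, by linear_combination h.dvd hM + hE⟩
    exact jac_congr ⟨-(Z.N * (Z.N * a * k ^ 2 + b * k * Z.C)), by rw [h.e_eq]; ring⟩
  · have h3 : fval (Z.N * c, -b, a) 0 1 = a := by simp [fval]
    rw [lc_fval Z.sqf (hS hl) (h.disc hM) (h3.symm ▸ ha), h3, lx, if_neg h2]

theorem sym_geo (hl : l ∈ S) (h2 : l ≠ 2) (hN : ¬ (l : ℤ) ∣ Z.N) (hC : ¬ (l : ℤ) ∣ Z.C)
    (hv : Even (r + s)) (ha : ¬ (l : ℤ) ∣ a) (he : ¬ (l : ℤ) ∣ e)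
    (hu : (l : ℤ) ∣ u ^ 2 - 4 * Z.N * (a * e))
    (hM : 4 * Z.N * (l ^ r * a * (l ^ s * e)) = t ^ 2 - Z.C ^ 2 * Z.E) :
    Z.mu S t (l ^ s * a) (l ^ r * e) = Z.mu S t (l ^ r * a) (l ^ s * e) := by
  have hp := Nat.prime_of_mem_primeFactors (hS hl)
  rw [mu_erase hS hl h2 hC hM, mu_erase hS hl h2 hC (by rw [← hM]; ring),
    mu_even ((erase_subset _ _).trans hS) hp ((Nat.prime_iff_prime_int.1 hp).coprime_iff_not_dvd.2
      hC) (notMem_erase _ _) (.inr hv) hM]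
  congr 1
  have k : J(Z.N * e | l) = J(a | l) := jac_eq_of_sq hp (k := 2) (l := u) (nd_mul hp hN he) ha
    (not_dvd_of_prime_ne hp Nat.prime_two h2) ((dvd_neg.2 hu).trans (dvd_of_eq (by ring)))
  have d : ∀ (i : ℕ) (x : ℤ), (l : ℤ) ∣ l ^ (i + 1) * x := fun i x =>
    (dvd_pow_self _ i.succ_ne_zero).mul_right _
  rcases r with _ | r <;> rcases s with _ | s
  · rfl
  · rw [if_pos (d _ _), pow_zero, one_mul, one_mul, if_neg ha, k]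
  · rw [if_pos (d _ _), pow_zero, one_mul, one_mul, if_neg ha, k]
  · rw [if_pos (d _ _), if_pos (d _ _), jac_zero_of_dvd hp ((d _ _).mul_left _),
      jac_zero_of_dvd hp ((d _ _).mul_left _)]

end Fx

end Pool.Agent.G7.Lt7
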