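import Pool.Agent.Lib.MP_696deb_nt.B7.LV7c

/-! The logarithmic terms as a sum over factorizations. -/

set_option autoImplicit false

open Finset NumberTheorySymbols
open scoped Classical

namespace Pool.Agent.G7.Lt7

open Pool.Agent.Lib.MP_696deb_nt
open Pool.Agent.G5.LG (val ex TS mem_TS)

variable {l : ℕ} {M : ℤ} {μ : ℤ → ℤ → ℤ}

/-- The exponent of `l` in a sum over factorizations. -/
def vZ (μ : ℤ → ℤ → ℤ) (l : ℕ) (M : ℤ) : ℤ := ∑ z ∈ M.divisorsAntidiag,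
  μ z.1 z.2 * z.1.sign * (padicValInt l z.2 - padicValInt l z.1)

theorem vZ_zero (hl : l.Prime) (h : ∀ (r s : ℕ) (a e : ℤ), ¬ (l : ℤ) ∣ a → ¬ (l : ℤ) ∣ e →
    l ^ r * a * (l ^ s * e) = M → μ (l ^ s * a) (l ^ r * e) = μ (l ^ r * a) (l ^ s * e)) :
    vZ μ l M = 0 := by
  have h0 : (0 : ℤ) < l := mod_cast hl.pos
  let g : ℤ × ℤ → ℤ × ℤ := fun x => (l ^ padicValInt l x.2 * (x.1 / l ^ padicValInt l x.1),
    l ^ padicValInt l x.1 * (x.2 / l ^ padicValInt l x.2))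
  have hg : ∀ {a e : ℤ} (i j : ℕ), ¬ (l : ℤ) ∣ a → ¬ (l : ℤ) ∣ e →
      g (l ^ i * a, l ^ j * e) = (l ^ j * a, l ^ i * e) := fun i j ha he => by
    simp only [g, val hl ha, val hl he, Int.mul_ediv_cancel_left _ (pow_ne_zero _ h0.ne')]
  have key : ∀ x ∈ M.divisorsAntidiag, μ x.1 x.2 * x.1.sign *
      (padicValInt l x.2 - padicValInt l x.1) + μ (g x).1 (g x).2 * (g x).1.sign *
      (padicValInt l (g x).2 - padicValInt l (g x).1) = 0 := fun x hx => by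
    obtain ⟨i, j, a, e, ha, he, rfl⟩ := ex hl hx
    simp only [hg i j ha he, val hl ha, val hl he, Int.sign_mul,
      h i j a e ha he (Int.mem_divisorsAntidiag.mp hx).1, Int.sign_eq_one_of_pos (pow_pos h0 _)]
    ring
  refine sum_involution (fun x _ => g x) key (fun x hx h1 h2 => h1 (by
    simpa only [h2, add_self_eq_zero] using key x hx)) (fun x hx => ?_) fun x hx => ?_ <;>
    obtain ⟨i, j, a, e, ha, he, rfl⟩ := ex hl hx
  · rw [hg i j ha he]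
    rw [Int.mem_divisorsAntidiag] at hx ⊢
    exact ⟨by rw [← hx.1]; ring, hx.2⟩
  · rw [hg i j ha he, hg j i ha he]

theorem vZ_le {B : ℕ} (hB : ∀ a e, |μ a e| ≤ B) (hl : l.Prime) {i k : ℕ} {K : ℤ} (h0 : K ≠ 0)
    (hk : |K| ≤ k) (h : M ∣ l ^ (2 * i) * K) :
    |vZ μ l M| ≤ B * (2 * k + 1) * ((k + 2) * (i + 1)) ^ 2 := by
  have hP := Nat.prime_iff_prime_int.mp hl
  have h1 : ∀ {r s : ℕ} {a e : ℤ}, ((l : ℤ) ^ r * a, (l : ℤ) ^ s * e) ∈ M.divisorsAntidiag →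
      r + s ≤ 2 * i + k := fun {r s a e} hx => by
    by_contra k1
    have k2 : (l : ℤ) ^ (2 * i + k) ∣ l ^ (2 * i) * K := (pow_dvd_pow _ (not_le.1 k1).le).trans
      (Dvd.dvd.trans ⟨a * e, by rw [← (Int.mem_divisorsAntidiag.mp hx).1]; ring⟩ h)
    rw [pow_add, mul_dvd_mul_iff_left (pow_ne_zero _ hP.ne_zero)] at k2
    have k3 := (Int.le_of_dvd (abs_pos.2 h0) ((dvd_abs _ _).2 k2)).trans hk
    exact absurd (Nat.lt_pow_self hl.one_lt (n := k)) (not_lt.2 (by exact_mod_cast k3))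
  have h2 : M.divisorsAntidiag ⊆ (range (2 * i + k + 1) ×ˢ Icc (-(k : ℤ)) k).image
      fun y => ((l : ℤ) ^ y.1 * y.2, M / (l ^ y.1 * y.2)) := fun x hx => by
    obtain ⟨r, s, a, e, ha, he, rfl⟩ := ex hl hx
    obtain ⟨k1, k2⟩ := Int.mem_divisorsAntidiag.mp hx
    have k3 : a ∣ K := (hP.irreducible.coprime_iff_not_dvd.mpr ha).symm.pow_right.dvd_of_dvd_mul_left
      (Dvd.dvd.trans ⟨l ^ r * (l ^ s * e), by rw [← k1]; ring⟩ h)
    refine mem_image.2 ⟨(r, a), mem_product.2 ⟨mem_range.2 (by have := h1 hx; omega),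
      mem_Icc.2 (abs_le.1 ((Int.le_of_dvd (abs_pos.2 h0) ((abs_dvd_abs _ _).2 k3)).trans hk))⟩, ?_⟩
    rw [← k1, Int.mul_ediv_cancel_left _ (left_ne_zero_of_mul (k1 ▸ k2))]
  have h3 : (M.divisorsAntidiag.card : ℤ) ≤ (2 * i + k + 1) * (2 * k + 1) := by
    have k1 := (card_le_card h2).trans card_image_le
    rw [card_product, card_range, Int.card_Icc, show (k + 1 - -(k : ℤ)).toNat = 2 * k + 1 by
      omega] at k1
    exact_mod_cast k1
  have h4 : ∀ x ∈ M.divisorsAntidiag, |μ x.1 x.2 * x.1.sign *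
      (padicValInt l x.2 - padicValInt l x.1)| ≤ B * (2 * i + k + 1) := fun x hx => by
    obtain ⟨r, s, a, e, ha, he, rfl⟩ := ex hl hx
    have k1 := h1 hx
    rw [abs_mul, abs_mul, val hl ha, val hl he]
    refine mul_le_mul ((mul_le_of_le_one_right (abs_nonneg _) ?_).trans (hB _ _))
      (abs_le.2 ⟨by omega, by omega⟩) (abs_nonneg _) (Nat.cast_nonneg _)
    rcases Int.sign_trichotomy ((l : ℤ) ^ r * a) with k | k | k <;> simp only [k] <;> simp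
  have h5 : (2 * i + k + 1 : ℤ) ≤ (k + 2) * (i + 1) := by
    have : (0 : ℤ) ≤ k * i := by positivity
    linarith
  refine (abs_sum_le_sum_abs _ _).trans ((sum_le_card_nsmul _ _ _ h4).trans ?_)
  rw [nsmul_eq_mul]
  refine (mul_le_mul_of_nonneg_right h3 (by positivity)).trans (le_trans (le_of_eq (by ring))
    (mul_le_mul_of_nonneg_left (pow_le_pow_left₀ (by positivity) h5 2) (by positivity)))

theorem sign_zero {g : ℤ} (hg : 0 < g) (hM : M ≤ 0) (h1 : ∀ a e, μ a e ≠ 0 → g ∣ e)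
    (h2 : ∀ a w, a * (g * w) = M → M ≠ 0 → μ a (g * w) = μ w (g * a)) :
    ∑ z ∈ M.divisorsAntidiag, μ z.1 z.2 * z.1.sign = 0 := by
  rw [← sum_filter_of_ne (p := fun z : ℤ × ℤ => g ∣ z.2) (f := fun z => μ z.1 z.2 * z.1.sign)
    fun z _ h => h1 _ _ (left_ne_zero_of_mul h)]
  have ex : ∀ z ∈ M.divisorsAntidiag.filter fun z => g ∣ z.2, ∃ u w,
      u * (g * w) = M ∧ M ≠ 0 ∧ z = (u, g * w) := by
    rintro ⟨u, v⟩ hz
    obtain ⟨k1, w, rfl⟩ := mem_filter.1 hz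
    exact ⟨u, w, (Int.mem_divisorsAntidiag.mp k1).1, (Int.mem_divisorsAntidiag.mp k1).2, rfl⟩
  have key : ∀ z ∈ M.divisorsAntidiag.filter fun z => g ∣ z.2, μ z.1 z.2 * z.1.sign +
      μ (z.2 / g) (g * z.1) * (z.2 / g).sign = 0 := fun z hz => by
    obtain ⟨u, w, k1, k2, rfl⟩ := ex z hz
    simp only [Int.mul_ediv_cancel_left _ hg.ne']
    rw [h2 u w k1 k2, ← mul_add]
    have h0 : g * (u * w) < 0 := by rw [← mul_left_comm, k1]; exact lt_of_le_of_ne hM k2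
    rcases mul_neg_iff.mp (neg_of_mul_neg_right h0 hg.le) with ⟨k1, k2⟩ | ⟨k1, k2⟩ <;>
      simp [Int.sign_eq_one_of_pos, Int.sign_eq_neg_one_of_neg, k1, k2]
  refine sum_involution (fun z _ => (z.2 / g, g * z.1)) key (fun z hz k1 k2 => k1 ?_)
    (fun z hz => ?_) fun z hz => ?_
  · have := key z hz
    rwa [show z.2 / g = z.1 from congr_arg Prod.fst k2, show g * z.1 = z.2 from congr_arg Prod.snd k2,
      add_self_eq_zero] at this
  all_goals obtain ⟨u, w, k1, k2, rfl⟩ := ex z hz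
  · simp only [Int.mul_ediv_cancel_left _ hg.ne']
    exact mem_filter.2 ⟨Int.mem_divisorsAntidiag.2 ⟨by rw [← k1]; ring, k2⟩, dvd_mul_right _ _⟩
  · simp only [Int.mul_ediv_cancel_left _ hg.ne']

namespace Fx

variable (Z : Fx) {t : ℤ}

/-- The number that is factored. -/
def Ms (t : ℤ) : ℤ :=
  if 4 * (Z.N : ℤ) ∣ t ^ 2 - Z.C ^ 2 * Z.E then (t ^ 2 - Z.C ^ 2 * Z.E) / (4 * Z.N) else 0

/-- The weight with all primes. -/
noncomputable abbrev mf : ℤ → ℤ → ℤ → ℤ := Z.mu (cnd Z.d).primeFactors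

/-- The contribution of `t`. -/
noncomputable def cS (l : ℕ) (t : ℤ) : ℤ := ∑ z ∈ (Z.Ms t).divisorsAntidiag,
  Z.mf t z.1 z.2 * z.1.sign * (padicValInt l z.2 - padicValInt l (Z.N * z.1))

variable {Z}

theorem Ms_eq (h : Z.Ms t ≠ 0) : 4 * Z.N * Z.Ms t = t ^ 2 - Z.C ^ 2 * Z.E := by
  have := (ite_ne_right_iff.1 h).1
  rw [Ms, if_pos this, Int.mul_ediv_cancel' this]

theorem of_mem {z : ℤ × ℤ} (h : z ∈ (Z.Ms t).divisorsAntidiag) :
    4 * Z.N * (z.1 * z.2) = t ^ 2 - Z.C ^ 2 * Z.E := by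
  obtain ⟨h1, h2⟩ := Int.mem_divisorsAntidiag.1 h
  rw [h1, Ms_eq h2]

theorem cS_eq (hN : Z.N ≠ 0) (hl : l.Prime) (t : ℤ) : Z.cS l t = vZ (Z.mf t) l (Z.Ms t) -
    (∑ z ∈ (Z.Ms t).divisorsAntidiag, Z.mf t z.1 z.2 * z.1.sign) * padicValInt l Z.N := by
  have := Fact.mk hl
  rw [cS, vZ, sum_mul, ← sum_sub_distrib]
  refine sum_congr rfl fun z hz => ?_
  obtain ⟨h1, h2⟩ := Int.mem_divisorsAntidiag.1 hz
  rw [padicValInt.mul (Nat.cast_ne_zero.2 hN) (left_ne_zero_of_mul (h1 ▸ h2))]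
  push_cast
  ring

theorem main (hN : Z.N ≠ 0) (hl : l.Prime) : LgX Z.C Z.χ (wF Z.N (gU Z.N Z.d) Z.E Z.β) -
    ((∑ t ∈ TS (Z.C ^ 2 * Z.E), Z.cS l t : ℤ) / 2 : ℚ) * Real.log l ∈ LogS l := by
  have N0 : (0 : ℤ) < Z.N := by omega
  let φ : ℤ × ℤ → ℝ := fun z => z.1.sign * (Real.log z.2 - Real.log (Z.N * z.1 : ℤ)) / 2
  have h1 : ∀ k : ℤ, (∑ᶠ R : Fm, if R.1 * fval R k Z.C < 0 then
      (wF Z.N (gU Z.N Z.d) Z.E Z.β R * R.1.sign : ℝ) *
        (Real.log |(fval R k Z.C : ℝ)| - Real.log |(R.1 : ℝ)|) / 2 else 0) =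
      ∑ t ∈ TS (Z.C ^ 2 * Z.E), ∑ z ∈ (Z.Ms t).divisorsAntidiag,
        (Z.tw (cnd Z.d).primeFactors t z.1 z.2 k : ℝ) * φ z := fun k => by
    rw [sum_sigma', ← sum_filter_of_ne (p := fun x => ∃ b c, Z.Cd x.1 x.2.1 x.2.2 k b c)
      fun x _ h => (ite_ne_right_iff.1 (Int.cast_ne_zero.1 (left_ne_zero_of_mul h))).1]
    set s := filter (fun x : (_ : ℤ) × ℤ × ℤ => ∃ b c, Z.Cd x.1 x.2.1 x.2.2 k b c) _
    let g : (_ : ℤ) × ℤ × ℤ → Fm := fun x => (Z.N * x.2.1, (x.1 - 2 * Z.N * x.2.1 * k) / Z.C,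
      (Z.N * x.2.1 * k ^ 2 - x.1 * k + x.2.2) / Z.C ^ 2)
    have hg : ∀ {t a e b c : ℤ}, Z.Cd t a e k b c → g ⟨t, a, e⟩ = (Z.N * a, b, c) := fun h => by
      simp only [g, h.hb, h.hc, Int.mul_ediv_cancel_left _ C0,
        Int.mul_ediv_cancel_left _ (pow_ne_zero 2 C0)]
    rw [finsum_eq_sum_of_support_subset _ (s := s.image g) fun R hR => ?_,
      sum_image fun x hx y hy h => ?_]
    · refine sum_congr rfl ?_
      rintro ⟨t, a, e⟩ hx
      obtain ⟨k1, b, c, k2⟩ := mem_filter.1 hx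
      obtain ⟨k3, k4⟩ := mem_sigma.1 k1
      have k5 := of_mem k4
      have k6 : fval (Z.N * a, b, c) k Z.C = e := k2.e_eq.symm
      rw [hg k2, k6, if_pos (by linarith [mem_TS.1 k3]), k2.tw, wF, if_pos ⟨dvd_mul_right _ _, by
        simp only [fdisc]; linear_combination k2.dvd k5, k2.ori⟩, gU, gD_eq Z.sqf, G5.fV]
      simp only [φ, Int.mul_ediv_cancel_left _ N0.ne', Real.log_abs, Int.sign_mul,
        Int.sign_eq_one_of_pos N0, one_mul]
      ring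
    · obtain ⟨t, a, e⟩ := x
      obtain ⟨t', a', e'⟩ := y
      obtain ⟨-, b, c, k1⟩ := mem_filter.1 hx
      obtain ⟨-, b', c', k2⟩ := mem_filter.1 hy
      rw [hg k1, hg k2] at h
      simp only [Prod.mk.injEq, mul_right_inj' N0.ne'] at h
      obtain ⟨rfl, rfl, rfl⟩ := h
      obtain rfl : t = t' := by linear_combination k1.hb - k2.hb
      obtain rfl : e = e' := k1.e_eq.trans k2.e_eq.symm
      rfl
    · obtain ⟨_, b, c⟩ := R
      obtain ⟨k1, k2⟩ := ite_ne_right_iff.1 hR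
      obtain ⟨⟨a, rfl⟩, k3, k4⟩ : G5.Fam Z.N Z.E Z.β _ := by_contra fun h => k2 (by
        rw [wF, if_neg h]; simp)
      have k5 : Z.Cd (Z.C * b + 2 * Z.N * a * k) a (fval (Z.N * a, b, c) k Z.C) k b c :=
        ⟨by ring, by simp only [fval]; ring, k4⟩
      have k6 : (Z.C * b + 2 * Z.N * a * k) ^ 2 - Z.C ^ 2 * Z.E =
          4 * Z.N * (a * fval (Z.N * a, b, c) k Z.C) := by
        rw [← k3]; simp only [fval, fdisc]; ring
      refine mem_coe.2 (mem_image.2 ⟨⟨_, a, _⟩, mem_filter.2 ⟨mem_sigma.2 ⟨mem_TS.2 (by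
        linarith), ?_⟩, b, c, k5⟩, hg k5⟩)
      rw [Ms, k6, if_pos (dvd_mul_right _ _), Int.mul_ediv_cancel_left _ (by omega)]
      exact Int.mem_divisorsAntidiag.2 ⟨rfl, fun h => k1.ne (by rw [mul_assoc, h, mul_zero])⟩
  simp only [LgX, h1, mul_sum]
  rw [sum_comm, Int.cast_sum, sum_div, Rat.cast_sum, sum_mul, ← sum_sub_distrib]
  refine Submodule.sum_mem _ fun t _ => ?_
  rw [sum_comm, cS, Int.cast_sum, sum_div, Rat.cast_sum, sum_mul, ← sum_sub_distrib]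
  refine Submodule.sum_mem _ fun z _ => ?_
  refine (congrArg (· ∈ LogS l) ?_).mp (LogS.rat_mul ((Z.mf t z.1 z.2 * z.1.sign : ℤ) / 2)
    (sub_mem (log_int_sub_mem hl z.2) (log_int_sub_mem hl (Z.N * z.1))))
  simp only [← mul_assoc, ← sum_mul, ← Int.cast_mul, ← Int.cast_sum]
  simp only [φ, mf, mu]
  push_cast
  ring

end Fx

end Pool.Agent.G7.Lt7
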