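import Pool.Agent.Lib.MP_696deb_nt.B5.LFa
import Pool.Agent.Lib.MP_696deb_nt.B5.PRa
import Pool.Agent.Lib.MP_696deb_nt.B3.Kro

/-! The series of a newform twisted by an arbitrary primitive quadratic character. -/

set_option autoImplicit false

open PowerSeries Filter Topology Complex Finset NumberTheorySymbols
open scoped Real

namespace Pool.Agent.B6.B7

open Pool.Agent.Lib.MP_696deb_nt Pool.Agent.B4.GE Pool.Agent.G5
open Pool.Agent.Lib.MP_696deb_nt.B3 (PChr kro pchr_kro)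

section

variable {M : ℕ} [NeZero M] {χ : ℤ → ℤ}

/-- The Gauss sums. -/
noncomputable def gsX (χ : ℤ → ℤ) (m : ZMod M) : ℂ :=
  ∑ k : ZMod M, (χ k.val : ℂ) * ZMod.stdAddChar (k * m)

theorem chr_val (h : PChr M χ) (m : ℤ) : χ (m : ZMod M).val = χ m :=
  h.per _ _ ((ZMod.intCast_eq_intCast_iff_dvd_sub _ _ _).1 (by simp))

theorem gsX_unit (h : PChr M χ) {u : ℤ} (hu : IsCoprime u M) (m : ZMod M) :
    χ u * gsX χ ((u : ZMod M) * m) = gsX χ m := by
  have h1 : IsUnit (u : ZMod M) := (ZMod.coe_int_isUnit_iff_isCoprime u M).mpr hu.symm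
  rw [gsX, gsX, mul_sum, ← (IsUnit.isUnit_iff_mulLeft_bijective.mp h1).sum_comp
    fun k => (χ k.val : ℂ) * ZMod.stdAddChar (k * m)]
  refine sum_congr rfl fun k _ => ?_
  obtain ⟨k, rfl⟩ := ZMod.intCast_surjective k
  rw [mul_left_comm (k : ZMod M), ← mul_assoc (u : ZMod M), ← Int.cast_mul u, chr_val h, chr_val h,
    h.mul, Int.cast_mul (χ u), mul_assoc]

theorem gsX_eq (h : PChr M χ) (m : ℤ) : gsX χ (m : ZMod M) = χ m * gsX χ (1 : ZMod M) := by
  by_cases hm : IsCoprime m M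
  · have h1 := gsX_unit h hm 1
    have h2 := congr_arg (Int.cast : ℤ → ℂ) (h.sq hm)
    rw [mul_one] at h1
    push_cast at h2
    linear_combination (χ m : ℂ) * h1 - gsX χ (m : ZMod M) * h2
  rw [h.zero m hm, Int.cast_zero, zero_mul]
  obtain ⟨p, hp, hpd⟩ := Nat.exists_prime_and_dvd (mt Int.isCoprime_iff_gcd_eq_one.2 hm)
  obtain ⟨m, rfl⟩ : (p : ℤ) ∣ m := (Int.natCast_dvd_natCast.mpr hpd).trans (Int.gcd_dvd_left _ _)
  obtain ⟨N', hN'⟩ : p ∣ M := Int.natCast_dvd_natCast.mp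
    ((Int.natCast_dvd_natCast.mpr hpd).trans (Int.gcd_dvd_right _ _))
  obtain ⟨u, ⟨v, h0⟩, h1⟩ := h.prim p N' hp hN'
  have h2 := gsX_unit h (u := u) (h.cop (by omega)) ((p * m : ℤ) : ZMod M)
  have h3 : ((u : ZMod M) * ((p * m : ℤ) : ZMod M)) = (p * m : ℤ) := by
    rw [← Int.cast_mul, ZMod.intCast_eq_intCast_iff_dvd_sub]
    exact ⟨-v * m, by rw [hN']; push_cast; linear_combination -(p * m) * h0⟩
  rw [h1, h3] at h2
  push_cast at h2 ⊢
  linear_combination (-1 / 2) * h2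

theorem gsX_ne (h : PChr M χ) : gsX χ (1 : ZMod M) ≠ 0 := by
  intro h0
  have h1 : ∀ m : ZMod M, gsX χ m = 0 := fun m => by
    obtain ⟨m, rfl⟩ := ZMod.intCast_surjective m
    rw [gsX_eq h, h0, mul_zero]
  have h2 : ∑ m : ZMod M, gsX χ m * ZMod.stdAddChar (-m) = M := by
    simp only [gsX, sum_mul]
    rw [sum_comm]
    have h3 : ∀ k m : ZMod M, (χ k.val : ℂ) * ZMod.stdAddChar (k * m) * ZMod.stdAddChar (-m) =
        (χ k.val : ℂ) * ZMod.stdAddChar (m * (k - 1)) := fun k m => by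
      rw [mul_assoc, ← AddChar.map_add_eq_mul]
      congr 2
      ring
    simp only [h3, ← mul_sum, AddChar.sum_mulShift _ (ZMod.isPrimitive_stdAddChar M), sub_eq_zero]
    rw [sum_eq_single 1 (fun k _ hk => by simp [hk]) (by simp)]
    have h4 := chr_val h 1
    rw [Int.cast_one, h.one] at h4
    rw [h4]
    simp
  simp [h1] at h2
  exact NeZero.ne M (by exact_mod_cast h2.symm)

end

/-- The twist by a character `χ` modulo `M`. -/
noncomputable def LX (G : ℂ → ℂ) (M : ℕ) (χ : ℤ → ℤ) (s : ℂ) : ℂ :=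
  ∑ k ∈ range M, (χ k : ℂ) * Ld G k M s

/-- The twist by the character of the field generated by a square root of `d`. -/
noncomputable def LKr (G : ℂ → ℂ) (d : ℤ) : ℂ → ℂ := LX G (B3.cond d) (kro d)

variable {M N Q : ℕ} {χ : ℤ → ℤ} {G F : ℂ → ℂ} {d : ℤ}

theorem LX_jac (G : ℂ → ℂ) (B : ℕ) : (LX G B fun k => J(k | B)) = LA G B := rfl

theorem LKr_eq_LA (G : ℂ → ℂ) (h4 : d % 4 = 1) : LKr G d = LA G d.natAbs := by
  have h1 : B3.odp d = d.natAbs := if_pos (by omega)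
  have h2 : B3.cond d = d.natAbs := by rw [B3.cond, B3.cond2, if_pos h4, h1, one_mul]
  have h3 : kro d = fun k => J(k | d.natAbs) :=
    funext fun k => by rw [kro, B3.chi2, if_pos h4, h1, one_mul]
  rw [LKr, h2, h3, LX_jac]

theorem LX_eq_Ico (G : ℂ → ℂ) (M : ℕ) (χ : ℤ → ℤ) :
    LX G M χ = fun s => ∑ k ∈ Ico (0 : ℤ) M, (χ k : ℂ) * Ld G k M s := by
  funext s
  rw [Int.Ico_eq_finset_map]
  simp [LX]

theorem LX_diff (hG : Ci N G) (hN : N ≠ 0) (hM : M ≠ 0) (χ : ℤ → ℤ) :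
    Differentiable ℂ (LX G M χ) :=
  Differentiable.fun_sum fun k _ => (hG.Ld_differentiable hN k (by exact_mod_cast hM)).const_mul _

theorem LX_lin {F₂ : ℂ → ℂ} {κ κ₂ c : ℂ} (hN : N ≠ 0) (hM : M ≠ 0) (hF : Ci N F) (hF₂ : Ci N F₂)
    (h : ∀ z : ℂ, 0 < z.im → G z = κ * F z + κ₂ * F₂ z + c) (χ : ℤ → ℤ) (s : ℂ) :
    LX G M χ s = κ * LX F M χ s + κ₂ * LX F₂ M χ s := by
  simp only [LX, mul_sum, ← sum_add_distrib]
  exact sum_congr rfl fun k _ => by
    rw [Ld_lin hN hF hF₂ h k (by exact_mod_cast hM)]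
    ring

theorem LKr_diff (hG : Ci N G) (hN : N ≠ 0) (hd : Squarefree d) : Differentiable ℂ (LKr G d) :=
  LX_diff hG hN (pchr_kro hd).ne _

/-- The twisted series is the Dirichlet series, up to a Gauss sum. -/
theorem LX_eq_LSeries (h : PChr M χ) : ∃ τ : ℂ, τ ≠ 0 ∧
    ∀ (G : ℂ → ℂ) (A : ℂ⟦X⟧) (s : ℂ), QE (dF G) A → coeff 0 A = 0 → 0 < s.re →
      LSeriesSummable (fun n => coeff n A) s →
      τ * LX G M χ s = LSeries (fun n => (χ n : ℂ) * coeff n A) s := by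
  have : NeZero M := ⟨h.ne⟩
  have h0 := gsX_ne h
  have hξ : ∀ n : ℕ, (χ n : ℂ) = ∑ k ∈ range M,
      (gsX χ (1 : ZMod M))⁻¹ * (χ k : ℂ) * q1 ((k : ℤ) / (M : ℤ)) ^ n := fun n => by
    have h4 := gsX_eq h n
    simp only [mul_assoc, ← mul_sum]
    rw [eq_inv_mul_iff_mul_eq₀ h0, mul_comm, ← h4, gsX]
    refine sum_nbij' (fun j : ZMod M => j.val) (fun j : ℕ => (j : ZMod M)) (by
      simp [ZMod.val_lt]) (by simp) (by simp)
      (fun j hj => ZMod.val_cast_of_lt (by simpa using hj)) fun k _ => ?_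
    have := q1_div_pow M (k.val : ℤ) n
    simp only [Int.cast_natCast, ZMod.natCast_zmod_val] at this ⊢
    rw [this]
  refine ⟨_, inv_ne_zero h0, fun G A s k hA hs hS => (LSeriesHasSum.LSeries_eq ?_).symm⟩
  have := hasSum_sum (s := range M) fun j _ =>
    (hasSum_Ld k hA j M hs hS).mul_left ((gsX χ (1 : ZMod M))⁻¹ * (χ j : ℂ))
  unfold LSeriesHasSum
  convert! this using 2 with n
  · rcases eq_or_ne n 0 with rfl | hn
    · simp
    rw [LSeries.term_of_ne_zero hn, hξ, sum_mul, sum_div]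
    exact sum_congr rfl fun k _ => by rw [LSeries.term_of_ne_zero hn]; ring
  · simp only [LX, mul_sum, mul_assoc]

/-- An entire continuation of the twisted series gives one of the incomplete product. -/
theorem anr_ofX {c e : ℕ → ℤ} (h : Hecke c e) (k : PChr M χ) {a b : ℤ}
    (hΔ : -4 * a ^ 3 - 27 * b ^ 2 ≠ 0)
    (hS : ∀ s : ℂ, (3 : ℝ) / 2 < s.re → LSeriesSummable (fun n => (c n : ℂ)) s)
    (hlt : ∀ l : ℕ, l.Prime → |c l| * l < l ^ 2 + e l)
    (hg : ∀ l : ℕ, l.Prime → ¬ (l : ℤ) ∣ 2 * (-4 * a ^ 3 - 27 * b ^ 2) → ¬ l ∣ M ∧ e l = l ∧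
      χ l * c l = l - (Nat.card {q : ZMod l × ZMod l //
        q.2 ^ 2 = q.1 ^ 3 + (a : ZMod l) * q.1 + (b : ZMod l)} : ℤ))
    {H : ℂ → ℂ} (dH : Differentiable ℂ H) {τ : ℂ} (hτ : τ ≠ 0)
    (hH : ∀ s : ℂ, (3 : ℝ) / 2 < s.re → τ * H s = LSeries (fun n => (χ n : ℂ) * c n) s) :
    AnR a b (analyticOrderAt H 1) := by
  set ξ : ℕ → ℂ := fun n => (χ n : ℂ) with hξ
  have x3 : ∀ n, ξ n = 0 ∨ ξ n = 1 ∨ ξ n = -1 := fun n => by
    rcases k.cases n with h | h | h <;> simp [hξ, h]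
  set P := fun s => ∏ p ∈ (2 * (-4 * a ^ 3 - 27 * b ^ 2)).natAbs.primeFactors, loc ξ c e p s with hP
  have dP : Differentiable ℂ P := Differentiable.fun_finsetProd fun p hp =>
    loc_differentiable _ _ _ (Nat.mem_primeFactors.mp hp).1.ne_zero
  have P1 : P 1 ≠ 0 := prod_ne_zero_iff.mpr fun p hp =>
    loc_one_ne_zero _ _ _ (Nat.mem_primeFactors.mp hp).1.ne_zero
      ((x3 p).imp_right fun k => ⟨k, hlt p (Nat.mem_primeFactors.mp hp).1⟩)
  refine ⟨fun s => P s * (τ * H s), dP.mul (dH.const_mul τ), fun s hs => ?_, ?_⟩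
  · beta_reduce
    rw [hH s hs]
    refine hasProd_frozen h (by simp [hξ, k.one]) (fun m n => by simp [hξ, k.mul])
      (summable_twist (fun n => by rcases x3 n with h | h | h <;> simp [h]) (hS s hs))
      (mul_ne_zero two_ne_zero hΔ) _ fun p hp hd => ?_
    obtain ⟨h1, h2, h3⟩ := hg p hp hd
    refine ⟨by simp only [hξ]; exact_mod_cast h3, ?_, h2⟩
    simp only [hξ]
    exact_mod_cast k.sq (Nat.isCoprime_iff_coprime.2 (hp.coprime_iff_not_dvd.2 h1))
  · have a1 : AnalyticAt ℂ (fun s => P s * τ) 1 := (dP.mul_const τ).analyticAt 1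
    have := analyticOrderAt_mul a1 (dH.analyticAt 1)
    rw [a1.analyticOrderAt_eq_zero.mpr (mul_ne_zero P1 hτ), zero_add] at this
    rw [← this]
    congr 1
    funext s
    simp [mul_assoc]

theorem Ld_swapX (hN : N ≠ 0) (hF : Ci N F) {r : ℝ} (hr : 0 < r) {j k B : ℤ} {c e : ℂ} (hB : B ≠ 0)
    (h : ∀ y : ℝ, 0 < y → F (j / B + ((r * y)⁻¹ : ℝ) * I) = e * F (k / B + y * I) + c) :
    Ld F j B 1 = -e * Ld F k B 1 := by
  have t1 : Tendsto (fun y : ℝ => (r * y)⁻¹) (𝓝[>] 0) atTop :=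
    (tendsto_inv_nhdsGT_zero.const_mul_atTop (inv_pos.2 hr)).congr fun y => (mul_inv r y).symm
  have t2 : Tendsto (fun y : ℝ => (r * y)⁻¹) atTop (𝓝[>] 0) :=
    tendsto_inv_atTop_nhdsGT_zero.comp (tendsto_id.const_mul_atTop hr)
  have e1 := tendsto_nhds_unique (((hF.tendsto hN).comp (tendsto_vert' j B)).comp t1)
    ((((hF.tendsto_zero hN k hB).const_mul e).add_const c).congr'
      (eventually_mem_nhdsWithin.mono fun y hy => (h y hy).symm))
  have e2 := tendsto_nhds_unique ((hF.tendsto_zero hN j hB).comp t2)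
    (((((hF.tendsto hN).comp (tendsto_vert' k B)).const_mul e).add_const c).congr'
      ((eventually_gt_atTop 0).mono fun y hy => (h y hy).symm))
  linear_combination e2 - e1

/-- The involution exchanges two cusps. -/
theorem Ld_AL (hN : N ≠ 0) (hF : Ci N F) (hQ : Q ≠ 0) {e : ℂ}
    (hW : ∀ w, B5.AL N Q w → ∃ c, ∀ z : ℂ, 0 < z.im → F (act w z) = e * F z + c) {j k b B : ℤ}
    (hB : B ≠ 0) (hd : (N : ℤ) ∣ Q * B) (h : Q * k * j + 1 = B * b) :
    Ld F j B 1 = -e * Ld F k B 1 := by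
  have n0 : (0 : ℝ) < Q := by exact_mod_cast Nat.pos_of_ne_zero hQ
  have n1 : (Q : ℂ) ≠ 0 := by exact_mod_cast hQ
  have b1 : (B : ℂ) ≠ 0 := by exact_mod_cast hB
  obtain ⟨c, hc⟩ := hW !![Q * j, -b; Q * B, Q * -k]
    ⟨by rw [Matrix.det_fin_two_of]; linear_combination -Q * h, by simp, by simpa using hd, by simp⟩
  refine Ld_swapX (c := c) (r := Q * B ^ 2) hN hF (by positivity) hB fun y hy => ?_
  have y1 : (y : ℂ) ≠ 0 := by exact_mod_cast hy.ne'
  rw [← hc _ (by rwa [im_vert]), act_of, mob]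
  congr 1
  have h2 : (Q : ℂ) * k * j + 1 = B * b := by exact_mod_cast h
  have h3 : (Q : ℂ) * B * (k / B + y * I) + Q * -k = Q * B * y * I := by field_simp; ring
  push_cast
  rw [h3]
  field_simp
  linear_combination I_sq - h2

theorem sum_eq_zero_of (h : PChr M χ) {Q : ℤ} (hQ : IsCoprime Q M) {f : ℤ → ℂ}
    (hf : ∀ k j b : ℤ, Q * k * j + 1 = M * b → f j = -χ (-Q) * f k) :
    ∑ k ∈ Ico (0 : ℤ) M, (χ k : ℂ) * f k = 0 := by
  classical
  have h0 : (0 : ℤ) < M := mod_cast h.ne.bot_lt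
  have ex : ∀ k : ℤ, IsCoprime k M → ∃ j ∈ Ico (0 : ℤ) M, (M : ℤ) ∣ Q * k * j + 1 := fun k hk => by
    obtain ⟨u, v, e⟩ := hQ.mul_left hk
    refine ⟨-u % M, mem_Ico.mpr ⟨Int.emod_nonneg _ h0.ne', Int.emod_lt_of_pos _ h0⟩,
      v - Q * k * (-u / M), ?_⟩
    rw [Int.emod_def]; linear_combination -e
  choose! g g1 g2 using ex
  have c : ∀ {k j : ℤ}, (M : ℤ) ∣ Q * k * j + 1 → IsCoprime j M := fun {k j} ⟨b, hb⟩ =>
    ⟨-Q * k, b, by linear_combination -hb⟩
  have key : ∀ k : ℤ, IsCoprime k M → (χ k : ℂ) * f k + χ (g k) * f (g k) = 0 := by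
    intro k hk
    obtain ⟨b, hb⟩ := g2 k hk
    have h2 : χ (-Q) * (χ k * χ (g k)) = 1 := by
      rw [← h.mul, ← h.mul, ← h.one]
      exact h.per _ _ ⟨-b, by linear_combination -hb⟩
    have h3 : χ k = χ (-Q) * χ (g k) := by
      linear_combination -χ k * h2 + χ (-Q) * χ (g k) * h.sq hk
    rw [hf k _ b hb, h3]
    push_cast
    ring
  rw [← sum_filter_of_ne
    (p := fun k : ℤ => IsCoprime k M) fun k _ hk => by_contra fun h1 => hk (by
      rw [h.zero k h1, Int.cast_zero, zero_mul])]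
  refine sum_involution (fun k _ => g k) (fun k hk => key k (mem_filter.mp hk).2)
    (fun k hk h1 h2 => h1 ?_) (fun k hk => mem_filter.mpr ⟨g1 k (mem_filter.mp hk).2,
      c (g2 k (mem_filter.mp hk).2)⟩) fun k hk => ?_
  · have := key k (mem_filter.mp hk).2
    rwa [h2, add_self_eq_zero] at this
  · obtain ⟨h1, h2⟩ := mem_filter.mp hk
    have h3 := c (g2 k h2)
    have h4 := (hQ.mul_left h3).symm.dvd_of_dvd_mul_left (z := g (g k) - k) (by
      convert dvd_sub (g2 _ h3) (g2 k h2) using 1; ring)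
    have h5 := g1 _ h3
    rw [mem_Ico] at h1 h5
    exact sub_eq_zero.mp (Int.eq_zero_of_abs_lt_dvd h4 (abs_lt.mpr ⟨by omega, by omega⟩))

/-- The sign of the functional equation. -/
theorem LX_eq_zero (h : PChr M χ) (hN : N ≠ 0) (hF : Ci N F) (hQ : Q ≠ 0) (hc : Q.Coprime M)
    (hd : N ∣ Q * M)
    (hW : ∀ w, B5.AL N Q w → ∃ c, ∀ z : ℂ, 0 < z.im → F (act w z) = χ (-Q) * F z + c) :
    LX F M χ 1 = 0 := by
  rw [LX_eq_Ico]
  exact sum_eq_zero_of h (Nat.isCoprime_iff_coprime.2 hc) fun k j b e =>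
    Ld_AL hN hF hQ hW (Int.natCast_ne_zero.2 h.ne) (by exact_mod_cast hd) e

variable {W : WeierstrassCurve ℚ} (D : MD W N)

/-- The series of the parametrization. -/
theorem md_LX (h : PChr M χ) : ∃ τ : ℂ, τ ≠ 0 ∧ ∀ s : ℂ, (3 : ℝ) / 2 < s.re →
    τ * LX D.par.F M χ s = LSeries (fun n => (χ n : ℂ) * D.c n) s := by
  obtain ⟨τ, hτ, H⟩ := LX_eq_LSeries h
  have hk : (D.k : ℂ) ≠ 0 := by exact_mod_cast D.hk
  refine ⟨(D.k : ℂ)⁻¹ * τ, mul_ne_zero (inv_ne_zero hk) hτ, fun s hs => ?_⟩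
  have h1 := H D.par.F _ s ((D.qe.smul D.k).congr fun z hz => md_dF D hz)
    (by rw [coeff_C_mul, D.S0, mul_zero]) (by linarith) (by
      simp only [coeff_C_mul, MD.S, coeff_mk]
      exact (md_summable D hs).smul (D.k : ℂ))
  rw [mul_assoc, h1, ← LSeries_smul]
  congr 1
  funext n
  simp only [coeff_C_mul, MD.S, coeff_mk, Pi.smul_apply, smul_eq_mul]
  field_simp

/-- The order of the continuation of the Euler product is the order of the twisted series. -/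
theorem md_anrX (h : Nw D) (k : PChr M χ) {a b : ℤ} (hΔ : -4 * a ^ 3 - 27 * b ^ 2 ≠ 0)
    (hg : ∀ l : ℕ, l.Prime → ¬ (l : ℤ) ∣ 2 * (-4 * a ^ 3 - 27 * b ^ 2) → ¬ l ∣ N * M ∧
      χ l * D.c l = l - (Nat.card {q : ZMod l × ZMod l //
        q.2 ^ 2 = q.1 ^ 3 + (a : ZMod l) * q.1 + (b : ZMod l)} : ℤ)) :
    AnR a b (analyticOrderAt (LX D.par.F M χ) 1) := by
  obtain ⟨τ, hτ, H⟩ := md_LX D k
  refine anr_ofX (md_hecke D h) k hΔ (fun s hs => md_summable D hs) (fun l hl => ?_)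
    (fun l hl k => ?_) (LX_diff (md_ci D) D.N0 k.ne _) hτ H
  · have l1 : (1 : ℤ) < l := by exact_mod_cast hl.one_lt
    split_ifs with k
    · have : |D.c l| = 1 := by
        rcases sq_eq_one_iff.1 (h l hl k).1 with e | e <;> simp [e]
      rw [this]
      nlinarith
    · have := B5.md_abs_lt D hl k
      nlinarith
  · obtain ⟨h1, h2⟩ := hg l hl k
    exact ⟨fun e => h1 (e.mul_left _), if_neg fun e => h1 (e.mul_right _), h2⟩

variable {D}

/-- The eigenvalue of the involution attached to a divisor of the level. -/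
theorem nw_al (h : Nw D) (hN : Squarefree N) (hQ : Q ∣ N) (w : MZ) (hw : B5.AL N Q w) :
    ∃ c, ∀ z : ℂ, 0 < z.im →
      D.par.F (act w z) = (∏ p ∈ Q.primeFactors, -D.c p : ℤ) * D.par.F z + c := by
  induction Q using induction_on_primes generalizing w with
  | zero => exact absurd (zero_dvd_iff.1 hQ) D.N0
  | one => simpa using (md_ci D).inv w ⟨hw.det, hw.c⟩
  | prime_mul p a hp ih =>
    have a0 : a ≠ 0 := fun e => D.N0 (by simpa [e] using hQ)
    have ex : ∀ r : ℕ, r ∣ N → ∃ u, B5.AL N r u := by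
      rintro r hr
      obtain ⟨t, rfl⟩ := exists_eq_mul_left_of_dvd hr
      exact B5.exists_AL (Nat.coprime_of_squarefree_mul hN)
    have k1 := dvd_of_mul_right_dvd hQ
    have k2 := dvd_of_mul_left_dvd hQ
    obtain ⟨u, hu⟩ := ex p k1
    obtain ⟨v, hv⟩ := ex a k2
    obtain ⟨c1, h1⟩ := h.al hN hp k1 hu
    obtain ⟨c2, h2⟩ := ih k2 v hv
    have huv := hu.mul hv hQ
    have cp := Nat.coprime_of_squarefree_mul (hN.squarefree_of_dvd hQ)
    obtain ⟨g, hg, rfl⟩ : ∃ g, G0 N g ∧ w = g * (u * v) := by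
      obtain ⟨t, rfl⟩ := exists_eq_mul_left_of_dvd hQ
      exact huv.unique hw (mul_ne_zero hp.ne_zero a0)
    obtain ⟨c3, h3⟩ := (md_ci D).inv g hg
    refine ⟨-D.c p * c2 + c1 + c3, fun z hz => ?_⟩
    have p1 := huv.pos (mul_ne_zero hp.ne_zero a0)
    have p2 := hv.pos a0
    rw [act_mul _ p1.ne' hz, h3 _ (act_pos p1 hz), act_mul _ p2.ne' hz, h1 _ (act_pos p2 hz), h2 z hz,
      cp.primeFactors_mul, prod_union cp.disjoint_primeFactors, hp.primeFactors, prod_singleton]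
    push_cast
    ring

/-- The product of the local signs is fixed by the sign of the form. -/
theorem nw_prod (h : Nw D) (hN : Squarefree N) : ∏ p ∈ N.primeFactors, -D.c p = -1 := by
  obtain ⟨c, hc⟩ := nw_al h hN dvd_rfl _ (B5.al_fricke N)
  by_contra k
  have k1 : ((∏ p ∈ N.primeFactors, -D.c p : ℤ) : ℂ) + 1 ≠ 0 := fun e =>
    k (by exact_mod_cast eq_neg_of_add_eq_zero_left e)
  have e : ∀ z : ℂ, 0 < z.im → D.par.F z =
      (D.par.t0 - c) / (((∏ p ∈ N.primeFactors, -D.c p : ℤ) : ℂ) + 1) := fun z hz => by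
    have h1 := hc z hz
    rw [show act !![0, -1; (N : ℤ), 0] z = -1 / (N * z) by simp [act_of, mob], D.par.al z hz] at h1
    rw [eq_div_iff k1]
    linear_combination -h1
  have h2 := D.par.qe.unique (QE.const _) e
  refine D.par.A1 (PowerSeries.ext fun n => ?_)
  have h3 := congrArg (coeff n) h2
  rcases n with _ | n
  · exact D.par.A0
  · simpa using h3

end Pool.Agent.B6.B7
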