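import Pool.Agent.Lib.MP_696deb_nt.B7.CN7b
import Pool.Agent.Lib.MP_696deb_nt.B7.CN7w

/-! The counts of pairs of a point and a geodesic for twists that are ramified at two. -/

set_option autoImplicit false

open scoped Classical
open Finset NumberTheorySymbols

namespace Pool.Agent.G7

open Pool.Agent.Lib.MP_696deb_nt Cu

namespace Ma

variable {N n n₀ : ℕ} {f a b D ρ E β γ t M : ℤ} {Q R : Fm} {T T₀ : Finset Fm} {W : Fm → Fm → ℤ}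

theorem ipos_fV (hN : N ≠ 0) (h : (N : ℤ) ∣ Q.1) : ipos (G5.fV N Q) = ipos Q := by
  refine if_congr ?_ rfl rfl
  rw [fdisc_fV hN h]
  refine and_congr_right fun hD => ⟨fun k => ?_, fun k => mul_pos (by omega) (pos_last hD k)⟩
  have := pos_last ((fdisc_fV hN h).trans_lt hD) k
  obtain ⟨x, hx⟩ := h
  simp only [G5.fV, hx, mul_div_cancel_left₀ _ (Nat.cast_ne_zero.2 hN : (N : ℤ) ≠ 0)] at this
  exact hx ▸ mul_pos (by omega) this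

/-- The two families are exchanged and moved by the involution of Fricke. -/
theorem pcn_flip (hN : N ≠ 0) (h : ∀ (Q R : Fm) (a b c d : ℤ), a * d - b * (N * c) = 1 →
    G5.Fam N D ρ Q → G5.Fam N E β R → W (fmap Q a b (N * c) d) (fmap R a b (N * c) d) = W Q R) :
    pcn N D ρ E β t W = pcn N E (-β) D (-ρ) t fun R Q => W (G5.fV N Q) (G5.fV N R) := by
  rw [← pcn_swap (pinv_ptm h),
    ← pcn_fV hN (pinv_ptm fun R Q a b c d e h1 h2 => h Q R a b c d e h2 h1)]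

theorem inv_pts {u w : Fm → ℤ} (hu : ∀ Q R, G5.Fam N D ρ Q → G5.FEq N Q R → u R = u Q)
    (hw : ∀ Q R, G5.Fam N E β Q → G5.FEq N Q R → w R = w Q) (Q R : Fm) (a b c d : ℤ)
    (e : a * d - b * (N * c) = 1) (h1 : G5.Fam N D ρ Q) (h2 : G5.Fam N E β R) :
    ipos (fmap Q a b (N * c) d) * (u (fmap Q a b (N * c) d) * w (fmap R a b (N * c) d)) =
      ipos Q * (u Q * w R) := by
  rw [hu Q _ h1 ⟨a, b, c, d, e, rfl⟩, hw R _ h2 ⟨a, b, c, d, e, rfl⟩,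
    (cm_pos1 N 1).inv Q R a b c d e h1.1 h2.1]

/-- The numerical data. -/
structure Ok (N n₀ : ℕ) (f a b : ℤ) : Prop extends G5.Good N n₀ where
  mul : a * b = -n₀
  a4 : a % 4 = 1
  sa : Squarefree (f * a)
  sb : Squarefree (f * b)
  ca : IsCoprime (cnd f : ℤ) a.natAbs
  cb : IsCoprime (cnd f : ℤ) b.natAbs
  cN : (cnd f).Coprime N

theorem Ok.n0 (h : Ok N n₀ f a b) : N ≠ 0 := h.lodd.pos.ne'

theorem Ok.abs (h : Ok N n₀ f a b) : a.natAbs * b.natAbs = n₀ := by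
  rw [← Int.natAbs_mul, h.mul, Int.natAbs_neg, Int.natAbs_natCast]

theorem Ok.good (h : Ok N n₀ f a b) : G5.Good N (a.natAbs * b.natAbs) := h.abs ▸ h.toGood

theorem Ok.b4 (h : Ok N n₀ f a b) : b % 4 = 1 := by
  have h1 := h.mod4
  have h2 := h.mul
  obtain ⟨k, rfl⟩ : ∃ k, a = 4 * k + 1 := ⟨a / 4, by have := h.a4; omega⟩
  rw [add_mul, mul_assoc] at h2
  omega

theorem Ok.oa (h : Ok N n₀ f a b) : Odd a.natAbs := (Nat.odd_mul.1 h.good.oddn).1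

theorem Ok.ob (h : Ok N n₀ f a b) : Odd b.natAbs := (Nat.odd_mul.1 h.good.oddn).2

theorem Ok.cm (h : Ok N n₀ f a b) :
    Cm N (cnd f) (gg a.natAbs b.natAbs) ∧ Cm N (cnd f) (gg b.natAbs a.natAbs) := by
  have k : ∀ p : ℕ, p ∣ N → (p : ℤ) ∣ cnd f → p = 1 := fun p h1 h2 =>
    Nat.eq_one_of_dvd_coprimes h.cN (Int.natCast_dvd_natCast.1 h2) h1
  exact ⟨cm_gg h.good.sqf.of_mul_left h.oa h.good.sqf.of_mul_right h.ob h.ca h.cb
    fun p h1 h2 => by simp [k p h1 h2], cm_gg h.good.sqf.of_mul_right h.ob h.good.sqf.of_mul_left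
    h.oa h.cb h.ca fun p h1 h2 => by simp [k p h1 h2]⟩

theorem Ok.up (h : Ok N n₀ f a b) (h1 : (N : ℤ) ∣ R.1) (h2 : a ∣ fdisc R) :
    gU N (f * a) R = J(N | a.natAbs) * (gU N f R * gch a.natAbs R) := by
  rw [gU, gD_mul h.sa h.a4, G5.gch_fV h.n0 h.good.sqf.of_mul_left h.oa
    h.good.cop.coprime_mul_right (Int.natAbs_dvd.2 h2) h1, gU]
  ring

/-- The count as a sum over the classes of pairs. -/
theorem Ok.cnt (h : Ok N n₀ f a b) (hn : Squarefree n) (h3 : 3 < n) (hM : M ≠ 0)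
    (h0 : D = -(n * M ^ 2)) (hT : G5.FReps N D ρ T) (hD : b * cnd f ^ 2 ∣ D)
    (hE : a * cnd f ^ 2 ∣ E) : cntP T (gD (f * b)) (wF N (gU N (f * a)) E β) t =
      pcn N D ρ E β t fun Q R => ipos Q * (gD (f * b) Q * gU N (f * a) R) :=
  (pcn_cntP hn h3 hM h0 hT (fun _ _ k e => gD_feq (k.2.1 ▸ gn_mul h.sb h.b4 hD) e)
    fun _ _ k e => gU_feq h.n0 (k.2.1 ▸ gn_mul h.sa h.a4 hE) k.1 e).symm

theorem Ok.cnt₀ (h : Ok N n₀ f a b) (hn : Squarefree n) (h3 : 3 < n) (hM : M ≠ 0)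
    (h0 : D = -(n * M ^ 2)) (hT : G5.FReps N D ρ T) (hD : b ∣ D) (hE : a ∣ E) :
    cntP T (gch b.natAbs) (G5.wG N a.natAbs E β) t =
      pcn N D ρ E β t fun Q R => ipos Q * (gch b.natAbs Q * gch a.natAbs R) :=
  (pcn_cntP hn h3 hM h0 hT (fun _ _ k e => e.gch h.ob (k.2.1 ▸ Int.natAbs_dvd.2 hD))
    fun _ _ k e => e.gch h.oa (k.2.1 ▸ Int.natAbs_dvd.2 hE)).symm

/-- The property of the transfer for given parameters. -/
def Tr (N c y : ℕ) (w : Fm → Fm → ℤ) (t k lam u t₁ : ℤ) : Prop :=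
  ∀ (D ρ E β : ℤ) (Φ : Fm → Fm → ℤ), Cm N c Φ → D % 4 = 1 → IsCoprime D c →
    4 * (N : ℤ) ∣ ρ ^ 2 - D → (D < 0 ∨ IsSquare D) → t ^ 2 ≠ D * c ^ 2 * (E * (c * y) ^ 2) →
    k * pcn N (D * c ^ 2) (ρ * c) (E * (c * y) ^ 2) (β * (c * y)) t (fun Q R => w Q R * Φ Q R) =
      lam * pcn N D ρ (E * u ^ 2) (β * u) t₁ Φ

variable {y : ℕ} {k lam u t₁ : ℤ}

/-- The points have the exact conductor. -/
theorem Ok.fst (h : Ok N n₀ f a b) (h3 : 3 < n₀)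
    (H : Tr N (cnd f) y (fun Q R => gD f Q * gU N f R) t k lam u t₁) (hy : y ≠ 0)
    (hρ : 4 * (N : ℤ) ∣ ρ ^ 2 + n₀) (hE : a ∣ E) (E0 : 0 < E)
    (hT : G5.FReps N (-(n₀ * cnd f ^ 2)) (ρ * cnd f) T) (hT₀ : G5.FReps N (-n₀) ρ T₀) :
    k * cntP T (gD (f * b)) (wF N (gU N (f * a)) (E * (cnd f * y) ^ 2) (β * (cnd f * y))) t =
      J(N | a.natAbs) * lam * cntP T₀ (gch b.natAbs) (G5.wG N a.natAbs (E * u ^ 2) (β * u)) t₁ := by
  have c0 : (cnd f : ℤ) ≠ 0 := Nat.cast_ne_zero.2 (cnd_ne h.sa.of_mul_left)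
  have hb : b ∣ -n₀ := h.mul ▸ dvd_mul_left _ _
  have h1 := H (-n₀) ρ E β _ ((cm_pos1 N _).mul h.cm.2) (by have := h.mod4; omega)
    (by rw [← h.abs, Nat.cast_mul]; exact (h.ca.symm.mul_left h.cb.symm).neg_left)
    (by rwa [sub_neg_eq_add]) (.inl (by omega)) (by
      refine ne_of_gt (lt_of_lt_of_le ?_ (sq_nonneg t))
      rw [neg_mul, neg_mul, neg_lt_zero]
      positivity)
  rw [h.cnt h.sqf h3 c0 rfl hT (by rw [← neg_mul]; exact mul_dvd_mul_right hb _)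
      (mul_dvd_mul hE ⟨y ^ 2, by ring⟩),
    h.cnt₀ h.sqf h3 one_ne_zero (by ring) hT₀ hb (hE.mul_right _), mul_assoc,
    pcn_congr (W' := fun Q R => ipos Q * gg b.natAbs a.natAbs Q R) (ρ := ρ) fun Q R h1 h2 _ => by
      rw [gg, if_pos ⟨h1.2.1 ▸ Int.natAbs_dvd.2 hb, h2.2.1 ▸ Int.natAbs_dvd.2 (hE.mul_right _)⟩],
    ← h1, mul_left_comm J(N | a.natAbs), ← pcn_mul J(N | a.natAbs), neg_mul]
  refine congrArg _ (pcn_congr fun Q R h1 h2 _ => ?_)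
  rw [gD_mul h.sb h.b4, h.up h2.1 (h2.2.1 ▸ hE.mul_right _), gg, if_pos
    ⟨h1.2.1 ▸ Int.natAbs_dvd.2 (by rw [← neg_mul]; exact hb.mul_right _),
      h2.2.1 ▸ Int.natAbs_dvd.2 (hE.mul_right _)⟩]
  ring

/-- The geodesics have the exact conductor. -/
theorem Ok.snd (h : Ok N n₀ f a b) (hn : Squarefree n) (h3 : 3 < n) (hM : M ≠ 0)
    (h0 : E = -(n * M ^ 2)) (H : Tr N (cnd f) y (fun Q R => gD f Q * gU N f R) t k lam u t₁)
    (hy : y ≠ 0) (hu : u ≠ 0) (hγ : 4 * (N : ℤ) ∣ γ ^ 2 - a ^ 2) (hE : b ∣ E)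
    (hT : G5.FReps N (E * (cnd f * y) ^ 2) (ρ * (cnd f * y)) T)
    (hT₀ : G5.FReps N (E * u ^ 2) (ρ * u) T₀) :
    k * cntP T (gD (f * b)) (wF N (gU N (f * a)) (a ^ 2 * cnd f ^ 2) (γ * cnd f)) t =
      J(N | a.natAbs) * lam * cntP T₀ (gch b.natAbs) (G5.wG N a.natAbs (a ^ 2) γ) t₁ := by
  have c0 : (cnd f : ℤ) ≠ 0 := Nat.cast_ne_zero.2 (cnd_ne h.sa.of_mul_left)
  have a0 : a ≠ 0 := by have := h.a4; omega
  have ha : a ∣ a ^ 2 := dvd_pow_self a two_ne_zero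
  have hD : b * cnd f ^ 2 ∣ E * (cnd f * y) ^ 2 := mul_dvd_mul hE ⟨y ^ 2, by ring⟩
  have j : J(N | a.natAbs) ^ 2 = 1 := jacobiSym.sq_one h.good.cop.coprime_mul_right.symm
  have gb : ∀ {Q : Fm}, (N : ℤ) ∣ Q.1 → b ∣ fdisc Q →
      gch b.natAbs (G5.fV N Q) = J(N | b.natAbs) * gch b.natAbs Q := fun k1 k2 =>
    G5.gch_fV h.n0 h.good.sqf.of_mul_right h.ob h.good.cop.coprime_mul_left
      (Int.natAbs_dvd.2 k2) k1
  have h1 := H (a ^ 2) (-γ) E (-ρ) _ ((cm_pos2 N _).mul h.cm.1)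
    (by rw [sq, Int.mul_emod, h.a4]; rfl)
    (IsCoprime.pow_left (h.ca.symm.of_isCoprime_of_dvd_left (Int.dvd_natAbs.2 dvd_rfl)))
    (by rwa [neg_sq]) (.inr ⟨a, sq a⟩) (by
      refine ne_of_gt (lt_of_lt_of_le ?_ (sq_nonneg t))
      rw [h0, neg_mul, mul_neg, neg_lt_zero]
      positivity)
  rw [h.cnt hn h3 (M := M * (cnd f * y)) (by positivity) (by rw [h0]; ring) hT hD
      (mul_dvd_mul_right ha _),
    h.cnt₀ hn h3 (mul_ne_zero hM hu) (by rw [h0]; ring) hT₀ (hE.mul_right _) ha,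
    pcn_flip h.n0 (inv_pts (fun _ _ k e => gD_feq (k.2.1 ▸ gn_mul h.sb h.b4 hD) e) fun _ _ k e =>
      gU_feq h.n0 (k.2.1 ▸ gn_mul h.sa h.a4 (mul_dvd_mul_right ha _)) k.1 e),
    pcn_flip (D := E * u ^ 2) h.n0 (inv_pts
      (fun _ _ k e => e.gch h.ob (k.2.1 ▸ Int.natAbs_dvd.2 (hE.mul_right _)))
      fun _ _ k e => e.gch h.oa (k.2.1 ▸ Int.natAbs_dvd.2 ha)),
    pcn_congr (W' := fun R Q => J(N | b.natAbs) *
      (gD f R * gU N f Q * (ipos Q * gg a.natAbs b.natAbs R Q))) fun R Q h1 h2 _ => ?_,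
    pcn_congr (D := a ^ 2) (W' := fun R Q => J(N | a.natAbs) * J(N | b.natAbs) *
      (ipos Q * gg a.natAbs b.natAbs R Q)) fun R Q h1 h2 _ => ?_, pcn_mul, pcn_mul, ← neg_mul,
    ← neg_mul, ← neg_mul, mul_left_comm k, h1]
  · linear_combination -(J(N | b.natAbs) * lam * pcn N (a ^ 2) (-γ) (E * u ^ 2) (-ρ * u) t₁
      fun R Q => ipos Q * gg a.natAbs b.natAbs R Q) * j
  · rw [ipos_fV h.n0 h2.1, gb h2.1 (h2.2.1 ▸ hE.mul_right _), G5.gch_fV h.n0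
      h.good.sqf.of_mul_left h.oa h.good.cop.coprime_mul_right (h1.2.1 ▸ Int.natAbs_dvd.2 ha) h1.1,
      gg, if_pos ⟨h1.2.1 ▸ Int.natAbs_dvd.2 ha, h2.2.1 ▸ Int.natAbs_dvd.2 (hE.mul_right _)⟩]
    ring
  · rw [ipos_fV h.n0 h2.1, gD_mul h.sb h.b4, gb h2.1 (h2.2.1 ▸ hE.mul_right _), gU,
      fV_fV h.n0 h1.1, gD_mul h.sa h.a4, gU, gg, if_pos ⟨h1.2.1 ▸ Int.natAbs_dvd.2 (ha.mul_right _),
        h2.2.1 ▸ Int.natAbs_dvd.2 (hE.mul_right _)⟩]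
    ring

/-- The counts agree. -/
theorem Ok.ma (h : Ok N n₀ f a b) (h3 : 3 < n₀) (hy : y ≠ 0)
    (S : Trf N (cnd f) y fun Q R => gD f Q * gU N f R) {p : ℕ} (hp : p.Prime) (hN : p ∣ N)
    (g1 : (p : ℤ) ∣ γ + a.natAbs) (g2 : 2 * ((N / p : ℕ) : ℤ) ∣ γ - a.natAbs) :
    ∃ σ : ℤ, (σ = 1 ∨ σ = -1) ∧ ∀ (x ρ ρ₂ β t : ℤ) (n m : ℕ) (T T₂ : Finset Fm), Squarefree n →
      3 < n → m ≠ 0 → b * x = -(n * m ^ 2) → 4 * (N : ℤ) ∣ ρ ^ 2 + n₀ →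
      2 * (N : ℤ) ∣ ρ * β - γ * ρ₂ → G5.FReps N (-(n₀ * cnd f ^ 2)) (ρ * cnd f) T →
      G5.FReps N (b * x * (cnd f * y) ^ 2) (ρ₂ * (cnd f * y)) T₂ →
      cntP T (gD (f * b)) (wF N (gU N (f * a)) (a * x * (cnd f * y) ^ 2) (β * (cnd f * y))) t =
        σ * cntP T₂ (gD (f * b)) (wF N (gU N (f * a)) (a ^ 2 * cnd f ^ 2) (γ * cnd f)) t := by
  obtain ⟨σ, hσ, H⟩ := G5.ma_stmt N p a.natAbs b.natAbs γ h.good (h.abs ▸ h3) hp hN g1 g2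
  refine ⟨σ, hσ, fun x ρ ρ₂ β t n m T T₂ n1 n3 m0 hx hρ hβ hT hT₂ => ?_⟩
  obtain ⟨k, lam, u, t₁, k0, u0, -, -, S⟩ := S t
  have hm := h.mul
  have bx : b * x < 0 := by rw [hx, neg_lt_zero]; positivity
  have ax : 0 < a * x := by
    have : 0 < a * x * b ^ 2 := by
      rw [show a * x * b ^ 2 = a * b * (b * x) by ring]
      exact mul_pos_of_neg_of_neg (by omega) bx
    exact pos_of_mul_pos_left this (sq_nonneg b)
  obtain ⟨T₀, h0⟩ := G5.exists_freps h.n0 (show -(n₀ : ℤ) < 0 by omega) ρ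
  obtain ⟨T₁, h1⟩ := G5.exists_freps h.n0 (mul_neg_of_neg_of_pos bx (pow_pos u0 2)) (ρ₂ * u)
  have e1 : (a.natAbs : ℤ) * a.sign = a := by rw [mul_comm, Int.sign_mul_natAbs]
  have e2 : (b.natAbs : ℤ) * a.sign = -b := by
    rcases mul_neg_iff.1 (show a * b < 0 by omega) with k | k
    · rw [Int.sign_eq_one_of_pos k.1]; omega
    · rw [Int.sign_eq_neg_one_of_neg k.1]; omega
  have e3 : (a.natAbs : ℤ) * a.natAbs = a ^ 2 := by rw [Int.natAbs_mul_self', sq]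
  have hγ : 4 * (N : ℤ) ∣ γ ^ 2 - a ^ 2 := by
    obtain ⟨q, rfl⟩ := hN
    rw [Nat.mul_div_cancel_left _ hp.pos] at g2
    obtain ⟨i, hi⟩ := g2
    obtain ⟨j, hj⟩ : (p : ℤ) ∣ q * i + a.natAbs := by
      refine IsCoprime.dvd_of_dvd_mul_left (y := 2) ?_ (by
        rwa [show 2 * (q * i + (a.natAbs : ℤ)) = γ + a.natAbs by linear_combination -hi])
      exact (Two.cop_lev (Nat.odd_mul.1 h.lodd).1).symm
    exact ⟨i * j, by
      push_cast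
      linear_combination e3 + (γ + a.natAbs + 2 * q * i) * hi + 4 * q * i * hj⟩
  have h2 := H (a.sign * x * u ^ 2) ρ (ρ₂ * u) (β * u) t₁ n (m * u.natAbs) T₀ T₁ n1 n3
    (mul_ne_zero m0 (by omega)) (by
      rw [Nat.cast_mul, mul_pow, Int.natAbs_sq]
      linear_combination x * u ^ 2 * e2 - u ^ 2 * hx) (h.abs ▸ hρ)
    (by rw [← mul_assoc, ← mul_assoc, ← sub_mul]; exact hβ.mul_right u) (h.abs ▸ h0) (by
      convert h1 using 1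
      linear_combination -x * u ^ 2 * e2)
  rw [e3, show a.natAbs * (a.sign * x * u ^ 2) = a * x * u ^ 2 by
    linear_combination x * u ^ 2 * e1] at h2
  refine mul_left_cancel₀ k0.ne' ?_
  rw [h.fst h3 S hy hρ (dvd_mul_right _ _) ax hT h0, mul_left_comm k,
    h.snd n1 n3 (Nat.cast_ne_zero.2 m0) hx S hy u0.ne' hγ (dvd_mul_right _ _) hT₂ h1, h2]
  ring

theorem ok_two (hf : f = -1 ∨ f = 2 ∨ f = -2) (hn : G5.Good N n₀) (hm : a * b = -n₀)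
    (a4 : a % 4 = 1) : Ok N n₀ f a b := by
  have h1 : Squarefree (a * b) := hm ▸ Int.squarefree_natAbs.1 (by simpa using hn.sqf)
  have h2 : ¬ 2 ∣ a * b := by have := hn.mod4; omega
  have h3 : ∀ x : ℤ, ¬ 2 ∣ x → IsCoprime (cnd f : ℤ) x ∧ IsCoprime f x := fun x hx => by
    have k := (Int.prime_two.irreducible.coprime_iff_not_dvd).2 hx
    rcases hf with rfl | rfl | rfl
    exacts [⟨k.pow_left (m := 2), isCoprime_one_left.neg_left⟩, ⟨k.pow_left (m := 3), k⟩,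
      ⟨k.pow_left (m := 3), k.neg_left⟩]
  have h4 : Squarefree f := by
    rcases hf with rfl | rfl | rfl
    exacts [isUnit_one.neg.squarefree, Int.prime_two.squarefree, Int.prime_two.neg.squarefree]
  have ha := (Two.odd_mul' h2).1
  have hb := (Two.odd_mul' h2).2
  exact ⟨hn, hm, a4, squarefree_mul_iff.2 ⟨(h3 a ha).2.isRelPrime, h4, h1.of_mul_left⟩,
    squarefree_mul_iff.2 ⟨(h3 b hb).2.isRelPrime, h4, h1.of_mul_right⟩,
    (h3 _ (by omega)).1, (h3 _ (by omega)).1,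
    Nat.isCoprime_iff_coprime.1 (h3 _ (Two.nd_lev hn.lodd)).1⟩

end Ma

/-- The counts of pairs of a point and a geodesic agree for a twisted and a split family. -/
theorem ma_two {N n₀ p : ℕ} {f a b γ : ℤ} (hf : f = -1 ∨ f = 2 ∨ f = -2) (hn : G5.Good N n₀)
    (h3 : 3 < n₀) (hm : a * b = -n₀) (a4 : a % 4 = 1) (hp : p.Prime) (hN : p ∣ N)
    (g1 : (p : ℤ) ∣ γ + a.natAbs) (g2 : 2 * ((N / p : ℕ) : ℤ) ∣ γ - a.natAbs) :
    ∃ σ : ℤ, (σ = 1 ∨ σ = -1) ∧ ∀ (x ρ ρ₂ β t : ℤ) (n m : ℕ) (T T₂ : Finset Fm), Squarefree n →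
      3 < n → m ≠ 0 → b * x = -(n * m ^ 2) → 4 * (N : ℤ) ∣ ρ ^ 2 + n₀ →
      2 * (N : ℤ) ∣ ρ * β - γ * ρ₂ → G5.FReps N (-(n₀ * cnd f ^ 2)) (ρ * cnd f) T →
      G5.FReps N (b * x * (cnd f * 2) ^ 2) (ρ₂ * (cnd f * 2)) T₂ →
      cntP T (gD (f * b)) (wF N (gU N (f * a)) (a * x * (cnd f * 2) ^ 2) (β * (cnd f * 2))) t =
        σ * cntP T₂ (gD (f * b)) (wF N (gU N (f * a)) (a ^ 2 * cnd f ^ 2) (γ * cnd f)) t :=
  (Ma.ok_two hf hn hm a4).ma h3 two_ne_zero (trf_two hn.lodd hf) hp hN g1 g2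

end Pool.Agent.G7
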