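import Pool.Agent.Lib.MP_696deb_nt.B5.PDc
import Pool.Agent.Lib.MP_696deb_nt.B7.Z0

/-! The Hecke recursion for sums of values at the cusps twisted by a primitive character. -/

set_option autoImplicit false

open Finset Filter Topology NumberTheorySymbols
open scoped Classical

namespace Pool.Agent.G7.PD

open Pool.Agent.Lib.MP_696deb_nt Pool.Agent.B4.GE Pool.Agent.G5 Pool.Agent.G5.PD
open Pool.Agent.Lib.MP_696deb_nt.B3 (PChr)
open Pool.Agent.B6.B7 (LX)

variable {N c l m : ℕ} {χ : ℤ → ℤ} {F : ℂ → ℂ} {a η : ℕ → ℤ} {t : HW} {b : ℕ →₀ ℤ}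

/-- The twisted sum of the values at the cusps with denominator `c * m`. -/
noncomputable def LamX (F : ℂ → ℂ) (c : ℕ) (χ : ℤ → ℤ) (m : ℕ) : ℂ :=
  ∑ k ∈ range (c * m), (χ k : ℂ) * Ld F k ((c * m : ℕ) : ℤ) 1

theorem LamX_one : LamX F c χ 1 = LX F c χ 1 := by rw [LamX, mul_one, LX]

/-- A primitive character sums to zero along a progression to a smaller modulus. -/
theorem sum_prog (h : PChr (l * c) χ) (hl : l.Prime) (hm : ¬ l ∣ m) (k : ℤ) :
    ∑ j ∈ range l, χ (k + c * m * j) = 0 := by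
  obtain ⟨u, ⟨v, h1⟩, h2⟩ := h.prim l c hl rfl
  have hp := Nat.prime_iff_prime_int.1 hl
  have l0 : (l : ℤ) ≠ 0 := hp.ne_zero
  have hu : ¬ (l : ℤ) ∣ u := fun e => hp.not_isUnit ((h.cop (a := u) (by omega)).isUnit_of_dvd' e
    (by push_cast; exact dvd_mul_right _ _))
  have key : ∀ x y : ℤ, ¬ (l : ℤ) ∣ y →
      ∑ j ∈ range l, χ (k + c * (x + y * j)) = ∑ j ∈ range l, χ (k + c * j) := fun x y hy => by
    have e : ∀ z : ℤ, (((z % l).toNat : ℕ) : ℤ) = z % l := fun z =>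
      Int.toNat_of_nonneg (Int.emod_nonneg z l0)
    rw [← fpa_per (h := fun j : ℕ => χ (k + c * j)) hl.ne_zero
      (fun j => h.per _ _ ⟨1, by push_cast; ring⟩) (range l) (fun j => ((x + y * j) % l).toNat)
      (card_range l) fun s hs t ht e' => ?_]
    · refine sum_congr rfl fun j _ => h.per _ _ ⟨(x + y * j) / l, ?_⟩
      rw [e]
      push_cast
      linear_combination -c * Int.emod_add_mul_ediv (x + y * j) l
    · have e1 := Nat.modEq_iff_dvd.1 e'
      rw [e, e] at e1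
      have e2 : (l : ℤ) ∣ y * (t - s) := by
        refine ((e1.add (dvd_mul_right (l : ℤ) ((x + y * t) / l))).sub
          (dvd_mul_right (l : ℤ) ((x + y * s) / l))).trans (dvd_of_eq ?_)
        linear_combination Int.emod_add_mul_ediv (x + y * t) l - Int.emod_add_mul_ediv (x + y * s) l
      exact Nat.ModEq.eq_of_lt_of_lt (Nat.modEq_iff_dvd.2 ((hp.dvd_or_dvd e2).resolve_left hy))
        (mem_range.1 hs) (mem_range.1 ht)
  have hm' : ¬ (l : ℤ) ∣ m := mt Int.natCast_dvd_natCast.1 hm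
  have a1 := key 0 m hm'
  have a2 := key (v * k) (u * m) fun e => (hp.dvd_or_dvd e).elim hu hm'
  have a3 : ∑ j ∈ range l, χ (k + c * (v * k + u * m * j)) =
      -∑ j ∈ range l, χ (k + c * m * j) := by
    rw [← sum_neg_distrib]
    refine sum_congr rfl fun j _ => ?_
    rw [← neg_one_mul, ← h2, ← h.mul]
    congr 1
    linear_combination -k * h1
  simp only [zero_add, ← mul_assoc] at a1
  omega

theorem LamX_rec (hN : N ≠ 0) (hF : Ci N F) (hE : Eig N a F) (hχ : PChr c χ) (hl : l.Prime)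
    (h : ¬ l ∣ N) (hm : m ≠ 0) :
    LamX F c χ (l * m) + (if l ∣ m then l * LamX F c χ (m / l) else χ l * LamX F c χ m) =
      a l * LamX F c χ m := by
  have h0 : ∀ {n : ℕ}, n ≠ 0 → (n : ℤ) ≠ 0 := fun h => Nat.cast_ne_zero.mpr h
  have hM := mul_ne_zero hχ.ne hm
  have per : ∀ k j : ℤ, χ (k + c * j) = χ k := fun k j => hχ.per _ _ ⟨j, by ring⟩
  have h1 : LamX F c χ (l * m) = a l * LamX F c χ m -
      ∑ k ∈ range (c * m), (χ k : ℂ) * Ld F (k * l) ((c * m : ℕ) : ℤ) 1 := by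
    rw [LamX, LamX, mul_sum, ← sum_sub_distrib, mul_comm l, ← mul_assoc, sum_range_per]
    refine sum_congr rfl fun k _ => ?_
    rw [mul_left_comm, ← mul_sub, ← Ld_hecke hN hF hE hl h (h0 hM), mul_sum]
    refine sum_congr rfl fun j _ => ?_
    push_cast
    rw [mul_assoc (c : ℤ), per]
  rw [h1, sub_add, sub_eq_self, sub_eq_zero]
  split_ifs with h2
  · obtain ⟨m, rfl⟩ := h2
    have h3 := mul_ne_zero hχ.ne (right_ne_zero_of_mul hm)
    rw [Nat.mul_div_cancel_left _ hl.pos, mul_comm l, ← mul_assoc, sum_range_per, LamX, mul_sum]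
    refine sum_congr rfl fun k _ => ?_
    rw [← nsmul_eq_mul, ← card_range l, ← sum_const, card_range]
    refine sum_congr rfl fun j _ => ?_
    rw [Nat.cast_mul (c * m), Ld_scale _ (h0 hl.ne_zero), Nat.cast_add, Nat.cast_mul,
      Ld_per hN hF (h0 h3), Nat.cast_mul, mul_assoc (c : ℤ), per]
  by_cases h3 : l ∣ c
  · obtain ⟨c, rfl⟩ := h3
    have h5 := mul_ne_zero (right_ne_zero_of_mul hχ.ne) hm
    have h6 : χ l = 0 := hχ.zero _ fun e => (Nat.prime_iff_prime_int.1 hl).not_isUnit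
      (e.isUnit_of_dvd' dvd_rfl (by push_cast; exact dvd_mul_right _ _))
    rw [h6, Int.cast_zero, zero_mul, mul_assoc, mul_comm l (c * m), sum_range_per]
    refine sum_eq_zero fun k _ => ?_
    rw [sum_congr rfl (g := fun j : ℕ => (χ (k + c * m * j) : ℂ) * Ld F k ((c * m : ℕ) : ℤ) 1)
      fun j _ => ?_, ← sum_mul, ← Int.cast_sum, sum_prog hχ hl h2, Int.cast_zero, zero_mul]
    rw [Nat.cast_mul (c * m), Ld_scale _ (h0 hl.ne_zero), Nat.cast_add, Nat.cast_mul,
      Ld_per hN hF (h0 h5), Nat.cast_mul]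
  · have h4 : l.Coprime c := hl.coprime_iff_not_dvd.mpr h3
    have h5 : (χ l : ℂ) ^ 2 = 1 := by
      exact_mod_cast hχ.sq (Nat.isCoprime_iff_coprime.2 h4)
    rw [LamX, ← fpa_per (h := fun k : ℕ => (χ k : ℂ) * Ld F k ((c * m : ℕ) : ℤ) 1) hM
      (fun k => by
        have := Ld_per hN hF (h0 hM) k 1
        rw [mul_one] at this
        simp only [Nat.cast_add]
        rw [this, Nat.cast_mul, per]) (range (c * m)) (· * l) (card_range _)
      fun s hs t ht e => Nat.ModEq.eq_of_lt_of_lt (Nat.ModEq.cancel_right_of_coprime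
        (h4.mul_right (hl.coprime_iff_not_dvd.mpr h2)).symm e) (mem_range.mp hs) (mem_range.mp ht),
      mul_sum]
    refine sum_congr rfl fun k _ => ?_
    rw [Nat.cast_mul k, hχ.mul, Int.cast_mul]
    linear_combination (-χ k * Ld F (k * l) ((c * m : ℕ) : ℤ) 1) * h5

theorem cmb_LamX {K : ℕ} (hN : N ≠ 0) (hK : N ∣ K) (hF : Ci N F) (hE : Eig N a F) (hχ : PChr c χ)
    (hη : ∀ l : ℕ, l.Prime → ¬ l ∣ K → η l = χ l) (ht : t ∈ HA K) (hb : Sup K b) :
    cmb (LamX F c χ) (ha η t b) = (he a t : ℂ) * cmb (LamX F c χ) b := by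
  refine HA_ind (p := fun t => ∀ b, Sup K b →
    cmb (LamX F c χ) (ha η t b) = (he a t : ℂ) * cmb (LamX F c χ) b) ht (fun l hl h b hb => ?_)
    (fun c b _ => ?_) (fun s t _ _ h1 h2 b hb => ?_) (fun s t _ ht h1 h2 b hb => ?_) b hb
  · rw [ha_tl, he_tl]
    refine hb.ind (p := fun b => cmb (LamX F c χ) (Ta η l b) = (a l : ℂ) * cmb (LamX F c χ) b)
      (by simp) (fun m c hm _ => ?_) fun b b' h1 h2 => by
        rw [map_add, map_add, map_add, h1, h2, mul_add]
    rw [Ta_single, map_zsmul, map_add, cmb_single, cmb_single, apply_ite (cmb (LamX F _ χ)),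
      cmb_single, cmb_single, one_smul, mul_smul_comm,
      ← LamX_rec hN hF hE hχ hl (fun e => h (e.trans hK)) hm, hη l hl h]
    simp
  · rw [ha_int, map_zsmul, AlgHom.commutes, zsmul_eq_mul]
    rfl
  · rw [ha_add, map_add, map_add, h1 b hb, h2 b hb, Int.cast_add, add_mul]
  · rw [ha_mul, map_mul, h1 _ (hb.ha ht), h2 b hb, Int.cast_mul, mul_assoc]

theorem sum_DeX (hF : Ci N F) (hN : N ≠ 0) (hχ : PChr c χ) (M0 : ((c * m : ℕ) : ℤ) ≠ 0) {ε : ℤ}
    (η2 : ε * ε = 1) : ∑ x ∈ range (c * m), χ (-ε * x) *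
      De (Cv F) (ε * (c * m : ℕ)) (0, ε * (c * m : ℕ), -ε * x) = -χ (-ε) * LamX F c χ m := by
  have η0 : ε ≠ 0 := left_ne_zero_of_mul_eq_one η2
  have n0 := mul_ne_zero η0 M0
  rw [LamX, mul_sum]
  refine sum_congr rfl fun x _ => ?_
  rw [De, (cu_Cv hF hN).rv (neg_ne_zero.2 n0) (rt_e1 _ _), (cu_Cv hF hN).rv n0 (rt_line n0 _),
    Cv, Cv, if_pos (show e1 1 = 0 from rfl), if_neg (by simpa using n0), ← Ld_scale F η0 x,
    hχ.mul]
  simp only [Matrix.cons_val_zero, Matrix.cons_val_one, neg_mul, neg_neg, mul_comm ε]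
  push_cast
  ring

end Pool.Agent.G7.PD
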