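import Pool.Agent.Lib.MP_696deb_nt.B7.PD7a
import Pool.Agent.Lib.MP_696deb_nt.B7.LQ7a

/-! The class of a split family does not vanish when the twisted period does not vanish. -/

set_option autoImplicit false

open Finset Matrix NumberTheorySymbols Filter Topology
open scoped Classical

namespace Pool.Agent.G7

open Pool.Agent.Lib.MP_696deb_nt Pool.Agent.B4.GE
open Pool.Agent.Lib.MP_696deb_nt.B3 (kro chi2 odp cond2 PChr pchr_chi2 pchr_kro)
open Pool.Agent.B6.B7 (LX LKr)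
open Pool.Agent.G5 hiding LQStmt lq_stmt PDStmt pd_stmt
open Pool.Agent.G5.PD

/-- Weights on the split forms of level `N` whose discriminant is a multiple of `c ^ 2`. -/
structure Om (N c : ℕ) (χ : ℤ → ℤ) (ω : Fm → ℤ) (v : ℤ) : Prop where
  inv : ∀ Q R : Fm, (N : ℤ) ∣ Q.1 → (c : ℤ) ^ 2 ∣ fdisc Q → G5.FEq N Q R → ω R = ω Q
  bdd : ∃ C : ℤ, ∀ R, |ω R| ≤ C
  al : ∀ (p : ℕ) (w : MZ) (Q R : Fm), p ∣ N → ALm N p w → (N : ℤ) ∣ Q.1 → (N : ℤ) ∣ R.1 →
    (c : ℤ) ^ 2 ∣ fdisc Q → fdisc R = fdisc Q → fm R w = (p : ℤ) • Q → ω R = χ p * ω Q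
  line : ∀ n x : ℤ, ω (0, n, x) = v * χ x
  ne : v ≠ 0

/-- The class of the split family survives when the twisted period does not vanish. -/
def PDStmt : Prop := ∀ (N K p c : ℕ) (χ : ℤ → ℤ) (ω : Fm → ℤ) (η : ℕ → ℤ) (v β ε : ℤ)
  (F F₂ G : ℂ → ℂ) (a : ℕ → ℤ) (t : HW) (w : MZ) (s : ℤ) (y y₂ κ κ₂ y₃ : ℂ), Squarefree N →
  Odd N → N ∣ K → p.Prime → p ∣ N → N ≠ p → PChr c χ → c.Coprime N → Om N c χ ω v →
  (∀ l : ℕ, l.Prime → ¬ l ∣ K → η l = χ l) → (ε = 1 ∨ ε = -1) → (p : ℤ) ∣ β + ε * c →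
  2 * ((N / p : ℕ) : ℤ) ∣ β - ε * c → Ci N F → Ci N F₂ → Eig N a F → ALm N p w →
  (s = 1 ∨ s = -1) →
  (∀ z : ℂ, 0 < z.im → F (act w z) = s * F z + y ∧ F₂ (act w z) = -s * F₂ z + y₂) → t ∈ HA K →
  (Inv0 N fun z => (G z).re -
    cmb (fun m : ℕ => Iw (wF N ω ((c * m) ^ 2) (β * m))) (ha η t (Finsupp.single 1 1)) z) →
  (∀ z : ℂ, 0 < z.im → G z = κ * F z + κ₂ * F₂ z + y₃) → he a t ≠ 0 → LX F c χ 1 ≠ 0 → κ ≠ 0

namespace PD

variable {N p c : ℕ} {n e k β v d : ℤ} {g w : MZ} {Q R : Fm} {C : (Fin 2 → ℤ) → ℂ} {ι : Type}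
  {r : ι → MZ} {χ : ℤ → ℤ} {ω : Fm → ℤ}

theorem fam_of_wF (h : wF N ω e β R ≠ 0) : G5.Fam N e β R := by_contra fun k => h (if_neg k)

theorem wF_of_fam (h : G5.Fam N e β R) : wF N ω e β R = ω R := if_pos h

theorem wt_wF (h : Om N c χ ω v) (hd : (c : ℤ) ^ 2 ∣ e) (β : ℤ) : G5.Wt N (wF N ω e β) e where
  disc R k := (fam_of_wF k).2.1
  inv Q R k := by
    by_cases h1 : G5.Fam N e β Q
    · rw [wF_of_fam h1, wF_of_fam (k.fam h1), h.inv Q R h1.1 (h1.2.1 ▸ hd) k]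
    · rw [wF, wF, if_neg h1, if_neg fun h2 => h1 (k.symm.fam h2)]
  bdd := h.bdd.imp fun C hC R => by
    rw [wF]
    split_ifs
    exacts [hC R, abs_zero.trans_le ((abs_nonneg _).trans (hC R))]

/-- The two families give the same sum. -/
theorem two [Fintype ι] (hr : Cs N r) (hC : Cu N C) (h : ALm N p w) (hp : p.Prime) (h2 : p ≠ 2)
    (hN : p ∣ N) (hω : Om N c χ ω v) (n0 : n ≠ 0) (hc' : IsCoprime (N : ℤ) n)
    (hd : (c : ℤ) ^ 2 ∣ n ^ 2) (k1 : (p : ℤ) ∣ β + n) (k2 : 2 * ((N / p : ℕ) : ℤ) ∣ β - n) {s : ℤ}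
    {y : ℂ} (hs : ∀ v, v ≠ 0 → C (w *ᵥ v) = s * C v + y) {T : Finset ℕ} {ξ : ℕ → ℤ}
    (hT : Rs n T ξ) :
    ∑ i, (Xw (wF N ω (n ^ 2) β) (r i) + s * Xw (wF N ω (n ^ 2) β) (w * r i)) * sy C (r i) =
      -8 * s * χ p * v * n.sign * ∑ x ∈ T, χ (ξ x) * De C n (0, n, ξ x) := by
  have p0 := hp.ne_zero
  choose! φ f1 f2 f0 using fun Q (hQ : G5.Fam N (n ^ 2) n Q) => al_form h hp h2 hN k1 k2 hQ
  have f3 : ∀ Q, G5.Fam N (n ^ 2) n Q → ω (φ Q) = χ p * ω Q := fun Q a =>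
    hω.al p w Q _ hN h a.1 (f1 Q a).1 (a.2.1 ▸ hd) ((f1 Q a).2.1.trans a.2.1.symm) (f2 Q a)
  have sur : ∀ R, G5.Fam N (n ^ 2) β R → ∃ Q, G5.Fam N (n ^ 2) n Q ∧ φ Q = R := fun R hR => by
    obtain ⟨Q, a1, a2, -⟩ := al_form h.adj hp h2 hN (add_comm β n ▸ k1) (dvd_sub_comm.1 k2) hR
    exact ⟨Q, a1, al_inj h p0 ((f2 Q a1).trans ((al_swap h p0).2 a2).symm)⟩
  have s1 := sy_line n0 hc' hT
  have s2 : Sy N T (fun x => φ (0, n, ξ x)) (G5.Fam N (n ^ 2) β) := by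
    refine ⟨fun R hR => ?_, fun x hx y hy e => s1.uniq x hx y hy ?_⟩
    · obtain ⟨Q, a1, rfl⟩ := sur R hR
      obtain ⟨x, hx, e⟩ := s1.ex Q a1
      exact ⟨x, hx, al_feq h p0 hN (f2 _ (fam_line N n _)) (f2 Q a1) e⟩
    · exact al_feq h.adj p0 hN ((al_swap h p0).1 (f2 _ (fam_line N n _)))
        ((al_swap h p0).1 (f2 _ (fam_line N n _))) e
  have x0 : ∀ (β : ℤ) (g : MZ), Xw (wF N ω (n ^ 2) β) g =
      ∑ᶠ R ∈ {R | G5.Fam N (n ^ 2) β R}, (dl (fm R g) : ℂ) * ω R := fun β g => by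
    rw [finsum_mem_def]
    refine finsum_congr fun R => ?_
    by_cases k : G5.Fam N (n ^ 2) β R <;> simp [wF, k]
  have x1 : ∀ i, Xw (wF N ω (n ^ 2) β) (w * r i) = χ p * Xw (wF N ω (n ^ 2) n) (r i) := by
    intro i
    rw [x0, Xw, mul_finsum' _ _ ((fi_dl n0).supp (hr.det i) fun R k =>
      (fam_of_wF (Int.cast_ne_zero.1 k)).2.1), ← finsum_mem_eq_of_bijOn
      (s := {R | G5.Fam N (n ^ 2) n R}) (t := {R | G5.Fam N (n ^ 2) β R})
      (f := fun Q => (χ p : ℂ) * (dl (fm Q (r i)) * ω Q)) φ ⟨f1, fun Q a R b e =>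
        smul_right_injective Fm (Nat.cast_ne_zero.2 p0 : (p : ℤ) ≠ 0)
          ((f2 Q a).symm.trans (e ▸ f2 R b)), sur⟩ fun Q a => ?_, finsum_mem_def]
    · refine finsum_congr fun R => ?_
      by_cases k : G5.Fam N (n ^ 2) n R <;> simp [wF, k]
    · rw [fm_mul, f2 Q a, fm_smul, dl_smul (by exact_mod_cast hp.pos), f3 Q a]
      push_cast
      ring
  simp only [x1, add_mul, sum_add_distrib, mul_assoc, ← mul_sum]
  rw [core hr hC n0 (wt_wF hω hd β) s2 fun _ => fam_of_wF,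
    core hr hC n0 (wt_wF hω hd n) s1 fun _ => fam_of_wF]
  rw [sum_congr rfl fun x _ => show (wF N ω (n ^ 2) β (φ (0, n, ξ x)) : ℂ) *
      De C n (φ (0, n, ξ x)) = s * χ p * v * (χ (ξ x) * De C n (0, n, ξ x)) by
    have a := fam_line N n (ξ x)
    rw [wF_of_fam (f1 _ a), f3 _ a, hω.line, hC.De_map n0 (h.pos p0).ne'
      (h.det ▸ f2 _ a) a.2.1 hs]
    push_cast
    ring, ← mul_sum]
  simp only [wF_of_fam (fam_line N n _), hω.line, Int.cast_mul, mul_assoc, ← mul_sum]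
  ring

/-- The mixed orientation excludes vertical lines. -/
theorem fst_ne (hp : p.Prime) (p2 : p ≠ 2) (hpN : p ∣ N) (hne : N ≠ p) (c1 : IsCoprime (N : ℤ) n)
    (l1 : (p : ℤ) ∣ β + n) (l2 : 2 * ((N / p : ℕ) : ℤ) ∣ β - n) (hR : G5.Fam N (n ^ 2) β R) :
    R.1 ≠ 0 := fun k => by
  obtain ⟨-, h2, h3⟩ := hR
  obtain ⟨q, rfl⟩ := hpN
  rw [Nat.mul_div_cancel_left _ hp.pos] at l2
  push_cast at h3 c1
  rcases sq_eq_sq_iff_eq_or_eq_neg.1 (show R.2.1 ^ 2 = n ^ 2 by simpa [fdisc, k] using h2) with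
    h4 | h4 <;> rw [h4] at h3
  · have h5 : (p : ℤ) ∣ 2 * n :=
      (l1.add (((dvd_mul_right (p : ℤ) q).mul_left 2).trans h3)).trans (dvd_of_eq (by ring))
    have h6 := c1.of_mul_left_left.dvd_of_dvd_mul_right h5
    exact p2 ((Nat.prime_dvd_prime_iff_eq hp Nat.prime_two).1 (by exact_mod_cast h6))
  · have h5 : 2 * (q : ℤ) ∣ 2 * -n :=
      (l2.add ((mul_dvd_mul_left 2 (dvd_mul_left (q : ℤ) p)).trans h3)).trans
        (dvd_of_eq (by ring))
    have h6 := c1.of_mul_left_right.isUnit_of_dvd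
      (dvd_neg.1 ((mul_dvd_mul_iff_left two_ne_zero).1 h5))
    rw [Int.isUnit_iff_natAbs_eq, Int.natAbs_natCast] at h6
    exact hne (by rw [h6, mul_one])

end PD

open PD in
theorem pd_stmt : PDStmt := by
  intro N K p c χ ω η v β ε F F₂ G a t w s y y₂ κ κ₂ y₃ hN oN hK hp hpN hne hχ hc hω hη hε k1 k2
    hF hF₂ hE hw hs hal ht hI hG h0 hL hκ
  have N0 := hN.ne_zero
  have p0 := hp.ne_zero
  have p2 : p ≠ 2 := fun k => Nat.not_even_iff_odd.2 oN (even_iff_two_dvd.2 (k ▸ hpN))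
  have ε2 : ε * ε = 1 := by rcases hε with rfl | rfl <;> rfl
  have s2 : (s : ℝ) * s = 1 := by rcases hs with rfl | rfl <;> simp
  have hL' := cmb_LamX N0 hK hF hE hχ hη ht (Sup.single one_ne_zero (Nat.coprime_one_left K) 1)
  have hb := (Sup.single one_ne_zero (Nat.coprime_one_left K) 1).ha (η := η) ht
  rw [cmb_single, one_smul, LamX_one] at hL'
  generalize ha η t (Finsupp.single 1 1) = b at hI hL' hb
  obtain ⟨ι, _, r, hr⟩ := exists_cs N0
  obtain ⟨Ψ, hΨ⟩ : ∃ Ψ, Ψ = cmb (fun m : ℕ => Iw (wF N ω ((c * m) ^ 2) (β * m))) b := ⟨_, rfl⟩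
  rw [← hΨ] at hI
  have i1 : Inv0 N fun z => Ψ z + s * Ψ (act w z) := fun g hg z hz => by
    obtain ⟨g', g1, g2⟩ := hw.act_norm p0 hpN hg
    have z1 := act_pos (hg.1 ▸ one_pos) hz
    have z2 := act_pos (hw.pos p0) hz
    have a1 := hI g hg z hz
    have a2 := hI g' g1 _ z2
    simp only [← g2 z hz, hG _ hz, hG _ z1, hG _ z2, hG _ (act_pos (hw.pos p0) z1), hκ,
      (hal _ hz).2, (hal _ z1).2, zero_mul, zero_add, mul_add, Complex.add_re,
      mul_left_comm κ₂, neg_mul, mul_neg, Complex.neg_re, ← Complex.ofReal_intCast,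
      Complex.re_ofReal_mul] at a1 a2 ⊢
    linear_combination -a1 - s * a2 - ((κ₂ * F₂ (act g z)).re - (κ₂ * F₂ z).re) * s2
  have key := three hr (cu_Cv hF N0)
    (ψ := fun g => ((Ψ (act g ro) + s * Ψ (act w (act g ro)) : ℝ) : ℂ)) (fun h g hh hg => ?_)
    (fun g hg => ?_) fun g hg => ?_
  rotate_left
  · have := i1 h hh _ (act_pos (hg ▸ one_pos) ro_pos)
    simp only [act_mul h (by omega : g.det ≠ 0) ro_pos] at this ⊢
    rw [this]
  · rw [act_mul g (by decide) ro_pos, act_U_ro]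
  · rw [mul_assoc, show mS * mS = (-1 : ℤ) • 1 by decide, mul_smul_comm, mul_one,
      act_smul (by decide)]
  have step : ∀ m ∈ b.support, ∑ i, (Xw (wF N ω ((c * m) ^ 2) (β * m)) (r i) +
      s * Xw (wF N ω ((c * m) ^ 2) (β * m)) (w * r i)) * sy (Cv F) (r i) =
      8 * s * χ p * v * ε * χ (-ε) * LamX F c χ m ∧ ∀ g : MZ, 0 < g.det →
      ((Iw (wF N ω ((c * m) ^ 2) (β * m)) (act g ro) : ℝ) : ℂ) -
        (Iw (wF N ω ((c * m) ^ 2) (β * m)) (act (g * mS) ro) : ℝ) =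
        -Xw (wF N ω ((c * m) ^ 2) (β * m)) g / 2 := fun m hm => by
    obtain ⟨m0, m1⟩ := hb m hm
    have M0 : 0 < ((c * m : ℕ) : ℤ) := by
      exact_mod_cast Nat.pos_of_ne_zero (mul_ne_zero hχ.ne m0)
    have e : ((c : ℤ) * m) ^ 2 = (ε * (c * m : ℕ)) ^ 2 := by
      push_cast
      linear_combination -(c * m) ^ 2 * ε2
    have c0 : IsCoprime (N : ℤ) (c * m : ℕ) :=
      Nat.isCoprime_iff_coprime.2 (hc.mul_left (m1.coprime_dvd_right hK)).symm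
    have l1 : (p : ℤ) ∣ β * m + ε * (c * m : ℕ) :=
      (k1.mul_right m).trans (dvd_of_eq (by push_cast; ring))
    have l2 : 2 * ((N / p : ℕ) : ℤ) ∣ β * m - ε * (c * m : ℕ) :=
      (k2.mul_right m).trans (dvd_of_eq (by push_cast; ring))
    have c1 : IsCoprime (N : ℤ) (ε * (c * m : ℕ)) :=
      IsCoprime.mul_right ⟨0, ε, by linear_combination ε2⟩ c0
    have hd : (c : ℤ) ^ 2 ∣ (ε * (c * m : ℕ)) ^ 2 := e ▸ ⟨m ^ 2, by ring⟩
    rw [e]
    refine ⟨?_, fun g hg => Iw_sub (wt_wF hω hd _)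
      (fun R hR => fst_ne hp p2 hpN hne c1 l1 l2 (fam_of_wF hR)) hg⟩
    rw [PD.two hr (cu_Cv hF N0) hw hp p2 hpN hω (mul_ne_zero (by omega) M0.ne') c1 hd l1 l2
      (Cv_map hF N0 (hw.pos p0) fun z hz => (hal z hz).1)
      ((rs_range (Nat.cast_ne_zero.1 M0.ne')).mul (η := -ε) (by linear_combination ε2) ε2),
      sum_DeX hF N0 hχ M0.ne' ε2, Int.sign_mul, Int.sign_eq_one_of_pos M0,
      show ε.sign = ε by rcases hε with rfl | rfl <;> rfl]
    push_cast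
    ring
  have fin : ∑ m ∈ b.support, (b m : ℂ) * (8 * s * χ p * v * ε * χ (-ε) * LamX F c χ m) = 0 := by
    rw [sum_congr rfl fun m hm => by rw [← (step m hm).1, mul_sum], sum_comm, ← mul_zero (-2),
      ← key, mul_sum]
    refine sum_congr rfl fun i _ => ?_
    have d := hr.det i
    have d' := det_mul1 d det_S
    simp only [Complex.ofReal_add, Complex.ofReal_mul, Complex.ofReal_intCast, hΨ, cmb_eval,
      ← act_mul w (by omega : (r i).det ≠ 0) ro_pos, ← mul_assoc w,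
      ← act_mul w (by omega : (r i * mS).det ≠ 0) ro_pos, mul_sum, ← sum_add_distrib,
      ← sum_sub_distrib, sum_mul]
    refine sum_congr rfl fun m hm => ?_
    have a1 := (step m hm).2 (r i) (by omega)
    have a2 := (step m hm).2 (w * r i) (by rw [det_mul, d, mul_one]; exact hw.pos p0)
    linear_combination 2 * b m * sy (Cv F) (r i) * (a1 + s * a2)
  simp only [mul_left_comm _ (8 * s * χ p * v * ε * χ (-ε) : ℂ), ← mul_sum] at fin
  rw [Finsupp.linearCombination_apply, Finsupp.sum] at hL'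
  simp only [zsmul_eq_mul] at hL'
  rw [hL'] at fin
  have j1 : χ p ≠ 0 := by
    have := hχ.unit (Nat.isCoprime_iff_coprime.2 (hc.coprime_dvd_right hpN).symm)
    omega
  have j2 : χ (-ε) ≠ 0 := by
    have := hχ.unit (a := -ε) ⟨-ε, 0, by linear_combination ε2⟩
    omega
  have j3 : s ≠ 0 := by omega
  have j4 : ε ≠ 0 := by omega
  simp [j1, j2, j3, j4, h0, hL, hω.ne] at fin

namespace PD

/-- The genus character on forms that represent proportional numbers. -/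
theorem gD_vals {d k : ℤ} {Q R : Fm} (hd : Squarefree d) (hk : IsCoprime k (cnd d))
    (hQ : (cnd d : ℤ) ^ 2 ∣ fdisc Q) (hR : fdisc R = fdisc Q)
    (h : ∀ x y, ∃ x' y', fval R x' y' = k * fval Q x y)
    (h' : ∀ x y, ∃ x' y', fval Q x' y' = k * fval R x y) : gD d R = kro d k * gD d Q := by
  rw [cnd, B3.cond, Nat.cast_mul] at hk hQ
  have o : (odp d : ℤ) ∣ fdisc Q := ((dvd_mul_left _ _).trans (dvd_pow_self _ two_ne_zero)).trans hQ
  rw [gD, gD, kro, mul_mul_mul_comm]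
  congr 1
  · by_cases h4 : d % 4 = 1
    · simp only [chi2, if_pos h4, mul_one]
    have c4 : 4 * (cond2 d : ℤ) ∣ fdisc Q := by
      refine Dvd.dvd.trans ?_ ((pow_dvd_pow_of_dvd (dvd_mul_right _ _) 2).trans hQ)
      rw [cond2, if_neg h4]
      split_ifs <;> decide
    have k2 := (lq_cop h4).1 hk.of_mul_right_left
    have val : ∀ S : Fm, ∃ x y, fval S x y = if 2 ∣ S.1 then S.2.2 else S.1 := fun S => by
      split_ifs
      exacts [⟨0, 1, by simp [fval]⟩, ⟨1, 0, by simp [fval]⟩]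
    obtain ⟨x, y, e⟩ := val Q
    by_cases q : 2 ∣ fval Q x y
    · obtain ⟨z, u, e'⟩ := val R
      rw [← e, (pchr_chi2 d).zero _ fun a => (lq_cop h4).1 a q, mul_zero, ← e']
      refine (pchr_chi2 d).zero _ fun a => ?_
      obtain ⟨x', y', e1⟩ := h' z u
      have a1 : ¬ 2 ∣ fval Q x' y' := fun a1 =>
        (Int.prime_two.dvd_or_dvd (e1 ▸ a1)).elim k2 ((lq_cop h4).1 a)
      have a2 := lq_val h4 c4 a1
      have a3 := (pchr_chi2 d).unit ((lq_cop h4).2 a1)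
      rw [← e, (pchr_chi2 d).zero _ fun a => (lq_cop h4).1 a q] at a2
      omega
    · obtain ⟨x', y', e1⟩ := h x y
      rw [← lq_val h4 (hR ▸ c4) (x := x') (y := y') fun a =>
        (Int.prime_two.dvd_or_dvd (e1 ▸ a)).elim k2 q, e1, (pchr_chi2 d).mul, e]
  · rw [gch_eq, gch_eq, jac_eq_prod _ (B3.odp_sqf hd), ← prod_mul_distrib]
    refine prod_congr rfl fun l hl => ?_
    have l1 := Nat.prime_of_mem_primeFactors hl
    have l3 := Nat.prime_iff_prime_int.1 l1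
    have l2 : ¬ (l : ℤ) ∣ k := fun a =>
      l3.not_isUnit (hk.of_mul_right_right.isUnit_of_dvd' a (dvd_of_mem dvd_rfl hl))
    refine gl_of_vals l1 (prime_ne_two (B3.odp_odd hd) hl) (dvd_of_mem o hl)
      (hR ▸ dvd_of_mem o hl) l2 (fun x y => ?_) fun a x y => ?_
    · obtain ⟨x', y', e⟩ := h x y
      exact ⟨x', y', by rw [e, sub_self]; exact dvd_zero _⟩
    · obtain ⟨x', y', e⟩ := h' x y
      exact (l3.dvd_or_dvd (e ▸ a x' y')).resolve_left l2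

theorem gD_map {d k : ℤ} {Q R : Fm} {w : MZ} (hd : Squarefree d) (hk : IsCoprime k (cnd d))
    (k0 : k ≠ 0) (hQ : (cnd d : ℤ) ^ 2 ∣ fdisc Q) (hR : fdisc R = fdisc Q) (hw : w.det = k)
    (h : fm R w = k • Q) : gD d R = kro d k * gD d Q := by
  have key : ∀ {Q R : Fm} {w : MZ}, fm R w = k • Q → ∀ x y, ∃ x' y', fval R x' y' = k * fval Q x y :=
    fun {Q R w} h x y => ⟨w 0 0 * x + w 0 1 * y, w 1 0 * x + w 1 1 * y, by
      rw [← fval_fmap, show fmap R (w 0 0) (w 0 1) (w 1 0) (w 1 1) = k • Q from h]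
      simp only [fval, Prod.smul_fst, Prod.smul_snd, smul_eq_mul]
      ring⟩
  exact gD_vals hd hk hQ hR (key h) (key (fm_swap k0 (by rw [mul_adjugate, hw]) h))

theorem gD_line {d : ℤ} (hd : Squarefree d) (n x : ℤ) : gD d (0, n, x) = kro d x := by
  rw [gD, kro, gch_line (B3.odp_sqf hd), if_pos (dvd_zero _)]

/-- The weight after the involution of Fricke, for a conductor prime to the level. -/
theorem gU_eq {N : ℕ} {d : ℤ} {Q : Fm} (hN : N ≠ 0) (hd : Squarefree d) (hc : (cnd d).Coprime N)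
    (h : (N : ℤ) ∣ Q.1) (hQ : (cnd d : ℤ) ^ 2 ∣ fdisc Q) : gU N d Q = kro d N * gD d Q := by
  obtain ⟨_, b, c⟩ := Q
  obtain ⟨a, rfl⟩ := h
  have N0 : (N : ℤ) ≠ 0 := Nat.cast_ne_zero.2 hN
  rw [gU, G5.fV, Int.mul_ediv_cancel_left _ N0]
  refine gD_vals hd (Nat.isCoprime_iff_coprime.2 hc.symm) hQ (by simp only [fdisc]; ring)
    (fun x y => ⟨y, -N * x, ?_⟩) fun x y => ⟨y, -N * x, ?_⟩ <;> simp only [fval] <;> ring

theorem om_gD {N : ℕ} {d : ℤ} (hN : N ≠ 0) (hd : Squarefree d) (hc : (cnd d).Coprime N) :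
    Om N (cnd d) (kro d) (gD d) 1 where
  inv Q R _ h e := by
    obtain ⟨g, hg, rfl⟩ := feq_iff.1 e
    rw [gD_map hd isCoprime_one_left one_ne_zero ((fm_disc hg.1 Q).symm ▸ h) (fm_disc hg.1 Q).symm
      hg.1 (one_smul _ _).symm, (pchr_kro hd).one, one_mul]
  bdd := ⟨1, fun R => by
    rw [gD, abs_mul]
    refine mul_le_one₀ ?_ (abs_nonneg _) (abs_gch_le _ _)
    rcases (pchr_chi2 d).cases (if 2 ∣ R.1 then R.2.2 else R.1) with e | e | e <;> simp [e]⟩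
  al p w Q R hp hw _ _ h e k := gD_map hd
    (Nat.isCoprime_iff_coprime.2 (hc.coprime_dvd_right hp).symm)
    (Nat.cast_ne_zero.2 (ne_zero_of_dvd_ne_zero hN hp)) h e hw.det k
  line n x := by rw [PD.gD_line hd, one_mul]
  ne := one_ne_zero

theorem om_gU {N : ℕ} {d : ℤ} (hN : N ≠ 0) (hd : Squarefree d) (hc : (cnd d).Coprime N) :
    Om N (cnd d) (kro d) (gU N d) (kro d N) where
  inv Q R h1 h e := by
    rw [gU_eq hN hd hc h1 h, gU_eq hN hd hc (e.fam (β := Q.2.1) ⟨h1, rfl, by simp⟩).1 (e.disc ▸ h),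
      (om_gD hN hd hc).inv Q R h1 h e]
  bdd := (om_gD hN hd hc).bdd.imp fun _ h _ => h _
  al p w Q R hp hw h1 h2 h e k := by
    rw [gU_eq hN hd hc h1 h, gU_eq hN hd hc h2 (e ▸ h), (om_gD hN hd hc).al p w Q R hp hw h1 h2 h e k]
    ring
  line n x := by
    rw [← (pchr_kro hd).mul, gU, G5.fV, gD, kro, jac_eq_prod _ (B3.odp_sqf hd), gch]
    congr 1
    · by_cases h4 : d % 4 = 1
      · simp only [chi2, if_pos h4]
      · split_ifs with k
        · rw [(pchr_chi2 d).zero _ fun a => (lq_cop h4).1 a k,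
            (pchr_chi2 d).zero _ fun a => (lq_cop h4).1 a (by simp)]
        · rfl
    · refine prod_congr rfl fun l hl => ?_
      split_ifs with k
      · rw [jac_zero_of_dvd (Nat.prime_of_mem_primeFactors hl) k,
          jac_zero_of_dvd (Nat.prime_of_mem_primeFactors hl) (by simp)]
      · rfl
  ne := by
    have := (pchr_kro hd).unit (Nat.isCoprime_iff_coprime.2 hc.symm)
    omega

end PD

open PD in
/-- The statement for the character of a quadratic field. -/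
theorem pd_kro {N K p : ℕ} {d β ε s : ℤ} {ω : Fm → ℤ} {η a : ℕ → ℤ} {F F₂ G : ℂ → ℂ} {t : HW}
    {w : MZ} {y y₂ κ κ₂ y₃ : ℂ} (hN : Squarefree N) (oN : Odd N) (hK : N ∣ K) (hp : p.Prime)
    (hpN : p ∣ N) (hne : N ≠ p) (hd : Squarefree d) (hc : IsCoprime d N)
    (hω : ω = gD d ∨ ω = gU N d) (hη : ∀ l : ℕ, l.Prime → ¬ l ∣ K → η l = kro d l)
    (hε : ε = 1 ∨ ε = -1) (k1 : (p : ℤ) ∣ β + ε * cnd d)
    (k2 : 2 * ((N / p : ℕ) : ℤ) ∣ β - ε * cnd d) (hF : Ci N F) (hF₂ : Ci N F₂) (hE : Eig N a F)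
    (hw : ALm N p w) (hs : s = 1 ∨ s = -1)
    (hal : ∀ z : ℂ, 0 < z.im → F (act w z) = s * F z + y ∧ F₂ (act w z) = -s * F₂ z + y₂)
    (ht : t ∈ HA K) (hI : Inv0 N fun z => (G z).re - cmb (fun m : ℕ =>
      Iw (wF N ω ((cnd d * m) ^ 2) (β * m))) (ha η t (Finsupp.single 1 1)) z)
    (hG : ∀ z : ℂ, 0 < z.im → G z = κ * F z + κ₂ * F₂ z + y₃) (h0 : he a t ≠ 0)
    (hL : LKr F d 1 ≠ 0) : κ ≠ 0 := by
  have c : (cnd d).Coprime N := Nat.coprime_of_dvd fun l hl h1 h2 =>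
    (Nat.prime_iff_prime_int.1 hl).not_isUnit (hc.isUnit_of_dvd'
      ((B3.odd_dvd_cond hd (oN.of_dvd_nat h2)).1 h1) (Int.natCast_dvd_natCast.2 h2))
  rcases hω with rfl | rfl
  exacts [pd_stmt N K p _ _ _ η _ β ε F F₂ G a t w s y y₂ κ κ₂ y₃ hN oN hK hp hpN hne (pchr_kro hd) c
      (om_gD hN.ne_zero hd c) hη hε k1 k2 hF hF₂ hE hw hs hal ht hI hG h0 hL,
    pd_stmt N K p _ _ _ η _ β ε F F₂ G a t w s y y₂ κ κ₂ y₃ hN oN hK hp hpN hne (pchr_kro hd) c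
      (om_gU hN.ne_zero hd c) hη hε k1 k2 hF hF₂ hE hw hs hal ht hI hG h0 hL]

end Pool.Agent.G7
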