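import Pool.Agent.Lib.MP_696deb_nt.B6.CEa

/-! Residues of algebraic complex numbers that are fixed by a Frobenius element. -/

set_option autoImplicit false

open scoped NNReal Classical

namespace Pool.Agent.B6.S8

open Pool.Agent.Lib.MP_696deb_nt Pool.Agent.Lib.MP_696deb_nt.B2 IsLocalRing Polynomial

/-- A place over the odd prime `l` and a Frobenius element. -/
structure Fr (l : ℕ) where
  w : Plc
  φ : Gam
  hp : w.p = l
  fr : IsFrob w w.p φ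
  odd : l % 2 = 1

/-- The value of a polynomial that is given by its list of coefficients. -/
def hv {R : Type*} [CommRing R] (x : R) : List ℤ → R
  | [] => 0
  | c :: L => c + x * hv x L

/-- The criterion of Euler. -/
def Sq (l : ℕ) (a s : ℤ) : Prop := (l : ℤ) ∣ (a % l) ^ (l / 2) - s

instance (l : ℕ) (a s : ℤ) : Decidable (Sq l a s) := by unfold Sq; infer_instance

namespace Fr

variable {l : ℕ} (F : Fr l)

/-- The valuation ring. -/
noncomputable abbrev O := F.w.V.valuationSubring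

/-- The algebraic number `u` is congruent to the integer `a`. -/
def Nr (u : Qbar) (a : ℤ) : Prop := ∃ y : F.O, (y : Qbar) = u ∧ residue _ y = a

/-- The complex number `c` is algebraic, fixed by the Frobenius element, and congruent to `a`. -/
def Rs (c : ℂ) (a : ℤ) : Prop := ∃ u, jC u = c ∧ F.φ u = u ∧ F.Nr u a

variable {F} {u v : Qbar} {a b : ℤ} {c d : ℂ}

theorem cast_zero : (a : ResidueField F.O) = 0 ↔ (l : ℤ) ∣ a := by
  have := res_char F.w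
  rw [CharP.intCast_eq_zero_iff _ F.w.p, F.hp]

theorem cast_eq : (a : ResidueField F.O) = b ↔ (l : ℤ) ∣ a - b := by
  rw [← cast_zero (F := F), Int.cast_sub, sub_eq_zero]

theorem Nr.int (a : ℤ) : F.Nr a a := ⟨a, by simp, by simp⟩

theorem Nr.add (h : F.Nr u a) (k : F.Nr v b) : F.Nr (u + v) (a + b) := by
  obtain ⟨x, rfl, h⟩ := h
  obtain ⟨y, rfl, k⟩ := k
  exact ⟨x + y, rfl, by simp [h, k]⟩

theorem Nr.sub (h : F.Nr u a) (k : F.Nr v b) : F.Nr (u - v) (a - b) := by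
  obtain ⟨x, rfl, h⟩ := h
  obtain ⟨y, rfl, k⟩ := k
  exact ⟨x - y, rfl, by simp [h, k]⟩

theorem Nr.mul (h : F.Nr u a) (k : F.Nr v b) : F.Nr (u * v) (a * b) := by
  obtain ⟨x, rfl, h⟩ := h
  obtain ⟨y, rfl, k⟩ := k
  exact ⟨x * y, rfl, by simp [h, k]⟩

theorem Nr.congr (h : F.Nr u a) (e : (l : ℤ) ∣ a - b) : F.Nr u b :=
  h.imp fun _ k => ⟨k.1, k.2.trans (cast_eq.2 e)⟩

theorem Nr.uniq (h : F.Nr u a) (k : F.Nr u b) : (l : ℤ) ∣ a - b := by
  obtain ⟨x, rfl, h⟩ := h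
  obtain ⟨y, e, k⟩ := k
  obtain rfl : y = x := Subtype.ext e
  exact cast_eq.1 (h.symm.trans k)

theorem Nr.cub [Cw] (h : F.Nr u a) : F.Nr (cub u) (cub a) := by
  obtain ⟨x, rfl, h⟩ := h
  exact ⟨B6.cub x, map_cub F.O.subtype x, by
    rw [map_cub, h]; exact (map_cub (Int.castRingHom (ResidueField F.O)) a).symm⟩

theorem res_φ (y : F.O) : ∃ z : F.O, (z : Qbar) = F.φ y ∧ residue _ z = residue _ y ^ l := by
  refine ⟨⟨F.φ y, ((mem_Dec.1 F.fr.1 y).trans_le y.2 :)⟩, rfl, ?_⟩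
  rw [← map_pow, ← sub_eq_zero, ← map_sub, residue_eq_zero_iff, Valuation.mem_maximalIdeal_iff]
  have := F.fr.2 y y.2
  rwa [F.hp] at this

theorem Nr.φ (h : F.Nr u a) : F.Nr (F.φ u) a := by
  obtain ⟨x, rfl, h⟩ := h
  obtain ⟨z, e, k⟩ := res_φ x
  have : Fact l.Prime := ⟨F.hp ▸ F.w.prime⟩
  refine ⟨z, e, by
    rw [k, h, ← Int.cast_pow, cast_eq, ← ZMod.intCast_zmod_eq_zero_iff_dvd]; simp [ZMod.pow_card]⟩

theorem Nr.ne (h : F.Nr u a) (ha : ¬ (l : ℤ) ∣ a) : u ≠ 0 := by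
  rintro rfl
  exact ha (sub_zero a ▸ h.uniq (by simpa using Nr.int 0))

theorem Nr.div (h : F.Nr u a) (ha : ¬ (l : ℤ) ∣ a) {t : ℤ} (k : F.Nr v b)
    (e : (l : ℤ) ∣ a * t - b) : F.Nr (v / u) t := by
  obtain ⟨x, rfl, h⟩ := h
  obtain ⟨y, rfl, k⟩ := k
  have h0 : (a : ResidueField F.O) ≠ 0 := mt cast_zero.1 ha
  obtain ⟨z, hz⟩ := ((residue_ne_zero_iff_isUnit x).1 (h ▸ h0)).exists_right_inv
  refine ⟨y * z, ?_, mul_left_cancel₀ h0 ?_⟩
  · rw [div_eq_mul_inv, ← eq_inv_of_mul_eq_one_right (a := (x : Qbar)) (b := z)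
      (by exact_mod_cast hz)]
    rfl
  · rw [← Int.cast_mul, cast_eq.2 e, ← k, ← h, ← map_mul, mul_left_comm, hz, mul_one]

theorem Sq.nd {s : ℤ} (F : Fr l) (h : Sq l a s) (hs : s = 1 ∨ s = -1) : ¬ (l : ℤ) ∣ a := fun k => by
  have p : l.Prime := F.hp ▸ F.w.prime
  have h2 : l / 2 ≠ 0 := by have := p.two_le; omega
  rw [Sq, Int.emod_eq_zero_of_dvd k, zero_pow h2, zero_sub, dvd_neg] at h
  exact (Nat.prime_iff_prime_int.1 p).not_dvd_one (by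
    rcases hs with rfl | rfl
    exacts [h, dvd_neg.1 h])

theorem two_nd (F : Fr l) : ¬ (l : ℤ) ∣ 2 := fun k => by
  have p : l.Prime := F.hp ▸ F.w.prime
  have := (Nat.prime_dvd_prime_iff_eq p Nat.prime_two).1 (by exact_mod_cast k)
  have := F.odd
  omega

/-- The action of the Frobenius element on a square root. -/
theorem sgn {s : ℤ} (h : F.Nr (u ^ 2) a) (k : F.φ (u ^ 2) = u ^ 2) (hq : Sq l a s)
    (hs : s = 1 ∨ s = -1) : F.φ u = s * u := by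
  obtain ⟨x, e, h⟩ := h
  obtain ⟨y, rfl⟩ : ∃ y : F.O, (y : Qbar) = u := ⟨⟨u, r0_quad F.w (zero_mem _) (by
    rw [zero_mul, add_zero, ← e]; exact x.2)⟩, rfl⟩
  obtain rfl : x = y ^ 2 := Subtype.ext e
  obtain ⟨z, e1, e2⟩ := res_φ y
  have e3 : residue _ z = s * residue _ y := by
    have := F.odd
    rw [e2, show residue _ y ^ l = (residue _ y ^ 2) ^ (l / 2) * residue _ y by
      rw [← pow_mul, ← pow_succ]; congr 1; omega, ← map_pow, h, ← cast_eq.2 hq, Int.cast_pow,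
      cast_eq.2 (Int.dvd_self_sub_emod (x := a) (m := l))]
  have s2 : s ^ 2 = 1 := by rcases hs with rfl | rfl <;> rfl
  have e4 : F.φ y ^ 2 = (s * y) ^ 2 := by
    rw [← map_pow, k, mul_pow, ← Int.cast_pow, s2, Int.cast_one, one_mul]
  refine (sq_eq_sq_iff_eq_or_eq_neg.1 e4).resolve_right fun e5 =>
    Sq.nd F hq hs ((cast_zero (F := F)).1 ?_)
  obtain rfl : z = -(s * y) := Subtype.ext (e1.trans e5)
  rw [map_neg, map_mul, map_intCast] at e3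
  have t : ((2 : ℤ) : ResidueField F.O) ≠ 0 := mt cast_zero.1 F.two_nd
  have s3 : (s : ResidueField F.O) ^ 2 = 1 := by rw [← Int.cast_pow, s2, Int.cast_one]
  rw [← h, map_pow]
  refine mul_left_cancel₀ t ?_
  push_cast
  linear_combination -(s * residue _ y) * e3 - 2 * residue _ y ^ 2 * s3

theorem Rs.int (a : ℤ) : F.Rs a a := ⟨a, by simp, by simp, .int a⟩

theorem Rs.add (h : F.Rs c a) (k : F.Rs d b) : F.Rs (c + d) (a + b) := by
  obtain ⟨x, rfl, h1, h⟩ := h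
  obtain ⟨y, rfl, k1, k⟩ := k
  exact ⟨x + y, by simp, by simp [h1, k1], h.add k⟩

theorem Rs.sub (h : F.Rs c a) (k : F.Rs d b) : F.Rs (c - d) (a - b) := by
  obtain ⟨x, rfl, h1, h⟩ := h
  obtain ⟨y, rfl, k1, k⟩ := k
  exact ⟨x - y, by simp, by simp [h1, k1], h.sub k⟩

theorem Rs.mul (h : F.Rs c a) (k : F.Rs d b) : F.Rs (c * d) (a * b) := by
  obtain ⟨x, rfl, h1, h⟩ := h
  obtain ⟨y, rfl, k1, k⟩ := k
  exact ⟨x * y, by simp, by simp [h1, k1], h.mul k⟩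

theorem Rs.hv (h : F.Rs c a) : ∀ L, F.Rs (hv c L) (hv a L)
  | [] => by simpa [S8.hv] using Rs.int (F := F) 0
  | t :: L => (Rs.int t).add (h.mul (h.hv L))

theorem Rs.congr (h : F.Rs c a) (e : (l : ℤ) ∣ a - b) : F.Rs c b :=
  h.imp fun _ k => ⟨k.1, k.2.1, k.2.2.congr e⟩

theorem Rs.uniq (h : F.Rs c a) (k : F.Rs c b) : (l : ℤ) ∣ a - b := by
  obtain ⟨x, rfl, -, h⟩ := h
  obtain ⟨y, e, -, k⟩ := k
  exact h.uniq (jC.injective e ▸ k)

theorem Rs.div (h : F.Rs c a) (ha : ¬ (l : ℤ) ∣ a) {t : ℤ} (k : F.Rs d b) {x : ℂ} (e1 : c * x = d)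
    (e : (l : ℤ) ∣ a * t - b) : F.Rs x t := by
  obtain ⟨u, rfl, h1, h⟩ := h
  obtain ⟨v, rfl, k1, k⟩ := k
  exact ⟨v / u, by rw [map_div₀, ← e1, mul_div_cancel_left₀ _ ((map_ne_zero jC).2 (h.ne ha))],
    by rw [map_div₀, h1, k1], h.div ha k e⟩

theorem nd_mul (F : Fr l) (ha : ¬ (l : ℤ) ∣ a) (hb : ¬ (l : ℤ) ∣ b) : ¬ (l : ℤ) ∣ a * b := fun k =>
  ((Nat.prime_iff_prime_int.1 (F.hp ▸ F.w.prime)).dvd_or_dvd k).elim ha hb

/-- The roots of a cubic polynomial whose reduction has three distinct roots. -/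
theorem Rs.root {x s₁ s₂ s₃ : ℂ} {a₁ a₂ a₃ : ℤ} (h1 : F.Rs s₁ (a₁ + a₂ + a₃))
    (h2 : F.Rs s₂ (a₁ * a₂ + a₁ * a₃ + a₂ * a₃)) (h3 : F.Rs s₃ (a₁ * a₂ * a₃))
    (hd : ¬ (l : ℤ) ∣ (a₁ - a₂) * (a₁ - a₃) * (a₂ - a₃))
    (e : x ^ 3 - s₁ * x ^ 2 + s₂ * x - s₃ = 0) : F.Rs x a₁ ∨ F.Rs x a₂ ∨ F.Rs x a₃ := by
  obtain ⟨v₁, rfl, f1, h1⟩ := h1
  obtain ⟨v₂, rfl, f2, h2⟩ := h2
  obtain ⟨v₃, rfl, f3, h3⟩ := h3
  obtain ⟨u, rfl⟩ : ∃ u, jC u = x := (IsAlgClosed.splits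
    (X ^ 3 - C v₁ * X ^ 2 + C v₂ * X - C v₃ : Qbar[X])).mem_range_of_isRoot
    (Monic.ne_zero (by monicity!)) (by simpa using e)
  replace e : u ^ 3 - v₁ * u ^ 2 + v₂ * u - v₃ = 0 := jC.injective (by simpa using e)
  have key : ∀ a, F.Nr u a → ¬ (l : ℤ) ∣ a * a + a * a + a * a - (a₁ + a₂ + a₃) * (a + a) +
      (a₁ * a₂ + a₁ * a₃ + a₂ * a₃) → F.Rs (jC u) a := fun a k k' => by
    refine ⟨u, rfl, sub_eq_zero.1 (mul_right_cancel₀ ((((((k.φ.mul k.φ).add (k.φ.mul k)).add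
      (k.mul k)).sub (h1.mul (k.φ.add k))).add h2).ne k') ?_), k⟩
    have := congrArg F.φ e
    simp only [map_sub, map_add, map_mul, map_pow, f1, f2, f3, map_zero] at this
    linear_combination this - e
  obtain ⟨y₁, rfl, k1⟩ := id h1
  obtain ⟨y₂, rfl, k2⟩ := id h2
  obtain ⟨y₃, rfl, k3⟩ := id h3
  obtain ⟨y, rfl⟩ : ∃ y : F.O, (y : Qbar) = u := ⟨⟨u, V_four F.w y₁.2 (-y₂).2 y₃.2 (0 : F.O).2
    (by push_cast; linear_combination u * e)⟩, rfl⟩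
  have e1 : y ^ 3 - y₁ * y ^ 2 + y₂ * y - y₃ = 0 := Subtype.ext (by exact_mod_cast e)
  have e2 := congrArg (residue _) e1
  simp only [map_sub, map_add, map_mul, map_pow, k1, k2, k3, map_zero] at e2
  have e3 : (residue _ y - a₁) * ((residue _ y - a₂) * (residue _ y - a₃)) = 0 := by
    push_cast at e2
    linear_combination e2
  simp only [mul_eq_zero, sub_eq_zero] at e3
  refine e3.imp (fun k => key _ ⟨y, rfl, k⟩ fun j => hd ?_) (Or.imp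
    (fun k => key _ ⟨y, rfl, k⟩ fun j => hd ?_) fun k => key _ ⟨y, rfl, k⟩ fun j => hd ?_)
  · exact (j.mul_right (a₂ - a₃)).trans (dvd_of_eq (by ring))
  · exact (j.mul_right (a₃ - a₁)).trans (dvd_of_eq (by ring))
  · exact (j.mul_right (a₁ - a₂)).trans (dvd_of_eq (by ring))

end Fr

end Pool.Agent.B6.S8
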