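import Pool.Agent.Lib.MP_696deb_nt.B7.S8a

/-! The descent character of points that are fixed by a Frobenius element. -/

set_option autoImplicit false

open scoped NNReal Classical

namespace Pool.Agent.B6.S8

open Pool.Agent.Lib.MP_696deb_nt Pool.Agent.Lib.MP_696deb_nt.B2 IsLocalRing

variable [Cw]

/-- A factorization of the cubic. -/
def Fac (a b c : Qbar) : Prop := (WZ.b₂ : Qbar) = -4 * (a + b + c) ∧
  (WZ.b₄ : Qbar) = 2 * (a * b + a * c + b * c) ∧ (WZ.b₆ : Qbar) = -4 * (a * b * c) ∧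
    a ≠ b ∧ a ≠ c ∧ b ≠ c

variable {a b c : Qbar} {P Q S : EE}

theorem Fac.swap (h : Fac a b c) : Fac b a c := by
  obtain ⟨h1, h2, h3, h4, h5, h6⟩ := h
  exact ⟨by linear_combination h1, by linear_combination h2, by linear_combination h3, h4.symm, h6, h5⟩

theorem Fac.flip (h : Fac a b c) : Fac a c b := by
  obtain ⟨h1, h2, h3, h4, h5, h6⟩ := h
  exact ⟨by linear_combination h1, by linear_combination h2, by linear_combination h3, h5, h4, h6.symm⟩

theorem fac_er : Fac (er 0) (er 1) (er 2) := ⟨er_b₂, er_b₄, er_b₆, er_ne⟩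

theorem Fac.eq (h : Fac a b c) (x : Qbar) : cub x = 4 * ((x - a) * ((x - b) * (x - c))) := by
  rw [cub, h.1, h.2.1, h.2.2.1]
  ring

theorem Fac.z (h : Fac a b c) : cub a = 0 := by simp [h.eq]

/-- The point of order two of the first root. -/
noncomputable def Fac.T (h : Fac a b c) : EE := tp a h.z

theorem Fac.two (h : Fac a b c) : 2 • h.T = 0 := two_tp _ _

theorem Fac.cases (h : Fac a b c) (k : 2 • S = 0) :
    S = 0 ∨ S = h.T ∨ S = h.swap.T ∨ S = h.flip.swap.T := by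
  refine or_iff_not_imp_left.2 fun h0 => ?_
  have e := (two_iff.1 k).resolve_left h0
  simp only [h.eq, mul_eq_zero, sub_eq_zero, OfNat.ofNat_ne_zero, false_or] at e
  exact e.imp (two_ext h0 (tp_ne _ _) k) (Or.imp (two_ext h0 (tp_ne _ _) k) (two_ext h0 (tp_ne _ _) k))

theorem Fac.add (h : Fac a b c) : h.T + h.swap.T = h.flip.swap.T := by
  rcases h.cases (show 2 • (h.T + h.swap.T) = 0 by rw [smul_add, h.two, h.swap.two, add_zero]) with
    k | k | k | k
  · exact absurd (congrArg xco ((eq_neg_of_add_eq_zero_left k).trans (neg_two h.swap.two))) h.2.2.2.1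
  · exact absurd (add_eq_left.1 k) (tp_ne _ _)
  · exact absurd (add_eq_right.1 k) (tp_ne _ _)
  · exact k

/-- The ordinate in the model without mixed terms. -/
noncomputable def Yc (P : EE) : Qbar := 2 * yco P + WZ.a₁ * xco P + WZ.a₃

/-- A square root of the descent coordinate of the double. -/
noncomputable def hh (a b c : Qbar) (P : EE) : Qbar := ((xco P - a) ^ 2 - (a - b) * (a - c)) / Yc P

theorem Yc_sq (h : P ≠ 0) : Yc P ^ 2 = cub (xco P) := (cub_xco h).symm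

theorem ne_of_two (h : 2 • P ≠ 0) : P ≠ 0 := fun e => h (by rw [e, smul_zero])

theorem Yc_ne (h : 2 • P ≠ 0) : Yc P ≠ 0 := fun e =>
  h (two_iff.2 (.inr (by rw [← Yc_sq (ne_of_two h), e, zero_pow two_ne_zero])))

theorem Fac.hh_sq (h : Fac a b c) (k : 2 • P ≠ 0) : hh a b c P ^ 2 = xco (2 • P) - a := by
  have k2 : cub (xco P) ≠ 0 := fun e => k (two_iff.2 (.inr e))
  have k3 := (xco_two (ne_of_two k) rfl (dup2_cub (xco P) ▸ k2)
    (div_mul_cancel₀ _ (dup2_cub (xco P) ▸ k2)).symm).2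
  have k4 := congrArg (Int.cast : ℤ → Qbar) WZ.b_relation
  push_cast at k4
  rw [eq_div_iff (dup2_cub (xco P) ▸ k2), dup2_cub] at k3
  simp only [dup1, Wu_b₄, Wu_b₆, Wu_b₈] at k3
  rw [hh, div_pow, Yc_sq (ne_of_two k), div_eq_iff k2, sub_mul (xco (2 • P)), k3, h.eq]
  rw [h.1, h.2.1, h.2.2.1] at k4
  rw [h.2.1, h.2.2.1]
  linear_combination (1 / 4) * k4

/-- Translation by a point of order two. -/
theorem Fac.tr (h : Fac a b c) (k : 2 • P ≠ 0) : ∃ m : Qbar, m ≠ 0 ∧ Yc P = m * (xco P - a) ∧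
    Yc (P + h.T) = -m * (xco (P + h.T) - a) ∧
      (xco P - a) * (xco (P + h.T) - a) = (a - b) * (a - c) := by
  have p1 : P + h.T ≠ 0 := fun e => k (by
    rw [eq_neg_of_add_eq_zero_left e, smul_neg, h.two, neg_zero])
  obtain ⟨l, ν, e1, e2, e3, e4, -⟩ := r0_line (Q := h.T) (ne_of_two k) (tp_ne _ h.z) p1
  rw [r0_two_y (P := h.T) (tp_ne _ h.z) h.two] at e2
  rw [r0_neg p1] at e3
  rw [show xco h.T = a from rfl] at e2 e4
  have e5 : Yc P = (2 * l + WZ.a₁) * (xco P - a) := by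
    rw [Yc]; linear_combination 2 * e1 - 2 * e2
  have e6 := Yc_ne k
  have e7 := Yc_sq (ne_of_two k)
  have e8 : (WZ.a₁ : Qbar) ^ 2 + 4 * WZ.a₂ = -4 * (a + b + c) := by
    rw [← h.1, WeierstrassCurve.b₂]; push_cast; rfl
  rw [e5] at e6 e7
  rw [h.eq] at e7
  refine ⟨_, left_ne_zero_of_mul e6, e5, by
    rw [Yc]; linear_combination -2 * e3 + 2 * e2, mul_left_cancel₀ (right_ne_zero_of_mul e6) ?_⟩
  linear_combination (xco P - a) ^ 2 * e4 + (1 / 4) * e7 - (1 / 4) * (xco P - a) ^ 2 * e8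

theorem two_add (k : 2 • P ≠ 0) (h : 2 • S = 0) : 2 • (P + S) ≠ 0 := by
  rwa [smul_add, h, add_zero]

theorem Fac.hh_fst (h : Fac a b c) (k : 2 • P ≠ 0) : hh a b c (P + h.T) = hh a b c P := by
  obtain ⟨m, -, e1, e2, e3⟩ := h.tr k
  rw [hh, hh, div_eq_div_iff (Yc_ne (two_add k h.two)) (Yc_ne k), e1, e2, ← e3]
  ring

theorem Fac.hh_snd (h : Fac a b c) (k : 2 • P ≠ 0) : hh a b c (P + h.swap.T) = -hh a b c P := by
  obtain ⟨m, -, e1, e2, e3⟩ := h.swap.tr k
  have e4 := right_ne_zero_of_mul (e1 ▸ Yc_ne k)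
  rw [hh, hh, ← neg_div, div_eq_div_iff (Yc_ne (two_add k h.swap.two)) (Yc_ne k), e1, e2]
  refine mul_left_cancel₀ e4 ?_
  generalize xco (P + h.swap.T) = x' at e3
  generalize xco P = x at e3
  linear_combination m * ((x - b) * (x' - b) + (b - a) * (b - c) + 2 * (x - b) * (b - a) -
    ((x - a) ^ 2 - (a - b) * (a - c))) * e3

theorem Yc_smul (g : Gam) (P : EE) : Yc (g • P) = g (Yc P) := by
  simp [Yc, xco_smul, yco_smul, map_ofNat]

/-- The finite conditions on the prime `l` and on the root `t` of the cubic. -/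
def Ok2 (l : ℕ) (t : ℤ) : Prop := (l : ℤ) ∣ cub t ∧ Sq l (12 * t * t + 2 * WZ.b₂ * t + 2 * WZ.b₄) 1 ∧
  Sq l (WZ.b₂ * WZ.b₂ - 32 * WZ.b₄ - 8 * WZ.b₂ * t - 48 * t * t) (-1)

instance (l : ℕ) (t : ℤ) : Decidable (Ok2 l t) := by unfold Ok2; infer_instance

variable {l : ℕ} (F : Fr l) {t : ℤ}

/-- The action of the Frobenius element on the roots of the cubic. -/
structure Rt3 (t : ℤ) (a b c : Qbar) : Prop where
  fac : Fac a b c
  nr : F.Nr a t
  fa : F.φ a = a
  fb : F.φ b = c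
  fc : F.φ c = b
  sq : ∀ u : Qbar, u ^ 2 = (a - b) * (a - c) → F.φ u = u

theorem Fac.map (h : Fac a b c) (g : Gam) : g a = a ∨ g a = b ∨ g a = c := by
  have := map_cub g a
  rw [h.z, map_zero, h.eq] at this
  simpa [sub_eq_zero] using this

theorem exists_rt3 (h : Ok2 l t) : ∃ a b c, Rt3 F t a b c := by
  obtain ⟨h1, h2, h3⟩ := h
  have w2 : F.w.p ≠ 2 := by have := F.odd; have := F.hp; omega
  obtain ⟨a, b, c, k1, k2⟩ : ∃ a b c, Fac a b c ∧ F.Nr a t := by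
    have i : ∀ j, ∃ y : F.O, (y : Qbar) = er j := fun j => ⟨⟨_, V_root w2 (cub_er j)⟩, rfl⟩
    choose y hy using i
    have e : cub (t : F.O) = 4 * ((t - y 0) * ((t - y 1) * (t - y 2))) := Subtype.ext (by
      rw [show ((cub (t : F.O) : F.O) : Qbar) = _ from map_cub F.O.subtype _]
      push_cast
      simp only [hy, map_intCast]
      exact cub_eq _)
    have e1 := congrArg (residue _) e
    have e2 : ((2 * 2 : ℤ) : ResidueField F.O) ≠ 0 := mt Fr.cast_zero.1 (F.nd_mul F.two_nd F.two_nd)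
    rw [map_cub, map_intCast, ← show _ = cub (t : ResidueField F.O) from
      map_cub (Int.castRingHom _) t, eq_intCast, Fr.cast_zero.2 h1] at e1
    simp only [map_mul, map_sub, map_intCast, map_ofNat, zero_eq_mul, mul_eq_zero, sub_eq_zero] at e1
    rcases e1.resolve_left (by simpa using e2) with e | e | e
    exacts [⟨_, _, _, fac_er, _, hy 0, e.symm⟩, ⟨_, _, _, fac_er.swap, _, hy 1, e.symm⟩,
      ⟨_, _, _, fac_er.flip.swap, _, hy 2, e.symm⟩]
  obtain ⟨e1, e2, -⟩ := id k1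
  have n1 : F.Nr ((2 * 2) * ((a - b) * (a - c))) (12 * t * t + 2 * WZ.b₂ * t + 2 * WZ.b₄) := by
    convert ((((Fr.Nr.int 12).mul k2).mul k2).add ((Fr.Nr.int (2 * WZ.b₂)).mul k2)).add
      (.int (2 * WZ.b₄)) using 1
    push_cast
    rw [e1, e2]
    ring
  have n2 : F.Nr ((4 * (b - c)) ^ 2)
      (WZ.b₂ * WZ.b₂ - 32 * WZ.b₄ - 8 * WZ.b₂ * t - 48 * t * t) := by
    convert ((Fr.Nr.int (WZ.b₂ * WZ.b₂ - 32 * WZ.b₄)).sub ((Fr.Nr.int (8 * WZ.b₂)).mul k2)).sub
      (((Fr.Nr.int 48).mul k2).mul k2) using 1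
    push_cast
    rw [e1, e2]
    ring
  have fa : F.φ a = a := by
    have n3 := Fr.Sq.nd F h2 (.inl rfl)
    have n4 := k2.sub k2.φ
    have i : ∀ j, cub j = 0 → ∃ y : F.O, (y : Qbar) = j := fun j e => ⟨⟨_, V_root w2 e⟩, rfl⟩
    have key : ∀ b c : Qbar, cub c = 0 → F.φ a = b → ¬ F.Nr ((2 * 2) * ((a - b) * (a - c)))
        (12 * t * t + 2 * WZ.b₂ * t + 2 * WZ.b₄) := by
      rintro _ c hc rfl ⟨y, k3, k4⟩
      obtain ⟨y₁, k5, k6⟩ := n4
      obtain ⟨y₂, rfl, -⟩ := k2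
      obtain ⟨y₃, rfl⟩ := i c hc
      obtain rfl : y = 2 * 2 * (y₁ * (y₂ - y₃)) := Subtype.ext (by rw [k3, ← k5]; rfl)
      refine n3 ((Fr.cast_zero (F := F)).1 ?_)
      rw [← k4]
      simp [k6]
    rcases k1.map F.φ with e | e | e
    exacts [e, absurd n1 (key _ _ k1.flip.swap.z e),
      absurd (mul_comm (a - b) _ ▸ n1) (key _ _ k1.swap.z e)]
  have s1 := congrArg F.φ e1
  have s2 := congrArg F.φ e2
  simp only [map_intCast, map_mul, map_add, map_neg, map_ofNat, fa] at s1 s2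
  have s3 := Fr.sgn n2 (by
    simp only [map_pow, map_mul, map_sub, map_ofNat]
    linear_combination (-4 * (F.φ b + F.φ c + b + c) - 16 * a) * (e1 - s1) + 32 * (s2 - e2)) h3 (.inr rfl)
  simp only [map_mul, map_sub, map_ofNat, Int.cast_neg, Int.cast_one] at s3
  have fb : F.φ b = c := by linear_combination (1 / 8) * s3 + (1 / 8) * (s1 - e1)
  have fc : F.φ c = b := by linear_combination -(1 / 8) * s3 + (1 / 8) * (s1 - e1)
  refine ⟨a, b, c, k1, k2, fa, fb, fc, fun u hu => ?_⟩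
  have := Fr.sgn (u := 2 * u) (by rwa [mul_pow, hu, sq]) (by
    simp only [mul_pow, hu, map_mul, map_sub, fa, fb, fc, map_pow, map_ofNat]; ring) h2 (.inl rfl)
  simpa [map_ofNat] using this

variable {F}

namespace Rt3

variable (h : Rt3 F t a b c)

theorem φa : F.φ • h.fac.T = h.fac.T := (two_fix _ h.fac.two).2 h.fa

theorem φb : F.φ • h.fac.swap.T = h.fac.flip.swap.T :=
  two_ext (mt (smul_eq_zero_iff_eq _).1 (tp_ne _ _)) (tp_ne _ _)
    (by rw [smul_comm, h.fac.swap.two, smul_zero]) ((xco_smul _ _).trans h.fb)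

theorem φc : F.φ • h.fac.flip.swap.T = h.fac.swap.T :=
  two_ext (mt (smul_eq_zero_iff_eq _).1 (tp_ne _ _)) (tp_ne _ _)
    (by rw [smul_comm, h.fac.flip.swap.two, smul_zero]) ((xco_smul _ _).trans h.fc)

/-- The point `Y` is twice a fixed point whose descent character is the parity of `v`. -/
def Hf (Y : Pt Wu ℂ) (v : ℤ) : Prop := ∃ (Q : EE) (n : ℤ), 4 • pmap jC Q = Y ∧
  F.φ • Q - Q = n • h.fac.T + v • h.fac.swap.T

variable {h} {Y Y' : Pt Wu ℂ} {v v' : ℤ}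

theorem Hf.add (k : h.Hf Y v) (k' : h.Hf Y' v') : h.Hf (Y + Y') (v + v') := by
  obtain ⟨Q, n, rfl, e⟩ := k
  obtain ⟨Q', n', rfl, e'⟩ := k'
  exact ⟨Q + Q', n + n', by rw [map_add, smul_add], by
    rw [smul_add, add_sub_add_comm, e, e']; module⟩

theorem Hf.zsmul (k : h.Hf Y v) (m : ℤ) : h.Hf (m • Y) (m * v) := by
  obtain ⟨Q, n, rfl, e⟩ := k
  exact ⟨m • Q, m * n, by rw [map_zsmul, smul_comm], by
    rw [smul_comm, ← smul_sub, e]; module⟩

theorem Hf.no (k : h.Hf Y v) (hv : Odd v) {R : EE} (hR : F.φ • R = R) : 4 • pmap jC R ≠ Y := by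
  obtain ⟨Q, n, rfl, e⟩ := k
  intro e1
  obtain ⟨S, rfl⟩ : ∃ S, Q = R + S := ⟨Q - R, by abel⟩
  have e2 : 2 • 2 • S = 0 := pmap_injective jC (by
    rw [map_add, smul_add, left_eq_add] at e1
    rw [smul_smul, map_nsmul, map_zero]
    exact e1)
  rw [smul_add, hR, add_sub_add_left_eq_sub] at e
  have ta := h.fac.two
  have tb := h.fac.swap.two
  have tc := h.fac.add
  have e3 : F.φ • 2 • S = 2 • S := by
    rw [smul_comm, ← sub_eq_zero, ← smul_sub, e, smul_add, smul_comm, ta, smul_comm, tb]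
    simp
  have e4 : ∃ m : ℤ, F.φ • S - S = m • h.fac.T := by
    rcases h.fac.cases e2 with k | k | k | k
    · rcases h.fac.cases k with rfl | rfl | rfl | rfl
      · exact ⟨0, by simp⟩
      · exact ⟨0, by simp [h.φa]⟩
      · exact ⟨1, by simp [h.φb, ← tc]⟩
      · exact ⟨-1, by rw [h.φc, ← tc]; simp⟩
    · have n0 : 2 • S ≠ 0 := k ▸ tp_ne _ _
      have k1 := h.fac.hh_sq n0
      rw [k, Fac.T, xco_tp, sub_self, hh, pow_eq_zero_iff two_ne_zero,
        div_eq_zero_iff, or_iff_left (Yc_ne n0), sub_eq_zero] at k1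
      have k2 := h.sq _ k1
      rw [map_sub, h.fa, sub_left_inj, ← xco_smul] at k2
      rcases eq_or_neg (mt (smul_eq_zero_iff_eq _).1 (ne_of_two n0)) (ne_of_two n0) k2 with j | j
      · exact ⟨0, by simp [j]⟩
      · exact ⟨-1, by rw [j, ← k]; module⟩
    · rw [k, h.φb] at e3
      exact absurd (congrArg xco e3).symm h.fac.2.2.2.2.2
    · rw [k, h.φc] at e3
      exact absurd (congrArg xco e3) h.fac.2.2.2.2.2
  obtain ⟨m, e4⟩ := e4
  obtain ⟨j, rfl⟩ := hv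
  have e5 : h.fac.swap.T = (m - n) • h.fac.T := by
    rw [sub_smul, ← e4, e, add_sub_cancel_left, add_smul, mul_comm, mul_smul, one_smul,
      ofNat_zsmul, tb, smul_zero, zero_add]
  rcases Int.even_or_odd' (m - n) with ⟨i, e6 | e6⟩
  · rw [e6, mul_comm, mul_smul, ofNat_zsmul, ta, smul_zero] at e5
    exact tp_ne _ _ e5
  · rw [e6, add_smul, mul_comm, mul_smul, ofNat_zsmul, ta, smul_zero, zero_add, one_smul] at e5
    exact h.fac.2.2.2.1 (congrArg xco e5).symm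

/-- The finite conditions on a point modulo `l`. -/
def _root_.Pool.Agent.B6.S8.Lf (l : ℕ) (t x v : ℤ) : Prop :=
  Sq l (cub x) 1 ∧ (v = 0 ∧ Sq l (x - t) 1 ∨ v = 1 ∧ Sq l (x - t) (-1))

instance (l : ℕ) (t x v : ℤ) : Decidable (Lf l t x v) := by unfold Lf; infer_instance

theorem leaf (h : Rt3 F t a b c) {x : ℤ} (h0 : Y ≠ 0) (hx : F.Rs (xco Y) x) (k : Lf l t x v) :
    h.Hf (2 • Y) v := by
  obtain ⟨u, u1, u2, u3⟩ := hx
  obtain ⟨P, rfl, rfl⟩ : ∃ P : EE, pmap jC P = Y ∧ xco P = u := by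
    obtain ⟨y, hy⟩ := r0_pt u
    rcases eq_or_neg h0 (Q := pmap jC (.some _ _ hy : EE)) (mt (map_eq_zero_iff _
      (pmap_injective jC)).1 (WeierstrassCurve.Affine.Point.some_ne_zero _)) (by simp [u1]) with e | e
    exacts [⟨_, e.symm, rfl⟩, ⟨-.some _ _ hy, by rw [map_neg, e], xco_neg _⟩]
  have p0 : P ≠ 0 := fun e => h0 (by rw [e, map_zero])
  have p1 : F.φ • P = P := by
    have := Fr.sgn (u := Yc P) (Yc_sq p0 ▸ u3.cub) (by rw [Yc_sq p0, map_cub, u2]) k.1 (.inl rfl)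
    refine r0_fix _ p0 u2 ?_
    simp only [Yc, map_add, map_mul, map_intCast, map_ofNat, u2] at this
    linear_combination (norm := (push_cast; ring1)) (1 / 2) * this
  obtain ⟨Q, rfl⟩ := exists_half P
  have q1 := h.fac.hh_sq p0
  have q2 : F.φ (hh a b c Q) = hh a b c (Q + (F.φ • Q - Q)) := by
    simp only [hh, add_sub_cancel, Yc_smul, xco_smul, map_div₀, map_sub, map_mul, map_pow, h.fa,
      h.fb, h.fc, mul_comm]
  have q3 : ∀ s : ℤ, Sq l (x - t) s → s = 1 ∨ s = -1 → hh a b c Q ≠ -hh a b c Q ∧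
      F.φ (hh a b c Q) = s * hh a b c Q := fun s s1 s2 =>
    ⟨fun e => (u3.sub h.nr).ne (Fr.Sq.nd F s1 s2) (by
      rw [← q1, self_eq_neg.1 e, zero_pow two_ne_zero]),
      Fr.sgn (q1 ▸ u3.sub h.nr) (by rw [q1, map_sub, u2, h.fa]) s1 s2⟩
  have q4 : 4 • pmap jC Q = 2 • pmap jC (2 • Q) := by rw [map_nsmul, smul_smul]; rfl
  have q5 := h.fac.cases (S := F.φ • Q - Q) (by rw [smul_sub, smul_comm, p1, sub_self])
  have q6 : hh a b c (Q + h.fac.flip.swap.T) = -hh a b c Q := by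
    rw [← h.fac.add, ← add_assoc, h.fac.hh_snd (two_add p0 h.fac.two), h.fac.hh_fst p0]
  rcases k.2 with ⟨rfl, s⟩ | ⟨rfl, s⟩
  · obtain ⟨s1, s2⟩ := q3 _ s (.inl rfl)
    rw [q2, Int.cast_one, one_mul] at s2
    rcases q5 with e | e | e | e
    · exact ⟨Q, 0, q4, by simp [e]⟩
    · exact ⟨Q, 1, q4, by simp [e]⟩
    · exact absurd (s2.symm.trans (e ▸ h.fac.hh_snd p0)) s1
    · exact absurd (s2.symm.trans (e ▸ q6)) s1
  · obtain ⟨s1, s2⟩ := q3 _ s (.inr rfl)
    rw [q2, Int.cast_neg, Int.cast_one, neg_one_mul] at s2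
    rcases q5 with e | e | e | e
    · exact absurd (by rwa [e, add_zero] at s2) s1
    · exact absurd (by rwa [e, h.fac.hh_fst p0] at s2) s1
    · exact ⟨Q, 0, q4, by simp [e]⟩
    · exact ⟨Q, 1, q4, by simp [e, ← h.fac.add]⟩

end Rt3

end Pool.Agent.B6.S8
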