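import Pool.Agent.Lib.MP_696deb_nt.B7.S8b

/-! A walk in the tree of two-isogenies modulo a prime. -/

set_option autoImplicit false

namespace Pool.Agent.B6.S8

open Pool.Agent.Lib.MP_696deb_nt Pool.Agent.Lib.MP_696deb_nt.B2

/-- The coefficients of a correspondence. -/
structure CD where
  a : ℤ
  ρ : List ℤ
  a₁ : List ℤ
  b₁ : List ℤ
  a₂ : List ℤ
  b₂ : List ℤ
  a₃ : List ℤ
  b₃ : List ℤ

namespace CD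

variable (c : CD)

/-- The three neighbours of the point with coordinates `x`, `u`. -/
def Vie (x u x₁ x₂ x₃ : ℂ) : Prop := hv x c.ρ * (x₁ + x₂ + x₃) = hv x c.a₁ + u * hv x c.b₁ ∧
  hv x c.ρ * (x₁ * x₂ + x₁ * x₃ + x₂ * x₃) = hv x c.a₂ + u * hv x c.b₂ ∧
    hv x c.ρ * (x₁ * x₂ * x₃) = hv x c.a₃ + u * hv x c.b₃

/-- The same modulo `l`. -/
def VM (l : ℕ) (x u x₁ x₂ x₃ : ℤ) : Prop :=
  (l : ℤ) ∣ hv x c.ρ * (x₁ + x₂ + x₃) - (hv x c.a₁ + u * hv x c.b₁) ∧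
  (l : ℤ) ∣ hv x c.ρ * (x₁ * x₂ + x₁ * x₃ + x₂ * x₃) - (hv x c.a₂ + u * hv x c.b₂) ∧
  (l : ℤ) ∣ hv x c.ρ * (x₁ * x₂ * x₃) - (hv x c.a₃ + u * hv x c.b₃) ∧
  ¬ (l : ℤ) ∣ hv x c.ρ ∧ ¬ (l : ℤ) ∣ (x₁ - x₂) * (x₁ - x₃) * (x₂ - x₃)

instance (l : ℕ) (x u x₁ x₂ x₃ : ℤ) : Decidable (c.VM l x u x₁ x₂ x₃) := by
  unfold VM; infer_instance

/-- The first neighbour determines the second coordinate. -/
def KM (l : ℕ) (x u p r s : ℤ) : Prop := c.VM l x u p r s ∧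
  ¬ (l : ℤ) ∣ hv x c.b₁ * p * p - hv x c.b₂ * p + hv x c.b₃

instance (l : ℕ) (x u x₁ x₂ x₃ : ℤ) : Decidable (c.KM l x u x₁ x₂ x₃) := by
  unfold KM; infer_instance

end CD

variable {l : ℕ} {F : Fr l} {c : CD} {x u x₁ x₂ x₃ : ℂ} {a b a₁ a₂ a₃ : ℤ}

variable (F) in
/-- The residues of the elementary symmetric functions. -/
structure Es (x₁ x₂ x₃ : ℂ) (a₁ a₂ a₃ : ℤ) : Prop where
  e1 : F.Rs (x₁ + x₂ + x₃) (a₁ + a₂ + a₃)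
  e2 : F.Rs (x₁ * x₂ + x₁ * x₃ + x₂ * x₃) (a₁ * a₂ + a₁ * a₃ + a₂ * a₃)
  e3 : F.Rs (x₁ * x₂ * x₃) (a₁ * a₂ * a₃)
  ne : ¬ (l : ℤ) ∣ (a₁ - a₂) * (a₁ - a₃) * (a₂ - a₃)

theorem dvd0 {m : ℤ} (h : a = 0) : m ∣ a := h ▸ dvd_zero m

theorem Es.rot (h : Es F x₁ x₂ x₃ a₁ a₂ a₃) : Es F x₁ x₂ x₃ a₂ a₃ a₁ :=
  ⟨h.e1.congr (dvd0 (by ring)), h.e2.congr (dvd0 (by ring)), h.e3.congr (dvd0 (by ring)),
    fun k => h.ne (k.trans (dvd_of_eq (by ring)))⟩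

theorem Es.perm (h : Es F x₁ x₂ x₃ a₁ a₂ a₃) (k : F.Rs x₁ a₁) :
    F.Rs x₂ a₂ ∧ F.Rs x₃ a₃ ∨ F.Rs x₂ a₃ ∧ F.Rs x₃ a₂ := by
  have e : ∀ t, F.Rs x₂ t → F.Rs x₃ (a₁ + a₂ + a₃ - a₁ - t) := fun t j => by
    simpa only [add_assoc, add_sub_cancel_left] using (h.e1.sub k).sub j
  rcases Fr.Rs.root (x := x₂) h.e1 h.e2 h.e3 h.ne (by ring) with j | j | j
  · have k1 := (k.sub j).mul (k.sub (e _ j))
    rw [show (x₁ - x₂) * (x₁ - x₃) = x₁ * x₁ + x₁ * x₁ + x₁ * x₁ - (x₁ + x₂ + x₃) * (x₁ + x₁) +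
      (x₁ * x₂ + x₁ * x₃ + x₂ * x₃) by ring] at k1
    exact absurd ((((((((k.mul k).add (k.mul k)).add (k.mul k)).sub (h.e1.mul (k.add k))).add
      h.e2).uniq k1).mul_right (a₂ - a₃)).trans (dvd_of_eq (by ring))) h.ne
  · exact .inl ⟨j, (e _ j).congr (dvd0 (by ring))⟩
  · exact .inr ⟨j, (e _ j).congr (dvd0 (by ring))⟩

theorem CD.Vie.es (h : c.Vie x u x₁ x₂ x₃) (k : c.VM l a b a₁ a₂ a₃) (hx : F.Rs x a)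
    (hu : F.Rs u b) : Es F x₁ x₂ x₃ a₁ a₂ a₃ :=
  ⟨(hx.hv _).div k.2.2.2.1 ((hx.hv _).add (hu.mul (hx.hv _))) h.1 k.1,
    (hx.hv _).div k.2.2.2.1 ((hx.hv _).add (hu.mul (hx.hv _))) h.2.1 k.2.1,
    (hx.hv _).div k.2.2.2.1 ((hx.hv _).add (hu.mul (hx.hv _))) h.2.2 k.2.2.1, k.2.2.2.2⟩

theorem CD.Vie.step (h : c.Vie x u x₁ x₂ x₃) (k : c.KM l a b a₁ a₂ a₃) (hx : F.Rs x a)
    (h1 : F.Rs x₁ a₁) : F.Rs x₂ a₂ ∧ F.Rs x₃ a₃ ∨ F.Rs x₂ a₃ ∧ F.Rs x₃ a₂ := by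
  refine (h.es k.1 hx ((((((hx.hv c.b₁).mul h1).mul h1).sub ((hx.hv c.b₂).mul h1)).add
    (hx.hv c.b₃)).div k.2 (((((((hx.hv c.ρ).mul h1).mul h1).mul h1).sub
      (((hx.hv c.a₁).mul h1).mul h1)).add ((hx.hv c.a₂).mul h1)).sub (hx.hv c.a₃)) ?_ ?_)).perm h1
  · linear_combination -x₁ ^ 2 * h.1 + x₁ * h.2.1 - h.2.2
  · exact (((k.1.2.1.mul_right a₁).sub (k.1.1.mul_right (a₁ ^ 2))).sub k.1.2.2.1).trans
      (dvd_of_eq (by ring))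

variable [Cw]

/-- The three neighbours of a point. -/
structure H (c : CD) (P P₁ P₂ P₃ : Pt Wu ℂ) (u : ℂ) : Prop where
  vie : c.Vie (xco P) u (xco P₁) (xco P₂) (xco P₃)
  sum : P₁ + P₂ + P₃ = c.a • P
  n2 : P₂ ≠ 0
  n3 : P₃ ≠ 0

/-- The difference of the two children of `Q`, whose parent is `P`. -/
def Dn (c : CD) (Q P d : Pt Wu ℂ) : Prop := ∃ u S S', H c Q P S S' u ∧ (d = S - S' ∨ d = S' - S)

/-- The sum of the differences of the grandchildren of `P`, whose parent is `P₀`. -/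
def Dm (c : CD) (P P₀ d : Pt Wu ℂ) : Prop :=
  ∃ u Q Q' d₁ d₂, H c P P₀ Q Q' u ∧ Dn c Q P d₁ ∧ Dn c Q' P d₂ ∧ d = d₁ + d₂

/-- Vertices at distance two. -/
structure N2 where
  x : ℤ
  u : ℤ
  r : ℤ
  s : ℤ
  v : ℤ

/-- Vertices at distance one. -/
structure N1 where
  x : ℤ
  u : ℤ
  m : N2
  n : N2

/-- The check at distance two. -/
def N2.C (n : N2) (c : CD) (l : ℕ) (t p : ℤ) : Prop :=
  c.KM l n.x n.u p n.r n.s ∧ Lf l t n.r n.v ∧ Lf l t n.s n.v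

instance (n : N2) (c : CD) (l : ℕ) (t p : ℤ) : Decidable (n.C c l t p) := by
  unfold N2.C; infer_instance

/-- The check at distance one. -/
def N1.C (n : N1) (c : CD) (l : ℕ) (t p : ℤ) : Prop :=
  c.KM l n.x n.u p n.m.x n.n.x ∧ n.m.C c l t n.x ∧ n.n.C c l t n.x

instance (n : N1) (c : CD) (l : ℕ) (t p : ℤ) : Decidable (n.C c l t p) := by
  unfold N1.C; infer_instance

/-- The check of the whole tree. -/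
def C0 (c : CD) (l : ℕ) (t x u v k : ℤ) (n₁ n₂ n₃ : N1) : Prop :=
  Ok2 l t ∧ c.VM l x u n₁.x n₂.x n₃.x ∧ Lf l t x v ∧ n₁.C c l t x ∧ n₂.C c l t x ∧ n₃.C c l t x ∧
    c.a ^ 3 - 5 * c.a = 2 * k ∧
      Odd (n₁.m.v + n₁.n.v + (n₂.m.v + n₂.n.v) + (n₃.m.v + n₃.n.v) + -k * v)

instance (c : CD) (l : ℕ) (t x u v k : ℤ) (n₁ n₂ n₃ : N1) :
    Decidable (C0 c l t x u v k n₁ n₂ n₃) := by unfold C0; infer_instance

variable {t p : ℤ} {e e' e'' : Qbar} {P Q d P₀ : Pt Wu ℂ}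

theorem N2.hf (h : Rt3 F t e e' e'') {n : N2} (k : n.C c l t p) (hd : Dn c Q P d)
    (hQ : F.Rs (xco Q) n.x) (hP : F.Rs (xco P) p) : h.Hf (d + (c.a • Q - P)) n.v := by
  obtain ⟨u, S, S', h1, h2⟩ := hd
  have e : h.Hf (2 • S) n.v ∧ h.Hf (2 • S') n.v := by
    rcases h1.vie.step k.1 hQ hP with j | j
    exacts [⟨h.leaf h1.n2 j.1 k.2.1, h.leaf h1.n3 j.2 k.2.2⟩,
      ⟨h.leaf h1.n2 j.1 k.2.2, h.leaf h1.n3 j.2 k.2.1⟩]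
  rw [← h1.sum]
  rcases h2 with rfl | rfl
  · convert e.1 using 1; abel
  · convert e.2 using 1; abel

theorem N1.hf (h : Rt3 F t e e' e'') {n : N1} (k : n.C c l t p) (hd : Dm c P P₀ d)
    (hP : F.Rs (xco P) n.x) (h0 : F.Rs (xco P₀) p) :
    h.Hf (d + (c.a • (c.a • P - P₀) - 2 • P)) (n.m.v + n.n.v) := by
  obtain ⟨u, Q, Q', d₁, d₂, h1, h2, h3, rfl⟩ := hd
  rw [← h1.sum]
  rcases h1.vie.step k.1 hP h0 with j | j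
  · convert (N2.hf h k.2.1 h2 j.1 hP).add (N2.hf h k.2.2 h3 j.2 hP) using 1; module
  · convert (N2.hf h k.2.1 h3 j.2 hP).add (N2.hf h k.2.2 h2 j.1 hP) using 1; module

/-- The signed sum over the vertices at distance three is not divisible by four. -/
theorem tree {v k : ℤ} {n₁ n₂ n₃ : N1} (hc : C0 c l t a b v k n₁ n₂ n₃)
    {P₁ P₂ P₃ d₁ d₂ d₃ : Pt Wu ℂ} (h0 : H c P₀ P₁ P₂ P₃ u) (n0 : P₀ ≠ 0) (h1 : Dm c P₁ P₀ d₁)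
    (h2 : Dm c P₂ P₀ d₂) (h3 : Dm c P₃ P₀ d₃) (hx : F.Rs (xco P₀) a) (hu : F.Rs u b) {R : EE}
    (hR : F.φ • R = R) : 4 • pmap jC R ≠ d₁ + d₂ + d₃ := by
  obtain ⟨c0, c1, c2, c3, c4, c5, c6, c7⟩ := hc
  obtain ⟨e, e', e'', h⟩ := exists_rt3 F c0
  have key : ∀ {Q₁ Q₂ Q₃ s₁ s₂ s₃ : Pt Wu ℂ}, Dm c Q₁ P₀ s₁ → Dm c Q₂ P₀ s₂ → Dm c Q₃ P₀ s₃ →
      F.Rs (xco Q₁) n₁.x → F.Rs (xco Q₂) n₂.x → F.Rs (xco Q₃) n₃.x →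
      Q₁ + Q₂ + Q₃ = P₁ + P₂ + P₃ → s₁ + s₂ + s₃ = d₁ + d₂ + d₃ →
      4 • pmap jC R ≠ d₁ + d₂ + d₃ := fun {Q₁ Q₂ Q₃ s₁ s₂ s₃} k1 k2 k3 r1 r2 r3 e1 e2 => by
    refine Rt3.Hf.no (h := h) ?_ c7 hR
    convert (((N1.hf h c3 k1 r1 hx).add (N1.hf h c4 k2 r2 hx)).add (N1.hf h c5 k3 r3 hx)).add
      ((h.leaf n0 hx c2).zsmul (-k)) using 1
    have e3 : (c.a ^ 3 - 5 * c.a) • P₀ = (2 * k) • P₀ := by rw [c6]
    linear_combination (norm := module) -e2 - (c.a ^ 2 - 2) • (e1.trans h0.sum) - e3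
  have es := h0.vie.es c1 hx hu
  rcases Fr.Rs.root (x := xco P₁) es.e1 es.e2 es.e3 es.ne (by ring) with j | j | j
  · rcases es.perm j with i | i
    exacts [key h1 h2 h3 j i.1 i.2 rfl rfl, key h1 h3 h2 j i.2 i.1 (by abel) (by abel)]
  · rcases es.rot.perm j with i | i
    exacts [key h3 h1 h2 i.2 j i.1 (by abel) (by abel), key h2 h1 h3 i.1 j i.2 (by abel) (by abel)]
  · rcases es.rot.rot.perm j with i | i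
    exacts [key h2 h3 h1 i.1 i.2 j (by abel) (by abel), key h3 h2 h1 i.2 i.1 j (by abel) (by abel)]

end Pool.Agent.B6.S8
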