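import Pool.Agent.Lib.MP_696deb_nt.B5.PL3
import Pool.Agent.Lib.MP_696deb_nt.B7.S8c

/-! The Hecke correspondence at two in explicit form. -/

set_option autoImplicit false

open PowerSeries Filter Topology Complex Finset

namespace Pool.Agent.B6.S8

open Pool.Agent.Lib.MP_696deb_nt Pool.Agent.B4.GE Pool.Agent.B5

variable {N k l μ m n B : ℕ} {G : ℂ → ℂ} {z : ℂ} {S : ℤ⟦X⟧} {a : ℕ → ℤ}

/-- The norm of a modular form under a Hecke correspondence. -/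
theorem mk_norm (hl : l.Prime) (hN : ¬ l ∣ N) (hG : Mk N k G) :
    Mk N (k * (l + 1)) fun z => ∏ i, sk k (rP l i) G z := by
  have key : ∀ {g : MZ}, g.det = 1 → ∀ {z : ℂ}, 0 < z.im →
      (∏ i, sk k (rP l i) G (act g z)) / den g z ^ (k * (l + 1)) =
        ∏ i, sk k (rP l i * g) G z := fun {g} hg {z} hz => by
    simp only [sk_mul _ (hg ▸ one_ne_zero : g.det ≠ 0) hz, sk.eq_1 k g, prod_div_distrib,
      prod_const, card_univ, Fintype.card_option, Fintype.card_fin, pow_mul]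
  refine ⟨fun z hz => DifferentiableAt.fun_finsetProd fun i _ =>
    hol_sk hG.hol (det_rP_pos hl i) z hz, fun g hg z hz => ?_, fun g hg => ?_⟩
  · obtain ⟨σ, hσ⟩ := (isReps_rP hl).perm hg.1
    choose h h1 h2 using hσ
    have := key hg.1 hz
    rw [div_eq_iff (pow_ne_zero _ (mh_den hg.1 hz))] at this
    rw [this, mul_comm, ← Equiv.prod_comp σ fun i => sk k (rP l i) G z]
    refine congrArg _ (prod_congr rfl fun i _ => ?_)
    rw [h2, hG.sk_mul_eq ⟨h1 _, (rP_cop hl hN (σ i)).1.dvd_of_dvd_mul_right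
      (rP_entry (h2 i) ▸ hg.2.mul_left _)⟩ (det_rP_pos hl _) hz]
  · obtain ⟨σ, hσ⟩ := (isReps_rP hl).perm hg
    choose h h1 h2 using hσ
    refine Bdd.congr (F := fun z => ∏ i, sk k (rP l (σ i)) (sk k (h i) G) z)
      (bdd_prod _ fun i => ?_) fun z hz => ?_
    · have := (Bdd.const (((rP l (σ i) 1 1 : ℤ) : ℂ) ^ k)⁻¹).mul
        ((hG.bd _ (h1 i)).comp_tendsto (tendsto_rP hl (σ i)))
      exact this.congr fun z _ => by rw [sk, den_rP, div_eq_inv_mul]; rfl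
    · refine (key hg hz).trans (prod_congr rfl fun i _ => ?_)
      rw [h2, sk_mul _ (det_rP_pos hl _).ne' hz]

theorem mk_norm2 (hN : ¬ 2 ∣ N) (hG : Mk N k G) :
    Mk N (k * 3) fun z => G (z / 2) * G ((z + 1) / 2) * G (2 * z) :=
  ((mk_norm Nat.prime_two hN hG).smul (2 ^ k * 2 ^ k)).congr fun z _ => by
    simp only [Fintype.prod_option, Fin.prod_univ_two, sk, act_none, act_rP_some, den_rP]
    simp [rP, ut]
    field_simp

theorem qe_half (q : QE G (toC S)) : QE (fun z => G (z + 1 / 2)) (toC (rescale (-1) S)) :=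
  QE.of_hasSum fun z hz => by
    have e : q1 (1 / 2) = -1 := by
      rw [q1, ← Complex.exp_pi_mul_I]
      congr 1
      ring
    have := q.hasSum (z := z + 1 / 2) (by simpa using hz)
    simp only [q1_add, e, mul_pow] at this
    simpa [coeff_rescale, mul_comm, mul_assoc, mul_left_comm] using this

theorem dvd_ex {d : ℕ} (hd : d ≠ 0) (h : ∀ j < n, coeff j S = a j) (σ : ℕ → ℤ⟦X⟧) :
    X ^ n ∣ ex d S - (cE a d (n / d + 1)).ser σ := by
  have := dvd_cE (F := PowerSeries.mk a) hd (coeff_mk · _)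
    (Nat.lt_mul_div_succ n (Nat.pos_of_ne_zero hd)).le σ
  rw [← dvd_sub_left this, sub_sub_sub_cancel_right, X_pow_dvd_iff]
  intro j hj
  simp only [map_sub, ex, coeff_mk, h _ ((Nat.div_le_self j d).trans_lt hj), sub_self]

/-- The values of a family of functions at a point and at its three neighbours. -/
noncomputable def sF (G : ℕ → ℂ → ℂ) (j : ℕ) (w : ℂ) : ℂ :=
  if j % 4 = 0 then G (j / 4) ((2 : ℕ) * w) else if j % 4 = 1 then G (j / 4) w
  else if j % 4 = 2 then G (j / 4) (w + 1 / 2) else G (j / 4) ((4 : ℕ) * w)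

/-- Their expansions. -/
noncomputable def sS (S : ℕ → ℤ⟦X⟧) (j : ℕ) : ℤ⟦X⟧ :=
  if j % 4 = 0 then ex 2 (S (j / 4)) else if j % 4 = 1 then S (j / 4)
  else if j % 4 = 2 then rescale (-1) (S (j / 4)) else ex 4 (S (j / 4))

/-- Approximations. -/
def sD (a : ℕ → ℕ → ℤ) (n j : ℕ) : E :=
  if j % 4 = 0 then cE (a (j / 4)) 2 (n / 2 + 1) else if j % 4 = 1 then cE (a (j / 4)) 1 n
  else if j % 4 = 2 then cE (fun i => (-1) ^ i * a (j / 4) i) 1 n else cE (a (j / 4)) 4 (n / 4 + 1)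

/-- An expression at one of the four points. -/
def sl (e : E) (s : ℕ) : E := e.sb fun i => .v (4 * i + s)

/-- The check of an identity for a norm. -/
def hk (w : ℕ → ℕ) (μ m B : ℕ) (a : ℕ → ℕ → ℤ) (g e₁ e₂ : E) : Bool :=
  g.ok w && e₁.ok w && e₂.ok w && e₁.wt w + g.wt w * 3 == e₂.wt w && decide (e₂.wt w * μ < 12 * m) &&
    chkF (2 * m) B 12 (sD a (2 * m))
      (E.sub (.mul (sl e₁ 0) (.mul (.mul (sl g 1) (sl g 2)) (sl g 3))) (sl e₂ 0))

theorem fn_sub (a b : E) (F : ℕ → ℂ → ℂ) : (a.sub b).fn F z = a.fn F z - b.fn F z := by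
  simp only [E.sub, E.fn]
  push_cast
  ring

theorem hk_eq {w : ℕ → ℕ} {G : ℕ → ℂ → ℂ} {S : ℕ → ℤ⟦X⟧} {a : ℕ → ℕ → ℤ} {g e₁ e₂ : E}
    (hN : Idx N μ) (h2 : ¬ 2 ∣ N) (hG : ∀ i, Mk N (w i) (G i)) (hS : ∀ i, QE (G i) (toC (S i)))
    (ha : ∀ i, ∀ j < 2 * m, coeff j (S i) = a i j) (h : hk w μ m B a g e₁ e₂ = true) (hz : 0 < z.im) :
    e₁.fn G z * (g.fn G (z / 2) * g.fn G ((z + 1) / 2) * g.fn G (2 * z)) = e₂.fn G z := by
  simp only [hk, Bool.and_eq_true, beq_iff_eq, decide_eq_true_eq] at h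
  obtain ⟨⟨⟨⟨⟨o1, o2⟩, o3⟩, o4⟩, o5⟩, h⟩ := h
  have k1 := ((e₁.mk hG o2).mul (mk_norm2 h2 (g.mk hG o1))).sub (o4 ▸ e₂.mk hG o3)
  obtain ⟨T, hT⟩ := k1.qe
  have k2 := chkF_dvd (S := sS S) (fun j => by
    rw [sS, sD]
    split_ifs
    exacts [dvd_ex two_ne_zero (ha _) _, dvd_cE_iff.2 (ha _),
      dvd_cE_iff.2 fun i hi => by rw [coeff_rescale, ha _ i hi], dvd_ex four_ne_zero (ha _) _]) h
  have k3 : ∀ j, QE (sF G j) (toC (sS S j)) := fun j => by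
    unfold sF sS
    split_ifs
    exacts [qe_ex (hS _) two_ne_zero, hS _, qe_half (hS _), qe_ex (hS _) four_ne_zero]
  have k4 : ∀ (e : E) (s : ℕ) (u y : ℂ), e.ok w = true → (∀ i, sF G (4 * i + s) u = G i y) →
      (sl e s).fn (sF G) u = e.fn G y := fun e s u y he h => by
    simpa only [sl, E.fn_sb _ e he, one_pow, one_mul] using
      E.hom (F := fun i => (E.v (4 * i + s)).fn (sF G)) (y := 1) (fun i => by simpa [E.fn] using h i) e he
  have k5 := (hT.expand 2 two_ne_zero).unique (E.qe _ _ _ k3) (F' := (E.sub (.mul (sl e₁ 0)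
    (.mul (.mul (sl g 1) (sl g 2)) (sl g 3))) (sl e₂ 0)).fn (sF G)) fun u _ => by
      simp only [fn_sub, E.fn]
      rw [k4 e₁ 0 u ((2 : ℕ) * u) o2, k4 e₂ 0 u ((2 : ℕ) * u) o3, k4 g 1 u ((2 : ℕ) * u / 2) o1,
        k4 g 2 u (((2 : ℕ) * u + 1) / 2) o1, k4 g 3 u (2 * ((2 : ℕ) * u)) o1] <;>
      · intro i
        simp only [sF, Nat.mul_add_mod, Nat.mul_add_div four_pos]
        norm_num
        try congr 1
        try ring
  have k6 := k1.sturm hN hT (o4 ▸ o5) (fun i hi => by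
    have := congrArg (coeff (2 * i)) k5
    rwa [coeff_map, X_pow_dvd_iff.1 k2 _ (by omega), map_zero, coeff_expand,
      if_pos (dvd_mul_right _ _), Nat.mul_div_cancel_left _ two_pos] at this) hz
  exact sub_eq_zero.1 k6

/-- Homogeneous polynomials in the first two variables. -/
def hm : List ℤ → ℕ → E
  | [], d => .mul (.c 0) (.pw (.v 1) d)
  | c :: _, 0 => .c c
  | c :: L, d + 1 => .add (.mul (.c c) (.pw (.v 1) (d + 1))) (.mul (.v 0) (hm L d))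

theorem fn_hm {G : ℕ → ℂ → ℂ} {x : ℂ} (h : G 0 z = x * G 1 z) : ∀ (L : List ℤ) (d : ℕ),
    L.length ≤ d + 1 → (hm L d).fn G z = G 1 z ^ d * hv x L
  | [], d, _ => by simp [hm, E.fn, hv]
  | [c], 0, _ => by simp [hm, E.fn, hv]
  | _ :: _ :: _, 0, e => by simp at e
  | c :: L, d + 1, e => by
    simp only [hm, E.fn, hv, fn_hm h L d (by simpa using e), h]
    ring

/-- The homogeneous form of a symmetric function. -/
def hs (A B : List ℤ) (s j : ℕ) : E := .add (hm A (s + j)) (.mul (.v 2) (hm B s))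

/-- The check for one value of the variable. -/
def vk (c : CD) (r s j : ℕ) (w : ℕ → ℕ) (μ m B : ℕ) (a : ℕ → ℕ → ℤ) (t : ℤ) : Bool :=
  hk w μ m B a (E.sub (.mul (.c t) (.v 1)) (.v 0)) (hm c.ρ r)
    (.add (E.sub (.mul (.c (t ^ 3)) (.mul (hm c.ρ r) (.pw (.v 1) 3)))
      (.mul (.c (t ^ 2)) (hs c.a₁ c.b₁ s j))) (E.sub (.mul (.c t) (hs c.a₂ c.b₂ s j)) (hs c.a₃ c.b₃ s j)))

/-- The check of the correspondence. -/
def vc (c : CD) (r s j : ℕ) (w : ℕ → ℕ) (μ m B : ℕ) (a : ℕ → ℕ → ℤ) : Bool :=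
  decide (s + j = r + 3 ∧ c.ρ.length ≤ r + 1 ∧ c.a₁.length ≤ s + j + 1 ∧ c.a₂.length ≤ s + j + 1 ∧
    c.a₃.length ≤ s + j + 1 ∧ c.b₁.length ≤ s + 1 ∧ c.b₂.length ≤ s + 1 ∧ c.b₃.length ≤ s + 1) &&
  vk c r s j w μ m B a 0 && vk c r s j w μ m B a 1 && vk c r s j w μ m B a (-1) &&
    vk c r s j w μ m B a 2

theorem vc_vie {w : ℕ → ℕ} {G : ℕ → ℂ → ℂ} {S : ℕ → ℤ⟦X⟧} {a : ℕ → ℕ → ℤ} {c : CD} {r s j : ℕ}
    {x u : ℂ → ℂ} (hN : Idx N μ) (h2 : ¬ 2 ∣ N) (hG : ∀ i, Mk N (w i) (G i))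
    (hS : ∀ i, QE (G i) (toC (S i))) (ha : ∀ i, ∀ j < 2 * m, coeff j (S i) = a i j)
    (h : vc c r s j w μ m B a = true) (h1 : ∀ z : ℂ, 0 < z.im → G 1 z ≠ 0 ∧ G 0 z = x z * G 1 z)
    (hu : G 2 z = u z * G 1 z ^ j) (hz : 0 < z.im) :
    c.Vie (x z) (u z) (x (z / 2)) (x ((z + 1) / 2)) (x (2 * z)) := by
  simp only [vc, Bool.and_eq_true, decide_eq_true_eq] at h
  obtain ⟨⟨⟨⟨⟨l0, l1, l2, l3, l4, l5, l6, l7⟩, t0⟩, t1⟩, t2⟩, t3⟩ := h
  obtain ⟨b0, b1⟩ := h1 z hz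
  have e : ∀ A B : List ℤ, A.length ≤ s + j + 1 → B.length ≤ s + 1 → (hs A B s j).fn G z =
      G 1 z ^ r * (G 1 z ^ 3 * (hv (x z) A + u z * hv (x z) B)) := fun A B i1 i2 => by
    simp only [hs, E.fn, fn_hm b1 _ _ i1, fn_hm b1 _ _ i2, hu]
    rw [← mul_assoc (G 1 z ^ r), ← pow_add, ← l0]
    ring
  have key : ∀ t : ℤ, vk c r s j w μ m B a t = true → hv (x z) c.ρ *
      (G 1 (z / 2) * G 1 ((z + 1) / 2) * G 1 (2 * z)) *
        ((t - x (z / 2)) * (t - x ((z + 1) / 2)) * (t - x (2 * z))) = G 1 z ^ 3 *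
      (t ^ 3 * hv (x z) c.ρ - t ^ 2 * (hv (x z) c.a₁ + u z * hv (x z) c.b₁) +
        t * (hv (x z) c.a₂ + u z * hv (x z) c.b₂) - (hv (x z) c.a₃ + u z * hv (x z) c.b₃)) :=
    fun t k => by
      have := hk_eq hN h2 hG hS ha k hz
      simp only [fn_sub, E.fn, fn_hm b1 _ _ l1, e _ _ l2 l5, e _ _ l3 l6, e _ _ l4 l7,
        (h1 (z / 2) (by simpa using hz)).2, (h1 ((z + 1) / 2) (by simpa using hz)).2,
        (h1 (2 * z) (by simpa using hz)).2] at this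
      refine mul_left_cancel₀ (pow_ne_zero r b0) ?_
      linear_combination (norm := (push_cast; ring1)) this
  have k0 := key _ t0
  have k1 := key _ t1
  have k2 := key _ t2
  have k3 := key _ t3
  push_cast at k0 k1 k2 k3
  have b3 := pow_ne_zero 3 b0
  generalize G 1 z ^ 3 = γ at *
  generalize G 1 (z / 2) * G 1 ((z + 1) / 2) * G 1 (2 * z) = β at *
  have k4 : hv (x z) c.ρ * β = γ * hv (x z) c.ρ := by
    linear_combination (1 / 2) * k0 - (1 / 2) * k1 - (1 / 6) * k2 + (1 / 6) * k3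
  rw [k4] at k0 k1 k2
  exact ⟨mul_left_cancel₀ b3 (by linear_combination k0 - (1 / 2) * k1 - (1 / 2) * k2),
    mul_left_cancel₀ b3 (by linear_combination (1 / 2) * k1 - (1 / 2) * k2),
    mul_left_cancel₀ b3 (by linear_combination -k0)⟩

end Pool.Agent.B6.S8
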