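import Pool.Agent.Lib.MP_696deb_nt.B7.S8d

/-! Certificates for the Hecke correspondence at two in prime level. -/

set_option autoImplicit false

open PowerSeries Filter Topology Complex Finset

namespace Pool.Agent.B6.S8

open Pool.Agent.Lib.MP_696deb_nt Pool.Agent.B4.GE Pool.Agent.B5 Pool.Agent.Shared.Weier

/-- The check that gives more coefficients of a form. -/
def xk (p k j L L' B : ℕ) (K : ℤ) (e : E) (a : ℕ → ℤ) : Bool :=
  ad p j && e.ok bw && e.wt bw == bw j + k && decide (K ≠ 0 ∧ L ≤ L' ∧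
    (bw j + k) * (p + 1) < 12 * (oj p j + L)) &&
  ck p (oj p j + L') B (fun _ => .c 0) (e.sub (.mul (.v j) (.mul (.c K) (cE a 1 L'))))

theorem xk_coeff {p k j L L' B : ℕ} {K : ℤ} {e : E} {a : ℕ → ℤ} {H : ℂ → ℂ} {S : ℤ⟦X⟧}
    (hp : p.Prime) (hH : Mk p k H) (hS : QE H (toC S)) (h1 : ∀ n < L, coeff n S = a n)
    (h : xk p k j L L' B K e a = true) : ∀ n < L', coeff n S = a n := by
  simp only [xk, Bool.and_eq_true, beq_iff_eq, decide_eq_true_eq] at h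
  obtain ⟨⟨⟨⟨hj, o1⟩, o2⟩, K0, l1, l2⟩, h⟩ := h
  have p0 := hp.ne_zero
  have z2 : ∀ i : ℕ, QE ((fun _ _ => 0 : ℕ → ℂ → ℂ) i) (toC ((fun _ => 0 : ℕ → ℤ⟦X⟧) i)) :=
    fun i => by simpa using QE.const 0
  have k1 := ck_dvd (T := fun _ => 0) p0 (fun i => by simp [E.ser]) h
  simp only [E.ser_sub, E.ser] at k1
  have k2 := (dvd_cE_iff (σ := bS p fun _ => 0)).2 fun i (_ : i < L') => coeff_mk i a
  generalize (cE a 1 L').ser _ = P at k1 k2
  have k3 : X ^ L ∣ S - P := by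
    have : X ^ L ∣ S - PowerSeries.mk a := X_pow_dvd_iff.2 fun i hi => by simp [h1 i hi]
    simpa using dvd_add this ((pow_dvd_pow _ l1).trans k2)
  have q1 := (e.qe _ _ (bF_qe p0 z2)).sub ((bF_qe p0 z2 j).mul (hS.smul K))
  have m1 := (o2 ▸ e.mk (bF_mk hp fun _ => mkp_zero) o1).sub
    ((bF_mk hp (fun _ => mkp_zero) j).mul (hH.smul K))
  rw [← toC_C, ← map_mul, ← map_mul, ← map_sub] at q1
  rw [bS_ad hj] at k1 q1
  have k3' : X ^ (oj p j + L) ∣ e.ser (bS p fun _ => 0) -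
      X ^ oj p j * EtS p (j / 32) (j % 32) * (C K * S) := by
    have := mul_dvd_mul ((dvd_refl (X ^ oj p j)).mul_right (EtS p (j / 32) (j % 32)))
      (k3.mul_left (C K))
    rw [← pow_add] at this
    exact (((pow_dvd_pow _ (by omega)).trans k1).sub this).trans (dvd_of_eq (by ring))
  have z0 := fun (z : ℂ) hz => m1.sturm (z := z) (idx_prime hp) q1 l2
    (fun i hi => by rw [coeff_map, X_pow_dvd_iff.1 k3' i hi, map_zero]) hz
  have k4 := toC_inj ((q1.unique (QE.const 0) z0).trans (show _ = toC 0 by simp))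
  rw [sub_eq_zero.1 k4, ← mul_sub, ← mul_sub, mul_assoc, pow_add,
    mul_dvd_mul_iff_left (pow_ne_zero _ X_ne_zero)] at k1
  have k5 : EtS p (j / 32) (j % 32) * (ex 1 PI ^ (2 * (j / 32)) * ex p PI ^ (2 * (j % 32))) = 1 := by
    rw [EtS, mul_mul_mul_comm, ← mul_pow, ← mul_pow, ex_inv p0, ex_inv one_ne_zero]
    simp
  have k6 := k1.mul_left (ex 1 PI ^ (2 * (j / 32)) * ex p PI ^ (2 * (j % 32)))
  rw [← mul_assoc, mul_comm _ (EtS _ _ _), k5, one_mul] at k6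
  intro n hn
  have k7 := X_pow_dvd_iff.1 k6 n hn
  have k8 := X_pow_dvd_iff.1 k2 n hn
  rw [coeff_C_mul, mul_eq_zero, or_iff_right K0, map_sub, sub_eq_zero] at k7
  rw [k7, ← sub_eq_zero.1 ((map_sub _ _ _).symm.trans k8), coeff_mk]

/-- A certificate for the correspondence. -/
structure VC where
  cd : CD
  r : ℕ
  s : ℕ
  j : ℕ
  i : ℕ
  m : ℕ
  B : ℕ
  B' : ℕ
  κ : ℤ
  eA : E
  co : List ℤ
  ao : List ℤ
  l : List (List ℤ)

namespace VC

variable (v : VC) (c : PC)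

/-- The three forms. -/
def e (i : ℕ) : E := if i = 0 then v.eA else if i = 1 then .mul (.c v.κ) (.v v.i)
  else if i = 2 then .mul (.c (v.κ ^ v.j)) (.v 384) else .c 0

/-- Their coefficients. -/
def a (i n : ℕ) : ℤ := (v.l.getD i []).getD n 0

/-- The check of the coefficients. -/
def lk (i : ℕ) : Bool := (v.e i).ok bw && ck c.p (2 * v.m) v.B
  (B5.d2 c.D (v.co.getD · 0) (fun n => c.D * v.ao.getD n 0) (2 * v.m)) ((v.e i).sub (cE (v.a i) 1 (2 * v.m)))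

/-- The checks. -/
def chk : Bool := ad c.p v.i && ad c.p 384 && decide (v.κ ≠ 0 ∧ ¬ 2 ∣ c.p ∧ v.l.length ≤ 3) &&
  v.lk c 0 && v.lk c 1 && v.lk c 2 &&
  c.id2 (hE (P3 (v.e 1) (v.e 0) (v.e 0) [0, 1] [-1] []) (.v 5) c.eB 1 1) &&
  vc v.cd v.r v.s v.j (fun i => (v.e i).wt bw) (c.p + 1) v.m v.B' v.a

/-- The second coordinate. -/
noncomputable def u (p : ℕ) (z : ℂ) : ℂ := Et p 12 0 z / Et p (v.i / 32) (v.i % 32) z ^ v.j

variable {v c}

theorem vie {R : RW c.p c.a c.b c.c} {L : PeriodPair} (h : c.Gd R) (hp : c.p.Prime)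
    (hs : Sw c.a c.b c.c L) (h1 : ∀ n < 2 * v.m, coeff n R.cs = v.co.getD n 0)
    (h2 : ∀ n < 2 * v.m, coeff n R.As = c.D * v.ao.getD n 0) (k : v.chk c = true) {x : ℂ → ℂ}
    (hx : ∀ z, x z = L.weierstrassP (R.F z) - c.a / 12) {z : ℂ} (hz : 0 < z.im) :
    R.F z ∉ L.lattice ∧ v.cd.Vie (x z) (v.u c.p z) (x (z / 2)) (x ((z + 1) / 2)) (x (2 * z)) := by
  simp only [chk, Bool.and_eq_true, decide_eq_true_eq] at k
  obtain ⟨⟨⟨⟨⟨⟨⟨a1, a2⟩, a3, a4, a5⟩, k0⟩, k1⟩, k2⟩, k3⟩, k4⟩ := k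
  have p0 := hp.ne_zero
  have κ0 : (v.κ : ℂ) ≠ 0 := Int.cast_ne_zero.2 a3
  have q := G2_qe (D := c.D) R.qf R.qA
  have kk : ∀ i, (v.e i).ok bw = true ∧ ∀ n < 2 * v.m,
      coeff n ((v.e i).ser (bS c.p (B5.T2 c.D R.cs R.As))) = v.a i n := fun i => by
    by_cases hi : i < 3
    · have : v.lk c i = true := by
        interval_cases i
        exacts [k0, k1, k2]
      simp only [lk, Bool.and_eq_true] at this
      have k5 := ck_dvd p0 (d2_dvd h1 h2) this.2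
      rw [E.ser_sub] at k5
      exact ⟨this.1, dvd_cE_iff.1 k5⟩
    · rw [e, if_neg (by omega), if_neg (by omega), if_neg (by omega)]
      refine ⟨rfl, fun n _ => ?_⟩
      rw [a, List.getD_eq_default v.l _ (by omega)]
      simp [E.ser]
  have e1 : ∀ z, (v.e 1).fn (bF c.p (G2 c.D R.f R.A)) z = v.κ * Et c.p (v.i / 32) (v.i % 32) z :=
    fun z => by simp [e, E.fn, bF_ad a1]
  have key : ∀ z : ℂ, 0 < z.im → R.F z ∉ L.lattice ∧ (v.e 1).fn (bF c.p (G2 c.D R.f R.A)) z ≠ 0 ∧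
      (v.e 0).fn (bF c.p (G2 c.D R.f R.A)) z = x z * (v.e 1).fn (bF c.p (G2 c.D R.f R.A)) z :=
    fun z hz => by
      have n0 := e1 z ▸ mul_ne_zero κ0 (Et_ne p0 hz)
      obtain ⟨r1, r2⟩ := h.rel hp hs k3 hz rfl
      have r3 := r1 (by simpa using n0)
      have r4 := r2 r3 _ (hx z)
      simp [pv, sum_range_succ] at r4
      exact ⟨r3, n0, by linear_combination -r4⟩
  refine ⟨(key z hz).1, vc_vie (idx_prime hp) a4
    (fun i => (v.e i).mk (bF_mk hp (G2_mk p0 h.mf h.mA)) (kk i).1)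
    (fun i => (v.e i).qe _ _ (bF_qe p0 q)) (fun i => (kk i).2) k4 (fun z hz => (key z hz).2) ?_ hz⟩
  have := Et_ne (x := v.i / 32) (y := v.i % 32) p0 hz
  rw [e1, u, mul_pow]
  simp [e, E.fn, bF_ad a2]
  field_simp

theorem u_tau {N r : ℕ} {b : ℤ} {z ω : ℂ} (hN : N ≠ 0) (hz : 0 < z.im)
    (e : N * z ^ 2 + b * z + 1 = 0) (h : ω * z = -1) (hr : Even r)
    (h1 : (r : ZMod 12) * (-b - 3) = 0) (h2 : v.i / 32 * v.j + r = 12) (h3 : v.i % 32 * v.j = r) :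
    v.u N z = ω ^ r := by
  rw [u, ← h2, Et_tau hz e h hr h1, zero_add, div_eq_iff (pow_ne_zero _ (Et_ne hN hz)), Et, Et,
    mul_pow, ← pow_mul, ← pow_mul, h3]

end VC

end Pool.Agent.B6.S8
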