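import Pool.Agent.Lib.MP_696deb_nt.B5.ZFa
import Pool.Agent.Lib.MP_696deb_nt.B7.S8c

/-! The twelve classes of forms of conductor eight over a field of class number one. -/

set_option autoImplicit false

open Finset
open scoped Classical

namespace Pool.Agent.B6.S8

open Pool.Agent.Lib.MP_696deb_nt Pool.Agent.G5 Pool.Agent.B4.GE

/-- The primitive triangular matrices of determinant eight. -/
def I8 : Finset (ℤ × ℤ × ℤ) := {(1, 0, 8), (1, 4, 8), (1, 2, 8), (1, 6, 8), (1, 1, 8), (1, 5, 8),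
  (1, 3, 8), (1, 7, 8), (2, 1, 4), (2, 3, 4), (4, 1, 2), (8, 0, 1)}

/-- The form that belongs to a matrix. -/
def qm (N : ℕ) (b : ℤ) (m : ℤ × ℤ × ℤ) : Fm := fmap (N, b, 1) m.2.2 (-m.2.1) 0 m.1

theorem I8_det : ∀ m ∈ I8, m.1 * m.2.2 = 8 ∧ 0 < m.1 ∧ 0 < m.2.2 := by decide

theorem I8_inj : ∀ m ∈ I8, ∀ n ∈ I8, m.1 = n.1 → m.2.2 = n.2.2 → m.2.2 ∣ m.2.1 - n.2.1 → m = n := by
  decide

theorem I8_ex : ∀ a c n : ZMod 8, n * n = 1 → a * a = 1 ∨ c * c = 1 →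
    ∃ m ∈ I8, m.1 * a + m.2.1 * (n * c) = 0 ∧ m.2.2 * c = 0 := by decide +kernel

variable {N q : ℕ} {b : ℤ} {m n : ℤ × ℤ × ℤ} {Q : Fm} {T : Finset Fm}

theorem qm_fam (hq : b ^ 2 - 4 * N = -q) (hm : m ∈ I8) : Fam N (-(q * 8 ^ 2)) (b * 8) (qm N b m) := by
  have h := (I8_det m hm).1
  refine ⟨⟨m.2.2 ^ 2, by simp [qm, fmap, fval]⟩, ?_, -(m.2.2 * m.2.1), ?_⟩
  · simp only [qm, fmap, fval, fdisc]
    linear_combination (m.1 * m.2.2) ^ 2 * hq - q * (m.1 * m.2.2 + 8) * h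
  · simp only [qm, fmap]
    linear_combination b * h

theorem qm_pos (hN : 0 < N) (hm : m ∈ I8) : 0 < (qm N b m).1 := by
  have h := (I8_det m hm).2.2
  simpa [qm, fmap, fval] using mul_pos (Int.natCast_pos.2 hN) (pow_pos h 2)

theorem qm_root (hq : b ^ 2 - 4 * N = -q) (h0 : 0 < q) (hN : 0 < N) (hm : m ∈ I8) :
    froot (qm N b m) = (m.1 * froot (N, b, 1) + m.2.1) / m.2.2 := by
  obtain ⟨h1, h2, h3⟩ := I8_det m hm
  have d : fdisc (N, b, 1) < 0 := by simp only [fdisc]; omega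
  have e := froot_root d (by simpa using hN)
  have i := im_froot_pos d (by simpa using hN)
  have n0 : (m.2.2 : ℂ) ≠ 0 := by exact_mod_cast h3.ne'
  refine (eq_froot (by rw [(qm_fam hq hm).2.1]; omega) (qm_pos hN hm) ?_ ?_).symm
  · rw [Complex.div_intCast_im]
    simpa using div_pos (mul_pos (Int.cast_pos.2 h2) i) (Int.cast_pos.2 h3)
  · simp only [qm, fmap, fval] at e ⊢
    push_cast at e ⊢
    field_simp
    linear_combination (m.1 : ℂ) ^ 2 * m.2.2 ^ 2 * e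

theorem odd_sq {x : ℤ} (h : Odd x) : (x : ZMod 8) * x = 1 := by
  obtain ⟨y, rfl⟩ := h
  push_cast
  generalize (y : ZMod 8) = t
  revert t
  decide

theorem aniso (hN : Odd N) (hb : Odd b) {x y : ℤ} (k : ℕ)
    (h : 4 ^ k ∣ N * x ^ 2 + b * x * y + y ^ 2) : 2 ^ k ∣ x ∧ 2 ^ k ∣ y := by
  induction k generalizing x y with
  | zero => simp
  | succ k ih =>
    have h2 : 2 ∣ x ∧ 2 ∣ y := by
      have : Even (N * x ^ 2 + b * x * y + y ^ 2) :=
        even_iff_two_dvd.2 (Dvd.dvd.trans (Dvd.intro (2 * 4 ^ k) (by ring)) h)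
      have h1 := Nat.not_even_iff_odd.2 hN
      rw [← even_iff_two_dvd, ← even_iff_two_dvd]
      rcases Int.even_or_odd x with i | i <;> rcases Int.even_or_odd y with j | j <;>
        simp_all only [parity_simps, ← Int.not_even_iff_odd] <;> simp_all
    obtain ⟨⟨x, rfl⟩, y, rfl⟩ := h2
    have := ih (x := x) (y := y) ((mul_dvd_mul_iff_left four_ne_zero).1
      ((dvd_of_eq (by ring)).trans (h.trans (dvd_of_eq (by ring)))))
    simp only [pow_succ']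
    exact ⟨mul_dvd_mul_left _ this.1, mul_dvd_mul_left _ this.2⟩

theorem b_odd (hq : b ^ 2 - 4 * N = -q) (h4 : q % 4 = 3) : Odd b :=
  (Int.odd_pow' two_ne_zero).1 (Int.odd_iff.2 (by omega))

theorem qm_inj (hq : b ^ 2 - 4 * N = -q) (h4 : q % 4 = 3) (h5 : 3 < q) (hN : Odd N) (hm : m ∈ I8)
    (hn : n ∈ I8) (h : G5.FEq N (qm N b m) (qm N b n)) : m = n := by
  obtain ⟨a, e, c, d, h1, h2⟩ := h
  obtain ⟨m1, m2, m3⟩ := I8_det m hm
  obtain ⟨n1, n2, n3⟩ := I8_det n hn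
  refine I8_inj m hm n hn ?_ ?_ ?_ <;>
  · obtain ⟨α, β, δ⟩ := m
    obtain ⟨α', β', δ'⟩ := n
    have k := congrArg (fmap · α' β' 0 δ') h2
    simp only [qm, fmap_fmap] at k m1 m2 m3 n1 n2 n3 ⊢
    generalize (N : ℤ) * c = c at *
    simp only [fmap, fval, Prod.mk.injEq, mul_zero, zero_mul, add_zero, zero_add] at k
    obtain ⟨k1, k2, k3⟩ := k
    obtain ⟨⟨x, hx⟩, z, hz⟩ := aniso hN (b_odd hq h4) 3 (x := (δ * a - β * c) * α') (y := α * c * α')
      ⟨N, by linear_combination -k1 + N * (α' * δ' + 8) * n1⟩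
    obtain ⟨⟨y, hy⟩, w, hw⟩ := aniso hN (b_odd hq h4) 3
      (x := (δ * a - β * c) * β' + (δ * e - β * d) * δ') (y := α * c * β' + α * d * δ')
      ⟨1, by linear_combination -k3 + (α' * δ' + 8) * n1⟩
    have e1 : N * y ^ 2 + b * y * w + w ^ 2 = 1 := mul_left_cancel₀ (a := 64) (by norm_num) (by
      have := congrArg₂ (fun s t => N * s ^ 2 + b * s * t + t ^ 2) hy hw
      linear_combination -this - k3 + (α' * δ' + 8) * n1)
    obtain rfl : y = 0 := by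
      by_contra y0
      have : 1 ≤ y ^ 2 := by have := sq_pos_of_ne_zero y0; omega
      have e2 : (2 * w + b * y) ^ 2 + q * y ^ 2 = 4 := by linear_combination 4 * e1 + y ^ 2 * hq
      have : (5 : ℤ) ≤ q := by omega
      nlinarith [sq_nonneg (2 * w + b * y)]
    have e3 : x * w = 1 := mul_left_cancel₀ (a := 64) (by norm_num) (by
      have := congrArg₂ (· * ·) hx hw
      linear_combination -this + α * c * α' * hy + α * δ * (α' * δ') * h1 + 8 * n1 + α' * δ' * m1)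
    have e4 : z * w = 0 := mul_left_cancel₀ (a := 128) (by norm_num) (by
      have t1 := congrArg₂ (· * ·) hx hw
      have t2 := congrArg₂ (· * ·) hz hw
      linear_combination -k2 - 2 * t2 - b * t1 - 64 * b * e3 + b * (α' * δ' + 8) * n1 -
        (2 * N * ((δ * a - β * c) * α') + b * (α * c * α')) * hy)
    have w0 : w ≠ 0 := right_ne_zero_of_mul_eq_one e3
    obtain rfl : z = 0 := (mul_eq_zero.1 e4).resolve_right w0
    obtain rfl : c = 0 := by simpa [m2.ne', n2.ne'] using hz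
    have e5 : δ * a = x * δ' := mul_right_cancel₀ n2.ne' (by linear_combination hx - x * n1)
    have e6 : α * d = w * α' := mul_right_cancel₀ n3.ne' (by linear_combination hw - w * n1)
    have e7 : x * β' + δ * e - β * d = 0 := mul_right_cancel₀ n3.ne' (by
      linear_combination hy - β' * e5)
    rw [mul_zero, sub_zero] at h1
    rcases Int.eq_one_or_neg_one_of_mul_eq_one' h1 with ⟨rfl, rfl⟩ | ⟨rfl, rfl⟩ <;>
      rcases Int.eq_one_or_neg_one_of_mul_eq_one' e3 with ⟨rfl, rfl⟩ | ⟨rfl, rfl⟩ <;>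
      first | omega | exact ⟨e, by omega⟩ | exact ⟨-e, by linear_combination e7⟩

theorem qm_ex (h4 : q % 4 = 3) (hq : b ^ 2 - 4 * N = -q) (hN : Odd N)
    (h1 : FReps N (-q) b {((N : ℤ), b, (1 : ℤ))}) (hQ : Fam N (-(q * 8 ^ 2)) (b * 8) Q) (h0 : 0 < Q.1)
    (h2 : ¬ (2 ∣ Q.1 ∧ 2 ∣ Q.2.2)) : ∃ m ∈ I8, G5.FEq N (qm N b m) Q := by
  have o1 := (Int.odd_coe_nat N).2 hN
  have hb := b_odd hq h4
  have d0 : fdisc Q < 0 := by rw [hQ.2.1]; omega
  wlog hA : Odd Q.1 generalizing Q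
  · have k : G5.FEq N Q (fmap Q 1 0 (N * 1) 1) := ⟨1, 0, 1, 1, by simp, rfl⟩
    have hB : Even Q.2.1 := by
      obtain ⟨t, e⟩ := hQ.2.2
      exact ⟨N * t + b * 4, by linear_combination e⟩
    have hC : Odd Q.2.2 := Int.not_even_iff_odd.1 fun e =>
      h2 ⟨(Int.not_odd_iff_even.1 hA).two_dvd, e.two_dvd⟩
    have k1 : Odd (fmap Q 1 0 (N * 1) 1).1 := by
      simp only [fmap, fval, mul_one, one_pow]
      exact ((Int.not_odd_iff_even.1 hA).add (hB.mul_right _)).add_odd (hC.mul o1.pow)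
    obtain ⟨m, m1, m2⟩ := this (k.fam hQ) (k.pos d0 h0)
      (fun e => Int.not_even_iff_odd.2 k1 (even_iff_two_dvd.2 e.1)) (k.disc ▸ d0) k1
    exact ⟨m, m1, m2.trans k.symm⟩
  obtain ⟨A, B, C⟩ := Q
  obtain ⟨⟨s, f1⟩, f2, t, f3⟩ := hQ
  simp only [fdisc] at f1 f2 f3 hA h0
  obtain rfl : B = 2 * (N * t + b * 4) := by linear_combination f3
  obtain ⟨u, hu⟩ : 8 ∣ A * A - 1 := (ZMod.intCast_zmod_eq_zero_iff_dvd _ 8).1 (by
    push_cast; rw [odd_sq hA, sub_self])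
  obtain ⟨B, hB⟩ : ∃ B, B = N * t + b * 4 := ⟨_, rfl⟩
  rw [← hB] at f2 ⊢
  obtain ⟨B₁, h3⟩ : ∃ B₁, B₁ = 1 + 2 * u * (4 - B) := ⟨_, rfl⟩
  have h5 : B + A * (A * (4 - B)) = 4 * B₁ := by linear_combination (4 - B) * hu - 4 * h3
  obtain ⟨C₁, h6⟩ : 64 ∣ A * (A * (4 - B)) ^ 2 + 2 * B * (A * (4 - B)) + C := by
    refine IsCoprime.dvd_of_dvd_mul_left (y := A) (IsCoprime.pow_left (m := 6)
      (x := 2) (Int.isCoprime_two_left.2 hA)) ?_
    obtain ⟨r, hr⟩ : ∃ r : ℤ, q = 4 * r + 3 := ⟨q / 4, by omega⟩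
    refine ⟨(u * (4 - B)) ^ 2 + u * (4 - B) + 1 + r, mul_left_cancel₀ four_ne_zero ?_⟩
    linear_combination -f2 + 64 * hr + 4 * (B + A * (A * (4 - B)) + 4 * B₁) * h5 +
      64 * (B₁ + 1 + 2 * u * (4 - B)) * h3
  obtain ⟨_, k1, a, e, c, d, k2, k3⟩ := h1.ex (A, B₁, C₁) ⟨⟨s, f1⟩, mul_left_cancel₀ (a := 64)
    (by norm_num) (by
      simp only [fdisc]
      linear_combination f2 - 4 * (B + A * (A * (4 - B)) + 4 * B₁) * h5 + 4 * A * h6), by
    refine IsCoprime.mul_dvd (Int.isCoprime_two_left.2 o1) ?_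
      (IsCoprime.dvd_of_dvd_mul_left (y := 2 ^ 2) (Int.isCoprime_two_right.2 o1).pow_right
        ⟨t + s * (A * (4 - B)), by linear_combination -h5 + hB + A * (4 - B) * f1⟩)
    exact (Odd.sub_odd ⟨u * (4 - B), by linear_combination h3⟩ hb).two_dvd⟩ h0
  obtain rfl := mem_singleton.1 k1
  obtain ⟨m, m1, m2, m3⟩ := I8_ex a c N (by simpa using odd_sq o1) (by
    rcases Int.even_or_odd c with i | i
    · exact .inl (odd_sq (Int.odd_mul.1 (show Odd (a * d) by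
        rw [eq_add_of_sub_eq k2]; exact odd_one.add_even ((i.mul_left _).mul_left _))).1)
    · exact .inr (odd_sq i))
  obtain ⟨x, hx⟩ := (ZMod.intCast_zmod_eq_zero_iff_dvd (m.1 * a + m.2.1 * (N * c)) 8).1
    (by exact_mod_cast m2)
  obtain ⟨y, hy⟩ := (ZMod.intCast_zmod_eq_zero_iff_dvd (m.2.2 * c) 8).1 (by exact_mod_cast m3)
  have m4 := (I8_det m m1).1
  push_cast at hx hy
  refine ⟨m, m1, G5.FEq.trans (Q := fmap (A, B₁, C₁) 1 0 0 8) ⟨x, m.1 * e + m.2.1 * d, y, m.2.2 * d,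
    mul_left_cancel₀ (a := 8) (by norm_num) (by
      linear_combination -(m.2.2 * d) * hx + (m.1 * e + m.2.1 * d) * N * hy + m.1 * m.2.2 * k2 + m4),
    ?_⟩ (G5.FEq.symm ⟨1, A * (4 - B), 0, 1, by simp, ?_⟩)⟩
  · rw [k3, qm, fmap_fmap, fmap_fmap]
    congr 1
    · exact mul_left_cancel₀ (a := 8) (by norm_num) (by
        linear_combination m.2.2 * hx - m.2.1 * N * hy - a * m4)
    · linear_combination -e * m4
    · exact mul_left_cancel₀ (a := 8) (by norm_num) (by linear_combination m.1 * N * hy - N * c * m4)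
    · linear_combination -d * m4
  · simp only [fmap, fval, Prod.mk.injEq]
    exact ⟨by ring, by linear_combination -2 * h5, by linear_combination -h6⟩

/-- Weighted sums over the forms of conductor eight. -/
theorem sum_I8 {V : Type} [AddCommGroup V] {S : ℂ → V} (hS : Inv0 N S) (h4 : q % 4 = 3)
    (h5 : 3 < q) (hq : b ^ 2 - 4 * N = -q) (hN : Odd N) (h1 : FReps N (-q) b {((N : ℤ), b, (1 : ℤ))})
    (hT : FReps N (-(q * 8 ^ 2)) (b * 8) T) {w : Fm → ℤ}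
    (w1 : ∀ Q R, fdisc Q = -(q * 8 ^ 2) → G5.FEq N Q R → w R = w Q)
    (w2 : ∀ Q : Fm, 2 ∣ Q.1 ∧ 2 ∣ Q.2.2 → w Q = 0) : ∑ Q ∈ T, w Q • S (froot Q) =
      ∑ m ∈ I8, w (qm N b m) • S ((m.1 * froot (N, b, 1) + m.2.1) / m.2.2) := by
  choose! β b1 b2 using fun m (hm : m ∈ I8) => hT.ex _ (qm_fam hq hm) (qm_pos hN.pos hm)
  rw [← sum_subset (s₁ := I8.image β) (fun Q hQ => by
    obtain ⟨m, k, rfl⟩ := mem_image.1 hQ; exact b1 m k) fun Q hQ k => ?_,
    sum_image fun m hm n hn e => qm_inj hq h4 h5 hN hm hn ((b2 m hm).symm.trans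
      ((show β m = β n from e) ▸ b2 n hn))]
  · refine sum_congr rfl fun m hm => ?_
    have d := (hT.fam _ (b1 m hm)).2.1
    rw [w1 _ _ d (b2 m hm), ← qm_root hq (by omega) hN.pos hm,
      (b2 m hm).inv0 hS (by rw [d]; omega) (hT.pos _ (b1 m hm))]
  · rw [w2 Q (by_contra fun j => k ?_), zero_smul]
    obtain ⟨m, m1, m2⟩ := qm_ex h4 hq hN h1 (hT.fam Q hQ) (hT.pos Q hQ) j
    exact mem_image.2 ⟨m, m1, hT.uniq _ (b1 m m1) _ hQ ((b2 m m1).trans m2)⟩

end Pool.Agent.B6.S8
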