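import Pool.Agent.Lib.MP_696deb_nt.B7.CN7b
import Pool.Agent.Lib.MP_696deb_nt.B7.S8g

/-! The tree of two-isogenies on a modular curve of genus one. -/

set_option autoImplicit false

open Finset NumberTheorySymbols
open scoped Classical

namespace Pool.Agent.B6.S8

open Pool.Agent.Lib.MP_696deb_nt Pool.Agent.Lib.MP_696deb_nt.B2 Pool.Agent.G5 Pool.Agent.B4.GE
open Pool.Agent.G7 (gD yD cnd)

/-- A place at which a quadratic integer has a given residue. -/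
theorem exists_fr {l q : ℕ} (hl : l.Prime) (l8 : l % 8 = 1) {b c r : ℤ} {ω : ℂ} (h0 : 0 < q)
    (hq : b ^ 2 - 4 * c = -q) (h : ω ^ 2 - b * ω + c = 0) (hr : (l : ℤ) ∣ r ^ 2 - b * r + c)
    (h1 : ¬ (l : ℤ) ∣ 2 * -q) : ∃ F : Fr l, F.φ ∈ GK q ∧ chi 2 F.φ = 1 ∧ chi (-2) F.φ = 1 ∧
      F.Rs ω r := by
  obtain ⟨o, rfl⟩ : ∃ o, jC o = ω := by
    have e : jC (rt (-q)) ^ 2 = (2 * ω - b) ^ 2 := by
      rw [← map_pow, rt_sq, map_intCast, ← hq]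
      push_cast
      linear_combination -4 * h
    rcases sq_eq_sq_iff_eq_or_eq_neg.1 e with e | e
    · exact ⟨(b + rt (-q)) / 2, by rw [map_div₀, map_add, e, map_intCast, map_ofNat]; ring⟩
    · exact ⟨(b - rt (-q)) / 2, by rw [map_div₀, map_sub, e, map_intCast, map_ofNat]; ring⟩
  have h2 : o ^ 2 - b * o + c = 0 := jC.injective (by simpa using h)
  obtain ⟨w, rfl, hw⟩ : ∃ w : Plc, w.p = l ∧ w.V (o - r) < 1 := by
    obtain ⟨w, rfl⟩ := exists_plc hl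
    by_contra! k
    have k1 := k (cc⁻¹ • w) rfl
    have e := chi_spec (a := -q) (x := 2 * o - b) (by
      rw [← hq]
      push_cast
      linear_combination 4 * h2) cc
    rw [chi_cc (by omega), if_neg (by omega), map_sub, map_mul, map_intCast, map_ofNat] at e
    rw [smul_V, inv_inv, map_sub, map_intCast] at k1
    have k2 := one_le_mul_of_one_le_of_one_le (k w rfl) k1
    rw [← map_mul, show (o - r) * (cc o - r) = (r ^ 2 - b * r + c : ℤ) by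
      push_cast at e ⊢
      linear_combination (o - r) / 2 * e - h2] at k2
    exact w.V_int_eq_one.1 ((w.V_int_le _).antisymm k2) hr
  obtain ⟨φ, hφ⟩ := exists_frob w
  have o1 : Odd w.p := Nat.odd_iff.2 (by omega)
  have : Fact w.p.Prime := ⟨hl⟩
  have n2 : ¬ (w.p : ℤ) ∣ 2 := mt (·.mul_right _) h1
  have n4 : ¬ (w.p : ℤ) ∣ 2 * 2 := fun k =>
    ((Nat.prime_iff_prime_int.1 hl).dvd_or_dvd k).elim n2 n2
  have k0 : φ ∈ GK q := MonoidHom.mem_ker.2 (Units.ext ((chi_frob h1 hφ).trans (by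
    rw [Units.val_one, ← jacobiSym.legendreSym.to_jacobiSym, legendreSym.eq_one_iff _ (mt
      (ZMod.intCast_zmod_eq_zero_iff_dvd _ _).1 (mt (·.mul_left _) h1))]
    refine ⟨2 * r - b, ?_⟩
    have := (ZMod.intCast_zmod_eq_zero_iff_dvd _ _).2 hr
    rw [← hq]
    push_cast at this ⊢
    linear_combination -4 * this)))
  refine ⟨⟨w, φ, rfl, hφ, by omega⟩, k0, Units.ext ((chi_frob n4 hφ).trans ?_),
    Units.ext ((chi_frob (by simpa using n4) hφ).trans ?_), o, rfl, fix_om h2 hq k0, ?_⟩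
  · rw [jacobiSym.at_two o1, ZMod.χ₈_nat_eq_if_mod_eight, l8]
    simp
    omega
  · rw [jacobiSym.at_neg_two o1, ZMod.χ₈'_nat_eq_if_mod_eight, l8]
    simp
    omega
  · have k : Fr.Nr ⟨w, φ, rfl, hφ, by omega⟩ (o - r) 0 := ⟨⟨o - r, hw.le⟩, rfl, by
      rw [Int.cast_zero, IsLocalRing.residue_eq_zero_iff, Valuation.mem_maximalIdeal_iff]
      exact hw⟩
    simpa using k.add (.int r)

theorem CD.Vie.rot {c : CD} {x u x₁ x₂ x₃ : ℂ} (h : c.Vie x u x₁ x₂ x₃) : c.Vie x u x₃ x₁ x₂ :=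
  ⟨by linear_combination h.1, by linear_combination h.2.1, by linear_combination h.2.2⟩

/-- Opposite signs. -/
def Pm (s t : ℤ) : Prop := s = 1 ∧ t = -1 ∨ s = -1 ∧ t = 1

instance (s t : ℤ) : Decidable (Pm s t) := by unfold Pm; infer_instance

/-- The weights of siblings are opposite signs. -/
def Sib (w : ℤ × ℤ × ℤ → ℤ) : Prop := Pm (w (1, 0, 8)) (w (1, 4, 8)) ∧ Pm (w (1, 2, 8)) (w (1, 6, 8)) ∧
  Pm (w (1, 1, 8)) (w (1, 5, 8)) ∧ Pm (w (1, 3, 8)) (w (1, 7, 8)) ∧ Pm (w (2, 1, 4)) (w (2, 3, 4)) ∧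
    Pm (w (4, 1, 2)) (w (8, 0, 1))

instance (w : ℤ × ℤ × ℤ → ℤ) : Decidable (Sib w) := by unfold Sib; infer_instance

variable [Cw]

/-- The Hecke correspondence at two. -/
structure Gm (c : CD) (φ : ℂ → Pt Wu ℂ) (u : ℂ → ℂ) : Prop where
  ne : ∀ z : ℂ, 0 < z.im → φ z ≠ 0
  vie : ∀ z : ℂ, 0 < z.im →
    c.Vie (xco (φ z)) (u z) (xco (φ (z / 2))) (xco (φ ((z + 1) / 2))) (xco (φ (2 * z)))
  sum : ∀ z : ℂ, 0 < z.im → φ (z / 2) + φ ((z + 1) / 2) + φ (2 * z) = c.a • φ z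
  per : ∀ z : ℂ, 0 < z.im → φ (z + 1) = φ z

variable {c : CD} {φ : ℂ → Pt Wu ℂ} {u : ℂ → ℂ} {z y y' : ℂ} {s t s' t' : ℤ} {P Q S S' : Pt Wu ℂ}

omit [Cw] in
theorem im3 (hz : 0 < z.im) : 0 < (z / 2).im ∧ 0 < ((z + 1) / 2).im ∧ 0 < (2 * z).im := by
  simpa using hz

theorem H.rot {P₁ P₂ P₃ : Pt Wu ℂ} {v : ℂ} (h : H c P P₁ P₂ P₃ v) (n : P₁ ≠ 0) :
    H c P P₃ P₁ P₂ v := ⟨h.vie.rot, by rw [← h.sum]; abel, n, h.n2⟩

theorem H.dn {v : ℂ} (h : H c Q P S S' v) (k : Pm s t) : Dn c Q P (s • S + t • S') := by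
  refine ⟨v, S, S', h, ?_⟩
  rcases k with ⟨rfl, rfl⟩ | ⟨rfl, rfl⟩
  exacts [.inl (by module), .inr (by module)]

namespace Gm

theorem up (h : Gm c φ u) (hz : 0 < z.im) :
    H c (φ z) (φ (z / 2)) (φ ((z + 1) / 2)) (φ (2 * z)) (u z) :=
  ⟨h.vie z hz, h.sum z hz, h.ne _ (im3 hz).2.1, h.ne _ (im3 hz).2.2⟩

theorem dn (h : Gm c φ u) (hz : 0 < z.im) :
    H c (φ z) (φ (2 * z)) (φ (z / 2)) (φ ((z + 1) / 2)) (u z) := (h.up hz).rot (h.ne _ (im3 hz).1)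

theorem d1 (h : Gm c φ u) (hz : 0 < z.im) (k : Pm s t) :
    Dn c (φ ((z + 1) / 2)) (φ z) (s • φ ((z + 1) / 4) + t • φ ((z + 3) / 4)) := by
  have := (h.dn (im3 hz).2.1).dn k
  rwa [mul_div_cancel₀ _ two_ne_zero, h.per z hz, show (z + 1) / 2 / 2 = (z + 1) / 4 by ring,
    show ((z + 1) / 2 + 1) / 2 = (z + 3) / 4 by ring] at this

theorem m1 (h : Gm c φ u) (hz : 0 < z.im) (k : Pm s t) (k' : Pm s' t') :
    Dm c (φ z) (φ (2 * z)) (s • φ (z / 4) + t • φ ((z + 2) / 4) +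
      (s' • φ ((z + 1) / 4) + t' • φ ((z + 3) / 4))) := by
  refine ⟨_, _, _, _, _, h.dn hz, ?_, h.d1 hz k', rfl⟩
  have := (h.dn (im3 hz).1).dn k
  rwa [mul_div_cancel₀ _ two_ne_zero, show z / 2 / 2 = z / 4 by ring,
    show (z / 2 + 1) / 2 = (z + 2) / 4 by ring] at this

theorem m2 (h : Gm c φ u) (hz : 0 < z.im) (k : Pm s t) (k' : Pm s' t') :
    Dm c (φ z) (φ (z / 2)) (s • φ ((z + 1) / 4) + t • φ ((z + 3) / 4) +
      (s' • φ ((2 * z + 1) / 2) + t' • φ (2 * (2 * z)))) := by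
  refine ⟨_, _, _, _, _, h.up hz, h.d1 hz k, ?_, rfl⟩
  have := (h.up (im3 hz).2.2).dn k'
  rwa [mul_div_cancel_left₀ _ two_ne_zero] at this

/-- The signed sum over the twelve vertices at distance three. -/
theorem tree (h : Gm c φ u) (hz : 0 < z.im) {w : ℤ × ℤ × ℤ → ℤ} (hw : Sib w) {l : ℕ} {F : Fr l}
    {a b v k : ℤ} {n₁ n₂ n₃ : N1} (hc : C0 c l t a b v k n₁ n₂ n₃) (hx : F.Rs (xco (φ z)) a)
    (hu : F.Rs (u z) b) {R : EE} (hR : F.φ • R = R) :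
    4 • pmap jC R ≠ ∑ m ∈ I8, w m • φ ((m.1 * z + m.2.1) / m.2.2) := by
  obtain ⟨w1, w2, w3, w4, w5, w6⟩ := hw
  have k1 := h.m1 (im3 hz).1 w1 w2
  have k2 := h.m1 (im3 hz).2.1 w3 w4
  have k3 := h.m2 (im3 hz).2.2 w5 w6
  rw [mul_div_cancel₀ _ two_ne_zero] at k1 k2
  rw [h.per z hz] at k2
  rw [mul_div_cancel_left₀ _ two_ne_zero] at k3
  convert S8.tree hc (h.up hz) (h.ne z hz) k1 k2 k3 hx hu hR using 1
  simp only [I8]
  iterate 11 rw [sum_insert (by decide)]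
  simp only [sum_singleton, add_assoc]
  push_cast
  ring_nf

/-- The point of conductor eight is not four times a point of the genus field. -/
theorem seed (h : Gm c φ u) {N q l : ℕ} {b r x₀ x₁ u₀ u₁ : ℤ} (hS : Inv0 N φ) (h4 : q % 4 = 3)
    (h5 : 3 < q) (hq : b ^ 2 - 4 * N = -q) (hN : Odd N) (h1 : FReps N (-q) b {((N : ℤ), b, (1 : ℤ))})
    (hw : ∀ d, d = 2 ∨ d = -2 → Sib fun m => gD d (qm N b m)) {a a' v k : ℤ} {n₁ n₂ n₃ : N1}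
    (hc : C0 c l t a a' v k n₁ n₂ n₃) (hl : l.Prime) (l8 : l % 8 = 1)
    (hr : (l : ℤ) ∣ r ^ 2 - b * r + N ∧ ¬ (l : ℤ) ∣ 2 * -q ∧ (l : ℤ) ∣ x₀ + x₁ * r - a ∧
      (l : ℤ) ∣ u₀ + u₁ * r - a')
    (hx : xco (φ (froot (N, b, 1))) = x₀ + x₁ * (-1 / froot (N, b, 1)))
    (hu : u (froot (N, b, 1)) = u₀ + u₁ * (-1 / froot (N, b, 1))) {d : ℤ} (hd : d = 2 ∨ d = -2)
    {T : Finset Fm} (hT : FReps N (-(q * cnd d ^ 2)) (b * cnd d) T) {R : EE}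
    (hR : ∀ g ∈ GK q, chi d g = 1 → g • R = R) : 4 • pmap jC R ≠ yD φ d T := by
  have n0 : (0 : ℤ) < N := Int.natCast_pos.2 hN.pos
  obtain ⟨F, f1, f2, f3, f4⟩ := exists_fr hl l8 (by omega) hq (om_eq n0 (by omega)) hr.1 hr.2.1
  have e : cnd d = 8 ∧ d % 4 ≠ 1 ∧ B3.cond2 d = 8 ∧ B3.odp d = 1 ∧ d.natAbs.Prime := by
    rcases hd with rfl | rfl <;> exact ⟨rfl, by decide, rfl, rfl, Nat.prime_two⟩
  rw [e.1] at hT
  rw [yD, sum_I8 hS h4 h5 hq hN h1 hT (fun Q R k => G7.Cu.gD_feq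
    ⟨(Int.prime_iff_natAbs_prime.2 e.2.2.2.2).squarefree, by rw [k, e.2.2.1]; simp, by simp [e]⟩)
    fun Q k => by rw [gD, if_pos k.1, G7.Cu.chi2_even e.2.1 k.2, zero_mul]]
  refine h.tree (F := F) (im_froot_pos (by simp only [fdisc]; omega) n0) (hw d hd) hc
    (hx ▸ ((Fr.Rs.int x₀).add ((Fr.Rs.int x₁).mul f4)).congr hr.2.2.1)
    (hu ▸ ((Fr.Rs.int u₀).add ((Fr.Rs.int u₁).mul f4)).congr hr.2.2.2) (hR _ f1 ?_)
  rcases hd with rfl | rfl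
  exacts [f2, f3]

end Gm

end Pool.Agent.B6.S8
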