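import Pool.Agent.Lib.MP_696deb_nt.B6.CEd
import Pool.Agent.Lib.MP_696deb_nt.B6.CMx
import Pool.Agent.Lib.MP_696deb_nt.B7.S8f
import Pool.Agent.Lib.MP_696deb_nt.B7.S8h

/-! The Heegner points of conductor eight on the curves of conductor eleven and nineteen. -/

set_option autoImplicit false

open scoped Classical
open WeierstrassCurve WeierstrassCurve.Affine PowerSeries

namespace Pool.Agent.B6.B7

open Pool.Agent.Lib.MP_696deb_nt Pool.Agent.Lib.MP_696deb_nt.B2 Pool.Agent.B4.GE Pool.Agent.B5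
open Pool.Agent.G7 (cnd yD)
open Pool.Agent.B6.S8

/-- The points for the characters of conductor eight are not divisible by four. -/
def SeedH [Cs] (φ : ℂ → Pt Wu ℂ) (q : ℕ) : Prop := ∃ r : ℤ, 4 * (NN : ℤ) ∣ r ^ 2 + q ∧
  ∀ d : ℤ, d = 2 ∨ d = -2 → ∀ T, G5.FReps NN (-(q * cnd d ^ 2)) (r * cnd d) T → ∀ R : EE,
    (∀ g ∈ GK q, chi d g = 1 → g • R = R) → 4 • pmap jC R ≠ yD φ d T

theorem gm_of [Cw] {c : PC} {v : VC} {R : RW c.p c.a c.b c.c} (h : c.Gd R) (hp : c.p.Prime)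
    {D : MD Wu c.p} (n : New D) (s : Sw c.a c.b c.c D.L) (e : D.F = R.F) (ha : WZ.b₂ = c.a)
    (h1 : ∀ n < 2 * v.m, coeff n R.cs = v.co.getD n 0)
    (h2 : ∀ n < 2 * v.m, coeff n R.As = c.D * v.ao.getD n 0) (k : v.chk c = true)
    (h3 : D.c 2 = v.cd.a) (h4 : ¬ 2 ∣ c.p) : Gm v.cd D.par.φ (v.u c.p) := by
  have k1 := fun z hz => VC.vie h hp s h1 h2 k (fun _ => rfl) (z := z) hz
  have k2 := fun z hz => ce_phi D (k1 z hz).1
  have k3 : ∀ z, D.par.φ z = D.per.unif (R.F z) := fun z => by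
    rw [MD.par_φ, n.k1, Rat.cast_one, one_mul, e]
  refine ⟨fun z hz => k3 z ▸ (k2 z hz).1, fun z hz => ?_, fun z hz => ?_,
    fun z hz => G5.inv0_per D.par.inv0 hz⟩
  · obtain ⟨i1, i2, i3⟩ := im3 hz
    simp only [k3, (k2 _ hz).2, (k2 _ i1).2, (k2 _ i2).2, (k2 _ i3).2, ha]
    exact (k1 z hz).2
  · have := D.par.φ_hecke Nat.prime_two h4 hz
    rw [Fintype.sum_option, Fin.sum_univ_two, act_none, act_rP_some, act_rP_some, add_comm,
      MD.par_a, h3] at this
    simpa using this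

section

attribute [local instance] cs11

theorem md11h : ∃ D : MD Wu NN, New D ∧ SeedK D.par.φ NN 19 ∧ SeedH D.par.φ 19 ∧ D.c 2 = -2 := by
  obtain ⟨R, h, D, n, s, e, d⟩ := ce_md p11 Nat.prime_eleven p11_fin p11_chk rfl rfl rfl (by decide)
    (by decide) Cs.rad (by decide : 3 ≤ 5) tor11 (y := 60) ((equation_iff _ _).2 (by decide))
    ⟨by decide, (cub_fun ▸ B6.tr11).symm⟩ (by decide)
  obtain ⟨r1, r2, r3⟩ := ce_root (N := 11) (b := 5) (by decide) (by decide)
  obtain ⟨o, k⟩ := p11_x h s r1 (by exact_mod_cast r2) r3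
  rw [← e] at o k
  obtain ⟨o1, o2⟩ := ce_phi D o
  obtain ⟨P, k1, k2, k3⟩ := seed11 o1 (o2.trans k)
  have ω := om_eq (N := 11) (b := 5) (by decide) (by decide)
  refine ⟨D, n, ⟨5, _, P, by decide, hrp11, k1, k2.trans (n.phi _), k3⟩, ⟨5, by decide,
    fun _ hd _ hT _ => (gm_of (v := vc11) h Nat.prime_eleven n s e rfl
      (fun i hi => (h.cs i (hi.trans (by decide))).trans (by revert i; decide +kernel))
      (fun i hi => (h.As i (hi.trans (by decide))).trans (by revert i; decide +kernel))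
      vc11_chk (d 2 (by decide)) (by decide)).seed (r := 122) (x₀ := -17) (x₁ := 4) (u₀ := 869)
      (u₁ := -560) D.par.inv0 rfl (by decide) rfl (by decide) ((hrp_iff (by decide)).1 hrp11)
      (by rintro _ (rfl | rfl) <;> decide +kernel) S8.tr11 (by norm_num) rfl (by decide) ?_ ?_ hd hT⟩,
    d 2 (by decide)⟩
  · rw [MD.par_φ, n.k1, Rat.cast_one, one_mul]
    exact_mod_cast o2.trans k
  · refine (VC.u_tau (r := 6) (by decide) r1 r2 r3 (by decide) (by decide) rfl rfl).trans ?_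
    change (-1 / froot (11, 5, 1)) ^ 6 = _ + _ * (-1 / froot (11, 5, 1))
    generalize -1 / froot (11, 5, 1) = t at ω
    push_cast at ω ⊢
    linear_combination (t ^ 4 + 5 * t ^ 3 + 14 * t ^ 2 + 15 * t - 79) * ω

end

section

attribute [local instance] cs19

theorem md19h : ∃ D : MD Wu NN, New D ∧ SeedK D.par.φ NN 67 ∧ SeedH D.par.φ 67 ∧ D.c 2 = 0 := by
  obtain ⟨R, h, D, n, s, e, d⟩ := ce_md p19 (by norm_num [p19]) p19_fin p19_chk rfl rfl rfl
    (by decide) (by decide) Cs.rad (le_refl 3) tor19 (y := 9) ((equation_iff _ _).2 (by decide))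
    ⟨by decide, (cub_fun ▸ B6.tr19).symm⟩ (by decide)
  obtain ⟨r1, r2, r3⟩ := ce_root (N := 19) (b := 3) (by decide) (by decide)
  obtain ⟨o, k⟩ := p19_x h s r1 (by exact_mod_cast r2) r3
  rw [← e] at o k
  obtain ⟨o1, o2⟩ := ce_phi D o
  obtain ⟨P, k1, k2, k3⟩ := seed19 o1 (o2.trans k)
  have ω := om_eq (N := 19) (b := 3) (by decide) (by decide)
  have p : Nat.Prime 19 := by norm_num
  refine ⟨D, n, ⟨3, _, P, by decide, hrp19, k1, k2.trans (n.phi _), k3⟩, ⟨3, by decide,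
    fun _ hd _ hT _ => (gm_of (v := vc19) h p n s e rfl
      (xk_coeff p h.mf R.qf (fun i hi => (h.cs i (hi.trans_le (by decide))).trans
        (by revert i; decide +kernel)) vc19_f)
      (xk_coeff p h.mA R.qA (fun i hi => (h.As i (hi.trans_le (by decide))).trans
        (by revert i; decide +kernel)) vc19_A)
      vc19_chk (d 2 (by decide)) (by decide)).seed (r := 1878) (x₀ := 5) (x₁ := 3) (u₀ := -19)
      (u₁ := 3) D.par.inv0 rfl (by decide) rfl (by decide) ((hrp_iff (by decide)).1 hrp19)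
      (by rintro _ (rfl | rfl) <;> decide +kernel) S8.tr19 (by norm_num) rfl (by decide) ?_ ?_ hd hT⟩,
    d 2 (by decide)⟩
  · rw [MD.par_φ, n.k1, Rat.cast_one, one_mul]
    exact_mod_cast o2.trans k
  · refine (VC.u_tau (r := 2) (by decide) r1 r2 r3 (by decide) (by decide) rfl rfl).trans ?_
    change (-1 / froot (19, 3, 1)) ^ 2 = _ + _ * (-1 / froot (19, 3, 1))
    push_cast at ω ⊢
    linear_combination ω

end

end Pool.Agent.B6.B7
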