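import Pool.Agent.Lib.MP_696deb_nt.B6.GWc
import Pool.Agent.Lib.MP_696deb_nt.B2.MCF

/-! A cocycle with values in the plane that comes from a unit of the cubic field. -/

set_option autoImplicit false

open scoped NNReal Classical
open Finset Matrix

namespace Pool.Agent.B6.B7.S9

open Pool.Agent.Lib.MP_696deb_nt Pool.Agent.Lib.MP_696deb_nt.B2 Pool.Agent.Lib.MP_696deb_nt.B6

/-- The matrix of complex conjugation. -/
def JJ : N2 := !![0, 1; 1, 0]

/-- The involution that fixes the first basis vector. -/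
def UU : N2 := !![1, 1; 0, 1]

theorem n_all : ∀ A C D : N2, A * A + A + 1 = 0 → C * D = 1 →
    C = 1 ∨ C = A ∨ C = A * A ∨ C = JJ ∨ C = JJ * A ∨ C = JJ * (A * A) := by decide +kernel

theorem n_rel : ∀ A : N2, A * A + A + 1 = 0 → A * JJ = JJ * (A * A) ∧ A * (UU * A) = UU ∧
    A * (A * A) = 1 ∧ (UU = JJ ∨ UU = JJ * A ∨ UU = JJ * (A * A)) ∧
    ∀ i j : Fin 4, ![1, A, A * A, JJ] i = ![1, A, A * A, JJ] j → i = j := by decide +kernel

theorem n_fix : ∀ C D : N2, C * D = 1 → C *ᵥ e0 = e0 → C = 1 ∨ C = UU := by decide +kernel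

variable {sig : Gam →* N2} {H : Subgroup Gam} {g h γ : Gam} {a b x y u : Qbar}

theorem act_eq (hx : Fx sig.ker x) (e : sig g = sig h) : g x = h x :=
  (h.apply_symm_apply _).symm.trans (congrArg h (hx (h⁻¹ * g) (by
    rw [MonoidHom.mem_ker, map_mul, e, ← map_mul, inv_mul_cancel, map_one])))

theorem fx_act (hx : Fx sig.ker x) (g : Gam) : Fx sig.ker (g x) := fun h hh =>
  act_eq (g := h * g) hx (by rw [map_mul, hh, one_mul])

/-- Squares in the fixed field. -/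
def Sq (H : Subgroup Gam) (x : Qbar) : Prop := ∃ b, Fx H b ∧ x = b ^ 2

theorem Sq.mul : Sq H x → Sq H y → Sq H (x * y) := fun ⟨a, h, e⟩ ⟨b, k, f⟩ =>
  ⟨a * b, fun g hg => by rw [map_mul, h g hg, k g hg], by rw [e, f, mul_pow]⟩

theorem Sq.div (x0 : x ≠ 0) : Sq H x → Sq H (x * y) → Sq H y := fun ⟨a, h, e⟩ ⟨b, k, f⟩ =>
  ⟨b / a, fun g hg => by rw [map_div₀, h g hg, k g hg], by
    rw [div_pow, ← e, ← f, mul_div_cancel_left₀ _ x0]⟩

theorem Sq.act (g : Gam) : Sq sig.ker x → Sq sig.ker (g x) := fun ⟨a, h, e⟩ =>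
  ⟨g a, fx_act h g, by rw [e, map_pow]⟩

/-- Units of the fixed field. -/
def Un (H : Subgroup Gam) (x : Qbar) : Prop := x ≠ 0 ∧ Fx H x ∧ ∀ w : Plc, w.V x = 1

theorem Un.mul (h : Un H x) (k : Un H y) : Un H (x * y) := ⟨mul_ne_zero h.1 k.1,
  fun g hg => by rw [map_mul, h.2.1 g hg, k.2.1 g hg], fun w => by
    rw [map_mul, h.2.2, k.2.2, mul_one]⟩

theorem Un.act (h : Un sig.ker x) (g : Gam) : Un sig.ker (g x) :=
  ⟨(map_ne_zero g).2 h.1, fx_act h.2.1 g, fun w => h.2.2 (g⁻¹ • w)⟩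

theorem key (hγ : (sig γ).trace = 1) : sig γ * sig γ + sig γ + 1 = 0 :=
  N2.key _ _ (sig_inv sig γ) hγ

theorem ex_int (hc : sig cc = JJ) (hγ : (sig γ).trace = 1) (hx : Fx sig.ker x) (h1 : γ x = x)
    (h2 : cc x = x) (h3 : ∀ w : Plc, w.V x ≤ 1) : ∃ n : ℤ, x = n := by
  obtain ⟨r, rfl⟩ := fx_top (x := x) fun g _ => by
    have := n_all _ _ _ (key hγ) (sig_inv sig g)
    simp only [← hc, ← map_mul] at this
    rcases this with e | e | e | e | e | e
    · exact hx g e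
    all_goals simp only [act_eq hx e, AlgEquiv.mul_apply, h1, h2]
  obtain ⟨n, rfl⟩ := IsIntegrallyClosed.isIntegral_iff.1
    ((isIntegral_algebraMap_iff (x := r) (algebraMap ℚ Qbar).injective).1 (isIntegral_of_V h3))
  exact ⟨n, by simp⟩

theorem tri (hc : sig cc = JJ) (hγ : (sig γ).trace = 1) (hu : Un sig.ker u) (h1 : γ u = u) :
    Sq sig.ker u ∨ Sq sig.ker (-u) ∨ u ^ 2 = -1 := by
  have k := hu.act cc
  have h2 : γ (cc u) = cc u := (act_eq (g := γ * cc) (h := cc * (γ * γ)) hu.2.1 (by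
    simp only [map_mul, hc, (n_rel _ (key hγ)).1])).trans (by
      simp only [AlgEquiv.mul_apply, h1])
  have h3 : cc (cc u) = u := by rw [← AlgEquiv.mul_apply, cc_mul_cc, AlgEquiv.one_apply]
  obtain ⟨n, hn⟩ := ex_int hc hγ (hu.mul k).2.1 (by rw [map_mul, h1, h2])
    (by rw [map_mul, h3, mul_comm]) fun w => ((hu.mul k).2.2 w).le
  obtain ⟨t, ht⟩ := ex_int hc hγ (x := u + cc u)
    (fun g hg => by rw [map_add, hu.2.1 g hg, k.2.1 g hg]) (by rw [map_add, h1, h2])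
    (by rw [map_add, h3, add_comm]) fun w => w.V.map_add_le (hu.2.2 w).le (k.2.2 w).le
  have e1 := congrArg jC hn
  have e2 := congrArg jC ht
  rw [map_mul, jC_cc, Complex.mul_conj, map_intCast] at e1
  rw [map_add, jC_cc, Complex.add_conj, map_intCast] at e2
  have e3 : Complex.normSq (jC u) = n := by exact_mod_cast e1
  have e4 : 2 * (jC u).re = t := by exact_mod_cast e2
  obtain rfl : n = 1 := by
    have n0 : (0 : ℝ) ≤ n := e3 ▸ Complex.normSq_nonneg _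
    lift n to ℕ using by exact_mod_cast n0
    by_contra e
    obtain ⟨p, hp, hd⟩ := Nat.exists_prime_and_dvd (n := n) (by omega)
    obtain ⟨w, rfl⟩ := exists_plc hp
    exact w.V_int_eq_one.1 (hn ▸ (hu.mul k).2.2 w) (Int.natCast_dvd_natCast.2 hd)
  rw [Complex.normSq_apply] at e3
  have e5 : t ^ 2 ≤ 4 := by
    have : (t : ℝ) ^ 2 ≤ 4 := by rw [← e4]; push_cast at e3; nlinarith [mul_self_nonneg (jC u).im]
    exact_mod_cast this
  have f : ∀ a b : ℚ, Fx sig.ker (a + b * u) := fun a b g hg => by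
    rw [map_add, map_mul, hu.2.1 g hg, map_ratCast, map_ratCast]
  have t1 : t ≤ 2 := by nlinarith
  have t2 : -2 ≤ t := by nlinarith
  interval_cases t <;> push_cast at hn ht
  · exact .inr (.inl ⟨_, f (1 / 2) (-1 / 2), by push_cast; linear_combination (hn - u * ht) / 4⟩)
  · exact .inl ⟨_, f 1 1, by push_cast; linear_combination hn - u * ht⟩
  · exact .inr (.inr (by linear_combination u * ht - hn))
  · exact .inr (.inl ⟨_, f 1 (-1), by push_cast; linear_combination hn - u * ht⟩)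
  · exact .inl ⟨_, f (1 / 2) (1 / 2), by push_cast; linear_combination (hn - u * ht) / 4⟩

theorem op_ker (hs : Sm ⊤ sig) : Op sig.ker := by
  obtain ⟨U, u1, -, u3⟩ := hs
  exact Subgroup.isOpen_mono (H₁ := U) (fun g hg =>
    (u3 1 trivial g trivial (by simpa using hg)).symm.trans (map_one sig)) u1

theorem ex_unit (hs : Sm ⊤ sig) (hc : sig cc = JJ) (hγ : (sig γ).trace = 1) :
    ∃ ε, Un sig.ker ε ∧ Fx (P0 sig) ε ∧ ¬ Sq sig.ker (ε * γ ε) := by
  by_contra! k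
  obtain ⟨-, r1, r2, r3, r4⟩ := n_rel _ (key hγ)
  obtain ⟨s, hs'⟩ : ∃ s, sig s = UU := by
    simp only [← hc, ← map_mul] at r3
    rcases r3 with e | e | e <;> exact ⟨_, e.symm⟩
  have k1 : ∀ a, Un sig.ker a → Sq sig.ker (a * s a * γ (a * s a)) := fun a ha =>
    k _ (ha.mul (ha.act s)) fun g hg => by
      rcases n_fix _ _ (sig_inv sig g) hg with e | e
      · exact (ha.mul (ha.act s)).2.1 g e
      · rw [act_eq (ha.mul (ha.act s)).2.1 (e.trans hs'.symm), map_mul, mul_comm,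
          ← AlgEquiv.mul_apply, ha.2.1 (s * s) (by
            rw [MonoidHom.mem_ker, map_mul, hs']; decide +kernel)]
  have k2 : ∀ a, Un sig.ker a → ¬ Sq sig.ker a → ∃ u, Un sig.ker u ∧ Sq sig.ker (u * a) ∧
      ¬ Sq sig.ker u ∧ (Sq sig.ker (-u) ∨ u ^ 2 = -1) := fun a ha h0 => by
    have e1 : γ (s (γ a)) = s a := act_eq (g := γ * (s * γ)) ha.2.1 (by simp only [map_mul, hs', r1])
    have e2 : γ (γ (γ a)) = a := ha.2.1 (γ * (γ * γ)) (by
      simp only [MonoidHom.mem_ker, map_mul, r2])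
    have e3 := (k1 a ha).mul ((k1 _ (ha.act γ)).act γ)
    simp only [map_mul, e1, e2] at e3
    have u1 := (ha.act s).mul ((ha.act s).act γ)
    have u2 := ha.mul ((ha.act γ).mul ((ha.act γ).act γ))
    have e4 : Sq sig.ker (a * (γ a * γ (γ a)) * a) :=
      Sq.div (pow_ne_zero 2 u1.1) ⟨_, u1.2.1, rfl⟩ (by convert e3 using 1; ring)
    have e5 := fun h => h0 (Sq.div u2.1 h e4)
    exact ⟨_, u2, e4, e5, (tri hc hγ u2 (by simp only [map_mul, e2]; ring)).resolve_left e5⟩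
  have o := op_ker hs
  obtain ⟨a, a1, a2⟩ := m_su sig.ker ∅ o (fun g hg e => by
    obtain ⟨x, rfl⟩ := hg.conj
    have := (MonoidHom.normal_ker sig).conj_mem _ e x⁻¹
    rw [show x⁻¹ * (x * cc * x⁻¹) * x⁻¹⁻¹ = cc by group, MonoidHom.mem_ker, hc] at this
    exact absurd this (by decide +kernel)) (by simp [Apart])
  have i4 : 4 ≤ sig.ker.index := by
    have := Nat.finite_of_card_ne_zero o.index_ne_zero
    refine (Nat.card_fin 4).ge.trans (Nat.card_le_card_of_injective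
      (fun i => ((![1, γ, γ * γ, cc] i : Gam) : Gam ⧸ sig.ker)) fun i j e => r4 i j ?_)
    have e1 : ∀ i, ![1, sig γ, sig γ * sig γ, JJ] i = sig (![1, γ, γ * γ, cc] i) := fun i => by
      fin_cases i <;> simp [hc]
    have e2 := congrArg (sig (![1, γ, γ * γ, cc] i) * ·) (MonoidHom.mem_ker.1 (QuotientGroup.eq.1 e))
    simp only [← map_mul, mul_inv_cancel_left, mul_one] at e2
    rw [e1, e1, e2]
  have n1 : ∀ i, ¬ Sq sig.ker (a i) := fun i h => singleton_ne_empty i (a2 {i} (by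
    rwa [prod_singleton]))
  have n2 : ∀ i, Un sig.ker (a i) := fun i =>
    ⟨(a1 i).1, (a1 i).2.1, fun w => (a1 i).2.2 w (by simp [Away])⟩
  obtain ⟨i, j, ij⟩ : ∃ i j : Fin (sig.ker.index / 2 + (∅ : Finset Plc).card), i ≠ j :=
    ⟨⟨0, by omega⟩, ⟨1, by omega⟩, Fin.ne_of_val_ne zero_ne_one⟩
  obtain ⟨u, u1, u2, u3, u4⟩ := k2 _ (n2 i) (n1 i)
  obtain ⟨v, v1, v2, v3, v4⟩ := k2 _ (n2 j) (n1 j)
  have e : Sq sig.ker (u * v) := by
    rcases u4 with u4 | u4 <;> rcases v4 with v4 | v4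
    · simpa using u4.mul v4
    · exact absurd (by simpa using u4.mul ⟨v, v1.2.1, v4.symm⟩) u3
    · exact absurd (by simpa using v4.mul ⟨u, u1.2.1, u4.symm⟩) v3
    · rcases sq_eq_sq_iff_eq_or_eq_neg.1 (u4.trans v4.symm) with rfl | rfl
      · exact ⟨u, u1.2.1, (sq u).symm⟩
      · exact ⟨1, fun g _ => map_one g, by linear_combination -v4⟩
  refine insert_ne_empty i {j} (a2 _ ?_)
  rw [prod_pair ij]
  exact Sq.div (u1.mul v1).1 e (mul_mul_mul_comm u _ v _ ▸ u2.mul v2)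

theorem x3_eq : ∀ f : X3 → Z2, ∑ x, f x • x.1 = 0 → ∀ x y, f x + f y = 0 := by decide +kernel

theorem ex_cls (hs : Sm ⊤ sig) (hc : sig cc = JJ) (hγ : (sig γ).trace = 1) : ∃ c : Gam → W2,
    Coc ⊤ (sg sig) c ∧ (∀ w : Plc, w.p ≠ 2 → ∀ σ ∈ Ine w, sig σ = 1 → c σ = 0) ∧
      ∃ h, sig h = 1 ∧ c h ≠ 0 := by
  obtain ⟨ε, h1, h2, h3⟩ := ex_unit hs hc hγ
  obtain ⟨r, T⟩ := exists_Tv_glob (H := ⊤) hs trivial hγ
  obtain ⟨χ, hχ⟩ := exists_kum (H := ⊤ ⊓ P0 sig) 1 h1.1 fun g hg => h2 g hg.2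
  have e : ∀ h, sig h = 1 → cor sig r (sg sig) (fun g => χ g • e0) h =
      ∑ x, χ ((r x)⁻¹ * h * r x) • x.1 := fun h hh => sum_congr rfl fun x _ => by
    have : pm sig h x = x := Subtype.ext (by rw [pm_val, sg_apply, hh, one_mulVec])
    rw [B6.hc, this, ← T.eq x, sg_apply, sg_apply, mulVec_smul]
  have m : ∀ h, sig h = 1 → ∀ x, (r x)⁻¹ * h * r x ∈ ⊤ ⊓ P0 sig := fun h hh x =>
    ⟨trivial, mem_P0.2 (by rw [sg_apply, map_mul, map_mul, hh, mul_one, ← map_mul, inv_mul_cancel,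
      map_one, one_mulVec])⟩
  refine ⟨cor sig r (sg sig) fun g => χ g • e0, T.cor_coc (act3_sg hs ⊤).toAct0
    ⟨hχ.sm.comp (· • e0), fun g hg k hk => ?_⟩, fun w hw σ hσ h => ?_, ?_⟩
  · beta_reduce
    rw [hχ.coc g hg k hk, cy_one_eq, one_mul, add_smul, sg_apply, mulVec_smul, ← sg_apply,
      mem_P0.1 hg.2]
  · rw [e σ h]
    refine sum_eq_zero fun x _ => ?_
    rw [hχ.unr (w := (r x)⁻¹ • w) hw (h1.2.2 _) _ ⟨m σ h x, mem_Ine_smul.2 (by
      simpa [mul_assoc] using hσ)⟩, zero_smul]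
  by_contra! k
  obtain ⟨ρ, -, e1, e2⟩ := hχ
  refine h3 ⟨ρ * r (pm sig γ x0) ρ, fun h hh => ?_, ?_⟩
  · have e3 := x3_eq _ ((e h hh).symm.trans (k h hh)) x0 (pm sig γ x0)
    have e4 := congrArg (r (pm sig γ x0)) (e2 _ (m h hh (pm sig γ x0)))
    have e5 := e2 _ (m h hh x0)
    rw [T.one, inv_one, one_mul, mul_one] at e3 e5
    rw [← AlgEquiv.mul_apply, ← mul_assoc, mul_inv_cancel_left, AlgEquiv.mul_apply, map_mul,
      b3b_fix] at e4
    rw [map_mul, e4, e5, mul_mul_mul_comm, ← zeta_val_add, e3, ZMod.val_zero, pow_zero, mul_one]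
  · have e3 := h2 _ (T.hc_mem (g := γ) trivial x0).2
    rw [B6.hc, T.one, mul_one] at e3
    rw [mul_pow, ← map_pow, show ρ ^ 2 = ε from e1, ← congrArg (r (pm sig γ x0)) e3,
      ← AlgEquiv.mul_apply, mul_inv_cancel_left]

end Pool.Agent.B6.B7.S9
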