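import Pool.Agent.Lib.MP_696deb_nt.B5.SWb

/-! Split families of forms whose discriminant is not prime to the level. -/

set_option autoImplicit false

open Finset NumberTheorySymbols

namespace Pool.Agent.G7.SW

open Pool.Agent.Lib.MP_696deb_nt hiding Fam wG Wt
open Pool.Agent.B4.GE Pool.Agent.G5 Pool.Agent.G5.SW

/-- The levels `N = P q` with `P = g p`. -/
structure Lw (N P g p q : ℕ) : Prop where
  eq : N = P * q
  hP : (P : ℤ) = g * p
  p1 : 1 < p
  g1 : 1 < g * q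
  gp : IsCoprime (g : ℤ) p
  gq : IsCoprime (g : ℤ) q

/-- Cusps that are equivalent to `1 / g`. -/
def Col (N g : ℕ) (k D : ℤ) : Prop :=
  ∃ (s : ℤ) (γ : MZ), s ≠ 0 ∧ G0 N γ ∧ (k, D) = s • mv γ (1, g)

variable {N P g p q : ℕ} {γ h w w' : MZ} {u x c : V2} {D D' β k k' : ℤ} {R : Fm}

theorem Lw.dvd (H : Lw N P g p q) : P ∣ N := ⟨q, H.eq⟩

theorem Lw.g0 (H : Lw N P g p q) : (g : ℤ) ≠ 0 := by
  have := H.g1
  rintro k
  rw [Nat.cast_eq_zero.1 k] at this
  omega

theorem Lw.q0 (H : Lw N P g p q) : (q : ℤ) ≠ 0 := by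
  have := H.g1
  rintro k
  rw [Nat.cast_eq_zero.1 k] at this
  omega

theorem Lw.P0' (H : Lw N P g p q) : (P : ℤ) ≠ 0 := by
  rw [H.hP]
  exact mul_ne_zero H.g0 (by have := H.p1; omega)

theorem Lw.P0 (H : Lw N P g p q) : P ≠ 0 := Nat.cast_ne_zero.1 H.P0'

theorem Lw.ex (H : Lw N P g p q) (hw : ALm N P w) : ∃ a b c d : ℤ,
    P * a * d - b * (q * c) = 1 ∧ w = !![P * a, b; P * (q * c), P * d] := by
  obtain ⟨h1, ⟨a, ha⟩, ⟨c, hc⟩, d, hd⟩ := hw
  rw [H.eq, Nat.cast_mul, mul_assoc] at hc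
  rw [Matrix.det_fin_two, ha, hc, hd] at h1
  refine ⟨a, w 0 1, c, d, mul_left_cancel₀ H.P0' (by linear_combination h1), ?_⟩
  rw [← ha, ← hc, ← hd]
  exact Matrix.eta_fin_two w

theorem Lw.alm (H : Lw N P g p q) {a b c d : ℤ} (e : P * a * d - b * (q * c) = 1) :
    ALm N P !![P * a, b; P * (q * c), P * d] :=
  ⟨by rw [Matrix.det_fin_two_of]; linear_combination P * e, ⟨a, rfl⟩,
    ⟨c, by rw [H.eq, Nat.cast_mul, mul_assoc]; rfl⟩, d, rfl⟩

theorem Lw.ap1 (H : Lw N P g p q) : Ap2 N P (1, 0) (1, g) (1, 0) := by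
  refine ⟨fun w hw k => ?_, fun w hw k => ?_⟩ <;> obtain ⟨a, b, c, d, e, rfl⟩ := H.ex hw
  · have k1 : q * c = 0 := mul_left_cancel₀ H.P0' (by
      simp only [dt, mv, Matrix.of_apply, Matrix.cons_val', Matrix.cons_val_zero,
        Matrix.cons_val_one, Matrix.cons_val_fin_one] at k
      linear_combination -k)
    exact ne_of_one_lt H.p1 (g * a * d) (by linear_combination e + b * k1 - a * d * H.hP)
  · have k1 : q * c + d * g = 0 := mul_left_cancel₀ H.P0' (by
      simp only [dt, mv, Matrix.of_apply, Matrix.cons_val', Matrix.cons_val_zero,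
        Matrix.cons_val_one, Matrix.cons_val_fin_one] at k
      linear_combination -k)
    have k2 : g * d * (p * a + b) = 1 := by linear_combination e + b * k1 - a * d * H.hP
    have k3 : -(q * c) * (p * a + b) = 1 := by linear_combination k2 - (p * a + b) * k1
    refine ne_of_one_lt H.g1 (-(c * d * (p * a + b) ^ 2)) ?_
    push_cast
    linear_combination (g * d * (p * a + b)) * k3 + k2

theorem Lw.ap2 (H : Lw N P g p q) : Ap2 N P (1, 0) (1, g) (1, g) := by
  refine ⟨H.ap1.2.symm, fun w hw k => ?_⟩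
  obtain ⟨a, b, c, d, e, rfl⟩ := H.ex hw
  obtain ⟨s, t, hst⟩ := H.gp
  have k1 : P * a + b * g - p * (q * c) - P * d = 0 := mul_left_cancel₀ H.g0 (by
    simp only [dt, mv, Matrix.of_apply, Matrix.cons_val', Matrix.cons_val_zero,
      Matrix.cons_val_one, Matrix.cons_val_fin_one] at k
    linear_combination k + q * c * H.hP)
  refine ne_of_one_lt H.p1 (g * a * d - (s * (q * c + g * d - g * a) + b * t) * (q * c)) ?_
  rw [H.hP] at e k1
  linear_combination e + s * (q * c) * k1 - b * (q * c) * hst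

theorem Lw.ap_or (H : Lw N P g p q) (hc : IsCoprime c.1 c.2) :
    Ap N P c (1, 0) ∨ Ap N P c (1, g) := by
  by_contra! k
  obtain ⟨k1, k2⟩ := k
  refine k1 (Ap.symm fun w hw e1 => k2 (Ap.symm fun w' hw' e2 => ?_))
  obtain ⟨a, b, f, d, e, rfl⟩ := H.ex hw
  obtain ⟨a', b', f', d', e', rfl⟩ := H.ex hw'
  obtain ⟨s, t, hst⟩ := hc
  simp only [dt, mv, Matrix.of_apply, Matrix.cons_val', Matrix.cons_val_zero,
    Matrix.cons_val_one, Matrix.cons_val_fin_one] at e1 e2
  have e3 : q * f * c.1 + d * c.2 = 0 := mul_left_cancel₀ H.P0' (by linear_combination -e1)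
  rw [H.hP] at e e' e2
  have e4 : b' * c.2 = p * (q * f' * c.1 + d' * c.2 - g * a' * c.1) :=
    mul_left_cancel₀ H.g0 (by linear_combination e2)
  have c1 : IsCoprime (p : ℤ) c.2 := IsCoprime.of_isCoprime_of_dvd_right (y := q * f)
    ⟨g * a * d, -b, by linear_combination e⟩
    ⟨t * (q * f) - s * d, by linear_combination s * e3 - q * f * hst⟩
  have c2 : IsCoprime (p : ℤ) b' := ⟨g * a' * d', -(q * f'), by linear_combination e'⟩
  have := Int.isUnit_iff_natAbs_eq.1 ((c2.mul_right c1).isUnit_of_dvd ⟨_, e4⟩)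
  have := H.p1
  omega

/-- Parabolic loops meet no loop. -/
theorem Lw.par (H : Lw N P g p q) (hg : G0 N γ) (hh : G0 N h) (hc : IsCoprime c.1 c.2)
    (e : mv γ c = c) (hx : Ap2 N P (1, 0) (1, g) x) :
    II N P x (mv γ x) (1, 0) (mv h (1, 0)) = 0 ∧ II N P x (mv γ x) (1, g) (mv h (1, g)) = 0 := by
  have k : ∀ {y z : V2}, Ap N P y z → Ap2 N P z (mv h z) y := fun k => ⟨k, k.right H.dvd hh⟩
  have k1 : II N P x (mv γ x) (1, 0) (mv h (1, 0)) = II N P x (mv γ x) (1, g) (mv h (1, g)) := by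
    rw [II_symm H.P0 (k hx.1) ((k hx.1).left H.dvd hg),
      II_symm H.P0 (k hx.2) ((k hx.2).left H.dvd hg),
      II_move H.dvd H.P0 hh ⟨hx.1.symm, (hx.1.left H.dvd hg).symm⟩
        ⟨hx.2.symm, (hx.2.left H.dvd hg).symm⟩]
  rw [← k1, and_self]
  rcases H.ap_or hc with k2 | k2
  · rw [II_move H.dvd H.P0 hg (k hx.1) (k k2), e, II_self]
  · rw [k1, II_move H.dvd H.P0 hg (k hx.2) (k k2), e, II_self]

theorem Lw.col (H : Lw N P g p q) (hD : D' ≠ 0) (hc : IsCoprime D' N) (hk : IsCoprime k g) :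
    Col N g k (g * D') := by
  obtain ⟨s, a, b, c, d, hs, rfl, rfl, e⟩ := exists_SL (a := k) (Or.inr hD)
  have e1 : (N : ℤ) = g * (p * q) := by rw [H.eq, Nat.cast_mul, H.hP, mul_assoc]
  rw [e1] at hc
  obtain ⟨x, y, h⟩ := (hk.of_mul_left_left.mul_right
    (⟨d, -b, by linear_combination e⟩ : IsCoprime a c)).mul_left
    ((H.gp.mul_right H.gq).symm.mul_right hc.of_mul_left_left.of_mul_right_right.symm)
  refine ⟨s, _, hs.ne', g0_of (a := a - y * (a * c - 1) * g) (b := y * (a * c - 1))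
    (c := x * (a * c - 1)) (d := c - p * q * (x * (a * c - 1)))
    (by rw [e1]; linear_combination -(a * c - 1) * h), ?_⟩
  simp only [mv, Matrix.of_apply, Matrix.cons_val', Matrix.cons_val_zero, Matrix.cons_val_one,
    Matrix.cons_val_fin_one, Prod.smul_mk, smul_eq_mul, Prod.mk.injEq, e1]
  constructor <;> ring

theorem Col.ap (hp : P ∣ N) (hc : Col N g k D) (h : Ap N P u (1, g)) : Ap N P u (k, D) := by
  obtain ⟨s, γ, hs, hg, e⟩ := hc
  exact e ▸ (h.right hp hg).smul hs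

/-- The conditions on the denominator and on the orientation. -/
structure Sq (N P g p q : ℕ) (D D' β : ℤ) : Prop extends Lw N P g p q where
  pos : 0 < D
  hD : D = g * D'
  cop : IsCoprime D' N
  bq : 2 * (q : ℤ) ∣ β - D
  bp : 2 * (P : ℤ) ∣ β + D

theorem Sq.col (H : Sq N P g p q D D' β) (hk : IsCoprime k g) : Col N g k D :=
  H.hD ▸ H.toLw.col (right_ne_zero_of_mul (H.hD ▸ H.pos.ne')) H.cop hk

theorem Sq.sign (H : Sq N P g p q D D' β) (hw : ALm N P w) (k : ℤ) (u : V2) :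
    so (mv w (1, 0)) (mv w (k, D)) u = (fval (fo P D (k, w)) u.1 u.2).sign := by
  have h0 : (0 : ℤ) < P * P * D := mul_pos (mul_self_pos.2 H.P0') H.pos
  rw [so, dt_mv, hw.det]
  obtain ⟨a, b, c, d, e, rfl⟩ := H.ex hw
  rw [fo_of H.P0, fval_fmap]
  have k1 : ∀ x : ℤ, (P * P * D * x).sign = x.sign := fun x => by
    rw [Int.sign_mul, Int.sign_eq_one_of_pos h0, one_mul]
  refine (congrArg _ ?_).trans (k1 _)
  simp [dt, mv, fval]
  ring

theorem Sq.fam (H : Sq N P g p q D D' β) (hw : ALm N P w) (k : ℤ) :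
    Fam N (D ^ 2) β (fo P D (k, w)) := by
  obtain ⟨a, b, c, d, e, rfl⟩ := H.ex hw
  obtain ⟨s, hs⟩ := H.bq
  obtain ⟨t, ht⟩ := H.bp
  rw [fo_of H.P0, H.eq]
  refine ⟨⟨-(c * (D * d + k * q * c)), ?_⟩, ?_, ⟨a * c * k + b * c * t - a * d * s, ?_⟩⟩
  · simp only [fmap, fval]
    push_cast
    ring
  · rw [fdisc_fmap (by linear_combination e)]
    simp [fdisc]
  · simp only [fmap]
    push_cast
    linear_combination β * e - P * a * d * hs + b * (q * c) * ht

/-- The image under the involution of Fricke. -/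
theorem Lw.fV_fo (H : Lw N P g p q) (hw : ALm N P w) (D k : ℤ) : ∃ a b c d : ℤ,
    a * d - b * c = 1 ∧ ((N : ℤ) * (fo P D (k, w)).2.2, -(fo P D (k, w)).2.1,
      (fo P D (k, w)).1 / N) = fmap (0, D, -(q * k)) a b c d := by
  obtain ⟨a, b, c, d, e, rfl⟩ := H.ex hw
  refine ⟨-(b * q), -d, a * P, c, by linear_combination e, ?_⟩
  rw [fo_of H.P0, H.eq, Nat.cast_mul]
  simp only [fmap, fval, Prod.mk.injEq]
  refine ⟨by ring, by ring, Int.ediv_eq_of_eq_mul_right (mul_ne_zero H.P0' H.q0) (by ring)⟩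

theorem Sq.ex0 (H : Sq N P g p q D D' β) (h : Fam N (D ^ 2) β R) (hx : IsCoprime (R.1 / N) g) :
    ∃ k a b c d : ℤ, P * a * d - b * (q * c) = 1 ∧
      fmap R a b (q * c) (P * d) = (0, D, -(P * k)) := by
  obtain ⟨X, Y, Z⟩ := R
  obtain ⟨⟨x, h1⟩, h2, j, h3⟩ := h
  obtain ⟨s, hs⟩ := H.bq
  obtain ⟨t, ht⟩ := H.bp
  have hc := H.cop
  rw [H.eq, Nat.cast_mul] at h1 h3 hc hx
  simp only [fdisc] at h1 h2 h3 hx
  rw [h1, Int.mul_ediv_cancel_left _ (mul_ne_zero H.P0' H.q0)] at hx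
  have e1 : P * (q * j + t) = D + q * (P * j + s) := by linarith
  have e2 : Y = D + 2 * (q * (P * j + s)) := by linarith
  have c1 : IsCoprime ((P : ℤ) * (q * j + t)) q :=
    e1 ▸ (H.hD ▸ H.gq.mul_left hc.of_mul_right_right).add_mul_left_left _
  have c2 : IsCoprime ((q : ℤ) * (P * j + s)) p := by
    rw [show (q : ℤ) * (P * j + s) = -D + p * (g * (q * j + t)) by
      linear_combination (q * j + t) * H.hP - e1]
    rw [H.hP] at hc
    exact (H.hD ▸ H.gp.mul_left hc.of_mul_right_left.of_mul_right_right).neg_left.add_mul_left_left _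
  obtain ⟨r, a, b, c, d, hg, h4, h5, h6⟩ := exists_SL (a := P * (q * j + t)) (c := -X)
    (by
      by_contra! k
      obtain rfl : x = 0 := mul_left_cancel₀ (mul_ne_zero H.P0' H.q0) (by linarith [k.2])
      rw [k.1] at c1
      have k1 := Int.isUnit_iff_natAbs_eq.1 ((isCoprime_zero_left.1 hx).mul
        (isCoprime_zero_left.1 c1))
      rw [← Nat.cast_mul, Int.natAbs_natCast] at k1
      exact H.g1.ne' k1)
  generalize (q : ℤ) * (P * j + s) = T at *
  have e3 : T * a + Z * c = 0 := mul_left_cancel₀ (mul_ne_zero four_ne_zero hg.ne') (by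
    rw [e2] at h2
    linear_combination h2 - 4 * T * h4 + 4 * T * e1 - 4 * Z * h5)
  obtain ⟨c, rfl⟩ : (q : ℤ) ∣ c := (h4 ▸ c1).of_mul_left_right.symm.dvd_of_dvd_mul_right
    ⟨-(P * x), by linear_combination -h5 - h1⟩
  have e5 : c * r = -(P * x) := mul_left_cancel₀ H.q0 (by linear_combination -h5 - h1)
  have c3 : IsCoprime (g : ℤ) c := hx.symm.of_isCoprime_of_dvd_right
    ⟨-((q * j + t) * d + b * q * x), mul_left_cancel₀ H.P0' (by
      linear_combination c * d * h4 + (1 + b * q * c) * e5 + c * r * h6)⟩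
  have c4 : IsCoprime (P : ℤ) (q * c) := H.hP ▸ (H.gq.mul_right c3).mul_left
    (c2.of_isCoprime_of_dvd_left ⟨-(Z * d + T * b), by linear_combination d * e3 - T * h6⟩).symm
  obtain ⟨d', b', h7⟩ := c4.mul_left (⟨d, -b, by linear_combination h6⟩ : IsCoprime a (q * c))
  refine ⟨-(q * x * b' ^ 2 - Y * b' * d' + Z * P * d' ^ 2), a, -b', c, d',
    by linear_combination h7, ?_⟩
  obtain rfl : X = -(q * c * r) := by linarith
  have e4 : Y = a * r + T := by linarith
  simp only [fmap, fval, Prod.mk.injEq]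
  refine ⟨?_, ?_, ?_⟩
  · linear_combination q * c * e3 + a * (q * c) * e4
  · linear_combination 2 * P * d' * e3 + (a * (P * d') - b' * (q * c)) * e4 + (a * r - T) * h7 -
      h4 + e1
  · linear_combination b' ^ 2 * h1

theorem Sq.exf (H : Sq N P g p q D D' β) (h : Fam N (D ^ 2) β R) (hx : IsCoprime (R.1 / N) g) :
    ∃ x : ℤ × WW N P, x.1 ∈ Ico 0 D ∧ fo P D (x.1, x.2.1) = R := by
  obtain ⟨k, a, b, c, d, e, h1⟩ := H.ex0 h hx
  have e' : P * a * (d + q * c * (k / D)) - (b + P * a * (k / D)) * (q * c) = 1 := by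
    linear_combination e
  refine ⟨(k % D, ⟨_, H.alm e'⟩),
    mem_Ico.2 ⟨Int.emod_nonneg _ H.pos.ne', Int.emod_lt_of_pos _ H.pos⟩, ?_⟩
  have h2 : fmap R a (b + P * a * (k / D)) (q * c) (P * (d + q * c * (k / D))) =
      (0, D, -(P * (k % D))) := by
    have := congrArg (fun Q => fmap Q 1 (P * (k / D)) 0 1) h1
    simp only [fmap_fmap] at this
    convert this using 2
    · ring
    · ring
    · ring
    · ring
    · simp [fmap, fval]
    · simp only [fmap, fval, Int.emod_def, Prod.mk.injEq]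
      constructor <;> ring
  rw [fo_of H.P0, ← h2, fmap_inv (by linear_combination e')]

theorem Sq.uniq (H : Sq N P g p q D D' β) (hw : ALm N P w) (hw' : ALm N P w') (hk : k ∈ Ico 0 D)
    (hk' : k' ∈ Ico 0 D) (h : fo P D (k', w') = fo P D (k, w)) : k' = k ∧ (w' = w ∨ w' = -w) := by
  obtain ⟨a, b, c, d, e, rfl⟩ := H.ex hw
  obtain ⟨a', b', c', d', e', rfl⟩ := H.ex hw'
  have h1 := congrArg (fun Q => fmap Q a' b' (q * c') (P * d')) h
  simp only [fo_of H.P0] at h1
  rw [fmap_inv' (by linear_combination e'), fmap_fmap] at h1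
  obtain ⟨h2, h3, h4⟩ := aut0 H.pos.ne' (by
    linear_combination (P * a' * d' - b' * (q * c')) * e + e') h1.symm
  set y := -(q * c) * b' + a * (P * d') with hy
  have h5 : k - k' = D * ((d * b' - b * d') * y) :=
    mul_left_cancel₀ H.P0' (by linear_combination h4)
  rw [mem_Ico] at hk hk'
  have h6 : k - k' = 0 := Int.eq_zero_of_abs_lt_dvd ⟨_, h5⟩ (abs_lt.2 ⟨by omega, by omega⟩)
  have h7 : d * b' - b * d' = 0 := by
    rw [h6, eq_comm, mul_eq_zero, mul_eq_zero] at h5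
    have := H.pos
    omega
  have k1 : a' = a * (P * d * a' + -b * (q * c')) := by linear_combination -a' * e + b * h2
  have k2 : b' = b * y := by linear_combination -b' * e + a * P * h7
  have k3 : q * c' = q * c * (P * d * a' + -b * (q * c')) := by
    linear_combination -(q * c') * e + P * d * h2
  have k4 : P * d' = P * d * y := by linear_combination -(P * d') * e + q * c * P * h7
  refine ⟨by omega, h3.imp (fun k => ?_) fun k => ?_⟩ <;> rw [k.1] at k1 k3 <;>
    rw [k.2] at k2 k4 <;> rw [k1, k2, k3, k4] <;> simp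

/-- A weight on the family, given by the function `ψ` of the numerator. -/
structure Wg (N P g p q : ℕ) (D D' β : ℤ) (ω : Fm → ℤ) (ψ : ℤ → ℤ) : Prop
    extends Sq N P g p q D D' β where
  wt : Wt N ω (D ^ 2)
  up : ∀ R, ω R ≠ 0 → Fam N (D ^ 2) β R ∧ IsCoprime (R.1 / N) g
  val : ∀ k w, ALm N P w → ω (fo P D (k, w)) = ψ k
  unit : ∀ k, ψ k ≠ 0 → IsCoprime k g

variable {ω : Fm → ℤ} {ψ : ℤ → ℤ}

theorem Wg.ne (H : Wg N P g p q D D' β ω ψ) (h : ω R ≠ 0) (hu : Ap2 N P (1, 0) (1, g) u) :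
    fval R u.1 u.2 ≠ 0 := by
  obtain ⟨⟨k, w, hw⟩, -, rfl⟩ := H.exf (H.up R h).1 (H.up R h).2
  rw [Ne, ← Int.sign_eq_zero_iff_zero, ← H.sign hw, so, Int.sign_eq_zero_iff_zero, dt_mv, hw.det,
    dt_swap u]
  exact mul_ne_zero (mul_ne_zero (mul_ne_zero H.P0' (by simpa [dt] using H.pos.ne'))
    ((H.toSq.col (H.unit k (H.val k w hw ▸ h))).ap H.dvd hu.2 w hw)) (neg_ne_zero.2 (hu.1 w hw))

theorem Wg.ne1 (H : Wg N P g p q D D' β ω ψ) (h : ω R ≠ 0) : R.1 ≠ 0 := by
  simpa [fval] using H.ne h H.ap1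

/-- The period homomorphism of the family as a sum of crossing numbers. -/
theorem Wg.two_thw (H : Wg N P g p q D D' β ω ψ) (hu : Ap2 N P (1, 0) (1, g) u) :
    2 * thw ω u.1 u.2 = ∑ k ∈ Ico 0 D, ψ k * II N P (1, 0) u (1, 0) (k, D) := by
  obtain ⟨X, h1, h2⟩ := two_one (φ := fun x : ℤ × WW N P => fo P D (x.1, x.2.1))
    (n := fun x => (x.1, ⟨x.2.1 * -1, alm_mul H.dvd x.2.2 ⟨by simp [Matrix.det_fin_two], by simp⟩⟩))
    (P := fun x => x.1 ∈ Ico 0 D)
    (thw_finite H.wt (fun R h => H.ne1 h) fun R h => H.ne h hu)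
    (fun R h => H.exf (H.up R (left_ne_zero_of_mul h)).1 (H.up R (left_ne_zero_of_mul h)).2)
    (fun x y hx hy h => by
      obtain ⟨k1, k2⟩ := H.uniq x.2.2 y.2.2 hx hy h
      exact k2.imp (fun k => Prod.ext k1 (Subtype.ext k)) fun k =>
        Prod.ext k1 (Subtype.ext (by simpa using k)))
    fun ⟨k, w, hw⟩ hk => by
      obtain ⟨a, b, c, d, e, rfl⟩ := H.ex hw
      refine ⟨fun h => ?_, hk, ?_⟩
      · have h1 := congrArg (fun x : ℤ × WW N P => x.2.1 0 1) h
        simp at h1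
        obtain rfl : b = 0 := by omega
        exact ne_of_one_lt H.p1 (g * a * d) (by linear_combination e - a * d * H.hP)
      · dsimp only
        rw [show !![P * a, b; P * (q * c), P * d] * -1 = !![P * -a, -b; P * -(q * c), P * -d] by
          simp, fo_of H.P0, fo_of H.P0]
        simp [fmap, fval]
  rw [thw, ← h2, ← sum_finsum_eq (S := Ico 0 D) (F := fun k (w : WW N P) =>
    ω (fo P D (k, w.1)) * ((fo P D (k, w.1)).1.sign -
      (fval (fo P D (k, w.1)) u.1 u.2).sign)) (fun x hx => ((h1 x).1 hx).1)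
    fun k hk w h => (h1 (k, w)).2 ⟨hk, h⟩]
  refine sum_congr rfl fun k _ => ?_
  rw [II, mul_finsum]
  refine finsum_congr fun w => ?_
  rw [H.val k _ w.2, cr, H.sign w.2, H.sign w.2]
  simp [fval]

end Pool.Agent.G7.SW
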