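import Pool.Agent.Lib.MP_696deb_nt.B5.SWc
import Pool.Agent.Lib.MP_696deb_nt.B3.Kro

/-! The Hecke recursion for sums of values at cusps, twisted by a primitive character. -/

set_option autoImplicit false

open Finset Filter Topology

namespace Pool.Agent.G7.SW

open Pool.Agent.Lib.MP_696deb_nt Pool.Agent.B4.GE Pool.Agent.G5 Pool.Agent.G5.SW
open Pool.Agent.Lib.MP_696deb_nt.B3 (PChr)

/-- The twisted sums of values at cusps. -/
noncomputable def Lx (A : ℕ) (χ : ℤ → ℤ) (G : ℂ → ℂ) (m : ℕ) : ℂ :=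
  ∑ k ∈ range (A * m), (χ k : ℂ) * cv G k (A * m : ℕ)

variable {N A l m : ℕ} {χ : ℤ → ℤ} {G : ℂ → ℂ} {t : HW} {a : ℕ →₀ ℤ}

theorem chr_shift (h : PChr A χ) (k j m : ℕ) : χ ((k + j * (A * m) : ℕ) : ℤ) = χ k :=
  h.per _ _ ⟨j * m, by push_cast; ring⟩

/-- A primitive character is orthogonal to the functions with a smaller period. -/
theorem chr_orth {V : Type*} [CommRing V] [NoZeroDivisors V] [CharZero V] {A' : ℕ}
    (h : PChr (l * A') χ) (hl : l.Prime) (hm : m ≠ 0) (e : ¬ l ∣ m) {φ : ℕ → V}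
    (hφ : Function.Periodic φ (A' * m)) : ∑ k ∈ range (l * A' * m), (χ k : V) * φ k = 0 := by
  obtain ⟨u, ⟨s, hs⟩, hu⟩ := h.prim l A' hl rfl
  obtain ⟨x, y, hxy⟩ : IsCoprime (m : ℤ) l :=
    Nat.isCoprime_iff_coprime.2 (hl.coprime_iff_not_dvd.2 e).symm
  have l0 : (l : ℤ) ≠ 0 := Nat.cast_ne_zero.2 hl.ne_zero
  obtain ⟨r, hr⟩ := Int.eq_ofNat_of_zero_le (Int.emod_nonneg (x * s) l0)
  have h1 : χ ((1 + r * (A' * m) : ℕ) : ℤ) = -1 := by
    rw [← hu]
    refine h.per _ _ ⟨-(x * s / l * m + s * y), ?_⟩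
    have := Int.emod_add_mul_ediv (x * s) l
    push_cast
    linear_combination -hs + A' * s * hxy + A' * m * this - A' * m * hr
  have h2 : (l * A' * m).Coprime (1 + r * (A' * m)) := by
    refine Nat.Coprime.mul_left (Nat.isCoprime_iff_coprime.1 (h.cop (by rw [h1]; decide)).symm) ?_
    rw [← mul_assoc]
    exact (Nat.coprime_add_mul_right_right m 1 _).2 (Nat.coprime_one_right m)
  have h3 := sum_affine (f := fun k : ℕ => (χ k : V) * φ k) (mul_ne_zero h.ne hm) (fun k => by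
    have k1 := chr_shift h k 1 m
    have k2 := hφ.nat_mul l k
    rw [one_mul] at k1
    rw [Nat.cast_id, ← mul_assoc] at k2
    beta_reduce
    rw [k1, k2]) h2 0
  rw [sum_congr rfl (g := fun k : ℕ => -((χ k : V) * φ k)) fun k _ => by
    have k2 := hφ.nat_mul (k * r) k
    rw [Nat.cast_id] at k2
    beta_reduce
    rw [zero_add, Nat.cast_mul k, h.mul, h1, mul_add, mul_one, ← mul_assoc k, k2]
    push_cast
    ring, sum_neg_distrib] at h3
  exact self_eq_neg.1 h3.symm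

theorem chr_sum (h : PChr A χ) (h1 : 1 < A) (m : ℕ) : ∑ k ∈ range (A * m), χ k = 0 := by
  obtain ⟨l, hl, A', rfl⟩ := Nat.exists_prime_and_dvd h1.ne'
  have h2 := chr_orth (V := ℤ) h hl one_ne_zero hl.not_dvd_one (φ := fun _ => 1) fun _ => rfl
  rw [sum_range_mul]
  refine sum_eq_zero fun j _ => ?_
  rw [← h2, mul_one]
  exact sum_congr rfl fun k _ => by simpa using chr_shift h k j 1

theorem Lx_Tf (hN : N ≠ 0) (hG : Ci N G) (hl : l.Prime) (e : ¬ l ∣ N) (hA : PChr A χ)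
    (hm : m ≠ 0) : Lx A χ (Tf ℂ l G) m = Lx A χ G (l * m) +
      if l ∣ m then (l : ℤ) • Lx A χ G (m / l) else χ l • Lx A χ G m := by
  have A0 := hA.ne
  have l0 : (l : ℤ) ≠ 0 := Nat.cast_ne_zero.2 hl.ne_zero
  have per : ∀ {D : ℕ}, D ≠ 0 → ∀ k j : ℕ, cv G (k + j * D : ℕ) D = cv G k D := fun hD k j => by
    rw [Nat.cast_add, Nat.cast_mul, cv_per hN hG (Nat.cast_ne_zero.2 hD)]
  have sc : ∀ (D : ℕ) (k : ℤ), cv G (l * k) (D * l : ℕ) = cv G k D := fun D k => by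
    rw [Nat.cast_mul, mul_comm (D : ℤ), cv_scale G l0]
  simp only [Lx, cv_Tf hN hG hl e (Nat.cast_ne_zero.2 (mul_ne_zero A0 hm)), mul_add,
    sum_add_distrib]
  rw [add_comm]
  congr 1
  · rw [show A * (l * m) = A * m * l by ring, sum_range_mul _ (A * m) l, sum_comm]
    refine sum_congr rfl fun k _ => ?_
    rw [mul_sum]
    refine sum_congr rfl fun j _ => ?_
    rw [chr_shift hA, Nat.cast_mul _ l, mul_comm _ (l : ℤ), Nat.cast_add, Nat.cast_mul j]
  split_ifs with h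
  · obtain ⟨m, rfl⟩ := h
    rw [Nat.mul_div_cancel_left _ hl.pos, show A * (l * m) = A * m * l by ring, sum_range_mul]
    simp only [sc, chr_shift hA, per (mul_ne_zero A0 (right_ne_zero_of_mul hm))]
    rw [sum_const, card_range, natCast_zsmul]
  by_cases h' : l ∣ A
  · rw [hA.zero l fun k => hl.coprime_iff_not_dvd.1 (Nat.isCoprime_iff_coprime.1 k) h', zero_smul]
    obtain ⟨A, rfl⟩ := h'
    refine chr_orth hA hl hm h (φ := fun k : ℕ => cv G (l * k) (l * A * m : ℕ)) fun k => ?_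
    have := per (mul_ne_zero (right_ne_zero_of_mul A0) hm) k 1
    rw [one_mul] at this
    beta_reduce
    rw [show l * A * m = A * m * l by ring, sc, sc, this]
  · have c := hl.coprime_iff_not_dvd.2 h'
    have c1 : (χ l : ℂ) ^ 2 = 1 := by exact_mod_cast hA.sq (Nat.isCoprime_iff_coprime.2 c)
    rw [← sum_affine (f := fun x : ℕ => (χ x : ℂ) * cv G x (A * m : ℕ)) (r := l)
      (mul_ne_zero A0 hm) (fun x => by
        have h1 := chr_shift hA x 1 m
        have h2 := per (mul_ne_zero A0 hm) x 1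
        rw [one_mul] at h1 h2
        beta_reduce
        rw [h1, h2])
      (c.mul_right (hl.coprime_iff_not_dvd.2 h)).symm 0, smul_sum]
    refine sum_congr rfl fun k _ => ?_
    rw [zero_add, Nat.cast_mul k, hA.mul, mul_comm (k : ℤ), zsmul_eq_mul]
    push_cast
    linear_combination -(χ k * cv G (l * k) (A * m)) * c1

theorem Lx_hf (hN : N ≠ 0) (hA : PChr A χ) (ht : t ∈ HA N) (hG : Ci N G) (h : Sup N a) :
    cmb (Lx A χ (hf ℂ t G)) a = cmb (Lx A χ G) (ha (fun l => χ l) t a) := by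
  have d0 : ∀ {m : ℕ}, m ≠ 0 → ((A * m : ℕ) : ℤ) ≠ 0 := fun hm =>
    Nat.cast_ne_zero.2 (mul_ne_zero hA.ne hm)
  have key : ∀ (t : HW) (G : ℂ → ℂ) {a : ℕ →₀ ℤ}, Sup N a → (∀ m : ℕ, m ≠ 0 → m.Coprime N →
      Lx A χ (hf ℂ t G) m = cmb (Lx A χ G) (ha (fun l => χ l) t (.single m 1))) →
      cmb (Lx A χ (hf ℂ t G)) a = cmb (Lx A χ G) (ha (fun l => χ l) t a) := fun t G a h e =>
    h.ind (p := fun a => cmb (Lx A χ (hf ℂ t G)) a = cmb (Lx A χ G) (ha (fun l => χ l) t a))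
      (by simp) (fun m c h0 h1 => by
        rw [cmb_single, e m h0 h1, ← map_smul, ← map_smul, Finsupp.smul_single_one])
      fun b b' h1 h2 => by simp only [map_add, h1, h2]
  revert G a
  refine HA_ind (p := fun t => ∀ {G : ℂ → ℂ} {a : ℕ →₀ ℤ}, Ci N G → Sup N a →
    cmb (Lx A χ (hf ℂ t G)) a = cmb (Lx A χ G) (ha (fun l => χ l) t a)) ht
    (fun l hl e G a hG h => key _ _ h fun m h0 _ => ?_) (fun c G a hG h => key _ _ h fun m h0 _ => ?_)
    (fun s t hs ht h1 h2 G a hG h => key _ _ h fun m h0 hm => ?_) fun s t hs ht h1 h2 G a hG h => ?_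
  · rw [hf_tl, ha_tl, Lx_Tf hN hG hl e hA h0, Ta_single, one_smul, map_add, cmb_single, one_smul]
    split_ifs <;> rw [cmb_single]
  · rw [ha_int, map_smul, cmb_single, one_smul, Lx, Lx, smul_sum]
    refine sum_congr rfl fun k _ => ?_
    rw [cv_eq hN (hG.hf hN (Subalgebra.algebraMap_mem _ c)) (d0 h0) (G' := fun z => c * G z)
      ((cv_lim1 hN hG (d0 h0) k).const_mul _) fun z _ => by rw [hf_int, zsmul_eq_mul],
      zsmul_eq_mul, mul_left_comm]
  · rw [ha_add, map_add (cmb _), ← h1 hG (.single h0 hm 1), ← h2 hG (.single h0 hm 1), cmb_single,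
      cmb_single, one_smul, one_smul, Lx, Lx, Lx, ← sum_add_distrib]
    refine sum_congr rfl fun k _ => ?_
    rw [cv_eq hN (hG.hf hN (add_mem hs ht)) (d0 h0) (G' := fun z => hf ℂ s G z + hf ℂ t G z)
      ((cv_lim1 hN (hG.hf hN hs) (d0 h0) k).add (cv_lim1 hN (hG.hf hN ht) (d0 h0) k))
      fun z _ => (hf_add _ _ _ _).symm, mul_add]
  · rw [hf_mul, h1 (hG.hf hN ht) h, h2 hG (h.ha hs), ← Module.End.mul_apply, ← (ha_comm hs ht).eq,
      map_mul]

end Pool.Agent.G7.SW
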