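import Pool.Agent.Lib.MP_696deb_nt.B7.SW7a
import Pool.Agent.Lib.MP_696deb_nt.B7.SW7b
import Pool.Agent.Lib.MP_696deb_nt.B7.HW7a
import Pool.Agent.Lib.MP_696deb_nt.B5.SWd

/-! The class of the split family for an arbitrary character, and its vanishing. -/

set_option autoImplicit false

open Finset NumberTheorySymbols Filter Topology

namespace Pool.Agent.G7

namespace SW

open Pool.Agent.Lib.MP_696deb_nt hiding Fam wG Geo Wt
open Pool.Agent.B4.GE Pool.Agent.G5.SW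
open Pool.Agent.G5 (Ci ALm Fam)
open Pool.Agent.Lib.MP_696deb_nt.B3 (kro odp cond2 pchr_kro)

variable {N P g p q m : ℕ} {γ : MZ} {u u' : V2} {d k D s : ℤ} {X : Dat} {Q : Fm}

theorem Lw.split (H : Lw N P g p q) (hu : Ap2 N P (1, 0) (1, g) u)
    (hu' : Ap2 N P (1, 0) (1, g) u') (hs : s ≠ 0) (hg : G0 N γ) :
    II N P u u' (1, 0) (s • mv γ (1, g)) =
      II N P u u' (1, 0) (1, g) + II N P u u' (1, g) (mv γ (1, g)) := by
  have k1 : Ap2 N P u u' (1, 0) := ⟨hu.1.symm, hu'.1.symm⟩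
  have k2 : Ap2 N P u u' (1, g) := ⟨hu.2.symm, hu'.2.symm⟩
  have k3 := II_add k1 k2 (k2.left H.dvd hg)
  rw [II_symm H.P0 k1 k2, II_symm H.P0 k2 (k2.left H.dvd hg), II_symm H.P0 k1 (k2.left H.dvd hg)]
    at k3
  rw [II_smul hs]
  omega

/-- The class dual to a loop. -/
theorem Lw.dual (H : Lw N P g p q) (hN : N ≠ 0) (hg : G0 N γ) : ∃ (G : ℂ → ℂ) (C : ℝ), Ci N G ∧
    ∀ k D : ℤ, D ≠ 0 → Col N g k D →
      (II N P (1, 0) (mv γ (1, 0)) (1, 0) (k, D) : ℝ) = C + (cv G k D).re := by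
  have k1 : Ap2 N P (1, 0) (mv γ (1, 0)) (1, g) := ⟨H.ap2.1, H.ap2.1.right H.dvd hg⟩
  obtain ⟨G, hG, h1⟩ := exists_ci hN
    (θ := fun h => -(II N P (1, g) (mv h (1, g)) (1, 0) (mv γ (1, 0)) : ℤ))
    (fun h h' hh hh' => by
      rw [II_mul H.dvd H.P0 hh hh' k1]
      push_cast
      ring)
    fun h c hh hc e => by rw [(H.par hh hg hc e H.ap2).1, Int.cast_zero, neg_zero]
  refine ⟨G, II N P (1, 0) (mv γ (1, 0)) (1, 0) (1, g) - (cv G 1 g).re, hG, fun k D hD hc => ?_⟩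
  obtain ⟨s, h, hs, hh, e⟩ := hc
  obtain ⟨c, h2⟩ := hG.inv h hh
  have e1 : k = s * (mv h (1, g)).1 := congrArg Prod.fst e
  have e2 : D = s * (mv h (1, g)).2 := congrArg Prod.snd e
  have h3 := h1 h hh Complex.I (by simp)
  rw [h2 _ (by simp), Complex.add_re, add_right_inj, II_symm H.P0 k1 (k1.left H.dvd hh)] at h3
  rw [e, H.split H.ap1 (H.ap1.left H.dvd hg) hs hh, e1, e2, cv_scale G hs,
    cv_act hN hG (hh.1 ▸ one_pos) h2 H.g0 (right_ne_zero_of_mul (e2 ▸ hD)),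
    Complex.add_re, h3]
  push_cast
  ring

theorem gD_zero (h : Squarefree d) (C k : ℤ) : gD d (0, C, k) = kro d k := by
  rw [gD, if_pos (dvd_zero _), kro, jac_eq_prod _ (B3.odp_sqf h)]
  exact congrArg _ (prod_congr rfl fun p _ => if_pos (dvd_zero _))

theorem gD_cop (h : Squarefree d) (ho : Odd g) (hg : g ∣ cnd d) (hQ : (g : ℤ) ∣ Q.1)
    (k : gD d Q ≠ 0) : IsCoprime Q.2.2 g := by
  refine Int.isCoprime_iff_gcd_eq_one.2 (Nat.eq_one_iff_not_exists_prime_dvd.2 fun p hp j => ?_)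
  replace j := Int.natCast_dvd_natCast.2 j
  have j1 := Int.natCast_dvd_natCast.1 (j.trans (Int.gcd_dvd_right _ _))
  have j2 : p ∣ odp d := (hp.dvd_mul.1 (j1.trans hg)).resolve_left fun e => by
    refine (ho.of_dvd_nat j1).not_two_dvd_nat ((Nat.prime_dvd_prime_iff_eq hp Nat.prime_two).1
      (hp.dvd_of_dvd_pow (n := 3) (e.trans ?_)) ▸ dvd_rfl)
    unfold cond2
    split_ifs <;> norm_num
  refine right_ne_zero_of_mul k (prod_eq_zero (Nat.mem_primeFactors.2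
    ⟨hp, j2, (B3.odp_sqf h).ne_zero⟩) ?_)
  rw [if_pos ((Int.natCast_dvd_natCast.2 j1).trans hQ),
    jac_zero_of_dvd hp (j.trans (Int.gcd_dvd_left _ _))]

theorem lw_of (H : X.Ok) : Lw X.N (X.g * X.p) X.g X.p (X.N / (X.g * X.p)) := by
  have e := (Nat.mul_div_cancel' H.gp_dvd).symm
  have h1 := H.lsq
  have h2 := H.ne
  have h3 := H.N0
  generalize X.N / (X.g * X.p) = q at *
  rw [e] at h1
  refine ⟨e, Nat.cast_mul _ _, H.hp.one_lt, ?_, Nat.isCoprime_iff_coprime.2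
    (Nat.coprime_of_squarefree_mul h1.of_mul_left), Nat.isCoprime_iff_coprime.2
    (Nat.coprime_of_squarefree_mul h1).coprime_mul_right⟩
  rw [mul_right_comm] at e
  by_contra! k
  generalize X.g * q = r at *
  interval_cases r <;> omega

theorem quot_cop (H : X.Ok) : IsCoprime ((X.c / X.g : ℕ) : ℤ) X.N := by
  refine Nat.isCoprime_iff_coprime.2 (Nat.coprime_of_dvd fun r hr h1 h2 => ?_)
  have e := Nat.mul_div_cancel' H.g_dvd_c
  have h3 : r * r ∣ 4 * X.f.natAbs := by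
    refine (mul_dvd_mul ((H.dvd_g h2).1 (e ▸ h1.mul_left _)) h1).trans ?_
    rw [e, Dat.c, cnd, B3.cond_eq H.fs]
    split_ifs
    exacts [dvd_mul_left _ _, dvd_rfl]
  have h4 : r.Coprime 2 := Nat.coprime_two_right.2 (H.lodd.of_dvd_nat h2)
  exact hr.not_isUnit (Int.squarefree_natAbs.2 H.fs r
    (((h4.mul_left h4).pow_right 2).dvd_of_dvd_mul_left h3))

theorem col_of (H : X.Ok) {e : ℕ} (h0 : e ≠ 0) (he : IsCoprime (e : ℤ) X.N)
    (hk : IsCoprime k X.g) : Col X.N X.g k (X.c * e : ℕ) := by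
  have e1 := Nat.mul_div_cancel' H.g_dvd_c
  have := (lw_of H).col (mul_ne_zero (Nat.cast_ne_zero.2 (right_ne_zero_of_mul (e1 ▸ H.c0)))
    (Nat.cast_ne_zero.2 h0)) ((quot_cop H).mul_left he) hk
  rwa [← mul_assoc, ← Nat.cast_mul, e1, ← Nat.cast_mul] at this

theorem abs_cop (H : X.Ok) {e : ℤ} (he : e ∣ X.n) : e.natAbs ≠ 0 ∧ IsCoprime (e.natAbs : ℤ) X.N :=
  ⟨Int.natAbs_ne_zero.2 (ne_zero_of_dvd_ne_zero (Nat.cast_ne_zero.2 H.n0) he),
    (H.cop_of_dvd he).of_isCoprime_of_dvd_left (Int.natAbs_dvd.2 dvd_rfl)⟩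

theorem orient (H : X.Ok) : 2 * ((X.N / X.p : ℕ) : ℤ) ∣ X.β - X.a.natAbs ∧
    2 * (X.p : ℤ) ∣ X.β + X.a.natAbs := by
  have e' : (X.N : ℤ) = X.p * (X.N / X.p : ℕ) := by
    exact_mod_cast (Nat.mul_div_cancel' H.dvd).symm
  have h2 := H.rq
  have h3 := H.bet
  have h4 : (X.n : ℤ) = X.a.natAbs * X.b.natAbs := by exact_mod_cast H.abs_mul.symm
  generalize X.N / X.p = q at *
  have c1 : IsCoprime (2 * X.N : ℤ) X.b.natAbs := IsCoprime.mul_left
    (Nat.isCoprime_iff_coprime.2 (Nat.coprime_two_left.2 (Nat.odd_iff.2 (by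
      have := H.b4
      omega)))) (abs_cop H H.b_dvd).2.symm
  have c2 : IsCoprime (2 : ℤ) X.p := Nat.isCoprime_iff_coprime.2 (Nat.coprime_two_left.2 H.p_odd)
  have d1 : 2 * (q : ℤ) ∣ 2 * X.N := ⟨X.p, by rw [e']; ring⟩
  have d2 : 2 * (X.p : ℤ) ∣ 2 * X.N := ⟨q, by rw [e']; ring⟩
  have d3 : 2 * (X.N : ℤ) ∣ X.ρ ^ 2 + X.n := Dvd.dvd.trans ⟨2, by ring⟩ H.root
  have d4 : 2 * (X.p : ℤ) ∣ X.ρ' + X.ρ := c2.mul_dvd
    (by have := (dvd_mul_right 2 (q : ℤ)).trans h2; omega) H.rp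
  constructor
  · refine (c1.of_isCoprime_of_dvd_left d1).dvd_of_dvd_mul_left ?_
    convert ((d1.trans h3).sub (h2.mul_left X.ρ)).sub (d1.trans d3) using 1
    rw [h4]
    ring
  · refine (c1.of_isCoprime_of_dvd_left d2).dvd_of_dvd_mul_left ?_
    convert ((d2.trans h3).sub (d4.mul_left X.ρ)).add (d2.trans d3) using 1
    rw [h4]
    ring

theorem wg_of (H : X.Ok) (hm : m ≠ 0) (hc : m.Coprime X.N) :
    Wg X.N (X.g * X.p) X.g X.p (X.N / (X.g * X.p)) (cnd (X.f * X.a) * m : ℕ)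
      ((X.c / X.g : ℕ) * (X.a.natAbs * m)) (X.β * X.c * m) (X.C m)
      fun k => kro (X.f * X.a) (-((X.N / (X.g * X.p) : ℕ) * k)) := by
  have e1 : (X.c : ℤ) = X.g * (X.c / X.g : ℕ) := by
    exact_mod_cast (Nat.mul_div_cancel' H.g_dvd_c).symm
  have e2 : ((cnd (X.f * X.a) * m : ℕ) : ℤ) = X.c * (X.a.natAbs * m) := by
    rw [H.ca, Nat.cast_mul, Nat.cast_mul, mul_assoc]
  have gA : X.g ∣ cnd (X.f * X.a) := H.ca ▸ H.g_dvd_c.mul_right _
  have S : Sq X.N (X.g * X.p) X.g X.p (X.N / (X.g * X.p)) (cnd (X.f * X.a) * m : ℕ)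
      ((X.c / X.g : ℕ) * (X.a.natAbs * m)) (X.β * X.c * m) := by
    refine ⟨lw_of H, Nat.cast_pos.2 (mul_ne_zero (cnd_ne H.sa) hm).bot_lt,
      by rw [e2, ← mul_assoc (X.g : ℤ), ← e1], (quot_cop H).mul_left
        ((abs_cop H H.a_dvd).2.mul_left (Nat.isCoprime_iff_coprime.2 hc)), ?_, ?_⟩
    · rw [e2, show X.β * X.c * m - X.c * (X.a.natAbs * m) = (X.β - X.a.natAbs) * (X.c * m) by ring]
      refine ((mul_dvd_mul_left 2 (Int.natCast_dvd_natCast.2 ?_)).trans (orient H).1).mul_right _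
      rw [mul_comm, ← Nat.div_div_eq_div_mul]
      exact Nat.div_dvd_of_dvd ((Nat.dvd_div_iff_mul_dvd H.dvd).2 (mul_comm X.g _ ▸ H.gp_dvd))
    · rw [e2, show X.β * X.c * m + X.c * (X.a.natAbs * m) = (X.β + X.a.natAbs) * (X.c * m) by ring,
        Nat.cast_mul, mul_comm (X.g : ℤ), ← mul_assoc]
      exact mul_dvd_mul (orient H).2 ((Int.natCast_dvd_natCast.2 H.g_dvd_c).mul_right _)
  have K : Hv.Cls (X.f * X.a) (((cnd (X.f * X.a) * m : ℕ) : ℤ) ^ 2) :=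
    ⟨pow_dvd_pow_of_dvd (Int.natCast_dvd_natCast.2 ((dvd_mul_right _ _).mul_right _)) 2,
      dvd_pow (Int.natCast_dvd_natCast.2 ((dvd_mul_left _ _).mul_right _)) two_ne_zero⟩
  have eC : X.C m = wF X.N (gU X.N (X.f * X.a)) (((cnd (X.f * X.a) * m : ℕ) : ℤ) ^ 2)
      (X.β * X.c * m) := by
    rw [Nat.cast_mul]
    rfl
  rw [eC]
  refine ⟨S, Hv.wt_gU H.N0 H.sa K _, fun R h => ?_, fun k w hw => ?_, fun k h => ?_⟩
  · have h1 : Fam _ _ _ R := by_contra fun j => h (if_neg j)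
    rw [wF, if_pos h1] at h
    exact ⟨h1, gD_cop H.sa (H.lodd.of_dvd_nat H.g_dvd) gA
      ((Int.natCast_dvd_natCast.2 H.g_dvd).mul_right _) h⟩
  · obtain ⟨a, b, c, d, e, h⟩ := S.toLw.fV_fo hw (cnd (X.f * X.a) * m : ℕ) k
    generalize ((cnd (X.f * X.a) * m : ℕ) : ℤ) = D, ((X.N / (X.g * X.p) : ℕ) : ℤ) = q at *
    rw [wF, if_pos (S.fam hw k), gU, G5.fV, h, Hv.tm_gD H.sa K (0, D, -(q * k)) _ 1 a b c d
      (by simp [fdisc]) (by rw [fdisc_fmap e]; simp [fdisc])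
      (by simp [G5.Hw.sc]) (by rw [e, mul_one]; exact isCoprime_one_left), (pchr_kro H.sa).one,
      one_mul, gD_zero H.sa]
  · exact ((pchr_kro H.sa).cop h).neg_left.of_isCoprime_of_dvd_left
      (by rw [neg_neg]; exact dvd_mul_left _ _) |>.of_isCoprime_of_dvd_right
      (Int.natCast_dvd_natCast.2 gA)

lemma sum_neg {A : ℕ} {χ : ℤ → ℤ} (hχ : B3.PChr A χ) (q : ℤ) (D : ℕ) (f : ℤ → ℤ) :
    ∑ k ∈ Ico (0 : ℤ) D, χ (-(q * k)) * f k = χ (-q) * ∑ k ∈ range D, χ k * f k := by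
  rw [Int.Ico_eq_finset_map, sum_map, mul_sum]
  simp [← neg_mul, hχ.mul, mul_assoc]

end SW

open SW G5.SW Pool.Agent.Lib.MP_696deb_nt Pool.Agent.B4.GE in
open Pool.Agent.G5 hiding HWStmt SWStmt in
open Pool.Agent.Lib.MP_696deb_nt.B3 (kro pchr_kro) in
theorem sw_stmt (hw : HWStmt) : SWStmt := by
  intro X H
  have hN := H.N0
  have L := lw_of H
  have hχ := pchr_kro H.sa
  have A1 := cnd_gt H.sa H.A1
  have W := fun (m : ℕ) (h0 : m ≠ 0) (h1 : m.Coprime X.N) => wg_of H h0 h1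
  have hfm := (hw X H).2.1
  have gA : (X.g : ℤ) ∣ cnd (X.f * X.a) := Int.natCast_dvd_natCast.2 (H.ca ▸ H.g_dvd_c.mul_right _)
  have lk : ∀ F, B6.B7.LKr F (X.f * X.a) 1 = B6.B7.LX F (cnd (X.f * X.a)) (kro (X.f * X.a)) 1 :=
    fun _ => rfl
  refine ⟨fun m h0 h1 R h => ⟨(W m h0 h1).ne1 h, fun k hk => ?_⟩, ?_⟩
  · have c := col_of H (abs_cop H H.b_dvd).1 (abs_cop H H.b_dvd).2
      (((pchr_kro H.sb).cop hk).of_isCoprime_of_dvd_right
        (Int.natCast_dvd_natCast.2 (H.cb ▸ H.g_dvd_c.mul_right _ : X.g ∣ cnd (X.f * X.b))))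
    rw [← H.cb] at c
    exact (W m h0 h1).ne h (u := (k, cnd (X.f * X.b)))
      ⟨(c.ap L.dvd L.ap1.2).symm, (c.ap L.dvd L.ap2.2).symm⟩
  simp only [lk]
  change HFm X.N (fun l => kro (X.f * X.a) l) _ at hfm
  change B3.PChr (cnd (X.f * X.a)) _ at hχ
  obtain ⟨q, hq⟩ : ∃ q, q = X.N / (X.g * X.p) := ⟨_, rfl⟩
  rw [← hq] at L W
  clear hq
  generalize kro (X.f * X.a) = χ, cnd (X.f * X.a) = A, X.g * X.p = P,
    X.C = C, X.N = N at *
  have act' : ∀ m : ℕ, m ≠ 0 → m.Coprime N → ∀ g, G0 N g → ∀ z : ℂ, 0 < z.im →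
      Iw (C m) (act g z) = thw (C m) (g 0 0) (g 1 0) / 2 + Iw (C m) z :=
    fun m h0 h1 g hg z hz => Iw_act (W m h0 h1).wt (fun R h => (W m h0 h1).ne1 h) hg hz
  have two : ∀ m : ℕ, m ≠ 0 → m.Coprime N → ∀ g, G0 N g →
      2 * thw (C m) (g 0 0) (g 1 0) = χ (-q) * ∑ k ∈ range (A * m),
        χ k * II N P (1, 0) (mv g (1, 0)) (1, 0) (k, (A * m : ℕ)) := fun m h0 h1 g hg => by
    have := (W m h0 h1).two_thw (L.ap1.left L.dvd hg)
    rw [sum_neg hχ] at this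
    simpa [mv] using this
  have col : ∀ m : ℕ, m ≠ 0 → m.Coprime N → ∀ k : ℤ, χ k ≠ 0 → Col N X.g k (A * m : ℕ) :=
    fun m h0 h1 k hk => (W m h0 h1).toSq.col ((hχ.cop hk).of_isCoprime_of_dvd_right gA)
  have act1 := act' 1 one_ne_zero (Nat.coprime_one_left N)
  obtain ⟨G, hG, h1⟩ := exists_ci hN (θ := fun g => thw (C 1) (g 0 0) (g 1 0) / 2)
    (fun g h hg hh => by
      have k1 := act1 _ (g0_mul hg hh) Complex.I (by simp)
      rw [act_mul _ (hh.1 ▸ one_ne_zero) (by simp), act1 g hg _ (act_pos (hh.1 ▸ one_pos) (by simp)),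
        act1 h hh _ (by simp)] at k1
      linarith)
    fun g c hg hc e => by
      have k1 := two 1 one_ne_zero (Nat.coprime_one_left N) g hg
      rw [sum_congr rfl (g := fun k : ℕ => χ k * II N P (1, 0) (mv g (1, 0)) (1, 0) (1, X.g))
        fun k _ => by
          by_cases hk : χ k = 0
          · simp only [hk, zero_mul]
          obtain ⟨s, h, hs, hh, e'⟩ := col 1 one_ne_zero (Nat.coprime_one_left N) k hk
          rw [e', L.split L.ap1 (L.ap1.left L.dvd hg) hs hh, (L.par hg hh hc e L.ap1).2, add_zero],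
        ← sum_mul, chr_sum hχ A1, zero_mul, mul_zero] at k1
      rw [(mul_eq_zero.1 k1).resolve_left two_ne_zero, Int.cast_zero, zero_div]
  have inv : Inv0 N fun z => (G z).re - Iw (C 1) z := fun g hg z hz => by
    beta_reduce
    rw [h1 g hg z hz, act1 g hg z hz]
    ring
  refine ⟨G, ⟨hG, inv⟩, fun F F₂ t hF hF₂ ht hP k1 k2 => B5.ci_const hN (hG.hf hN ht) ?_⟩
  have s1 : Sup N (.single 1 1) := .single one_ne_zero (Nat.coprime_one_left N) 1
  have s2 := s1.ha (η := fun l => χ l) ht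
  have e1 : ∀ z : ℂ, 0 < z.im → (hf ℂ t G z).re = hf ℝ t (fun z => (G z).re - Iw (C 1) z) z +
      cmb (fun m => Iw (C m)) (ha (fun l => χ l) t (.single 1 1)) z := fun z hz => by
    rw [← hfm.hf ht s1 hz, cmb_single, one_smul, ← Pi.add_apply (hf ℝ t _), ← map_add]
    refine (congrFun (hf_map Complex.reAddGroupHom t G) z).symm.trans ?_
    refine congrFun (congrArg _ (funext fun x => ?_)) z
    simp
  intro g hg z hz
  beta_reduce
  rw [e1 z hz, e1 _ (act_pos (hg.1 ▸ one_pos) hz), inv0_hf inv ht g hg z hz, add_right_inj]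
  obtain ⟨G', c₀, hG', h2⟩ := L.dual hN hg
  have h3 : ∀ a : ℕ →₀ ℤ, Sup N a → cmb (fun m => Iw (C m)) a (act g z) =
      cmb (fun m => Iw (C m)) a z + χ (-q) * (cmb (Lx A χ G') a).re / 4 := fun a h =>
    h.ind (p := fun a => cmb (fun m => Iw (C m)) a (act g z) =
      cmb (fun m => Iw (C m)) a z + χ (-q) * (cmb (Lx A χ G') a).re / 4) (by simp)
      (fun m c m0 m1 => by
        have k3 := congrArg (Int.cast : ℤ → ℝ) (two m m0 m1 g hg)
        have k4 : ∑ k ∈ range (A * m), (χ k : ℝ) = 0 := by exact_mod_cast chr_sum hχ A1 m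
        have k5 : ∀ k : ℤ, (χ k : ℝ) * II N P (1, 0) (mv g (1, 0)) (1, 0) (k, (A * m : ℕ)) =
            χ k * c₀ + χ k * (cv G' k (A * m : ℕ)).re := fun k => by
          by_cases hk : χ k = 0
          · simp [hk]
          rw [h2 _ _ (W m m0 m1).pos.ne' (col m m0 m1 k hk), mul_add]
        simp only [Int.cast_mul, Int.cast_sum, k5, sum_add_distrib, ← sum_mul, k4] at k3
        rw [cmb_single, cmb_single, Pi.smul_apply, Pi.smul_apply, act' m m0 m1 g hg z hz, Lx]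
        simp only [zsmul_eq_mul, ← Complex.ofReal_intCast, Complex.re_ofReal_mul, Complex.re_sum]
        push_cast at k3 ⊢
        linear_combination c / 4 * k3)
      fun a b k3 k4 => by
        simp only [map_add, Pi.add_apply, Complex.add_re, k3, k4]
        ring
  obtain ⟨κ, κ₂, c, h4⟩ := hP G' hG'
  have h5 : ∑ k ∈ range A, (χ k : ℂ) = 0 := by
    have := chr_sum hχ A1 1
    rw [mul_one] at this
    exact_mod_cast this
  have h6 : Lx A χ (hf ℂ t G') 1 = κ * B6.B7.LX F A χ 1 + κ₂ * B6.B7.LX F₂ A χ 1 := by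
    simp only [Lx, B6.B7.LX, G5.SW.cv, mul_one, mul_add, sum_add_distrib, ← sum_mul, h5, zero_mul,
      zero_add, Ld_lin hN hF hF₂ h4 _ (Nat.cast_ne_zero.2 hχ.ne), mul_sum, mul_left_comm]
  rw [h3 _ s2, ← Lx_hf hN hχ ht hG' s1, cmb_single, h6, k1, k2]
  simp

end Pool.Agent.G7
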