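import Pool.Agent.Lib.MP_696deb_nt.B7.LB
import Pool.Agent.Lib.MP_696deb_nt.B6.XTW

/-! The group that acts trivially and deep places, for towers with several primes. -/

set_option autoImplicit false

open scoped NNReal Classical
open Finset Matrix NumberTheorySymbols PowerSeries

namespace Pool.Agent.B6.B7

open Pool.Agent.Lib.MP_696deb_nt Pool.Agent.Lib.MP_696deb_nt.B2 Pool.Agent.Lib.MP_696deb_nt.B6

variable [Md]

variable {n k : ℕ} {S : HS n} {T : Tate} {lam : Tp} {w : Plc} {f : ℤ} {Q : Finset Plc} {z g : Gam} {P : EE}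

theorem HS.Tw.adm (h : HS.Tw S k lam f) : Adm n lam.c := h.tok.adm

theorem HS.Tw.adp (h : HS.Tw S k lam f) : Adm n lam.pl.p := h.tok.ad h.tok.pl

theorem HS.Tw.nrt (h : HS.Tw S k lam f) : ¬ Rt lam.pl.p := h.tok.nrt _ h.tok.pl

/-- The square of the Frobenius element of the tower has no fixed vector. -/
theorem HS.Tw.unit_fq (h : HS.Tw S k lam f) (T : Tate) : IsUnit (T.ρ (fq lam.pl) - 1).det := by
  have h1 := (T.o3_iff.1 ((T.par _ _ h.adp.nd30 (fr_spec lam.pl)).2 h.nrt)).sq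
  have h2 : ∀ A : B6.M2, Ord3 A → (A - 1) 0 0 * (A - 1) 1 1 - (A - 1) 0 1 * (A - 1) 1 0 ≠ 0 := by
    decide +kernel
  have h3 : T.r2 (fr lam.pl) * T.r2 (fr lam.pl) - 1 = mred 1 (T.ρ (fq lam.pl) - 1) := by
    rw [← map_mul]
    exact ((map_sub (RingHom.mapMatrix (PadicInt.toZModPow (p := 2) 1)) (T.ρ (fq lam.pl)) 1).trans
      (by rw [map_one]; rfl)).symm
  have h4 := h2 _ h1
  rw [← det_fin_two, h3] at h4
  have h5 := fun e => h4 ((mred_det 1 _).trans e)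
  rw [← RingHom.mem_ker, PadicInt.ker_toZModPow, pow_one, ← PadicInt.maximalIdeal_eq_span_p] at h5
  exact IsLocalRing.notMem_maximalIdeal.1 h5

theorem ψ_cc (S : HS n) {c : ℕ} (h : Adm n c) (hn : 0 < n) (hg : g ∈ GK n) :
    S.ψ c (cc * g * cc) = (S.ψ c g)⁻¹ := by
  have h1 := S.dih c h (g * cc) fun e => cc_notMem hn ((mul_mem_cancel_left hg).1 e)
  rw [show g * cc * (g * cc) = g * (cc * g * cc) by group, S.mul c h g hg _ (conj_cc_mem hg)] at h1
  exact eq_inv_of_mul_eq_one_right h1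

theorem HS.Psi_one (S : HS n) (e : ℤ) : HS.Psi S k lam e 1 = 1 := by simp [HS.Psi]

theorem HS.psi_of (h : S.ψ lam.c g = 1) (e : ℤ) : HS.psi S k lam e g = 1 := by
  rw [HS.psi, h, HS.Psi_one S]

theorem HS.psf_of (h : S.ψ lam.c g = 1) (h' : chi f g = 1) (e : ℤ) : HS.psf S k lam f e g = 1 := by
  rw [HS.psf, HS.psi_of h, h', Units.val_one, Int.cast_one, one_mul]

theorem HS.Psi_mul (S : HS n) (e : ℤ) (x y : S.C lam.c) :
    HS.Psi S k lam e (x * y) - HS.Psi S k lam e x * HS.Psi S k lam e y ∈ aa k k := by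
  have := Ideal.mul_mem_left _ ((S.gen e (S.pr 1 lam.c (x * y)) : ℤ) : Lam) (xtw_mod k
    ((lam.ν S (2 * k + 3) x).toAdd.val + (lam.ν S (2 * k + 3) y).toAdd.val))
  convert this using 1
  simp only [HS.Psi, map_mul, toAdd_mul, ZMod.val_add, Units.val_mul, Int.cast_mul, pow_add]
  ring

theorem HS.N_le : HS.N S T k lam f ≤ GK n := fun _ h => h.1

theorem HS.N_conj (hz : z ∈ HS.N S T k lam f) (g : Gam) : g * z * g⁻¹ ∈ HS.N S T k lam f := by
  have h1 := (normal_GK n).conj_mem z hz.1 g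
  refine ⟨h1, ?_, fun h => ?_, by rw [map_mul, map_mul, hz.2.2.2, mul_one, ← map_mul,
    mul_inv_cancel, map_one]⟩
  · rw [map_mul, map_mul, mred_mul, mred_mul, hz.2.1, mul_one, ← mred_mul, ← map_mul,
      mul_inv_cancel, map_one, mred_one]
  by_cases hg : g ∈ GK n
  · have := S.mul _ h _ h1 g hg
    rwa [inv_mul_cancel_right, S.mul _ h g hg z hz.1, hz.2.2.1 h, mul_one, right_eq_mul] at this
  · have h2 := mul_mem_GK hg hg
    have := S.dih _ h (g * z) (mt (mul_mem_cancel_right hz.1).1 hg)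
    rwa [show g * z * (g * z) = g * z * g⁻¹ * (g * g * z) by group,
      S.mul _ h _ h1 _ (mul_mem h2 hz.1), S.mul _ h _ h2 _ hz.1, S.dih _ h g hg, hz.2.2.1 h,
      mul_one, mul_one] at this

theorem HS.normal_N (S : HS n) (T : Tate) (k : ℕ) (lam : Tp) (f : ℤ) : (HS.N S T k lam f).Normal :=
  ⟨fun _ hz g => HS.N_conj hz g⟩

theorem HS.N_cc (hz : z ∈ HS.N S T k lam f) : cc * z * cc ∈ HS.N S T k lam f := by
  simpa only [cc_inv] using HS.N_conj hz cc

theorem HS.op_N (hl : Adm n lam.c) : Op (HS.N S T k lam f) := by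
  obtain ⟨U, u1, -, u3⟩ := (((T.sm (k + 2)).mono le_top).comp₂ (S.sm _ hl) Prod.mk).comp₂
    (sm_chi f) Prod.mk
  refine Subgroup.isOpen_mono (H₁ := U ⊓ GK n) (fun g hg => ?_) (u1.inf (op_GK n))
  have h1 := Prod.mk.inj (u3 1 (one_mem _) g hg.2 (by simpa using hg.1))
  have := Prod.mk.inj h1.1
  exact ⟨hg.2, by rw [← this.1, map_one, mred_one], fun _ => by rw [← this.2, S.ψ_one hl],
    by rw [← h1.2, map_one]⟩

theorem HS.psf_N (hl : Adm n lam.c) (hz : z ∈ HS.N S T k lam f) (e : ℤ) : HS.psf S k lam f e z = 1 :=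
  HS.psf_of (hz.2.2.1 hl) hz.2.2.2 e

theorem HS.rho_N (hz : z ∈ HS.N S T k lam f) {m : ℕ} (hm : m ≤ k + 2) : mred m (T.ρ z) = 1 :=
  (la_mred_le hm (hz.2.1.trans (mred_one _).symm)).trans (mred_one m)

theorem HS.ψ_N (hl : Adm n lam.c) (hz : z ∈ HS.N S T k lam f) : S.ψ 1 z = 1 := by
  rw [← S.pr_ψ 1 _ hl (one_dvd _) z hz.1, hz.2.2.1 hl, map_one]

/-- The elements of `N` act trivially. -/
theorem HS.act_N (hl : Adm n lam.c) (hz : z ∈ HS.N S T k lam f) (e : ℤ) {B : Type} [AddCommGroup B]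
    [Module Lam B] (hB : Kil k B) (x : Fin 2 → B) : act T (HS.psf S k lam f e) B z x = x := by
  rw [act_apply, rep, HS.psf_N hl hz, one_smul,
    mact_mred hB ((HS.rho_N hz (Nat.le_add_right k 2)).trans (mred_one k).symm),
    Matrix.map_one _ (map_zero _) (map_one _), mact_one]

theorem HS.Dp.deep (h : HS.Dp S T k lam f w) (hl : Adm n lam.c) (e : ℤ) :
    DpL n k T lam (HS.psf S k lam f e) w :=
  ⟨h.adm, h.ne, h.mem.2.1, by rw [HS.psf_N hl h.mem, sub_self]; exact zero_mem _⟩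

theorem HS.dpS_empty (S : HS n) (T : Tate) (k : ℕ) (lam : Tp) (f : ℤ) : HS.DpS S T k lam f ∅ :=
  ⟨fun _ h => absurd h (notMem_empty _), fun _ h => absurd h (notMem_empty _)⟩

theorem HS.Dp.dpS (h : HS.Dp S T k lam f w) : HS.DpS S T k lam f {w} := ⟨by simpa using h, by simp⟩

theorem HS.Dp.fq_mem (h : HS.Dp S T k lam f w) : fq w ∈ HS.N S T k lam f :=
  deep_sq (HS.normal_N S T k lam f) h.mem

/-- The value at zero is the character of the branch. -/
theorem HS.psf_X {e : ℤ} (hl : Adm n lam.c) (hf : f ≠ 0) (he : e ∣ n) (h4 : e % 4 = 1) {g : Gam}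
    (hg : g ∈ GK n) :
    HS.psf S k lam f e g - ((chi (f * e) g : ℤ) : Lam) ∈ Ideal.span {(X : Lam)} := by
  rw [HS.psf, HS.psi, HS.Psi, S.pr_ψ 1 _ hl (one_dvd _) g hg, S.gen_ψ e he h4 g hg,
    chi_mul hf (by omega), Units.val_mul, Int.cast_mul, ← mul_assoc]
  exact xtw_mul _ (xtw_X _)

/-- Elements that act as scalars are central modulo `N`. -/
theorem HS.comm_N (hz : z ∈ GK n) {c : ℤ_[2]} (h2 : mred (k + 2) (T.ρ z) = mred (k + 2) (c • 1))
    (hg : g ∈ GK n) : z * g * z⁻¹ * g⁻¹ ∈ HS.N S T k lam f := by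
  have h5 := mul_mem (mul_mem (mul_mem hz hg) (inv_mem hz)) (inv_mem hg)
  refine ⟨h5, ?_, fun hl => ?_, by
    simp only [map_mul, map_inv, mul_inv_cancel_comm, mul_inv_cancel]⟩
  · have e : mred (k + 2) (T.ρ (z * g)) = mred (k + 2) (T.ρ (g * z)) := by
      rw [map_mul, map_mul, mred_mul, mred_mul, h2, ← mred_mul, ← mred_mul, smul_one_mul,
        mul_smul_one]
    rw [mul_assoc, map_mul, mred_mul, e, ← mred_mul, ← map_mul, ← _root_.mul_inv_rev,
      mul_inv_cancel, map_one, mred_one]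
  · have := S.mul _ hl _ h5 _ (mul_mem hg hz)
    rwa [show z * g * z⁻¹ * g⁻¹ * (g * z) = z * g by group, S.mul _ hl z hz g hg,
      S.mul _ hl g hg z hz, mul_comm (S.ψ _ z), right_eq_mul] at this

/-- The choice of a deep place. -/
theorem HS.exists_dp (ch : ChebStmt) (hn : Nok n) (hl : Adm n lam.c) {A : Type} [AddCommGroup A]
    {m : ℕ} (hA : ∀ x : A, 2 ^ m • x = 0) {c : Gam → A} (sm : Sm (GK n) c)
    (hom : IsHom (HS.N S T k lam f) c) (hz : z ∈ HS.N S T k lam f) (B : Finset ℕ) :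
    ∃ (w : Plc) (u : ℕ), w.p ∉ B ∧ Odd u ∧ HS.Dp S T k lam f w ∧
      c (fq w) = u • (c z + c (cc * z * cc)) := by
  obtain ⟨U, u1, -, u3⟩ := id sm
  obtain ⟨B', hB⟩ := finite_ram u1
  obtain ⟨w, φ, s, u, h1, h2, h3, h4⟩ := exists_TwD ch T hn.pos (HS.op_N hl) (HS.normal_N S T k lam f)
    HS.N_le (m := k + 2) (fun g hg => hg.2.1) hA (Set.finite_singleton c)
    (fun _ e => (show _ = c from e) ▸ ⟨sm.mono HS.N_le, hom⟩) hz ((lam.c.primeFactors ∪ (B ∪ B')).sup id)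
  have h5 : w.p ∉ lam.c.primeFactors ∪ (B ∪ B') := fun e => h1.not_ge (le_sup (f := id) e)
  rw [mem_union, mem_union, not_or, not_or] at h5
  have h6 := h2.frob.inv_mul_mem (fr_spec w)
  have h7 : ∀ σ ∈ Ine w, c σ = 0 := fun σ hσ => by
    rw [← u3 1 (one_mem _) σ (HS.N_le (h2.ine hσ)) (by simpa using hB w h5.2.2 hσ), hom.one]
  have h8 := conj_mem_Ine (inv_mem h2.frob.1) h6
  refine ⟨w, u, h5.2.1, h3, ⟨.of_prime h2.nd30 h2.inert,
    fun e => h5.1 (Nat.mem_primeFactors.2 ⟨w.prime, e, hl.1.ne_zero⟩), ?_⟩, ?_⟩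
  · simpa [mul_assoc] using mul_mem h2.mem (h2.ine h6)
  · rw [← h4 c rfl, show fq w = φ * φ * (φ⁻¹ * (φ⁻¹ * fr w) * φ⁻¹⁻¹ * (φ⁻¹ * fr w)) by
      rw [fq]; group, hom _ h2.sq _ (h2.ine (mul_mem h8 h6)), h7 _ (mul_mem h8 h6), add_zero]

/-- A group is not the union of two proper subgroups. -/
theorem HS.Often.exists (ch : ChebStmt) (hn : Nok n) (hl : Adm n lam.c) {P P' : Plc → Prop}
    (h : HS.Often S T k lam f P) (h' : HS.Often S T k lam f P') :
    ∃ w, HS.Dp S T k lam f w ∧ P w ∧ P' w := by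
  obtain ⟨m, c, c1, c2, ⟨z, hz, c3⟩, c4⟩ := h
  obtain ⟨m', c', c1', c2', ⟨z', hz', c3'⟩, c4'⟩ := h'
  obtain ⟨y, hy, y1, y2⟩ : ∃ y ∈ HS.N S T k lam f, c y + c (cc * y * cc) ≠ 0 ∧
      c' y + c' (cc * y * cc) ≠ 0 := by
    by_cases e : c' z + c' (cc * z * cc) = 0
    · by_cases e' : c z' + c (cc * z' * cc) = 0
      · refine ⟨z * z', mul_mem hz hz', ?_, ?_⟩
        · rwa [cc_mul, c2 _ hz _ hz', c2 _ (HS.N_cc hz) _ (HS.N_cc hz'), add_add_add_comm, e',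
            add_zero]
        · rwa [cc_mul, c2' _ hz _ hz', c2' _ (HS.N_cc hz) _ (HS.N_cc hz'), add_add_add_comm, e,
            zero_add]
      · exact ⟨z', hz', e', c3'⟩
    · exact ⟨z, hz, c3, e⟩
  obtain ⟨w, u, -, hu, hw, e⟩ := HS.exists_dp ch hn hl (A := ZMod (2 ^ m) × ZMod (2 ^ m'))
    (m := m + m') (fun x => Prod.ext (xtw_kill (Nat.le_add_right m m') _)
      (xtw_kill (Nat.le_add_left m' m) _))
    (c1.comp₂ c1' Prod.mk) (fun g hg u hu => Prod.ext (c2 g hg u hu) (c2' g hg u hu)) hy ∅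
  exact ⟨w, hw, c4 w hw ((congrArg Prod.fst e).trans_ne (xtw_odd hu y1)),
    c4' w hw ((congrArg Prod.snd e).trans_ne (xtw_odd hu y2))⟩

/-- The unit lemma: the Kummer cocycle of a point that is not divisible by two maps `N` onto the
points of order two. -/
theorem HS.unit (hn : Nok n) (hl : Adm n lam.c) (hP : P ∈ EN) (ho : Od P)
    (hN : ∀ z ∈ HS.N S T k lam 1, z • P = P) {R : EE} (hR : 2 • R = P) (x : V2) :
    ∃ z ∈ HS.N S T k lam 1, z • R - R = T.i2 x := by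
  subst hR
  obtain ⟨w, v, s, t, e⟩ := T.exists_tv
  obtain ⟨h1, h2, h3⟩ := e.ord2
  have kum : ∀ (w : Plc) (s : Gam), w.p ∣ NN → s ∈ Ine w →
      ∃ x, s • R - R = s • T.i2 x - T.i2 x := fun w s hw hs => by
    obtain ⟨t, t1, t2⟩ := T.kum_pow hw (m := 1) (R := R) fun σ hσ => hP σ (ine_le_IN hw hσ)
    obtain ⟨x, rfl⟩ := T.surj_i2 t t1
    exact ⟨x, t2 s hs⟩
  refine (tw_unit T.smul_i2 T.surj_i2 (I := IN) (HS.normal_N S T k lam 1)
    (fun z hz => T.r2_of (by omega) hz.2.1) h1 h2 h3 (fun σ hσ => ?_) hN (kum w s e.wN e.hs.1)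
    (kum v t e.vN e.ht.1)).elim (fun ⟨y, hy⟩ => (ho _ hy ?_).elim) fun h => h x
  · obtain ⟨u, u1, u2⟩ := e.big _ (T.det_IN hσ) (k + 2)
    have u3 := mul_mem (inv_mem (e.le_IN u1)) hσ
    exact ⟨u, u1, hn.IN_le u3, by rw [map_mul, mred_mul, ← u2, ← mred_mul, ← map_mul,
      inv_mul_cancel, map_one, mred_one], fun _ => S.ψ_IN hn hl u3, xi_eq_zero.1 (B2.xi_one _)⟩
  · rw [smul_sub, ← map_nsmul, v2_two', map_zero, sub_zero]

theorem N_fix (hg : g ∈ HS.N S T k lam f) {m : ℕ} (hm : m ≤ k + 2) (P : EE) (hP : 2 ^ m • P = 0) :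
    g • P = P := by
  obtain ⟨x, rfl⟩ := T.surj m P hP
  rw [T.smul, la_mred_le hm (hg.2.1.trans (la_mred_one _).symm), la_mred_one, one_mulVec]

end Pool.Agent.B6.B7
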