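import Pool.Agent.Lib.MP_696deb_nt.B7.KL7b
import Pool.Agent.Lib.MP_696deb_nt.B7.S8z
import Pool.Agent.Lib.MP_696deb_nt.B7.GF
import Pool.Agent.Lib.MP_696deb_nt.B6.SLk

/-! All quadratic twists of the curves of conductor eleven and nineteen. -/

set_option autoImplicit false

open scoped Classical
open NumberTheorySymbols

namespace Pool.Agent.B6.B7

open Pool.Agent.Lib.MP_696deb_nt Pool.Agent.Lib.MP_696deb_nt.B2 Pool.Agent.B4.GE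
open Pool.Agent.G7 (GKStmt GZStmt)

theorem SeedH.seedE [Cs] {φ : ℂ → Pt Wu ℂ} {q : ℕ} (h : SeedH φ q) : SeedE φ q 2 4 :=
  h.imp fun _ k => ⟨k.1, fun U hU R hR => k.2 2 (.inl rfl) U hU R fun g hg e => by
    simpa only [tw, e, Units.val_one, one_smul] using hR g hg⟩

theorem cnv_new [Cs] (gz : GZStmt) (gk : GKStmt) {q : ℕ} {a : ℤ} (hq : Sq q) (ha : Even a)
    (h : ∃ D : MD Wu NN, New D ∧ SeedK D.par.φ NN q ∧ SeedH D.par.φ q ∧ D.c 2 = a) :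
    ∃ D : MD Wu NN, G5.Nw D ∧ ∀ d, Squarefree d → Cnv D.c d :=
  let ⟨D, n, s, t, e⟩ := h
  ⟨D, n.nw, fun _ => conv7 gz gk ⟨n.nw, n.tr, n.t0_ne, q, hq.prime, hq.m8, hq.gt, hq.cop, s.seedC⟩
    (e ▸ ha) hq t.seedE⟩

/-- The certified curves. -/
theorem cert_two (gz : GZStmt) (gk : GKStmt) {N : ℕ} {c₄ c₆ : ℤ}
    (h : (N, c₄, c₆) ∈ ({(11, 496, 20008), (19, 448, 10088)} : Set (ℕ × ℤ × ℤ))) :
    ∃ C : Cs, @NN C = N ∧ (@WZ C.toCw).c₄ = c₄ ∧ (@WZ C.toCw).c₆ = c₆ ∧ N.Prime ∧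
      ∃ D : MD (@Wu C.toCw) (@NN C), G5.Nw D ∧ ∀ d, Squarefree d → @Cnv C D.c d := by
  simp only [Set.mem_insert_iff, Set.mem_singleton_iff, Prod.mk.injEq] at h
  rcases h with ⟨rfl, rfl, rfl⟩ | ⟨rfl, rfl, rfl⟩
  · exact ⟨cs11, rfl, by decide, by decide, by norm_num, @cnv_new cs11 gz gk _ _
      (@Sq.mk cs11 _ (by norm_num) rfl (by decide) (by decide)) (by decide) md11h⟩
  · exact ⟨cs19, rfl, by decide, by decide, by norm_num, @cnv_new cs19 gz gk _ _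
      (@Sq.mk cs19 _ (by norm_num) rfl (by decide) (by decide)) (by decide) md19h⟩

theorem half_two (gz : GZStmt) (gk : GKStmt) {N : ℕ} {c₄ c₆ : ℤ}
    (h : (N, c₄, c₆) ∈ ({(11, 496, 20008), (19, 448, 10088)} : Set (ℕ × ℤ × ℤ))) {r : ℕ}
    (hr : r ≤ 1) : HalfAll c₄ c₆ r := by
  obtain ⟨C, rfl, rfl, rfl, -, D, n, k⟩ := cert_two gz gk h
  exact half_all (fun _ h => S.smith6 h) n k hr

theorem conv_two (gz : GZStmt) (gk : GKStmt) {N : ℕ} {c₄ c₆ : ℤ}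
    (h : (N, c₄, c₆) ∈ ({(11, 496, 20008), (19, 448, 10088)} : Set (ℕ × ℤ × ℤ))) {d : ℤ}
    (hd : Squarefree d) {a b : ℤ} (ha : a = -27 * c₄ * d ^ 2) (hb : b = -54 * c₆ * d ^ 3)
    (hS : Stmt.CorankLE
      ({ a₁ := 0, a₂ := 0, a₃ := 0, a₄ := (a : ℚ), a₆ := (b : ℚ) } : WeierstrassCurve ℚ) 1) :
    Both a b (if (if (N : ℤ) ∣ d then -d.sign else d.sign * J(d | N)) = 1 then 0 else 1) := by
  obtain ⟨C, rfl, rfl, rfl, p, D, n, k⟩ := cert_two gz gk h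
  exact both_pr n p (k d hd) hd.ne_zero ha hb hS

end Pool.Agent.B6.B7
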