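import Pool.Agent.Lib.MP_696deb_nt.B6.XSd
import Pool.Agent.Lib.MP_696deb_nt.B7.LB

/-! The finite sets of places and the rigidified Selmer groups. -/

set_option autoImplicit false

open scoped NNReal Classical
open Finset Matrix NumberTheorySymbols PowerSeries

namespace Pool.Agent.B6.B7

open Pool.Agent.Lib.MP_696deb_nt Pool.Agent.Lib.MP_696deb_nt.B2 Pool.Agent.Lib.MP_696deb_nt.B6

variable [Md]

variable {T : Tate} {f : ℤ} {n k : ℕ} {lam : Tp} {v w : Plc} {ψ : Gam → Lam} {Q R : Finset Plc}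
  {ty : Plc → Ty} {B B' : Type} [AddCommGroup B] [Module Lam B] [AddCommGroup B'] [Module Lam B']
  {c : Gam → Fin 2 → B} {g : Gam} {N : Plc → AddSubgroup ((Fin 2 → B) × (Fin 2 → B))}

/-- The places without condition. -/
noncomputable def plX (f : ℤ) (lam : Tp) : Finset Plc := lam.ps ∪ spl (od f).natAbs

/-- The places with a condition. -/
noncomputable def plT (f : ℤ) (Q : Finset Plc) : Finset Plc := spl (Nf f) ∪ insert w2 Q

/-- All special places. -/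
noncomputable def pls (f : ℤ) (lam : Tp) (Q : Finset Plc) : Finset Plc := plX f lam ∪ plT f Q

theorem Fok.spl_p (hf : Fok n f) (hw : w ∈ B6.spl (od f).natAbs) : (w.p : ℤ) ∣ od f :=
  Int.natCast_dvd.2 ((mem_spl hf.od_ne).1 hw).1

theorem spl_Nf (hw : w ∈ spl (Nf f)) : w.p ∣ Nf f := ((mem_spl (Nf_ne f)).1 hw).1

theorem spl_N (hw : w ∈ spl (Nf f)) : w.p ∣ NN := Nf_N (spl_Nf hw)

theorem mem_pls : w ∈ pls f lam Q ↔
    w ∈ lam.ps ∨ w ∈ spl (od f).natAbs ∨ w ∈ spl (Nf f) ∨ w = w2 ∨ w ∈ Q := by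
  simp only [pls, plX, plT, mem_union, mem_insert, or_assoc]

theorem TOk.ad' (h : TOk n lam) (hw : w ∈ lam.ps) : Adm n w.p := h.ad (h.dvd w hw)

theorem SOk0.w2_notMem (h : SOk0 T n f k lam ψ Q) : w2 ∉ Q := fun e =>
  (h.deep _ e).adm.ne_two w2_p

theorem SOk0.disjN (h : SOk0 T n f k lam ψ Q) : Disjoint (spl (Nf f)) (insert w2 Q) :=
  disjoint_left.2 fun w a b => (mem_insert.1 b).elim (fun e => w2_ndN (e ▸ spl_N a))
    fun e => (h.deep w e).adm.ndN (spl_N a)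

theorem SOk0.X_ne_two (h : SOk0 T n f k lam ψ Q) (hw : w ∈ plX f lam) : w.p ≠ 2 :=
  (mem_union.1 hw).elim (fun e => (h.tok.ad' e).ne_two) fun e => h.fok.ne_two (h.fok.spl_p e)

theorem SOk0.disj (h : SOk0 T n f k lam ψ Q) : Disjoint (plX f lam) (plT f Q) :=
  disjoint_left.2 fun w a b => by
    rcases mem_union.1 b with b | b
    · exact (mem_union.1 a).elim (fun e => (h.tok.ad' e).ndN (spl_N b))
        fun e => Nf_nd (spl_Nf b) (h.fok.spl_p e)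
    rcases mem_insert.1 b with b | b
    · exact h.X_ne_two a (b ▸ w2_p)
    · exact (mem_union.1 a).elim (fun e => (h.deep w b).ne (h.tok.dvd w e))
        fun e => h.fok.ndf (h.deep w b).adm (h.fok.spl_p e)

theorem SOk0.apart (h : SOk0 T n f k lam ψ Q) : Apart (GK n) (pls f lam Q) := by
  intro v hv w hw g hg e
  have p : v.p = w.p := e ▸ rfl
  have l2 := fun u (a : u ∈ lam.ps) => (h.tok.ad' a).ne_two
  have lN := fun u (a : u ∈ lam.ps) => (h.tok.ad' a).ndN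
  have lf := fun u (a : u ∈ lam.ps) => h.fok.ndf (h.tok.ad' a)
  have p2 := w2_p
  have f2 := fun r => h.fok.ne_two (r := r)
  have N2 := fun r => ne_two_of_dvd (p := r)
  rcases mem_pls.1 hv with a | a | a | a | a <;> rcases mem_pls.1 hw with b | b | b | b | b
  · exact h.tok.inj v a w b p
  · exact absurd (h.fok.spl_p b) (p ▸ lf v a)
  · exact absurd (spl_N b) (p ▸ lN v a)
  · exact absurd (p.trans (b ▸ p2)) (l2 v a)
  · exact absurd (p ▸ h.tok.dvd v a) (h.deep w b).ne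
  · exact absurd (h.fok.spl_p a) (p ▸ lf w b)
  · exact spl_apart h.nok.pos h.fok.od_ne
      (fun u hu => h.fok.split (Int.natCast_dvd.2 hu)) a b hg e
  · exact absurd (p ▸ h.fok.spl_p a) (Nf_nd (spl_Nf b))
  · exact absurd (p.trans (b ▸ p2)) (f2 _ (h.fok.spl_p a))
  · exact absurd (p ▸ h.fok.spl_p a) (h.fok.ndf (h.deep w b).adm)
  · exact absurd (spl_N a) (p ▸ lN w b)
  · exact absurd (p ▸ h.fok.spl_p b) (Nf_nd (spl_Nf a))
  · exact spl_apart h.nok.pos (Nf_ne f) (fun u hu => h.nok.split (Nf_N hu)) a b hg e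
  · exact absurd (p.trans (b ▸ p2)) (N2 _ (spl_N a))
  · exact absurd (p ▸ spl_N a) (h.deep w b).adm.ndN
  · exact absurd (p.symm.trans (a ▸ p2)) (l2 w b)
  · exact absurd (p.symm.trans (a ▸ p2)) (f2 _ (h.fok.spl_p b))
  · exact absurd (p.symm.trans (a ▸ p2)) (N2 _ (spl_N b))
  · rw [a, b]
  · exact absurd (p.symm.trans (a ▸ p2)) (h.deep w b).adm.ne_two
  · exact absurd (p ▸ h.tok.dvd w b) (h.deep v a).ne
  · exact absurd (p ▸ h.fok.spl_p b) (h.fok.ndf (h.deep v a).adm)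
  · exact absurd (p ▸ spl_N b) (h.deep v a).adm.ndN
  · exact absurd (p.trans (b ▸ p2)) (h.deep v a).adm.ne_two
  · exact h.inj v a w b p

theorem SOk0.away (h : SOk0 T n f k lam ψ Q) : Away (GK n) (pls f lam Q) w ↔
    ¬ w.p ∣ 2 * NN ∧ ¬ (w.p : ℤ) ∣ od f ∧ ¬ w.p ∣ lam.c ∧ ∀ v ∈ Q, w.p ≠ v.p := by
  have key : ∀ v ∈ pls f lam Q, fr v ∉ GK n → Away (GK n) (pls f lam Q) w → w.p ≠ v.p :=
    fun v hv h1 h2 e => (conj_of_inert e (fr_spec v).1 h1).elim fun g hg => h2 v hv g hg.1 hg.2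
  have k0 : Away (GK n) (pls f lam Q) w → ¬ (w.p : ℤ) ∣ od f := fun a e => by
    obtain ⟨v, hv, g, hg, e⟩ := exists_spl h.nok.pos h.fok.od_ne (Int.natCast_dvd.1 e)
    exact a v (mem_pls.2 (by simp [hv])) g hg e
  refine ⟨fun a => ⟨fun e => ?_, k0 a, fun e => (h.tok.ex w e).elim fun v hv =>
      key v (mem_pls.2 (.inl hv.1)) (h.tok.ad' hv.1).fr_notMem a hv.2,
    fun v hv => key v (mem_pls.2 (by simp [hv])) (h.deep v hv).adm.fr_notMem a⟩,
    fun ⟨a1, a2, a3, a4⟩ v hv g _ e => ?_⟩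
  · rcases (dvd_two_NN w.prime).1 e with e | e
    · exact key w2 (mem_pls.2 (by simp)) (h.nok.out_two w2_p) a (e.trans w2_p.symm)
    · obtain ⟨v, hv, g, hg, e⟩ := exists_spl h.nok.pos (Nf_ne f) (h.fok.dvd_Nf e (k0 a))
      exact a v (mem_pls.2 (by simp [hv])) g hg e
  · have p : w.p = v.p := e ▸ rfl
    rcases mem_pls.1 hv with b | b | b | b | b
    · exact a3 (p ▸ h.tok.dvd v b)
    · exact a2 (p ▸ h.fok.spl_p b)
    · exact a1 (p ▸ (spl_N b).mul_left 2)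
    · exact a1 ((dvd_two_NN w.prime).2 (.inl (p.trans (b ▸ w2_p))))
    · exact a4 v b p

theorem SOk0.good (h : SOk0 T n f k lam ψ Q) (hB : Kil k B) :
    GoodA (GK n) (act T ψ B) (pls f lam Q) := fun w hw => by
  obtain ⟨a1, a2, a3, -⟩ := h.away.1 hw
  exact ⟨ne_two_of a1, fun σ hσ x => act_id hB (h.chr.unr1 h.fok (ne_two_of a1) a2 a3 hσ)
    (by rw [T.unr w a1 σ hσ.2, la_mred_one]) x⟩

theorem InSU.away (h : SOk0 T n f k lam ψ Q) (hc : InSU T n f lam ψ Q ty c) :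
    ∀ w, Away (GK n) (pls f lam Q) w → ∀ σ ∈ GK n ⊓ Ine w, c σ = 0 := fun w hw =>
  hc.unr w (h.away.1 hw).1 (h.away.1 hw).2.1 (h.away.1 hw).2.2.1 (h.away.1 hw).2.2.2

theorem InSU.coc (hc : InSU T n f lam ψ Q ty c) (w : Plc) : Coc (GK n ⊓ Dec w) (act T ψ B) c :=
  hc.z1.1.lo_mono inf_le_left

theorem InSU.of_dp (hc : InSU T n f lam ψ Q ty c) {ty' : Plc → Ty}
    (e : ∀ w ∈ Q, (c (fq w), c (gn w)) ∈ (ty' w).cond B) : InSU T n f lam ψ Q ty' c :=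
  ⟨hc.z1, hc.unr, hc.lur, hc.kum, e⟩

/-- Selmer groups are finite. -/
theorem SOk0.finite_SU (h : SOk0 T n f k lam ψ Q) (hB : Kil k B) [Finite B] :
    Finite (SU T n f lam ψ Q ty B) := by
  obtain ⟨B', _, _, _, β, hB', hβ⟩ := exists_perf hB
  have := finite_Zu3 (op_GK n) (h.chr.dual3 h.nok.pos T hB hB' hβ) (pls f lam Q)
  exact Finite.of_injective (fun c => (⟨c.1, c.2.z1, InSU.away h c.2⟩ :
    Zu (GK n) (act T ψ B) (pls f lam Q))) fun _ _ e => Subtype.ext (congrArg (·.1) e)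

theorem SOk0.finite_SM (h : SOk0 T n f k lam ψ Q) (hB : Kil k B) [Finite B] :
    Finite (SM T n f lam ψ Q ty B) :=
  have := h.finite_SU (ty := ty) hB
  Finite.of_injective _ (Submodule.inclusion_injective (inf_le_left : SM T n f lam ψ Q ty B ≤ _))

theorem sel_finite (_F : CFT) (_su : SUStmt) (_ch : ChebStmt) (h : SOk0 T n f k lam ψ Q)
    (hB : Kil k B) [Finite B] :
    Finite (SU T n f lam ψ Q ty B) ∧ Finite (SM T n f lam ψ Q ty B) :=
  ⟨h.finite_SU hB, h.finite_SM hB⟩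

/-- Normalisation at the prime of the tower. -/
theorem SOk0.card_SU (h : SOk0 T n f k lam ψ Q) (hB : Kil k B) :
    Nat.card (SU T n f lam ψ Q ty B) = Nat.card (SM T n f lam ψ Q ty B) * Nat.card B ^ 2 := by
  have m := h.adm.tm'.mem
  rw [← xlc_card2, ← Nat.card_prod]
  refine Nat.card_congr (Equiv.ofBijective (fun p : SM T n f lam ψ Q ty B × (Fin 2 → B) =>
    (⟨p.1.1 + rs (GK n) (cob (act T ψ B) p.2), add_mem p.1.2.1 (h.cob_mem hB _)⟩ :
      SU T n f lam ψ Q ty B)) ⟨fun p q e => ?_, fun c => ?_⟩).symm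
  · have e0 := congrArg Subtype.val e
    have e1 := congrFun e0 (fq lam.pl)
    simp only [Pi.add_apply, show p.1.1 (fq lam.pl) = 0 from p.1.2.2, rs_of_mem m,
      show q.1.1 (fq lam.pl) = 0 from q.1.2.2, zero_add] at e1
    have e2 : p.2 = q.2 := sub_eq_zero.1 (h.lam_fix (by rw [lf_cob_sub, e1, sub_self]))
    simp only [e2, add_left_inj] at e0
    exact Prod.ext (Subtype.ext e0) e2
  · obtain ⟨x, hx⟩ := h.norm hB c.2
    exact ⟨(⟨_, hx⟩, x), Subtype.ext (sub_add_cancel _ _)⟩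

/-- The local conditions. -/
noncomputable def Lc (T : Tate) (n : ℕ) (f : ℤ) (ψ : Gam → Lam)
    (N : Plc → AddSubgroup ((Fin 2 → B) × (Fin 2 → B))) (w : Plc) : AddSubgroup (Gam → Fin 2 → B) :=
  if w = w2 then LK T f (GK n ⊓ Dec w) B else if w.p ∣ NN then Lur (GK n) w (act T ψ B) else
    Ldp (GK n ⊓ Dec w) (act T ψ B) (fq w) (gn w) (N w)

theorem Lc_two : Lc T n f ψ N w2 = LK T f (GK n ⊓ Dec w2) B := if_pos rfl

theorem Lc_N (hw : w.p ∣ NN) : Lc T n f ψ N w = Lur (GK n) w (act T ψ B) := by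
  rw [Lc, if_neg (ne_w2 (ne_two_of_dvd hw)), if_pos hw]

theorem Lc_dp (hw : Adm n w.p) :
    Lc T n f ψ N w = Ldp (GK n ⊓ Dec w) (act T ψ B) (fq w) (gn w) (N w) := by
  rw [Lc, if_neg (ne_w2 hw.ne_two), if_neg hw.ndN]

/-- Selmer groups that are rigidified at the places in `R`. -/
noncomputable def SelX (T : Tate) (n : ℕ) (f : ℤ) (lam : Tp) (ψ : Gam → Lam) (R Q : Finset Plc)
    (N : Plc → AddSubgroup ((Fin 2 → B) × (Fin 2 → B))) : AddSubgroup (Co B) :=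
  Sel (GK n) (act T ψ B) (pls f lam Q) R (plT f Q) (Lc T n f ψ N)

theorem SOk0.mem_SelX (h : SOk0 T n f k lam ψ Q) (hB : Kil k B) {z : Co B} :
    z ∈ SelX T n f lam ψ R Q N ↔ InSU T n f lam ψ Q (fun _ => .rel) z.1 ∧
      (∀ w ∈ R, ∀ g ∈ GK n ⊓ Dec w, z.1 g = cob (act T ψ B) (z.2 w) g) ∧
      (∀ w ∉ R, z.2 w = 0) ∧ ∀ w ∈ Q, (z.1 (fq w), z.1 (gn w)) ∈ N w := by
  have dp : z.1 ∈ Z1 (GK n) (act T ψ B) → ∀ w ∈ Q, (rs (GK n ⊓ Dec w) z.1 ∈ Lc T n f ψ N w ↔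
      (z.1 (fq w), z.1 (gn w)) ∈ N w) := fun h1 w hw => by
    rw [Lc_dp (h.deep w hw).adm, mem_Ldp, rs_of_mem (h.tm hw).φ_mem, rs_of_mem (h.tm hw).τ_mem]
    exact and_iff_right (h1.1.lo_mono inf_le_left).lo_rs
  have ur : z.1 ∈ Z1 (GK n) (act T ψ B) → ∀ w : Plc, w.p ∣ NN →
      (rs (GK n ⊓ Dec w) z.1 ∈ Lc T n f ψ N w ↔ ∃ x, ∀ σ ∈ Ine w, z.1 σ = cob (act T ψ B) x σ) :=
    fun h1 w hw => by
      rw [Lc_N hw, rs_mem_Lur ((Ine_le w).trans (h.nok.split hw)) (h1.1.lo_mono inf_le_left)]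
  refine ⟨fun ⟨h1, h2, h3, h4, h5⟩ => ⟨⟨h1, fun w a b c d => h2 w (h.away.2 ⟨a, b, c, d⟩),
    fun w hw => ?_, ?_, fun _ _ => trivial⟩, h3, h4, fun w hw => (dp h1 w hw).1
      (h5 w (mem_union_right _ (mem_insert_of_mem hw)))⟩,
    fun ⟨h1, h3, h4, h5⟩ => ⟨h1.z1, h1.away h, h3, h4, fun w hw => ?_⟩⟩
  · obtain ⟨v, hv, γ, hγ, rfl⟩ := exists_spl h.nok.pos (Nf_ne f) hw
    obtain ⟨x, hx⟩ := (ur h1 v (spl_N hv)).1 (h5 v (mem_union_left _ hv))
    exact ⟨_, fun σ hσ => lf_conj (h.chr.act0 T hB) h1.1 hγ (h.nok.split (Nf_N hw) (Ine_le _ hσ))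
      (hx _ (mem_Ine_smul.1 hσ))⟩
  · have := h5 w2 (mem_union_right _ (mem_insert_self _ _))
    rwa [Lc_two, rs_mem_LK] at this
  · rcases mem_union.1 hw with hw | hw
    · exact (ur h1.z1 w (spl_N hw)).2 (h1.lur w (spl_Nf hw))
    rcases mem_insert.1 hw with rfl | hw
    · rw [Lc_two, rs_mem_LK]
      exact h1.kum
    · exact (dp h1.z1 w hw).2 (h5 w hw)

theorem SOk0.mem_SelX0 (h : SOk0 T n f k lam ψ Q) (hB : Kil k B) {z : Co B} :
    z ∈ SelX T n f lam ψ ∅ Q (cnd B ty) ↔ InSU T n f lam ψ Q ty z.1 ∧ z.2 = 0 := by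
  rw [h.mem_SelX hB]
  exact ⟨fun ⟨a, _, b, d⟩ => ⟨a.of_dp d, funext fun w => b w (notMem_empty w)⟩,
    fun ⟨a, b⟩ => ⟨a.of_dp fun _ _ => trivial, fun w hw => absurd hw (notMem_empty w),
      fun w _ => congrFun b w, a.dp⟩⟩

theorem SOk0.card_SelX0 (h : SOk0 T n f k lam ψ Q) (hB : Kil k B) :
    Nat.card (SelX T n f lam ψ ∅ Q (cnd B ty)) =
      Nat.card (SM T n f lam ψ Q ty B) * Nat.card B ^ 2 := by
  rw [← h.card_SU hB]
  exact Nat.card_congr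
    { toFun := fun z => ⟨z.1.1, ((h.mem_SelX0 hB).1 z.2).1⟩
      invFun := fun c => ⟨(c.1, 0), (h.mem_SelX0 hB).2 ⟨c.2, rfl⟩⟩
      left_inv := fun z => Subtype.ext (Prod.ext rfl ((h.mem_SelX0 hB).1 z.2).2.symm)
      right_inv := fun _ => rfl }

end Pool.Agent.B6.B7
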